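import Pool.Agent.Helper935_AdS.Setup

namespace Helper935.AdS

namespace A_comparison

/- Proof:
D(s) = f s - (f 0 cosh ks + f1 0 sinh ks / k) satisfies D'' >= k^2 D, D(0)=D'(0)=0. E.g. (D' + k D) e^{-ks} is nondecreasing [derivative (D''-k^2 D) e^{-ks} >= 0] hence >= 0, then D e^{ks} is nondecreasing, hence >= 0.
-/
theorem comparison {f f1 f2 : ℝ → ℝ} {k : ℝ} (hk : 0 < k) (hf : ∀ s, HasDerivAt f (f1 s) s)
    (hf1 : ∀ s, HasDerivAt f1 (f2 s) s) (h : ∀ s, 0 ≤ s → k ^ 2 * f s ≤ f2 s) {s : ℝ} (hs : 0 ≤ s) :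
    f 0 * Real.cosh (k * s) + f1 0 * (Real.sinh (k * s) / k) ≤ f s := by
  have hmon : ∀ {g g' : ℝ → ℝ}, (∀ s, HasDerivAt g (g' s) s) → (∀ s, 0 ≤ s → 0 ≤ g' s) → ∀ s, 0 ≤ s → g 0 ≤ g s := by
    intro g g' hg hg' s hs
    have hm : MonotoneOn g (Set.Ici 0) := by
      apply monotoneOn_of_deriv_nonneg (convex_Ici 0)
      · exact (continuous_iff_continuousAt.mpr (fun s => (hg s).continuousAt)).continuousOn
      · exact fun s _ => (hg s).differentiableAt.differentiableWithinAt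
      · intro s hs
        rw [interior_Ici] at hs
        rw [(hg s).deriv]
        exact hg' s (le_of_lt hs)
    exact hm (Set.mem_Ici.mpr le_rfl) (Set.mem_Ici.mpr hs) hs
  have hexp : ∀ (c s : ℝ), HasDerivAt (fun s => Real.exp (c * s)) (c * Real.exp (c * s)) s := by
    intro c s
    have h1 : HasDerivAt (fun s : ℝ => c * s) c s := by simpa using (hasDerivAt_id s).const_mul c
    exact h1.exp.congr_deriv (by ring)
  have hE : ∀ s, 0 ≤ s → f1 0 + k * f 0 ≤ (f1 s + k * f s) * Real.exp (-k * s) := by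
    intro s hs
    have hd : ∀ s, HasDerivAt (fun s => (f1 s + k * f s) * Real.exp (-k * s))
        ((f2 s - k ^ 2 * f s) * Real.exp (-k * s)) s := by
      intro s
      exact (((hf1 s).add ((hf s).const_mul k)).mul (hexp (-k) s)).congr_deriv (by
        simp only [Pi.add_apply]
        ring)
    have := hmon hd (fun s hs => mul_nonneg (by linarith [h s hs]) (Real.exp_pos _).le) s hs
    simpa using this
  have hG : f 0 ≤ f s * Real.exp (k * s) - (f1 0 + k * f 0) * (Real.exp (2 * k * s) - 1) / (2 * k) := by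
    have hd : ∀ s, HasDerivAt (fun s => f s * Real.exp (k * s) -
        (f1 0 + k * f 0) * (Real.exp (2 * k * s) - 1) / (2 * k))
        ((f1 s + k * f s) * Real.exp (k * s) - (f1 0 + k * f 0) * Real.exp (2 * k * s)) s := by
      intro s
      exact (((hf s).mul (hexp k s)).sub ((((hexp (2 * k) s).sub_const 1).const_mul
        (f1 0 + k * f 0)).div_const (2 * k))).congr_deriv (by
          field_simp)
    have hnn : ∀ s, 0 ≤ s → 0 ≤ (f1 s + k * f s) * Real.exp (k * s) -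
        (f1 0 + k * f 0) * Real.exp (2 * k * s) := by
      intro s hs
      have e1 : (f1 s + k * f s) * Real.exp (k * s) =
          ((f1 s + k * f s) * Real.exp (-k * s)) * Real.exp (2 * k * s) := by
        rw [mul_assoc, ← Real.exp_add]
        congr 2
        ring
      rw [e1, ← sub_mul]
      exact mul_nonneg (by linarith [hE s hs]) (Real.exp_pos _).le
    have := hmon hd hnn s hs
    simpa using this
  have hpos : 0 < Real.exp (k * s) := Real.exp_pos _
  have e2 : Real.exp (2 * k * s) = Real.exp (k * s) * Real.exp (k * s) := by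
    rw [← Real.exp_add]; congr 1; ring
  have e3 : Real.exp (-(k * s)) * Real.exp (k * s) = 1 := by
    rw [← Real.exp_add]; simp
  rw [e2] at hG
  have key : (f 0 * Real.cosh (k * s) + f1 0 * (Real.sinh (k * s) / k)) * Real.exp (k * s) ≤
      f s * Real.exp (k * s) := by
    have e4 : (f 0 * Real.cosh (k * s) + f1 0 * (Real.sinh (k * s) / k)) * Real.exp (k * s) =
        f 0 + (f1 0 + k * f 0) * (Real.exp (k * s) * Real.exp (k * s) - 1) / (2 * k) := by
      rw [Real.cosh_eq, Real.sinh_eq]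
      have : f 0 * ((Real.exp (k * s) + Real.exp (-(k * s))) / 2) * Real.exp (k * s) +
          f1 0 * ((Real.exp (k * s) - Real.exp (-(k * s))) / 2 / k) * Real.exp (k * s) =
          f 0 * (Real.exp (k * s) * Real.exp (k * s) + Real.exp (-(k * s)) * Real.exp (k * s)) / 2 +
          f1 0 * (Real.exp (k * s) * Real.exp (k * s) - Real.exp (-(k * s)) * Real.exp (k * s)) / (2 * k) := by
        field_simp
      rw [add_mul, this, e3]
      field_simp
      ring
    rw [e4]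
    linarith
  exact le_of_mul_le_mul_right key hpos

end A_comparison

alias comparison := A_comparison.comparison

namespace A_quadratic

/- Proof:
f1 s >= f1 0 + c s, then integrate again (monotonicity arguments)
-/
theorem quadratic {f f1 f2 : ℝ → ℝ} {c : ℝ} (hf : ∀ s, HasDerivAt f (f1 s) s)
    (hf1 : ∀ s, HasDerivAt f1 (f2 s) s) (h : ∀ s, 0 ≤ s → c ≤ f2 s) {s : ℝ} (hs : 0 ≤ s) :
    f 0 + f1 0 * s + c * s ^ 2 / 2 ≤ f s := by
  have key : ∀ {g g' : ℝ → ℝ}, (∀ t, HasDerivAt g (g' t) t) → (∀ t, 0 ≤ t → 0 ≤ g' t) →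
      ∀ t, 0 ≤ t → g 0 ≤ g t := by
    intro g g' hg hg' t ht
    have hm : MonotoneOn g (Set.Ici (0 : ℝ)) := by
      apply monotoneOn_of_deriv_nonneg (convex_Ici 0)
      · exact fun x _ => (hg x).continuousAt.continuousWithinAt
      · exact fun x _ => (hg x).differentiableAt.differentiableWithinAt
      · intro x hx
        rw [interior_Ici] at hx
        rw [(hg x).deriv]
        exact hg' x (le_of_lt hx)
    exact hm (Set.mem_Ici.mpr le_rfl) (Set.mem_Ici.mpr ht) ht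
  have h1 : ∀ t, 0 ≤ t → f1 0 + c * t ≤ f1 t := by
    intro t ht
    have := key (g := fun t => f1 t - c * t) (g' := fun t => f2 t - c)
      (fun u => by
        have e := (hf1 u).sub ((hasDerivAt_id u).const_mul c)
        rw [mul_one] at e
        exact e)
      (fun u hu => by have := h u hu; linarith) t ht
    simp only [mul_zero, sub_zero] at this
    linarith
  have h2 := key (g := fun t => f t - (f1 0 * t + c * t ^ 2 / 2))
    (g' := fun t => f1 t - (f1 0 + c * t))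
    (fun u => by
      have e := (hf u).sub (((hasDerivAt_id u).const_mul (f1 0)).add
        ((((hasDerivAt_id u).pow 2).const_mul c).div_const 2))
      have e2 : f1 u - (f1 0 + c * u)
          = f1 u - (f1 0 * 1 + c * (((2 : ℕ) : ℝ) * id u ^ (2 - 1) * 1) / 2) := by
        simp only [id_eq, Nat.cast_ofNat, Nat.add_one_sub_one, pow_one]
        ring
      rw [e2]
      exact e)
    (fun u hu => by have := h1 u hu; linarith) s hs
  simp only [mul_zero, ne_eq, OfNat.ofNat_ne_zero, not_false_eq_true, zero_pow, zero_div,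
    add_zero, sub_zero] at h2
  linarith

end A_quadratic

alias quadratic := A_quadratic.quadratic

namespace A_second_test

/- Proof:
standard first and second derivative test at a global max: f1(0)=0 and if c>0 then f has a strict local minimum there, contradiction.
-/
theorem second_test {f f1 : ℝ → ℝ} {c : ℝ} (hf : ∀ s, HasDerivAt f (f1 s) s)
    (hf1 : HasDerivAt f1 c 0) (h : ∀ s, f s ≤ f 0) : f1 0 = 0 ∧ c ≤ 0 := by
  have h0 : f1 0 = 0 :=
    IsLocalMax.hasDerivAt_eq_zero (Filter.Eventually.of_forall h) (hf 0)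
  refine ⟨h0, ?_⟩
  by_contra hc
  rw [not_le] at hc
  have h1 := (hasDerivAt_iff_tendsto_slope.1 hf1).eventually (lt_mem_nhds hc)
  rw [eventually_nhdsWithin_iff, Metric.eventually_nhds_iff] at h1
  obtain ⟨ε, hε, h2⟩ := h1
  have hε2 : 0 < ε / 2 := half_pos hε
  obtain ⟨ξ, hξ, h3⟩ := exists_hasDerivAt_eq_slope f f1 hε2
    (fun s _ => (hf s).continuousAt.continuousWithinAt) (fun s _ => hf s)
  have h4 : 0 < slope f1 0 ξ := by
    refine h2 ?_ hξ.1.ne'
    rw [Real.dist_eq, sub_zero, abs_of_pos hξ.1]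
    linarith [hξ.2]
  rw [slope_def_field, h0, sub_zero, sub_zero] at h4
  have h5 : 0 < f1 ξ := by
    have h6 := mul_pos h4 hξ.1
    rwa [div_mul_cancel₀ _ hξ.1.ne'] at h6
  rw [h3, sub_zero] at h5
  have h6 : 0 < f (ε / 2) - f 0 := by
    have h7 := mul_pos h5 hε2
    rwa [div_mul_cancel₀ _ hε2.ne'] at h7
  linarith [h (ε / 2)]

end A_second_test

alias second_test := A_second_test.second_test

namespace A_lyapunov

/-- auxiliary primitive of `1 / (1 - t ^ 2)` -/
noncomputable def LL (t : ℝ) : ℝ := (Real.log (1 + t) - Real.log (1 - t)) / 2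

lemma LL_eq {t : ℝ} (h1 : -1 < t) (h2 : t < 1) : LL t = Real.artanh t := by
  rw [Real.artanh_eq_half_log ⟨h1.le, h2.le⟩,
    Real.log_div (by
      have : 0 < 1 + t := by linarith
      exact this.ne') (by
      have : 0 < 1 - t := by linarith
      exact this.ne')]
  unfold LL
  ring

lemma LL_deriv {t : ℝ} (h1 : -1 < t) (h2 : t < 1) : HasDerivAt LL (1 / (1 - t ^ 2)) t := by
  have hp1 : 0 < 1 + t := by linarith
  have hp2 : 0 < 1 - t := by linarith
  have hp3 : 0 < 1 - t ^ 2 := by nlinarith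
  have ha : HasDerivAt (fun t : ℝ => 1 + t) 1 t := (hasDerivAt_id t).const_add 1
  have hb : HasDerivAt (fun t : ℝ => 1 - t) (-1) t := (hasDerivAt_id t).const_sub 1
  have h := ((ha.log hp1.ne').sub (hb.log hp2.ne')).div_const 2
  have e : (1 / (1 + t) - -1 / (1 - t)) / 2 = 1 / (1 - t ^ 2) := by
    have : (1 - t ^ 2) = (1 + t) * (1 - t) := by ring
    rw [this]
    field_simp
    ring
  rw [e] at h
  exact h

lemma LL_key {t m : ℝ} (h0 : 0 ≤ t) (htm : t ≤ m) (hm : m < 1) :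
    (1 + t * (LL m - LL t)) / Real.sqrt (1 - t ^ 2) ≤ 1 / Real.sqrt (1 - m ^ 2) := by
  have h1 : -1 < t := by linarith
  have h2 : t < 1 := by linarith
  have h3 : -1 < m := by linarith
  rw [LL_eq h3 hm, LL_eq h1 h2]
  have hs := Real.sinh_artanh (x := t) ⟨h1, h2⟩
  have hc := Real.cosh_artanh (x := t) ⟨h1, h2⟩
  have hcm := Real.cosh_artanh (x := m) ⟨h3, hm⟩
  have hδ : 0 ≤ Real.artanh m - Real.artanh t := by
    have := Real.artanh_le_artanh h1 hm htm
    linarith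
  have hη : 0 ≤ Real.artanh t := Real.artanh_nonneg h0
  have hsn : 0 ≤ Real.sinh (Real.artanh t) := Real.sinh_nonneg_iff.mpr hη
  have e1 : (1 + t * (Real.artanh m - Real.artanh t)) / Real.sqrt (1 - t ^ 2)
      = Real.cosh (Real.artanh t) + Real.sinh (Real.artanh t) * (Real.artanh m - Real.artanh t) := by
    rw [hs, hc]
    ring
  rw [e1, ← hcm]
  have e2 : Real.cosh (Real.artanh m) = Real.cosh (Real.artanh t) * Real.cosh (Real.artanh m - Real.artanh t)
      + Real.sinh (Real.artanh t) * Real.sinh (Real.artanh m - Real.artanh t) := by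
    rw [← Real.cosh_add]
    congr 1
    ring
  rw [e2]
  have f1 := Real.one_le_cosh (Real.artanh m - Real.artanh t)
  have f2 := Real.self_le_sinh_iff.mpr hδ
  have f3 := Real.cosh_pos (Real.artanh t)
  have g1 := mul_le_mul_of_nonneg_left f1 f3.le
  have g2 := mul_le_mul_of_nonneg_left f2 hsn
  linarith

lemma lyap_alg {a m x p c W W1 n A : ℝ} (ha : 0 < a) (hx0 : 0 ≤ x) (hx1 : x < 1)
    (hn : 0 < n) (hn2 : n ^ 2 = a ^ 2 * (1 - x ^ 2) + p ^ 2) (hA : 0 ≤ A)
    (hc : c ≤ a ^ 2 * x) (hW : 0 < W) (hW1 : W1 ≤ W * ((-(x * p) + n) / (1 - x ^ 2)))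
    (hkey : (1 + x * A) / Real.sqrt (1 - x ^ 2) ≤ 1 / Real.sqrt (1 - m ^ 2)) :
    W1 / W - (1 / 2) * (-(2 * x * p) / (1 - x ^ 2)) +
      ((-(p * (1 / (1 - x ^ 2)))) * (p / n) +
        A * ((c * n - p * ((a ^ 2 * (-(2 * x * p)) + 2 * p * c) / (2 * n))) / n ^ 2)) ≤
      a / Real.sqrt (1 - m ^ 2) := by
  have hD : 0 < 1 - x ^ 2 := by nlinarith
  have s1 : W1 / W ≤ (-(x * p) + n) / (1 - x ^ 2) := by
    rw [div_le_iff₀ hW]
    linarith
  have s2 : (c * n - p * ((a ^ 2 * (-(2 * x * p)) + 2 * p * c) / (2 * n))) / n ^ 2 ≤ a ^ 2 * x / n := by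
    have e : (c * n - p * ((a ^ 2 * (-(2 * x * p)) + 2 * p * c) / (2 * n))) / n ^ 2
        = (c * (n ^ 2 - p ^ 2) + a ^ 2 * x * p ^ 2) / n ^ 3 := by
      field_simp
      ring
    have e' : a ^ 2 * x / n = (a ^ 2 * x * (n ^ 2 - p ^ 2) + a ^ 2 * x * p ^ 2) / n ^ 3 := by
      field_simp
      ring
    rw [e, e']
    apply div_le_div_of_nonneg_right _ (by positivity)
    have h0 : 0 ≤ n ^ 2 - p ^ 2 := by
      rw [hn2]
      have : 0 ≤ a ^ 2 * (1 - x ^ 2) := by positivity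
      linarith
    have := mul_le_mul_of_nonneg_right hc h0
    linarith
  have s3 := mul_le_mul_of_nonneg_left s2 hA
  have s4 : (-(x * p) + n) / (1 - x ^ 2) - (1 / 2) * (-(2 * x * p) / (1 - x ^ 2)) +
      ((-(p * (1 / (1 - x ^ 2)))) * (p / n) + A * (a ^ 2 * x / n)) = a ^ 2 * (1 + x * A) / n := by
    have e5 : a ^ 2 = (n ^ 2 - p ^ 2) / (1 - x ^ 2) := by
      rw [hn2]
      field_simp
      ring
    have e6 : a ^ 2 * (1 + x * A) / n = a ^ 2 / n + A * (a ^ 2 * x / n) := by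
      field_simp
    rw [e6]
    have e7 : a ^ 2 / n = (n ^ 2 - p ^ 2) / (1 - x ^ 2) / n := by rw [← e5]
    have e8 : (n ^ 2 - p ^ 2) / (1 - x ^ 2) / n = n / (1 - x ^ 2) - p ^ 2 / ((1 - x ^ 2) * n) := by
      field_simp
    have e9 : (-(x * p) + n) / (1 - x ^ 2) - (1 / 2) * (-(2 * x * p) / (1 - x ^ 2)) +
      ((-(p * (1 / (1 - x ^ 2)))) * (p / n)) = n / (1 - x ^ 2) - p ^ 2 / ((1 - x ^ 2) * n) := by
      field_simp
      ring
    rw [← add_assoc, e9, e7, e8]
  have s5 : a * Real.sqrt (1 - x ^ 2) ≤ n := by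
    apply le_of_sq_le_sq _ hn.le
    rw [mul_pow, Real.sq_sqrt hD.le, hn2]
    nlinarith [sq_nonneg p]
  have hsq : 0 < Real.sqrt (1 - x ^ 2) := Real.sqrt_pos.mpr hD
  have s6 : a ^ 2 * (1 + x * A) / n ≤ a * ((1 + x * A) / Real.sqrt (1 - x ^ 2)) := by
    rw [div_le_iff₀ hn]
    have hB : 0 ≤ 1 + x * A := by positivity
    have e : a * ((1 + x * A) / Real.sqrt (1 - x ^ 2)) * n =
        (a * (1 + x * A) / Real.sqrt (1 - x ^ 2)) * n := by ring
    rw [e]
    have h1 : (a * (1 + x * A) / Real.sqrt (1 - x ^ 2)) * (a * Real.sqrt (1 - x ^ 2)) ≤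
        (a * (1 + x * A) / Real.sqrt (1 - x ^ 2)) * n :=
      mul_le_mul_of_nonneg_left s5 (by positivity)
    have h2 : (a * (1 + x * A) / Real.sqrt (1 - x ^ 2)) * (a * Real.sqrt (1 - x ^ 2)) =
        a ^ 2 * (1 + x * A) := by
      field_simp
    linarith
  have s7 : a * ((1 + x * A) / Real.sqrt (1 - x ^ 2)) ≤ a / Real.sqrt (1 - m ^ 2) := by
    have := mul_le_mul_of_nonneg_left hkey ha.le
    calc a * ((1 + x * A) / Real.sqrt (1 - x ^ 2)) ≤ a * (1 / Real.sqrt (1 - m ^ 2)) := this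
      _ = a / Real.sqrt (1 - m ^ 2) := by ring
  linarith

/- Proof:
Put A(v) = artanh m - artanh v (artanh t = (1/2) log((1+t)/(1-t))), nu = sqrt(a^2(1-v^2)+p^2) > 0 with p = v1, r = p/nu in (-1,1), kappa = a^2 v - v2 >= 0.
Then nu' = -p kappa/nu, r' = a^2 v/nu - kappa a^2 (1-v^2)/nu^3, A' = -p/(1-v^2), so (A r)' = -p^2/((1-v^2) nu) + A a^2 v/nu - (nonneg).
The hypothesis on w1 says (log w - (1/2) log(1-v^2))' <= nu/(1-v^2) = a^2/nu + p^2/((1-v^2) nu).
Hence E(s) = log w - (1/2) log(1-v^2) + A r has E' <= a^2 (1 + v A)/nu <= a (1+v A)/sqrt(1-v^2) <= a/sqrt(1-m^2):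
with eta = artanh v, mu = artanh m the last inequality is cosh eta + sinh eta (mu - eta) <= cosh mu (convexity of cosh).
Since |A r| <= artanh m on both ends and 0 <= -(1/2)log(1-v^2) <= -(1/2) log(1-m^2), integrate from 0 to D.
-/
theorem lyapunov {a m D : ℝ} (ha : 0 < a) (hm0 : 0 < m) (hm1 : m < 1) (hD : 0 ≤ D)
    {v v1 v2 w w1 : ℝ → ℝ}
    (hv : ∀ s, HasDerivAt v (v1 s) s) (hv1 : ∀ s, HasDerivAt v1 (v2 s) s)
    (hw : ∀ s, HasDerivAt w (w1 s) s)
    (h2 : ∀ s ∈ Set.Icc 0 D, v2 s ≤ a ^ 2 * v s)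
    (hv0 : ∀ s ∈ Set.Icc 0 D, 0 ≤ v s) (hvm : ∀ s ∈ Set.Icc 0 D, v s ≤ m)
    (hwpos : ∀ s ∈ Set.Icc 0 D, 0 < w s)
    (hw1 : ∀ s ∈ Set.Icc 0 D, w1 s ≤
      w s * ((-(v s * v1 s) + Real.sqrt (a ^ 2 * (1 - v s ^ 2) + v1 s ^ 2)) / (1 - v s ^ 2))) :
    w D ≤ ((1 + m) / (1 - m) / Real.sqrt (1 - m ^ 2)) * Real.exp (a * D / Real.sqrt (1 - m ^ 2)) * w 0 := by
  have hmsq : 0 < 1 - m ^ 2 := by nlinarith
  have hx1 : ∀ s ∈ Set.Icc 0 D, v s < 1 := fun s hs => lt_of_le_of_lt (hvm s hs) hm1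
  have hD1 : ∀ s ∈ Set.Icc 0 D, 0 < 1 - v s ^ 2 := fun s hs => by
    have h1 := hx1 s hs
    have h2 := hv0 s hs
    nlinarith
  have hrad : ∀ s ∈ Set.Icc 0 D, 0 < a ^ 2 * (1 - v s ^ 2) + v1 s ^ 2 := fun s hs => by
    have h1 := hD1 s hs
    have h2 : 0 < a ^ 2 * (1 - v s ^ 2) := by positivity
    have h3 := sq_nonneg (v1 s)
    linarith
  set E : ℝ → ℝ := fun s => Real.log (w s) - (1 / 2) * Real.log (1 - v s ^ 2) +
    (LL m - LL (v s)) * (v1 s / Real.sqrt (a ^ 2 * (1 - v s ^ 2) + v1 s ^ 2)) with hE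
  set E' : ℝ → ℝ := fun s => w1 s / w s - (1 / 2) * (-(2 * v s * v1 s) / (1 - v s ^ 2)) +
      ((-(v1 s * (1 / (1 - v s ^ 2)))) * (v1 s / Real.sqrt (a ^ 2 * (1 - v s ^ 2) + v1 s ^ 2)) +
        (LL m - LL (v s)) * ((v2 s * Real.sqrt (a ^ 2 * (1 - v s ^ 2) + v1 s ^ 2) -
          v1 s * ((a ^ 2 * (-(2 * v s * v1 s)) + 2 * v1 s * v2 s) /
            (2 * Real.sqrt (a ^ 2 * (1 - v s ^ 2) + v1 s ^ 2)))) /
            (Real.sqrt (a ^ 2 * (1 - v s ^ 2) + v1 s ^ 2)) ^ 2)) with hE'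
  have hder : ∀ s ∈ Set.Icc 0 D, HasDerivAt E (E' s) s := by
    intro s hs
    have hw0 := hwpos s hs
    have hd1 := hD1 s hs
    have hr := hrad s hs
    have hxs := hx1 s hs
    have hx0 := hv0 s hs
    have d1 : HasDerivAt (fun s => Real.log (w s)) (w1 s / w s) s := (hw s).log hw0.ne'
    have d2 : HasDerivAt (fun s => 1 - v s ^ 2) (-(2 * v s * v1 s)) s := by
      have h := ((hv s).pow 2).const_sub 1
      have e : -((2 : ℕ) * v s ^ (2 - 1) * v1 s) = -(2 * v s * v1 s) := by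
        norm_num
      rw [e] at h
      exact h
    have d3 : HasDerivAt (fun s => Real.log (1 - v s ^ 2)) (-(2 * v s * v1 s) / (1 - v s ^ 2)) s :=
      d2.log hd1.ne'
    have d4 : HasDerivAt (fun s => a ^ 2 * (1 - v s ^ 2) + v1 s ^ 2)
        (a ^ 2 * (-(2 * v s * v1 s)) + 2 * v1 s * v2 s) s := by
      have h := (d2.const_mul (a ^ 2)).add ((hv1 s).pow 2)
      have e : a ^ 2 * (-(2 * v s * v1 s)) + (2 : ℕ) * v1 s ^ (2 - 1) * v2 s =
          a ^ 2 * (-(2 * v s * v1 s)) + 2 * v1 s * v2 s := by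
        norm_num
      rw [e] at h
      exact h
    have d5 := d4.sqrt hr.ne'
    have d6 := (hv1 s).div d5 (Real.sqrt_pos.mpr hr).ne'
    have d7 : HasDerivAt (fun s => LL (v s)) (1 / (1 - v s ^ 2) * v1 s) s :=
      (LL_deriv (by linarith) hxs).comp s (hv s)
    have d8 := (d7.const_sub (LL m)).mul d6
    have d9 := (d1.sub (d3.const_mul (1 / 2))).add d8
    have eD : w1 s / w s - 1 / 2 * (-(2 * v s * v1 s) / (1 - v s ^ 2)) +
      (-(1 / (1 - v s ^ 2) * v1 s) * (v1 / fun y => Real.sqrt (a ^ 2 * (1 - v y ^ 2) + v1 y ^ 2)) s +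
        (LL m - LL (v s)) *
          ((v2 s * Real.sqrt (a ^ 2 * (1 - v s ^ 2) + v1 s ^ 2) -
              v1 s * ((a ^ 2 * -(2 * v s * v1 s) + 2 * v1 s * v2 s) /
                (2 * Real.sqrt (a ^ 2 * (1 - v s ^ 2) + v1 s ^ 2)))) /
            Real.sqrt (a ^ 2 * (1 - v s ^ 2) + v1 s ^ 2) ^ 2)) = E' s := by
      have e1 : (v1 / fun y => Real.sqrt (a ^ 2 * (1 - v y ^ 2) + v1 y ^ 2)) s =
        v1 s / Real.sqrt (a ^ 2 * (1 - v s ^ 2) + v1 s ^ 2) := rfl
      rw [e1, mul_comm (1 / (1 - v s ^ 2)) (v1 s)]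
    rw [eD] at d9
    exact d9
  have hbound : ∀ s ∈ Set.Icc 0 D, E' s ≤ a / Real.sqrt (1 - m ^ 2) := by
    intro s hs
    have hr := hrad s hs
    apply lyap_alg ha (hv0 s hs) (hx1 s hs) (Real.sqrt_pos.mpr hr) (Real.sq_sqrt hr.le)
      _ (h2 s hs) (hwpos s hs) (hw1 s hs) (LL_key (hv0 s hs) (hvm s hs) hm1)
    have h0 := hv0 s hs
    have hxs := hx1 s hs
    rw [LL_eq (by linarith) hm1, LL_eq (by linarith) hxs]
    have := Real.artanh_le_artanh (by linarith : -1 < v s) hm1 (hvm s hs)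
    linarith
  -- integrate
  have hanti : AntitoneOn (fun s => E s - a / Real.sqrt (1 - m ^ 2) * s) (Set.Icc 0 D) := by
    have hd : ∀ s ∈ Set.Icc 0 D, HasDerivAt (fun s => E s - a / Real.sqrt (1 - m ^ 2) * s)
        (E' s - a / Real.sqrt (1 - m ^ 2)) s := by
      intro s hs
      have h := (hder s hs).sub ((hasDerivAt_id s).const_mul (a / Real.sqrt (1 - m ^ 2)))
      rw [mul_one] at h
      exact h
    apply antitoneOn_of_deriv_nonpos (convex_Icc 0 D)
    · intro s hs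
      exact (hd s hs).continuousAt.continuousWithinAt
    · intro s hs
      rw [interior_Icc] at hs
      exact (hd s (Set.Ioo_subset_Icc_self hs)).differentiableAt.differentiableWithinAt
    · intro s hs
      rw [interior_Icc] at hs
      rw [(hd s (Set.Ioo_subset_Icc_self hs)).deriv]
      have := hbound s (Set.Ioo_subset_Icc_self hs)
      linarith
  have h0mem : (0 : ℝ) ∈ Set.Icc 0 D := ⟨le_refl _, hD⟩
  have hDmem : D ∈ Set.Icc 0 D := ⟨hD, le_refl _⟩
  have hmain := hanti h0mem hDmem hD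
  simp only [mul_zero, sub_zero] at hmain
  -- bounds on `A r`
  have hAr : ∀ s ∈ Set.Icc 0 D,
      |(LL m - LL (v s)) * (v1 s / Real.sqrt (a ^ 2 * (1 - v s ^ 2) + v1 s ^ 2))| ≤ LL m := by
    intro s hs
    have h0 := hv0 s hs
    have hxs := hx1 s hs
    have hr := hrad s hs
    have hsp := Real.sqrt_pos.mpr hr
    have hL1 : LL m = Real.artanh m := LL_eq (by linarith) hm1
    have hL2 : LL (v s) = Real.artanh (v s) := LL_eq (by linarith) hxs
    have hmono := Real.artanh_le_artanh (by linarith : -1 < v s) hm1 (hvm s hs)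
    have hnn := Real.artanh_nonneg h0
    rw [abs_mul]
    have k1 : |LL m - LL (v s)| ≤ LL m := by
      rw [hL1, hL2, abs_of_nonneg (by linarith)]
      linarith
    have k2 : |v1 s / Real.sqrt (a ^ 2 * (1 - v s ^ 2) + v1 s ^ 2)| ≤ 1 := by
      rw [abs_div, abs_of_pos hsp, div_le_one hsp]
      apply Real.le_sqrt_of_sq_le
      rw [sq_abs]
      have h1 := hD1 s hs
      have h2 : 0 < a ^ 2 * (1 - v s ^ 2) := by positivity
      linarith
    calc |LL m - LL (v s)| * |v1 s / Real.sqrt (a ^ 2 * (1 - v s ^ 2) + v1 s ^ 2)|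
        ≤ LL m * 1 := mul_le_mul k1 k2 (abs_nonneg _) (by linarith [abs_nonneg (LL m - LL (v s))])
      _ = LL m := mul_one _
  have hAr0 := (abs_le.mp (hAr 0 h0mem)).2
  have hArD := (abs_le.mp (hAr D hDmem)).1
  have hlogD : Real.log (1 - v D ^ 2) ≤ 0 := by
    apply Real.log_nonpos (hD1 D hDmem).le
    nlinarith [sq_nonneg (v D)]
  have hlog0 : Real.log (1 - m ^ 2) ≤ Real.log (1 - v 0 ^ 2) := by
    apply Real.log_le_log hmsq
    have h1 := hv0 0 h0mem
    have h2 := hvm 0 h0mem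
    nlinarith
  have hfin : Real.log (w D) ≤ Real.log (w 0) - (1 / 2) * Real.log (1 - m ^ 2) + 2 * LL m +
      a / Real.sqrt (1 - m ^ 2) * D := by
    have hEE : E D = Real.log (w D) - (1 / 2) * Real.log (1 - v D ^ 2) +
      (LL m - LL (v D)) * (v1 D / Real.sqrt (a ^ 2 * (1 - v D ^ 2) + v1 D ^ 2)) := rfl
    have hE0 : E 0 = Real.log (w 0) - (1 / 2) * Real.log (1 - v 0 ^ 2) +
      (LL m - LL (v 0)) * (v1 0 / Real.sqrt (a ^ 2 * (1 - v 0 ^ 2) + v1 0 ^ 2)) := rfl
    rw [hEE, hE0] at hmain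
    linarith
  have hwD := hwpos D hDmem
  have hw0 := hwpos 0 h0mem
  have hexp := Real.exp_le_exp.mpr hfin
  rw [Real.exp_log hwD] at hexp
  have hsp := Real.sqrt_pos.mpr hmsq
  have e1 : Real.exp (Real.log (w 0) - (1 / 2) * Real.log (1 - m ^ 2) + 2 * LL m +
      a / Real.sqrt (1 - m ^ 2) * D) =
      ((1 + m) / (1 - m) / Real.sqrt (1 - m ^ 2)) * Real.exp (a * D / Real.sqrt (1 - m ^ 2)) * w 0 := by
    have q1 : Real.exp ((1 / 2) * Real.log (1 - m ^ 2)) = Real.sqrt (1 - m ^ 2) := by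
      rw [Real.sqrt_eq_rpow, Real.rpow_def_of_pos hmsq]
      congr 1
      ring
    have q2 : Real.exp (2 * LL m) = (1 + m) / (1 - m) := by
      have e : 2 * LL m = Real.log (1 + m) - Real.log (1 - m) := by
        unfold LL
        ring
      rw [e, Real.exp_sub, Real.exp_log (by linarith), Real.exp_log (by linarith)]
    have q3 : a / Real.sqrt (1 - m ^ 2) * D = a * D / Real.sqrt (1 - m ^ 2) := by ring
    rw [Real.exp_add, Real.exp_add, Real.exp_sub, q1, q2, q3, Real.exp_log hw0]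
    field_simp
  rw [e1] at hexp
  exact hexp

end A_lyapunov

alias lyapunov := A_lyapunov.lyapunov

namespace A_sinh_small

/- Proof:
sqrt(2(cosh d - 1)) = 2 sinh(d/2) and 2 sinh(d/2)/d -> 1 as d -> 0+.
-/
theorem sinh_small {l : ℝ} (hl0 : 0 < l) (hl : l < 1) :
    ∃ d : ℝ, 0 < d ∧ l * Real.sqrt (2 * (Real.cosh d - 1)) < d := by
  have h1 : 1 < l⁻¹ := (one_lt_inv₀ hl0).2 hl
  have h2 : Filter.Tendsto (fun t : ℝ => t⁻¹ • (Real.sinh (0 + t) - Real.sinh 0))
      (nhdsWithin 0 (Set.Ioi 0)) (nhds (Real.cosh 0)) :=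
    (Real.hasDerivAt_sinh 0).tendsto_slope_zero_right
  rw [Real.cosh_zero] at h2
  have h3 := (h2.eventually (gt_mem_nhds h1)).and
    (eventually_mem_nhdsWithin : ∀ᶠ t : ℝ in nhdsWithin 0 (Set.Ioi 0), t ∈ Set.Ioi (0 : ℝ))
  obtain ⟨x, hx, hx0⟩ := h3.exists
  have hx0' : 0 < x := hx0
  rw [zero_add, Real.sinh_zero, sub_zero, smul_eq_mul] at hx
  have h4 : l * Real.sinh x < x := by
    have h5 : Real.sinh x < l⁻¹ * x := by
      rw [inv_mul_eq_div, div_lt_iff₀ hx0'] at hx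
      exact hx
    calc l * Real.sinh x < l * (l⁻¹ * x) := mul_lt_mul_of_pos_left h5 hl0
      _ = x := by rw [← mul_assoc, mul_inv_cancel₀ hl0.ne', one_mul]
  refine ⟨2 * x, by positivity, ?_⟩
  have h6 : 2 * (Real.cosh (2 * x) - 1) = (2 * Real.sinh x) ^ 2 := by
    rw [Real.cosh_two_mul]
    have := Real.cosh_sq x
    nlinarith
  have h7 : 0 ≤ 2 * Real.sinh x := by
    have := Real.sinh_nonneg_iff.2 hx0'.le
    linarith
  rw [h6, Real.sqrt_sq h7]
  linarith

end A_sinh_small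

alias sinh_small := A_sinh_small.sinh_small

end Helper935.AdS
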