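import Pool.Agent.Helper935_AdS.Lin

namespace Helper935.AdS

namespace A_surf_cone

theorem surf_cone_open : IsOpen Cone := by
  have h1 : Continuous fun x : V3 => eta x x := by unfold eta; fun_prop
  have h2 : Continuous fun x : V3 => x 0 := by fun_prop
  exact (isOpen_lt h1 continuous_const).inter (isOpen_lt continuous_const h2)

theorem surf_cone_q_add (A B C : V4) : q A (B + C) = q A B + q A C := by
  simp [q]; ring

theorem surf_cone_q_smul (A B : V4) (c : ℝ) : q A (c • B) = c * q A B := by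
  simp [q]; ring

theorem surf_cone_q_comm (A B : V4) : q A B = q B A := by
  simp [q]; ring

theorem surf_cone_eta_smul (t : ℝ) (x y : V3) : eta (t • x) y = t * eta x y := by
  simp [eta]; ring

theorem surf_cone_eta_smul' (t : ℝ) (x y : V3) : eta x (t • y) = t * eta x y := by
  simp [eta]; ring

theorem surf_cone_eta_add' (x y z : V3) : eta x (y + z) = eta x y + eta x z := by
  simp [eta]; ring

theorem surf_cone_eta_add (x y z : V3) : eta (y + z) x = eta y x + eta z x := by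
  simp [eta]; ring

theorem surf_cone_eta_comm (x y : V3) : eta x y = eta y x := by
  simp [eta]; ring

theorem surf_cone_H2 {u : V3} (hu : u ∈ H2) : u ∈ Cone := ⟨by rw [hu.1]; norm_num, hu.2⟩

theorem surf_cone_diff {a : ℝ} {X N : V3 → V4} (h : IsSurface a X N) {x : V3} (hx : x ∈ Cone) :
    DifferentiableAt ℝ X x :=
  (h.smoothX.differentiableOn (by norm_num)).differentiableAt (surf_cone_open.mem_nhds hx)

theorem surf_cone_scale {x : V3} (hx : x ∈ Cone) {t : ℝ} (ht : 0 < t) : t • x ∈ Cone := by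
  refine ⟨?_, ?_⟩
  · rw [surf_cone_eta_smul, surf_cone_eta_smul']
    have := hx.1
    have h2 : 0 < t * t := by positivity
    nlinarith
  · show 0 < t * x 0
    exact mul_pos ht hx.2

theorem surf_cone_fderiv {a : ℝ} {X N : V3 → V4} (h : IsSurface a X N) {x : V3} (hx : x ∈ Cone)
    {t : ℝ} (ht : 0 < t) (v : V3) : fderiv ℝ X (t • x) v = fderiv ℝ X x v := by
  have h1 : HasFDerivAt X (fderiv ℝ X x) x := (surf_cone_diff h hx).hasFDerivAt
  have h2 : HasFDerivAt X (fderiv ℝ X (t • x)) (t • x) :=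
    (surf_cone_diff h (surf_cone_scale hx ht)).hasFDerivAt
  have h3 : HasFDerivAt (fun y : V3 => X (t • y))
      ((fderiv ℝ X (t • x)).comp (t • ContinuousLinearMap.id ℝ V3)) x := by
    have : HasFDerivAt (fun y : V3 => t • y) (t • ContinuousLinearMap.id ℝ V3) x :=
      (hasFDerivAt_id x).const_smul t
    exact h2.comp x this
  have h4 : HasFDerivAt (fun y : V3 => t • X y) (t • fderiv ℝ X x) x := h1.const_smul t
  have h5 : (fun y : V3 => X (t • y)) =ᶠ[nhds x] fun y => t • X y := by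
    filter_upwards [surf_cone_open.mem_nhds hx] with y hy
    exact h.homX y hy t ht
  have h6 := (h4.congr_of_eventuallyEq h5).unique h3
  have h7 := congrArg (fun L : V3 →L[ℝ] V4 => L v) h6
  simp only [ContinuousLinearMap.smul_apply, ContinuousLinearMap.comp_apply,
    ContinuousLinearMap.id_apply, map_smul] at h7
  exact (smul_right_injective V4 ht.ne' h7).symm

theorem surf_cone_euler {a : ℝ} {X N : V3 → V4} (h : IsSurface a X N) {x : V3} (hx : x ∈ Cone) :
    fderiv ℝ X x x = X x := by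
  have h1 : HasFDerivAt X (fderiv ℝ X x) ((1 : ℝ) • x) := by
    rw [one_smul]; exact (surf_cone_diff h hx).hasFDerivAt
  have h0 : HasDerivAt (fun t : ℝ => t • x) x 1 := by
    simpa using (hasDerivAt_id (1 : ℝ)).smul_const x
  have h2 : HasDerivAt (fun t : ℝ => X (t • x)) (fderiv ℝ X x x) 1 := h1.comp_hasDerivAt (1 : ℝ) h0
  have h3 : HasDerivAt (fun t : ℝ => t • X x) (X x) 1 := by
    simpa using (hasDerivAt_id (1 : ℝ)).smul_const (X x)
  have h5 : (fun t : ℝ => X (t • x)) =ᶠ[nhds 1] fun t => t • X x := by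
    filter_upwards [lt_mem_nhds (show (0 : ℝ) < 1 by norm_num)] with t ht
    exact h.homX x hx t ht
  exact h2.unique (h3.congr_of_eventuallyEq h5)

theorem surf_cone_unit {x : V3} (hx : x ∈ Cone) : ∃ r : ℝ, 0 < r ∧ ∃ u ∈ H2, x = r • u := by
  have h1 : 0 < -eta x x := by have := hx.1; linarith
  have hr : 0 < Real.sqrt (-eta x x) := Real.sqrt_pos.2 h1
  refine ⟨Real.sqrt (-eta x x), hr, (Real.sqrt (-eta x x))⁻¹ • x, ⟨?_, ?_⟩, ?_⟩
  · rw [surf_cone_eta_smul, surf_cone_eta_smul']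
    have h2 : Real.sqrt (-eta x x) * Real.sqrt (-eta x x) = -eta x x :=
      Real.mul_self_sqrt h1.le
    set r := Real.sqrt (-eta x x)
    have h3 : eta x x = -(r * r) := by linarith
    rw [h3]
    field_simp
  · show 0 < (Real.sqrt (-eta x x))⁻¹ * x 0
    exact mul_pos (inv_pos.2 hr) hx.2
  · rw [smul_smul, mul_inv_cancel₀ hr.ne', one_smul]

theorem surf_cone_XX {a : ℝ} {X N : V3 → V4} (h : IsSurface a X N) {x : V3} (hx : x ∈ Cone) :
    q (X x) (X x) = eta x x := by
  obtain ⟨r, hr, u, hu, rfl⟩ := surf_cone_unit hx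
  rw [h.homX u (surf_cone_H2 hu) r hr, surf_cone_q_smul, surf_cone_q_comm, surf_cone_q_smul,
    h.XX u hu, surf_cone_eta_smul, surf_cone_eta_smul', hu.1]

theorem surf_cone_XdX {a : ℝ} {X N : V3 → V4} (h : IsSurface a X N) {x : V3} (hx : x ∈ Cone)
    (v : V3) : q (X x) (fderiv ℝ X x v) = eta x v := by
  set D := fderiv ℝ X x v with hD
  have hline : HasDerivAt (fun s : ℝ => x + s • v) v 0 := by
    simpa using ((hasDerivAt_id (0 : ℝ)).smul_const v).const_add x
  have h1 : HasFDerivAt X (fderiv ℝ X x) (x + (0 : ℝ) • v) := by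
    rw [zero_smul, add_zero]; exact (surf_cone_diff h hx).hasFDerivAt
  have h2 : HasDerivAt (fun s : ℝ => X (x + s • v)) D 0 := h1.comp_hasDerivAt (0 : ℝ) hline
  have h3 : ∀ i, HasDerivAt (fun s : ℝ => X (x + s • v) i) (D i) 0 := fun i =>
    (hasDerivAt_pi.1 h2) i
  have h4 : ∀ i, HasDerivAt (fun s : ℝ => (x + s • v) i) (v i) 0 := fun i =>
    (hasDerivAt_pi.1 hline) i
  have e1 : HasDerivAt (fun s : ℝ => q (X (x + s • v)) (X (x + s • v))) (2 * q (X x) D) 0 := by
    have := ((((h3 0).mul (h3 0)).neg.add ((h3 1).mul (h3 1))).add ((h3 2).mul (h3 2))).sub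
      ((h3 3).mul (h3 3))
    simp only [zero_smul, add_zero] at this
    refine (this.congr_deriv ?_)
    unfold q
    ring
  have e2 : HasDerivAt (fun s : ℝ => eta (x + s • v) (x + s • v)) (2 * eta x v) 0 := by
    have := (((h4 0).mul (h4 0)).neg.add ((h4 1).mul (h4 1))).add ((h4 2).mul (h4 2))
    simp only [zero_smul, add_zero] at this
    refine (this.congr_deriv ?_)
    unfold eta
    ring
  have h5 : (fun s : ℝ => q (X (x + s • v)) (X (x + s • v))) =ᶠ[nhds 0]
      fun s => eta (x + s • v) (x + s • v) := by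
    have hc : Filter.Tendsto (fun s : ℝ => x + s • v) (nhds 0) (nhds x) := by
      have := hline.continuousAt.tendsto
      simpa using this
    filter_upwards [hc.eventually (surf_cone_open.mem_nhds hx)] with s hs
    exact surf_cone_XX h hs
  have h6 := e1.unique (e2.congr_of_eventuallyEq h5)
  linarith

theorem surf_cone_decomp {u : V3} (hu : u ∈ H2) (v : V3) :
    eta u (v + eta u v • u) = 0 ∧ v = (v + eta u v • u) + (-eta u v) • u := by
  constructor
  · rw [surf_cone_eta_add', surf_cone_eta_smul', hu.1]; ring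
  · rw [neg_smul]; abel

/-- on `H2` -/
theorem surf_cone_H {a : ℝ} {X N : V3 → V4} (h : IsSurface a X N) {u : V3} (hu : u ∈ H2) :
    (∀ v w, q (fderiv ℝ X u v) (fderiv ℝ X u w) =
      a ^ 2 * eta v w - (1 - a ^ 2) * (eta u v * eta u w)) ∧
    (∀ v, q (N u) (fderiv ℝ X u v) = 0) := by
  have hC := surf_cone_H2 hu
  have hE := surf_cone_euler h hC
  constructor
  · intro v w
    obtain ⟨v1, v2⟩ := surf_cone_decomp hu v
    obtain ⟨w1, w2⟩ := surf_cone_decomp hu w
    set v' := v + eta u v • u with hv'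
    set w' := w + eta u w • u with hw'
    have ev : fderiv ℝ X u v = fderiv ℝ X u v' + (-eta u v) • X u := by
      rw [← hE, ← map_smul, ← map_add, ← v2]
    have ew : fderiv ℝ X u w = fderiv ℝ X u w' + (-eta u w) • X u := by
      rw [← hE, ← map_smul, ← map_add, ← w2]
    have k1 := surf_cone_XdX h hC v'
    have k2 := surf_cone_XdX h hC w'
    have k3 := h.metric u hu v' w' v1 w1
    have k4 := h.XX u hu
    rw [v1] at k1
    rw [w1] at k2
    have k5 : eta v' w' = eta v w + eta u v * eta u w := by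
      rw [hv', hw', surf_cone_eta_add', surf_cone_eta_add, surf_cone_eta_smul',
        surf_cone_eta_add, surf_cone_eta_smul, surf_cone_eta_smul, hu.1, surf_cone_eta_comm v u]
      ring
    rw [ev, ew, surf_cone_q_add, surf_cone_q_comm (fderiv ℝ X u v' + (-eta u v) • X u)
      (fderiv ℝ X u w'), surf_cone_q_add, surf_cone_q_comm (fderiv ℝ X u w') (fderiv ℝ X u v'), k3,
      surf_cone_q_smul, surf_cone_q_comm (fderiv ℝ X u w') (X u), k2, surf_cone_q_smul,
      surf_cone_q_comm (fderiv ℝ X u v' + (-eta u v) • X u) (X u), surf_cone_q_add, k1,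
      surf_cone_q_smul, k4, k5]
    ring
  · intro v
    obtain ⟨v1, v2⟩ := surf_cone_decomp hu v
    have ev : fderiv ℝ X u v = fderiv ℝ X u (v + eta u v • u) + (-eta u v) • X u := by
      rw [← hE, ← map_smul, ← map_add, ← v2]
    rw [ev, surf_cone_q_add, h.NdX u hu _ v1, surf_cone_q_smul, h.NX u hu]
    ring

/- Proof:
For x in Cone let r = sqrt(-eta x x) > 0, so x/r in H2. Euler: fderiv X x x = X x (differentiate X(t x) = t X x at t = 1). X is differentiable on the open set Cone, and fderiv X (t x) = fderiv X x for t > 0 (differentiate X(t y) = t X(y) in y). q (X x)(X x) = r^2 q (X (x/r))(X (x/r)) = -r^2 = eta x x. At x in H2 a general v is v = -(eta x v) x + v' with eta x v' = 0, so fderiv X x v = -(eta x v) X x + fderiv X x v', q (X x) (fderiv X x v') = 0 [derivative of q X X = eta]; so q (fderiv X x v)(fderiv X x w) = -(eta x v)(eta x w) + a^2 eta v' w', eta v' w' = eta v w + (eta x v)(eta x w). For general x in Cone apply this at x/r.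 Same for N (homN, NX, NdX).
-/
theorem surf_cone {a : ℝ} {X N : V3 → V4} (h : IsSurface a X N) {x : V3} (hx : x ∈ Cone) :
    q (X x) (X x) = eta x x ∧ fderiv ℝ X x x = X x ∧
    (∀ v w, q (fderiv ℝ X x v) (fderiv ℝ X x w)
      = a ^ 2 * eta v w + (1 - a ^ 2) * (eta x v * eta x w) / eta x x) ∧
    (∀ v, q (X x) (fderiv ℝ X x v) = eta x v) ∧ (∀ v, q (N x) (fderiv ℝ X x v) = 0) ∧
    q (N x) (N x) = -1 ∧ q (N x) (X x) = 0 := by
  obtain ⟨r, hr, u, hu, rfl⟩ := surf_cone_unit hx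
  have hC := surf_cone_H2 hu
  obtain ⟨k1, k2⟩ := surf_cone_H h hu
  refine ⟨surf_cone_XX h hx, surf_cone_euler h hx, fun v w => ?_, surf_cone_XdX h hx, fun v => ?_,
    ?_, ?_⟩
  · rw [surf_cone_fderiv h hC hr, surf_cone_fderiv h hC hr, k1, surf_cone_eta_smul,
      surf_cone_eta_smul, surf_cone_eta_smul, surf_cone_eta_smul', hu.1]
    field_simp
    ring
  · rw [surf_cone_fderiv h hC hr, h.homN u hC r hr, k2]
  · rw [h.homN u hC r hr, h.NN u hu]
  · rw [h.homN u hC r hr, h.homX u hC r hr, surf_cone_q_smul, h.NX u hu, mul_zero]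

end A_surf_cone

alias surf_cone := A_surf_cone.surf_cone

namespace A_surf_second

theorem aux_hasDerivAt_q {Y Z : ℝ → V4} {Y' Z' : V4} {s : ℝ} (hY : HasDerivAt Y Y' s)
    (hZ : HasDerivAt Z Z' s) :
    HasDerivAt (fun s => q (Y s) (Z s)) (q Y' (Z s) + q (Y s) Z') s := by
  have hY : ∀ i, HasDerivAt (fun s => Y s i) (Y' i) s := fun i => (hasDerivAt_pi.mp hY) i
  have hZ : ∀ i, HasDerivAt (fun s => Z s i) (Z' i) s := fun i => (hasDerivAt_pi.mp hZ) i
  have h := (((((hY 0).fun_mul (hZ 0)).fun_neg.fun_add ((hY 1).fun_mul (hZ 1))).fun_add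
    ((hY 2).fun_mul (hZ 2))).fun_sub ((hY 3).fun_mul (hZ 3)))
  have e : q Y' (Z s) + q (Y s) Z' = -(Y' 0 * Z s 0 + Y s 0 * Z' 0) +
      (Y' 1 * Z s 1 + Y s 1 * Z' 1) + (Y' 2 * Z s 2 + Y s 2 * Z' 2) -
      (Y' 3 * Z s 3 + Y s 3 * Z' 3) := by
    simp only [q]
    ring
  rw [e]
  exact h

theorem aux_isOpen_Cone : IsOpen Cone := by
  have h1 : Continuous (fun x : V3 => eta x x) := by
    unfold eta
    fun_prop
  have h2 : Continuous (fun x : V3 => x 0) := by fun_prop
  exact (isOpen_lt h1 continuous_const).inter (isOpen_lt continuous_const h2)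

theorem aux_q_add_left (X Y Z : V4) : q (X + Y) Z = q X Z + q Y Z := by
  simp only [q, Pi.add_apply]
  ring

theorem aux_q_smul_left (c : ℝ) (X Z : V4) : q (c • X) Z = c * q X Z := by
  simp only [q, Pi.smul_apply, smul_eq_mul]
  ring

theorem aux_q_comm (X Z : V4) : q X Z = q Z X := by
  simp only [q]
  ring

theorem aux_eta_comm (X Z : V3) : eta X Z = eta Z X := by
  simp only [eta]
  ring

theorem aux_eta_line (x z w : V3) (t : ℝ) : eta (x + t • z) w = eta x w + t * eta z w := by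
  simp only [eta, Pi.add_apply, Pi.smul_apply, smul_eq_mul]
  ring

theorem aux_eta_hasDerivAt (x z w : V3) :
    HasDerivAt (fun t : ℝ => eta (x + t • z) w) (eta z w) 0 := by
  have h : HasDerivAt (fun t : ℝ => eta x w + t * eta z w) (eta z w) 0 := by
    have := ((hasDerivAt_id (0 : ℝ)).mul_const (eta z w)).const_add (eta x w)
    simpa using this
  refine h.congr_of_eventuallyEq (Filter.Eventually.of_forall ?_)
  intro t
  exact aux_eta_line x z w t

theorem aux_tangent_zero {x v : V3} (hx : x ∈ H2) (hv : eta x v = 0) (h0 : eta v v = 0) :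
    v = 0 := by
  obtain ⟨hx1, hx2⟩ := hx
  simp only [eta] at hx1 hv h0
  have h1 : x 0 * v 0 = x 1 * v 1 + x 2 * v 2 := by linarith
  have h2 : v 0 ^ 2 = v 1 ^ 2 + v 2 ^ 2 := by nlinarith
  have h3 : x 0 ^ 2 = 1 + x 1 ^ 2 + x 2 ^ 2 := by nlinarith
  have h4 : (x 1 * v 1 + x 2 * v 2) ^ 2 + (x 1 * v 2 - x 2 * v 1) ^ 2 =
      (x 1 ^ 2 + x 2 ^ 2) * (v 1 ^ 2 + v 2 ^ 2) := by ring
  have h5 : (x 0 * v 0) ^ 2 = (1 + x 1 ^ 2 + x 2 ^ 2) * (v 1 ^ 2 + v 2 ^ 2) := by
    rw [mul_pow, h3, h2]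
  have h6 : (v 1 ^ 2 + v 2 ^ 2) + (x 1 * v 2 - x 2 * v 1) ^ 2 = 0 := by
    rw [h1] at h5
    nlinarith
  have h7 : v 1 ^ 2 + v 2 ^ 2 = 0 := by
    nlinarith [sq_nonneg (v 1), sq_nonneg (v 2), sq_nonneg (x 1 * v 2 - x 2 * v 1)]
  have hv1 : v 1 = 0 := by
    have : v 1 ^ 2 = 0 := by nlinarith [sq_nonneg (v 1), sq_nonneg (v 2)]
    exact pow_eq_zero_iff (two_ne_zero) |>.mp this
  have hv2 : v 2 = 0 := by
    have : v 2 ^ 2 = 0 := by nlinarith [sq_nonneg (v 1), sq_nonneg (v 2)]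
    exact pow_eq_zero_iff (two_ne_zero) |>.mp this
  have hv0 : v 0 = 0 := by
    have : v 0 ^ 2 = 0 := by rw [h2, h7]
    exact pow_eq_zero_iff (two_ne_zero) |>.mp this
  ext i
  fin_cases i
  · exact hv0
  · exact hv1
  · exact hv2

theorem aux_H2_Cone {x : V3} (hx : x ∈ H2) : x ∈ Cone := by
  refine ⟨?_, hx.2⟩
  rw [hx.1]
  norm_num

/-- the vectors `DX u` and `N` span everything -/
theorem aux_span {a : ℝ} {X N : V3 → V4} (h : IsSurface a X N) (ha : 0 < a) {x : V3}
    (hx : x ∈ H2) (Y : V4) : ∃ (u : V3) (c : ℝ), Y = fderiv ℝ X x u + c • N x := by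
  obtain ⟨_, _, hm, hXD, hND, hNN, _⟩ := surf_cone h (aux_H2_Cone hx)
  let Φ : (V3 × ℝ) →ₗ[ℝ] V4 :=
    { toFun := fun p => fderiv ℝ X x p.1 + p.2 • N x
      map_add' := by
        intro p p'
        simp only [Prod.fst_add, Prod.snd_add, map_add, add_smul]
        abel
      map_smul' := by
        intro c p
        simp only [Prod.smul_fst, Prod.smul_snd, map_smul, smul_add, smul_eq_mul, mul_smul,
          RingHom.id_apply] }
  have hinj : Function.Injective Φ := by
    rw [← LinearMap.ker_eq_bot, LinearMap.ker_eq_bot']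
    rintro ⟨u, c⟩ hu
    have hu' : fderiv ℝ X x u + c • N x = 0 := hu
    have hc : c = 0 := by
      have h1 : q (fderiv ℝ X x u + c • N x) (N x) = 0 := by
        rw [hu']
        simp [q]
      rw [aux_q_add_left, aux_q_smul_left, hNN, aux_q_comm, hND] at h1
      linarith
    subst hc
    rw [zero_smul, add_zero] at hu'
    have h2 : eta x u = 0 := by
      rw [← hXD u, hu']
      simp [q]
    have h3 : a ^ 2 * eta u u = 0 := by
      have h4 := hm u u
      rw [hu', h2] at h4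
      have h5 : q (0 : V4) 0 = 0 := by simp [q]
      rw [h5] at h4
      simpa using h4.symm
    have h6 : eta u u = 0 := by
      rcases mul_eq_zero.mp h3 with h7 | h7
      · exact absurd (pow_eq_zero_iff (two_ne_zero) |>.mp h7) ha.ne'
      · exact h7
    rw [aux_tangent_zero hx h2 h6]
    rfl
  have hsurj : Function.Surjective Φ := by
    rw [← LinearMap.injective_iff_surjective_of_finrank_eq_finrank]
    · exact hinj
    · simp
  obtain ⟨⟨u, c⟩, hu⟩ := hsurj Y
  exact ⟨u, c, hu.symm⟩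

theorem aux_zero {a : ℝ} {X N : V3 → V4} (h : IsSurface a X N) (ha : 0 < a) {x : V3}
    (hx : x ∈ H2) (R : V4) (hX : q R (X x) = 0) (hN : q R (N x) = 0)
    (hD : ∀ u, eta x u = 0 → q R (fderiv ℝ X x u) = 0) : R = 0 := by
  obtain ⟨_, hXX, _⟩ := surf_cone h (aux_H2_Cone hx)
  apply q_nondeg
  intro Y
  obtain ⟨u, c, rfl⟩ := aux_span h ha hx Y
  have hu : fderiv ℝ X x u = fderiv ℝ X x (u + eta x u • x) + (-eta x u) • X x := by
    rw [map_add, map_smul, hXX, neg_smul]
    abel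
  have ht : eta x (u + eta x u • x) = 0 := by
    have h1 : eta x (u + eta x u • x) = eta x u + eta x u * eta x x := by
      simp only [eta, Pi.add_apply, Pi.smul_apply, smul_eq_mul]
      ring
    rw [h1, hx.1]
    ring
  rw [aux_q_comm, aux_q_add_left, aux_q_smul_left, aux_q_comm _ R, aux_q_comm (N x) R, hN, hu,
    aux_q_comm R, aux_q_add_left, aux_q_smul_left, aux_q_comm _ R, aux_q_comm (X x) R, hX,
    hD _ ht]
  ring

theorem aux_curve {E : Type*} [NormedAddCommGroup E] [NormedSpace ℝ E] {F : V3 → E} {x : V3}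
    (hF : DifferentiableAt ℝ F x) (v : V3) :
    HasDerivAt (fun t : ℝ => F (x + t • v)) (fderiv ℝ F x v) 0 := by
  have h1 : HasDerivAt (fun t : ℝ => x + t • v) v 0 := by
    have := ((hasDerivAt_id (0 : ℝ)).smul_const v).const_add x
    simpa using this
  have h2 : HasFDerivAt F (fderiv ℝ F x) (x + (0 : ℝ) • v) := by
    rw [zero_smul, add_zero]
    exact hF.hasFDerivAt
  exact h2.comp_hasDerivAt (0 : ℝ) h1

theorem aux_ev {x : V3} (hx : x ∈ H2) (v : V3) : ∀ᶠ t : ℝ in nhds 0, x + t • v ∈ Cone := by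
  have h1 : Continuous (fun t : ℝ => x + t • v) := by fun_prop
  have h2 : Cone ∈ nhds (x + (0 : ℝ) • v) := by
    rw [zero_smul, add_zero]
    exact aux_isOpen_Cone.mem_nhds (aux_H2_Cone hx)
  exact h1.continuousAt.eventually h2

/- Proof:
Write D2 v w = fderiv (fderiv X) x v w: symmetric (ContDiffAt 2, second_derivative_symmetric / ContDiffAt.isSymmSndFDerivAt). Differentiating the identities of surf_cone (valid on the open set Cone) at x in H2:
(i) q (X y)(fderiv X y w) = eta y w in direction v: q (DX v)(DX w) + q (X x)(D2 v w) = eta v w, so q (X x)(D2 v w) = (1-a^2) eta v w.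
(ii) q (DX_y v)(DX_y w) = a^2 eta v w + (1-a^2) (eta y v)(eta y w)/(eta y y) in direction z, where eta x v = eta x w = eta x z = 0: the right-hand side has derivative 0. So T(z,v,w) := q (D2 z v)(DX w) satisfies T(z,v,w) + T(z,w,v) = 0 and T(z,v,w) = T(v,z,w), hence T = 0.
(iii) q (N y)(DX_y w) = 0 in direction v: q (DN v)(DX w) + q (N x)(D2 v w) = 0.
(iv) q (N y)(X y) = 0 and q (N y)(N y) = -1 in direction v, eta x v = 0: q (DN v)(X x) = - q (N x)(DX v) = 0, q (DN v)(N x) = 0.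
The vectors X x, DX e1, DX e2, N x are a q-orthogonal basis (a > 0; e1,e2 orthonormal tangent basis at x): D2 v w + (1-a^2) eta v w X x + q(N x)(D2 v w) N x is orthogonal to X x, N x, DX e1, DX e2, hence 0. (Here q X X = -1, q N N = -1.)
-/
theorem surf_second {a : ℝ} {X N : V3 → V4} (h : IsSurface a X N) (ha : 0 < a) {x v w : V3} (hx : x ∈ H2)
    (hv : eta x v = 0) (hw : eta x w = 0) :
    fderiv ℝ (fderiv ℝ X) x v w = (-((1 - a ^ 2) * eta v w)) • X x
      + q (fderiv ℝ N x v) (fderiv ℝ X x w) • N x ∧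
    fderiv ℝ (fderiv ℝ X) x v w = fderiv ℝ (fderiv ℝ X) x w v ∧
    q (X x) (fderiv ℝ N x v) = 0 ∧ q (N x) (fderiv ℝ N x v) = 0 := by
  have hxC := aux_H2_Cone hx
  have hnh : Cone ∈ nhds x := aux_isOpen_Cone.mem_nhds hxC
  have hCX : ContDiffAt ℝ 3 X x := h.smoothX.contDiffAt hnh
  have hCN : ContDiffAt ℝ 1 N x := h.smoothN.contDiffAt hnh
  have hdX : DifferentiableAt ℝ X x := hCX.differentiableAt (by norm_num)
  have hdN : DifferentiableAt ℝ N x := hCN.differentiableAt (by norm_num)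
  have hdDX : DifferentiableAt ℝ (fderiv ℝ X) x :=
    (hCX.fderiv_right (m := 2) (by norm_num)).differentiableAt (by norm_num)
  have hsymm : ∀ z w : V3, fderiv ℝ (fderiv ℝ X) x z w = fderiv ℝ (fderiv ℝ X) x w z := by
    have h1 : IsSymmSndFDerivAt ℝ X x := (hCX.of_le (by norm_num : (2 : WithTop ℕ∞) ≤ 3)).isSymmSndFDerivAt (by simp)
    intro z w
    exact h1.eq z w
  have cX : ∀ z : V3, HasDerivAt (fun t : ℝ => X (x + t • z)) (fderiv ℝ X x z) 0 :=
    fun z => aux_curve hdX z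
  have cN : ∀ z : V3, HasDerivAt (fun t : ℝ => N (x + t • z)) (fderiv ℝ N x z) 0 :=
    fun z => aux_curve hdN z
  have cD : ∀ z w : V3, HasDerivAt (fun t : ℝ => fderiv ℝ X (x + t • z) w)
      (fderiv ℝ (fderiv ℝ X) x z w) 0 := by
    intro z w
    have h1 := aux_curve hdDX z
    exact h1.clm_apply (hasDerivAt_const (0 : ℝ) w) |>.congr_deriv (by simp)
  have hS := surf_cone h hxC
  obtain ⟨hXX, hDx, hm, hXD, hND, hNN, hNX⟩ := hS
  have z0 : ∀ z : V3, x + (0 : ℝ) • z = x := fun z => by rw [zero_smul, add_zero]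
  -- (i)
  have e1 : ∀ z w : V3, q (fderiv ℝ X x z) (fderiv ℝ X x w) +
      q (X x) (fderiv ℝ (fderiv ℝ X) x z w) = eta z w := by
    intro z w
    have d1 := aux_hasDerivAt_q (cX z) (cD z w)
    rw [z0] at d1
    have d2 : HasDerivAt (fun t : ℝ => q (X (x + t • z)) (fderiv ℝ X (x + t • z) w))
        (eta z w) 0 := by
      refine (aux_eta_hasDerivAt x z w).congr_of_eventuallyEq ?_
      filter_upwards [aux_ev hx z] with t ht
      exact (surf_cone h ht).2.2.2.1 w
    exact d1.unique d2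
  -- (ii)
  have e2 : ∀ z v w : V3, eta x v = 0 → eta x w = 0 →
      q (fderiv ℝ (fderiv ℝ X) x z v) (fderiv ℝ X x w) +
      q (fderiv ℝ X x v) (fderiv ℝ (fderiv ℝ X) x z w) = 0 := by
    intro z v w hv hw
    have d1 := aux_hasDerivAt_q (cD z v) (cD z w)
    rw [z0] at d1
    have d2 : HasDerivAt (fun t : ℝ => q (fderiv ℝ X (x + t • z) v) (fderiv ℝ X (x + t • z) w))
        0 0 := by
      have n1 := (aux_eta_hasDerivAt x z v).fun_mul (aux_eta_hasDerivAt x z w)
      have n2 : HasDerivAt (fun t : ℝ => eta (x + t • z) (x + t • z)) (2 * eta x z) 0 := by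
        have n3 : HasDerivAt (fun t : ℝ => eta x x + t * (2 * eta x z) + t ^ 2 * eta z z)
            (2 * eta x z) 0 := by
          have n4 := (((hasDerivAt_id (0 : ℝ)).mul_const (2 * eta x z)).const_add
            (eta x x)).fun_add ((hasDerivAt_pow 2 (0 : ℝ)).mul_const (eta z z))
          simpa using n4
        refine n3.congr_of_eventuallyEq (Filter.Eventually.of_forall ?_)
        intro t
        simp only [eta, Pi.add_apply, Pi.smul_apply, smul_eq_mul]
        ring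
      have hne : eta (x + (0 : ℝ) • z) (x + (0 : ℝ) • z) ≠ 0 := by
        rw [z0, hx.1]
        norm_num
      have n5 := (((n1.const_mul (1 - a ^ 2)).fun_div n2 hne).const_add (a ^ 2 * eta v w))
      rw [z0, hv, hw] at n5
      have n6 : HasDerivAt (fun t : ℝ => q (fderiv ℝ X (x + t • z) v)
          (fderiv ℝ X (x + t • z) w)) (((1 - a ^ 2) * (eta z v * 0 + 0 * eta z w) * eta x x -
            (1 - a ^ 2) * (0 * 0) * (2 * eta x z)) / eta x x ^ 2) 0 := by
        refine n5.congr_of_eventuallyEq ?_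
        filter_upwards [aux_ev hx z] with t ht
        exact (surf_cone h ht).2.2.1 v w
      refine n6.congr_deriv ?_
      simp
    exact d1.unique d2
  -- (iii)
  have e3 : ∀ z w : V3, q (fderiv ℝ N x z) (fderiv ℝ X x w) +
      q (N x) (fderiv ℝ (fderiv ℝ X) x z w) = 0 := by
    intro z w
    have d1 := aux_hasDerivAt_q (cN z) (cD z w)
    rw [z0] at d1
    have d2 : HasDerivAt (fun t : ℝ => q (N (x + t • z)) (fderiv ℝ X (x + t • z) w))
        0 0 := by
      refine (hasDerivAt_const (0 : ℝ) (0 : ℝ)).congr_of_eventuallyEq ?_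
      filter_upwards [aux_ev hx z] with t ht
      exact (surf_cone h ht).2.2.2.2.1 w
    exact d1.unique d2
  -- (iv)
  have e4 : ∀ z : V3, q (fderiv ℝ N x z) (X x) + q (N x) (fderiv ℝ X x z) = 0 := by
    intro z
    have d1 := aux_hasDerivAt_q (cN z) (cX z)
    rw [z0] at d1
    have d2 : HasDerivAt (fun t : ℝ => q (N (x + t • z)) (X (x + t • z))) 0 0 := by
      refine (hasDerivAt_const (0 : ℝ) (0 : ℝ)).congr_of_eventuallyEq ?_
      filter_upwards [aux_ev hx z] with t ht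
      exact (surf_cone h ht).2.2.2.2.2.2
    exact d1.unique d2
  have e5 : ∀ z : V3, q (fderiv ℝ N x z) (N x) + q (N x) (fderiv ℝ N x z) = 0 := by
    intro z
    have d1 := aux_hasDerivAt_q (cN z) (cN z)
    rw [z0] at d1
    have d2 : HasDerivAt (fun t : ℝ => q (N (x + t • z)) (N (x + t • z))) 0 0 := by
      refine (hasDerivAt_const (0 : ℝ) (-1 : ℝ)).congr_of_eventuallyEq ?_
      filter_upwards [aux_ev hx z] with t ht
      exact (surf_cone h ht).2.2.2.2.2.1
    exact d1.unique d2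
  have T1 : ∀ z v w : V3, eta x v = 0 → eta x w = 0 →
      q (fderiv ℝ (fderiv ℝ X) x z v) (fderiv ℝ X x w) =
      -q (fderiv ℝ (fderiv ℝ X) x z w) (fderiv ℝ X x v) := by
    intro z v w hv hw
    have := e2 z v w hv hw
    rw [aux_q_comm (fderiv ℝ X x v)] at this
    linarith
  have T0 : ∀ z v w : V3, eta x z = 0 → eta x v = 0 → eta x w = 0 →
      q (fderiv ℝ (fderiv ℝ X) x z v) (fderiv ℝ X x w) = 0 := by
    intro z v w hz hv hw
    have t1 := T1 z v w hv hw
    have t2 := T1 w z v hz hv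
    have t3 := T1 v w z hw hz
    rw [hsymm z w] at t1
    rw [hsymm w v] at t2
    rw [hsymm v z] at t3
    linarith
  have hNdN : q (N x) (fderiv ℝ N x v) = 0 := by
    have h1 := e5 v
    rw [aux_q_comm (fderiv ℝ N x v)] at h1
    linarith
  have hXdN : q (X x) (fderiv ℝ N x v) = 0 := by
    have h1 := e4 v
    rw [hND v] at h1
    rw [aux_q_comm]
    linarith
  refine ⟨?_, hsymm v w, hXdN, hNdN⟩
  have hR : fderiv ℝ (fderiv ℝ X) x v w + ((1 - a ^ 2) * eta v w) • X x +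
      (-q (fderiv ℝ N x v) (fderiv ℝ X x w)) • N x = 0 := by
    apply aux_zero h ha hx
    · rw [aux_q_add_left, aux_q_add_left, aux_q_smul_left, aux_q_smul_left, hXX, hNX, hx.1]
      have h1 := e1 v w
      rw [hm v w, hv, aux_q_comm (X x)] at h1
      have h2 : q (fderiv ℝ (fderiv ℝ X) x v w) (X x) = eta v w - a ^ 2 * eta v w := by
        have : a ^ 2 * eta v w + (1 - a ^ 2) * (0 * eta x w) / eta x x = a ^ 2 * eta v w := by
          simp
        linarith
      rw [h2]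
      ring
    · rw [aux_q_add_left, aux_q_add_left, aux_q_smul_left, aux_q_smul_left, hNN,
        aux_q_comm (X x), hNX]
      have h1 := e3 v w
      rw [aux_q_comm (N x)] at h1
      linarith
    · intro u hu
      rw [aux_q_add_left, aux_q_add_left, aux_q_smul_left, aux_q_smul_left, hND, hXD, hu,
        T0 v w u hv hw hu]
      ring
  have h9 : fderiv ℝ (fderiv ℝ X) x v w = -(((1 - a ^ 2) * eta v w) • X x) -
      (-q (fderiv ℝ N x v) (fderiv ℝ X x w)) • N x := by
    have := eq_neg_of_add_eq_zero_left hR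
    rw [← add_right_cancel_iff (a := ((1 - a ^ 2) * eta v w) • X x), this]
    abel
  rw [h9, neg_smul, neg_smul]
  abel

end A_surf_second

alias surf_second := A_surf_second.surf_second

namespace A_classical_gauss

namespace J_classical_gauss

lemma hasDerivAt_q {A B : ℝ → V4} {A' B' : V4} {t : ℝ} (hA : HasDerivAt A A' t)
    (hB : HasDerivAt B B' t) :
    HasDerivAt (fun t => q (A t) (B t)) (q A' (B t) + q (A t) B') t := by
  have a := fun i => (hasDerivAt_pi.1 hA) i
  have b := fun i => (hasDerivAt_pi.1 hB) i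
  have h := ((((a 0).mul (b 0)).neg.add ((a 1).mul (b 1))).add ((a 2).mul (b 2))).sub
    ((a 3).mul (b 3))
  unfold q
  refine (h.congr_deriv ?_).congr_of_eventuallyEq ?_
  · ring
  · exact Filter.Eventually.of_forall fun t => rfl

lemma q_comm (X Y : V4) : q X Y = q Y X := by
  unfold q; ring

lemma line {E : Type*} [NormedAddCommGroup E] [NormedSpace ℝ E] {c : V3 → E} {y v : V3} {t : ℝ}
    (hc : DifferentiableAt ℝ c (y + t • v)) :
    HasDerivAt (fun t : ℝ => c (y + t • v)) (fderiv ℝ c (y + t • v) v) t := by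
  have h1 : HasDerivAt (fun t : ℝ => y + t • v) v t := by
    simpa using ((hasDerivAt_id t).smul_const v).const_add y
  exact hc.hasFDerivAt.comp_hasDerivAt t h1

variable {X : V3 → V4} {U : Set V3}

lemma at1 (hU : IsOpen U) (hX : ContDiffOn ℝ 3 X U) {y : V3} (hy : y ∈ U) :
    ContDiffAt ℝ 2 (fderiv ℝ X) y :=
  (hX.contDiffAt (hU.mem_nhds hy)).fderiv_right (by norm_num)

lemma at2 (hU : IsOpen U) (hX : ContDiffOn ℝ 3 X U) {y : V3} (hy : y ∈ U) :
    ContDiffAt ℝ 1 (fderiv ℝ (fderiv ℝ X)) y :=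
  (at1 hU hX hy).fderiv_right (by norm_num)

lemma symm2 (hU : IsOpen U) (hX : ContDiffOn ℝ 3 X U) {y : V3} (hy : y ∈ U) (u v : V3) :
    fderiv ℝ (fderiv ℝ X) y u v = fderiv ℝ (fderiv ℝ X) y v u :=
  ((hX.contDiffAt (hU.mem_nhds hy)).isSymmSndFDerivAt (by simp; norm_num)) u v

lemma symm3a (hU : IsOpen U) (hX : ContDiffOn ℝ 3 X U) {y : V3} (hy : y ∈ U) (u v w : V3) :
    fderiv ℝ (fderiv ℝ (fderiv ℝ X)) y u v w = fderiv ℝ (fderiv ℝ (fderiv ℝ X)) y v u w := by
  have h : IsSymmSndFDerivAt ℝ (fderiv ℝ X) y :=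
    (at1 hU hX hy).isSymmSndFDerivAt (by simp)
  exact congrArg (fun L : V3 →L[ℝ] V4 => L w) (h u v)

lemma app {E F : Type*} [NormedAddCommGroup E] [NormedSpace ℝ E] [NormedAddCommGroup F]
    [NormedSpace ℝ F] {c : ℝ → E →L[ℝ] F} {c' : E →L[ℝ] F} {t : ℝ} (h : HasDerivAt c c' t)
    (u : E) : HasDerivAt (fun t => c t u) (c' u) t := by
  simpa using h.clm_apply (hasDerivAt_const t u)

lemma d1 (hU : IsOpen U) (hX : ContDiffOn ℝ 3 X U) {y v : V3} {t : ℝ} (hy : y + t • v ∈ U)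
    (u : V3) : HasDerivAt (fun t : ℝ => fderiv ℝ X (y + t • v) u)
      (fderiv ℝ (fderiv ℝ X) (y + t • v) v u) t := by
  have h := line (c := fderiv ℝ X) ((at1 hU hX hy).differentiableAt (by norm_num))
  exact app h u

lemma d2 (hU : IsOpen U) (hX : ContDiffOn ℝ 3 X U) {y v : V3} {t : ℝ} (hy : y + t • v ∈ U)
    (u w : V3) : HasDerivAt (fun t : ℝ => fderiv ℝ (fderiv ℝ X) (y + t • v) u w)
      (fderiv ℝ (fderiv ℝ (fderiv ℝ X)) (y + t • v) v u w) t := by
  have h := line (c := fderiv ℝ (fderiv ℝ X)) ((at2 hU hX hy).differentiableAt (by norm_num))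
  exact app (app h u) w

lemma symm3b (hU : IsOpen U) (hX : ContDiffOn ℝ 3 X U) {y : V3} (hy : y ∈ U) (u v w : V3) :
    fderiv ℝ (fderiv ℝ (fderiv ℝ X)) y u v w = fderiv ℝ (fderiv ℝ (fderiv ℝ X)) y u w v := by
  have hy0 : y + (0 : ℝ) • u ∈ U := by simpa using hy
  have h1 := d2 hU hX hy0 v w
  have h2 := d2 hU hX hy0 w v
  have hev : (fun t : ℝ => fderiv ℝ (fderiv ℝ X) (y + t • u) w v) =ᶠ[nhds 0]
      (fun t : ℝ => fderiv ℝ (fderiv ℝ X) (y + t • u) v w) := by
    have hc : ContinuousAt (fun t : ℝ => y + t • u) 0 := by fun_prop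
    filter_upwards [hc.preimage_mem_nhds (hU.mem_nhds hy0)] with t ht
    exact symm2 hU hX ht w v
  have h3 := h1.unique (h2.congr_of_eventuallyEq hev.symm)
  simpa using h3

end J_classical_gauss

/- Proof:
Classical. E_tt/2 = q F_stt F_s + q F_st F_st, G_ss/2 = q F_sst F_t + q F_st F_st, d_s d_t q(F_s,F_t) = q F_sst F_t + q F_ss F_tt + q F_st F_st + q F_s F_stt; third derivatives commute and cancel. Here it is stated with iterated directional derivatives along a fixed plane: P y = DX_y e1, R y = DX_y e2 (V4-valued, C^2 on U), A = D_{e1} P, B = D_{e2} R, S = D_{e2} P = D_{e1} R (symmetry of the second derivative, at every point of U), D_{e2} A = D_{e1} S, D_{e1} B = D_{e2} S (symmetry of second derivatives of P and R). g11 = q P P etc.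
-/
theorem classical_gauss {X : V3 → V4} {U : Set V3} (hU : IsOpen U) (hX : ContDiffOn ℝ 3 X U) {x : V3} (hx : x ∈ U)
    (e₁ e₂ : V3) :
    q (fderiv ℝ (fderiv ℝ X) x e₁ e₁) (fderiv ℝ (fderiv ℝ X) x e₂ e₂)
      - q (fderiv ℝ (fderiv ℝ X) x e₁ e₂) (fderiv ℝ (fderiv ℝ X) x e₁ e₂)
    = deriv (fun s : ℝ => deriv (fun t : ℝ => q (fderiv ℝ X (x + s • e₁ + t • e₂) e₁) (fderiv ℝ X (x + s • e₁ + t • e₂) e₂)) 0) 0
      - (1 / 2) * deriv (fun t : ℝ => deriv (fun t' : ℝ => q (fderiv ℝ X (x + t' • e₂) e₁) (fderiv ℝ X (x + t' • e₂) e₁)) t) 0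
      - (1 / 2) * deriv (fun s : ℝ => deriv (fun s' : ℝ => q (fderiv ℝ X (x + s' • e₁) e₂) (fderiv ℝ X (x + s' • e₁) e₂)) s) 0 := by
  have hy0 : x + (0 : ℝ) • e₁ ∈ U := by simpa using hx
  have hy0' : x + (0 : ℝ) • e₂ ∈ U := by simpa using hx
  have hc1 : ContinuousAt (fun t : ℝ => x + t • e₁) 0 := by fun_prop
  have hc2 : ContinuousAt (fun t : ℝ => x + t • e₂) 0 := by fun_prop
  have hev1 := hc1.preimage_mem_nhds (hU.mem_nhds hy0)
  have hev2 := hc2.preimage_mem_nhds (hU.mem_nhds hy0')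
  -- first term
  have E1 : (fun s : ℝ => deriv (fun t : ℝ => q (fderiv ℝ X (x + s • e₁ + t • e₂) e₁)
      (fderiv ℝ X (x + s • e₁ + t • e₂) e₂)) 0) =ᶠ[nhds 0]
      (fun s : ℝ => q (fderiv ℝ (fderiv ℝ X) (x + s • e₁) e₂ e₁) (fderiv ℝ X (x + s • e₁) e₂)
        + q (fderiv ℝ X (x + s • e₁) e₁) (fderiv ℝ (fderiv ℝ X) (x + s • e₁) e₂ e₂)) := by
    filter_upwards [hev1] with s hs
    have hs' : x + s • e₁ + (0 : ℝ) • e₂ ∈ U := by simpa using hs
    have h := J_classical_gauss.hasDerivAt_q (J_classical_gauss.d1 hU hX hs' e₁)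
      (J_classical_gauss.d1 hU hX hs' e₂)
    rw [h.deriv]
    simp only [zero_smul, add_zero]
  have E2 : (fun t : ℝ => deriv (fun t' : ℝ => q (fderiv ℝ X (x + t' • e₂) e₁)
      (fderiv ℝ X (x + t' • e₂) e₁)) t) =ᶠ[nhds 0]
      (fun t : ℝ => q (fderiv ℝ (fderiv ℝ X) (x + t • e₂) e₂ e₁) (fderiv ℝ X (x + t • e₂) e₁)
        + q (fderiv ℝ X (x + t • e₂) e₁) (fderiv ℝ (fderiv ℝ X) (x + t • e₂) e₂ e₁)) := by
    filter_upwards [hev2] with s hs
    exact (J_classical_gauss.hasDerivAt_q (J_classical_gauss.d1 hU hX hs e₁)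
      (J_classical_gauss.d1 hU hX hs e₁)).deriv
  have E3 : (fun t : ℝ => deriv (fun t' : ℝ => q (fderiv ℝ X (x + t' • e₁) e₂)
      (fderiv ℝ X (x + t' • e₁) e₂)) t) =ᶠ[nhds 0]
      (fun t : ℝ => q (fderiv ℝ (fderiv ℝ X) (x + t • e₁) e₁ e₂) (fderiv ℝ X (x + t • e₁) e₂)
        + q (fderiv ℝ X (x + t • e₁) e₂) (fderiv ℝ (fderiv ℝ X) (x + t • e₁) e₁ e₂)) := by
    filter_upwards [hev1] with s hs
    exact (J_classical_gauss.hasDerivAt_q (J_classical_gauss.d1 hU hX hs e₂)
      (J_classical_gauss.d1 hU hX hs e₂)).deriv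
  rw [E1.deriv_eq, E2.deriv_eq, E3.deriv_eq]
  have D1 := ((J_classical_gauss.hasDerivAt_q (J_classical_gauss.d2 hU hX hy0 e₂ e₁)
      (J_classical_gauss.d1 hU hX hy0 e₂)).add
    (J_classical_gauss.hasDerivAt_q (J_classical_gauss.d1 hU hX hy0 e₁)
      (J_classical_gauss.d2 hU hX hy0 e₂ e₂))).deriv
  have D2 := ((J_classical_gauss.hasDerivAt_q (J_classical_gauss.d2 hU hX hy0' e₂ e₁)
      (J_classical_gauss.d1 hU hX hy0' e₁)).add
    (J_classical_gauss.hasDerivAt_q (J_classical_gauss.d1 hU hX hy0' e₁)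
      (J_classical_gauss.d2 hU hX hy0' e₂ e₁))).deriv
  have D3 := ((J_classical_gauss.hasDerivAt_q (J_classical_gauss.d2 hU hX hy0 e₁ e₂)
      (J_classical_gauss.d1 hU hX hy0 e₂)).add
    (J_classical_gauss.hasDerivAt_q (J_classical_gauss.d1 hU hX hy0 e₂)
      (J_classical_gauss.d2 hU hX hy0 e₁ e₂))).deriv
  erw [D1, D2, D3]
  simp only [zero_smul, add_zero]
  have s21 := J_classical_gauss.symm2 hU hX hx e₂ e₁
  have a1 := J_classical_gauss.symm3b hU hX hx e₁ e₂ e₁
  have a2 : fderiv ℝ (fderiv ℝ (fderiv ℝ X)) x e₁ e₂ e₂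
      = fderiv ℝ (fderiv ℝ (fderiv ℝ X)) x e₂ e₂ e₁ := by
    rw [J_classical_gauss.symm3a hU hX hx e₁ e₂ e₂, J_classical_gauss.symm3b hU hX hx e₂ e₁ e₂]
  rw [a1, a2, s21]
  rw [J_classical_gauss.q_comm (fderiv ℝ X x e₂) (fderiv ℝ (fderiv ℝ (fderiv ℝ X)) x e₁ e₁ e₂),
    J_classical_gauss.q_comm (fderiv ℝ X x e₁) (fderiv ℝ (fderiv ℝ (fderiv ℝ X)) x e₂ e₂ e₁)]
  ring

end A_classical_gauss

alias classical_gauss := A_classical_gauss.classical_gauss

namespace A_surf_gauss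

namespace SGau

theorem H2_cone {x : V3} (hx : x ∈ H2) : x ∈ Cone := ⟨by rw [hx.1]; norm_num, hx.2⟩

theorem cone_open : IsOpen Cone := by
  have h1 : Continuous fun x : V3 => eta x x := by
    unfold eta; fun_prop
  have h2 : Continuous fun x : V3 => x 0 := by fun_prop
  exact (isOpen_lt h1 continuous_const).inter (isOpen_lt continuous_const h2)

theorem q_comb {X N : V4} (hX : q X X = -1) (hN : q N N = -1) (hNX : q N X = 0) (α β γ δ : ℝ) :
    q (α • X + β • N) (γ • X + δ • N) = -(α * γ) - β * δ := by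
  have e : q (α • X + β • N) (γ • X + δ • N) =
      α * γ * q X X + (α * δ + β * γ) * q N X + β * δ * q N N := by
    unfold q
    simp only [Pi.add_apply, Pi.smul_apply, smul_eq_mul]
    ring
  rw [e, hX, hN, hNX]
  ring

theorem eta_yy {x e₁ e₂ : V3} (hx : x ∈ H2) (he : ON x e₁ e₂) (s t : ℝ) :
    eta (x + s • e₁ + t • e₂) (x + s • e₁ + t • e₂) = -1 + s ^ 2 + t ^ 2 := by
  obtain ⟨h1, h2, h3, h4, h5⟩ := he
  have e : eta (x + s • e₁ + t • e₂) (x + s • e₁ + t • e₂) =
      eta x x + 2 * s * eta x e₁ + 2 * t * eta x e₂ + s ^ 2 * eta e₁ e₁ + t ^ 2 * eta e₂ e₂ +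
        2 * s * t * eta e₁ e₂ := by
    unfold eta
    simp only [Pi.add_apply, Pi.smul_apply, smul_eq_mul]
    ring
  rw [e, h1, h2, h3, h4, h5, hx.1]
  ring

theorem eta_y1 {x e₁ e₂ : V3} (he : ON x e₁ e₂) (s t : ℝ) :
    eta (x + s • e₁ + t • e₂) e₁ = s := by
  obtain ⟨h1, h2, h3, h4, h5⟩ := he
  have e : eta (x + s • e₁ + t • e₂) e₁ =
      eta x e₁ + s * eta e₁ e₁ + t * eta e₁ e₂ := by
    unfold eta
    simp only [Pi.add_apply, Pi.smul_apply, smul_eq_mul]
    ring
  rw [e, h1, h3, h5]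
  ring

theorem eta_y2 {x e₁ e₂ : V3} (he : ON x e₁ e₂) (s t : ℝ) :
    eta (x + s • e₁ + t • e₂) e₂ = t := by
  obtain ⟨h1, h2, h3, h4, h5⟩ := he
  have e : eta (x + s • e₁ + t • e₂) e₂ =
      eta x e₂ + s * eta e₁ e₂ + t * eta e₂ e₂ := by
    unfold eta
    simp only [Pi.add_apply, Pi.smul_apply, smul_eq_mul]
    ring
  rw [e, h2, h4, h5]
  ring

theorem near {x e₁ e₂ : V3} (hx : x ∈ H2) :
    ∀ᶠ s in nhds (0:ℝ), ∀ᶠ t in nhds (0:ℝ), x + s • e₁ + t • e₂ ∈ Cone := by
  have hc : Continuous fun p : ℝ × ℝ => x + p.1 • e₁ + p.2 • e₂ := by fun_prop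
  have h0 : (fun p : ℝ × ℝ => x + p.1 • e₁ + p.2 • e₂) (0, 0) ∈ Cone := by
    simp only [zero_smul, add_zero]
    exact H2_cone hx
  have h1 : ∀ᶠ p : ℝ × ℝ in nhds (0, 0), x + p.1 • e₁ + p.2 • e₂ ∈ Cone :=
    hc.continuousAt.eventually (cone_open.mem_nhds h0)
  exact h1.curry_nhds

theorem near1 {x e : V3} (hx : x ∈ H2) : ∀ᶠ t in nhds (0:ℝ), x + t • e ∈ Cone := by
  have hc : Continuous fun t : ℝ => x + t • e := by fun_prop
  have h0 : (fun t : ℝ => x + t • e) 0 ∈ Cone := by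
    simp only [zero_smul, add_zero]
    exact H2_cone hx
  exact hc.continuousAt.eventually (cone_open.mem_nhds h0)

theorem term1 {a : ℝ} {X N : V3 → V4} (h : IsSurface a X N) {x e₁ e₂ : V3} (hx : x ∈ H2)
    (he : ON x e₁ e₂) :
    deriv (fun s : ℝ => deriv (fun t : ℝ => q (fderiv ℝ X (x + s • e₁ + t • e₂) e₁)
      (fderiv ℝ X (x + s • e₁ + t • e₂) e₂)) 0) 0 = -(1 - a ^ 2) := by
  have h1 : (fun s : ℝ => deriv (fun t : ℝ => q (fderiv ℝ X (x + s • e₁ + t • e₂) e₁)
      (fderiv ℝ X (x + s • e₁ + t • e₂) e₂)) 0) =ᶠ[nhds 0]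
      fun s => (1 - a ^ 2) * s / (-1 + s ^ 2) := by
    have h2 : ∀ᶠ s in nhds (0:ℝ), -1 + s ^ 2 ≠ 0 := by
      have hc : Continuous fun s : ℝ => -1 + s ^ 2 := by fun_prop
      exact hc.continuousAt.eventually_ne (by norm_num)
    filter_upwards [near (e₁ := e₁) (e₂ := e₂) hx, h2] with s hs hs2
    have h3 : (fun t : ℝ => q (fderiv ℝ X (x + s • e₁ + t • e₂) e₁)
        (fderiv ℝ X (x + s • e₁ + t • e₂) e₂)) =ᶠ[nhds 0]
        fun t => (1 - a ^ 2) * (s * t) / (-1 + s ^ 2 + t ^ 2) := by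
      filter_upwards [hs] with t ht
      have h4 := (surf_cone h ht).2.2.1 e₁ e₂
      rw [h4, eta_yy hx he, eta_y1 he, eta_y2 he, he.2.2.2.2, mul_zero, zero_add]
    rw [h3.deriv_eq]
    have h5 : HasDerivAt (fun t : ℝ => (1 - a ^ 2) * (s * t) / (-1 + s ^ 2 + t ^ 2))
        ((1 - a ^ 2) * s / (-1 + s ^ 2)) 0 := by
      have h6 : HasDerivAt (fun t : ℝ => (1 - a ^ 2) * (s * t)) ((1 - a ^ 2) * (s * 1)) 0 :=
        ((hasDerivAt_id (0:ℝ)).const_mul s).const_mul (1 - a ^ 2)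
      have h7 : HasDerivAt (fun t : ℝ => -1 + s ^ 2 + t ^ 2) (2 * 0) 0 := by
        have := (hasDerivAt_pow 2 (0:ℝ)).const_add (-1 + s ^ 2)
        simpa using this
      have h8 := h6.div h7 (by simpa using hs2)
      refine h8.congr_deriv ?_
      rw [div_eq_div_iff (pow_ne_zero 2 (by simpa using hs2)) hs2]
      ring
    exact h5.deriv
  rw [h1.deriv_eq]
  have h6 : HasDerivAt (fun s : ℝ => (1 - a ^ 2) * s) ((1 - a ^ 2) * 1) 0 :=
    (hasDerivAt_id (0:ℝ)).const_mul (1 - a ^ 2)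
  have h7 : HasDerivAt (fun s : ℝ => -1 + s ^ 2) (2 * 0) 0 := by
    have := (hasDerivAt_pow 2 (0:ℝ)).const_add (-1)
    simpa using this
  have h8 := h6.div h7 (by norm_num)
  have h9 : HasDerivAt (fun s : ℝ => (1 - a ^ 2) * s / (-1 + s ^ 2)) (-(1 - a ^ 2)) 0 := by
    refine h8.congr_deriv ?_
    norm_num
  exact h9.deriv

theorem term2 {a : ℝ} {X N : V3 → V4} (h : IsSurface a X N) {x e f : V3} (hx : x ∈ H2)
    (hxe : eta x e = 0) (hee : eta e e = 1) (hfe : eta f e = 0) :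
    deriv (fun t : ℝ => deriv (fun t' : ℝ => q (fderiv ℝ X (x + t' • f) e)
      (fderiv ℝ X (x + t' • f) e)) t) 0 = 0 := by
  have h3 : (fun t' : ℝ => q (fderiv ℝ X (x + t' • f) e) (fderiv ℝ X (x + t' • f) e))
      =ᶠ[nhds 0] fun _ => a ^ 2 := by
    filter_upwards [near1 (e := f) hx] with t ht
    have h4 := (surf_cone h ht).2.2.1 e e
    have h5 : eta (x + t • f) e = 0 := by
      have : eta (x + t • f) e = eta x e + t * eta f e := by
        unfold eta
        simp only [Pi.add_apply, Pi.smul_apply, smul_eq_mul]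
        ring
      rw [this, hxe, hfe]; ring
    rw [h4, h5, hee]
    ring
  have h4 := h3.deriv
  have h5 : (fun t : ℝ => deriv (fun t' : ℝ => q (fderiv ℝ X (x + t' • f) e)
      (fderiv ℝ X (x + t' • f) e)) t) =ᶠ[nhds 0] fun _ => 0 := by
    filter_upwards [h4] with t ht
    rw [ht]
    simp
  rw [h5.deriv_eq]
  simp

end SGau

/- Proof:
Apply classical_gauss with U = Cone (open), x in H2, ON basis e1,e2. By surf_cone, for y = x + s e1 + t e2 (in Cone for small s,t; eta y e1 = s, eta y e2 = t, eta y y = -1+s^2+t^2): q (DX e1)(DX e2) = (1-a^2) s t/(-1+s^2+t^2); q(DX e1)(DX e1) on the line s = 0 is a^2 + 0; q (DX e2)(DX e2) on the line t = 0 is a^2. So the right-hand side is -(1-a^2). Left-hand side by surf_second: D2 e1 e1 = -(1-a^2) X + II11 N, D2 e2 e2 = -(1-a^2) X + II22 N, D2 e1 e2 = II12 N: it equals -(1-a^2)^2 - II11 II22 + II12^2. Hence II11 II22 - II12^2 = (1-a^2) - (1-a^2)^2 = a^2 (1-a^2).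
-/
theorem surf_gauss {a : ℝ} {X N : V3 → V4} (h : IsSurface a X N) (ha : 0 < a) {x e₁ e₂ : V3} (hx : x ∈ H2)
    (he : ON x e₁ e₂) :
    q (fderiv ℝ N x e₁) (fderiv ℝ X x e₁) * q (fderiv ℝ N x e₂) (fderiv ℝ X x e₂)
      - q (fderiv ℝ N x e₁) (fderiv ℝ X x e₂) ^ 2 = a ^ 2 * (1 - a ^ 2) := by
  have hg := classical_gauss SGau.cone_open h.smoothX (SGau.H2_cone hx) e₁ e₂
  rw [SGau.term1 h hx he, SGau.term2 h hx he.1 he.2.2.1 (by
    have : eta e₂ e₁ = eta e₁ e₂ := by unfold eta; ring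
    rw [this]; exact he.2.2.2.2), SGau.term2 h hx he.2.1 he.2.2.2.1 he.2.2.2.2] at hg
  obtain ⟨h11, -, -, -⟩ := surf_second h ha hx he.1 he.1
  obtain ⟨h22, -, -, -⟩ := surf_second h ha hx he.2.1 he.2.1
  obtain ⟨h12, -, -, -⟩ := surf_second h ha hx he.1 he.2.1
  have hXX := h.XX x hx
  have hNN := h.NN x hx
  have hNX := h.NX x hx
  rw [h11, h22, h12, SGau.q_comb hXX hNN hNX, SGau.q_comb hXX hNN hNX, he.2.2.1, he.2.2.2.1,
    he.2.2.2.2] at hg
  linear_combination -hg

end A_surf_gauss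

alias surf_gauss := A_surf_gauss.surf_gauss

namespace A_core_of_surface

theorem H2_sub_Cone : H2 ⊆ Cone := by
  intro x hx
  exact ⟨by rw [hx.1]; norm_num, hx.2⟩

theorem isOpen_Cone : IsOpen Cone := by
  have h1 : Continuous (fun x : V3 => eta x x) := by
    unfold eta
    fun_prop
  have h2 : Continuous (fun x : V3 => x 0) := by fun_prop
  exact (isOpen_lt h1 continuous_const).inter (isOpen_lt continuous_const h2)

theorem core_of_surface {a : ℝ} {X N : V3 → V4} (h : IsSurface a X N) (ha : 0 < a) (ha1 : a < 1) :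
    Core a X N (fun x v => fderiv ℝ X x v) (fun x v => fderiv ℝ N x v) := by
  have hC : ∀ x ∈ H2, Cone ∈ nhds x := fun x hx => isOpen_Cone.mem_nhds (H2_sub_Cone hx)
  have hX3 : ∀ x ∈ H2, ContDiffAt ℝ 3 X x := fun x hx => h.smoothX.contDiffAt (hC x hx)
  have hN1 : ∀ x ∈ H2, ContDiffAt ℝ 1 N x := fun x hx => h.smoothN.contDiffAt (hC x hx)
  have hXd : ∀ x ∈ H2, DifferentiableAt ℝ X x := fun x hx =>
    (hX3 x hx).differentiableAt (by norm_num)
  have hNd : ∀ x ∈ H2, DifferentiableAt ℝ N x := fun x hx =>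
    (hN1 x hx).differentiableAt (by norm_num)
  have hX2 : ∀ x ∈ H2, DifferentiableAt ℝ (fderiv ℝ X) x := fun x hx =>
    ((hX3 x hx).fderiv_right (m := 1) (by norm_num)).differentiableAt (by norm_num)
  have hgeo : ∀ x v : V3, ∀ s : ℝ, HasDerivAt (fun s => geo x v s) (geo' x v s) s := by
    intro x v s
    unfold geo geo'
    exact ((Real.hasDerivAt_cosh s).smul_const x).add ((Real.hasDerivAt_sinh s).smul_const v)
  have hgeo' : ∀ x v : V3, ∀ s : ℝ, HasDerivAt (fun s => geo' x v s) (geo x v s) s := by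
    intro x v s
    unfold geo geo'
    exact ((Real.hasDerivAt_sinh s).smul_const x).add ((Real.hasDerivAt_cosh s).smul_const v)
  refine
    { a_pos := ha
      a_lt := ha1
      contX := fun x hx => (hXd x hx).continuousAt.continuousWithinAt
      contN := fun x hx => (hNd x hx).continuousAt.continuousWithinAt
      dX_add := fun x _ v w => map_add _ v w
      dX_smul := fun x _ c v => map_smul _ c v
      dN_add := fun x _ v w => map_add _ v w
      dN_smul := fun x _ c v => map_smul _ c v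
      XX := h.XX
      NN := h.NN
      NX := h.NX
      XdX := ?_
      NdX := h.NdX
      metric := h.metric
      XdN := ?_
      NdN := ?_
      II_symm := ?_
      gauss := ?_
      geoX := ?_
      geodX := ?_
      geoN := ?_ }
  · intro x hx v hv
    show q (X x) (fderiv ℝ X x v) = 0
    rw [(surf_cone h (H2_sub_Cone hx)).2.2.2.1 v, hv]
  · intro x hx v hv
    exact (surf_second h ha hx hv hv).2.2.1
  · intro x hx v hv
    exact (surf_second h ha hx hv hv).2.2.2
  · intro x hx v w hv hw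
    obtain ⟨h1, h2, -, -⟩ := surf_second h ha hx hv hw
    obtain ⟨h3, -, -, -⟩ := surf_second h ha hx hw hv
    rw [h1, h3] at h2
    have hs : eta v w = eta w v := by unfold eta; ring
    rw [hs] at h2
    have h4 : q (fderiv ℝ N x v) (fderiv ℝ X x w) • N x
        = q (fderiv ℝ N x w) (fderiv ℝ X x v) • N x := add_left_cancel h2
    have h5 : (q (fderiv ℝ N x v) (fderiv ℝ X x w)) * q (N x) (N x)
        = (q (fderiv ℝ N x w) (fderiv ℝ X x v)) * q (N x) (N x) := by
      have h6 : ∀ (c : ℝ), c * q (N x) (N x) = q (c • N x) (N x) := by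
        intro c
        simp only [q, Pi.smul_apply, smul_eq_mul]
        ring
      rw [h6, h6, h4]
    rw [h.NN x hx] at h5
    show q (fderiv ℝ N x v) (fderiv ℝ X x w) = q (fderiv ℝ N x w) (fderiv ℝ X x v)
    linarith
  · intro x hx e₁ e₂ he
    exact surf_gauss h ha hx he
  · intro x hx v hv s
    exact ((hXd _ (geo_mem hx hv s)).hasFDerivAt).comp_hasDerivAt s (hgeo x v s)
  · intro x hx v hv s
    have hg := geo_mem hx hv s
    have hu := geo_UT hx hv s
    have h1 : HasDerivAt (fun s => fderiv ℝ X (geo x v s))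
        (fderiv ℝ (fderiv ℝ X) (geo x v s) (geo' x v s)) s :=
      ((hX2 _ hg).hasFDerivAt).comp_hasDerivAt s (hgeo x v s)
    have h2 : HasDerivAt (fun s => fderiv ℝ X (geo x v s) (geo' x v s))
        (fderiv ℝ (fderiv ℝ X) (geo x v s) (geo' x v s) (geo' x v s)
          + fderiv ℝ X (geo x v s) (geo x v s)) s := h1.clm_apply (hgeo' x v s)
    have h3 := (surf_second h ha hg hu.1 hu.1).1
    have h4 := (surf_cone h (H2_sub_Cone hg)).2.1
    rw [h3, h4, hu.2] at h2
    convert h2 using 1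
    module
  · intro x hx v hv s
    exact ((hNd _ (geo_mem hx hv s)).hasFDerivAt).comp_hasDerivAt s (hgeo x v s)

end A_core_of_surface

alias core_of_surface := A_core_of_surface.core_of_surface

namespace A_slab_exists

/-- reverse Cauchy-Schwarz -/
theorem eta_rev (y z : V3) (hy : y ∈ Cone) (hz : z ∈ Cone) :
    √(-eta y y) * √(-eta z z) ≤ -eta y z := by
  obtain ⟨hy1, hy0⟩ := hy
  obtain ⟨hz1, hz0⟩ := hz
  have hP : 0 < -eta y z := by
    simp only [eta] at *
    have h1 : (y 1 * z 1 + y 2 * z 2) ^ 2 < (y 0 * z 0) ^ 2 := by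
      have a1 : (y 1 * z 1 + y 2 * z 2) ^ 2 ≤ (y 1 ^ 2 + y 2 ^ 2) * (z 1 ^ 2 + z 2 ^ 2) := by
        nlinarith [sq_nonneg (y 1 * z 2 - y 2 * z 1)]
      have a2 : y 1 ^ 2 + y 2 ^ 2 < y 0 ^ 2 := by nlinarith
      have a3 : z 1 ^ 2 + z 2 ^ 2 < z 0 ^ 2 := by nlinarith
      have a4 : (y 1 ^ 2 + y 2 ^ 2) * (z 1 ^ 2 + z 2 ^ 2) < y 0 ^ 2 * z 0 ^ 2 :=
        mul_lt_mul'' a2 a3 (by positivity) (by positivity)
      nlinarith
    have h2 := abs_lt_of_sq_lt_sq h1 (by positivity)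
    have h3 := (abs_lt.mp h2).2
    linarith
  rw [← Real.sqrt_mul (by linarith)]
  apply Real.sqrt_le_iff.mpr
  refine ⟨hP.le, ?_⟩
  simp only [eta] at *
  have key : 0 ≤ y 0 ^ 2 * ((-(-(y 0 * z 0) + y 1 * z 1 + y 2 * z 2)) ^ 2 -
      -(-(y 0 * y 0) + y 1 * y 1 + y 2 * y 2) * -(-(z 0 * z 0) + z 1 * z 1 + z 2 * z 2)) := by
    have e : y 0 ^ 2 * ((-(-(y 0 * z 0) + y 1 * z 1 + y 2 * z 2)) ^ 2 -
      -(-(y 0 * y 0) + y 1 * y 1 + y 2 * y 2) * -(-(z 0 * z 0) + z 1 * z 1 + z 2 * z 2))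
      = (y 0 * y 0 - y 1 * y 1 - y 2 * y 2) * ((z 1 * y 0 - y 1 * z 0) ^ 2 + (z 2 * y 0 - y 2 * z 0) ^ 2)
        + (y 1 * (z 1 * y 0 - y 1 * z 0) + y 2 * (z 2 * y 0 - y 2 * z 0)) ^ 2 := by ring
    rw [e]
    have : 0 < y 0 * y 0 - y 1 * y 1 - y 2 * y 2 := by linarith
    positivity
  have := nonneg_of_mul_nonneg_right key (by positivity)
  linarith

/-- Lorentz length -/
noncomputable def rr (x : V3) : ℝ := √(-eta x x)

theorem rr_pos {x : V3} (hx : x ∈ Cone) : 0 < rr x := Real.sqrt_pos.mpr (by have := hx.1; linarith)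

theorem rr_sq {x : V3} (hx : x ∈ Cone) : rr x ^ 2 = -eta x x := Real.sq_sqrt (by have := hx.1; linarith)

theorem H2_Cone {x : V3} (hx : x ∈ H2) : x ∈ Cone := ⟨by rw [hx.1]; norm_num, hx.2⟩

theorem rr_H2 {x : V3} (hx : x ∈ H2) : rr x = 1 := by rw [rr, hx.1]; norm_num

theorem eta_smul_smul (t s : ℝ) (x y : V3) : eta (t • x) (s • y) = t * s * eta x y := by
  simp only [eta, Pi.smul_apply, smul_eq_mul]; ring

theorem eta_add_left (x y z : V3) : eta (x + y) z = eta x z + eta y z := by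
  simp only [eta, Pi.add_apply]; ring

theorem eta_comm (x y : V3) : eta x y = eta y x := by
  simp only [eta]; ring

theorem rr_smul (t : ℝ) (ht : 0 < t) (x : V3) : rr (t • x) = t * rr x := by
  rw [rr, rr, eta_smul_smul, show -(t * t * eta x x) = t ^ 2 * (-eta x x) by ring,
    Real.sqrt_mul (by positivity), Real.sqrt_sq ht.le]

theorem Cone_smul (t : ℝ) (ht : 0 < t) {x : V3} (hx : x ∈ Cone) : t • x ∈ Cone := by
  refine ⟨?_, ?_⟩
  · rw [eta_smul_smul]
    have := hx.1
    have h2 : 0 < t * t := by positivity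
    nlinarith
  · have := hx.2
    simp only [Pi.smul_apply, smul_eq_mul]
    positivity

theorem Cone_add {x y : V3} (hx : x ∈ Cone) (hy : y ∈ Cone) : x + y ∈ Cone := by
  refine ⟨?_, ?_⟩
  · have h := eta_rev x y hx hy
    have h1 := hx.1
    have h2 := hy.1
    have h3 : 0 ≤ √(-eta x x) * √(-eta y y) := by positivity
    rw [eta_add_left, eta_comm x, eta_comm y, eta_add_left, eta_add_left, eta_comm y x]
    linarith
  · exact add_pos hx.2 hy.2

theorem rr_add {x y : V3} (hx : x ∈ Cone) (hy : y ∈ Cone) : rr x + rr y ≤ rr (x + y) := by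
  apply Real.le_sqrt_of_sq_le
  have h : rr x * rr y ≤ -eta x y := eta_rev x y hx hy
  have h1 := rr_sq hx
  have h2 := rr_sq hy
  rw [eta_add_left, eta_comm x, eta_comm y, eta_add_left, eta_add_left, eta_comm y x]
  nlinarith

/-- coordinates `(y,t)` -/
def emb (y : V3) (t : ℝ) : V4 := ![y 0, y 1, y 2, t]

/-- the first three coordinates -/
def prj (Y : V4) : V3 := ![Y 0, Y 1, Y 2]

theorem q_emb (y z : V3) (t s : ℝ) : q (emb y t) (emb z s) = eta y z - t * s := by
  simp [q, emb, eta]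

theorem emb_prj (Y : V4) : emb (prj Y) (Y 3) = Y := by
  ext i; fin_cases i <;> rfl

theorem prj_emb (y : V3) (t : ℝ) : prj (emb y t) = y := by
  ext i; fin_cases i <;> rfl

theorem emb_three (y : V3) (t : ℝ) : emb y t 3 = t := rfl

theorem q_eq (X Y : V4) : q X Y = eta (prj X) (prj Y) - X 3 * Y 3 := by
  simp [q, eta, prj]

/-- the splitting as a linear equivalence -/
def spl : V4 ≃ₗ[ℝ] (V3 × ℝ) where
  toFun Y := (prj Y, Y 3)
  invFun P := emb P.1 P.2
  left_inv Y := emb_prj Y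
  right_inv P := by
    ext i
    · exact congrFun (prj_emb P.1 P.2) i
    · rfl
  map_add' X Y := by
    ext i
    · fin_cases i <;> rfl
    · rfl
  map_smul' c Y := by
    ext i
    · fin_cases i <;> rfl
    · rfl

/-- the action on `V4` -/
def rhoE (L : V3 ≃ₗ[ℝ] V3) : V4 ≃ₗ[ℝ] V4 :=
  (spl.trans (L.prodCongr (LinearEquiv.refl ℝ ℝ))).trans spl.symm

theorem rhoE_apply (L : V3 ≃ₗ[ℝ] V3) (Y : V4) : rhoE L Y = emb (L (prj Y)) (Y 3) := rfl

theorem rhoE_emb (L : V3 ≃ₗ[ℝ] V3) (y : V3) (t : ℝ) : rhoE L (emb y t) = emb (L y) t := by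
  rw [rhoE_apply, prj_emb, emb_three]

/-- the homomorphism -/
def rhoH {Γ : Type*} [Group Γ] (A : Γ →* (V3 ≃ₗ[ℝ] V3)) : Γ →* (V4 ≃ₗ[ℝ] V4) :=
  MonoidHom.mk' (fun g => rhoE (A g)) (by
    intro g h
    apply LinearEquiv.ext
    intro Y
    rw [LinearEquiv.mul_apply, rhoE_apply, rhoE_apply (A h), rhoE_emb, map_mul,
      LinearEquiv.mul_apply])

theorem rhoH_apply {Γ : Type*} [Group Γ] (A : Γ →* (V3 ≃ₗ[ℝ] V3)) (g : Γ) (Y : V4) :
    rhoH A g Y = emb (A g (prj Y)) (Y 3) := rfl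

/-- model surface -/
noncomputable def mX (c k σ : ℝ) (x : V3) : V4 := emb (c • x) (σ * k * rr x)

/-- its normal -/
noncomputable def mN (c k σ : ℝ) (x : V3) : V4 := emb ((k / rr x) • x) (-(σ * c))

theorem contDiffAt_rr {x : V3} (hx : x ∈ Cone) {n : WithTop ℕ∞} : ContDiffAt ℝ n rr x := by
  unfold rr
  apply ContDiffAt.sqrt
  · unfold eta
    fun_prop
  · have := hx.1
    linarith

theorem mX_smooth (c k σ : ℝ) {n : WithTop ℕ∞} : ContDiffOn ℝ n (mX c k σ) Cone := by
  rw [contDiffOn_pi]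
  intro i
  have hr : ContDiffOn ℝ n rr Cone := fun x hx => (contDiffAt_rr hx).contDiffWithinAt
  fin_cases i
  · show ContDiffOn ℝ n (fun x : V3 => c * x 0) Cone
    fun_prop
  · show ContDiffOn ℝ n (fun x : V3 => c * x 1) Cone
    fun_prop
  · show ContDiffOn ℝ n (fun x : V3 => c * x 2) Cone
    fun_prop
  · show ContDiffOn ℝ n (fun x : V3 => σ * k * rr x) Cone
    exact contDiffOn_const.mul hr

theorem mN_smooth (c k σ : ℝ) {n : WithTop ℕ∞} : ContDiffOn ℝ n (mN c k σ) Cone := by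
  rw [contDiffOn_pi]
  intro i
  have hr : ContDiffOn ℝ n rr Cone := fun x hx => (contDiffAt_rr hx).contDiffWithinAt
  have hk : ContDiffOn ℝ n (fun x => k / rr x) Cone :=
    contDiffOn_const.div hr (fun x hx => (rr_pos hx).ne')
  fin_cases i
  · show ContDiffOn ℝ n (fun x : V3 => k / rr x * x 0) Cone
    exact hk.mul (by fun_prop)
  · show ContDiffOn ℝ n (fun x : V3 => k / rr x * x 1) Cone
    exact hk.mul (by fun_prop)
  · show ContDiffOn ℝ n (fun x : V3 => k / rr x * x 2) Cone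
    exact hk.mul (by fun_prop)
  · show ContDiffOn ℝ n (fun x : V3 => -(σ * c)) Cone
    exact contDiffOn_const

theorem Cone_open : IsOpen Cone := by
  unfold Cone eta
  apply IsOpen.and
  · exact isOpen_lt (by fun_prop) (by fun_prop)
  · exact isOpen_lt (by fun_prop) (by fun_prop)

theorem mX_fderiv (c k σ : ℝ) {x : V3} (hx : x ∈ H2) (v : V3) (hv : eta x v = 0) :
    fderiv ℝ (mX c k σ) x v = emb (c • v) 0 := by
  have hxC := H2_Cone hx
  have hd : DifferentiableAt ℝ (mX c k σ) x :=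
    ((mX_smooth c k σ (n := 1)).contDiffAt (Cone_open.mem_nhds hxC)).differentiableAt (by norm_num)
  rw [← hd.lineDeriv_eq_fderiv]
  apply HasLineDerivAt.lineDeriv
  show HasDerivAt (fun t : ℝ => mX c k σ (x + t • v)) (emb (c • v) 0) 0
  rw [hasDerivAt_pi]
  intro i
  have hlin : ∀ j : Fin 3, HasDerivAt (fun t : ℝ => c * (x j + t * v j)) (c * v j) 0 := by
    intro j
    have := (((hasDerivAt_id (0 : ℝ)).mul_const (v j)).const_add (x j)).const_mul c
    simpa using this
  fin_cases i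
  · exact hlin 0
  · exact hlin 1
  · exact hlin 2
  · show HasDerivAt (fun t : ℝ => σ * k * rr (x + t • v)) 0 0
    have e : ∀ t : ℝ, -eta (x + t • v) (x + t • v) = 1 - t ^ 2 * eta v v := by
      intro t
      have h1 : eta (x + t • v) (x + t • v) = eta x x + 2 * t * eta x v + t ^ 2 * eta v v := by
        simp only [eta, Pi.add_apply, Pi.smul_apply, smul_eq_mul]; ring
      rw [h1, hv, hx.1]; ring
    have hin : HasDerivAt (fun t : ℝ => 1 - t ^ 2 * eta v v) 0 0 := by
      have := ((hasDerivAt_pow 2 (0 : ℝ)).mul_const (eta v v)).const_sub 1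
      simpa using this
    have hs := hin.sqrt (by norm_num)
    have h3 := hs.const_mul (σ * k)
    have h4 : (fun t : ℝ => σ * k * rr (x + t • v)) = fun t => σ * k * √(1 - t ^ 2 * eta v v) := by
      funext t
      rw [rr, e t]
    rw [h4]
    simpa using h3

theorem mSurface {c k σ : ℝ} (hc : 0 < c) (hk : k ^ 2 = 1 - c ^ 2) (hσ : σ ^ 2 = 1) :
    IsSurface c (mX c k σ) (mN c k σ) where
  smoothX := mX_smooth c k σ
  smoothN := mN_smooth c k σ
  homX := by
    intro x _ t ht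
    rw [mX, mX, rr_smul t ht]
    ext i
    fin_cases i
    · show c * (t * x 0) = t * (c * x 0)
      ring
    · show c * (t * x 1) = t * (c * x 1)
      ring
    · show c * (t * x 2) = t * (c * x 2)
      ring
    · show σ * k * (t * rr x) = t * (σ * k * rr x)
      ring
  homN := by
    intro x hx t ht
    have hr := (rr_pos hx).ne'
    rw [mN, mN, rr_smul t ht, smul_smul]
    congr 2
    field_simp
  XX := by
    intro x hx
    rw [mX, q_emb, eta_smul_smul, hx.1, rr_H2 hx]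
    linear_combination (-1 : ℝ) * hk - k ^ 2 * hσ
  NN := by
    intro x hx
    rw [mN, q_emb, eta_smul_smul, hx.1, rr_H2 hx]
    linear_combination (-1 : ℝ) * hk - c ^ 2 * hσ
  NX := by
    intro x hx
    rw [mN, mX, q_emb, eta_smul_smul, hx.1, rr_H2 hx]
    linear_combination c * k * hσ
  NdX := by
    intro x hx v hv
    rw [mX_fderiv c k σ hx v hv, mN, q_emb, eta_smul_smul, hv]
    ring
  metric := by
    intro x hx v w hv hw
    rw [mX_fderiv c k σ hx v hv, mX_fderiv c k σ hx w hw, q_emb, eta_smul_smul]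
    ring

theorem rr_iso {L : V3 ≃ₗ[ℝ] V3} (hL : ∀ x y, eta (L x) (L y) = eta x y) (x : V3) :
    rr (L x) = rr x := by rw [rr, rr, hL]

theorem mX_equiv {L : V3 ≃ₗ[ℝ] V3} (hL : ∀ x y, eta (L x) (L y) = eta x y) (c k σ : ℝ) (x : V3) :
    mX c k σ (L x) = rhoE L (mX c k σ x) := by
  rw [mX, mX, rhoE_emb, map_smul, rr_iso hL]

theorem mN_equiv {L : V3 ≃ₗ[ℝ] V3} (hL : ∀ x y, eta (L x) (L y) = eta x y) (c k σ : ℝ) (x : V3) :
    mN c k σ (L x) = rhoE L (mN c k σ x) := by
  rw [mN, mN, rhoE_emb, map_smul, rr_iso hL]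

/- Proof:
Explicit: r(x) = sqrt(-eta x x). m = sqrt(1-a^2), n = sqrt(1-b^2). Identify V4 with V3 x R by (x0,x1,x2,t) = ![x 0, x 1, x 2, t], so q = eta - t t'. Xp x = (b x, n r(x)), Np x = (n x/r(x), -b), Xm x = (a x, -m r(x)), Nm x = (m x/r(x), a), rho g = (A g) + identity on the last coordinate, K = {(y,t) : y in Cone, -(m/a) r(y) <= t <= (n/b) r(y)}. r is smooth on Cone. K is a convex cone since r is superadditive on Cone (reverse triangle inequality r(y+z) >= r(y)+r(z)). Support: q (Np x)(y,t) = n eta x y + b t <= -n r(y) + n r(y) = 0 for x in H2, y in Cone (-eta x y >= r(y)). Same for Nm. omega (Xp x)(Np x) = b x0 (-b) - n n x0 = -x0 < 0; omega (Xm x)(Nm x) = a x0 a + m m x0 = x0 > 0. Metric: on H2 for eta x v = 0 the derivative of r at x in direction v is 0, so fderiv Xp x v = (b v, 0).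
-/
theorem slab_exists {Γ : Type*} [Group Γ] (A : Γ →* (V3 ≃ₗ[ℝ] V3)) (hA : IsCocompact A) {a b : ℝ}
    (ha : 0 < a) (ha1 : a < 1) (hb : 0 < b) (hb1 : b < 1) : Nonempty (Slab A a b) := by
  have hm : √(1 - a ^ 2) ^ 2 = 1 - a ^ 2 := Real.sq_sqrt (by nlinarith)
  have hn : √(1 - b ^ 2) ^ 2 = 1 - b ^ 2 := Real.sq_sqrt (by nlinarith)
  obtain ⟨m, hm0, hm⟩ : ∃ m : ℝ, 0 ≤ m ∧ m ^ 2 = 1 - a ^ 2 := ⟨_, Real.sqrt_nonneg _, hm⟩
  obtain ⟨n, hn0, hn⟩ : ∃ n : ℝ, 0 ≤ n ∧ n ^ 2 = 1 - b ^ 2 := ⟨_, Real.sqrt_nonneg _, hn⟩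
  have rev1 : ∀ x ∈ H2, ∀ y ∈ Cone, eta x y ≤ -rr y := by
    intro x hx y hy
    have h := eta_rev x y (H2_Cone hx) hy
    have h1 : √(-eta x x) = 1 := rr_H2 hx
    rw [h1, one_mul] at h
    have h2 : √(-eta y y) = rr y := rfl
    linarith
  refine ⟨{
    ρ := rhoH A
    ρ_iso := ?_
    Xm := mX a m (-1)
    Nm := mN a m (-1)
    Xp := mX b n 1
    Np := mN b n 1
    surf_m := mSurface ha hm (by norm_num)
    surf_p := mSurface hb hn (by norm_num)
    equiv_Xm := fun g x _ => mX_equiv (hA.iso g) a m (-1) x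
    equiv_Nm := fun g x _ => mN_equiv (hA.iso g) a m (-1) x
    equiv_Xp := fun g x _ => mX_equiv (hA.iso g) b n 1 x
    equiv_Np := fun g x _ => mN_equiv (hA.iso g) b n 1 x
    K := {Y | prj Y ∈ Cone ∧ -(m / a) * rr (prj Y) ≤ Y 3 ∧ Y 3 ≤ n / b * rr (prj Y)}
    K_add := ?_
    K_smul := ?_
    K_neg := ?_
    mem_m := ?_
    mem_p := ?_
    supp_m := ?_
    supp_p := ?_
    future_m := ?_
    past_p := ?_ }⟩
  · intro g X Y
    rw [rhoH_apply, rhoH_apply, q_emb, hA.iso, q_eq]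
  · rintro Y ⟨hY1, hY2, hY3⟩ Z ⟨hZ1, hZ2, hZ3⟩
    have e : prj (Y + Z) = prj Y + prj Z := by
      ext i; fin_cases i <;> rfl
    have e3 : (Y + Z) 3 = Y 3 + Z 3 := rfl
    have h := rr_add hY1 hZ1
    have hma : 0 ≤ m / a := by positivity
    have hnb : 0 ≤ n / b := by positivity
    refine ⟨by rw [e]; exact Cone_add hY1 hZ1, ?_, ?_⟩
    · rw [e, e3]
      nlinarith [mul_le_mul_of_nonneg_left h hma]
    · rw [e, e3]
      nlinarith [mul_le_mul_of_nonneg_left h hnb]
  · rintro Y ⟨hY1, hY2, hY3⟩ t ht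
    have e : prj (t • Y) = t • prj Y := by
      ext i; fin_cases i <;> rfl
    have e3 : (t • Y) 3 = t * Y 3 := rfl
    refine ⟨by rw [e]; exact Cone_smul t ht hY1, ?_, ?_⟩
    · rw [e, e3, rr_smul t ht]
      nlinarith [mul_le_mul_of_nonneg_left hY2 ht.le]
    · rw [e, e3, rr_smul t ht]
      nlinarith [mul_le_mul_of_nonneg_left hY3 ht.le]
  · rintro Y ⟨hY1, hY2, hY3⟩
    rw [q_eq]
    have := hY1.1
    nlinarith [mul_self_nonneg (Y 3)]
  · intro x hx
    have hC := H2_Cone hx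
    refine ⟨?_, ?_, ?_⟩
    · rw [mX, prj_emb]; exact Cone_smul a ha hC
    · rw [mX, prj_emb, emb_three, rr_smul a ha, rr_H2 hx]
      apply le_of_eq
      field_simp
    · rw [mX, prj_emb, emb_three, rr_smul a ha, rr_H2 hx]
      have : 0 ≤ n / b * (a * 1) := by positivity
      linarith
  · intro x hx
    have hC := H2_Cone hx
    refine ⟨?_, ?_, ?_⟩
    · rw [mX, prj_emb]; exact Cone_smul b hb hC
    · rw [mX, prj_emb, emb_three, rr_smul b hb, rr_H2 hx]
      have : 0 ≤ m / a * (b * 1) := by positivity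
      linarith
    · rw [mX, prj_emb, emb_three, rr_smul b hb, rr_H2 hx]
      apply le_of_eq
      field_simp
  · rintro x hx Y ⟨hY1, hY2, hY3⟩
    rw [q_eq, mN, prj_emb, emb_three, rr_H2 hx]
    have e1 : eta ((m / 1) • x) (prj Y) = m * eta x (prj Y) := by
      have := eta_smul_smul (m / 1) 1 x (prj Y)
      rw [one_smul] at this
      rw [this]; ring
    rw [e1]
    have h1 := rev1 x hx _ hY1
    have h2 : -(a * Y 3) ≤ m * rr (prj Y) := by
      have := mul_le_mul_of_nonneg_left hY2 ha.le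
      have e2 : a * (-(m / a) * rr (prj Y)) = -(m * rr (prj Y)) := by field_simp
      linarith
    nlinarith [mul_le_mul_of_nonneg_left h1 hm0]
  · rintro x hx Y ⟨hY1, hY2, hY3⟩
    rw [q_eq, mN, prj_emb, emb_three, rr_H2 hx]
    have e1 : eta ((n / 1) • x) (prj Y) = n * eta x (prj Y) := by
      have := eta_smul_smul (n / 1) 1 x (prj Y)
      rw [one_smul] at this
      rw [this]; ring
    rw [e1]
    have h1 := rev1 x hx _ hY1
    have h2 : b * Y 3 ≤ n * rr (prj Y) := by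
      have := mul_le_mul_of_nonneg_left hY3 hb.le
      have e2 : b * (n / b * rr (prj Y)) = n * rr (prj Y) := by field_simp
      linarith
    nlinarith [mul_le_mul_of_nonneg_left h1 hn0]
  · intro x hx
    have h0 := hx.2
    have e : omega (mX a m (-1) x) (mN a m (-1) x)
        = (a * x 0) * (-(-1 * a)) - (-1 * m * rr x) * (m / rr x * x 0) := rfl
    rw [e, rr_H2 hx]
    have : (a * x 0) * (-(-1 * a)) - (-1 * m * 1) * (m / 1 * x 0) = x 0 := by
      linear_combination x 0 * hm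
    rw [this]
    exact h0
  · intro x hx
    have h0 := hx.2
    have e : omega (mX b n 1 x) (mN b n 1 x)
        = (b * x 0) * (-(1 * b)) - (1 * n * rr x) * (n / rr x * x 0) := rfl
    rw [e, rr_H2 hx]
    have : (b * x 0) * (-(1 * b)) - (1 * n * 1) * (n / 1 * x 0) = -x 0 := by
      linear_combination -(x 0) * hn
    rw [this]
    linarith

end A_slab_exists

alias slab_exists := A_slab_exists.slab_exists

end Helper935.AdS
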