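import Pool.Agent.Helper935_AdS.Setup

namespace Helper935.AdS

namespace A_geo_mem

theorem geo_mem {x v : V3} (hx : x ∈ H2) (hv : UT x v) (s : ℝ) : geo x v s ∈ H2 := by
  obtain ⟨h1, h2⟩ := hx
  obtain ⟨h3, h4⟩ := hv
  simp only [eta] at h1 h3 h4
  have hcs := Real.cosh_sq s
  have hc := Real.cosh_pos s
  refine ⟨?_, ?_⟩
  · simp only [geo, eta, Pi.add_apply, Pi.smul_apply, smul_eq_mul]
    linear_combination (Real.cosh s)^2 * h1 + 2 * Real.cosh s * Real.sinh s * h3 + (Real.sinh s)^2 * h4 - hcs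
  · simp only [geo, Pi.add_apply, Pi.smul_apply, smul_eq_mul]
    have hv0 : v 0 ^ 2 < x 0 ^ 2 := by
      have key : x 0 ^ 2 - v 0 ^ 2 = 1 + (x 1 * v 2 - x 2 * v 1) ^ 2 := by
        have e1 : x 1 * x 1 + x 2 * x 2 = x 0 * x 0 - 1 := by linarith
        have e2 : v 1 * v 1 + v 2 * v 2 = v 0 * v 0 + 1 := by linarith
        have e3 : x 1 * v 1 + x 2 * v 2 = x 0 * v 0 := by linarith
        have e4 : (x 1 * v 2 - x 2 * v 1) ^ 2 =
            (x 1 * x 1 + x 2 * x 2) * (v 1 * v 1 + v 2 * v 2) - (x 1 * v 1 + x 2 * v 2) ^ 2 := by ring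
        rw [e4, e1, e2, e3]; ring
      nlinarith [sq_nonneg (x 1 * v 2 - x 2 * v 1)]
    have hlt : (Real.sinh s * v 0) ^ 2 < (Real.cosh s * x 0) ^ 2 := by
      have : 0 < x 0 ^ 2 := by positivity
      nlinarith [sq_nonneg (Real.sinh s), mul_nonneg (sq_nonneg (Real.sinh s)) (sub_nonneg.mpr hv0.le)]
    have hpos : 0 < Real.cosh s * x 0 := by positivity
    have := abs_lt_of_sq_lt_sq hlt hpos.le
    rw [abs_lt] at this
    linarith [this.1]

end A_geo_mem

alias geo_mem := A_geo_mem.geo_mem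

namespace A_geo_UT

theorem geo_UT {x v : V3} (hx : x ∈ H2) (hv : UT x v) (s : ℝ) : UT (geo x v s) (geo' x v s) := by
  obtain ⟨hxx, -⟩ := hx
  obtain ⟨hxv, hvv⟩ := hv
  have hc := Real.cosh_sq s
  unfold eta at hxx hxv hvv
  unfold UT eta geo geo'
  simp only [Pi.add_apply, Pi.smul_apply, smul_eq_mul]
  constructor
  · linear_combination (Real.cosh s * Real.sinh s) * hxx +
      (Real.cosh s ^ 2 + Real.sinh s ^ 2) * hxv + (Real.cosh s * Real.sinh s) * hvv
  · linear_combination (Real.sinh s ^ 2) * hxx +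
      (2 * Real.cosh s * Real.sinh s) * hxv + (Real.cosh s ^ 2) * hvv + hc

end A_geo_UT

alias geo_UT := A_geo_UT.geo_UT

namespace A_geo_zero

/- Proof:
cosh 0 = 1, sinh 0 = 0
-/
theorem geo_zero (x v : V3) : geo x v 0 = x ∧ geo' x v 0 = v := by
  constructor <;> simp [geo, geo']

end A_geo_zero

alias geo_zero := A_geo_zero.geo_zero

namespace A_geo_add

/- Proof:
addition formulas for cosh, sinh
-/
theorem geo_add (x v : V3) (s t : ℝ) :
    geo (geo x v s) (geo' x v s) t = geo x v (s + t) ∧ geo' (geo x v s) (geo' x v s) t = geo' x v (s + t) := by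
  unfold geo geo'
  rw [Real.cosh_add, Real.sinh_add]
  constructor <;> (funext i; simp only [Pi.add_apply, Pi.smul_apply, smul_eq_mul]; ring)

end A_geo_add

alias geo_add := A_geo_add.geo_add

namespace A_eta_geo

/- Proof:
direct
-/
theorem eta_geo {x v : V3} (hx : x ∈ H2) (hv : UT x v) (s : ℝ) : eta x (geo x v s) = -Real.cosh s := by
  have h1 : eta x x = -1 := hx.1
  have h2 : eta x v = 0 := hv.1
  have h3 : eta x (geo x v s) = Real.cosh s * eta x x + Real.sinh s * eta x v := by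
    simp only [eta, geo, Pi.add_apply, Pi.smul_apply, smul_eq_mul]
    ring
  rw [h3, h1, h2]
  ring

end A_eta_geo

alias eta_geo := A_eta_geo.eta_geo

namespace A_exists_geo

namespace ExG

theorem orth_nonneg {x w : V3} (hx : eta x x = -1) (hw : eta x w = 0) :
    0 ≤ eta w w ∧ (eta w w = 0 → w = 0) := by
  unfold eta at *
  have h0 : x 0 ^ 2 = 1 + x 1 ^ 2 + x 2 ^ 2 := by linarith
  have h1 : x 0 * w 0 = x 1 * w 1 + x 2 * w 2 := by linarith
  have h2 : (x 0 * w 0) ^ 2 ≤ (x 1 ^ 2 + x 2 ^ 2) * (w 1 ^ 2 + w 2 ^ 2) := by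
    rw [h1]; nlinarith [sq_nonneg (x 1 * w 2 - x 2 * w 1)]
  have h3 : w 1 ^ 2 + w 2 ^ 2 ≤ x 0 ^ 2 * (-(w 0 * w 0) + w 1 * w 1 + w 2 * w 2) := by
    have e : x 0 ^ 2 * (-(w 0 * w 0) + w 1 * w 1 + w 2 * w 2) =
        -(x 0 * w 0) ^ 2 + x 0 ^ 2 * (w 1 ^ 2 + w 2 ^ 2) := by ring
    rw [e, h0]
    nlinarith
  have hpos : 0 < x 0 ^ 2 := by rw [h0]; positivity
  constructor
  · by_contra hcon
    push Not at hcon
    nlinarith [mul_neg_of_pos_of_neg hpos hcon, sq_nonneg (w 1), sq_nonneg (w 2)]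
  · intro h
    rw [h, mul_zero] at h3
    have e1 : w 1 = 0 := by nlinarith [sq_nonneg (w 1), sq_nonneg (w 2)]
    have e2 : w 2 = 0 := by nlinarith [sq_nonneg (w 1), sq_nonneg (w 2)]
    have e0 : w 0 = 0 := by
      rw [e1, e2] at h
      nlinarith [sq_nonneg (w 0)]
    funext i
    fin_cases i
    · exact e0
    · exact e1
    · exact e2

theorem c_pos {x y : V3} (hx : x ∈ H2) (hy : y ∈ H2) : 0 < -eta x y := by
  obtain ⟨hx, hx0⟩ := hx
  obtain ⟨hy, hy0⟩ := hy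
  unfold eta at *
  by_contra hcon
  push Not at hcon
  have h1 : x 0 * y 0 ≤ x 1 * y 1 + x 2 * y 2 := by linarith
  have h2 : (x 0 * y 0) ^ 2 ≤ (x 1 * y 1 + x 2 * y 2) ^ 2 := by
    have : 0 < x 0 * y 0 := mul_pos hx0 hy0
    exact pow_le_pow_left₀ this.le h1 2
  have h3 : (x 1 * y 1 + x 2 * y 2) ^ 2 ≤ (x 1 ^ 2 + x 2 ^ 2) * (y 1 ^ 2 + y 2 ^ 2) := by
    nlinarith [sq_nonneg (x 1 * y 2 - x 2 * y 1)]
  have h4 : (x 0 * y 0) ^ 2 = (1 + x 1 ^ 2 + x 2 ^ 2) * (1 + y 1 ^ 2 + y 2 ^ 2) := by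
    have e1 : x 0 ^ 2 = 1 + x 1 ^ 2 + x 2 ^ 2 := by linarith
    have e2 : y 0 ^ 2 = 1 + y 1 ^ 2 + y 2 ^ 2 := by linarith
    rw [mul_pow, e1, e2]
  nlinarith [sq_nonneg (x 1), sq_nonneg (x 2), sq_nonneg (y 1), sq_nonneg (y 2)]

theorem exists_UT {x : V3} (hx : x ∈ H2) : ∃ v, UT x v := by
  obtain ⟨hx, hx0⟩ := hx
  unfold eta at hx
  have hk : 0 < 1 + x 2 ^ 2 := by positivity
  set k : ℝ := (Real.sqrt (1 + x 2 ^ 2))⁻¹ with hkd
  have hk2 : k ^ 2 * (1 + x 2 ^ 2) = 1 := by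
    rw [hkd, inv_pow, Real.sq_sqrt hk.le]
    exact inv_mul_cancel₀ hk.ne'
  refine ⟨![x 1 * k, x 0 * k, 0], ?_, ?_⟩
  · simp [eta]; ring
  · simp [eta]
    have e : -(x 1 * k * (x 1 * k)) + x 0 * k * (x 0 * k) = k ^ 2 * (x 0 ^ 2 - x 1 ^ 2) := by ring
    have e1 : x 0 ^ 2 - x 1 ^ 2 = 1 + x 2 ^ 2 := by linarith
    rw [e, e1, hk2]

end ExG

/- Proof:
c = -eta x y >= 1; if c = 1 then y = x (take any unit tangent vector and d = 0); otherwise d = arcosh c > 0, v = (y - c x)/sinh d.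
-/
theorem exists_geo {x y : V3} (hx : x ∈ H2) (hy : y ∈ H2) :
    ∃ d v, 0 ≤ d ∧ UT x v ∧ geo x v d = y := by
  have hc0 := ExG.c_pos hx hy
  set c : ℝ := -eta x y with hc
  set w : V3 := y - c • x with hw
  have hxx : eta x x = -1 := hx.1
  have hyy : eta y y = -1 := hy.1
  have e1 : eta x w = 0 := by
    have : eta x w = eta x y - c * eta x x := by
      rw [hw]; simp only [eta, Pi.sub_apply, Pi.smul_apply, smul_eq_mul]; ring
    rw [this, hxx, hc]; ring
  have e2 : eta w w = c ^ 2 - 1 := by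
    have : eta w w = eta y y - 2 * c * eta x y + c ^ 2 * eta x x := by
      rw [hw]; simp only [eta, Pi.sub_apply, Pi.smul_apply, smul_eq_mul]; ring
    rw [this, hxx, hyy]
    have : eta x y = -c := by rw [hc]; ring
    rw [this]; ring
  obtain ⟨h1, h2⟩ := ExG.orth_nonneg hxx e1
  rw [e2] at h1 h2
  set s : ℝ := Real.sqrt (c ^ 2 - 1) with hs
  have hs2 : s ^ 2 = c ^ 2 - 1 := Real.sq_sqrt h1
  have hs0 : 0 ≤ s := Real.sqrt_nonneg _
  rcases hs0.eq_or_lt with h | h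
  · have h3 : c ^ 2 - 1 = 0 := by rw [← hs2, ← h]; ring
    have h4 := h2 h3
    have h5 : c = 1 := by nlinarith
    obtain ⟨v, hv⟩ := ExG.exists_UT hx
    refine ⟨0, v, le_refl _, hv, ?_⟩
    have h6 : y = x := by
      have : y - c • x = 0 := h4
      rw [h5, one_smul, sub_eq_zero] at this
      exact this
    rw [h6]
    simp [geo]
  · refine ⟨Real.arsinh s, s⁻¹ • w, Real.arsinh_nonneg_iff.2 h.le, ⟨?_, ?_⟩, ?_⟩
    · have : eta x (s⁻¹ • w) = s⁻¹ * eta x w := by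
        simp only [eta, Pi.smul_apply, smul_eq_mul]; ring
      rw [this, e1, mul_zero]
    · have : eta (s⁻¹ • w) (s⁻¹ • w) = (s⁻¹) ^ 2 * eta w w := by
        simp only [eta, Pi.smul_apply, smul_eq_mul]; ring
      rw [this, e2, ← hs2]
      field_simp
    · unfold geo
      rw [Real.cosh_arsinh, Real.sinh_arsinh, smul_smul, mul_inv_cancel₀ h.ne', one_smul]
      have : Real.sqrt (1 + s ^ 2) = c := by
        rw [hs2]
        rw [show 1 + (c ^ 2 - 1) = c ^ 2 by ring, Real.sqrt_sq hc0.le]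
      rw [this, hw]
      abel

end A_exists_geo

alias exists_geo := A_exists_geo.exists_geo

namespace A_exists_ON

/-- given a unit tangent vector v at x, the Lorentz cross product of x and v is a unit tangent
vector orthogonal to v -/
theorem exists_ON {x v : V3} (hx : x ∈ H2) (hv : UT x v) : ∃ w, ON x v w := by
  obtain ⟨h1, h2⟩ := hx
  obtain ⟨h3, h4⟩ := hv
  refine ⟨![-(x 1 * v 2 - x 2 * v 1), x 2 * v 0 - x 0 * v 2, x 0 * v 1 - x 1 * v 0], h3, ?_, h4,
    ?_, ?_⟩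
  · simp only [eta, Matrix.cons_val_zero, Matrix.cons_val_one, Matrix.cons_val]
    ring
  · have key : eta ![-(x 1 * v 2 - x 2 * v 1), x 2 * v 0 - x 0 * v 2, x 0 * v 1 - x 1 * v 0]
        ![-(x 1 * v 2 - x 2 * v 1), x 2 * v 0 - x 0 * v 2, x 0 * v 1 - x 1 * v 0]
        = (eta x v) ^ 2 - eta x x * eta v v := by
      simp only [eta, Matrix.cons_val_zero, Matrix.cons_val_one, Matrix.cons_val]
      ring
    rw [key, h3, h1, h4]
    norm_num
  · simp only [eta, Matrix.cons_val_zero, Matrix.cons_val_one, Matrix.cons_val]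
    ring

end A_exists_ON

alias exists_ON := A_exists_ON.exists_ON

namespace A_exists_UT

theorem exists_UT {x : V3} (hx : x ∈ H2) : ∃ v, UT x v := by
  obtain ⟨hxx, h0⟩ := hx
  unfold eta at hxx
  have h1 : (1 + x 0) ≠ 0 := by positivity
  refine ⟨![x 1, 1 + x 1 ^ 2 / (1 + x 0), x 1 * x 2 / (1 + x 0)], ?_, ?_⟩
  · unfold eta
    simp only [Matrix.cons_val_zero, Matrix.cons_val_one, Matrix.cons_val]
    field_simp
    linear_combination (x 1) * hxx
  · unfold eta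
    simp only [Matrix.cons_val_zero, Matrix.cons_val_one, Matrix.cons_val]
    field_simp
    linear_combination (x 1 ^ 2) * hxx

end A_exists_UT

alias exists_UT := A_exists_UT.exists_UT

namespace A_tangent_expand

/- Proof:
linear algebra: (x,e1,e2) is an orthonormal basis for eta
-/
theorem tangent_expand {x e₁ e₂ v : V3} (hx : x ∈ H2) (he : ON x e₁ e₂) (hv : eta x v = 0) :
    v = eta v e₁ • e₁ + eta v e₂ • e₂ := by
  obtain ⟨h1, h2, h3, h4, h5⟩ := he
  have h0 := hx.1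
  simp only [eta] at h0 h1 h2 h3 h4 h5 hv
  let A : Matrix (Fin 3) (Fin 3) ℝ :=
    !![-x 0, x 1, x 2; -e₁ 0, e₁ 1, e₁ 2; -e₂ 0, e₂ 1, e₂ 2]
  let B : Matrix (Fin 3) (Fin 3) ℝ :=
    !![-x 0, e₁ 0, e₂ 0; -x 1, e₁ 1, e₂ 1; -x 2, e₁ 2, e₂ 2]
  have hAB : A * B = 1 := by
    ext i j
    fin_cases i <;> fin_cases j <;>
      simp [A, B, Matrix.mul_apply, Fin.sum_univ_three] <;> linarith
  have hBA : B * A = 1 := mul_eq_one_comm.mp hAB
  have e : ∀ i j, (B * A) i j = (1 : Matrix (Fin 3) (Fin 3) ℝ) i j := fun i j => by rw [hBA]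
  have e00 := e 0 0
  have e01 := e 0 1
  have e02 := e 0 2
  have e10 := e 1 0
  have e11 := e 1 1
  have e12 := e 1 2
  have e20 := e 2 0
  have e21 := e 2 1
  have e22 := e 2 2
  simp [A, B, Matrix.mul_apply, Fin.sum_univ_three] at e00 e01 e02 e10 e11 e12 e20 e21 e22
  ext i
  fin_cases i
  · simp [eta]
    linear_combination (-(v 0)) * e00 - (v 1) * e01 - (v 2) * e02 - (x 0) * hv
  · simp [eta]
    linear_combination (-(v 0)) * e10 - (v 1) * e11 - (v 2) * e12 - (x 1) * hv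
  · simp [eta]
    linear_combination (-(v 0)) * e20 - (v 1) * e21 - (v 2) * e22 - (x 2) * hv

end A_tangent_expand

alias tangent_expand := A_tangent_expand.tangent_expand

namespace A_eta_le

/- Proof:
Cauchy-Schwarz
-/
theorem eta_le {x y : V3} (hx : x ∈ H2) (hy : y ∈ H2) : eta x y ≤ -1 := by
  obtain ⟨hx1, hx0⟩ := hx
  obtain ⟨hy1, hy0⟩ := hy
  unfold eta at *
  by_contra hcon
  push Not at hcon
  have hp : 0 < x 0 * y 0 := mul_pos hx0 hy0
  have h1 : x 0 * y 0 < 1 + x 1 * y 1 + x 2 * y 2 := by linarith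
  have h2 : (x 0 * y 0) ^ 2 < (1 + x 1 * y 1 + x 2 * y 2) ^ 2 := by nlinarith
  have h3 : (x 0 * y 0) ^ 2 = (1 + x 1 * x 1 + x 2 * x 2) * (1 + y 1 * y 1 + y 2 * y 2) := by
    have e1 : x 0 * x 0 = 1 + x 1 * x 1 + x 2 * x 2 := by linarith
    have e2 : y 0 * y 0 = 1 + y 1 * y 1 + y 2 * y 2 := by linarith
    rw [← e1, ← e2]; ring
  nlinarith [sq_nonneg (x 1 - y 1), sq_nonneg (x 2 - y 2), sq_nonneg (x 1 * y 2 - x 2 * y 1)]

end A_eta_le

alias eta_le := A_eta_le.eta_le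

namespace A_H2_triangle

/- Proof:
Reverse: put A=-eta x y, B=-eta y z. Decompose x = A y + x', z = B y + z' with x', z' orthogonal to y (spacelike), eta x' x' = A^2-1, so -eta x z = A B - eta x' z' <= A B + sqrt(A^2-1) sqrt(B^2-1) <= cosh(r+s).
-/
theorem H2_triangle {x y z : V3} (hx : x ∈ H2) (hy : y ∈ H2) (hz : z ∈ H2) {r s : ℝ}
    (hr : 0 ≤ r) (hs : 0 ≤ s) (hxy : -eta x y ≤ Real.cosh r) (hyz : -eta y z ≤ Real.cosh s) :
    -eta x z ≤ Real.cosh (r + s) := by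
  obtain ⟨hx1, hx0⟩ := hx
  obtain ⟨hy1, hy0⟩ := hy
  obtain ⟨hz1, hz0⟩ := hz
  have key : ∀ u w : V3, eta u u = -1 → eta w w = -1 → 0 < u 0 → 0 < w 0 → 1 ≤ -eta u w := by
    intro u w hu hw hu0 hw0
    simp only [eta] at hu hw ⊢
    by_contra hcon
    have hlt : u 0 * w 0 < 1 + (u 1 * w 1 + u 2 * w 2) := by linarith
    have hpos : 0 < u 0 * w 0 := mul_pos hu0 hw0
    have hsq : (u 0 * w 0) ^ 2 < (1 + (u 1 * w 1 + u 2 * w 2)) ^ 2 := by
      nlinarith
    have e1 : u 0 * u 0 = 1 + u 1 * u 1 + u 2 * u 2 := by linarith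
    have e2 : w 0 * w 0 = 1 + w 1 * w 1 + w 2 * w 2 := by linarith
    have e3 : (u 0 * w 0) ^ 2 = (1 + u 1 * u 1 + u 2 * u 2) * (1 + w 1 * w 1 + w 2 * w 2) := by
      rw [← e1, ← e2]; ring
    rw [e3] at hsq
    nlinarith [sq_nonneg (u 1 - w 1), sq_nonneg (u 2 - w 2), sq_nonneg (u 1 * w 2 - u 2 * w 1)]
  have hA : 1 ≤ -eta x y := key x y hx1 hy1 hx0 hy0
  have hB : 1 ≤ -eta y z := key y z hy1 hz1 hy0 hz0
  have gram : (-eta x z - (-eta x y) * (-eta y z)) ^ 2 ≤ ((-eta x y) ^ 2 - 1) * ((-eta y z) ^ 2 - 1) := by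
    have hid : 0 ≤ (x 0 * (y 1 * z 2 - y 2 * z 1) - x 1 * (y 0 * z 2 - y 2 * z 0)
        + x 2 * (y 0 * z 1 - y 1 * z 0)) ^ 2 := sq_nonneg _
    have hG : (x 0 * (y 1 * z 2 - y 2 * z 1) - x 1 * (y 0 * z 2 - y 2 * z 0)
        + x 2 * (y 0 * z 1 - y 1 * z 0)) ^ 2
        = -(eta x x * (eta y y * eta z z - eta y z ^ 2) - eta x y * (eta x y * eta z z - eta y z * eta x z)
          + eta x z * (eta x y * eta y z - eta y y * eta x z)) := by
      simp only [eta]; ring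
    rw [hG, hx1, hy1, hz1] at hid
    nlinarith
  set A := -eta x y with hAdef
  set B := -eta y z with hBdef
  set C := -eta x z with hCdef
  have hcr : 1 ≤ Real.cosh r := Real.one_le_cosh r
  have hcs : 1 ≤ Real.cosh s := Real.one_le_cosh s
  have hsr : 0 ≤ Real.sinh r := Real.sinh_nonneg_iff.2 hr
  have hss : 0 ≤ Real.sinh s := Real.sinh_nonneg_iff.2 hs
  have h1 : A ^ 2 - 1 ≤ Real.sinh r ^ 2 := by
    have := Real.cosh_sq r
    nlinarith
  have h2 : B ^ 2 - 1 ≤ Real.sinh s ^ 2 := by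
    have := Real.cosh_sq s
    nlinarith
  have h3 : (C - A * B) ^ 2 ≤ (Real.sinh r * Real.sinh s) ^ 2 := by
    calc (C - A * B) ^ 2 ≤ (A ^ 2 - 1) * (B ^ 2 - 1) := gram
      _ ≤ Real.sinh r ^ 2 * Real.sinh s ^ 2 := by
          apply mul_le_mul h1 h2 (by nlinarith) (by positivity)
      _ = (Real.sinh r * Real.sinh s) ^ 2 := by ring
  have h4 : C - A * B ≤ Real.sinh r * Real.sinh s := by
    have := abs_le_of_sq_le_sq h3 (mul_nonneg hsr hss)
    exact le_trans (le_abs_self _) this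
  have h5 : A * B ≤ Real.cosh r * Real.cosh s :=
    mul_le_mul hxy hyz (by linarith) (by linarith)
  rw [Real.cosh_add]
  linarith

end A_H2_triangle

alias H2_triangle := A_H2_triangle.H2_triangle

namespace A_H2_ball

/- Proof:
closed (continuous conditions; on the closed set eta x x = -1, 0 <= x 0 implies 0 < x 0) and bounded (|x| is controlled by -eta x0 x: e.g. -eta x0 x >= x 0 (x0 0 - |(x0 1, x0 2)|)).
-/
theorem H2_ball {x₀ : V3} (hx : x₀ ∈ H2) (R : ℝ) : IsCompact {x | x ∈ H2 ∧ -eta x₀ x ≤ R} := by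
  have hset : {x : V3 | x ∈ H2 ∧ -eta x₀ x ≤ R}
      = {x : V3 | (eta x x = -1 ∧ 0 ≤ x 0) ∧ -eta x₀ x ≤ R} := by
    ext x
    constructor
    · rintro ⟨⟨h1, h2⟩, h3⟩
      exact ⟨⟨h1, h2.le⟩, h3⟩
    · rintro ⟨⟨h1, h2⟩, h3⟩
      refine ⟨⟨h1, ?_⟩, h3⟩
      rcases h2.lt_or_eq with h | h
      · exact h
      · exfalso
        unfold eta at h1
        rw [← h] at h1
        nlinarith [mul_self_nonneg (x 1), mul_self_nonneg (x 2)]
  obtain ⟨h0, h00⟩ := hx
  have hr0 : 0 ≤ Real.sqrt (x₀ 1 * x₀ 1 + x₀ 2 * x₀ 2) := Real.sqrt_nonneg _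
  have hr2 : Real.sqrt (x₀ 1 * x₀ 1 + x₀ 2 * x₀ 2) * Real.sqrt (x₀ 1 * x₀ 1 + x₀ 2 * x₀ 2)
      = x₀ 1 * x₀ 1 + x₀ 2 * x₀ 2 :=
    Real.mul_self_sqrt (by nlinarith [mul_self_nonneg (x₀ 1), mul_self_nonneg (x₀ 2)])
  set r := Real.sqrt (x₀ 1 * x₀ 1 + x₀ 2 * x₀ 2) with hr
  have hlt : r < x₀ 0 := by
    unfold eta at h0
    by_contra hcon
    push Not at hcon
    nlinarith
  have hd : 0 < x₀ 0 - r := by linarith
  apply Metric.isCompact_of_isClosed_isBounded
  · rw [hset]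
    have hc : Continuous (fun x : V3 => eta x x) := by
      unfold eta
      fun_prop
    have hc2 : Continuous (fun x : V3 => -eta x₀ x) := by
      unfold eta
      fun_prop
    have hc3 : Continuous (fun x : V3 => x 0) := continuous_apply 0
    exact ((isClosed_eq hc continuous_const).inter (isClosed_le continuous_const hc3)).inter
      (isClosed_le hc2 continuous_const)
  · rw [isBounded_iff_forall_norm_le]
    refine ⟨R / (x₀ 0 - r), ?_⟩
    rintro x ⟨⟨h1, h2⟩, h3⟩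
    -- key
    have hkey : x 0 * (x₀ 0 - r) ≤ R := by
      refine le_trans ?_ h3
      unfold eta at h1 ⊢
      have hcs : x₀ 1 * x 1 + x₀ 2 * x 2 ≤ r * x 0 := by
        have hrx : 0 ≤ r * x 0 := mul_nonneg hr0 h2.le
        have hsq : (x₀ 1 * x 1 + x₀ 2 * x 2) ^ 2 ≤ (r * x 0) ^ 2 := by
          have e1 : (r * x 0) ^ 2 = (x₀ 1 * x₀ 1 + x₀ 2 * x₀ 2) * (x 0 * x 0) := by
            rw [← hr2]; ring
          have e2 : x 0 * x 0 = 1 + x 1 * x 1 + x 2 * x 2 := by linarith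
          rw [e1, e2]
          nlinarith [mul_self_nonneg (x₀ 1 * x 2 - x₀ 2 * x 1), mul_self_nonneg (x₀ 1),
            mul_self_nonneg (x₀ 2)]
        exact le_trans (le_abs_self _) (abs_le_of_sq_le_sq hsq hrx)
      linarith
    have hx0 : x 0 ≤ R / (x₀ 0 - r) := by
      rw [le_div_iff₀ hd]
      exact hkey
    have hR : 0 ≤ R / (x₀ 0 - r) := le_trans h2.le hx0
    unfold eta at h1
    rw [pi_norm_le_iff_of_nonneg hR]
    intro i
    rw [Real.norm_eq_abs]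
    refine le_trans ?_ hx0
    fin_cases i
    · simp only [Fin.zero_eta, Fin.isValue]
      rw [abs_of_pos h2]
    · simp only [Fin.mk_one, Fin.isValue]
      apply abs_le_of_sq_le_sq _ h2.le
      nlinarith [mul_self_nonneg (x 2)]
    · simp only [Fin.reduceFinMk, Fin.isValue]
      apply abs_le_of_sq_le_sq _ h2.le
      nlinarith [mul_self_nonneg (x 1)]

end A_H2_ball

alias H2_ball := A_H2_ball.H2_ball

namespace A_H2_closed

/- Proof:
as above
-/
theorem H2_closed : IsClosed H2 := by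
  have hEq : H2 = {x : V3 | eta x x = -1} ∩ {x : V3 | 1 ≤ x 0} := by
    ext x
    simp only [H2, Set.mem_ofPred_eq, Set.mem_inter_iff]
    constructor
    · rintro ⟨h1, h2⟩
      refine ⟨h1, ?_⟩
      unfold eta at h1
      nlinarith [mul_self_nonneg (x 1), mul_self_nonneg (x 2), h2]
    · rintro ⟨h1, h2⟩
      exact ⟨h1, by linarith⟩
  rw [hEq]
  have c0 : Continuous (fun x : V3 => x 0) := continuous_apply 0
  have c1 : Continuous (fun x : V3 => x 1) := continuous_apply 1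
  have c2 : Continuous (fun x : V3 => x 2) := continuous_apply 2
  have ce : Continuous (fun x : V3 => eta x x) := by
    unfold eta
    exact (((c0.mul c0).neg).add (c1.mul c1)).add (c2.mul c2)
  exact (isClosed_eq ce continuous_const).inter (isClosed_le continuous_const c0)

end A_H2_closed

alias H2_closed := A_H2_closed.H2_closed

end Helper935.AdS
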