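import Pool.Agent.Helper935_AdS.Defs3
import Pool.Agent.Helper935_AdS.Calc
import Pool.Agent.Helper935_AdS.Ana
import Pool.Agent.Helper935_AdS.Hyp

namespace Helper935.AdS

namespace A_gauss3

theorem sc3_open : IsOpen Cone := by
  have h1 : Continuous fun x : V3 => eta x x := by unfold eta; fun_prop
  have h2 : Continuous fun x : V3 => x 0 := by fun_prop
  exact (isOpen_lt h1 continuous_const).inter (isOpen_lt continuous_const h2)

theorem sc3_q_add (A B C : V4) : q A (B + C) = q A B + q A C := by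
  simp [q]; ring

theorem sc3_q_smul (A B : V4) (c : ℝ) : q A (c • B) = c * q A B := by
  simp [q]; ring

theorem sc3_q_comm (A B : V4) : q A B = q B A := by
  simp [q]; ring

theorem sc3_eta_smul (t : ℝ) (x y : V3) : eta (t • x) y = t * eta x y := by
  simp [eta]; ring

theorem sc3_eta_smul' (t : ℝ) (x y : V3) : eta x (t • y) = t * eta x y := by
  simp [eta]; ring

theorem sc3_eta_add' (x y z : V3) : eta x (y + z) = eta x y + eta x z := by
  simp [eta]; ring

theorem sc3_H2 {u : V3} (hu : u ∈ H2) : u ∈ Cone := ⟨by rw [hu.1]; norm_num, hu.2⟩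

theorem sc3_diff {X N : V3 → V4} (h : IsRegSurface X N) {x : V3} (hx : x ∈ Cone) :
    DifferentiableAt ℝ X x :=
  (h.smoothX.differentiableOn (by norm_num)).differentiableAt (sc3_open.mem_nhds hx)

theorem sc3_scale {x : V3} (hx : x ∈ Cone) {t : ℝ} (ht : 0 < t) : t • x ∈ Cone := by
  refine ⟨?_, ?_⟩
  · rw [sc3_eta_smul, sc3_eta_smul']
    have := hx.1
    have h2 : 0 < t * t := by positivity
    nlinarith
  · show 0 < t * x 0
    exact mul_pos ht hx.2

theorem sc3_fderiv {X N : V3 → V4} (h : IsRegSurface X N) {x : V3} (hx : x ∈ Cone)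
    {t : ℝ} (ht : 0 < t) (v : V3) : fderiv ℝ X (t • x) v = fderiv ℝ X x v := by
  have h1 : HasFDerivAt X (fderiv ℝ X x) x := (sc3_diff h hx).hasFDerivAt
  have h2 : HasFDerivAt X (fderiv ℝ X (t • x)) (t • x) :=
    (sc3_diff h (sc3_scale hx ht)).hasFDerivAt
  have h3 : HasFDerivAt (fun y : V3 => X (t • y))
      ((fderiv ℝ X (t • x)).comp (t • ContinuousLinearMap.id ℝ V3)) x := by
    have : HasFDerivAt (fun y : V3 => t • y) (t • ContinuousLinearMap.id ℝ V3) x :=
      (hasFDerivAt_id x).const_smul t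
    exact h2.comp x this
  have h4 : HasFDerivAt (fun y : V3 => t • X y) (t • fderiv ℝ X x) x := h1.const_smul t
  have h5 : (fun y : V3 => X (t • y)) =ᶠ[nhds x] fun y => t • X y := by
    filter_upwards [sc3_open.mem_nhds hx] with y hy
    exact h.homX y hy t ht
  have h6 := (h4.congr_of_eventuallyEq h5).unique h3
  have h7 := congrArg (fun L : V3 →L[ℝ] V4 => L v) h6
  simp only [smul_apply, ContinuousLinearMap.comp_apply,
    ContinuousLinearMap.id_apply, map_smul] at h7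
  exact (smul_right_injective V4 ht.ne' h7).symm

theorem sc3_euler {X N : V3 → V4} (h : IsRegSurface X N) {x : V3} (hx : x ∈ Cone) :
    fderiv ℝ X x x = X x := by
  have h1 : HasFDerivAt X (fderiv ℝ X x) ((1 : ℝ) • x) := by
    rw [one_smul]; exact (sc3_diff h hx).hasFDerivAt
  have h0 : HasDerivAt (fun t : ℝ => t • x) x 1 := by
    simpa using (hasDerivAt_id (1 : ℝ)).smul_const x
  have h2 : HasDerivAt (fun t : ℝ => X (t • x)) (fderiv ℝ X x x) 1 := h1.comp_hasDerivAt (1 : ℝ) h0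
  have h3 : HasDerivAt (fun t : ℝ => t • X x) (X x) 1 := by
    simpa using (hasDerivAt_id (1 : ℝ)).smul_const (X x)
  have h5 : (fun t : ℝ => X (t • x)) =ᶠ[nhds 1] fun t => t • X x := by
    filter_upwards [lt_mem_nhds (show (0 : ℝ) < 1 by norm_num)] with t ht
    exact h.homX x hx t ht
  exact h2.unique (h3.congr_of_eventuallyEq h5)

theorem sc3_unit {x : V3} (hx : x ∈ Cone) : ∃ r : ℝ, 0 < r ∧ ∃ u ∈ H2, x = r • u := by
  have h1 : 0 < -eta x x := by have := hx.1; linarith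
  have hr : 0 < Real.sqrt (-eta x x) := Real.sqrt_pos.2 h1
  refine ⟨Real.sqrt (-eta x x), hr, (Real.sqrt (-eta x x))⁻¹ • x, ⟨?_, ?_⟩, ?_⟩
  · rw [sc3_eta_smul, sc3_eta_smul']
    have h2 : Real.sqrt (-eta x x) * Real.sqrt (-eta x x) = -eta x x :=
      Real.mul_self_sqrt h1.le
    set r := Real.sqrt (-eta x x)
    have h3 : eta x x = -(r * r) := by linarith
    rw [h3]
    field_simp
  · show 0 < (Real.sqrt (-eta x x))⁻¹ * x 0
    exact mul_pos (inv_pos.2 hr) hx.2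
  · rw [smul_smul, mul_inv_cancel₀ hr.ne', one_smul]

theorem sc3_XX {X N : V3 → V4} (h : IsRegSurface X N) {x : V3} (hx : x ∈ Cone) :
    q (X x) (X x) = eta x x := by
  obtain ⟨r, hr, u, hu, rfl⟩ := sc3_unit hx
  rw [h.homX u (sc3_H2 hu) r hr, sc3_q_smul, sc3_q_comm, sc3_q_smul,
    h.XX u hu, sc3_eta_smul, sc3_eta_smul', hu.1]

theorem sc3_XdX {X N : V3 → V4} (h : IsRegSurface X N) {x : V3} (hx : x ∈ Cone)
    (v : V3) : q (X x) (fderiv ℝ X x v) = eta x v := by
  set D := fderiv ℝ X x v with hD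
  have hline : HasDerivAt (fun s : ℝ => x + s • v) v 0 := by
    simpa using ((hasDerivAt_id (0 : ℝ)).smul_const v).const_add x
  have h1 : HasFDerivAt X (fderiv ℝ X x) (x + (0 : ℝ) • v) := by
    rw [zero_smul, add_zero]; exact (sc3_diff h hx).hasFDerivAt
  have h2 : HasDerivAt (fun s : ℝ => X (x + s • v)) D 0 := h1.comp_hasDerivAt (0 : ℝ) hline
  have h3 : ∀ i, HasDerivAt (fun s : ℝ => X (x + s • v) i) (D i) 0 := fun i =>
    (hasDerivAt_pi.1 h2) i
  have h4 : ∀ i, HasDerivAt (fun s : ℝ => (x + s • v) i) (v i) 0 := fun i =>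
    (hasDerivAt_pi.1 hline) i
  have e1 : HasDerivAt (fun s : ℝ => q (X (x + s • v)) (X (x + s • v))) (2 * q (X x) D) 0 := by
    have := ((((h3 0).mul (h3 0)).neg.add ((h3 1).mul (h3 1))).add ((h3 2).mul (h3 2))).sub
      ((h3 3).mul (h3 3))
    simp only [zero_smul, add_zero] at this
    refine (this.congr_deriv ?_)
    unfold q
    ring
  have e2 : HasDerivAt (fun s : ℝ => eta (x + s • v) (x + s • v)) (2 * eta x v) 0 := by
    have := (((h4 0).mul (h4 0)).neg.add ((h4 1).mul (h4 1))).add ((h4 2).mul (h4 2))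
    simp only [zero_smul, add_zero] at this
    refine (this.congr_deriv ?_)
    unfold eta
    ring
  have h5 : (fun s : ℝ => q (X (x + s • v)) (X (x + s • v))) =ᶠ[nhds 0]
      fun s => eta (x + s • v) (x + s • v) := by
    have hc : Filter.Tendsto (fun s : ℝ => x + s • v) (nhds 0) (nhds x) := by
      have := hline.continuousAt.tendsto
      simpa using this
    filter_upwards [hc.eventually (sc3_open.mem_nhds hx)] with s hs
    exact sc3_XX h hs
  have h6 := e1.unique (e2.congr_of_eventuallyEq h5)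
  linarith

theorem sc3_decomp {u : V3} (hu : u ∈ H2) (v : V3) :
    eta u (v + eta u v • u) = 0 ∧ v = (v + eta u v • u) + (-eta u v) • u := by
  constructor
  · rw [sc3_eta_add', sc3_eta_smul', hu.1]; ring
  · rw [neg_smul]; abel

theorem sc3_NdX {X N : V3 → V4} (h : IsRegSurface X N) {u : V3} (hu : u ∈ H2) (v : V3) :
    q (N u) (fderiv ℝ X u v) = 0 := by
  have hC := sc3_H2 hu
  have hE := sc3_euler h hC
  obtain ⟨v1, v2⟩ := sc3_decomp hu v
  have ev : fderiv ℝ X u v = fderiv ℝ X u (v + eta u v • u) + (-eta u v) • X u := by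
    rw [← hE, ← map_smul, ← map_add, ← v2]
  rw [ev, sc3_q_add, h.NdX u hu _ v1, sc3_q_smul, h.NX u hu]
  ring

theorem cone3 {X N : V3 → V4} (h : IsRegSurface X N) {x : V3} (hx : x ∈ Cone) :
    q (X x) (X x) = eta x x ∧ fderiv ℝ X x x = X x ∧ (∀ t : ℝ, 0 < t → fderiv ℝ X (t • x) = fderiv ℝ X x) ∧
    (∀ v, q (X x) (fderiv ℝ X x v) = eta x v) ∧ (∀ v, q (N x) (fderiv ℝ X x v) = 0) ∧
    q (N x) (N x) = -1 ∧ q (N x) (X x) = 0 := by
  obtain ⟨r, hr, u, hu, rfl⟩ := sc3_unit hx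
  have hC := sc3_H2 hu
  refine ⟨sc3_XX h hx, sc3_euler h hx, fun t ht => ?_, sc3_XdX h hx, fun v => ?_, ?_, ?_⟩
  · ext1 v
    exact sc3_fderiv h hx ht v
  · rw [sc3_fderiv h hC hr, h.homN u hC r hr, sc3_NdX h hu]
  · rw [h.homN u hC r hr, h.NN u hu]
  · rw [h.homN u hC r hr, h.homX u hC r hr, sc3_q_smul, h.NX u hu, mul_zero]
theorem aux3_hasDerivAt_q {Y Z : ℝ → V4} {Y' Z' : V4} {s : ℝ} (hY : HasDerivAt Y Y' s)
    (hZ : HasDerivAt Z Z' s) :
    HasDerivAt (fun s => q (Y s) (Z s)) (q Y' (Z s) + q (Y s) Z') s := by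
  have hY : ∀ i, HasDerivAt (fun s => Y s i) (Y' i) s := fun i => (hasDerivAt_pi.mp hY) i
  have hZ : ∀ i, HasDerivAt (fun s => Z s i) (Z' i) s := fun i => (hasDerivAt_pi.mp hZ) i
  have h := (((((hY 0).fun_mul (hZ 0)).fun_neg.fun_add ((hY 1).fun_mul (hZ 1))).fun_add
    ((hY 2).fun_mul (hZ 2))).fun_sub ((hY 3).fun_mul (hZ 3)))
  have e : q Y' (Z s) + q (Y s) Z' = -(Y' 0 * Z s 0 + Y s 0 * Z' 0) +
      (Y' 1 * Z s 1 + Y s 1 * Z' 1) + (Y' 2 * Z s 2 + Y s 2 * Z' 2) -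
      (Y' 3 * Z s 3 + Y s 3 * Z' 3) := by
    simp only [q]
    ring
  rw [e]
  exact h

theorem aux3_isOpen_Cone : IsOpen Cone := by
  have h1 : Continuous (fun x : V3 => eta x x) := by
    unfold eta
    fun_prop
  have h2 : Continuous (fun x : V3 => x 0) := by fun_prop
  exact (isOpen_lt h1 continuous_const).inter (isOpen_lt continuous_const h2)

theorem aux3_q_comm (X Z : V4) : q X Z = q Z X := by
  simp only [q]
  ring

theorem aux3_eta_line (x z w : V3) (t : ℝ) : eta (x + t • z) w = eta x w + t * eta z w := by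
  simp only [eta, Pi.add_apply, Pi.smul_apply, smul_eq_mul]
  ring

theorem aux3_eta_hasDerivAt (x z w : V3) :
    HasDerivAt (fun t : ℝ => eta (x + t • z) w) (eta z w) 0 := by
  have h : HasDerivAt (fun t : ℝ => eta x w + t * eta z w) (eta z w) 0 := by
    have := ((hasDerivAt_id (0 : ℝ)).mul_const (eta z w)).const_add (eta x w)
    simpa using this
  refine h.congr_of_eventuallyEq (Filter.Eventually.of_forall ?_)
  intro t
  exact aux3_eta_line x z w t

theorem aux3_curve {E : Type*} [NormedAddCommGroup E] [NormedSpace ℝ E] {F : V3 → E} {x : V3}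
    (hF : DifferentiableAt ℝ F x) (v : V3) :
    HasDerivAt (fun t : ℝ => F (x + t • v)) (fderiv ℝ F x v) 0 := by
  have h1 : HasDerivAt (fun t : ℝ => x + t • v) v 0 := by
    have := ((hasDerivAt_id (0 : ℝ)).smul_const v).const_add x
    simpa using this
  have h2 : HasFDerivAt F (fderiv ℝ F x) (x + (0 : ℝ) • v) := by
    rw [zero_smul, add_zero]
    exact hF.hasFDerivAt
  exact h2.comp_hasDerivAt (0 : ℝ) h1

theorem aux3_ev {x : V3} (hx : x ∈ Cone) (v : V3) : ∀ᶠ t : ℝ in nhds 0, x + t • v ∈ Cone := by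
  have h1 : Continuous (fun t : ℝ => x + t • v) := by fun_prop
  have h2 : Cone ∈ nhds (x + (0 : ℝ) • v) := by
    rw [zero_smul, add_zero]
    exact aux3_isOpen_Cone.mem_nhds hx
  exact h1.continuousAt.eventually h2

theorem second3 {X N : V3 → V4} (h : IsRegSurface X N) {x : V3} (hx : x ∈ Cone) (v w : V3) :
    q (X x) (fderiv ℝ (fderiv ℝ X) x v w) = eta v w - q (fderiv ℝ X x v) (fderiv ℝ X x w) ∧
    q (N x) (fderiv ℝ (fderiv ℝ X) x v w) = -q (fderiv ℝ N x v) (fderiv ℝ X x w) ∧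
    fderiv ℝ (fderiv ℝ X) x v w = fderiv ℝ (fderiv ℝ X) x w v ∧
    q (X x) (fderiv ℝ N x v) = 0 ∧ q (N x) (fderiv ℝ N x v) = 0 := by
  have hnh : Cone ∈ nhds x := aux3_isOpen_Cone.mem_nhds hx
  have hCX : ContDiffAt ℝ 3 X x := h.smoothX.contDiffAt hnh
  have hCN : ContDiffAt ℝ 1 N x := h.smoothN.contDiffAt hnh
  have hdX : DifferentiableAt ℝ X x := hCX.differentiableAt (by norm_num)
  have hdN : DifferentiableAt ℝ N x := hCN.differentiableAt (by norm_num)
  have hdDX : DifferentiableAt ℝ (fderiv ℝ X) x :=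
    (hCX.fderiv_right (m := 2) (by norm_num)).differentiableAt (by norm_num)
  have hsymm : ∀ z w : V3, fderiv ℝ (fderiv ℝ X) x z w = fderiv ℝ (fderiv ℝ X) x w z := by
    have h1 : IsSymmSndFDerivAt ℝ X x :=
      (hCX.of_le (by norm_num : (2 : WithTop ℕ∞) ≤ 3)).isSymmSndFDerivAt (by simp)
    intro z w
    exact h1.eq z w
  have cX : ∀ z : V3, HasDerivAt (fun t : ℝ => X (x + t • z)) (fderiv ℝ X x z) 0 :=
    fun z => aux3_curve hdX z
  have cN : ∀ z : V3, HasDerivAt (fun t : ℝ => N (x + t • z)) (fderiv ℝ N x z) 0 :=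
    fun z => aux3_curve hdN z
  have cD : ∀ z w : V3, HasDerivAt (fun t : ℝ => fderiv ℝ X (x + t • z) w)
      (fderiv ℝ (fderiv ℝ X) x z w) 0 := by
    intro z w
    have h1 := aux3_curve hdDX z
    exact h1.clm_apply (hasDerivAt_const (0 : ℝ) w) |>.congr_deriv (by simp)
  have z0 : ∀ z : V3, x + (0 : ℝ) • z = x := fun z => by rw [zero_smul, add_zero]
  have e1 : ∀ z w : V3, q (fderiv ℝ X x z) (fderiv ℝ X x w) +
      q (X x) (fderiv ℝ (fderiv ℝ X) x z w) = eta z w := by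
    intro z w
    have d1 := aux3_hasDerivAt_q (cX z) (cD z w)
    rw [z0] at d1
    have d2 : HasDerivAt (fun t : ℝ => q (X (x + t • z)) (fderiv ℝ X (x + t • z) w))
        (eta z w) 0 := by
      refine (aux3_eta_hasDerivAt x z w).congr_of_eventuallyEq ?_
      filter_upwards [aux3_ev hx z] with t ht
      exact (cone3 h ht).2.2.2.1 w
    exact d1.unique d2
  have e3 : ∀ z w : V3, q (fderiv ℝ N x z) (fderiv ℝ X x w) +
      q (N x) (fderiv ℝ (fderiv ℝ X) x z w) = 0 := by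
    intro z w
    have d1 := aux3_hasDerivAt_q (cN z) (cD z w)
    rw [z0] at d1
    have d2 : HasDerivAt (fun t : ℝ => q (N (x + t • z)) (fderiv ℝ X (x + t • z) w))
        0 0 := by
      refine (hasDerivAt_const (0 : ℝ) (0 : ℝ)).congr_of_eventuallyEq ?_
      filter_upwards [aux3_ev hx z] with t ht
      exact (cone3 h ht).2.2.2.2.1 w
    exact d1.unique d2
  have e4 : q (fderiv ℝ N x v) (X x) + q (N x) (fderiv ℝ X x v) = 0 := by
    have d1 := aux3_hasDerivAt_q (cN v) (cX v)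
    rw [z0] at d1
    have d2 : HasDerivAt (fun t : ℝ => q (N (x + t • v)) (X (x + t • v))) 0 0 := by
      refine (hasDerivAt_const (0 : ℝ) (0 : ℝ)).congr_of_eventuallyEq ?_
      filter_upwards [aux3_ev hx v] with t ht
      exact (cone3 h ht).2.2.2.2.2.2
    exact d1.unique d2
  have e5 : q (fderiv ℝ N x v) (N x) + q (N x) (fderiv ℝ N x v) = 0 := by
    have d1 := aux3_hasDerivAt_q (cN v) (cN v)
    rw [z0] at d1
    have d2 : HasDerivAt (fun t : ℝ => q (N (x + t • v)) (N (x + t • v))) 0 0 := by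
      refine (hasDerivAt_const (0 : ℝ) (-1 : ℝ)).congr_of_eventuallyEq ?_
      filter_upwards [aux3_ev hx v] with t ht
      exact (cone3 h ht).2.2.2.2.2.1
    exact d1.unique d2
  have hND : q (N x) (fderiv ℝ X x v) = 0 := (cone3 h hx).2.2.2.2.1 v
  refine ⟨?_, ?_, hsymm v w, ?_, ?_⟩
  · have := e1 v w
    linarith
  · have := e3 v w
    linarith
  · rw [hND, add_zero, aux3_q_comm] at e4
    exact e4
  · rw [aux3_q_comm (fderiv ℝ N x v)] at e5
    linarith
theorem metric3_aux {X N : V3 → V4} (h : IsRegSurface X N) {x : V3} (hx : x ∈ H2)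
    (v w : V3) : q (fderiv ℝ X x (v + eta x v • x)) (fderiv ℝ X x (w + eta x w • x))
      = q (fderiv ℝ X x v) (fderiv ℝ X x w) + eta x v * eta x w := by
  have hc : x ∈ Cone := ⟨by rw [hx.1]; norm_num, hx.2⟩
  obtain ⟨h1, h2, -, h3, -, -, -⟩ := cone3 h hc
  have hv := h3 v
  have hw := h3 w
  rw [hx.1] at h1
  have e1 : fderiv ℝ X x (v + eta x v • x) = fderiv ℝ X x v + eta x v • X x := by
    rw [map_add, map_smul, h2]
  have e2 : fderiv ℝ X x (w + eta x w • x) = fderiv ℝ X x w + eta x w • X x := by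
    rw [map_add, map_smul, h2]
  rw [e1, e2]
  generalize fderiv ℝ X x v = P at *
  generalize fderiv ℝ X x w = Q at *
  generalize X x = Z at *
  have e3 : q (P + eta x v • Z) (Q + eta x w • Z) = q P Q + eta x w * q Z P + eta x v * q Z Q
      + eta x v * eta x w * q Z Z := by
    simp only [q, Pi.add_apply, Pi.smul_apply, smul_eq_mul]
    ring
  rw [e3, hv, hw, h1]
  ring

theorem metric3_aux2 {X N Y M : V3 → V4} (h : IsRegSurface X N) (h' : IsRegSurface Y M)
    (hs : SameMetric X Y) {x : V3} (hx : x ∈ H2) (v w : V3) :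
    q (fderiv ℝ X x v) (fderiv ℝ X x w) = q (fderiv ℝ Y x v) (fderiv ℝ Y x w) := by
  have a1 := metric3_aux h hx v w
  have a2 := metric3_aux h' hx v w
  have ht : ∀ v : V3, eta x (v + eta x v • x) = 0 := by
    intro v
    have h1 : eta x (v + eta x v • x) = eta x v + eta x v * eta x x := by
      simp only [eta, Pi.add_apply, Pi.smul_apply, smul_eq_mul]
      ring
    rw [h1, hx.1]
    ring
  have a3 := hs x hx _ _ (ht v) (ht w)
  linarith

theorem metric3 {X N Y M : V3 → V4} (h : IsRegSurface X N) (h' : IsRegSurface Y M)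
    (hs : SameMetric X Y) {x : V3} (hx : x ∈ Cone) (v w : V3) :
    q (fderiv ℝ X x v) (fderiv ℝ X x w) = q (fderiv ℝ Y x v) (fderiv ℝ Y x w) := by
  have hn : 0 < -eta x x := by linarith [hx.1]
  have hsq : 0 < Real.sqrt (-eta x x) := Real.sqrt_pos.2 hn
  have ht : 0 < (Real.sqrt (-eta x x))⁻¹ := inv_pos.2 hsq
  have hmem : (Real.sqrt (-eta x x))⁻¹ • x ∈ H2 := by
    constructor
    · have e : eta ((Real.sqrt (-eta x x))⁻¹ • x) ((Real.sqrt (-eta x x))⁻¹ • x)
          = ((Real.sqrt (-eta x x)) ^ 2)⁻¹ * eta x x := by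
        simp only [eta, Pi.smul_apply, smul_eq_mul]
        ring
      rw [e, Real.sq_sqrt hn.le]
      have hne : eta x x ≠ 0 := hx.1.ne
      rw [inv_neg, neg_mul, inv_mul_cancel₀ hne]
    · have : ((Real.sqrt (-eta x x))⁻¹ • x) 0 = (Real.sqrt (-eta x x))⁻¹ * x 0 := rfl
      rw [this]
      exact mul_pos ht hx.2
  have hX := (cone3 h hx).2.2.1 _ ht
  have hY := (cone3 h' hx).2.2.1 _ ht
  have := metric3_aux2 h h' hs hmem v w
  rwa [hX, hY] at this

theorem koszul3 {X N Y M : V3 → V4} (h : IsRegSurface X N) (h' : IsRegSurface Y M)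
    (hs : SameMetric X Y) {x : V3} (hx : x ∈ Cone) (a b c : V3) :
    q (fderiv ℝ (fderiv ℝ X) x a b) (fderiv ℝ X x c) =
      q (fderiv ℝ (fderiv ℝ Y) x a b) (fderiv ℝ Y x c) := by
  have hnh : Cone ∈ nhds x := aux3_isOpen_Cone.mem_nhds hx
  have cD : ∀ {X N : V3 → V4}, IsRegSurface X N → ∀ z w : V3,
      HasDerivAt (fun t : ℝ => fderiv ℝ X (x + t • z) w) (fderiv ℝ (fderiv ℝ X) x z w) 0 := by
    intro X N h z w
    have hCX : ContDiffAt ℝ 3 X x := h.smoothX.contDiffAt hnh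
    have hdDX : DifferentiableAt ℝ (fderiv ℝ X) x :=
      (hCX.fderiv_right (m := 2) (by norm_num)).differentiableAt (by norm_num)
    have h1 := aux3_curve hdDX z
    exact h1.clm_apply (hasDerivAt_const (0 : ℝ) w) |>.congr_deriv (by simp)
  have z0 : ∀ z : V3, x + (0 : ℝ) • z = x := fun z => by rw [zero_smul, add_zero]
  have key : ∀ z v w : V3,
      q (fderiv ℝ (fderiv ℝ X) x z v) (fderiv ℝ X x w) + q (fderiv ℝ X x v) (fderiv ℝ (fderiv ℝ X) x z w) =
      q (fderiv ℝ (fderiv ℝ Y) x z v) (fderiv ℝ Y x w) + q (fderiv ℝ Y x v) (fderiv ℝ (fderiv ℝ Y) x z w) := by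
    intro z v w
    have d1 := aux3_hasDerivAt_q (cD h z v) (cD h z w)
    have d2 := aux3_hasDerivAt_q (cD h' z v) (cD h' z w)
    rw [z0] at d1 d2
    refine (d1.congr_of_eventuallyEq ?_).unique d2
    filter_upwards [aux3_ev hx z] with t ht
    exact (metric3 h h' hs ht v w).symm
  have sX := fun z w => (second3 h hx z w).2.2.1
  have sY := fun z w => (second3 h' hx z w).2.2.1
  have k1 := key a b c
  have k2 := key b c a
  have k3 := key c a b
  rw [aux3_q_comm (fderiv ℝ X x b), aux3_q_comm (fderiv ℝ Y x b), sX a c, sY a c] at k1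
  rw [aux3_q_comm (fderiv ℝ X x c), aux3_q_comm (fderiv ℝ Y x c), sX b a, sY b a] at k2
  rw [aux3_q_comm (fderiv ℝ X x a), aux3_q_comm (fderiv ℝ Y x a), sX c b, sY c b] at k3
  linarith

/-- four vectors with Gram matrix `diag(-1,1,1,-1)` -/
theorem parseval_aux (F0 F1 F2 F3 : V4) (h00 : q F0 F0 = -1) (h11 : q F1 F1 = 1) (h22 : q F2 F2 = 1)
    (h33 : q F3 F3 = -1) (h01 : q F0 F1 = 0) (h02 : q F0 F2 = 0) (h03 : q F0 F3 = 0)
    (h12 : q F1 F2 = 0) (h13 : q F1 F3 = 0) (h23 : q F2 F3 = 0) (A B : V4) :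
    q A B = -(q A F0 * q B F0) + (q A F1 * q B F1 + q A F2 * q B F2) - q A F3 * q B F3 := by
  set Q : Matrix (Fin 4) (Fin 4) ℝ := Matrix.diagonal ![-1, 1, 1, -1] with hQ
  set F : Matrix (Fin 4) (Fin 4) ℝ := Matrix.of ![F0, F1, F2, F3] with hF
  have hQQ : Q * Q = 1 := by
    rw [hQ, Matrix.diagonal_mul_diagonal, ← Matrix.diagonal_one]
    congr 1
    funext i
    fin_cases i <;> simp
  have h1 : F * Q * F.transpose = Q := by
    unfold q at *
    ext i j
    rw [Matrix.mul_apply, Fin.sum_univ_four]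
    simp only [hQ, Matrix.mul_diagonal, Matrix.transpose_apply]
    fin_cases i <;> fin_cases j <;>
      simp [hF, Matrix.diagonal] <;> linarith
  have h2 : F * (Q * F.transpose * Q) = 1 := by
    rw [← Matrix.mul_assoc, ← Matrix.mul_assoc, h1, hQQ]
  have h3 : Q * F.transpose * Q * F = 1 := mul_eq_one_comm.1 h2
  have h4 : F.transpose * Q * F = Q := by
    have : Q * (Q * F.transpose * Q * F) = Q := by rw [h3, Matrix.mul_one]
    rw [← Matrix.mul_assoc, ← Matrix.mul_assoc, ← Matrix.mul_assoc, hQQ, Matrix.one_mul] at this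
    exact this
  have h5 : ∀ i j, -(F0 i * F0 j) + F1 i * F1 j + F2 i * F2 j - F3 i * F3 j = Q i j := by
    intro i j
    rw [← h4, Matrix.mul_apply, Fin.sum_univ_four]
    simp only [hQ, Matrix.mul_diagonal, Matrix.transpose_apply]
    simp [hF]
    ring
  have e00 := h5 0 0
  have e01 := h5 0 1
  have e02 := h5 0 2
  have e03 := h5 0 3
  have e10 := h5 1 0
  have e11 := h5 1 1
  have e12 := h5 1 2
  have e13 := h5 1 3
  have e20 := h5 2 0
  have e21 := h5 2 1
  have e22 := h5 2 2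
  have e23 := h5 2 3
  have e30 := h5 3 0
  have e31 := h5 3 1
  have e32 := h5 3 2
  have e33 := h5 3 3
  simp [hQ, Matrix.diagonal] at e00 e01 e02 e03 e10 e11 e12 e13 e20 e21 e22 e23 e30 e31 e32 e33
  unfold q
  linear_combination -(A 0 * B 0) * e00 + (A 0 * B 1) * e01 + (A 0 * B 2) * e02 - (A 0 * B 3) * e03
    + (A 1 * B 0) * e10 - (A 1 * B 1) * e11 - (A 1 * B 2) * e12 + (A 1 * B 3) * e13
    + (A 2 * B 0) * e20 - (A 2 * B 1) * e21 - (A 2 * B 2) * e22 + (A 2 * B 3) * e23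
    - (A 3 * B 0) * e30 + (A 3 * B 1) * e31 + (A 3 * B 2) * e32 - (A 3 * B 3) * e33

/-- an orthonormal basis of the tangent plane for the induced metric -/
theorem gon3 {X N : V3 → V4} (h : IsRegSurface X N) {x : V3} (hx : x ∈ H2) :
    ∃ e₁ e₂ : V3, eta x e₁ = 0 ∧ eta x e₂ = 0 ∧ q (fderiv ℝ X x e₁) (fderiv ℝ X x e₁) = 1 ∧
      q (fderiv ℝ X x e₂) (fderiv ℝ X x e₂) = 1 ∧ q (fderiv ℝ X x e₁) (fderiv ℝ X x e₂) = 0 := by
  have hx0 : x 0 ≠ 0 := hx.2.ne'
  set g : V3 → V3 → ℝ := fun v w => q (fderiv ℝ X x v) (fderiv ℝ X x w) with hg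
  have gadd : ∀ u v w, g u (v + w) = g u v + g u w := by
    intro u v w; simp only [hg, map_add]; exact sc3_q_add _ _ _
  have gsmul : ∀ (u v : V3) (c : ℝ), g u (c • v) = c * g u v := by
    intro u v c; simp only [hg, map_smul]; exact sc3_q_smul _ _ _
  have gcomm : ∀ u v, g u v = g v u := fun u v => sc3_q_comm _ _
  have gpos : ∀ v, eta x v = 0 → v ≠ 0 → 0 < g v v := fun v h1 h2 => h.spacelike x hx v h1 h2
  have norm : ∀ v, eta x v = 0 → v ≠ 0 → ∃ c : ℝ, c ≠ 0 ∧ g (c • v) (c • v) = 1 := by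
    intro v h1 h2
    have h3 := gpos v h1 h2
    refine ⟨(Real.sqrt (g v v))⁻¹, (inv_pos.2 (Real.sqrt_pos.2 h3)).ne', ?_⟩
    rw [gsmul, gcomm ((Real.sqrt (g v v))⁻¹ • v) v, gsmul]
    have h4 := Real.mul_self_sqrt h3.le
    have h5 := (Real.sqrt_pos.2 h3).ne'
    field_simp
    rw [sq, h4]
  have t1 : eta x ![x 1, x 0, 0] = 0 := by simp [eta]; ring
  have t2 : eta x ![x 2, 0, x 0] = 0 := by simp [eta]; ring
  have n1 : (![x 1, x 0, 0] : V3) ≠ 0 := fun h0 => hx0 (by simpa using congrFun h0 1)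
  obtain ⟨c, hc, h1⟩ := norm _ t1 n1
  set e₁ : V3 := c • ![x 1, x 0, 0] with he
  have te1 : eta x e₁ = 0 := by rw [he, sc3_eta_smul', t1, mul_zero]
  set w : V3 := ![x 2, 0, x 0] + (-g e₁ ![x 2, 0, x 0]) • e₁ with hw
  have tw : eta x w = 0 := by rw [hw, sc3_eta_add', sc3_eta_smul', te1, t2]; ring
  have nw : w ≠ 0 := by
    intro h0
    have := congrFun h0 2
    simp [hw, he] at this
    exact hx0 this
  have gw : g e₁ w = 0 := by rw [hw, gadd, gsmul, h1]; ring
  obtain ⟨d, hd, h2⟩ := norm w tw nw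
  refine ⟨e₁, d • w, te1, by rw [sc3_eta_smul', tw, mul_zero], h1, h2, ?_⟩
  show g e₁ (d • w) = 0
  rw [gsmul, gw, mul_zero]

namespace SGau3

theorem H2_cone {x : V3} (hx : x ∈ H2) : x ∈ Cone := ⟨by rw [hx.1]; norm_num, hx.2⟩

theorem cone_open : IsOpen Cone := by
  have h1 : Continuous fun x : V3 => eta x x := by
    unfold eta; fun_prop
  have h2 : Continuous fun x : V3 => x 0 := by fun_prop
  exact (isOpen_lt h1 continuous_const).inter (isOpen_lt continuous_const h2)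

theorem q_comm (Y Z : V4) : q Y Z = q Z Y := by unfold q; ring

theorem near {x e₁ e₂ : V3} (hx : x ∈ H2) :
    ∀ᶠ s in nhds (0:ℝ), ∀ᶠ t in nhds (0:ℝ), x + s • e₁ + t • e₂ ∈ Cone := by
  have hc : Continuous fun p : ℝ × ℝ => x + p.1 • e₁ + p.2 • e₂ := by fun_prop
  have h0 : (fun p : ℝ × ℝ => x + p.1 • e₁ + p.2 • e₂) (0, 0) ∈ Cone := by
    simp only [zero_smul, add_zero]
    exact H2_cone hx
  have h1 : ∀ᶠ p : ℝ × ℝ in nhds (0, 0), x + p.1 • e₁ + p.2 • e₂ ∈ Cone :=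
    hc.continuousAt.eventually (cone_open.mem_nhds h0)
  exact h1.curry_nhds

theorem near1 {x e : V3} (hx : x ∈ H2) : ∀ᶠ t in nhds (0:ℝ), x + t • e ∈ Cone := by
  have hc : Continuous fun t : ℝ => x + t • e := by fun_prop
  have h0 : (fun t : ℝ => x + t • e) 0 ∈ Cone := by
    simp only [zero_smul, add_zero]
    exact H2_cone hx
  exact hc.continuousAt.eventually (cone_open.mem_nhds h0)

theorem term1 {X N Y M : V3 → V4} (h : IsRegSurface X N) (h' : IsRegSurface Y M)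
    (hs : SameMetric X Y) {x : V3} (hx : x ∈ H2) (e₁ e₂ : V3) :
    deriv (fun s : ℝ => deriv (fun t : ℝ => q (fderiv ℝ X (x + s • e₁ + t • e₂) e₁)
      (fderiv ℝ X (x + s • e₁ + t • e₂) e₂)) 0) 0 =
    deriv (fun s : ℝ => deriv (fun t : ℝ => q (fderiv ℝ Y (x + s • e₁ + t • e₂) e₁)
      (fderiv ℝ Y (x + s • e₁ + t • e₂) e₂)) 0) 0 := by
  have h1 : (fun s : ℝ => deriv (fun t : ℝ => q (fderiv ℝ X (x + s • e₁ + t • e₂) e₁)
      (fderiv ℝ X (x + s • e₁ + t • e₂) e₂)) 0) =ᶠ[nhds 0]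
      fun s : ℝ => deriv (fun t : ℝ => q (fderiv ℝ Y (x + s • e₁ + t • e₂) e₁)
      (fderiv ℝ Y (x + s • e₁ + t • e₂) e₂)) 0 := by
    filter_upwards [near (e₁ := e₁) (e₂ := e₂) hx] with s hs'
    have h3 : (fun t : ℝ => q (fderiv ℝ X (x + s • e₁ + t • e₂) e₁)
        (fderiv ℝ X (x + s • e₁ + t • e₂) e₂)) =ᶠ[nhds 0]
        fun t : ℝ => q (fderiv ℝ Y (x + s • e₁ + t • e₂) e₁)
        (fderiv ℝ Y (x + s • e₁ + t • e₂) e₂) := by
      filter_upwards [hs'] with t ht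
      exact metric3 h h' hs ht e₁ e₂
    exact h3.deriv_eq
  exact h1.deriv_eq

theorem term2 {X N Y M : V3 → V4} (h : IsRegSurface X N) (h' : IsRegSurface Y M)
    (hs : SameMetric X Y) {x : V3} (hx : x ∈ H2) (e f : V3) :
    deriv (fun t : ℝ => deriv (fun t' : ℝ => q (fderiv ℝ X (x + t' • f) e)
      (fderiv ℝ X (x + t' • f) e)) t) 0 =
    deriv (fun t : ℝ => deriv (fun t' : ℝ => q (fderiv ℝ Y (x + t' • f) e)
      (fderiv ℝ Y (x + t' • f) e)) t) 0 := by
  have h3 : (fun t' : ℝ => q (fderiv ℝ X (x + t' • f) e) (fderiv ℝ X (x + t' • f) e))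
      =ᶠ[nhds 0] fun t' : ℝ => q (fderiv ℝ Y (x + t' • f) e) (fderiv ℝ Y (x + t' • f) e) := by
    filter_upwards [near1 (e := f) hx] with t ht
    exact metric3 h h' hs ht e e
  exact h3.deriv.deriv_eq

theorem expand {X N : V3 → V4} (h : IsRegSurface X N) {x : V3} (hx : x ∈ H2) {e₁ e₂ : V3}
    (he : eta x e₁ = 0 ∧ eta x e₂ = 0 ∧ q (fderiv ℝ X x e₁) (fderiv ℝ X x e₁) = 1 ∧
      q (fderiv ℝ X x e₂) (fderiv ℝ X x e₂) = 1 ∧ q (fderiv ℝ X x e₁) (fderiv ℝ X x e₂) = 0) (a b c d : V3) :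
    q (fderiv ℝ (fderiv ℝ X) x a b) (fderiv ℝ (fderiv ℝ X) x c d) =
      -((eta a b - q (fderiv ℝ X x a) (fderiv ℝ X x b)) * (eta c d - q (fderiv ℝ X x c) (fderiv ℝ X x d)))
      + (q (fderiv ℝ (fderiv ℝ X) x a b) (fderiv ℝ X x e₁) * q (fderiv ℝ (fderiv ℝ X) x c d) (fderiv ℝ X x e₁)
        + q (fderiv ℝ (fderiv ℝ X) x a b) (fderiv ℝ X x e₂) * q (fderiv ℝ (fderiv ℝ X) x c d) (fderiv ℝ X x e₂))
      - q (fderiv ℝ N x a) (fderiv ℝ X x b) * q (fderiv ℝ N x c) (fderiv ℝ X x d) := by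
  obtain ⟨g1, g2, g3, g4, g5⟩ := he
  obtain ⟨c1, -, -, c4, c5, c6, c7⟩ := cone3 h (H2_cone hx)
  have hp := parseval_aux (X x) (fderiv ℝ X x e₁) (fderiv ℝ X x e₂) (N x) (c1.trans hx.1) g3 g4 c6
    ((c4 e₁).trans g1) ((c4 e₂).trans g2) (by rw [q_comm]; exact c7) g5 (by rw [q_comm]; exact c5 e₁)
    (by rw [q_comm]; exact c5 e₂) (fderiv ℝ (fderiv ℝ X) x a b) (fderiv ℝ (fderiv ℝ X) x c d)
  obtain ⟨h1, h2, -, -, -⟩ := second3 h (H2_cone hx) a b
  obtain ⟨h3, h4, -, -, -⟩ := second3 h (H2_cone hx) c d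
  rw [hp]
  rw [q_comm (fderiv ℝ (fderiv ℝ X) x a b) (X x), q_comm (fderiv ℝ (fderiv ℝ X) x c d) (X x),
    q_comm (fderiv ℝ (fderiv ℝ X) x a b) (N x), q_comm (fderiv ℝ (fderiv ℝ X) x c d) (N x), h1, h2, h3, h4]
  ring

end SGau3

theorem gauss3 {X N Y M : V3 → V4} (h : IsRegSurface X N) (h' : IsRegSurface Y M)
    (hs : SameMetric X Y) {x : V3} (hx : x ∈ H2) {v w : V3} (hv : eta x v = 0) (hw : eta x w = 0) :
    q (fderiv ℝ N x v) (fderiv ℝ X x v) * q (fderiv ℝ N x w) (fderiv ℝ X x w)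
      - q (fderiv ℝ N x v) (fderiv ℝ X x w) ^ 2
    = q (fderiv ℝ M x v) (fderiv ℝ Y x v) * q (fderiv ℝ M x w) (fderiv ℝ Y x w)
      - q (fderiv ℝ M x v) (fderiv ℝ Y x w) ^ 2 := by
  have hg := classical_gauss SGau3.cone_open h.smoothX (SGau3.H2_cone hx) v w
  have hg' := classical_gauss SGau3.cone_open h'.smoothX (SGau3.H2_cone hx) v w
  rw [SGau3.term1 h h' hs hx v w, SGau3.term2 h h' hs hx v w, SGau3.term2 h h' hs hx w v, ← hg'] at hg
  obtain ⟨e₁, e₂, he⟩ := gon3 h hx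
  have he' : eta x e₁ = 0 ∧ eta x e₂ = 0 ∧ q (fderiv ℝ Y x e₁) (fderiv ℝ Y x e₁) = 1 ∧
      q (fderiv ℝ Y x e₂) (fderiv ℝ Y x e₂) = 1 ∧ q (fderiv ℝ Y x e₁) (fderiv ℝ Y x e₂) = 0 := by
    obtain ⟨g1, g2, g3, g4, g5⟩ := he
    refine ⟨g1, g2, ?_, ?_, ?_⟩
    · rw [← hs x hx e₁ e₁ g1 g1]; exact g3
    · rw [← hs x hx e₂ e₂ g2 g2]; exact g4
    · rw [← hs x hx e₁ e₂ g1 g2]; exact g5
  have hc := SGau3.H2_cone hx
  rw [SGau3.expand h hx he v v w w, SGau3.expand h hx he v w v w,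
    SGau3.expand h' hx he' v v w w, SGau3.expand h' hx he' v w v w] at hg
  simp only [koszul3 h h' hs hc, metric3 h h' hs hc v v, metric3 h h' hs hc w w,
    metric3 h h' hs hc v w] at hg
  linear_combination -hg

end A_gauss3

alias gauss3 := A_gauss3.gauss3

namespace A_pos_of

theorem rp_open : IsOpen Cone := by
  have h1 : Continuous fun x : V3 => eta x x := by unfold eta; fun_prop
  have h2 : Continuous fun x : V3 => x 0 := by fun_prop
  exact (isOpen_lt h1 continuous_const).inter (isOpen_lt continuous_const h2)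

theorem rp_q_add (A B C : V4) : q A (B + C) = q A B + q A C := by
  simp [q]; ring

theorem rp_q_smul (A B : V4) (c : ℝ) : q A (c • B) = c * q A B := by
  simp [q]; ring

theorem rp_q_comm (A B : V4) : q A B = q B A := by
  simp [q]; ring

theorem rp_eta_smul (t : ℝ) (x y : V3) : eta (t • x) y = t * eta x y := by
  simp [eta]; ring

theorem rp_eta_smul' (t : ℝ) (x y : V3) : eta x (t • y) = t * eta x y := by
  simp [eta]; ring

theorem rp_eta_add' (x y z : V3) : eta x (y + z) = eta x y + eta x z := by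
  simp [eta]; ring

theorem rp_H2 {u : V3} (hu : u ∈ H2) : u ∈ Cone := ⟨by rw [hu.1]; norm_num, hu.2⟩

theorem rp_diff {X N : V3 → V4} (h : IsRegSurface X N) {x : V3} (hx : x ∈ Cone) :
    DifferentiableAt ℝ X x :=
  (h.smoothX.differentiableOn (by norm_num)).differentiableAt (rp_open.mem_nhds hx)

theorem rp_scale {x : V3} (hx : x ∈ Cone) {t : ℝ} (ht : 0 < t) : t • x ∈ Cone := by
  refine ⟨?_, ?_⟩
  · rw [rp_eta_smul, rp_eta_smul']
    have := hx.1
    have h2 : 0 < t * t := by positivity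
    nlinarith
  · show 0 < t * x 0
    exact mul_pos ht hx.2

theorem rp_fderiv {X N : V3 → V4} (h : IsRegSurface X N) {x : V3} (hx : x ∈ Cone)
    {t : ℝ} (ht : 0 < t) (v : V3) : fderiv ℝ X (t • x) v = fderiv ℝ X x v := by
  have h1 : HasFDerivAt X (fderiv ℝ X x) x := (rp_diff h hx).hasFDerivAt
  have h2 : HasFDerivAt X (fderiv ℝ X (t • x)) (t • x) :=
    (rp_diff h (rp_scale hx ht)).hasFDerivAt
  have h3 : HasFDerivAt (fun y : V3 => X (t • y))
      ((fderiv ℝ X (t • x)).comp (t • ContinuousLinearMap.id ℝ V3)) x := by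
    have : HasFDerivAt (fun y : V3 => t • y) (t • ContinuousLinearMap.id ℝ V3) x :=
      (hasFDerivAt_id x).const_smul t
    exact h2.comp x this
  have h4 : HasFDerivAt (fun y : V3 => t • X y) (t • fderiv ℝ X x) x := h1.const_smul t
  have h5 : (fun y : V3 => X (t • y)) =ᶠ[nhds x] fun y => t • X y := by
    filter_upwards [rp_open.mem_nhds hx] with y hy
    exact h.homX y hy t ht
  have h6 := (h4.congr_of_eventuallyEq h5).unique h3
  have h7 := congrArg (fun L : V3 →L[ℝ] V4 => L v) h6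
  simp only [ContinuousLinearMap.smul_apply, ContinuousLinearMap.comp_apply,
    ContinuousLinearMap.id_apply, map_smul] at h7
  exact (smul_right_injective V4 ht.ne' h7).symm

theorem rp_euler {X N : V3 → V4} (h : IsRegSurface X N) {x : V3} (hx : x ∈ Cone) :
    fderiv ℝ X x x = X x := by
  have h1 : HasFDerivAt X (fderiv ℝ X x) ((1 : ℝ) • x) := by
    rw [one_smul]; exact (rp_diff h hx).hasFDerivAt
  have h0 : HasDerivAt (fun t : ℝ => t • x) x 1 := by
    simpa using (hasDerivAt_id (1 : ℝ)).smul_const x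
  have h2 : HasDerivAt (fun t : ℝ => X (t • x)) (fderiv ℝ X x x) 1 := h1.comp_hasDerivAt (1 : ℝ) h0
  have h3 : HasDerivAt (fun t : ℝ => t • X x) (X x) 1 := by
    simpa using (hasDerivAt_id (1 : ℝ)).smul_const (X x)
  have h5 : (fun t : ℝ => X (t • x)) =ᶠ[nhds 1] fun t => t • X x := by
    filter_upwards [lt_mem_nhds (show (0 : ℝ) < 1 by norm_num)] with t ht
    exact h.homX x hx t ht
  exact h2.unique (h3.congr_of_eventuallyEq h5)

theorem rp_unit {x : V3} (hx : x ∈ Cone) : ∃ r : ℝ, 0 < r ∧ ∃ u ∈ H2, x = r • u := by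
  have h1 : 0 < -eta x x := by have := hx.1; linarith
  have hr : 0 < Real.sqrt (-eta x x) := Real.sqrt_pos.2 h1
  refine ⟨Real.sqrt (-eta x x), hr, (Real.sqrt (-eta x x))⁻¹ • x, ⟨?_, ?_⟩, ?_⟩
  · rw [rp_eta_smul, rp_eta_smul']
    have h2 : Real.sqrt (-eta x x) * Real.sqrt (-eta x x) = -eta x x :=
      Real.mul_self_sqrt h1.le
    set r := Real.sqrt (-eta x x)
    have h3 : eta x x = -(r * r) := by linarith
    rw [h3]
    field_simp
  · show 0 < (Real.sqrt (-eta x x))⁻¹ * x 0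
    exact mul_pos (inv_pos.2 hr) hx.2
  · rw [smul_smul, mul_inv_cancel₀ hr.ne', one_smul]

theorem rp_XX {X N : V3 → V4} (h : IsRegSurface X N) {x : V3} (hx : x ∈ Cone) :
    q (X x) (X x) = eta x x := by
  obtain ⟨r, hr, u, hu, rfl⟩ := rp_unit hx
  rw [h.homX u (rp_H2 hu) r hr, rp_q_smul, rp_q_comm, rp_q_smul,
    h.XX u hu, rp_eta_smul, rp_eta_smul', hu.1]

theorem rp_XdX {X N : V3 → V4} (h : IsRegSurface X N) {x : V3} (hx : x ∈ Cone)
    (v : V3) : q (X x) (fderiv ℝ X x v) = eta x v := by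
  set D := fderiv ℝ X x v with hD
  have hline : HasDerivAt (fun s : ℝ => x + s • v) v 0 := by
    simpa using ((hasDerivAt_id (0 : ℝ)).smul_const v).const_add x
  have h1 : HasFDerivAt X (fderiv ℝ X x) (x + (0 : ℝ) • v) := by
    rw [zero_smul, add_zero]; exact (rp_diff h hx).hasFDerivAt
  have h2 : HasDerivAt (fun s : ℝ => X (x + s • v)) D 0 := h1.comp_hasDerivAt (0 : ℝ) hline
  have h3 : ∀ i, HasDerivAt (fun s : ℝ => X (x + s • v) i) (D i) 0 := fun i =>
    (hasDerivAt_pi.1 h2) i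
  have h4 : ∀ i, HasDerivAt (fun s : ℝ => (x + s • v) i) (v i) 0 := fun i =>
    (hasDerivAt_pi.1 hline) i
  have e1 : HasDerivAt (fun s : ℝ => q (X (x + s • v)) (X (x + s • v))) (2 * q (X x) D) 0 := by
    have := ((((h3 0).mul (h3 0)).neg.add ((h3 1).mul (h3 1))).add ((h3 2).mul (h3 2))).sub
      ((h3 3).mul (h3 3))
    simp only [zero_smul, add_zero] at this
    refine (this.congr_deriv ?_)
    unfold q
    ring
  have e2 : HasDerivAt (fun s : ℝ => eta (x + s • v) (x + s • v)) (2 * eta x v) 0 := by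
    have := (((h4 0).mul (h4 0)).neg.add ((h4 1).mul (h4 1))).add ((h4 2).mul (h4 2))
    simp only [zero_smul, add_zero] at this
    refine (this.congr_deriv ?_)
    unfold eta
    ring
  have h5 : (fun s : ℝ => q (X (x + s • v)) (X (x + s • v))) =ᶠ[nhds 0]
      fun s => eta (x + s • v) (x + s • v) := by
    have hc : Filter.Tendsto (fun s : ℝ => x + s • v) (nhds 0) (nhds x) := by
      have := hline.continuousAt.tendsto
      simpa using this
    filter_upwards [hc.eventually (rp_open.mem_nhds hx)] with s hs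
    exact rp_XX h hs
  have h6 := e1.unique (e2.congr_of_eventuallyEq h5)
  linarith

theorem rp_decomp {u : V3} (hu : u ∈ H2) (v : V3) :
    eta u (v + eta u v • u) = 0 ∧ v = (v + eta u v • u) + (-eta u v) • u := by
  constructor
  · rw [rp_eta_add', rp_eta_smul', hu.1]; ring
  · rw [neg_smul]; abel

theorem rp_NdX {X N : V3 → V4} (h : IsRegSurface X N) {u : V3} (hu : u ∈ H2) (v : V3) :
    q (N u) (fderiv ℝ X u v) = 0 := by
  have hC := rp_H2 hu
  have hE := rp_euler h hC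
  obtain ⟨v1, v2⟩ := rp_decomp hu v
  have ev : fderiv ℝ X u v = fderiv ℝ X u (v + eta u v • u) + (-eta u v) • X u := by
    rw [← hE, ← map_smul, ← map_add, ← v2]
  rw [ev, rp_q_add, h.NdX u hu _ v1, rp_q_smul, h.NX u hu]
  ring

 theorem rp_cone {X N : V3 → V4} (h : IsRegSurface X N) {x : V3} (hx : x ∈ Cone) :
    q (X x) (X x) = eta x x ∧ fderiv ℝ X x x = X x ∧ (∀ t : ℝ, 0 < t → fderiv ℝ X (t • x) = fderiv ℝ X x) ∧
    (∀ v, q (X x) (fderiv ℝ X x v) = eta x v) ∧ (∀ v, q (N x) (fderiv ℝ X x v) = 0) ∧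
    q (N x) (N x) = -1 ∧ q (N x) (X x) = 0 := by
  obtain ⟨r, hr, u, hu, rfl⟩ := rp_unit hx
  have hC := rp_H2 hu
  refine ⟨rp_XX h hx, rp_euler h hx, fun t ht => ?_, rp_XdX h hx, fun v => ?_, ?_, ?_⟩
  · ext1 v
    exact rp_fderiv h hx ht v
  · rw [rp_fderiv h hC hr, h.homN u hC r hr, rp_NdX h hu]
  · rw [h.homN u hC r hr, h.NN u hu]
  · rw [h.homN u hC r hr, h.homX u hC r hr, rp_q_smul, h.NX u hu, mul_zero]
theorem rpa_hasDerivAt_q {Y Z : ℝ → V4} {Y' Z' : V4} {s : ℝ} (hY : HasDerivAt Y Y' s)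
    (hZ : HasDerivAt Z Z' s) :
    HasDerivAt (fun s => q (Y s) (Z s)) (q Y' (Z s) + q (Y s) Z') s := by
  have hY : ∀ i, HasDerivAt (fun s => Y s i) (Y' i) s := fun i => (hasDerivAt_pi.mp hY) i
  have hZ : ∀ i, HasDerivAt (fun s => Z s i) (Z' i) s := fun i => (hasDerivAt_pi.mp hZ) i
  have h := (((((hY 0).fun_mul (hZ 0)).fun_neg.fun_add ((hY 1).fun_mul (hZ 1))).fun_add
    ((hY 2).fun_mul (hZ 2))).fun_sub ((hY 3).fun_mul (hZ 3)))
  have e : q Y' (Z s) + q (Y s) Z' = -(Y' 0 * Z s 0 + Y s 0 * Z' 0) +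
      (Y' 1 * Z s 1 + Y s 1 * Z' 1) + (Y' 2 * Z s 2 + Y s 2 * Z' 2) -
      (Y' 3 * Z s 3 + Y s 3 * Z' 3) := by
    simp only [q]
    ring
  rw [e]
  exact h

theorem rpa_isOpen_Cone : IsOpen Cone := by
  have h1 : Continuous (fun x : V3 => eta x x) := by
    unfold eta
    fun_prop
  have h2 : Continuous (fun x : V3 => x 0) := by fun_prop
  exact (isOpen_lt h1 continuous_const).inter (isOpen_lt continuous_const h2)

theorem rpa_q_comm (X Z : V4) : q X Z = q Z X := by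
  simp only [q]
  ring

theorem rpa_eta_line (x z w : V3) (t : ℝ) : eta (x + t • z) w = eta x w + t * eta z w := by
  simp only [eta, Pi.add_apply, Pi.smul_apply, smul_eq_mul]
  ring

theorem rpa_eta_hasDerivAt (x z w : V3) :
    HasDerivAt (fun t : ℝ => eta (x + t • z) w) (eta z w) 0 := by
  have h : HasDerivAt (fun t : ℝ => eta x w + t * eta z w) (eta z w) 0 := by
    have := ((hasDerivAt_id (0 : ℝ)).mul_const (eta z w)).const_add (eta x w)
    simpa using this
  refine h.congr_of_eventuallyEq (Filter.Eventually.of_forall ?_)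
  intro t
  exact rpa_eta_line x z w t

theorem rpa_curve {E : Type*} [NormedAddCommGroup E] [NormedSpace ℝ E] {F : V3 → E} {x : V3}
    (hF : DifferentiableAt ℝ F x) (v : V3) :
    HasDerivAt (fun t : ℝ => F (x + t • v)) (fderiv ℝ F x v) 0 := by
  have h1 : HasDerivAt (fun t : ℝ => x + t • v) v 0 := by
    have := ((hasDerivAt_id (0 : ℝ)).smul_const v).const_add x
    simpa using this
  have h2 : HasFDerivAt F (fderiv ℝ F x) (x + (0 : ℝ) • v) := by
    rw [zero_smul, add_zero]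
    exact hF.hasFDerivAt
  exact h2.comp_hasDerivAt (0 : ℝ) h1

theorem rpa_ev {x : V3} (hx : x ∈ Cone) (v : V3) : ∀ᶠ t : ℝ in nhds 0, x + t • v ∈ Cone := by
  have h1 : Continuous (fun t : ℝ => x + t • v) := by fun_prop
  have h2 : Cone ∈ nhds (x + (0 : ℝ) • v) := by
    rw [zero_smul, add_zero]
    exact rpa_isOpen_Cone.mem_nhds hx
  exact h1.continuousAt.eventually h2

theorem rp_second {X N : V3 → V4} (h : IsRegSurface X N) {x : V3} (hx : x ∈ Cone) (v w : V3) :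
    q (X x) (fderiv ℝ (fderiv ℝ X) x v w) = eta v w - q (fderiv ℝ X x v) (fderiv ℝ X x w) ∧
    q (N x) (fderiv ℝ (fderiv ℝ X) x v w) = -q (fderiv ℝ N x v) (fderiv ℝ X x w) ∧
    fderiv ℝ (fderiv ℝ X) x v w = fderiv ℝ (fderiv ℝ X) x w v ∧
    q (X x) (fderiv ℝ N x v) = 0 ∧ q (N x) (fderiv ℝ N x v) = 0 := by
  have hnh : Cone ∈ nhds x := rpa_isOpen_Cone.mem_nhds hx
  have hCX : ContDiffAt ℝ 3 X x := h.smoothX.contDiffAt hnh
  have hCN : ContDiffAt ℝ 1 N x := h.smoothN.contDiffAt hnh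
  have hdX : DifferentiableAt ℝ X x := hCX.differentiableAt (by norm_num)
  have hdN : DifferentiableAt ℝ N x := hCN.differentiableAt (by norm_num)
  have hdDX : DifferentiableAt ℝ (fderiv ℝ X) x :=
    (hCX.fderiv_right (m := 2) (by norm_num)).differentiableAt (by norm_num)
  have hsymm : ∀ z w : V3, fderiv ℝ (fderiv ℝ X) x z w = fderiv ℝ (fderiv ℝ X) x w z := by
    have h1 : IsSymmSndFDerivAt ℝ X x :=
      (hCX.of_le (by norm_num : (2 : WithTop ℕ∞) ≤ 3)).isSymmSndFDerivAt (by simp)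
    intro z w
    exact h1.eq z w
  have cX : ∀ z : V3, HasDerivAt (fun t : ℝ => X (x + t • z)) (fderiv ℝ X x z) 0 :=
    fun z => rpa_curve hdX z
  have cN : ∀ z : V3, HasDerivAt (fun t : ℝ => N (x + t • z)) (fderiv ℝ N x z) 0 :=
    fun z => rpa_curve hdN z
  have cD : ∀ z w : V3, HasDerivAt (fun t : ℝ => fderiv ℝ X (x + t • z) w)
      (fderiv ℝ (fderiv ℝ X) x z w) 0 := by
    intro z w
    have h1 := rpa_curve hdDX z
    exact h1.clm_apply (hasDerivAt_const (0 : ℝ) w) |>.congr_deriv (by simp)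
  have z0 : ∀ z : V3, x + (0 : ℝ) • z = x := fun z => by rw [zero_smul, add_zero]
  have e1 : ∀ z w : V3, q (fderiv ℝ X x z) (fderiv ℝ X x w) +
      q (X x) (fderiv ℝ (fderiv ℝ X) x z w) = eta z w := by
    intro z w
    have d1 := rpa_hasDerivAt_q (cX z) (cD z w)
    rw [z0] at d1
    have d2 : HasDerivAt (fun t : ℝ => q (X (x + t • z)) (fderiv ℝ X (x + t • z) w))
        (eta z w) 0 := by
      refine (rpa_eta_hasDerivAt x z w).congr_of_eventuallyEq ?_
      filter_upwards [rpa_ev hx z] with t ht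
      exact (rp_cone h ht).2.2.2.1 w
    exact d1.unique d2
  have e3 : ∀ z w : V3, q (fderiv ℝ N x z) (fderiv ℝ X x w) +
      q (N x) (fderiv ℝ (fderiv ℝ X) x z w) = 0 := by
    intro z w
    have d1 := rpa_hasDerivAt_q (cN z) (cD z w)
    rw [z0] at d1
    have d2 : HasDerivAt (fun t : ℝ => q (N (x + t • z)) (fderiv ℝ X (x + t • z) w))
        0 0 := by
      refine (hasDerivAt_const (0 : ℝ) (0 : ℝ)).congr_of_eventuallyEq ?_
      filter_upwards [rpa_ev hx z] with t ht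
      exact (rp_cone h ht).2.2.2.2.1 w
    exact d1.unique d2
  have e4 : q (fderiv ℝ N x v) (X x) + q (N x) (fderiv ℝ X x v) = 0 := by
    have d1 := rpa_hasDerivAt_q (cN v) (cX v)
    rw [z0] at d1
    have d2 : HasDerivAt (fun t : ℝ => q (N (x + t • v)) (X (x + t • v))) 0 0 := by
      refine (hasDerivAt_const (0 : ℝ) (0 : ℝ)).congr_of_eventuallyEq ?_
      filter_upwards [rpa_ev hx v] with t ht
      exact (rp_cone h ht).2.2.2.2.2.2
    exact d1.unique d2
  have e5 : q (fderiv ℝ N x v) (N x) + q (N x) (fderiv ℝ N x v) = 0 := by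
    have d1 := rpa_hasDerivAt_q (cN v) (cN v)
    rw [z0] at d1
    have d2 : HasDerivAt (fun t : ℝ => q (N (x + t • v)) (N (x + t • v))) 0 0 := by
      refine (hasDerivAt_const (0 : ℝ) (-1 : ℝ)).congr_of_eventuallyEq ?_
      filter_upwards [rpa_ev hx v] with t ht
      exact (rp_cone h ht).2.2.2.2.2.1
    exact d1.unique d2
  have hND : q (N x) (fderiv ℝ X x v) = 0 := (rp_cone h hx).2.2.2.2.1 v
  refine ⟨?_, ?_, hsymm v w, ?_, ?_⟩
  · have := e1 v w
    linarith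
  · have := e3 v w
    linarith
  · rw [hND, add_zero, rpa_q_comm] at e4
    exact e4
  · rw [rpa_q_comm (fderiv ℝ N x v)] at e5
    linarith

theorem rp_eta_pos {x v : V3} (hx : x ∈ H2) (hv : eta x v = 0) (hne : v ≠ 0) : 0 < eta v v := by
  have h1 : -(x 0 * x 0) + x 1 * x 1 + x 2 * x 2 = -1 := hx.1
  have h2 : 0 < x 0 := hx.2
  have h3 : -(x 0 * v 0) + x 1 * v 1 + x 2 * v 2 = 0 := hv
  show 0 < -(v 0 * v 0) + v 1 * v 1 + v 2 * v 2
  have h4 : x 0 * v 0 = x 1 * v 1 + x 2 * v 2 := by linarith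
  have h5 : x 0 * x 0 = 1 + x 1 * x 1 + x 2 * x 2 := by linarith
  have h6 : x 0 ^ 2 * (-(v 0 * v 0) + v 1 * v 1 + v 2 * v 2) =
      v 1 ^ 2 + v 2 ^ 2 + (x 1 * v 2 - x 2 * v 1) ^ 2 := by
    have : x 0 ^ 2 * (-(v 0 * v 0) + v 1 * v 1 + v 2 * v 2) =
      -(x 0 * v 0) ^ 2 + (x 0 * x 0) * (v 1 * v 1 + v 2 * v 2) := by ring
    rw [this, h4, h5]
    ring
  have h7 : 0 < v 1 ^ 2 + v 2 ^ 2 + (x 1 * v 2 - x 2 * v 1) ^ 2 := by
    rcases eq_or_ne (v 1) 0 with a | a
    · rcases eq_or_ne (v 2) 0 with b | b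
      · exfalso
        apply hne
        have c : v 0 = 0 := by
          rw [a, b] at h4
          have : x 0 * v 0 = 0 := by linarith
          rcases mul_eq_zero.mp this with h | h
          · exact absurd h h2.ne'
          · exact h
        funext i
        fin_cases i
        · exact c
        · exact a
        · exact b
      · have := sq_pos_of_ne_zero b
        nlinarith [sq_nonneg (v 1), sq_nonneg (x 1 * v 2 - x 2 * v 1)]
    · have := sq_pos_of_ne_zero a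
      nlinarith [sq_nonneg (v 2), sq_nonneg (x 1 * v 2 - x 2 * v 1)]
  rw [← h6] at h7
  have h8 : 0 < x 0 ^ 2 := by positivity
  exact (mul_pos_iff_of_pos_left h8).mp h7

theorem rp_nonneg {X N : V3 → V4} (h : IsRegSurface X N)
    (hsupp : ∀ x ∈ H2, ∀ y ∈ H2, q (N x) (X y) ≤ 0) {x v : V3} (hx : x ∈ H2) (hv : UT x v) :
    0 ≤ q (fderiv ℝ N x v) (fderiv ℝ X x v) := by
  have hCx : x ∈ Cone := rp_H2 hx
  have hgeo : ∀ s : ℝ, HasDerivAt (fun s => geo x v s) (geo' x v s) s := by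
    intro s
    unfold geo geo'
    exact ((Real.hasDerivAt_cosh s).smul_const x).add ((Real.hasDerivAt_sinh s).smul_const v)
  have hgeo' : ∀ s : ℝ, HasDerivAt (fun s => geo' x v s) (geo x v s) s := by
    intro s
    unfold geo geo'
    exact ((Real.hasDerivAt_sinh s).smul_const x).add ((Real.hasDerivAt_cosh s).smul_const v)
  have d1 : ∀ s, HasDerivAt (fun s => X (geo x v s)) (fderiv ℝ X (geo x v s) (geo' x v s)) s := by
    intro s
    have hg := rp_H2 (geo_mem hx hv s)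
    exact (rp_diff h hg).hasFDerivAt.comp_hasDerivAt s (hgeo s)
  have hX2 : DifferentiableAt ℝ (fderiv ℝ X) (geo x v 0) := by
    rw [(geo_zero x v).1]
    have h1 : ContDiffAt ℝ 3 X x := h.smoothX.contDiffAt (rp_open.mem_nhds hCx)
    exact (h1.fderiv_right (m := 2) (by norm_num)).differentiableAt (by norm_num)
  have d2 : HasDerivAt (fun s => fderiv ℝ X (geo x v s) (geo' x v s))
      (fderiv ℝ (fderiv ℝ X) x v v + X x) 0 := by
    have h1 : HasDerivAt (fun s => fderiv ℝ X (geo x v s))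
        (fderiv ℝ (fderiv ℝ X) (geo x v 0) (geo' x v 0)) 0 :=
      hX2.hasFDerivAt.comp_hasDerivAt (0 : ℝ) (hgeo 0)
    have h2 := h1.clm_apply (hgeo' 0)
    rw [(geo_zero x v).1, (geo_zero x v).2, (rp_cone h hCx).2.1] at h2
    exact h2
  have c0 : ∀ s, HasDerivAt (fun s => q (N x) (X (geo x v s)))
      (q (N x) (fderiv ℝ X (geo x v s) (geo' x v s))) s := by
    intro s
    have := rpa_hasDerivAt_q (hasDerivAt_const s (N x)) (d1 s)
    refine this.congr_deriv ?_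
    simp [q]
  have c1 : HasDerivAt (fun s => q (N x) (fderiv ℝ X (geo x v s) (geo' x v s)))
      (q (N x) (fderiv ℝ (fderiv ℝ X) x v v + X x)) 0 := by
    have := rpa_hasDerivAt_q (hasDerivAt_const (0 : ℝ) (N x)) d2
    refine this.congr_deriv ?_
    simp [q]
  have c2 := second_test c0 c1 (by
    intro s
    show q (N x) (X (geo x v s)) ≤ q (N x) (X (geo x v 0))
    rw [(geo_zero x v).1, h.NX x hx]
    exact hsupp x hx _ (geo_mem hx hv s))
  have c3 := c2.2
  rw [rp_q_add, h.NX x hx, (rp_second h hCx v v).2.1] at c3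
  linarith

theorem rp_eta_comm (x y : V3) : eta x y = eta y x := by
  simp only [eta]
  ring

theorem rp_symm {X N : V3 → V4} (h : IsRegSurface X N) {x : V3} (hx : x ∈ H2) (v w : V3) :
    q (fderiv ℝ N x v) (fderiv ℝ X x w) = q (fderiv ℝ N x w) (fderiv ℝ X x v) := by
  obtain ⟨-, h1, h2, -, -⟩ := rp_second h (rp_H2 hx) v w
  obtain ⟨-, h3, -, -, -⟩ := rp_second h (rp_H2 hx) w v
  rw [h2, h3] at h1
  linarith

theorem pos_of {X N Y M : V3 → V4} (h : IsRegSurface X N) (h' : IsRegSurface Y M)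
    (hs : SameMetric X Y) (hpos : PosII Y M) (hsupp : ∀ x ∈ H2, ∀ y ∈ H2, q (N x) (X y) ≤ 0) : PosII X N := by
  intro x hx v hv hne
  have hvv := rp_eta_pos hx hv hne
  obtain ⟨r, hr, hr2⟩ : ∃ r : ℝ, 0 < r ∧ r * r = eta v v :=
    ⟨Real.sqrt (eta v v), Real.sqrt_pos.2 hvv, Real.mul_self_sqrt hvv.le⟩
  obtain ⟨u, hu, rfl⟩ : ∃ u : V3, UT x u ∧ v = r • u := by
    refine ⟨r⁻¹ • v, ⟨?_, ?_⟩, ?_⟩
    · rw [rp_eta_smul', hv, mul_zero]
    · rw [rp_eta_smul, rp_eta_smul', ← hr2]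
      field_simp
    · rw [smul_smul, mul_inv_cancel₀ hr.ne', one_smul]
  obtain ⟨w, hw⟩ := exists_ON hx hu
  obtain ⟨w1, w2, w3, w4, w5⟩ := hw
  have hA := rp_nonneg h hsupp hx hu
  have hG := gauss3 h h' hs hx w1 w2
  have une : u ≠ 0 := by
    rintro rfl
    simp [eta] at w3
  have wne : w ≠ 0 := by
    rintro rfl
    simp [eta] at w4
  have hB1 := hpos x hx u w1 une
  have hB2 := hpos x hx w w2 wne
  have hsy := rp_symm h' hx u w
  set B11 := q (fderiv ℝ M x u) (fderiv ℝ Y x u) with hB11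
  set B12 := q (fderiv ℝ M x u) (fderiv ℝ Y x w) with hB12
  set B22 := q (fderiv ℝ M x w) (fderiv ℝ Y x w) with hB22
  have hz0 : eta x (B11 • w + (-B12) • u) = 0 := by
    rw [rp_eta_add', rp_eta_smul', rp_eta_smul', w1, w2]
    ring
  have hzne : B11 • w + (-B12) • u ≠ 0 := by
    intro h0
    have : eta w (B11 • w + (-B12) • u) = 0 := by
      rw [h0]; simp [eta]
    rw [rp_eta_add', rp_eta_smul', rp_eta_smul', w4, rp_eta_comm w u, w5] at this
    linarith
  have hB3 := hpos x hx _ hz0 hzne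
  have e3 : q (fderiv ℝ M x (B11 • w + (-B12) • u)) (fderiv ℝ Y x (B11 • w + (-B12) • u)) =
      B11 * (B11 * B22 - B12 ^ 2) := by
    rw [map_add, map_add, map_smul, map_smul, map_smul, map_smul, rp_q_add, rp_q_smul, rp_q_smul,
      rp_q_comm _ (fderiv ℝ Y x w), rp_q_comm _ (fderiv ℝ Y x u), rp_q_add, rp_q_add, rp_q_smul,
      rp_q_smul, rp_q_smul, rp_q_smul, rp_q_comm (fderiv ℝ Y x w) (fderiv ℝ M x w),
      rp_q_comm (fderiv ℝ Y x w) (fderiv ℝ M x u), rp_q_comm (fderiv ℝ Y x u) (fderiv ℝ M x w),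
      rp_q_comm (fderiv ℝ Y x u) (fderiv ℝ M x u), ← hsy, ← hB11, ← hB12, ← hB22]
    ring
  rw [e3] at hB3
  have hdet : 0 < B11 * B22 - B12 ^ 2 := (mul_pos_iff_of_pos_left hB1).mp hB3
  rw [← hG] at hdet
  have hA' : 0 < q (fderiv ℝ N x u) (fderiv ℝ X x u) := by
    rcases hA.lt_or_eq with hlt | heq
    · exact hlt
    · exfalso
      rw [← heq] at hdet
      nlinarith [sq_nonneg (q (fderiv ℝ N x u) (fderiv ℝ X x w))]
  rw [map_smul, map_smul, rp_q_smul, rp_q_comm, rp_q_smul, rp_q_comm]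
  exact mul_pos hr (mul_pos hr hA')

end A_pos_of

alias pos_of := A_pos_of.pos_of

end Helper935.AdS
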