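import Pool.Agent.Helper935_AdS.PtB
import Pool.Agent.Helper935_AdS.Calc
import Pool.Agent.Helper935_AdS.Weak

namespace Helper935.AdS

namespace A_cone2

theorem sc2_open : IsOpen Cone := by
  have h1 : Continuous fun x : V3 => eta x x := by unfold eta; fun_prop
  have h2 : Continuous fun x : V3 => x 0 := by fun_prop
  exact (isOpen_lt h1 continuous_const).inter (isOpen_lt continuous_const h2)

theorem sc2_q_add (A B C : V4) : q A (B + C) = q A B + q A C := by
  simp [q]; ring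

theorem sc2_q_smul (A B : V4) (c : ℝ) : q A (c • B) = c * q A B := by
  simp [q]; ring

theorem sc2_q_comm (A B : V4) : q A B = q B A := by
  simp [q]; ring

theorem sc2_eta_smul (t : ℝ) (x y : V3) : eta (t • x) y = t * eta x y := by
  simp [eta]; ring

theorem sc2_eta_smul' (t : ℝ) (x y : V3) : eta x (t • y) = t * eta x y := by
  simp [eta]; ring

theorem sc2_eta_add' (x y z : V3) : eta x (y + z) = eta x y + eta x z := by
  simp [eta]; ring

theorem sc2_H2 {u : V3} (hu : u ∈ H2) : u ∈ Cone := ⟨by rw [hu.1]; norm_num, hu.2⟩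

theorem sc2_diff {X N : V3 → V4} (h : IsConvexSurface X N) {x : V3} (hx : x ∈ Cone) :
    DifferentiableAt ℝ X x :=
  (h.smoothX.differentiableOn (by norm_num)).differentiableAt (sc2_open.mem_nhds hx)

theorem sc2_scale {x : V3} (hx : x ∈ Cone) {t : ℝ} (ht : 0 < t) : t • x ∈ Cone := by
  refine ⟨?_, ?_⟩
  · rw [sc2_eta_smul, sc2_eta_smul']
    have := hx.1
    have h2 : 0 < t * t := by positivity
    nlinarith
  · show 0 < t * x 0
    exact mul_pos ht hx.2

theorem sc2_fderiv {X N : V3 → V4} (h : IsConvexSurface X N) {x : V3} (hx : x ∈ Cone)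
    {t : ℝ} (ht : 0 < t) (v : V3) : fderiv ℝ X (t • x) v = fderiv ℝ X x v := by
  have h1 : HasFDerivAt X (fderiv ℝ X x) x := (sc2_diff h hx).hasFDerivAt
  have h2 : HasFDerivAt X (fderiv ℝ X (t • x)) (t • x) :=
    (sc2_diff h (sc2_scale hx ht)).hasFDerivAt
  have h3 : HasFDerivAt (fun y : V3 => X (t • y))
      ((fderiv ℝ X (t • x)).comp (t • ContinuousLinearMap.id ℝ V3)) x := by
    have : HasFDerivAt (fun y : V3 => t • y) (t • ContinuousLinearMap.id ℝ V3) x :=
      (hasFDerivAt_id x).const_smul t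
    exact h2.comp x this
  have h4 : HasFDerivAt (fun y : V3 => t • X y) (t • fderiv ℝ X x) x := h1.const_smul t
  have h5 : (fun y : V3 => X (t • y)) =ᶠ[nhds x] fun y => t • X y := by
    filter_upwards [sc2_open.mem_nhds hx] with y hy
    exact h.homX y hy t ht
  have h6 := (h4.congr_of_eventuallyEq h5).unique h3
  have h7 := congrArg (fun L : V3 →L[ℝ] V4 => L v) h6
  simp only [ContinuousLinearMap.smul_apply, ContinuousLinearMap.comp_apply,
    ContinuousLinearMap.id_apply, map_smul] at h7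
  exact (smul_right_injective V4 ht.ne' h7).symm

theorem sc2_euler {X N : V3 → V4} (h : IsConvexSurface X N) {x : V3} (hx : x ∈ Cone) :
    fderiv ℝ X x x = X x := by
  have h1 : HasFDerivAt X (fderiv ℝ X x) ((1 : ℝ) • x) := by
    rw [one_smul]; exact (sc2_diff h hx).hasFDerivAt
  have h0 : HasDerivAt (fun t : ℝ => t • x) x 1 := by
    simpa using (hasDerivAt_id (1 : ℝ)).smul_const x
  have h2 : HasDerivAt (fun t : ℝ => X (t • x)) (fderiv ℝ X x x) 1 := h1.comp_hasDerivAt (1 : ℝ) h0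
  have h3 : HasDerivAt (fun t : ℝ => t • X x) (X x) 1 := by
    simpa using (hasDerivAt_id (1 : ℝ)).smul_const (X x)
  have h5 : (fun t : ℝ => X (t • x)) =ᶠ[nhds 1] fun t => t • X x := by
    filter_upwards [lt_mem_nhds (show (0 : ℝ) < 1 by norm_num)] with t ht
    exact h.homX x hx t ht
  exact h2.unique (h3.congr_of_eventuallyEq h5)

theorem sc2_unit {x : V3} (hx : x ∈ Cone) : ∃ r : ℝ, 0 < r ∧ ∃ u ∈ H2, x = r • u := by
  have h1 : 0 < -eta x x := by have := hx.1; linarith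
  have hr : 0 < Real.sqrt (-eta x x) := Real.sqrt_pos.2 h1
  refine ⟨Real.sqrt (-eta x x), hr, (Real.sqrt (-eta x x))⁻¹ • x, ⟨?_, ?_⟩, ?_⟩
  · rw [sc2_eta_smul, sc2_eta_smul']
    have h2 : Real.sqrt (-eta x x) * Real.sqrt (-eta x x) = -eta x x :=
      Real.mul_self_sqrt h1.le
    set r := Real.sqrt (-eta x x)
    have h3 : eta x x = -(r * r) := by linarith
    rw [h3]
    field_simp
  · show 0 < (Real.sqrt (-eta x x))⁻¹ * x 0
    exact mul_pos (inv_pos.2 hr) hx.2
  · rw [smul_smul, mul_inv_cancel₀ hr.ne', one_smul]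

theorem sc2_XX {X N : V3 → V4} (h : IsConvexSurface X N) {x : V3} (hx : x ∈ Cone) :
    q (X x) (X x) = eta x x := by
  obtain ⟨r, hr, u, hu, rfl⟩ := sc2_unit hx
  rw [h.homX u (sc2_H2 hu) r hr, sc2_q_smul, sc2_q_comm, sc2_q_smul,
    h.XX u hu, sc2_eta_smul, sc2_eta_smul', hu.1]

theorem sc2_XdX {X N : V3 → V4} (h : IsConvexSurface X N) {x : V3} (hx : x ∈ Cone)
    (v : V3) : q (X x) (fderiv ℝ X x v) = eta x v := by
  set D := fderiv ℝ X x v with hD
  have hline : HasDerivAt (fun s : ℝ => x + s • v) v 0 := by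
    simpa using ((hasDerivAt_id (0 : ℝ)).smul_const v).const_add x
  have h1 : HasFDerivAt X (fderiv ℝ X x) (x + (0 : ℝ) • v) := by
    rw [zero_smul, add_zero]; exact (sc2_diff h hx).hasFDerivAt
  have h2 : HasDerivAt (fun s : ℝ => X (x + s • v)) D 0 := h1.comp_hasDerivAt (0 : ℝ) hline
  have h3 : ∀ i, HasDerivAt (fun s : ℝ => X (x + s • v) i) (D i) 0 := fun i =>
    (hasDerivAt_pi.1 h2) i
  have h4 : ∀ i, HasDerivAt (fun s : ℝ => (x + s • v) i) (v i) 0 := fun i =>
    (hasDerivAt_pi.1 hline) i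
  have e1 : HasDerivAt (fun s : ℝ => q (X (x + s • v)) (X (x + s • v))) (2 * q (X x) D) 0 := by
    have := ((((h3 0).mul (h3 0)).neg.add ((h3 1).mul (h3 1))).add ((h3 2).mul (h3 2))).sub
      ((h3 3).mul (h3 3))
    simp only [zero_smul, add_zero] at this
    refine (this.congr_deriv ?_)
    unfold q
    ring
  have e2 : HasDerivAt (fun s : ℝ => eta (x + s • v) (x + s • v)) (2 * eta x v) 0 := by
    have := (((h4 0).mul (h4 0)).neg.add ((h4 1).mul (h4 1))).add ((h4 2).mul (h4 2))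
    simp only [zero_smul, add_zero] at this
    refine (this.congr_deriv ?_)
    unfold eta
    ring
  have h5 : (fun s : ℝ => q (X (x + s • v)) (X (x + s • v))) =ᶠ[nhds 0]
      fun s => eta (x + s • v) (x + s • v) := by
    have hc : Filter.Tendsto (fun s : ℝ => x + s • v) (nhds 0) (nhds x) := by
      have := hline.continuousAt.tendsto
      simpa using this
    filter_upwards [hc.eventually (sc2_open.mem_nhds hx)] with s hs
    exact sc2_XX h hs
  have h6 := e1.unique (e2.congr_of_eventuallyEq h5)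
  linarith

theorem sc2_decomp {u : V3} (hu : u ∈ H2) (v : V3) :
    eta u (v + eta u v • u) = 0 ∧ v = (v + eta u v • u) + (-eta u v) • u := by
  constructor
  · rw [sc2_eta_add', sc2_eta_smul', hu.1]; ring
  · rw [neg_smul]; abel

theorem sc2_NdX {X N : V3 → V4} (h : IsConvexSurface X N) {u : V3} (hu : u ∈ H2) (v : V3) :
    q (N u) (fderiv ℝ X u v) = 0 := by
  have hC := sc2_H2 hu
  have hE := sc2_euler h hC
  obtain ⟨v1, v2⟩ := sc2_decomp hu v
  have ev : fderiv ℝ X u v = fderiv ℝ X u (v + eta u v • u) + (-eta u v) • X u := by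
    rw [← hE, ← map_smul, ← map_add, ← v2]
  rw [ev, sc2_q_add, h.NdX u hu _ v1, sc2_q_smul, h.NX u hu]
  ring

/- Proof:
For x in Cone let r = sqrt(-eta x x) > 0, so x/r in H2. Euler: fderiv X x x = X x (differentiate X(t x) = t X x at t = 1). X is differentiable on the open set Cone, and fderiv X (t x) = fderiv X x for t > 0 (differentiate X(t y) = t X(y) in y). q (X x)(X x) = r^2 q (X (x/r))(X (x/r)) = -r^2 = eta x x on Cone; differentiating, q (X x)(fderiv X x v) = eta x v for x in Cone and all v. q (N x)(fderiv X x v) = 0 for all v: at x in H2 write v = -(eta x v) x + v' with eta x v' = 0, NdX and q (N x)(fderiv X x x) = q (N x)(X x) = 0; for general x in Cone use homogeneity (homN, fderiv X (t x) = fderiv X x). q (N x)(N x) = -1, q (N x)(X x) = 0 on Cone by homogeneity.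
-/
theorem cone2 {X N : V3 → V4} (h : IsConvexSurface X N) {x : V3} (hx : x ∈ Cone) :
    q (X x) (X x) = eta x x ∧ fderiv ℝ X x x = X x ∧ (∀ t : ℝ, 0 < t → fderiv ℝ X (t • x) = fderiv ℝ X x) ∧
    (∀ v, q (X x) (fderiv ℝ X x v) = eta x v) ∧ (∀ v, q (N x) (fderiv ℝ X x v) = 0) ∧
    q (N x) (N x) = -1 ∧ q (N x) (X x) = 0 := by
  obtain ⟨r, hr, u, hu, rfl⟩ := sc2_unit hx
  have hC := sc2_H2 hu
  refine ⟨sc2_XX h hx, sc2_euler h hx, fun t ht => ?_, sc2_XdX h hx, fun v => ?_, ?_, ?_⟩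
  · ext1 v
    exact sc2_fderiv h hx ht v
  · rw [sc2_fderiv h hC hr, h.homN u hC r hr, sc2_NdX h hu]
  · rw [h.homN u hC r hr, h.NN u hu]
  · rw [h.homN u hC r hr, h.homX u hC r hr, sc2_q_smul, h.NX u hu, mul_zero]

end A_cone2

alias cone2 := A_cone2.cone2

namespace A_second2

theorem aux2_hasDerivAt_q {Y Z : ℝ → V4} {Y' Z' : V4} {s : ℝ} (hY : HasDerivAt Y Y' s)
    (hZ : HasDerivAt Z Z' s) :
    HasDerivAt (fun s => q (Y s) (Z s)) (q Y' (Z s) + q (Y s) Z') s := by
  have hY : ∀ i, HasDerivAt (fun s => Y s i) (Y' i) s := fun i => (hasDerivAt_pi.mp hY) i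
  have hZ : ∀ i, HasDerivAt (fun s => Z s i) (Z' i) s := fun i => (hasDerivAt_pi.mp hZ) i
  have h := (((((hY 0).fun_mul (hZ 0)).fun_neg.fun_add ((hY 1).fun_mul (hZ 1))).fun_add
    ((hY 2).fun_mul (hZ 2))).fun_sub ((hY 3).fun_mul (hZ 3)))
  have e : q Y' (Z s) + q (Y s) Z' = -(Y' 0 * Z s 0 + Y s 0 * Z' 0) +
      (Y' 1 * Z s 1 + Y s 1 * Z' 1) + (Y' 2 * Z s 2 + Y s 2 * Z' 2) -
      (Y' 3 * Z s 3 + Y s 3 * Z' 3) := by
    simp only [q]
    ring
  rw [e]
  exact h

theorem aux2_isOpen_Cone : IsOpen Cone := by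
  have h1 : Continuous (fun x : V3 => eta x x) := by
    unfold eta
    fun_prop
  have h2 : Continuous (fun x : V3 => x 0) := by fun_prop
  exact (isOpen_lt h1 continuous_const).inter (isOpen_lt continuous_const h2)

theorem aux2_q_comm (X Z : V4) : q X Z = q Z X := by
  simp only [q]
  ring

theorem aux2_eta_line (x z w : V3) (t : ℝ) : eta (x + t • z) w = eta x w + t * eta z w := by
  simp only [eta, Pi.add_apply, Pi.smul_apply, smul_eq_mul]
  ring

theorem aux2_eta_hasDerivAt (x z w : V3) :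
    HasDerivAt (fun t : ℝ => eta (x + t • z) w) (eta z w) 0 := by
  have h : HasDerivAt (fun t : ℝ => eta x w + t * eta z w) (eta z w) 0 := by
    have := ((hasDerivAt_id (0 : ℝ)).mul_const (eta z w)).const_add (eta x w)
    simpa using this
  refine h.congr_of_eventuallyEq (Filter.Eventually.of_forall ?_)
  intro t
  exact aux2_eta_line x z w t

theorem aux2_curve {E : Type*} [NormedAddCommGroup E] [NormedSpace ℝ E] {F : V3 → E} {x : V3}
    (hF : DifferentiableAt ℝ F x) (v : V3) :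
    HasDerivAt (fun t : ℝ => F (x + t • v)) (fderiv ℝ F x v) 0 := by
  have h1 : HasDerivAt (fun t : ℝ => x + t • v) v 0 := by
    have := ((hasDerivAt_id (0 : ℝ)).smul_const v).const_add x
    simpa using this
  have h2 : HasFDerivAt F (fderiv ℝ F x) (x + (0 : ℝ) • v) := by
    rw [zero_smul, add_zero]
    exact hF.hasFDerivAt
  exact h2.comp_hasDerivAt (0 : ℝ) h1

theorem aux2_ev {x : V3} (hx : x ∈ Cone) (v : V3) : ∀ᶠ t : ℝ in nhds 0, x + t • v ∈ Cone := by
  have h1 : Continuous (fun t : ℝ => x + t • v) := by fun_prop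
  have h2 : Cone ∈ nhds (x + (0 : ℝ) • v) := by
    rw [zero_smul, add_zero]
    exact aux2_isOpen_Cone.mem_nhds hx
  exact h1.continuousAt.eventually h2

theorem second2 {X N : V3 → V4} (h : IsConvexSurface X N) {x : V3} (hx : x ∈ Cone) (v w : V3) :
    q (X x) (fderiv ℝ (fderiv ℝ X) x v w) = eta v w - q (fderiv ℝ X x v) (fderiv ℝ X x w) ∧
    q (N x) (fderiv ℝ (fderiv ℝ X) x v w) = -q (fderiv ℝ N x v) (fderiv ℝ X x w) ∧
    fderiv ℝ (fderiv ℝ X) x v w = fderiv ℝ (fderiv ℝ X) x w v ∧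
    q (X x) (fderiv ℝ N x v) = 0 ∧ q (N x) (fderiv ℝ N x v) = 0 := by
  have hnh : Cone ∈ nhds x := aux2_isOpen_Cone.mem_nhds hx
  have hCX : ContDiffAt ℝ 3 X x := h.smoothX.contDiffAt hnh
  have hCN : ContDiffAt ℝ 1 N x := h.smoothN.contDiffAt hnh
  have hdX : DifferentiableAt ℝ X x := hCX.differentiableAt (by norm_num)
  have hdN : DifferentiableAt ℝ N x := hCN.differentiableAt (by norm_num)
  have hdDX : DifferentiableAt ℝ (fderiv ℝ X) x :=
    (hCX.fderiv_right (m := 2) (by norm_num)).differentiableAt (by norm_num)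
  have hsymm : ∀ z w : V3, fderiv ℝ (fderiv ℝ X) x z w = fderiv ℝ (fderiv ℝ X) x w z := by
    have h1 : IsSymmSndFDerivAt ℝ X x :=
      (hCX.of_le (by norm_num : (2 : WithTop ℕ∞) ≤ 3)).isSymmSndFDerivAt (by simp)
    intro z w
    exact h1.eq z w
  have cX : ∀ z : V3, HasDerivAt (fun t : ℝ => X (x + t • z)) (fderiv ℝ X x z) 0 :=
    fun z => aux2_curve hdX z
  have cN : ∀ z : V3, HasDerivAt (fun t : ℝ => N (x + t • z)) (fderiv ℝ N x z) 0 :=
    fun z => aux2_curve hdN z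
  have cD : ∀ z w : V3, HasDerivAt (fun t : ℝ => fderiv ℝ X (x + t • z) w)
      (fderiv ℝ (fderiv ℝ X) x z w) 0 := by
    intro z w
    have h1 := aux2_curve hdDX z
    exact h1.clm_apply (hasDerivAt_const (0 : ℝ) w) |>.congr_deriv (by simp)
  have z0 : ∀ z : V3, x + (0 : ℝ) • z = x := fun z => by rw [zero_smul, add_zero]
  have e1 : ∀ z w : V3, q (fderiv ℝ X x z) (fderiv ℝ X x w) +
      q (X x) (fderiv ℝ (fderiv ℝ X) x z w) = eta z w := by
    intro z w
    have d1 := aux2_hasDerivAt_q (cX z) (cD z w)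
    rw [z0] at d1
    have d2 : HasDerivAt (fun t : ℝ => q (X (x + t • z)) (fderiv ℝ X (x + t • z) w))
        (eta z w) 0 := by
      refine (aux2_eta_hasDerivAt x z w).congr_of_eventuallyEq ?_
      filter_upwards [aux2_ev hx z] with t ht
      exact (cone2 h ht).2.2.2.1 w
    exact d1.unique d2
  have e3 : ∀ z w : V3, q (fderiv ℝ N x z) (fderiv ℝ X x w) +
      q (N x) (fderiv ℝ (fderiv ℝ X) x z w) = 0 := by
    intro z w
    have d1 := aux2_hasDerivAt_q (cN z) (cD z w)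
    rw [z0] at d1
    have d2 : HasDerivAt (fun t : ℝ => q (N (x + t • z)) (fderiv ℝ X (x + t • z) w))
        0 0 := by
      refine (hasDerivAt_const (0 : ℝ) (0 : ℝ)).congr_of_eventuallyEq ?_
      filter_upwards [aux2_ev hx z] with t ht
      exact (cone2 h ht).2.2.2.2.1 w
    exact d1.unique d2
  have e4 : q (fderiv ℝ N x v) (X x) + q (N x) (fderiv ℝ X x v) = 0 := by
    have d1 := aux2_hasDerivAt_q (cN v) (cX v)
    rw [z0] at d1
    have d2 : HasDerivAt (fun t : ℝ => q (N (x + t • v)) (X (x + t • v))) 0 0 := by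
      refine (hasDerivAt_const (0 : ℝ) (0 : ℝ)).congr_of_eventuallyEq ?_
      filter_upwards [aux2_ev hx v] with t ht
      exact (cone2 h ht).2.2.2.2.2.2
    exact d1.unique d2
  have e5 : q (fderiv ℝ N x v) (N x) + q (N x) (fderiv ℝ N x v) = 0 := by
    have d1 := aux2_hasDerivAt_q (cN v) (cN v)
    rw [z0] at d1
    have d2 : HasDerivAt (fun t : ℝ => q (N (x + t • v)) (N (x + t • v))) 0 0 := by
      refine (hasDerivAt_const (0 : ℝ) (-1 : ℝ)).congr_of_eventuallyEq ?_
      filter_upwards [aux2_ev hx v] with t ht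
      exact (cone2 h ht).2.2.2.2.2.1
    exact d1.unique d2
  have hND : q (N x) (fderiv ℝ X x v) = 0 := (cone2 h hx).2.2.2.2.1 v
  refine ⟨?_, ?_, hsymm v w, ?_, ?_⟩
  · have := e1 v w
    linarith
  · have := e3 v w
    linarith
  · rw [hND, add_zero, aux2_q_comm] at e4
    exact e4
  · rw [aux2_q_comm (fderiv ℝ N x v)] at e5
    linarith

end A_second2

alias second2 := A_second2.second2

namespace A_core2_of

theorem H2_sub_Cone : H2 ⊆ Cone := by
  intro x hx
  exact ⟨by rw [hx.1]; norm_num, hx.2⟩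

theorem isOpen_Cone : IsOpen Cone := by
  have h1 : Continuous (fun x : V3 => eta x x) := by
    unfold eta
    fun_prop
  have h2 : Continuous (fun x : V3 => x 0) := by fun_prop
  exact (isOpen_lt h1 continuous_const).inter (isOpen_lt continuous_const h2)

theorem q_add_right (A B C : V4) : q A (B + C) = q A B + q A C := by
  simp only [q, Pi.add_apply]
  ring

theorem q_comm' (A B : V4) : q A B = q B A := by
  simp only [q]
  ring

/- Proof:
Sf with dX x v = fderiv X x v, dN x v = fderiv N x v, ddX x v = fderiv (fderiv X) x v v + X x. H2 is contained in the open set Cone. Continuity: X, N, fderiv X, fderiv N, fderiv (fderiv X) are continuous on Cone (ContDiffOn on an open set), and evaluation of continuous linear maps is jointly continuous. Linearity: map_add, map_smul. XX, NN, NX, NdX: fields of IsConvexSurface; XdX: cone2; XdN, NdN: second2; II_symm: q (DN v)(DX w) = -q (N x)(D2 v w) is symmetric (second2); pos, strict: fields. ddX_X: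 q (X x)(D2 v v) + q (X x)(X x) = eta v v - q (DX v)(DX v) - 1 = -q(DX v)(DX v) as eta v v = 1. ddX_N: second2 and q (N x)(X x) = 0. geoX, geoN: chain rule, the derivative of geo x v is geo' x v. geodX: derivative of s -> fderiv X (geo s)(geo' s) is D2 (geo')(geo') + fderiv X (geo)(geo) [derivative of geo' is geo] and fderiv X (geo)(geo) = X (geo) (Euler, cone2).
-/
theorem core2_of {X N : V3 → V4} (h : IsConvexSurface X N) :
    Core2 ⟨X, N, fun x v => fderiv ℝ X x v, fun x v => fderiv ℝ N x v,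
      fun x v => fderiv ℝ (fderiv ℝ X) x v v + X x⟩ := by
  have hC : ∀ x ∈ H2, Cone ∈ nhds x := fun x hx => isOpen_Cone.mem_nhds (H2_sub_Cone hx)
  have hX3 : ∀ x ∈ H2, ContDiffAt ℝ 3 X x := fun x hx => h.smoothX.contDiffAt (hC x hx)
  have hN1 : ∀ x ∈ H2, ContDiffAt ℝ 1 N x := fun x hx => h.smoothN.contDiffAt (hC x hx)
  have hXd : ∀ x ∈ H2, DifferentiableAt ℝ X x := fun x hx =>
    (hX3 x hx).differentiableAt (by norm_num)
  have hNd : ∀ x ∈ H2, DifferentiableAt ℝ N x := fun x hx =>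
    (hN1 x hx).differentiableAt (by norm_num)
  have hX2' : ∀ x ∈ H2, ContDiffAt ℝ 2 (fderiv ℝ X) x := fun x hx =>
    (hX3 x hx).fderiv_right (m := 2) (by norm_num)
  have hN0 : ∀ x ∈ H2, ContDiffAt ℝ 0 (fderiv ℝ N) x := fun x hx =>
    (hN1 x hx).fderiv_right (m := 0) (by norm_num)
  have hX1' : ∀ x ∈ H2, ContDiffAt ℝ 1 (fderiv ℝ (fderiv ℝ X)) x := fun x hx =>
    (hX2' x hx).fderiv_right (m := 1) (by norm_num)
  have hX2 : ∀ x ∈ H2, DifferentiableAt ℝ (fderiv ℝ X) x := fun x hx =>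
    (hX2' x hx).differentiableAt (by norm_num)
  have hgeo : ∀ x v : V3, ∀ s : ℝ, HasDerivAt (fun s => geo x v s) (geo' x v s) s := by
    intro x v s
    unfold geo geo'
    exact ((Real.hasDerivAt_cosh s).smul_const x).add ((Real.hasDerivAt_sinh s).smul_const v)
  have hgeo' : ∀ x v : V3, ∀ s : ℝ, HasDerivAt (fun s => geo' x v s) (geo x v s) s := by
    intro x v s
    unfold geo geo'
    exact ((Real.hasDerivAt_sinh s).smul_const x).add ((Real.hasDerivAt_cosh s).smul_const v)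
  have hcX : ∀ p : V3 × V3, p.1 ∈ H2 →
      ContinuousAt (fun p : V3 × V3 => fderiv ℝ X p.1 p.2) p := by
    intro p hp
    have h1 : ContinuousAt (fun p : V3 × V3 => fderiv ℝ X p.1) p :=
      ContinuousAt.comp (g := fderiv ℝ X) (hX2' _ hp).continuousAt continuousAt_fst
    exact h1.clm_apply continuousAt_snd
  have hcN : ∀ p : V3 × V3, p.1 ∈ H2 →
      ContinuousAt (fun p : V3 × V3 => fderiv ℝ N p.1 p.2) p := by
    intro p hp
    have h1 : ContinuousAt (fun p : V3 × V3 => fderiv ℝ N p.1) p :=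
      ContinuousAt.comp (g := fderiv ℝ N) (hN0 _ hp).continuousAt continuousAt_fst
    exact h1.clm_apply continuousAt_snd
  have hcXX : ∀ p : V3 × V3, p.1 ∈ H2 →
      ContinuousAt (fun p : V3 × V3 => fderiv ℝ (fderiv ℝ X) p.1 p.2 p.2 + X p.1) p := by
    intro p hp
    have h1 : ContinuousAt (fun p : V3 × V3 => fderiv ℝ (fderiv ℝ X) p.1) p :=
      ContinuousAt.comp (g := fderiv ℝ (fderiv ℝ X)) (hX1' _ hp).continuousAt continuousAt_fst
    have h2 : ContinuousAt (fun p : V3 × V3 => X p.1) p :=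
      ContinuousAt.comp (g := X) (hX3 _ hp).continuousAt continuousAt_fst
    exact ((h1.clm_apply continuousAt_snd).clm_apply continuousAt_snd).add h2
  refine
    { contX := fun x hx => (hXd x hx).continuousAt.continuousWithinAt
      contN := fun x hx => (hNd x hx).continuousAt.continuousWithinAt
      cont_dX := fun p hp => (hcX p hp).continuousWithinAt
      cont_dN := fun p hp => (hcN p hp).continuousWithinAt
      cont_ddX := fun p hp => (hcXX p hp).continuousWithinAt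
      dX_add := fun x _ v w => map_add _ v w
      dX_smul := fun x _ c v => map_smul _ c v
      dN_add := fun x _ v w => map_add _ v w
      dN_smul := fun x _ c v => map_smul _ c v
      XX := h.XX
      NN := h.NN
      NX := h.NX
      XdX := ?_
      NdX := h.NdX
      XdN := ?_
      NdN := ?_
      II_symm := ?_
      pos := h.spacelike
      strict := h.strict
      ddX_X := ?_
      ddX_N := ?_
      geoX := ?_
      geodX := ?_
      geoN := ?_ }
  · intro x hx v hv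
    show q (X x) (fderiv ℝ X x v) = 0
    rw [(cone2 h (H2_sub_Cone hx)).2.2.2.1 v, hv]
  · intro x hx v hv
    exact (second2 h (H2_sub_Cone hx) v v).2.2.2.1
  · intro x hx v hv
    exact (second2 h (H2_sub_Cone hx) v v).2.2.2.2
  · intro x hx v w hv hw
    obtain ⟨-, h1, h2, -, -⟩ := second2 h (H2_sub_Cone hx) v w
    obtain ⟨-, h3, -, -, -⟩ := second2 h (H2_sub_Cone hx) w v
    rw [h2, h3] at h1
    show q (fderiv ℝ N x v) (fderiv ℝ X x w) = q (fderiv ℝ N x w) (fderiv ℝ X x v)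
    linarith
  · intro x hx v hv
    obtain ⟨h1, -, -, -, -⟩ := second2 h (H2_sub_Cone hx) v v
    show q (X x) (fderiv ℝ (fderiv ℝ X) x v v + X x) = -q (fderiv ℝ X x v) (fderiv ℝ X x v)
    rw [q_add_right, h1, h.XX x hx, hv.2]
    ring
  · intro x hx v hv
    obtain ⟨-, h1, -, -, -⟩ := second2 h (H2_sub_Cone hx) v v
    show q (N x) (fderiv ℝ (fderiv ℝ X) x v v + X x) = -q (fderiv ℝ N x v) (fderiv ℝ X x v)
    rw [q_add_right, h1, h.NX x hx]
    ring
  · intro x hx v hv s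
    exact ((hXd _ (geo_mem hx hv s)).hasFDerivAt).comp_hasDerivAt s (hgeo x v s)
  · intro x hx v hv s
    have hg := geo_mem hx hv s
    have h1 : HasDerivAt (fun s => fderiv ℝ X (geo x v s))
        (fderiv ℝ (fderiv ℝ X) (geo x v s) (geo' x v s)) s :=
      ((hX2 _ hg).hasFDerivAt).comp_hasDerivAt s (hgeo x v s)
    have h2 : HasDerivAt (fun s => fderiv ℝ X (geo x v s) (geo' x v s))
        (fderiv ℝ (fderiv ℝ X) (geo x v s) (geo' x v s) (geo' x v s)
          + fderiv ℝ X (geo x v s) (geo x v s)) s := h1.clm_apply (hgeo' x v s)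
    rw [(cone2 h (H2_sub_Cone hg)).2.1] at h2
    exact h2
  · intro x hx v hv s
    exact ((hNd _ (geo_mem hx hv s)).hasFDerivAt).comp_hasDerivAt s (hgeo x v s)

end A_core2_of

alias core2_of := A_core2_of.core2_of

namespace A_metric_cone

theorem metric_cone_aux {X N : V3 → V4} (h : IsConvexSurface X N) {x : V3} (hx : x ∈ H2)
    (v w : V3) : q (fderiv ℝ X x (v + eta x v • x)) (fderiv ℝ X x (w + eta x w • x))
      = q (fderiv ℝ X x v) (fderiv ℝ X x w) + eta x v * eta x w := by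
  have hc : x ∈ Cone := ⟨by rw [hx.1]; norm_num, hx.2⟩
  obtain ⟨h1, h2, -, h3, -, -, -⟩ := cone2 h hc
  have hv := h3 v
  have hw := h3 w
  rw [hx.1] at h1
  have e1 : fderiv ℝ X x (v + eta x v • x) = fderiv ℝ X x v + eta x v • X x := by
    rw [map_add, map_smul, h2]
  have e2 : fderiv ℝ X x (w + eta x w • x) = fderiv ℝ X x w + eta x w • X x := by
    rw [map_add, map_smul, h2]
  rw [e1, e2]
  generalize fderiv ℝ X x v = P at *
  generalize fderiv ℝ X x w = Q at *
  generalize X x = Z at *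
  have e3 : q (P + eta x v • Z) (Q + eta x w • Z) = q P Q + eta x w * q Z P + eta x v * q Z Q
      + eta x v * eta x w * q Z Z := by
    simp only [q, Pi.add_apply, Pi.smul_apply, smul_eq_mul]
    ring
  rw [e3, hv, hw, h1]
  ring

theorem metric_cone_aux2 {X N Y M : V3 → V4} (h : IsConvexSurface X N) (h' : IsConvexSurface Y M)
    (hs : SameMetric X Y) {x : V3} (hx : x ∈ H2) (v w : V3) :
    q (fderiv ℝ X x v) (fderiv ℝ X x w) = q (fderiv ℝ Y x v) (fderiv ℝ Y x w) := by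
  have a1 := metric_cone_aux h hx v w
  have a2 := metric_cone_aux h' hx v w
  have ht : ∀ v : V3, eta x (v + eta x v • x) = 0 := by
    intro v
    have h1 : eta x (v + eta x v • x) = eta x v + eta x v * eta x x := by
      simp only [eta, Pi.add_apply, Pi.smul_apply, smul_eq_mul]
      ring
    rw [h1, hx.1]
    ring
  have a3 := hs x hx _ _ (ht v) (ht w)
  linarith

/- Proof:
For x in H2 and v, w arbitrary write v = -(eta x v) x + v', w = -(eta x w) x + w' with v', w' tangent; DX x = X x (Euler), q (X x)(X x) = -1, q (X x)(DX v') = eta x v' = 0: q (DX v)(DX w) = -(eta x v)(eta x w) + q (DX v')(DX w'), the same for Y, and SameMetric. For x in Cone apply this at x/sqrt(-eta x x) in H2 and fderiv X (t x) = fderiv X x.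
-/
theorem metric_cone {X N Y M : V3 → V4} (h : IsConvexSurface X N) (h' : IsConvexSurface Y M)
    (hs : SameMetric X Y) {x : V3} (hx : x ∈ Cone) (v w : V3) :
    q (fderiv ℝ X x v) (fderiv ℝ X x w) = q (fderiv ℝ Y x v) (fderiv ℝ Y x w) := by
  have hn : 0 < -eta x x := by linarith [hx.1]
  have hsq : 0 < Real.sqrt (-eta x x) := Real.sqrt_pos.2 hn
  have ht : 0 < (Real.sqrt (-eta x x))⁻¹ := inv_pos.2 hsq
  have hmem : (Real.sqrt (-eta x x))⁻¹ • x ∈ H2 := by
    constructor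
    · have e : eta ((Real.sqrt (-eta x x))⁻¹ • x) ((Real.sqrt (-eta x x))⁻¹ • x)
          = ((Real.sqrt (-eta x x)) ^ 2)⁻¹ * eta x x := by
        simp only [eta, Pi.smul_apply, smul_eq_mul]
        ring
      rw [e, Real.sq_sqrt hn.le]
      have hne : eta x x ≠ 0 := hx.1.ne
      rw [inv_neg, neg_mul, inv_mul_cancel₀ hne]
    · have : ((Real.sqrt (-eta x x))⁻¹ • x) 0 = (Real.sqrt (-eta x x))⁻¹ * x 0 := rfl
      rw [this]
      exact mul_pos ht hx.2
  have hX := (cone2 h hx).2.2.1 _ ht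
  have hY := (cone2 h' hx).2.2.1 _ ht
  have := metric_cone_aux2 h h' hs hmem v w
  rwa [hX, hY] at this

end A_metric_cone

alias metric_cone := A_metric_cone.metric_cone

namespace A_koszul2

theorem koszul2 {X N Y M : V3 → V4} (h : IsConvexSurface X N) (h' : IsConvexSurface Y M)
    (hs : SameMetric X Y) {x : V3} (hx : x ∈ Cone) (z v w : V3) :
    q (fderiv ℝ (fderiv ℝ X) x z v) (fderiv ℝ X x w) = q (fderiv ℝ (fderiv ℝ Y) x z v) (fderiv ℝ Y x w) := A_gauss3.koszul3
  ⟨h.smoothX, h.smoothN, h.homX, h.homN, h.XX, h.NN, h.NX, h.NdX, h.spacelike⟩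
  ⟨h'.smoothX, h'.smoothN, h'.homX, h'.homN, h'.XX, h'.NN, h'.NX, h'.NdX, h'.spacelike⟩ hs hx z v w

end A_koszul2

alias koszul2 := A_koszul2.koszul2

namespace A_gauss2

namespace SGau2

theorem H2_cone {x : V3} (hx : x ∈ H2) : x ∈ Cone := ⟨by rw [hx.1]; norm_num, hx.2⟩

theorem cone_open : IsOpen Cone := by
  have h1 : Continuous fun x : V3 => eta x x := by
    unfold eta; fun_prop
  have h2 : Continuous fun x : V3 => x 0 := by fun_prop
  exact (isOpen_lt h1 continuous_const).inter (isOpen_lt continuous_const h2)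

theorem q_comm (Y Z : V4) : q Y Z = q Z Y := by unfold q; ring

theorem near {x e₁ e₂ : V3} (hx : x ∈ H2) :
    ∀ᶠ s in nhds (0:ℝ), ∀ᶠ t in nhds (0:ℝ), x + s • e₁ + t • e₂ ∈ Cone := by
  have hc : Continuous fun p : ℝ × ℝ => x + p.1 • e₁ + p.2 • e₂ := by fun_prop
  have h0 : (fun p : ℝ × ℝ => x + p.1 • e₁ + p.2 • e₂) (0, 0) ∈ Cone := by
    simp only [zero_smul, add_zero]
    exact H2_cone hx
  have h1 : ∀ᶠ p : ℝ × ℝ in nhds (0, 0), x + p.1 • e₁ + p.2 • e₂ ∈ Cone :=
    hc.continuousAt.eventually (cone_open.mem_nhds h0)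
  exact h1.curry_nhds

theorem near1 {x e : V3} (hx : x ∈ H2) : ∀ᶠ t in nhds (0:ℝ), x + t • e ∈ Cone := by
  have hc : Continuous fun t : ℝ => x + t • e := by fun_prop
  have h0 : (fun t : ℝ => x + t • e) 0 ∈ Cone := by
    simp only [zero_smul, add_zero]
    exact H2_cone hx
  exact hc.continuousAt.eventually (cone_open.mem_nhds h0)

theorem term1 {X N Y M : V3 → V4} (h : IsConvexSurface X N) (h' : IsConvexSurface Y M)
    (hs : SameMetric X Y) {x : V3} (hx : x ∈ H2) (e₁ e₂ : V3) :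
    deriv (fun s : ℝ => deriv (fun t : ℝ => q (fderiv ℝ X (x + s • e₁ + t • e₂) e₁)
      (fderiv ℝ X (x + s • e₁ + t • e₂) e₂)) 0) 0 =
    deriv (fun s : ℝ => deriv (fun t : ℝ => q (fderiv ℝ Y (x + s • e₁ + t • e₂) e₁)
      (fderiv ℝ Y (x + s • e₁ + t • e₂) e₂)) 0) 0 := by
  have h1 : (fun s : ℝ => deriv (fun t : ℝ => q (fderiv ℝ X (x + s • e₁ + t • e₂) e₁)
      (fderiv ℝ X (x + s • e₁ + t • e₂) e₂)) 0) =ᶠ[nhds 0]
      fun s : ℝ => deriv (fun t : ℝ => q (fderiv ℝ Y (x + s • e₁ + t • e₂) e₁)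
      (fderiv ℝ Y (x + s • e₁ + t • e₂) e₂)) 0 := by
    filter_upwards [near (e₁ := e₁) (e₂ := e₂) hx] with s hs'
    have h3 : (fun t : ℝ => q (fderiv ℝ X (x + s • e₁ + t • e₂) e₁)
        (fderiv ℝ X (x + s • e₁ + t • e₂) e₂)) =ᶠ[nhds 0]
        fun t : ℝ => q (fderiv ℝ Y (x + s • e₁ + t • e₂) e₁)
        (fderiv ℝ Y (x + s • e₁ + t • e₂) e₂) := by
      filter_upwards [hs'] with t ht
      exact metric_cone h h' hs ht e₁ e₂
    exact h3.deriv_eq
  exact h1.deriv_eq

theorem term2 {X N Y M : V3 → V4} (h : IsConvexSurface X N) (h' : IsConvexSurface Y M)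
    (hs : SameMetric X Y) {x : V3} (hx : x ∈ H2) (e f : V3) :
    deriv (fun t : ℝ => deriv (fun t' : ℝ => q (fderiv ℝ X (x + t' • f) e)
      (fderiv ℝ X (x + t' • f) e)) t) 0 =
    deriv (fun t : ℝ => deriv (fun t' : ℝ => q (fderiv ℝ Y (x + t' • f) e)
      (fderiv ℝ Y (x + t' • f) e)) t) 0 := by
  have h3 : (fun t' : ℝ => q (fderiv ℝ X (x + t' • f) e) (fderiv ℝ X (x + t' • f) e))
      =ᶠ[nhds 0] fun t' : ℝ => q (fderiv ℝ Y (x + t' • f) e) (fderiv ℝ Y (x + t' • f) e) := by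
    filter_upwards [near1 (e := f) hx] with t ht
    exact metric_cone h h' hs ht e e
  exact h3.deriv.deriv_eq

theorem expand {X N : V3 → V4} (h : IsConvexSurface X N) {x : V3} (hx : x ∈ H2) {e₁ e₂ : V3}
    (he : GON ⟨X, N, fun x v => fderiv ℝ X x v, fun x v => fderiv ℝ N x v,
      fun x v => fderiv ℝ (fderiv ℝ X) x v v + X x⟩ x e₁ e₂) (a b c d : V3) :
    q (fderiv ℝ (fderiv ℝ X) x a b) (fderiv ℝ (fderiv ℝ X) x c d) =
      -((eta a b - q (fderiv ℝ X x a) (fderiv ℝ X x b)) * (eta c d - q (fderiv ℝ X x c) (fderiv ℝ X x d)))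
      + (q (fderiv ℝ (fderiv ℝ X) x a b) (fderiv ℝ X x e₁) * q (fderiv ℝ (fderiv ℝ X) x c d) (fderiv ℝ X x e₁)
        + q (fderiv ℝ (fderiv ℝ X) x a b) (fderiv ℝ X x e₂) * q (fderiv ℝ (fderiv ℝ X) x c d) (fderiv ℝ X x e₂))
      - q (fderiv ℝ N x a) (fderiv ℝ X x b) * q (fderiv ℝ N x c) (fderiv ℝ X x d) := by
  have hp := parseval2 (core2_of h) hx he (fderiv ℝ (fderiv ℝ X) x a b) (fderiv ℝ (fderiv ℝ X) x c d)
  obtain ⟨h1, h2, -, -, -⟩ := second2 h (H2_cone hx) a b
  obtain ⟨h3, h4, -, -, -⟩ := second2 h (H2_cone hx) c d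
  rw [hp]
  simp only
  rw [q_comm (fderiv ℝ (fderiv ℝ X) x a b) (X x), q_comm (fderiv ℝ (fderiv ℝ X) x c d) (X x),
    q_comm (fderiv ℝ (fderiv ℝ X) x a b) (N x), q_comm (fderiv ℝ (fderiv ℝ X) x c d) (N x), h1, h2, h3, h4]
  ring

end SGau2

/- Proof:
classical_gauss (U = Cone open, e1 = v, e2 = w) expresses q (D2 v v)(D2 w w) - q (D2 v w)(D2 v w) through the functions q (DX_y v)(DX_y w) etc. for y near x in Cone only, so by metric_cone it has the same value for X and for Y (the derivs agree because the functions agree near the point: x + s v + t w in Cone for small s, t; use Filter.EventuallyEq.deriv_eq). Now expand with parseval2 for the Core2 structures core2_of h, core2_of h' at x in H2 with a GON basis e1, e2 for X (which is also GON for Y by SameMetric): q (D2 a b)(D2 c d) = -(q (X)(D2 a b))(q (X)(D2 c d)) + sum_i q (D2 a b)(DX e_i) q (D2 c d)(DX e_i) - q (N)(D2 a b) q (N)(D2 c d). By second2 the first factors are eta a b - q (DX a)(DX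 b): equal for X and Y; the middle terms are equal by koszul2; q (N)(D2 a b) = -q (DN a)(DX b). So q (DN v)(DX v) q (DN w)(DX w) - (q (DN v)(DX w))^2 is the same for X and Y.
-/
theorem gauss2 {X N Y M : V3 → V4} (h : IsConvexSurface X N) (h' : IsConvexSurface Y M)
    (hs : SameMetric X Y) {x : V3} (hx : x ∈ H2) {v w : V3} (hv : eta x v = 0) (hw : eta x w = 0) :
    q (fderiv ℝ N x v) (fderiv ℝ X x v) * q (fderiv ℝ N x w) (fderiv ℝ X x w)
      - q (fderiv ℝ N x v) (fderiv ℝ X x w) ^ 2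
    = q (fderiv ℝ M x v) (fderiv ℝ Y x v) * q (fderiv ℝ M x w) (fderiv ℝ Y x w)
      - q (fderiv ℝ M x v) (fderiv ℝ Y x w) ^ 2 := by
  have hg := classical_gauss SGau2.cone_open h.smoothX (SGau2.H2_cone hx) v w
  have hg' := classical_gauss SGau2.cone_open h'.smoothX (SGau2.H2_cone hx) v w
  rw [SGau2.term1 h h' hs hx v w, SGau2.term2 h h' hs hx v w, SGau2.term2 h h' hs hx w v, ← hg'] at hg
  obtain ⟨e₁, e₂, he⟩ := gon_exists (core2_of h) hx
  have he' : GON ⟨Y, M, fun x v => fderiv ℝ Y x v, fun x v => fderiv ℝ M x v,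
      fun x v => fderiv ℝ (fderiv ℝ Y) x v v + Y x⟩ x e₁ e₂ := by
    obtain ⟨g1, g2, g3, g4, g5⟩ := he
    refine ⟨g1, g2, ?_, ?_, ?_⟩
    · simp only at g3 ⊢
      rw [← hs x hx e₁ e₁ g1 g1]; exact g3
    · simp only at g4 ⊢
      rw [← hs x hx e₂ e₂ g2 g2]; exact g4
    · simp only at g5 ⊢
      rw [← hs x hx e₁ e₂ g1 g2]; exact g5
  have hc := SGau2.H2_cone hx
  rw [SGau2.expand h hx he v v w w, SGau2.expand h hx he v w v w,
    SGau2.expand h' hx he' v v w w, SGau2.expand h' hx he' v w v w] at hg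
  simp only [koszul2 h h' hs hc, metric_cone h h' hs hc v v, metric_cone h h' hs hc w w,
    metric_cone h h' hs hc v w] at hg
  linear_combination -hg

end A_gauss2

alias gauss2 := A_gauss2.gauss2

namespace A_iso_of

/- Proof:
metric: SameMetric. tang: q (D2 v v + X x)(DX w) = q (D2 v v)(DX w) + q (X x)(DX w), the first term by koszul2 (H2 is contained in Cone), the second is eta x w (cone2) for both. det: gauss2.
-/
theorem iso_of {X N Y M : V3 → V4} (h : IsConvexSurface X N) (h' : IsConvexSurface Y M)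
    (hs : SameMetric X Y) :
    Iso ⟨X, N, fun x v => fderiv ℝ X x v, fun x v => fderiv ℝ N x v,
      fun x v => fderiv ℝ (fderiv ℝ X) x v v + X x⟩ ⟨Y, M, fun x v => fderiv ℝ Y x v, fun x v => fderiv ℝ M x v,
      fun x v => fderiv ℝ (fderiv ℝ Y) x v v + Y x⟩ := by
  have qadd : ∀ a b c : V4, q (a + b) c = q a c + q b c := by
    intro a b c
    simp only [q, Pi.add_apply]
    ring
  have hC : ∀ x ∈ H2, x ∈ Cone := by
    rintro x ⟨h1, h2⟩
    refine ⟨?_, h2⟩
    rw [h1]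
    norm_num
  refine ⟨?_, ?_, ?_⟩
  · intro x hx v w hv hw
    exact hs x hx v w hv hw
  · intro x hx v w hv hw
    show q (fderiv ℝ (fderiv ℝ X) x v v + X x) (fderiv ℝ X x w) =
      q (fderiv ℝ (fderiv ℝ Y) x v v + Y x) (fderiv ℝ Y x w)
    rw [qadd, qadd, koszul2 h h' hs (hC x hx) v v w, (cone2 h (hC x hx)).2.2.2.1 w,
      (cone2 h' (hC x hx)).2.2.2.1 w]
  · intro x hx v w hv hw
    exact gauss2 h h' hs hx hv hw

end A_iso_of

alias iso_of := A_iso_of.iso_of

namespace A_low_exists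

/- Proof:
g(x,v) = q (fderiv X x v)(fderiv X x v) is continuous and positive on the compact set {(x,v) : x in F, UT x v} (F compact subset of H2; UT bounds v), so g >= c0 > 0 there (if F is empty H2 is empty, trivial). For x in H2 choose g0 in Gamma with A g0 x in F. For all s near.. X (A g0 y) = rho g0 (X y) holds for y in Cone by homogeneity (y = r (y/r), A linear, homX; A g0 maps H2 to H2 hence Cone to Cone), so by the chain rule fderiv X (A g0 x)(A g0 v) = rho g0 (fderiv X x v). So q (DX v)(DX v) at x = q (DX (A g0 v))(DX (A g0 v)) at A g0 x >= c0 (UT (A g0 x)(A g0 v)).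
-/
theorem continuous_eta : Continuous (fun p : V3 × V3 => eta p.1 p.2) := by
  unfold eta
  fun_prop

theorem continuous_q : Continuous (fun p : V4 × V4 => q p.1 p.2) := by
  unfold q
  fun_prop

theorem eta_smul (r : ℝ) (x y : V3) : eta (r • x) (r • y) = r ^ 2 * eta x y := by
  unfold eta
  simp only [Pi.smul_apply, smul_eq_mul]
  ring

theorem isOpen_Cone : IsOpen Cone := by
  have h1 : Continuous (fun x : V3 => eta x x) := continuous_eta.comp (continuous_id.prodMk continuous_id)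
  have h2 : Continuous (fun x : V3 => x 0) := continuous_apply 0
  exact (isOpen_lt h1 continuous_const).inter (isOpen_lt continuous_const h2)

theorem H2_sub_Cone {x : V3} (hx : x ∈ H2) : x ∈ Cone := by
  refine ⟨?_, hx.2⟩
  rw [hx.1]; norm_num

theorem UT_bound {x v : V3} (hx : x ∈ H2) (hv : UT x v) (i : Fin 3) : |v i| ≤ x 0 := by
  obtain ⟨h1, h2⟩ := hx
  obtain ⟨h3, h4⟩ := hv
  unfold eta at h1 h3 h4
  have hcs : (x 1 * v 1 + x 2 * v 2) ^ 2 ≤ (x 1 ^ 2 + x 2 ^ 2) * (v 1 ^ 2 + v 2 ^ 2) := by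
    nlinarith [sq_nonneg (x 1 * v 2 - x 2 * v 1)]
  have e1 : x 1 * v 1 + x 2 * v 2 = x 0 * v 0 := by linarith
  have e2 : x 1 ^ 2 + x 2 ^ 2 = x 0 ^ 2 - 1 := by nlinarith
  have e3 : v 1 ^ 2 + v 2 ^ 2 = 1 + v 0 ^ 2 := by nlinarith
  rw [e1, e2, e3] at hcs
  have h0 : v 0 ^ 2 ≤ x 0 ^ 2 - 1 := by nlinarith
  have key : v i ^ 2 ≤ x 0 ^ 2 := by
    fin_cases i
    · show v 0 ^ 2 ≤ x 0 ^ 2
      linarith
    · show v 1 ^ 2 ≤ x 0 ^ 2
      nlinarith [sq_nonneg (v 2)]
    · show v 2 ^ 2 ≤ x 0 ^ 2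
      nlinarith [sq_nonneg (v 1)]
  exact abs_le_of_sq_le_sq key h2.le

theorem equi_Cone {Γ : Type*} [Group Γ] {A : Γ →* (V3 ≃ₗ[ℝ] V3)} (hA : IsCocompact A)
    {ρ : Γ →* (V4 ≃ₗ[ℝ] V4)} {X N : V3 → V4} (h : IsConvexSurface X N)
    (he : Equivariant A ρ X N) (g : Γ) {y : V3} (hy : y ∈ Cone) : X (A g y) = ρ g (X y) := by
  obtain ⟨h1, h2⟩ := hy
  set r : ℝ := √(-(eta y y)) with hr
  have hrpos : 0 < r := Real.sqrt_pos.2 (by linarith)
  have hr2 : r ^ 2 = -(eta y y) := Real.sq_sqrt (by linarith)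
  have hy' : r⁻¹ • y ∈ H2 := by
    constructor
    · rw [eta_smul, inv_pow, hr2]
      have : eta y y ≠ 0 := h1.ne
      field_simp
    · simp only [Pi.smul_apply, smul_eq_mul]
      positivity
  have hyr : r • (r⁻¹ • y) = y := by rw [smul_smul, mul_inv_cancel₀ hrpos.ne', one_smul]
  have hB : A g (r⁻¹ • y) ∈ H2 := ⟨by rw [hA.iso]; exact hy'.1, hA.pos g _ hy'⟩
  calc X (A g y) = X (A g (r • (r⁻¹ • y))) := by rw [hyr]
    _ = X (r • A g (r⁻¹ • y)) := by rw [map_smul (A g)]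
    _ = r • X (A g (r⁻¹ • y)) := h.homX _ (H2_sub_Cone hB) r hrpos
    _ = r • ρ g (X (r⁻¹ • y)) := by rw [he.eX g _ hy']
    _ = ρ g (r • X (r⁻¹ • y)) := by rw [map_smul (ρ g)]
    _ = ρ g (X (r • (r⁻¹ • y))) := by rw [h.homX _ (H2_sub_Cone hy') r hrpos]
    _ = ρ g (X y) := by rw [hyr]

theorem fderiv_equi {Γ : Type*} [Group Γ] {A : Γ →* (V3 ≃ₗ[ℝ] V3)} (hA : IsCocompact A)
    {ρ : Γ →* (V4 ≃ₗ[ℝ] V4)} {X N : V3 → V4} (h : IsConvexSurface X N)
    (he : Equivariant A ρ X N) (g : Γ) {x : V3} (hx : x ∈ H2) (v : V3) :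
    fderiv ℝ X (A g x) (A g v) = ρ g (fderiv ℝ X x v) := by
  have hBx : A g x ∈ H2 := ⟨by rw [hA.iso]; exact hx.1, hA.pos g _ hx⟩
  have hdiff : ∀ y ∈ Cone, DifferentiableAt ℝ X y := fun y hy =>
    ((h.smoothX.contDiffAt (isOpen_Cone.mem_nhds hy)).differentiableAt (by norm_num))
  set B : V3 ≃L[ℝ] V3 := (A g).toContinuousLinearEquiv with hB
  set R : V4 ≃L[ℝ] V4 := (ρ g).toContinuousLinearEquiv with hR
  have hBe : ∀ y, B y = A g y := fun y => rfl
  have hRe : ∀ y, R y = ρ g y := fun y => rfl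
  have e1 : HasFDerivAt (fun y => X (B y)) ((fderiv ℝ X (B x)).comp (B : V3 →L[ℝ] V3)) x :=
    HasFDerivAt.comp x (hdiff (B x) (H2_sub_Cone hBx)).hasFDerivAt B.hasFDerivAt
  have e2 : HasFDerivAt (fun y => R (X y)) ((R : V4 →L[ℝ] V4).comp (fderiv ℝ X x)) x :=
    HasFDerivAt.comp x R.hasFDerivAt (hdiff x (H2_sub_Cone hx)).hasFDerivAt
  have e3 : (fun y => X (B y)) =ᶠ[nhds x] (fun y => R (X y)) := by
    filter_upwards [isOpen_Cone.mem_nhds (H2_sub_Cone hx)] with y hy
    exact equi_Cone hA h he g hy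
  have e4 := e1.unique (e2.congr_of_eventuallyEq e3)
  have e5 := congrArg (fun L : V3 →L[ℝ] V4 => L v) e4
  exact e5

theorem low_exists {Γ : Type*} [Group Γ] {A : Γ →* (V3 ≃ₗ[ℝ] V3)} (hA : IsCocompact A)
    {ρ : Γ →* (V4 ≃ₗ[ℝ] V4)} (hρ : ∀ g, IsIso (ρ g)) {X N : V3 → V4} (h : IsConvexSurface X N)
    (he : Equivariant A ρ X N) :
    ∃ c : ℝ, 0 < c ∧ ∀ x ∈ H2, ∀ v, UT x v → c ≤ q (fderiv ℝ X x v) (fderiv ℝ X x v) := by
  obtain ⟨F, hF, hFc, hcov⟩ := hA.cocompact
  -- bound for x 0 on F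
  obtain ⟨M, hM⟩ : ∃ M : ℝ, ∀ x ∈ F, x 0 ≤ M := by
    obtain ⟨M, hM⟩ := (hFc.image (continuous_apply (0 : Fin 3))).bddAbove
    exact ⟨M, fun x hx => hM ⟨x, hx, rfl⟩⟩
  set K : Set (V3 × V3) := {p | p.1 ∈ F ∧ UT p.1 p.2} with hK
  have hKeq : K = (F ×ˢ Metric.closedBall (0 : V3) M) ∩ {p | UT p.1 p.2} := by
    ext p
    constructor
    · rintro ⟨h1, h2⟩
      refine ⟨⟨h1, ?_⟩, h2⟩
      rw [mem_closedBall_zero_iff]
      have h0 : 0 < p.1 0 := (hF h1).2
      rw [pi_norm_le_iff_of_nonneg (h0.le.trans (hM _ h1))]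
      intro i
      rw [Real.norm_eq_abs]
      exact (UT_bound (hF h1) h2 i).trans (hM _ h1)
    · rintro ⟨⟨h1, _⟩, h2⟩
      exact ⟨h1, h2⟩
  have hUTclosed : IsClosed {p : V3 × V3 | UT p.1 p.2} := by
    have h1 : Continuous (fun p : V3 × V3 => eta p.2 p.2) :=
      continuous_eta.comp (continuous_snd.prodMk continuous_snd)
    exact (isClosed_eq continuous_eta continuous_const).inter (isClosed_eq h1 continuous_const)
  have hKc : IsCompact K := by
    rw [hKeq]
    exact (hFc.prod (isCompact_closedBall _ _)).inter_right hUTclosed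
  have hcont : ContinuousOn (fun p : V3 × V3 => q (fderiv ℝ X p.1 p.2) (fderiv ℝ X p.1 p.2)) K := by
    have h1 : ContinuousOn (fun p : V3 × V3 => fderiv ℝ X p.1 p.2) {p | p.1 ∈ H2} := (core2_of h).cont_dX
    have h2 : ContinuousOn (fun p : V3 × V3 => fderiv ℝ X p.1 p.2) K := h1.mono fun p hp => hF hp.1
    exact continuous_q.comp_continuousOn (h2.prodMk h2)
  have hpos : ∀ p ∈ K, 0 < q (fderiv ℝ X p.1 p.2) (fderiv ℝ X p.1 p.2) := by
    intro p hp
    apply h.spacelike p.1 (hF hp.1) p.2 hp.2.1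
    intro h0
    have h1 := hp.2.2
    rw [h0] at h1
    unfold eta at h1
    norm_num at h1
  obtain ⟨c, hc, hcK⟩ : ∃ c : ℝ, 0 < c ∧ ∀ p ∈ K, c ≤ q (fderiv ℝ X p.1 p.2) (fderiv ℝ X p.1 p.2) := by
    rcases K.eq_empty_or_nonempty with h0 | h0
    · exact ⟨1, one_pos, fun p hp => by rw [h0] at hp; exact absurd hp (Set.notMem_empty _)⟩
    · obtain ⟨p, hp, hmin⟩ := hKc.exists_isMinOn h0 hcont
      exact ⟨_, hpos p hp, fun p' hp' => hmin hp'⟩
  refine ⟨c, hc, fun x hx v hv => ?_⟩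
  obtain ⟨g, hg⟩ := hcov x hx
  have h1 : (A g x, A g v) ∈ K := by
    refine ⟨hg, ?_, ?_⟩
    · show eta (A g x) (A g v) = 0
      rw [hA.iso]; exact hv.1
    · show eta (A g v) (A g v) = 1
      rw [hA.iso]; exact hv.2
  have h2 := hcK _ h1
  have h3 : fderiv ℝ X (A g x, A g v).1 (A g x, A g v).2 = ρ g (fderiv ℝ X x v) := fderiv_equi hA h he g hx v
  rw [h3, hρ g] at h2
  exact h2

end A_low_exists

alias low_exists := A_low_exists.low_exists

end Helper935.AdS
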