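import Pool.Agent.Helper935_AdS.PtB

namespace Helper935.AdS

namespace A_Lam_strict2

/- Proof:
strictX2 and strictN2 for both surfaces (S.gm.core, S.gp.core)
-/
theorem Lam_strict2 (S : Setup2) {ξ : V4} (hξ : ξ ∈ Lam2 S) {x : V3} (hx : x ∈ H2) :
    q (S.m.X x) ξ < 0 ∧ q (S.m.N x) ξ < 0 ∧ q (S.p.X x) ξ < 0 ∧ q (S.p.N x) ξ < 0 :=
  ⟨strictX2 S.gm.core hξ.1 hξ.2.1 (fun y hy => (hξ.2.2 y hy).1) hx,
    strictN2 S.gm.core hξ.1 hξ.2.1 (fun y hy => (hξ.2.2 y hy).2.1) hx,
    strictX2 S.gp.core hξ.1 hξ.2.1 (fun y hy => (hξ.2.2 y hy).2.2.1) hx,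
    strictN2 S.gp.core hξ.1 hξ.2.1 (fun y hy => (hξ.2.2 y hy).2.2.2) hx⟩

end A_Lam_strict2

alias Lam_strict2 := A_Lam_strict2.Lam_strict2

namespace A_Lam_smul2

/- TARGET -/
theorem Lam_smul2_aux (t : ℝ) (X Y : V4) : q X (t • Y) = t * q X Y := by
  simp only [q, Pi.smul_apply, smul_eq_mul]
  ring

theorem Lam_smul2_aux' (t : ℝ) (X Y : V4) : q (t • X) Y = t * q X Y := by
  simp only [q, Pi.smul_apply, smul_eq_mul]
  ring

theorem Lam_smul2 (S : Setup2) {ξ : V4} (hξ : ξ ∈ Lam2 S) {t : ℝ} (ht : 0 < t) : t • ξ ∈ Lam2 S := by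
  obtain ⟨h1, h2, h3⟩ := hξ
  refine ⟨smul_ne_zero ht.ne' h1, ?_, fun x hx => ?_⟩
  · rw [Lam_smul2_aux, Lam_smul2_aux', h2, mul_zero, mul_zero]
  · obtain ⟨a1, a2, a3, a4⟩ := h3 x hx
    simp only [Lam_smul2_aux]
    exact ⟨mul_nonpos_of_nonneg_of_nonpos ht.le a1, mul_nonpos_of_nonneg_of_nonpos ht.le a2,
      mul_nonpos_of_nonneg_of_nonpos ht.le a3, mul_nonpos_of_nonneg_of_nonpos ht.le a4⟩

end A_Lam_smul2

alias Lam_smul2 := A_Lam_smul2.Lam_smul2

namespace A_Lam_G2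

/- Proof:
q (X x)(g2 ξ) = q (g2 (X (g1^-1 x))) (g2 ξ) = q (X (g1^-1 x)) ξ, with g1^-1 x in H2 by G_inv, G_H2
-/
theorem Lam_G2 (S : Setup2) {ξ : V4} (hξ : ξ ∈ Lam2 S) {g : (V3 ≃ₗ[ℝ] V3) × (V4 ≃ₗ[ℝ] V4)} (hg : g ∈ S.G) :
    g.2 ξ ∈ Lam2 S := by
  obtain ⟨h0, hq, h⟩ := hξ
  have hinv := S.G_inv g hg
  have key : ∀ x ∈ H2, g.1.symm x ∈ H2 := fun x hx => S.G_H2 _ hinv x hx
  have hgg : ∀ x : V3, g.1 (g.1.symm x) = x := fun x => g.1.apply_symm_apply x
  refine ⟨?_, ?_, ?_⟩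
  · intro h1
    apply h0
    exact (LinearEquiv.map_eq_zero_iff g.2).mp h1
  · rw [S.G_q g hg]; exact hq
  · intro x hx
    have hy := key x hx
    obtain ⟨h1, h2, h3, h4⟩ := h _ hy
    have e1 : S.m.X x = g.2 (S.m.X (g.1.symm x)) := by
      rw [← S.G_Xm g hg _ hy, hgg]
    have e2 : S.m.N x = g.2 (S.m.N (g.1.symm x)) := by
      rw [← S.G_Nm g hg _ hy, hgg]
    have e3 : S.p.X x = g.2 (S.p.X (g.1.symm x)) := by
      rw [← S.G_Xp g hg _ hy, hgg]
    have e4 : S.p.N x = g.2 (S.p.N (g.1.symm x)) := by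
      rw [← S.G_Np g hg _ hy, hgg]
    rw [e1, e2, e3, e4, S.G_q g hg, S.G_q g hg, S.G_q g hg, S.G_q g hg]
    exact ⟨h1, h2, h3, h4⟩

end A_Lam_G2

alias Lam_G2 := A_Lam_G2.Lam_G2

namespace A_Dual_G2

/- Proof:
as Lam_G2
-/
theorem Dual_G2 (S : Setup2) {N : V4} (hN : N ∈ Dual2 S) {g : (V3 ≃ₗ[ℝ] V3) × (V4 ≃ₗ[ℝ] V4)} (hg : g ∈ S.G) :
    g.2 N ∈ Dual2 S := by
  obtain ⟨h1, h2⟩ := hN
  refine ⟨by rw [S.G_q g hg]; exact h1, fun x hx => ?_⟩
  have hy : g.1.symm x ∈ H2 := S.G_H2 _ (S.G_inv g hg) x hx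
  have hxy : S.p.X x = g.2 (S.p.X (g.1.symm x)) := by
    rw [← S.G_Xp g hg _ hy, LinearEquiv.apply_symm_apply]
  rw [hxy, S.G_q g hg]
  exact h2 _ hy

end A_Dual_G2

alias Dual_G2 := A_Dual_G2.Dual_G2

namespace A_nset_cases2

theorem nset_cases2_self_smul (c d : ℝ) (X Y : V4) : q (c • X) (d • Y) = c * d * q X Y := by
  simp only [q, Pi.smul_apply, smul_eq_mul]
  ring

theorem nset_cases2_smul_r (d : ℝ) (X Y : V4) : q X (d • Y) = d * q X Y := by
  simp only [q, Pi.smul_apply, smul_eq_mul]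
  ring

/- Proof:
Take Y_k -> Y, Y_k = |Xp x_k|^{-1} Xp x_k, x_k in H2. Fix x0 in H2. If -eta x0 x_k has a bounded subsequence then (H2_ball compact) x_k -> x in H2 along a subsequence and Y = |Xp x|^{-1} Xp x by continuity (Xp x is nonzero as q = -1). Otherwise |Xp x_k| -> infinity (normX2 for S.gp), so q Y Y = lim -1/|Xp x_k|^2 = 0, |Y| = 1 so Y is nonzero, and the inequalities follow in the limit from S.mp, S.gp.supp, S.gp.chord (q (Xp x)(Xp x_k) <= -1) and S.lt1 (q (Xm x)(Xp x_k) < 1, divided by |Xp x_k|). Here Xp = S.p.X, Xm = S.m.X.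
-/
theorem nset_cases2 (S : Setup2) {Y : V4} (hY : Y ∈ nset2 S) :
    (∃ x ∈ H2, Y = ‖S.p.X x‖⁻¹ • S.p.X x) ∨ Y ∈ Lam2 S := by
  classical
  unfold nset2 at hY
  rw [mem_closure_iff_seq_limit] at hY
  obtain ⟨y, hy, hlim⟩ := hY
  choose x hx hyx using hy
  have hne : ∀ z ∈ H2, S.p.X z ≠ 0 := by
    intro z hz h0
    have := S.gp.core.XX z hz
    rw [h0] at this
    simp [q] at this
  have hx₀ : (![1, 0, 0] : V3) ∈ H2 := by
    constructor
    · simp [eta]
    · simp
  have hyfun : y = fun k => ‖S.p.X (x k)‖⁻¹ • S.p.X (x k) := funext hyx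
  by_cases hR : ∃ R : ℝ, ∃ᶠ k in Filter.atTop, -eta (![1, 0, 0] : V3) (x k) ≤ R
  · left
    obtain ⟨R, hR⟩ := hR
    have hcpt := H2_ball hx₀ R
    have hfr : ∃ᶠ k in Filter.atTop, x k ∈ {z | z ∈ H2 ∧ -eta (![1, 0, 0] : V3) z ≤ R} :=
      hR.mono (fun k hk => ⟨hx k, hk⟩)
    obtain ⟨z, hz, φ, hφ, hconv⟩ := hcpt.tendsto_subseq' hfr
    refine ⟨z, hz.1, ?_⟩
    have h1 : Filter.Tendsto (fun k => S.p.X (x (φ k))) Filter.atTop (nhds (S.p.X z)) := by
      have hc := S.gp.core.contX z hz.1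
      have hw : Filter.Tendsto (fun k => x (φ k)) Filter.atTop (nhdsWithin z H2) := by
        rw [tendsto_nhdsWithin_iff]
        exact ⟨hconv, Filter.Eventually.of_forall (fun k => hx (φ k))⟩
      exact hc.tendsto.comp hw
    have h2 : Filter.Tendsto (fun k => ‖S.p.X (x (φ k))‖⁻¹ • S.p.X (x (φ k))) Filter.atTop
        (nhds (‖S.p.X z‖⁻¹ • S.p.X z)) := by
      exact (h1.norm.inv₀ (norm_ne_zero_iff.mpr (hne z hz.1))).smul h1
    have h3 : Filter.Tendsto (fun k => y (φ k)) Filter.atTop (nhds Y) :=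
      hlim.comp hφ.tendsto_atTop
    rw [hyfun] at h3
    exact tendsto_nhds_unique h3 h2
  · right
    push Not at hR
    have hinf : Filter.Tendsto (fun k => ‖S.p.X (x k)‖) Filter.atTop Filter.atTop := by
      rw [Filter.tendsto_atTop]
      intro M
      obtain ⟨R, hRM⟩ := normX2 S.gp hx₀ M
      have h := hR R
      filter_upwards [h] with k hk
      exact (hRM (x k) (hx k) hk).le
    have hinv : Filter.Tendsto (fun k => ‖S.p.X (x k)‖⁻¹) Filter.atTop (nhds 0) :=
      tendsto_inv_atTop_zero.comp hinf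
    have hpos : ∀ k, 0 < ‖S.p.X (x k)‖⁻¹ := fun k =>
      inv_pos.mpr (norm_pos_iff.mpr (hne (x k) (hx k)))
    have hqr : ∀ Z : V4, Filter.Tendsto (fun k => q Z (y k)) Filter.atTop (nhds (q Z Y)) := by
      intro Z
      have hc : Continuous (fun W : V4 => q Z W) :=
        q_cont.comp (continuous_const.prodMk continuous_id)
      exact (hc.tendsto Y).comp hlim
    have hle : ∀ (Z : V4) (C : ℝ), 0 ≤ C → (∀ k, q Z (S.p.X (x k)) ≤ C) → q Z Y ≤ 0 := by
      intro Z C hC hZ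
      have h1 : Filter.Tendsto (fun k => ‖S.p.X (x k)‖⁻¹ * C) Filter.atTop (nhds (0 * C)) :=
        hinv.mul_const C
      rw [zero_mul] at h1
      refine le_of_tendsto_of_tendsto' (hqr Z) h1 ?_
      intro k
      rw [hyx k, nset_cases2_smul_r]
      exact mul_le_mul_of_nonneg_left (hZ k) (hpos k).le
    refine ⟨?_, ?_, ?_⟩
    · intro h0
      have hn : Filter.Tendsto (fun k => ‖y k‖) Filter.atTop (nhds ‖Y‖) := hlim.norm
      have h1 : (fun k => ‖y k‖) = fun _ => (1 : ℝ) := by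
        funext k
        rw [hyx k, norm_smul, norm_inv, norm_norm]
        exact inv_mul_cancel₀ (norm_ne_zero_iff.mpr (hne (x k) (hx k)))
      rw [h1] at hn
      have h2 := tendsto_nhds_unique hn tendsto_const_nhds
      rw [h0, norm_zero] at h2
      exact absurd h2 (by norm_num)
    · have hq : Filter.Tendsto (fun k => q (y k) (y k)) Filter.atTop (nhds (q Y Y)) := by
        have hc : Continuous (fun W : V4 => q W W) :=
          q_cont.comp (continuous_id.prodMk continuous_id)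
        exact (hc.tendsto Y).comp hlim
      have hq' : Filter.Tendsto (fun k => q (y k) (y k)) Filter.atTop (nhds 0) := by
        have h1 : Filter.Tendsto (fun k => ‖S.p.X (x k)‖⁻¹ * ‖S.p.X (x k)‖⁻¹ * (-1)) Filter.atTop
            (nhds (0 * 0 * (-1))) := (hinv.mul hinv).mul_const (-1)
        simp only [zero_mul, mul_zero] at h1
        refine h1.congr ?_
        intro k
        rw [hyx k, nset_cases2_self_smul, S.gp.core.XX (x k) (hx k)]
      exact tendsto_nhds_unique hq hq'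
    · intro z hz
      refine ⟨?_, ?_, ?_, ?_⟩
      · exact hle (S.m.X z) 1 zero_le_one (fun k => (S.lt1 z hz (x k) (hx k)).le)
      · exact hle (S.m.N z) 0 le_rfl (fun k => S.mp z hz (x k) (hx k))
      · exact hle (S.p.X z) 0 le_rfl (fun k =>
          (S.gp.chord z hz (x k) (hx k)).trans (by norm_num))
      · exact hle (S.p.N z) 0 le_rfl (fun k => S.gp.supp z hz (x k) (hx k))

end A_nset_cases2

alias nset_cases2 := A_nset_cases2.nset_cases2

namespace A_nset_cpt2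

/- Proof:
closure of a bounded (norm <= 1) nonempty set in a finite dimensional space; H2 contains (1,0,0)
-/
theorem nset_cpt2 (S : Setup2) : IsCompact (nset2 S) ∧ (nset2 S).Nonempty := by
  constructor
  · apply Bornology.IsBounded.isCompact_closure
    apply (Metric.isBounded_closedBall (x := (0 : V4)) (r := 1)).subset
    rintro Y ⟨x, -, rfl⟩
    rw [mem_closedBall_zero_iff, norm_smul, norm_inv, norm_norm]
    by_cases h : ‖S.p.X x‖ = 0
    · rw [h]; simp
    · rw [inv_mul_cancel₀ h]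
  · refine Set.Nonempty.closure ⟨_, ![1, 0, 0], ⟨?_, ?_⟩, rfl⟩
    · simp [eta]
    · simp

end A_nset_cpt2

alias nset_cpt2 := A_nset_cpt2.nset_cpt2

namespace A_nset_pair2

theorem nset_pair2 (S : Setup2) {Y Z : V4} (hY : Y ∈ nset2 S) (hZ : Z ∈ nset2 S) : q Y Z ≤ 0 := by
  have hcl : IsClosed {p : V4 × V4 | q p.1 p.2 ≤ 0} := isClosed_le q_cont continuous_const
  have hsub : {Y | ∃ x ∈ H2, Y = ‖S.p.X x‖⁻¹ • S.p.X x} ×ˢ {Y | ∃ x ∈ H2, Y = ‖S.p.X x‖⁻¹ • S.p.X x}
      ⊆ {p : V4 × V4 | q p.1 p.2 ≤ 0} := by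
    rintro ⟨U, W⟩ ⟨⟨x, hx, hU⟩, ⟨y, hy, hW⟩⟩
    simp only at hU hW
    subst hU
    subst hW
    have h1 := S.gp.chord x hx y hy
    have h2 : q (‖S.p.X x‖⁻¹ • S.p.X x) (‖S.p.X y‖⁻¹ • S.p.X y) =
        (‖S.p.X x‖⁻¹ * ‖S.p.X y‖⁻¹) * q (S.p.X x) (S.p.X y) := by
      simp only [q, Pi.smul_apply, smul_eq_mul]
      ring
    show q (‖S.p.X x‖⁻¹ • S.p.X x) (‖S.p.X y‖⁻¹ • S.p.X y) ≤ 0
    rw [h2]
    exact mul_nonpos_of_nonneg_of_nonpos (by positivity) (by linarith)
  have h3 := closure_minimal hsub hcl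
  rw [closure_prod_eq] at h3
  exact h3 (Set.mk_mem_prod hY hZ)

end A_nset_pair2

alias nset_pair2 := A_nset_pair2.nset_pair2

namespace A_nset_pos2

/- Proof:
by nset_cases2: either Y = positive multiple of Xp y (S.gp.chord: <= -1 < 0) or Y in Lam2 (Lam_strict2)
-/
theorem nset_pos2 (S : Setup2) {Y : V4} (hY : Y ∈ nset2 S) {x : V3} (hx : x ∈ H2) : q (S.p.X x) Y < 0 := by
  rcases nset_cases2 S hY with ⟨z, hz, rfl⟩ | h
  · have h1 : q (S.p.X x) (S.p.X z) ≤ -1 := S.gp.chord x hx z hz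
    have h2 : S.p.X z ≠ 0 := by
      intro h0
      have h3 := S.gp.core.XX z hz
      rw [h0] at h3
      simp [q] at h3
    have h4 : 0 < ‖S.p.X z‖⁻¹ := inv_pos.2 (norm_pos_iff.2 h2)
    have h5 : q (S.p.X x) (‖S.p.X z‖⁻¹ • S.p.X z) = ‖S.p.X z‖⁻¹ * q (S.p.X x) (S.p.X z) := by
      simp only [q, Pi.smul_apply, smul_eq_mul]
      ring
    rw [h5]
    exact mul_neg_of_pos_of_neg h4 (by linarith)
  · exact (Lam_strict2 S h hx).2.2.1

end A_nset_pos2

alias nset_pos2 := A_nset_pos2.nset_pos2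

namespace A_zero_notin2

/-- `0` is not in the convex hull of the closure of the normalised position vectors -/
theorem zero_notin2 (S : Setup2) : (0 : V4) ∉ convexHull ℝ (nset2 S) := by
  obtain ⟨x, hx⟩ : ∃ x : V3, x ∈ H2 := by
    refine ⟨![1, 0, 0], ?_, ?_⟩
    · simp [eta]
    · simp
  have hconv : Convex ℝ {Y : V4 | q (S.p.X x) Y < 0} := by
    intro Y hY Z hZ s t hs ht hst
    have hY' : q (S.p.X x) Y < 0 := hY
    have hZ' : q (S.p.X x) Z < 0 := hZ
    change q (S.p.X x) (s • Y + t • Z) < 0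
    have e : q (S.p.X x) (s • Y + t • Z) = s * q (S.p.X x) Y + t * q (S.p.X x) Z := by
      simp only [q, Pi.add_apply, Pi.smul_apply, smul_eq_mul]
      ring
    rw [e]
    rcases hs.eq_or_lt with h0 | h0
    · have : t = 1 := by linarith
      rw [← h0, this]
      linarith
    · have h1 : s * q (S.p.X x) Y < 0 := mul_neg_of_pos_of_neg h0 hY'
      have h2 : t * q (S.p.X x) Z ≤ 0 := mul_nonpos_of_nonneg_of_nonpos ht hZ'.le
      linarith
  have hsub : convexHull ℝ (nset2 S) ⊆ {Y : V4 | q (S.p.X x) Y < 0} :=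
    convexHull_min (fun Y hY => nset_pos2 S hY hx) hconv
  intro h
  have h0 : q (S.p.X x) 0 < 0 := hsub h
  simp [q] at h0

end A_zero_notin2

alias zero_notin2 := A_zero_notin2.zero_notin2

namespace A_null_mem2

theorem q_add_right' (X Y Z : V4) : q X (Y + Z) = q X Y + q X Z := by
  unfold q; simp only [Pi.add_apply]; ring

theorem q_add_left' (X Y Z : V4) : q (X + Y) Z = q X Z + q Y Z := by
  unfold q; simp only [Pi.add_apply]; ring

theorem q_smul_right' (X Y : V4) (c : ℝ) : q X (c • Y) = c * q X Y := by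
  unfold q; simp only [Pi.smul_apply, smul_eq_mul]; ring

theorem q_smul_left' (X Y : V4) (c : ℝ) : q (c • X) Y = c * q X Y := by
  unfold q; simp only [Pi.smul_apply, smul_eq_mul]; ring

theorem q_zero_right' (X : V4) : q X 0 = 0 := by
  unfold q; simp

theorem q_zero_left' (X : V4) : q 0 X = 0 := by
  unfold q; simp

theorem q_sum_right' {n : ℕ} (s : Finset (Fin n)) (X : V4) (z : Fin n → V4) :
    q X (∑ i ∈ s, z i) = ∑ i ∈ s, q X (z i) := by
  classical
  induction s using Finset.induction_on with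
  | empty => simp [q_zero_right']
  | insert a s ha ih => rw [Finset.sum_insert ha, Finset.sum_insert ha, q_add_right', ih]

theorem q_sum_left' {n : ℕ} (s : Finset (Fin n)) (X : V4) (z : Fin n → V4) :
    q (∑ i ∈ s, z i) X = ∑ i ∈ s, q (z i) X := by
  classical
  induction s using Finset.induction_on with
  | empty => simp [q_zero_left']
  | insert a s ha ih => rw [Finset.sum_insert ha, Finset.sum_insert ha, q_add_left', ih]

theorem norm_Xp_pos' (S : Setup2) {x : V3} (hx : x ∈ H2) : 0 < ‖S.p.X x‖ := by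
  rw [norm_pos_iff]
  intro h
  have h1 := S.gp.core.XX x hx
  rw [h, q_zero_left'] at h1
  norm_num at h1


theorem null_mem2 (S : Setup2) {Z : V4} (hZ0 : Z ≠ 0) (hZZ : q Z Z = 0)
    (hZ : ∀ x ∈ H2, q (S.p.X x) Z ≤ 0) : Z ∈ Lam2 S := by
  -- step 1
  obtain ⟨t, ht, Y, hY, hZY⟩ : ∃ t : ℝ, 0 ≤ t ∧ ∃ Y ∈ convexHull ℝ (nset2 S), Z = t • Y := by
    by_contra hcon
    push Not at hcon
    obtain ⟨N, hN, hZN⟩ := sep (nset_cpt2 S).1 (nset_cpt2 S).2 (zero_notin2 S) hZ0 hcon
    have hX : ∀ x ∈ H2, q (S.p.X x) N < 0 := by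
      intro x hx
      have hpos := norm_Xp_pos' S hx
      have h1 := hN (‖S.p.X x‖⁻¹ • S.p.X x) (subset_closure ⟨x, hx, rfl⟩)
      rw [q_smul_left'] at h1
      by_contra h2
      push Not at h2
      have h3 := mul_nonneg (inv_pos.2 hpos).le h2
      linarith
    have key : ∀ t : ℝ, 0 < t → 2 * q Z N + t * q N N ≤ 0 := by
      intro t ht
      have h1 := nonspacelike2 S.gp (Z := Z + t • N) (fun x hx => by
        rw [q_add_right', q_smul_right']
        have h2 := hZ x hx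
        have h3 := mul_neg_of_pos_of_neg ht (hX x hx)
        linarith)
      have h2 : q (Z + t • N) (Z + t • N) = q Z Z + t * (2 * q Z N + t * q N N) := by
        unfold q; simp only [Pi.add_apply, Pi.smul_apply, smul_eq_mul]; ring
      rw [h2, hZZ, zero_add] at h1
      by_contra h3
      push Not at h3
      have := mul_pos ht h3
      linarith
    have hd : 0 < 1 + |q N N| := by positivity
    have h1 := key (q Z N / (1 + |q N N|)) (div_pos hZN hd)
    have h2 : -(q Z N) ≤ q Z N / (1 + |q N N|) * q N N := by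
      have h3 : -(|q N N|) ≤ q N N := neg_abs_le _
      have h4 : 0 ≤ q Z N / (1 + |q N N|) := (div_pos hZN hd).le
      have h5 := mul_le_mul_of_nonneg_left h3 h4
      have h6 : q Z N / (1 + |q N N|) * |q N N| ≤ q Z N := by
        rw [div_mul_eq_mul_div, div_le_iff₀ hd]
        nlinarith [abs_nonneg (q N N)]
      linarith
    linarith
  -- step 2
  have ht0 : 0 < t := by
    rcases ht.lt_or_eq with h | h
    · exact h
    · exfalso
      apply hZ0
      rw [hZY, ← h, zero_smul]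
  obtain ⟨n, w, z, _, hw, hz, hYz⟩ := hull_repr hY
  have hdbl : q Y Y = ∑ i, ∑ j, w i * w j * q (z i) (z j) := by
    rw [hYz, q_sum_left']
    refine Finset.sum_congr rfl fun i _ => ?_
    rw [q_smul_left', q_sum_right', Finset.mul_sum]
    refine Finset.sum_congr rfl fun j _ => ?_
    rw [q_smul_right']
    ring
  have hYY : q Y Y = 0 := by
    have h1 : q Z Z = t * (t * q Y Y) := by rw [hZY, q_smul_left', q_smul_right']
    rw [hZZ] at h1
    rcases mul_eq_zero.1 h1.symm with h | h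
    · exact absurd h ht0.ne'
    · rcases mul_eq_zero.1 h with h | h
      · exact absurd h ht0.ne'
      · exact h
  have hnon : ∀ i j, w i * w j * q (z i) (z j) ≤ 0 := fun i j =>
    mul_nonpos_of_nonneg_of_nonpos (mul_pos (hw i) (hw j)).le (nset_pair2 S (hz i) (hz j))
  have hii : ∀ i, q (z i) (z i) = 0 := by
    intro i
    have h1 : ∀ i ∈ (Finset.univ : Finset (Fin n)),
        ∑ j, w i * w j * q (z i) (z j) ≤ 0 := fun i _ =>
      Finset.sum_nonpos fun j _ => hnon i j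
    rw [hdbl] at hYY
    have h2 := (Finset.sum_eq_zero_iff_of_nonpos h1).1 hYY i (Finset.mem_univ i)
    have h3 := (Finset.sum_eq_zero_iff_of_nonpos (fun j _ => hnon i j)).1 h2 i (Finset.mem_univ i)
    rcases mul_eq_zero.1 h3 with h | h
    · exact absurd h (mul_pos (hw i) (hw i)).ne'
    · exact h
  have hL : ∀ i, z i ∈ Lam2 S := by
    intro i
    rcases nset_cases2 S (hz i) with ⟨x, hx, h⟩ | h
    · exfalso
      have h1 := hii i
      have hpos := norm_Xp_pos' S hx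
      rw [h, q_smul_left', q_smul_right', S.gp.core.XX x hx] at h1
      have h2 := inv_pos.2 hpos
      have := mul_pos h2 h2
      linarith
    · exact h
  have hsum : ∀ X : V4, (∀ i, q X (z i) ≤ 0) → q X Z ≤ 0 := by
    intro X hX
    rw [hZY, q_smul_right', hYz, q_sum_right']
    refine mul_nonpos_of_nonneg_of_nonpos ht (Finset.sum_nonpos fun i _ => ?_)
    rw [q_smul_right']
    exact mul_nonpos_of_nonneg_of_nonpos (hw i).le (hX i)
  refine ⟨hZ0, hZZ, fun x hx => ⟨hsum _ fun i => ?_, hsum _ fun i => ?_, hsum _ fun i => ?_,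
    hsum _ fun i => ?_⟩⟩
  · exact ((hL i).2.2 x hx).1
  · exact ((hL i).2.2 x hx).2.1
  · exact ((hL i).2.2 x hx).2.2.1
  · exact ((hL i).2.2 x hx).2.2.2

end A_null_mem2

alias null_mem2 := A_null_mem2.null_mem2

namespace A_Xm_not_hull2

/- Proof:
Suppose Xm y = t Y, Y = sum w_i z_i as in hull_repr. t > 0 (Xm y is nonzero). 0 = q (Nm y)(Xm y) = t sum w_i q (Nm y) z_i and every term is <= 0 (S.mp and Lam2), so q (Nm y) z_i = 0 for all i; take i = 0. z_i is not in Lam2 S (Lam_strict2), so z_i = |Xp x|^{-1} Xp x and q (Nm y)(Xp x) = 0. contactN2 for the lower surface with Z = Xp x (S.mp): Xp x = c Xm y, c = -q (Xm y)(Xp x); q(Xp x)(Xp x) = -1 = -c^2; c = -1 would give q (Xm y)(Xp x) = 1, against S.lt1; so c = 1, Xp x = Xm y. contactX2 for the upper surface with Z = Nm y (q (Xp x') (Nm y) <= 0 by S.mp, q symmetric; value 0 at x): Nm y = Np x. Contradiction with S.ne.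
-/
theorem Xm_not_hull2 (S : Setup2) {y : V3} (hy : y ∈ H2) {t : ℝ} (ht : 0 ≤ t) {Y : V4}
    (hY : Y ∈ convexHull ℝ (nset2 S)) : S.m.X y ≠ t • Y := by
  intro heq
  obtain ⟨n, w, z, hn, hw, hz, hYe⟩ := hull_repr hY
  have hqadd : ∀ (A B C : V4), q A (B + C) = q A B + q A C := by
    intro A B C
    simp only [q, Pi.add_apply]
    ring
  have hqsmul : ∀ (A : V4) (c : ℝ) (B : V4), q A (c • B) = c * q A B := by
    intro A c B
    simp only [q, Pi.smul_apply, smul_eq_mul]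
    ring
  have hqsmul' : ∀ (A : V4) (c : ℝ) (B : V4), q (c • A) B = c * q A B := by
    intro A c B
    simp only [q, Pi.smul_apply, smul_eq_mul]
    ring
  have hqsymm : ∀ (A B : V4), q A B = q B A := by
    intro A B
    simp only [q]
    ring
  have hqsum : ∀ (A : V4) (s : Finset (Fin n)) (f : Fin n → V4), q A (∑ i ∈ s, f i) = ∑ i ∈ s, q A (f i) := by
    intro A s f
    induction s using Finset.induction_on with
    | empty => simp [q]
    | insert a s ha ih => rw [Finset.sum_insert ha, Finset.sum_insert ha, hqadd, ih]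
  -- t is positive
  have htpos : 0 < t := by
    rcases ht.lt_or_eq with h | h
    · exact h
    · exfalso
      have h1 := S.gm.core.XX y hy
      rw [heq, ← h] at h1
      simp [q] at h1
  -- every term is nonpositive
  have hterm : ∀ i, q (S.m.N y) (z i) ≤ 0 := by
    intro i
    rcases nset_cases2 S (hz i) with ⟨x, hx, hxe⟩ | hL
    · rw [hxe, hqsmul]
      exact mul_nonpos_of_nonneg_of_nonpos (inv_nonneg.mpr (norm_nonneg _)) (S.mp y hy x hx)
    · exact (Lam_strict2 S hL hy).2.1.le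
  have h0 : q (S.m.N y) (S.m.X y) = 0 := S.gm.core.NX y hy
  rw [heq, hqsmul, hYe, hqsum] at h0
  have hsum : ∑ i, q (S.m.N y) (w i • z i) = 0 := by
    rcases mul_eq_zero.mp h0 with h | h
    · exact absurd h htpos.ne'
    · exact h
  have hall : ∀ i ∈ Finset.univ, q (S.m.N y) (w i • z i) = 0 := by
    apply (Finset.sum_eq_zero_iff_of_nonpos _).mp hsum
    intro i _
    rw [hqsmul]
    exact mul_nonpos_of_nonneg_of_nonpos (hw i).le (hterm i)
  have hi0 := hall ⟨0, hn⟩ (Finset.mem_univ _)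
  rw [hqsmul] at hi0
  have hz0 : q (S.m.N y) (z ⟨0, hn⟩) = 0 := by
    rcases mul_eq_zero.mp hi0 with h | h
    · exact absurd h (hw _).ne'
    · exact h
  rcases nset_cases2 S (hz ⟨0, hn⟩) with ⟨x, hx, hxe⟩ | hL
  · -- the point is on the upper surface
    have hXpx : S.p.X x ≠ 0 := by
      intro h
      have h1 := S.gp.core.XX x hx
      rw [h] at h1
      simp [q] at h1
    have hq0 : q (S.m.N y) (S.p.X x) = 0 := by
      rw [hxe, hqsmul] at hz0
      rcases mul_eq_zero.mp hz0 with h | h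
      · exact absurd h (inv_ne_zero (norm_ne_zero_iff.mpr hXpx))
      · exact h
    have hc := contactN2 S.gm.core (Z := S.p.X x) (fun x' hx' => S.mp x' hx' x hx) hy hq0
    set c : ℝ := -(q (S.m.X y) (S.p.X x)) with hcdef
    have hcc : c * c = 1 := by
      have h1 := S.gp.core.XX x hx
      rw [hc, hqsmul, hqsmul', S.gm.core.XX y hy] at h1
      linarith
    have hc1 : c = 1 := by
      rcases mul_self_eq_one_iff.mp hcc with h | h
      · exact h
      · exfalso
        have := S.lt1 y hy x hx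
        linarith
    have hXX : S.p.X x = S.m.X y := by
      rw [hc, hc1, one_smul]
    have hNN : S.m.N y = S.p.N x := by
      apply contactX2 S.gp.core (S.gm.core.NN y hy) (fun x' hx' => ?_) hx
      · rw [hqsymm]; exact hq0
      · rw [hqsymm]; exact S.mp y hy x' hx'
    exact S.ne x hx y hy hXX hNN.symm
  · exact absurd hz0 (Lam_strict2 S hL hy).2.1.ne

end A_Xm_not_hull2

alias Xm_not_hull2 := A_Xm_not_hull2.Xm_not_hull2

namespace A_exists_sep2

/- Proof:
Take y = any point of H2 (e.g. ![1,0,0]). sep with z = Xm y gives N with q Y N < 0 on nset2 S (hence q (Xp x) N < 0 for x in H2) and 0 < q (Xm y) N. By nonspacelike2 (S.gp) q N N <= 0. Let x0 in H2 and N' = N + e Xp x0 with e > 0 small: q (Xp x) N' <= 0 (S.gp.chord), q N' N' = q N N + 2 e q N (Xp x0) - e^2 < 0, and q (Xm y) N' > 0 for e small. Normalise N'.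
-/
theorem exists_sep2 (S : Setup2) : ∃ N ∈ Dual2 S, ∃ y ∈ H2, 0 < q (S.m.X y) N := by
  have q_add : ∀ A B C : V4, q A (B + C) = q A B + q A C := by
    intro A B C
    simp only [q, Pi.add_apply]
    ring
  have q_smul : ∀ (A B : V4) (c : ℝ), q A (c • B) = c * q A B := by
    intro A B c
    simp only [q, Pi.smul_apply, smul_eq_mul]
    ring
  have q_comm : ∀ A B : V4, q A B = q B A := by
    intro A B
    simp only [q]
    ring
  have hy : (![1, 0, 0] : V3) ∈ H2 := by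
    refine ⟨?_, ?_⟩
    · simp [eta]
    · simp
  obtain ⟨y, hy⟩ : ∃ y, y ∈ H2 := ⟨_, hy⟩
  have hz0 : S.m.X y ≠ 0 := by
    intro h0
    have h1 := S.gm.core.XX y hy
    rw [h0] at h1
    simp [q] at h1
  obtain ⟨N, hN1, hN2⟩ := sep (nset_cpt2 S).1 (nset_cpt2 S).2 (zero_notin2 S) hz0
    (fun t ht Y hY => Xm_not_hull2 S hy ht hY)
  have hneg : ∀ x ∈ H2, q (S.p.X x) N < 0 := by
    intro x hx
    have hmem : ‖S.p.X x‖⁻¹ • S.p.X x ∈ nset2 S := subset_closure ⟨x, hx, rfl⟩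
    have h1 := hN1 _ hmem
    rw [q_comm, q_smul, q_comm N] at h1
    by_contra hcon
    push Not at hcon
    have h2 : 0 ≤ ‖S.p.X x‖⁻¹ * q (S.p.X x) N := mul_nonneg (by positivity) hcon
    linarith
  have hNN : q N N ≤ 0 := nonspacelike2 S.gp (fun x hx => (hneg x hx).le)
  set g := q (S.m.X y) N with hg
  set c := q (S.m.X y) (S.p.X y) with hc
  obtain ⟨e, he, hec⟩ : ∃ e : ℝ, 0 < e ∧ 0 < g + e * c := by
    refine ⟨g / (2 * (|c| + 1)), by positivity, ?_⟩
    have h1 : 0 < 2 * (|c| + 1) := by positivity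
    have h2 : -(|c|) ≤ c := neg_abs_le c
    have h3 : g / (2 * (|c| + 1)) * (|c| + 1) = g / 2 := by
      field_simp
    have h4 : 0 < g / (2 * (|c| + 1)) := by positivity
    nlinarith
  have hN'1 : ∀ x ∈ H2, q (S.p.X x) (N + e • S.p.X y) ≤ 0 := by
    intro x hx
    rw [q_add, q_smul]
    have h1 := hneg x hx
    have h2 := S.gp.chord x hx y hy
    nlinarith
  have hN'2 : q (N + e • S.p.X y) (N + e • S.p.X y) < 0 := by
    rw [q_add, q_smul, q_comm _ N, q_comm _ (S.p.X y), q_add, q_add, q_smul, q_smul,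
      q_comm N (S.p.X y), S.gp.core.XX y hy]
    have h1 := hneg y hy
    nlinarith
  have hN'3 : 0 < q (S.m.X y) (N + e • S.p.X y) := by
    rw [q_add, q_smul]
    exact hec
  set M := N + e • S.p.X y with hM
  set s := Real.sqrt (-(q M M)) with hs
  have hs0 : 0 < s := Real.sqrt_pos.mpr (by linarith)
  have hs2 : s * s = -(q M M) := Real.mul_self_sqrt (by linarith)
  refine ⟨s⁻¹ • M, ⟨?_, ?_⟩, y, hy, ?_⟩
  · rw [q_smul, q_comm _ M, q_smul]
    have h1 : q M M = -(s * s) := by linarith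
    rw [h1]
    field_simp
  · intro x hx
    rw [q_smul]
    exact mul_nonpos_of_nonneg_of_nonpos (by positivity) (hN'1 x hx)
  · rw [q_smul]
    positivity

end A_exists_sep2

alias exists_sep2 := A_exists_sep2.exists_sep2

namespace A_Dual_cpt2

open Filter Topology in
theorem Dual_cpt2_aux (S : Setup2) (C : ℝ) (X : V3 → V4) (hXc : ContinuousOn X S.F)
    (hstrict : ∀ ξ ∈ Lam2 S, ∀ y ∈ S.F, q (X y) ξ < 0) :
    IsCompact {p : V4 × V3 | p.1 ∈ Dual2 S ∧ p.2 ∈ S.F ∧ -C ≤ q (X p.2) p.1} := by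
  have hFcl : IsClosed S.F := S.F_cpt.isClosed
  have hqs : ∀ (t : ℝ) (Y Z : V4), q Y (t • Z) = t * q Y Z := by
    intro t Y Z
    simp only [q, Pi.smul_apply, smul_eq_mul]
    ring
  have hqss : ∀ (t : ℝ) (Z : V4), q (t • Z) (t • Z) = t ^ 2 * q Z Z := by
    intro t Z
    simp only [q, Pi.smul_apply, smul_eq_mul]
    ring
  apply Metric.isCompact_of_isClosed_isBounded
  · apply IsSeqClosed.isClosed
    intro u p hu hup
    have h1 : Tendsto (fun k => (u k).1) atTop (𝓝 p.1) := (continuous_fst.tendsto p).comp hup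
    have h2 : Tendsto (fun k => (u k).2) atTop (𝓝 p.2) := (continuous_snd.tendsto p).comp hup
    have hpF : p.2 ∈ S.F := hFcl.mem_of_tendsto h2 (Eventually.of_forall (fun k => (hu k).2.1))
    have hX : Tendsto (fun k => X (u k).2) atTop (𝓝 (X p.2)) :=
      (hXc p.2 hpF).tendsto.comp
        (tendsto_nhdsWithin_iff.mpr ⟨h2, Eventually.of_forall (fun k => (hu k).2.1)⟩)
    refine ⟨⟨?_, ?_⟩, hpF, ?_⟩
    · have h := (q_cont.tendsto (p.1, p.1)).comp (h1.prodMk_nhds h1)
      exact tendsto_nhds_unique h (tendsto_const_nhds.congr fun k => ((hu k).1.1).symm)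
    · intro x hx
      have h := (q_cont.tendsto (S.p.X x, p.1)).comp
        ((tendsto_const_nhds (x := S.p.X x)).prodMk_nhds h1)
      exact le_of_tendsto' h (fun k => (hu k).1.2 x hx)
    · have h := (q_cont.tendsto (X p.2, p.1)).comp (hX.prodMk_nhds h1)
      exact ge_of_tendsto' h (fun k => (hu k).2.2)
  · have hbd : ∃ R : ℝ, ∀ p ∈ {p : V4 × V3 | p.1 ∈ Dual2 S ∧ p.2 ∈ S.F ∧ -C ≤ q (X p.2) p.1},
        ‖p.1‖ ≤ R := by
      by_contra hcon
      push Not at hcon
      choose u hu hul using fun k : ℕ => hcon (k : ℝ)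
      have hpos : ∀ k, 0 < ‖(u k).1‖ := fun k => lt_of_le_of_lt (Nat.cast_nonneg k) (hul k)
      have hK : IsCompact (Metric.sphere (0 : V4) 1 ×ˢ S.F) :=
        (isCompact_sphere _ _).prod S.F_cpt
      have hv : ∀ k, ((‖(u k).1‖⁻¹ • (u k).1, (u k).2) : V4 × V3) ∈
          Metric.sphere (0 : V4) 1 ×ˢ S.F := by
        intro k
        refine ⟨?_, (hu k).2.1⟩
        simp only [mem_sphere_iff_norm, sub_zero, norm_smul, norm_inv, norm_norm]
        exact inv_mul_cancel₀ (hpos k).ne'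
      obtain ⟨p, hp, φ, hφ, hlim⟩ := hK.tendsto_subseq hv
      have h1 : Tendsto (fun k => ‖(u (φ k)).1‖⁻¹ • (u (φ k)).1) atTop (𝓝 p.1) :=
        (continuous_fst.tendsto p).comp hlim
      have h2 : Tendsto (fun k => (u (φ k)).2) atTop (𝓝 p.2) := by
        have h := (continuous_snd.tendsto p).comp hlim
        exact h
      have hX : Tendsto (fun k => X (u (φ k)).2) atTop (𝓝 (X p.2)) :=
        (hXc p.2 hp.2).tendsto.comp
          (tendsto_nhdsWithin_iff.mpr ⟨h2, Eventually.of_forall (fun k => (hu (φ k)).2.1)⟩)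
      have hinf : Tendsto (fun k => ‖(u (φ k)).1‖) atTop atTop := by
        refine tendsto_atTop_mono (fun k => (hul (φ k)).le) ?_
        exact tendsto_natCast_atTop_atTop.comp hφ.tendsto_atTop
      have hinv : Tendsto (fun k => ‖(u (φ k)).1‖⁻¹) atTop (𝓝 0) :=
        tendsto_inv_atTop_zero.comp hinf
      have hne : p.1 ≠ 0 := by
        intro h0
        have hh := hp.1
        rw [h0] at hh
        simp at hh
      have hqq : q p.1 p.1 = 0 := by
        have h := (q_cont.tendsto (p.1, p.1)).comp (h1.prodMk_nhds h1)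
        have h' : Tendsto (fun k => (‖(u (φ k)).1‖⁻¹) ^ 2 * (-1 : ℝ)) atTop
            (𝓝 ((0 : ℝ) ^ 2 * (-1))) := (hinv.pow 2).mul_const _
        have h'' : Tendsto (fun k => (‖(u (φ k)).1‖⁻¹) ^ 2 * (-1 : ℝ)) atTop
            (𝓝 (q p.1 p.1)) := by
          refine h.congr fun k => ?_
          simp only [Function.comp]
          rw [hqss, (hu (φ k)).1.1]
        have := tendsto_nhds_unique h'' h'
        rw [this]; ring
      have hle : ∀ x ∈ H2, q (S.p.X x) p.1 ≤ 0 := by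
        intro x hx
        have h := (q_cont.tendsto (S.p.X x, p.1)).comp
          ((tendsto_const_nhds (x := S.p.X x)).prodMk_nhds h1)
        refine le_of_tendsto' h (fun k => ?_)
        simp only [Function.comp]
        rw [hqs]
        exact mul_nonpos_of_nonneg_of_nonpos (inv_nonneg.mpr (norm_nonneg _))
          ((hu (φ k)).1.2 x hx)
      have hmem : p.1 ∈ Lam2 S := null_mem2 S hne hqq hle
      have hlt := hstrict p.1 hmem p.2 hp.2
      have hge : 0 ≤ q (X p.2) p.1 := by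
        have h := (q_cont.tendsto (X p.2, p.1)).comp (hX.prodMk_nhds h1)
        have h' : Tendsto (fun k => (‖(u (φ k)).1‖⁻¹) * (-C)) atTop (𝓝 (0 * (-C))) :=
          hinv.mul_const _
        rw [zero_mul] at h'
        refine le_of_tendsto_of_tendsto' h' h (fun k => ?_)
        simp only [Function.comp]
        rw [hqs]
        exact mul_le_mul_of_nonneg_left (hu (φ k)).2.2 (inv_nonneg.mpr (norm_nonneg _))
      exact absurd hlt (not_lt.mpr hge)
    obtain ⟨R, hR⟩ := hbd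
    have hsub : {p : V4 × V3 | p.1 ∈ Dual2 S ∧ p.2 ∈ S.F ∧ -C ≤ q (X p.2) p.1} ⊆
        Metric.closedBall (0 : V4) R ×ˢ S.F := by
      intro p hp
      refine ⟨?_, hp.2.1⟩
      simpa using hR p hp
    exact ((Metric.isBounded_closedBall).prod S.F_cpt.isBounded).subset hsub


theorem Dual_cpt2 (S : Setup2) (C : ℝ) :
    IsCompact {p : V4 × V3 | p.1 ∈ Dual2 S ∧ p.2 ∈ S.F ∧ -C ≤ q (S.m.X p.2) p.1} ∧
    IsCompact {p : V4 × V3 | p.1 ∈ Dual2 S ∧ p.2 ∈ S.F ∧ -C ≤ q (S.p.X p.2) p.1} := by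
  refine ⟨Dual_cpt2_aux S C S.m.X (S.gm.core.contX.mono S.F_sub) ?_,
    Dual_cpt2_aux S C S.p.X (S.gp.core.contX.mono S.F_sub) ?_⟩
  · intro ξ hξ y hy
    exact (Lam_strict2 S hξ (S.F_sub hy)).1
  · intro ξ hξ y hy
    exact (Lam_strict2 S hξ (S.F_sub hy)).2.2.1

end A_Dual_cpt2

alias Dual_cpt2 := A_Dual_cpt2.Dual_cpt2

namespace A_exists_max2

/- Proof:
The set {(N,y) : N in Dual2, y in F, 0 <= q (Xm y) N} is compact (Dual_cpt2 with C = 0) and nonempty (exists_sep2, translate by g in G with g.1 y in F, Dual_G2, G_Xm, G_q); maximise the continuous function q (Xm y) N on it (S.gm.core.contX). Any (N',y') with y' in H2 is translated into F, so the max is global.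
-/
theorem exists_max2 (S : Setup2) : ∃ N ∈ Dual2 S, ∃ y ∈ H2, 0 < q (S.m.X y) N ∧
    ∀ N' ∈ Dual2 S, ∀ y' ∈ H2, q (S.m.X y') N' ≤ q (S.m.X y) N := by
  have hcpt := (Dual_cpt2 S 0).1
  set K0 : Set (V4 × V3) := {p : V4 × V3 | p.1 ∈ Dual2 S ∧ p.2 ∈ S.F ∧ -0 ≤ q (S.m.X p.2) p.1}
    with hK0
  have htr : ∀ N' ∈ Dual2 S, ∀ y' ∈ H2, ∃ N1 ∈ Dual2 S, ∃ y1 ∈ S.F,
      q (S.m.X y1) N1 = q (S.m.X y') N' := by
    intro N' hN' y' hy'
    obtain ⟨g, hg, hgF⟩ := S.F_cov y' hy'
    refine ⟨g.2 N', Dual_G2 S hN' hg, g.1 y', hgF, ?_⟩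
    rw [S.G_Xm g hg y' hy', S.G_q g hg]
  obtain ⟨N0, hN0, y0, hy0, hpos⟩ := exists_sep2 S
  obtain ⟨N1, hN1, y1, hy1, he1⟩ := htr N0 hN0 y0 hy0
  have hne : K0.Nonempty := ⟨(N1, y1), hN1, hy1, by
    change -0 ≤ q (S.m.X y1) N1
    rw [he1, neg_zero]
    exact hpos.le⟩
  have hX : ContinuousOn (fun p : V4 × V3 => S.m.X p.2) K0 :=
    S.gm.core.contX.comp continuous_snd.continuousOn fun p hp => S.F_sub hp.2.1
  have hc : ∀ i, ContinuousOn (fun p : V4 × V3 => S.m.X p.2 i) K0 := fun i =>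
    (continuous_apply i).comp_continuousOn hX
  have hd : ∀ i, ContinuousOn (fun p : V4 × V3 => p.1 i) K0 := fun i =>
    ((continuous_apply i).comp continuous_fst).continuousOn
  have hcont : ContinuousOn (fun p : V4 × V3 => q (S.m.X p.2) p.1) K0 := by
    unfold q
    exact (((((hc 0).mul (hd 0)).neg).add ((hc 1).mul (hd 1))).add ((hc 2).mul (hd 2))).sub
      ((hc 3).mul (hd 3))
  obtain ⟨p, hp, hmax⟩ := hcpt.exists_isMaxOn hne hcont
  have hmax' : ∀ r ∈ K0, q (S.m.X r.2) r.1 ≤ q (S.m.X p.2) p.1 := fun r hr => hmax hr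
  have hpos' : 0 < q (S.m.X p.2) p.1 := by
    have := hmax' (N1, y1) ⟨hN1, hy1, by
      change -0 ≤ q (S.m.X y1) N1
      rw [he1, neg_zero]
      exact hpos.le⟩
    change q (S.m.X y1) N1 ≤ _ at this
    rw [he1] at this
    linarith
  refine ⟨p.1, hp.1, p.2, S.F_sub hp.2.1, hpos', ?_⟩
  intro N' hN' y' hy'
  by_cases h : 0 ≤ q (S.m.X y') N'
  · obtain ⟨N2, hN2, y2, hy2, he2⟩ := htr N' hN' y' hy'
    have := hmax' (N2, y2) ⟨hN2, hy2, by
      change -0 ≤ q (S.m.X y2) N2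
      rw [he2, neg_zero]
      exact h⟩
    change q (S.m.X y2) N2 ≤ _ at this
    rw [he2] at this
    exact this
  · push Not at h
    linarith

end A_exists_max2

alias exists_max2 := A_exists_max2.exists_max2

namespace A_heights

/- Proof:
q (emb x t)(emb y s) = eta x y - t s, q (emb x t) EE = -t. From X0m: q (m0.X x) EE = sm x; -1 = q (m0.X x)(m0.X x) = -(cm x)^2 - (sm x)^2 (eta x x = -1). Same for p0: q (p0.X x) EE = -sp x. Continuity: sm x = q (m0.X x) EE is continuous on H2 (contX); cm = sqrt(1 - sm^2). F is compact and sm, cm, sp, cp > 0 are continuous on F, so bounded below by a constant s1 > 0 on F, hence on H2 by F_cov, G_sm, G_cm, G_sp, G_cp.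
-/
theorem heights (S : Setup2) :
    (∀ x ∈ H2, q (S.m0.X x) EE = S.sm x ∧ q (S.p0.X x) EE = -S.sp x ∧
      S.cm x ^ 2 + S.sm x ^ 2 = 1 ∧ S.cp x ^ 2 + S.sp x ^ 2 = 1) ∧
    (ContinuousOn S.sm H2 ∧ ContinuousOn S.sp H2 ∧ ContinuousOn S.cm H2 ∧ ContinuousOn S.cp H2) ∧
    ∃ s₁ : ℝ, 0 < s₁ ∧ ∀ x ∈ H2, s₁ ≤ S.sm x ∧ s₁ ≤ S.sp x ∧ s₁ ≤ S.cm x ∧ s₁ ≤ S.cp x := by
  have hq : ∀ (x : V3) (t : ℝ), q (emb x t) EE = -t := by
    intro x t
    simp [q, emb, EE]
  have hqq : ∀ (x : V3) (t : ℝ), q (emb x t) (emb x t) = eta x x - t * t := by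
    intro x t
    simp [q, emb, eta]
  have heta : ∀ (x : V3) (c : ℝ), eta (c • x) (c • x) = c ^ 2 * eta x x := by
    intro x c
    simp only [eta, Pi.smul_apply, smul_eq_mul]
    ring
  have h1 : ∀ x ∈ H2, q (S.m0.X x) EE = S.sm x ∧ q (S.p0.X x) EE = -S.sp x ∧
      S.cm x ^ 2 + S.sm x ^ 2 = 1 ∧ S.cp x ^ 2 + S.sp x ^ 2 = 1 := by
    intro x hx
    refine ⟨?_, ?_, ?_, ?_⟩
    · rw [S.X0m x hx, hq]; ring
    · rw [S.X0p x hx, hq]
    · have h := S.gm0.core.XX x hx
      rw [S.X0m x hx, hqq, heta, hx.1] at h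
      linarith
    · have h := S.gp0.core.XX x hx
      rw [S.X0p x hx, hqq, heta, hx.1] at h
      linarith
  have qc : ∀ f : V3 → V4, ContinuousOn f H2 → ContinuousOn (fun x => q (f x) EE) H2 := by
    intro f hf
    have h3 : ∀ i, ContinuousOn (fun x => f x i) H2 := fun i => (continuous_apply i).comp_continuousOn hf
    simp only [q]
    exact ((((h3 0).mul continuousOn_const).neg.add ((h3 1).mul continuousOn_const)).add
      ((h3 2).mul continuousOn_const)).sub ((h3 3).mul continuousOn_const)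
  have csm : ContinuousOn S.sm H2 :=
    (qc _ S.gm0.core.contX).congr (fun x hx => ((h1 x hx).1).symm)
  have csp : ContinuousOn S.sp H2 :=
    (qc _ S.gp0.core.contX).neg.congr (fun x hx => by
      have := (h1 x hx).2.1
      show S.sp x = -(q (S.p0.X x) EE)
      rw [this, neg_neg])
  have ccm : ContinuousOn S.cm H2 := by
    have h2 : ContinuousOn (fun x => Real.sqrt (1 - S.sm x ^ 2)) H2 :=
      (continuousOn_const.sub (csm.pow 2)).sqrt
    refine h2.congr (fun x hx => ?_)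
    have h3 := (h1 x hx).2.2.1
    have h4 := S.cm_pos x hx
    show S.cm x = Real.sqrt (1 - S.sm x ^ 2)
    rw [show 1 - S.sm x ^ 2 = S.cm x ^ 2 by linarith, Real.sqrt_sq h4.le]
  have ccp : ContinuousOn S.cp H2 := by
    have h2 : ContinuousOn (fun x => Real.sqrt (1 - S.sp x ^ 2)) H2 :=
      (continuousOn_const.sub (csp.pow 2)).sqrt
    refine h2.congr (fun x hx => ?_)
    have h3 := (h1 x hx).2.2.2
    have h4 := S.cp_pos x hx
    show S.cp x = Real.sqrt (1 - S.sp x ^ 2)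
    rw [show 1 - S.sp x ^ 2 = S.cp x ^ 2 by linarith, Real.sqrt_sq h4.le]
  refine ⟨h1, ⟨csm, csp, ccm, ccp⟩, ?_⟩
  have low : ∀ f : V3 → ℝ, ContinuousOn f H2 → (∀ x ∈ H2, 0 < f x) →
      (∀ g ∈ S.G, ∀ x ∈ H2, f (g.1 x) = f x) → ∃ s : ℝ, 0 < s ∧ ∀ x ∈ H2, s ≤ f x := by
    intro f hf hpos hinv
    rcases S.F.eq_empty_or_nonempty with he | hne
    · refine ⟨1, one_pos, fun x hx => ?_⟩
      obtain ⟨g, _, hgF⟩ := S.F_cov x hx
      rw [he] at hgF
      exact absurd hgF (Set.notMem_empty _)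
    · obtain ⟨x₀, hx₀, hmin⟩ := S.F_cpt.exists_isMinOn hne (hf.mono S.F_sub)
      refine ⟨f x₀, hpos _ (S.F_sub hx₀), fun x hx => ?_⟩
      obtain ⟨g, hg, hgF⟩ := S.F_cov x hx
      rw [← hinv g hg x hx]
      exact hmin hgF
  obtain ⟨a, ha, ha'⟩ := low S.sm csm S.sm_pos S.G_sm
  obtain ⟨b, hb, hb'⟩ := low S.sp csp S.sp_pos S.G_sp
  obtain ⟨c, hc, hc'⟩ := low S.cm ccm S.cm_pos S.G_cm
  obtain ⟨d, hd, hd'⟩ := low S.cp ccp S.cp_pos S.G_cp
  refine ⟨min (min a b) (min c d), by positivity, fun x hx => ⟨?_, ?_, ?_, ?_⟩⟩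
  · exact (min_le_left _ _).trans ((min_le_left _ _).trans (ha' x hx))
  · exact (min_le_left _ _).trans ((min_le_right _ _).trans (hb' x hx))
  · exact (min_le_right _ _).trans ((min_le_left _ _).trans (hc' x hx))
  · exact (min_le_right _ _).trans ((min_le_right _ _).trans (hd' x hx))

end A_heights

alias heights := A_heights.heights

end Helper935.AdS
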