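import Pool.Agent.Helper935_AdS.Disc
import Pool.Agent.Helper935_AdS.LamA

namespace Helper935.AdS

namespace A_tay

theorem q_emb_tay (a b : V3) (t s : ℝ) : q (emb a t) (emb b s) = eta a b - t * s := by
  simp only [q, emb, eta, Matrix.cons_val_zero, Matrix.cons_val_one, Matrix.cons_val]

theorem eta_smul_tay (a b : V3) (t s : ℝ) : eta (t • a) (s • b) = t * s * eta a b := by
  simp only [eta, Pi.smul_apply, smul_eq_mul]
  ring

theorem geo_map_tay (f : V3 ≃ₗ[ℝ] V3) (x v : V3) (d : ℝ) : geo (f x) (f v) d = f (geo x v d) := by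
  unfold geo
  rw [map_add, map_smul, map_smul]

theorem tay (S : Setup2) {ε : ℝ} (hε : 0 < ε) :
    ∃ δ : ℝ, 0 < δ ∧ ∀ x ∈ H2, ∀ v, UT x v → ∀ d : ℝ, 0 ≤ d → d ≤ δ →
      |q (S.m.X x) (S.m.X (geo x v d)) - q (S.m0.X x) (S.m0.X (geo x v d))| ≤ ε * d ^ 2 ∧
      |q (S.p.X x) (S.p.X (geo x v d)) - q (S.p0.X x) (S.p0.X (geo x v d))| ≤ ε * d ^ 2 := by
  obtain ⟨δ₁, h1, H1⟩ := tay1 S.gm.core S.gm0.core S.iso_m S.F_sub S.F_cpt hε
  obtain ⟨δ₂, h2, H2'⟩ := tay1 S.gp.core S.gp0.core S.iso_p S.F_sub S.F_cpt hε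
  refine ⟨min δ₁ δ₂, lt_min h1 h2, ?_⟩
  intro x hx v hv d hd0 hd
  obtain ⟨g, hg, hgF⟩ := S.F_cov x hx
  have hUT : UT (g.1 x) (g.1 v) := by
    refine ⟨?_, ?_⟩
    · rw [S.G_eta g hg]
      exact hv.1
    · rw [S.G_eta g hg]
      exact hv.2
  have hy : geo x v d ∈ H2 := geo_mem hx hv d
  have k1 := H1 (g.1 x) hgF (g.1 v) hUT d hd0 (hd.trans (min_le_left _ _))
  have k2 := H2' (g.1 x) hgF (g.1 v) hUT d hd0 (hd.trans (min_le_right _ _))
  rw [geo_map_tay] at k1 k2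
  have hgx := S.G_H2 g hg x hx
  have hgy := S.G_H2 g hg _ hy
  have e1 : q (S.m.X (g.1 x)) (S.m.X (g.1 (geo x v d))) = q (S.m.X x) (S.m.X (geo x v d)) := by
    rw [S.G_Xm g hg x hx, S.G_Xm g hg _ hy, S.G_q g hg]
  have e2 : q (S.p.X (g.1 x)) (S.p.X (g.1 (geo x v d))) = q (S.p.X x) (S.p.X (geo x v d)) := by
    rw [S.G_Xp g hg x hx, S.G_Xp g hg _ hy, S.G_q g hg]
  have e3 : q (S.m0.X (g.1 x)) (S.m0.X (g.1 (geo x v d))) =
      q (S.m0.X x) (S.m0.X (geo x v d)) := by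
    rw [S.X0m _ hgx, S.X0m _ hgy, S.X0m _ hx, S.X0m _ hy, q_emb_tay, q_emb_tay, eta_smul_tay,
      eta_smul_tay, S.G_eta g hg, S.G_cm g hg x hx, S.G_cm g hg _ hy, S.G_sm g hg x hx,
      S.G_sm g hg _ hy]
  have e4 : q (S.p0.X (g.1 x)) (S.p0.X (g.1 (geo x v d))) =
      q (S.p0.X x) (S.p0.X (geo x v d)) := by
    rw [S.X0p _ hgx, S.X0p _ hgy, S.X0p _ hx, S.X0p _ hy, q_emb_tay, q_emb_tay, eta_smul_tay,
      eta_smul_tay, S.G_eta g hg, S.G_cp g hg x hx, S.G_cp g hg _ hy, S.G_sp g hg x hx,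
      S.G_sp g hg _ hy]
  rw [e1, e3] at k1
  rw [e2, e4] at k2
  exact ⟨k1, k2⟩

end A_tay

alias tay := A_tay.tay

namespace A_we_comp

/- Proof:
Let c = S.c, eps = eta c^2/2, delta0 from tay for this eps. Choose delta > 0 with: cosh r <= 1 + delta, r >= 0 imply r <= c delta0 (e.g. delta = (c delta0)^2/2, as cosh r >= 1 + r^2/2). First claim: x,y in H2, y = geo x v d (exists_geo), cosh d = -eta x y (eta_geo). WE m0 <= delta gives cosh (c d) - 1 <= -q (m0.X x)(m0.X y) - 1 <= WE m0 <= delta (chord2 for S.gm0, we_basic), so d <= delta0. WE m - WE m0 = cosh t cosh s (q (m0.X x)(m0.X y) - q (m.X x)(m.X y)) <= cosh t cosh s eps d^2 (tay) and eps d^2 = eta c^2 d^2/2 <= eta (cosh(c d) - 1) <= eta (-q (m0.X x)(m0.X y) - 1). So WE m - WE m0 <= eta cosh t cosh s (-q (m0.X x)(m0.X y) - 1) <= eta WE m0 (we_basic). The second claim is the same with p in the role of m0 and p0 in the role of m (chord2 for S.gp).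
-/
theorem we_comp (S : Setup2) {η : ℝ} (hη : 0 < η) : ∃ δ : ℝ, 0 < δ ∧ ∀ x ∈ H2, ∀ y ∈ H2, ∀ t s : ℝ,
    (WE S.m0 x t y s ≤ δ → WE S.m x t y s ≤ (1 + η) * WE S.m0 x t y s) ∧
    (WE S.p x t y s ≤ δ → WE S.p0 x t y s ≤ (1 + η) * WE S.p x t y s) := by
  have hc : 0 < S.c := S.gm0.c_pos
  obtain ⟨δ0, hδ0, htay⟩ := tay S (ε := η * S.c ^ 2 / 2) (by positivity)
  refine ⟨(S.c * δ0) ^ 2 / 2, by positivity, ?_⟩
  intro x hx y hy t s
  obtain ⟨d, v, hd, hv, hgeo⟩ := exists_geo hx hy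
  have hxy : -eta x y = Real.cosh d := by
    rw [← hgeo, eta_geo hx hv d, neg_neg]
  have hcosh : ∀ r : ℝ, 0 ≤ r → 1 + r ^ 2 / 2 ≤ Real.cosh r := by
    intro r hr
    have h1 : Real.cosh r = 1 + 2 * Real.sinh (r / 2) ^ 2 := by
      have h2 := Real.cosh_two_mul (r / 2)
      have h3 := Real.cosh_sq (r / 2)
      rw [show 2 * (r / 2) = r by ring] at h2
      rw [h2, h3]; ring
    have h4 : r / 2 ≤ Real.sinh (r / 2) := Real.self_le_sinh_iff.2 (by linarith)
    rw [h1]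
    nlinarith
  have key : ∀ S1 : Sf, Good S1 S.c → WE S1 x t y s ≤ (S.c * δ0) ^ 2 / 2 →
      d ≤ δ0 ∧ η * S.c ^ 2 / 2 * d ^ 2 ≤ η * (-q (S1.X x) (S1.X y) - 1) := by
    intro S1 h1 hW
    have h2 := chord2 h1 hx hy hd hxy
    have h3 := (we_basic h1 hx hy t s).2.1
    have h4 := hcosh (S.c * d) (by positivity)
    constructor
    · have h5 : (S.c * d) ^ 2 ≤ (S.c * δ0) ^ 2 := by linarith
      have h6 : S.c * d ≤ S.c * δ0 := by
        exact le_of_abs_le (abs_le_of_sq_le_sq h5 (by positivity))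
      exact le_of_mul_le_mul_left h6 hc
    · have h5 : S.c ^ 2 * d ^ 2 / 2 ≤ -q (S1.X x) (S1.X y) - 1 := by
        have : (S.c * d) ^ 2 = S.c ^ 2 * d ^ 2 := by ring
        rw [this] at h4
        linarith
      have h6 := mul_le_mul_of_nonneg_left h5 hη.le
      linarith
  have fin : ∀ S1 S2 : Sf, Good S1 S.c → WE S1 x t y s ≤ (S.c * δ0) ^ 2 / 2 →
      (d ≤ δ0 → |q (S2.X x) (S2.X y) - q (S1.X x) (S1.X y)| ≤ η * S.c ^ 2 / 2 * d ^ 2) →
      WE S2 x t y s ≤ (1 + η) * WE S1 x t y s := by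
    intro S1 S2 h1 hW hq
    obtain ⟨h2, h3⟩ := key S1 h1 hW
    have h4 := (abs_le.1 (hq h2)).1
    have h5 := (we_basic h1 hx hy t s).1
    have hcc : 0 < Real.cosh t * Real.cosh s := mul_pos (Real.cosh_pos t) (Real.cosh_pos s)
    have h6 : WE S2 x t y s = WE S1 x t y s +
        Real.cosh t * Real.cosh s * (q (S1.X x) (S1.X y) - q (S2.X x) (S2.X y)) := by
      unfold WE; ring
    have h7 : q (S1.X x) (S1.X y) - q (S2.X x) (S2.X y) ≤ η * (-q (S1.X x) (S1.X y) - 1) := by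
      linarith
    have h8 := mul_le_mul_of_nonneg_left h7 hcc.le
    have h9 := mul_le_mul_of_nonneg_left h5 hη.le
    have h10 : Real.cosh t * Real.cosh s * (η * (-q (S1.X x) (S1.X y) - 1)) =
        η * (Real.cosh t * Real.cosh s * (-q (S1.X x) (S1.X y) - 1)) := by ring
    rw [h6]
    linarith
  constructor
  · intro hW
    refine fin S.m0 S.m S.gm0 hW fun h => ?_
    have := (htay x hx v hv d hd h).1
    rw [hgeo] at this
    exact this
  · intro hW
    refine fin S.p S.p0 S.gp hW fun h => ?_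
    have := (htay x hx v hv d hd h).2
    rw [hgeo] at this
    rw [abs_sub_comm]
    exact this

end A_we_comp

alias we_comp := A_we_comp.we_comp

namespace A_cosh_small

/- Proof:
2(cosh y - 1)/y^2 -> 1 as y -> 0; e.g. 2(cosh y - 1) = 4 sinh(y/2)^2 and sinh(u) <= u cosh u, cosh continuous at 0.
-/
theorem cosh_small {η : ℝ} (hη : 0 < η) : ∃ δ : ℝ, 0 < δ ∧ δ ≤ 1 ∧ ∀ y : ℝ, 0 ≤ y → y ≤ δ →
    Real.sqrt (2 * (Real.cosh y - 1)) ≤ (1 + η) * y := by
  have hc : Filter.Tendsto Real.cosh (nhds 0) (nhds (Real.cosh 0)) := Real.continuous_cosh.continuousAt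
  rw [Real.cosh_zero] at hc
  have he : ∀ᶠ y in nhds (0 : ℝ), Real.cosh y < 1 + η := hc.eventually_lt_const (by linarith)
  obtain ⟨ε, hε, hball⟩ := Metric.eventually_nhds_iff.1 he
  refine ⟨min (ε / 2) 1, lt_min (by linarith) one_pos, min_le_right _ _, ?_⟩
  intro y hy0 hy1
  have hyε : y ≤ ε / 2 := hy1.trans (min_le_left _ _)
  have hcosh : Real.cosh (y / 2) < 1 + η := by
    apply hball
    rw [Real.dist_eq, sub_zero, abs_of_nonneg (by linarith)]
    linarith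
  have h1 : 2 * (Real.cosh y - 1) = (2 * Real.sinh (y / 2)) ^ 2 := by
    have h := Real.cosh_two_mul (y / 2)
    have h2 := Real.cosh_sq (y / 2)
    rw [show 2 * (y / 2) = y by ring] at h
    rw [h, h2]
    ring
  have hs0 : 0 ≤ Real.sinh (y / 2) := Real.sinh_nonneg_iff.2 (by linarith)
  rw [h1, Real.sqrt_sq (by linarith)]
  have hle : Real.sinh (y / 2) ≤ (y / 2) * Real.cosh (y / 2) := by
    have hmono : MonotoneOn (fun u : ℝ => u * Real.cosh u - Real.sinh u) (Set.Ici 0) := by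
      apply monotoneOn_of_deriv_nonneg (convex_Ici 0)
      · exact ((continuous_id.mul Real.continuous_cosh).sub Real.continuous_sinh).continuousOn
      · intro u _
        exact ((differentiableAt_id.mul Real.differentiable_cosh.differentiableAt).sub
          Real.differentiable_sinh.differentiableAt).differentiableWithinAt
      · intro u hu
        rw [interior_Ici] at hu
        have hd : HasDerivAt (fun u : ℝ => u * Real.cosh u - Real.sinh u)
            (1 * Real.cosh u + u * Real.sinh u - Real.cosh u) u :=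
          ((hasDerivAt_id u).mul (Real.hasDerivAt_cosh u)).sub (Real.hasDerivAt_sinh u)
        rw [hd.deriv]
        have hu0 : 0 < u := hu
        have := Real.sinh_pos_iff.2 hu0
        nlinarith [mul_pos hu0 this]
    have h2 := hmono (Set.mem_Ici.2 le_rfl) (Set.mem_Ici.2 (by linarith : (0 : ℝ) ≤ y / 2))
      (by linarith)
    simp only [Real.sinh_zero, Real.cosh_zero] at h2
    linarith
  calc 2 * Real.sinh (y / 2) ≤ 2 * ((y / 2) * Real.cosh (y / 2)) := by linarith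
    _ = Real.cosh (y / 2) * y := by ring
    _ ≤ (1 + η) * y := mul_le_mul_of_nonneg_right hcosh.le hy0

end A_cosh_small

alias cosh_small := A_cosh_small.cosh_small

namespace A_level

/- Proof:
The function t -> sinh t - s cosh t at 0 is -s <= -e; let sig = arcosh(1/c) >= 0 (some sig >= 0 with cosh sig = 1/c, then sinh sig = s/c since c^2+s^2=1): there it is 0 > -e. Intermediate value theorem: t in [0, sig] with value -e. cosh t <= cosh sig = 1/c.
-/
theorem level {s c e : ℝ} (hs : 0 < s) (hc : 0 < c) (h : c ^ 2 + s ^ 2 = 1) (he : 0 < e) (hes : e ≤ s) :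
    ∃ t : ℝ, 0 ≤ t ∧ Real.sinh t = s * Real.cosh t - e ∧ Real.cosh t ≤ 1 / c := by
  obtain ⟨σ, hσ⟩ : ∃ σ, σ = Real.arsinh (s / c) := ⟨_, rfl⟩
  have h1 : Real.sinh σ = s / c := by rw [hσ, Real.sinh_arsinh]
  have h0 : 0 ≤ σ := by
    rw [← Real.sinh_nonneg_iff, h1]
    positivity
  have h2 : Real.cosh σ = 1 / c := by
    have e1 : Real.cosh σ ^ 2 = (1 / c) ^ 2 := by
      rw [Real.cosh_sq, h1]
      field_simp
      linarith
    have e2 : 0 ≤ Real.cosh σ := (Real.cosh_pos σ).le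
    have e3 : 0 ≤ 1 / c := by positivity
    rwa [sq_eq_sq₀ e2 e3] at e1
  have hcont : ContinuousOn (fun t => Real.sinh t - s * Real.cosh t) (Set.Icc 0 σ) := by
    apply Continuous.continuousOn
    fun_prop
  have hivt := intermediate_value_Icc h0 hcont
  have hmem : -e ∈ Set.Icc (Real.sinh 0 - s * Real.cosh 0) (Real.sinh σ - s * Real.cosh σ) := by
    rw [Real.sinh_zero, Real.cosh_zero, h1, h2]
    constructor
    · linarith
    · have : s / c - s * (1 / c) = 0 := by ring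
      rw [this]
      linarith
  obtain ⟨t, ht, hte⟩ := hivt hmem
  refine ⟨t, ht.1, ?_, ?_⟩
  · simp only at hte
    linarith
  · rw [← h2, Real.cosh_le_cosh, abs_of_nonneg ht.1, abs_of_nonneg h0]
    exact ht.2

end A_level

alias level := A_level.level

namespace A_m0_step

theorem m0_step (S : Setup2) {x y : V3} (hx : x ∈ H2) (hy : y ∈ H2) {t s e : ℝ}
    (ht : Real.sinh t = S.sm x * Real.cosh t - e) (hs : Real.sinh s = S.sm y * Real.cosh s - e) :
    WE S.m0 x t y s = (Real.cosh t * S.cm x) * (Real.cosh s * S.cm y) * (-eta x y)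
      - ((Real.cosh t * S.cm x) ^ 2 + (Real.cosh s * S.cm y) ^ 2) / 2 ∧
    (Real.cosh t * S.cm x) ^ 2 = 1 - 2 * e * Real.sinh t - e ^ 2 := by
  obtain ⟨hh, _, _⟩ := heights S
  have hx1 : S.cm x ^ 2 + S.sm x ^ 2 = 1 := (hh x hx).2.2.1
  have hy1 : S.cm y ^ 2 + S.sm y ^ 2 = 1 := (hh y hy).2.2.1
  have ct : Real.cosh t ^ 2 = Real.sinh t ^ 2 + 1 := Real.cosh_sq t
  have cs : Real.cosh s ^ 2 = Real.sinh s ^ 2 + 1 := Real.cosh_sq s
  have kt : (Real.cosh t * S.cm x) ^ 2 = 1 - 2 * e * Real.sinh t - e ^ 2 := by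
    have h1 : (Real.cosh t * S.cm x) ^ 2 = Real.cosh t ^ 2 * (1 - S.sm x ^ 2) := by
      rw [← hx1]; ring
    have h2 : S.sm x * Real.cosh t = Real.sinh t + e := by linarith
    have h3 : Real.cosh t ^ 2 * (1 - S.sm x ^ 2) = Real.cosh t ^ 2 - (S.sm x * Real.cosh t) ^ 2 := by
      ring
    rw [h1, h3, h2, ct]
    ring
  have ks : (Real.cosh s * S.cm y) ^ 2 = 1 - 2 * e * Real.sinh s - e ^ 2 := by
    have h1 : (Real.cosh s * S.cm y) ^ 2 = Real.cosh s ^ 2 * (1 - S.sm y ^ 2) := by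
      rw [← hy1]; ring
    have h2 : S.sm y * Real.cosh s = Real.sinh s + e := by linarith
    have h3 : Real.cosh s ^ 2 * (1 - S.sm y ^ 2) = Real.cosh s ^ 2 - (S.sm y * Real.cosh s) ^ 2 := by
      ring
    rw [h1, h3, h2, cs]
    ring
  refine ⟨?_, kt⟩
  have hq : q (S.m0.X x) (S.m0.X y) = S.cm x * S.cm y * eta x y - S.sm x * S.sm y := by
    rw [S.X0m x hx, S.X0m y hy]
    simp only [q, emb, eta, Pi.smul_apply, smul_eq_mul, Matrix.cons_val_zero, Matrix.cons_val_one,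
      Matrix.cons_val]
    ring
  have h4 : S.sm x * Real.cosh t = Real.sinh t + e := by linarith
  have h5 : S.sm y * Real.cosh s = Real.sinh s + e := by linarith
  have h6 : Real.cosh t * Real.cosh s * (S.sm x * S.sm y) = (Real.sinh t + e) * (Real.sinh s + e) := by
    rw [← h4, ← h5]; ring
  unfold WE
  rw [hq, kt, ks]
  linear_combination h6

end A_m0_step

alias m0_step := A_m0_step.m0_step

namespace A_q_busemann

/-- the orthogonal complement of two orthogonal timelike vectors is positive -/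
theorem q_busemann_nonneg {z V w : V4} (hz : q z z = -1) (hV : q V V = -1) (hzV : q z V = 0)
    (hwz : q w z = 0) (hwV : q w V = 0) : 0 ≤ q w w := by
  unfold q at hz hV hzV hwz hwV ⊢
  have hD2 : 1 ≤ (z 0 * V 3 - z 3 * V 0) ^ 2 := by
    have e : (z 0 * V 3 - z 3 * V 0) ^ 2 =
        (z 0 * z 0 + z 3 * z 3) * (V 0 * V 0 + V 3 * V 3) - (z 0 * V 0 + z 3 * V 3) ^ 2 := by ring
    have e1 : z 0 * z 0 + z 3 * z 3 = 1 + (z 1 ^ 2 + z 2 ^ 2) := by linarith
    have e2 : V 0 * V 0 + V 3 * V 3 = 1 + (V 1 ^ 2 + V 2 ^ 2) := by linarith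
    have e3 : z 0 * V 0 + z 3 * V 3 = z 1 * V 1 + z 2 * V 2 := by linarith
    rw [e, e1, e2, e3]
    nlinarith [sq_nonneg (z 1 * V 2 - z 2 * V 1), sq_nonneg (z 1), sq_nonneg (z 2),
      sq_nonneg (V 1), sq_nonneg (V 2)]
  have hD : z 0 * V 3 - z 3 * V 0 ≠ 0 := by
    intro h
    rw [h] at hD2
    norm_num at hD2
  obtain ⟨a, b, ha, hb⟩ : ∃ a b : ℝ, a * z 0 + b * V 0 = w 0 ∧ a * z 3 + b * V 3 = w 3 := by
    refine ⟨(w 0 * V 3 - w 3 * V 0) / (z 0 * V 3 - z 3 * V 0),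
      (z 0 * w 3 - z 3 * w 0) / (z 0 * V 3 - z 3 * V 0), ?_, ?_⟩
    · rw [div_mul_eq_mul_div, div_mul_eq_mul_div, ← add_div, div_eq_iff hD]
      ring
    · rw [div_mul_eq_mul_div, div_mul_eq_mul_div, ← add_div, div_eq_iff hD]
      ring
  have key : -(w 0 * w 0) + w 1 * w 1 + w 2 * w 2 - w 3 * w 3 =
      (w 1 - a * z 1 - b * V 1) ^ 2 + (w 2 - a * z 2 - b * V 2) ^ 2 + a ^ 2 + b ^ 2 := by
    have k1 : w 0 - a * z 0 - b * V 0 = 0 := by linarith
    have k2 : w 3 - a * z 3 - b * V 3 = 0 := by linarith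
    linear_combination (-(w 0 - a * z 0 - b * V 0)) * k1 - (w 3 - a * z 3 - b * V 3) * k2
      + 2 * a * hwz + 2 * b * hwV - a ^ 2 * hz - b ^ 2 * hV - 2 * a * b * hzV
  rw [key]
  positivity

theorem q_busemann_lin (x y z w : V4) (a b : ℝ) :
    q (x - a • y) (z - b • w) = q x z - b * q x w - a * q y z + a * b * q y w := by
  unfold q
  simp only [Pi.sub_apply, Pi.smul_apply, smul_eq_mul]
  ring

theorem q_busemann_symm (x y : V4) : q x y = q y x := by
  unfold q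
  ring

theorem q_busemann_lin1 (x y z : V4) (a : ℝ) : q (x - a • y) z = q x z - a * q y z := by
  unfold q
  simp only [Pi.sub_apply, Pi.smul_apply, smul_eq_mul]
  ring

/- Proof:
V^perp has signature (2,1); let A = -q z0 z1 (>= 1 as both have negative product with the null vector xi; in any case the following works). Decompose z1 = A z0 + u with u orthogonal to z0 and V, q u u = A^2 - 1 (the complement of {z0,V} is positive definite, so A^2 >= 1), xi = a z0 + p, a = -q z0 xi > 0, p orthogonal to z0, V, q p p = a^2. -q z1 xi = A a - q u p <= |A| a + sqrt(A^2-1) a. If A >= 1: <= (A + sqrt(A^2-1)) a <= e^T a as A <= cosh T. If A <= -1: -q z1 xi = A a - q u p <= A a + sqrt(A^2-1) a < 0 contradicts h1.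
-/
theorem q_busemann {V z₀ z₁ ξ : V4} (hV : q V V = -1) (h0 : q z₀ z₀ = -1) (h1 : q z₁ z₁ = -1) (hξ : q ξ ξ = 0)
    (h0V : q z₀ V = 0) (h1V : q z₁ V = 0) (hξV : q ξ V = 0) (h0ξ : q z₀ ξ < 0) (h1ξ : q z₁ ξ < 0)
    {T : ℝ} (hT : 0 ≤ T) (hTT : -q z₀ z₁ ≤ Real.cosh T) : -q z₁ ξ ≤ Real.exp T * -q z₀ ξ := by
  set A : ℝ := -q z₀ z₁ with hA
  set a : ℝ := -q z₀ ξ with ha
  have ha0 : 0 < a := by linarith
  have hz01 : q z₀ z₁ = -A := by rw [hA]; ring
  have hz0ξ : q z₀ ξ = -a := by rw [ha]; ring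
  have hz10 : q z₁ z₀ = -A := by rw [q_busemann_symm, hz01]
  have hξ0 : q ξ z₀ = -a := by rw [q_busemann_symm, hz0ξ]
  -- the components orthogonal to z₀ and V
  have huz : q (z₁ - A • z₀) z₀ = 0 := by rw [q_busemann_lin1, hz10, h0]; ring
  have huV : q (z₁ - A • z₀) V = 0 := by rw [q_busemann_lin1, h1V, h0V]; ring
  have hpz : q (ξ - a • z₀) z₀ = 0 := by rw [q_busemann_lin1, hξ0, h0]; ring
  have hpV : q (ξ - a • z₀) V = 0 := by rw [q_busemann_lin1, hξV, h0V]; ring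
  have huu : q (z₁ - A • z₀) (z₁ - A • z₀) = A ^ 2 - 1 := by
    rw [q_busemann_lin, h1, hz10, hz01, h0]; ring
  have hpp : q (ξ - a • z₀) (ξ - a • z₀) = a ^ 2 := by
    rw [q_busemann_lin, hξ, hξ0, hz0ξ, h0]; ring
  set B : ℝ := q (z₁ - A • z₀) (ξ - a • z₀) with hB
  have hB' : q z₁ ξ = B - A * a := by
    rw [hB, q_busemann_lin, hz10, hz0ξ, h0]; ring
  -- Cauchy-Schwarz
  have hnn : ∀ t : ℝ, 0 ≤ q ((z₁ - A • z₀) - t • (ξ - a • z₀)) ((z₁ - A • z₀) - t • (ξ - a • z₀)) := by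
    intro t
    refine q_busemann_nonneg h0 hV h0V ?_ ?_
    · rw [q_busemann_lin1, huz, hpz]; ring
    · rw [q_busemann_lin1, huV, hpV]; ring
  have hquad : ∀ t : ℝ, 0 ≤ (A ^ 2 - 1) - 2 * t * B + t ^ 2 * a ^ 2 := by
    intro t
    have h := hnn t
    rw [q_busemann_lin, huu, hpp, ← hB, q_busemann_symm (ξ - a • z₀) (z₁ - A • z₀), ← hB] at h
    linarith
  have hA1 : 1 ≤ A ^ 2 := by
    have := hquad 0
    linarith
  have hCS : B ^ 2 ≤ (A ^ 2 - 1) * a ^ 2 := by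
    have h := hquad (B / a ^ 2)
    have ha2 : 0 < a ^ 2 := by positivity
    have e : (A ^ 2 - 1) - 2 * (B / a ^ 2) * B + (B / a ^ 2) ^ 2 * a ^ 2 =
        (A ^ 2 - 1) - B ^ 2 / a ^ 2 := by
      field_simp
      ring
    rw [e] at h
    have h2 : B ^ 2 / a ^ 2 ≤ A ^ 2 - 1 := by linarith
    rwa [div_le_iff₀ ha2] at h2
  have hr : 0 ≤ Real.sqrt (A ^ 2 - 1) := Real.sqrt_nonneg _
  have hr2 : Real.sqrt (A ^ 2 - 1) ^ 2 = A ^ 2 - 1 := Real.sq_sqrt (by linarith)
  have hBabs : |B| ≤ Real.sqrt (A ^ 2 - 1) * a := by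
    apply abs_le_of_sq_le_sq _ (by positivity)
    rw [mul_pow, hr2]
    exact hCS
  have hB1 := (abs_le.1 hBabs).1
  -- the case distinction
  have hApos : 1 ≤ A := by
    by_contra hcon
    push Not at hcon
    have hAn : A ≤ -1 := by nlinarith
    have h3 : Real.sqrt (A ^ 2 - 1) ≤ -A := by
      apply Real.sqrt_le_iff.2 ⟨by linarith, by nlinarith⟩
    have h4 : Real.sqrt (A ^ 2 - 1) * a ≤ -A * a := mul_le_mul_of_nonneg_right h3 ha0.le
    linarith
  have hcosh : 1 ≤ Real.cosh T := Real.one_le_cosh T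
  have hs : Real.sqrt (A ^ 2 - 1) ≤ Real.sinh T := by
    apply Real.sqrt_le_iff.2 ⟨Real.sinh_nonneg_iff.2 hT, ?_⟩
    rw [Real.sinh_sq]
    nlinarith
  have h5 : A + Real.sqrt (A ^ 2 - 1) ≤ Real.exp T := by
    have : Real.exp T = Real.cosh T + Real.sinh T := (Real.cosh_add_sinh T).symm
    rw [this]
    linarith
  have h6 : (A + Real.sqrt (A ^ 2 - 1)) * a ≤ Real.exp T * a := mul_le_mul_of_nonneg_right h5 ha0.le
  rw [hB']
  linarith

end A_q_busemann

alias q_busemann := A_q_busemann.q_busemann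

end Helper935.AdS
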