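import Pool.Agent.Helper935_AdS.PtB

namespace Helper935.AdS

namespace A_frame2

theorem j_q_comm (X Y : V4) : q X Y = q Y X := by
  unfold q; ring

theorem j_q_neg_right (X Y : V4) : q X (-Y) = -q X Y := by
  unfold q; simp only [Pi.neg_apply]; ring

theorem j_q_add_left (X Y Z : V4) : q (X + Y) Z = q X Z + q Y Z := by
  unfold q; simp only [Pi.add_apply]; ring

theorem j_q_sub_left (X Y Z : V4) : q (X - Y) Z = q X Z - q Y Z := by
  unfold q; simp only [Pi.sub_apply]; ring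

theorem j_q_smul_left (c : ℝ) (X Z : V4) : q (c • X) Z = c * q X Z := by
  unfold q; simp only [Pi.smul_apply, smul_eq_mul]; ring

theorem j_expand {S : Sf} (h : Core2 S) {x e₁ e₂ : V3} (hx : x ∈ H2) (he : GON S x e₁ e₂) (Z : V4) :
    (-(q Z (S.X x))) • S.X x + (q Z (S.dX x e₁)) • S.dX x e₁ + (q Z (S.dX x e₂)) • S.dX x e₂
      - (q Z (S.N x)) • S.N x = Z := by
  rw [← sub_eq_zero]
  apply q_nondeg
  intro Y
  have hp := parseval2 h hx he Z Y
  rw [j_q_sub_left, j_q_sub_left, j_q_add_left, j_q_add_left, j_q_smul_left, j_q_smul_left,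
    j_q_smul_left, j_q_smul_left, j_q_comm (S.X x) Y, j_q_comm (S.N x) Y, j_q_comm (S.dX x e₁) Y,
    j_q_comm (S.dX x e₂) Y, hp]
  ring

/-- the frame map -/
noncomputable def jPhi (S S₀ : Sf) (x e₁ e₂ : V3) : V4 →ₗ[ℝ] V4 where
  toFun Y := (-(q Y (S₀.X x))) • S.X x + (q Y (S₀.dX x e₁)) • S.dX x e₁
      + (q Y (S₀.dX x e₂)) • S.dX x e₂ - (q Y (S₀.N x)) • S.N x
  map_add' Y Z := by
    simp only [j_q_add_left]
    module
  map_smul' c Y := by
    simp only [j_q_smul_left, RingHom.id_apply]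
    module

theorem jPhi_apply (S S₀ : Sf) (x e₁ e₂ : V3) (Y : V4) : jPhi S S₀ x e₁ e₂ Y =
    (-(q Y (S₀.X x))) • S.X x + (q Y (S₀.dX x e₁)) • S.dX x e₁
      + (q Y (S₀.dX x e₂)) • S.dX x e₂ - (q Y (S₀.N x)) • S.N x := rfl

theorem jPhi_eq {S : Sf} (S₀ : Sf) (h : Core2 S) {x e₁ e₂ : V3} (hx : x ∈ H2) (he : GON S x e₁ e₂)
    {Y Z : V4} (h1 : q Y (S₀.X x) = q Z (S.X x)) (h2 : q Y (S₀.dX x e₁) = q Z (S.dX x e₁))
    (h3 : q Y (S₀.dX x e₂) = q Z (S.dX x e₂)) (h4 : q Y (S₀.N x) = q Z (S.N x)) :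
    jPhi S S₀ x e₁ e₂ Y = Z := by
  rw [jPhi_apply, h1, h2, h3, h4]
  exact j_expand h hx he Z

/- Proof:
The function q (S.X y) N - q (S0.X y) EE is constant 0, so extD2 applies with (Z,Z0) = (N,EE) and with (-N,-EE): gradients agree (q (S.dX u) N = q (S0.dX u) EE for tangent u), and n II(u,u) = n0 II0(u,u) for unit u, where n = q (S.N x) N, n0 = q (S0.N x) EE ≠ 0, II(u,u) = q (S.dN u)(S.dX u). normD2: n^2 = n0^2. As II, II0 > 0 (strict) n/n0 > 0, so n = n0 and II(u,u) = II0(u,u).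
Take GON basis e1,e2 (common to both). Define Phi Y = -(q Y (S0.X x)) S.X x + sum_i q Y (S0.dX e_i) S.dX e_i - q Y (S0.N x) S.N x, linear in Y. Phi (S0.X x) = S.X x, Phi (S0.dX e_i) = S.dX e_i, Phi (S0.N x) = S.N x by the Gram relations; gon_expand + linearity of dX: Phi (S0.dX u) = S.dX u. Phi EE = N and Phi (S0.ddX x u) = S.ddX x u: both sides have the same q-products with every vector, by parseval2 in S (q (Phi Y) (S.X x) = q Y (S0.X x) etc.), using: q EE (S0.X x) = q N (S.X x), q EE (S0.dX e_i) = q N (S.dX e_i), q EE (S0.N x) = n0 = n; for ddX: ddX_X and Iso.metric, Iso.tang, ddX_N and II = II0.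
-/
theorem frame2 {S S₀ : Sf} (h : Core2 S) (h₀ : Core2 S₀) (hi : Iso S S₀) {N : V4} (hNN : q N N = -1)
    (hX : ∀ x ∈ H2, q (S.X x) N = q (S₀.X x) EE) {x : V3} (hx : x ∈ H2) (hn : q (S₀.N x) EE ≠ 0) :
    ∃ Φ : V4 →ₗ[ℝ] V4, Φ (S₀.X x) = S.X x ∧ (∀ v, eta x v = 0 → Φ (S₀.dX x v) = S.dX x v) ∧
      Φ (S₀.N x) = S.N x ∧ (∀ v, UT x v → Φ (S₀.ddX x v) = S.ddX x v) ∧ Φ EE = N := by
  have hEE : q EE EE = -1 := by
    simp [q, EE]
  have hgrad : ∀ v, eta x v = 0 → q (S.dX x v) N = q (S₀.dX x v) EE :=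
    (extD2 h h₀ hi hx (Z := N) (Z₀ := EE) (fun y hy => by rw [hX y hy, hX x hx]; simp)).1
  have hle : ∀ v, UT x v → q (S.dN x v) (S.dX x v) * q (S.N x) N
      ≤ q (S₀.dN x v) (S₀.dX x v) * q (S₀.N x) EE := by
    intro v hv
    have h1 := (extD2 h h₀ hi hx (Z := N) (Z₀ := EE)
      (fun y hy => by rw [hX y hy, hX x hx]; simp)).2 v hv
    rw [hX x hx] at h1
    linarith
  have hge : ∀ v, UT x v → q (S₀.dN x v) (S₀.dX x v) * q (S₀.N x) EE
      ≤ q (S.dN x v) (S.dX x v) * q (S.N x) N := by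
    intro v hv
    have h1 := (extD2 h h₀ hi hx (Z := -N) (Z₀ := -EE)
      (fun y hy => by
        rw [j_q_neg_right, j_q_neg_right, j_q_neg_right, j_q_neg_right, hX y hy, hX x hx]
        simp)).2 v hv
    rw [j_q_neg_right, j_q_neg_right, j_q_neg_right, j_q_neg_right, hX x hx] at h1
    linarith
  have hII0 : ∀ v, UT x v → q (S.dN x v) (S.dX x v) * q (S.N x) N
      = q (S₀.dN x v) (S₀.dX x v) * q (S₀.N x) EE := fun v hv => le_antisymm (hle v hv) (hge v hv)
  have hnorm := normD2 h h₀ hi hx (Z := N) (Z₀ := EE) (by rw [hNN, hEE]) hgrad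
  rw [hX x hx, sub_self] at hnorm
  have hnn : q (S.N x) N = q (S₀.N x) EE := by
    have hf : (q (S.N x) N - q (S₀.N x) EE) * (q (S.N x) N + q (S₀.N x) EE) = 0 := by
      linear_combination hnorm
    rcases mul_eq_zero.mp hf with h1 | h1
    · linarith
    · exfalso
      obtain ⟨v, hv⟩ := exists_UT hx
      have hv0 : v ≠ 0 := by
        rintro rfl
        have := hv.2
        simp [eta] at this
      have hp := h.strict x hx v hv.1 hv0
      have hp0 := h₀.strict x hx v hv.1 hv0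
      have h2 := hII0 v hv
      have h3 : q (S.N x) N = -q (S₀.N x) EE := by linarith
      rw [h3] at h2
      have h4 : (q (S.dN x v) (S.dX x v) + q (S₀.dN x v) (S₀.dX x v)) * q (S₀.N x) EE = 0 := by
        linear_combination -h2
      rcases mul_eq_zero.mp h4 with h5 | h5
      · linarith
      · exact hn h5
  have hII : ∀ v, UT x v → q (S.dN x v) (S.dX x v) = q (S₀.dN x v) (S₀.dX x v) := by
    intro v hv
    have h2 := hII0 v hv
    rw [hnn] at h2
    exact mul_right_cancel₀ hn h2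
  obtain ⟨e₁, e₂, he⟩ := gon_exists h hx
  have he1 : eta x e₁ = 0 := he.1
  have he2 : eta x e₂ = 0 := he.2.1
  refine ⟨jPhi S S₀ x e₁ e₂, ?_, ?_, ?_, ?_, ?_⟩
  · apply jPhi_eq S₀ h hx he
    · rw [h₀.XX x hx, h.XX x hx]
    · rw [h₀.XdX x hx _ he1, h.XdX x hx _ he1]
    · rw [h₀.XdX x hx _ he2, h.XdX x hx _ he2]
    · rw [j_q_comm, j_q_comm (S.X x), h₀.NX x hx, h.NX x hx]
  · intro v hv
    apply jPhi_eq S₀ h hx he
    · rw [j_q_comm, j_q_comm (S.dX x v), h₀.XdX x hx _ hv, h.XdX x hx _ hv]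
    · exact (hi.metric x hx v e₁ hv he1).symm
    · exact (hi.metric x hx v e₂ hv he2).symm
    · rw [j_q_comm, j_q_comm (S.dX x v), h₀.NdX x hx _ hv, h.NdX x hx _ hv]
  · apply jPhi_eq S₀ h hx he
    · rw [h₀.NX x hx, h.NX x hx]
    · rw [h₀.NdX x hx _ he1, h.NdX x hx _ he1]
    · rw [h₀.NdX x hx _ he2, h.NdX x hx _ he2]
    · rw [h₀.NN x hx, h.NN x hx]
  · intro v hv
    apply jPhi_eq S₀ h hx he
    · rw [j_q_comm, j_q_comm (S.ddX x v), h₀.ddX_X x hx v hv, h.ddX_X x hx v hv,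
        hi.metric x hx v v hv.1 hv.1]
    · exact (hi.tang x hx v e₁ hv he1).symm
    · exact (hi.tang x hx v e₂ hv he2).symm
    · rw [j_q_comm, j_q_comm (S.ddX x v), h₀.ddX_N x hx v hv, h.ddX_N x hx v hv, hII v hv]
  · apply jPhi_eq S₀ h hx he
    · rw [j_q_comm, j_q_comm N, hX x hx]
    · rw [j_q_comm, j_q_comm N, hgrad e₁ he1]
    · rw [j_q_comm, j_q_comm N, hgrad e₂ he2]
    · rw [j_q_comm, j_q_comm N, hnn]

end A_frame2

alias frame2 := A_frame2.frame2

namespace A_lin2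

/-- the embedding of `V3` as a linear map -/
def l2E : V3 →ₗ[ℝ] V4 where
  toFun y := emb y 0
  map_add' x y := by
    ext i; fin_cases i <;> simp [emb]
  map_smul' c x := by
    ext i; fin_cases i <;> simp [emb]

theorem l2_emb (x : V3) (c t : ℝ) : emb (c • x) t = c • l2E x + t • EE := by
  ext i; fin_cases i <;> simp [emb, l2E, EE]

theorem l2_geo (x v : V3) (s : ℝ) :
    l2E (geo x v s) = Real.cosh s • l2E x + Real.sinh s • l2E v := by
  rw [geo, map_add, map_smul, map_smul]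

theorem l2_geo' (x v : V3) (s : ℝ) :
    l2E (geo' x v s) = Real.sinh s • l2E x + Real.cosh s • l2E v := by
  rw [geo', map_add, map_smul, map_smul]

theorem l2_der (x v : V3) (s : ℝ) :
    HasDerivAt (fun s => l2E (geo x v s)) (l2E (geo' x v s)) s := by
  have h1 := ((Real.hasDerivAt_cosh s).smul_const (l2E x)).add
    ((Real.hasDerivAt_sinh s).smul_const (l2E v))
  rw [l2_geo']
  have h2 : (fun s => l2E (geo x v s)) = (fun s => Real.cosh s • l2E x) +
      fun s => Real.sinh s • l2E v := by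
    funext r; exact l2_geo x v r
  rw [h2]
  exact h1

theorem l2_der' (x v : V3) (s : ℝ) :
    HasDerivAt (fun s => l2E (geo' x v s)) (l2E (geo x v s)) s := by
  have h1 := ((Real.hasDerivAt_sinh s).smul_const (l2E x)).add
    ((Real.hasDerivAt_cosh s).smul_const (l2E v))
  rw [l2_geo]
  have h2 : (fun s => l2E (geo' x v s)) = (fun s => Real.sinh s • l2E x) +
      fun s => Real.cosh s • l2E v := by
    funext r; exact l2_geo' x v r
  rw [h2]
  exact h1

/-- uniqueness for `κ' = μ`, `μ' = κ` -/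
theorem l2_ode {κ μ : ℝ → V4} (h1 : ∀ s, HasDerivAt κ (μ s) s) (h2 : ∀ s, HasDerivAt μ (κ s) s)
    (s : ℝ) : κ s = Real.cosh s • κ 0 + Real.sinh s • μ 0 := by
  have hf : ∀ s, HasDerivAt (fun s => Real.cosh s • κ s - Real.sinh s • μ s) 0 s := by
    intro s
    have h3 := ((Real.hasDerivAt_cosh s).smul (h1 s)).sub ((Real.hasDerivAt_sinh s).smul (h2 s))
    refine h3.congr_deriv ?_
    module
  have hg : ∀ s, HasDerivAt (fun s => Real.cosh s • μ s - Real.sinh s • κ s) 0 s := by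
    intro s
    have h3 := ((Real.hasDerivAt_cosh s).smul (h2 s)).sub ((Real.hasDerivAt_sinh s).smul (h1 s))
    refine h3.congr_deriv ?_
    module
  have cf := is_const_of_deriv_eq_zero (fun s => (hf s).differentiableAt) (fun s => (hf s).deriv) s 0
  have cg := is_const_of_deriv_eq_zero (fun s => (hg s).differentiableAt) (fun s => (hg s).deriv) s 0
  simp only [Real.cosh_zero, Real.sinh_zero, one_smul, zero_smul, sub_zero] at cf cg
  rw [← cf, ← cg]
  have h4 : κ s = (Real.cosh s ^ 2 - Real.sinh s ^ 2) • κ s := by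
    rw [Real.cosh_sq_sub_sinh_sq, one_smul]
  refine h4.trans ?_
  module

theorem l2_qcomm (A B : V4) : q A B = q B A := by simp only [q]; ring
theorem l2_qaddl (A B C : V4) : q (A + B) C = q A C + q B C := by
  simp only [q, Pi.add_apply]; ring
theorem l2_qsmull (t : ℝ) (A C : V4) : q (t • A) C = t * q A C := by
  simp only [q, Pi.smul_apply, smul_eq_mul]; ring
theorem l2_qaddr (A B C : V4) : q A (B + C) = q A B + q A C := by
  simp only [q, Pi.add_apply]; ring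
theorem l2_qsmulr (t : ℝ) (A C : V4) : q A (t • C) = t * q A C := by
  simp only [q, Pi.smul_apply, smul_eq_mul]; ring

/-- the equations along a geodesic -/
theorem l2_along {S S₀ : Sf} (h : Core2 S) (h₀ : Core2 S₀) {N : V4} {a t : V3 → ℝ}
    (ha : ∀ x ∈ H2, 0 < a x) (hX0 : ∀ x ∈ H2, S₀.X x = emb (a x • x) (t x))
    (Φ : V3 → V4 →ₗ[ℝ] V4) (hΦX : ∀ x ∈ H2, Φ x (S₀.X x) = S.X x)
    (hΦd : ∀ x ∈ H2, ∀ v, eta x v = 0 → Φ x (S₀.dX x v) = S.dX x v)
    (hΦdd : ∀ x ∈ H2, ∀ v, UT x v → Φ x (S₀.ddX x v) = S.ddX x v)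
    (hΦE : ∀ x ∈ H2, Φ x EE = N) {x v : V3} (hx : x ∈ H2) (hv : UT x v) :
    (∀ s, HasDerivAt (fun s => Φ (geo x v s) (l2E (geo x v s)))
      (Φ (geo x v s) (l2E (geo' x v s))) s) ∧
    (∀ s, HasDerivAt (fun s => Φ (geo x v s) (l2E (geo' x v s)))
      (Φ (geo x v s) (l2E (geo x v s))) s) := by
  have hm := fun s => geo_mem hx hv s
  have hu := fun s => geo_UT hx hv s
  have g0 : ∀ s, (geo x v s) 0 ≠ 0 := fun s => (hm s).2.ne'
  have hX0' : ∀ s, S₀.X (geo x v s) = a (geo x v s) • l2E (geo x v s) + t (geo x v s) • EE :=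
    fun s => by rw [hX0 _ (hm s), l2_emb]
  -- coordinates
  have dX0 : ∀ s (i : Fin 4), HasDerivAt (fun s => S₀.X (geo x v s) i)
      (S₀.dX (geo x v s) (geo' x v s) i) s := fun s i =>
    (hasDerivAt_pi.1 (h₀.geoX x hx v hv s)) i
  have ddX0 : ∀ s (i : Fin 4), HasDerivAt (fun s => S₀.dX (geo x v s) (geo' x v s) i)
      (S₀.ddX (geo x v s) (geo' x v s) i) s := fun s i =>
    (hasDerivAt_pi.1 (h₀.geodX x hx v hv s)) i
  have dg : ∀ s, HasDerivAt (fun s => geo x v s 0) (geo' x v s 0) s := by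
    intro s
    have := (hasDerivAt_pi.1 (l2_der x v s)) 0
    exact this
  have dg' : ∀ s, HasDerivAt (fun s => geo' x v s 0) (geo x v s 0) s := by
    intro s
    have := (hasDerivAt_pi.1 (l2_der' x v s)) 0
    exact this
  have hA : (fun s => a (geo x v s)) = fun s => S₀.X (geo x v s) 0 / geo x v s 0 := by
    funext s
    rw [hX0' s]
    simp only [Pi.add_apply, Pi.smul_apply, smul_eq_mul]
    have e1 : l2E (geo x v s) 0 = geo x v s 0 := rfl
    have e2 : EE 0 = 0 := rfl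
    rw [e1, e2, mul_zero, add_zero, mul_div_cancel_right₀ _ (g0 s)]
  have hT : (fun s => t (geo x v s)) = fun s => S₀.X (geo x v s) 3 := by
    funext s
    rw [hX0' s]
    simp only [Pi.add_apply, Pi.smul_apply, smul_eq_mul]
    have e1 : l2E (geo x v s) 3 = 0 := rfl
    have e2 : EE 3 = 1 := rfl
    rw [e1, e2, mul_zero, zero_add, mul_one]
  obtain ⟨A1, hA1⟩ : ∃ A1 : ℝ → ℝ, A1 = fun s => (S₀.dX (geo x v s) (geo' x v s) 0 * geo x v s 0 -
      S₀.X (geo x v s) 0 * geo' x v s 0) / (geo x v s 0) ^ 2 := ⟨_, rfl⟩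
  have dA : ∀ s, HasDerivAt (fun s => a (geo x v s)) (A1 s) s := by
    intro s
    rw [hA, hA1]
    exact (dX0 s 0).div (dg s) (g0 s)
  obtain ⟨A2, dA1⟩ : ∃ A2 : ℝ → ℝ, ∀ s, HasDerivAt A1 (A2 s) s := by
    rw [hA1]
    exact ⟨_, fun s => (((ddX0 s 0).mul (dg s)).sub ((dX0 s 0).mul (dg' s))).div
      ((dg s).pow 2) (pow_ne_zero 2 (g0 s))⟩
  have dT : ∀ s, HasDerivAt (fun s => t (geo x v s)) (S₀.dX (geo x v s) (geo' x v s) 3) s := by
    intro s
    rw [hT]
    exact dX0 s 3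
  have dT1 := fun s => ddX0 s 3
  obtain ⟨T1, hT1⟩ : ∃ T1 : ℝ → ℝ, T1 = fun s => S₀.dX (geo x v s) (geo' x v s) 3 := ⟨_, rfl⟩
  obtain ⟨T2, hT2⟩ : ∃ T2 : ℝ → ℝ, T2 = fun s => S₀.ddX (geo x v s) (geo' x v s) 3 := ⟨_, rfl⟩
  have dT' : ∀ s, HasDerivAt (fun s => t (geo x v s)) (T1 s) s := by
    intro s; rw [hT1]; exact dT s
  have dT1' : ∀ s, HasDerivAt T1 (T2 s) s := by
    intro s; rw [hT1, hT2]; exact dT1 s
  -- first derivative of S₀.X
  have e1 : ∀ s, S₀.dX (geo x v s) (geo' x v s) = A1 s • l2E (geo x v s) +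
      a (geo x v s) • l2E (geo' x v s) + T1 s • EE := by
    intro s
    have h1 := h₀.geoX x hx v hv s
    have h2 : HasDerivAt (fun s => S₀.X (geo x v s)) (a (geo x v s) • l2E (geo' x v s) +
        A1 s • l2E (geo x v s) + T1 s • EE) s := by
      have h3 : (fun s => S₀.X (geo x v s)) = (fun s => a (geo x v s) • l2E (geo x v s) +
        t (geo x v s) • EE) := funext hX0'
      rw [h3]
      exact ((dA s).smul (l2_der x v s)).add ((dT' s).smul_const EE)
    rw [h1.unique h2]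
    abel
  have e2 : ∀ s, S₀.ddX (geo x v s) (geo' x v s) = (A2 s + a (geo x v s)) • l2E (geo x v s) +
      (2 * A1 s) • l2E (geo' x v s) + T2 s • EE := by
    intro s
    have h1 := h₀.geodX x hx v hv s
    have h2 : HasDerivAt (fun s => S₀.dX (geo x v s) (geo' x v s))
        ((A1 s • l2E (geo' x v s) + A2 s • l2E (geo x v s)) +
        (a (geo x v s) • l2E (geo x v s) + A1 s • l2E (geo' x v s)) + T2 s • EE) s := by
      have h3 : (fun s => S₀.dX (geo x v s) (geo' x v s)) = (fun s => A1 s • l2E (geo x v s) +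
        a (geo x v s) • l2E (geo' x v s) + T1 s • EE) := funext e1
      rw [h3]
      exact (((dA1 s).smul (l2_der x v s)).add ((dA s).smul (l2_der' x v s))).add
        ((dT1' s).smul_const EE)
    rw [h1.unique h2]
    module
  have ap : ∀ s, a (geo x v s) ≠ 0 := fun s => (ha _ (hm s)).ne'
  have f0 : ∀ s, S.X (geo x v s) = a (geo x v s) • Φ (geo x v s) (l2E (geo x v s)) +
      t (geo x v s) • N := by
    intro s
    rw [← hΦX _ (hm s), hX0' s, map_add, map_smul, map_smul, hΦE _ (hm s)]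
  have f1 : ∀ s, S.dX (geo x v s) (geo' x v s) = A1 s • Φ (geo x v s) (l2E (geo x v s)) +
      a (geo x v s) • Φ (geo x v s) (l2E (geo' x v s)) + T1 s • N := by
    intro s
    rw [← hΦd _ (hm s) _ (hu s).1, e1 s, map_add, map_add, map_smul, map_smul, map_smul,
      hΦE _ (hm s)]
  have f2 : ∀ s, S.ddX (geo x v s) (geo' x v s) =
      (A2 s + a (geo x v s)) • Φ (geo x v s) (l2E (geo x v s)) +
      (2 * A1 s) • Φ (geo x v s) (l2E (geo' x v s)) + T2 s • N := by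
    intro s
    rw [← hΦdd _ (hm s) _ (hu s), e2 s, map_add, map_add, map_smul, map_smul, map_smul,
      hΦE _ (hm s)]
  have d0 : ∀ s, HasDerivAt (fun s => Φ (geo x v s) (l2E (geo x v s)))
      (Φ (geo x v s) (l2E (geo' x v s))) s := by
    intro s
    have h1 : (fun s => Φ (geo x v s) (l2E (geo x v s))) = fun s => (a (geo x v s))⁻¹ •
        (S.X (geo x v s) - t (geo x v s) • N) := by
      funext s
      rw [f0 s, add_sub_cancel_right, smul_smul, inv_mul_cancel₀ (ap s), one_smul]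
    have h2 := ((dA s).inv (ap s)).smul ((h.geoX x hx v hv s).sub ((dT' s).smul_const N))
    rw [h1]
    refine h2.congr_deriv ?_
    change (a (geo x v s))⁻¹ • (S.dX (geo x v s) (geo' x v s) - T1 s • N) +
      (-A1 s / a (geo x v s) ^ 2) • (S.X (geo x v s) - t (geo x v s) • N) =
      Φ (geo x v s) (l2E (geo' x v s))
    rw [f1 s, f0 s]
    have h3 := ap s
    match_scalars <;> field_simp <;> ring
  refine ⟨d0, fun s => ?_⟩
  have h1 : (fun s => Φ (geo x v s) (l2E (geo' x v s))) = fun s => (a (geo x v s))⁻¹ •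
      (S.dX (geo x v s) (geo' x v s) - T1 s • N - A1 s • Φ (geo x v s) (l2E (geo x v s))) := by
    funext s
    rw [f1 s]
    have h3 : A1 s • Φ (geo x v s) (l2E (geo x v s)) +
      a (geo x v s) • Φ (geo x v s) (l2E (geo' x v s)) + T1 s • N - T1 s • N -
      A1 s • Φ (geo x v s) (l2E (geo x v s)) =
      a (geo x v s) • Φ (geo x v s) (l2E (geo' x v s)) := by abel
    rw [h3, smul_smul, inv_mul_cancel₀ (ap s), one_smul]
  have h2 := ((dA s).inv (ap s)).smul (((h.geodX x hx v hv s).sub ((dT1' s).smul_const N)).sub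
    ((dA1 s).smul (d0 s)))
  rw [h1]
  refine h2.congr_deriv ?_
  change (a (geo x v s))⁻¹ • (S.ddX (geo x v s) (geo' x v s) - T2 s • N -
      (A1 s • Φ (geo x v s) (l2E (geo' x v s)) + A2 s • Φ (geo x v s) (l2E (geo x v s)))) +
      (-A1 s / a (geo x v s) ^ 2) • (S.dX (geo x v s) (geo' x v s) - T1 s • N -
        A1 s • Φ (geo x v s) (l2E (geo x v s))) = Φ (geo x v s) (l2E (geo x v s))
  rw [f2 s, f1 s]
  have h3 := ap s
  match_scalars <;> field_simp <;> ring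

/- Proof:
t(x) = -q (S0.X x) EE = -q (S.X x) N, a(x)^2 + t(x)^2 = 1 (q (S0.X x)(S0.X x) = -1, eta x x = -1), a > 0.
Fix x in H2, u with UT x u, write gam(s) = geo x u s. kappa(s) = a(gam s)^-1 (S.X (gam s) - t(gam s) N), kappa0(s) = a(gam s)^-1 (S0.X (gam s) - t(gam s) EE) = emb (gam s) 0. With T(s) = t(gam s), T1 = -q (S.dX gam gam') N = -q (S0.dX gam gam') EE (derivative of T), T2 = -q (S.ddX gam gam') N = -q(S0.ddX..) EE its derivative, a = sqrt(1 - T^2) > 0: kappa is twice differentiable with kappa'' = al (S.ddX - T2 N) + be (S.dX - T1 N) + ga (S.X - T N), with coefficients al, be, ga depending only on T, T1, T2, and the same formula with S0, EE for kappa0''. Since kappa0(s) = emb (gam s) 0, kappa0'' = kappa0 (geo'' = geo). The linear map Phi of frame2 at the point gam s sends S0.X, S0.dX gam', S0.ddX gam', EE to S.X, S.dX gam', S.ddX gam', N. So kappa'' = Phi kappa0'' = Phi kappa0 = kappa. Likewise kappa' = Phi kappa0',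 kappa0' = emb (gam') 0.
Hence kappa(s) = cosh s kappa(0) + sinh s kappa'(0) (uniqueness for f'' = f: e.g. f = kappa - cosh kappa(0) - sinh kappa'(0): (f'+f) e^{-s} and then f e^{s} are constant; componentwise).
Now x0 = ![1,0,0], e1 = ![0,1,0], e2 = ![0,0,1], K(x) := a(x)^-1 (S.X x - t(x) N), K1(u) := kappa'(0) along geo x0 u = Phi_0 (emb u 0) with Phi_0 the frame2 map at x0, so linear in u. Define L := y -> Phi_0 (emb y 0) (linear). L x0 = K(x0), L u = K1(u). Every y in H2 is geo x0 u d = cosh d x0 + sinh d u with UT x0 u (exists_geo), so K(y) = cosh d L x0 + sinh d L u = L y. So S.X y = a(y) L y + t(y) N.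
q (L y)(L y') = eta y y' and q (L y) N = 0: Phi_0 preserves q on all of V4? It maps the q-orthonormal frame (S0.X, S0.dX e_i, S0.N) at x0 to the frame of S, so yes by parseval2 or check: for y in H2: q (K y)(N) = a^-1 (q (S.X y) N + t) = a^-1(-t + t) = 0, q (K y)(K y) = a^-2(-1 + t^2) = -1; H2 spans V3 and polarisation (quadratic form q(L y)(L y) + ... equals eta y y on H2, hence on the open cone by homogeneity, hence everywhere).
-/
theorem lin2 {S S₀ : Sf} (h : Core2 S) (h₀ : Core2 S₀) (hi : Iso S S₀) {N : V4} (hNN : q N N = -1)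
    (hX : ∀ x ∈ H2, q (S.X x) N = q (S₀.X x) EE) (hn : ∀ x ∈ H2, q (S₀.N x) EE ≠ 0) {a t : V3 → ℝ}
    (ha : ∀ x ∈ H2, 0 < a x) (hX0 : ∀ x ∈ H2, S₀.X x = emb (a x • x) (t x)) :
    ∃ L : V3 →ₗ[ℝ] V4, (∀ x y, q (L x) (L y) = eta x y) ∧ (∀ x, q (L x) N = 0) ∧
      ∀ x ∈ H2, S.X x = a x • L x + t x • N := by
  classical
  have hfr := fun (x : V3) (hx : x ∈ H2) => frame2 h h₀ hi hNN hX hx (hn x hx)
  choose! Φ hΦX hΦd hΦN hΦdd hΦE using hfr
  let x₀ : V3 := ![1, 0, 0]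
  let e₁ : V3 := ![0, 1, 0]
  let e₂ : V3 := ![0, 0, 1]
  have hx₀ : x₀ ∈ H2 := by
    refine ⟨?_, ?_⟩ <;> simp [x₀, eta]
  have he₁ : UT x₀ e₁ := by refine ⟨?_, ?_⟩ <;> simp [x₀, e₁, eta]
  have he₂ : UT x₀ e₂ := by refine ⟨?_, ?_⟩ <;> simp [x₀, e₂, eta]
  have he₃ : UT x₀ ((3 / 5 : ℝ) • e₁ + (4 / 5 : ℝ) • e₂) := by
    refine ⟨?_, ?_⟩ <;> simp [x₀, e₁, e₂, eta] <;> norm_num
  let L : V3 →ₗ[ℝ] V4 := (Φ x₀).comp l2E
  have hL : ∀ y ∈ H2, S.X y = a y • L y + t y • N := by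
    intro y hy
    obtain ⟨d, v, _, hv, rfl⟩ := exists_geo hx₀ hy
    obtain ⟨h1, h2⟩ := l2_along h h₀ ha hX0 Φ hΦX hΦd hΦdd hΦE hx₀ hv
    have h3 := l2_ode h1 h2 d
    simp only [(geo_zero x₀ v).1, (geo_zero x₀ v).2] at h3
    have h4 : L (geo x₀ v d) = Φ (geo x₀ v d) (l2E (geo x₀ v d)) := by
      rw [h3]
      change Φ x₀ (l2E (geo x₀ v d)) = _
      rw [l2_geo, map_add, map_smul, map_smul]
    rw [h4, ← hΦX _ hy]
    conv_lhs => rw [hX0 _ hy, l2_emb, map_add, map_smul, map_smul, hΦE _ hy]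
  have hat : ∀ y ∈ H2, a y ^ 2 + t y ^ 2 = 1 := by
    intro y hy
    have h1 := h₀.XX y hy
    rw [hX0 y hy] at h1
    have h2 : q (emb (a y • y) (t y)) (emb (a y • y) (t y)) = a y ^ 2 * eta y y - t y ^ 2 := by
      simp [q, emb, eta]; ring
    rw [h2, hy.1] at h1
    linarith
  have hLN : ∀ y ∈ H2, q (L y) N = 0 := by
    intro y hy
    have h1 := hX y hy
    rw [hL y hy, hX0 y hy, l2_qaddl, l2_qsmull, l2_qsmull, hNN] at h1
    have h2 : q (emb (a y • y) (t y)) EE = -t y := by simp [q, emb, EE]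
    rw [h2] at h1
    have h3 : a y * q (L y) N = 0 := by linarith
    exact (mul_eq_zero.1 h3).resolve_left (ha y hy).ne'
  have hLL : ∀ y ∈ H2, q (L y) (L y) = -1 := by
    intro y hy
    have h1 := h.XX y hy
    rw [hL y hy, l2_qaddl, l2_qaddr, l2_qaddr, l2_qsmull, l2_qsmull, l2_qsmulr, l2_qsmulr, l2_qsmull,
      l2_qsmull, l2_qsmulr, l2_qsmulr, l2_qcomm N (L y), hLN y hy, hNN] at h1
    have h2 := hat y hy
    have h3 : a y ^ 2 * (q (L y) (L y) + 1) = 0 := by nlinarith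
    have h4 := (mul_eq_zero.1 h3).resolve_left (pow_pos (ha y hy) 2).ne'
    linarith
  have hgeo : ∀ v s, L (geo x₀ v s) = Real.cosh s • L x₀ + Real.sinh s • L v := by
    intro v s
    rw [geo, map_add, map_smul, map_smul]
  have hs1 : Real.sinh 1 ≠ 0 := (Real.sinh_pos_iff.2 one_pos).ne'
  have hN1 : ∀ v, UT x₀ v → q (L v) N = 0 := by
    intro v hv
    have h1 := hLN _ (geo_mem hx₀ hv 1)
    rw [hgeo, l2_qaddl, l2_qsmull, l2_qsmull, hLN x₀ hx₀, mul_zero, zero_add] at h1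
    exact (mul_eq_zero.1 h1).resolve_left hs1
  have hL1 : ∀ v, UT x₀ v → q (L x₀) (L v) = 0 ∧ q (L v) (L v) = 1 := by
    intro v hv
    have h1 := hLL _ (geo_mem hx₀ hv 1)
    have h2 := hLL _ (geo_mem hx₀ hv (-1))
    rw [hgeo, l2_qaddl, l2_qaddr, l2_qaddr, l2_qsmull, l2_qsmull, l2_qsmulr, l2_qsmulr, l2_qsmull,
      l2_qsmull, l2_qsmulr, l2_qsmulr, l2_qcomm (L v) (L x₀), hLL x₀ hx₀] at h1 h2
    rw [Real.cosh_neg, Real.sinh_neg] at h2
    have h3 := Real.cosh_sq 1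
    have h4 : 0 < Real.sinh 1 := Real.sinh_pos_iff.2 one_pos
    have h5 : 0 < Real.cosh 1 := Real.cosh_pos 1
    constructor
    · have h6 : Real.cosh 1 * Real.sinh 1 * q (L x₀) (L v) = 0 := by nlinarith
      exact (mul_eq_zero.1 h6).resolve_left (mul_pos h5 h4).ne'
    · have h6 : Real.sinh 1 ^ 2 * (q (L v) (L v) - 1) = 0 := by nlinarith
      have := (mul_eq_zero.1 h6).resolve_left (pow_pos h4 2).ne'
      linarith
  have h12 : q (L e₁) (L e₂) = 0 := by
    have h1 := (hL1 _ he₃).2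
    rw [map_add, map_smul, map_smul, l2_qaddl, l2_qaddr, l2_qaddr, l2_qsmull, l2_qsmull, l2_qsmulr,
      l2_qsmulr, l2_qsmull, l2_qsmull, l2_qsmulr, l2_qsmulr, l2_qcomm (L e₂) (L e₁),
      (hL1 _ he₁).2, (hL1 _ he₂).2] at h1
    linarith
  have hexp : ∀ x : V3, x = x 0 • x₀ + x 1 • e₁ + x 2 • e₂ := by
    intro x
    ext i
    fin_cases i <;> simp [x₀, e₁, e₂]
  have hLx : ∀ x : V3, L x = x 0 • L x₀ + x 1 • L e₁ + x 2 • L e₂ := by
    intro x
    conv_lhs => rw [hexp x]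
    rw [map_add, map_add, map_smul, map_smul, map_smul]
  refine ⟨L, fun x y => ?_, fun x => ?_, hL⟩
  · rw [hLx x, hLx y]
    simp only [l2_qaddl, l2_qaddr, l2_qsmull, l2_qsmulr, l2_qcomm (L e₂) (L e₁),
      l2_qcomm (L e₁) (L x₀), l2_qcomm (L e₂) (L x₀), (hL1 _ he₁).1, (hL1 _ he₂).1,
      (hL1 _ he₁).2, (hL1 _ he₂).2, h12, hLL x₀ hx₀, eta]
    ring
  · rw [hLx x]
    simp only [l2_qaddl, l2_qsmull, hN1 _ he₁, hN1 _ he₂, hLN x₀ hx₀]
    ring

end A_lin2

alias lin2 := A_lin2.lin2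

end Helper935.AdS
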