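import Pool.Agent.Helper935_AdS.PtA

namespace Helper935.AdS

namespace A_hopf_point

theorem hp_qcomm (X Y : V4) : q X Y = q Y X := by
  simp only [q]; ring

theorem hp_qbound (Y Z : V4) : |q Y Z| ≤ 4 * (‖Y‖ * ‖Z‖) := by
  have h : ∀ i, |Y i * Z i| ≤ ‖Y‖ * ‖Z‖ := by
    intro i
    rw [abs_mul]
    have h1 : |Y i| ≤ ‖Y‖ := norm_le_pi_norm Y i
    have h2 : |Z i| ≤ ‖Z‖ := norm_le_pi_norm Z i
    exact mul_le_mul h1 h2 (abs_nonneg _) (norm_nonneg _)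
  have h0 := abs_le.1 (h 0)
  have h1 := abs_le.1 (h 1)
  have h2 := abs_le.1 (h 2)
  have h3 := abs_le.1 (h 3)
  unfold q
  rw [abs_le]
  constructor <;> linarith

theorem hp_ut_bound {x u : V3} (hx : x ∈ H2) (hu : UT x u) : ‖u‖ ≤ x 0 := by
  obtain ⟨h1, h2⟩ := hx
  obtain ⟨h3, h4⟩ := hu
  simp only [eta] at h1 h3 h4
  have hx0 : 0 < x 0 ^ 2 := by positivity
  -- x0 u0 = x1 u1 + x2 u2
  have e1 : x 0 * u 0 = x 1 * u 1 + x 2 * u 2 := by linarith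
  have e2 : x 1 ^ 2 + x 2 ^ 2 = x 0 ^ 2 - 1 := by nlinarith
  have e3 : u 1 ^ 2 + u 2 ^ 2 = 1 + u 0 ^ 2 := by nlinarith
  have e4 : (x 0 * u 0) ^ 2 ≤ (x 0 ^ 2 - 1) * (1 + u 0 ^ 2) := by
    rw [e1, ← e2, ← e3]
    nlinarith [sq_nonneg (x 1 * u 2 - x 2 * u 1)]
  have e5 : u 0 ^ 2 ≤ x 0 ^ 2 - 1 := by nlinarith
  have e6 : u 1 ^ 2 ≤ x 0 ^ 2 := by nlinarith [sq_nonneg (u 2)]
  have e7 : u 2 ^ 2 ≤ x 0 ^ 2 := by nlinarith [sq_nonneg (u 1)]
  rw [pi_norm_le_iff_of_nonneg h2.le]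
  intro i
  rw [Real.norm_eq_abs]
  refine abs_le_of_sq_le_sq ?_ h2.le
  fin_cases i
  · show u 0 ^ 2 ≤ x 0 ^ 2
    linarith
  · exact e6
  · exact e7

theorem hp_eta_smul (y u : V3) (c : ℝ) : eta y (c • u) = c * eta y u := by
  simp only [eta, Pi.smul_apply, smul_eq_mul]; ring

theorem hp_eta_smul2 (u : V3) (c : ℝ) : eta (c • u) (c • u) = c ^ 2 * eta u u := by
  simp only [eta, Pi.smul_apply, smul_eq_mul]; ring

theorem hp_eta_lin (y u v : V3) (c s : ℝ) : eta y (c • u + s • v) = c * eta y u + s * eta y v := by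
  simp only [eta, Pi.add_apply, Pi.smul_apply, smul_eq_mul]; ring

theorem hp_q_smul (Y Z : V4) (c : ℝ) : q (c • Y) Z = c * q Y Z := by
  simp only [q, Pi.smul_apply, smul_eq_mul]; ring

theorem hp_q_smul' (Y Z : V4) (c : ℝ) : q Y (c • Z) = c * q Y Z := by
  simp only [q, Pi.smul_apply, smul_eq_mul]; ring

/-- every tangent vector is a multiple of a unit tangent vector -/
theorem hp_scale {x f : V3} (hx : x ∈ H2) (hf : eta x f = 0) :
    ∃ (l : ℝ) (u : V3), 0 ≤ l ∧ UT x u ∧ f = l • u := by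
  obtain ⟨e₁, he₁⟩ := exists_UT hx
  obtain ⟨e₂, hON⟩ := exists_ON hx he₁
  have hexp := tangent_expand hx hON hf
  obtain ⟨o1, o2, o3, o4, o5⟩ := hON
  have hff : eta f f = eta f e₁ ^ 2 + eta f e₂ ^ 2 := by
    conv_lhs => rw [hexp]
    have : eta (eta f e₁ • e₁ + eta f e₂ • e₂) (eta f e₁ • e₁ + eta f e₂ • e₂) =
        eta f e₁ ^ 2 * eta e₁ e₁ + 2 * (eta f e₁ * eta f e₂) * eta e₁ e₂ +
          eta f e₂ ^ 2 * eta e₂ e₂ := by
      generalize eta f e₁ = a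
      generalize eta f e₂ = b
      simp only [eta, Pi.add_apply, Pi.smul_apply, smul_eq_mul]; ring
    rw [this, o3, o4, o5]; ring
  by_cases h0 : eta f f = 0
  · have h1 : eta f e₁ = 0 := by
      have := sq_nonneg (eta f e₁)
      have := sq_nonneg (eta f e₂)
      have h3 : eta f e₁ ^ 2 = 0 := by linarith
      exact pow_eq_zero_iff (two_ne_zero) |>.1 h3
    have h2 : eta f e₂ = 0 := by
      have := sq_nonneg (eta f e₁)
      have := sq_nonneg (eta f e₂)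
      have h3 : eta f e₂ ^ 2 = 0 := by linarith
      exact pow_eq_zero_iff (two_ne_zero) |>.1 h3
    refine ⟨0, e₁, le_rfl, he₁, ?_⟩
    rw [hexp, h1, h2]
    simp
  · have hpos : 0 < eta f f := by
      have h1 : 0 ≤ eta f f := by rw [hff]; positivity
      exact lt_of_le_of_ne h1 (Ne.symm h0)
    have hs : 0 < Real.sqrt (eta f f) := Real.sqrt_pos.2 hpos
    refine ⟨Real.sqrt (eta f f), (Real.sqrt (eta f f))⁻¹ • f, hs.le, ⟨?_, ?_⟩, ?_⟩
    · rw [hp_eta_smul, hf, mul_zero]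
    · rw [hp_eta_smul2, inv_pow, Real.sq_sqrt hpos.le]
      field_simp
    · rw [smul_smul, mul_inv_cancel₀ hs.ne', one_smul]

theorem hp_qcont {α : Type} [TopologicalSpace α] {s : Set α} {F G : α → V4}
    (hF : ContinuousOn F s) (hG : ContinuousOn G s) : ContinuousOn (fun p => q (F p) (G p)) s := by
  have h0 := continuousOn_pi.mp hF
  have h1 := continuousOn_pi.mp hG
  have := (((((h0 0).mul (h1 0)).neg.add ((h0 1).mul (h1 1))).add
    ((h0 2).mul (h1 2))).sub ((h0 3).mul (h1 3)))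
  exact this

/-- compactness of the unit tangent bundle over a ball -/
theorem hp_compact {y₀ : V3} (hy₀ : y₀ ∈ H2) (R : ℝ) :
    IsCompact {p : V3 × V3 | (p.1 ∈ H2 ∧ -eta y₀ p.1 ≤ R) ∧ UT p.1 p.2} := by
  have hK := H2_ball hy₀ R
  obtain ⟨M, hM⟩ := hK.exists_bound_of_continuousOn (f := fun x : V3 => x)
    continuous_id.continuousOn
  have hc : IsCompact ({x | x ∈ H2 ∧ -eta y₀ x ≤ R} ×ˢ Metric.closedBall (0 : V3) M) :=
    hK.prod (isCompact_closedBall 0 M)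
  refine hc.of_isClosed_subset ?_ ?_
  · have h1 : {p : V3 × V3 | (p.1 ∈ H2 ∧ -eta y₀ p.1 ≤ R) ∧ UT p.1 p.2} =
        (Prod.fst ⁻¹' {x | x ∈ H2 ∧ -eta y₀ x ≤ R}) ∩
          ({p : V3 × V3 | eta p.1 p.2 = 0} ∩ {p : V3 × V3 | eta p.2 p.2 = 1}) := by
      ext p
      exact Iff.rfl
    rw [h1]
    refine (hK.isClosed.preimage continuous_fst).inter (IsClosed.inter ?_ ?_)
    · refine isClosed_eq ?_ continuous_const
      unfold eta
      fun_prop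
    · refine isClosed_eq ?_ continuous_const
      unfold eta
      fun_prop
  · rintro ⟨x, u⟩ ⟨hx, hu⟩
    refine ⟨hx, ?_⟩
    rw [mem_closedBall_zero_iff]
    have h1 := hp_ut_bound hx.1 hu
    have h2 : |x 0| ≤ ‖x‖ := norm_le_pi_norm x 0
    exact h1.trans ((le_abs_self _).trans (h2.trans (hM x hx)))

theorem hp_consts {S S₀ : Sf} (h : Core2 S) (h₀ : Core2 S₀) {Z₀ : V4}
    (hn : ∀ x ∈ H2, q (S₀.N x) Z₀ < 0) {y₀ : V3} (hy₀ : y₀ ∈ H2) (R : ℝ) :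
    ∃ C l : ℝ, 1 ≤ C ∧ 0 < l ∧ ‖Z₀‖ ≤ C ∧ ∀ x ∈ H2, -eta y₀ x ≤ R → ∀ u, UT x u →
      ‖S.ddX x u‖ ≤ C ∧ ‖S.dX x u‖ ≤ C ∧ ‖S₀.dX x u‖ ≤ C ∧ ‖S₀.dN x u‖ ≤ C ∧
      ‖S₀.N x‖ ≤ C ∧ ‖S₀.X x‖ ≤ C ∧ |eta y₀ u| ≤ C ∧ l ≤ q (S.dX x u) (S.dX x u) ∧
      l ≤ -q (S₀.N x) Z₀ * q (S₀.dN x u) (S₀.dX x u) := by
  have hT := hp_compact hy₀ R
  set T := {p : V3 × V3 | (p.1 ∈ H2 ∧ -eta y₀ p.1 ≤ R) ∧ UT p.1 p.2} with hTdef
  have hsub : T ⊆ {p : V3 × V3 | p.1 ∈ H2} := fun p hp => hp.1.1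
  have hfst : Set.MapsTo (Prod.fst : V3 × V3 → V3) T H2 := fun p hp => hp.1.1
  have c1 := h.cont_ddX.mono hsub
  have c2 := h.cont_dX.mono hsub
  have c3 := h₀.cont_dX.mono hsub
  have c4 := h₀.cont_dN.mono hsub
  have c5 : ContinuousOn (fun p : V3 × V3 => S₀.N p.1) T :=
    h₀.contN.comp continuous_fst.continuousOn hfst
  have c6 : ContinuousOn (fun p : V3 × V3 => S₀.X p.1) T :=
    h₀.contX.comp continuous_fst.continuousOn hfst
  have c7 : ContinuousOn (fun p : V3 × V3 => eta y₀ p.2) T := by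
    have : Continuous (fun p : V3 × V3 => eta y₀ p.2) := by
      unfold eta
      fun_prop
    exact this.continuousOn
  obtain ⟨C1, b1⟩ := hT.exists_bound_of_continuousOn c1
  obtain ⟨C2, b2⟩ := hT.exists_bound_of_continuousOn c2
  obtain ⟨C3, b3⟩ := hT.exists_bound_of_continuousOn c3
  obtain ⟨C4, b4⟩ := hT.exists_bound_of_continuousOn c4
  obtain ⟨C5, b5⟩ := hT.exists_bound_of_continuousOn c5
  obtain ⟨C6, b6⟩ := hT.exists_bound_of_continuousOn c6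
  obtain ⟨C7, b7⟩ := hT.exists_bound_of_continuousOn c7
  have hne : ∀ x u, UT x u → u ≠ 0 := by
    intro x u hu h0
    have := hu.2
    rw [h0] at this
    simp [eta] at this
  obtain ⟨l1, hl1, b8⟩ := hT.exists_forall_le' (a := 0) (hp_qcont c2 c2) (by
    rintro ⟨x, u⟩ ⟨hx, hu⟩
    exact h.pos x hx.1 u hu.1 (hne x u hu))
  obtain ⟨l2, hl2, b9⟩ := hT.exists_forall_le' (a := 0)
    (((hp_qcont c5 (continuousOn_const (c := Z₀))).neg).mul (hp_qcont c4 c3)) (by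
    rintro ⟨x, u⟩ ⟨hx, hu⟩
    have k1 := hn x hx.1
    have k2 := h₀.strict x hx.1 u hu.1 (hne x u hu)
    have k3 : 0 < -q (S₀.N x) Z₀ := by linarith
    exact mul_pos k3 k2)
  refine ⟨1 + |C1| + |C2| + |C3| + |C4| + |C5| + |C6| + |C7| + ‖Z₀‖, min l1 l2, ?_, lt_min hl1 hl2,
    ?_, ?_⟩
  · have := norm_nonneg Z₀
    have := abs_nonneg C1
    have := abs_nonneg C2
    have := abs_nonneg C3
    have := abs_nonneg C4
    have := abs_nonneg C5
    have := abs_nonneg C6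
    have := abs_nonneg C7
    linarith
  · have := norm_nonneg Z₀
    have := abs_nonneg C1
    have := abs_nonneg C2
    have := abs_nonneg C3
    have := abs_nonneg C4
    have := abs_nonneg C5
    have := abs_nonneg C6
    have := abs_nonneg C7
    linarith
  · intro x hx hR u hu
    have hm : (x, u) ∈ T := ⟨⟨hx, hR⟩, hu⟩
    have a0 := norm_nonneg Z₀
    have a1 := abs_nonneg C1
    have a2 := abs_nonneg C2
    have a3 := abs_nonneg C3
    have a4 := abs_nonneg C4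
    have a5 := abs_nonneg C5
    have a6 := abs_nonneg C6
    have a7 := abs_nonneg C7
    have d1 := (b1 _ hm).trans (le_abs_self C1)
    have d2 := (b2 _ hm).trans (le_abs_self C2)
    have d3 := (b3 _ hm).trans (le_abs_self C3)
    have d4 := (b4 _ hm).trans (le_abs_self C4)
    have d5 := (b5 _ hm).trans (le_abs_self C5)
    have d6 := (b6 _ hm).trans (le_abs_self C6)
    have d7 := (b7 _ hm).trans (le_abs_self C7)
    have d8 := b8 _ hm
    have d9 := b9 _ hm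
    simp only [Real.norm_eq_abs] at d1 d2 d3 d4 d5 d6 d7 d8 d9
    refine ⟨by linarith, by linarith, by linarith, by linarith, by linarith, by linarith,
      by linarith, (min_le_left _ _).trans d8, (min_le_right _ _).trans d9⟩

theorem hp_psd {a1 b1 d1 : ℝ}
    (h : ∀ c s : ℝ, c ^ 2 + s ^ 2 = 1 → 0 ≤ c ^ 2 * a1 + 2 * (c * s) * b1 + s ^ 2 * d1) :
    0 ≤ a1 ∧ 0 ≤ d1 ∧ b1 ^ 2 ≤ a1 * d1 := by
  refine ⟨?_, ?_, ?_⟩
  · have := h 1 0 (by norm_num); simpa using this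
  · have := h 0 1 (by norm_num); simpa using this
  · have h1 : ∀ x : ℝ, 0 ≤ a1 * (x * x) + (2 * b1) * x + d1 := by
      intro x
      have h2 : 0 < 1 + x ^ 2 := by positivity
      have h3 : 0 < Real.sqrt (1 + x ^ 2) := Real.sqrt_pos.mpr h2
      have h4 := h (x / Real.sqrt (1 + x ^ 2)) (1 / Real.sqrt (1 + x ^ 2)) (by
        rw [div_pow, div_pow, Real.sq_sqrt h2.le]
        field_simp
        ring)
      have h5 : (x / Real.sqrt (1 + x ^ 2)) ^ 2 * a1 + 2 * (x / Real.sqrt (1 + x ^ 2) *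
          (1 / Real.sqrt (1 + x ^ 2))) * b1 + (1 / Real.sqrt (1 + x ^ 2)) ^ 2 * d1 =
          (a1 * (x * x) + (2 * b1) * x + d1) / (1 + x ^ 2) := by
        have h6 : x / Real.sqrt (1 + x ^ 2) * (1 / Real.sqrt (1 + x ^ 2)) = x / (1 + x ^ 2) := by
          rw [div_mul_div_comm, mul_one, ← sq, Real.sq_sqrt h2.le]
        rw [h6, div_pow, div_pow, Real.sq_sqrt h2.le]
        field_simp
      rw [h5] at h4
      by_contra hc
      push Not at hc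
      have := div_neg_of_neg_of_pos hc h2
      linarith
    have h2 := discrim_le_zero h1
    rw [discrim] at h2
    nlinarith

/-- monotonicity of determinants of positive forms -/
theorem hp_det {m11 m12 m22 a b d : ℝ} (h1 : 0 ≤ m11) (h2 : 0 ≤ m22) (h3 : m12 ^ 2 ≤ m11 * m22)
    (ha : 0 ≤ a) (hd : 0 ≤ d) (hb : b ^ 2 ≤ a * d) :
    m11 * m22 - m12 ^ 2 ≤ (m11 + a) * (m22 + d) - (m12 + b) ^ 2 := by
  -- mixed term
  have h4 : (2 * (m12 * b)) ^ 2 ≤ (m11 * d + m22 * a) ^ 2 := by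
    have h5 : (m12 * b) ^ 2 ≤ (m11 * m22) * (a * d) := by
      rw [mul_pow]
      exact mul_le_mul h3 hb (sq_nonneg _) (mul_nonneg h1 h2)
    nlinarith [sq_nonneg (m11 * d - m22 * a)]
  have h6 : 0 ≤ m11 * d + m22 * a := by positivity
  have h7 : 2 * (m12 * b) ≤ m11 * d + m22 * a := by
    have := abs_le_of_sq_le_sq h4 h6
    exact (le_abs_self _).trans this
  nlinarith

theorem hp_alg {k w m0 n D A11 A12 A22 B11 B12 B22 T τ l C1 C2 C4 C5 R2 : ℝ}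
    (hk : 1 ≤ k) (hw : 0 < w) (hC1 : 0 ≤ C1) (hC4 : 0 ≤ C4) (hC5 : 0 ≤ C5)
    (hDA : A11 * A22 - A12 ^ 2 = D) (hDB : B11 * B22 - B12 ^ 2 = D) (hD0 : 0 ≤ D) (hD5 : D ≤ C5)
    (hTτ : τ ≤ T) (hTR : T ≤ R2) (hτ : 0 < τ) (hl : 0 < l)
    (hB11l : l ≤ m0 * B11) (hB11 : m0 * B11 ≤ C2) (hB22l : l ≤ m0 * B22) (hB22 : m0 * B22 ≤ C2)
    (ha1 : 0 ≤ -n * A11 - (m0 * B11 + w * (k ^ 2 * T - k * C1)))
    (hd1 : 0 ≤ -n * A22 - (m0 * B22 - w * (k * C1)))
    (hb1 : (-n * A12 - m0 * B12) ^ 2 ≤ (-n * A11 - (m0 * B11 + w * (k ^ 2 * T - k * C1))) *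
      (-n * A22 - (m0 * B22 - w * (k * C1))))
    (hnn : n ^ 2 - m0 ^ 2 ≤ C4 * (w * k + w ^ 2 * k ^ 2))
    (hk1 : 2 * C1 * C2 + C4 * C5 + 3 ≤ k * (τ * l)) (hk2 : C1 ≤ k * τ)
    (hw1 : w * (k * (C4 * C5)) ≤ 1) (hw2 : w * (k ^ 2 * (C1 * R2)) ≤ 1)
    (hw3 : w * (k * C1) ≤ l / 2) : False := by
  have hk0 : 0 < k := by linarith
  have hwk : 0 < w * k := mul_pos hw hk0
  have hT0 : 0 ≤ T := by linarith
  have hq : 0 ≤ k ^ 2 * T - k * C1 := by
    have h1 : k * C1 ≤ k * (k * τ) := mul_le_mul_of_nonneg_left hk2 hk0.le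
    have h2 : k * (k * τ) ≤ k * (k * T) := by gcongr
    linarith
  have hM11 : 0 ≤ m0 * B11 + w * (k ^ 2 * T - k * C1) := by
    have := mul_nonneg hw.le hq
    linarith
  have hM22 : 0 ≤ m0 * B22 - w * (k * C1) := by linarith
  have hlow : m0 ^ 2 * D + w * k * (C4 * C5 + 2) ≤
      (m0 * B11 + w * (k ^ 2 * T - k * C1)) * (m0 * B22 - w * (k * C1)) - (m0 * B12) ^ 2 := by
    have e1 : (m0 * B11 + w * (k ^ 2 * T - k * C1)) * (m0 * B22 - w * (k * C1)) -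
        (m0 * B12) ^ 2 = m0 ^ 2 * D + w * k * (k * (T * (m0 * B22)) - C1 * (m0 * B22) -
          C1 * (m0 * B11) - w * (k ^ 2 * (C1 * T)) + w * (k * C1 ^ 2)) := by
      rw [← hDB]; ring
    rw [e1]
    have h1 : τ * l ≤ T * (m0 * B22) := mul_le_mul hTτ hB22l hl.le hT0
    have h2 : k * (τ * l) ≤ k * (T * (m0 * B22)) := mul_le_mul_of_nonneg_left h1 hk0.le
    have h3 : C1 * (m0 * B22) ≤ C1 * C2 := mul_le_mul_of_nonneg_left hB22 hC1
    have h4 : C1 * (m0 * B11) ≤ C1 * C2 := mul_le_mul_of_nonneg_left hB11 hC1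
    have h5 : w * (k ^ 2 * (C1 * T)) ≤ w * (k ^ 2 * (C1 * R2)) := by gcongr
    have h6 : 0 ≤ w * (k * C1 ^ 2) := by positivity
    have h7 : C4 * C5 + 2 ≤ k * (T * (m0 * B22)) - C1 * (m0 * B22) -
          C1 * (m0 * B11) - w * (k ^ 2 * (C1 * T)) + w * (k * C1 ^ 2) := by linarith
    have h8 := mul_le_mul_of_nonneg_left h7 hwk.le
    linarith
  have hpos2 : 0 ≤ m0 ^ 2 * D + w * k * (C4 * C5 + 2) := by positivity
  have hM12 : (m0 * B12) ^ 2 ≤ (m0 * B11 + w * (k ^ 2 * T - k * C1)) *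
      (m0 * B22 - w * (k * C1)) := by linarith
  have hdet := hp_det hM11 hM22 hM12 ha1 hd1 hb1
  have e2 : (m0 * B11 + w * (k ^ 2 * T - k * C1) +
      (-n * A11 - (m0 * B11 + w * (k ^ 2 * T - k * C1)))) * (m0 * B22 - w * (k * C1) +
      (-n * A22 - (m0 * B22 - w * (k * C1)))) - (m0 * B12 + (-n * A12 - m0 * B12)) ^ 2 =
      n ^ 2 * D := by
    rw [← hDA]; ring
  rw [e2] at hdet
  have h9 : (n ^ 2 - m0 ^ 2) * D ≤ C4 * (w * k + w ^ 2 * k ^ 2) * C5 := by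
    have h10 : (n ^ 2 - m0 ^ 2) * D ≤ C4 * (w * k + w ^ 2 * k ^ 2) * D :=
      mul_le_mul_of_nonneg_right hnn hD0
    have h11 : C4 * (w * k + w ^ 2 * k ^ 2) * D ≤ C4 * (w * k + w ^ 2 * k ^ 2) * C5 :=
      mul_le_mul_of_nonneg_left hD5 (by positivity)
    linarith
  have h12 : C4 * (w * k + w ^ 2 * k ^ 2) * C5 = w * k * (C4 * C5 + w * (k * (C4 * C5))) := by ring
  rw [h12] at h9
  have h13 : w * k * (C4 * C5 + w * (k * (C4 * C5))) ≤ w * k * (C4 * C5 + 1) :=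
    mul_le_mul_of_nonneg_left (by linarith) hwk.le
  linarith

theorem hp_II {S : Sf} (h : Core2 S) {x e₁ e₂ : V3} (hx : x ∈ H2) (o1 : eta x e₁ = 0)
    (o2 : eta x e₂ = 0) (c s : ℝ) :
    q (S.dN x (c • e₁ + s • e₂)) (S.dX x (c • e₁ + s • e₂)) =
      c ^ 2 * q (S.dN x e₁) (S.dX x e₁) + 2 * (c * s) * q (S.dN x e₁) (S.dX x e₂) +
      s ^ 2 * q (S.dN x e₂) (S.dX x e₂) := by
  rw [h.dN_add x hx, h.dX_add x hx, h.dN_smul x hx, h.dN_smul x hx, h.dX_smul x hx,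
    h.dX_smul x hx]
  have h4 := h.II_symm x hx e₁ e₂ o1 o2
  have h5 : q (c • S.dN x e₁ + s • S.dN x e₂) (c • S.dX x e₁ + s • S.dX x e₂) =
      c ^ 2 * q (S.dN x e₁) (S.dX x e₁) + c * s * q (S.dN x e₁) (S.dX x e₂) +
      c * s * q (S.dN x e₂) (S.dX x e₁) + s ^ 2 * q (S.dN x e₂) (S.dX x e₂) := by
    simp only [q, Pi.add_apply, Pi.smul_apply, smul_eq_mul]; ring
  rw [h5, ← h4]; ring

/-- adapted orthonormal basis -/
theorem hp_basis {x y₀ : V3} (hx : x ∈ H2) (hy₀ : y₀ ∈ H2) (hQ : 1 < -eta y₀ x) :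
    ∃ e₁ e₂, ON x e₁ e₂ ∧ eta y₀ e₁ ^ 2 = (-eta y₀ x) ^ 2 - 1 ∧ eta y₀ e₂ = 0 := by
  obtain ⟨Q, hQe⟩ : ∃ Q, Q = -eta y₀ x := ⟨_, rfl⟩
  rw [← hQe] at hQ ⊢
  have hxx : eta x x = -1 := hx.1
  have hyy : eta y₀ y₀ = -1 := hy₀.1
  have hpos : 0 < Q ^ 2 - 1 := by nlinarith
  have hs : 0 < Real.sqrt (Q ^ 2 - 1) := Real.sqrt_pos.2 hpos
  have hss : Real.sqrt (Q ^ 2 - 1) ^ 2 = Q ^ 2 - 1 := Real.sq_sqrt hpos.le
  obtain ⟨σ, hσ⟩ : ∃ σ, σ = Real.sqrt (Q ^ 2 - 1) := ⟨_, rfl⟩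
  rw [← hσ] at hs hss
  have g1 : eta x (y₀ - Q • x) = 0 := by
    have : eta x (y₀ - Q • x) = eta y₀ x - Q * eta x x := by
      simp only [eta, Pi.sub_apply, Pi.smul_apply, smul_eq_mul]; ring
    rw [this, hxx]
    linarith
  have g2 : eta (y₀ - Q • x) (y₀ - Q • x) = Q ^ 2 - 1 := by
    have : eta (y₀ - Q • x) (y₀ - Q • x) = eta y₀ y₀ - 2 * Q * eta y₀ x + Q ^ 2 * eta x x := by
      simp only [eta, Pi.sub_apply, Pi.smul_apply, smul_eq_mul]; ring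
    rw [this, hxx, hyy]
    have : eta y₀ x = -Q := by linarith
    rw [this]; ring
  have g3 : eta y₀ (y₀ - Q • x) = Q ^ 2 - 1 := by
    have : eta y₀ (y₀ - Q • x) = eta y₀ y₀ - Q * eta y₀ x := by
      simp only [eta, Pi.sub_apply, Pi.smul_apply, smul_eq_mul]; ring
    rw [this, hyy]
    have : eta y₀ x = -Q := by linarith
    rw [this]; ring
  have hUT : UT x (σ⁻¹ • (y₀ - Q • x)) := by
    refine ⟨?_, ?_⟩
    · rw [hp_eta_smul, g1, mul_zero]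
    · rw [hp_eta_smul2, g2, inv_pow, hss]
      field_simp
  obtain ⟨e₂, hON⟩ := exists_ON hx hUT
  refine ⟨σ⁻¹ • (y₀ - Q • x), e₂, hON, ?_, ?_⟩
  · rw [hp_eta_smul, g3, mul_pow, inv_pow, hss]
    field_simp
  · obtain ⟨o1, o2, o3, o4, o5⟩ := hON
    have h1 : eta (σ⁻¹ • (y₀ - Q • x)) e₂ = σ⁻¹ * (eta y₀ e₂ - Q * eta x e₂) := by
      simp only [eta, Pi.sub_apply, Pi.smul_apply, smul_eq_mul]; ring
    rw [h1, o2, mul_zero, sub_zero] at o5
    rcases mul_eq_zero.1 o5 with h2 | h2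
    · exact absurd h2 (inv_ne_zero hs.ne')
    · exact h2

theorem hp_core {S S₀ : Sf} (h : Core2 S) (h₀ : Core2 S₀) (hi : Iso S S₀) {Z Z₀ : V4}
    (hZ : q Z Z = -1) (hZ₀ : q Z₀ Z₀ = -1) (hn : ∀ x ∈ H2, q (S₀.N x) Z₀ < 0)
    {y₀ : V3} (hy₀ : y₀ ∈ H2) {r R : ℝ} (hr : 1 < r) {C l : ℝ} (hC : 1 ≤ C) (hl : 0 < l)
    (hZC : ‖Z₀‖ ≤ C)
    (hcs : ∀ x ∈ H2, -eta y₀ x ≤ R → ∀ u, UT x u →
      ‖S.ddX x u‖ ≤ C ∧ ‖S.dX x u‖ ≤ C ∧ ‖S₀.dX x u‖ ≤ C ∧ ‖S₀.dN x u‖ ≤ C ∧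
      ‖S₀.N x‖ ≤ C ∧ ‖S₀.X x‖ ≤ C ∧ |eta y₀ u| ≤ C ∧ l ≤ q (S.dX x u) (S.dX x u) ∧
      l ≤ -q (S₀.N x) Z₀ * q (S₀.dN x u) (S₀.dX x u))
    {C1 C2 C4 C5 : ℝ} (hC1 : C1 = R + 8 * C ^ 3 / l + 4 * C ^ 2) (hC2 : C2 = 16 * C ^ 4)
    (hC4 : C4 = 8 * C ^ 2 + 16 * C ^ 3 / l + 2 * C ^ 2 / l) (hC5 : C5 = 16 * C ^ 4)
    {k ε : ℝ} (hk : 1 ≤ k) (hε : 0 < ε)
    (hk1 : 2 * C1 * C2 + C4 * C5 + 3 ≤ k * ((r ^ 2 - 1) * l)) (hk2 : C1 ≤ k * (r ^ 2 - 1))
    (hw1 : ε * (k * (C4 * C5)) ≤ 1) (hw2 : ε * (k ^ 2 * (C1 * R ^ 2)) ≤ 1)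
    (hw3 : ε * (k * C1) ≤ l / 2) {x : V3} (hx : x ∈ H2) (hxr : r ≤ -eta y₀ x) (hxR : -eta y₀ x ≤ R)
    (hp0 : 0 ≤ q (S₀.X x) Z₀ - q (S.X x) Z)
    (hp1 : q (S₀.X x) Z₀ - q (S.X x) Z <
      ε * (Real.exp (k * eta y₀ x) - Real.exp (-(k * R))))
    (hgrad : ∀ u, UT x u → q (S₀.dX x u) Z₀ - q (S.dX x u) Z =
      ε * (k * eta y₀ u) * Real.exp (k * eta y₀ x))
    (hhess : ∀ u, UT x u → ε * ((k * eta y₀ u) ^ 2 + k * eta y₀ x) * Real.exp (k * eta y₀ x)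
        ≤ q (S₀.ddX x u) Z₀ - q (S.ddX x u) Z) : False := by
  have hC0 : 0 < C := by linarith
  have hR : 1 < R := by linarith
  have hk0 : 0 < k := by linarith
  obtain ⟨E, hE⟩ : ∃ E, E = Real.exp (k * eta y₀ x) := ⟨_, rfl⟩
  rw [← hE] at hp1 hgrad hhess
  have hE0 : 0 < E := by rw [hE]; exact Real.exp_pos _
  have hE1 : E ≤ 1 := by
    rw [hE, Real.exp_le_one_iff]
    have := mul_nonneg hk0.le (show 0 ≤ -eta y₀ x by linarith)
    linarith
  obtain ⟨w, hw⟩ : ∃ w, w = ε * E := ⟨_, rfl⟩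
  have hw0 : 0 < w := by rw [hw]; positivity
  have hwε : w ≤ ε := by
    rw [hw]
    calc ε * E ≤ ε * 1 := mul_le_mul_of_nonneg_left hE1 hε.le
      _ = ε := mul_one ε
  obtain ⟨s, hs⟩ : ∃ s, s = q (S₀.X x) Z₀ := ⟨_, rfl⟩
  obtain ⟨v, hv⟩ : ∃ v, v = q (S.X x) Z := ⟨_, rfl⟩
  obtain ⟨n0, hn0⟩ : ∃ n0, n0 = q (S₀.N x) Z₀ := ⟨_, rfl⟩
  obtain ⟨n, hnn⟩ : ∃ n, n = q (S.N x) Z := ⟨_, rfl⟩
  rw [← hs, ← hv] at hp0 hp1
  have hpw : s - v ≤ w := by
    have h1 := Real.exp_pos (-(k * R))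
    have h2 : ε * (E - Real.exp (-(k * R))) ≤ ε * E := by
      apply mul_le_mul_of_nonneg_left _ hε.le
      linarith
    rw [hw]
    linarith
  have hpwk : s - v ≤ w * k := hpw.trans (le_mul_of_one_le_right hw0.le hk)
  have hn0neg : n0 < 0 := by rw [hn0]; exact hn x hx
  obtain ⟨Q, hQ⟩ : ∃ Q, Q = -eta y₀ x := ⟨_, rfl⟩
  have hQ' : eta y₀ x = -Q := by linarith
  rw [← hQ] at hxr hxR
  -- gradient in all directions
  have hgrad' : ∀ f, eta x f = 0 → q (S₀.dX x f) Z₀ - q (S.dX x f) Z = w * (k * eta y₀ f) := by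
    intro f hf
    obtain ⟨t, u, -, hu, rfl⟩ := hp_scale hx hf
    rw [h.dX_smul x hx, h₀.dX_smul x hx, hp_q_smul, hp_q_smul, hp_eta_smul]
    have := hgrad u hu
    rw [hw]
    linear_combination t * this
  -- common orthonormal basis for the induced metrics
  obtain ⟨f₁, f₂, hf⟩ := gon_exists h hx
  have hf₀ : GON S₀ x f₁ f₂ := by
    obtain ⟨a1, a2, a3, a4, a5⟩ := hf
    refine ⟨a1, a2, ?_, ?_, ?_⟩
    · rw [← hi.metric x hx _ _ a1 a1]; exact a3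
    · rw [← hi.metric x hx _ _ a2 a2]; exact a4
    · rw [← hi.metric x hx _ _ a1 a2]; exact a5
  have hf' := hf
  obtain ⟨a1, a2, a3, a4, a5⟩ := hf'
  obtain ⟨t₁, w₁, ht₁, hu₁, hfe₁⟩ := hp_scale hx a1
  obtain ⟨t₂, w₂, ht₂, hu₂, hfe₂⟩ := hp_scale hx a2
  obtain ⟨-, x2, x3, -, -, x6, x7, x8, -⟩ := hcs x hx (hQ ▸ hxR) w₁ hu₁
  obtain ⟨-, y2, y3, -, -, -, y7, y8, -⟩ := hcs x hx (hQ ▸ hxR) w₂ hu₂
  have ht1 : t₁ ^ 2 ≤ 1 / l := by
    rw [hfe₁, h.dX_smul x hx, hp_q_smul, hp_q_smul'] at a3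
    rw [le_div_iff₀ hl]
    calc t₁ ^ 2 * l ≤ t₁ ^ 2 * q (S.dX x w₁) (S.dX x w₁) :=
          mul_le_mul_of_nonneg_left x8 (sq_nonneg t₁)
      _ = t₁ * (t₁ * q (S.dX x w₁) (S.dX x w₁)) := by ring
      _ = 1 := a3
  have ht2 : t₂ ^ 2 ≤ 1 / l := by
    rw [hfe₂, h.dX_smul x hx, hp_q_smul, hp_q_smul'] at a4
    rw [le_div_iff₀ hl]
    calc t₂ ^ 2 * l ≤ t₂ ^ 2 * q (S.dX x w₂) (S.dX x w₂) :=
          mul_le_mul_of_nonneg_left y8 (sq_nonneg t₂)
      _ = t₂ * (t₂ * q (S.dX x w₂) (S.dX x w₂)) := by ring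
      _ = 1 := a4
  have hli : 0 ≤ 1 / l := by positivity
  -- bound for the first-order terms
  have hG : ∀ u, UT x u → |q (S.ddX x u) (S.dX x f₁) * eta y₀ f₁ +
      q (S.ddX x u) (S.dX x f₂) * eta y₀ f₂| ≤ 8 * C ^ 3 / l := by
    intro u hu
    obtain ⟨z1, -⟩ := hcs x hx (hQ ▸ hxR) u hu
    have e1 : q (S.ddX x u) (S.dX x f₁) * eta y₀ f₁ =
        t₁ ^ 2 * (q (S.ddX x u) (S.dX x w₁) * eta y₀ w₁) := by
      rw [hfe₁, h.dX_smul x hx, hp_q_smul', hp_eta_smul]; ring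
    have e2 : q (S.ddX x u) (S.dX x f₂) * eta y₀ f₂ =
        t₂ ^ 2 * (q (S.ddX x u) (S.dX x w₂) * eta y₀ w₂) := by
      rw [hfe₂, h.dX_smul x hx, hp_q_smul', hp_eta_smul]; ring
    have b : ∀ W : V4, ‖W‖ ≤ C → ∀ g : ℝ, |g| ≤ C → |q (S.ddX x u) W * g| ≤ 4 * C ^ 3 := by
      intro W hW g hg
      rw [abs_mul]
      have h1 := hp_qbound (S.ddX x u) W
      have h2 : ‖S.ddX x u‖ * ‖W‖ ≤ C * C := mul_le_mul z1 hW (norm_nonneg _) hC0.le
      calc |q (S.ddX x u) W| * |g| ≤ (4 * (C * C)) * C :=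
            mul_le_mul (by linarith) hg (abs_nonneg _) (by positivity)
        _ = 4 * C ^ 3 := by ring
    have b1 := b _ x2 _ x7
    have b2 := b _ y2 _ y7
    rw [e1, e2]
    refine (abs_add_le _ _).trans ?_
    rw [abs_mul (t₁ ^ 2), abs_mul (t₂ ^ 2), abs_of_nonneg (sq_nonneg t₁),
      abs_of_nonneg (sq_nonneg t₂)]
    have c1 : t₁ ^ 2 * |q (S.ddX x u) (S.dX x w₁) * eta y₀ w₁| ≤ 1 / l * (4 * C ^ 3) :=
      mul_le_mul ht1 b1 (abs_nonneg _) hli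
    have c2 : t₂ ^ 2 * |q (S.ddX x u) (S.dX x w₂) * eta y₀ w₂| ≤ 1 / l * (4 * C ^ 3) :=
      mul_le_mul ht2 b2 (abs_nonneg _) hli
    have c3 : 8 * C ^ 3 / l = 1 / l * (4 * C ^ 3) + 1 / l * (4 * C ^ 3) := by ring
    rw [c3]
    exact add_le_add c1 c2
  -- second order condition
  have hsec : ∀ u, UT x u → -n0 * q (S₀.dN x u) (S₀.dX x u) + w * (k ^ 2 * (eta y₀ u) ^ 2 - k * C1) ≤
      -n * q (S.dN x u) (S.dX x u) := by
    intro u hu
    have k1 := hess2 h hx hu hf Z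
    have k2 := hess2 h₀ hx hu hf₀ Z₀
    have k3 := hhess u hu
    have k4 := hi.metric x hx u u hu.1 hu.1
    have k5 := hi.tang x hx u f₁ hu a1
    have k6 := hi.tang x hx u f₂ hu a2
    have k7 := hgrad' f₁ a1
    have k8 := hgrad' f₂ a2
    obtain ⟨-, z2, -⟩ := hcs x hx (hQ ▸ hxR) u hu
    rw [← hv, ← hnn] at k1
    rw [← hs, ← hn0, ← k4, ← k5, ← k6] at k2
    have k9 : q (S₀.ddX x u) Z₀ - q (S.ddX x u) Z = q (S.dX x u) (S.dX x u) * (s - v) +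
        q (S₀.dN x u) (S₀.dX x u) * n0 - q (S.dN x u) (S.dX x u) * n +
        w * k * (q (S.ddX x u) (S.dX x f₁) * eta y₀ f₁ +
          q (S.ddX x u) (S.dX x f₂) * eta y₀ f₂) := by
      rw [k1, k2]
      linear_combination q (S.ddX x u) (S.dX x f₁) * k7 + q (S.ddX x u) (S.dX x f₂) * k8
    rw [k9, hQ'] at k3
    have g1 : q (S.dX x u) (S.dX x u) * (s - v) ≤ w * k * (4 * C ^ 2) := by
      have h1 := (le_abs_self _).trans (hp_qbound (S.dX x u) (S.dX x u))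
      have h2 : ‖S.dX x u‖ * ‖S.dX x u‖ ≤ C * C := mul_le_mul z2 z2 (norm_nonneg _) hC0.le
      have h3 : q (S.dX x u) (S.dX x u) ≤ 4 * C ^ 2 := by rw [sq C]; linarith
      calc q (S.dX x u) (S.dX x u) * (s - v) ≤ (4 * C ^ 2) * (s - v) :=
            mul_le_mul_of_nonneg_right h3 hp0
        _ ≤ (4 * C ^ 2) * (w * k) := by
            exact mul_le_mul_of_nonneg_left hpwk (by positivity)
        _ = w * k * (4 * C ^ 2) := by ring
    have g2 := mul_le_mul_of_nonneg_left ((le_abs_self _).trans (hG u hu))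
      (by positivity : 0 ≤ w * k)
    have g3 : w * k * Q ≤ w * k * R := mul_le_mul_of_nonneg_left hxR (by positivity)
    have g4 : ε * ((k * eta y₀ u) ^ 2 + k * -Q) * E = w * (k ^ 2 * (eta y₀ u) ^ 2) - w * k * Q := by
      rw [hw]; ring
    rw [g4] at k3
    have g5 : w * (k ^ 2 * (eta y₀ u) ^ 2 - k * C1) = w * (k ^ 2 * (eta y₀ u) ^ 2) -
        w * k * R - w * k * (8 * C ^ 3 / l) - w * k * (4 * C ^ 2) := by
      rw [hC1]; ring
    rw [g5]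
    linarith
  -- adapted basis
  obtain ⟨e₁, e₂, hON, hq1, hq2⟩ := hp_basis hx hy₀ (hQ ▸ (by linarith : 1 < Q))
  rw [← hQ] at hq1
  obtain ⟨o1, o2, o3, o4, o5⟩ := hON
  have hUTc : ∀ c s : ℝ, c ^ 2 + s ^ 2 = 1 → UT x (c • e₁ + s • e₂) := by
    intro c s hcs'
    constructor
    · rw [hp_eta_lin, o1, o2]; ring
    · have : eta (c • e₁ + s • e₂) (c • e₁ + s • e₂) = c ^ 2 * eta e₁ e₁ +
          2 * (c * s) * eta e₁ e₂ + s ^ 2 * eta e₂ e₂ := by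
        simp only [eta, Pi.add_apply, Pi.smul_apply, smul_eq_mul]; ring
      rw [this, o3, o4, o5]; linarith
  have hpsd := hp_psd (a1 := -n * q (S.dN x e₁) (S.dX x e₁) - (-n0 * q (S₀.dN x e₁) (S₀.dX x e₁) +
      w * (k ^ 2 * (Q ^ 2 - 1) - k * C1)))
    (b1 := -n * q (S.dN x e₁) (S.dX x e₂) - -n0 * q (S₀.dN x e₁) (S₀.dX x e₂))
    (d1 := -n * q (S.dN x e₂) (S.dX x e₂) - (-n0 * q (S₀.dN x e₂) (S₀.dX x e₂) - w * (k * C1))) (by
      intro c s hcs'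
      have h1 := hsec _ (hUTc c s hcs')
      rw [hp_II h hx o1 o2, hp_II h₀ hx o1 o2, hp_eta_lin, hq2] at h1
      have h2 : w * (k ^ 2 * (c * eta y₀ e₁ + s * 0) ^ 2 - k * C1) =
          c ^ 2 * (w * (k ^ 2 * (Q ^ 2 - 1) - k * C1)) - s ^ 2 * (w * (k * C1)) := by
        rw [← hq1]
        linear_combination (w * k * C1) * hcs'
      rw [h2] at h1
      linarith)
  obtain ⟨p1, p2, p3⟩ := hpsd
  -- bounds at the basis vectors
  have hB : ∀ u, UT x u → l ≤ -n0 * q (S₀.dN x u) (S₀.dX x u) ∧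
      -n0 * q (S₀.dN x u) (S₀.dX x u) ≤ C2 ∧ 0 ≤ q (S₀.dN x u) (S₀.dX x u) ∧
      q (S₀.dN x u) (S₀.dX x u) ≤ 4 * C ^ 2 := by
    intro u hu
    obtain ⟨-, -, z3, z4, z5, -, -, -, z9⟩ := hcs x hx (hQ ▸ hxR) u hu
    rw [← hn0] at z9
    have h1 := (le_abs_self _).trans (hp_qbound (S₀.dN x u) (S₀.dX x u))
    have h2 : ‖S₀.dN x u‖ * ‖S₀.dX x u‖ ≤ C * C := mul_le_mul z4 z3 (norm_nonneg _) hC0.le
    have h3 : q (S₀.dN x u) (S₀.dX x u) ≤ 4 * C ^ 2 := by rw [sq C]; linarith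
    have h4 := (neg_le_abs _).trans (hp_qbound (S₀.N x) Z₀)
    have h5 : ‖S₀.N x‖ * ‖Z₀‖ ≤ C * C := mul_le_mul z5 hZC (norm_nonneg _) hC0.le
    rw [← hn0] at h4
    have h6 : -n0 ≤ 4 * C ^ 2 := by rw [sq C]; linarith
    have h7 : 0 ≤ q (S₀.dN x u) (S₀.dX x u) := by
      by_contra hcon
      push Not at hcon
      have : -n0 * q (S₀.dN x u) (S₀.dX x u) < 0 := by
        apply mul_neg_of_pos_of_neg <;> linarith
      linarith
    refine ⟨z9, ?_, h7, h3⟩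
    rw [hC2]
    calc -n0 * q (S₀.dN x u) (S₀.dX x u) ≤ (4 * C ^ 2) * (4 * C ^ 2) :=
          mul_le_mul h6 h3 h7 (by positivity)
      _ = 16 * C ^ 4 := by ring
  obtain ⟨m1, m2, m3, m4⟩ := hB e₁ ⟨o1, o3⟩
  obtain ⟨m5, m6, m7, m8⟩ := hB e₂ ⟨o2, o4⟩
  have hdet := hi.det x hx e₁ e₂ o1 o2
  have hD0 := hp_psd (a1 := q (S₀.dN x e₁) (S₀.dX x e₁)) (b1 := q (S₀.dN x e₁) (S₀.dX x e₂))
    (d1 := q (S₀.dN x e₂) (S₀.dX x e₂)) (by
      intro c s hcs'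
      have h1 := (hB _ (hUTc c s hcs')).2.2.1
      rw [hp_II h₀ hx o1 o2] at h1
      exact h1)
  have hD5 : q (S₀.dN x e₁) (S₀.dX x e₁) * q (S₀.dN x e₂) (S₀.dX x e₂) -
      q (S₀.dN x e₁) (S₀.dX x e₂) ^ 2 ≤ C5 := by
    rw [hC5]
    have h1 : q (S₀.dN x e₁) (S₀.dX x e₁) * q (S₀.dN x e₂) (S₀.dX x e₂) ≤
        (4 * C ^ 2) * (4 * C ^ 2) := mul_le_mul m4 m8 m7 (by positivity)
    have h2 := sq_nonneg (q (S₀.dN x e₁) (S₀.dX x e₂))
    have h3 : (4 * C ^ 2) * (4 * C ^ 2) = 16 * C ^ 4 := by ring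
    linarith
  -- the difference of the squares
  have hpar := parseval2 h hx hf Z Z
  have hpar₀ := parseval2 h₀ hx hf₀ Z₀ Z₀
  rw [hZ, hp_qcomm Z (S.X x), hp_qcomm Z (S.N x), hp_qcomm Z (S.dX x f₁),
    hp_qcomm Z (S.dX x f₂), ← hv, ← hnn] at hpar
  rw [hZ₀, hp_qcomm Z₀ (S₀.X x), hp_qcomm Z₀ (S₀.N x), hp_qcomm Z₀ (S₀.dX x f₁),
    hp_qcomm Z₀ (S₀.dX x f₂), ← hs, ← hn0] at hpar₀
  have hg1 := hgrad' f₁ a1
  have hg2 := hgrad' f₂ a2
  have hnn2 : n ^ 2 - (-n0) ^ 2 ≤ C4 * (w * k + w ^ 2 * k ^ 2) := by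
    have e1 : n ^ 2 - (-n0) ^ 2 = (s - v) * (2 * s - (s - v)) -
        2 * (q (S₀.dX x f₁) Z₀ * (w * (k * eta y₀ f₁)) + q (S₀.dX x f₂) Z₀ * (w * (k * eta y₀ f₂))) +
        ((w * (k * eta y₀ f₁)) ^ 2 + (w * (k * eta y₀ f₂)) ^ 2) := by
      have e2 : q (S.dX x f₁) Z = q (S₀.dX x f₁) Z₀ - w * (k * eta y₀ f₁) := by linarith
      have e3 : q (S.dX x f₂) Z = q (S₀.dX x f₂) Z₀ - w * (k * eta y₀ f₂) := by linarith
      rw [e2, e3] at hpar
      linear_combination hpar - hpar₀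
    have hsC : |s| ≤ 4 * C ^ 2 := by
      have h1 := hp_qbound (S₀.X x) Z₀
      have h2 : ‖S₀.X x‖ * ‖Z₀‖ ≤ C * C := mul_le_mul x6 hZC (norm_nonneg _) hC0.le
      rw [← hs] at h1
      rw [sq C]
      linarith
    have b1 : (s - v) * (2 * s - (s - v)) ≤ w * k * (8 * C ^ 2) := by
      have h1 : 2 * s - (s - v) ≤ 8 * C ^ 2 := by
        have := (abs_le.1 hsC).2
        linarith
      calc (s - v) * (2 * s - (s - v)) ≤ (s - v) * (8 * C ^ 2) :=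
            mul_le_mul_of_nonneg_left h1 hp0
        _ ≤ (w * k) * (8 * C ^ 2) := by
            exact mul_le_mul_of_nonneg_right hpwk (by positivity)
    have b : ∀ (f u : V3) (t : ℝ), f = t • u → t ^ 2 ≤ 1 / l → ‖S₀.dX x u‖ ≤ C → |eta y₀ u| ≤ C →
        -(q (S₀.dX x f) Z₀ * (w * (k * eta y₀ f))) ≤ w * k * (4 * C ^ 3 / l) ∧
        (w * (k * eta y₀ f)) ^ 2 ≤ w ^ 2 * k ^ 2 * (C ^ 2 / l) := by
      intro f u t hfu ht hu1 hu2
      have e4 : q (S₀.dX x f) Z₀ = t * q (S₀.dX x u) Z₀ := by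
        rw [hfu, h₀.dX_smul x hx, hp_q_smul]
      have e5 : eta y₀ f = t * eta y₀ u := by rw [hfu, hp_eta_smul]
      constructor
      · have e6 : -(q (S₀.dX x f) Z₀ * (w * (k * eta y₀ f))) =
            w * k * (t ^ 2 * -(q (S₀.dX x u) Z₀ * eta y₀ u)) := by rw [e4, e5]; ring
        rw [e6]
        apply mul_le_mul_of_nonneg_left _ (by positivity)
        have h1 : |q (S₀.dX x u) Z₀ * eta y₀ u| ≤ 4 * C ^ 3 := by
          rw [abs_mul]
          have h2 := hp_qbound (S₀.dX x u) Z₀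
          have h3 : ‖S₀.dX x u‖ * ‖Z₀‖ ≤ C * C := mul_le_mul hu1 hZC (norm_nonneg _) hC0.le
          calc |q (S₀.dX x u) Z₀| * |eta y₀ u| ≤ (4 * (C * C)) * C :=
                mul_le_mul (by linarith) hu2 (abs_nonneg _) (by positivity)
            _ = 4 * C ^ 3 := by ring
        calc t ^ 2 * -(q (S₀.dX x u) Z₀ * eta y₀ u) ≤ t ^ 2 * |q (S₀.dX x u) Z₀ * eta y₀ u| :=
              mul_le_mul_of_nonneg_left (neg_le_abs _) (sq_nonneg t)
          _ ≤ 1 / l * (4 * C ^ 3) := mul_le_mul ht h1 (abs_nonneg _) hli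
          _ = 4 * C ^ 3 / l := by ring
      · have e6 : (w * (k * eta y₀ f)) ^ 2 = w ^ 2 * k ^ 2 * (t ^ 2 * (eta y₀ u) ^ 2) := by
          rw [e5]; ring
        rw [e6]
        apply mul_le_mul_of_nonneg_left _ (by positivity)
        have h1 : (eta y₀ u) ^ 2 ≤ C ^ 2 := by
          rw [← sq_abs]
          exact pow_le_pow_left₀ (abs_nonneg _) hu2 2
        calc t ^ 2 * (eta y₀ u) ^ 2 ≤ 1 / l * C ^ 2 := mul_le_mul ht h1 (sq_nonneg _) hli
          _ = C ^ 2 / l := by ring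
    obtain ⟨b2, b3⟩ := b f₁ w₁ t₁ hfe₁ ht1 x3 x7
    obtain ⟨b4, b5⟩ := b f₂ w₂ t₂ hfe₂ ht2 y3 y7
    have e7 : C4 * (w * k + w ^ 2 * k ^ 2) = w * k * (8 * C ^ 2) + 4 * (w * k * (4 * C ^ 3 / l)) +
        w * k * (2 * C ^ 2 / l) + w ^ 2 * k ^ 2 * (8 * C ^ 2 + 16 * C ^ 3 / l) +
        2 * (w ^ 2 * k ^ 2 * (C ^ 2 / l)) := by
      rw [hC4]; ring
    have g1 : 0 ≤ w * k * (2 * C ^ 2 / l) := by positivity
    have g2 : 0 ≤ w ^ 2 * k ^ 2 * (8 * C ^ 2 + 16 * C ^ 3 / l) := by positivity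
    rw [e1, e7]
    linarith
  have hC10 : 0 ≤ C1 := by rw [hC1]; positivity
  have hC20 : 0 ≤ C2 := by rw [hC2]; positivity
  have hC40 : 0 ≤ C4 := by rw [hC4]; positivity
  have hC50 : 0 ≤ C5 := by rw [hC5]; positivity
  refine hp_alg (k := k) (w := w) (m0 := -n0) (n := n) (T := Q ^ 2 - 1) (τ := r ^ 2 - 1) (l := l)
    (R2 := R ^ 2) hk hw0 hC10 hC40 hC50 hdet rfl (by linarith [hD0.2.2]) hD5 ?_ ?_ ?_ hl
    m1 m2 m5 m6 p1 p2 p3 hnn2 hk1 hk2 ?_ ?_ ?_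
  · have := pow_le_pow_left₀ (by linarith : (0 : ℝ) ≤ r) hxr 2
    linarith
  · have := pow_le_pow_left₀ (by linarith : (0 : ℝ) ≤ Q) hxR 2
    linarith
  · have := one_lt_pow₀ hr two_ne_zero
    linarith
  · refine le_trans ?_ hw1
    exact mul_le_mul_of_nonneg_right hwε (by positivity)
  · refine le_trans ?_ hw2
    exact mul_le_mul_of_nonneg_right hwε (by positivity)
  · refine le_trans ?_ hw3
    exact mul_le_mul_of_nonneg_right hwε (by positivity)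

theorem hopf_point {S S₀ : Sf} (h : Core2 S) (h₀ : Core2 S₀) (hi : Iso S S₀) {Z Z₀ : V4} (hZ : q Z Z = -1) (hZ₀ : q Z₀ Z₀ = -1)
    (hn : ∀ x ∈ H2, q (S₀.N x) Z₀ < 0)
    {y₀ : V3} (hy₀ : y₀ ∈ H2) {r R : ℝ} (hr : 1 < r) (hrR : r < R) :
    ∃ k : ℝ, 0 < k ∧ ∃ ε₀ : ℝ, 0 < ε₀ ∧ ∀ ε : ℝ, 0 < ε → ε ≤ ε₀ → ∀ x ∈ H2, r ≤ -eta y₀ x → -eta y₀ x ≤ R →
      0 ≤ q (S₀.X x) Z₀ - q (S.X x) Z →
      q (S₀.X x) Z₀ - q (S.X x) Z < ε * (Real.exp (k * eta y₀ x) - Real.exp (-(k * R))) →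
      (∀ u, UT x u → q (S₀.dX x u) Z₀ - q (S.dX x u) Z = ε * (k * eta y₀ u) * Real.exp (k * eta y₀ x)) →
      (∀ u, UT x u → ε * ((k * eta y₀ u) ^ 2 + k * eta y₀ x) * Real.exp (k * eta y₀ x)
        ≤ q (S₀.ddX x u) Z₀ - q (S.ddX x u) Z) → False := by
  obtain ⟨C, l, hC, hl, hZC, hcs⟩ := hp_consts h h₀ hn hy₀ R
  have hC0 : 0 < C := by linarith
  have hR0 : 0 < R := by linarith
  have hτ : 0 < r ^ 2 - 1 := by nlinarith
  obtain ⟨C1, hC1⟩ : ∃ C1, C1 = R + 8 * C ^ 3 / l + 4 * C ^ 2 := ⟨_, rfl⟩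
  obtain ⟨C2, hC2⟩ : ∃ C2, C2 = 16 * C ^ 4 := ⟨_, rfl⟩
  obtain ⟨C4, hC4⟩ : ∃ C4, C4 = 8 * C ^ 2 + 16 * C ^ 3 / l + 2 * C ^ 2 / l := ⟨_, rfl⟩
  have hC10 : 0 ≤ C1 := by rw [hC1]; positivity
  have hC20 : 0 ≤ C2 := by rw [hC2]; positivity
  have hC40 : 0 ≤ C4 := by rw [hC4]; positivity
  have hτl : 0 < (r ^ 2 - 1) * l := by positivity
  obtain ⟨k, hk⟩ : ∃ k, k = 1 + (2 * C1 * C2 + C4 * C2 + 3) / ((r ^ 2 - 1) * l) +
    C1 / (r ^ 2 - 1) := ⟨_, rfl⟩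
  have hk1' : 0 ≤ (2 * C1 * C2 + C4 * C2 + 3) / ((r ^ 2 - 1) * l) := by positivity
  have hk2' : 0 ≤ C1 / (r ^ 2 - 1) := by positivity
  have hk0 : 1 ≤ k := by rw [hk]; linarith
  have hk1 : 2 * C1 * C2 + C4 * C2 + 3 ≤ k * ((r ^ 2 - 1) * l) := by
    have h1 : (2 * C1 * C2 + C4 * C2 + 3) / ((r ^ 2 - 1) * l) ≤ k := by rw [hk]; linarith
    exact (div_le_iff₀ hτl).1 h1
  have hk2 : C1 ≤ k * (r ^ 2 - 1) := by
    have h1 : C1 / (r ^ 2 - 1) ≤ k := by rw [hk]; linarith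
    exact (div_le_iff₀ hτ).1 h1
  have hkpos : 0 < k := by linarith
  obtain ⟨M, hM⟩ : ∃ M, M = 1 + k * (C4 * C2) + k ^ 2 * (C1 * R ^ 2) + k * C1 * (2 / l) := ⟨_, rfl⟩
  have hM1 : 0 ≤ k * (C4 * C2) := by positivity
  have hM2 : 0 ≤ k ^ 2 * (C1 * R ^ 2) := by positivity
  have hM3 : 0 ≤ k * C1 * (2 / l) := by positivity
  have hMpos : 0 < M := by rw [hM]; linarith
  refine ⟨k, hkpos, 1 / M, by positivity, ?_⟩
  intro ε hε hεM x hx hxr hxR hp0 hp1 hgrad hhess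
  have hεM' : ε * M ≤ 1 := by
    have := mul_le_mul_of_nonneg_right hεM hMpos.le
    rwa [one_div, inv_mul_cancel₀ hMpos.ne'] at this
  have q1 : ε * (k * (C4 * C2)) ≤ 1 := by
    refine le_trans (mul_le_mul_of_nonneg_left ?_ hε.le) hεM'
    rw [hM]; linarith
  have q2 : ε * (k ^ 2 * (C1 * R ^ 2)) ≤ 1 := by
    refine le_trans (mul_le_mul_of_nonneg_left ?_ hε.le) hεM'
    rw [hM]; linarith
  have q3 : ε * (k * C1) ≤ l / 2 := by
    have h1 : ε * (k * C1 * (2 / l)) ≤ 1 := by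
      refine le_trans (mul_le_mul_of_nonneg_left ?_ hε.le) hεM'
      rw [hM]; linarith
    have h2 : ε * (k * C1) = ε * (k * C1 * (2 / l)) * (l / 2) := by
      field_simp
    rw [h2]
    calc ε * (k * C1 * (2 / l)) * (l / 2) ≤ 1 * (l / 2) :=
          mul_le_mul_of_nonneg_right h1 (by positivity)
      _ = l / 2 := one_mul _
  exact hp_core h h₀ hi hZ hZ₀ hn hy₀ hr hC hl hZC hcs hC1 hC2 hC4 hC2 hk0 hε hk1 hk2 q1 q2 q3
    hx hxr hxR hp0 hp1 hgrad hhess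

end A_hopf_point

alias hopf_point := A_hopf_point.hopf_point

namespace A_hopf2

theorem hopf2_hq {f : ℝ → V4} {f' : V4} {s : ℝ} (h : HasDerivAt f f' s) (Z : V4) :
    HasDerivAt (fun t => q (f t) Z) (q f' Z) s := by
  have h0 := hasDerivAt_pi.mp h
  exact (((((h0 0).mul_const (Z 0)).neg.add ((h0 1).mul_const (Z 1))).add
    ((h0 2).mul_const (Z 2))).sub ((h0 3).mul_const (Z 3)))

open Filter Topology in
theorem hopf2_test {f g : ℝ → ℝ} {c : ℝ} (hf : ∀ s, HasDerivAt f (g s) s)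
    (hg : HasDerivAt g c 0) (hmax : IsLocalMax f 0) : g 0 = 0 ∧ c ≤ 0 := by
  have h0 : g 0 = 0 := hmax.hasDerivAt_eq_zero (hf 0)
  refine ⟨h0, ?_⟩
  by_contra hc
  push Not at hc
  have hd : deriv f = g := funext fun s => (hf s).deriv
  have hmin : IsLocalMin f 0 := isLocalMin_of_deriv_deriv_pos (by rw [hd, hg.deriv]; exact hc)
    (by rw [hd]; exact h0) (hf 0).continuousAt
  have hconst : ∀ᶠ s in 𝓝 (0 : ℝ), f s = f 0 := by
    filter_upwards [hmax, hmin] with s h1 h2 using le_antisymm h1 h2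
  have hg0 : ∀ᶠ s in 𝓝 (0 : ℝ), g s = 0 := by
    filter_upwards [hconst.eventually_nhds] with s hs
    have h1 : deriv f s = 0 := by
      rw [Filter.EventuallyEq.deriv_eq (f := fun _ => f 0) hs]; simp
    rw [← hd]; exact h1
  have h2 : deriv g 0 = 0 := by
    rw [Filter.EventuallyEq.deriv_eq (f := fun _ => (0 : ℝ)) hg0]; simp
  rw [hg.deriv] at h2
  linarith

theorem hopf2_B (e k A P c0 s : ℝ) :
    HasDerivAt (fun s => e * (Real.exp (k * (A * Real.cosh s + P * Real.sinh s)) - c0))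
      (e * (Real.exp (k * (A * Real.cosh s + P * Real.sinh s)) *
        (k * (A * Real.sinh s + P * Real.cosh s)))) s := by
  have h1 := ((Real.hasDerivAt_cosh s).const_mul A).add ((Real.hasDerivAt_sinh s).const_mul P)
  exact (((h1.const_mul k).exp).sub_const c0).const_mul e

theorem hopf2_B2 (e k A P : ℝ) :
    HasDerivAt (fun s => e * (Real.exp (k * (A * Real.cosh s + P * Real.sinh s)) *
        (k * (A * Real.sinh s + P * Real.cosh s))))
      (e * ((k * P) ^ 2 + k * A) * Real.exp (k * A)) 0 := by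
  have h1 := ((Real.hasDerivAt_cosh 0).const_mul A).add ((Real.hasDerivAt_sinh 0).const_mul P)
  have h2 := ((Real.hasDerivAt_sinh 0).const_mul A).add ((Real.hasDerivAt_cosh 0).const_mul P)
  have h3 := (((h1.const_mul k).exp).mul (h2.const_mul k)).const_mul e
  refine HasDerivAt.congr_deriv h3 ?_
  simp only [Pi.add_apply, Real.cosh_zero, Real.sinh_zero, mul_one, mul_zero, add_zero, zero_add]
  ring

theorem hopf2_eta_geo (y z u : V3) (s : ℝ) :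
    eta y (geo z u s) = (eta y z) * Real.cosh s + (eta y u) * Real.sinh s := by
  simp only [eta, geo, Pi.add_apply, Pi.smul_apply, smul_eq_mul]
  ring

theorem hopf2_qcont {X : V3 → V4} (hX : ContinuousOn X H2) (N : V4) :
    ContinuousOn (fun z => q (X z) N) H2 := by
  have h0 := continuousOn_pi.mp hX
  have := (((((h0 0).mul continuousOn_const (g := fun _ => N 0)).neg.add
    ((h0 1).mul continuousOn_const (g := fun _ => N 1))).add
    ((h0 2).mul continuousOn_const (g := fun _ => N 2))).sub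
    ((h0 3).mul continuousOn_const (g := fun _ => N 3)))
  exact this

theorem hopf2_etacont (y : V3) : Continuous (fun z : V3 => -eta y z) := by
  unfold eta
  fun_prop

/-- the difference of the two height functions, with the barrier, along a geodesic -/
theorem hopf2_der {S S₀ : Sf} (h : Core2 S) (h₀ : Core2 S₀) {Z Z₀ : V4} {z u : V3} (hz : z ∈ H2)
    (hu : UT z u) (A P e k c0 s : ℝ) :
    HasDerivAt (fun s => (q (S.X (geo z u s)) Z - q (S₀.X (geo z u s)) Z₀) +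
      e * (Real.exp (k * (A * Real.cosh s + P * Real.sinh s)) - c0))
      ((q (S.dX (geo z u s) (geo' z u s)) Z - q (S₀.dX (geo z u s) (geo' z u s)) Z₀) +
        e * (Real.exp (k * (A * Real.cosh s + P * Real.sinh s)) *
        (k * (A * Real.sinh s + P * Real.cosh s)))) s :=
  ((dq h hz hu Z s).1.sub (dq h₀ hz hu Z₀ s).1).add (hopf2_B e k A P c0 s)

open Filter Topology in
theorem hopf2_point {S S₀ : Sf} (h : Core2 S) (h₀ : Core2 S₀) {Z Z₀ : V4}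
    {z u : V3} (hz : z ∈ H2) (hu : UT z u) (y0 : V3) (e k c0 : ℝ)
    (hmax : ∀ᶠ s in 𝓝 (0 : ℝ), (q (S.X (geo z u s)) Z - q (S₀.X (geo z u s)) Z₀) +
      e * (Real.exp (k * eta y0 (geo z u s)) - c0) ≤
      (q (S.X z) Z - q (S₀.X z) Z₀) + e * (Real.exp (k * eta y0 z) - c0)) :
    (q (S₀.dX z u) Z₀ - q (S.dX z u) Z = e * (k * eta y0 u) * Real.exp (k * eta y0 z)) ∧
    (e * ((k * eta y0 u) ^ 2 + k * eta y0 z) * Real.exp (k * eta y0 z)
        ≤ q (S₀.ddX z u) Z₀ - q (S.ddX z u) Z) := by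
  obtain ⟨hg0, hg0'⟩ := geo_zero z u
  have hf := fun s => hopf2_der h h₀ (Z := Z) (Z₀ := Z₀) hz hu (eta y0 z) (eta y0 u) e k c0 s
  have hg := ((dq h hz hu Z 0).2.1.sub (dq h₀ hz hu Z₀ 0).2.1).add
    (hopf2_B2 e k (eta y0 z) (eta y0 u))
  have hm : IsLocalMax (fun s => (q (S.X (geo z u s)) Z - q (S₀.X (geo z u s)) Z₀) +
      e * (Real.exp (k * (eta y0 z * Real.cosh s + eta y0 u * Real.sinh s)) - c0)) 0 := by
    filter_upwards [hmax] with s hs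
    rw [hopf2_eta_geo] at hs
    simp only [hg0, Real.cosh_zero, Real.sinh_zero, mul_one, mul_zero, add_zero]
    exact hs
  obtain ⟨r1, r2⟩ := hopf2_test hf hg hm
  constructor
  · simp only [hg0, hg0', Real.cosh_zero, Real.sinh_zero, mul_one, mul_zero, add_zero,
      zero_add] at r1
    linarith
  · simp only [hg0, hg0'] at r2
    linarith

/- Proof:
Let p(z) = q (S0.X z) Z0 - q (S.X z) Z >= 0 on H2, continuous, zero set Zs = {p = 0} closed, containing y. Suppose p(y0) > 0 for some y0 in H2. Q(z) = -eta y0 z >= 1. Let y1 minimise Q over Zs (compactness: H2_ball with the bound Q(y)), R := Q(y1) > 1 (y1 ≠ y0), r := (1+R)/2. hopf_point gives k, ep0. On the compact set {Q <= r} (no point of Zs) p >= delta0 > 0. Let ep = min(ep0, delta0/2), beta(z) = ep (exp(-k Q(z)) - exp(-k R)), so beta <= ep < delta0 on Q <= r... and beta = 0 on Q = R.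
Claim: p >= beta on {r <= Q <= R}. Otherwise p - beta has a negative minimum over this compact set at x. On Q = R, p - beta = p >= 0; on Q = r, p - beta >= delta0 - ep > 0. So r < Q(x) < R and x is an interior point: for unit tangent u the function s -> (p - beta)(geo x u s) has a local minimum at 0, so first derivative 0 and second derivative >= 0: by dq, d/ds p = q (S0.dX ..) Z0 - q (S.dX ..) Z, second derivative q (S0.ddX x u) Z0 - q (S.ddX x u) Z; beta(geo x u s) = ep (exp(k eta y0 (geo x u s)) - exp(-kR)), derivative ep k eta y0 (geo') exp(..), second derivative at 0: ep ((k eta y0 u)^2 + k eta y0 x) exp(k eta y0 x) (geo'' = geo). This is exactly the situation excluded by hopf_point.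
Contradiction at y1: p(y1) = 0 is a global minimum of p, so the derivative of p along any unit speed geodesic from y1 vanishes at 0. Take the geodesic from y1 to y0 (exists_geo; y0 = geo y1 u d, d > 0, cosh d = R): Q(geo y1 u s) = cosh(d - s) decreases (eta y0 (geo y1 u s): use geo_add or direct computation), beta along it has derivative ep k exp(-k R) sinh d > 0 at s = 0, beta = 0 at s = 0 and p >= beta for small s > 0: so the derivative of p is >= that of beta > 0. Contradiction. So p = 0 on H2.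
-/
theorem hopf2 {S S₀ : Sf} (h : Core2 S) (h₀ : Core2 S₀) (hi : Iso S S₀) {Z Z₀ : V4} (hZ : q Z Z = -1) (hZ₀ : q Z₀ Z₀ = -1)
    (hn : ∀ x ∈ H2, q (S₀.N x) Z₀ < 0)
    (hle : ∀ x ∈ H2, q (S.X x) Z ≤ q (S₀.X x) Z₀) {y : V3} (hy : y ∈ H2)
    (heq : q (S.X y) Z = q (S₀.X y) Z₀) {x : V3} (hx : x ∈ H2) : q (S.X x) Z = q (S₀.X x) Z₀ := by
  by_contra hne
  have hlt : q (S.X x) Z - q (S₀.X x) Z₀ < 0 := by
    have := lt_of_le_of_ne (hle x hx) hne
    linarith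
  obtain ⟨y0, hy0, hy0lt⟩ : ∃ y0, y0 ∈ H2 ∧ q (S.X y0) Z - q (S₀.X y0) Z₀ < 0 := ⟨x, hx, hlt⟩
  obtain ⟨F, hF⟩ : ∃ F : V3 → ℝ, ∀ z, F z = q (S.X z) Z - q (S₀.X z) Z₀ := ⟨_, fun _ => rfl⟩
  have hF0 : ∀ z ∈ H2, F z ≤ 0 := by
    intro z hz
    rw [hF]
    have := hle z hz
    linarith
  have hFy : F y = 0 := by rw [hF, heq, sub_self]
  have hFc : ContinuousOn F H2 := by
    have : F = fun z => q (S.X z) Z - q (S₀.X z) Z₀ := funext hF
    rw [this]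
    exact (hopf2_qcont h.contX Z).sub (hopf2_qcont h₀.contX Z₀)
  rw [← hF] at hy0lt
  have hQc := hopf2_etacont y0
  -- a closest point
  set K0 : Set V3 := {x | x ∈ H2 ∧ -eta y0 x ≤ -eta y0 y} with hK0
  have hK0c : IsCompact K0 := H2_ball hy0 _
  have hK0s : K0 ⊆ H2 := fun x hx => hx.1
  have hZc : IsCompact (K0 ∩ {x | F x = 0}) := by
    have h1 : IsClosed (K0 ∩ {x | F x = 0}) :=
      (hFc.mono hK0s).preimage_isClosed_of_isClosed hK0c.isClosed isClosed_singleton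
    exact hK0c.of_isClosed_subset h1 Set.inter_subset_left
  obtain ⟨y1, ⟨hy1K, hy1m⟩, hy1min⟩ := hZc.exists_isMinOn ⟨y, ⟨hy, le_rfl⟩, hFy⟩
    hQc.continuousOn
  have hy1 : y1 ∈ H2 := hy1K.1
  simp only [Set.mem_ofPred_eq] at hy1m
  have hclose : ∀ x ∈ H2, -eta y0 x < -eta y0 y1 → F x < 0 := by
    intro x hx hxl
    refine lt_of_le_of_ne (hF0 x hx) (fun he => ?_)
    have hxK : x ∈ K0 ∩ {x | F x = 0} := ⟨⟨hx, hxl.le.trans hy1K.2⟩, he⟩
    have : -eta y0 y1 ≤ -eta y0 x := hy1min hxK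
    linarith
  set QR := -eta y0 y1 with hQR
  obtain ⟨d, w, hd, hw, hgeo⟩ := exists_geo hy0 hy1
  have hQRc : QR = Real.cosh d := by rw [hQR, ← hgeo, eta_geo hy0 hw, neg_neg]
  have hd0 : d ≠ 0 := by
    intro h0
    rw [h0, (geo_zero y0 w).1] at hgeo
    rw [← hgeo] at hy1m
    linarith
  have hQR1 : 1 < QR := by rw [hQRc]; exact Real.one_lt_cosh.mpr hd0
  set Qr := (1 + QR) / 2 with hQrdef
  have hQr1 : 1 < Qr := by rw [hQrdef]; linarith
  have hQrQR : Qr < QR := by rw [hQrdef]; linarith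
  -- gap on the inner sphere
  obtain ⟨δ, hδ, hgap⟩ : ∃ δ : ℝ, 0 < δ ∧ ∀ x ∈ H2, -eta y0 x = Qr → F x ≤ -δ := by
    have hSc : IsCompact {x | x ∈ H2 ∧ -eta y0 x = Qr} := by
      have h1 : {x | x ∈ H2 ∧ -eta y0 x = Qr} =
          {x | x ∈ H2 ∧ -eta y0 x ≤ Qr} ∩ {x | -eta y0 x = Qr} := by
        ext x
        simp only [Set.mem_ofPred_eq, Set.mem_inter_iff]
        constructor
        · rintro ⟨h1, h2⟩; exact ⟨⟨h1, h2.le⟩, h2⟩
        · rintro ⟨⟨h1, _⟩, h2⟩; exact ⟨h1, h2⟩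
      rw [h1]
      exact (H2_ball hy0 Qr).inter_right (isClosed_eq hQc continuous_const)
    rcases Set.eq_empty_or_nonempty {x | x ∈ H2 ∧ -eta y0 x = Qr} with hE | hE
    · refine ⟨1, one_pos, fun x hx hxQ => ?_⟩
      exfalso
      have : x ∈ {x | x ∈ H2 ∧ -eta y0 x = Qr} := ⟨hx, hxQ⟩
      rw [hE] at this
      exact this
    · obtain ⟨xs, hxs, hxsmax⟩ := hSc.exists_isMaxOn hE (hFc.mono (fun x hx => hx.1))
      refine ⟨-F xs, ?_, fun x hx hxQ => ?_⟩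
      · have := hclose xs hxs.1 (by rw [hxs.2]; exact hQrQR)
        linarith
      · have : F x ≤ F xs := hxsmax (⟨hx, hxQ⟩ : x ∈ {x | x ∈ H2 ∧ -eta y0 x = Qr})
        linarith
  -- the parameters
  obtain ⟨k, hk0, e0, he00, hpt⟩ := hopf_point h h₀ hi hZ hZ₀ hn hy0 hQr1 hQrQR
  obtain ⟨e, he0, hee0, heδ⟩ : ∃ e : ℝ, 0 < e ∧ e ≤ e0 ∧ e < δ :=
    ⟨min e0 (δ / 2), lt_min he00 (by linarith), min_le_left _ _,
      (min_le_right _ _).trans_lt (by linarith)⟩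
  -- the barrier inequality
  have hbar : ∀ x ∈ H2, Qr ≤ -eta y0 x → -eta y0 x ≤ QR →
      F x + e * (Real.exp (k * eta y0 x) - Real.exp (-(k * QR))) ≤ 0 := by
    have hQc' : Continuous (fun z : V3 => eta y0 z) := by
      unfold eta
      fun_prop
    have hAc : IsCompact ({x | x ∈ H2 ∧ -eta y0 x ≤ QR} ∩ {x | Qr ≤ -eta y0 x}) :=
      (H2_ball hy0 QR).inter_right (isClosed_le continuous_const hQc)
    have hψc : ContinuousOn (fun x => F x + e * (Real.exp (k * eta y0 x) -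
        Real.exp (-(k * QR)))) ({x | x ∈ H2 ∧ -eta y0 x ≤ QR} ∩ {x | Qr ≤ -eta y0 x}) := by
      refine ContinuousOn.add (hFc.mono (fun x hx => hx.1.1)) ?_
      exact (continuous_const.mul (((continuous_const.mul hQc').rexp).sub
        continuous_const)).continuousOn
    intro x hx hx1 hx2
    by_contra hcon
    push Not at hcon
    obtain ⟨z, hz, hzmax⟩ := hAc.exists_isMaxOn ⟨x, ⟨⟨hx, hx2⟩, hx1⟩⟩ hψc
    have hzx : F x + e * (Real.exp (k * eta y0 x) - Real.exp (-(k * QR))) ≤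
        F z + e * (Real.exp (k * eta y0 z) - Real.exp (-(k * QR))) :=
      hzmax (show x ∈ {x | x ∈ H2 ∧ -eta y0 x ≤ QR} ∩ {x | Qr ≤ -eta y0 x} from ⟨⟨hx, hx2⟩, hx1⟩)
    have hzp : 0 < F z + e * (Real.exp (k * eta y0 z) - Real.exp (-(k * QR))) := by
      linarith
    have hz1 : Qr < -eta y0 z := by
      refine lt_of_le_of_ne hz.2 (fun he => ?_)
      have h1 := hgap z hz.1.1 he.symm
      have h2 : Real.exp (k * eta y0 z) ≤ 1 := by
        rw [Real.exp_le_one_iff]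
        have : eta y0 z = -Qr := by rw [he, neg_neg]
        rw [this]
        nlinarith
      have h3 := Real.exp_pos (-(k * QR))
      have h4 : e * (Real.exp (k * eta y0 z) - Real.exp (-(k * QR))) ≤ e * 1 :=
        mul_le_mul_of_nonneg_left (by linarith) he0.le
      linarith
    have hz2 : -eta y0 z < QR := by
      refine lt_of_le_of_ne hz.1.2 (fun he => ?_)
      have h5 : k * eta y0 z = -(k * QR) := by rw [← he]; ring
      rw [h5, sub_self, mul_zero, add_zero] at hzp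
      have := hF0 z hz.1.1
      linarith
    have hloc : ∀ u, UT z u → ∀ᶠ s in nhds (0 : ℝ),
        (q (S.X (geo z u s)) Z - q (S₀.X (geo z u s)) Z₀) +
        e * (Real.exp (k * eta y0 (geo z u s)) - Real.exp (-(k * QR))) ≤
        (q (S.X z) Z - q (S₀.X z) Z₀) + e * (Real.exp (k * eta y0 z) - Real.exp (-(k * QR))) := by
      intro u hu
      have hc : Continuous (fun s : ℝ => -eta y0 (geo z u s)) := by
        have : (fun s : ℝ => -eta y0 (geo z u s)) =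
            fun s => -((eta y0 z) * Real.cosh s + (eta y0 u) * Real.sinh s) := by
          funext s
          rw [hopf2_eta_geo]
        rw [this]
        fun_prop
      have hat : Filter.Tendsto (fun s : ℝ => -eta y0 (geo z u s)) (nhds 0) (nhds (-eta y0 z)) := by
        have := hc.tendsto 0
        rwa [(geo_zero z u).1] at this
      filter_upwards [hat.eventually (lt_mem_nhds hz1), hat.eventually (gt_mem_nhds hz2)] with s hs1 hs2
      have := hzmax (show geo z u s ∈ {x | x ∈ H2 ∧ -eta y0 x ≤ QR} ∩ {x | Qr ≤ -eta y0 x} from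
        ⟨⟨geo_mem hz.1.1 hu s, hs2.le⟩, hs1.le⟩)
      simp only [Set.mem_ofPred_eq, hF] at this
      exact this
    refine hpt e he0 hee0 z hz.1.1 hz1.le hz2.le ?_ ?_ ?_ ?_
    · have := hF0 z hz.1.1
      rw [hF] at this
      linarith
    · rw [hF] at hzp
      linarith
    · intro u hu
      exact (hopf2_point h h₀ hz.1.1 hu y0 e k _ (hloc u hu)).1
    · intro u hu
      exact (hopf2_point h h₀ hz.1.1 hu y0 e k _ (hloc u hu)).2
  -- Hopf at y1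
  obtain ⟨d', u, hd', hu, hgeo'⟩ := exists_geo hy1 hy0
  have hsymm : ∀ p r : V3, eta p r = eta r p := by
    intro p r; simp only [eta]; ring
  have hQ' : QR = Real.cosh d' := by
    rw [hQR, hsymm, ← hgeo', eta_geo hy1 hu, neg_neg]
  have hd'0 : 0 < d' := by
    rcases hd'.lt_or_eq with h1 | h1
    · exact h1
    · exfalso
      rw [← h1, Real.cosh_zero] at hQ'
      linarith
  have hP : eta y0 u = Real.sinh d' := by
    have h1 : eta y1 u = 0 := hu.1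
    have h2 : eta u u = 1 := hu.2
    have h3 : eta y0 u = Real.cosh d' * eta y1 u + Real.sinh d' * eta u u := by
      rw [← hgeo']
      simp only [eta, geo, Pi.add_apply, Pi.smul_apply, smul_eq_mul]
      ring
    rw [h3, h1, h2]; ring
  obtain ⟨hg0, hg0'⟩ := geo_zero y1 u
  have hcrit : q (S.dX y1 u) Z - q (S₀.dX y1 u) Z₀ = 0 := by
    have hF' := hopf2_der h h₀ (Z := Z) (Z₀ := Z₀) hy1 hu 0 0 0 0 0 0
    have hmx : IsLocalMax (fun s => (q (S.X (geo y1 u s)) Z - q (S₀.X (geo y1 u s)) Z₀) +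
      0 * (Real.exp (0 * (0 * Real.cosh s + 0 * Real.sinh s)) - 0)) 0 := by
      refine Filter.Eventually.of_forall fun s => ?_
      simp only [zero_mul, add_zero]
      rw [← hF, ← hF, hg0, hy1m]
      exact hF0 _ (geo_mem hy1 hu s)
    have := hmx.hasDerivAt_eq_zero hF'
    simpa [hg0, hg0'] using this
  have hder := hopf2_der h h₀ (Z := Z) (Z₀ := Z₀) hy1 hu (eta y0 y1) (eta y0 u) e k
    (Real.exp (-(k * QR))) 0
  have hy1Q : eta y0 y1 = -QR := by rw [hQR, neg_neg]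
  have hder' : HasDerivAt (fun s => (q (S.X (geo y1 u s)) Z - q (S₀.X (geo y1 u s)) Z₀) +
      e * (Real.exp (k * (eta y0 y1 * Real.cosh s + eta y0 u * Real.sinh s)) -
        Real.exp (-(k * QR)))) (e * (Real.exp (-(k * QR)) * (k * Real.sinh d'))) 0 := by
    refine HasDerivAt.congr_deriv hder ?_
    rw [hg0, hg0', hcrit, hP, hy1Q]
    simp only [Real.cosh_zero, Real.sinh_zero, mul_one, mul_zero, add_zero, zero_add]
    rw [mul_neg]
  have hcpos : 0 < e * (Real.exp (-(k * QR)) * (k * Real.sinh d')) := by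
    have h1 : 0 < Real.sinh d' := Real.sinh_pos_iff.mpr hd'0
    have h2 := Real.exp_pos (-(k * QR))
    positivity
  have hf0 : (fun s => (q (S.X (geo y1 u s)) Z - q (S₀.X (geo y1 u s)) Z₀) +
      e * (Real.exp (k * (eta y0 y1 * Real.cosh s + eta y0 u * Real.sinh s)) -
        Real.exp (-(k * QR)))) 0 = 0 := by
    simp only [Real.cosh_zero, Real.sinh_zero, mul_one, mul_zero, add_zero]
    rw [hg0, ← hF, hy1m, hy1Q, mul_neg, sub_self, mul_zero, add_zero]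
  -- the derivative is positive but the function is `≤ 0` to the right
  have hslope := hasDerivAt_iff_tendsto_slope.mp hder'
  have hev : ∀ᶠ s in nhdsWithin (0 : ℝ) {0}ᶜ, 0 < slope (fun s => (q (S.X (geo y1 u s)) Z -
      q (S₀.X (geo y1 u s)) Z₀) +
      e * (Real.exp (k * (eta y0 y1 * Real.cosh s + eta y0 u * Real.sinh s)) -
        Real.exp (-(k * QR)))) 0 s := hslope.eventually (lt_mem_nhds hcpos)
  have hev2 : ∀ᶠ s in nhdsWithin (0 : ℝ) (Set.Ioi 0), 0 < slope (fun s => (q (S.X (geo y1 u s)) Z -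
      q (S₀.X (geo y1 u s)) Z₀) +
      e * (Real.exp (k * (eta y0 y1 * Real.cosh s + eta y0 u * Real.sinh s)) -
        Real.exp (-(k * QR)))) 0 s :=
    hev.filter_mono (nhdsWithin_mono 0 (fun s hs => ne_of_gt hs))
  have hcontQ : Continuous (fun s : ℝ => -(eta y0 y1 * Real.cosh s + eta y0 u * Real.sinh s)) := by
    fun_prop
  have hev3 : ∀ᶠ s in nhds (0 : ℝ), Qr < -(eta y0 y1 * Real.cosh s + eta y0 u * Real.sinh s) := by
    have h0 : -(eta y0 y1 * Real.cosh 0 + eta y0 u * Real.sinh 0) = QR := by simp [hQR]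
    have := hcontQ.continuousAt.tendsto (x := (0 : ℝ))
    exact this.eventually (lt_mem_nhds (by rw [h0]; exact hQrQR))
  have hev4 : ∀ᶠ s in nhds (0 : ℝ), s < d' := Iio_mem_nhds hd'0
  have hall := hev2.and ((hev3.and hev4).filter_mono nhdsWithin_le_nhds |>.and
    (self_mem_nhdsWithin : Set.Ioi (0 : ℝ) ∈ nhdsWithin (0 : ℝ) (Set.Ioi 0)))
  obtain ⟨s, hs1, ⟨hs3, hs4⟩, hs5⟩ := hall.exists
  have hs5' : 0 < s := hs5
  rw [slope_def_field] at hs1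
  have hs6 : 0 < (q (S.X (geo y1 u s)) Z - q (S₀.X (geo y1 u s)) Z₀) +
      e * (Real.exp (k * (eta y0 y1 * Real.cosh s + eta y0 u * Real.sinh s)) -
        Real.exp (-(k * QR))) := by
    have h1 := (div_pos_iff_of_pos_right (by linarith : 0 < s - 0)).mp hs1
    simp only at hf0
    simp only [hf0] at h1
    linarith
  have hs7 : -(eta y0 y1 * Real.cosh s + eta y0 u * Real.sinh s) ≤ QR := by
    have h1 : -(eta y0 y1 * Real.cosh s + eta y0 u * Real.sinh s) = Real.cosh (d' - s) := by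
      rw [hy1Q, hQ', hP, Real.cosh_sub]; ring
    rw [h1, hQ', Real.cosh_le_cosh, abs_of_nonneg (by linarith), abs_of_nonneg hd']
    linarith
  have hs8 := hbar (geo y1 u s) (geo_mem hy1 hu s) (by rw [hopf2_eta_geo]; exact hs3.le)
    (by rw [hopf2_eta_geo]; exact hs7)
  rw [hopf2_eta_geo, hF] at hs8
  linarith

end A_hopf2

alias hopf2 := A_hopf2.hopf2

end Helper935.AdS
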