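import Pool.Agent.Helper935_AdS.Surf

namespace Helper935.AdS

namespace A_linearise

/- Proof:
One surface with a constant height: q (X x) E = c for all x in H2 where c^2 = 1-a^2, q E E = -1, q (N x) E = n fixed sign. (c = height). Since q (X .) E is constant, extX for E and -E gives q E (dX x v) = 0 and a^2 c + II(v,v) q(N x) E = 0 for all unit v; decomp: E = -c X x - q (N x) E * N x, so (q (N x) E)^2 = 1 - c^2 = a^2, q (N x) E is nonzero and by continuity (or sign hypothesis) equal to n0, |n0| = a. Put P(x) = X x + c E (q P E = 0, q P P = -1 + c^2 = -a^2). Along a geodesic P'' = a^2 X + II N = a^2 X - (a^2 c / n0) N, and N = -(E + c X)/n0, so P'' = a^2 X + (a^2 c/n0^2)(E + c X) = a^2 X + c E + c^2 X = X + c E = P (n0^2 = a^2, a^2 + c^2 = 1). Hence P(geo x v s) = cosh s P(x) + sinh s dX x v. Fix x0 = (1,0,0), e1 = (0,1,0), e2 = (0,0,1) and define L linear by L x0 = P(x0)/a, L e_i = dX x0 e_i / a. Every y in H2 is geo x0 v d with v = v1 e1 + v2 e2, so P(y) = a L(y) by linearity of dX x0.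 L is isometric: q(L x)(L y) = eta x y on the basis, and q (L x) E = 0.
-/
theorem linearise {a : ℝ} {X N : V3 → V4} {dX dN : V3 → V3 → V4} (h : Core a X N dX dN) {E : V4}
    (hEE : q E E = -1) {c : ℝ} (hc : c ^ 2 = 1 - a ^ 2) (hX : ∀ x ∈ H2, q (X x) E = c)
    : ∃ L : V3 →ₗ[ℝ] V4, (∀ x y, q (L x) (L y) = eta x y) ∧ (∀ x, q (L x) E = 0) ∧
      (∀ x ∈ H2, X x = a • L x - c • E) ∧ (∀ x ∈ H2, ∀ v, eta x v = 0 → dX x v = a • L v) := by
  classical
  have hc0 : 0 < c ^ 2 := by rw [hc]; nlinarith [h.a_pos, h.a_lt]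
  have hcne : c ≠ 0 := by rintro rfl; simp at hc0
  have qcomm : ∀ A B : V4, q A B = q B A := by intro A B; simp only [q]; ring
  have qaddl : ∀ A B C : V4, q (A + B) C = q A C + q B C := by
    intro A B C; simp only [q, Pi.add_apply]; ring
  have qsmull : ∀ (t : ℝ) (A C : V4), q (t • A) C = t * q A C := by
    intro t A C; simp only [q, Pi.smul_apply, smul_eq_mul]; ring
  have qaddr : ∀ A B C : V4, q A (B + C) = q A B + q A C := by
    intro A B C; simp only [q, Pi.add_apply]; ring
  have qsmulr : ∀ (t : ℝ) (A C : V4), q A (t • C) = t * q A C := by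
    intro t A C; simp only [q, Pi.smul_apply, smul_eq_mul]; ring
  have qnegr : ∀ A C : V4, q A (-C) = - q A C := by
    intro A C; simp only [q, Pi.neg_apply]; ring
  have qnegl : ∀ A C : V4, q (-A) C = - q A C := by
    intro A C; simp only [q, Pi.neg_apply]; ring
  -- first order and second order conditions
  have h1 : ∀ x ∈ H2, ∀ v, UT x v → q E (dX x v) = 0 ∧
      a ^ 2 * c + q (dN x v) (dX x v) * q (N x) E = 0 := by
    intro x hx v hv
    obtain ⟨h2, h3⟩ := extX h hx (Z := E) (fun y hy => by rw [hX y hy, hX x hx]) hv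
    obtain ⟨_, h5⟩ := extX h hx (Z := -E) (fun y hy => by
      rw [qnegr, qnegr, hX y hy, hX x hx]) hv
    rw [qnegr, qnegr, hX x hx] at h5
    rw [hX x hx] at h3
    exact ⟨h2, by linarith⟩
  have h2 : ∀ x ∈ H2, E = (-c) • X x + (-(q (N x) E)) • N x := by
    intro x hx
    have := decomp h hx (Z := E) (fun v hv => (h1 x hx v hv).1)
    rw [hX x hx] at this
    exact this
  have h3 : ∀ x ∈ H2, q (N x) E ^ 2 = a ^ 2 := by
    intro x hx
    have h4 : q E E = (-c) * q (X x) E + (-(q (N x) E)) * q (N x) E := by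
      conv_lhs => rw [h2 x hx]
      rw [qaddl, qsmull, qsmull]
      congr 1 <;> rw [← h2 x hx]
    rw [hEE, hX x hx] at h4
    nlinarith
  have hn : ∀ x ∈ H2, q (N x) E ≠ 0 := by
    intro x hx h4
    have := h3 x hx
    rw [h4] at this
    nlinarith [h.a_pos]
  -- the second derivative along geodesics
  have h4 : ∀ x ∈ H2, ∀ v, UT x v →
      a ^ 2 • X x + q (dN x v) (dX x v) • N x = X x + c • E := by
    intro x hx v hv
    have h5 := (h1 x hx v hv).2
    have h6 := h3 x hx
    have h7 := hn x hx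
    have h8 : q (N x) E • N x = -E - c • X x := by
      have := h2 x hx
      nth_rewrite 2 [this]
      module
    have h9 : q (dN x v) (dX x v) = -(c * q (N x) E) := by
      have : (q (dN x v) (dX x v) + c * q (N x) E) * q (N x) E = 0 := by
        rw [← h6] at h5
        nlinarith
      rcases mul_eq_zero.1 this with h | h
      · linarith
      · exact absurd h h7
    rw [h9]
    have h10 : (-(c * q (N x) E)) • N x = c • E + (c ^ 2) • X x := by
      have : (-(c * q (N x) E)) • N x = (-c) • (q (N x) E • N x) := by module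
      rw [this, h8]
      module
    rw [h10, hc]
    module
  -- the solution along geodesics
  have h5 : ∀ x ∈ H2, ∀ v, UT x v → ∀ s : ℝ,
      X (geo x v s) + c • E = Real.cosh s • (X x + c • E) + Real.sinh s • dX x v := by
    intro x hx v hv s
    have hp : ∀ s : ℝ, HasDerivAt (fun s => X (geo x v s) + c • E)
        (dX (geo x v s) (geo' x v s)) s := fun s => (h.geoX x hx v hv s).add_const _
    have hr : ∀ s : ℝ, HasDerivAt (fun s => dX (geo x v s) (geo' x v s))
        (X (geo x v s) + c • E) s := by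
      intro s
      have h6 := h.geodX x hx v hv s
      rw [h4 _ (geo_mem hx hv s) _ (geo_UT hx hv s)] at h6
      exact h6
    have hA : ∀ s : ℝ, HasDerivAt (fun s => Real.cosh s • (X (geo x v s) + c • E)
        - Real.sinh s • dX (geo x v s) (geo' x v s)) 0 s := by
      intro s
      have h6 := ((Real.hasDerivAt_cosh s).smul (hp s)).sub
        ((Real.hasDerivAt_sinh s).smul (hr s))
      refine HasDerivAt.congr_deriv h6 ?_
      module
    have hB : ∀ s : ℝ, HasDerivAt (fun s => Real.cosh s • dX (geo x v s) (geo' x v s)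
        - Real.sinh s • (X (geo x v s) + c • E)) 0 s := by
      intro s
      have h6 := ((Real.hasDerivAt_cosh s).smul (hr s)).sub
        ((Real.hasDerivAt_sinh s).smul (hp s))
      refine HasDerivAt.congr_deriv h6 ?_
      module
    have hA' := is_const_of_deriv_eq_zero (fun s => (hA s).differentiableAt)
      (fun s => (hA s).deriv) s 0
    have hB' := is_const_of_deriv_eq_zero (fun s => (hB s).differentiableAt)
      (fun s => (hB s).deriv) s 0
    simp only [(geo_zero x v).1, (geo_zero x v).2, Real.cosh_zero, Real.sinh_zero, one_smul,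
      zero_smul, sub_zero] at hA' hB'
    rw [← hA', ← hB']
    have h6 : Real.cosh s ^ 2 - Real.sinh s ^ 2 = 1 := Real.cosh_sq_sub_sinh_sq s
    have h7 : Real.cosh s • (Real.cosh s • (X (geo x v s) + c • E) -
        Real.sinh s • dX (geo x v s) (geo' x v s)) +
        Real.sinh s • (Real.cosh s • dX (geo x v s) (geo' x v s) -
        Real.sinh s • (X (geo x v s) + c • E)) =
        (Real.cosh s ^ 2 - Real.sinh s ^ 2) • (X (geo x v s) + c • E) := by module
    rw [h7, h6, one_smul]
  -- the base point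
  set x0 : V3 := ![1, 0, 0] with hx0
  set e1 : V3 := ![0, 1, 0] with he1
  set e2 : V3 := ![0, 0, 1] with he2
  have hx0H : x0 ∈ H2 := by
    simp [H2, eta, hx0]
  have hu1 : UT x0 e1 := by simp [UT, eta, hx0, he1]
  have hu2 : UT x0 e2 := by simp [UT, eta, hx0, he2]
  have hapos := h.a_pos
  have hane : a ≠ 0 := hapos.ne'
  let L : V3 →ₗ[ℝ] V4 :=
    { toFun := fun u => (u 0 / a) • (X x0 + c • E) + (u 1 / a) • dX x0 e1 + (u 2 / a) • dX x0 e2
      map_add' := by
        intro u w
        simp only [Pi.add_apply, add_div]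
        module
      map_smul' := by
        intro t u
        simp only [Pi.smul_apply, smul_eq_mul, RingHom.id_apply, mul_div_assoc]
        module }
  have hL : ∀ u, L u = (u 0 / a) • (X x0 + c • E) + (u 1 / a) • dX x0 e1 + (u 2 / a) • dX x0 e2 :=
    fun u => rfl
  have hLtan : ∀ v, UT x0 v → dX x0 v = a • L v := by
    intro v hv
    have hv0 : v 0 = 0 := by
      have := hv.1
      simp [eta, hx0] at this
      exact this
    have hv' : v = v 1 • e1 + v 2 • e2 := by
      ext i
      fin_cases i <;> simp [he1, he2, hv0]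
    have h6 : dX x0 v = v 1 • dX x0 e1 + v 2 • dX x0 e2 := by
      conv_lhs => rw [hv']
      rw [h.dX_add x0 hx0H, h.dX_smul x0 hx0H, h.dX_smul x0 hx0H]
    rw [h6, hL, hv0]
    have h8 : ∀ t : ℝ, a * (t / a) = t := fun t => by field_simp
    rw [smul_add, smul_add, smul_smul, smul_smul, smul_smul, h8, h8, h8, zero_smul, zero_add]
  have hP : ∀ y ∈ H2, X y + c • E = a • L y := by
    intro y hy
    obtain ⟨d, v, _, hv, rfl⟩ := exists_geo hx0H hy
    rw [h5 x0 hx0H v hv d, hLtan v hv]
    have h6 : X x0 + c • E = a • L x0 := by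
      have h8 : ∀ t : ℝ, a * (t / a) = t := fun t => by field_simp
      have h9 : x0 0 = 1 := rfl
      have h10 : x0 1 = 0 := rfl
      have h11 : x0 2 = 0 := rfl
      rw [hL, smul_add, smul_add, smul_smul, smul_smul, smul_smul, h8, h8, h8, h9, h10, h11,
        one_smul, zero_smul, zero_smul, add_zero, add_zero]
    rw [h6]
    have h7 : L (geo x0 v d) = Real.cosh d • L x0 + Real.sinh d • L v := by
      rw [geo, map_add, map_smul, map_smul]
    rw [h7]
    module
  have hdX : ∀ y ∈ H2, ∀ u, UT y u → dX y u = a • L u := by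
    intro y hy u hu
    have h6 := h5 y hy u hu 1
    rw [hP _ (geo_mem hy hu 1), hP y hy, geo, map_add, map_smul, map_smul] at h6
    have h7 : Real.sinh 1 • dX y u = Real.sinh 1 • (a • L u) := by
      have h8 : a • (Real.cosh 1 • L y + Real.sinh 1 • L u) =
        Real.cosh 1 • a • L y + Real.sinh 1 • (a • L u) := by module
      rw [h8] at h6
      exact (add_left_cancel h6).symm
    have h8 : Real.sinh 1 ≠ 0 := (Real.sinh_pos_iff.2 one_pos).ne'
    exact smul_right_injective _ h8 h7
  have qPE : q (X x0 + c • E) E = 0 := by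
    rw [qaddl, qsmull, hX x0 hx0H, hEE]; ring
  have qPP : q (X x0 + c • E) (X x0 + c • E) = -a ^ 2 := by
    rw [qaddr, qsmulr, qPE, qaddl, qsmull, h.XX x0 hx0H, qcomm E, hX x0 hx0H]
    nlinarith
  have qEd : ∀ u, UT x0 u → q (dX x0 u) E = 0 := fun u hu => by
    rw [qcomm]; exact (h1 x0 hx0H u hu).1
  have qPd : ∀ u, UT x0 u → q (X x0 + c • E) (dX x0 u) = 0 := fun u hu => by
    rw [qaddl, qsmull, h.XdX x0 hx0H u hu.1, (h1 x0 hx0H u hu).1]; ring
  refine ⟨L, ?_, ?_, ?_, ?_⟩
  · intro x y
    have h11 := h.metric x0 hx0H e1 e1 hu1.1 hu1.1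
    have h12 := h.metric x0 hx0H e1 e2 hu1.1 hu2.1
    have h22 := h.metric x0 hx0H e2 e2 hu2.1 hu2.1
    have h21 := h.metric x0 hx0H e2 e1 hu2.1 hu1.1
    have e11 : eta e1 e1 = 1 := hu1.2
    have e22 : eta e2 e2 = 1 := hu2.2
    have e12 : eta e1 e2 = 0 := by simp [eta, he1, he2]
    have e21 : eta e2 e1 = 0 := by simp [eta, he1, he2]
    rw [e11] at h11
    rw [e12] at h12
    rw [e22] at h22
    rw [e21] at h21
    rw [hL x, hL y]
    simp only [qaddl, qsmull, qaddr, qsmulr]
    have p1 := qPd e1 hu1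
    have p2 := qPd e2 hu2
    have pp := qPP
    simp only [qaddl, qsmull, qaddr, qsmulr] at p1 p2 pp
    have p1' : q (dX x0 e1) (X x0) + c * q (dX x0 e1) E = 0 := by
      rw [qcomm (dX x0 e1) (X x0), qcomm (dX x0 e1) E]; exact p1
    have p2' : q (dX x0 e2) (X x0) + c * q (dX x0 e2) E = 0 := by
      rw [qcomm (dX x0 e2) (X x0), qcomm (dX x0 e2) E]; exact p2
    rw [h11, h12, h22, h21, p1', p2']
    simp only [eta]
    field_simp
    linear_combination (x 0 * y 0) * pp + (x 0 * y 1) * p1 + (x 0 * y 2) * p2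
  · intro x
    rw [hL x]
    simp only [qaddl, qsmull]
    have h6 := qEd e1 hu1
    have h7 := qEd e2 hu2
    have h8 := qPE
    simp only [qaddl, qsmull] at h8
    rw [h6, h7, h8]
    ring
  · intro x hx
    rw [← hP x hx]
    module
  · intro x hx v hv
    obtain ⟨u, hu⟩ := exists_UT hx
    obtain ⟨w, hw⟩ := exists_ON hx hu
    have hw' : UT x w := ⟨hw.2.1, hw.2.2.2.1⟩
    have h6 := tangent_expand hx hw hv
    have h7 : dX x v = eta v u • dX x u + eta v w • dX x w := by
      conv_lhs => rw [h6]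
      rw [h.dX_add x hx, h.dX_smul x hx, h.dX_smul x hx]
    rw [h7, hdX x hx u hu, hdX x hx w hw']
    conv_rhs => rw [h6]
    rw [map_add, map_smul, map_smul]
    module

end A_linearise

alias linearise := A_linearise.linearise

namespace A_same_map

private theorem q_comm' (X Y : V4) : q X Y = q Y X := by unfold q; ring

private theorem q_add_left' (X Y Z : V4) : q (X + Y) Z = q X Z + q Y Z := by
  simp only [q, Pi.add_apply]; ring

private theorem q_smul_left' (c : ℝ) (X Z : V4) : q (c • X) Z = c * q X Z := by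
  simp only [q, Pi.smul_apply, smul_eq_mul]; ring

private theorem q_add_right' (X Y Z : V4) : q X (Y + Z) = q X Y + q X Z := by
  simp only [q, Pi.add_apply]; ring

private theorem q_smul_right' (c : ℝ) (X Z : V4) : q X (c • Z) = c * q X Z := by
  simp only [q, Pi.smul_apply, smul_eq_mul]; ring

/-- an `eta`-preserving linear map into `N^perp` is onto `N^perp` -/
private theorem exists_preimage {N : V4} (hNN : q N N = -1) {L : V3 →ₗ[ℝ] V4}
    (h1 : ∀ x y, q (L x) (L y) = eta x y) (h1N : ∀ x, q (L x) N = 0) (Y : V4) (hY : q Y N = 0) :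
    ∃ w, L w = Y := by
  let M : (V3 × ℝ) →ₗ[ℝ] V4 := L.coprod (LinearMap.toSpanSingleton ℝ V4 N)
  have hM : ∀ w t, M (w, t) = L w + t • N := by
    intro w t
    simp [M, LinearMap.coprod_apply, LinearMap.toSpanSingleton_apply]
  have hinj : Function.Injective M := by
    rw [← LinearMap.ker_eq_bot, LinearMap.ker_eq_bot']
    rintro ⟨w, t⟩ h
    rw [hM] at h
    have ht : t = 0 := by
      have h' : q (L w + t • N) N = 0 := by rw [h]; simp [q]
      rw [q_add_left', q_smul_left', h1N, hNN] at h'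
      linarith
    subst ht
    rw [zero_smul, add_zero] at h
    have hw : ∀ y, eta w y = 0 := by
      intro y
      rw [← h1, h]; simp [q]
    have w0 := hw ![1, 0, 0]
    have w1 := hw ![0, 1, 0]
    have w2 := hw ![0, 0, 1]
    simp [eta] at w0 w1 w2
    have : w = 0 := by
      funext i
      fin_cases i
      · simpa using w0
      · simpa using w1
      · simpa using w2
    rw [this]; rfl
  have hfr : Module.finrank ℝ (V3 × ℝ) = Module.finrank ℝ V4 := by
    simp [V3, V4]
  have hsur : Function.Surjective M :=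
    (LinearMap.injective_iff_surjective_of_finrank_eq_finrank hfr).1 hinj
  obtain ⟨⟨w, t⟩, hwt⟩ := hsur Y
  rw [hM] at hwt
  have ht : t = 0 := by
    have h' : q (L w + t • N) N = 0 := by rw [hwt, hY]
    rw [q_add_left', q_smul_left', h1N, hNN] at h'
    linarith
  subst ht
  exact ⟨w, by simpa using hwt⟩

/-- a quadratic growth argument -/
private theorem zero_of_bdd {A B D C : ℝ}
    (h : ∀ t : ℝ, 1 ≤ t → |t ^ 2 * A + B + (t ^ 2)⁻¹ * D| ≤ C) : A = 0 := by
  by_contra hA
  have hA' : 0 < |A| := abs_pos.2 hA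
  have hC : 0 ≤ C := le_trans (abs_nonneg _) (h 1 le_rfl)
  set K : ℝ := (C + |B| + |D|) / |A| + 1 with hK
  have hK1 : 1 ≤ K := by
    have : 0 ≤ (C + |B| + |D|) / |A| := by positivity
    linarith
  have h1 := h K hK1
  have hKK : K ≤ K ^ 2 := by nlinarith
  have hinv : (K ^ 2)⁻¹ ≤ 1 := inv_le_one_of_one_le₀ (by nlinarith)
  have hinv0 : 0 ≤ (K ^ 2)⁻¹ := by positivity
  have h2 : K ^ 2 * |A| ≤ C + |B| + |D| := by
    have e : K ^ 2 * |A| = |(K ^ 2 * A + B + (K ^ 2)⁻¹ * D) - B - (K ^ 2)⁻¹ * D| := by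
      rw [show (K ^ 2 * A + B + (K ^ 2)⁻¹ * D) - B - (K ^ 2)⁻¹ * D = K ^ 2 * A by ring, abs_mul,
        abs_of_nonneg (by positivity : (0:ℝ) ≤ K ^ 2)]
    rw [e]
    have a1 := abs_sub ((K ^ 2 * A + B + (K ^ 2)⁻¹ * D) - B) ((K ^ 2)⁻¹ * D)
    have a2 := abs_sub (K ^ 2 * A + B + (K ^ 2)⁻¹ * D) B
    have a3 : |(K ^ 2)⁻¹ * D| ≤ |D| := by
      rw [abs_mul, abs_of_nonneg hinv0]
      exact mul_le_of_le_one_left (abs_nonneg _) hinv
    linarith
  have h3 : K * |A| = C + |B| + |D| + |A| := by
    rw [hK]; field_simp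
  nlinarith [mul_le_mul_of_nonneg_right hKK hA'.le]

theorem same_map {G : Set ((V3 ≃ₗ[ℝ] V3) × (V4 ≃ₗ[ℝ] V4))} {F : Set V3} (hFsub : F ⊆ H2) (hF : IsCompact F)
    (hcov : ∀ x ∈ H2, ∃ g ∈ G, g.1 x ∈ F) (hGq : ∀ g ∈ G, ∀ X Y, q (g.2 X) (g.2 Y) = q X Y)
    {N : V4} (hNN : q N N = -1) {L₁ L₂ : V3 →ₗ[ℝ] V4}
    (h1 : ∀ x y, q (L₁ x) (L₁ y) = eta x y) (h2 : ∀ x y, q (L₂ x) (L₂ y) = eta x y)
    (h1N : ∀ x, q (L₁ x) N = 0) (h2N : ∀ x, q (L₂ x) N = 0)
    (e1 : ∀ g ∈ G, ∀ x ∈ H2, L₁ (g.1 x) = g.2 (L₁ x)) (e2 : ∀ g ∈ G, ∀ x ∈ H2, L₂ (g.1 x) = g.2 (L₂ x))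
    {C : ℝ} (hlt : ∀ x ∈ H2, ∀ y ∈ H2, q (L₁ x) (L₂ y) ≤ C) :
    L₁ = L₂ := by
  -- boundedness of `f x = q (L₁ x) (L₂ x)` on `H2`
  have c1 : Continuous L₁ := L₁.continuous_of_finiteDimensional
  have c2 : Continuous L₂ := L₂.continuous_of_finiteDimensional
  have hcont : Continuous (fun x : V3 => q (L₁ x) (L₂ x)) := by
    unfold q
    fun_prop
  obtain ⟨K, hK⟩ := hF.exists_bound_of_continuousOn hcont.continuousOn
  have hb : ∀ x ∈ H2, |q (L₁ x) (L₂ x)| ≤ K := by
    intro x hx
    obtain ⟨g, hg, hgx⟩ := hcov x hx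
    have := hK _ hgx
    rw [e1 g hg x hx, e2 g hg x hx, hGq g hg, Real.norm_eq_abs] at this
    exact this
  -- null vectors
  have hnull : ∀ z z' : V3, eta z z = 0 → eta z' z' = 0 → eta z z' = -2 → z 0 = 1 → z' 0 = 1 →
      q (L₁ z) (L₂ z) = 0 := by
    intro z z' hz hz' hzz' hz0 hz'0
    have hmem : ∀ t : ℝ, 1 ≤ t → ((t / 2) • z + (1 / (2 * t)) • z') ∈ H2 := by
      intro t ht
      have ht0 : 0 < t := by linarith
      constructor
      · have : eta ((t / 2) • z + (1 / (2 * t)) • z') ((t / 2) • z + (1 / (2 * t)) • z')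
            = (t / 2) ^ 2 * eta z z + (1 / (2 * t)) ^ 2 * eta z' z'
              + 2 * ((t / 2) * (1 / (2 * t))) * eta z z' := by
          simp only [eta, Pi.add_apply, Pi.smul_apply, smul_eq_mul]; ring
        rw [this, hz, hz', hzz']
        field_simp
        ring
      · simp only [Pi.add_apply, Pi.smul_apply, smul_eq_mul, hz0, hz'0]
        positivity
    have key : ∀ t : ℝ, 1 ≤ t → |t ^ 2 * (q (L₁ z) (L₂ z) / 4)
        + (q (L₁ z) (L₂ z') + q (L₁ z') (L₂ z)) / 4 + (t ^ 2)⁻¹ * (q (L₁ z') (L₂ z') / 4)| ≤ K := by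
      intro t ht
      have ht0 : t ≠ 0 := by linarith
      have := hb _ (hmem t ht)
      simp only [map_add, map_smul, q_add_left', q_add_right', q_smul_left', q_smul_right'] at this
      convert this using 2
      field_simp
      ring
    have := zero_of_bdd key
    linarith
  -- proportionality on null vectors
  have hprop : ∀ z z' : V3, eta z z = 0 → eta z' z' = 0 → eta z z' = -2 → z 0 = 1 → z' 0 = 1 →
      (∀ w, eta w w = 0 → eta z w = 0 → w = w 0 • z) → ∃ c : ℝ, L₂ z = c • L₁ z := by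
    intro z z' hz hz' hzz' hz0 hz'0 hw
    obtain ⟨w, hww⟩ := exists_preimage hNN h1 h1N (L₂ z) (h2N z)
    have a1 : eta w w = 0 := by rw [← h1, hww, h2, hz]
    have a2 : eta z w = 0 := by rw [← h1, hww]; exact hnull z z' hz hz' hzz' hz0 hz'0
    refine ⟨w 0, ?_⟩
    rw [← hww]
    conv_lhs => rw [hw w a1 a2]
    rw [map_smul]
  obtain ⟨a, ha⟩ := hprop ![1, 1, 0] ![1, -1, 0] (by simp [eta]) (by simp [eta])
    (by simp [eta]; norm_num) (by simp) (by simp) (by
      intro w hw1 hw2
      simp [eta] at hw1 hw2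
      have b1 : w 1 = w 0 := by linarith
      have b2 : w 2 = 0 := by
        have : w 2 * w 2 = 0 := by rw [b1] at hw1; linarith
        exact mul_self_eq_zero.1 this
      funext i
      fin_cases i
      · simp
      · simpa using b1
      · simpa using b2)
  obtain ⟨b, hb'⟩ := hprop ![1, -1, 0] ![1, 1, 0] (by simp [eta]) (by simp [eta])
    (by simp [eta]; norm_num) (by simp) (by simp) (by
      intro w hw1 hw2
      simp [eta] at hw1 hw2
      have b1 : w 1 = - w 0 := by linarith
      have b2 : w 2 = 0 := by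
        have : w 2 * w 2 = 0 := by rw [b1] at hw1; linarith
        exact mul_self_eq_zero.1 this
      funext i
      fin_cases i
      · simp
      · simpa using b1
      · simpa using b2)
  obtain ⟨c, hc⟩ := hprop ![1, 0, 1] ![1, 0, -1] (by simp [eta]) (by simp [eta])
    (by simp [eta]; norm_num) (by simp) (by simp) (by
      intro w hw1 hw2
      simp [eta] at hw1 hw2
      have b1 : w 2 = w 0 := by linarith
      have b2 : w 1 = 0 := by
        have : w 1 * w 1 = 0 := by rw [b1] at hw1; linarith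
        exact mul_self_eq_zero.1 this
      funext i
      fin_cases i
      · simp
      · simpa using b2
      · simpa using b1)
  have hab : a * b = 1 := by
    have := h2 ![1, 1, 0] ![1, -1, 0]
    rw [ha, hb', q_smul_left', q_smul_right', h1] at this
    simp [eta] at this
    linarith
  have hac : a * c = 1 := by
    have := h2 ![1, 1, 0] ![1, 0, 1]
    rw [ha, hc, q_smul_left', q_smul_right', h1] at this
    simp [eta] at this
    linarith
  have hbc : b * c = 1 := by
    have := h2 ![1, -1, 0] ![1, 0, 1]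
    rw [hb', hc, q_smul_left', q_smul_right', h1] at this
    simp [eta] at this
    linarith
  have ha0 : a ≠ 0 := by rintro rfl; simp at hab
  have hc0 : c ≠ 0 := by rintro rfl; simp at hac
  have hbc' : b = c := mul_left_cancel₀ ha0 (hab.trans hac.symm)
  have hab' : a = b := mul_right_cancel₀ hc0 (hac.trans hbc.symm)
  subst hbc' 
  subst hab'
  have hlin : ∀ x : V3, L₂ x = a • L₁ x := by
    intro x
    have hx : x = ((x 0 - x 2 + x 1) / 2) • (![1, 1, 0] : V3) + ((x 0 - x 2 - x 1) / 2) • (![1, -1, 0] : V3)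
        + (x 2) • (![1, 0, 1] : V3) := by
      funext i
      fin_cases i
      · simp; ring
      · simp; ring
      · simp
    conv_lhs => rw [hx]
    conv_rhs => rw [hx]
    simp only [map_add, map_smul, ha, hb', hc, smul_add]
    simp only [smul_smul, mul_comm]
  rcases mul_self_eq_one_iff.1 hab with rfl | rfl
  · refine LinearMap.ext fun x => ?_
    rw [hlin x, one_smul]
  · exfalso
    set r : ℝ := |C| + 1 with hr
    have hr0 : 0 < r := by positivity
    have hs : Real.sqrt (1 + r ^ 2) ^ 2 = 1 + r ^ 2 := Real.sq_sqrt (by positivity)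
    have hspos : 0 < Real.sqrt (1 + r ^ 2) := Real.sqrt_pos.2 (by positivity)
    have hx : (![1, 0, 0] : V3) ∈ H2 := by
      constructor
      · simp [eta]
      · simp
    have hy : (![Real.sqrt (1 + r ^ 2), r, 0] : V3) ∈ H2 := by
      constructor
      · simp only [eta, Matrix.cons_val_zero, Matrix.cons_val_one, Matrix.cons_val]
        nlinarith
      · simpa using hspos
    have h := hlt _ hx _ hy
    rw [hlin, q_smul_right', h1] at h
    simp [eta] at h
    have hC : C < r := by
      have := le_abs_self C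
      linarith
    nlinarith

end A_same_map

alias same_map := A_same_map.same_map

end Helper935.AdS
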