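import Pool.Agent.Helper935_AdS.Gap
import Pool.Agent.Helper935_AdS.Hopf
import Pool.Agent.Helper935_AdS.Same
import Pool.Agent.Helper935_AdS.Frm

namespace Helper935.AdS

namespace A_fixed2

/- Proof:
For y in H2: q (m.X y)(g.2 N): put x = g.1^-1 y in H2 (G_inv, G_H2), m.X y = g.2 (m.X x) (G_Xm), so q (m.X y)(g.2 N) = q (m.X x) N = sm x = sm y (G_sm) = q (m.X y) N. So q (m.X y)(g.2 N - N) = 0 for all y in H2 and span_zero2 gives g.2 N = N.
-/
theorem fixed2 (S : Setup2) {N : V4} (hN : ∀ x ∈ H2, q (S.m.X x) N = S.sm x)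
    {g : (V3 ≃ₗ[ℝ] V3) × (V4 ≃ₗ[ℝ] V4)} (hg : g ∈ S.G) : g.2 N = N := by
  have hsub : ∀ A B C : V4, q A (B - C) = q A B - q A C := by
    intro A B C
    simp only [q, Pi.sub_apply]
    ring
  have key : g.2 N - N = 0 := by
    refine span_zero2 S.gm.core ?_
    intro y hy
    have hx : g.1.symm y ∈ H2 := S.G_H2 _ (S.G_inv g hg) y hy
    have h1 : S.m.X y = g.2 (S.m.X (g.1.symm y)) := by
      have := S.G_Xm g hg _ hx
      rwa [LinearEquiv.apply_symm_apply] at this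
    have h2 : S.sm y = S.sm (g.1.symm y) := by
      have := S.G_sm g hg _ hx
      rwa [LinearEquiv.apply_symm_apply] at this
    have h3 : q (S.m.X y) (g.2 N) = S.sm y := by
      rw [h1, S.G_q g hg, hN _ hx, h2]
    rw [hsub, h3, hN y hy, sub_self]
  exact sub_eq_zero.1 key

end A_fixed2

alias fixed2 := A_fixed2.fixed2

namespace A_upper_eq2

/- Proof:
u(x) = -q (Xp x) N is continuous on H2 and G-invariant: u(g.1 x) = -q (g.2 Xp x)(g.2 N) = u(x) by hfix, G_Xp, G_q. f = u - sp is continuous on the compact set F; let x2 maximise it there; by F_cov, G_sp it is a maximum over H2. By upper2, f >= 0. Suppose f(x2) > 0. The function q (p0.X y) EE - q (p.X y) N = -sp + u = f is maximal at x2: extD2 for the pair (S.p0, S.p) (Iso symmetric), Z = EE, Z0 = N: gradients agree, and -g s + II0 n0 <= -g u + II n for unit v, i.e. (u - s) g + n0 II0 <= n II with u - s > 0, n0 = q (p0.N x2) EE > 0 (S.n0p), n = q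 (Np x2) N. detD2 for the pair (S.p, S.p0), alpha = n, beta = n0: n0^2 < n^2. normD2 (pair (S.p, S.p0), Z = N, Z0 = EE): n^2 - n0^2 = s^2 - u^2 < 0. Contradiction. So f = 0 on H2.
-/
theorem upper_eq2 (S : Setup2) {N : V4} (hN : N ∈ Dual2 S) (hfix : ∀ g ∈ S.G, g.2 N = N) {ξ : V4}
    (hξ : ξ ∈ Lam2 S) (h0 : q ξ N = 0) {x : V3} (hx : x ∈ H2) : q (S.p.X x) N = -S.sp x := by
  have hqc : Continuous (fun Y : V4 => q Y N) := by
    unfold q
    fun_prop
  obtain ⟨hh, ⟨-, hsp, -, -⟩, -⟩ := heights S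
  have hf : ContinuousOn (fun y => -q (S.p.X y) N - S.sp y) H2 :=
    ((hqc.comp_continuousOn S.gp.core.contX).neg).sub hsp
  have hinv : ∀ g ∈ S.G, ∀ y ∈ H2,
      -q (S.p.X (g.1 y)) N - S.sp (g.1 y) = -q (S.p.X y) N - S.sp y := by
    intro g hg y hy
    have h1 : q (S.p.X (g.1 y)) N = q (S.p.X y) N := by
      rw [S.G_Xp g hg y hy]
      conv_lhs => rw [← hfix g hg]
      exact S.G_q g hg _ _
    rw [h1, S.G_sp g hg y hy]
  obtain ⟨g0, hg0, hg0F⟩ := S.F_cov x hx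
  obtain ⟨x2, hx2F, hmax⟩ := S.F_cpt.exists_isMaxOn ⟨_, hg0F⟩ (hf.mono S.F_sub)
  have hx2 : x2 ∈ H2 := S.F_sub hx2F
  have hmax' : ∀ y ∈ H2, -q (S.p.X y) N - S.sp y ≤ -q (S.p.X x2) N - S.sp x2 := by
    intro y hy
    obtain ⟨g, hg, hgF⟩ := S.F_cov y hy
    rw [← hinv g hg y hy]
    exact hmax hgF
  have hge : ∀ y ∈ H2, 0 ≤ -q (S.p.X y) N - S.sp y := fun y hy => by
    have := upper2 S hN hξ h0 hy
    linarith
  have hle : -q (S.p.X x2) N - S.sp x2 ≤ 0 := by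
    by_contra hpos
    push Not at hpos
    have hi' : Iso S.p0 S.p :=
      { metric := fun x hx v w hv hw => (S.iso_p.metric x hx v w hv hw).symm
        tang := fun x hx v w hv hw => (S.iso_p.tang x hx v w hv hw).symm
        det := fun x hx v w hv hw => (S.iso_p.det x hx v w hv hw).symm }
    obtain ⟨hgrad, hsec⟩ := extD2 S.gp0.core S.gp.core hi' hx2 (Z := EE) (Z₀ := N) (by
      intro y hy
      rw [(hh y hy).2.1, (hh x2 hx2).2.1]
      have := hmax' y hy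
      linarith)
    have hn0 := S.n0p x2 hx2
    have hdet := detD2 S.gp.core S.gp0.core S.iso_p hx2 (α := q (S.p.N x2) N)
      (β := q (S.p0.N x2) EE) (l := -q (S.p.X x2) N - S.sp x2) hn0 hpos (by
        intro v hv
        have h1 := hsec v hv
        rw [(hh x2 hx2).2.1] at h1
        have h2 := S.iso_p.metric x2 hx2 v v hv.1 hv.1
        rw [← h2] at h1
        nlinarith [h1])
    have hnorm := normD2 S.gp.core S.gp0.core S.iso_p hx2 (Z := N) (Z₀ := EE) (by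
      rw [hN.1]
      simp [q, EE]) (fun v hv => (hgrad v hv).symm)
    rw [(hh x2 hx2).2.1] at hnorm
    have hspos := S.sp_pos x2 hx2
    nlinarith
  have h1 := hmax' x hx
  have h2 := hge x hx
  linarith

end A_upper_eq2

alias upper_eq2 := A_upper_eq2.upper_eq2

namespace A_final2

/- Proof:
touch2: N in Dual2, y in H2 with q (Xm y) N = sm y. lower2: q (Xm x) N <= sm x = q (m0.X x) EE (heights). hopf2 (S.m, S.m0, Z = N, Z0 = EE, S.n0m; q EE EE = -1): q (Xm x) N = sm x for all x in H2. fixed2: g.2 N = N. leaf2 at y (m = sm y in (0,1) by heights: cm > 0; maximality of q (Xm y) N over Dual2 by lower2) gives xi1 in Lam2 with q xi1 N = 0. upper_eq2: q (Xp x) N = -sp x = q (p0.X x) EE.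
lin2 for (S.m, S.m0), a = cm, t = -sm: L1 with Xm = cm L1 - sm N. lin2 for (S.p, S.p0), a = cp, t = sp: L2 with Xp = cp L2 + sp N. Equivariance: L1 (g.1 x) = g.2 (L1 x) for x in H2 from G_Xm, G_cm, G_sm, g.2 N = N and cm > 0; same for L2. q (L1 x)(L2 y) cm x cp y + sm x sp y = q (Xm x)(Xp y) [q N N = -1: q(cm L1 - sm N)(cp L2 + sp N) = cm cp q(L1 x)(L2 y) + sm sp] < 1, so q (L1 x)(L2 y) <= 1/s1^2 (heights). same_map: L1 = L2 =: L, and g.2 (L x) = L (g.1 x) for x in H2, hence for all x (H2 spans V3).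
-/
theorem final2_ext {f g : V3 →ₗ[ℝ] V4} (h : ∀ x ∈ H2, f x = g x) : f = g := by
  have hs : Real.sqrt 2 * Real.sqrt 2 = 2 := Real.mul_self_sqrt (by norm_num)
  have hs0 : 0 < Real.sqrt 2 := Real.sqrt_pos.2 (by norm_num)
  have e0 : f ![1, 0, 0] = g ![1, 0, 0] := h _ (by simp [H2, eta])
  have e1 : f ![Real.sqrt 2, 1, 0] = g ![Real.sqrt 2, 1, 0] := h _ (by
    refine ⟨?_, by simp⟩
    simp only [eta, Matrix.cons_val_zero, Matrix.cons_val_one, Matrix.cons_val]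
    rw [hs]
    norm_num)
  have e2 : f ![Real.sqrt 2, 0, 1] = g ![Real.sqrt 2, 0, 1] := h _ (by
    refine ⟨?_, by simp⟩
    simp only [eta, Matrix.cons_val_zero, Matrix.cons_val_one, Matrix.cons_val]
    rw [hs]
    norm_num)
  apply LinearMap.ext
  intro x
  have hx : x = (x 0 - Real.sqrt 2 * x 1 - Real.sqrt 2 * x 2) • (![1, 0, 0] : V3) +
      x 1 • (![Real.sqrt 2, 1, 0] : V3) + x 2 • (![Real.sqrt 2, 0, 1] : V3) := by
    ext i
    fin_cases i
    · simp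
      ring
    · simp
    · simp
  rw [hx]
  simp only [map_add, map_smul, e0, e1, e2]

theorem final2_q1 (a b : ℝ) (X Y Z : V4) : q (a • X + b • Y) Z = a * q X Z + b * q Y Z := by
  simp only [q, Pi.add_apply, Pi.smul_apply, smul_eq_mul]
  ring

theorem final2_q2 (a b : ℝ) (X Y Z : V4) : q Z (a • X + b • Y) = a * q Z X + b * q Z Y := by
  simp only [q, Pi.add_apply, Pi.smul_apply, smul_eq_mul]
  ring

theorem final2_symm (X Y : V4) : q X Y = q Y X := by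
  simp only [q]
  ring

theorem final2_equiv {c t : V3 → ℝ} (hc : ∀ x ∈ H2, 0 < c x) {X : V3 → V4} {L : V3 →ₗ[ℝ] V4} {N : V4}
    (hX : ∀ x ∈ H2, X x = c x • L x + t x • N)
    {g : (V3 ≃ₗ[ℝ] V3) × (V4 ≃ₗ[ℝ] V4)} (hH : ∀ x ∈ H2, g.1 x ∈ H2) (hN : g.2 N = N)
    (hgX : ∀ x ∈ H2, X (g.1 x) = g.2 (X x)) (hgc : ∀ x ∈ H2, c (g.1 x) = c x)
    (hgt : ∀ x ∈ H2, t (g.1 x) = t x) {x : V3} (hx : x ∈ H2) : L (g.1 x) = g.2 (L x) := by
  have h1 := hgX x hx
  rw [hX x hx, hX _ (hH x hx), hgc x hx, hgt x hx, map_add, map_smul, map_smul, hN] at h1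
  have h2 := add_right_cancel h1
  exact smul_right_injective V4 (hc x hx).ne' h2

theorem final2 (S : Setup2) : ∃ (L : V3 →ₗ[ℝ] V4) (E : V4),
    (∀ x y, q (L x) (L y) = eta x y) ∧ (∀ x, q (L x) E = 0) ∧ q E E = -1 ∧
    (∀ x ∈ H2, S.m.X x = S.cm x • L x - S.sm x • E) ∧
    (∀ x ∈ H2, S.p.X x = S.cp x • L x + S.sp x • E) ∧
    (∀ g ∈ S.G, g.2 E = E ∧ ∀ x, g.2 (L x) = L (g.1 x)) := by
  obtain ⟨hh, -, s₁, hs₁, hlow⟩ := heights S
  obtain ⟨N, hN, y, hy, hyN⟩ := touch2 S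
  have hEE : q EE EE = -1 := by simp [q, EE]
  have hNN : q N N = -1 := hN.1
  have hsm : ∀ x ∈ H2, q (S.m.X x) N = S.sm x := by
    intro x hx
    have h1 := hopf2 S.gm.core S.gm0.core S.iso_m hNN hEE S.n0m
      (fun x hx => by rw [(hh x hx).1]; exact lower2 S hN hx) hy
      (by rw [(hh y hy).1]; exact hyN) hx
    rw [h1, (hh x hx).1]
  have hfix : ∀ g ∈ S.G, g.2 N = N := fun g hg => fixed2 S hsm hg
  have hsy : 0 < S.sm y := S.sm_pos y hy
  have hsy1 : S.sm y < 1 := by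
    have h1 := (hh y hy).2.2.1
    have h2 := S.cm_pos y hy
    nlinarith
  obtain ⟨⟨ξ, hξ, -, -, hξN, -, -⟩, -⟩ := leaf2 S hN hy (by rw [hyN]; exact hsy) (by rw [hyN]; exact hsy1)
    (fun N' hN' => by rw [hyN]; exact lower2 S hN' hy)
  have hsp : ∀ x ∈ H2, q (S.p.X x) N = -S.sp x := fun x hx => upper_eq2 S hN hfix hξ hξN hx
  obtain ⟨L₁, h1, h1N, hX1⟩ := lin2 S.gm.core S.gm0.core S.iso_m hNN
    (fun x hx => by rw [hsm x hx, (hh x hx).1]) (fun x hx => (S.n0m x hx).ne) (a := S.cm)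
    (t := fun x => -(S.sm x)) S.cm_pos S.X0m
  obtain ⟨L₂, h2, h2N, hX2⟩ := lin2 S.gp.core S.gp0.core S.iso_p hNN
    (fun x hx => by rw [hsp x hx, (hh x hx).2.1]) (fun x hx => (S.n0p x hx).ne') (a := S.cp)
    (t := S.sp) S.cp_pos S.X0p
  have e1 : ∀ g ∈ S.G, ∀ x ∈ H2, L₁ (g.1 x) = g.2 (L₁ x) := fun g hg x hx =>
    final2_equiv S.cm_pos hX1 (S.G_H2 g hg) (hfix g hg) (S.G_Xm g hg) (S.G_cm g hg)
      (fun x hx => by simp only [S.G_sm g hg x hx]) hx
  have e2 : ∀ g ∈ S.G, ∀ x ∈ H2, L₂ (g.1 x) = g.2 (L₂ x) := fun g hg x hx =>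
    final2_equiv S.cp_pos hX2 (S.G_H2 g hg) (hfix g hg) (S.G_Xp g hg) (S.G_cp g hg)
      (S.G_sp g hg) hx
  have hlt : ∀ x ∈ H2, ∀ y ∈ H2, q (L₁ x) (L₂ y) ≤ 1 / s₁ ^ 2 := by
    intro x hx y hy
    have h3 := S.lt1 x hx y hy
    rw [hX1 x hx, hX2 y hy, final2_q1, final2_q2, final2_q2, h1N, final2_symm N (L₂ y), h2N, hNN] at h3
    obtain ⟨a1, a2, a3, a4⟩ := hlow x hx
    obtain ⟨b1, b2, b3, b4⟩ := hlow y hy
    rw [le_div_iff₀ (by positivity)]
    have h4 : s₁ ^ 2 ≤ S.cm x * S.cp y := by nlinarith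
    have h5 : 0 < S.sm x * S.sp y := mul_pos (S.sm_pos x hx) (S.sp_pos y hy)
    by_cases h6 : 0 ≤ q (L₁ x) (L₂ y)
    · have h7 : q (L₁ x) (L₂ y) * s₁ ^ 2 ≤ q (L₁ x) (L₂ y) * (S.cm x * S.cp y) :=
        mul_le_mul_of_nonneg_left h4 h6
      nlinarith
    · push Not at h6
      have : q (L₁ x) (L₂ y) * s₁ ^ 2 < 0 := mul_neg_of_neg_of_pos h6 (by positivity)
      linarith
  have hLL := same_map S.F_sub S.F_cpt S.F_cov S.G_q hNN h1 h2 h1N h2N e1 e2 hlt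
  subst hLL
  refine ⟨L₁, N, h1, h1N, hNN, fun x hx => ?_, hX2, fun g hg => ⟨hfix g hg, fun x => ?_⟩⟩
  · rw [hX1 x hx, neg_smul, sub_eq_add_neg]
  · have h8 : (g.2 : V4 →ₗ[ℝ] V4).comp L₁ = L₁.comp (g.1 : V3 →ₗ[ℝ] V3) :=
      final2_ext fun x hx => (e1 g hg x hx).symm
    exact congrArg (fun f => f x) h8

end A_final2

alias final2 := A_final2.final2

end Helper935.AdS
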