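import Mathlib

/-!
# Anti-de Sitter slabs : definitions

`V4` with the form `q` of signature (2,2); anti-de Sitter space is `{Y | q Y Y = -1}`.
`V3` with the Lorentz form `eta`; the hyperbolic plane is `H2`.
-/

namespace Helper935.AdS

abbrev V3 := Fin 3 → ℝ
abbrev V4 := Fin 4 → ℝ

/-- Lorentz form on `ℝ^{2,1}`. -/
def eta (x y : V3) : ℝ := -(x 0 * y 0) + x 1 * y 1 + x 2 * y 2

/-- The form of signature `(2,2)` on `ℝ^4`; `AdS_3 = {Y | q Y Y = -1}`. -/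
def q (X Y : V4) : ℝ := -(X 0 * Y 0) + X 1 * Y 1 + X 2 * Y 2 - X 3 * Y 3

/-- The hyperbolic plane (upper sheet of the hyperboloid). -/
def H2 : Set V3 := {x | eta x x = -1 ∧ 0 < x 0}

/-- The open future cone over the hyperbolic plane. -/
def Cone : Set V3 := {x | eta x x < 0 ∧ 0 < x 0}

/-- Time orientation of `AdS_3`: a timelike tangent vector `A` at `X` is future
pointing iff `0 < omega X A`. -/
def omega (X A : V4) : ℝ := X 0 * A 3 - X 3 * A 0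

/-- `X : H2 → AdS_3` (encoded by its 1-homogeneous extension to the open cone over `H2`) is a
spacelike immersion of class `C^3` with induced metric `a^2 • h` (`h` the hyperbolic metric of `H2`)
and with unit (timelike) normal field `N` of class `C^1`. -/
structure IsSurface (a : ℝ) (X N : V3 → V4) : Prop where
  smoothX : ContDiffOn ℝ 3 X Cone
  smoothN : ContDiffOn ℝ 1 N Cone
  homX : ∀ x ∈ Cone, ∀ t : ℝ, 0 < t → X (t • x) = t • X x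
  homN : ∀ x ∈ Cone, ∀ t : ℝ, 0 < t → N (t • x) = N x
  XX : ∀ x ∈ H2, q (X x) (X x) = -1
  NN : ∀ x ∈ H2, q (N x) (N x) = -1
  NX : ∀ x ∈ H2, q (N x) (X x) = 0
  NdX : ∀ x ∈ H2, ∀ v, eta x v = 0 → q (N x) (fderiv ℝ X x v) = 0
  metric : ∀ x ∈ H2, ∀ v w, eta x v = 0 → eta x w = 0 →
    q (fderiv ℝ X x v) (fderiv ℝ X x w) = a ^ 2 * eta v w

/-- A cocompact isometric action on the hyperbolic plane. -/
structure IsCocompact {Γ : Type*} [Group Γ] (A : Γ →* (V3 ≃ₗ[ℝ] V3)) : Prop where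
  iso : ∀ g x y, eta (A g x) (A g y) = eta x y
  pos : ∀ g, ∀ x ∈ H2, 0 < (A g x) 0
  cocompact : ∃ F ⊆ H2, IsCompact F ∧ ∀ x ∈ H2, ∃ g, A g x ∈ F

/-- Convex slab. -/
structure Slab {Γ : Type*} [Group Γ] (A : Γ →* (V3 ≃ₗ[ℝ] V3)) (a b : ℝ) where
  ρ : Γ →* (V4 ≃ₗ[ℝ] V4)
  ρ_iso : ∀ g X Y, q (ρ g X) (ρ g Y) = q X Y
  Xm : V3 → V4
  Nm : V3 → V4
  Xp : V3 → V4
  Np : V3 → V4
  surf_m : IsSurface a Xm Nm
  surf_p : IsSurface b Xp Np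
  equiv_Xm : ∀ g, ∀ x ∈ H2, Xm (A g x) = ρ g (Xm x)
  equiv_Nm : ∀ g, ∀ x ∈ H2, Nm (A g x) = ρ g (Nm x)
  equiv_Xp : ∀ g, ∀ x ∈ H2, Xp (A g x) = ρ g (Xp x)
  equiv_Np : ∀ g, ∀ x ∈ H2, Np (A g x) = ρ g (Np x)
  K : Set V4
  K_add : ∀ Y ∈ K, ∀ Z ∈ K, Y + Z ∈ K
  K_smul : ∀ Y ∈ K, ∀ t : ℝ, 0 < t → t • Y ∈ K
  K_neg : ∀ Y ∈ K, q Y Y < 0
  mem_m : ∀ x ∈ H2, Xm x ∈ K
  mem_p : ∀ x ∈ H2, Xp x ∈ K
  supp_m : ∀ x ∈ H2, ∀ Y ∈ K, q (Nm x) Y ≤ 0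
  supp_p : ∀ x ∈ H2, ∀ Y ∈ K, q (Np x) Y ≤ 0
  future_m : ∀ x ∈ H2, 0 < omega (Xm x) (Nm x)
  past_p : ∀ x ∈ H2, omega (Xp x) (Np x) < 0

/-! ## Geodesics of the hyperbolic plane -/

/-- unit speed geodesic of `H2` through `x` with initial velocity `v` -/
noncomputable def geo (x v : V3) (s : ℝ) : V3 := Real.cosh s • x + Real.sinh s • v

/-- velocity of `geo` -/
noncomputable def geo' (x v : V3) (s : ℝ) : V3 := Real.sinh s • x + Real.cosh s • v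

/-- `v` is tangent to `H2` at `x` and of unit length -/
def UT (x v : V3) : Prop := eta x v = 0 ∧ eta v v = 1

/-- `(e₁,e₂)` is an orthonormal basis of the tangent plane of `H2` at `x` -/
def ON (x e₁ e₂ : V3) : Prop :=
  eta x e₁ = 0 ∧ eta x e₂ = 0 ∧ eta e₁ e₁ = 1 ∧ eta e₂ e₂ = 1 ∧ eta e₁ e₂ = 0

/-- Pointwise calculus of a surface: all facts used later.  `dX x v` and `dN x v` are the derivatives
of `X` and `N` at `x ∈ H2` in the direction `v`; the second fundamental form is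
`II x v w = q (dN x v) (dX x w)`. -/
structure Core (a : ℝ) (X N : V3 → V4) (dX dN : V3 → V3 → V4) : Prop where
  a_pos : 0 < a
  a_lt : a < 1
  contX : ContinuousOn X H2
  contN : ContinuousOn N H2
  dX_add : ∀ x ∈ H2, ∀ v w, dX x (v + w) = dX x v + dX x w
  dX_smul : ∀ x ∈ H2, ∀ (c : ℝ) v, dX x (c • v) = c • dX x v
  dN_add : ∀ x ∈ H2, ∀ v w, dN x (v + w) = dN x v + dN x w
  dN_smul : ∀ x ∈ H2, ∀ (c : ℝ) v, dN x (c • v) = c • dN x v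
  XX : ∀ x ∈ H2, q (X x) (X x) = -1
  NN : ∀ x ∈ H2, q (N x) (N x) = -1
  NX : ∀ x ∈ H2, q (N x) (X x) = 0
  XdX : ∀ x ∈ H2, ∀ v, eta x v = 0 → q (X x) (dX x v) = 0
  NdX : ∀ x ∈ H2, ∀ v, eta x v = 0 → q (N x) (dX x v) = 0
  metric : ∀ x ∈ H2, ∀ v w, eta x v = 0 → eta x w = 0 → q (dX x v) (dX x w) = a ^ 2 * eta v w
  XdN : ∀ x ∈ H2, ∀ v, eta x v = 0 → q (X x) (dN x v) = 0
  NdN : ∀ x ∈ H2, ∀ v, eta x v = 0 → q (N x) (dN x v) = 0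
  II_symm : ∀ x ∈ H2, ∀ v w, eta x v = 0 → eta x w = 0 →
    q (dN x v) (dX x w) = q (dN x w) (dX x v)
  gauss : ∀ x ∈ H2, ∀ e₁ e₂, ON x e₁ e₂ →
    q (dN x e₁) (dX x e₁) * q (dN x e₂) (dX x e₂) - q (dN x e₁) (dX x e₂) ^ 2
      = a ^ 2 * (1 - a ^ 2)
  geoX : ∀ x ∈ H2, ∀ v, UT x v → ∀ s : ℝ,
    HasDerivAt (fun s => X (geo x v s)) (dX (geo x v s) (geo' x v s)) s
  geodX : ∀ x ∈ H2, ∀ v, UT x v → ∀ s : ℝ,
    HasDerivAt (fun s => dX (geo x v s) (geo' x v s))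
      (a ^ 2 • X (geo x v s)
        + q (dN (geo x v s) (geo' x v s)) (dX (geo x v s) (geo' x v s)) • N (geo x v s)) s
  geoN : ∀ x ∈ H2, ∀ v, UT x v → ∀ s : ℝ,
    HasDerivAt (fun s => N (geo x v s)) (dN (geo x v s) (geo' x v s)) s

/-- second fundamental form -/
def II (dX dN : V3 → V3 → V4) (x v w : V3) : ℝ := q (dN x v) (dX x w)

end Helper935.AdS
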