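import Pool.Agent.Helper935_AdS.Defs

/-!
# Anti-de Sitter slabs with arbitrary strictly convex boundary
-/

namespace Helper935.AdS

/-- `(x, t)` in `ℝ^{2,1} × ℝ`, as a vector of `ℝ^{2,2}` -/
def emb (x : V3) (t : ℝ) : V4 := ![x 0, x 1, x 2, t]

/-- the last coordinate vector: its orthogonal plane is the standard totally geodesic plane -/
def EE : V4 := ![0, 0, 0, 1]

/-- `X : H2 → AdS_3` (encoded by its 1-homogeneous extension to the open cone over `H2`) is a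
spacelike immersion of class `C^3` with unit (timelike) normal field `N` of class `C^1`
and with positive definite second fundamental form. -/
structure IsConvexSurface (X N : V3 → V4) : Prop where
  smoothX : ContDiffOn ℝ 3 X Cone
  smoothN : ContDiffOn ℝ 1 N Cone
  homX : ∀ x ∈ Cone, ∀ t : ℝ, 0 < t → X (t • x) = t • X x
  homN : ∀ x ∈ Cone, ∀ t : ℝ, 0 < t → N (t • x) = N x
  XX : ∀ x ∈ H2, q (X x) (X x) = -1
  NN : ∀ x ∈ H2, q (N x) (N x) = -1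
  NX : ∀ x ∈ H2, q (N x) (X x) = 0
  NdX : ∀ x ∈ H2, ∀ v, eta x v = 0 → q (N x) (fderiv ℝ X x v) = 0
  spacelike : ∀ x ∈ H2, ∀ v, eta x v = 0 → v ≠ 0 → 0 < q (fderiv ℝ X x v) (fderiv ℝ X x v)
  strict : ∀ x ∈ H2, ∀ v, eta x v = 0 → v ≠ 0 → 0 < q (fderiv ℝ N x v) (fderiv ℝ X x v)

/-- linear isometries of `ℝ^{2,2}` -/
def IsIso (f : V4 ≃ₗ[ℝ] V4) : Prop := ∀ X Y, q (f X) (f Y) = q X Y

/-- The surface `X` with normal `N` is equivariant under the action `A` on `H2` and the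
representation `ρ`. -/
structure Equivariant {Γ : Type*} [Group Γ] (A : Γ →* (V3 ≃ₗ[ℝ] V3)) (ρ : Γ →* (V4 ≃ₗ[ℝ] V4))
    (X N : V3 → V4) : Prop where
  eX : ∀ g, ∀ x ∈ H2, X (A g x) = ρ g (X x)
  eN : ∀ g, ∀ x ∈ H2, N (A g x) = ρ g (N x)

/-- `K` is a convex cone of timelike vectors containing both surfaces, it lies on the side
`q N ≤ 0` of every tangent plane of the two surfaces, the normal `Nm` of `Xm` is future pointing and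
the normal `Np` of `Xp` is past pointing (so `Xm` bounds in the past and `Xp` in the future). -/
structure Bounds (K : Set V4) (Xm Nm Xp Np : V3 → V4) : Prop where
  add : ∀ Y ∈ K, ∀ Z ∈ K, Y + Z ∈ K
  smul : ∀ Y ∈ K, ∀ t : ℝ, 0 < t → t • Y ∈ K
  neg : ∀ Y ∈ K, q Y Y < 0
  mem_m : ∀ x ∈ H2, Xm x ∈ K
  mem_p : ∀ x ∈ H2, Xp x ∈ K
  supp_m : ∀ x ∈ H2, ∀ Y ∈ K, q (Nm x) Y ≤ 0
  supp_p : ∀ x ∈ H2, ∀ Y ∈ K, q (Np x) Y ≤ 0
  future_m : ∀ x ∈ H2, 0 < omega (Xm x) (Nm x)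
  past_p : ∀ x ∈ H2, omega (Xp x) (Np x) < 0

/-- Convex slab: the universal cover of an AdS manifold with strictly convex `C^3` boundary. -/
structure CSlab {Γ : Type*} [Group Γ] (A : Γ →* (V3 ≃ₗ[ℝ] V3)) where
  ρ : Γ →* (V4 ≃ₗ[ℝ] V4)
  iso : ∀ g, IsIso (ρ g)
  Xm : V3 → V4
  Nm : V3 → V4
  Xp : V3 → V4
  Np : V3 → V4
  surf_m : IsConvexSurface Xm Nm
  surf_p : IsConvexSurface Xp Np
  inj_m : Set.InjOn Xm H2
  inj_p : Set.InjOn Xp H2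
  eq_m : Equivariant A ρ Xm Nm
  eq_p : Equivariant A ρ Xp Np
  K : Set V4
  bd : Bounds K Xm Nm Xp Np

/-- Every point of the surface is vertically above or below its parameter point, i.e. the surface
is parametrised by its orthogonal projection to the totally geodesic plane. -/
def Vertical (X : V3 → V4) : Prop := ∀ x ∈ H2, ∃ c t : ℝ, 0 < c ∧ X x = emb (c • x) t

/-- Fuchsian slab: the holonomy is `A` extended trivially to `ℝ^{2,1} × ℝ`, and each boundary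
surface is parametrised by its orthogonal projection to the totally geodesic plane. -/
structure IsFuchsian {Γ : Type*} [Group Γ] {A : Γ →* (V3 ≃ₗ[ℝ] V3)} (S : CSlab A) : Prop where
  rho : ∀ g x t, S.ρ g (emb x t) = emb (A g x) t
  vert_m : Vertical S.Xm
  vert_p : Vertical S.Xp

/-- the two surfaces have the same induced metric -/
def SameMetric (X Y : V3 → V4) : Prop := ∀ x ∈ H2, ∀ v w, eta x v = 0 → eta x w = 0 →
  q (fderiv ℝ X x v) (fderiv ℝ X x w) = q (fderiv ℝ Y x v) (fderiv ℝ Y x w)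

/-- `Φ` is a linear isometry of `ℝ^{2,2}` carrying the slab `S` to the slab `S'`, boundary
parametrisations and holonomy included. -/
structure Carries2 {Γ : Type*} [Group Γ] {A : Γ →* (V3 ≃ₗ[ℝ] V3)} (S S' : CSlab A)
    (Φ : V4 ≃ₗ[ℝ] V4) : Prop where
  iso : IsIso Φ
  m : ∀ x ∈ H2, S'.Xm x = Φ (S.Xm x)
  p : ∀ x ∈ H2, S'.Xp x = Φ (S.Xp x)
  rho : ∀ g Y, S'.ρ g (Φ Y) = Φ (S.ρ g Y)

/-! ## Pointwise calculus -/

/-- A surface with the data of its derivatives: `dX x v`, `dN x v` are the derivatives of `X`, `N` at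
`x ∈ H2` in the direction `v`, and `ddX x v` is the second derivative at `0` of
`s ↦ X (geo x v s)`. -/
structure Sf where
  X : V3 → V4
  N : V3 → V4
  dX : V3 → V3 → V4
  dN : V3 → V3 → V4
  ddX : V3 → V3 → V4

/-- all pointwise facts about a strictly convex surface -/
structure Core2 (S : Sf) : Prop where
  contX : ContinuousOn S.X H2
  contN : ContinuousOn S.N H2
  cont_dX : ContinuousOn (fun p : V3 × V3 => S.dX p.1 p.2) {p | p.1 ∈ H2}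
  cont_dN : ContinuousOn (fun p : V3 × V3 => S.dN p.1 p.2) {p | p.1 ∈ H2}
  cont_ddX : ContinuousOn (fun p : V3 × V3 => S.ddX p.1 p.2) {p | p.1 ∈ H2}
  dX_add : ∀ x ∈ H2, ∀ v w, S.dX x (v + w) = S.dX x v + S.dX x w
  dX_smul : ∀ x ∈ H2, ∀ (c : ℝ) v, S.dX x (c • v) = c • S.dX x v
  dN_add : ∀ x ∈ H2, ∀ v w, S.dN x (v + w) = S.dN x v + S.dN x w
  dN_smul : ∀ x ∈ H2, ∀ (c : ℝ) v, S.dN x (c • v) = c • S.dN x v
  XX : ∀ x ∈ H2, q (S.X x) (S.X x) = -1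
  NN : ∀ x ∈ H2, q (S.N x) (S.N x) = -1
  NX : ∀ x ∈ H2, q (S.N x) (S.X x) = 0
  XdX : ∀ x ∈ H2, ∀ v, eta x v = 0 → q (S.X x) (S.dX x v) = 0
  NdX : ∀ x ∈ H2, ∀ v, eta x v = 0 → q (S.N x) (S.dX x v) = 0
  XdN : ∀ x ∈ H2, ∀ v, eta x v = 0 → q (S.X x) (S.dN x v) = 0
  NdN : ∀ x ∈ H2, ∀ v, eta x v = 0 → q (S.N x) (S.dN x v) = 0
  II_symm : ∀ x ∈ H2, ∀ v w, eta x v = 0 → eta x w = 0 →
    q (S.dN x v) (S.dX x w) = q (S.dN x w) (S.dX x v)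
  pos : ∀ x ∈ H2, ∀ v, eta x v = 0 → v ≠ 0 → 0 < q (S.dX x v) (S.dX x v)
  strict : ∀ x ∈ H2, ∀ v, eta x v = 0 → v ≠ 0 → 0 < q (S.dN x v) (S.dX x v)
  ddX_X : ∀ x ∈ H2, ∀ v, UT x v → q (S.X x) (S.ddX x v) = -q (S.dX x v) (S.dX x v)
  ddX_N : ∀ x ∈ H2, ∀ v, UT x v → q (S.N x) (S.ddX x v) = -q (S.dN x v) (S.dX x v)
  geoX : ∀ x ∈ H2, ∀ v, UT x v → ∀ s : ℝ,
    HasDerivAt (fun s => S.X (geo x v s)) (S.dX (geo x v s) (geo' x v s)) s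
  geodX : ∀ x ∈ H2, ∀ v, UT x v → ∀ s : ℝ,
    HasDerivAt (fun s => S.dX (geo x v s) (geo' x v s)) (S.ddX (geo x v s) (geo' x v s)) s
  geoN : ∀ x ∈ H2, ∀ v, UT x v → ∀ s : ℝ,
    HasDerivAt (fun s => S.N (geo x v s)) (S.dN (geo x v s) (geo' x v s)) s

/-- `(e₁,e₂)` is a basis of the tangent plane at `x`, orthonormal for the induced metric -/
def GON (S : Sf) (x e₁ e₂ : V3) : Prop :=
  eta x e₁ = 0 ∧ eta x e₂ = 0 ∧ q (S.dX x e₁) (S.dX x e₁) = 1 ∧ q (S.dX x e₂) (S.dX x e₂) = 1 ∧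
    q (S.dX x e₁) (S.dX x e₂) = 0

/-- a complete convex surface -/
structure Good (S : Sf) (c : ℝ) : Prop where
  core : Core2 S
  c_pos : 0 < c
  low : ∀ x ∈ H2, ∀ v, UT x v → c ^ 2 ≤ q (S.dX x v) (S.dX x v)
  supp : ∀ x ∈ H2, ∀ y ∈ H2, q (S.N x) (S.X y) ≤ 0
  chord : ∀ x ∈ H2, ∀ y ∈ H2, q (S.X x) (S.X y) ≤ -1
  inj : Set.InjOn S.X H2

/-- two isometric surfaces: same metric, same tangential part of second derivatives, same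
determinant of the second fundamental form -/
structure Iso (S S₀ : Sf) : Prop where
  metric : ∀ x ∈ H2, ∀ v w, eta x v = 0 → eta x w = 0 →
    q (S.dX x v) (S.dX x w) = q (S₀.dX x v) (S₀.dX x w)
  tang : ∀ x ∈ H2, ∀ v w, UT x v → eta x w = 0 →
    q (S.ddX x v) (S.dX x w) = q (S₀.ddX x v) (S₀.dX x w)
  det : ∀ x ∈ H2, ∀ v w, eta x v = 0 → eta x w = 0 →
    q (S.dN x v) (S.dX x v) * q (S.dN x w) (S.dX x w) - q (S.dN x v) (S.dX x w) ^ 2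
      = q (S₀.dN x v) (S₀.dX x v) * q (S₀.dN x w) (S₀.dX x w) - q (S₀.dN x v) (S₀.dX x w) ^ 2

/-- A slab (surfaces `m`, `p`) and a Fuchsian slab (surfaces `m0`, `p0`) with the same induced
metrics. -/
structure Setup2 where
  m : Sf
  p : Sf
  m0 : Sf
  p0 : Sf
  c : ℝ
  gm : Good m c
  gp : Good p c
  gm0 : Good m0 c
  gp0 : Good p0 c
  iso_m : Iso m m0
  iso_p : Iso p p0
  /-- heights and radii of the Fuchsian surfaces -/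
  sm : V3 → ℝ
  cm : V3 → ℝ
  sp : V3 → ℝ
  cp : V3 → ℝ
  sm_pos : ∀ x ∈ H2, 0 < sm x
  cm_pos : ∀ x ∈ H2, 0 < cm x
  sp_pos : ∀ x ∈ H2, 0 < sp x
  cp_pos : ∀ x ∈ H2, 0 < cp x
  X0m : ∀ x ∈ H2, m0.X x = emb (cm x • x) (-(sm x))
  X0p : ∀ x ∈ H2, p0.X x = emb (cp x • x) (sp x)
  n0m : ∀ x ∈ H2, q (m0.N x) EE < 0
  n0p : ∀ x ∈ H2, 0 < q (p0.N x) EE
  mp : ∀ x ∈ H2, ∀ y ∈ H2, q (m.N x) (p.X y) ≤ 0
  pm : ∀ x ∈ H2, ∀ y ∈ H2, q (p.N x) (m.X y) ≤ 0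
  lt1 : ∀ x ∈ H2, ∀ y ∈ H2, q (m.X x) (p.X y) < 1
  ne : ∀ x ∈ H2, ∀ y ∈ H2, p.X x = m.X y → p.N x ≠ m.N y
  G : Set ((V3 ≃ₗ[ℝ] V3) × (V4 ≃ₗ[ℝ] V4))
  F : Set V3
  G_inv : ∀ g ∈ G, (g.1.symm, g.2.symm) ∈ G
  G_eta : ∀ g ∈ G, ∀ x y, eta (g.1 x) (g.1 y) = eta x y
  G_H2 : ∀ g ∈ G, ∀ x ∈ H2, g.1 x ∈ H2
  G_q : ∀ g ∈ G, ∀ X Y, q (g.2 X) (g.2 Y) = q X Y
  G_Xm : ∀ g ∈ G, ∀ x ∈ H2, m.X (g.1 x) = g.2 (m.X x)
  G_Nm : ∀ g ∈ G, ∀ x ∈ H2, m.N (g.1 x) = g.2 (m.N x)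
  G_Xp : ∀ g ∈ G, ∀ x ∈ H2, p.X (g.1 x) = g.2 (p.X x)
  G_Np : ∀ g ∈ G, ∀ x ∈ H2, p.N (g.1 x) = g.2 (p.N x)
  G_sm : ∀ g ∈ G, ∀ x ∈ H2, sm (g.1 x) = sm x
  G_cm : ∀ g ∈ G, ∀ x ∈ H2, cm (g.1 x) = cm x
  G_sp : ∀ g ∈ G, ∀ x ∈ H2, sp (g.1 x) = sp x
  G_cp : ∀ g ∈ G, ∀ x ∈ H2, cp (g.1 x) = cp x
  F_sub : F ⊆ H2
  F_cpt : IsCompact F
  F_cov : ∀ x ∈ H2, ∃ g ∈ G, g.1 x ∈ F

/-- null vectors in the closure of the slab -/
def Lam2 (S : Setup2) : Set V4 :=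
  {ξ | ξ ≠ 0 ∧ q ξ ξ = 0 ∧ ∀ x ∈ H2,
    q (S.m.X x) ξ ≤ 0 ∧ q (S.m.N x) ξ ≤ 0 ∧ q (S.p.X x) ξ ≤ 0 ∧ q (S.p.N x) ξ ≤ 0}

/-- closure of the set of normalised position vectors of the upper surface -/
def nset2 (S : Setup2) : Set V4 := closure {Y | ∃ x ∈ H2, Y = ‖S.p.X x‖⁻¹ • S.p.X x}

/-- unit timelike vectors whose orthogonal plane lies below the upper surface -/
def Dual2 (S : Setup2) : Set V4 := {N | q N N = -1 ∧ ∀ x ∈ H2, q (S.p.X x) N ≤ 0}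

/-- energy of a lifted chord -/
noncomputable def WE (S : Sf) (x : V3) (t : ℝ) (y : V3) (s : ℝ) : ℝ :=
  -(Real.cosh t * Real.cosh s * q (S.X x) (S.X y)) - Real.sinh t * Real.sinh s - 1

/-- height function of a lifted point -/
noncomputable def FF (S : Sf) (V : V4) (x : V3) (t : ℝ) : ℝ :=
  Real.sinh t + Real.cosh t * q (S.X x) V

/-- projection of a lifted point -/
noncomputable def zz (S : Sf) (V : V4) (x : V3) (t : ℝ) : V4 :=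
  Real.cosh t • S.X x - Real.sinh t • V

/-- admissible lifted paths -/
def Adm (S : Sf) (V : V4) (M : ℕ) (w : ℕ → V3 × ℝ) : Prop :=
  ∀ i ≤ M, (w i).1 ∈ H2 ∧ 0 ≤ FF S V (w i).1 (w i).2

/-- energy of a lifted path -/
noncomputable def En (S : Sf) (M : ℕ) (w : ℕ → V3 × ℝ) : ℝ :=
  ∑ i ∈ Finset.range M, WE S (w i).1 (w i).2 (w (i + 1)).1 (w (i + 1)).2

end Helper935.AdS
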