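import Pool.Agent.Helper935_AdS.Defs2

namespace Helper935.AdS

/-- `X : H2 → AdS_3` (encoded by its 1-homogeneous extension to the open cone over `H2`) is a
spacelike immersion of class `C^3` with unit (timelike) normal field `N` of class `C^1`. -/
structure IsRegSurface (X N : V3 → V4) : Prop where
  smoothX : ContDiffOn ℝ 3 X Cone
  smoothN : ContDiffOn ℝ 1 N Cone
  homX : ∀ x ∈ Cone, ∀ t : ℝ, 0 < t → X (t • x) = t • X x
  homN : ∀ x ∈ Cone, ∀ t : ℝ, 0 < t → N (t • x) = N x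
  XX : ∀ x ∈ H2, q (X x) (X x) = -1
  NN : ∀ x ∈ H2, q (N x) (N x) = -1
  NX : ∀ x ∈ H2, q (N x) (X x) = 0
  NdX : ∀ x ∈ H2, ∀ v, eta x v = 0 → q (N x) (fderiv ℝ X x v) = 0
  spacelike : ∀ x ∈ H2, ∀ v, eta x v = 0 → v ≠ 0 → 0 < q (fderiv ℝ X x v) (fderiv ℝ X x v)

/-- the second fundamental form is positive definite -/
def PosII (X N : V3 → V4) : Prop :=
  ∀ x ∈ H2, ∀ v, eta x v = 0 → v ≠ 0 → 0 < q (fderiv ℝ N x v) (fderiv ℝ X x v)

/-- Convex slab: the universal cover of an AdS manifold with convex `C^3` boundary. -/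
structure ConvexSlab {Γ : Type*} [Group Γ] (A : Γ →* (V3 ≃ₗ[ℝ] V3)) where
  ρ : Γ →* (V4 ≃ₗ[ℝ] V4)
  iso : ∀ g, IsIso (ρ g)
  Xm : V3 → V4
  Nm : V3 → V4
  Xp : V3 → V4
  Np : V3 → V4
  surf_m : IsRegSurface Xm Nm
  surf_p : IsRegSurface Xp Np
  inj_m : Set.InjOn Xm H2
  inj_p : Set.InjOn Xp H2
  eq_m : Equivariant A ρ Xm Nm
  eq_p : Equivariant A ρ Xp Np
  K : Set V4
  bd : Bounds K Xm Nm Xp Np

/-- Strictly convex Fuchsian slab: the holonomy is `A` extended trivially to `ℝ^{2,1} × ℝ`, each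
boundary surface is parametrised by its orthogonal projection to the totally geodesic plane and
has positive definite second fundamental form. -/
structure StrictFuchsian {Γ : Type*} [Group Γ] {A : Γ →* (V3 ≃ₗ[ℝ] V3)} (S : ConvexSlab A) :
    Prop where
  rho : ∀ g x t, S.ρ g (emb x t) = emb (A g x) t
  vert_m : Vertical S.Xm
  vert_p : Vertical S.Xp
  pos_m : PosII S.Xm S.Nm
  pos_p : PosII S.Xp S.Np

/-- `Φ` is a linear isometry of `ℝ^{2,2}` carrying the slab `S` to the slab `S'`, boundary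
parametrisations and holonomy included. -/
structure Congruent {Γ : Type*} [Group Γ] {A : Γ →* (V3 ≃ₗ[ℝ] V3)} (S S' : ConvexSlab A)
    (Φ : V4 ≃ₗ[ℝ] V4) : Prop where
  iso : IsIso Φ
  m : ∀ x ∈ H2, S'.Xm x = Φ (S.Xm x)
  p : ∀ x ∈ H2, S'.Xp x = Φ (S.Xp x)
  rho : ∀ g Y, S'.ρ g (Φ Y) = Φ (S.ρ g Y)

end Helper935.AdS
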