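import Pool.Agent.Helper935_AdS.Defs3

namespace Helper935.AdS

/-- Pleated surface with hyperbolic metric: every point of `H2` is interior to a geodesic segment
that is mapped isometrically to a geodesic segment of `AdS_3`, and some complete geodesic (a leaf) is
mapped isometrically to a geodesic of `AdS_3`. -/
structure IsPleated (X : V3 → V4) : Prop where
  cont : ContinuousOn X H2
  norm : ∀ x ∈ H2, q (X x) (X x) = -1
  bent : ∀ x ∈ H2, ∃ v Z, UT x v ∧ ∃ ε : ℝ, 0 < ε ∧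
    ∀ s : ℝ, |s| < ε → X (geo x v s) = Real.cosh s • X x + Real.sinh s • Z
  leaf : ∃ x ∈ H2, ∃ v Z, UT x v ∧ ∀ s : ℝ, X (geo x v s) = Real.cosh s • X x + Real.sinh s • Z

/-- `K` is a convex cone of timelike vectors containing both surfaces; `Xl` has at each point a
future pointing unit normal `N` of a support plane of `K`; `K` lies on the side `q Np ≤ 0` of every
tangent plane of `Xp`, whose normal `Np` is past pointing. -/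
structure MBounds (K : Set V4) (Xl Xp Np : V3 → V4) : Prop where
  add : ∀ Y ∈ K, ∀ Z ∈ K, Y + Z ∈ K
  smul : ∀ Y ∈ K, ∀ t : ℝ, 0 < t → t • Y ∈ K
  neg : ∀ Y ∈ K, q Y Y < 0
  mem_l : ∀ x ∈ H2, Xl x ∈ K
  mem_p : ∀ x ∈ H2, Xp x ∈ K
  supp_l : ∀ x ∈ H2, ∃ N, q N N = -1 ∧ q N (Xl x) = 0 ∧ (∀ Y ∈ K, q N Y ≤ 0) ∧ 0 < omega (Xl x) N
  supp_p : ∀ x ∈ H2, ∀ Y ∈ K, q (Np x) Y ≤ 0
  past_p : ∀ x ∈ H2, omega (Xp x) (Np x) < 0

/-- Convex slab with pleated past boundary and `C^3` future boundary. -/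
structure MixedSlab {Γ : Type*} [Group Γ] (A : Γ →* (V3 ≃ₗ[ℝ] V3)) where
  ρ : Γ →* (V4 ≃ₗ[ℝ] V4)
  iso : ∀ g, IsIso (ρ g)
  Xl : V3 → V4
  Xp : V3 → V4
  Np : V3 → V4
  pleated : IsPleated Xl
  surf_p : IsRegSurface Xp Np
  inj_p : Set.InjOn Xp H2
  eq_l : ∀ g, ∀ x ∈ H2, Xl (A g x) = ρ g (Xl x)
  eq_p : Equivariant A ρ Xp Np
  K : Set V4
  bd : MBounds K Xl Xp Np

/-- Fuchsian slab with totally geodesic past boundary and strictly convex future boundary. -/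
structure HalfFuchsian {Γ : Type*} [Group Γ] {A : Γ →* (V3 ≃ₗ[ℝ] V3)} (S : MixedSlab A) :
    Prop where
  rho : ∀ g x t, S.ρ g (emb x t) = emb (A g x) t
  geod : ∀ x ∈ H2, S.Xl x = emb x 0
  vert_p : Vertical S.Xp
  pos_p : PosII S.Xp S.Np

/-- `Φ` is a linear isometry of `ℝ^{2,2}` carrying the future boundary and the holonomy of `S` to
those of `S'`, and the totally geodesic plane `emb H2 0` to a plane containing the past boundary of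
`S'`. -/
structure MCongruent {Γ : Type*} [Group Γ] {A : Γ →* (V3 ≃ₗ[ℝ] V3)} (S S' : MixedSlab A)
    (Φ : V4 ≃ₗ[ℝ] V4) : Prop where
  iso : IsIso Φ
  l : ∀ x ∈ H2, q (S'.Xl x) (Φ EE) = 0
  p : ∀ x ∈ H2, S'.Xp x = Φ (S.Xp x)
  rho : ∀ g Y, S'.ρ g (Φ Y) = Φ (S.ρ g Y)

/-- The future boundary of a slab (`p`) and of a Fuchsian slab (`p0`) with the same metric. -/
structure Up where
  p : Sf
  p0 : Sf
  c : ℝ
  gp : Good p c
  gp0 : Good p0 c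
  iso_p : Iso p p0
  sp : V3 → ℝ
  cp : V3 → ℝ
  sp_pos : ∀ x ∈ H2, 0 < sp x
  cp_pos : ∀ x ∈ H2, 0 < cp x
  X0p : ∀ x ∈ H2, p0.X x = emb (cp x • x) (sp x)
  n0p : ∀ x ∈ H2, 0 < q (p0.N x) EE
  G : Set ((V3 ≃ₗ[ℝ] V3) × (V4 ≃ₗ[ℝ] V4))
  F : Set V3
  G_inv : ∀ g ∈ G, (g.1.symm, g.2.symm) ∈ G
  G_eta : ∀ g ∈ G, ∀ x y, eta (g.1 x) (g.1 y) = eta x y
  G_H2 : ∀ g ∈ G, ∀ x ∈ H2, g.1 x ∈ H2
  G_q : ∀ g ∈ G, ∀ X Y, q (g.2 X) (g.2 Y) = q X Y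
  G_Xp : ∀ g ∈ G, ∀ x ∈ H2, p.X (g.1 x) = g.2 (p.X x)
  G_Np : ∀ g ∈ G, ∀ x ∈ H2, p.N (g.1 x) = g.2 (p.N x)
  G_sp : ∀ g ∈ G, ∀ x ∈ H2, sp (g.1 x) = sp x
  G_cp : ∀ g ∈ G, ∀ x ∈ H2, cp (g.1 x) = cp x
  F_sub : F ⊆ H2
  F_cpt : IsCompact F
  F_cov : ∀ x ∈ H2, ∃ g ∈ G, g.1 x ∈ F

/-- null vectors on the far side of the future boundary -/
def Lam5 (S : Up) : Set V4 :=
  {ξ | ξ ≠ 0 ∧ q ξ ξ = 0 ∧ ∀ x ∈ H2, q (S.p.X x) ξ ≤ 0 ∧ q (S.p.N x) ξ ≤ 0}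

/-- closure of the set of normalised position vectors of the upper surface -/
def nset5 (S : Up) : Set V4 := closure {Y | ∃ x ∈ H2, Y = ‖S.p.X x‖⁻¹ • S.p.X x}

/-- unit timelike vectors whose orthogonal plane lies below the upper surface -/
def Dual5 (S : Up) : Set V4 := {N | q N N = -1 ∧ ∀ x ∈ H2, q (S.p.X x) N ≤ 0}

end Helper935.AdS
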