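import Mathlib

/-!
# Polyhedral anti-de Sitter slabs
-/

namespace Helper935.Poly

abbrev V3 := Fin 3 → ℝ
abbrev V4 := Fin 4 → ℝ

/-- Lorentz form on `ℝ^{2,1}`. -/
def eta (x y : V3) : ℝ := -(x 0 * y 0) + x 1 * y 1 + x 2 * y 2

/-- The form of signature `(2,2)` on `ℝ^4`; `AdS_3 = {Y | q Y Y = -1}`. -/
def q (X Y : V4) : ℝ := -(X 0 * Y 0) + X 1 * Y 1 + X 2 * Y 2 - X 3 * Y 3

/-- The hyperbolic plane (upper sheet of the hyperboloid). -/
def H2 : Set V3 := {x | eta x x = -1 ∧ 0 < x 0}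

/-- The open future cone over the hyperbolic plane. -/
def Cone : Set V3 := {x | eta x x < 0 ∧ 0 < x 0}

/-- Time orientation of `AdS_3`: a timelike tangent vector `A` at `X` is future
pointing iff `0 < omega X A`. -/
def omega (X A : V4) : ℝ := X 0 * A 3 - X 3 * A 0

/-- `(x, t)` in `ℝ^{2,1} × ℝ`, as a vector of `ℝ^{2,2}` -/
def emb (x : V3) (t : ℝ) : V4 := ![x 0, x 1, x 2, t]

/-- A cocompact isometric action on the hyperbolic plane. -/
structure IsCocompact {Γ : Type*} [Group Γ] (A : Γ →* (V3 ≃ₗ[ℝ] V3)) : Prop where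
  iso : ∀ g x y, eta (A g x) (A g y) = eta x y
  pos : ∀ g, ∀ x ∈ H2, 0 < (A g x) 0
  cocompact : ∃ F ⊆ H2, IsCompact F ∧ ∀ x ∈ H2, ∃ g, A g x ∈ F

/-- determinant of three vectors of `ℝ^3` -/
noncomputable def det3 (x y z : V3) : ℝ := Matrix.det (Matrix.of ![x, y, z])

/-- determinant of four vectors of `ℝ^4` -/
noncomputable def det4 (a b c d : V4) : ℝ := Matrix.det (Matrix.of ![a, b, c, d])

/-- seen from `x`, the direction of `z` lies in the half open sector from the direction of `y`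
(included) to the direction of `y'` (excluded) -/
def InSector (x y y' z : V3) : Prop := 0 ≤ det3 x y z ∧ 0 < det3 x z y'

/-- Fan of `k` triangles `x, y i, y (i + 1)` around the point `x` of `H2`, in counterclockwise
order, the `i`-th triangle being contained in the cell `C (j i)`; each direction at `x` belongs to
only one of the `k` sectors. -/
structure IsFan {ι : Type*} (C : ι → Set V3) (x : V3) (k : ℕ) (y : ℕ → V3) (j : ℕ → ι) : Prop where
  pos : 0 < k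
  per_y : ∀ i, y (i + k) = y i
  per_j : ∀ i, j (i + k) = j i
  mem : ∀ i, y i ∈ H2
  cell : ∀ i, x ∈ C (j i) ∧ y i ∈ C (j i) ∧ y (i + 1) ∈ C (j i)
  ori : ∀ i, 0 < det3 x (y i) (y (i + 1))
  once : ∀ z, ∀ i < k, ∀ i' < k, InSector x (y i) (y (i + 1)) z →
    InSector x (y i') (y (i' + 1)) z → i = i'

/-- Polygonal subdivision of `H2`. The cells are geodesically convex subsets of `H2`, given by the
convex cones `C i` over them, and around every point of `H2` there is a fan of cells. -/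
structure IsSubdivision {ι : Type*} (C : ι → Set V3) : Prop where
  sub : ∀ i, C i ⊆ Cone
  add : ∀ i, ∀ x ∈ C i, ∀ y ∈ C i, x + y ∈ C i
  smul : ∀ i, ∀ x ∈ C i, ∀ t : ℝ, 0 < t → t • x ∈ C i
  fan : ∀ x ∈ H2, ∃ k y j, IsFan C x k y j

/-- Polyhedral spacelike surface `x ↦ Y x / |Y x|` in `AdS_3` parametrised by `H2`: `Y` is linear on
each cell `C i`, which is mapped to a face orthogonal to the unit timelike vector `n i`; the faces
are coherently oriented. -/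
structure IsPolyhedral {ι : Type*} (C : ι → Set V3) (Y : V3 → V4) (n : ι → V4) : Prop where
  cont : ContinuousOn Y H2
  add : ∀ i, ∀ x ∈ C i, ∀ y ∈ C i, Y (x + y) = Y x + Y y
  smul : ∀ i, ∀ x ∈ C i, ∀ t : ℝ, 0 < t → Y (t • x) = t • Y x
  neg : ∀ x ∈ H2, q (Y x) (Y x) < 0
  nn : ∀ i, q (n i) (n i) = -1
  nY : ∀ i, ∀ x ∈ C i, q (n i) (Y x) = 0
  ori : ∃ s : ℝ, ∀ i, ∀ x ∈ C i, ∀ y ∈ C i, ∀ z ∈ C i, 0 < det3 x y z →
    0 < s * det4 (Y x) (Y y) (Y z) (n i)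

/-- The surface is embedded: different points of `H2` are mapped to different points of `AdS_3`. -/
def InjRay (Y : V3 → V4) : Prop := ∀ x ∈ H2, ∀ y ∈ H2, ∀ t : ℝ, 0 < t → Y x = t • Y y → x = y

/-- Linear isometry of `ℝ^{2,2}` preserving the time orientation of `AdS_3` -/
structure IsTimeIso (f : V4 ≃ₗ[ℝ] V4) : Prop where
  iso : ∀ X Y, q (f X) (f Y) = q X Y
  time : ∀ X Y, q X X < 0 → q Y Y < 0 → q X Y = 0 → 0 < omega X Y → 0 < omega (f X) (f Y)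

/-- `K` is a convex cone of timelike vectors containing both surfaces, it lies on the side
`q n ≤ 0` of the plane of each face of the two surfaces, the normals of the faces of `Ym` are future
pointing and those of `Yp` past pointing (so `Ym` bounds in the past and `Yp` in the future). -/
structure PBounds {κ ι : Type*} (Cm : κ → Set V3) (Cp : ι → Set V3) (K : Set V4)
    (Ym : V3 → V4) (nm : κ → V4) (Yp : V3 → V4) (np : ι → V4) : Prop where
  add : ∀ Y ∈ K, ∀ Z ∈ K, Y + Z ∈ K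
  smul : ∀ Y ∈ K, ∀ t : ℝ, 0 < t → t • Y ∈ K
  neg : ∀ Y ∈ K, q Y Y < 0
  mem_m : ∀ x ∈ H2, Ym x ∈ K
  mem_p : ∀ x ∈ H2, Yp x ∈ K
  supp_m : ∀ i, ∀ Y ∈ K, q (nm i) Y ≤ 0
  supp_p : ∀ i, ∀ Y ∈ K, q (np i) Y ≤ 0
  future_m : ∀ i, ∀ x ∈ Cm i, 0 < omega (Ym x) (nm i)
  past_p : ∀ i, ∀ x ∈ Cp i, omega (Yp x) (np i) < 0

/-- `Y` is equivariant under the action `A` and the representation `ρ`. -/
def EquiMap {Γ : Type*} [Group Γ] (A : Γ →* (V3 ≃ₗ[ℝ] V3)) (ρ : Γ →* (V4 ≃ₗ[ℝ] V4)) (Y : V3 → V4) :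
    Prop := ∀ g, ∀ x ∈ H2, Y (A g x) = ρ g (Y x)

/-- Polyhedral slab: the universal cover of an AdS manifold with convex polyhedral boundary, both
boundary components being subdivided into cells indexed by `κ` and `ι`. -/
structure PolySlab {Γ : Type*} [Group Γ] (A : Γ →* (V3 ≃ₗ[ℝ] V3)) {κ ι : Type*}
    (Cm : κ → Set V3) (Cp : ι → Set V3) where
  ρ : Γ →* (V4 ≃ₗ[ℝ] V4)
  iso : ∀ g, IsTimeIso (ρ g)
  Ym : V3 → V4
  nm : κ → V4
  Yp : V3 → V4
  np : ι → V4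
  surf_m : IsPolyhedral Cm Ym nm
  surf_p : IsPolyhedral Cp Yp np
  inj_m : InjRay Ym
  inj_p : InjRay Yp
  eq_m : EquiMap A ρ Ym
  eq_p : EquiMap A ρ Yp
  K : Set V4
  bd : PBounds Cm Cp K Ym nm Yp np

/-- Fuchsian polyhedral slab: the holonomy is `A` extended trivially to `ℝ^{2,1} × ℝ`, the boundary
surfaces are parametrised by their orthogonal projection to the totally geodesic plane, which lies
strictly between them. -/
structure PolyFuchsian {Γ : Type*} [Group Γ] {A : Γ →* (V3 ≃ₗ[ℝ] V3)} {κ ι : Type*}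
    {Cm : κ → Set V3} {Cp : ι → Set V3} (S : PolySlab A Cm Cp) : Prop where
  rho : ∀ g x t, S.ρ g (emb x t) = emb (A g x) t
  up : ∀ x ∈ H2, ∃ t : ℝ, 0 < t ∧ S.Yp x = emb x t
  down : ∀ x ∈ H2, ∃ t : ℝ, 0 < t ∧ S.Ym x = emb x (-t)

/-- The two polyhedral surfaces have the same induced metric: corresponding points of corresponding
faces have the same distance, and the two parametrisations are normalised in the same way. -/
def SameCellMetric {ι : Type*} (C : ι → Set V3) (Y Y' : V3 → V4) : Prop :=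
  ∀ i, ∀ x ∈ C i, ∀ y ∈ C i, q (Y x) (Y y) = q (Y' x) (Y' y)

/-- `Φ` is a linear isometry of `ℝ^{2,2}` carrying the slab `S` to the slab `S'`, boundary
parametrisations and holonomy included. -/
structure PCongruent {Γ : Type*} [Group Γ] {A : Γ →* (V3 ≃ₗ[ℝ] V3)} {κ ι : Type*}
    {Cm : κ → Set V3} {Cp : ι → Set V3} (S S' : PolySlab A Cm Cp) (Φ : V4 ≃ₗ[ℝ] V4) : Prop where
  iso : ∀ X Y, q (Φ X) (Φ Y) = q X Y
  m : ∀ x ∈ H2, S'.Ym x = Φ (S.Ym x)
  p : ∀ x ∈ H2, S'.Yp x = Φ (S.Yp x)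
  rho : ∀ g Y, S'.ρ g (Φ Y) = Φ (S.ρ g Y)

/-! ## Internal definitions -/

/-- the last coordinate vector -/
def EE : V4 := ![0, 0, 0, 1]

/-- unit speed geodesic of `H2` through `x` with initial velocity `v` -/
noncomputable def geo (x v : V3) (s : ℝ) : V3 := Real.cosh s • x + Real.sinh s • v

/-- velocity of `geo` -/
noncomputable def geo' (x v : V3) (s : ℝ) : V3 := Real.sinh s • x + Real.cosh s • v

/-- `v` is tangent to `H2` at `x` and of unit length -/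
def UT (x v : V3) : Prop := eta x v = 0 ∧ eta v v = 1

/-- `(e₁,e₂)` is an orthonormal basis of the tangent plane of `H2` at `x` -/
def ON (x e₁ e₂ : V3) : Prop :=
  eta x e₁ = 0 ∧ eta x e₂ = 0 ∧ eta e₁ e₁ = 1 ∧ eta e₂ e₂ = 1 ∧ eta e₁ e₂ = 0

/-- (possibly non smooth) convex surface: positions, sets of unit support normals, sets of unit
tangent directions -/
structure NS where
  X : V3 → V4
  Nr : V3 → Set V4
  Dr : V3 → Set V4

/-- abstract properties of a non smooth convex surface -/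
structure NGood (S : NS) (c : ℝ) : Prop where
  c_pos : 0 < c
  contX : ContinuousOn S.X H2
  XX : ∀ x ∈ H2, q (S.X x) (S.X x) = -1
  ne : ∀ x ∈ H2, (S.Nr x).Nonempty
  NN : ∀ x ∈ H2, ∀ n ∈ S.Nr x, q n n = -1
  NX : ∀ x ∈ H2, ∀ n ∈ S.Nr x, q n (S.X x) = 0
  same : ∀ x ∈ H2, ∀ n ∈ S.Nr x, ∀ n' ∈ S.Nr x, q n n' < 0
  supp : ∀ x ∈ H2, ∀ n ∈ S.Nr x, ∀ y ∈ H2, q n (S.X y) ≤ 0
  chord : ∀ x ∈ H2, ∀ y ∈ H2, q (S.X x) (S.X y) ≤ -1
  inj : Set.InjOn S.X H2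
  dir : ∀ x ∈ H2, ∀ ζ ∈ S.Dr x, q ζ ζ = 1 ∧ q (S.X x) ζ = 0 ∧ (∃ n ∈ S.Nr x, q n ζ = 0) ∧
    ∃ s₀ : ℝ, 0 < s₀ ∧ ∀ s : ℝ, 0 ≤ s → s ≤ s₀ → ∃ z ∈ H2,
      S.X z = Real.cosh s • S.X x + Real.sinh s • ζ ∧ -eta x z ≤ Real.cosh (s / c)
  cover : ∀ x ∈ H2, ∀ W, q W W < 0 → q (S.X x) W = 0 → ∀ Z, q (S.X x) Z = 0 →
    ∃ a τ : ℝ, ∃ ζ ∈ S.Dr x, 0 ≤ a ∧ Z = a • ζ + τ • W
  nonflat : ∀ N, q N N = -1 → ∃ y ∈ H2, q (S.X y) N ≠ 0

/-- non smooth convex surface with cocompact group action; `o = 1` if the normals are future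
pointing and `o = -1` if they are past pointing -/
structure CS where
  s : NS
  c : ℝ
  g : NGood s c
  o : ℝ
  o_cases : o = 1 ∨ o = -1
  ori : ∀ x ∈ H2, ∀ n ∈ s.Nr x, 0 < o * omega (s.X x) n
  G : Set ((V3 ≃ₗ[ℝ] V3) × (V4 ≃ₗ[ℝ] V4))
  F : Set V3
  G_inv : ∀ g ∈ G, (g.1.symm, g.2.symm) ∈ G
  G_eta : ∀ g ∈ G, ∀ x y, eta (g.1 x) (g.1 y) = eta x y
  G_H2 : ∀ g ∈ G, ∀ x ∈ H2, g.1 x ∈ H2
  G_q : ∀ g ∈ G, ∀ X Y, q (g.2 X) (g.2 Y) = q X Y
  G_time : ∀ g ∈ G, ∀ X Y, q X X < 0 → q Y Y < 0 → q X Y = 0 → 0 < omega X Y →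
    0 < omega (g.2 X) (g.2 Y)
  G_X : ∀ g ∈ G, ∀ x ∈ H2, s.X (g.1 x) = g.2 (s.X x)
  G_N : ∀ g ∈ G, ∀ x ∈ H2, ∀ n ∈ s.Nr x, g.2 n ∈ s.Nr (g.1 x)
  F_sub : F ⊆ H2
  F_cpt : IsCompact F
  F_cov : ∀ x ∈ H2, ∃ g ∈ G, g.1 x ∈ F

/-- null vectors in the closure of the surface -/
def Lam (S : CS) : Set V4 := {ξ | ξ ≠ 0 ∧ q ξ ξ = 0 ∧ ∀ x ∈ H2, q (S.s.X x) ξ ≤ 0}

/-- closure of the set of normalised position vectors -/
def nset (S : CS) : Set V4 := closure {Y | ∃ x ∈ H2, Y = ‖S.s.X x‖⁻¹ • S.s.X x}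

/-- unit timelike vectors whose orthogonal plane does not cross the surface -/
def Dual (S : CS) : Set V4 := {N | q N N = -1 ∧ ∀ x ∈ H2, q (S.s.X x) N ≤ 0}

/-- vector orthogonal to `Y` in the plane spanned by `N` and `ξ` -/
def vv (Y N ξ : V4) : V4 := (-(q Y ξ)) • N + (q Y N) • ξ

/-- `N` is opposite to the normals of the surface (as seen with the ideal point `ξ`) -/
def Opp (S : CS) (N ξ : V4) : Prop := ∀ x ∈ H2, S.o * omega (S.s.X x) (vv (S.s.X x) N ξ) < 0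

/-- energy of a lifted chord -/
noncomputable def WE (X : V3 → V4) (x : V3) (t : ℝ) (y : V3) (s : ℝ) : ℝ :=
  -(Real.cosh t * Real.cosh s * q (X x) (X y)) - Real.sinh t * Real.sinh s - 1

/-- height function of a lifted point -/
noncomputable def FF (X : V3 → V4) (V : V4) (x : V3) (t : ℝ) : ℝ :=
  Real.sinh t + Real.cosh t * q (X x) V

/-- projection of a lifted point -/
noncomputable def zz (X : V3 → V4) (V : V4) (x : V3) (t : ℝ) : V4 :=
  Real.cosh t • X x - Real.sinh t • V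

/-- admissible lifted paths -/
def Adm (X : V3 → V4) (V : V4) (M : ℕ) (w : ℕ → V3 × ℝ) : Prop :=
  ∀ i ≤ M, (w i).1 ∈ H2 ∧ 0 ≤ FF X V (w i).1 (w i).2

/-- energy of a lifted path -/
noncomputable def En (X : V3 → V4) (M : ℕ) (w : ℕ → V3 × ℝ) : ℝ :=
  ∑ i ∈ Finset.range M, WE X (w i).1 (w i).2 (w (i + 1)).1 (w (i + 1)).2

/-- the segment from `X x` to `X y` is contained in the surface -/
def Seg (X : V3 → V4) (x y : V3) : Prop :=
  ∀ a b : ℝ, 0 ≤ a → 0 ≤ b → 0 < a + b → ∃ z ∈ H2, ∃ r : ℝ, 0 < r ∧ a • X x + b • X y = r • X z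

/-- normalised position -/
noncomputable def nrm (Y : V3 → V4) (x : V3) : V4 := (Real.sqrt (-(q (Y x) (Y x))))⁻¹ • Y x

/-- unit tangent vector at `x` pointing to `y` -/
noncomputable def uv (Y : V3 → V4) (x y : V3) : V4 :=
  (Real.sqrt ((q (nrm Y x) (nrm Y y)) ^ 2 - 1))⁻¹ • (nrm Y y + q (nrm Y x) (nrm Y y) • nrm Y x)

/-- angle between two unit vectors -/
noncomputable def ang (Z W : V4) : ℝ := Real.arccos (q Z W)

/-- angle in the horizontal plane of two vectors with angle `a` and heights `h`, `h'` -/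
noncomputable def bet (a h h' : ℝ) : ℝ :=
  Real.arccos ((Real.cos a + h * h') / (Real.sqrt (1 + h ^ 2) * Real.sqrt (1 + h' ^ 2)))

/-- discrete second difference of the sequence `h` at `i + 1`, for the angles `α` -/
noncomputable def kk (α h : ℕ → ℝ) (i : ℕ) : ℝ :=
  Real.sin (α (i + 1)) * h i + Real.sin (α i) * h (i + 2) - Real.sin (α i + α (i + 1)) * h (i + 1)

/-- bending vector of the fan `y` at `x` along the edge towards `y (i + 1)` -/
noncomputable def kv (Y : V3 → V4) (x : V3) (y : ℕ → V3) (i : ℕ) : V4 :=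
  Real.sin (ang (uv Y x (y (i + 1))) (uv Y x (y (i + 2)))) • uv Y x (y i)
    + Real.sin (ang (uv Y x (y i)) (uv Y x (y (i + 1)))) • uv Y x (y (i + 2))
    - Real.sin (ang (uv Y x (y i)) (uv Y x (y (i + 1)))
        + ang (uv Y x (y (i + 1))) (uv Y x (y (i + 2)))) • uv Y x (y (i + 1))

/-- local structure at `x` of a pair of functions with `U' ≤ U`, `U' x = U x`: either they agree
near `x`, or on one side of a line through `x` they are linear with positive difference, and on the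
other side they agree or are linear with positive difference -/
def LocStr (x : V3) (U U' : V3 → ℝ) : Prop :=
  (∃ r : ℝ, 1 < r ∧ ∀ z ∈ H2, -eta x z < r → U z = U' z) ∨
  ∃ δ l l' : V3 →ₗ[ℝ] ℝ, δ ≠ 0 ∧ δ x = 0 ∧ ∃ r : ℝ, 1 < r ∧
    (∀ z ∈ H2, -eta x z < r → 0 ≤ δ z → U z = l z ∧ U' z = l' z ∧ U z - U' z = δ z) ∧
    ((∀ z ∈ H2, -eta x z < r → δ z ≤ 0 → U z = U' z) ∨
      ∃ m m' : V3 →ₗ[ℝ] ℝ, ∃ c : ℝ, 0 < c ∧ ∀ z ∈ H2, -eta x z < r → δ z ≤ 0 →
        U z = m z ∧ U' z = m' z ∧ U z - U' z = -(c * δ z))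

/-- convex polyhedral surface -/
structure PolyGood {ι : Type*} (C : ι → Set V3) (Y : V3 → V4) (n : ι → V4) : Prop where
  sub : IsSubdivision C
  poly : IsPolyhedral C Y n
  supp : ∀ i, ∀ x ∈ H2, q (n i) (Y x) ≤ 0
  same : ∀ i j, ∀ x ∈ H2, x ∈ C i → x ∈ C j → q (n i) (n j) < 0
  chord : ∀ x ∈ H2, ∀ y ∈ H2, q (nrm Y x) (nrm Y y) ≤ -1
  inj : InjRay Y

/-- position of the Fuchsian surface with tangents of heights `T` -/
def Y0 (σ : ℝ) (T : V3 → ℝ) (x : V3) : V4 := emb x (σ * T x)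

/-- convex polyhedral surface with its Fuchsian twin; `σ = 1` for future boundaries, `σ = -1` for
past boundaries -/
structure PT (ι : Type*) where
  C : ι → Set V3
  Y : V3 → V4
  n : ι → V4
  T : V3 → ℝ
  n0 : ι → V4
  σ : ℝ
  S : CS
  sig : σ = 1 ∨ σ = -1
  so : S.o = -σ
  pg : PolyGood C Y n
  pg0 : PolyGood C (Y0 σ T) n0
  met : SameCellMetric C Y (Y0 σ T)
  SX : S.s.X = nrm Y
  Sn : ∀ i, ∀ x ∈ H2, x ∈ C i → n i ∈ S.s.Nr x
  T_pos : ∀ x ∈ H2, 0 < T x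
  T_G : ∀ g ∈ S.G, ∀ x ∈ H2, T (g.1 x) = T x
  T_cont : ContinuousOn T H2
  n0E : ∀ i, ∀ x ∈ H2, x ∈ C i → 0 < q (n0 i) (σ • EE)
  S0 : NS
  c0 : ℝ
  g0 : NGood S0 c0
  S0X : S0.X = nrm (Y0 σ T)
  S0n : ∀ x ∈ H2, ∀ n ∈ S0.Nr x, 0 < q n (σ • EE)

/-- sine of the height of the Fuchsian surface -/
noncomputable def sn (T : V3 → ℝ) (x : V3) : ℝ := T x / Real.sqrt (1 + T x ^ 2)

/-- two polyhedral surfaces `m` (past) and `p` (future) with their Fuchsian twins -/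
structure TT (κ ι : Type*) where
  m : PT κ
  p : PT ι
  hm : m.σ = -1
  hp : p.σ = 1
  hG : m.S.G = p.S.G
  hF : m.S.F = p.S.F
  cm : ∀ y ∈ H2, ∀ n ∈ m.S.s.Nr y, ∀ x ∈ H2, q n (p.S.s.X x) ≤ 0
  cp : ∀ x ∈ H2, ∀ n ∈ p.S.s.Nr x, ∀ y ∈ H2, q n (m.S.s.X y) ≤ 0
  lt1 : ∀ y ∈ H2, ∀ x ∈ H2, q (m.S.s.X y) (p.S.s.X x) < 1

end Helper935.Poly
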