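import Pool.Agent.Helper935_AdS.Defs6

namespace Helper935.Poly

/-- Pleated surface with hyperbolic metric: every point of `H2` is interior to a geodesic segment
that is mapped isometrically to a geodesic segment of `AdS_3`, and some complete geodesic (a leaf) is
mapped isometrically to a geodesic of `AdS_3`. -/
structure IsPleated (X : V3 → V4) : Prop where
  cont : ContinuousOn X H2
  norm : ∀ x ∈ H2, q (X x) (X x) = -1
  bent : ∀ x ∈ H2, ∃ v Z, UT x v ∧ ∃ ε : ℝ, 0 < ε ∧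
    ∀ s : ℝ, |s| < ε → X (geo x v s) = Real.cosh s • X x + Real.sinh s • Z
  leaf : ∃ x ∈ H2, ∃ v Z, UT x v ∧ ∀ s : ℝ, X (geo x v s) = Real.cosh s • X x + Real.sinh s • Z

/-- `K` is a convex cone of timelike vectors containing both surfaces; `Xl` has at each point a
future pointing unit normal of a support plane of `K`; `K` lies on the side `q n ≤ 0` of the plane of
each face of `Yp`, whose normal `n` is past pointing. -/
structure HBounds {ι : Type*} (Cp : ι → Set V3) (K : Set V4) (Xl : V3 → V4)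
    (Yp : V3 → V4) (np : ι → V4) : Prop where
  add : ∀ Y ∈ K, ∀ Z ∈ K, Y + Z ∈ K
  smul : ∀ Y ∈ K, ∀ t : ℝ, 0 < t → t • Y ∈ K
  neg : ∀ Y ∈ K, q Y Y < 0
  mem_l : ∀ x ∈ H2, Xl x ∈ K
  mem_p : ∀ x ∈ H2, Yp x ∈ K
  supp_l : ∀ x ∈ H2, ∃ N, q N N = -1 ∧ q N (Xl x) = 0 ∧ (∀ Y ∈ K, q N Y ≤ 0) ∧ 0 < omega (Xl x) N
  supp_p : ∀ i, ∀ Y ∈ K, q (np i) Y ≤ 0
  past_p : ∀ i, ∀ x ∈ Cp i, omega (Yp x) (np i) < 0

/-- Convex slab with pleated past boundary of hyperbolic metric and polyhedral future boundary. -/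
structure HalfPolySlab {Γ : Type*} [Group Γ] (A : Γ →* (V3 ≃ₗ[ℝ] V3)) {ι : Type*}
    (Cp : ι → Set V3) where
  ρ : Γ →* (V4 ≃ₗ[ℝ] V4)
  iso : ∀ g, IsTimeIso (ρ g)
  Xl : V3 → V4
  Yp : V3 → V4
  np : ι → V4
  pleated : IsPleated Xl
  surf_p : IsPolyhedral Cp Yp np
  inj_p : InjRay Yp
  eq_l : EquiMap A ρ Xl
  eq_p : EquiMap A ρ Yp
  K : Set V4
  bd : HBounds Cp K Xl Yp np

/-- Fuchsian slab with totally geodesic past boundary and polyhedral future boundary. -/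
structure HalfPolyFuchsian {Γ : Type*} [Group Γ] {A : Γ →* (V3 ≃ₗ[ℝ] V3)} {ι : Type*}
    {Cp : ι → Set V3} (S : HalfPolySlab A Cp) : Prop where
  rho : ∀ g x t, S.ρ g (emb x t) = emb (A g x) t
  geod : ∀ x ∈ H2, S.Xl x = emb x 0
  up : ∀ x ∈ H2, ∃ t : ℝ, 0 < t ∧ S.Yp x = emb x t

/-- `Φ` is a linear isometry of `ℝ^{2,2}` carrying the future boundary and the holonomy of `S` to
those of `S'`, and the totally geodesic plane `emb H2 0` to a plane containing the past boundary of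
`S'`. -/
structure HCongruent {Γ : Type*} [Group Γ] {A : Γ →* (V3 ≃ₗ[ℝ] V3)} {ι : Type*}
    {Cp : ι → Set V3} (S S' : HalfPolySlab A Cp) (Φ : V4 ≃ₗ[ℝ] V4) : Prop where
  iso : ∀ X Y, q (Φ X) (Φ Y) = q X Y
  l : ∀ x ∈ H2, q (S'.Xl x) (Φ EE) = 0
  p : ∀ x ∈ H2, S'.Yp x = Φ (S.Yp x)
  rho : ∀ g Y, S'.ρ g (Φ Y) = Φ (S.ρ g Y)

end Helper935.Poly
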