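import Pool.Agent.Helper935_AdS.PtB

namespace Helper935.AdS

namespace A_we_basic

/- Proof:
Let C = -q (X x)(X y) >= 1 (h.chord). WE = cosh t cosh s C - sinh t sinh s - 1 = cosh t cosh s (C - 1) + (cosh (t - s) - 1), cosh (t-s) = cosh t cosh s - sinh t sinh s, and cosh t cosh s >= 1.
-/
theorem we_basic {S : Sf} {c : ℝ} (h : Good S c) {x y : V3} (hx : x ∈ H2) (hy : y ∈ H2) (t s : ℝ) :
    Real.cosh t * Real.cosh s * (-q (S.X x) (S.X y) - 1) ≤ WE S x t y s ∧
    -q (S.X x) (S.X y) - 1 ≤ WE S x t y s ∧ Real.cosh (t - s) - 1 ≤ WE S x t y s ∧ 0 ≤ WE S x t y s := by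
  have hC := h.chord x hx y hy
  set C := -q (S.X x) (S.X y) with hCd
  have hC1 : 0 ≤ C - 1 := by linarith
  have e : WE S x t y s = Real.cosh t * Real.cosh s * (C - 1) + (Real.cosh (t - s) - 1) := by
    unfold WE
    rw [Real.cosh_sub, hCd]
    ring
  have h1 : 1 ≤ Real.cosh t * Real.cosh s := by
    have := Real.one_le_cosh t
    have := Real.one_le_cosh s
    nlinarith
  have h2 : 1 ≤ Real.cosh (t - s) := Real.one_le_cosh _
  rw [e]
  have h3 : C - 1 ≤ Real.cosh t * Real.cosh s * (C - 1) := by nlinarith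
  refine ⟨?_, ?_, ?_, ?_⟩ <;> linarith

end A_we_basic

alias we_basic := A_we_basic.we_basic

namespace A_zz_we

theorem q_expand (a b c d : ℝ) (X Y V : V4) :
    q (a • X - b • V) (c • Y - d • V) =
      a * c * q X Y - a * d * q X V - b * c * q Y V + b * d * q V V := by
  simp only [q, Pi.sub_apply, Pi.smul_apply, smul_eq_mul]
  ring

theorem q_expand1 (a b : ℝ) (X V : V4) :
    q (a • X - b • V) V = a * q X V - b * q V V := by
  simp only [q, Pi.sub_apply, Pi.smul_apply, smul_eq_mul]
  ring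

theorem zz_we {S : Sf} {c : ℝ} (h : Good S c) {V : V4} (hV : q V V = -1) {x y : V3} (hx : x ∈ H2) (hy : y ∈ H2) {t s : ℝ}
    (ht : FF S V x t = 0) (hs : FF S V y s = 0) :
    WE S x t y s = -q (zz S V x t) (zz S V y s) - 1 ∧ q (zz S V x t) V = 0 ∧
    q (zz S V x t) (zz S V x t) = -1 := by
  have hXX := h.core.XX x hx
  have _hYY := h.core.XX y hy
  unfold FF at ht hs
  have hcs := Real.cosh_sq t
  refine ⟨?_, ?_, ?_⟩
  · unfold WE zz
    rw [q_expand, hV]
    linear_combination (-Real.sinh s) * ht + (-Real.sinh t) * hs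
  · unfold zz
    rw [q_expand1, hV]
    linear_combination ht
  · unfold zz
    rw [q_expand, hV, hXX]
    linear_combination (-2 * Real.sinh t) * ht - hcs

end A_zz_we

alias zz_we := A_zz_we.zz_we

namespace A_md_exists

/- Proof:
Work with functions w : Fin (M+1) -> V3 x R (extend by constants outside 0..M at the end). D = {w : w 0, w M prescribed, (w i).1 in H2, 0 <= FF S V (w i)} is closed (H2 closed, FF continuous on H2 x R by contX), nonempty (the given w), and the energy En is continuous on it. Sublevel set {En <= E}: every term satisfies 0 <= WE_i <= E (we_basic, all terms are >= 0), hence cosh(t_i - t_{i+1}) - 1 <= E and cosh(c d_i) <= -q(X_i)(X_{i+1}) <= 1 + E where cosh d_i = -eta P_i P_{i+1} (chord2). So |t_i - t_{i+1}| and d_i are bounded by constants, and starting at the fixed w 0 all t_i are bounded and all P_i lie in a fixed ball {-eta P_0 x <= R} (H2_triangle, induction), which is compact (H2_ball). So D cap {En <= En(w)} is compact and En attains its minimum.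
-/
theorem md_aux_bound {S : Sf} {c : ℝ} (h : Good S c) {V : V4} (M : ℕ) (E : ℝ)
    (f : ℕ → V3 × ℝ) (hf : Adm S V M f) (hE : En S M f ≤ E) :
    ∀ i ≤ M, -eta (f 0).1 (f i).1 ≤ Real.cosh ((i : ℝ) * (2 * (1 + E) / c)) ∧
      |(f i).2 - (f 0).2| ≤ (i : ℝ) * (2 * (1 + E)) := by
  have hc := h.c_pos
  have hterm0 : ∀ i ∈ Finset.range M,
      0 ≤ WE S (f i).1 (f i).2 (f (i + 1)).1 (f (i + 1)).2 := by
    intro i hi
    have hi' := Finset.mem_range.1 hi
    exact (we_basic h (hf i (by omega)).1 (hf (i + 1) (by omega)).1 _ _).2.2.2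
  have hterm : ∀ i < M, WE S (f i).1 (f i).2 (f (i + 1)).1 (f (i + 1)).2 ≤ E := by
    intro i hi
    exact le_trans (Finset.single_le_sum hterm0 (Finset.mem_range.2 hi)) hE
  have hE0 : 0 ≤ E := le_trans (Finset.sum_nonneg hterm0) hE
  have hD : 1 + E ≤ Real.cosh (2 * (1 + E)) := by
    rw [Real.cosh_eq]
    have h1 := Real.add_one_le_exp (2 * (1 + E))
    have h2 := Real.exp_pos (-(2 * (1 + E)))
    linarith
  intro i
  induction i with
  | zero =>
    intro _
    have hx := (hf 0 (Nat.zero_le _)).1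
    have h1 : eta (f 0).1 (f 0).1 = -1 := hx.1
    constructor
    · rw [h1]
      simp
    · simp
  | succ i ih =>
    intro hi
    obtain ⟨ih1, ih2⟩ := ih (by omega)
    have hx := (hf i (by omega)).1
    have hy := (hf (i + 1) hi).1
    have hx0 := (hf 0 (Nat.zero_le _)).1
    obtain ⟨-, b2, b3, -⟩ := we_basic h hx hy (f i).2 (f (i + 1)).2
    have hle := hterm i (by omega)
    have hDc : 0 ≤ 2 * (1 + E) / c := by positivity
    constructor
    · obtain ⟨d, v, hd, hv, hg⟩ := exists_geo hx hy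
      have e1 := eta_geo hx hv d
      rw [hg] at e1
      have e2 : -eta (f i).1 (f (i + 1)).1 = Real.cosh d := by rw [e1]; ring
      have e3 := chord2 h hx hy hd e2
      have e4 : Real.cosh (c * d) ≤ Real.cosh (2 * (1 + E)) := by linarith
      rw [Real.cosh_le_cosh, abs_of_nonneg (by positivity), abs_of_nonneg (by positivity)] at e4
      have e5 : d ≤ 2 * (1 + E) / c := by
        rw [le_div_iff₀ hc]
        linarith
      have e6 : -eta (f i).1 (f (i + 1)).1 ≤ Real.cosh (2 * (1 + E) / c) := by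
        rw [e2, Real.cosh_le_cosh, abs_of_nonneg hd, abs_of_nonneg hDc]
        exact e5
      have := H2_triangle hx0 hx hy (by positivity) hDc ih1 e6
      convert this using 2
      push_cast
      ring
    · have e4 : Real.cosh ((f i).2 - (f (i + 1)).2) ≤ Real.cosh (2 * (1 + E)) := by linarith
      rw [Real.cosh_le_cosh, abs_of_nonneg (by positivity : (0 : ℝ) ≤ 2 * (1 + E))] at e4
      have e5 : (f (i + 1)).2 - (f 0).2
          = -((f i).2 - (f (i + 1)).2) + ((f i).2 - (f 0).2) := by ring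
      rw [e5]
      refine le_trans (abs_add_le _ _) ?_
      rw [abs_neg]
      push_cast
      linarith

theorem md_aux_En {S : Sf} (M : ℕ) (f g : ℕ → V3 × ℝ) (hfg : ∀ i ≤ M, f i = g i) :
    En S M f = En S M g := by
  unfold En
  apply Finset.sum_congr rfl
  intro i hi
  have := Finset.mem_range.1 hi
  rw [hfg i (by omega), hfg (i + 1) (by omega)]

theorem md_exists {S : Sf} {c : ℝ} (h : Good S c) {V : V4} (M : ℕ) (w : ℕ → V3 × ℝ) (hw : Adm S V M w) :
    ∃ w' : ℕ → V3 × ℝ, w' 0 = w 0 ∧ w' M = w M ∧ Adm S V M w' ∧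
      ∀ w'' : ℕ → V3 × ℝ, w'' 0 = w 0 → w'' M = w M → Adm S V M w'' → En S M w' ≤ En S M w'' := by
  classical
  have hc := h.c_pos
  have hx0 := (hw 0 (Nat.zero_le _)).1
  set E := En S M w with hEdef
  have hE0 : 0 ≤ E := by
    apply Finset.sum_nonneg
    intro i hi
    have hi' := Finset.mem_range.1 hi
    exact (we_basic h (hw i (by omega)).1 (hw (i + 1) (by omega)).1 _ _).2.2.2
  set R := Real.cosh ((M : ℝ) * (2 * (1 + E) / c)) with hR
  set T := |(w 0).2| + (M : ℝ) * (2 * (1 + E)) with hT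
  -- the compact set of admissible points
  have hFcont : ContinuousOn (fun p : V3 × ℝ => FF S V p.1 p.2) (H2 ×ˢ (Set.univ : Set ℝ)) := by
    have hX : ContinuousOn (fun p : V3 × ℝ => S.X p.1) (H2 ×ˢ (Set.univ : Set ℝ)) :=
      h.core.contX.comp continuous_fst.continuousOn (fun p hp => hp.1)
    have hXk : ∀ k : Fin 4, ContinuousOn (fun p : V3 × ℝ => S.X p.1 k)
        (H2 ×ˢ (Set.univ : Set ℝ)) := fun k => (continuousOn_pi.1 hX) k
    have hsinh : ContinuousOn (fun p : V3 × ℝ => Real.sinh p.2) (H2 ×ˢ (Set.univ : Set ℝ)) :=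
      (Real.continuous_sinh.comp continuous_snd).continuousOn
    have hcosh : ContinuousOn (fun p : V3 × ℝ => Real.cosh p.2) (H2 ×ˢ (Set.univ : Set ℝ)) :=
      (Real.continuous_cosh.comp continuous_snd).continuousOn
    unfold FF q
    exact hsinh.add (hcosh.mul (((((hXk 0).mul continuousOn_const).neg.add
      ((hXk 1).mul continuousOn_const)).add ((hXk 2).mul continuousOn_const)).sub
      ((hXk 3).mul continuousOn_const)))
  have hAcl : IsClosed ((H2 ×ˢ (Set.univ : Set ℝ)) ∩
      (fun p : V3 × ℝ => FF S V p.1 p.2) ⁻¹' Set.Ici 0) :=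
    hFcont.preimage_isClosed_of_isClosed (H2_closed.prod isClosed_univ) isClosed_Ici
  set C : Set (V3 × ℝ) := (({x | x ∈ H2 ∧ -eta (w 0).1 x ≤ R} : Set V3) ×ˢ Set.Icc (-T) T) ∩
    ((H2 ×ˢ (Set.univ : Set ℝ)) ∩ (fun p : V3 × ℝ => FF S V p.1 p.2) ⁻¹' Set.Ici 0) with hC
  have hCcpt : IsCompact C := ((H2_ball hx0 R).prod isCompact_Icc).inter_right hAcl
  set K : ℕ → Set (V3 × ℝ) := fun i => if i ≤ M then C else {w 0} with hK
  have hKcpt : ∀ i, IsCompact (K i) := by
    intro i
    simp only [hK]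
    split_ifs
    · exact hCcpt
    · exact isCompact_singleton
  set D : Set (ℕ → V3 × ℝ) := Set.pi Set.univ K ∩ ({f | f 0 = w 0} ∩ {f | f M = w M}) with hD
  have hDcpt : IsCompact D := by
    apply (isCompact_univ_pi hKcpt).inter_right
    exact (isClosed_eq (continuous_apply 0) continuous_const).inter
      (isClosed_eq (continuous_apply M) continuous_const)
  have hDH : ∀ i ≤ M, ∀ f ∈ D, (f i).1 ∈ H2 ∧ 0 ≤ FF S V (f i).1 (f i).2 := by
    intro i hi f hf
    have h1 : f i ∈ K i := hf.1 i (Set.mem_univ _)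
    simp only [hK, if_pos hi] at h1
    exact ⟨h1.2.1.1, h1.2.2⟩
  have hDadm : ∀ f ∈ D, Adm S V M f := fun f hf i hi => hDH i hi f hf
  -- membership
  have hmem : ∀ f : ℕ → V3 × ℝ, Adm S V M f → f 0 = w 0 → f M = w M → En S M f ≤ E →
      (fun i => if i ≤ M then f i else w 0) ∈ D := by
    intro f hf h0 hM hfE
    have hb := md_aux_bound h M E f hf hfE
    refine ⟨?_, ?_, ?_⟩
    · intro i _
      by_cases hi : i ≤ M
      · simp only [hK, if_pos hi]
        obtain ⟨b1, b2⟩ := hb i hi
        rw [h0] at b1 b2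
        have hiM : (i : ℝ) ≤ M := by exact_mod_cast hi
        refine ⟨⟨⟨(hf i hi).1, ?_⟩, ?_⟩, ⟨(hf i hi).1, Set.mem_univ _⟩, (hf i hi).2⟩
        · refine le_trans b1 ?_
          rw [hR, Real.cosh_le_cosh, abs_of_nonneg (by positivity), abs_of_nonneg (by positivity)]
          exact mul_le_mul_of_nonneg_right hiM (by positivity)
        · have b3 : |(f i).2| ≤ T := by
            have e : (f i).2 = ((f i).2 - (w 0).2) + (w 0).2 := by ring
            rw [e]
            refine le_trans (abs_add_le _ _) ?_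
            have : (i : ℝ) * (2 * (1 + E)) ≤ (M : ℝ) * (2 * (1 + E)) :=
              mul_le_mul_of_nonneg_right hiM (by positivity)
            rw [hT]
            linarith
          exact abs_le.1 b3
      · simp only [hK, if_neg hi, Set.mem_singleton_iff]
    · show (if 0 ≤ M then f 0 else w 0) = w 0
      rw [if_pos (Nat.zero_le _), h0]
    · show (if M ≤ M then f M else w 0) = w M
      rw [if_pos le_rfl, hM]
  have hne : D.Nonempty := ⟨_, hmem w hw rfl rfl le_rfl⟩
  have hcont : ContinuousOn (fun f : ℕ → V3 × ℝ => En S M f) D := by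
    unfold En
    apply continuousOn_finsetSum
    intro i hi
    have hi' := Finset.mem_range.1 hi
    have hX : ∀ j ≤ M, ContinuousOn (fun f : ℕ → V3 × ℝ => S.X (f j).1) D := by
      intro j hj
      exact h.core.contX.comp (continuous_fst.comp (continuous_apply j)).continuousOn
        (fun f hf => (hDH j hj f hf).1)
    have hXk : ∀ j ≤ M, ∀ k : Fin 4, ContinuousOn (fun f : ℕ → V3 × ℝ => S.X (f j).1 k) D :=
      fun j hj k => (continuousOn_pi.1 (hX j hj)) k
    have hsinh : ∀ j, ContinuousOn (fun f : ℕ → V3 × ℝ => Real.sinh (f j).2) D :=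
      fun j => (Real.continuous_sinh.comp (continuous_snd.comp (continuous_apply j))).continuousOn
    have hcosh : ∀ j, ContinuousOn (fun f : ℕ → V3 × ℝ => Real.cosh (f j).2) D :=
      fun j => (Real.continuous_cosh.comp (continuous_snd.comp (continuous_apply j))).continuousOn
    have h1 : i ≤ M := by omega
    have h2 : i + 1 ≤ M := by omega
    unfold WE q
    exact (((((hcosh i).mul (hcosh (i + 1))).mul (((((hXk i h1 0).mul (hXk (i + 1) h2 0)).neg.add
      ((hXk i h1 1).mul (hXk (i + 1) h2 1))).add ((hXk i h1 2).mul (hXk (i + 1) h2 2))).sub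
      ((hXk i h1 3).mul (hXk (i + 1) h2 3)))).neg).sub
      ((hsinh i).mul (hsinh (i + 1)))).sub continuousOn_const
  obtain ⟨f0, hf0, hmin⟩ := hDcpt.exists_isMinOn hne hcont
  refine ⟨f0, hf0.2.1, hf0.2.2, hDadm f0 hf0, ?_⟩
  intro w'' h0 hM hadm
  have hwmin : En S M f0 ≤ E := by
    have := hmin (hmem w hw rfl rfl le_rfl)
    have e : En S M (fun i => if i ≤ M then w i else w 0) = En S M w :=
      md_aux_En M _ _ (fun i hi => if_pos hi)
    have h3 : En S M f0 ≤ En S M (fun i => if i ≤ M then w i else w 0) := this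
    rw [e] at h3
    exact h3
  by_cases hle : En S M w'' ≤ E
  · have h3 : En S M f0 ≤ En S M (fun i => if i ≤ M then w'' i else w 0) :=
      hmin (hmem w'' hadm h0 hM hle)
    have e : En S M (fun i => if i ≤ M then w'' i else w 0) = En S M w'' :=
      md_aux_En M _ _ (fun i hi => if_pos hi)
    rw [e] at h3
    exact h3
  · exact le_trans hwmin (le_of_lt (not_le.1 hle))

end A_md_exists

alias md_exists := A_md_exists.md_exists

end Helper935.AdS
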