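import Pool.Agent.Helper935_AdS.PtB

namespace Helper935.AdS

namespace A_md_crit

theorem md_tangent_pos {x v : V3} (hx : x ∈ H2) (hv : eta x v = 0) (hne : v ≠ 0) : 0 < eta v v := by
  obtain ⟨h1, h2⟩ := hx
  unfold eta at *
  have h3 : x 0 * v 0 = x 1 * v 1 + x 2 * v 2 := by linarith
  have h4 : x 0 * x 0 = 1 + x 1 * x 1 + x 2 * x 2 := by linarith
  have h5 : (x 0 * v 0) ^ 2 + (x 1 * v 2 - x 2 * v 1) ^ 2 =
      (x 1 * x 1 + x 2 * x 2) * (v 1 * v 1 + v 2 * v 2) := by
    rw [h3]; ring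
  have h6 : (x 0 * x 0) * (-(v 0 * v 0) + v 1 * v 1 + v 2 * v 2) =
      (v 1 * v 1 + v 2 * v 2) + (x 1 * v 2 - x 2 * v 1) ^ 2 := by
    have h7 : x 1 * x 1 + x 2 * x 2 = x 0 * x 0 - 1 := by linarith
    rw [h7] at h5
    linarith
  have h8 : 0 < x 0 * x 0 := mul_pos h2 h2
  by_contra hcon
  push Not at hcon
  have h9 : (x 0 * x 0) * (-(v 0 * v 0) + v 1 * v 1 + v 2 * v 2) ≤ 0 :=
    mul_nonpos_of_nonneg_of_nonpos h8.le hcon
  have h10 : v 1 = 0 := by
    have : v 1 * v 1 ≤ 0 := by nlinarith [mul_self_nonneg (v 2), sq_nonneg (x 1 * v 2 - x 2 * v 1)]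
    exact mul_self_eq_zero.mp (le_antisymm this (mul_self_nonneg _))
  have h11 : v 2 = 0 := by
    have : v 2 * v 2 ≤ 0 := by nlinarith [mul_self_nonneg (v 1), sq_nonneg (x 1 * v 2 - x 2 * v 1)]
    exact mul_self_eq_zero.mp (le_antisymm this (mul_self_nonneg _))
  have h12 : v 0 = 0 := by
    rw [h10, h11] at h3
    simp at h3
    rcases h3 with h | h
    · exact absurd h h2.ne'
    · exact h
  apply hne
  funext k
  fin_cases k
  · simpa using h12
  · simpa using h10
  · simpa using h11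

theorem md_eta_smul (x v : V3) (c : ℝ) : eta x (c • v) = c * eta x v := by
  simp only [eta, Pi.smul_apply, smul_eq_mul]; ring

theorem md_eta_smul2 (v : V3) (c : ℝ) : eta (c • v) (c • v) = c * (c * eta v v) := by
  simp only [eta, Pi.smul_apply, smul_eq_mul]; ring

theorem md_q_smul (a : ℝ) (X Y : V4) : q (a • X) Y = a * q X Y := by
  simp only [q, Pi.smul_apply, smul_eq_mul]; ring

theorem md_q_smulr (a : ℝ) (X Y : V4) : q X (a • Y) = a * q X Y := by
  simp only [q, Pi.smul_apply, smul_eq_mul]; ring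

theorem md_q_add (X Y Z : V4) : q (X + Y) Z = q X Z + q Y Z := by
  simp only [q, Pi.add_apply]; ring

theorem md_q_addr (X Y Z : V4) : q Z (X + Y) = q Z X + q Z Y := by
  simp only [q, Pi.add_apply]; ring

theorem md_q_comm (X Y : V4) : q X Y = q Y X := by
  simp only [q]; ring

theorem md_term {a b C : ℝ} (hC : C ≤ -1) :
    1 ≤ -(Real.cosh a * (Real.cosh b * C)) - Real.sinh a * Real.sinh b := by
  have h1 : 0 < Real.cosh a * Real.cosh b := mul_pos (Real.cosh_pos a) (Real.cosh_pos b)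
  have h2 : 1 ≤ Real.cosh a * Real.cosh b - Real.sinh a * Real.sinh b := by
    rw [← Real.cosh_sub]; exact Real.one_le_cosh _
  nlinarith

theorem md_swap {S : Sf} {V : V4} {M : ℕ} {w : ℕ → V3 × ℝ} (hw : Adm S V M w)
    (hmin : ∀ w' : ℕ → V3 × ℝ, w' 0 = w 0 → w' M = w M → Adm S V M w' → En S M w ≤ En S M w')
    {i : ℕ} (hi : i + 1 < M) (P : V3) (t : ℝ) (hP : P ∈ H2) (ht : 0 ≤ FF S V P t) :
    WE S (w i).1 (w i).2 (w (i + 1)).1 (w (i + 1)).2 +
      WE S (w (i + 1)).1 (w (i + 1)).2 (w (i + 2)).1 (w (i + 2)).2 ≤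
    WE S (w i).1 (w i).2 P t + WE S P t (w (i + 2)).1 (w (i + 2)).2 := by
  classical
  set w' : ℕ → V3 × ℝ := Function.update w (i + 1) (P, t) with hw'
  have e1 : w' (i + 1) = (P, t) := by simp [hw']
  have e2 : ∀ k, k ≠ i + 1 → w' k = w k := fun k hk => by simp [hw', Function.update_of_ne hk]
  have h0 : w' 0 = w 0 := e2 0 (by omega)
  have hM : w' M = w M := e2 M (by omega)
  have hA : Adm S V M w' := by
    intro k hk
    by_cases hki : k = i + 1
    · subst hki; rw [e1]; exact ⟨hP, ht⟩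
    · rw [e2 k hki]; exact hw k hk
  have h := hmin w' h0 hM hA
  unfold En at h
  have key : ∀ u : ℕ → V3 × ℝ, ∑ k ∈ Finset.range M, WE S (u k).1 (u k).2 (u (k + 1)).1 (u (k + 1)).2 =
      WE S (u i).1 (u i).2 (u (i + 1)).1 (u (i + 1)).2 +
      (WE S (u (i + 1)).1 (u (i + 1)).2 (u (i + 2)).1 (u (i + 2)).2 +
      ∑ k ∈ ((Finset.range M).erase i).erase (i + 1), WE S (u k).1 (u k).2 (u (k + 1)).1 (u (k + 1)).2) := by
    intro u
    rw [← Finset.add_sum_erase (Finset.range M) _ (Finset.mem_range.mpr (by omega : i < M)),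
      ← Finset.add_sum_erase ((Finset.range M).erase i) _
        (Finset.mem_erase.mpr ⟨by omega, Finset.mem_range.mpr hi⟩)]
  rw [key w, key w'] at h
  have hs : ∑ k ∈ ((Finset.range M).erase i).erase (i + 1), WE S (w' k).1 (w' k).2 (w' (k + 1)).1 (w' (k + 1)).2 =
      ∑ k ∈ ((Finset.range M).erase i).erase (i + 1), WE S (w k).1 (w k).2 (w (k + 1)).1 (w (k + 1)).2 := by
    apply Finset.sum_congr rfl
    intro k hk
    simp only [Finset.mem_erase] at hk
    rw [e2 k hk.1, e2 (k + 1) (by omega)]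
  rw [hs, e1, e2 i (by omega), e2 (i + 2) (by omega)] at h
  simp only at h
  linarith

theorem md_crit {S : Sf} {c : ℝ} (h : Good S c) {V : V4} (hN : ∀ x ∈ H2, 0 < q (S.N x) V) {M : ℕ} {w : ℕ → V3 × ℝ} (hw : Adm S V M w)
    (hmin : ∀ w' : ℕ → V3 × ℝ, w' 0 = w 0 → w' M = w M → Adm S V M w' → En S M w ≤ En S M w')
    {i : ℕ} (hi : i + 1 < M) (hF : 0 < FF S V (w (i + 1)).1 (w (i + 1)).2) :
    2 * FF S V (w (i + 1)).1 (w (i + 1)).2 ≤ FF S V (w i).1 (w i).2 + FF S V (w (i + 2)).1 (w (i + 2)).2 := by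
  set P := (w (i + 1)).1 with hPdef
  set t := (w (i + 1)).2 with htdef
  set P1 := (w i).1 with hP1def
  set t1 := (w i).2 with ht1def
  set P2 := (w (i + 2)).1 with hP2def
  set t2 := (w (i + 2)).2 with ht2def
  have hP : P ∈ H2 := (hw (i + 1) (by omega)).1
  have hP1 : P1 ∈ H2 := (hw i (by omega)).1
  have hP2 : P2 ∈ H2 := (hw (i + 2) (by omega)).1
  set A : V4 := Real.cosh t1 • S.X P1 + Real.cosh t2 • S.X P2 with hA
  set r : ℝ := Real.sinh t1 + Real.sinh t2 with hr
  have hPhi : ∀ Q u, WE S P1 t1 Q u + WE S Q u P2 t2 =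
      -(Real.cosh u * q (S.X Q) A) - Real.sinh u * r - 2 := by
    intro Q u
    simp only [WE, hA, hr, md_q_addr, md_q_smulr]
    rw [md_q_comm (S.X P1) (S.X Q)]
    ring
  have hsw : ∀ Q u, Q ∈ H2 → 0 ≤ FF S V Q u →
      -(Real.cosh t * q (S.X P) A) - Real.sinh t * r - 2 ≤
      -(Real.cosh u * q (S.X Q) A) - Real.sinh u * r - 2 := by
    intro Q u hQ hu
    have := md_swap hw hmin hi Q u hQ hu
    rw [← hPhi, ← hPhi]
    exact this
  -- derivative in the height direction
  have hd1 : Real.sinh t * (-(q (S.X P) A)) = Real.cosh t * r := by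
    have hder : HasDerivAt (fun u : ℝ => -(Real.cosh u * q (S.X P) A) - Real.sinh u * r - 2)
        (-(Real.sinh t * q (S.X P) A) - Real.cosh t * r) t := by
      have h1 := ((Real.hasDerivAt_cosh t).mul_const (q (S.X P) A)).neg
      have h2 := (Real.hasDerivAt_sinh t).mul_const r
      exact (h1.sub h2).sub_const 2
    have hloc : IsLocalMin (fun u : ℝ => -(Real.cosh u * q (S.X P) A) - Real.sinh u * r - 2) t := by
      have hc : Continuous (fun u : ℝ => FF S V P u) := by
        unfold FF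
        exact Real.continuous_sinh.add (Real.continuous_cosh.mul continuous_const)
      have hev : ∀ᶠ u in nhds t, 0 < FF S V P u :=
        hc.continuousAt.eventually (lt_mem_nhds hF)
      filter_upwards [hev] with u hu
      exact hsw P u hP hu.le
    have := hloc.hasDerivAt_eq_zero hder
    linarith
  -- derivative along geodesics
  have hd2 : ∀ v, UT P v → q (S.dX P v) A = 0 := by
    intro v hv
    have hz := geo_zero P v
    have hder0 : HasDerivAt (fun s => q (S.X (geo P v s)) A) (q (S.dX P v) A) 0 := by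
      have := (dq h.core hP hv A 0).1
      rwa [hz.1, hz.2] at this
    have hderV : HasDerivAt (fun s => q (S.X (geo P v s)) V) (q (S.dX P v) V) 0 := by
      have := (dq h.core hP hv V 0).1
      rwa [hz.1, hz.2] at this
    have hder : HasDerivAt (fun s : ℝ => -(Real.cosh t * q (S.X (geo P v s)) A) - Real.sinh t * r - 2)
        (-(Real.cosh t * q (S.dX P v) A)) 0 :=
      (((hder0.const_mul (Real.cosh t)).neg).sub_const _).sub_const _
    have hloc : IsLocalMin
        (fun s : ℝ => -(Real.cosh t * q (S.X (geo P v s)) A) - Real.sinh t * r - 2) 0 := by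
      have hc : ContinuousAt (fun s : ℝ => FF S V (geo P v s) t) 0 := by
        unfold FF
        exact continuousAt_const.add (continuousAt_const.mul hderV.continuousAt)
      have hF0 : 0 < FF S V (geo P v 0) t := by rw [hz.1]; exact hF
      have hev : ∀ᶠ s in nhds (0 : ℝ), 0 < FF S V (geo P v s) t :=
        hc.eventually (lt_mem_nhds hF0)
      filter_upwards [hev] with s hs
      have := hsw (geo P v s) t (geo_mem hP hv s) hs.le
      simp only [hz.1]
      exact this
    have h0 := hloc.hasDerivAt_eq_zero hder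
    have hcp : 0 < Real.cosh t := Real.cosh_pos t
    have h1 : Real.cosh t * q (S.dX P v) A = 0 := by linarith
    exact (mul_eq_zero.mp h1).resolve_left hcp.ne'
  have hd3 : ∀ v, eta P v = 0 → q (S.dX P v) A = 0 := by
    intro v hv
    by_cases hv0 : v = 0
    · subst hv0
      have h1 := h.core.dX_smul P hP 0 0
      rw [smul_zero, zero_smul] at h1
      rw [h1]
      simp [q]
    · have hp := md_tangent_pos hP hv hv0
      set n := Real.sqrt (eta v v) with hn
      have hnp : 0 < n := Real.sqrt_pos.mpr hp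
      have hnn : n * n = eta v v := Real.mul_self_sqrt hp.le
      have hu : UT P (n⁻¹ • v) := by
        refine ⟨by rw [md_eta_smul, hv, mul_zero], ?_⟩
        rw [md_eta_smul2, ← hnn]
        field_simp
      have h1 := hd2 _ hu
      rw [h.core.dX_smul P hP, md_q_smul] at h1
      exact (mul_eq_zero.mp h1).resolve_left (inv_ne_zero hnp.ne')
  have hdec := decomp2 h.core hP hd3
  set a : ℝ := -(q (S.X P) A) with ha
  set k : ℝ := -(q (S.N P) A) with hk
  have hk0 : 0 ≤ k := by
    have e : q (S.N P) A = Real.cosh t1 * q (S.N P) (S.X P1) + Real.cosh t2 * q (S.N P) (S.X P2) := by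
      rw [hA, md_q_addr, md_q_smulr, md_q_smulr]
    have h1 : Real.cosh t1 * q (S.N P) (S.X P1) ≤ 0 :=
      mul_nonpos_of_nonneg_of_nonpos (Real.cosh_pos _).le (h.supp P hP P1 hP1)
    have h2 : Real.cosh t2 * q (S.N P) (S.X P2) ≤ 0 :=
      mul_nonpos_of_nonneg_of_nonpos (Real.cosh_pos _).le (h.supp P hP P2 hP2)
    rw [hk, e]; linarith
  have hC : 0 < Real.cosh t := Real.cosh_pos t
  have hCS : Real.cosh t ^ 2 - Real.sinh t ^ 2 = 1 := Real.cosh_sq_sub_sinh_sq t
  have hlam : ∃ l : ℝ, a = l * Real.cosh t ∧ r = l * Real.sinh t := by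
    refine ⟨a / Real.cosh t, by field_simp, ?_⟩
    field_simp
    linarith
  obtain ⟨l, hl1, hl2⟩ := hlam
  have hl : 2 ≤ l := by
    have e1 : l = Real.cosh t * a - Real.sinh t * r := by
      rw [hl1, hl2]
      have : Real.cosh t * (l * Real.cosh t) - Real.sinh t * (l * Real.sinh t)
        = l * (Real.cosh t ^ 2 - Real.sinh t ^ 2) := by ring
      rw [this, hCS, mul_one]
    have e2 : q (S.X P) A = Real.cosh t1 * q (S.X P) (S.X P1) + Real.cosh t2 * q (S.X P) (S.X P2) := by
      rw [hA, md_q_addr, md_q_smulr, md_q_smulr]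
    have h1 := md_term (a := t) (b := t1) (h.chord P hP P1 hP1)
    have h2 := md_term (a := t) (b := t2) (h.chord P hP P2 hP2)
    rw [e1, ha, e2, hr]
    linarith
  have hsum : FF S V P1 t1 + FF S V P2 t2 = r + q A V := by
    rw [hA, md_q_add, md_q_smul, md_q_smul, hr]
    unfold FF
    ring
  have hAV : q A V = a * q (S.X P) V + k * q (S.N P) V := by
    have : q A V = q (a • S.X P + k • S.N P) V := congrArg (fun Z => q Z V) hdec
    rw [this, md_q_add, md_q_smul, md_q_smul]
  have hNV : 0 ≤ k * q (S.N P) V := mul_nonneg hk0 (hN P hP).le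
  have hFl : r + q A V = l * FF S V P t + k * q (S.N P) V := by
    rw [hAV, hl1, hl2]
    unfold FF
    ring
  rw [hsum, hFl]
  nlinarith [mul_nonneg (sub_nonneg.mpr hl) hF.le]

end A_md_crit

alias md_crit := A_md_crit.md_crit

end Helper935.AdS
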