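import Pool.Agent.Helper935_AdS.DiscA
import Pool.Agent.Helper935_AdS.DiscB
import Pool.Agent.Helper935_AdS.DiscC

namespace Helper935.AdS

namespace A_md_flat

theorem md_flat_arcosh {a : ℝ} (ha : 1 ≤ a) : ∃ d : ℝ, 0 ≤ d ∧ Real.cosh d = a := by
  have h1 : Filter.Tendsto Real.cosh Filter.atTop Filter.atTop := by
    refine Filter.tendsto_atTop_mono (fun x => ?_) (Filter.tendsto_id.atTop_div_const two_pos)
    have := Real.add_one_le_exp x
    rw [Real.cosh_eq]
    have h2 := Real.exp_pos (-x)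
    simp only [id]
    linarith
  obtain ⟨b, hb⟩ := (Filter.tendsto_atTop.1 h1 a).exists_forall_of_atTop
  have hb0 := hb (max b 0) (le_max_left _ _)
  have h3 := intermediate_value_Icc (le_max_right b 0) Real.continuous_cosh.continuousOn
  obtain ⟨d, hd, hd2⟩ := h3 ⟨by rw [Real.cosh_zero]; exact ha, hb0⟩
  exact ⟨d, hd.1, hd2⟩

theorem md_flat {S : Sf} {c : ℝ} (h : Good S c) {V : V4} (hV : q V V = -1) {M : ℕ} (hM : 0 < M) {w : ℕ → V3 × ℝ} (hw : Adm S V M w)
    (h0 : ∀ i ≤ M, FF S V (w i).1 (w i).2 = 0) {T : ℝ} (hT : 0 ≤ T)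
    (hTT : Real.cosh T = -q (zz S V (w 0).1 (w 0).2) (zz S V (w M).1 (w M).2)) :
    (M : ℝ) * (Real.cosh (T / M) - 1) ≤ En S M w := by
  obtain ⟨z, hz⟩ : ∃ z : ℕ → V4, z = fun i => zz S V (w i).1 (w i).2 := ⟨_, rfl⟩
  have hzi : ∀ i, zz S V (w i).1 (w i).2 = z i := fun i => by rw [hz]
  rw [hzi, hzi] at hTT
  have hzz : ∀ i ≤ M, q (z i) V = 0 ∧ q (z i) (z i) = -1 := by
    intro i hi
    have := zz_we h hV (hw i hi).1 (hw i hi).1 (h0 i hi) (h0 i hi)
    rw [hzi] at this
    exact this.2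
  have hWE : ∀ i < M, WE S (w i).1 (w i).2 (w (i + 1)).1 (w (i + 1)).2 = -q (z i) (z (i + 1)) - 1 ∧
      1 ≤ -q (z i) (z (i + 1)) := by
    intro i hi
    have h1 := zz_we h hV (hw i hi.le).1 (hw (i + 1) hi).1 (h0 i hi.le) (h0 (i + 1) hi)
    have h2 := (we_basic h (hw i hi.le).1 (hw (i + 1) hi).1 (w i).2 (w (i + 1)).2).2.2.2
    rw [hzi, hzi] at h1
    refine ⟨h1.1, ?_⟩
    rw [h1.1] at h2
    linarith
  have hd : ∀ i, ∃ d : ℝ, 0 ≤ d ∧ (i < M → Real.cosh d = -q (z i) (z (i + 1))) := by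
    intro i
    by_cases hi : i < M
    · obtain ⟨d, h1, h2⟩ := md_flat_arcosh (hWE i hi).2
      exact ⟨d, h1, fun _ => h2⟩
    · exact ⟨0, le_refl _, fun h => absurd h hi⟩
  choose d hd0 hd1 using hd
  have hind : ∀ j ≤ M, q (z 0) (z j) ≤ -1 ∧ -q (z 0) (z j) ≤ Real.cosh (∑ i ∈ Finset.range j, d i) := by
    intro j
    induction j with
    | zero =>
      intro _
      rw [(hzz 0 (Nat.zero_le _)).2]
      simp
    | succ j ih =>
      intro hj
      obtain ⟨i1, i2⟩ := ih (by omega)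
      rw [Finset.sum_range_succ]
      have hjM : j < M := by omega
      exact q_triangle hV (hzz 0 (Nat.zero_le _)).2 (hzz j hjM.le).2 (hzz (j + 1) hj).2
        (hzz 0 (Nat.zero_le _)).1 (hzz j hjM.le).1 (hzz (j + 1) hj).1
        (Finset.sum_nonneg (fun i _ => hd0 i)) (hd0 j) i1 (by linarith [(hWE j hjM).2]) i2
        (le_of_eq (hd1 j hjM).symm)
  have hfin := (hind M le_rfl).2
  rw [← hTT] at hfin
  have hTs : T ≤ ∑ i ∈ Finset.range M, d i := by
    have h1 := Real.cosh_le_cosh.1 hfin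
    rwa [abs_of_nonneg hT, abs_of_nonneg (Finset.sum_nonneg (fun i _ => hd0 i))] at h1
  refine (jensen_cosh hM hT hd0 hTs).trans ?_
  unfold En
  apply Finset.sum_le_sum
  intro i hi
  have hi' := Finset.mem_range.1 hi
  rw [hd1 i hi', (hWE i hi').1]

end A_md_flat

alias md_flat := A_md_flat.md_flat

namespace A_min_disc

/- Proof:
Let w' be the minimiser of md_exists. f i = FF S V (w' i).1 (w' i).2 is >= 0 for i <= M, f 0 = f M = 0, and md_crit gives the convexity needed for md_zero: all f i = 0 (i <= M). md_flat for w' (same endpoints): M (cosh(T/M) - 1) <= En w' <= En w.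
-/
theorem min_disc {S : Sf} {c : ℝ} (h : Good S c) {V : V4} (hV : q V V = -1) (hN : ∀ x ∈ H2, 0 < q (S.N x) V) {M : ℕ} (hM : 0 < M)
    {w : ℕ → V3 × ℝ} (hw : Adm S V M w) (h0 : FF S V (w 0).1 (w 0).2 = 0) (h1 : FF S V (w M).1 (w M).2 = 0)
    {T : ℝ} (hT : 0 ≤ T) (hTT : Real.cosh T = -q (zz S V (w 0).1 (w 0).2) (zz S V (w M).1 (w M).2)) :
    (M : ℝ) * (Real.cosh (T / M) - 1) ≤ En S M w := by
  obtain ⟨w', hw0, hwM, hadm, hmin⟩ := md_exists h (V := V) M w hw
  have hmin' : ∀ w'' : ℕ → V3 × ℝ, w'' 0 = w' 0 → w'' M = w' M → Adm S V M w'' →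
      En S M w' ≤ En S M w'' := by
    intro w'' h2 h3 h4
    exact hmin w'' (h2.trans hw0) (h3.trans hwM) h4
  have hz : ∀ i ≤ M, FF S V (w' i).1 (w' i).2 = 0 := by
    apply md_zero (f := fun i => FF S V (w' i).1 (w' i).2)
    · show FF S V (w' 0).1 (w' 0).2 = 0
      rw [hw0]; exact h0
    · show FF S V (w' M).1 (w' M).2 = 0
      rw [hwM]; exact h1
    · intro i hi
      exact (hadm i hi).2
    · intro i hi hF
      exact md_crit h hN hadm hmin' hi hF
  have hfl := md_flat h hV hM hadm hz hT (by rw [hw0, hwM]; exact hTT)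
  exact hfl.trans (hmin w rfl rfl hw)

end A_min_disc

alias min_disc := A_min_disc.min_disc

namespace A_path_ext

/- Proof:
Let x0 = (w 0).1, a = (w 0).2, xn = (w n).1, b = (w n).2. FF S V x t = cosh t (tanh t + q (X x) V); as tanh is increasing, FF(x0,t0) = 0 <= FF(x0,a) gives t0 <= a and FF(x0,t) >= 0 for all t >= t0; similarly tn <= b and FF(xn,t) >= 0 for t >= tn. Path of n + 2m steps: w'(i) = (x0, t0 + (i/m)(a - t0)) for i <= m, w'(m + j) = w j for j <= n, w'(m+n+k) = (xn, b - (k/m)(b - tn)) for k <= m (piecewise definition with if; the two formulas agree at the junctions). It is admissible, FF = 0 at both ends; a vertical step has energy cosh(t - t') - 1 (q (X x)(X x) = -1) with |t - t'| <= B/m, so at most cosh(B/m) - 1. Total energy <= n A + 2 m (cosh(B/m) - 1). Apply min_disc with M = n + 2m.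
-/
theorem path_ext_FF {S : Sf} {V : V4} {x : V3} {t₀ : ℝ} (h0 : FF S V x t₀ = 0) (t : ℝ) :
    Real.cosh t₀ * FF S V x t = Real.sinh (t - t₀) := by
  unfold FF at h0 ⊢
  rw [Real.sinh_sub]
  linear_combination (Real.cosh t) * h0

theorem path_ext_ge {S : Sf} {V : V4} {x : V3} {t₀ : ℝ} (h0 : FF S V x t₀ = 0) {t : ℝ}
    (ht : t₀ ≤ t) : 0 ≤ FF S V x t := by
  have h1 := path_ext_FF h0 t
  have h2 : 0 ≤ Real.sinh (t - t₀) := Real.sinh_nonneg_iff.2 (by linarith)
  have h3 : 0 < Real.cosh t₀ := Real.cosh_pos t₀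
  rw [← h1] at h2
  by_contra hc
  push Not at hc
  have := mul_neg_of_pos_of_neg h3 hc
  linarith

theorem path_ext_le {S : Sf} {V : V4} {x : V3} {t₀ : ℝ} (h0 : FF S V x t₀ = 0) {t : ℝ}
    (ht : 0 ≤ FF S V x t) : t₀ ≤ t := by
  have h1 := path_ext_FF h0 t
  have h2 : 0 ≤ Real.sinh (t - t₀) := by
    rw [← h1]; exact mul_nonneg (Real.cosh_pos t₀).le ht
  have := Real.sinh_nonneg_iff.1 h2
  linarith

theorem path_ext_WE {S : Sf} {c : ℝ} (h : Good S c) {x : V3} (hx : x ∈ H2) (t s : ℝ) :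
    WE S x t x s = Real.cosh (t - s) - 1 := by
  unfold WE
  rw [h.core.XX x hx, Real.cosh_sub]
  ring

theorem path_ext {S : Sf} {c : ℝ} (h : Good S c) {V : V4} (hV : q V V = -1) (hN : ∀ x ∈ H2, 0 < q (S.N x) V) {n : ℕ} (hn : 0 < n)
    {w : ℕ → V3 × ℝ} (hw : Adm S V n w) {A B : ℝ} (hA : En S n w ≤ n * A) {t₀ tn : ℝ}
    (h0 : FF S V (w 0).1 t₀ = 0) (h1 : FF S V (w n).1 tn = 0) (hB0 : |t₀ - (w 0).2| ≤ B)
    (hB1 : |tn - (w n).2| ≤ B) {T : ℝ} (hT : 0 ≤ T)
    (hTT : Real.cosh T = -q (zz S V (w 0).1 t₀) (zz S V (w n).1 tn)) {m : ℕ} (hm : 0 < m) :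
    ((n : ℝ) + 2 * m) * (Real.cosh (T / (n + 2 * m)) - 1) ≤ n * A + 2 * m * (Real.cosh (B / m) - 1) := by
  have hm' : (0 : ℝ) < m := by exact_mod_cast hm
  obtain ⟨hx0, ha⟩ := hw 0 (Nat.zero_le n)
  obtain ⟨hxn, hb⟩ := hw n le_rfl
  have hta : t₀ ≤ (w 0).2 := path_ext_le h0 ha
  have htb : tn ≤ (w n).2 := path_ext_le h1 hb
  set a := (w 0).2 with ha_def
  set b := (w n).2 with hb_def
  set w' : ℕ → V3 × ℝ := fun i =>
    if i ≤ m then ((w 0).1, t₀ + (i / m : ℝ) * (a - t₀))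
    else if i ≤ m + n then w (i - m)
    else ((w n).1, b - (((i : ℝ) - m - n) / m) * (b - tn)) with hw'
  have e1 : ∀ i ≤ m, w' i = ((w 0).1, t₀ + (i / m : ℝ) * (a - t₀)) := by
    intro i hi
    simp only [hw', if_pos hi]
  have e2 : ∀ j ≤ n, w' (m + j) = w j := by
    intro j hj
    rcases Nat.eq_zero_or_pos j with rfl | hj0
    · rw [Nat.add_zero, e1 m le_rfl, div_self hm'.ne', one_mul]
      ext1
      · rfl
      · simp [ha_def]
    · have h2 : ¬ (m + j ≤ m) := by omega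
      have h3 : m + j ≤ m + n := by omega
      simp only [hw', if_neg h2, if_pos h3]
      congr 1
      omega
  have e3 : ∀ k ≤ m, w' (m + n + k) = ((w n).1, b - ((k : ℝ) / m) * (b - tn)) := by
    intro k hk
    rcases Nat.eq_zero_or_pos k with rfl | hk0
    · rw [Nat.add_zero, e2 n le_rfl]
      ext1
      · rfl
      · simp [hb_def]
    · have h2 : ¬ (m + n + k ≤ m) := by omega
      have h3 : ¬ (m + n + k ≤ m + n) := by omega
      simp only [hw', if_neg h2, if_neg h3]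
      push_cast
      congr 2
      congr 1
      ring
  have hadm : Adm S V (m + n + m) w' := by
    intro i hi
    rcases le_or_gt i m with h2 | h2
    · rw [e1 i h2]
      refine ⟨hx0, path_ext_ge h0 ?_⟩
      have : 0 ≤ (i / m : ℝ) * (a - t₀) := mul_nonneg (by positivity) (by linarith)
      simp only
      linarith
    · rcases le_or_gt i (m + n) with h3 | h3
      · obtain ⟨j, rfl⟩ := Nat.exists_eq_add_of_le h2.le
        rw [e2 j (by omega)]
        exact hw j (by omega)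
      · obtain ⟨k, rfl⟩ := Nat.exists_eq_add_of_le h3.le
        have hk : k ≤ m := by omega
        rw [e3 k hk]
        refine ⟨hxn, path_ext_ge h1 ?_⟩
        have h4 : (k : ℝ) / m ≤ 1 := by
          rw [div_le_one hm']; exact_mod_cast hk
        have h5 : 0 ≤ b - tn := by linarith
        have h6 : (k : ℝ) / m * (b - tn) ≤ 1 * (b - tn) := mul_le_mul_of_nonneg_right h4 h5
        simp only
        linarith
  have z0 : w' 0 = ((w 0).1, t₀) := by
    rw [e1 0 (Nat.zero_le m)]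
    simp
  have zM : w' (m + n + m) = ((w n).1, tn) := by
    rw [e3 m le_rfl, div_self hm'.ne']
    ext1
    · rfl
    · simp
  have hmain := min_disc h hV hN (M := m + n + m) (by omega) hadm (by rw [z0]; exact h0)
    (by rw [zM]; exact h1) hT (by rw [z0, zM]; exact hTT)
  have hstep : ∀ u B' : ℝ, |u| ≤ B' → Real.cosh u - 1 ≤ Real.cosh B' - 1 := by
    intro u B' hu
    have : Real.cosh u ≤ Real.cosh B' := by
      rw [Real.cosh_le_cosh]
      exact hu.trans (le_abs_self B')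
    linarith
  have hsum : En S (m + n + m) w' ≤ n * A + 2 * m * (Real.cosh (B / m) - 1) := by
    unfold En
    rw [Finset.sum_range_add, Finset.sum_range_add]
    have s1 : ∑ i ∈ Finset.range m, WE S (w' i).1 (w' i).2 (w' (i + 1)).1 (w' (i + 1)).2
        ≤ m * (Real.cosh (B / m) - 1) := by
      have : ∑ i ∈ Finset.range m, WE S (w' i).1 (w' i).2 (w' (i + 1)).1 (w' (i + 1)).2
          ≤ ∑ i ∈ Finset.range m, (Real.cosh (B / m) - 1) := by
        apply Finset.sum_le_sum
        intro i hi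
        have hi' := Finset.mem_range.1 hi
        rw [e1 i hi'.le, e1 (i + 1) hi', path_ext_WE h hx0]
        apply hstep
        have h7 : t₀ + (i : ℝ) / m * (a - t₀) - (t₀ + ((i + 1 : ℕ) : ℝ) / m * (a - t₀)) =
            (t₀ - a) / m := by
          push_cast
          field_simp
          ring
        rw [h7, abs_div, abs_of_pos hm']
        exact div_le_div_of_nonneg_right hB0 hm'.le
      rw [Finset.sum_const, Finset.card_range, nsmul_eq_mul] at this
      exact this
    have s2 : ∑ j ∈ Finset.range n, WE S (w' (m + j)).1 (w' (m + j)).2 (w' (m + j + 1)).1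
        (w' (m + j + 1)).2 ≤ n * A := by
      refine le_trans (le_of_eq ?_) hA
      unfold En
      apply Finset.sum_congr rfl
      intro j hj
      have hj' := Finset.mem_range.1 hj
      rw [e2 j hj'.le, show m + j + 1 = m + (j + 1) by ring, e2 (j + 1) hj']
    have s3 : ∑ k ∈ Finset.range m, WE S (w' (m + n + k)).1 (w' (m + n + k)).2
        (w' (m + n + k + 1)).1 (w' (m + n + k + 1)).2 ≤ m * (Real.cosh (B / m) - 1) := by
      have : ∑ k ∈ Finset.range m, WE S (w' (m + n + k)).1 (w' (m + n + k)).2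
        (w' (m + n + k + 1)).1 (w' (m + n + k + 1)).2
          ≤ ∑ i ∈ Finset.range m, (Real.cosh (B / m) - 1) := by
        apply Finset.sum_le_sum
        intro k hk
        have hk' := Finset.mem_range.1 hk
        rw [e3 k hk'.le, show m + n + k + 1 = m + n + (k + 1) by ring, e3 (k + 1) hk',
          path_ext_WE h hxn]
        apply hstep
        have h7 : b - (k : ℝ) / m * (b - tn) - (b - ((k + 1 : ℕ) : ℝ) / m * (b - tn)) =
            -((tn - b) / m) := by
          push_cast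
          field_simp
          ring
        rw [h7, abs_neg, abs_div, abs_of_pos hm']
        exact div_le_div_of_nonneg_right hB1 hm'.le
      rw [Finset.sum_const, Finset.card_range, nsmul_eq_mul] at this
      exact this
    linarith
  have hc : ((m + n + m : ℕ) : ℝ) = (n : ℝ) + 2 * m := by push_cast; ring
  rw [hc] at hmain
  exact hmain.trans hsum

end A_path_ext

alias path_ext := A_path_ext.path_ext

namespace A_md_len

/- Proof:
C from el1; apply el1 with the inequalities of path_ext for all m >= 1.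
-/
theorem md_len {S : Sf} {c : ℝ} (h : Good S c) {V : V4} (hV : q V V = -1) (hN : ∀ x ∈ H2, 0 < q (S.N x) V) {η B : ℝ} (hη : 0 < η) (hB : 0 ≤ B) :
    ∃ C : ℝ, 0 ≤ C ∧ ∀ n : ℕ, 0 < n → ∀ A : ℝ, 0 ≤ A → A ≤ 1 → ∀ w : ℕ → V3 × ℝ, Adm S V n w →
      En S n w ≤ n * A → ∀ t₀ tn : ℝ, FF S V (w 0).1 t₀ = 0 → FF S V (w n).1 tn = 0 →
      |t₀ - (w 0).2| ≤ B → |tn - (w n).2| ≤ B → ∀ T : ℝ, 0 ≤ T →
      Real.cosh T = -q (zz S V (w 0).1 t₀) (zz S V (w n).1 tn) →
      T ≤ (1 + η) * (n * Real.sqrt (2 * A)) + C := by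
  obtain ⟨C, hC, h1⟩ := el1 hη hB
  refine ⟨C, hC, ?_⟩
  intro n hn A hA hA1 w hw hEn t₀ tn h0 hn0 hB0 hB1 T hT hTT
  exact h1 n hn A hA hA1 T hT
    (fun m hm => path_ext h hV hN hn hw hEn h0 hn0 hB0 hB1 hT hTT hm)

end A_md_len

alias md_len := A_md_len.md_len

end Helper935.AdS
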