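import Pool.Agent.Helper935_AdS.PtA

namespace Helper935.AdS

namespace A_md_zero

/- Proof:
Let m = max of f over 0..M, attained at j; suppose m > 0. Let j be the smallest index with f j = m; j ≠ 0, j ≠ M. f (j-1) + f(j+1) >= 2 m with both <= m, so f (j-1) = m, contradicting minimality of j.
-/
theorem md_zero {M : ℕ} {f : ℕ → ℝ} (h0 : f 0 = 0) (hM : f M = 0) (hnn : ∀ i ≤ M, 0 ≤ f i)
    (hc : ∀ i, i + 1 < M → 0 < f (i + 1) → 2 * f (i + 1) ≤ f i + f (i + 2)) : ∀ i ≤ M, f i = 0 := by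
  classical
  by_contra hcon
  push Not at hcon
  have hex : ∃ i, i ≤ M ∧ f i ≠ 0 := hcon
  have h1 := Nat.find_spec hex
  have h2 : ∀ k, k < Nat.find hex → ¬ (k ≤ M ∧ f k ≠ 0) := fun k hk => Nat.find_min hex hk
  generalize Nat.find hex = i at h1 h2
  obtain ⟨hiM, hine⟩ := h1
  have hipos : 0 < f i := lt_of_le_of_ne (hnn i hiM) (Ne.symm hine)
  have hi0 : i ≠ 0 := by
    intro h
    rw [h] at hine
    exact hine h0
  obtain ⟨j, rfl⟩ : ∃ j, i = j + 1 := ⟨i - 1, by omega⟩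
  have hj : f j = 0 := by
    by_contra hne
    exact h2 j (by omega) ⟨by omega, hne⟩
  have key : ∀ k, j + 1 + k ≤ M → f (j + k) ≤ f (j + 1 + k) ∧ f (j + 1) ≤ f (j + 1 + k) := by
    intro k
    induction k with
    | zero =>
      intro _
      simp only [add_zero]
      exact ⟨by rw [hj]; exact hipos.le, le_rfl⟩
    | succ k ih =>
      intro hk
      obtain ⟨a1, a2⟩ := ih (by omega)
      have e1 : j + 1 + k = j + k + 1 := by omega
      have e2 : j + 1 + (k + 1) = j + k + 2 := by omega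
      have e3 : j + (k + 1) = j + k + 1 := by omega
      rw [e1] at a1 a2
      rw [e2, e3]
      have a3 : 0 < f (j + k + 1) := lt_of_lt_of_le hipos a2
      have a4 := hc (j + k) (by omega) a3
      constructor <;> linarith
  obtain ⟨_, a⟩ := key (M - (j + 1)) (by omega)
  have e : j + 1 + (M - (j + 1)) = M := by omega
  rw [e, hM] at a
  linarith

end A_md_zero

alias md_zero := A_md_zero.md_zero

namespace A_q_triangle

theorem q_perp_nonneg {V y w : V4} (hV : q V V = -1) (hy : q y y = -1) (hyV : q y V = 0)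
    (hwy : q w y = 0) (hwV : q w V = 0) : 0 ≤ q w w := by
  simp only [q] at *
  set g := y 0 * V 3 - y 3 * V 0 with hg
  set a := V 0 * w 3 - V 3 * w 0 with ha
  set b := w 0 * y 3 - w 3 * y 0 with hb
  have hgpos : 1 ≤ g ^ 2 := by
    have h1 : g ^ 2 = (y 0 ^ 2 + y 3 ^ 2) * (V 0 ^ 2 + V 3 ^ 2) - (y 0 * V 0 + y 3 * V 3) ^ 2 := by
      rw [hg]; ring
    have h2 : y 0 ^ 2 + y 3 ^ 2 = 1 + (y 1 ^ 2 + y 2 ^ 2) := by linarith
    have h3 : V 0 ^ 2 + V 3 ^ 2 = 1 + (V 1 ^ 2 + V 2 ^ 2) := by linarith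
    have h4 : y 0 * V 0 + y 3 * V 3 = y 1 * V 1 + y 2 * V 2 := by linarith
    rw [h1, h2, h3, h4]
    nlinarith [sq_nonneg (y 1 * V 2 - y 2 * V 1), sq_nonneg (y 1), sq_nonneg (y 2),
      sq_nonneg (V 1), sq_nonneg (V 2)]
  have key : g ^ 2 * (-(w 0 * w 0) + w 1 * w 1 + w 2 * w 2 - w 3 * w 3) =
      a ^ 2 + b ^ 2 + (a * y 1 + b * V 1 + g * w 1) ^ 2 + (a * y 2 + b * V 2 + g * w 2) ^ 2 := by
    have e0 : a * y 0 + b * V 0 + g * w 0 = 0 := by rw [ha, hb, hg]; ring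
    have e3 : a * y 3 + b * V 3 + g * w 3 = 0 := by rw [ha, hb, hg]; ring
    have h1 : -((a * y 0 + b * V 0 + g * w 0) ^ 2) + (a * y 1 + b * V 1 + g * w 1) ^ 2
        + (a * y 2 + b * V 2 + g * w 2) ^ 2 - (a * y 3 + b * V 3 + g * w 3) ^ 2
        = a ^ 2 * (-(y 0 * y 0) + y 1 * y 1 + y 2 * y 2 - y 3 * y 3)
        + b ^ 2 * (-(V 0 * V 0) + V 1 * V 1 + V 2 * V 2 - V 3 * V 3)
        + g ^ 2 * (-(w 0 * w 0) + w 1 * w 1 + w 2 * w 2 - w 3 * w 3)
        + 2 * a * b * (-(y 0 * V 0) + y 1 * V 1 + y 2 * V 2 - y 3 * V 3)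
        + 2 * g * a * (-(w 0 * y 0) + w 1 * y 1 + w 2 * y 2 - w 3 * y 3)
        + 2 * g * b * (-(w 0 * V 0) + w 1 * V 1 + w 2 * V 2 - w 3 * V 3) := by ring
    rw [e0, e3, hy, hV, hyV, hwy, hwV] at h1
    linarith
  have h5 : 0 ≤ g ^ 2 * (-(w 0 * w 0) + w 1 * w 1 + w 2 * w 2 - w 3 * w 3) := by
    rw [key]; positivity
  by_contra hneg
  push Not at hneg
  nlinarith

theorem q_perp_cs {V y w z : V4} (hV : q V V = -1) (hy : q y y = -1) (hyV : q y V = 0)
    (hwy : q w y = 0) (hwV : q w V = 0) (hzy : q z y = 0) (hzV : q z V = 0) :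
    (q w z) ^ 2 ≤ q w w * q z z := by
  have h : ∀ t : ℝ, 0 ≤ q z z * (t * t) + (2 * q w z) * t + q w w := by
    intro t
    have h1 : q (w + t • z) y = 0 := by
      simp only [q, Pi.add_apply, Pi.smul_apply, smul_eq_mul] at *
      linear_combination hwy + t * hzy
    have h2 : q (w + t • z) V = 0 := by
      simp only [q, Pi.add_apply, Pi.smul_apply, smul_eq_mul] at *
      linear_combination hwV + t * hzV
    have h3 := q_perp_nonneg hV hy hyV h1 h2
    have h4 : q (w + t • z) (w + t • z) = q z z * (t * t) + (2 * q w z) * t + q w w := by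
      simp only [q, Pi.add_apply, Pi.smul_apply, smul_eq_mul]
      ring
    rwa [h4] at h3
  have h5 := discrim_le_zero h
  unfold discrim at h5
  nlinarith

/- Proof:
V^perp has signature (2,1). Put A = -q x y >= 1, B = -q y z >= 1, x' = x - A y, z' = z - B y: orthogonal to y and V. The orthogonal complement of {y, V} is positive definite (q y y = q V V = -1, q y V = 0, signature (2,2)), so q x' x' = A^2 - 1 >= 0, q z' z' = B^2 - 1, |q x' z'| <= sqrt(A^2-1) sqrt(B^2-1). -q x z = A B - q x' z' lies between A B - sqrt(..)sqrt(..) >= 1 and A B + sqrt(A^2-1)sqrt(B^2-1) <= cosh(r + s) (A <= cosh r, B <= cosh s, monotone).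
-/
theorem q_triangle {V x y z : V4} (hV : q V V = -1) (hx : q x x = -1) (hy : q y y = -1) (hz : q z z = -1)
    (hxV : q x V = 0) (hyV : q y V = 0) (hzV : q z V = 0) {r s : ℝ} (hr : 0 ≤ r) (hs : 0 ≤ s)
    (hxy : q x y ≤ -1) (hyz : q y z ≤ -1) (hxr : -q x y ≤ Real.cosh r) (hys : -q y z ≤ Real.cosh s) :
    q x z ≤ -1 ∧ -q x z ≤ Real.cosh (r + s) := by
  obtain ⟨A, hA⟩ : ∃ A, A = -q x y := ⟨_, rfl⟩
  obtain ⟨B, hB⟩ : ∃ B, B = -q y z := ⟨_, rfl⟩
  have hA1 : 1 ≤ A := by linarith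
  have hB1 : 1 ≤ B := by linarith
  have hAr : A ≤ Real.cosh r := by linarith
  have hBs : B ≤ Real.cosh s := by linarith
  have hqxy : q x y = -A := by linarith
  have hqyz : q y z = -B := by linarith
  obtain ⟨x', hx'⟩ : ∃ x', x' = x + (-A) • y := ⟨_, rfl⟩
  obtain ⟨z', hz'⟩ : ∃ z', z' = z + (-B) • y := ⟨_, rfl⟩
  have h1 : q x' y = 0 := by
    rw [hx']
    simp only [q, Pi.add_apply, Pi.smul_apply, smul_eq_mul] at *
    linear_combination hqxy + (-A) * hy
  have h2 : q x' V = 0 := by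
    rw [hx']
    simp only [q, Pi.add_apply, Pi.smul_apply, smul_eq_mul] at *
    linear_combination hxV + (-A) * hyV
  have h3 : q z' y = 0 := by
    rw [hz']
    simp only [q, Pi.add_apply, Pi.smul_apply, smul_eq_mul] at *
    linear_combination hqyz + (-B) * hy
  have h4 : q z' V = 0 := by
    rw [hz']
    simp only [q, Pi.add_apply, Pi.smul_apply, smul_eq_mul] at *
    linear_combination hzV + (-B) * hyV
  have h5 : q x' x' = A ^ 2 - 1 := by
    rw [hx']
    simp only [q, Pi.add_apply, Pi.smul_apply, smul_eq_mul] at *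
    linear_combination hx + (-2 * A) * hqxy + A ^ 2 * hy
  have h6 : q z' z' = B ^ 2 - 1 := by
    rw [hz']
    simp only [q, Pi.add_apply, Pi.smul_apply, smul_eq_mul] at *
    linear_combination hz + (-2 * B) * hqyz + B ^ 2 * hy
  have h7 : q x' z' = q x z + A * B := by
    rw [hx', hz']
    simp only [q, Pi.add_apply, Pi.smul_apply, smul_eq_mul] at *
    linear_combination (-B) * hqxy + (-A) * hqyz + A * B * hy
  have h8 := q_perp_cs hV hy hyV h1 h2 h3 h4
  rw [h5, h6, h7] at h8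
  obtain ⟨P, hP⟩ : ∃ P, P = q x z + A * B := ⟨_, rfl⟩
  rw [← hP] at h8
  have hxz : q x z = P - A * B := by linarith
  rw [hxz]
  have hAB : 1 ≤ A * B := by nlinarith
  constructor
  · have h9 : P ^ 2 ≤ (A * B - 1) ^ 2 := by nlinarith [sq_nonneg (A - B)]
    have h10 : P ≤ A * B - 1 := by
      exact (abs_le_of_sq_le_sq' h9 (by linarith)).2
    linarith
  · have hsr : 0 ≤ Real.sinh r := Real.sinh_nonneg_iff.2 hr
    have hss : 0 ≤ Real.sinh s := Real.sinh_nonneg_iff.2 hs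
    have h11 : A ^ 2 - 1 ≤ Real.sinh r ^ 2 := by
      have := Real.cosh_sq r
      nlinarith
    have h12 : B ^ 2 - 1 ≤ Real.sinh s ^ 2 := by
      have := Real.cosh_sq s
      nlinarith
    have h13 : P ^ 2 ≤ (Real.sinh r * Real.sinh s) ^ 2 := by
      rw [mul_pow]
      refine h8.trans (mul_le_mul h11 h12 ?_ (sq_nonneg _))
      nlinarith
    have h14 : -P ≤ Real.sinh r * Real.sinh s := by
      have := abs_le_of_sq_le_sq' h13 (mul_nonneg hsr hss)
      linarith [this.1]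
    rw [Real.cosh_add]
    have h15 : A * B ≤ Real.cosh r * Real.cosh s :=
      mul_le_mul hAr hBs (by linarith) (by linarith)
    linarith

end A_q_triangle

alias q_triangle := A_q_triangle.q_triangle

namespace A_jensen_cosh

/- Proof:
Convexity of cosh: sum cosh(d_i) >= M cosh((sum d_i)/M) (ConvexOn.map_sum_le or inner_le_nnorm_mul..; e.g. Real.convexOn_cosh? if missing: cosh is convex by its second derivative), and cosh is increasing on [0,inf) with (sum d_i)/M >= T/M >= 0.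
-/
theorem jensen_cosh {M : ℕ} (hM : 0 < M) {d : ℕ → ℝ} {T : ℝ} (hT : 0 ≤ T) (hd : ∀ i, 0 ≤ d i)
    (hs : T ≤ ∑ i ∈ Finset.range M, d i) :
    (M : ℝ) * (Real.cosh (T / M) - 1) ≤ ∑ i ∈ Finset.range M, (Real.cosh (d i) - 1) := by
  have hMr : (0 : ℝ) < M := by exact_mod_cast hM
  have hconv : ConvexOn ℝ Set.univ Real.cosh := by
    have h1 : ConvexOn ℝ Set.univ (fun x : ℝ => Real.exp x) := convexOn_exp
    have h2 : ConvexOn ℝ Set.univ (fun x : ℝ => Real.exp (-x)) := by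
      refine ⟨convex_univ, ?_⟩
      intro x _ y _ a b ha hb hab
      have h := convexOn_exp.2 (Set.mem_univ (-x)) (Set.mem_univ (-y)) ha hb hab
      have he : -(a • x + b • y) = a • (-x) + b • (-y) := by
        simp only [smul_eq_mul]; ring
      show Real.exp (-(a • x + b • y)) ≤ a • Real.exp (-x) + b • Real.exp (-y)
      rw [he]
      exact h
    have h3 := (h1.add h2).smul (c := (1 / 2 : ℝ)) (by norm_num)
    refine h3.congr ?_
    intro x _
    simp only [Pi.add_apply, Pi.smul_apply, smul_eq_mul]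
    rw [Real.cosh_eq]
    ring
  have hJ := hconv.map_sum_le (t := Finset.range M) (w := fun _ => (1 / (M : ℝ))) (p := d)
    (fun i _ => by positivity)
    (by
      rw [Finset.sum_const, Finset.card_range, nsmul_eq_mul]
      field_simp)
    (fun i _ => Set.mem_univ _)
  simp only [smul_eq_mul] at hJ
  rw [← Finset.mul_sum, ← Finset.mul_sum] at hJ
  have hle : T / M ≤ 1 / (M : ℝ) * ∑ i ∈ Finset.range M, d i := by
    rw [div_eq_mul_one_div, mul_comm]
    exact mul_le_mul_of_nonneg_left hs (by positivity)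
  have hT0 : 0 ≤ T / M := by positivity
  have hc : Real.cosh (T / M) ≤ Real.cosh (1 / (M : ℝ) * ∑ i ∈ Finset.range M, d i) := by
    rw [Real.cosh_le_cosh, abs_of_nonneg hT0, abs_of_nonneg (hT0.trans hle)]
    exact hle
  have hfin : (M : ℝ) * Real.cosh (T / M) ≤ ∑ i ∈ Finset.range M, Real.cosh (d i) := by
    have h4 := mul_le_mul_of_nonneg_left (hc.trans hJ) hMr.le
    have h5 : (M : ℝ) * (1 / (M : ℝ) * ∑ i ∈ Finset.range M, Real.cosh (d i))
        = ∑ i ∈ Finset.range M, Real.cosh (d i) := by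
      field_simp
    rw [h5] at h4
    exact h4
  rw [Finset.sum_sub_distrib, Finset.sum_const, Finset.card_range, nsmul_eq_mul]
  linarith

end A_jensen_cosh

alias jensen_cosh := A_jensen_cosh.jensen_cosh

namespace A_el1

theorem el1_sinh_le {y : ℝ} (hy : 0 ≤ y) : Real.sinh y ≤ y * Real.cosh y := by
  rcases hy.eq_or_lt with rfl | hy
  · simp
  obtain ⟨c, hc, hce⟩ := exists_deriv_eq_slope Real.sinh hy Real.continuous_sinh.continuousOn
    Real.differentiable_sinh.differentiableOn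
  rw [Real.deriv_sinh, Real.sinh_zero, sub_zero, sub_zero, eq_div_iff hy.ne'] at hce
  rw [← hce, mul_comm]
  have h1 : Real.cosh c ≤ Real.cosh y := by
    rw [Real.cosh_le_cosh, abs_of_pos hc.1, abs_of_pos hy]
    exact hc.2.le
  exact mul_le_mul_of_nonneg_left h1 hy.le

theorem el1_cosh_half (y : ℝ) : Real.cosh y - 1 = 2 * Real.sinh (y / 2) ^ 2 := by
  have h := Real.cosh_two_mul (y / 2)
  rw [show 2 * (y / 2) = y by ring, Real.cosh_sq] at h
  rw [h]; ring

theorem el1_lower {y : ℝ} (hy : 0 ≤ y) : y ^ 2 / 2 ≤ Real.cosh y - 1 := by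
  rw [el1_cosh_half]
  have h1 : y / 2 ≤ Real.sinh (y / 2) := Real.self_le_sinh_iff.mpr (by linarith)
  have h2 : 0 ≤ y / 2 := by linarith
  nlinarith [mul_le_mul h1 h1 h2 (h2.trans h1)]

theorem el1_upper {y : ℝ} (hy : 0 ≤ y) : Real.cosh y - 1 ≤ y ^ 2 / 2 * Real.cosh y := by
  have h1 : Real.sinh (y / 2) ≤ y / 2 * Real.cosh (y / 2) := el1_sinh_le (by linarith)
  have h0 : 0 ≤ Real.sinh (y / 2) := Real.sinh_nonneg_iff.mpr (by linarith)
  have h2 : Real.sinh (y / 2) ^ 2 ≤ (y / 2 * Real.cosh (y / 2)) ^ 2 := by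
    gcongr
  have h3 : Real.cosh (y / 2) ^ 2 = (Real.cosh y + 1) / 2 := by
    have h := Real.cosh_two_mul (y / 2)
    rw [show 2 * (y / 2) = y by ring, Real.cosh_sq] at h
    rw [h, Real.cosh_sq]; ring
  rw [el1_cosh_half]
  have h4 : (1 : ℝ) ≤ Real.cosh y := Real.one_le_cosh y
  have h5 : (y / 2 * Real.cosh (y / 2)) ^ 2 = y ^ 2 / 4 * ((Real.cosh y + 1) / 2) := by
    rw [mul_pow, h3]; ring
  rw [h5] at h2
  nlinarith [mul_nonneg (sq_nonneg y) (sub_nonneg.mpr h4)]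


/- Proof:
cosh y - 1 >= y^2/2 and cosh y - 1 <= (y^2/2) cosh y. Hence T^2 <= (n+2m)(2 n A + 4 m (cosh(B/m) - 1)) <= (n+2m)(2 n A + (2B^2/m) cosh B) for every integer m >= 1. Let e = min(eta,1)/4 > 0 and m = ceil(e n): e n <= m <= e n + 1, m >= 1. So n + 2m <= (1+2e) n + 2 and (n+2m)/m <= 1/e + 2. T^2 <= (1+2e) 2 A n^2 + 4 A n + 2B^2 cosh B (1/e + 2), and 4 A n <= 2 A (e n^2 + 1/e) with A <= 1: T^2 <= (1+3e) 2 A n^2 + C0, C0 = 2/e + 2B^2 cosh B (1/e+2). So T <= sqrt(1+3e) n sqrt(2A) + sqrt C0 and sqrt(1+3e) <= 1 + 3e/2 <= 1 + eta. C = sqrt C0.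
-/
theorem el1 {η B : ℝ} (hη : 0 < η) (hB : 0 ≤ B) : ∃ C : ℝ, 0 ≤ C ∧ ∀ n : ℕ, 0 < n → ∀ A : ℝ, 0 ≤ A → A ≤ 1 →
    ∀ T : ℝ, 0 ≤ T →
    (∀ m : ℕ, 0 < m → ((n : ℝ) + 2 * m) * (Real.cosh (T / (n + 2 * m)) - 1) ≤
      n * A + 2 * m * (Real.cosh (B / m) - 1)) →
    T ≤ (1 + η) * (n * Real.sqrt (2 * A)) + C := by
  obtain ⟨e, he, he1, heη⟩ : ∃ e : ℝ, 0 < e ∧ 4 * e ≤ 1 ∧ 4 * e ≤ η :=
    ⟨min η 1 / 4, by positivity, by linarith [min_le_right η 1], by linarith [min_le_left η 1]⟩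
  have hcB : 0 < Real.cosh B := Real.cosh_pos B
  set C0 : ℝ := 2 / e + 2 * B ^ 2 * Real.cosh B * (1 / e + 2) with hC0
  have hC0n : 0 ≤ C0 := by positivity
  refine ⟨Real.sqrt C0, Real.sqrt_nonneg _, ?_⟩
  intro n hn A hA hA1 T hT H
  have hnr : (1 : ℝ) ≤ n := by exact_mod_cast hn
  have hn0 : (0 : ℝ) < n := by linarith
  -- choice of m
  set m : ℕ := ⌈e * n⌉₊ with hm
  have hm0 : 0 < m := Nat.ceil_pos.mpr (by positivity)
  have hm1 : e * n ≤ m := Nat.le_ceil _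
  have hm2 : (m : ℝ) < e * n + 1 := Nat.ceil_lt_add_one (by positivity)
  have hmr : (1 : ℝ) ≤ m := by exact_mod_cast hm0
  have hmp : (0 : ℝ) < m := by linarith
  have h := H m hm0
  have hL : 0 < (n : ℝ) + 2 * m := by positivity
  have h1 : T ^ 2 / (2 * ((n : ℝ) + 2 * m)) ≤ ((n : ℝ) + 2 * m) * (Real.cosh (T / (n + 2 * m)) - 1) := by
    have := el1_lower (y := T / (n + 2 * m)) (by positivity)
    calc T ^ 2 / (2 * ((n : ℝ) + 2 * m)) = ((n : ℝ) + 2 * m) * ((T / (n + 2 * m)) ^ 2 / 2) := by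
          field_simp
      _ ≤ _ := by gcongr
  have h2 : 2 * (m : ℝ) * (Real.cosh (B / m) - 1) ≤ B ^ 2 * Real.cosh B / m := by
    have h3 := el1_upper (y := B / m) (by positivity)
    have h4 : Real.cosh (B / m) ≤ Real.cosh B := by
      rw [Real.cosh_le_cosh, abs_of_nonneg (by positivity), abs_of_nonneg hB]
      exact div_le_self hB hmr
    calc 2 * (m : ℝ) * (Real.cosh (B / m) - 1) ≤ 2 * (m : ℝ) * ((B / m) ^ 2 / 2 * Real.cosh (B / m)) := by
          gcongr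
      _ ≤ 2 * (m : ℝ) * ((B / m) ^ 2 / 2 * Real.cosh B) := by gcongr
      _ = B ^ 2 * Real.cosh B / m := by field_simp
  have h3 : T ^ 2 ≤ 2 * ((n : ℝ) + 2 * m) * (n * A + B ^ 2 * Real.cosh B / m) := by
    have h4 : T ^ 2 / (2 * ((n : ℝ) + 2 * m)) ≤ n * A + B ^ 2 * Real.cosh B / m := by linarith
    rw [div_le_iff₀ (by positivity)] at h4
    linarith
  have h4 : ((n : ℝ) + 2 * m) / m ≤ 1 / e + 2 := by
    rw [add_div, mul_div_assoc, div_self hmp.ne', mul_one]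
    have : (n : ℝ) / m ≤ 1 / e := by
      rw [div_le_div_iff₀ hmp he]; linarith
    linarith
  have h5 : (n : ℝ) + 2 * m ≤ (1 + 2 * e) * n + 2 := by linarith
  have h6 : T ^ 2 ≤ (1 + 3 * e) * (2 * A) * n ^ 2 + C0 := by
    have e1 : 2 * ((n : ℝ) + 2 * m) * (n * A + B ^ 2 * Real.cosh B / m)
        = 2 * (n * A) * ((n : ℝ) + 2 * m) + 2 * B ^ 2 * Real.cosh B * (((n : ℝ) + 2 * m) / m) := by
      field_simp
    have e2 : 2 * (n * A) * ((n : ℝ) + 2 * m) ≤ 2 * (n * A) * ((1 + 2 * e) * n + 2) := by gcongr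
    have e3 : 2 * B ^ 2 * Real.cosh B * (((n : ℝ) + 2 * m) / m) ≤ 2 * B ^ 2 * Real.cosh B * (1 / e + 2) := by
      gcongr
    have e4 : 4 * A * n ≤ 2 * A * (e * n ^ 2 + 1 / e) := by
      have : 2 * (n : ℝ) ≤ e * n ^ 2 + 1 / e := by
        have h9 : 0 ≤ (e * n - 1) ^ 2 / e := by positivity
        have h10 : (e * n - 1) ^ 2 / e = e * n ^ 2 - 2 * n + 1 / e := by field_simp; ring
        linarith
      nlinarith
    have e5 : 2 * A * (1 / e) ≤ 2 / e := by
      have : 0 < 1 / e := by positivity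
      have h9 : (2 : ℝ) / e = 2 * (1 / e) := by ring
      rw [h9]
      nlinarith
    rw [hC0]
    nlinarith
  have h7 : T ≤ Real.sqrt ((1 + 3 * e) * (2 * A) * n ^ 2 + C0) := Real.le_sqrt_of_sq_le h6
  have h8 : Real.sqrt ((1 + 3 * e) * (2 * A) * n ^ 2 + C0) ≤ Real.sqrt ((1 + 3 * e) * (2 * A) * n ^ 2) + Real.sqrt C0 := by
    rw [Real.sqrt_le_left (by positivity)]
    rw [add_sq, Real.sq_sqrt (by positivity), Real.sq_sqrt hC0n]
    have := mul_nonneg (Real.sqrt_nonneg ((1 + 3 * e) * (2 * A) * n ^ 2)) (Real.sqrt_nonneg C0)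
    nlinarith
  have h9 : Real.sqrt ((1 + 3 * e) * (2 * A) * n ^ 2) = Real.sqrt (1 + 3 * e) * (n * Real.sqrt (2 * A)) := by
    rw [Real.sqrt_mul (by positivity), Real.sqrt_mul (by positivity), Real.sqrt_sq hn0.le]
    ring
  have h10 : Real.sqrt (1 + 3 * e) ≤ 1 + η := by
    rw [Real.sqrt_le_left (by positivity)]
    nlinarith
  have h11 : Real.sqrt (1 + 3 * e) * (n * Real.sqrt (2 * A)) ≤ (1 + η) * (n * Real.sqrt (2 * A)) := by
    gcongr
  linarith

end A_el1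

alias el1 := A_el1.el1

end Helper935.AdS
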