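import Pool.Agent.Helper935_AdS.Defs2

namespace Helper935.AdS

/-- Convex slab with induced metrics `a^2 • h` (past boundary) and `b^2 • h` (future boundary). -/
structure KSlab {Γ : Type*} [Group Γ] (A : Γ →* (V3 ≃ₗ[ℝ] V3)) (a b : ℝ) where
  ρ : Γ →* (V4 ≃ₗ[ℝ] V4)
  iso : ∀ g, IsIso (ρ g)
  Xm : V3 → V4
  Nm : V3 → V4
  Xp : V3 → V4
  Np : V3 → V4
  surf_m : IsSurface a Xm Nm
  surf_p : IsSurface b Xp Np
  eq_m : Equivariant A ρ Xm Nm
  eq_p : Equivariant A ρ Xp Np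
  K : Set V4
  bd : Bounds K Xm Nm Xp Np

/-- `L` embeds `ℝ^{2,1}` isometrically in `ℝ^{2,2}` with orthogonal unit timelike vector `E`. -/
structure IsFrame (L : V3 →ₗ[ℝ] V4) (E : V4) : Prop where
  LL : ∀ x y, q (L x) (L y) = eta x y
  LE : ∀ x, q (L x) E = 0
  EE : q E E = -1

/-- `S` is the standard Fuchsian slab seen in the frame `(L, E)`: the boundary surfaces are at
constant distance from the totally geodesic plane `L(H2)`, and the holonomy preserves it. -/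
structure StdIn {Γ : Type*} [Group Γ] {A : Γ →* (V3 ≃ₗ[ℝ] V3)} {a b : ℝ} (S : KSlab A a b)
    (L : V3 →ₗ[ℝ] V4) (E : V4) : Prop where
  frame : IsFrame L E
  m : ∀ x ∈ H2, S.Xm x = a • L x - Real.sqrt (1 - a ^ 2) • E
  p : ∀ x ∈ H2, S.Xp x = b • L x + Real.sqrt (1 - b ^ 2) • E
  rhoE : ∀ g, S.ρ g E = E
  rhoL : ∀ g x, S.ρ g (L x) = L (A g x)

/-- `Φ` is a linear isometry of `ℝ^{2,2}` carrying the slab `S` to the slab `S'`, boundary
parametrisations and holonomy included. -/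
structure Carries {Γ : Type*} [Group Γ] {A : Γ →* (V3 ≃ₗ[ℝ] V3)} {a b : ℝ} (S S' : KSlab A a b)
    (Φ : V4 ≃ₗ[ℝ] V4) : Prop where
  iso : IsIso Φ
  m : ∀ x ∈ H2, S'.Xm x = Φ (S.Xm x)
  p : ∀ x ∈ H2, S'.Xp x = Φ (S.Xp x)
  rho : ∀ g Y, S'.ρ g (Φ Y) = Φ (S.ρ g Y)

end Helper935.AdS
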