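import Pool.Agent.Helper935_AdS.Rig
import Pool.Agent.Helper935_AdS.Calc
import Pool.Agent.Helper935_AdS.Std

namespace Helper935.AdS

lemma q_add_left' (X Y Z : V4) : q (X + Y) Z = q X Z + q Y Z := by
  simp only [q, Pi.add_apply]; ring

lemma q_add_right' (X Y Z : V4) : q X (Y + Z) = q X Y + q X Z := by
  simp only [q, Pi.add_apply]; ring

lemma q_smul_left' (c : ℝ) (X Y : V4) : q (c • X) Y = c * q X Y := by
  simp only [q, Pi.smul_apply, smul_eq_mul]; ring

lemma q_smul_right' (c : ℝ) (X Y : V4) : q X (c • Y) = c * q X Y := by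
  simp only [q, Pi.smul_apply, smul_eq_mul]; ring

lemma q_comm' (X Y : V4) : q X Y = q Y X := by
  simp only [q]; ring

/-- the setup attached to a slab -/
noncomputable def toSetup {Γ : Type*} [Group Γ] (A : Γ →* (V3 ≃ₗ[ℝ] V3)) (hA : IsCocompact A)
    {a b : ℝ} (ha : 0 < a) (ha1 : a < 1) (hb : 0 < b) (hb1 : b < 1) (S : Slab A a b) : Setup where
  a := a
  b := b
  Xm := S.Xm
  Nm := S.Nm
  Xp := S.Xp
  Np := S.Np
  dXm := fun x v => fderiv ℝ S.Xm x v
  dNm := fun x v => fderiv ℝ S.Nm x v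
  dXp := fun x v => fderiv ℝ S.Xp x v
  dNp := fun x v => fderiv ℝ S.Np x v
  G := {p | ∃ g : Γ, p = (A g, S.ρ g)}
  F := Classical.choose hA.cocompact
  cm := core_of_surface S.surf_m ha ha1
  cp := core_of_surface S.surf_p hb hb1
  mm := fun x hx y hy => S.supp_m x hx _ (S.mem_m y hy)
  mp := fun x hx y hy => S.supp_m x hx _ (S.mem_p y hy)
  pm := fun x hx y hy => S.supp_p x hx _ (S.mem_m y hy)
  pp := fun x hx y hy => S.supp_p x hx _ (S.mem_p y hy)
  lt1 := by
    intro x hx y hy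
    have h := S.K_neg _ (S.K_add _ (S.mem_m x hx) _ (S.mem_p y hy))
    have h1 := S.surf_m.XX x hx
    have h2 := S.surf_p.XX y hy
    rw [q_add_left', q_add_right', q_add_right', h1, h2, q_comm' (S.Xp y) (S.Xm x)] at h
    linarith
  ne := by
    intro x hx y hy h h'
    have h1 := S.future_m y hy
    have h2 := S.past_p x hx
    rw [h, h'] at h2
    linarith
  G_inv := by
    rintro p ⟨g, rfl⟩
    exact ⟨g⁻¹, by rw [map_inv, map_inv]; rfl⟩
  G_eta := by
    rintro p ⟨g, rfl⟩ x y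
    exact hA.iso g x y
  G_H2 := by
    rintro p ⟨g, rfl⟩ x hx
    exact ⟨by rw [← hx.1]; exact hA.iso g x x, hA.pos g x hx⟩
  G_q := by
    rintro p ⟨g, rfl⟩ X Y
    exact S.ρ_iso g X Y
  G_Xm := by
    rintro p ⟨g, rfl⟩ x hx
    exact S.equiv_Xm g x hx
  G_Nm := by
    rintro p ⟨g, rfl⟩ x hx
    exact S.equiv_Nm g x hx
  G_Xp := by
    rintro p ⟨g, rfl⟩ x hx
    exact S.equiv_Xp g x hx
  G_Np := by
    rintro p ⟨g, rfl⟩ x hx
    exact S.equiv_Np g x hx
  F_sub := (Classical.choose_spec hA.cocompact).1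
  F_cpt := (Classical.choose_spec hA.cocompact).2.1
  F_cov := by
    intro x hx
    obtain ⟨g, hg⟩ := (Classical.choose_spec hA.cocompact).2.2 x hx
    exact ⟨(A g, S.ρ g), ⟨g, rfl⟩, hg⟩

/-- the slab structure used in the proofs -/
def KSlab.toSlab {Γ : Type*} [Group Γ] {A : Γ →* (V3 ≃ₗ[ℝ] V3)} {a b : ℝ} (S : KSlab A a b) :
    Slab A a b where
  ρ := S.ρ
  ρ_iso := fun g => S.iso g
  Xm := S.Xm
  Nm := S.Nm
  Xp := S.Xp
  Np := S.Np
  surf_m := S.surf_m
  surf_p := S.surf_p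
  equiv_Xm := S.eq_m.eX
  equiv_Nm := S.eq_m.eN
  equiv_Xp := S.eq_p.eX
  equiv_Np := S.eq_p.eN
  K := S.K
  K_add := S.bd.add
  K_smul := S.bd.smul
  K_neg := S.bd.neg
  mem_m := S.bd.mem_m
  mem_p := S.bd.mem_p
  supp_m := S.bd.supp_m
  supp_p := S.bd.supp_p
  future_m := S.bd.future_m
  past_p := S.bd.past_p

/-- back -/
def Slab.toKSlab {Γ : Type*} [Group Γ] {A : Γ →* (V3 ≃ₗ[ℝ] V3)} {a b : ℝ} (S : Slab A a b) :
    KSlab A a b where
  ρ := S.ρ
  iso := fun g => S.ρ_iso g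
  Xm := S.Xm
  Nm := S.Nm
  Xp := S.Xp
  Np := S.Np
  surf_m := S.surf_m
  surf_p := S.surf_p
  eq_m := ⟨S.equiv_Xm, S.equiv_Nm⟩
  eq_p := ⟨S.equiv_Xp, S.equiv_Np⟩
  K := S.K
  bd := ⟨S.K_add, S.K_smul, S.K_neg, S.mem_m, S.mem_p, S.supp_m, S.supp_p, S.future_m, S.past_p⟩

/-- linear isometric embeddings `V3 ⊕ ℝ → V4` as linear equivalences -/
theorem frame_equiv (L : V3 →ₗ[ℝ] V4) (E : V4) (hL : ∀ x y, q (L x) (L y) = eta x y)
    (hLE : ∀ x, q (L x) E = 0) (hE : q E E = -1) :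
    ∃ J : (V3 × ℝ) ≃ₗ[ℝ] V4, ∀ x t, J (x, t) = L x + t • E := by
  let f : (V3 × ℝ) →ₗ[ℝ] V4 := LinearMap.coprod L (LinearMap.toSpanSingleton ℝ V4 E)
  have hf : ∀ x t, f (x, t) = L x + t • E := by
    intro x t; simp [f]
  have hinj : Function.Injective f := by
    rw [← LinearMap.ker_eq_bot, LinearMap.ker_eq_bot']
    rintro ⟨x, t⟩ h
    rw [hf] at h
    have ht : t = 0 := by
      have h1 : q (L x + t • E) E = 0 := by rw [h]; simp [q]
      rw [q_add_left', q_smul_left', hLE, hE] at h1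
      linarith
    have hx : ∀ y, eta x y = 0 := by
      intro y
      have h1 : q (L x + t • E) (L y) = 0 := by rw [h]; simp [q]
      rw [q_add_left', q_smul_left', hL, ht] at h1
      linarith
    have hx0 : x = 0 := by
      have e0 := hx ![1, 0, 0]
      have e1 := hx ![0, 1, 0]
      have e2 := hx ![0, 0, 1]
      simp [eta] at e0 e1 e2
      ext i
      fin_cases i
      · simpa using e0
      · simpa using e1
      · simpa using e2
    rw [hx0, ht]; rfl
  have hdim : Module.finrank ℝ (V3 × ℝ) = Module.finrank ℝ V4 := by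
    simp
  exact ⟨LinearMap.linearEquivOfInjective f hinj hdim, fun x t => by
    rw [LinearMap.linearEquivOfInjective_apply]; exact hf x t⟩

end Helper935.AdS
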