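import Pool.Agent.Helper935_AdS.Defs2

namespace Helper935.AdS

lemma fr_add_left (X Y Z : V4) : q (X + Y) Z = q X Z + q Y Z := by
  simp only [q, Pi.add_apply]; ring

lemma fr_add_right (X Y Z : V4) : q X (Y + Z) = q X Y + q X Z := by
  simp only [q, Pi.add_apply]; ring

lemma fr_smul_left (c : ℝ) (X Y : V4) : q (c • X) Y = c * q X Y := by
  simp only [q, Pi.smul_apply, smul_eq_mul]; ring

lemma fr_smul_right (c : ℝ) (X Y : V4) : q X (c • Y) = c * q X Y := by
  simp only [q, Pi.smul_apply, smul_eq_mul]; ring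

lemma fr_comm (X Y : V4) : q X Y = q Y X := by
  simp only [q]; ring

/-- a frame `(L, E)` gives a linear equivalence `V3 × ℝ → V4` -/
theorem fr_equiv (L : V3 →ₗ[ℝ] V4) (E : V4) (hL : ∀ x y, q (L x) (L y) = eta x y)
    (hLE : ∀ x, q (L x) E = 0) (hE : q E E = -1) :
    ∃ J : (V3 × ℝ) ≃ₗ[ℝ] V4, (∀ x t, J (x, t) = L x + t • E) ∧
      ∀ x t y s, q (J (x, t)) (J (y, s)) = eta x y - t * s := by
  let f : (V3 × ℝ) →ₗ[ℝ] V4 := LinearMap.coprod L (LinearMap.toSpanSingleton ℝ V4 E)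
  have hf : ∀ x t, f (x, t) = L x + t • E := by
    intro x t; simp [f]
  have hinj : Function.Injective f := by
    rw [← LinearMap.ker_eq_bot, LinearMap.ker_eq_bot']
    rintro ⟨x, t⟩ h
    rw [hf] at h
    have ht : t = 0 := by
      have h1 : q (L x + t • E) E = 0 := by rw [h]; simp [q]
      rw [fr_add_left, fr_smul_left, hLE, hE] at h1
      linarith
    have hx : ∀ y, eta x y = 0 := by
      intro y
      have h1 : q (L x + t • E) (L y) = 0 := by rw [h]; simp [q]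
      rw [fr_add_left, fr_smul_left, hL, ht] at h1
      linarith
    have hx0 : x = 0 := by
      have e0 := hx ![1, 0, 0]
      have e1 := hx ![0, 1, 0]
      have e2 := hx ![0, 0, 1]
      simp [eta] at e0 e1 e2
      ext i
      fin_cases i
      · simpa using e0
      · simpa using e1
      · simpa using e2
    rw [hx0, ht]; rfl
  have hdim : Module.finrank ℝ (V3 × ℝ) = Module.finrank ℝ V4 := by
    simp
  refine ⟨LinearMap.linearEquivOfInjective f hinj hdim, fun x t => ?_, fun x t y s => ?_⟩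
  · rw [LinearMap.linearEquivOfInjective_apply]; exact hf x t
  · rw [LinearMap.linearEquivOfInjective_apply, LinearMap.linearEquivOfInjective_apply, hf, hf,
      fr_add_left, fr_add_right, fr_add_right, fr_smul_left, fr_smul_left, fr_smul_right,
      fr_smul_right, hL, hLE, hE, fr_comm E (L y), hLE]
    ring

/-- the standard embedding of `V3` -/
def emb0 : V3 →ₗ[ℝ] V4 where
  toFun x := emb x 0
  map_add' x y := by
    ext i; fin_cases i <;> simp [emb]
  map_smul' c x := by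
    ext i; fin_cases i <;> simp [emb]

lemma emb0_apply (x : V3) : emb0 x = emb x 0 := rfl

lemma emb_eq (x : V3) (t : ℝ) : emb x t = emb0 x + t • EE := by
  rw [emb0_apply]
  ext i; fin_cases i <;> simp [emb, EE]

lemma q_emb0 (x y : V3) : q (emb0 x) (emb0 y) = eta x y := by
  rw [emb0_apply, emb0_apply]; simp [q, emb, eta]

lemma q_emb0_EE (x : V3) : q (emb0 x) EE = 0 := by
  rw [emb0_apply]; simp [q, emb, EE]

lemma q_EE : q EE EE = -1 := by
  simp [q, EE]

/-- from the normal form of a slab to the congruence with the Fuchsian slab -/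
theorem carries_of {Γ : Type*} [Group Γ] {A : Γ →* (V3 ≃ₗ[ℝ] V3)} (S₀ S : CSlab A)
    (h₀ : IsFuchsian S₀) {L : V3 →ₗ[ℝ] V4} {E : V4} (hL : ∀ x y, q (L x) (L y) = eta x y)
    (hLE : ∀ x, q (L x) E = 0) (hE : q E E = -1) {cm sm cp sp : V3 → ℝ}
    (h0m : ∀ x ∈ H2, S₀.Xm x = emb (cm x • x) (-(sm x)))
    (h0p : ∀ x ∈ H2, S₀.Xp x = emb (cp x • x) (sp x))
    (hm : ∀ x ∈ H2, S.Xm x = cm x • L x - sm x • E)
    (hp : ∀ x ∈ H2, S.Xp x = cp x • L x + sp x • E)
    (hg : ∀ g, S.ρ g E = E ∧ ∀ x, S.ρ g (L x) = L (A g x)) :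
    ∃ Φ, Carries2 S₀ S Φ := by
  obtain ⟨J, hJ, hJq⟩ := fr_equiv L E hL hLE hE
  obtain ⟨J₀, hJ₀, hJ₀q⟩ := fr_equiv emb0 EE q_emb0 q_emb0_EE q_EE
  have hJe : ∀ x t, J₀ (x, t) = emb x t := fun x t => by rw [hJ₀, emb_eq]
  have hΦ : ∀ x t, (J₀.symm.trans J) (emb x t) = L x + t • E := by
    intro x t
    rw [LinearEquiv.trans_apply, ← hJe, LinearEquiv.symm_apply_apply, hJ]
  refine ⟨J₀.symm.trans J, ?_, ?_, ?_, ?_⟩
  · intro X Y
    obtain ⟨⟨x, t⟩, rfl⟩ := J₀.surjective X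
    obtain ⟨⟨y, s⟩, rfl⟩ := J₀.surjective Y
    rw [LinearEquiv.trans_apply, LinearEquiv.trans_apply, LinearEquiv.symm_apply_apply,
      LinearEquiv.symm_apply_apply, hJq, hJ₀q]
  · intro x hx
    rw [h0m x hx, hΦ, hm x hx, map_smul, neg_smul, sub_eq_add_neg]
  · intro x hx
    rw [h0p x hx, hΦ, hp x hx, map_smul]
  · intro g Y
    obtain ⟨⟨y, s⟩, rfl⟩ := J₀.surjective Y
    rw [hJe, h₀.rho, hΦ, hΦ, map_add, map_smul, (hg g).1, (hg g).2]

end Helper935.AdS
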