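import Pool.Agent.Helper935_AdS.Calc2

namespace Helper935.AdS

namespace A_lt_one

/- Proof:
K is closed under sums: Y + Z in K, so q (Y+Z)(Y+Z) < 0, i.e. -2 + 2 q Y Z < 0.
-/
theorem lt_one {K : Set V4} {Xm Nm Xp Np : V3 → V4} (hb : Bounds K Xm Nm Xp Np) {Y Z : V4} (hY : Y ∈ K) (hZ : Z ∈ K)
    (hYY : q Y Y = -1) (hZZ : q Z Z = -1) : q Y Z < 1 := by
  have h := hb.neg _ (hb.add Y hY Z hZ)
  have e : q (Y + Z) (Y + Z) = q Y Y + q Z Z + 2 * q Y Z := by
    simp only [q, Pi.add_apply]; ring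
  rw [e, hYY, hZZ] at h
  linarith

end A_lt_one

alias lt_one := A_lt_one.lt_one

namespace A_vert_sign

/- Proof:
X x = emb (c x) t, c > 0, c^2 + t^2 = 1 (q (X x)(X x) = -1). Let N = N x, X = X x, E' = EE - t X (q X EE = -t, so q X E' = -t + t = 0), q E' E' = -1 + 2 t^2 - t^2 = -(1 - t^2) = -c^2 < 0, omega X E' = omega X EE = X 0 = c x 0 > 0. q N E' = q N EE (q N X = 0). If 0 < omega X N and q N EE >= 0, to_lemma with A = X, U = N, V = -E' (q N (-E') <= 0) gives 0 < omega X N * omega X (-E') < 0, contradiction. If omega X N < 0 and q N EE <= 0, to_lemma with V = E' gives 0 < omega X N * omega X E' < 0, contradiction.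
-/
theorem vert_sign {X N : V3 → V4} (h : IsConvexSurface X N) (hv : Vertical X) {x : V3} (hx : x ∈ H2) :
    (0 < omega (X x) (N x) → q (N x) EE < 0) ∧ (omega (X x) (N x) < 0 → 0 < q (N x) EE) := by
  have hX : q (X x) (X x) = -1 := h.XX x hx
  have hN : q (N x) (N x) = -1 := h.NN x hx
  have hNX : q (N x) (X x) = 0 := h.NX x hx
  have hx1 : eta x x = -1 := hx.1
  have hx0 : 0 < x 0 := hx.2
  obtain ⟨c, t, hc, hXe⟩ := hv x hx
  have e0 : X x 0 = c * x 0 := by rw [hXe]; simp [emb]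
  have e1 : X x 1 = c * x 1 := by rw [hXe]; simp [emb]
  have e2 : X x 2 = c * x 2 := by rw [hXe]; simp [emb]
  have e3 : X x 3 = t := by rw [hXe]; simp [emb]
  have hct : c ^ 2 + t ^ 2 = 1 := by
    unfold q at hX
    unfold eta at hx1
    rw [e0, e1, e2, e3] at hX
    nlinarith
  have hE0 : EE 0 = 0 := rfl
  have hE1 : EE 1 = 0 := rfl
  have hE2 : EE 2 = 0 := rfl
  have hE3 : EE 3 = 1 := rfl
  have hNE : q (N x) EE = -(N x 3) := by
    unfold q; rw [hE0, hE1, hE2, hE3]; ring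
  have hsym : q (X x) (N x) = 0 := by
    rw [← hNX]; unfold q; ring
  have hcx : 0 < c * x 0 := mul_pos hc hx0
  -- the vector `EE - t X`
  have key1 : q (X x) (EE - t • X x) = 0 := by
    have : q (X x) (EE - t • X x) = -(X x 3) - t * q (X x) (X x) := by
      unfold q
      simp only [Pi.sub_apply, Pi.smul_apply, smul_eq_mul, hE0, hE1, hE2, hE3]
      ring
    rw [this, hX, e3]; ring
  have key2 : q (EE - t • X x) (EE - t • X x) = -c ^ 2 := by
    have : q (EE - t • X x) (EE - t • X x) = -1 + 2 * t * X x 3 + t ^ 2 * q (X x) (X x) := by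
      unfold q
      simp only [Pi.sub_apply, Pi.smul_apply, smul_eq_mul, hE0, hE1, hE2, hE3]
      ring
    rw [this, hX, e3]; linarith
  have key3 : q (N x) (EE - t • X x) = q (N x) EE := by
    have : q (N x) (EE - t • X x) = q (N x) EE - t * q (N x) (X x) := by
      unfold q
      simp only [Pi.sub_apply, Pi.smul_apply, smul_eq_mul]
      ring
    rw [this, hNX]; ring
  have key4 : omega (X x) (EE - t • X x) = c * x 0 := by
    unfold omega
    simp only [Pi.sub_apply, Pi.smul_apply, smul_eq_mul, hE0, hE3, e0, e3]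
    ring
  have hc2 : -c ^ 2 < 0 := by
    have : 0 < c ^ 2 := by positivity
    linarith
  have hneg : ∀ A : V4, omega (X x) (-A) = -omega (X x) A := by
    intro A; unfold omega; simp only [Pi.neg_apply]; ring
  have hqneg : ∀ A B : V4, q A (-B) = -q A B := by
    intro A B; unfold q; simp only [Pi.neg_apply]; ring
  have hqnn : ∀ B : V4, q (-B) (-B) = q B B := by
    intro B; unfold q; simp only [Pi.neg_apply]; ring
  constructor
  · intro ho
    by_contra hcon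
    push Not at hcon
    have h1 := to_lemma (A := X x) (U := N x) (V := -(EE - t • X x)) (by rw [hX]; norm_num) hsym
      (by rw [hqneg, key1, neg_zero]) (by rw [hN]; norm_num) (by rw [hqnn, key2]; exact hc2)
      (by rw [hqneg, key3]; linarith)
    rw [hneg, key4] at h1
    nlinarith [mul_pos ho hcx]
  · intro ho
    by_contra hcon
    push Not at hcon
    have h1 := to_lemma (A := X x) (U := N x) (V := EE - t • X x) (by rw [hX]; norm_num) hsym
      key1 (by rw [hN]; norm_num) (by rw [key2]; exact hc2) (by rw [key3]; exact hcon)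
    rw [key4] at h1
    nlinarith [mul_pos (neg_pos.2 ho) hcx]

end A_vert_sign

alias vert_sign := A_vert_sign.vert_sign

namespace A_vert_height

/- Proof:
Let f(x) = q (X x) EE (= - the last coordinate of X x), continuous on H2 and invariant: f (A g x) = f x, because rho g fixes the last coordinate (hrho: rho g (emb y t) = emb (A g y) t; X x = emb (c x) t). So f attains its minimum and maximum over H2 on the compact F (F_cov from IsCocompact).
If q (N x) EE < 0 for all x: at a minimum x1 of f, -EE maximises.. apply extX2 with Z = -EE: -(g f + II q (N x1) EE) <= 0 for unit v (exists_UT), g = q(DX v)(DX v) > 0, II > 0: g f(x1) >= -II q (N x1) EE > 0, so f(x1) > 0 and f > 0 on H2.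
If q (N x) EE > 0 for all x: at a maximum x2 of f, extX2 with Z = EE: g f + II q (N x2) EE <= 0, so f(x2) < 0 and f < 0 on H2.
-/
theorem vert_height {Γ : Type*} [Group Γ] {A : Γ →* (V3 ≃ₗ[ℝ] V3)} (hA : IsCocompact A)
    {ρ : Γ →* (V4 ≃ₗ[ℝ] V4)} (hrho : ∀ g x t, ρ g (emb x t) = emb (A g x) t) {X N : V3 → V4}
    (h : IsConvexSurface X N) (hv : Vertical X) (he : Equivariant A ρ X N) :
    ((∀ x ∈ H2, q (N x) EE < 0) → ∀ x ∈ H2, 0 < q (X x) EE) ∧
    ((∀ x ∈ H2, 0 < q (N x) EE) → ∀ x ∈ H2, q (X x) EE < 0) := by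
  classical
  have hcont : ContinuousOn X H2 := (core2_of h).contX
  obtain ⟨F, hFs, hFc, hFcov⟩ := hA.cocompact
  have hqE : ∀ Y : V4, q Y EE = -(Y 3) := by
    intro Y
    simp [q, EE]
  have hfcont : ContinuousOn (fun x => q (X x) EE) H2 := by
    have h3 : ContinuousOn (fun x => -(X x 3)) H2 := by
      have := (continuous_apply (3 : Fin 4)).comp_continuousOn hcont
      exact this.neg
    refine h3.congr ?_
    intro x _
    exact hqE (X x)
  have hinv : ∀ g, ∀ x ∈ H2, q (X (A g x)) EE = q (X x) EE := by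
    intro g x hx
    obtain ⟨c, t, hc, hX⟩ := hv x hx
    rw [he.eX g x hx, hX, hrho, hqE, hqE]
    simp [emb]
  have hne : (F.Nonempty) → True := fun _ => trivial
  constructor
  · intro hN x hx
    -- F is nonempty
    obtain ⟨g, hg⟩ := hFcov x hx
    obtain ⟨x1, hx1F, hx1⟩ := hFc.exists_isMinOn ⟨_, hg⟩ (hfcont.mono hFs)
    have hmin : ∀ y ∈ H2, q (X x1) EE ≤ q (X y) EE := by
      intro y hy
      obtain ⟨g', hg'⟩ := hFcov y hy
      have := hx1 hg'
      simp only [Set.mem_setOf_eq] at this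
      rw [hinv g' y hy] at this
      exact this
    have hx1H := hFs hx1F
    obtain ⟨v, hv1⟩ := exists_UT hx1H
    have hnegE : ∀ Y : V4, q Y (-EE) = -(q Y EE) := by
      intro Y
      simp [q, EE]
    have hmax : ∀ y ∈ H2, q ((⟨X, N, fun x v => fderiv ℝ X x v, fun x v => fderiv ℝ N x v,
      fun x v => fderiv ℝ (fderiv ℝ X) x v v + X x⟩ : Sf).X y) (-EE) ≤
      q ((⟨X, N, fun x v => fderiv ℝ X x v, fun x v => fderiv ℝ N x v,
      fun x v => fderiv ℝ (fderiv ℝ X) x v v + X x⟩ : Sf).X x1) (-EE) := by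
      intro y hy
      rw [hnegE, hnegE]
      have := hmin y hy
      simpa using this
    have key := (extX2 (core2_of h) hx1H hmax).2 v hv1
    rw [hnegE, hnegE] at key
    simp only at key
    have hv0 : v ≠ 0 := by
      rintro rfl
      have := hv1.2
      simp [eta] at this
    have hg0 := h.spacelike x1 hx1H v hv1.1 hv0
    have hII := h.strict x1 hx1H v hv1.1 hv0
    have hN1 := hN x1 hx1H
    have hpos : 0 < q (X x1) EE := by
      by_contra hcon
      push Not at hcon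
      nlinarith [mul_nonneg hg0.le (sub_nonneg.2 hcon), mul_pos hII (neg_pos.2 hN1)]
    exact lt_of_lt_of_le hpos (hmin x hx)
  · intro hN x hx
    obtain ⟨g, hg⟩ := hFcov x hx
    obtain ⟨x1, hx1F, hx1⟩ := hFc.exists_isMaxOn ⟨_, hg⟩ (hfcont.mono hFs)
    have hmax' : ∀ y ∈ H2, q (X y) EE ≤ q (X x1) EE := by
      intro y hy
      obtain ⟨g', hg'⟩ := hFcov y hy
      have := hx1 hg'
      simp only [Set.mem_setOf_eq] at this
      rw [hinv g' y hy] at this
      exact this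
    have hx1H := hFs hx1F
    obtain ⟨v, hv1⟩ := exists_UT hx1H
    have key := (extX2 (core2_of h) hx1H hmax').2 v hv1
    simp only at key
    have hv0 : v ≠ 0 := by
      rintro rfl
      have := hv1.2
      simp [eta] at this
    have hg0 := h.spacelike x1 hx1H v hv1.1 hv0
    have hII := h.strict x1 hx1H v hv1.1 hv0
    have hN1 := hN x1 hx1H
    have hneg : q (X x1) EE < 0 := by
      by_contra hcon
      push Not at hcon
      nlinarith [mul_nonneg hg0.le hcon, mul_pos hII hN1]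
    exact lt_of_le_of_lt (hmax' x hx) hneg

end A_vert_height

alias vert_height := A_vert_height.vert_height

namespace A_good_of

/- Proof:
core: core2_of. c from low_exists (c^2 := the constant, take the given c). supp, chord: chord1.
-/
theorem good_of {X N : V3 → V4} (h : IsConvexSurface X N) {c : ℝ} (hc : 0 < c)
    (hlow : ∀ x ∈ H2, ∀ v, UT x v → c ^ 2 ≤ q (fderiv ℝ X x v) (fderiv ℝ X x v))
    (hs : ∀ x ∈ H2, ∀ y ∈ H2, q (N x) (X y) ≤ 0) (hlt : ∀ x ∈ H2, ∀ y ∈ H2, q (X x) (X y) < 1)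
    (ho : (∀ x ∈ H2, 0 < omega (X x) (N x)) ∨ (∀ x ∈ H2, omega (X x) (N x) < 0))
    (hi : Set.InjOn X H2) :
    Good ⟨X, N, fun x v => fderiv ℝ X x v, fun x v => fderiv ℝ N x v,
      fun x v => fderiv ℝ (fderiv ℝ X) x v v + X x⟩ c where
  core := core2_of h
  c_pos := hc
  low := hlow
  supp := hs
  chord := fun _ hx _ hy => chord1 (core2_of h) hs hlt ho hx hy
  inj := hi

end A_good_of

alias good_of := A_good_of.good_of

namespace A_setup_of

/- Proof:
m = <S.Xm, S.Nm, fderiv..>, p = <S.Xp, ..>, m0, p0 from S0. c := sqrt(min of the two constants of low_exists for S.Xm and S.Xp); the metrics of S0 agree with those of S (SameMetric) so the same c works for m0, p0. good_of for the four surfaces: supports from Bounds.supp_m, supp_p and mem_m, mem_p; q (X x)(X y) < 1 from lt_one; orientation from future_m, past_p; inj fields. iso_of for the two pairs (SameMetric S.Xm S0.Xm gives Iso m m0).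
Heights: S0.Xm x = emb (c x) t (Vertical): define sm x := q (S0.Xm x) EE (= -t) and cm x := sqrt(1 - (sm x)^2) (or use choice); vert_sign (future_m) gives q (S0.Nm x) EE < 0 on H2, vert_height gives sm > 0; cm > 0 because c^2 + t^2 = 1, c > 0, so cm x = c. Similarly sp x := -q (S0.Xp x) EE > 0 and cp. X0m: S0.Xm x = emb (cm x * x) (-(sm x)).
mp, pm from Bounds; lt1 from lt_one; ne: omega (Xm y)(Nm y) > 0 > omega (Xp x)(Np x). G = {(A g, S.rho g)}: G_inv (A g)^-1 = A g^-1; G_eta, G_H2 from IsCocompact; G_q from S.iso; G_Xm .. from eq_m, eq_p; G_sm etc.: S0.Xm (A g x) = S0.rho g (S0.Xm x) = emb (A g (c x)) t has the same last coordinate. F from IsCocompact.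
The theorem asks for a Setup2 with these data.
-/
theorem setup_of_qE (y : V3) (t : ℝ) : q (emb y t) EE = -t := by
  simp [q, emb, EE]

theorem setup_of_qq (x : V3) (c t : ℝ) : q (emb (c • x) t) (emb (c • x) t) =
    c ^ 2 * eta x x - t ^ 2 := by
  simp [q, emb, eta]
  ring

theorem setup_of_vert {X N : V3 → V4} (h : IsConvexSurface X N) (hv : Vertical X) {x : V3}
    (hx : x ∈ H2) : 0 < Real.sqrt (1 - (q (X x) EE) ^ 2) ∧
      X x = emb (Real.sqrt (1 - (q (X x) EE) ^ 2) • x) (-(q (X x) EE)) := by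
  obtain ⟨c, t, hc, hX⟩ := hv x hx
  have h1 : q (X x) EE = -t := by rw [hX]; exact setup_of_qE _ _
  have h2 : q (X x) (X x) = -1 := h.XX x hx
  rw [hX, setup_of_qq, hx.1] at h2
  have h3 : (1 - (q (X x) EE) ^ 2) = c ^ 2 := by rw [h1]; linarith
  rw [h3, Real.sqrt_sq hc.le, h1, neg_neg]
  exact ⟨hc, hX⟩

theorem setup_of_inv {Γ : Type*} [Group Γ] {A : Γ →* (V3 ≃ₗ[ℝ] V3)}
    {ρ : Γ →* (V4 ≃ₗ[ℝ] V4)} (hrho : ∀ g x t, ρ g (emb x t) = emb (A g x) t) {X N : V3 → V4}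
    (hv : Vertical X) (he : Equivariant A ρ X N) (g : Γ) {x : V3} (hx : x ∈ H2) :
    q (X (A g x)) EE = q (X x) EE := by
  obtain ⟨c, t, hc, hX⟩ := hv x hx
  rw [he.eX g x hx, hX, hrho, setup_of_qE, setup_of_qE]

theorem setup_of {Γ : Type*} [Group Γ] {A : Γ →* (V3 ≃ₗ[ℝ] V3)} (hA : IsCocompact A) (S₀ S : CSlab A)
    (h₀ : IsFuchsian S₀) (hm : SameMetric S.Xm S₀.Xm) (hp : SameMetric S.Xp S₀.Xp) :
    ∃ T : Setup2, T.m.X = S.Xm ∧ T.p.X = S.Xp ∧ T.m0.X = S₀.Xm ∧ T.p0.X = S₀.Xp ∧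
      ∀ g : Γ, (A g, S.ρ g) ∈ T.G := by
  obtain ⟨c1, hc1, hl1⟩ := low_exists hA S.iso S.surf_m S.eq_m
  obtain ⟨c2, hc2, hl2⟩ := low_exists hA S.iso S.surf_p S.eq_p
  obtain ⟨F, hF1, hF2, hF3⟩ := hA.cocompact
  have hmin : 0 < min c1 c2 := lt_min hc1 hc2
  have hcpos : 0 < Real.sqrt (min c1 c2) := Real.sqrt_pos.2 hmin
  have hcsq : Real.sqrt (min c1 c2) ^ 2 = min c1 c2 := Real.sq_sqrt hmin.le
  have hlm : ∀ x ∈ H2, ∀ v, UT x v → Real.sqrt (min c1 c2) ^ 2 ≤
      q (fderiv ℝ S.Xm x v) (fderiv ℝ S.Xm x v) := by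
    intro x hx v hv
    rw [hcsq]
    exact (min_le_left _ _).trans (hl1 x hx v hv)
  have hlp : ∀ x ∈ H2, ∀ v, UT x v → Real.sqrt (min c1 c2) ^ 2 ≤
      q (fderiv ℝ S.Xp x v) (fderiv ℝ S.Xp x v) := by
    intro x hx v hv
    rw [hcsq]
    exact (min_le_right _ _).trans (hl2 x hx v hv)
  have hlm0 : ∀ x ∈ H2, ∀ v, UT x v → Real.sqrt (min c1 c2) ^ 2 ≤
      q (fderiv ℝ S₀.Xm x v) (fderiv ℝ S₀.Xm x v) := by
    intro x hx v hv
    rw [← hm x hx v v hv.1 hv.1]
    exact hlm x hx v hv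
  have hlp0 : ∀ x ∈ H2, ∀ v, UT x v → Real.sqrt (min c1 c2) ^ 2 ≤
      q (fderiv ℝ S₀.Xp x v) (fderiv ℝ S₀.Xp x v) := by
    intro x hx v hv
    rw [← hp x hx v v hv.1 hv.1]
    exact hlp x hx v hv
  have gm := good_of S.surf_m hcpos hlm
    (fun x hx y hy => S.bd.supp_m x hx _ (S.bd.mem_m y hy))
    (fun x hx y hy => lt_one S.bd (S.bd.mem_m x hx) (S.bd.mem_m y hy) (S.surf_m.XX x hx)
      (S.surf_m.XX y hy)) (Or.inl S.bd.future_m) S.inj_m
  have gp := good_of S.surf_p hcpos hlp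
    (fun x hx y hy => S.bd.supp_p x hx _ (S.bd.mem_p y hy))
    (fun x hx y hy => lt_one S.bd (S.bd.mem_p x hx) (S.bd.mem_p y hy) (S.surf_p.XX x hx)
      (S.surf_p.XX y hy)) (Or.inr S.bd.past_p) S.inj_p
  have gm0 := good_of S₀.surf_m hcpos hlm0
    (fun x hx y hy => S₀.bd.supp_m x hx _ (S₀.bd.mem_m y hy))
    (fun x hx y hy => lt_one S₀.bd (S₀.bd.mem_m x hx) (S₀.bd.mem_m y hy) (S₀.surf_m.XX x hx)
      (S₀.surf_m.XX y hy)) (Or.inl S₀.bd.future_m) S₀.inj_m
  have gp0 := good_of S₀.surf_p hcpos hlp0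
    (fun x hx y hy => S₀.bd.supp_p x hx _ (S₀.bd.mem_p y hy))
    (fun x hx y hy => lt_one S₀.bd (S₀.bd.mem_p x hx) (S₀.bd.mem_p y hy) (S₀.surf_p.XX x hx)
      (S₀.surf_p.XX y hy)) (Or.inr S₀.bd.past_p) S₀.inj_p
  have n0m : ∀ x ∈ H2, q (S₀.Nm x) EE < 0 := fun x hx =>
    (vert_sign S₀.surf_m h₀.vert_m hx).1 (S₀.bd.future_m x hx)
  have n0p : ∀ x ∈ H2, 0 < q (S₀.Np x) EE := fun x hx =>
    (vert_sign S₀.surf_p h₀.vert_p hx).2 (S₀.bd.past_p x hx)
  have hhm : ∀ x ∈ H2, 0 < q (S₀.Xm x) EE :=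
    (vert_height hA h₀.rho S₀.surf_m h₀.vert_m S₀.eq_m).1 n0m
  have hhp : ∀ x ∈ H2, q (S₀.Xp x) EE < 0 :=
    (vert_height hA h₀.rho S₀.surf_p h₀.vert_p S₀.eq_p).2 n0p
  have hinvm : ∀ (g : Γ), ∀ x ∈ H2, q (S₀.Xm (A g x)) EE = q (S₀.Xm x) EE := fun g x hx =>
    setup_of_inv h₀.rho h₀.vert_m S₀.eq_m g hx
  have hinvp : ∀ (g : Γ), ∀ x ∈ H2, q (S₀.Xp (A g x)) EE = q (S₀.Xp x) EE := fun g x hx =>
    setup_of_inv h₀.rho h₀.vert_p S₀.eq_p g hx
  refine ⟨{
    m := ⟨S.Xm, S.Nm, fun x v => fderiv ℝ S.Xm x v, fun x v => fderiv ℝ S.Nm x v,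
      fun x v => fderiv ℝ (fderiv ℝ S.Xm) x v v + S.Xm x⟩
    p := ⟨S.Xp, S.Np, fun x v => fderiv ℝ S.Xp x v, fun x v => fderiv ℝ S.Np x v,
      fun x v => fderiv ℝ (fderiv ℝ S.Xp) x v v + S.Xp x⟩
    m0 := ⟨S₀.Xm, S₀.Nm, fun x v => fderiv ℝ S₀.Xm x v, fun x v => fderiv ℝ S₀.Nm x v,
      fun x v => fderiv ℝ (fderiv ℝ S₀.Xm) x v v + S₀.Xm x⟩
    p0 := ⟨S₀.Xp, S₀.Np, fun x v => fderiv ℝ S₀.Xp x v, fun x v => fderiv ℝ S₀.Np x v,
      fun x v => fderiv ℝ (fderiv ℝ S₀.Xp) x v v + S₀.Xp x⟩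
    c := Real.sqrt (min c1 c2)
    gm := gm
    gp := gp
    gm0 := gm0
    gp0 := gp0
    iso_m := iso_of S.surf_m S₀.surf_m hm
    iso_p := iso_of S.surf_p S₀.surf_p hp
    sm := fun x => q (S₀.Xm x) EE
    cm := fun x => Real.sqrt (1 - (q (S₀.Xm x) EE) ^ 2)
    sp := fun x => -(q (S₀.Xp x) EE)
    cp := fun x => Real.sqrt (1 - (q (S₀.Xp x) EE) ^ 2)
    sm_pos := hhm
    cm_pos := fun x hx => (setup_of_vert S₀.surf_m h₀.vert_m hx).1
    sp_pos := fun x hx => neg_pos.2 (hhp x hx)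
    cp_pos := fun x hx => (setup_of_vert S₀.surf_p h₀.vert_p hx).1
    X0m := fun x hx => (setup_of_vert S₀.surf_m h₀.vert_m hx).2
    X0p := fun x hx => (setup_of_vert S₀.surf_p h₀.vert_p hx).2
    n0m := n0m
    n0p := n0p
    mp := fun x hx y hy => S.bd.supp_m x hx _ (S.bd.mem_p y hy)
    pm := fun x hx y hy => S.bd.supp_p x hx _ (S.bd.mem_m y hy)
    lt1 := fun x hx y hy => lt_one S.bd (S.bd.mem_m x hx) (S.bd.mem_p y hy) (S.surf_m.XX x hx)
      (S.surf_p.XX y hy)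
    ne := ?_
    G := {γ | ∃ g : Γ, γ = (A g, S.ρ g)}
    F := F
    G_inv := ?_
    G_eta := ?_
    G_H2 := ?_
    G_q := ?_
    G_Xm := ?_
    G_Nm := ?_
    G_Xp := ?_
    G_Np := ?_
    G_sm := ?_
    G_cm := ?_
    G_sp := ?_
    G_cp := ?_
    F_sub := hF1
    F_cpt := hF2
    F_cov := ?_ }, rfl, rfl, rfl, rfl, fun g => ⟨g, rfl⟩⟩
  · intro x hx y hy h1 h2
    have h3 := S.bd.future_m y hy
    have h4 := S.bd.past_p x hx
    simp only at h1 h2
    rw [h1, h2] at h4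
    linarith
  · rintro γ ⟨g, rfl⟩
    refine ⟨g⁻¹, ?_⟩
    rw [map_inv, map_inv]
    rfl
  · rintro γ ⟨g, rfl⟩ x y
    exact hA.iso g x y
  · rintro γ ⟨g, rfl⟩ x hx
    exact ⟨(hA.iso g x x).trans hx.1, hA.pos g x hx⟩
  · rintro γ ⟨g, rfl⟩ X Y
    exact S.iso g X Y
  · rintro γ ⟨g, rfl⟩ x hx
    exact S.eq_m.eX g x hx
  · rintro γ ⟨g, rfl⟩ x hx
    exact S.eq_m.eN g x hx
  · rintro γ ⟨g, rfl⟩ x hx
    exact S.eq_p.eX g x hx
  · rintro γ ⟨g, rfl⟩ x hx
    exact S.eq_p.eN g x hx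
  · rintro γ ⟨g, rfl⟩ x hx
    exact hinvm g x hx
  · rintro γ ⟨g, rfl⟩ x hx
    simp only [hinvm g x hx]
  · rintro γ ⟨g, rfl⟩ x hx
    simp only [hinvp g x hx]
  · rintro γ ⟨g, rfl⟩ x hx
    simp only [hinvp g x hx]
  · intro x hx
    obtain ⟨g, hg⟩ := hF3 x hx
    exact ⟨_, ⟨g, rfl⟩, hg⟩

end A_setup_of

alias setup_of := A_setup_of.setup_of

end Helper935.AdS
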