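import Pool.Agent.Helper935_AdS.LamA

namespace Helper935.AdS

namespace A_max_props2

/- Proof:
Let m = q (Xm y) N > 0, n = q (Nm y) N. extX2 and decomp2: N = -m Xm y - n Nm y, so -1 = -m^2 - n^2, and g m + II n <= 0 for unit v (exists_UT), where g = q (dX v)(dX v) > 0 (pos), II > 0 (strict). So n < 0 and m < 1.
-/
theorem max_props2 (S : Setup2) {N : V4} (hNN : q N N = -1) {y : V3} (hy : y ∈ H2) (hm : 0 < q (S.m.X y) N)
    (hmax : ∀ y' ∈ H2, q (S.m.X y') N ≤ q (S.m.X y) N) :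
    q (S.m.X y) N < 1 ∧ q (S.m.N y) N < 0 := by
  set m := q (S.m.X y) N with hmdef
  set n := q (S.m.N y) N with hndef
  have hc := S.gm.core
  obtain ⟨h1, h2⟩ := extX2 hc hy hmax
  have hdec : N = (-m) • S.m.X y + (-n) • S.m.N y := decomp2 hc hy h1
  obtain ⟨v, hv⟩ := exists_UT hy
  have hv0 : v ≠ 0 := by
    rintro rfl
    have := hv.2
    simp [eta] at this
  have hg : 0 < q (S.m.dX y v) (S.m.dX y v) := hc.pos y hy v hv.1 hv0
  have hII : 0 < q (S.m.dN y v) (S.m.dX y v) := hc.strict y hy v hv.1 hv0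
  have hn : n < 0 := by
    by_contra hcon
    push Not at hcon
    have h3 := h2 v hv
    have h4 := mul_nonneg hII.le hcon
    have h5 := mul_pos hg hm
    linarith
  have hsq : m ^ 2 + n ^ 2 = 1 := by
    have h3 : q N N = -m ^ 2 - n ^ 2 := by
      have e : ∀ (c d : ℝ) (X Y : V4), q (c • X + d • Y) (c • X + d • Y)
          = c ^ 2 * q X X + 2 * c * d * q Y X + d ^ 2 * q Y Y := by
        intro c d X Y
        simp only [q, Pi.add_apply, Pi.smul_apply, smul_eq_mul]; ring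
      conv_lhs => rw [hdec]
      rw [e, hc.XX y hy, hc.NN y hy, hc.NX y hy]; ring
    linarith
  refine ⟨?_, hn⟩
  nlinarith [sq_pos_of_neg hn]

end A_max_props2

alias max_props2 := A_max_props2.max_props2

namespace A_foot_hull2

theorem q_lin (X Y Z : V4) (c : ℝ) : q X (Y + c • Z) = q X Y + c * q X Z := by
  simp only [q, Pi.add_apply, Pi.smul_apply, smul_eq_mul]
  ring

theorem q_smul_r (X Y : V4) (c : ℝ) : q X (c • Y) = c * q X Y := by
  simp only [q, Pi.smul_apply, smul_eq_mul]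
  ring

theorem q_smul_l (X Y : V4) (c : ℝ) : q (c • X) Y = c * q X Y := by
  simp only [q, Pi.smul_apply, smul_eq_mul]
  ring

theorem q_lin_l (X Y Z : V4) (c : ℝ) : q (X + c • Y) Z = q X Z + c * q Y Z := by
  simp only [q, Pi.add_apply, Pi.smul_apply, smul_eq_mul]
  ring

theorem q_comm (X Y : V4) : q X Y = q Y X := by
  simp only [q]
  ring

theorem small_e (m A B C D E : ℝ) (hm : 0 < m) (hD : 0 < D) :
    ∃ e : ℝ, 0 < e ∧ 0 < m + e * A ∧ 0 < 1 - 2 * e * B - e ^ 2 * C ∧ 0 < D + e * E := by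
  have h1 : ∀ᶠ e in nhds (0 : ℝ), 0 < m + e * A := by
    have hc : Continuous fun e : ℝ => m + e * A := by fun_prop
    exact hc.continuousAt.eventually (lt_mem_nhds (by simpa using hm))
  have h2 : ∀ᶠ e in nhds (0 : ℝ), 0 < 1 - 2 * e * B - e ^ 2 * C := by
    have hc : Continuous fun e : ℝ => 1 - 2 * e * B - e ^ 2 * C := by fun_prop
    exact hc.continuousAt.eventually (lt_mem_nhds (by norm_num))
  have h3 : ∀ᶠ e in nhds (0 : ℝ), 0 < D + e * E := by
    have hc : Continuous fun e : ℝ => D + e * E := by fun_prop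
    exact hc.continuousAt.eventually (lt_mem_nhds (by simpa using hD))
  have h4 : ∀ᶠ e in nhdsWithin (0 : ℝ) (Set.Ioi 0), 0 < m + e * A ∧
      0 < 1 - 2 * e * B - e ^ 2 * C ∧ 0 < D + e * E :=
    ((h1.and (h2.and h3))).filter_mono nhdsWithin_le_nhds
  obtain ⟨e, he, he'⟩ := (h4.and self_mem_nhdsWithin).exists
  exact ⟨e, he', he.1, he.2.1, he.2.2⟩







/- Proof:
Let m = q (Xm y) N, z = Xm y + m N; q z z = -1 + m^2 < 0 so z is nonzero. If z is not of the form t Y, sep gives N'' with q Y N'' < 0 on nset2 S and 0 < q z N''. For e > 0 small let N_e = N + e N''. q (Xp x) N_e <= 0 on H2 and q N_e N_e < 0, so N_e / sqrt(-q N_e N_e) is in Dual2 S, and maximality gives (m + e A) <= m sqrt(1 - 2 e B - e^2 C) with A = q (Xm y) N'', B = q N N'', C = q N'' N'', i.e. for small e: (m + eA)^2 <= m^2 (1 - 2eB - e^2 C), i.e. 2 m (A + m B) e + O(e^2) <= 0; but A + m B = q z N'' > 0 and m > 0. Contradiction.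
-/
theorem foot_hull2 (S : Setup2) {N : V4} (hN : N ∈ Dual2 S) {y : V3} (hy : y ∈ H2) (hm : 0 < q (S.m.X y) N)
    (hm1 : q (S.m.X y) N < 1) (hmax : ∀ N' ∈ Dual2 S, q (S.m.X y) N' ≤ q (S.m.X y) N) :
    ∃ t : ℝ, 0 ≤ t ∧ ∃ Y ∈ convexHull ℝ (nset2 S), S.m.X y + (q (S.m.X y) N) • N = t • Y := by
  set m := q (S.m.X y) N with hmdef
  by_contra hcon
  push Not at hcon
  have hXX := S.gm.core.XX y hy
  obtain ⟨hNN, hNX⟩ := hN
  have hz0 : S.m.X y + m • N ≠ 0 := by
    intro h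
    have h1 : q (S.m.X y + m • N) (S.m.X y + m • N) = -1 + m ^ 2 := by
      rw [q_lin, q_lin_l, q_lin_l, hXX, hNN, q_comm N (S.m.X y), ← hmdef]
      ring
    rw [h] at h1
    have h2 : q (0 : V4) 0 = 0 := by simp [q]
    rw [h2] at h1
    nlinarith
  obtain ⟨W, hW1, hW2⟩ := sep (nset_cpt2 S).1 (nset_cpt2 S).2 (zero_notin2 S) hz0 hcon
  set A := q (S.m.X y) W with hA
  set B := q N W with hB
  set C := q W W with hC
  have hD : q (S.m.X y + m • N) W = A + m * B := q_lin_l _ _ _ _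
  rw [hD] at hW2
  obtain ⟨e, he0, he1, he2, he3⟩ := small_e m A B C (2 * m * (A + m * B)) (A ^ 2 + m ^ 2 * C) hm
    (by positivity)
  -- negativity on the upper surface
  have hXW : ∀ x ∈ H2, q (S.p.X x) W < 0 := by
    intro x hx
    have hne : S.p.X x ≠ 0 := by
      intro h
      have h1 := S.gp.core.XX x hx
      rw [h] at h1
      have h2 : q (0 : V4) 0 = 0 := by simp [q]
      rw [h2] at h1
      norm_num at h1
    have hpos : 0 < ‖S.p.X x‖⁻¹ := inv_pos.2 (norm_pos_iff.2 hne)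
    have h1 := hW1 (‖S.p.X x‖⁻¹ • S.p.X x) (subset_closure ⟨x, hx, rfl⟩)
    rw [q_smul_l] at h1
    by_contra h2
    push Not at h2
    have := mul_nonneg hpos.le h2
    linarith
  set Q := 1 - 2 * e * B - e ^ 2 * C with hQ
  have hsQ : 0 < √Q := Real.sqrt_pos.2 he2
  have hsq : √Q * √Q = Q := Real.mul_self_sqrt he2.le
  have hNe : q (N + e • W) (N + e • W) = -Q := by
    rw [q_lin, q_lin_l, q_lin_l, hNN, q_comm W N, ← hB, ← hC, hQ]
    ring
  have hdual : (√Q)⁻¹ • (N + e • W) ∈ Dual2 S := by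
    refine ⟨?_, fun x hx => ?_⟩
    · rw [q_smul_l, q_smul_r, hNe]
      field_simp
      rw [Real.sq_sqrt he2.le]
    · rw [q_smul_r, q_lin]
      have h1 := hNX x hx
      have h2 := hXW x hx
      have h3 : q (S.p.X x) N + e * q (S.p.X x) W ≤ 0 := by nlinarith
      exact mul_nonpos_of_nonneg_of_nonpos (inv_pos.2 hsQ).le h3
  have hle := hmax _ hdual
  rw [q_smul_r, q_lin, ← hmdef, ← hA, inv_mul_le_iff₀ hsQ] at hle
  have h5 : (m + e * A) ^ 2 ≤ (√Q * m) ^ 2 := pow_le_pow_left₀ he1.le hle 2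
  rw [mul_pow, sq (√Q), hsq, hQ] at h5
  have h6 : 0 < e * (2 * m * (A + m * B) + e * (A ^ 2 + m ^ 2 * C)) := mul_pos he0 he3
  nlinarith

end A_foot_hull2

alias foot_hull2 := A_foot_hull2.foot_hull2

namespace A_leaf2

theorem leaf2_comm (X Y : V4) : q X Y = q Y X := by
  unfold q
  ring

/-- `q X` as a linear map -/
def leaf2L (X : V4) : V4 →ₗ[ℝ] ℝ where
  toFun := q X
  map_add' := fun Y Z => by
    simp only [q, Pi.add_apply]
    ring
  map_smul' := fun c Y => by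
    simp only [q, Pi.smul_apply, smul_eq_mul, RingHom.id_apply]
    ring

theorem leaf2_add_r (X Y Z : V4) : q X (Y + Z) = q X Y + q X Z := (leaf2L X).map_add Y Z

theorem leaf2_smul_r (X Y : V4) (c : ℝ) : q X (c • Y) = c * q X Y := (leaf2L X).map_smul c Y

theorem leaf2_add_l (X Y Z : V4) : q (X + Y) Z = q X Z + q Y Z := by
  rw [leaf2_comm, leaf2_add_r, leaf2_comm Z X, leaf2_comm Z Y]

theorem leaf2_smul_l (X Y : V4) (c : ℝ) : q (c • X) Y = c * q X Y := by
  rw [leaf2_comm, leaf2_smul_r, leaf2_comm Y X]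

theorem leaf2_sum_r (X : V4) {n : ℕ} (w : Fin n → ℝ) (z : Fin n → V4) :
    q X (∑ i, w i • z i) = ∑ i, w i * q X (z i) := by
  have h := map_sum (leaf2L X) (fun i => w i • z i) Finset.univ
  have h2 : (leaf2L X) (∑ i, w i • z i) = q X (∑ i, w i • z i) := rfl
  rw [← h2, h]
  apply Finset.sum_congr rfl
  intro i _
  exact leaf2_smul_r X (z i) (w i)

theorem leaf2_sum_l (X : V4) {n : ℕ} (w : Fin n → ℝ) (z : Fin n → V4) :
    q (∑ i, w i • z i) X = ∑ i, w i * q (z i) X := by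
  rw [leaf2_comm, leaf2_sum_r]
  exact Finset.sum_congr rfl fun i _ => by rw [leaf2_comm]

theorem leaf2_cont (N : V4) : Continuous (fun Y : V4 => q Y N) := by
  unfold q
  fun_prop

/- Proof:
Put m = q (Xm y) N, z = Xm y + m N = t sum w_i z_i (foot_hull2, hull_repr). q z z = m^2 - 1 < 0, so z is nonzero and t > 0. q z N = m - m = 0 and each q z_i N <= 0 (closure of q (Xp x) N <= 0), so q z_i N = 0 for all i. If z_i = |Xp x|^{-1} Xp x then q (Xp x) N = 0 and contactX2 (upper surface, Z = N) gives N = Np x, so m = q (Xm y)(Np x) <= 0 by S.pm, contradiction. So all z_i in Lam2 S (nset_cases2). Since q z z < 0 and q z_i z_j <= 0 some pair i,j has q z_i z_j < 0 (i ≠ j as z_i null). Scale: xi1 = z_i, xi2 = z_j/(-2 q z_i z_j). Also z is a positive combination of Lam2 elements, so q (Xm x) z < 0 and q (Nm x) z < 0 for all x in H2 (Lam_strict2).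
-/
theorem leaf2 (S : Setup2) {N : V4} (hN : N ∈ Dual2 S) {y : V3} (hy : y ∈ H2) (hm : 0 < q (S.m.X y) N)
    (hm1 : q (S.m.X y) N < 1) (hmax : ∀ N' ∈ Dual2 S, q (S.m.X y) N' ≤ q (S.m.X y) N) :
    (∃ ξ₁ ∈ Lam2 S, ∃ ξ₂ ∈ Lam2 S, q ξ₁ N = 0 ∧ q ξ₂ N = 0 ∧ q ξ₁ ξ₂ = -1/2) ∧
    ∀ x ∈ H2, q (S.m.X x) (S.m.X y + (q (S.m.X y) N) • N) < 0 ∧
      q (S.m.N x) (S.m.X y + (q (S.m.X y) N) • N) < 0 := by
  obtain ⟨t, ht0, Y, hY, hz⟩ := foot_hull2 S hN hy hm hm1 hmax
  obtain ⟨n, w, z, hn, hw, hzS, rfl⟩ := hull_repr hY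
  have hXX := S.gm.core.XX y hy
  have hNN := hN.1
  have hNX : q N (S.m.X y) = q (S.m.X y) N := leaf2_comm _ _
  have hqzz : q (S.m.X y + (q (S.m.X y) N) • N) (S.m.X y + (q (S.m.X y) N) • N)
      = (q (S.m.X y) N) ^ 2 - 1 := by
    rw [leaf2_add_l, leaf2_add_r, leaf2_add_r, leaf2_smul_l, leaf2_smul_r, leaf2_smul_l, leaf2_smul_r,
      hXX, hNN, hNX]
    ring
  have hneg : q (S.m.X y + (q (S.m.X y) N) • N) (S.m.X y + (q (S.m.X y) N) • N) < 0 := by
    rw [hqzz]
    nlinarith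
  have hqzN : q (S.m.X y + (q (S.m.X y) N) • N) N = 0 := by
    rw [leaf2_add_l, leaf2_smul_l, hNN]
    ring
  have ht : 0 < t := by
    rcases ht0.lt_or_eq with h | h
    · exact h
    · exfalso
      rw [hz, ← h, zero_smul] at hneg
      simp [q] at hneg
  have hzN : ∀ i, q (z i) N ≤ 0 := by
    intro i
    have hcl : IsClosed {Y : V4 | q Y N ≤ 0} := isClosed_le (leaf2_cont N) continuous_const
    have hsub : closure {Y | ∃ x ∈ H2, Y = ‖S.p.X x‖⁻¹ • S.p.X x} ⊆ {Y : V4 | q Y N ≤ 0} := by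
      apply closure_minimal _ hcl
      rintro Y ⟨x, hx, rfl⟩
      rw [Set.mem_ofPred_eq, leaf2_smul_l]
      exact mul_nonpos_of_nonneg_of_nonpos (by positivity) (hN.2 x hx)
    exact hsub (hzS i)
  have hzN0 : ∀ i, q (z i) N = 0 := by
    rw [hz, leaf2_smul_l, leaf2_sum_l] at hqzN
    have h1 : ∑ i, w i * q (z i) N = 0 := by
      rcases mul_eq_zero.1 hqzN with h | h
      · exact absurd h ht.ne'
      · exact h
    have h2 : ∀ i ∈ Finset.univ, w i * q (z i) N ≤ 0 := fun i _ =>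
      mul_nonpos_of_nonneg_of_nonpos (hw i).le (hzN i)
    have h3 := (Finset.sum_eq_zero_iff_of_nonpos h2).1 h1
    intro i
    rcases mul_eq_zero.1 (h3 i (Finset.mem_univ i)) with h | h
    · exact absurd h (hw i).ne'
    · exact h
  have hLam : ∀ i, z i ∈ Lam2 S := by
    intro i
    rcases nset_cases2 S (hzS i) with ⟨x, hx, hzx⟩ | h
    · exfalso
      have hXp : S.p.X x ≠ 0 := by
        intro h0
        have := S.gp.core.XX x hx
        rw [h0] at this
        simp [q] at this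
      have h1 := hzN0 i
      rw [hzx, leaf2_smul_l] at h1
      have h2 : q (S.p.X x) N = 0 := by
        rcases mul_eq_zero.1 h1 with h | h
        · exact absurd h (inv_ne_zero (norm_ne_zero_iff.2 hXp))
        · exact h
      have h3 := contactX2 S.gp.core hN.1 hN.2 hx h2
      have h4 := S.pm x hx y hy
      rw [← h3, leaf2_comm] at h4
      linarith
    · exact h
  refine ⟨?_, ?_⟩
  · obtain ⟨i, j, hij⟩ : ∃ i j, q (z i) (z j) < 0 := by
      by_contra hcon
      push Not at hcon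
      rw [hz, leaf2_smul_l, leaf2_smul_r, leaf2_sum_l] at hneg
      have h1 : 0 ≤ ∑ i, w i * q (z i) (∑ j, w j • z j) := by
        apply Finset.sum_nonneg
        intro i _
        rw [leaf2_sum_r]
        exact mul_nonneg (hw i).le (Finset.sum_nonneg fun j _ => mul_nonneg (hw j).le (hcon i j))
      have h2 : 0 ≤ t * (t * ∑ i, w i * q (z i) (∑ j, w j • z j)) := by positivity
      linarith
    have hc : 0 < 1 / (-2 * q (z i) (z j)) := by
      apply div_pos one_pos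
      linarith
    refine ⟨z i, hLam i, (1 / (-2 * q (z i) (z j))) • z j, Lam_smul2 S (hLam j) hc, hzN0 i, ?_, ?_⟩
    · rw [leaf2_smul_l, hzN0 j, mul_zero]
    · rw [leaf2_smul_r]
      have : q (z i) (z j) ≠ 0 := hij.ne
      field_simp
  · intro x hx
    have hne : (Finset.univ : Finset (Fin n)).Nonempty := ⟨⟨0, hn⟩, Finset.mem_univ _⟩
    rw [hz, leaf2_smul_r, leaf2_smul_r, leaf2_sum_r, leaf2_sum_r]
    constructor
    · apply mul_neg_of_pos_of_neg ht
      apply Finset.sum_neg _ hne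
      intro i _
      exact mul_neg_of_pos_of_neg (hw i) (Lam_strict2 S (hLam i) hx).1
    · apply mul_neg_of_pos_of_neg ht
      apply Finset.sum_neg _ hne
      intro i _
      exact mul_neg_of_pos_of_neg (hw i) (Lam_strict2 S (hLam i) hx).2.1

end A_leaf2

alias leaf2 := A_leaf2.leaf2

namespace A_nu_neg2

theorem nu2_q_symm (X Y : V4) : q X Y = q Y X := by
  unfold q; ring

theorem nu2_sign {f : ℝ → ℝ} (hf : Continuous f) (h0 : ∀ s, f s ≠ 0) (hp : 0 < f 0) (s : ℝ) :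
    0 < f s := by
  by_contra hs
  have hs' : f s ≤ 0 := not_lt.mp hs
  have := mem_range_of_exists_le_of_exists_ge hf ⟨s, hs'⟩ ⟨0, hp.le⟩
  obtain ⟨t, ht⟩ := this
  exact h0 t ht

/- Proof:
Let m = q (Xm y0) N, Z = Xm y0 + m N (so q Z Z = m^2-1 < 0, q Z N = 0), v(y) = q (Xm y) N < 1, n(y) = q (Nm y) N, D(y) = q Z (Xm y) * n(y) - q Z (Nm y) * v(y).
(1) D(y) is nonzero for all y in H2: if D(y) = 0 put V = v(y) Z - q Z (Xm y) N; then q V (Xm y) = 0, q V (Nm y) = -D(y) = 0, so compl2 at y gives q V V >= 0, but q V V = v^2 q Z Z - (q Z (Xm y))^2 < 0 because q Z (Xm y) < 0 (leaf2).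
(2) D(y0) = -n(y0) > 0 (q Z (Xm y0) = -(1-m^2), q Z (Nm y0) = m n(y0)).
(3) if D(y) > 0 then n(y) ≠ 0: if n(y) = 0 then compl-type identity: N - (projection) i.e. V' = N + v(y) Xm y satisfies q V' (Xm y) = 0, q V' (Nm y) = n(y) = 0, so compl2: 0 <= q V' V' = -1 + v^2, so v^2 >= 1; and D(y) > 0 gives - q Z (Nm y) v(y) > 0 with q Z (Nm y) < 0 (leaf2), so v(y) > 0, so v(y) >= 1, against v < 1.
(4) For y in H2 take the geodesic from y0 to y (exists_geo, geo_mem); s -> D(geo ..) and s -> n(geo ..) are continuous (Xm, Nm continuous on H2), D is nowhere zero hence > 0 along it, then n is nowhere zero and n(y0) < 0, so n(y) < 0 (intermediate value theorem).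
-/
theorem nu_neg2 (S : Setup2) {N : V4} (hN : N ∈ Dual2 S) {y₀ : V3} (hy₀ : y₀ ∈ H2) (hm : 0 < q (S.m.X y₀) N)
    (hm1 : ∀ y ∈ H2, q (S.m.X y) N < 1) (hmax : ∀ N' ∈ Dual2 S, q (S.m.X y₀) N' ≤ q (S.m.X y₀) N)
    (hn : q (S.m.N y₀) N < 0) {y : V3} (hy : y ∈ H2) : q (S.m.N y) N < 0 := by
  obtain ⟨-, hleaf⟩ := leaf2 S hN hy₀ hm (hm1 y₀ hy₀) hmax
  have hcore := S.gm.core
  have hNN : q N N = -1 := hN.1
  have hm1' : q (S.m.X y₀) N < 1 := hm1 y₀ hy₀
  set m : ℝ := q (S.m.X y₀) N with hmdef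
  set Z : V4 := S.m.X y₀ + m • N with hZ
  have hm2 : m ^ 2 < 1 := by nlinarith
  -- bilinear expansions
  have hZq : ∀ Y : V4, q Z Y = q (S.m.X y₀) Y + m * q N Y := by
    intro Y
    simp only [hZ, q, Pi.add_apply, Pi.smul_apply, smul_eq_mul]; ring
  have hXX0 := hcore.XX y₀ hy₀
  have hNX0 := hcore.NX y₀ hy₀
  have hZN : q Z N = 0 := by
    rw [hZq, hNN]; rw [← hmdef]; ring
  have hZZ : q Z Z = m ^ 2 - 1 := by
    rw [hZq, nu2_q_symm (S.m.X y₀) Z, nu2_q_symm N Z, hZq, hXX0, hZN, nu2_q_symm N (S.m.X y₀), ← hmdef]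
    ring
  have hnn : ∀ y ∈ H2, (q Z (S.m.X y) * q (S.m.N y) N - q Z (S.m.N y) * q (S.m.X y) N) ≠ 0 := by
    intro y hy hD
    have hl := (hleaf y hy).1
    rw [nu2_q_symm] at hl
    set V : V4 := (q (S.m.X y) N) • Z - (q Z (S.m.X y)) • N with hV
    have hVq : ∀ Y : V4, q V Y = q (S.m.X y) N * q Z Y - q Z (S.m.X y) * q N Y := by
      intro Y
      simp only [hV, q, Pi.sub_apply, Pi.smul_apply, smul_eq_mul]; ring
    have h1 : q V (S.m.X y) = 0 := by
      rw [hVq, nu2_q_symm N (S.m.X y)]; ring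
    have h2 : q V (S.m.N y) = 0 := by
      rw [hVq, nu2_q_symm N (S.m.N y)]; linarith
    have h3 := compl2 hcore hy h1 h2
    have h4 : q V V = (q (S.m.X y) N) ^ 2 * (m ^ 2 - 1) - (q Z (S.m.X y)) ^ 2 := by
      rw [hVq, nu2_q_symm Z V, nu2_q_symm N V, hVq, hVq, hZZ, hZN, hNN, nu2_q_symm N Z, hZN]; ring
    have h6 : 0 < (q Z (S.m.X y)) ^ 2 := by nlinarith
    nlinarith [mul_nonneg (sq_nonneg (q (S.m.X y) N)) (by linarith : (0:ℝ) ≤ 1 - m ^ 2)]
  have hD0 : 0 < q Z (S.m.X y₀) * q (S.m.N y₀) N - q Z (S.m.N y₀) * q (S.m.X y₀) N := by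
    have e1 : q Z (S.m.X y₀) = m ^ 2 - 1 := by
      rw [hZq, hXX0, nu2_q_symm N (S.m.X y₀), ← hmdef]; ring
    have e2 : q Z (S.m.N y₀) = m * q (S.m.N y₀) N := by
      rw [hZq, nu2_q_symm (S.m.X y₀) (S.m.N y₀), hNX0, nu2_q_symm N (S.m.N y₀)]; ring
    rw [e1, e2, ← hmdef]
    nlinarith
  have hn' : ∀ y ∈ H2, 0 < (q Z (S.m.X y) * q (S.m.N y) N - q Z (S.m.N y) * q (S.m.X y) N) →
      q (S.m.N y) N ≠ 0 := by
    intro y hy hD h0
    have hl := (hleaf y hy).2
    rw [nu2_q_symm] at hl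
    have hXX := hcore.XX y hy
    have hNX := hcore.NX y hy
    set V : V4 := N + (q (S.m.X y) N) • S.m.X y with hV
    have hVq : ∀ Y : V4, q V Y = q N Y + q (S.m.X y) N * q (S.m.X y) Y := by
      intro Y
      simp only [hV, q, Pi.add_apply, Pi.smul_apply, smul_eq_mul]; ring
    have h1 : q V (S.m.X y) = 0 := by
      rw [hVq, nu2_q_symm N (S.m.X y), hXX]; ring
    have h2 : q V (S.m.N y) = 0 := by
      rw [hVq, nu2_q_symm N (S.m.N y), h0, nu2_q_symm (S.m.X y) (S.m.N y), hNX]; ring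
    have h3 := compl2 hcore hy h1 h2
    have h4 : q V V = (q (S.m.X y) N) ^ 2 - 1 := by
      rw [hVq, nu2_q_symm N V, nu2_q_symm (S.m.X y) V, h1, hVq, hNN]; ring
    rw [h0] at hD
    have hvle : q (S.m.X y) N < 1 := hm1 y hy
    have hvpos : 0 < q (S.m.X y) N := by
      by_contra hneg
      have hneg' : q (S.m.X y) N ≤ 0 := not_lt.mp hneg
      nlinarith [mul_nonneg_of_nonpos_of_nonpos hl.le hneg']
    nlinarith
  -- path
  obtain ⟨d, v, hd, hv, hgy⟩ := exists_geo hy₀ hy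
  have hmem : ∀ s, geo y₀ v s ∈ H2 := fun s => geo_mem hy₀ hv s
  have hg0 : geo y₀ v 0 = y₀ := by
    simp [geo]
  have hgc : Continuous (fun s : ℝ => geo y₀ v s) := by
    unfold geo
    exact (Real.continuous_cosh.smul continuous_const).add (Real.continuous_sinh.smul continuous_const)
  have hXc : Continuous (fun s : ℝ => S.m.X (geo y₀ v s)) :=
    hcore.contX.comp_continuous hgc hmem
  have hNc : Continuous (fun s : ℝ => S.m.N (geo y₀ v s)) :=
    hcore.contN.comp_continuous hgc hmem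
  have hqc : ∀ {f g : ℝ → V4}, Continuous f → Continuous g → Continuous (fun s => q (f s) (g s)) := by
    intro f g hf hg
    unfold q
    fun_prop
  have hDc : Continuous (fun s : ℝ => q Z (S.m.X (geo y₀ v s)) * q (S.m.N (geo y₀ v s)) N
      - q Z (S.m.N (geo y₀ v s)) * q (S.m.X (geo y₀ v s)) N) :=
    ((hqc continuous_const hXc).mul (hqc hNc continuous_const)).sub
      ((hqc continuous_const hNc).mul (hqc hXc continuous_const))
  have hDpos := nu2_sign hDc (fun s => hnn _ (hmem s)) (by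
    simp only [hg0]; exact hD0)
  have hnc : Continuous (fun s : ℝ => - q (S.m.N (geo y₀ v s)) N) := (hqc hNc continuous_const).neg
  have hnpos := nu2_sign hnc (fun s => neg_ne_zero.mpr (hn' _ (hmem s) (hDpos s))) (by
    simp only [hg0]; linarith) d
  simp only [hgy] at hnpos
  linarith

end A_nu_neg2

alias nu_neg2 := A_nu_neg2.nu_neg2

end Helper935.AdS
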