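import Pool.Agent.Helper935_AdS.LamA

namespace Helper935.AdS

namespace A_lower2

/- Proof:
Suppose q (Xm y) N > sm y (> 0). Let P = {(N',y') : N' in Dual2, y' in F, 0 <= q (Xm y') N'}: compact (Dual_cpt2 with C = 0). f(N',y') = q (Xm y') N' - sm y' is continuous on it (heights, contX). P contains the translate (g.2 N, g.1 y) with g.1 y in F (F_cov, Dual_G2, G_Xm, G_q, G_sm), where f > 0. Let (N1,y1) maximise f on P: f(N1,y1) > 0. For all y' in H2: q (Xm y') N1 - sm y' <= f(N1,y1): if q (Xm y') N1 >= 0 translate (N1,y') into P; otherwise the left side is < 0.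
Apply extD2 with (S.m, S.m0, S.iso_m), Z = N1, Z0 = EE (q (m0.X y') EE = sm y'), at y1: gradients agree, and for unit v: g V + II n <= g s + II0 n0 where V = q (Xm y1) N1, s = sm y1, n = q (Nm y1) N1, n0 = q (m0.N y1) EE < 0 (S.n0m), g = q (dX v)(dX v). So (V - s) g + (-n0) II0 <= (-n) II, and detD2 (alpha = -n, beta = -n0 > 0, l = V - s > 0) gives n0^2 < n^2. But normD2 (q N1 N1 = -1 = q EE EE) gives n^2 - n0^2 = s^2 - V^2 < 0 as V > s > 0. Contradiction.
-/
theorem lower2 (S : Setup2) {N : V4} (hN : N ∈ Dual2 S) {y : V3} (hy : y ∈ H2) :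
    q (S.m.X y) N ≤ S.sm y := by
  by_contra hlt
  push Not at hlt
  obtain ⟨hh, ⟨csm, -, -, -⟩, -⟩ := heights S
  set P : Set (V4 × V3) := {p : V4 × V3 | p.1 ∈ Dual2 S ∧ p.2 ∈ S.F ∧ -(0:ℝ) ≤ q (S.m.X p.2) p.1} with hP
  have hPc : IsCompact P := (Dual_cpt2 S 0).1
  have hmemP : ∀ M ∈ Dual2 S, ∀ z ∈ H2, 0 ≤ q (S.m.X z) M →
      ∃ g ∈ S.G, (g.2 M, g.1 z) ∈ P ∧ q (S.m.X (g.1 z)) (g.2 M) = q (S.m.X z) M ∧
        S.sm (g.1 z) = S.sm z := by
    intro M hM z hz h0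
    obtain ⟨g, hg, hgF⟩ := S.F_cov z hz
    have e1 : q (S.m.X (g.1 z)) (g.2 M) = q (S.m.X z) M := by
      rw [S.G_Xm g hg z hz, S.G_q g hg]
    refine ⟨g, hg, ⟨Dual_G2 S hM hg, hgF, ?_⟩, e1, S.G_sm g hg z hz⟩
    show -(0:ℝ) ≤ q (S.m.X (g.1 z)) (g.2 M)
    rw [e1]; linarith
  have hfc : ContinuousOn (fun p : V4 × V3 => q (S.m.X p.2) p.1 - S.sm p.2) P := by
    have hmaps : Set.MapsTo (fun p : V4 × V3 => p.2) P H2 := fun p hp => S.F_sub hp.2.1
    have hX : ContinuousOn (fun p : V4 × V3 => S.m.X p.2) P :=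
      S.gm.core.contX.comp continuous_snd.continuousOn hmaps
    have hXi : ∀ i, ContinuousOn (fun p : V4 × V3 => S.m.X p.2 i) P :=
      fun i => (continuous_apply i).comp_continuousOn hX
    have hNi : ∀ i, ContinuousOn (fun p : V4 × V3 => p.1 i) P :=
      fun i => ((continuous_apply i).comp continuous_fst).continuousOn
    have hs : ContinuousOn (fun p : V4 × V3 => S.sm p.2) P :=
      csm.comp continuous_snd.continuousOn hmaps
    simp only [q]
    exact (((((hXi 0).mul (hNi 0)).neg.add ((hXi 1).mul (hNi 1))).add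
      ((hXi 2).mul (hNi 2))).sub ((hXi 3).mul (hNi 3))).sub hs
  have hsy := S.sm_pos y hy
  obtain ⟨g, hg, hgP, e1, e2⟩ := hmemP N hN y hy (by linarith)
  obtain ⟨⟨N1, y1⟩, hp1, hmax⟩ := hPc.exists_isMaxOn ⟨_, hgP⟩ hfc
  have hpos : 0 < q (S.m.X y1) N1 - S.sm y1 := by
    have := hmax hgP
    simp only [Set.mem_setOf_eq] at this
    rw [e1, e2] at this
    linarith
  have hy1 : y1 ∈ H2 := S.F_sub hp1.2.1
  have hN1 : N1 ∈ Dual2 S := hp1.1
  have hall : ∀ z ∈ H2, q (S.m.X z) N1 - S.sm z ≤ q (S.m.X y1) N1 - S.sm y1 := by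
    intro z hz
    by_cases h0 : 0 ≤ q (S.m.X z) N1
    · obtain ⟨g, hg, hgP, e1, e2⟩ := hmemP N1 hN1 z hz h0
      have := hmax hgP
      simp only [Set.mem_setOf_eq] at this
      rw [e1, e2] at this
      exact this
    · push Not at h0
      have := S.sm_pos z hz
      linarith
  obtain ⟨hgrad, hsec⟩ := extD2 S.gm.core S.gm0.core S.iso_m hy1 (Z := N1) (Z₀ := EE) (by
    intro z hz
    rw [(hh z hz).1, (hh y1 hy1).1]
    exact hall z hz)
  have hn0 := S.n0m y1 hy1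
  have hdet := detD2 S.gm.core S.gm0.core S.iso_m hy1 (α := -(q (S.m.N y1) N1))
    (β := -(q (S.m0.N y1) EE)) (l := q (S.m.X y1) N1 - S.sm y1) (by linarith) hpos (by
    intro v hv
    have := hsec v hv
    rw [(hh y1 hy1).1] at this
    nlinarith [this])
  have hEE : q EE EE = -1 := by simp [q, EE]
  have hnorm := normD2 S.gm.core S.gm0.core S.iso_m hy1 (Z := N1) (Z₀ := EE)
    (by rw [hN1.1, hEE]) hgrad
  rw [(hh y1 hy1).1] at hnorm
  have hs1 := S.sm_pos y1 hy1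
  nlinarith [hnorm, hdet, hpos, hs1]

end A_lower2

alias lower2 := A_lower2.lower2

namespace A_dich2

/- Proof:
P = {(N,y) : N in Dual2, y in F, -1 <= q (Xm y) N} is compact (Dual_cpt2, C = 1), nonempty (exists_sep2 translated into F), and f(N,y) = sm y - q (Xm y) N >= 0 (lower2) is continuous on it (heights). Let e be its minimum. If e = 0 the first alternative holds. If e > 0, the second alternative holds with min e 1 : for N in Dual2, y in H2 translate y into F (Dual_G2, G_Xm, G_sm); either the translate is in P, or q (Xm y) N < -1 and sm y > 0.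
-/
theorem dich2 (S : Setup2) : (∃ N ∈ Dual2 S, ∃ y ∈ H2, q (S.m.X y) N = S.sm y) ∨
    ∃ ε : ℝ, 0 < ε ∧ ∀ N ∈ Dual2 S, ∀ y ∈ H2, q (S.m.X y) N ≤ S.sm y - ε := by
  have hK := (Dual_cpt2 S 1).1
  set P : Set (V4 × V3) := {p : V4 × V3 | p.1 ∈ Dual2 S ∧ p.2 ∈ S.F ∧ -1 ≤ q (S.m.X p.2) p.1}
    with hP
  obtain ⟨-, ⟨hsm, -, -, -⟩, -⟩ := heights S
  have hX : ContinuousOn S.m.X H2 := S.gm.core.contX
  have hsnd : Set.MapsTo (fun p : V4 × V3 => p.2) P H2 := fun p hp => S.F_sub hp.2.1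
  have hXP : ContinuousOn (fun p : V4 × V3 => S.m.X p.2) P :=
    hX.comp continuous_snd.continuousOn hsnd
  have hsP : ContinuousOn (fun p : V4 × V3 => S.sm p.2) P :=
    hsm.comp continuous_snd.continuousOn hsnd
  have hXi : ∀ i : Fin 4, ContinuousOn (fun p : V4 × V3 => S.m.X p.2 i) P := fun i =>
    (continuous_apply i).comp_continuousOn hXP
  have hNi : ∀ i : Fin 4, ContinuousOn (fun p : V4 × V3 => p.1 i) P := fun i =>
    ((continuous_apply i).comp continuous_fst).continuousOn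
  have hf : ContinuousOn (fun p : V4 × V3 => S.sm p.2 - q (S.m.X p.2) p.1) P := by
    apply hsP.sub
    unfold q
    exact ((((hXi 0).mul (hNi 0)).neg.add ((hXi 1).mul (hNi 1))).add ((hXi 2).mul (hNi 2))).sub
      ((hXi 3).mul (hNi 3))
  have htr : ∀ N ∈ Dual2 S, ∀ y ∈ H2, ∃ N' ∈ Dual2 S, ∃ y' ∈ S.F,
      q (S.m.X y') N' = q (S.m.X y) N ∧ S.sm y' = S.sm y := by
    intro N hN y hy
    obtain ⟨g, hg, hgF⟩ := S.F_cov y hy
    exact ⟨g.2 N, Dual_G2 S hN hg, g.1 y, hgF, by rw [S.G_Xm g hg y hy, S.G_q g hg],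
      S.G_sm g hg y hy⟩
  have hne : P.Nonempty := by
    obtain ⟨N, hN, y, hy, h1⟩ := exists_sep2 S
    obtain ⟨N', hN', y', hy', h2, -⟩ := htr N hN y hy
    refine ⟨(N', y'), hN', hy', ?_⟩
    show -1 ≤ q (S.m.X y') N'
    rw [h2]
    linarith
  obtain ⟨p, hp, hmin⟩ := hK.exists_isMinOn hne hf
  have hlow : q (S.m.X p.2) p.1 ≤ S.sm p.2 := lower2 S hp.1 (S.F_sub hp.2.1)
  rcases hlow.eq_or_lt with h | h
  · exact Or.inl ⟨p.1, hp.1, p.2, S.F_sub hp.2.1, h⟩
  · right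
    refine ⟨min (S.sm p.2 - q (S.m.X p.2) p.1) 1, lt_min (by linarith) one_pos, ?_⟩
    intro N hN y hy
    obtain ⟨N', hN', y', hy', h2, h3⟩ := htr N hN y hy
    rcases le_or_gt (-1) (q (S.m.X y') N') with h4 | h4
    · have h5 : S.sm p.2 - q (S.m.X p.2) p.1 ≤ S.sm y' - q (S.m.X y') N' :=
        hmin (show (N', y') ∈ P from ⟨hN', hy', h4⟩)
      have h6 := min_le_left (S.sm p.2 - q (S.m.X p.2) p.1) 1
      rw [h2, h3] at h5
      linarith
    · have h5 := S.sm_pos y hy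
      have h6 := min_le_right (S.sm p.2 - q (S.m.X p.2) p.1) 1
      rw [h2] at h4
      linarith

end A_dich2

alias dich2 := A_dich2.dich2

end Helper935.AdS
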