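import Pool.Agent.Helper935_AdS.LamE

namespace Helper935.AdS

namespace A_upper2

/- Proof:
Write u(N',y) = -q (Xp y) N' >= 0. Suppose u(N,x) < sp x (<= 1). Let P = {(N',xi',y) : N' in Dual2, xi' in Lam2, |xi'| = 1, q xi' N' = 0, y in F, u(N',y) <= 1}; compact (closed subset of the product of the second compact set of Dual_cpt2 with C = 1 and the unit sphere; Lam2 with |xi'| = 1 is a closed condition). f = u(N',y) - sp y is continuous on P (heights). P contains the translate of (N, xi/|xi|, x) (g.2 N, g.2 xi/|g.2 xi|, g.1 x), where f < 0 [sp <= 1 from cp^2+sp^2=1]. Let (N1,xi1,y1) minimise f on P: f1 < 0. For all y' in H2: u(N1,y') - sp y' >= f1: if u(N1,y') <= 1 translate into P; otherwise u - sp > 0.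
So q (Xp y') N1 - q (p0.X y') EE = -u + sp (heights) is maximal at y1: extD2 with (S.p, S.p0, S.iso_p), Z = N1, Z0 = EE: gradients agree, and for unit v: -g u + II n <= -g s + II0 n0, with u, n = q (Np y1) N1, s = sp y1, n0 = q (p0.N y1) EE > 0. I.e. (s - u) g + n II <= n0 II0, where s - u > 0 and n > 0 by pos_n2 (u < s <= 1 so u < 1; s<1 as cp > 0). detD2 applied to the pair (S.p0, S.p) (Iso is symmetric: all three fields by symmetry), alpha = n0, beta = n: n^2 < n0^2. normD2: n^2 - n0^2 = s^2 - u^2 > 0. Contradiction.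
-/
theorem upper2_contq : Continuous fun p : V4 × V4 => q p.1 p.2 := by
  unfold q
  fun_prop

theorem upper2 (S : Setup2) {N : V4} (hN : N ∈ Dual2 S) {ξ : V4} (hξ : ξ ∈ Lam2 S) (h0 : q ξ N = 0)
    {x : V3} (hx : x ∈ H2) : S.sp x ≤ -q (S.p.X x) N := by
  by_contra hcon
  push Not at hcon
  obtain ⟨hts, ⟨-, hspc, -, -⟩, -⟩ := heights S
  have hsp1 : ∀ y ∈ H2, S.sp y < 1 := by
    intro y hy
    have h1 := (hts y hy).2.2.2
    have h2 := S.cp_pos y hy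
    have h3 := S.sp_pos y hy
    nlinarith
  let K : Set (V4 × V3) := {p : V4 × V3 | p.1 ∈ Dual2 S ∧ p.2 ∈ S.F ∧ -1 ≤ q (S.p.X p.2) p.1}
  have hK : IsCompact K := (Dual_cpt2 S 1).2
  let C : Set ((V4 × V3) × V4) := {p | q p.2 p.2 = 0 ∧ (∀ x ∈ H2,
    q (S.m.X x) p.2 ≤ 0 ∧ q (S.m.N x) p.2 ≤ 0 ∧ q (S.p.X x) p.2 ≤ 0 ∧ q (S.p.N x) p.2 ≤ 0) ∧
      q p.2 p.1.1 = 0}
  have hC : IsClosed C := by
    have c1 : ∀ A : V4, Continuous fun p : (V4 × V3) × V4 => q A p.2 := fun A =>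
      upper2_contq.comp (continuous_const.prodMk continuous_snd)
    have c2 : Continuous fun p : (V4 × V3) × V4 => q p.2 p.2 :=
      upper2_contq.comp (continuous_snd.prodMk continuous_snd)
    have c3 : Continuous fun p : (V4 × V3) × V4 => q p.2 p.1.1 :=
      upper2_contq.comp (continuous_snd.prodMk (continuous_fst.comp continuous_fst))
    have e : C = {p | q p.2 p.2 = 0} ∩ ((⋂ x ∈ H2,
        ({p | q (S.m.X x) p.2 ≤ 0} ∩ ({p | q (S.m.N x) p.2 ≤ 0} ∩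
          ({p | q (S.p.X x) p.2 ≤ 0} ∩ {p | q (S.p.N x) p.2 ≤ 0})))) ∩ {p | q p.2 p.1.1 = 0}) := by
      ext p
      simp only [C, Set.mem_setOf_eq, Set.mem_inter_iff, Set.mem_iInter]
    rw [e]
    refine IsClosed.inter (isClosed_eq c2 continuous_const) (IsClosed.inter ?_
      (isClosed_eq c3 continuous_const))
    refine isClosed_biInter fun x _ => ?_
    exact (isClosed_le (c1 _) continuous_const).inter ((isClosed_le (c1 _) continuous_const).inter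
      ((isClosed_le (c1 _) continuous_const).inter (isClosed_le (c1 _) continuous_const)))
  let P : Set ((V4 × V3) × V4) := (K ×ˢ Metric.sphere (0 : V4) 1) ∩ C
  have hP : IsCompact P := (hK.prod (isCompact_sphere 0 1)).inter_right hC
  let f : (V4 × V3) × V4 → ℝ := fun p => -q (S.p.X p.1.2) p.1.1 - S.sp p.1.2
  have hf : ContinuousOn f P := by
    have m : Set.MapsTo (fun p : (V4 × V3) × V4 => p.1.2) P H2 := by
      rintro p ⟨⟨hp, -⟩, -⟩
      exact S.F_sub hp.2.1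
    have c0 : ContinuousOn (fun p : (V4 × V3) × V4 => p.1.2) P :=
      (continuous_snd.comp continuous_fst).continuousOn
    have c1 : ContinuousOn (fun p : (V4 × V3) × V4 => S.p.X p.1.2) P :=
      S.gp.core.contX.comp c0 m
    have c2 : ContinuousOn (fun p : (V4 × V3) × V4 => S.sp p.1.2) P := hspc.comp c0 m
    have c3 : ContinuousOn (fun p : (V4 × V3) × V4 => q (S.p.X p.1.2) p.1.1) P :=
      upper2_contq.comp_continuousOn (c1.prodMk (continuous_fst.comp continuous_fst).continuousOn)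
    exact c3.neg.sub c2
  have key : ∀ N' ∈ Dual2 S, ∀ ξ' ∈ Lam2 S, q ξ' N' = 0 → ∀ y ∈ H2, -q (S.p.X y) N' ≤ 1 →
      ∃ p ∈ P, f p = -q (S.p.X y) N' - S.sp y := by
    intro N' hN' ξ' hξ' h' y hy hu
    obtain ⟨g, hg, hgF⟩ := S.F_cov y hy
    have hl := Lam_G2 S hξ' hg
    have hnorm : 0 < ‖g.2 ξ'‖ := norm_pos_iff.2 hl.1
    have hl2 := Lam_smul2 S hl (inv_pos.2 hnorm)
    have hqe : q (S.p.X (g.1 y)) (g.2 N') = q (S.p.X y) N' := by
      rw [S.G_Xp g hg y hy, S.G_q g hg]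
    refine ⟨((g.2 N', g.1 y), ‖g.2 ξ'‖⁻¹ • g.2 ξ'), ⟨⟨⟨?_, hgF, ?_⟩, ?_⟩, hl2.2.1, hl2.2.2, ?_⟩, ?_⟩
    · exact Dual_G2 S hN' hg
    · simp only
      rw [hqe]; linarith
    · rw [mem_sphere_zero_iff_norm, norm_smul, norm_inv, norm_norm]
      exact inv_mul_cancel₀ hnorm.ne'
    · have : q (‖g.2 ξ'‖⁻¹ • g.2 ξ') (g.2 N') = ‖g.2 ξ'‖⁻¹ * q (g.2 ξ') (g.2 N') := by
        simp only [q, Pi.smul_apply, smul_eq_mul]; ring
      simp only
      rw [this, S.G_q g hg, h', mul_zero]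
    · simp only [f]
      rw [hqe, S.G_sp g hg y hy]
  obtain ⟨p0, hp0, hfp0⟩ := key N hN ξ hξ h0 x hx (by linarith [hsp1 x hx])
  obtain ⟨p1, hp1, hmin⟩ := hP.exists_isMinOn ⟨p0, hp0⟩ hf
  have hf1 : f p1 < 0 := by
    have := hmin hp0
    simp only [Set.mem_setOf_eq] at this
    linarith
  obtain ⟨⟨N1, y1⟩, ξ1⟩ := p1
  obtain ⟨⟨⟨hN1, hy1F, hu1⟩, hs1⟩, hq1, hq2, hq3⟩ := hp1
  simp only at hN1 hy1F hu1 hs1 hq1 hq2 hq3
  have hy1 : y1 ∈ H2 := S.F_sub hy1F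
  have hξ1 : ξ1 ∈ Lam2 S := by
    refine ⟨?_, hq1, hq2⟩
    rintro rfl
    simp at hs1
  have hf1' : -q (S.p.X y1) N1 - S.sp y1 < 0 := hf1
  have hmax : ∀ y ∈ H2, q (S.p.X y) N1 - q (S.p0.X y) EE ≤ q (S.p.X y1) N1 - q (S.p0.X y1) EE := by
    intro y hy
    rw [(hts y hy).2.1, (hts y1 hy1).2.1]
    by_cases hu : -q (S.p.X y) N1 ≤ 1
    · obtain ⟨p2, hp2, hfp2⟩ := key N1 hN1 ξ1 hξ1 hq3 y hy hu
      have h1 := hmin hp2
      simp only [Set.mem_setOf_eq] at h1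
      rw [hfp2] at h1
      have h2 : -q (S.p.X y1) N1 - S.sp y1 ≤ -q (S.p.X y) N1 - S.sp y := h1
      linarith
    · push Not at hu
      have := hsp1 y hy
      linarith
  obtain ⟨hgrad, hhess⟩ := extD2 S.gp.core S.gp0.core S.iso_p hy1 hmax
  have hiso : Iso S.p0 S.p := by
    refine ⟨fun x hx v w hv hw => (S.iso_p.metric x hx v w hv hw).symm,
      fun x hx v w hv hw => (S.iso_p.tang x hx v w hv hw).symm,
      fun x hx v w hv hw => (S.iso_p.det x hx v w hv hw).symm⟩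
  have hu_lt : -q (S.p.X y1) N1 < 1 := by linarith [hsp1 y1 hy1]
  have hn := pos_n2 S hN1 hξ1 hq3 hy1 hu_lt
  have hdet := detD2 S.gp0.core S.gp.core hiso hy1 (α := q (S.p0.N y1) EE) (β := q (S.p.N y1) N1)
    (l := S.sp y1 + q (S.p.X y1) N1) hn (by linarith) (by
      intro v hv
      have h1 := hhess v hv
      have h2 := S.iso_p.metric y1 hy1 v v hv.1 hv.1
      rw [(hts y1 hy1).2.1] at h1
      rw [← h2]
      nlinarith)
  have hEE : q EE EE = -1 := by simp [q, EE]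
  have hnorm := normD2 S.gp.core S.gp0.core S.iso_p hy1 (Z := N1) (Z₀ := EE)
    (by rw [hN1.1, hEE]) hgrad
  rw [(hts y1 hy1).2.1] at hnorm
  have hun : q (S.p.X y1) N1 ≤ 0 := hN1.2 y1 hy1
  nlinarith

end A_upper2

alias upper2 := A_upper2.upper2

namespace A_vertical2

theorem vertical2_qadd (X Y Z : V4) : q X (Y + Z) = q X Y + q X Z := by
  simp only [q, Pi.add_apply]; ring

theorem vertical2_qsmul (X Y : V4) (t : ℝ) : q X (t • Y) = t * q X Y := by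
  simp only [q, Pi.smul_apply, smul_eq_mul]; ring

theorem vertical2_qsymm (X Y : V4) : q X Y = q Y X := by
  simp only [q]; ring

theorem vertical2_cont {N : V3 → V4} (hN : ContinuousOn N H2) (Z : V4) :
    ContinuousOn (fun x => q (N x) Z) H2 := by
  have h : ∀ i : Fin 4, ContinuousOn (fun x => N x i) H2 := fun i =>
    (continuous_apply i).comp_continuousOn hN
  unfold q
  exact (((h 0).mul_const _).neg.add ((h 1).mul_const _)).add ((h 2).mul_const _) |>.sub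
    ((h 3).mul_const _)



/- Proof:
(gamma = xi1+xi2.) Let k(x) = -q (Np x) gamma > 0, n(x) = q (Np x) N. (a) n(x) <= 1: the vector N + Np x satisfies q (Xp x') (N + Np x) <= 0 for x' in H2 (Dual2, S.gp.supp), so nonspacelike2 gives -1 + 2 n - 1 <= 0. (b) by np_pos2 some xb has n(xb) > 0; R0 = k(xb)/n(xb). (c) K0 = {x in H2 : k(x) <= R0 n(x)} is nonempty, closed, and k <= R0 on it, so bounded by f_proper2, so compact; on K0 n > 0 because k > 0. Let x minimise k/n on K0, t = k(x)/n(x) > 0. For every x' in H2: k(x') - t n(x') >= 0 (if n(x') <= 0 clear; if x' in K0 by minimality; else k(x') > R0 n(x') >= t n(x')). So q (Np .)(gamma + t N) <= 0 on H2 with equality at x; contactN2: gamma + t N = lam Xp x with lam = -q (Xp x)(gamma + t N) > 0 and lam^2 = -q(gamma+tN)(gamma+tN) = 1 + t^2.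
-/
theorem vertical2 (S : Setup2) {N : V4} (hN : N ∈ Dual2 S) {ξ₁ ξ₂ : V4} (h₁ : ξ₁ ∈ Lam2 S) (h₂ : ξ₂ ∈ Lam2 S)
    (h : q ξ₁ ξ₂ = -1/2) (h1N : q ξ₁ N = 0) (h2N : q ξ₂ N = 0) :
    ∃ x ∈ H2, ∃ t : ℝ, 0 < t ∧ ξ₁ + ξ₂ + t • N = Real.sqrt (1 + t ^ 2) • S.p.X x := by
  obtain ⟨hNN, hNX⟩ := hN
  set γ : V4 := ξ₁ + ξ₂ with hγ
  have hk : ∀ x ∈ H2, 0 < -q (S.p.N x) γ := by
    intro x hx
    have e1 := (Lam_strict2 S h₁ hx).2.2.2
    have e2 := (Lam_strict2 S h₂ hx).2.2.2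
    rw [hγ, vertical2_qadd]
    linarith
  have hkX : ∀ x ∈ H2, q (S.p.X x) γ < 0 := by
    intro x hx
    have e1 := (Lam_strict2 S h₁ hx).2.2.1
    have e2 := (Lam_strict2 S h₂ hx).2.2.1
    rw [hγ, vertical2_qadd]
    linarith
  have hn1 : ∀ x ∈ H2, q (S.p.N x) N ≤ 1 := by
    intro x hx
    have e := nonspacelike2 S.gp (Z := N + S.p.N x) (fun x' hx' => by
      rw [vertical2_qadd]
      have e1 := hNX x' hx'
      have e2 := S.gp.supp x hx x' hx'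
      rw [vertical2_qsymm] at e2
      linarith)
    have e3 : q (N + S.p.N x) (N + S.p.N x) = q N N + 2 * q (S.p.N x) N + q (S.p.N x) (S.p.N x) := by
      simp only [q, Pi.add_apply]; ring
    rw [e3, hNN, S.gp.core.NN x hx] at e
    linarith
  obtain ⟨xb, hxb, hnb⟩ := np_pos2 S ⟨hNN, hNX⟩ h₁ h1N
  set R0 : ℝ := -q (S.p.N xb) γ / q (S.p.N xb) N with hR0
  have hR0p : 0 < R0 := div_pos (hk xb hxb) hnb
  have hx0 : (![1, 0, 0] : V3) ∈ H2 := by
    refine ⟨?_, ?_⟩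
    · simp [eta]
    · simp
  obtain ⟨R', hR'⟩ := f_proper2 S h₁ h₂ h hx0 R0
  set T : Set V3 := {x | x ∈ H2 ∧ -eta (![1, 0, 0] : V3) x ≤ R'} with hT
  have hTc : IsCompact T := H2_ball hx0 R'
  have hTs : T ⊆ H2 := fun x hx => hx.1
  have hcn : ContinuousOn (fun x => q (S.p.N x) N) H2 := vertical2_cont S.gp.core.contN N
  have hck : ContinuousOn (fun x => -q (S.p.N x) γ) H2 := (vertical2_cont S.gp.core.contN γ).neg
  set K0 : Set V3 := T ∩ (fun x => -q (S.p.N x) γ - R0 * q (S.p.N x) N) ⁻¹' Set.Iic 0 with hK0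
  have hK0c : IsCompact K0 := by
    refine hTc.of_isClosed_subset ?_ Set.inter_subset_left
    exact ((hck.sub (hcn.const_mul R0)).mono hTs).preimage_isClosed_of_isClosed hTc.isClosed
      isClosed_Iic
  have hK0mem : ∀ x ∈ H2, -q (S.p.N x) γ ≤ R0 * q (S.p.N x) N → x ∈ K0 := by
    intro x hx hle
    refine ⟨⟨hx, hR' x hx (Or.inr (Or.inr ?_))⟩, ?_⟩
    · have : R0 * q (S.p.N x) N ≤ R0 := by
        have := mul_le_mul_of_nonneg_left (hn1 x hx) hR0p.le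
        linarith
      linarith
    · show -q (S.p.N x) γ - R0 * q (S.p.N x) N ≤ 0
      linarith
  have hxbK : xb ∈ K0 := by
    refine hK0mem xb hxb ?_
    rw [hR0, div_mul_cancel₀ _ hnb.ne']
  have hnpos : ∀ x ∈ K0, 0 < q (S.p.N x) N := by
    rintro x ⟨hxT, hx0⟩
    have hx0' : -q (S.p.N x) γ - R0 * q (S.p.N x) N ≤ 0 := hx0
    have := hk x (hTs hxT)
    by_contra hcon
    have h3 : R0 * q (S.p.N x) N ≤ 0 := mul_nonpos_of_nonneg_of_nonpos hR0p.le (not_lt.1 hcon)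
    linarith
  have hK0s : K0 ⊆ H2 := fun x hx => hTs hx.1
  obtain ⟨x, hxK, hmin⟩ := hK0c.exists_isMinOn ⟨xb, hxbK⟩
    ((hck.mono hK0s).div (hcn.mono hK0s) (fun x hx => (hnpos x hx).ne'))
  have hxH : x ∈ H2 := hK0s hxK
  have hnx := hnpos x hxK
  set t : ℝ := -q (S.p.N x) γ / q (S.p.N x) N with ht
  have htp : 0 < t := div_pos (hk x hxH) hnx
  have htR : t ≤ R0 := by
    have hx0' : -q (S.p.N x) γ - R0 * q (S.p.N x) N ≤ 0 := hxK.2
    rw [ht, div_le_iff₀ hnx]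
    linarith
  have hall : ∀ x' ∈ H2, q (S.p.N x') (γ + t • N) ≤ 0 := by
    intro x' hx'
    rw [vertical2_qadd, vertical2_qsmul]
    have hk' := hk x' hx'
    rcases le_or_gt (q (S.p.N x') N) 0 with hle | hgt
    · have := mul_nonpos_of_nonneg_of_nonpos htp.le hle
      linarith
    · by_cases hxK' : x' ∈ K0
      · have h5 : t ≤ -q (S.p.N x') γ / q (S.p.N x') N := hmin hxK'
        rw [le_div_iff₀ hgt] at h5
        linarith
      · have h6 : R0 * q (S.p.N x') N < -q (S.p.N x') γ := by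
          by_contra hcon
          exact hxK' (hK0mem x' hx' (not_lt.1 hcon))
        have h7 := mul_le_mul_of_nonneg_right htR hgt.le
        linarith
  have heq : q (S.p.N x) (γ + t • N) = 0 := by
    rw [vertical2_qadd, vertical2_qsmul, ht, div_mul_cancel₀ _ hnx.ne']
    ring
  have hZ := contactN2 S.gp.core hall hxH heq
  set lam : ℝ := -(q (S.p.X x) (γ + t • N)) with hlam
  have hlamp : 0 < lam := by
    rw [hlam, vertical2_qadd, vertical2_qsmul]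
    have e1 := hkX x hxH
    have e2 := mul_nonpos_of_nonneg_of_nonpos htp.le (hNX x hxH)
    linarith
  have hq1 : q (γ + t • N) (γ + t • N) = -(1 + t ^ 2) := by
    have e1 : q (γ + t • N) (γ + t • N) = q ξ₁ ξ₁ + q ξ₂ ξ₂ + 2 * q ξ₁ ξ₂ +
        2 * t * (q ξ₁ N + q ξ₂ N) + t ^ 2 * q N N := by
      rw [hγ]
      simp only [q, Pi.add_apply, Pi.smul_apply, smul_eq_mul]; ring
    rw [e1, h₁.2.1, h₂.2.1, h, h1N, h2N, hNN]
    ring
  have hq2 : q (lam • S.p.X x) (lam • S.p.X x) = -lam ^ 2 := by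
    have e1 : q (lam • S.p.X x) (lam • S.p.X x) = lam ^ 2 * q (S.p.X x) (S.p.X x) := by
      simp only [q, Pi.smul_apply, smul_eq_mul]; ring
    rw [e1, S.gp.core.XX x hxH]
    ring
  have hsq : lam ^ 2 = 1 + t ^ 2 := by
    rw [← hZ, hq1] at hq2
    linarith
  have hsqrt : Real.sqrt (1 + t ^ 2) = lam := by
    rw [← hsq, Real.sqrt_sq hlamp.le]
  refine ⟨x, hxH, t, htp, ?_⟩
  rw [hsqrt]
  exact hZ

end A_vertical2

alias vertical2 := A_vertical2.vertical2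

namespace A_foot_m2

/- Proof:
gamma = xi1 + xi2, f(y) = -q (Xm y) gamma is continuous with compact sublevel sets (f_proper2, H2_ball), let y minimise f over H2. extX2 (Z = gamma) and decomp2: gamma = f Xm y + k Nm y, with f = -q (Xm y) gamma > 0, k = -q (Nm y) gamma > 0 and f^2 + k^2 = 1 so f <= 1. 0 = q gamma N = f q (Xm y) N + k q (Nm y) N; as q (Nm y) N < 0 (hypothesis) q (Xm y) N >= 0.
-/
theorem foot_m2 (S : Setup2) {N : V4} (hneg : ∀ y ∈ H2, q (S.m.N y) N < 0) {ξ₁ ξ₂ : V4}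
    (h₁ : ξ₁ ∈ Lam2 S) (h₂ : ξ₂ ∈ Lam2 S)
    (h : q ξ₁ ξ₂ = -1/2) (h1N : q ξ₁ N = 0) (h2N : q ξ₂ N = 0) :
    ∃ y ∈ H2, 0 ≤ q (S.m.X y) N ∧ -q (S.m.X y) (ξ₁ + ξ₂) ≤ 1 := by
  have qaddr : ∀ A B C : V4, q A (B + C) = q A B + q A C := by
    intro A B C; simp only [q, Pi.add_apply]; ring
  have qcont : ∀ Z : V4, Continuous (fun A : V4 => q A Z) := by
    intro Z; unfold q; fun_prop
  set x₀ : V3 := ![1, 0, 0] with hx0def
  have hx₀ : x₀ ∈ H2 := by
    simp [H2, eta, hx0def]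
  obtain ⟨R', hR'⟩ := f_proper2 S h₁ h₂ h hx₀ (-q (S.m.X x₀) (ξ₁ + ξ₂))
  have hK := H2_ball hx₀ R'
  have hx₀K : x₀ ∈ {x | x ∈ H2 ∧ -eta x₀ x ≤ R'} := ⟨hx₀, hR' x₀ hx₀ (Or.inr (Or.inl le_rfl))⟩
  have hcont : ContinuousOn (fun x => -q (S.m.X x) (ξ₁ + ξ₂)) {x | x ∈ H2 ∧ -eta x₀ x ≤ R'} := by
    have h1 : ContinuousOn (fun x => q (S.m.X x) (ξ₁ + ξ₂)) H2 :=
      (qcont (ξ₁ + ξ₂)).comp_continuousOn S.gm.core.contX
    exact (h1.neg).mono (fun x hx => hx.1)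
  obtain ⟨y, hyK, hymin⟩ := hK.exists_isMinOn ⟨x₀, hx₀K⟩ hcont
  have hy : y ∈ H2 := hyK.1
  have hmax : ∀ x ∈ H2, q (S.m.X x) (ξ₁ + ξ₂) ≤ q (S.m.X y) (ξ₁ + ξ₂) := by
    intro x hx
    by_cases hxK : -eta x₀ x ≤ R'
    · have h1 := isMinOn_iff.mp hymin x ⟨hx, hxK⟩
      linarith
    · have h1 : ¬ (-q (S.m.X x) (ξ₁ + ξ₂) ≤ -q (S.m.X x₀) (ξ₁ + ξ₂)) := fun h2 =>
        hxK (hR' x hx (Or.inr (Or.inl h2)))
      have h2 := isMinOn_iff.mp hymin x₀ hx₀K
      push Not at h1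
      linarith
  have hdec := decomp2 S.gm.core hy (Z := ξ₁ + ξ₂) (fun v hv => (extX2 S.gm.core hy hmax).1 v hv)
  obtain ⟨l1, l2, -, -⟩ := Lam_strict2 S h₁ hy
  obtain ⟨m1, m2, -, -⟩ := Lam_strict2 S h₂ hy
  have hXX := S.gm.core.XX y hy
  have hNN := S.gm.core.NN y hy
  have hNX := S.gm.core.NX y hy
  set f : ℝ := -(q (S.m.X y) (ξ₁ + ξ₂)) with hf
  set k : ℝ := -(q (S.m.N y) (ξ₁ + ξ₂)) with hk
  have hf0 : 0 < f := by rw [hf, qaddr]; linarith
  have hk0 : 0 < k := by rw [hk, qaddr]; linarith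
  have e1 : q (ξ₁ + ξ₂) (ξ₁ + ξ₂) = -1 := by
    have a1 := h₁.2.1
    have a2 := h₂.2.1
    have a3 : q (ξ₁ + ξ₂) (ξ₁ + ξ₂) = q ξ₁ ξ₁ + 2 * q ξ₁ ξ₂ + q ξ₂ ξ₂ := by
      simp only [q, Pi.add_apply]; ring
    rw [a3, a1, a2, h]; norm_num
  have e2 : q (f • S.m.X y + k • S.m.N y) (f • S.m.X y + k • S.m.N y) =
      f ^ 2 * q (S.m.X y) (S.m.X y) + 2 * f * k * q (S.m.N y) (S.m.X y) +
        k ^ 2 * q (S.m.N y) (S.m.N y) := by
    simp only [q, Pi.add_apply, Pi.smul_apply, smul_eq_mul]; ring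
  have e3 : f ^ 2 + k ^ 2 = 1 := by
    rw [← hdec, e1, hXX, hNN, hNX] at e2
    linarith
  have e4 : q (ξ₁ + ξ₂) N = 0 := by
    have a3 : q (ξ₁ + ξ₂) N = q ξ₁ N + q ξ₂ N := by
      simp only [q, Pi.add_apply]; ring
    rw [a3, h1N, h2N]; norm_num
  have e5 : q (f • S.m.X y + k • S.m.N y) N = f * q (S.m.X y) N + k * q (S.m.N y) N := by
    simp only [q, Pi.add_apply, Pi.smul_apply, smul_eq_mul]; ring
  rw [← hdec, e4] at e5
  refine ⟨y, hy, ?_, ?_⟩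
  · have h6 := hneg y hy
    have h7 : 0 < f * q (S.m.X y) N := by nlinarith
    exact (pos_of_mul_pos_right h7 hf0.le).le
  · nlinarith

end A_foot_m2

alias foot_m2 := A_foot_m2.foot_m2

end Helper935.AdS
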