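import Pool.Agent.Helper935_AdS.Comp
import Pool.Agent.Helper935_AdS.LamC

namespace Helper935.AdS

namespace A_minus2

theorem mi_q_neg_left (X Z : V4) : q (-X) Z = - q X Z := by
  simp only [q, Pi.neg_apply]; ring

theorem mi_q_comm (X Z : V4) : q X Z = q Z X := by
  simp only [q]; ring

theorem mi_arcosh {r : ℝ} (hr : 1 ≤ r) : ∃ T : ℝ, 0 ≤ T ∧ Real.cosh T = r := by
  refine ⟨Real.arsinh (Real.sqrt (r ^ 2 - 1)), ?_, ?_⟩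
  · rw [Real.arsinh_nonneg_iff]; exact Real.sqrt_nonneg _
  · rw [Real.cosh_arsinh, Real.sq_sqrt (by nlinarith)]
    have : 1 + (r ^ 2 - 1) = r ^ 2 := by ring
    rw [this, Real.sqrt_sq (by linarith)]

theorem mi_tau {v s c : ℝ} (hv : 0 ≤ v) (hvs : v < s) (hc : 0 < c) (h : c ^ 2 + s ^ 2 = 1) :
    ∃ τ : ℝ, 0 ≤ τ ∧ Real.sinh τ = Real.cosh τ * v ∧ Real.cosh τ ≤ 1 / c := by
  have h1 : c ^ 2 ≤ 1 - v ^ 2 := by nlinarith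
  have h2 : 0 < 1 - v ^ 2 := by nlinarith [pow_pos hc 2]
  set R := Real.sqrt (1 - v ^ 2) with hR
  have hR0 : 0 < R := Real.sqrt_pos.2 h2
  have hRR : R ^ 2 = 1 - v ^ 2 := Real.sq_sqrt h2.le
  have hcR : c ≤ R := Real.le_sqrt_of_sq_le h1
  have hch : Real.cosh (Real.arsinh (v / R)) = 1 / R := by
    rw [Real.cosh_arsinh]
    have : 1 + (v / R) ^ 2 = (1 / R) ^ 2 := by
      field_simp; rw [hRR]; ring
    rw [this, Real.sqrt_sq (by positivity)]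
  refine ⟨Real.arsinh (v / R), ?_, ?_, ?_⟩
  · rw [Real.arsinh_nonneg_iff]; positivity
  · rw [hch, Real.sinh_arsinh]; ring
  · rw [hch]; exact one_div_le_one_div_of_le hc hcR

theorem ma_adm {sh ch sm qq e ε : ℝ} (h : sh = sm * ch - e) (h1 : qq ≤ sm - ε) (h2 : 1 ≤ ch)
    (hε : 0 < ε) (heε : e ≤ ε) : 0 ≤ sh - ch * qq := by
  have h3 := mul_le_mul_of_nonneg_left h1 (by linarith : 0 ≤ ch)
  have h4 := mul_le_mul_of_nonneg_left h2 hε.le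
  rw [h]
  linarith

theorem ma_es {e s₁ : ℝ} (he : 0 < e) (hs : 0 < s₁) (hes : e ≤ s₁ / 2) (h1 : s₁ ≤ 1) :
    e * s₁ ≤ 1 / 2 := by
  have := mul_le_mul_of_nonneg_left h1 he.le
  linarith

theorem ma_th {x : ℝ} (h0 : 0 < x) (h1 : x ≤ 1 / 2) :
    ∃ th : ℝ, 0 < th ∧ th < 1 ∧ th ^ 2 = 1 - x := by
  refine ⟨Real.sqrt (1 - x), Real.sqrt_pos.2 (by linarith), ?_, Real.sq_sqrt (by linarith)⟩
  rw [Real.sqrt_lt' one_pos]; linarith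

theorem ma_k {sh ch sm e s₁ : ℝ} (h : sh = sm * ch - e) (hc : 1 ≤ ch) (hs : 0 < s₁) (h1 : s₁ ≤ sm)
    (he : 0 < e) (hes : e ≤ s₁ / 2) : 1 - 2 * e * sh - e ^ 2 ≤ 1 - e * s₁ := by
  have h2 := mul_le_mul_of_nonneg_left hc (by linarith : 0 ≤ sm)
  have h4 : s₁ / 2 ≤ sh := by rw [h]; linarith
  have h5 := mul_le_mul_of_nonneg_left h4 he.le
  have h6 := sq_nonneg e
  linarith

theorem ma_we {a b t c : ℝ} (ha : a ^ 2 ≤ t) (hb : b ^ 2 ≤ t) (hc : 1 ≤ c) :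
    a * b * c - (a ^ 2 + b ^ 2) / 2 ≤ t * (c - 1) := by
  have h0 := sq_nonneg (a - b)
  have h1 : (a - b) ^ 2 = a ^ 2 + b ^ 2 - 2 * (a * b) := by ring
  rw [h1] at h0
  have h5 : a * b ≤ t := by linarith
  have h7 := mul_le_mul_of_nonneg_right h5 (by linarith : 0 ≤ c - 1)
  have h8 : a * b * (c - 1) = a * b * c - a * b := by ring
  rw [h8] at h7
  linarith

theorem ma_theta {th : ℝ} (h0 : 0 < th) (h1 : th < 1) : ∃ η : ℝ, 0 < η ∧ η ≤ 1 ∧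
    (1 + η) ^ 3 * th < 1 := by
  refine ⟨(1 - th) / 8, by linarith, by linarith, ?_⟩
  set η := (1 - th) / 8 with hηdef
  have hη : 0 < η := by rw [hηdef]; linarith
  have hη1 : η ≤ 1 := by rw [hηdef]; linarith
  have h1 : (1 + η) ^ 3 ≤ 1 + 7 * η := by
    nlinarith [mul_nonneg hη.le (by linarith : 0 ≤ 1 - η), sq_nonneg η]
  have h2 : (1 + η) ^ 3 * th ≤ (1 + 7 * η) * th := mul_le_mul_of_nonneg_right h1 h0.le
  have h3 : (1 + 7 * η) * th < 1 := by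
    have h4 : η * th < η * 1 := mul_lt_mul_of_pos_left (by linarith) hη
    have h8 : 8 * η = 1 - th := by rw [hηdef]; ring
    have h9 : (1 + 7 * η) * th = th + 7 * (η * th) := by ring
    rw [h9]
    linarith
  linarith

theorem ma_B {s₁ : ℝ} (hs : 0 < s₁) : ∃ B : ℝ, 0 ≤ B ∧ (∀ τ : ℝ, 0 ≤ τ → Real.cosh τ ≤ 1 / s₁ → τ ≤ B) := by
  refine ⟨Real.arsinh (1 / s₁), ?_, ?_⟩
  · rw [Real.arsinh_nonneg_iff]; positivity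
  · intro τ hτ h
    have hB : 0 ≤ Real.arsinh (1 / s₁) := by rw [Real.arsinh_nonneg_iff]; positivity
    have hBc : 1 / s₁ ≤ Real.cosh (Real.arsinh (1 / s₁)) := by
      rw [Real.cosh_arsinh]
      apply Real.le_sqrt_of_sq_le
      linarith
    have := Real.cosh_le_cosh.1 (h.trans hBc)
    rwa [abs_of_nonneg hτ, abs_of_nonneg hB] at this

/-- choice of the step length -/
theorem ma_step {η th δ₁ δ₂ D' : ℝ} (hη : 0 < η) (hη1 : η ≤ 1) (hth0 : 0 < th) (hth1 : th < 1)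
    (hδ₁ : 0 < δ₁) (hδ₂ : 0 < δ₂)
    (hsmall : ∀ y : ℝ, 0 ≤ y → y ≤ δ₂ → Real.sqrt (2 * (Real.cosh y - 1)) ≤ (1 + η) * y)
    (hD' : 0 ≤ D') :
    ∃ (M : ℕ) (d A : ℝ), 0 < M ∧ 0 ≤ d ∧ (M : ℝ) * d = D' ∧ th ^ 2 * (Real.cosh d - 1) ≤ δ₁ ∧
      0 ≤ A ∧ A ≤ 1 ∧ (1 + η) * (th ^ 2 * (Real.cosh d - 1)) = A ∧
      (1 + η) * (M * Real.sqrt (2 * A)) ≤ (1 + η) ^ 3 * th * D' := by
  obtain ⟨δ₃, hδ₃, h32, h31, h34⟩ : ∃ δ₃ : ℝ, 0 < δ₃ ∧ δ₃ ≤ δ₂ ∧ δ₃ ≤ δ₁ / 2 ∧ δ₃ ≤ 1 / 4 :=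
    ⟨min δ₂ (min (δ₁ / 2) (1 / 4)), lt_min hδ₂ (lt_min (by linarith) (by norm_num)),
      min_le_left _ _, (min_le_right _ _).trans (min_le_left _ _),
      (min_le_right _ _).trans (min_le_right _ _)⟩
  obtain ⟨M, hM⟩ := exists_nat_gt (max 1 (D' / δ₃))
  have hM1 : (1 : ℝ) < M := (le_max_left _ _).trans_lt hM
  have hM2 : D' / δ₃ < M := (le_max_right _ _).trans_lt hM
  have hM0 : (0 : ℝ) < M := by linarith
  have hMpos : 0 < M := by exact_mod_cast hM0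
  obtain ⟨d, hd0, hMd, hdδ⟩ : ∃ d : ℝ, 0 ≤ d ∧ (M : ℝ) * d = D' ∧ d ≤ δ₃ := by
    refine ⟨D' / M, by positivity, by field_simp, ?_⟩
    rw [div_le_iff₀ hM0]
    rw [div_lt_iff₀ hδ₃] at hM2
    linarith
  have hd2 : d ≤ δ₂ := hdδ.trans h32
  have hd1 : d ≤ δ₁ / 2 := hdδ.trans h31
  have hd4 : d ≤ 1 / 4 := hdδ.trans h34
  have hcd0 : 0 ≤ Real.cosh d - 1 := by linarith [Real.one_le_cosh d]
  have h1η : (0 : ℝ) ≤ 1 + η := by linarith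
  have hcd1 : 2 * (Real.cosh d - 1) ≤ ((1 + η) * d) ^ 2 :=
    (Real.sqrt_le_left (mul_nonneg h1η hd0)).1 (hsmall d hd0 hd2)
  have hcd2 : Real.cosh d - 1 ≤ 2 * d := by
    have h1 : (1 + η) * d ≤ 2 * d := mul_le_mul_of_nonneg_right (by linarith) hd0
    have h2 : ((1 + η) * d) ^ 2 ≤ (2 * d) ^ 2 := pow_le_pow_left₀ (mul_nonneg h1η hd0) h1 2
    have h3 : d * d ≤ 1 / 4 * d := mul_le_mul_of_nonneg_right hd4 hd0
    have h4 : (2 * d) ^ 2 = 4 * (d * d) := by ring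
    rw [h4] at h2
    linarith
  have hthsq : th ^ 2 ≤ 1 := pow_le_one₀ hth0.le hth1.le
  have hthsq0 : 0 ≤ th ^ 2 := sq_nonneg _
  have hw0 : th ^ 2 * (Real.cosh d - 1) ≤ 2 * d := by
    have := mul_le_mul_of_nonneg_right hthsq hcd0
    linarith
  have hw1 : 0 ≤ th ^ 2 * (Real.cosh d - 1) := mul_nonneg hthsq0 hcd0
  have hsqA : Real.sqrt (2 * ((1 + η) * (th ^ 2 * (Real.cosh d - 1)))) ≤
      (1 + η) ^ 2 * th * d := by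
    rw [Real.sqrt_le_left (mul_nonneg (mul_nonneg (sq_nonneg _) hth0.le) hd0)]
    have h1 : 2 * ((1 + η) * (th ^ 2 * (Real.cosh d - 1))) =
        (1 + η) * th ^ 2 * (2 * (Real.cosh d - 1)) := by ring
    rw [h1]
    calc (1 + η) * th ^ 2 * (2 * (Real.cosh d - 1)) ≤ (1 + η) * th ^ 2 * ((1 + η) * d) ^ 2 :=
          mul_le_mul_of_nonneg_left hcd1 (mul_nonneg h1η hthsq0)
      _ ≤ (1 + η) ^ 2 * th ^ 2 * ((1 + η) * d) ^ 2 := by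
          have h2 : (1 + η) ^ 2 = (1 + η) + η * (1 + η) := by ring
          have h4 : 0 ≤ η * (1 + η) := mul_nonneg hη.le h1η
          have h5 : (1 + η) ≤ (1 + η) ^ 2 := by rw [h2]; linarith
          have h3 : (1 + η) * th ^ 2 ≤ (1 + η) ^ 2 * th ^ 2 := mul_le_mul_of_nonneg_right h5 hthsq0
          exact mul_le_mul_of_nonneg_right h3 (sq_nonneg _)
      _ = ((1 + η) ^ 2 * th * d) ^ 2 := by ring
  refine ⟨M, d, (1 + η) * (th ^ 2 * (Real.cosh d - 1)), hMpos, hd0, hMd, by linarith,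
    mul_nonneg h1η hw1, ?_, rfl, ?_⟩
  · have h1 : (1 + η) * (th ^ 2 * (Real.cosh d - 1)) ≤ 2 * (th ^ 2 * (Real.cosh d - 1)) :=
      mul_le_mul_of_nonneg_right (by linarith) hw1
    linarith
  · calc (1 + η) * (M * Real.sqrt (2 * ((1 + η) * (th ^ 2 * (Real.cosh d - 1)))))
        ≤ (1 + η) * (M * ((1 + η) ^ 2 * th * d)) := by
            apply mul_le_mul_of_nonneg_left _ h1η
            exact mul_le_mul_of_nonneg_left hsqA hM0.le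
      _ = (1 + η) ^ 3 * th * (M * d) := by ring
      _ = (1 + η) ^ 3 * th * D' := by rw [hMd]

/-- energy of the lifted path along a geodesic -/
theorem ma_path (S : Setup2) {y₀ u : V3} (hy₀ : y₀ ∈ H2) (hu : UT y₀ u) (tt : V3 → ℝ) {d A r : ℝ}
    (hr : ∀ x ∈ H2, ∀ y ∈ H2, -eta x y = Real.cosh d → WE S.m0 x (tt x) y (tt y) ≤ r)
    {η δ₁ : ℝ} (hη : 0 < η) (hrδ : r ≤ δ₁) (hA : (1 + η) * r = A)
    (hcomp : ∀ x ∈ H2, ∀ y ∈ H2, ∀ t s : ℝ,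
      WE S.m0 x t y s ≤ δ₁ → WE S.m x t y s ≤ (1 + η) * WE S.m0 x t y s) (M : ℕ) :
    En S.m M (fun i : ℕ => (geo y₀ u (i * d), tt (geo y₀ u (i * d)))) ≤ M * A := by
  have hPi : ∀ i : ℕ, geo y₀ u (i * d) ∈ H2 := fun i => geo_mem hy₀ hu _
  have hstep : ∀ i : ℕ, -eta (geo y₀ u (i * d)) (geo y₀ u ((i + 1 : ℕ) * d)) = Real.cosh d := by
    intro i
    have h1 := (geo_add y₀ u (i * d) d).1
    have h2 : ((i + 1 : ℕ) : ℝ) * d = i * d + d := by push_cast; ring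
    rw [h2, ← h1, eta_geo (hPi i) (geo_UT hy₀ hu _)]; ring
  unfold En
  have : ∀ i ∈ Finset.range M, WE S.m (geo y₀ u (i * d)) (tt (geo y₀ u (i * d)))
      (geo y₀ u ((i + 1 : ℕ) * d)) (tt (geo y₀ u ((i + 1 : ℕ) * d))) ≤ A := by
    intro i _
    have h1 := hr _ (hPi i) _ (hPi (i + 1)) (hstep i)
    have h2 := hcomp _ (hPi i) _ (hPi (i + 1)) (tt (geo y₀ u (i * d)))
      (tt (geo y₀ u ((i + 1 : ℕ) * d))) (h1.trans hrδ)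
    refine h2.trans ?_
    rw [← hA]
    exact mul_le_mul_of_nonneg_left h1 (by linarith)
  refine (Finset.sum_le_sum this).trans ?_
  rw [Finset.sum_const, Finset.card_range, nsmul_eq_mul]

/-- the last inequality -/
theorem ma_fin {a₀ a₁ c₀ c₁ T E s₁ C₀ θD : ℝ} (h0 : a₀ < 0) (h1 : a₁ < 0) (hc0 : 0 < c₀)
    (hc0s : c₀ ≤ 1 / s₁) (hc1 : 1 ≤ c₁) (hT : T ≤ θD + C₀) (hE : Real.exp θD = E)
    (h : -(c₁ * a₁) ≤ Real.exp T * -(c₀ * a₀)) :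
    -a₁ ≤ Real.exp C₀ / s₁ * E * -a₀ := by
  have e1 : -a₁ ≤ -(c₁ * a₁) := by
    have := mul_le_mul_of_nonneg_right hc1 (by linarith : 0 ≤ -a₁)
    linarith
  have e3 : Real.exp T ≤ Real.exp (θD + C₀) := Real.exp_le_exp.2 hT
  have e4 : -(c₀ * a₀) ≤ (1 / s₁) * -a₀ := by
    have := mul_le_mul_of_nonneg_right hc0s (by linarith : 0 ≤ -a₀)
    linarith
  have e5 : 0 ≤ -(c₀ * a₀) := by
    have := mul_nonneg hc0.le (by linarith : 0 ≤ -a₀)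
    linarith
  have e6 : Real.exp (θD + C₀) * ((1 / s₁) * -a₀) = Real.exp C₀ / s₁ * E * -a₀ := by
    rw [Real.exp_add, hE]; ring
  have e7 := mul_le_mul e3 e4 e5 (Real.exp_pos _).le
  rw [e6] at e7
  exact e1.trans (h.trans e7)

theorem ma_zz {S : Sf} {V ξ : V4} (h : q V ξ = 0) (y : V3) (t : ℝ) :
    q (zz S V y t) ξ = Real.cosh t * q (S.X y) ξ := by
  have h2 : q (zz S V y t) ξ = Real.cosh t * q (S.X y) ξ - Real.sinh t * q V ξ := by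
    simp only [zz, q, Pi.sub_apply, Pi.smul_apply, smul_eq_mul]; ring
  rw [h2, h]; ring

/-- length of the lifted path -/
theorem ma_len (S : Setup2) {V : V4} (hVV : q V V = -1) {η B C₀ th δ₁ : ℝ} (hη : 0 < η)
    (hlen : ∀ n : ℕ, 0 < n → ∀ A : ℝ, 0 ≤ A → A ≤ 1 → ∀ w : ℕ → V3 × ℝ, Adm S.m V n w →
      En S.m n w ≤ n * A → ∀ t₀ tn : ℝ, FF S.m V (w 0).1 t₀ = 0 → FF S.m V (w n).1 tn = 0 →
      |t₀ - (w 0).2| ≤ B → |tn - (w n).2| ≤ B → ∀ T : ℝ, 0 ≤ T →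
      Real.cosh T = -q (zz S.m V (w 0).1 t₀) (zz S.m V (w n).1 tn) →
      T ≤ (1 + η) * (n * Real.sqrt (2 * A)) + C₀)
    {tt : V3 → ℝ} (hadm : ∀ x ∈ H2, 0 ≤ FF S.m V x (tt x))
    (hWE0 : ∀ x ∈ H2, ∀ y ∈ H2, ∀ d : ℝ, -eta x y = Real.cosh d →
      WE S.m0 x (tt x) y (tt y) ≤ th ^ 2 * (Real.cosh d - 1))
    (hcomp : ∀ x ∈ H2, ∀ y ∈ H2, ∀ t s : ℝ,
      WE S.m0 x t y s ≤ δ₁ → WE S.m x t y s ≤ (1 + η) * WE S.m0 x t y s)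
    {y₀ y₁ u : V3} (hy₀ : y₀ ∈ H2) (hu : UT y₀ u) {D' : ℝ} (hgeo : geo y₀ u D' = y₁)
    {M : ℕ} {d A : ℝ} (hM : 0 < M) (hMd : (M : ℝ) * d = D')
    (hδ : th ^ 2 * (Real.cosh d - 1) ≤ δ₁) (hA0 : 0 ≤ A) (hA1 : A ≤ 1)
    (hA : (1 + η) * (th ^ 2 * (Real.cosh d - 1)) = A)
    {τ₀ τ₁ : ℝ} (hF₀ : FF S.m V y₀ τ₀ = 0) (hF₁ : FF S.m V y₁ τ₁ = 0)
    (hB₀ : |τ₀ - tt y₀| ≤ B) (hB₁ : |τ₁ - tt y₁| ≤ B) {T : ℝ} (hT0 : 0 ≤ T)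
    (hT : Real.cosh T = -q (zz S.m V y₀ τ₀) (zz S.m V y₁ τ₁)) :
    T ≤ (1 + η) * (M * Real.sqrt (2 * A)) + C₀ := by
  have hw0 : geo y₀ u ((0 : ℕ) * d) = y₀ := by simp [geo]
  have hwM : geo y₀ u ((M : ℕ) * d) = y₁ := by rw [hMd, hgeo]
  have hEn := ma_path S hy₀ hu tt (fun x hx y hy h => hWE0 x hx y hy d h) hη hδ hA hcomp M
  have hAdm : Adm S.m V M (fun i : ℕ => (geo y₀ u (i * d), tt (geo y₀ u (i * d)))) :=
    fun i _ => ⟨geo_mem hy₀ hu _, hadm _ (geo_mem hy₀ hu _)⟩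
  have h := hlen M hM A hA0 hA1 _ hAdm hEn τ₀ τ₁
  simp only [hw0, hwM] at h
  exact h hF₀ hF₁ hB₀ hB₁ T hT0 hT

/-- bounded part -/
theorem ma_end (S : Setup2) {V N : V4} (hFF : ∀ x t, FF S.m V x t = Real.sinh t - Real.cosh t * q (S.m.X x) N)
    {s₁ B : ℝ} (hs₁ : 0 < s₁) (hleB : ∀ τ : ℝ, 0 ≤ τ → Real.cosh τ ≤ 1 / s₁ → τ ≤ B)
    {y : V3} {t : ℝ} (ht0 : 0 ≤ t) (htc : Real.cosh t ≤ 1 / S.cm y) (h2 : s₁ ≤ S.cm y)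
    (hcs : S.cm y ^ 2 + S.sm y ^ 2 = 1) (hv : 0 ≤ q (S.m.X y) N) (hvs : q (S.m.X y) N < S.sm y) :
    ∃ τ : ℝ, 0 ≤ τ ∧ FF S.m V y τ = 0 ∧ Real.cosh τ ≤ 1 / s₁ ∧ |τ - t| ≤ B := by
  obtain ⟨τ, hτ0, hτ1, hτ2⟩ := mi_tau hv hvs (lt_of_lt_of_le hs₁ h2) hcs
  have h3 : 1 / S.cm y ≤ 1 / s₁ := one_div_le_one_div_of_le hs₁ h2
  have h4 : τ ≤ B := hleB τ hτ0 (hτ2.trans h3)
  have h5 : t ≤ B := hleB _ ht0 (htc.trans h3)
  refine ⟨τ, hτ0, ?_, hτ2.trans h3, ?_⟩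
  · rw [hFF, hτ1]; ring
  · rw [abs_le]; constructor <;> linarith

/- Proof:
s1 from heights. V = -N: q V V = -1 and q (Nm x) V = -q (Nm x) N > 0. FF S.m V x t = sinh t - cosh t v(x), v(x) = q (Xm x) N.
e := min eps (s1/2) > 0, so e <= sm x on H2. For x in H2 let t(x) be from level (s = sm x, c = cm x): t(x) >= 0, sinh t = sm x cosh t - e, cosh t <= 1/cm x <= 1/s1. FF S.m V x t(x) = sinh t - cosh t v >= sinh t - cosh t (sm x - eps) = -e + eps cosh t >= 0 (hgap). k(x) = cosh t cm x: k^2 = 1 - 2 e sinh t - e^2 (m0_step) and sinh t >= sm x - e >= s1/2, so k^2 <= 1 - e s1 =: th0^2, 0 < th0 < 1 (e s1 <= 1/2).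
For x, y in H2 with -eta x y = cosh d: WE S.m0 x t(x) y t(y) = k k' (cosh d - 1) - (k - k')^2/2 <= th0^2 (cosh d - 1).
Choose eta > 0 with theta := (1+eta)^3 th0 < 1. we_comp (eta) gives delta1. B >= 0 with cosh B >= 1/s1. md_len (S.gm, V, eta, B) gives C0.
Given y0, y1, D: let D' >= 0, cosh D' = -eta y0 y1, D' <= D, y1 = geo y0 u D' (exists_geo). Take M >= 1 large: d = D'/M <= delta2 (cosh_small with eta) and th0^2 (cosh d - 1) <= min(delta1, 1/2)/(1+eta)..., P_i = geo y0 u (i d), i <= M, -eta P_i P_{i+1} = cosh d (geo_add, eta_geo). w i = (P_i, t(P_i)): Adm; WE S.m <= (1+eta) WE S.m0 <= A := (1+eta) th0^2 (cosh d - 1) <= 1, En <= M A. M sqrt(2A) = sqrt(1+eta) th0 M sqrt(2(cosh d - 1)) <= (1+eta)^2 th0 D'.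
End values: tau_j >= 0 with tanh tau_j = v(y_j) in [0, sm y_j): cosh tau_j = 1/sqrt(1-v^2) <= 1/cm <= 1/s1, FF S.m V y_j tau_j = 0; both tau_j and t(y_j) lie in [0,B], so differ by at most B. z_j = zz S.m V y_j tau_j = cosh tau_j Xm y_j + sinh tau_j N. By zz_we and we_basic -q z0 z1 = WE + 1 >= 1, so let T >= 0 with cosh T = -q z0 z1. md_len: T <= (1+eta) M sqrt(2A) + C0 <= theta D' + C0 <= theta D + C0.
q_busemann (V := N or -N, xi): -q z_j xi = cosh tau_j (-q (Xm y_j) xi) > 0 (Lam_strict2, hξN), so -q (Xm y1) xi <= -q z1 xi <= e^T (-q z0 xi) <= e^{theta D + C0} (1/s1) (-q (Xm y0) xi). So C = e^{C0}/s1.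
-/
theorem minus2 (S : Setup2) {N : V4} (hNN : q N N = -1) {ε : ℝ} (hε : 0 < ε)
    (hgap : ∀ y ∈ H2, q (S.m.X y) N ≤ S.sm y - ε) (hneg : ∀ y ∈ H2, q (S.m.N y) N < 0) {ξ : V4}
    (hξ : ξ ∈ Lam2 S) (hξN : q ξ N = 0) :
    ∃ θ C : ℝ, 0 < θ ∧ θ < 1 ∧ 0 < C ∧ ∀ y₀ ∈ H2, ∀ y₁ ∈ H2, 0 ≤ q (S.m.X y₀) N → 0 ≤ q (S.m.X y₁) N →
      ∀ D : ℝ, 0 ≤ D → -eta y₀ y₁ ≤ Real.cosh D →
      -q (S.m.X y₁) ξ ≤ C * Real.exp (θ * D) * -q (S.m.X y₀) ξ := by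
  obtain ⟨hh, -, s₀, hs₀, hs₀'⟩ := heights S
  obtain ⟨s₁, hs₁, hs₁1, hs₁'⟩ : ∃ s₁ : ℝ, 0 < s₁ ∧ s₁ ≤ 1 ∧ ∀ x ∈ H2, s₁ ≤ S.sm x ∧ s₁ ≤ S.cm x := by
    refine ⟨min s₀ 1, lt_min hs₀ one_pos, min_le_right _ _, fun x hx => ?_⟩
    obtain ⟨h1, -, h3, -⟩ := hs₀' x hx
    exact ⟨(min_le_left _ _).trans h1, (min_le_left _ _).trans h3⟩
  have hcs : ∀ x ∈ H2, S.cm x ^ 2 + S.sm x ^ 2 = 1 := fun x hx => (hh x hx).2.2.1
  obtain ⟨V, hVdef⟩ : ∃ V : V4, V = -N := ⟨_, rfl⟩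
  have hVV : q V V = -1 := by
    rw [hVdef, mi_q_neg_left, mi_q_comm, mi_q_neg_left, hNN]; ring
  have hqV : ∀ X : V4, q X V = - q X N := by
    intro X; rw [mi_q_comm, hVdef, mi_q_neg_left, mi_q_comm]
  have hNV : ∀ x ∈ H2, 0 < q (S.m.N x) V := by
    intro x hx; rw [hqV]; exact neg_pos.2 (hneg x hx)
  have hFF : ∀ x t, FF S.m V x t = Real.sinh t - Real.cosh t * q (S.m.X x) N := by
    intro x t; simp only [FF]; rw [hqV]; ring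
  obtain ⟨e, he, heε, hes⟩ : ∃ e : ℝ, 0 < e ∧ e ≤ ε ∧ e ≤ s₁ / 2 :=
    ⟨min ε (s₁ / 2), lt_min hε (by linarith), min_le_left _ _, min_le_right _ _⟩
  have hlev : ∀ x : V3, x ∈ H2 → ∃ t : ℝ, 0 ≤ t ∧ Real.sinh t = S.sm x * Real.cosh t - e ∧
      Real.cosh t ≤ 1 / S.cm x := by
    intro x hx
    obtain ⟨h1, h2⟩ := hs₁' x hx
    exact level (lt_of_lt_of_le hs₁ h1) (lt_of_lt_of_le hs₁ h2) (hcs x hx) he (by linarith)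
  choose! tt htt0 htt1 htt2 using hlev
  have hadm : ∀ x ∈ H2, 0 ≤ FF S.m V x (tt x) := by
    intro x hx
    rw [hFF]
    exact ma_adm (htt1 x hx) (hgap x hx) (Real.one_le_cosh _) hε heε
  obtain ⟨th, hth0, hth1, hth2⟩ := ma_th (mul_pos he hs₁) (ma_es he hs₁ hes hs₁1)
  have hk : ∀ x ∈ H2, (Real.cosh (tt x) * S.cm x) ^ 2 ≤ th ^ 2 := by
    intro x hx
    obtain ⟨-, h1⟩ := m0_step S hx hx (htt1 x hx) (htt1 x hx)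
    rw [h1, hth2]
    exact ma_k (htt1 x hx) (Real.one_le_cosh _) hs₁ (hs₁' x hx).1 he hes
  have hWE0 : ∀ x ∈ H2, ∀ y ∈ H2, ∀ d : ℝ, -eta x y = Real.cosh d →
      WE S.m0 x (tt x) y (tt y) ≤ th ^ 2 * (Real.cosh d - 1) := by
    intro x hx y hy d hd
    obtain ⟨h1, -⟩ := m0_step S hx hy (htt1 x hx) (htt1 y hy)
    rw [h1, hd]
    exact ma_we (hk x hx) (hk y hy) (Real.one_le_cosh d)
  obtain ⟨η, hη, hη1, hθ1⟩ := ma_theta hth0 hth1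
  have h1η : (0 : ℝ) < 1 + η := by linarith
  obtain ⟨δ₁, hδ₁, hcomp⟩ := we_comp S hη
  obtain ⟨B, hB, hleB⟩ := ma_B hs₁
  obtain ⟨C₀, hC₀, hlen⟩ := md_len S.gm hVV hNV hη hB
  obtain ⟨δ₂, hδ₂, hδ₂1, hsmall⟩ := cosh_small hη
  refine ⟨(1 + η) ^ 3 * th, Real.exp C₀ / s₁, mul_pos (pow_pos h1η 3) hth0, hθ1,
    div_pos (Real.exp_pos _) hs₁, ?_⟩
  intro y₀ hy₀ y₁ hy₁ hv₀ hv₁ D hD hyD
  obtain ⟨D', u, hD', hu, hgeo⟩ := exists_geo hy₀ hy₁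
  have hcD' : -eta y₀ y₁ = Real.cosh D' := by
    rw [← hgeo, eta_geo hy₀ hu]; ring
  have hDD : D' ≤ D := by
    rw [hcD'] at hyD
    have := Real.cosh_le_cosh.1 hyD
    rwa [abs_of_nonneg hD', abs_of_nonneg hD] at this
  obtain ⟨M, d, A, hMpos, -, hMd, hrδ, hA0, hA1, hAdef, hfinA⟩ :=
    ma_step hη hη1 hth0 hth1 hδ₁ hδ₂ hsmall hD'
  have hgap' : ∀ y ∈ H2, q (S.m.X y) N < S.sm y := fun y hy =>
    lt_of_le_of_lt (hgap y hy) (by linarith)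
  obtain ⟨τ₀, hτ₀0, hτ₀F, hτ₀c, hτ₀B⟩ := ma_end S hFF hs₁ hleB (htt0 y₀ hy₀) (htt2 y₀ hy₀)
    (hs₁' y₀ hy₀).2 (hcs y₀ hy₀) hv₀ (hgap' y₀ hy₀)
  obtain ⟨τ₁, hτ₁0, hτ₁F, hτ₁c, hτ₁B⟩ := ma_end S hFF hs₁ hleB (htt0 y₁ hy₁) (htt2 y₁ hy₁)
    (hs₁' y₁ hy₁).2 (hcs y₁ hy₁) hv₁ (hgap' y₁ hy₁)
  obtain ⟨hz1, hz2, hz3⟩ := zz_we S.gm hVV hy₀ hy₁ hτ₀F hτ₁F
  obtain ⟨-, hz5, hz6⟩ := zz_we S.gm hVV hy₁ hy₀ hτ₁F hτ₀F
  obtain ⟨-, -, -, hwe0⟩ := we_basic S.gm hy₀ hy₁ τ₀ τ₁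
  have hge : 1 ≤ -q (zz S.m V y₀ τ₀) (zz S.m V y₁ τ₁) := by
    rw [hz1] at hwe0
    exact sub_nonneg.1 hwe0
  obtain ⟨T, hT0, hT⟩ := mi_arcosh hge
  have hTle : T ≤ (1 + η) * (M * Real.sqrt (2 * A)) + C₀ :=
    ma_len S hVV hη hlen hadm hWE0 (fun x hx y hy t s => (hcomp x hx y hy t s).1) hy₀ hu hgeo hMpos
      hMd hrδ hA0 hA1 hAdef hτ₀F hτ₁F hτ₀B hτ₁B hT0 hT
  have hTD : T ≤ (1 + η) ^ 3 * th * D + C₀ :=
    hTle.trans (add_le_add_left (hfinA.trans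
      (mul_le_mul_of_nonneg_left hDD (mul_pos (pow_pos h1η 3) hth0).le)) C₀)
  have hVξ : q V ξ = 0 := by rw [mi_q_comm, hqV, hξN]; ring
  have hξV : q ξ V = 0 := by rw [hqV, hξN]; ring
  have hX0 := (Lam_strict2 S hξ hy₀).1
  have hX1 := (Lam_strict2 S hξ hy₁).1
  have hbus := q_busemann (ξ := ξ) hVV hz3 hz6 hξ.2.1 hz2 hz5 hξV
    (by rw [ma_zz hVξ]; exact mul_neg_of_pos_of_neg (Real.cosh_pos _) hX0)
    (by rw [ma_zz hVξ]; exact mul_neg_of_pos_of_neg (Real.cosh_pos _) hX1) hT0 hT.ge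
  rw [ma_zz hVξ, ma_zz hVξ] at hbus
  exact ma_fin hX0 hX1 (Real.cosh_pos _) hτ₀c (Real.one_le_cosh _) hTD rfl hbus

end A_minus2

alias minus2 := A_minus2.minus2

end Helper935.AdS
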