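import Pool.Agent.Helper935_AdS.Plus
import Pool.Agent.Helper935_AdS.Minus
import Pool.Agent.Helper935_AdS.LamB
import Pool.Agent.Helper935_AdS.LamD

namespace Helper935.AdS

namespace A_gap_false

theorem gf_q_add (X Y Z : V4) : q (X + Y) Z = q X Z + q Y Z := by
  simp only [q, Pi.add_apply]; ring

theorem gf_q_smul (c : ℝ) (X Z : V4) : q (c • X) Z = c * q X Z := by
  simp only [q, Pi.smul_apply, smul_eq_mul]; ring

theorem gf_q_comm (X Z : V4) : q X Z = q Z X := by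
  simp only [q]; ring

theorem gf_eta_comm (x y : V3) : eta x y = eta y x := by
  simp only [eta]; ring

/- Proof:
Suppose e > 0 is a uniform gap. (N,y0) from exists_max2, m = q (Xm y0) N > 0; max_props2: m < 1, q (Nm y0) N < 0. leaf2: xi1, xi2. nu_neg2 (v < 1 since v <= sm - e < 1, sm <= 1): q (Nm y) N < 0 for all y in H2. minus2 with xi = xi2: theta, C1. Choose eta > 0 with theta (1 + eta) < 1; plus2: delta, C2. D0 from dist_bound2, c1 from w_lower2.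
vertical2 for (xi1,xi2): x_0, t_0; foot_m2 for (xi1, xi2): y_0' with 0 <= q (Xm y_0') N and -q (Xm y_0')(xi1+xi2) <= 1. -q (Xp x_0)(xi1+xi2) = 1/sqrt(1+t_0^2) <= 1 (q(xi1+xi2)(xi1+xi2) = -1, q . N = 0), so -eta y_0' x_0 <= cosh D0 (dist_bound2).
For n >= 1, s = n delta: the same for (e^s xi1, e^-s xi2) (Lam_smul2): x_n, t_n, y_n. H2_triangle: -eta y_0' y_n <= cosh(D0 + (1+eta) n delta + C2 + D0). minus2: -q (Xm y_n) xi2 <= C1 exp(theta(2 D0 + C2 + (1+eta) n delta)) (-q (Xm y_0') xi2). w_lower2: c1 e^{n delta} <= -q (Xm y_n) xi2. So c1 e^{n delta} <= K e^{theta (1+eta) n delta} for all n >= 1 with K independent of n: false for n large since theta(1+eta) < 1.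
-/
theorem gap_false (S : Setup2) {ε : ℝ} (hε : 0 < ε)
    (hgap : ∀ N ∈ Dual2 S, ∀ y ∈ H2, q (S.m.X y) N ≤ S.sm y - ε) : False := by
  obtain ⟨N, hN, y0, hy0, hm, hmax⟩ := exists_max2 S
  have hNN : q N N = -1 := hN.1
  have hmaxy : ∀ y' ∈ H2, q (S.m.X y') N ≤ q (S.m.X y0) N := fun y' hy' => hmax N hN y' hy'
  obtain ⟨hm1, hn0⟩ := max_props2 S hNN hy0 hm hmaxy
  have hmax0 : ∀ N' ∈ Dual2 S, q (S.m.X y0) N' ≤ q (S.m.X y0) N := fun N' hN' => hmax N' hN' y0 hy0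
  obtain ⟨⟨ξ₁, h₁, ξ₂, h₂, h1N, h2N, h12⟩, -⟩ := leaf2 S hN hy0 hm hm1 hmax0
  have hneg : ∀ y ∈ H2, q (S.m.N y) N < 0 := fun y hy =>
    nu_neg2 S hN hy0 hm (fun y' hy' => (hmaxy y' hy').trans_lt hm1) hmax0 hn0 hy
  obtain ⟨θ, C₁, hθ0, hθ1, hC₁, hminus⟩ := minus2 S hNN hε (hgap N hN) hneg h₂ h2N
  obtain ⟨η, hη, hθη⟩ : ∃ η : ℝ, 0 < η ∧ θ * (1 + η) < 1 := by
    refine ⟨(1 - θ) / (2 * θ), div_pos (by linarith) (by linarith), ?_⟩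
    have : θ * (1 + (1 - θ) / (2 * θ)) = (1 + θ) / 2 := by
      field_simp; ring
    rw [this]; linarith
  obtain ⟨δ, C₂, hδ, hC₂, hplus⟩ := plus2 S hN h₁ h₂ h12 h1N h2N hη
  obtain ⟨D₀, hD₀, hdist⟩ := dist_bound2 S
  obtain ⟨c₁, hc₁, hw⟩ := w_lower2 S
  have L1 : ∀ s : ℝ, Real.exp s • ξ₁ ∈ Lam2 S := fun s => Lam_smul2 S h₁ (Real.exp_pos s)
  have L2 : ∀ s : ℝ, Real.exp (-s) • ξ₂ ∈ Lam2 S := fun s => Lam_smul2 S h₂ (Real.exp_pos _)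
  have hexp : ∀ s : ℝ, Real.exp s * Real.exp (-s) = 1 := by
    intro s; rw [← Real.exp_add]; simp
  have Lq : ∀ s : ℝ, q (Real.exp s • ξ₁) (Real.exp (-s) • ξ₂) = -1/2 := by
    intro s
    rw [gf_q_smul, gf_q_comm, gf_q_smul, gf_q_comm, h12, ← mul_assoc, hexp s, one_mul]
  have L1N : ∀ s : ℝ, q (Real.exp s • ξ₁) N = 0 := by
    intro s; rw [gf_q_smul, h1N, mul_zero]
  have L2N : ∀ s : ℝ, q (Real.exp (-s) • ξ₂) N = 0 := by
    intro s; rw [gf_q_smul, h2N, mul_zero]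
  have hvert : ∀ s : ℝ, ∃ x ∈ H2, ∃ t : ℝ, 0 < t ∧
      Real.exp s • ξ₁ + Real.exp (-s) • ξ₂ + t • N = Real.sqrt (1 + t ^ 2) • S.p.X x :=
    fun s => vertical2 S hN (L1 s) (L2 s) (Lq s) (L1N s) (L2N s)
  obtain ⟨x₀, hx₀, t₀, ht₀, hxt₀⟩ := vertical2 S hN h₁ h₂ h12 h1N h2N
  choose x hx t ht hxt using hvert
  obtain ⟨y₀, hy₀, hy₀N, hy₀q⟩ := foot_m2 S hneg h₁ h₂ h12 h1N h2N
  have hfoot : ∀ s : ℝ, ∃ y ∈ H2, 0 ≤ q (S.m.X y) N ∧
      -q (S.m.X y) (Real.exp s • ξ₁ + Real.exp (-s) • ξ₂) ≤ 1 :=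
    fun s => foot_m2 S hneg (L1 s) (L2 s) (Lq s) (L1N s) (L2N s)
  choose y hy hyN hyq using hfoot
  have hq0 : ∀ ξ ∈ Lam2 S, q ξ ξ = 0 := fun ξ hξ => hξ.2.1
  have gen : ∀ a ∈ Lam2 S, ∀ b ∈ Lam2 S, q a b = -1/2 → q a N = 0 → q b N = 0 →
      ∀ z : V3, ∀ τ : ℝ, a + b + τ • N = Real.sqrt (1 + τ ^ 2) • S.p.X z →
      -q (S.p.X z) (a + b) ≤ 1 := by
    intro a ha b hb hab haN hbN z τ hz
    have hsq : 1 ≤ Real.sqrt (1 + τ ^ 2) := by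
      rw [Real.one_le_sqrt]; nlinarith [sq_nonneg τ]
    have e1 := congrArg (fun Z => q Z (a + b)) hz
    beta_reduce at e1
    rw [gf_q_smul, gf_q_add, gf_q_add, gf_q_smul τ] at e1
    have e2 : ∀ A : V4, q A (a + b) = q A a + q A b := by
      intro A
      rw [gf_q_comm, gf_q_add, gf_q_comm, gf_q_comm b]
    rw [e2 a, e2 b, e2 N, hq0 a ha, hq0 b hb, hab, gf_q_comm b, hab, gf_q_comm N, haN,
      gf_q_comm N, hbN] at e1
    nlinarith [e1, hsq]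
  have hyx₀ : -eta y₀ x₀ ≤ Real.cosh D₀ :=
    hdist _ h₁ _ h₂ h12 y₀ hy₀ x₀ hx₀ hy₀q (gen _ h₁ _ h₂ h12 h1N h2N x₀ t₀ hxt₀)
  have hyx : ∀ s : ℝ, -eta (y s) (x s) ≤ Real.cosh D₀ := fun s =>
    hdist _ (L1 s) _ (L2 s) (Lq s) (y s) (hy s) (x s) (hx s) (hyq s)
      (gen _ (L1 s) _ (L2 s) (Lq s) (L1N s) (L2N s) (x s) (t s) (hxt s))
  have hyy : ∀ n : ℕ, 0 < n → -eta y₀ (y ((n : ℝ) * δ)) ≤
      Real.cosh (D₀ + ((1 + η) * ((n : ℝ) * δ) + C₂) + D₀) := by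
    intro n hn
    have hn0 : 0 ≤ (1 + η) * ((n : ℝ) * δ) + C₂ := by positivity
    have h0 := hplus n hn x₀ hx₀ (x ((n : ℝ) * δ)) (hx _) t₀ (t ((n : ℝ) * δ)) ht₀ (ht _) hxt₀
      (hxt _)
    have h1 := H2_triangle hy₀ hx₀ (hx ((n : ℝ) * δ)) hD₀ hn0 hyx₀ h0
    have h2 : -eta (x ((n : ℝ) * δ)) (y ((n : ℝ) * δ)) ≤ Real.cosh D₀ := by
      rw [gf_eta_comm]; exact hyx _
    exact H2_triangle hy₀ (hx ((n : ℝ) * δ)) (hy ((n : ℝ) * δ)) (by linarith) hD₀ h1 h2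
  set Cq := -q (S.m.X y₀) ξ₂ with hCdef
  have key : ∀ n : ℕ, 0 < n → c₁ * Real.exp ((n : ℝ) * δ) ≤
      C₁ * Real.exp (θ * (D₀ + ((1 + η) * ((n : ℝ) * δ) + C₂) + D₀)) * Cq := by
    intro n hn
    have hn0 : 0 ≤ (1 + η) * ((n : ℝ) * δ) + C₂ := by positivity
    have h1 := hw ξ₁ h₁ ξ₂ h₂ h12 ((n : ℝ) * δ) (y ((n : ℝ) * δ)) (hy _) (hyq _)
    have h2 := hminus y₀ hy₀ (y ((n : ℝ) * δ)) (hy _) hy₀N (hyN _)
      (D₀ + ((1 + η) * ((n : ℝ) * δ) + C₂) + D₀) (by linarith) (hyy n hn)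
    exact h1.trans h2
  have hgap2 : 0 < δ - θ * (1 + η) * δ := by
    have : 0 < (1 - θ * (1 + η)) * δ := mul_pos (by linarith) hδ
    linarith
  set g := δ - θ * (1 + η) * δ with hgdef
  set M := C₁ * Real.exp (θ * (2 * D₀ + C₂)) * Cq with hMdef
  have key2 : ∀ n : ℕ, 0 < n → c₁ * Real.exp ((n : ℝ) * g) ≤ M := by
    intro n hn
    have h1 := key n hn
    have h2 : θ * (D₀ + ((1 + η) * ((n : ℝ) * δ) + C₂) + D₀) =
        θ * (2 * D₀ + C₂) + (n : ℝ) * (θ * (1 + η) * δ) := by ring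
    rw [h2, Real.exp_add] at h1
    have h3 : Real.exp ((n : ℝ) * δ) =
        Real.exp ((n : ℝ) * g) * Real.exp ((n : ℝ) * (θ * (1 + η) * δ)) := by
      rw [← Real.exp_add]; congr 1; rw [hgdef]; ring
    rw [h3] at h1
    have hp : 0 < Real.exp ((n : ℝ) * (θ * (1 + η) * δ)) := Real.exp_pos _
    have h4 : c₁ * Real.exp ((n : ℝ) * g) * Real.exp ((n : ℝ) * (θ * (1 + η) * δ)) ≤
        M * Real.exp ((n : ℝ) * (θ * (1 + η) * δ)) := by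
      calc c₁ * Real.exp ((n : ℝ) * g) * Real.exp ((n : ℝ) * (θ * (1 + η) * δ))
          = c₁ * (Real.exp ((n : ℝ) * g) * Real.exp ((n : ℝ) * (θ * (1 + η) * δ))) := by ring
        _ ≤ C₁ * (Real.exp (θ * (2 * D₀ + C₂)) * Real.exp ((n : ℝ) * (θ * (1 + η) * δ))) * Cq := h1
        _ = M * Real.exp ((n : ℝ) * (θ * (1 + η) * δ)) := by rw [hMdef]; ring
    exact le_of_mul_le_mul_right h4 hp
  obtain ⟨n, hn⟩ := exists_nat_gt (max 1 (M / c₁ / g))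
  have hn1 : (1 : ℝ) < n := (le_max_left _ _).trans_lt hn
  have hn2 : M / c₁ / g < n := (le_max_right _ _).trans_lt hn
  have hnpos : 0 < n := by
    have : (0 : ℝ) < n := by linarith
    exact_mod_cast this
  have h5 := key2 n hnpos
  have h6 : (n : ℝ) * g + 1 ≤ Real.exp ((n : ℝ) * g) := Real.add_one_le_exp _
  rw [div_lt_iff₀ hgap2, div_lt_iff₀ hc₁] at hn2
  nlinarith

end A_gap_false

alias gap_false := A_gap_false.gap_false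

namespace A_touch2

/- Proof:
dich2 and gap_false
-/
theorem touch2 (S : Setup2) : ∃ N ∈ Dual2 S, ∃ y ∈ H2, q (S.m.X y) N = S.sm y := by
  rcases dich2 S with h | ⟨ε, hε, h⟩
  · exact h
  · exact (gap_false S hε h).elim

end A_touch2

alias touch2 := A_touch2.touch2

end Helper935.AdS
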