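import Pool.Agent.Helper935_AdS.PtA

namespace Helper935.AdS

namespace A_ekeland2

theorem ek_q_deriv {f : ℝ → V4} {f' : V4} {s : ℝ} (hf : HasDerivAt f f' s) (Z : V4) :
    HasDerivAt (fun s => q (f s) Z) (q f' Z) s := by
  have h := hasDerivAt_pi.1 hf
  unfold q
  exact (((((h 0).mul_const (Z 0)).neg.add ((h 1).mul_const (Z 1))).add
    ((h 2).mul_const (Z 2))).sub ((h 3).mul_const (Z 3)))

theorem ek_eta_geo (x₀ x v : V3) (s : ℝ) :
    eta x₀ (geo x v s) = Real.cosh s * eta x₀ x + Real.sinh s * eta x₀ v := by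
  simp only [eta, geo, Pi.add_apply, Pi.smul_apply, smul_eq_mul]
  ring

theorem ek_eta_deriv (x₀ x v : V3) :
    HasDerivAt (fun s => eta x₀ (geo x v s)) (eta x₀ v) 0 := by
  have h1 : (fun s => eta x₀ (geo x v s)) =
      fun s => Real.cosh s * eta x₀ x + Real.sinh s * eta x₀ v := by
    funext s
    exact ek_eta_geo x₀ x v s
  rw [h1]
  have h2 := ((Real.hasDerivAt_cosh 0).mul_const (eta x₀ x)).add
    ((Real.hasDerivAt_sinh 0).mul_const (eta x₀ v))
  rw [Real.sinh_zero, Real.cosh_zero, zero_mul, one_mul, zero_add] at h2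
  exact h2

theorem ek_bound {x₀ x v : V3} (hx₀ : x₀ ∈ H2) (hx : x ∈ H2) (hv : UT x v) :
    |eta x₀ v| ≤ -eta x₀ x := by
  obtain ⟨w, hw⟩ := exists_ON hx hv
  have hxx : eta x x = -1 := hx.1
  have h00 : eta x₀ x₀ = -1 := hx₀.1
  obtain ⟨o1, o2, o3, o4, o5⟩ := hw
  have ht : eta x (x₀ + eta x₀ x • x) = 0 := by
    have : eta x (x₀ + eta x₀ x • x) = eta x₀ x + eta x₀ x * eta x x := by
      simp only [eta, Pi.add_apply, Pi.smul_apply, smul_eq_mul]
      ring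
    rw [this, hxx]
    ring
  have e1 : eta (x₀ + eta x₀ x • x) (x₀ + eta x₀ x • x) = eta x₀ x ^ 2 - 1 := by
    have : eta (x₀ + eta x₀ x • x) (x₀ + eta x₀ x • x) =
        eta x₀ x₀ + 2 * eta x₀ x ^ 2 + eta x₀ x ^ 2 * eta x x := by
      simp only [eta, Pi.add_apply, Pi.smul_apply, smul_eq_mul]
      ring
    rw [this, hxx, h00]
    ring
  have e2 : eta (x₀ + eta x₀ x • x) v = eta x₀ v := by
    have : eta (x₀ + eta x₀ x • x) v = eta x₀ v + eta x₀ x * eta x v := by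
      simp only [eta, Pi.add_apply, Pi.smul_apply, smul_eq_mul]
      ring
    rw [this, o1]
    ring
  have e3 := tangent_expand hx ⟨o1, o2, o3, o4, o5⟩ ht
  have e4 : eta (x₀ + eta x₀ x • x) (x₀ + eta x₀ x • x) =
      eta (x₀ + eta x₀ x • x) v ^ 2 + eta (x₀ + eta x₀ x • x) w ^ 2 := by
    generalize x₀ + eta x₀ x • x = t at e3
    have : eta t (eta t v • v + eta t w • w) = eta t v ^ 2 + eta t w ^ 2 := by
      have h1 : ∀ (a b : ℝ), eta t (a • v + b • w) = a * eta t v + b * eta t w := by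
        intro a b
        simp only [eta, Pi.add_apply, Pi.smul_apply, smul_eq_mul]
        ring
      rw [h1]
      ring
    rw [← e3] at this
    exact this
  have e5 : eta x₀ v ^ 2 ≤ (-eta x₀ x) ^ 2 := by
    rw [e1, e2] at e4
    nlinarith [sq_nonneg (eta (x₀ + eta x₀ x • x) w)]
  have e6 : 0 ≤ -eta x₀ x := by
    have := eta_le hx₀ hx
    linarith
  exact abs_le_of_sq_le_sq e5 e6

/- Proof:
Let w(x) = -q (X x) Z >= 0 on H2, i = inf w, take x0 in H2 with w(x0) <= i + eps/2, and consider g(x) = w(x) + (eps/2) * (-eta x0 x) on H2. g is continuous, its sublevel sets are compact (H2_ball; use w >= 0), so g has a minimum x1 on H2. g(x1) <= g(x0) = w(x0) + eps/2, hence (eps/2)(-eta x0 x1) <= w(x0) - w(x1) + eps/2 <= eps.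
At x1 the derivative of g along each geodesic vanishes: q (dX x1 v) Z = -(eps/2) eta x0 v, and |eta x0 v| <= sqrt((eta x0 x1)^2 - 1) <= -eta x0 x1, so |q (dX x1 v) Z| <= (eps/2) (-eta x0 x1) <= eps.
-/
theorem ekeland2 {S : Sf} (h : Core2 S) {Z : V4} (hZ : ∀ x ∈ H2, q (S.X x) Z ≤ 0) {ε : ℝ} (hε : 0 < ε) :
    ∃ x ∈ H2, ∀ v, UT x v → |q (S.dX x v) Z| ≤ ε := by
  have hne : H2.Nonempty := by
    refine ⟨![1, 0, 0], ?_, ?_⟩
    · simp [eta]
    · simp
  set SS : Set ℝ := (fun x => -q (S.X x) Z) '' H2 with hSS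
  have hSne : SS.Nonempty := hne.image _
  have hSb : BddBelow SS := by
    refine ⟨0, ?_⟩
    rintro _ ⟨x, hx, rfl⟩
    have := hZ x hx
    simp only
    linarith
  obtain ⟨_, ⟨x₀, hx₀, rfl⟩, hlt⟩ := exists_lt_of_csInf_lt hSne
    (show sInf SS < sInf SS + ε / 2 by linarith)
  simp only at hlt
  have hinf : ∀ x ∈ H2, sInf SS ≤ -q (S.X x) Z := fun x hx => csInf_le hSb ⟨x, hx, rfl⟩
  have h00 : eta x₀ x₀ = -1 := hx₀.1
  have hw0 : 0 ≤ -q (S.X x₀) Z := by
    have := hZ x₀ hx₀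
    linarith
  -- the penalised function
  let g : V3 → ℝ := fun x => -q (S.X x) Z + ε / 2 * (-eta x₀ x)
  have hg0 : g x₀ = -q (S.X x₀) Z + ε / 2 := by
    show -q (S.X x₀) Z + ε / 2 * (-eta x₀ x₀) = _
    rw [h00]
    ring
  have hcont : ContinuousOn g H2 := by
    have h1 := h.contX
    have h2 : ∀ i, ContinuousOn (fun x => S.X x i) H2 := fun i =>
      (continuous_apply i).comp_continuousOn h1
    have h3 : ContinuousOn (fun x => q (S.X x) Z) H2 := by
      unfold q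
      exact ((((h2 0).mul continuousOn_const).neg.add ((h2 1).mul continuousOn_const)).add
        ((h2 2).mul continuousOn_const)).sub ((h2 3).mul continuousOn_const)
    have h4 : Continuous (fun x : V3 => eta x₀ x) := by
      unfold eta
      fun_prop
    exact h3.neg.add (continuousOn_const.mul h4.continuousOn.neg)
  set R : ℝ := 2 * g x₀ / ε with hR
  have hRε : ε / 2 * R = g x₀ := by
    rw [hR]
    field_simp
  have hR1 : 1 ≤ R := by
    rw [hR, le_div_iff₀ hε, hg0]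
    linarith
  set K : Set V3 := {x | x ∈ H2 ∧ -eta x₀ x ≤ R} with hK
  have hKc : IsCompact K := H2_ball hx₀ R
  have hx0K : x₀ ∈ K := ⟨hx₀, by rw [h00]; linarith⟩
  obtain ⟨x₁, hx1K, hmin⟩ := hKc.exists_isMinOn ⟨x₀, hx0K⟩ (hcont.mono fun x hx => hx.1)
  have hx1 : x₁ ∈ H2 := hx1K.1
  have hminK : ∀ x ∈ K, g x₁ ≤ g x := fun x hx => hmin hx
  have hminH : ∀ x ∈ H2, g x₁ ≤ g x := by
    intro x hx
    by_cases hxK : -eta x₀ x ≤ R
    · exact hminK x ⟨hx, hxK⟩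
    · refine (hminK x₀ hx0K).trans ?_
      have h5 := hZ x hx
      have h6 : ε / 2 * R ≤ ε / 2 * (-eta x₀ x) :=
        mul_le_mul_of_nonneg_left (not_le.1 hxK).le (by positivity)
      show g x₀ ≤ -q (S.X x) Z + ε / 2 * (-eta x₀ x)
      linarith
  have hb : ε / 2 * (-eta x₀ x₁) ≤ ε := by
    have h7 := hminK x₀ hx0K
    have h8 := hinf x₁ hx1
    rw [hg0] at h7
    have h9 : g x₁ = -q (S.X x₁) Z + ε / 2 * (-eta x₀ x₁) := rfl
    linarith
  refine ⟨x₁, hx1, fun v hv => ?_⟩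
  have hd : HasDerivAt (fun s => g (geo x₁ v s)) (-q (S.dX x₁ v) Z + ε / 2 * (-eta x₀ v)) 0 := by
    have h10 := h.geoX x₁ hx1 v hv 0
    rw [(geo_zero x₁ v).1, (geo_zero x₁ v).2] at h10
    exact (ek_q_deriv h10 Z).neg.add ((ek_eta_deriv x₀ x₁ v).neg.const_mul (ε / 2))
  have hloc : IsLocalMin (fun s => g (geo x₁ v s)) 0 := by
    refine Filter.Eventually.of_forall fun s => ?_
    simp only [(geo_zero x₁ v).1]
    exact hminH _ (geo_mem hx1 hv s)
  have h11 := hloc.hasDerivAt_eq_zero hd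
  have h12 : q (S.dX x₁ v) Z = -(ε / 2) * eta x₀ v := by linarith
  rw [h12, abs_mul, abs_neg, abs_of_pos (by positivity : 0 < ε / 2)]
  exact (mul_le_mul_of_nonneg_left (ek_bound hx₀ hx1 hv) (by positivity)).trans hb

end A_ekeland2

alias ekeland2 := A_ekeland2.ekeland2

namespace A_near2

/- Proof:
ekeland2 with c * sqrt eps / 2: x with |q (dX x v) Z| <= c sqrt(eps)/2 for unit v. Let D^2 = q Z Z + (q X Z)^2 + (q N Z)^2 >= 0 (grad2). If D^2 > eps then slope2 gives unit v with q Z (dX x v) >= c D > c sqrt eps, contradiction.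
-/
theorem near2 {S : Sf} {c : ℝ} (h : Good S c) {Z : V4} (hZ : ∀ x ∈ H2, q (S.X x) Z ≤ 0) {ε : ℝ} (hε : 0 < ε) :
    ∃ x ∈ H2, q Z Z + (q (S.X x) Z) ^ 2 + (q (S.N x) Z) ^ 2 ≤ ε := by
  have hc := h.c_pos
  have hs : 0 < Real.sqrt ε := Real.sqrt_pos.2 hε
  obtain ⟨x, hx, hv⟩ := ekeland2 h.core hZ (show 0 < c * Real.sqrt ε / 2 by positivity)
  refine ⟨x, hx, ?_⟩
  by_contra hD
  push Not at hD
  have hD0 : 0 < q Z Z + (q (S.X x) Z) ^ 2 + (q (S.N x) Z) ^ 2 := hε.trans hD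
  obtain ⟨v, hv1, hv2⟩ := slope2 h hx (Z := Z) (Real.sqrt_pos.2 hD0) (Real.sq_sqrt hD0.le)
  have h1 := (abs_le.1 (hv v hv1)).2
  have h2 : Real.sqrt ε < Real.sqrt (q Z Z + (q (S.X x) Z) ^ 2 + (q (S.N x) Z) ^ 2) :=
    Real.sqrt_lt_sqrt hε.le hD
  have h3 : q (S.dX x v) Z = q Z (S.dX x v) := by simp only [q]; ring
  rw [h3] at h1
  have h4 := mul_lt_mul_of_pos_left h2 hc
  have h5 : 0 < c * Real.sqrt ε := mul_pos hc hs
  linarith

end A_near2

alias near2 := A_near2.near2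

namespace A_nonspacelike2

/- Proof:
near2: q Z Z <= eps for every eps > 0.
-/
theorem nonspacelike2 {S : Sf} {c : ℝ} (h : Good S c) {Z : V4} (hZ : ∀ x ∈ H2, q (S.X x) Z ≤ 0) : q Z Z ≤ 0 := by
  by_contra hcon
  push Not at hcon
  obtain ⟨x, hx, h1⟩ := near2 h hZ (half_pos hcon)
  nlinarith [sq_nonneg (q (S.X x) Z), sq_nonneg (q (S.N x) Z)]

end A_nonspacelike2

alias nonspacelike2 := A_nonspacelike2.nonspacelike2

namespace A_strictX2

/- Proof:
If q (X x) Z = 0 then x is a global max of q (X .) Z, so extX2 gives q (dX x v) Z = 0 for tangent v and decomp2 gives Z = c N x; q Z Z = -c^2 = 0, so Z = 0.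
-/
theorem strictX2 {S : Sf} (h : Core2 S) {Z : V4} (hZ0 : Z ≠ 0) (hZZ : q Z Z = 0)
    (hZ : ∀ x ∈ H2, q (S.X x) Z ≤ 0) {x : V3} (hx : x ∈ H2) : q (S.X x) Z < 0 := by
  refine lt_of_le_of_ne (hZ x hx) fun h0 => hZ0 ?_
  have hmax : ∀ y ∈ H2, q (S.X y) Z ≤ q (S.X x) Z := fun y hy => by
    rw [h0]
    exact hZ y hy
  have hd := decomp2 h hx (Z := Z) (extX2 h hx hmax).1
  rw [h0, neg_zero, zero_smul, zero_add] at hd
  set c : ℝ := -(q (S.N x) Z) with hc
  have hNN := h.NN x hx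
  have h1 : q Z Z = c ^ 2 * q (S.N x) (S.N x) := by
    rw [hd]
    simp only [q, Pi.smul_apply, smul_eq_mul]
    ring
  rw [hZZ, hNN] at h1
  have hc0 : c = 0 := by
    have : c ^ 2 = 0 := by linarith
    exact pow_eq_zero_iff (two_ne_zero) |>.1 this
  rw [hd, hc0, zero_smul]

end A_strictX2

alias strictX2 := A_strictX2.strictX2

namespace A_strictN2

/- Proof:
If q (N x) Z = 0 then x is a global max of q (N .) Z, so extN2 and decomp2 give Z = c X x; q Z Z = -c^2 = 0, so Z = 0.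
-/
theorem strictN2 {S : Sf} (h : Core2 S) {Z : V4} (hZ0 : Z ≠ 0) (hZZ : q Z Z = 0)
    (hZ : ∀ x ∈ H2, q (S.N x) Z ≤ 0) {x : V3} (hx : x ∈ H2) : q (S.N x) Z < 0 := by
  refine lt_of_le_of_ne (hZ x hx) fun h0 => hZ0 ?_
  have hmax : ∀ y ∈ H2, q (S.N y) Z ≤ q (S.N x) Z := fun y hy => by rw [h0]; exact hZ y hy
  have hdec := decomp2 h hx (Z := Z) fun v hv => extN2 h hx hmax v hv
  rw [h0, neg_zero, zero_smul, add_zero] at hdec
  have hsm : ∀ (c : ℝ) (Y : V4), q (c • Y) (c • Y) = c ^ 2 * q Y Y := by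
    intro c Y; simp only [q, Pi.smul_apply, smul_eq_mul]; ring
  have h1 : q Z Z = -(q (S.X x) Z) ^ 2 := by
    conv_lhs => rw [hdec]
    rw [hsm, h.XX x hx]; ring
  have h2 : q (S.X x) Z = 0 := by
    rw [hZZ] at h1
    have : (q (S.X x) Z) ^ 2 = 0 := by linarith
    exact pow_eq_zero_iff (two_ne_zero) |>.mp this
  rw [hdec, h2, neg_zero, zero_smul]

end A_strictN2

alias strictN2 := A_strictN2.strictN2

namespace A_contactX2

/- Proof:
extX2 + decomp2: Z = c N x with c = -q (N x) Z, c^2 = 1. If c = -1 then q (N x) Z = 1 and extX2 gives, for unit tangent v (exists_UT), 0 + q (dN v)(dX v) * 1 <= 0, contradicting strict (v nonzero as eta v v = 1). So c = 1.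
-/
theorem contactX2 {S : Sf} (h : Core2 S) {Z : V4} (hZZ : q Z Z = -1) (hZ : ∀ x ∈ H2, q (S.X x) Z ≤ 0) {x : V3}
    (hx : x ∈ H2) (h0 : q (S.X x) Z = 0) : Z = S.N x := by
  have hsymm : ∀ Y Z : V4, q Y Z = q Z Y := by
    intro Y Z
    unfold q
    ring
  have hsmul : ∀ (c : ℝ) (Y W : V4), q (c • Y) W = c * q Y W := by
    intro c Y W
    simp only [q, Pi.smul_apply, smul_eq_mul]
    ring
  have hmax : ∀ y ∈ H2, q (S.X y) Z ≤ q (S.X x) Z := by
    intro y hy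
    rw [h0]; exact hZ y hy
  have hext := extX2 h hx hmax
  have hdec := decomp2 h hx (Z := Z) hext.1
  rw [h0, neg_zero, zero_smul, zero_add] at hdec
  obtain ⟨c, hc⟩ : ∃ c, c = -(q (S.N x) Z) := ⟨_, rfl⟩
  rw [← hc] at hdec
  have hc2 : c ^ 2 = 1 := by
    have h1 : q Z Z = -(c ^ 2) := by
      calc q Z Z = q (c • S.N x) (c • S.N x) := by rw [← hdec]
        _ = c * (c * q (S.N x) (S.N x)) := by rw [hsmul, hsymm (S.N x) (c • S.N x), hsmul]
        _ = -(c ^ 2) := by rw [h.NN x hx]; ring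
    linarith
  have hc3 : c = 1 ∨ c = -1 := by
    have h2 : (c - 1) * (c + 1) = 0 := by linarith [hc2, sq c]
    rcases mul_eq_zero.1 h2 with h3 | h3
    · left; linarith
    · right; linarith
  rcases hc3 with hc1 | hc1
  · rw [hdec, hc1, one_smul]
  · exfalso
    obtain ⟨v, hv⟩ := exists_UT hx
    have h1 := hext.2 v hv
    have h2 : q (S.N x) Z = 1 := by linarith
    have hv0 : v ≠ 0 := by
      intro hv0
      have h3 := hv.2
      rw [hv0] at h3
      simp [eta] at h3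
    have h3 := h.strict x hx v hv.1 hv0
    rw [h0, h2] at h1
    linarith

end A_contactX2

alias contactX2 := A_contactX2.contactX2

namespace A_contactN2

/- Proof:
extN2 + decomp2
-/
theorem contactN2 {S : Sf} (h : Core2 S) {Z : V4} (hZ : ∀ x ∈ H2, q (S.N x) Z ≤ 0) {x : V3}
    (hx : x ∈ H2) (h0 : q (S.N x) Z = 0) : Z = (-(q (S.X x) Z)) • S.X x := by
  have h1 := decomp2 h hx (Z := Z) fun v hv => extN2 h hx
    (fun y hy => by rw [h0]; exact hZ y hy) v hv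
  rw [h0] at h1
  rw [neg_zero, zero_smul, add_zero] at h1
  exact h1

end A_contactN2

alias contactN2 := A_contactN2.contactN2

namespace A_span_zero2

/- Proof:
Take x = ![1,0,0] in H2. The function q (X .) Z is constant 0, so extX2 applies to Z and to -Z: q (dX x v) Z = 0, and q (dN v)(dX v) * q (N x) Z is both <= 0 and >= 0 for unit v (exists_UT), so q (N x) Z = 0 by strict. decomp2: Z = 0.
-/
theorem span_zero2 {S : Sf} (h : Core2 S) {Z : V4} (hZ : ∀ y ∈ H2, q (S.X y) Z = 0) : Z = 0 := by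
  have hx : (![1, 0, 0] : V3) ∈ H2 := by
    constructor
    · simp [eta]
    · simp
  set x : V3 := ![1, 0, 0] with hxdef
  have hZx : q (S.X x) Z = 0 := hZ x hx
  have qneg : ∀ A B : V4, q A (-B) = -q A B := by
    intro A B
    simp only [q, Pi.neg_apply]
    ring
  have h1 := extX2 h hx (Z := Z) (by
    intro y hy
    rw [hZ y hy, hZx])
  have h2 := extX2 h hx (Z := -Z) (by
    intro y hy
    rw [qneg, qneg, hZ y hy, hZx])
  obtain ⟨v, hv⟩ := exists_UT hx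
  have hv0 : v ≠ 0 := by
    rintro rfl
    have := hv.2
    simp [eta] at this
  have h3 := h1.2 v hv
  have h4 := h2.2 v hv
  rw [qneg, qneg] at h4
  rw [hZx] at h3 h4
  have hs := h.strict x hx v hv.1 hv0
  have hN : q (S.N x) Z = 0 := by
    have h5 : q (S.dN x v) (S.dX x v) * q (S.N x) Z = 0 := by linarith
    rcases mul_eq_zero.1 h5 with h6 | h6
    · exact absurd h6 hs.ne'
    · exact h6
  have h7 := decomp2 h hx h1.1
  rw [hZx, hN] at h7
  simpa using h7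

end A_span_zero2

alias span_zero2 := A_span_zero2.span_zero2

namespace A_chord1

theorem chord1_aux (X N Y : V4) (hXX : q X X = -1) (hNN : q N N = -1) (hNX : q N X = 0)
    (hYY : q Y Y = -1) (hNY : q N Y ≤ 0) (h1 : -1 < q X Y) (h2 : q X Y < 1) :
    0 < omega X N * omega X Y := by
  have e1 : q X (Y + q X Y • X) = q X Y + q X Y * q X X := by
    simp only [q, Pi.add_apply, Pi.smul_apply, smul_eq_mul]; ring
  have e2 : q (Y + q X Y • X) (Y + q X Y • X) = q Y Y + 2 * q X Y * q X Y + q X Y ^ 2 * q X X := by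
    simp only [q, Pi.add_apply, Pi.smul_apply, smul_eq_mul]; ring
  have e3 : q N (Y + q X Y • X) = q N Y + q X Y * q N X := by
    simp only [q, Pi.add_apply, Pi.smul_apply, smul_eq_mul]; ring
  have e4 : omega X (Y + q X Y • X) = omega X Y := by
    simp only [omega, Pi.add_apply, Pi.smul_apply, smul_eq_mul]; ring
  have e5 : q X N = q N X := by
    simp only [q]; ring
  have h := to_lemma (A := X) (U := N) (V := Y + q X Y • X) (by rw [hXX]; norm_num)
    (by rw [e5, hNX]) (by rw [e1, hXX]; ring) (by rw [hNN]; norm_num)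
    (by rw [e2, hYY, hXX]; nlinarith) (by rw [e3, hNX]; linarith)
  rwa [e4] at h

/- Proof:
Let X = X x, N = N x, Y = X y, M = N y and suppose c := q X Y > -1; also c < 1. Y' = Y + c X satisfies q X Y' = 0, q Y' Y' = -1 + c^2 < 0 and q N Y' = q N Y <= 0. to_lemma with A = X, U = N, V = Y': 0 < omega X N * omega X Y', and omega X Y' = omega X Y. In the same way X' = X + c Y gives 0 < omega Y M * omega Y X. But omega Y X = - omega X Y, and omega X N, omega Y M have the same sign by ho: contradiction.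
-/
theorem chord1 {S : Sf} (h : Core2 S) (hs : ∀ x ∈ H2, ∀ y ∈ H2, q (S.N x) (S.X y) ≤ 0)
    (hlt : ∀ x ∈ H2, ∀ y ∈ H2, q (S.X x) (S.X y) < 1)
    (ho : (∀ x ∈ H2, 0 < omega (S.X x) (S.N x)) ∨ (∀ x ∈ H2, omega (S.X x) (S.N x) < 0))
    {x y : V3} (hx : x ∈ H2) (hy : y ∈ H2) : q (S.X x) (S.X y) ≤ -1 := by
  by_contra hcon
  rw [not_le] at hcon
  have hs1 : q (S.X y) (S.X x) = q (S.X x) (S.X y) := by
    simp only [q]; ring
  have h1 := chord1_aux (S.X x) (S.N x) (S.X y) (h.XX x hx) (h.NN x hx) (h.NX x hx) (h.XX y hy)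
    (hs x hx y hy) hcon (hlt x hx y hy)
  have h2 := chord1_aux (S.X y) (S.N y) (S.X x) (h.XX y hy) (h.NN y hy) (h.NX y hy) (h.XX x hx)
    (hs y hy x hx) (by rw [hs1]; exact hcon) (by rw [hs1]; exact hlt x hx y hy)
  have h3 : omega (S.X y) (S.X x) = -omega (S.X x) (S.X y) := by
    simp only [omega]; ring
  rw [h3] at h2
  rcases ho with ho | ho
  · have a := ho x hx
    have b := ho y hy
    have c1 : 0 < omega (S.X x) (S.X y) := by
      by_contra hc
      rw [not_lt] at hc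
      have := mul_nonpos_of_nonneg_of_nonpos a.le hc
      linarith
    have c2 : 0 < -omega (S.X x) (S.X y) := by
      by_contra hc
      rw [not_lt] at hc
      have := mul_nonpos_of_nonneg_of_nonpos b.le hc
      linarith
    linarith
  · have a := ho x hx
    have b := ho y hy
    have c1 : omega (S.X x) (S.X y) < 0 := by
      by_contra hc
      rw [not_lt] at hc
      have := mul_nonpos_of_nonpos_of_nonneg a.le hc
      linarith
    have c2 : -omega (S.X x) (S.X y) < 0 := by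
      by_contra hc
      rw [not_lt] at hc
      have := mul_nonpos_of_nonpos_of_nonneg b.le hc
      linarith
    linarith

end A_chord1

alias chord1 := A_chord1.chord1

namespace A_chord2

/- Proof:
Let C(z) = -q (X x)(X z) >= 1 for z in H2 (h.chord), rho(z) = arcosh C(z) = log(C + sqrt(C^2-1)) >= 0, dist(z,w) = arcosh(-eta z w) the hyperbolic distance. Suppose rho(y) < c dist(x,y) = c d (the negation of the claim). Choose c' with 0 < c' < c, rho(y) < c' d. Minimise J(z) = rho(z) + c' dist(y,z) over H2 (continuous, J >= c' dist(y,z) so sublevel sets are compact, H2_ball): minimiser z1. J(z1) <= J(y) = rho(y) < c' d = J(x) [rho(x) = 0 as C(x) = 1], so z1 ≠ x.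
Claim C(z1) > 1: if C(z1) = 1 then z1 maximises q (X .)(X x) over H2 (value -1, all values <= -1), so extX2 + decomp2 give X x = (-(q (X z1)(X x))) X z1 + k N z1 = X z1 + k N z1, and q(X x)(X x) = -1 = -1 - k^2 gives k = 0, X x = X z1, contradiction with h.inj.
slope2 at z1 with Z = X x: D^2 = -1 + C^2 + (q (N z1)(X x))^2 >= C^2 - 1 > 0: a unit tangent v at z1 with q (X x)(dX z1 v) >= c D >= c sqrt(C^2-1). Along s -> geo z1 v s, C has derivative -q(X x)(dX ..) (dq) which at s = 0 is <= -c sqrt(C(z1)^2-1), so rho(geo z1 v s) has derivative at 0 which is <= -c (d/dC arcosh C = 1/sqrt(C^2-1)). And dist(y, geo z1 v s) <= dist(y,z1) + s for s >= 0 (H2_triangle, eta_geo). So J(geo z1 v s) <= J(z1) - (c - c') s + o(s) < J(z1) for small s > 0: contradiction. Remark: to avoid arcosh of a function, one may work with C and cosh directly; any correct variant is fine.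
-/
theorem c2_q_symm (X Y : V4) : q X Y = q Y X := by
  unfold q
  ring

theorem c2_eta_symm (x y : V3) : eta x y = eta y x := by
  unfold eta
  ring

theorem chord2 {S : Sf} {c : ℝ} (h : Good S c) {x y : V3} (hx : x ∈ H2) (hy : y ∈ H2) {d : ℝ} (hd : 0 ≤ d)
    (hxy : -eta x y = Real.cosh d) : Real.cosh (c * d) ≤ -q (S.X x) (S.X y) := by
  by_contra hcon
  rw [not_le] at hcon
  have hc := h.c_pos
  set Z : V4 := S.X x with hZ
  let C : V3 → ℝ := fun z => -q Z (S.X z)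
  have hC1 : ∀ z ∈ H2, 1 ≤ C z := by
    intro z hz
    have := h.chord x hx z hz
    show 1 ≤ -q Z (S.X z)
    linarith
  have hE1 : ∀ z ∈ H2, 1 ≤ -eta y z := by
    intro z hz
    have := eta_le hy hz
    linarith
  let ρ : V3 → ℝ := fun z => Real.arcosh (C z)
  let δ : V3 → ℝ := fun z => Real.arcosh (-eta y z)
  have hρ0 : ∀ z ∈ H2, 0 ≤ ρ z := fun z hz => Real.arcosh_nonneg (hC1 z hz)
  have hδ0 : ∀ z ∈ H2, 0 ≤ δ z := fun z hz => Real.arcosh_nonneg (hE1 z hz)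
  have hcd : 0 ≤ c * d := by positivity
  have hρy : ρ y < c * d := by
    have h1 : Real.arcosh (C y) < Real.arcosh (Real.cosh (c * d)) :=
      (Real.arcosh_lt_arcosh (by linarith [hC1 y hy]) (Real.cosh_pos _)).2 hcon
    rwa [Real.arcosh_cosh hcd] at h1
  have hdpos : 0 < d := by
    rcases hd.lt_or_eq with hd' | hd'
    · exact hd'
    · exfalso
      rw [← hd', mul_zero] at hρy
      exact absurd (hρ0 y hy) (not_le.2 hρy)
  -- the slope c'
  obtain ⟨c', hc'1, hc'2⟩ : ∃ c', ρ y / d < c' ∧ c' < c := by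
    apply exists_between
    rwa [div_lt_iff₀ hdpos]
  have hc'0 : 0 < c' := lt_of_le_of_lt (div_nonneg (hρ0 y hy) hd) hc'1
  have hρyd : ρ y < c' * d := by rwa [div_lt_iff₀ hdpos] at hc'1
  let J : V3 → ℝ := fun z => ρ z + c' * δ z
  have hcontC : ContinuousOn C H2 := by
    have h1 := h.core.contX
    have h2 : ∀ i, ContinuousOn (fun z => S.X z i) H2 := fun i =>
      (continuous_apply i).comp_continuousOn h1
    show ContinuousOn (fun z => -q Z (S.X z)) H2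
    unfold q
    exact ((((continuousOn_const.mul (h2 0)).neg.add (continuousOn_const.mul (h2 1))).add
      (continuousOn_const.mul (h2 2))).sub (continuousOn_const.mul (h2 3))).neg
  have hcontE : ContinuousOn (fun z => -eta y z) H2 := by
    have : Continuous (fun z : V3 => -eta y z) := by
      unfold eta
      fun_prop
    exact this.continuousOn
  have hcontJ : ContinuousOn J H2 := by
    have h1 : ContinuousOn ρ H2 :=
      Real.continuousOn_arcosh.comp hcontC (fun z hz => hC1 z hz)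
    have h2 : ContinuousOn δ H2 :=
      Real.continuousOn_arcosh.comp hcontE (fun z hz => hE1 z hz)
    exact h1.add (continuousOn_const.mul h2)
  have hyy : -eta y y = 1 := by rw [hy.1]; norm_num
  have hJy : J y = ρ y := by
    show ρ y + c' * Real.arcosh (-eta y y) = ρ y
    rw [hyy, Real.arcosh_zero, mul_zero, add_zero]
  set R : ℝ := Real.cosh (ρ y / c') with hR
  set K : Set V3 := {z | z ∈ H2 ∧ -eta y z ≤ R} with hK
  have hKc : IsCompact K := H2_ball hy R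
  have hyK : y ∈ K := ⟨hy, by rw [hyy]; exact Real.one_le_cosh _⟩
  obtain ⟨z₁, hz₁K, hmin⟩ := hKc.exists_isMinOn ⟨y, hyK⟩ (hcontJ.mono fun z hz => hz.1)
  have hz₁ : z₁ ∈ H2 := hz₁K.1
  have hminH : ∀ z ∈ H2, J z₁ ≤ J z := by
    intro z hz
    by_cases hzK : -eta y z ≤ R
    · exact hmin (show z ∈ K from ⟨hz, hzK⟩)
    · refine (hmin hyK).trans ?_
      show J y ≤ J z
      rw [hJy]
      rw [not_le] at hzK
      have h1 : ρ y / c' < δ z := by
        have h2 : Real.arcosh (Real.cosh (ρ y / c')) < Real.arcosh (-eta y z) :=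
          (Real.arcosh_lt_arcosh (Real.cosh_pos _) (by linarith [hE1 z hz])).2 hzK
        rwa [Real.arcosh_cosh (div_nonneg (hρ0 y hy) hc'0.le)] at h2
      have h3 : ρ y < c' * δ z := by
        rw [div_lt_iff₀ hc'0] at h1
        linarith
      have h4 := hρ0 z hz
      show ρ y ≤ ρ z + c' * δ z
      linarith
  have hZZ : q Z Z = -1 := h.core.XX x hx
  have hJx : J x = c' * d := by
    show Real.arcosh (-q Z (S.X x)) + c' * Real.arcosh (-eta y x) = c' * d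
    rw [← hZ, hZZ, neg_neg, Real.arcosh_zero, c2_eta_symm y x, hxy, Real.arcosh_cosh hd, zero_add]
  have hz₁x : z₁ ≠ x := by
    intro e
    have h1 := hminH y hy
    rw [e, hJx, hJy] at h1
    linarith
  have hCz : 1 < C z₁ := by
    rcases (hC1 z₁ hz₁).lt_or_eq with h1 | h1
    · exact h1
    exfalso
    have hq1 : q (S.X z₁) Z = -1 := by
      rw [c2_q_symm]
      have : C z₁ = -q Z (S.X z₁) := rfl
      linarith
    have hext := extX2 h.core hz₁ (Z := Z) (by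
      intro w hw
      rw [hq1, c2_q_symm]
      exact h.chord x hx w hw)
    have hdec := decomp2 h.core hz₁ hext.1
    rw [hq1, neg_neg, one_smul] at hdec
    set k : ℝ := -(q (S.N z₁) Z) with hk
    have hXX := h.core.XX z₁ hz₁
    have hNN := h.core.NN z₁ hz₁
    have hNX := h.core.NX z₁ hz₁
    have hexp : q (S.X z₁ + k • S.N z₁) (S.X z₁ + k • S.N z₁) =
        q (S.X z₁) (S.X z₁) + 2 * k * q (S.N z₁) (S.X z₁) + k ^ 2 * q (S.N z₁) (S.N z₁) := by
      simp only [q, Pi.add_apply, Pi.smul_apply, smul_eq_mul]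
      ring
    rw [← hdec, hZZ, hXX, hNN, hNX] at hexp
    have hk0 : k = 0 := by
      have : k ^ 2 = 0 := by linarith
      exact pow_eq_zero_iff (two_ne_zero) |>.1 this
    rw [hk0, zero_smul, add_zero] at hdec
    exact hz₁x (h.inj hz₁ hx hdec.symm)
  set ρ₁ : ℝ := Real.arcosh (C z₁) with hρ₁
  set δ₁ : ℝ := Real.arcosh (-eta y z₁) with hδ₁
  have hρ₁pos : 0 < ρ₁ := Real.arcosh_pos hCz
  have hcoshρ : Real.cosh ρ₁ = C z₁ := Real.cosh_arcosh hCz.le
  have hsinhρ : Real.sinh ρ₁ = √((C z₁) ^ 2 - 1) := Real.sinh_arcosh hCz.le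
  have hsq : 0 < (C z₁) ^ 2 - 1 := by nlinarith
  set D : ℝ := √((C z₁) ^ 2 - 1 + (q (S.N z₁) Z) ^ 2) with hD
  have hDarg : 0 < (C z₁) ^ 2 - 1 + (q (S.N z₁) Z) ^ 2 := by positivity
  have hDpos : 0 < D := Real.sqrt_pos.2 hDarg
  have hsD : Real.sinh ρ₁ ≤ D := by
    rw [hsinhρ, hD]
    exact Real.sqrt_le_sqrt (by nlinarith [sq_nonneg (q (S.N z₁) Z)])
  obtain ⟨v, hv, hcD⟩ := slope2 h hz₁ (Z := Z) hDpos (by
    rw [hD, Real.sq_sqrt hDarg.le, hZZ]
    have : C z₁ = -q (S.X z₁) Z := by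
      rw [c2_q_symm]
    rw [this]
    ring)
  -- derivative along the geodesic
  have hder := (dq h.core hz₁ hv Z 0).1
  rw [(geo_zero z₁ v).1, (geo_zero z₁ v).2] at hder
  let f : ℝ → ℝ := fun s => Real.cosh (ρ₁ - c' * s) + q (S.X (geo z₁ v s)) Z
  have hf0 : f 0 = 0 := by
    show Real.cosh (ρ₁ - c' * 0) + q (S.X (geo z₁ v 0)) Z = 0
    rw [mul_zero, sub_zero, (geo_zero z₁ v).1, hcoshρ]
    show -q Z (S.X z₁) + q (S.X z₁) Z = 0
    rw [c2_q_symm Z]
    ring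
  have hfd : HasDerivAt f (Real.sinh (ρ₁ - c' * 0) * (-c') + q (S.dX z₁ v) Z) 0 := by
    have h1 : HasDerivAt (fun s : ℝ => ρ₁ - c' * s) (-c') 0 := by
      have := ((hasDerivAt_id (0 : ℝ)).const_mul c').const_sub ρ₁
      simpa using this
    have h2 := h1.cosh
    exact h2.add hder
  have hpos : 0 < Real.sinh (ρ₁ - c' * 0) * (-c') + q (S.dX z₁ v) Z := by
    rw [mul_zero, sub_zero]
    have h1 : c * D ≤ q (S.dX z₁ v) Z := by rw [c2_q_symm]; exact hcD
    have h2 : 0 < Real.sinh ρ₁ := Real.sinh_pos_iff.2 hρ₁pos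
    have h3 : c * Real.sinh ρ₁ ≤ c * D := mul_le_mul_of_nonneg_left hsD hc.le
    have h4 : c' * Real.sinh ρ₁ < c * Real.sinh ρ₁ := mul_lt_mul_of_pos_right hc'2 h2
    linarith
  have hev : ∀ᶠ s in nhdsWithin (0 : ℝ) (Set.Ioi 0), 0 < f s := by
    have h1 := (hasDerivAt_iff_tendsto_slope.1 hfd).eventually (lt_mem_nhds hpos)
    have h2 : ∀ᶠ s in nhdsWithin (0 : ℝ) (Set.Ioi 0), 0 < slope f 0 s :=
      h1.filter_mono (nhdsWithin_mono _ (fun s hs => ne_of_gt hs))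
    filter_upwards [h2, self_mem_nhdsWithin] with s hs hs0
    have hs0' : (0 : ℝ) < s := hs0
    rw [slope_def_field, hf0, sub_zero, sub_zero] at hs
    exact (div_pos_iff_of_pos_right hs0').1 hs
  have hev2 : ∀ᶠ s in nhdsWithin (0 : ℝ) (Set.Ioi 0), s < ρ₁ / c' :=
    (eventually_lt_nhds (div_pos hρ₁pos hc'0)).filter_mono nhdsWithin_le_nhds
  obtain ⟨s, ⟨hs1, hs2⟩, hs0⟩ := ((hev.and hev2).and self_mem_nhdsWithin).exists
  have hs0' : (0 : ℝ) < s := hs0
  have hgm := geo_mem hz₁ hv s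
  have hnn : 0 ≤ ρ₁ - c' * s := by
    rw [lt_div_iff₀ hc'0] at hs2
    linarith
  have hA : ρ (geo z₁ v s) < ρ₁ - c' * s := by
    have h1 : C (geo z₁ v s) < Real.cosh (ρ₁ - c' * s) := by
      show -q Z (S.X (geo z₁ v s)) < _
      have h2 : 0 < Real.cosh (ρ₁ - c' * s) + q (S.X (geo z₁ v s)) Z := hs1
      rw [c2_q_symm Z]
      linarith
    have h2 : Real.arcosh (C (geo z₁ v s)) < Real.arcosh (Real.cosh (ρ₁ - c' * s)) :=
      (Real.arcosh_lt_arcosh (by linarith [hC1 _ hgm]) (Real.cosh_pos _)).2 h1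
    rwa [Real.arcosh_cosh hnn] at h2
  have hδ₁0 : 0 ≤ δ₁ := hδ0 z₁ hz₁
  have hB : δ (geo z₁ v s) ≤ δ₁ + s := by
    have h1 : -eta y (geo z₁ v s) ≤ Real.cosh (δ₁ + s) :=
      H2_triangle hy hz₁ hgm hδ₁0 hs0'.le
        (by rw [hδ₁, Real.cosh_arcosh (hE1 z₁ hz₁)])
        (by rw [eta_geo hz₁ hv s, neg_neg])
    have h2 : Real.arcosh (-eta y (geo z₁ v s)) ≤ Real.arcosh (Real.cosh (δ₁ + s)) :=
      (Real.arcosh_le_arcosh (by linarith [hE1 _ hgm]) (Real.cosh_pos _)).2 h1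
    rwa [Real.arcosh_cosh (by linarith)] at h2
  have hfin := hminH _ hgm
  have h5 : J z₁ = ρ₁ + c' * δ₁ := rfl
  have h6 : J (geo z₁ v s) = ρ (geo z₁ v s) + c' * δ (geo z₁ v s) := rfl
  rw [h5, h6] at hfin
  have h7 : c' * δ (geo z₁ v s) ≤ c' * (δ₁ + s) := mul_le_mul_of_nonneg_left hB hc'0.le
  nlinarith

end A_chord2

alias chord2 := A_chord2.chord2

namespace A_normX2

/- TARGET. -/
theorem normX2 {S : Sf} {c : ℝ} (h : Good S c) {x₀ : V3} (hx₀ : x₀ ∈ H2) (M : ℝ) :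
    ∃ R : ℝ, ∀ x ∈ H2, R < -eta x₀ x → M < ‖S.X x‖ := by
  have ha := h.c_pos
  set B : ℝ := 4 * ‖S.X x₀‖ * |M| with hB
  have hB0 : 0 ≤ B := by positivity
  refine ⟨Real.cosh ((B + 1) / c), fun x hx hR => ?_⟩
  obtain ⟨d, v, hd, hv, rfl⟩ := exists_geo hx₀ hx
  rw [eta_geo hx₀ hv d, neg_neg] at hR
  have h1 : (B + 1) / c < d := by
    rw [Real.cosh_lt_cosh, abs_of_nonneg (by positivity), abs_of_nonneg hd] at hR
    exact hR
  have h2 : B + 1 < c * d := by
    rw [div_lt_iff₀ ha] at h1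
    linarith
  have h3 := chord2 h hx₀ hx hd (by rw [eta_geo hx₀ hv d, neg_neg])
  have h4 : c * d ≤ Real.cosh (c * d) := by
    have h5 : c * d ≤ Real.sinh (c * d) := Real.self_le_sinh_iff.mpr (by linarith)
    have h6 := Real.sinh_lt_cosh (c * d)
    linarith
  have h7 := q_bound (S.X x₀) (S.X (geo x₀ v d))
  have h8 := neg_abs_le (q (S.X x₀) (S.X (geo x₀ v d)))
  by_contra hM
  push Not at hM
  have h9 : 4 * ‖S.X x₀‖ * ‖S.X (geo x₀ v d)‖ ≤ B := by
    rw [hB]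
    exact mul_le_mul_of_nonneg_left (hM.trans (le_abs_self M)) (by positivity)
  linarith

end A_normX2

alias normX2 := A_normX2.normX2

namespace A_f_growth

theorem f_growth_q_comm (X Y : V4) : q X Y = q Y X := by
  unfold q
  ring

/-- the linear algebra of f_growth -/
theorem f_growth_alg {c₀ k₀ r C K f k a1 a2 b1 b2 Q : ℝ} (hr : 0 ≤ r) (h1 : r ≤ c₀ / 2)
    (h2 : r ≤ k₀) (hC : 0 ≤ C) (hK : 0 ≤ K) (hf : c₀ ≤ f) (hk : k₀ ≤ k)
    (ha : a1 ^ 2 + a2 ^ 2 ≤ r ^ 2) (hb : b1 ^ 2 + b2 ^ 2 ≤ (C + K) ^ 2)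
    (hQ : Q = C * f + K * k - (b1 * a1 + b2 * a2)) : c₀ / 2 * C ≤ Q := by
  have h3 : (b1 * a1 + b2 * a2) ^ 2 ≤ (r * (C + K)) ^ 2 := by
    have h4 : (b1 * a1 + b2 * a2) ^ 2 ≤ (b1 ^ 2 + b2 ^ 2) * (a1 ^ 2 + a2 ^ 2) := by
      nlinarith [sq_nonneg (b1 * a2 - b2 * a1)]
    have h5 : (b1 ^ 2 + b2 ^ 2) * (a1 ^ 2 + a2 ^ 2) ≤ (C + K) ^ 2 * r ^ 2 :=
      mul_le_mul hb ha (by positivity) (by positivity)
    calc (b1 * a1 + b2 * a2) ^ 2 ≤ (C + K) ^ 2 * r ^ 2 := h4.trans h5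
      _ = (r * (C + K)) ^ 2 := by ring
  have h6 : b1 * a1 + b2 * a2 ≤ r * (C + K) := abs_le_of_sq_le_sq' h3 (by positivity) |>.2
  have h7 : C * c₀ ≤ C * f := mul_le_mul_of_nonneg_left hf hC
  have h8 : K * k₀ ≤ K * k := mul_le_mul_of_nonneg_left hk hK
  have h9 : r * C ≤ c₀ / 2 * C := mul_le_mul_of_nonneg_right h1 hC
  have h10 : r * K ≤ k₀ * K := mul_le_mul_of_nonneg_right h2 hK
  rw [hQ]
  nlinarith

/- Proof:
near2 applied to Z with a small eps (q (X x) Z <= -c0 <= 0): y in H2 with D^2 := q Z Z + (q (X y) Z)^2 + (q (N y) Z)^2 <= eps. GON basis e1,e2 at y, alpha_i = q Z (dX e_i): alpha1^2+alpha2^2 = D^2 (parseval2). For x in H2 put C = -q (X x)(X y) >= 1 (h.chord), K = -q (X x)(N y) >= 0 (h.supp), beta_i = q (X x)(dX y e_i): parseval2 for q (X x)(X x) = -1 gives beta1^2+beta2^2 = -1 + C^2 + K^2 <= (C+K)^2. parseval2 for q (X x) Z: -q (X x) Z = C f + K k - (alpha1 beta1 + alpha2 beta2) with f = -q (X y) Z >=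 c0, k = -q (N y) Z >= k0. By Cauchy-Schwarz |alpha.beta| <= sqrt eps (C + K). With sqrt eps <= min(c0/2, k0): -q (X x) Z >= (c0 - c0/2) C + (k0 - k0) K >= (c0/2) C >= (c0/2) cosh(c d) by chord2.
-/
theorem f_growth {S : Sf} {c : ℝ} (h : Good S c) {Z : V4} {c₀ k₀ : ℝ} (hc₀ : 0 < c₀) (hk₀ : 0 < k₀)
    (hf : ∀ x ∈ H2, c₀ ≤ -q (S.X x) Z) (hk : ∀ x ∈ H2, k₀ ≤ -q (S.N x) Z) :
    ∃ y ∈ H2, ∀ x ∈ H2, ∀ d : ℝ, 0 ≤ d → -eta y x = Real.cosh d →
      c₀ / 2 * Real.cosh (c * d) ≤ -q (S.X x) Z := by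
  obtain ⟨r, hr⟩ : ∃ r : ℝ, r = min (c₀ / 2) k₀ := ⟨_, rfl⟩
  have hr0 : 0 < r := by rw [hr]; exact lt_min (by positivity) hk₀
  have hr1 : r ≤ c₀ / 2 := by rw [hr]; exact min_le_left _ _
  have hr2 : r ≤ k₀ := by rw [hr]; exact min_le_right _ _
  obtain ⟨y, hy, hD⟩ := near2 h (Z := Z) (fun x hx => by have := hf x hx; linarith)
    (ε := r ^ 2) (by positivity)
  refine ⟨y, hy, fun x hx d hd hxy => ?_⟩
  obtain ⟨e₁, e₂, he⟩ := gon_exists h.core hy
  have p1 := parseval2 h.core hy he Z Z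
  have p2 := parseval2 h.core hy he (S.X x) (S.X x)
  have p3 := parseval2 h.core hy he (S.X x) Z
  rw [h.core.XX x hx] at p2
  rw [f_growth_q_comm (S.X y) Z, f_growth_q_comm (S.N y) Z] at hD
  have hC1 : 1 ≤ -q (S.X x) (S.X y) := by have := h.chord x hx y hy; linarith
  have hK0 : 0 ≤ -q (S.X x) (S.N y) := by
    have := h.supp y hy x hx
    rw [f_growth_q_comm] at this
    linarith
  have hfy : c₀ ≤ -q Z (S.X y) := by rw [f_growth_q_comm]; exact hf y hy
  have hky : k₀ ≤ -q Z (S.N y) := by rw [f_growth_q_comm]; exact hk y hy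
  have hcosh := chord2 h hy hx hd hxy
  rw [f_growth_q_comm] at hcosh
  have key := f_growth_alg (Q := -q (S.X x) Z) (a1 := q Z (S.dX y e₁)) (a2 := q Z (S.dX y e₂))
    (b1 := q (S.X x) (S.dX y e₁)) (b2 := q (S.X x) (S.dX y e₂)) hr0.le hr1 hr2
    (C := -q (S.X x) (S.X y)) (K := -q (S.X x) (S.N y)) (by linarith) hK0 hfy hky
    (by nlinarith) (by nlinarith) (by rw [p3]; ring)
  exact (mul_le_mul_of_nonneg_left hcosh (by positivity)).trans key

end A_f_growth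

alias f_growth := A_f_growth.f_growth

namespace A_tay1

theorem tay1_qcomm (X Y : V4) : q X Y = q Y X := by
  unfold q; ring

theorem tay1_qcont : Continuous (fun p : V4 × V4 => q p.1 p.2) := by
  unfold q; fun_prop

theorem tay1_etacont : Continuous (fun p : V3 × V3 => eta p.1 p.2) := by
  unfold eta; fun_prop

theorem tay1_bound {x v : V3} (hx : x ∈ H2) (hv : UT x v) : ∀ i, |v i| ≤ x 0 := by
  obtain ⟨h1, h2⟩ := hx
  obtain ⟨h3, h4⟩ := hv
  unfold eta at h1 h3 h4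
  have cs : (x 1 * v 1 + x 2 * v 2) ^ 2 ≤ (x 1 ^ 2 + x 2 ^ 2) * (v 1 ^ 2 + v 2 ^ 2) := by
    nlinarith [sq_nonneg (x 1 * v 2 - x 2 * v 1)]
  have e1 : x 1 * v 1 + x 2 * v 2 = x 0 * v 0 := by linarith
  have e2 : x 1 ^ 2 + x 2 ^ 2 = x 0 ^ 2 - 1 := by nlinarith
  have e3 : v 1 ^ 2 + v 2 ^ 2 = 1 + v 0 ^ 2 := by nlinarith
  rw [e1, e2, e3] at cs
  have e4 : v 0 ^ 2 ≤ x 0 ^ 2 - 1 := by nlinarith
  intro i
  apply abs_le_of_sq_le_sq _ h2.le
  fin_cases i
  · show v 0 ^ 2 ≤ x 0 ^ 2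
    linarith
  · show v 1 ^ 2 ≤ x 0 ^ 2
    nlinarith [sq_nonneg (v 2)]
  · show v 2 ^ 2 ≤ x 0 ^ 2
    nlinarith [sq_nonneg (v 1)]

theorem tay1_compact {F : Set V3} (hF : F ⊆ H2) (hFc : IsCompact F) :
    IsCompact {p : V3 × V3 | p.1 ∈ F ∧ UT p.1 p.2} := by
  obtain ⟨R, hR⟩ := hFc.exists_bound_of_continuousOn (f := fun x : V3 => x 0)
    (continuous_apply 0).continuousOn
  have hc : IsCompact (F ×ˢ Metric.closedBall (0 : V3) (max R 0)) :=
    hFc.prod (isCompact_closedBall _ _)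
  have hcl : IsClosed {p : V3 × V3 | UT p.1 p.2} := by
    unfold UT
    refine IsClosed.inter (isClosed_eq tay1_etacont continuous_const) ?_
    exact isClosed_eq (tay1_etacont.comp (continuous_snd.prodMk continuous_snd)) continuous_const
  have : {p : V3 × V3 | p.1 ∈ F ∧ UT p.1 p.2} =
      (F ×ˢ Metric.closedBall (0 : V3) (max R 0)) ∩ {p : V3 × V3 | UT p.1 p.2} := by
    ext ⟨x, v⟩
    simp only [Set.mem_ofPred_eq, Set.mem_inter_iff, Set.mem_prod]
    constructor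
    · rintro ⟨hx, hv⟩
      refine ⟨⟨hx, ?_⟩, hv⟩
      rw [mem_closedBall_zero_iff, pi_norm_le_iff_of_nonneg (le_max_right _ _)]
      intro i
      have h1 := tay1_bound (hF hx) hv i
      have h2 : |x 0| ≤ R := hR x hx
      exact h1.trans ((le_abs_self _).trans (h2.trans (le_max_left _ _)))
    · rintro ⟨⟨hx, -⟩, hv⟩
      exact ⟨hx, hv⟩
  rw [this]
  exact hc.inter_right hcl

theorem tay1_geo_cont : Continuous (fun p : (V3 × V3) × ℝ => (geo p.1.1 p.1.2 p.2, geo' p.1.1 p.1.2 p.2)) := by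
  unfold geo geo'
  fun_prop

theorem tay1_cont {S : Sf} (h : Core2 S) {F : Set V3} (hF : F ⊆ H2) :
    ContinuousOn (fun p : (V3 × V3) × ℝ => q (S.ddX (geo p.1.1 p.1.2 p.2) (geo' p.1.1 p.1.2 p.2)) (S.X p.1.1))
      ({p : V3 × V3 | p.1 ∈ F ∧ UT p.1 p.2} ×ˢ Set.Icc (0 : ℝ) 1) := by
  have h1 : ContinuousOn (fun p : (V3 × V3) × ℝ => S.ddX (geo p.1.1 p.1.2 p.2) (geo' p.1.1 p.1.2 p.2))
      ({p : V3 × V3 | p.1 ∈ F ∧ UT p.1 p.2} ×ˢ Set.Icc (0 : ℝ) 1) := by
    refine h.cont_ddX.comp tay1_geo_cont.continuousOn ?_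
    rintro ⟨⟨x, v⟩, t⟩ ⟨⟨hx, hv⟩, -⟩
    exact geo_mem (hF hx) hv t
  have h2 : ContinuousOn (fun p : (V3 × V3) × ℝ => S.X p.1.1)
      ({p : V3 × V3 | p.1 ∈ F ∧ UT p.1 p.2} ×ˢ Set.Icc (0 : ℝ) 1) := by
    refine h.contX.comp (continuous_fst.comp continuous_fst).continuousOn ?_
    rintro ⟨⟨x, v⟩, t⟩ ⟨⟨hx, hv⟩, -⟩
    exact hF hx
  exact tay1_qcont.comp_continuousOn (h1.prodMk h2)

/- Proof:
For x in F, v with UT x v, let phi(s) = q (S.X x)(S.X (geo x v s)) - q (S0.X x)(S0.X (geo x v s)). By dq: phi' (s) = q (S.X x)(S.dX (geo)(geo')) - (same for S0), phi''(s) = Phi(x,v,s) := q (S.X x)(S.ddX (geo x v s)(geo' x v s)) - (same for S0). phi(0) = -1 - (-1) = 0; phi'(0) = 0 (XdX); phi''(0) = -q (S.dX v)(S.dX v) + q (S0.dX v)(S0.dX v) = 0 (ddX_X, Iso.metric). The set {(x,v,s) : x in F, UT x v, s in [0,1]} is compact (F compact; UT x v with x in a compact subset of H2: closed and bounded, e.g. eta v v = 1, eta x v = 0 bound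 v) and Phi is continuous on it (contX, cont_ddX, geo, geo' continuous), vanishing for s = 0, so by uniform continuity there is delta in (0,1] with |Phi(x,v,s)| <= eps for 0 <= s <= delta. Integrate twice: |phi'(s)| <= eps s, |phi(s)| <= eps s^2/2 <= eps s^2 (mean value inequalities).
-/
theorem tay1 {S S₀ : Sf} (h : Core2 S) (h₀ : Core2 S₀) (hi : Iso S S₀) {F : Set V3} (hF : F ⊆ H2) (hFc : IsCompact F) {ε : ℝ} (hε : 0 < ε) :
    ∃ δ : ℝ, 0 < δ ∧ ∀ x ∈ F, ∀ v, UT x v → ∀ d : ℝ, 0 ≤ d → d ≤ δ →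
      |q (S.X x) (S.X (geo x v d)) - q (S₀.X x) (S₀.X (geo x v d))| ≤ ε * d ^ 2 := by
  classical
  set K : Set (V3 × V3) := {p | p.1 ∈ F ∧ UT p.1 p.2} with hK
  let Φ : (V3 × V3) × ℝ → ℝ := fun p =>
    q (S.ddX (geo p.1.1 p.1.2 p.2) (geo' p.1.1 p.1.2 p.2)) (S.X p.1.1) -
      q (S₀.ddX (geo p.1.1 p.1.2 p.2) (geo' p.1.1 p.1.2 p.2)) (S₀.X p.1.1)
  have hΦ : ContinuousOn Φ (K ×ˢ Set.Icc (0 : ℝ) 1) := (tay1_cont h hF).sub (tay1_cont h₀ hF)
  have hcomp : IsCompact (K ×ˢ Set.Icc (0 : ℝ) 1) := (tay1_compact hF hFc).prod isCompact_Icc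
  have huc := hcomp.uniformContinuousOn_of_continuous hΦ
  rw [Metric.uniformContinuousOn_iff] at huc
  obtain ⟨δ, hδ, huc⟩ := huc ε hε
  have hΦ0 : ∀ x ∈ F, ∀ v, UT x v → Φ ((x, v), 0) = 0 := by
    intro x hx v hv
    have hg := geo_zero x v
    show q (S.ddX (geo x v 0) (geo' x v 0)) (S.X x) - q (S₀.ddX (geo x v 0) (geo' x v 0)) (S₀.X x) = 0
    rw [hg.1, hg.2, tay1_qcomm, tay1_qcomm (S₀.ddX x v), h.ddX_X x (hF hx) v hv,
      h₀.ddX_X x (hF hx) v hv, hi.metric x (hF hx) v v hv.1 hv.1]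
    ring
  refine ⟨min (δ / 2) 1, by positivity, ?_⟩
  intro x hx v hv d hd0 hd
  have hxH := hF hx
  have hdδ : d < δ := by
    have := min_le_left (δ / 2) 1
    linarith
  have hd1 : d ≤ 1 := hd.trans (min_le_right _ _)
  -- the functions
  let φ : ℝ → ℝ := fun s => q (S.X (geo x v s)) (S.X x) - q (S₀.X (geo x v s)) (S₀.X x)
  let A : ℝ → ℝ := fun s => q (S.dX (geo x v s) (geo' x v s)) (S.X x) -
    q (S₀.dX (geo x v s) (geo' x v s)) (S₀.X x)
  have hφ : ∀ s, HasDerivAt φ (A s) s := fun s =>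
    (dq h hxH hv (S.X x) s).1.sub (dq h₀ hxH hv (S₀.X x) s).1
  have hA : ∀ s, HasDerivAt A (Φ ((x, v), s)) s := fun s =>
    (dq h hxH hv (S.X x) s).2.1.sub (dq h₀ hxH hv (S₀.X x) s).2.1
  have hg := geo_zero x v
  have hφ0 : φ 0 = 0 := by
    show q (S.X (geo x v 0)) (S.X x) - q (S₀.X (geo x v 0)) (S₀.X x) = 0
    rw [hg.1, h.XX x hxH, h₀.XX x hxH]; ring
  have hA0 : A 0 = 0 := by
    show q (S.dX (geo x v 0) (geo' x v 0)) (S.X x) - q (S₀.dX (geo x v 0) (geo' x v 0)) (S₀.X x) = 0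
    rw [hg.1, hg.2, tay1_qcomm, tay1_qcomm (S₀.dX x v), h.XdX x hxH v hv.1, h₀.XdX x hxH v hv.1]
    ring
  have hΦs : ∀ s ∈ Set.Icc (0 : ℝ) d, ‖Φ ((x, v), s)‖ ≤ ε := by
    intro s hs
    have m1 : ((x, v), s) ∈ K ×ˢ Set.Icc (0 : ℝ) 1 := ⟨⟨hx, hv⟩, hs.1, hs.2.trans hd1⟩
    have m0 : ((x, v), (0 : ℝ)) ∈ K ×ˢ Set.Icc (0 : ℝ) 1 := ⟨⟨hx, hv⟩, le_rfl, zero_le_one⟩
    have h1 := huc _ m1 _ m0 (by
      rw [Prod.dist_eq, dist_self, max_lt_iff]
      refine ⟨hδ, ?_⟩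
      rw [Real.dist_eq, sub_zero, abs_of_nonneg hs.1]
      exact lt_of_le_of_lt hs.2 hdδ)
    rw [hΦ0 x hx v hv, dist_zero_right] at h1
    exact h1.le
  have hAs : ∀ s ∈ Set.Icc (0 : ℝ) d, ‖A s‖ ≤ ε * d := by
    intro s hs
    have h1 := (convex_Icc (0 : ℝ) d).norm_image_sub_le_of_norm_hasDerivWithin_le
      (fun t ht => (hA t).hasDerivWithinAt) hΦs (Set.left_mem_Icc.mpr hd0) hs
    rw [hA0, sub_zero, sub_zero] at h1
    refine h1.trans ?_
    rw [Real.norm_eq_abs, abs_of_nonneg hs.1]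
    exact mul_le_mul_of_nonneg_left hs.2 hε.le
  have h2 := (convex_Icc (0 : ℝ) d).norm_image_sub_le_of_norm_hasDerivWithin_le
      (fun t ht => (hφ t).hasDerivWithinAt) hAs (Set.left_mem_Icc.mpr hd0) (Set.right_mem_Icc.mpr hd0)
  rw [hφ0, sub_zero, sub_zero, Real.norm_eq_abs, Real.norm_eq_abs, abs_of_nonneg hd0] at h2
  have e : φ d = q (S.X x) (S.X (geo x v d)) - q (S₀.X x) (S₀.X (geo x v d)) := by
    show q (S.X (geo x v d)) (S.X x) - q (S₀.X (geo x v d)) (S₀.X x) = _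
    rw [tay1_qcomm, tay1_qcomm (S₀.X (geo x v d))]
  rw [← e]
  calc |φ d| ≤ ε * d * d := h2
    _ = ε * d ^ 2 := by ring

end A_tay1

alias tay1 := A_tay1.tay1

end Helper935.AdS
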