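import Pool.Agent.Helper935_AdS.HalfA

namespace Helper935.AdS

namespace A_unif5

theorem unif5_q_smul_right (X Y : V4) (t : ℝ) : q X (t • Y) = t * q X Y := by
  simp only [q, Pi.smul_apply, smul_eq_mul]; ring

theorem unif5_q_cont : Continuous fun p : V4 × V4 => q p.1 p.2 := by
  unfold q
  fun_prop

def unifK5 (S : Up) : Set V4 := {ξ | ‖ξ‖ = 1 ∧ q ξ ξ = 0 ∧ ∀ x ∈ H2,
    q (S.p.X x) ξ ≤ 0 ∧ q (S.p.N x) ξ ≤ 0}

theorem unifK5_sub (S : Up) {ξ : V4} (h : ξ ∈ unifK5 S) : ξ ∈ Lam5 S := by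
  refine ⟨?_, h.2.1, h.2.2⟩
  rintro rfl
  have := h.1
  rw [norm_zero] at this
  exact zero_ne_one this

theorem unifK5_compact (S : Up) : IsCompact (unifK5 S) := by
  have hq : ∀ Z : V4, Continuous fun ξ : V4 => q Z ξ := fun Z =>
    unif5_q_cont.comp (continuous_const.prodMk continuous_id)
  refine (isCompact_sphere (0 : V4) 1).of_isClosed_subset ?_ ?_
  · have e : unifK5 S = {ξ | ‖ξ‖ = 1} ∩ ({ξ | q ξ ξ = 0} ∩ ⋂ x ∈ H2, ({ξ | q (S.p.X x) ξ ≤ 0} ∩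
        {ξ | q (S.p.N x) ξ ≤ 0})) := by
      ext ξ
      simp only [unifK5, Set.mem_setOf_eq, Set.mem_inter_iff, Set.mem_iInter]
    rw [e]
    refine (isClosed_eq continuous_norm continuous_const).inter ((isClosed_eq ?_ continuous_const).inter ?_)
    · exact unif5_q_cont.comp (continuous_id.prodMk continuous_id)
    · refine isClosed_biInter fun x _ => ?_
      exact (isClosed_le (hq _) continuous_const).inter (isClosed_le (hq _) continuous_const)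
  · intro ξ h
    rw [mem_sphere_zero_iff_norm]; exact h.1

theorem unif5_one (S : Up) (Z : V3 → V4) (hZ : ContinuousOn Z H2)
    (hs : ∀ x ∈ H2, ∀ ξ ∈ Lam5 S, q (Z x) ξ < 0) :
    ∃ c C : ℝ, 0 < c ∧ 0 < C ∧ ∀ y ∈ S.F, ∀ ξ ∈ unifK5 S, c ≤ -q (Z y) ξ ∧ -q (Z y) ξ ≤ C := by
  have hcpt : IsCompact (S.F ×ˢ unifK5 S) := S.F_cpt.prod (unifK5_compact S)
  have hcont : ContinuousOn (fun p : V3 × V4 => -q (Z p.1) p.2) (S.F ×ˢ unifK5 S) := by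
    refine ContinuousOn.neg ?_
    refine unif5_q_cont.comp_continuousOn (ContinuousOn.prodMk ?_ continuousOn_snd)
    exact (hZ.mono S.F_sub).comp continuousOn_fst fun p hp => hp.1
  rcases Set.eq_empty_or_nonempty (S.F ×ˢ unifK5 S) with he | hne
  · refine ⟨1, 1, one_pos, one_pos, fun y hy ξ hξ => ?_⟩
    exfalso
    have : (y, ξ) ∈ S.F ×ˢ unifK5 S := ⟨hy, hξ⟩
    rw [he] at this
    exact this
  · obtain ⟨p, hp, hpmin⟩ := hcpt.exists_isMinOn hne hcont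
    obtain ⟨p', hp', hpmax⟩ := hcpt.exists_isMaxOn hne hcont
    have pos : ∀ z ∈ S.F ×ˢ unifK5 S, 0 < -q (Z z.1) z.2 := by
      intro z hz
      have := hs z.1 (S.F_sub hz.1) z.2 (unifK5_sub S hz.2)
      linarith
    refine ⟨_, _, pos p hp, pos p' hp', fun y hy ξ hξ => ?_⟩
    exact ⟨hpmin (show (y, ξ) ∈ S.F ×ˢ unifK5 S from ⟨hy, hξ⟩), hpmax (show (y, ξ) ∈ S.F ×ˢ unifK5 S from ⟨hy, hξ⟩)⟩

/- Proof:
same as unif2 (only the upper surface)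
-/
theorem unif5 (S : Up) : ∃ c C : ℝ, 0 < c ∧ 0 < C ∧ ∀ x ∈ H2, ∃ μ : V4 → ℝ,
    (∀ ξ ∈ Lam5 S, 0 < μ ξ ∧
      (c * μ ξ ≤ -q (S.p.X x) ξ ∧ -q (S.p.X x) ξ ≤ C * μ ξ) ∧
      (c * μ ξ ≤ -q (S.p.N x) ξ ∧ -q (S.p.N x) ξ ≤ C * μ ξ)) ∧
    ∀ ξ₁ ∈ Lam5 S, ∀ ξ₂ ∈ Lam5 S, -q ξ₁ ξ₂ ≤ C * μ ξ₁ * μ ξ₂ := by
  obtain ⟨c3, C3, hc3, hC3, h3⟩ := unif5_one S S.p.X S.gp.core.contX fun x hx ξ hξ => (Lam_strict5 S hξ hx).1
  obtain ⟨c4, C4, hc4, hC4, h4⟩ := unif5_one S S.p.N S.gp.core.contN fun x hx ξ hξ => (Lam_strict5 S hξ hx).2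
  set c := min c3 c4 with hc
  set C := max (max C3 C4) 4 with hC
  have d3 : c ≤ c3 := min_le_left _ _
  have d4 : c ≤ c4 := min_le_right _ _
  have D3 : C3 ≤ C := (le_max_left _ _).trans (le_max_left _ _)
  have D4 : C4 ≤ C := (le_max_right _ _).trans (le_max_left _ _)
  have D5 : 4 ≤ C := le_max_right _ _
  refine ⟨c, C, lt_min hc3 hc4, by linarith, fun x hx => ?_⟩
  obtain ⟨g, hg, hgF⟩ := S.F_cov x hx
  have hpos : ∀ ξ ∈ Lam5 S, 0 < ‖g.2 ξ‖ := fun ξ hξ => norm_pos_iff.mpr (Lam_G5 S hξ hg).1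
  have key : ∀ (Z : V3 → V4) (_ : Z (g.1 x) = g.2 (Z x)) (ci Ci : ℝ) (_ : c ≤ ci) (_ : Ci ≤ C)
      (_ : ∀ y ∈ S.F, ∀ ξ ∈ unifK5 S, ci ≤ -q (Z y) ξ ∧ -q (Z y) ξ ≤ Ci), ∀ ξ ∈ Lam5 S,
      c * ‖g.2 ξ‖ ≤ -q (Z x) ξ ∧ -q (Z x) ξ ≤ C * ‖g.2 ξ‖ := by
    intro Z hZ ci Ci hci hCi hb ξ hξ
    have hp := hpos ξ hξ
    have hL := Lam_G5 S hξ hg
    have hL' := Lam_smul5 S hL (inv_pos.mpr hp)
    have hK : ‖g.2 ξ‖⁻¹ • g.2 ξ ∈ unifK5 S := by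
      refine ⟨?_, hL'.2.1, hL'.2.2⟩
      rw [norm_smul, norm_inv, norm_norm, inv_mul_cancel₀ hp.ne']
    have e : -q (Z x) ξ = ‖g.2 ξ‖ * (-q (Z (g.1 x)) (‖g.2 ξ‖⁻¹ • g.2 ξ)) := by
      rw [unif5_q_smul_right, hZ, S.G_q g hg]
      field_simp
    have hb' := hb _ hgF _ hK
    rw [e]
    constructor
    · have := mul_le_mul_of_nonneg_left (hci.trans hb'.1) hp.le
      linarith
    · have := mul_le_mul_of_nonneg_left (hb'.2.trans hCi) hp.le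
      linarith
  refine ⟨fun ξ => ‖g.2 ξ‖, fun ξ hξ => ⟨hpos ξ hξ, key S.p.X (S.G_Xp g hg x hx) c3 C3 d3 D3 h3 ξ hξ,
    key S.p.N (S.G_Np g hg x hx) c4 C4 d4 D4 h4 ξ hξ⟩, fun ξ₁ hξ₁ ξ₂ hξ₂ => ?_⟩
  rw [← S.G_q g hg]
  have hb := q_bound (g.2 ξ₁) (g.2 ξ₂)
  have hn : -q (g.2 ξ₁) (g.2 ξ₂) ≤ |q (g.2 ξ₁) (g.2 ξ₂)| := neg_le_abs _
  have hmul : 4 * ‖g.2 ξ₁‖ * ‖g.2 ξ₂‖ ≤ C * ‖g.2 ξ₁‖ * ‖g.2 ξ₂‖ := by
    have := mul_le_mul_of_nonneg_right D5 (mul_nonneg (norm_nonneg (g.2 ξ₁)) (norm_nonneg (g.2 ξ₂)))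
    linarith
  linarith

end A_unif5

alias unif5 := A_unif5.unif5

namespace A_np_pos5

theorem np_pos5_eps {R : ℝ} (hRp : 0 < R) :
    0 < 1 / (4 * (1 + R) * (1 + R)) ∧ 1 / (4 * (1 + R) * (1 + R)) * (1 + R) ≤ 1 / 4 := by
  have h0 : (1 + R) ≠ 0 := by positivity
  refine ⟨by positivity, ?_⟩
  have h1 : 1 / (4 * (1 + R) * (1 + R)) * (1 + R) = 1 / (4 * (1 + R)) := by
    field_simp
  rw [h1, div_le_div_iff₀ (by positivity) (by norm_num)]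
  linarith

theorem np_pos5_cs {w k ε a1 a2 b1 b2 : ℝ} (hεp : 0 < ε) (hwp : 0 < w) (hkp : 0 < k)
    (ha : a1 * a1 + a2 * a2 = w ^ 2 + k ^ 2) (hb : b1 * b1 + b2 * b2 ≤ ε ^ 2) :
    |a1 * b1 + a2 * b2| ≤ ε * (w + k) := by
  have hB : 0 ≤ ε * (w + k) := by positivity
  have hcs : (a1 * b1 + a2 * b2) ^ 2 ≤ (a1 * a1 + a2 * a2) * (b1 * b1 + b2 * b2) := by
    nlinarith [sq_nonneg (a1 * b2 - a2 * b1)]
  have h1 : (a1 * b1 + a2 * b2) ^ 2 ≤ (ε * (w + k)) ^ 2 := by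
    calc (a1 * b1 + a2 * b2) ^ 2 ≤ (a1 * a1 + a2 * a2) * (b1 * b1 + b2 * b2) := hcs
      _ ≤ (w ^ 2 + k ^ 2) * ε ^ 2 := by
        rw [ha]
        exact mul_le_mul_of_nonneg_left hb (by positivity)
      _ ≤ (ε * (w + k)) ^ 2 := by
        have h2 : w ^ 2 + k ^ 2 ≤ (w + k) ^ 2 := by nlinarith [mul_pos hwp hkp]
        calc (w ^ 2 + k ^ 2) * ε ^ 2 ≤ (w + k) ^ 2 * ε ^ 2 :=
              mul_le_mul_of_nonneg_right h2 (by positivity)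
          _ = (ε * (w + k)) ^ 2 := by ring
  exact abs_le_of_sq_le_sq h1 hB

theorem np_pos5_real {w k u n d R ε : ℝ} (hεp : 0 < ε)
    (hεR : ε * (1 + R) ≤ 1 / 4) (hwp : 0 < w) (hkp : 0 < k) (hkR : k ≤ R * w)
    (hwR : w ≤ R * k) (hu0 : 0 ≤ u) (hd : |d| ≤ ε * (w + k))
    (hkn : k * n = w * u - d) (hun : 1 ≤ u ^ 2 + n ^ 2) : 0 < n := by
  have hd1 : d ≤ ε * (w + k) := le_trans (le_abs_self _) hd
  by_contra hneg
  push Not at hneg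
  have hkn0 : k * n ≤ 0 := mul_nonpos_of_nonneg_of_nonpos hkp.le hneg
  have hu1 : u ≤ 1 / 4 := by
    have h1 : w * u ≤ w * (1 / 4) := by
      calc w * u ≤ ε * (w + k) := by linarith
        _ ≤ ε * (w + R * w) := mul_le_mul_of_nonneg_left (by linarith) hεp.le
        _ = w * (ε * (1 + R)) := by ring
        _ ≤ w * (1 / 4) := mul_le_mul_of_nonneg_left hεR hwp.le
    exact le_of_mul_le_mul_left h1 hwp
  have hn1 : -n ≤ 1 / 4 := by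
    have h1 : k * (-n) ≤ k * (1 / 4) := by
      have hwu : 0 ≤ w * u := mul_nonneg hwp.le hu0
      calc k * (-n) = d - w * u := by linarith
        _ ≤ ε * (w + k) := by linarith
        _ ≤ ε * (R * k + k) := mul_le_mul_of_nonneg_left (by linarith) hεp.le
        _ = k * (ε * (1 + R)) := by ring
        _ ≤ k * (1 / 4) := mul_le_mul_of_nonneg_left hεR hkp.le
    exact le_of_mul_le_mul_left h1 hkp
  nlinarith


theorem np_pos5 (S : Up) {N : V4} (hN : N ∈ Dual5 S) {ξ : V4} (hξ : ξ ∈ Lam5 S) (h0 : q ξ N = 0) :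
    ∃ x ∈ H2, 0 < q (S.p.N x) N := by
  obtain ⟨c, C, hc, hC, hunif⟩ := unif5 S
  have hRp : 0 < C / c := div_pos hC hc
  obtain ⟨hεp, hεR⟩ := np_pos5_eps hRp
  generalize 1 / (4 * (1 + C / c) * (1 + C / c)) = ε at hεp hεR
  obtain ⟨x, hx, hxv⟩ := near2 S.gp (Z := N) hN.2 (ε := ε ^ 2) (by positivity)
  refine ⟨x, hx, ?_⟩
  obtain ⟨e₁, e₂, he⟩ := gon_exists S.gp.core hx
  have hP1 := parseval2 S.gp.core hx he ξ ξ
  have hP2 := parseval2 S.gp.core hx he ξ N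
  have hP3 := parseval2 S.gp.core hx he N N
  rw [hξ.2.1] at hP1
  rw [h0] at hP2
  rw [hN.1] at hP3 hxv
  have hu := hN.2 x hx
  obtain ⟨μ, hμ, _⟩ := hunif x hx
  obtain ⟨hμ0, ⟨hw1, hw2⟩, ⟨hk1, hk2⟩⟩ := hμ ξ hξ
  have comm : ∀ X Y : V4, q X Y = q Y X := by
    intro X Y
    unfold q
    ring
  rw [comm (S.p.X x) ξ] at hw1 hw2
  rw [comm (S.p.N x) ξ] at hk1 hk2
  rw [comm (S.p.X x) N] at hu hxv
  rw [comm (S.p.N x) N] at hxv ⊢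
  generalize q ξ (S.p.X x) = w' at *
  generalize q ξ (S.p.N x) = k' at *
  generalize q N (S.p.X x) = u' at *
  generalize q N (S.p.N x) = n at *
  generalize q ξ (S.p.dX x e₁) = a1 at *
  generalize q ξ (S.p.dX x e₂) = a2 at *
  generalize q N (S.p.dX x e₁) = b1 at *
  generalize q N (S.p.dX x e₂) = b2 at *
  generalize μ ξ = m at *
  clear hμ hunif hξ hN he hx comm h0
  have hwp : 0 < -w' := lt_of_lt_of_le (mul_pos hc hμ0) hw1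
  have hkp : 0 < -k' := lt_of_lt_of_le (mul_pos hc hμ0) hk1
  have hkR : -k' ≤ C / c * -w' := by
    have h1 : m ≤ -w' / c := by
      rw [le_div_iff₀ hc]
      linarith
    calc -k' ≤ C * m := hk2
      _ ≤ C * (-w' / c) := mul_le_mul_of_nonneg_left h1 hC.le
      _ = C / c * -w' := by ring
  have hwR : -w' ≤ C / c * -k' := by
    have h1 : m ≤ -k' / c := by
      rw [le_div_iff₀ hc]
      linarith
    calc -w' ≤ C * m := hw2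
      _ ≤ C * (-k' / c) := mul_le_mul_of_nonneg_left h1 hC.le
      _ = C / c * -k' := by ring
  have hd := np_pos5_cs (a1 := a1) (a2 := a2) (b1 := b1) (b2 := b2) hεp hwp hkp
    (by nlinarith) (by nlinarith)
  exact np_pos5_real (d := a1 * b1 + a2 * b2) hεp hεR hwp hkp hkR hwR
    (u := -u') (by linarith) hd (by nlinarith) (by nlinarith [mul_self_nonneg b1, mul_self_nonneg b2])

end A_np_pos5

alias np_pos5 := A_np_pos5.np_pos5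

namespace A_pos_n5

theorem q_comm5' (X Y : V4) : q X Y = q Y X := by
  unfold q; ring

theorem q_cont5' {f g : ℝ → V4} (hf : Continuous f) (hg : Continuous g) :
    Continuous (fun t => q (f t) (g t)) := by
  unfold q
  have h1 : ∀ i, Continuous (fun t => f t i) := fun i => (continuous_apply i).comp hf
  have h2 : ∀ i, Continuous (fun t => g t i) := fun i => (continuous_apply i).comp hg
  exact ((((h1 0).mul (h2 0)).neg.add ((h1 1).mul (h2 1))).add ((h1 2).mul (h2 2))).sub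
    ((h1 3).mul (h2 3))

theorem pos_n5 (S : Up) {N : V4} (hN : N ∈ Dual5 S) {ξ : V4} (hξ : ξ ∈ Lam5 S) (h0 : q ξ N = 0)
    {x : V3} (hx : x ∈ H2) (hu : -q (S.p.X x) N < 1) : 0 < q (S.p.N x) N := by
  obtain ⟨hNN, hNX⟩ := hN
  have hξξ : q ξ ξ = 0 := hξ.2.1
  -- the determinant
  have hD0 : ∀ y ∈ H2, q (S.p.X y) ξ * q (S.p.N y) N - q (S.p.N y) ξ * q (S.p.X y) N ≠ 0 := by
    intro y hy hD
    have hw := (Lam_strict5 S hξ hy).1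
    have h1 : q (q (S.p.X y) N • ξ - q (S.p.X y) ξ • N) (S.p.X y) = 0 := by
      have : q (q (S.p.X y) N • ξ - q (S.p.X y) ξ • N) (S.p.X y)
          = q (S.p.X y) N * q (S.p.X y) ξ - q (S.p.X y) ξ * q (S.p.X y) N := by
        simp only [q, Pi.sub_apply, Pi.smul_apply, smul_eq_mul]; ring
      rw [this]; ring
    have h2 : q (q (S.p.X y) N • ξ - q (S.p.X y) ξ • N) (S.p.N y) = 0 := by
      have : q (q (S.p.X y) N • ξ - q (S.p.X y) ξ • N) (S.p.N y)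
          = q (S.p.X y) N * q (S.p.N y) ξ - q (S.p.X y) ξ * q (S.p.N y) N := by
        simp only [q, Pi.sub_apply, Pi.smul_apply, smul_eq_mul]; ring
      rw [this]; linarith
    have h3 := compl2 S.gp.core hy h1 h2
    have h4 : ∀ a b : ℝ, q (a • ξ - b • N) (a • ξ - b • N)
        = a ^ 2 * q ξ ξ - 2 * a * b * q ξ N + b ^ 2 * q N N := by
      intro a b
      simp only [q, Pi.sub_apply, Pi.smul_apply, smul_eq_mul]; ring
    rw [h4, hξξ, h0, hNN] at h3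
    have : 0 < q (S.p.X y) ξ ^ 2 := sq_pos_of_neg hw
    linarith
  obtain ⟨xb, hxb, hpos⟩ := np_pos5 S ⟨hNN, hNX⟩ hξ h0
  have hDb : q (S.p.X xb) ξ * q (S.p.N xb) N - q (S.p.N xb) ξ * q (S.p.X xb) N < 0 := by
    obtain ⟨hw, hk⟩ := Lam_strict5 S hξ hxb
    have h1 : q (S.p.X xb) ξ * q (S.p.N xb) N < 0 := mul_neg_of_neg_of_pos hw hpos
    have h2 : 0 ≤ q (S.p.N xb) ξ * q (S.p.X xb) N := mul_nonneg_of_nonpos_of_nonpos hk.le (hNX xb hxb)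
    linarith
  have hDx : q (S.p.X x) ξ * q (S.p.N x) N - q (S.p.N x) ξ * q (S.p.X x) N < 0 := by
    by_contra hcon
    rw [not_lt] at hcon
    obtain ⟨d, v, -, hv, hd⟩ := exists_geo hxb hx
    have cX : Continuous (fun s => S.p.X (geo xb v s)) :=
      continuous_iff_continuousAt.2 (fun s => (S.gp.core.geoX xb hxb v hv s).continuousAt)
    have cN : Continuous (fun s => S.p.N (geo xb v s)) :=
      continuous_iff_continuousAt.2 (fun s => (S.gp.core.geoN xb hxb v hv s).continuousAt)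
    have cf : Continuous (fun s => q (S.p.X (geo xb v s)) ξ * q (S.p.N (geo xb v s)) N
        - q (S.p.N (geo xb v s)) ξ * q (S.p.X (geo xb v s)) N) :=
      ((q_cont5' cX continuous_const).mul (q_cont5' cN continuous_const)).sub
        ((q_cont5' cN continuous_const).mul (q_cont5' cX continuous_const))
    obtain ⟨t, ht⟩ := mem_range_of_exists_le_of_exists_ge cf (c := 0)
      ⟨0, by simp only [(geo_zero xb v).1]; exact hDb.le⟩ ⟨d, by simp only [hd]; exact hcon⟩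
    exact hD0 _ (geo_mem hxb hv t) ht
  by_contra hn
  rw [not_lt] at hn
  obtain ⟨hw, hk⟩ := Lam_strict5 S hξ hx
  have hu0 := hNX x hx
  obtain ⟨e₁, e₂, he⟩ := gon_exists S.gp.core hx
  have p1 := parseval2 S.gp.core hx he ξ ξ
  have p2 := parseval2 S.gp.core hx he N N
  have p3 := parseval2 S.gp.core hx he ξ N
  rw [hξξ] at p1
  rw [hNN] at p2
  rw [h0] at p3
  rw [q_comm5' ξ (S.p.X x), q_comm5' ξ (S.p.N x)] at p1 p3
  rw [q_comm5' N (S.p.X x), q_comm5' N (S.p.N x)] at p2 p3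
  generalize q ξ (S.p.dX x e₁) = a1 at *
  generalize q ξ (S.p.dX x e₂) = a2 at *
  generalize q N (S.p.dX x e₁) = b1 at *
  generalize q N (S.p.dX x e₂) = b2 at *
  generalize q (S.p.X x) ξ = w at *
  generalize q (S.p.N x) ξ = k at *
  generalize q (S.p.X x) N = u at *
  generalize q (S.p.N x) N = n at *
  have cs : (a1 * b1 + a2 * b2) ^ 2 ≤ (a1 ^ 2 + a2 ^ 2) * (b1 ^ 2 + b2 ^ 2) := by
    nlinarith [sq_nonneg (a1 * b2 - a2 * b1)]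
  have e1 : a1 ^ 2 + a2 ^ 2 = w ^ 2 + k ^ 2 := by linarith
  have e2 : b1 ^ 2 + b2 ^ 2 = u ^ 2 + n ^ 2 - 1 := by linarith
  have e3 : a1 * b1 + a2 * b2 = w * u + k * n := by linarith
  rw [e1, e2, e3] at cs
  have key : w ^ 2 + k ^ 2 ≤ (w * n - k * u) ^ 2 := by nlinarith
  have l1 : 0 < -(w * n - k * u) := by linarith
  have l2 : -(w * n - k * u) < -k := by
    have h1 : 0 ≤ w * n := mul_nonneg_of_nonpos_of_nonpos hw.le hn
    have h2 : k * u < -k := by nlinarith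
    linarith
  have l3 : (w * n - k * u) ^ 2 < k ^ 2 := by nlinarith
  have : 0 ≤ w ^ 2 := sq_nonneg w
  linarith

end A_pos_n5

alias pos_n5 := A_pos_n5.pos_n5

namespace A_f_lower5

theorem f_lower5 (S : Up) : ∃ c₀ : ℝ, 0 < c₀ ∧ ∀ ξ₁ ∈ Lam5 S, ∀ ξ₂ ∈ Lam5 S, q ξ₁ ξ₂ = -1/2 →
    ∀ x ∈ H2, c₀ ≤ -q (S.p.X x) (ξ₁ + ξ₂) ∧ c₀ ≤ -q (S.p.N x) (ξ₁ + ξ₂) := by
  obtain ⟨c, C, hc, hC, hu⟩ := unif5 S
  refine ⟨c * Real.sqrt (2 / C), mul_pos hc (Real.sqrt_pos.mpr (div_pos two_pos hC)), ?_⟩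
  intro ξ₁ h1 ξ₂ h2 h12 x hx
  obtain ⟨μ, hμ, hμ2⟩ := hu x hx
  obtain ⟨p1, ⟨m1, -⟩, ⟨n1, -⟩⟩ := hμ ξ₁ h1
  obtain ⟨p2, ⟨m2, -⟩, ⟨n2, -⟩⟩ := hμ ξ₂ h2
  have h3 := hμ2 ξ₁ h1 ξ₂ h2
  rw [h12] at h3
  have hadd : ∀ Y : V4, q Y (ξ₁ + ξ₂) = q Y ξ₁ + q Y ξ₂ := by
    intro Y
    simp only [q, Pi.add_apply]
    ring
  have hs : Real.sqrt (2 / C) ≤ μ ξ₁ + μ ξ₂ := by
    rw [Real.sqrt_le_left (by linarith), div_le_iff₀ hC]
    nlinarith [mul_nonneg hC.le (sq_nonneg (μ ξ₁ - μ ξ₂))]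
  have hm := mul_le_mul_of_nonneg_left hs hc.le
  rw [hadd, hadd]
  refine ⟨?_, ?_⟩ <;> linarith

end A_f_lower5

alias f_lower5 := A_f_lower5.f_lower5

namespace A_growth5

/- Proof:
f_growth for S.gp
-/
theorem growth5 (S : Up) : ∃ c₁ : ℝ, 0 < c₁ ∧ ∀ ξ₁ ∈ Lam5 S, ∀ ξ₂ ∈ Lam5 S, q ξ₁ ξ₂ = -1/2 →
    ∃ y ∈ H2, ∀ x ∈ H2, ∀ d : ℝ, 0 ≤ d → -eta y x = Real.cosh d →
      c₁ * Real.cosh (S.c * d) ≤ -q (S.p.X x) (ξ₁ + ξ₂) := by
  obtain ⟨c₀, hc₀, h⟩ := f_lower5 S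
  refine ⟨c₀ / 2, by positivity, ?_⟩
  intro ξ₁ h₁ ξ₂ h₂ h12
  exact f_growth S.gp hc₀ hc₀ (fun x hx => (h ξ₁ h₁ ξ₂ h₂ h12 x hx).1) (fun x hx => (h ξ₁ h₁ ξ₂ h₂ h12 x hx).2)

end A_growth5

alias growth5 := A_growth5.growth5

namespace A_f_proper5

theorem f_proper5_aux {c c₁ : ℝ} (hc : 0 < c) (hc₁ : 0 < c₁) {f : V3 → ℝ} {y : V3} (hy : y ∈ H2)
    (hf : ∀ x ∈ H2, ∀ d : ℝ, 0 ≤ d → -eta y x = Real.cosh d → c₁ * Real.cosh (c * d) ≤ f x)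
    {x₀ : V3} (hx₀ : x₀ ∈ H2) (R : ℝ) :
    ∃ R', ∀ x ∈ H2, f x ≤ R → -eta x₀ x ≤ R' := by
  obtain ⟨d₀, v₀, hd₀, hv₀, hg₀⟩ := exists_geo hx₀ hy
  have e₀ : -eta x₀ y ≤ Real.cosh d₀ := by
    rw [← hg₀, eta_geo hx₀ hv₀ d₀, neg_neg]
  refine ⟨Real.cosh (d₀ + |R / (c₁ * c)|), fun x hx hR => ?_⟩
  obtain ⟨d, v, hd, hv, hg⟩ := exists_geo hy hx
  have e₁ : -eta y x = Real.cosh d := by
    rw [← hg, eta_geo hy hv d, neg_neg]
  have h1 := (hf x hx d hd e₁).trans hR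
  have h2 : c * d ≤ Real.cosh (c * d) := by
    have h3 : c * d ≤ Real.sinh (c * d) := Real.self_le_sinh_iff.mpr (by positivity)
    exact h3.trans (Real.sinh_lt_cosh _).le
  have h4 : d ≤ R / (c₁ * c) := by
    rw [le_div_iff₀ (by positivity)]
    have h5 : c₁ * (c * d) ≤ c₁ * Real.cosh (c * d) := mul_le_mul_of_nonneg_left h2 hc₁.le
    nlinarith
  have h6 : d ≤ |R / (c₁ * c)| := h4.trans (le_abs_self _)
  refine (H2_triangle hx₀ hy hx hd₀ hd e₀ e₁.le).trans ?_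
  apply Real.cosh_le_cosh.mpr
  rw [abs_of_nonneg (by positivity), abs_of_nonneg (by positivity)]
  linarith

/- Proof:
same as f_proper2
-/
theorem f_proper5 (S : Up) {ξ₁ ξ₂ : V4} (h₁ : ξ₁ ∈ Lam5 S) (h₂ : ξ₂ ∈ Lam5 S) (h : q ξ₁ ξ₂ = -1/2)
    {x₀ : V3} (hx₀ : x₀ ∈ H2) (R : ℝ) :
    ∃ R', ∀ x ∈ H2, (-q (S.p.X x) (ξ₁ + ξ₂) ≤ R ∨ -q (S.p.N x) (ξ₁ + ξ₂) ≤ R) → -eta x₀ x ≤ R' := by
  obtain ⟨c₁, hc₁, hgr⟩ := growth5 S
  obtain ⟨y, hy, hp⟩ := hgr ξ₁ h₁ ξ₂ h₂ h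
  obtain ⟨c, C, hc, hC, hu⟩ := unif5 S
  have hSc : 0 < S.c := S.gp.c_pos
  obtain ⟨R1, hR1⟩ := f_proper5_aux hSc hc₁ hy hp hx₀ R
  obtain ⟨R3, hR3⟩ := f_proper5_aux hSc hc₁ hy hp hx₀ (C * (R / c))
  have qaddr : ∀ A B D : V4, q A (B + D) = q A B + q A D := by
    intro A B D; simp only [q, Pi.add_apply]; ring
  refine ⟨max R1 R3, fun x hx hor => ?_⟩
  rcases hor with h' | h'
  · exact (hR1 x hx h').trans (le_max_left _ _)
  · refine (hR3 x hx ?_).trans (le_max_right _ _)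
    obtain ⟨μ, hμ, -⟩ := hu x hx
    obtain ⟨-, ⟨p1, p2⟩, ⟨p3, p4⟩⟩ := hμ ξ₁ h₁
    obtain ⟨-, ⟨r1, r2⟩, ⟨r3, r4⟩⟩ := hμ ξ₂ h₂
    rw [qaddr] at h' ⊢
    have e1 : c * (μ ξ₁ + μ ξ₂) ≤ R := by linarith
    have e2 : μ ξ₁ + μ ξ₂ ≤ R / c := by
      rw [le_div_iff₀ hc]
      linarith
    have e3 : C * (μ ξ₁ + μ ξ₂) ≤ C * (R / c) := mul_le_mul_of_nonneg_left e2 hC.le
    linarith

end A_f_proper5

alias f_proper5 := A_f_proper5.f_proper5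

end Helper935.AdS
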