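import Pool.Agent.Helper935_AdS.HalfB

namespace Helper935.AdS

namespace A_upper5

theorem upper5_contq : Continuous fun p : V4 × V4 => q p.1 p.2 := by
  unfold q
  fun_prop

theorem upper5 (S : Up) {N : V4} (hN : N ∈ Dual5 S) {ξ : V4} (hξ : ξ ∈ Lam5 S) (h0 : q ξ N = 0)
    {x : V3} (hx : x ∈ H2) : S.sp x ≤ -q (S.p.X x) N := by
  by_contra hcon
  push Not at hcon
  obtain ⟨hts, ⟨hspc, -⟩, -⟩ := heights5 S
  have hsp1 : ∀ y ∈ H2, S.sp y < 1 := by
    intro y hy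
    have h1 := (hts y hy).2
    have h2 := S.cp_pos y hy
    have h3 := S.sp_pos y hy
    nlinarith
  let K : Set (V4 × V3) := {p : V4 × V3 | p.1 ∈ Dual5 S ∧ p.2 ∈ S.F ∧ -1 ≤ q (S.p.X p.2) p.1}
  have hK : IsCompact K := (Dual_cpt5 S 1)
  let C : Set ((V4 × V3) × V4) := {p | q p.2 p.2 = 0 ∧ (∀ x ∈ H2, q (S.p.X x) p.2 ≤ 0 ∧ q (S.p.N x) p.2 ≤ 0) ∧
      q p.2 p.1.1 = 0}
  have hC : IsClosed C := by
    have c1 : ∀ A : V4, Continuous fun p : (V4 × V3) × V4 => q A p.2 := fun A =>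
      upper5_contq.comp (continuous_const.prodMk continuous_snd)
    have c2 : Continuous fun p : (V4 × V3) × V4 => q p.2 p.2 :=
      upper5_contq.comp (continuous_snd.prodMk continuous_snd)
    have c3 : Continuous fun p : (V4 × V3) × V4 => q p.2 p.1.1 :=
      upper5_contq.comp (continuous_snd.prodMk (continuous_fst.comp continuous_fst))
    have e : C = {p | q p.2 p.2 = 0} ∩ ((⋂ x ∈ H2,
        ({p | q (S.p.X x) p.2 ≤ 0} ∩ {p | q (S.p.N x) p.2 ≤ 0})) ∩ {p | q p.2 p.1.1 = 0}) := by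
      ext p
      simp only [C, Set.mem_setOf_eq, Set.mem_inter_iff, Set.mem_iInter]
    rw [e]
    refine IsClosed.inter (isClosed_eq c2 continuous_const) (IsClosed.inter ?_
      (isClosed_eq c3 continuous_const))
    refine isClosed_biInter fun x _ => ?_
    exact (isClosed_le (c1 _) continuous_const).inter (isClosed_le (c1 _) continuous_const)
  let P : Set ((V4 × V3) × V4) := (K ×ˢ Metric.sphere (0 : V4) 1) ∩ C
  have hP : IsCompact P := (hK.prod (isCompact_sphere 0 1)).inter_right hC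
  let f : (V4 × V3) × V4 → ℝ := fun p => -q (S.p.X p.1.2) p.1.1 - S.sp p.1.2
  have hf : ContinuousOn f P := by
    have m : Set.MapsTo (fun p : (V4 × V3) × V4 => p.1.2) P H2 := by
      rintro p ⟨⟨hp, -⟩, -⟩
      exact S.F_sub hp.2.1
    have c0 : ContinuousOn (fun p : (V4 × V3) × V4 => p.1.2) P :=
      (continuous_snd.comp continuous_fst).continuousOn
    have c1 : ContinuousOn (fun p : (V4 × V3) × V4 => S.p.X p.1.2) P :=
      S.gp.core.contX.comp c0 m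
    have c2 : ContinuousOn (fun p : (V4 × V3) × V4 => S.sp p.1.2) P := hspc.comp c0 m
    have c3 : ContinuousOn (fun p : (V4 × V3) × V4 => q (S.p.X p.1.2) p.1.1) P :=
      upper5_contq.comp_continuousOn (c1.prodMk (continuous_fst.comp continuous_fst).continuousOn)
    exact c3.neg.sub c2
  have key : ∀ N' ∈ Dual5 S, ∀ ξ' ∈ Lam5 S, q ξ' N' = 0 → ∀ y ∈ H2, -q (S.p.X y) N' ≤ 1 →
      ∃ p ∈ P, f p = -q (S.p.X y) N' - S.sp y := by
    intro N' hN' ξ' hξ' h' y hy hu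
    obtain ⟨g, hg, hgF⟩ := S.F_cov y hy
    have hl := Lam_G5 S hξ' hg
    have hnorm : 0 < ‖g.2 ξ'‖ := norm_pos_iff.2 hl.1
    have hl2 := Lam_smul5 S hl (inv_pos.2 hnorm)
    have hqe : q (S.p.X (g.1 y)) (g.2 N') = q (S.p.X y) N' := by
      rw [S.G_Xp g hg y hy, S.G_q g hg]
    refine ⟨((g.2 N', g.1 y), ‖g.2 ξ'‖⁻¹ • g.2 ξ'), ⟨⟨⟨?_, hgF, ?_⟩, ?_⟩, hl2.2.1, hl2.2.2, ?_⟩, ?_⟩
    · exact Dual_G5 S hN' hg
    · simp only
      rw [hqe]; linarith
    · rw [mem_sphere_zero_iff_norm, norm_smul, norm_inv, norm_norm]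
      exact inv_mul_cancel₀ hnorm.ne'
    · have : q (‖g.2 ξ'‖⁻¹ • g.2 ξ') (g.2 N') = ‖g.2 ξ'‖⁻¹ * q (g.2 ξ') (g.2 N') := by
        simp only [q, Pi.smul_apply, smul_eq_mul]; ring
      simp only
      rw [this, S.G_q g hg, h', mul_zero]
    · simp only [f]
      rw [hqe, S.G_sp g hg y hy]
  obtain ⟨p0, hp0, hfp0⟩ := key N hN ξ hξ h0 x hx (by linarith [hsp1 x hx])
  obtain ⟨p1, hp1, hmin⟩ := hP.exists_isMinOn ⟨p0, hp0⟩ hf
  have hf1 : f p1 < 0 := by
    have := hmin hp0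
    simp only [Set.mem_setOf_eq] at this
    linarith
  obtain ⟨⟨N1, y1⟩, ξ1⟩ := p1
  obtain ⟨⟨⟨hN1, hy1F, hu1⟩, hs1⟩, hq1, hq2, hq3⟩ := hp1
  simp only at hN1 hy1F hu1 hs1 hq1 hq2 hq3
  have hy1 : y1 ∈ H2 := S.F_sub hy1F
  have hξ1 : ξ1 ∈ Lam5 S := by
    refine ⟨?_, hq1, hq2⟩
    rintro rfl
    simp at hs1
  have hf1' : -q (S.p.X y1) N1 - S.sp y1 < 0 := hf1
  have hmax : ∀ y ∈ H2, q (S.p.X y) N1 - q (S.p0.X y) EE ≤ q (S.p.X y1) N1 - q (S.p0.X y1) EE := by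
    intro y hy
    rw [(hts y hy).1, (hts y1 hy1).1]
    by_cases hu : -q (S.p.X y) N1 ≤ 1
    · obtain ⟨p2, hp2, hfp2⟩ := key N1 hN1 ξ1 hξ1 hq3 y hy hu
      have h1 := hmin hp2
      simp only [Set.mem_setOf_eq] at h1
      rw [hfp2] at h1
      have h2 : -q (S.p.X y1) N1 - S.sp y1 ≤ -q (S.p.X y) N1 - S.sp y := h1
      linarith
    · push Not at hu
      have := hsp1 y hy
      linarith
  obtain ⟨hgrad, hhess⟩ := extD2 S.gp.core S.gp0.core S.iso_p hy1 hmax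
  have hiso : Iso S.p0 S.p := by
    refine ⟨fun x hx v w hv hw => (S.iso_p.metric x hx v w hv hw).symm,
      fun x hx v w hv hw => (S.iso_p.tang x hx v w hv hw).symm,
      fun x hx v w hv hw => (S.iso_p.det x hx v w hv hw).symm⟩
  have hu_lt : -q (S.p.X y1) N1 < 1 := by linarith [hsp1 y1 hy1]
  have hn := pos_n5 S hN1 hξ1 hq3 hy1 hu_lt
  have hdet := detD2 S.gp0.core S.gp.core hiso hy1 (α := q (S.p0.N y1) EE) (β := q (S.p.N y1) N1)
    (l := S.sp y1 + q (S.p.X y1) N1) hn (by linarith) (by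
      intro v hv
      have h1 := hhess v hv
      have h2 := S.iso_p.metric y1 hy1 v v hv.1 hv.1
      rw [(hts y1 hy1).1] at h1
      rw [← h2]
      nlinarith)
  have hEE : q EE EE = -1 := by simp [q, EE]
  have hnorm := normD2 S.gp.core S.gp0.core S.iso_p hy1 (Z := N1) (Z₀ := EE)
    (by rw [hN1.1, hEE]) hgrad
  rw [(hts y1 hy1).1] at hnorm
  have hun : q (S.p.X y1) N1 ≤ 0 := hN1.2 y1 hy1
  nlinarith

end A_upper5

alias upper5 := A_upper5.upper5

namespace A_dich5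

/- Proof:
Let P = {(N,xi,y) : N in Dual5, xi in Lam5, |xi| = 1, q xi N = 0, y in F, -q (Xp y) N <= 2}: compact (closed subset of the product of Dual_cpt5 (C = 2) and the unit sphere). If P is empty the second alternative holds with e = 1 (for N, xi, x as there, translate x into F; if -q (Xp x) N <= 2 the translate would be in P; so -q (Xp x) N > 2 >= sp x + 1, sp <= 1 by heights5). Otherwise f = -q (Xp y) N - sp y >= 0 (upper5) attains its minimum e0 on P. If e0 = 0 the first alternative. If e0 > 0 the second with e = min e0 1: translate by g (g.2 N, g.2 xi/|g.2 xi|, g.1 x) as in the proof of upper2 (see hint).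
-/
theorem dich5_contq : Continuous fun p : V4 × V4 => q p.1 p.2 := by
  unfold q
  fun_prop

theorem dich5 (S : Up) : (∃ N ∈ Dual5 S, ∃ ξ ∈ Lam5 S, q ξ N = 0 ∧ ∃ x ∈ H2, -q (S.p.X x) N = S.sp x) ∨
    ∃ ε : ℝ, 0 < ε ∧ ∀ N ∈ Dual5 S, ∀ ξ ∈ Lam5 S, q ξ N = 0 → ∀ x ∈ H2, S.sp x + ε ≤ -q (S.p.X x) N := by
  obtain ⟨hts, ⟨hspc, -⟩, -⟩ := heights5 S
  have hsp1 : ∀ y ∈ H2, S.sp y < 1 := by
    intro y hy
    have h1 := (hts y hy).2
    have h2 := S.cp_pos y hy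
    have h3 := S.sp_pos y hy
    nlinarith
  let K : Set (V4 × V3) := {p : V4 × V3 | p.1 ∈ Dual5 S ∧ p.2 ∈ S.F ∧ -2 ≤ q (S.p.X p.2) p.1}
  have hK : IsCompact K := Dual_cpt5 S 2
  let C : Set ((V4 × V3) × V4) := {p | q p.2 p.2 = 0 ∧ (∀ x ∈ H2,
    q (S.p.X x) p.2 ≤ 0 ∧ q (S.p.N x) p.2 ≤ 0) ∧ q p.2 p.1.1 = 0}
  have hC : IsClosed C := by
    have c1 : ∀ A : V4, Continuous fun p : (V4 × V3) × V4 => q A p.2 := fun A =>
      dich5_contq.comp (continuous_const.prodMk continuous_snd)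
    have c2 : Continuous fun p : (V4 × V3) × V4 => q p.2 p.2 :=
      dich5_contq.comp (continuous_snd.prodMk continuous_snd)
    have c3 : Continuous fun p : (V4 × V3) × V4 => q p.2 p.1.1 :=
      dich5_contq.comp (continuous_snd.prodMk (continuous_fst.comp continuous_fst))
    have e : C = {p | q p.2 p.2 = 0} ∩ ((⋂ x ∈ H2,
        ({p | q (S.p.X x) p.2 ≤ 0} ∩ {p | q (S.p.N x) p.2 ≤ 0})) ∩ {p | q p.2 p.1.1 = 0}) := by
      ext p
      simp only [C, Set.mem_setOf_eq, Set.mem_inter_iff, Set.mem_iInter]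
    rw [e]
    refine IsClosed.inter (isClosed_eq c2 continuous_const) (IsClosed.inter ?_
      (isClosed_eq c3 continuous_const))
    refine isClosed_biInter fun x _ => ?_
    exact (isClosed_le (c1 _) continuous_const).inter (isClosed_le (c1 _) continuous_const)
  let P : Set ((V4 × V3) × V4) := (K ×ˢ Metric.sphere (0 : V4) 1) ∩ C
  have hP : IsCompact P := (hK.prod (isCompact_sphere 0 1)).inter_right hC
  let f : (V4 × V3) × V4 → ℝ := fun p => -q (S.p.X p.1.2) p.1.1 - S.sp p.1.2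
  have hf : ContinuousOn f P := by
    have m : Set.MapsTo (fun p : (V4 × V3) × V4 => p.1.2) P H2 := by
      rintro p ⟨⟨hp, -⟩, -⟩
      exact S.F_sub hp.2.1
    have c0 : ContinuousOn (fun p : (V4 × V3) × V4 => p.1.2) P :=
      (continuous_snd.comp continuous_fst).continuousOn
    have c1 : ContinuousOn (fun p : (V4 × V3) × V4 => S.p.X p.1.2) P :=
      S.gp.core.contX.comp c0 m
    have c2 : ContinuousOn (fun p : (V4 × V3) × V4 => S.sp p.1.2) P := hspc.comp c0 m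
    have c3 : ContinuousOn (fun p : (V4 × V3) × V4 => q (S.p.X p.1.2) p.1.1) P :=
      dich5_contq.comp_continuousOn (c1.prodMk (continuous_fst.comp continuous_fst).continuousOn)
    exact c3.neg.sub c2
  have key : ∀ N' ∈ Dual5 S, ∀ ξ' ∈ Lam5 S, q ξ' N' = 0 → ∀ y ∈ H2, -q (S.p.X y) N' ≤ 2 →
      ∃ p ∈ P, f p = -q (S.p.X y) N' - S.sp y := by
    intro N' hN' ξ' hξ' h' y hy hu
    obtain ⟨g, hg, hgF⟩ := S.F_cov y hy
    have hl := Lam_G5 S hξ' hg
    have hnorm : 0 < ‖g.2 ξ'‖ := norm_pos_iff.2 hl.1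
    have hl2 := Lam_smul5 S hl (inv_pos.2 hnorm)
    have hqe : q (S.p.X (g.1 y)) (g.2 N') = q (S.p.X y) N' := by
      rw [S.G_Xp g hg y hy, S.G_q g hg]
    refine ⟨((g.2 N', g.1 y), ‖g.2 ξ'‖⁻¹ • g.2 ξ'), ⟨⟨⟨?_, hgF, ?_⟩, ?_⟩, hl2.2.1, hl2.2.2, ?_⟩, ?_⟩
    · exact Dual_G5 S hN' hg
    · simp only
      rw [hqe]; linarith
    · rw [mem_sphere_zero_iff_norm, norm_smul, norm_inv, norm_norm]
      exact inv_mul_cancel₀ hnorm.ne'
    · have : q (‖g.2 ξ'‖⁻¹ • g.2 ξ') (g.2 N') = ‖g.2 ξ'‖⁻¹ * q (g.2 ξ') (g.2 N') := by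
        simp only [q, Pi.smul_apply, smul_eq_mul]; ring
      simp only
      rw [this, S.G_q g hg, h', mul_zero]
    · simp only [f]
      rw [hqe, S.G_sp g hg y hy]
  rcases Set.eq_empty_or_nonempty P with hem | hne
  · right
    refine ⟨1, one_pos, ?_⟩
    intro N hN ξ hξ h0 x hx
    by_contra hcon
    push Not at hcon
    obtain ⟨p, hp, -⟩ := key N hN ξ hξ h0 x hx (by linarith [hsp1 x hx])
    rw [hem] at hp
    exact hp
  · obtain ⟨p1, hp1, hmin⟩ := hP.exists_isMinOn hne hf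
    obtain ⟨⟨N1, y1⟩, ξ1⟩ := p1
    have hp1' := hp1
    obtain ⟨⟨⟨hN1, hy1F, hu1⟩, hs1⟩, hq1, hq2, hq3⟩ := hp1'
    simp only at hN1 hy1F hu1 hs1 hq1 hq2 hq3
    have hy1 : y1 ∈ H2 := S.F_sub hy1F
    have hξ1 : ξ1 ∈ Lam5 S := by
      refine ⟨?_, hq1, hq2⟩
      rintro rfl
      simp at hs1
    have hup := upper5 S hN1 hξ1 hq3 hy1
    rcases hup.eq_or_lt with h | h
    · exact Or.inl ⟨N1, hN1, ξ1, hξ1, hq3, y1, hy1, h.symm⟩
    · right
      refine ⟨min (-q (S.p.X y1) N1 - S.sp y1) 1, lt_min (by linarith) one_pos, ?_⟩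
      intro N hN ξ hξ h0 x hx
      by_cases hu : -q (S.p.X x) N ≤ 2
      · obtain ⟨p2, hp2, hfp2⟩ := key N hN ξ hξ h0 x hx hu
        have h1 := hmin hp2
        simp only [Set.mem_setOf_eq] at h1
        rw [hfp2] at h1
        have h2 : -q (S.p.X y1) N1 - S.sp y1 ≤ -q (S.p.X x) N - S.sp x := h1
        have h3 := min_le_left (-q (S.p.X y1) N1 - S.sp y1) 1
        linarith
      · push Not at hu
        have h3 := min_le_right (-q (S.p.X y1) N1 - S.sp y1) 1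
        linarith [hsp1 x hx]

end A_dich5

alias dich5 := A_dich5.dich5

namespace A_vertical5

theorem vertical5_qadd (X Y Z : V4) : q X (Y + Z) = q X Y + q X Z := by
  simp only [q, Pi.add_apply]; ring

theorem vertical5_qsmul (X Y : V4) (t : ℝ) : q X (t • Y) = t * q X Y := by
  simp only [q, Pi.smul_apply, smul_eq_mul]; ring

theorem vertical5_qsymm (X Y : V4) : q X Y = q Y X := by
  simp only [q]; ring

theorem vertical5_cont {N : V3 → V4} (hN : ContinuousOn N H2) (Z : V4) :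
    ContinuousOn (fun x => q (N x) Z) H2 := by
  have h : ∀ i : Fin 4, ContinuousOn (fun x => N x i) H2 := fun i =>
    (continuous_apply i).comp_continuousOn hN
  unfold q
  exact (((h 0).mul_const _).neg.add ((h 1).mul_const _)).add ((h 2).mul_const _) |>.sub
    ((h 3).mul_const _)



 /- Proof:
same as vertical2
-/
theorem vertical5 (S : Up) {N : V4} (hN : N ∈ Dual5 S) {ξ₁ ξ₂ : V4} (h₁ : ξ₁ ∈ Lam5 S) (h₂ : ξ₂ ∈ Lam5 S)
    (h : q ξ₁ ξ₂ = -1/2) (h1N : q ξ₁ N = 0) (h2N : q ξ₂ N = 0) :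
    ∃ x ∈ H2, ∃ t : ℝ, 0 < t ∧ ξ₁ + ξ₂ + t • N = Real.sqrt (1 + t ^ 2) • S.p.X x := by
  obtain ⟨hNN, hNX⟩ := hN
  set γ : V4 := ξ₁ + ξ₂ with hγ
  have hk : ∀ x ∈ H2, 0 < -q (S.p.N x) γ := by
    intro x hx
    have e1 := (Lam_strict5 S h₁ hx).2
    have e2 := (Lam_strict5 S h₂ hx).2
    rw [hγ, vertical5_qadd]
    linarith
  have hkX : ∀ x ∈ H2, q (S.p.X x) γ < 0 := by
    intro x hx
    have e1 := (Lam_strict5 S h₁ hx).1
    have e2 := (Lam_strict5 S h₂ hx).1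
    rw [hγ, vertical5_qadd]
    linarith
  have hn1 : ∀ x ∈ H2, q (S.p.N x) N ≤ 1 := by
    intro x hx
    have e := nonspacelike2 S.gp (Z := N + S.p.N x) (fun x' hx' => by
      rw [vertical5_qadd]
      have e1 := hNX x' hx'
      have e2 := S.gp.supp x hx x' hx'
      rw [vertical5_qsymm] at e2
      linarith)
    have e3 : q (N + S.p.N x) (N + S.p.N x) = q N N + 2 * q (S.p.N x) N + q (S.p.N x) (S.p.N x) := by
      simp only [q, Pi.add_apply]; ring
    rw [e3, hNN, S.gp.core.NN x hx] at e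
    linarith
  obtain ⟨xb, hxb, hnb⟩ := np_pos5 S ⟨hNN, hNX⟩ h₁ h1N
  set R0 : ℝ := -q (S.p.N xb) γ / q (S.p.N xb) N with hR0
  have hR0p : 0 < R0 := div_pos (hk xb hxb) hnb
  have hx0 : (![1, 0, 0] : V3) ∈ H2 := by
    refine ⟨?_, ?_⟩
    · simp [eta]
    · simp
  obtain ⟨R', hR'⟩ := f_proper5 S h₁ h₂ h hx0 R0
  set T : Set V3 := {x | x ∈ H2 ∧ -eta (![1, 0, 0] : V3) x ≤ R'} with hT
  have hTc : IsCompact T := H2_ball hx0 R'
  have hTs : T ⊆ H2 := fun x hx => hx.1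
  have hcn : ContinuousOn (fun x => q (S.p.N x) N) H2 := vertical5_cont S.gp.core.contN N
  have hck : ContinuousOn (fun x => -q (S.p.N x) γ) H2 := (vertical5_cont S.gp.core.contN γ).neg
  set K0 : Set V3 := T ∩ (fun x => -q (S.p.N x) γ - R0 * q (S.p.N x) N) ⁻¹' Set.Iic 0 with hK0
  have hK0c : IsCompact K0 := by
    refine hTc.of_isClosed_subset ?_ Set.inter_subset_left
    exact ((hck.sub (hcn.const_mul R0)).mono hTs).preimage_isClosed_of_isClosed hTc.isClosed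
      isClosed_Iic
  have hK0mem : ∀ x ∈ H2, -q (S.p.N x) γ ≤ R0 * q (S.p.N x) N → x ∈ K0 := by
    intro x hx hle
    refine ⟨⟨hx, hR' x hx (Or.inr ?_)⟩, ?_⟩
    · have : R0 * q (S.p.N x) N ≤ R0 := by
        have := mul_le_mul_of_nonneg_left (hn1 x hx) hR0p.le
        linarith
      linarith
    · show -q (S.p.N x) γ - R0 * q (S.p.N x) N ≤ 0
      linarith
  have hxbK : xb ∈ K0 := by
    refine hK0mem xb hxb ?_
    rw [hR0, div_mul_cancel₀ _ hnb.ne']
  have hnpos : ∀ x ∈ K0, 0 < q (S.p.N x) N := by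
    rintro x ⟨hxT, hx0⟩
    have hx0' : -q (S.p.N x) γ - R0 * q (S.p.N x) N ≤ 0 := hx0
    have := hk x (hTs hxT)
    by_contra hcon
    have h3 : R0 * q (S.p.N x) N ≤ 0 := mul_nonpos_of_nonneg_of_nonpos hR0p.le (not_lt.1 hcon)
    linarith
  have hK0s : K0 ⊆ H2 := fun x hx => hTs hx.1
  obtain ⟨x, hxK, hmin⟩ := hK0c.exists_isMinOn ⟨xb, hxbK⟩
    ((hck.mono hK0s).div (hcn.mono hK0s) (fun x hx => (hnpos x hx).ne'))
  have hxH : x ∈ H2 := hK0s hxK
  have hnx := hnpos x hxK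
  set t : ℝ := -q (S.p.N x) γ / q (S.p.N x) N with ht
  have htp : 0 < t := div_pos (hk x hxH) hnx
  have htR : t ≤ R0 := by
    have hx0' : -q (S.p.N x) γ - R0 * q (S.p.N x) N ≤ 0 := hxK.2
    rw [ht, div_le_iff₀ hnx]
    linarith
  have hall : ∀ x' ∈ H2, q (S.p.N x') (γ + t • N) ≤ 0 := by
    intro x' hx'
    rw [vertical5_qadd, vertical5_qsmul]
    have hk' := hk x' hx'
    rcases le_or_gt (q (S.p.N x') N) 0 with hle | hgt
    · have := mul_nonpos_of_nonneg_of_nonpos htp.le hle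
      linarith
    · by_cases hxK' : x' ∈ K0
      · have h5 : t ≤ -q (S.p.N x') γ / q (S.p.N x') N := hmin hxK'
        rw [le_div_iff₀ hgt] at h5
        linarith
      · have h6 : R0 * q (S.p.N x') N < -q (S.p.N x') γ := by
          by_contra hcon
          exact hxK' (hK0mem x' hx' (not_lt.1 hcon))
        have h7 := mul_le_mul_of_nonneg_right htR hgt.le
        linarith
  have heq : q (S.p.N x) (γ + t • N) = 0 := by
    rw [vertical5_qadd, vertical5_qsmul, ht, div_mul_cancel₀ _ hnx.ne']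
    ring
  have hZ := contactN2 S.gp.core hall hxH heq
  set lam : ℝ := -(q (S.p.X x) (γ + t • N)) with hlam
  have hlamp : 0 < lam := by
    rw [hlam, vertical5_qadd, vertical5_qsmul]
    have e1 := hkX x hxH
    have e2 := mul_nonpos_of_nonneg_of_nonpos htp.le (hNX x hxH)
    linarith
  have hq1 : q (γ + t • N) (γ + t • N) = -(1 + t ^ 2) := by
    have e1 : q (γ + t • N) (γ + t • N) = q ξ₁ ξ₁ + q ξ₂ ξ₂ + 2 * q ξ₁ ξ₂ +
        2 * t * (q ξ₁ N + q ξ₂ N) + t ^ 2 * q N N := by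
      rw [hγ]
      simp only [q, Pi.add_apply, Pi.smul_apply, smul_eq_mul]; ring
    rw [e1, h₁.2.1, h₂.2.1, h, h1N, h2N, hNN]
    ring
  have hq2 : q (lam • S.p.X x) (lam • S.p.X x) = -lam ^ 2 := by
    have e1 : q (lam • S.p.X x) (lam • S.p.X x) = lam ^ 2 * q (S.p.X x) (S.p.X x) := by
      simp only [q, Pi.smul_apply, smul_eq_mul]; ring
    rw [e1, S.gp.core.XX x hxH]
    ring
  have hsq : lam ^ 2 = 1 + t ^ 2 := by
    rw [← hZ, hq1] at hq2
    linarith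
  have hsqrt : Real.sqrt (1 + t ^ 2) = lam := by
    rw [← hsq, Real.sqrt_sq hlamp.le]
  refine ⟨x, hxH, t, htp, ?_⟩
  rw [hsqrt]
  exact hZ

end A_vertical5

alias vertical5 := A_vertical5.vertical5

end Helper935.AdS
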