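import Pool.Agent.Helper935_AdS.HalfA
import Pool.Agent.Helper935_AdS.DiscB

namespace Helper935.AdS

namespace A_tay5

theorem q_emb_tay5 (a b : V3) (t s : ℝ) : q (emb a t) (emb b s) = eta a b - t * s := by
  simp only [q, emb, eta, Matrix.cons_val_zero, Matrix.cons_val_one, Matrix.cons_val]

theorem eta_smul_tay5 (a b : V3) (t s : ℝ) : eta (t • a) (s • b) = t * s * eta a b := by
  simp only [eta, Pi.smul_apply, smul_eq_mul]
  ring

theorem geo_map_tay5 (f : V3 ≃ₗ[ℝ] V3) (x v : V3) (d : ℝ) : geo (f x) (f v) d = f (geo x v d) := by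
  unfold geo
  rw [map_add, map_smul, map_smul]

/- Proof:
same as the p-part of tay
-/
theorem tay5 (S : Up) {ε : ℝ} (hε : 0 < ε) :
    ∃ δ : ℝ, 0 < δ ∧ ∀ x ∈ H2, ∀ v, UT x v → ∀ d : ℝ, 0 ≤ d → d ≤ δ →
      |q (S.p.X x) (S.p.X (geo x v d)) - q (S.p0.X x) (S.p0.X (geo x v d))| ≤ ε * d ^ 2 := by
  obtain ⟨δ₂, h2, H2'⟩ := tay1 S.gp.core S.gp0.core S.iso_p S.F_sub S.F_cpt hε
  refine ⟨δ₂, h2, ?_⟩
  intro x hx v hv d hd0 hd
  obtain ⟨g, hg, hgF⟩ := S.F_cov x hx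
  have hUT : UT (g.1 x) (g.1 v) := by
    refine ⟨?_, ?_⟩
    · rw [S.G_eta g hg]
      exact hv.1
    · rw [S.G_eta g hg]
      exact hv.2
  have hy : geo x v d ∈ H2 := geo_mem hx hv d
  have k2 := H2' (g.1 x) hgF (g.1 v) hUT d hd0 hd
  rw [geo_map_tay5] at k2
  have hgx := S.G_H2 g hg x hx
  have hgy := S.G_H2 g hg _ hy
  have e2 : q (S.p.X (g.1 x)) (S.p.X (g.1 (geo x v d))) = q (S.p.X x) (S.p.X (geo x v d)) := by
    rw [S.G_Xp g hg x hx, S.G_Xp g hg _ hy, S.G_q g hg]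
  have e4 : q (S.p0.X (g.1 x)) (S.p0.X (g.1 (geo x v d))) =
      q (S.p0.X x) (S.p0.X (geo x v d)) := by
    rw [S.X0p _ hgx, S.X0p _ hgy, S.X0p _ hx, S.X0p _ hy, q_emb_tay5, q_emb_tay5, eta_smul_tay5,
      eta_smul_tay5, S.G_eta g hg, S.G_cp g hg x hx, S.G_cp g hg _ hy, S.G_sp g hg x hx,
      S.G_sp g hg _ hy]
  rw [e2, e4] at k2
  exact k2

end A_tay5

alias tay5 := A_tay5.tay5

namespace A_we_comp5

/- Proof:
same as the p-part of we_comp
-/
theorem we_comp5 (S : Up) {η : ℝ} (hη : 0 < η) : ∃ δ : ℝ, 0 < δ ∧ ∀ x ∈ H2, ∀ y ∈ H2, ∀ t s : ℝ,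
    WE S.p x t y s ≤ δ → WE S.p0 x t y s ≤ (1 + η) * WE S.p x t y s := by
  have hc : 0 < S.c := S.gp.c_pos
  obtain ⟨δ0, hδ0, htay⟩ := tay5 S (ε := η * S.c ^ 2 / 2) (by positivity)
  refine ⟨(S.c * δ0) ^ 2 / 2, by positivity, ?_⟩
  intro x hx y hy t s
  obtain ⟨d, v, hd, hv, hgeo⟩ := exists_geo hx hy
  have hxy : -eta x y = Real.cosh d := by
    rw [← hgeo, eta_geo hx hv d, neg_neg]
  have hcosh : ∀ r : ℝ, 0 ≤ r → 1 + r ^ 2 / 2 ≤ Real.cosh r := by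
    intro r hr
    have h1 : Real.cosh r = 1 + 2 * Real.sinh (r / 2) ^ 2 := by
      have h2 := Real.cosh_two_mul (r / 2)
      have h3 := Real.cosh_sq (r / 2)
      rw [show 2 * (r / 2) = r by ring] at h2
      rw [h2, h3]; ring
    have h4 : r / 2 ≤ Real.sinh (r / 2) := Real.self_le_sinh_iff.2 (by linarith)
    rw [h1]
    nlinarith
  intro hW
  have h2 := chord2 S.gp hx hy hd hxy
  have h3 := (we_basic S.gp hx hy t s).2.1
  have h4 := hcosh (S.c * d) (by positivity)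
  have hdδ : d ≤ δ0 := by
    have h5 : (S.c * d) ^ 2 ≤ (S.c * δ0) ^ 2 := by linarith
    have h6 : S.c * d ≤ S.c * δ0 := by
      exact le_of_abs_le (abs_le_of_sq_le_sq h5 (by positivity))
    exact le_of_mul_le_mul_left h6 hc
  have hkey : η * S.c ^ 2 / 2 * d ^ 2 ≤ η * (-q (S.p.X x) (S.p.X y) - 1) := by
    have h5 : S.c ^ 2 * d ^ 2 / 2 ≤ -q (S.p.X x) (S.p.X y) - 1 := by
      have : (S.c * d) ^ 2 = S.c ^ 2 * d ^ 2 := by ring
      rw [this] at h4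
      linarith
    have h6 := mul_le_mul_of_nonneg_left h5 hη.le
    linarith
  have hq := htay x hx v hv d hd hdδ
  rw [hgeo] at hq
  have h5 := (abs_le.1 hq).2
  have h6 := (we_basic S.gp hx hy t s).1
  have hcc : 0 < Real.cosh t * Real.cosh s := mul_pos (Real.cosh_pos t) (Real.cosh_pos s)
  have h7 : WE S.p0 x t y s = WE S.p x t y s +
      Real.cosh t * Real.cosh s * (q (S.p.X x) (S.p.X y) - q (S.p0.X x) (S.p0.X y)) := by
    unfold WE; ring
  have h8 : q (S.p.X x) (S.p.X y) - q (S.p0.X x) (S.p0.X y) ≤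
      η * (-q (S.p.X x) (S.p.X y) - 1) := by
    linarith
  have h9 := mul_le_mul_of_nonneg_left h8 hcc.le
  have h10 := mul_le_mul_of_nonneg_left h6 hη.le
  have h11 : Real.cosh t * Real.cosh s * (η * (-q (S.p.X x) (S.p.X y) - 1)) =
      η * (Real.cosh t * Real.cosh s * (-q (S.p.X x) (S.p.X y) - 1)) := by ring
  rw [h7]
  linarith

end A_we_comp5

alias we_comp5 := A_we_comp5.we_comp5

namespace A_gap_step5

/- Proof:
Let u = t/sqrt(1+t^2), c = 1/sqrt(1+t^2), same u', c' for t'. q g N = 0 = q g' N. coshtau X = k g + (cosh tau u) N with k = cosh tau c (multiply hX by cosh tau / sqrt(1+t^2)), and cosh tau u = sinh tau + e by htau. Similarly k', g'. So cosh tau cosh tau' q X X' = k k' q g g' - (sinh tau + e)(sinh tau' + e), k^2 = cosh^2 tau (1 - u^2) = cosh^2 tau - (sinh tau + e)^2 = 1 - 2 e sinh tau - e^2. Then -cosh tau cosh tau' q X X' - sinh tau sinh tau' - 1 = k k' (-q g g') + e (sinh tau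 + sinh tau') + e^2 - 1 = k k' (-q g g') - (k^2 + k'^2)/2. As k, k' in (0, th], k k' (G - 1) - (k - k')^2/2 <= th^2 (G - 1) with G = -q g g' >= 1.
-/
theorem gap_step5 {N g g' X X' : V4} (hN : q N N = -1) (hg : q g N = 0) (hg' : q g' N = 0)
    {t t' : ℝ} (hX : g + t • N = Real.sqrt (1 + t ^ 2) • X) (hX' : g' + t' • N = Real.sqrt (1 + t' ^ 2) • X')
    (hG : 1 ≤ -q g g') {e τ τ' θ : ℝ} (hθ : 0 < θ)
    (hτ : Real.sinh τ = t / Real.sqrt (1 + t ^ 2) * Real.cosh τ - e)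
    (hτ' : Real.sinh τ' = t' / Real.sqrt (1 + t' ^ 2) * Real.cosh τ' - e)
    (h1 : 1 - 2 * e * Real.sinh τ - e ^ 2 ≤ θ ^ 2) (h2 : 1 - 2 * e * Real.sinh τ' - e ^ 2 ≤ θ ^ 2) :
    -(Real.cosh τ * Real.cosh τ' * q X X') - Real.sinh τ * Real.sinh τ' - 1 ≤ θ ^ 2 * (-q g g' - 1) := by
  have hr2 : Real.sqrt (1 + t ^ 2) ^ 2 = 1 + t ^ 2 := Real.sq_sqrt (by positivity)
  have hr2' : Real.sqrt (1 + t' ^ 2) ^ 2 = 1 + t' ^ 2 := Real.sq_sqrt (by positivity)
  have hr : 0 < Real.sqrt (1 + t ^ 2) := Real.sqrt_pos.2 (by positivity)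
  have hr' : 0 < Real.sqrt (1 + t' ^ 2) := Real.sqrt_pos.2 (by positivity)
  generalize Real.sqrt (1 + t ^ 2) = r at *
  generalize Real.sqrt (1 + t' ^ 2) = r' at *
  have hx : ∀ i, g i + t * N i = r * X i := fun i => by simpa using congrFun hX i
  have hx' : ∀ i, g' i + t' * N i = r' * X' i := fun i => by simpa using congrFun hX' i
  have hqq : r * r' * q X X' = q g g' - t * t' := by
    have e0 : r * r' * q X X' = -((r * X 0) * (r' * X' 0)) + (r * X 1) * (r' * X' 1)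
        + (r * X 2) * (r' * X' 2) - (r * X 3) * (r' * X' 3) := by
      simp only [q]; ring
    rw [e0, ← hx 0, ← hx 1, ← hx 2, ← hx 3, ← hx' 0, ← hx' 1, ← hx' 2, ← hx' 3]
    simp only [q] at hN hg hg' ⊢
    linear_combination (t * t') * hN + t' * hg + t * hg'
  have hc : 0 < Real.cosh τ := Real.cosh_pos τ
  have hc' : 0 < Real.cosh τ' := Real.cosh_pos τ'
  have hcs : Real.cosh τ ^ 2 = Real.sinh τ ^ 2 + 1 := Real.cosh_sq τ
  have hcs' : Real.cosh τ' ^ 2 = Real.sinh τ' ^ 2 + 1 := Real.cosh_sq τ'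
  generalize Real.cosh τ = c at *
  generalize Real.cosh τ' = c' at *
  generalize Real.sinh τ = s at *
  generalize Real.sinh τ' = s' at *
  obtain ⟨k, hk⟩ : ∃ k, k = c / r := ⟨_, rfl⟩
  obtain ⟨k', hk'⟩ : ∃ k', k' = c' / r' := ⟨_, rfl⟩
  have hkp : 0 < k := hk ▸ div_pos hc hr
  have hkp' : 0 < k' := hk' ▸ div_pos hc' hr'
  have hck : c = k * r := by rw [hk]; field_simp
  have hck' : c' = k' * r' := by rw [hk']; field_simp
  have ht : t * k = s + e := by rw [hτ, hk]; ring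
  have ht' : t' * k' = s' + e := by rw [hτ', hk']; ring
  have hk2 : k ^ 2 = 1 - 2 * e * s - e ^ 2 := by
    have e1 : c ^ 2 = k ^ 2 * (1 + t ^ 2) := by rw [hck, mul_pow, hr2]
    have e2 : k ^ 2 = c ^ 2 - (t * k) ^ 2 := by rw [e1]; ring
    rw [e2, ht, hcs]; ring
  have hk2' : k' ^ 2 = 1 - 2 * e * s' - e ^ 2 := by
    have e1 : c' ^ 2 = k' ^ 2 * (1 + t' ^ 2) := by rw [hck', mul_pow, hr2']
    have e2 : k' ^ 2 = c' ^ 2 - (t' * k') ^ 2 := by rw [e1]; ring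
    rw [e2, ht', hcs']; ring
  have hcc : c * c' * q X X' = k * k' * q g g' - (s + e) * (s' + e) := by
    rw [← ht, ← ht', hck, hck']
    linear_combination (k * k') * hqq
  have hkt : k ≤ θ := abs_le_of_sq_le_sq' (by linarith) hθ.le |>.2
  have hkt' : k' ≤ θ := abs_le_of_sq_le_sq' (by linarith) hθ.le |>.2
  have hkk : k * k' ≤ θ ^ 2 := by
    rw [sq]; exact mul_le_mul hkt hkt' hkp'.le hθ.le
  rw [hcc]
  have hG0 : 0 ≤ -q g g' - 1 := by linarith
  have h5 : k * k' * (-q g g' - 1) ≤ θ ^ 2 * (-q g g' - 1) := mul_le_mul_of_nonneg_right hkk hG0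
  nlinarith [sq_nonneg (k - k')]

end A_gap_step5

alias gap_step5 := A_gap_step5.gap_step5

end Helper935.AdS
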