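import Pool.Agent.Helper935_AdS.HalfC
import Pool.Agent.Helper935_AdS.HalfD
import Pool.Agent.Helper935_AdS.Disc
import Pool.Agent.Helper935_AdS.Comp

namespace Helper935.AdS

namespace A_gapplus5

theorem gapplus5_q_add_left (X Y Z : V4) : q (X + Y) Z = q X Z + q Y Z := by
  simp only [q, Pi.add_apply]; ring

theorem gapplus5_q_add_right (X Y Z : V4) : q X (Y + Z) = q X Y + q X Z := by
  simp only [q, Pi.add_apply]; ring

theorem gapplus5_q_smul_left (c : ℝ) (X Z : V4) : q (c • X) Z = c * q X Z := by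
  simp only [q, Pi.smul_apply, smul_eq_mul]; ring

theorem gapplus5_q_smul_right (c : ℝ) (X Z : V4) : q X (c • Z) = c * q X Z := by
  simp only [q, Pi.smul_apply, smul_eq_mul]; ring

theorem gapplus5_q_comm (X Y : V4) : q X Y = q Y X := by
  simp only [q]; ring

theorem gapplus5_eta_le {x y : V3} (hx : x ∈ H2) (hy : y ∈ H2) : eta x y ≤ -1 := by
  obtain ⟨h1, h2⟩ := hx
  obtain ⟨h3, h4⟩ := hy
  unfold eta at *
  have h5 : (x 1 * y 1 + x 2 * y 2 + 1) ^ 2 ≤ (x 0 * y 0) ^ 2 := by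
    have e1 : x 0 ^ 2 = 1 + (x 1 ^ 2 + x 2 ^ 2) := by nlinarith
    have e2 : y 0 ^ 2 = 1 + (y 1 ^ 2 + y 2 ^ 2) := by nlinarith
    rw [mul_pow, e1, e2]
    nlinarith [sq_nonneg (x 1 * y 2 - x 2 * y 1), sq_nonneg (x 1 - y 1), sq_nonneg (x 2 - y 2)]
  have h6 := abs_le_of_sq_le_sq h5 (by positivity)
  have h7 := le_abs_self (x 1 * y 1 + x 2 * y 2 + 1)
  linarith

/-- vertical points -/
def gapplus5_Vert (S : Up) (N ξ₁ ξ₂ : V4) (s : ℝ) (x : V3) (t : ℝ) : Prop :=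
  x ∈ H2 ∧ 0 < t ∧ Real.exp s • ξ₁ + Real.exp (-s) • ξ₂ + t • N = Real.sqrt (1 + t ^ 2) • S.p.X x

section
variable {S : Up} {N ξ₁ ξ₂ : V4}

theorem gapplus5_gg (h11 : q ξ₁ ξ₁ = 0) (h22 : q ξ₂ ξ₂ = 0) (h : q ξ₁ ξ₂ = -1/2) (s s' : ℝ) :
    q (Real.exp s • ξ₁ + Real.exp (-s) • ξ₂) (Real.exp s' • ξ₁ + Real.exp (-s') • ξ₂) =
      -Real.cosh (s - s') := by
  have h21 : q ξ₂ ξ₁ = -1/2 := by rw [gapplus5_q_comm, h]
  simp only [gapplus5_q_add_left, gapplus5_q_add_right, gapplus5_q_smul_left, gapplus5_q_smul_right,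
    h11, h22, h, h21]
  rw [Real.cosh_eq, neg_sub, sub_eq_add_neg, sub_eq_add_neg, Real.exp_add, Real.exp_add]
  ring

theorem gapplus5_gN (h1N : q ξ₁ N = 0) (h2N : q ξ₂ N = 0) (s : ℝ) :
    q (Real.exp s • ξ₁ + Real.exp (-s) • ξ₂) N = 0 := by
  simp only [gapplus5_q_add_left, gapplus5_q_smul_left, h1N, h2N]
  ring

theorem gapplus5_exists (hN : N ∈ Dual5 S) (h₁ : ξ₁ ∈ Lam5 S) (h₂ : ξ₂ ∈ Lam5 S)
    (h : q ξ₁ ξ₂ = -1/2) (h1N : q ξ₁ N = 0) (h2N : q ξ₂ N = 0) (s : ℝ) :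
    ∃ x t, gapplus5_Vert S N ξ₁ ξ₂ s x t := by
  obtain ⟨x, hx, t, ht, he⟩ := vertical5 S hN (Lam_smul5 S h₁ (Real.exp_pos s))
    (Lam_smul5 S h₂ (Real.exp_pos (-s)))
    (by rw [gapplus5_q_smul_left, gapplus5_q_smul_right, h, ← mul_assoc, ← Real.exp_add]; simp)
    (by rw [gapplus5_q_smul_left, h1N, mul_zero]) (by rw [gapplus5_q_smul_left, h2N, mul_zero])
  exact ⟨x, t, hx, ht, he⟩

theorem gapplus5_XN (hN : N ∈ Dual5 S) (h1N : q ξ₁ N = 0) (h2N : q ξ₂ N = 0) {s : ℝ} {x : V3} {t : ℝ}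
    (hv : gapplus5_Vert S N ξ₁ ξ₂ s x t) : Real.sqrt (1 + t ^ 2) * q (S.p.X x) N = -t := by
  rw [← gapplus5_q_smul_left, ← hv.2.2, gapplus5_q_add_left, gapplus5_gN h1N h2N,
    gapplus5_q_smul_left, hN.1]
  ring

theorem gapplus5_Xg (hN : N ∈ Dual5 S) (h11 : q ξ₁ ξ₁ = 0) (h22 : q ξ₂ ξ₂ = 0)
    (h : q ξ₁ ξ₂ = -1/2) (h1N : q ξ₁ N = 0) (h2N : q ξ₂ N = 0) {s : ℝ} {x : V3} {t : ℝ}
    (hv : gapplus5_Vert S N ξ₁ ξ₂ s x t) :
    Real.sqrt (1 + t ^ 2) * q (S.p.X x) (Real.exp s • ξ₁ + Real.exp (-s) • ξ₂) = -1 := by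
  rw [← gapplus5_q_smul_left, ← hv.2.2, gapplus5_q_add_left, gapplus5_gg h11 h22 h,
    gapplus5_q_smul_left, gapplus5_q_comm N, gapplus5_gN h1N h2N]
  simp

/-- `t / √(1+t²)` is the height of the vertical point -/
theorem gapplus5_u (hN : N ∈ Dual5 S) (h1N : q ξ₁ N = 0) (h2N : q ξ₂ N = 0) {s : ℝ} {x : V3} {t : ℝ}
    (hv : gapplus5_Vert S N ξ₁ ξ₂ s x t) : t / Real.sqrt (1 + t ^ 2) = -q (S.p.X x) N := by
  have h1 := gapplus5_XN hN h1N h2N hv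
  have h3 : 0 < Real.sqrt (1 + t ^ 2) := Real.sqrt_pos.2 (by positivity)
  rw [div_eq_iff h3.ne']
  linarith

theorem gapplus5_cs (t : ℝ) : (1 / Real.sqrt (1 + t ^ 2)) ^ 2 + (t / Real.sqrt (1 + t ^ 2)) ^ 2 = 1 := by
  have h3 : 0 < Real.sqrt (1 + t ^ 2) := Real.sqrt_pos.2 (by positivity)
  have h4 : Real.sqrt (1 + t ^ 2) ^ 2 = 1 + t ^ 2 := Real.sq_sqrt (by positivity)
  rw [div_pow, div_pow, h4]
  field_simp

/-- the base point parameter -/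
noncomputable def gapplus5_sig (S : Up) (x : V3) : ℝ := Real.arsinh (S.sp x / S.cp x)

theorem gapplus5_cosh_sig (S : Up) {x : V3} (hx : x ∈ H2) :
    Real.cosh (gapplus5_sig S x) = (S.cp x)⁻¹ := by
  unfold gapplus5_sig
  rw [Real.cosh_arsinh]
  have h1 := ((heights5 S).1 x hx).2
  have h2 := S.cp_pos x hx
  rw [show 1 + (S.sp x / S.cp x) ^ 2 = ((S.cp x)⁻¹) ^ 2 from by
    field_simp; linarith]
  exact Real.sqrt_sq (by positivity)

theorem gapplus5_FF0 (S : Up) {x : V3} (hx : x ∈ H2) : FF S.p0 EE x (gapplus5_sig S x) = 0 := by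
  unfold FF
  rw [gapplus5_cosh_sig S hx, ((heights5 S).1 x hx).1]
  unfold gapplus5_sig
  rw [Real.sinh_arsinh]
  field_simp
  ring

theorem gapplus5_zz (S : Up) {x : V3} (hx : x ∈ H2) : zz S.p0 EE x (gapplus5_sig S x) = emb x 0 := by
  unfold zz
  rw [gapplus5_cosh_sig S hx, S.X0p x hx]
  unfold gapplus5_sig
  rw [Real.sinh_arsinh]
  have h2 := (S.cp_pos x hx).ne'
  ext i
  fin_cases i <;> simp [emb, EE] <;> field_simp
  ring

end

/- Proof: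
This is a variant of plus2 (see hint) where the path is taken at the level -e of the function of world 1 instead of level 0.
hgap: sp x + eps <= u(x) := -q (Xp x) N for all x in H2. s1, sp >= s1, cp >= s1 from heights5. Put e = min eps (s1/2) > 0. For the vertical points gamma + t N = sqrt(1+t^2) Xp x (gamma = e^s xi1 + e^-s xi2, q gamma gamma = -1, q gamma N = 0): u(x) = t/sqrt(1+t^2) >= sp x + eps >= s1 + e. level with s := u, c := 1/sqrt(1+t^2), e: tau >= 0, sinh tau = u cosh tau - e, cosh tau <= sqrt(1+t^2). As in plus2 (iii), sqrt(1+t^2) <= 1/c0 (f_lower5), so cosh tau <= 1/c0. sinh tau >= u - e >= s1, so 1 - 2 e sinh tau - e^2 <= 1 - 2 e s1 =: th0^2 with 0 < th0 < 1 (2 e s1 <= s1^2 < 1). FF S.p0 EE x tau = sinh tau - cosh tau sp x >= sinh tau - cosh tau (u - eps) = -e + eps cosh tau >= 0.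
gap_step5: for two such points with parameters s, s': WE S.p x tau x' tau' <= th0^2 (cosh(s - s') - 1) (-q gamma gamma' = cosh(s-s')).
Choose eta > 0 with theta := (1+eta)^3 th0 < 1 (and theta > 0). we_comp5 eta -> delta1; cosh_small eta -> delta2; delta := min of delta2, 1/2 and small enough that cosh delta - 1 <= min(delta1, 1/4); A := (1+eta) th0^2 (cosh delta - 1) in [0,1]; sqrt(2A) = sqrt(1+eta) th0 sqrt(2(cosh delta - 1)) <= (1+eta)^2 th0 delta.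
End values: sigma >= 0 with tanh sigma = sp x (cosh sigma = 1/cp x, sinh sigma = sp x/cp x), FF S.p0 EE x sigma = 0, cosh sigma <= 1/s1; B >= 0 with cosh B >= max(1/s1, 1/c0), |sigma - tau| <= B as both are in [0,B]. zz S.p0 EE x sigma = emb x 0. md_len (S.gp0, V = EE, hN = S.n0p, eta, B): C. For n >= 1 choose the intermediate vertical points by vertical5 applied to (e^{i delta} xi1, e^{-i delta} xi2) (Lam_smul5). T = arcosh(-eta x x') <= (1+eta) n sqrt(2A) + C <= theta n delta + C.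
-/
theorem gapplus5 (S : Up) {N : V4} (hN : N ∈ Dual5 S) {ε : ℝ} (hε : 0 < ε)
    (hgap : ∀ x ∈ H2, S.sp x + ε ≤ -q (S.p.X x) N) {ξ₁ ξ₂ : V4} (h₁ : ξ₁ ∈ Lam5 S) (h₂ : ξ₂ ∈ Lam5 S)
    (h : q ξ₁ ξ₂ = -1/2) (h1N : q ξ₁ N = 0) (h2N : q ξ₂ N = 0) :
    ∃ θ δ C : ℝ, 0 < θ ∧ θ < 1 ∧ 0 < δ ∧ 0 ≤ C ∧ ∀ n : ℕ, 0 < n → ∀ x ∈ H2, ∀ x' ∈ H2, ∀ t t' : ℝ,
      0 < t → 0 < t' → ξ₁ + ξ₂ + t • N = Real.sqrt (1 + t ^ 2) • S.p.X x →
      Real.exp (n * δ) • ξ₁ + Real.exp (-(n * δ)) • ξ₂ + t' • N = Real.sqrt (1 + t' ^ 2) • S.p.X x' →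
      -eta x x' ≤ Real.cosh (θ * (n * δ) + C) := by
  have h11 : q ξ₁ ξ₁ = 0 := h₁.2.1
  have h22 : q ξ₂ ξ₂ = 0 := h₂.2.1
  obtain ⟨hht, -, s₁, hs₁, hs1⟩ := heights5 S
  -- a base point, to see that `s₁ < 1`
  obtain ⟨xb, tb, hvb⟩ := gapplus5_exists hN h₁ h₂ h h1N h2N 0
  have hs1lt : s₁ < 1 := by
    have a1 := (hht xb hvb.1).2
    have a2 := hs1 xb hvb.1
    nlinarith
  obtain ⟨e, he0, heε, hes⟩ : ∃ e : ℝ, 0 < e ∧ e ≤ ε ∧ e ≤ s₁ / 2 :=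
    ⟨min ε (s₁ / 2), by positivity, min_le_left _ _, min_le_right _ _⟩
  obtain ⟨θ₀, hθ0, hθ0', hθ0s⟩ : ∃ θ₀ : ℝ, 0 < θ₀ ∧ θ₀ < 1 ∧ θ₀ ^ 2 = 1 - 2 * e * s₁ := by
    have a1 : 0 < 2 * e * s₁ := by positivity
    have a2 : 2 * e * s₁ < 1 := by nlinarith
    refine ⟨Real.sqrt (1 - 2 * e * s₁), Real.sqrt_pos.2 (by linarith), ?_, Real.sq_sqrt (by linarith)⟩
    rw [Real.sqrt_lt' (by norm_num)]
    linarith
  obtain ⟨η, hη0, hη1, hη3⟩ : ∃ η : ℝ, 0 < η ∧ η ≤ 1 ∧ (1 + η) ^ 3 * θ₀ < 1 := by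
    refine ⟨min 1 ((1 - θ₀) / 8), by
      have : 0 < (1 - θ₀) / 8 := by linarith
      positivity, min_le_left _ _, ?_⟩
    have a0 : 0 < (1 - θ₀) / 8 := by linarith
    have a1 : min 1 ((1 - θ₀) / 8) ≤ 1 := min_le_left _ _
    have a2 : min 1 ((1 - θ₀) / 8) ≤ (1 - θ₀) / 8 := min_le_right _ _
    have a3 : 0 < min 1 ((1 - θ₀) / 8) := by positivity
    generalize min 1 ((1 - θ₀) / 8) = y at a1 a2 a3
    have b1 : y ^ 2 ≤ y := by nlinarith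
    have b2 : y ^ 3 ≤ y := by
      have : y ^ 3 = y * y ^ 2 := by ring
      nlinarith
    have b3 : (1 + y) ^ 3 ≤ 1 + 7 * y := by nlinarith
    have b4 : (1 + y) ^ 3 * θ₀ ≤ (1 + 7 * y) * θ₀ := by gcongr
    nlinarith
  obtain ⟨δ1, hδ1, hcomp⟩ := we_comp5 S hη0
  obtain ⟨δ2, hδ2, hδ2', hsm⟩ := cosh_small hη0
  obtain ⟨c₀, hc₀, hfl⟩ := f_lower5 S
  obtain ⟨δ, hδ0, hδa, hδb, hδc⟩ : ∃ δ : ℝ, 0 < δ ∧ δ ≤ δ2 ∧ 2 * δ ≤ δ1 ∧ 2 * δ ≤ 1 / 4 := by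
    refine ⟨min δ2 (min (δ1 / 2) (1 / 8)), by positivity, min_le_left _ _, ?_, ?_⟩
    · have : min δ2 (min (δ1 / 2) (1 / 8)) ≤ δ1 / 2 := (min_le_right _ _).trans (min_le_left _ _)
      linarith
    · have : min δ2 (min (δ1 / 2) (1 / 8)) ≤ 1 / 8 := (min_le_right _ _).trans (min_le_right _ _)
      linarith
  have hsq : 2 * (Real.cosh δ - 1) ≤ ((1 + η) * δ) ^ 2 := by
    have a1 := hsm δ hδ0.le hδa
    have a2 : 0 ≤ 2 * (Real.cosh δ - 1) := by linarith [Real.one_le_cosh δ]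
    exact (Real.sqrt_le_left (by positivity)).1 a1
  have hcd : Real.cosh δ - 1 ≤ 2 * δ := by
    have a1 : ((1 + η) * δ) ^ 2 ≤ (2 * δ) ^ 2 := by gcongr; linarith
    nlinarith
  have hcd0 : 0 ≤ Real.cosh δ - 1 := by linarith [Real.one_le_cosh δ]
  obtain ⟨B, hB0, hBs, hBc⟩ : ∃ B : ℝ, 0 ≤ B ∧ 1 / s₁ ≤ Real.cosh B ∧ 1 / c₀ ≤ Real.cosh B := by
    refine ⟨2 / c₀ + 2 / s₁, by positivity, ?_, ?_⟩
    · have a1 := Real.add_one_le_exp (2 / c₀ + 2 / s₁)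
      have a2 := Real.exp_pos (-(2 / c₀ + 2 / s₁))
      have a4 : 0 < 2 / c₀ := by positivity
      rw [Real.cosh_eq]
      have a3 : 2 / s₁ = 2 * (1 / s₁) := by ring
      linarith
    · have a1 := Real.add_one_le_exp (2 / c₀ + 2 / s₁)
      have a2 := Real.exp_pos (-(2 / c₀ + 2 / s₁))
      have a4 : 0 < 2 / s₁ := by positivity
      rw [Real.cosh_eq]
      have a3 : 2 / c₀ = 2 * (1 / c₀) := by ring
      linarith
  have hEE : q EE EE = -1 := by simp [q, EE]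
  obtain ⟨C, hC0, hC⟩ := md_len S.gp0 hEE S.n0p hη0 hB0
  have hθ1 : θ₀ ^ 2 ≤ 1 := by nlinarith
  refine ⟨(1 + η) ^ 3 * θ₀, δ, C, by positivity, hη3, hδ0, hC0, ?_⟩
  intro n hn x hx x' hx' t t' ht ht' hxt hxt'
  choose X T hXT using fun i : ℕ => gapplus5_exists hN h₁ h₂ h h1N h2N ((i : ℝ) * δ)
  obtain ⟨a, ha⟩ : ∃ a : ℕ → V3, a = fun i => if i = 0 then x else if i = n then x' else X i := ⟨_, rfl⟩
  obtain ⟨b, hb⟩ : ∃ b : ℕ → ℝ, b = fun i => if i = 0 then t else if i = n then t' else T i := ⟨_, rfl⟩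
  have ha0 : a 0 = x := by rw [ha]; simp
  have hb0 : b 0 = t := by rw [hb]; simp
  have han : a n = x' := by rw [ha]; simp [hn.ne']
  have hbn : b n = t' := by rw [hb]; simp [hn.ne']
  have hab : ∀ i : ℕ, gapplus5_Vert S N ξ₁ ξ₂ ((i : ℝ) * δ) (a i) (b i) := by
    intro i
    by_cases hi0 : i = 0
    · subst hi0
      rw [ha0, hb0]
      refine ⟨hx, ht, ?_⟩
      simpa using hxt
    · by_cases hin : i = n
      · subst hin
        rw [han, hbn]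
        exact ⟨hx', ht', hxt'⟩
      · have e1 : a i = X i := by rw [ha]; simp [hi0, hin]
        have e2 : b i = T i := by rw [hb]; simp [hi0, hin]
        rw [e1, e2]
        exact hXT i
  have hcb : ∀ i, Real.sqrt (1 + b i ^ 2) ≤ 1 / c₀ := by
    intro i
    have a1 := gapplus5_Xg hN h11 h22 h h1N h2N (hab i)
    have a2 := (hfl _ (Lam_smul5 S h₁ (Real.exp_pos ((i : ℝ) * δ))) _
      (Lam_smul5 S h₂ (Real.exp_pos (-((i : ℝ) * δ))))
      (by rw [gapplus5_q_smul_left, gapplus5_q_smul_right, h, ← mul_assoc, ← Real.exp_add]; simp)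
      (a i) (hab i).1).1
    rw [le_div_iff₀ hc₀]
    have a3 : 0 < Real.sqrt (1 + b i ^ 2) := Real.sqrt_pos.2 (by positivity)
    have a4 := mul_le_mul_of_nonneg_left a2 a3.le
    linarith
  -- the levels
  have hlev : ∀ i, ∃ τ : ℝ, 0 ≤ τ ∧
      Real.sinh τ = b i / Real.sqrt (1 + b i ^ 2) * Real.cosh τ - e ∧
      Real.cosh τ ≤ 1 / c₀ ∧ s₁ ≤ Real.sinh τ ∧ 0 ≤ FF S.p0 EE (a i) τ := by
    intro i
    have k1 := gapplus5_u hN h1N h2N (hab i)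
    have k2 := hgap (a i) (hab i).1
    have k3 := (hs1 (a i) (hab i).1).1
    have k4 : 0 < Real.sqrt (1 + b i ^ 2) := Real.sqrt_pos.2 (by positivity)
    have k5 : s₁ + e ≤ b i / Real.sqrt (1 + b i ^ 2) := by rw [k1]; linarith
    obtain ⟨τ, hτ0, hτ1, hτ2⟩ := level (s := b i / Real.sqrt (1 + b i ^ 2))
      (c := 1 / Real.sqrt (1 + b i ^ 2)) (e := e) (by linarith) (by positivity) (gapplus5_cs (b i)) he0
      (by linarith)
    rw [one_div_one_div] at hτ2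
    have k6 := Real.one_le_cosh τ
    refine ⟨τ, hτ0, hτ1, hτ2.trans (hcb i), ?_, ?_⟩
    · rw [hτ1]
      have : (s₁ + e) * 1 ≤ b i / Real.sqrt (1 + b i ^ 2) * Real.cosh τ := by
        apply mul_le_mul k5 k6 (by norm_num) (by linarith)
      linarith
    · unfold FF
      rw [(hht (a i) (hab i).1).1, hτ1, k1]
      have : (S.sp (a i) + ε) * Real.cosh τ ≤ -q (S.p.X (a i)) N * Real.cosh τ := by gcongr
      nlinarith
  choose τ hτ0 hτ1 hτ2 hτ3 hτ4 using hlev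
  obtain ⟨w, hw⟩ : ∃ w : ℕ → V3 × ℝ, w = fun i => (a i, τ i) := ⟨_, rfl⟩
  have hwi : ∀ i, w i = (a i, τ i) := fun i => by rw [hw]
  have hadm : Adm S.p0 EE n w := by
    intro i _
    rw [hwi]
    exact ⟨(hab i).1, hτ4 i⟩
  have hstep : ∀ i : ℕ, WE S.p (a i) (τ i) (a (i + 1)) (τ (i + 1)) ≤ θ₀ ^ 2 * (Real.cosh δ - 1) := by
    intro i
    have hi1 := hab i
    have hi2 := hab (i + 1)
    have g1 := gapplus5_gg h11 h22 h ((i : ℝ) * δ) (((i + 1 : ℕ) : ℝ) * δ)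
    have a2 : (i : ℝ) * δ - ((i + 1 : ℕ) : ℝ) * δ = -δ := by push_cast; ring
    rw [a2, Real.cosh_neg] at g1
    have hb1 : 1 - 2 * e * Real.sinh (τ i) - e ^ 2 ≤ θ₀ ^ 2 := by
      rw [hθ0s]
      have := mul_le_mul_of_nonneg_left (hτ3 i) (by positivity : (0:ℝ) ≤ 2 * e)
      nlinarith [sq_nonneg e]
    have hb2 : 1 - 2 * e * Real.sinh (τ (i + 1)) - e ^ 2 ≤ θ₀ ^ 2 := by
      rw [hθ0s]
      have := mul_le_mul_of_nonneg_left (hτ3 (i + 1)) (by positivity : (0:ℝ) ≤ 2 * e)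
      nlinarith [sq_nonneg e]
    have := gap_step5 hN.1 (gapplus5_gN h1N h2N ((i : ℝ) * δ)) (gapplus5_gN h1N h2N (((i + 1 : ℕ) : ℝ) * δ))
      hi1.2.2 hi2.2.2 (by rw [g1, neg_neg]; exact Real.one_le_cosh δ) hθ0 (hτ1 i) (hτ1 (i + 1)) hb1 hb2
    rw [g1, neg_neg] at this
    unfold WE
    exact this
  have hterm : ∀ i : ℕ, WE S.p0 (w i).1 (w i).2 (w (i + 1)).1 (w (i + 1)).2 ≤
      (1 + η) * (θ₀ ^ 2 * (Real.cosh δ - 1)) := by
    intro i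
    rw [hwi, hwi]
    simp only
    have a1 := hstep i
    have a4 : θ₀ ^ 2 * (Real.cosh δ - 1) ≤ 1 * (Real.cosh δ - 1) := by gcongr
    have a3 := hcomp (a i) (hab i).1 (a (i + 1)) (hab (i + 1)).1 (τ i) (τ (i + 1)) (by linarith)
    refine a3.trans ?_
    gcongr
  have hEn : En S.p0 n w ≤ n * ((1 + η) * (θ₀ ^ 2 * (Real.cosh δ - 1))) := by
    unfold En
    have := Finset.sum_le_sum (fun i (_ : i ∈ Finset.range n) => hterm i)
    rwa [Finset.sum_const, Finset.card_range, nsmul_eq_mul] at this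
  obtain ⟨U, hU0, hU⟩ : ∃ U : ℝ, 0 ≤ U ∧ Real.cosh U = -eta x x' := by
    have a1 := gapplus5_eta_le hx hx'
    have a2 : ∃ b : ℝ, 0 ≤ b ∧ -eta x x' ≤ Real.cosh b := by
      refine ⟨2 * (-eta x x'), by linarith, ?_⟩
      have b1 := Real.add_one_le_exp (2 * (-eta x x'))
      have b2 := Real.exp_pos (-(2 * (-eta x x')))
      rw [Real.cosh_eq]
      linarith
    obtain ⟨b, hb1, hb2⟩ := a2
    have h3 := intermediate_value_Icc hb1 Real.continuous_cosh.continuousOn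
    obtain ⟨d, hd, hd2⟩ := h3 ⟨by rw [Real.cosh_zero]; linarith, hb2⟩
    exact ⟨d, hd.1, hd2⟩
  have hsigbd : ∀ y ∈ H2, 0 ≤ gapplus5_sig S y ∧ gapplus5_sig S y ≤ B := by
    intro y hy
    have k1 := S.sp_pos y hy
    have k2 := S.cp_pos y hy
    have k3 := (hs1 y hy).2
    have k4 : 0 ≤ gapplus5_sig S y := by
      unfold gapplus5_sig
      rw [Real.arsinh_nonneg_iff]
      positivity
    refine ⟨k4, ?_⟩
    have k5 : Real.cosh (gapplus5_sig S y) ≤ Real.cosh B := by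
      rw [gapplus5_cosh_sig S hy]
      refine le_trans ?_ hBs
      rw [one_div]
      exact inv_anti₀ hs₁ k3
    have h10 := Real.cosh_le_cosh.1 k5
    rw [abs_of_nonneg hB0] at h10
    exact (le_abs_self _).trans h10
  have hτB : ∀ i, τ i ≤ B := by
    intro i
    have h10 := Real.cosh_le_cosh.1 ((hτ2 i).trans hBc)
    rw [abs_of_nonneg hB0] at h10
    exact (le_abs_self _).trans h10
  have hdist : ∀ i, |gapplus5_sig S (a i) - τ i| ≤ B := by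
    intro i
    have k1 := hsigbd (a i) (hab i).1
    have k2 := hτB i
    have k3 := hτ0 i
    rw [abs_le]
    constructor <;> linarith
  have hA0 : 0 ≤ (1 + η) * (θ₀ ^ 2 * (Real.cosh δ - 1)) := by positivity
  have hA1 : (1 + η) * (θ₀ ^ 2 * (Real.cosh δ - 1)) ≤ 1 := by
    have a4 : θ₀ ^ 2 * (Real.cosh δ - 1) ≤ 1 * (Real.cosh δ - 1) := by gcongr
    have a5 : θ₀ ^ 2 * (Real.cosh δ - 1) ≤ 1 / 4 := by linarith
    have a6 : (1 + η) * (θ₀ ^ 2 * (Real.cosh δ - 1)) ≤ (1 + 1) * (1 / 4) := by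
      apply mul_le_mul (by linarith) a5 (by positivity) (by norm_num)
    linarith
  have hfinal := hC n hn ((1 + η) * (θ₀ ^ 2 * (Real.cosh δ - 1))) hA0 hA1 w hadm hEn
    (gapplus5_sig S (a 0)) (gapplus5_sig S (a n))
    (by rw [hwi]; exact gapplus5_FF0 S (hab 0).1) (by rw [hwi]; exact gapplus5_FF0 S (hab n).1)
    (by rw [hwi]; exact hdist 0)
    (by rw [hwi]; exact hdist n) U hU0
    (by
      rw [hwi, hwi]
      simp only
      rw [gapplus5_zz S (hab 0).1, gapplus5_zz S (hab n).1, ha0, han, hU]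
      simp [q, eta, emb])
  rw [← hU]
  have hs2 : Real.sqrt (2 * ((1 + η) * (θ₀ ^ 2 * (Real.cosh δ - 1)))) ≤ (1 + η) ^ 2 * θ₀ * δ := by
    rw [Real.sqrt_le_left (by positivity)]
    calc 2 * ((1 + η) * (θ₀ ^ 2 * (Real.cosh δ - 1)))
        = (1 + η) * θ₀ ^ 2 * (2 * (Real.cosh δ - 1)) := by ring
      _ ≤ (1 + η) * θ₀ ^ 2 * ((1 + η) * δ) ^ 2 := by gcongr
      _ = (1 + η) ^ 3 * (θ₀ ^ 2 * δ ^ 2) := by ring
      _ ≤ (1 + η) ^ 4 * (θ₀ ^ 2 * δ ^ 2) := by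
        gcongr
        · linarith
        · norm_num
      _ = _ := by ring
  have hU2 : U ≤ (1 + η) ^ 3 * θ₀ * (n * δ) + C := by
    calc U ≤ (1 + η) * (n * Real.sqrt (2 * ((1 + η) * (θ₀ ^ 2 * (Real.cosh δ - 1))))) + C := hfinal
      _ ≤ (1 + η) * (n * ((1 + η) ^ 2 * θ₀ * δ)) + C := by gcongr
      _ = (1 + η) ^ 3 * θ₀ * (n * δ) + C := by ring
  rw [Real.cosh_le_cosh, abs_of_nonneg hU0, abs_of_nonneg (hU0.trans hU2)]
  exact hU2

end A_gapplus5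

alias gapplus5 := A_gapplus5.gapplus5

namespace A_leaf_false5

theorem lf_q_add (X Y Z : V4) : q (X + Y) Z = q X Z + q Y Z := by
  simp only [q, Pi.add_apply]; ring

theorem lf_q_smul (c : ℝ) (X Z : V4) : q (c • X) Z = c * q X Z := by
  simp only [q, Pi.smul_apply, smul_eq_mul]; ring

theorem lf_q_comm (X Z : V4) : q X Z = q Z X := by
  simp only [q]; ring

theorem lf_q_add_r (X Y Z : V4) : q X (Y + Z) = q X Y + q X Z := by
  simp only [q, Pi.add_apply]; ring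

theorem lf_q_smul_r (c : ℝ) (X Z : V4) : q X (c • Z) = c * q X Z := by
  simp only [q, Pi.smul_apply, smul_eq_mul]; ring

theorem lf_eta_comm (x y : V3) : eta x y = eta y x := by
  simp only [eta]; ring

theorem lf_exp_nonpos {a b c : ℝ} (h : ∀ s : ℝ, a * Real.exp s + b * Real.exp (-s) ≤ c) :
    a ≤ 0 := by
  by_contra ha
  push Not at ha
  have hpos : 0 < 1 + (|b| + |c| + 1) / a := by positivity
  have h1 := h (Real.log (1 + (|b| + |c| + 1) / a))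
  rw [Real.exp_neg, Real.exp_log hpos] at h1
  have h2 : a * (1 + (|b| + |c| + 1) / a) = a + (|b| + |c| + 1) := by
    field_simp
  have h3 : (1 + (|b| + |c| + 1) / a)⁻¹ ≤ 1 := by
    apply inv_le_one_of_one_le₀
    have : 0 ≤ (|b| + |c| + 1) / a := by positivity
    linarith
  have h4 : 0 ≤ (1 + (|b| + |c| + 1) / a)⁻¹ := by positivity
  have h5 : -|b| ≤ b * (1 + (|b| + |c| + 1) / a)⁻¹ := by
    have h6 : -|b| ≤ b := neg_abs_le b
    have h7 : 0 ≤ |b| := abs_nonneg b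
    nlinarith
  have h8 := le_abs_self c
  linarith

theorem lf_exp_nonpos' {a b c : ℝ} (h : ∀ s : ℝ, a * Real.exp s + b * Real.exp (-s) ≤ c) :
    b ≤ 0 := by
  apply lf_exp_nonpos (a := b) (b := a) (c := c)
  intro s
  have := h (-s)
  rw [neg_neg] at this
  linarith

theorem lf_bound (S : Up) {Xl : V3 → V4} (hc : ContinuousOn Xl H2)
    (hG : ∀ g ∈ S.G, ∀ x ∈ H2, Xl (g.1 x) = g.2 (Xl x)) :
    ∃ R : ℝ, ∀ y ∈ H2, -q (S.p.X y) (Xl y) ≤ R := by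
  have hcont : ContinuousOn (fun y => -q (S.p.X y) (Xl y)) S.F := by
    have h1 : ContinuousOn S.p.X S.F := S.gp.core.contX.mono S.F_sub
    have h2 : ContinuousOn Xl S.F := hc.mono S.F_sub
    have h1' : ∀ i, ContinuousOn (fun y => S.p.X y i) S.F := fun i =>
      (continuous_apply i).comp_continuousOn h1
    have h2' : ∀ i, ContinuousOn (fun y => Xl y i) S.F := fun i =>
      (continuous_apply i).comp_continuousOn h2
    unfold q
    exact (((((h1' 0).mul (h2' 0)).neg.add ((h1' 1).mul (h2' 1))).add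
      ((h1' 2).mul (h2' 2))).sub ((h1' 3).mul (h2' 3))).neg
  obtain ⟨R, hR⟩ := (S.F_cpt.bddAbove_image hcont)
  refine ⟨R, fun y hy => ?_⟩
  obtain ⟨g, hg, hgF⟩ := S.F_cov y hy
  have h3 := hR ⟨g.1 y, hgF, rfl⟩
  simp only at h3
  rwa [S.G_Xp g hg y hy, hG g hg y hy, S.G_q g hg] at h3

theorem lf_close (S : Up) {c₁ M : ℝ} (hc₁ : 0 < c₁) (hM : 0 ≤ M) {z x : V3} {W : V4}
    (hz : z ∈ H2) (hx : x ∈ H2)
    (hgr : ∀ x ∈ H2, ∀ d : ℝ, 0 ≤ d → -eta z x = Real.cosh d →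
      c₁ * Real.cosh (S.c * d) ≤ -q (S.p.X x) W) (hle : -q (S.p.X x) W ≤ M) :
    -eta z x ≤ Real.cosh (M / (c₁ * S.c)) := by
  obtain ⟨d, v, hd, hv, hgeo⟩ := exists_geo hz hx
  have hcpos := S.gp.c_pos
  have he : -eta z x = Real.cosh d := by
    rw [← hgeo, eta_geo hz hv, neg_neg]
  have h1 := (hgr x hx d hd he).trans hle
  have h2 : S.c * d ≤ Real.cosh (S.c * d) := by
    have hnn : 0 ≤ S.c * d := mul_nonneg hcpos.le hd
    have h3 : S.c * d ≤ Real.sinh (S.c * d) := Real.self_le_sinh_iff.mpr hnn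
    exact h3.trans (Real.sinh_lt_cosh _).le
  have h4 : d ≤ M / (c₁ * S.c) := by
    rw [le_div_iff₀ (by positivity)]
    nlinarith
  rw [he, Real.cosh_le_cosh, abs_of_nonneg hd, abs_of_nonneg (by positivity)]
  exact h4

theorem lf_foot {a b N : V4} {P : V4} {τ : ℝ} (ha : q a a = 0) (hb : q b b = 0)
    (hab : q a b = -1/2) (haN : q a N = 0) (hbN : q b N = 0)
    (hz : a + b + τ • N = Real.sqrt (1 + τ ^ 2) • P) : -q P (a + b) ≤ 1 := by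
  have hsq : 1 ≤ Real.sqrt (1 + τ ^ 2) := by
    rw [Real.one_le_sqrt]; nlinarith [sq_nonneg τ]
  have e1 := congrArg (fun Z => q Z (a + b)) hz
  beta_reduce at e1
  rw [lf_q_smul, lf_q_add, lf_q_add, lf_q_smul τ] at e1
  rw [lf_q_add_r a, lf_q_add_r b, lf_q_add_r N, ha, hb, hab, lf_q_comm b, hab, lf_q_comm N, haN,
    lf_q_comm N, hbN] at e1
  nlinarith [e1, hsq]

theorem lf_cosh_le {a b : ℝ} (ha : 0 ≤ a) (hb : 0 ≤ b) (h : Real.cosh a ≤ Real.cosh b) : a ≤ b := by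
  rwa [Real.cosh_le_cosh, abs_of_nonneg ha, abs_of_nonneg hb] at h

theorem leaf_false5 (S : Up) {Xl : V3 → V4} (hc : ContinuousOn Xl H2)
    (hn : ∀ x ∈ H2, q (Xl x) (Xl x) = -1) (hG : ∀ g ∈ S.G, ∀ x ∈ H2, Xl (g.1 x) = g.2 (Xl x))
    (hpl : ∀ x ∈ H2, ∀ y ∈ H2, q (S.p.N x) (Xl y) ≤ 0) (hlt : ∀ x ∈ H2, ∀ y ∈ H2, q (S.p.X x) (Xl y) < 1)
    {x₀ v : V3} {Z : V4} (hx₀ : x₀ ∈ H2) (hv : UT x₀ v)
    (hleaf : ∀ s : ℝ, Xl (geo x₀ v s) = Real.cosh s • Xl x₀ + Real.sinh s • Z)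
    {N : V4} (hNN : q N N = -1) (hN0 : q (Xl x₀) N = 0) (hNl : ∀ y ∈ H2, q (Xl y) N ≤ 0)
    (hNp : ∀ y ∈ H2, q (S.p.X y) N ≤ 0) {ε : ℝ} (hε : 0 < ε)
    (hgap : ∀ N ∈ Dual5 S, ∀ ξ ∈ Lam5 S, q ξ N = 0 → ∀ x ∈ H2, S.sp x + ε ≤ -q (S.p.X x) N) : False := by
  have hN : N ∈ Dual5 S := ⟨hNN, hNp⟩
  set A := Xl x₀ with hA
  have hAA : q A A = -1 := hn x₀ hx₀
  have hys : ∀ s : ℝ, geo x₀ v s ∈ H2 := fun s => geo_mem hx₀ hv s
  have hexpand : ∀ s : ℝ, -(Real.cosh s) ^ 2 + 2 * Real.cosh s * Real.sinh s * q A Z +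
      (Real.sinh s) ^ 2 * q Z Z = -1 := by
    intro s
    have h1 := hn _ (hys s)
    rw [hleaf s] at h1
    rw [lf_q_add, lf_q_smul, lf_q_smul, lf_q_add_r, lf_q_add_r, lf_q_smul_r, lf_q_smul_r,
      lf_q_smul_r, lf_q_smul_r, hAA, lf_q_comm Z A] at h1
    linarith
  have hs1 : 0 < Real.sinh 1 := Real.sinh_pos_iff.mpr one_pos
  have hc1 : 0 < Real.cosh 1 := Real.cosh_pos 1
  have hAZ : q A Z = 0 := by
    have h1 := hexpand 1
    have h2 := hexpand (-1)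
    rw [Real.cosh_neg, Real.sinh_neg] at h2
    have h3 : (Real.cosh 1 * Real.sinh 1) * q A Z = 0 := by linarith
    rcases mul_eq_zero.mp h3 with h | h
    · exact absurd h (by positivity)
    · exact h
  have hZZ : q Z Z = 1 := by
    have h1 := hexpand 1
    rw [hAZ] at h1
    have h2 := Real.cosh_sq_sub_sinh_sq 1
    have h3 : (Real.sinh 1) ^ 2 * (q Z Z - 1) = 0 := by linarith
    rcases mul_eq_zero.mp h3 with h | h
    · exact absurd h (by positivity)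
    · linarith
  have hZN : q Z N = 0 := by
    have h1 := hNl _ (hys 1)
    have h2 := hNl _ (hys (-1))
    rw [hleaf, lf_q_add, lf_q_smul, lf_q_smul, hN0] at h1 h2
    rw [Real.sinh_neg] at h2
    have h3 : Real.sinh 1 * q Z N = 0 := by linarith
    rcases mul_eq_zero.mp h3 with h | h
    · exact absurd h hs1.ne'
    · exact h
  set ξ₁ : V4 := (1/2 : ℝ) • (A + Z) with hξ₁
  set ξ₂ : V4 := (1/2 : ℝ) • (A + (-1 : ℝ) • Z) with hξ₂
  have hXl : ∀ s : ℝ, Xl (geo x₀ v s) = Real.exp s • ξ₁ + Real.exp (-s) • ξ₂ := by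
    intro s
    rw [hleaf s, Real.cosh_eq, Real.sinh_eq]
    funext i
    simp only [hξ₁, hξ₂, Pi.add_apply, Pi.smul_apply, smul_eq_mul]
    ring
  have h11 : q ξ₁ ξ₁ = 0 := by
    rw [hξ₁, lf_q_smul, lf_q_smul_r, lf_q_add, lf_q_add_r, lf_q_add_r, hAA, hZZ, lf_q_comm Z A, hAZ]
    norm_num
  have h22 : q ξ₂ ξ₂ = 0 := by
    rw [hξ₂, lf_q_smul, lf_q_smul_r, lf_q_add, lf_q_add_r, lf_q_add_r, lf_q_smul, lf_q_smul,
      lf_q_smul_r, lf_q_smul_r, hAA, hZZ, lf_q_comm Z A, hAZ]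
    norm_num
  have h12 : q ξ₁ ξ₂ = -1/2 := by
    rw [hξ₁, hξ₂, lf_q_smul, lf_q_smul_r, lf_q_add, lf_q_add_r, lf_q_add_r,
      lf_q_smul_r, lf_q_smul_r, hAA, hZZ, lf_q_comm Z A, hAZ]
    norm_num
  have h1N : q ξ₁ N = 0 := by
    rw [hξ₁, lf_q_smul, lf_q_add, hN0, hZN]; norm_num
  have h2N : q ξ₂ N = 0 := by
    rw [hξ₂, lf_q_smul, lf_q_add, lf_q_smul, hN0, hZN]; norm_num
  have hne1 : ξ₁ ≠ 0 := by
    intro h0
    have : q ξ₁ ξ₂ = 0 := by rw [h0]; simp [q]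
    rw [h12] at this; norm_num at this
  have hne2 : ξ₂ ≠ 0 := by
    intro h0
    have : q ξ₁ ξ₂ = 0 := by rw [h0]; simp [q]
    rw [h12] at this; norm_num at this
  have hlX : ∀ x ∈ H2, ∀ s : ℝ, q (S.p.X x) ξ₁ * Real.exp s + q (S.p.X x) ξ₂ * Real.exp (-s) ≤ 1 := by
    intro x hx s
    have h1 := hlt x hx _ (hys s)
    rw [hXl, lf_q_add_r, lf_q_smul_r (Real.exp s), lf_q_smul_r (Real.exp (-s))] at h1
    linarith
  have hlN : ∀ x ∈ H2, ∀ s : ℝ, q (S.p.N x) ξ₁ * Real.exp s + q (S.p.N x) ξ₂ * Real.exp (-s) ≤ 0 := by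
    intro x hx s
    have h1 := hpl x hx _ (hys s)
    rw [hXl, lf_q_add_r, lf_q_smul_r (Real.exp s), lf_q_smul_r (Real.exp (-s))] at h1
    linarith
  have h₁ : ξ₁ ∈ Lam5 S := ⟨hne1, h11, fun x hx => ⟨lf_exp_nonpos (hlX x hx), lf_exp_nonpos (hlN x hx)⟩⟩
  have h₂ : ξ₂ ∈ Lam5 S := ⟨hne2, h22, fun x hx => ⟨lf_exp_nonpos' (hlX x hx), lf_exp_nonpos' (hlN x hx)⟩⟩
  obtain ⟨θ, δ, C, hθ0, hθ1, hδ, hC, hplus⟩ := gapplus5 S hN hε (hgap N hN ξ₁ h₁ h1N) h₁ h₂ h12 h1N h2N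
  obtain ⟨c₁, hc₁, hgrow⟩ := growth5 S
  obtain ⟨R, hR⟩ := lf_bound S hc hG
  set M := max 1 R with hM
  have hM1 : 1 ≤ M := le_max_left _ _
  have hMR : R ≤ M := le_max_right _ _
  have hM0 : 0 ≤ M := by linarith
  have hcpos := S.gp.c_pos
  set D := M / (c₁ * S.c) with hD
  have hD0 : 0 ≤ D := by positivity
  have hclose : ∀ a ∈ Lam5 S, ∀ b ∈ Lam5 S, q a b = -1/2 → q a N = 0 → q b N = 0 →
      ∀ y ∈ H2, Xl y = a + b → ∀ x ∈ H2, ∀ τ : ℝ,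
      a + b + τ • N = Real.sqrt (1 + τ ^ 2) • S.p.X x → -eta y x ≤ Real.cosh (D + D) := by
    intro a ha b hb hab haN hbN y hy hyab x hx τ hτ
    obtain ⟨z, hz, hzg⟩ := hgrow a ha b hb hab
    have k1 := lf_close S hc₁ hM0 hz hx hzg
      ((lf_foot ha.2.1 hb.2.1 hab haN hbN hτ).trans hM1)
    have k2 := lf_close S hc₁ hM0 hz hy hzg (by
      rw [← hyab]; exact (hR y hy).trans hMR)
    rw [lf_eta_comm] at k2
    exact H2_triangle hy hz hx hD0 hD0 k2 k1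
  have hexp : ∀ s : ℝ, Real.exp s * Real.exp (-s) = 1 := by
    intro s; rw [← Real.exp_add]; simp
  have L1 : ∀ s : ℝ, Real.exp s • ξ₁ ∈ Lam5 S := fun s => Lam_smul5 S h₁ (Real.exp_pos s)
  have L2 : ∀ s : ℝ, Real.exp (-s) • ξ₂ ∈ Lam5 S := fun s => Lam_smul5 S h₂ (Real.exp_pos _)
  have Lq : ∀ s : ℝ, q (Real.exp s • ξ₁) (Real.exp (-s) • ξ₂) = -1/2 := by
    intro s
    rw [lf_q_smul, lf_q_smul_r, h12, ← mul_assoc, hexp s, one_mul]
  have L1N : ∀ s : ℝ, q (Real.exp s • ξ₁) N = 0 := by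
    intro s; rw [lf_q_smul, h1N, mul_zero]
  have L2N : ∀ s : ℝ, q (Real.exp (-s) • ξ₂) N = 0 := by
    intro s; rw [lf_q_smul, h2N, mul_zero]
  have hg0 : geo x₀ v 0 = x₀ := (geo_zero x₀ v).1
  have hXl0 : Xl x₀ = ξ₁ + ξ₂ := by
    have h0 := hXl 0
    rw [hg0] at h0
    rw [h0]; simp
  obtain ⟨u, hu, t, ht, hut⟩ := vertical5 S hN h₁ h₂ h12 h1N h2N
  have k0 := hclose ξ₁ h₁ ξ₂ h₂ h12 h1N h2N x₀ hx₀ hXl0 u hu t hut
  have key : ∀ n : ℕ, 0 < n → (n : ℝ) * δ ≤ (D + D) + (θ * (n * δ) + C) + (D + D) := by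
    intro n hn0
    obtain ⟨w, hw, t', ht', hwt⟩ := vertical5 S hN (L1 (n * δ)) (L2 (n * δ)) (Lq _) (L1N _) (L2N _)
    have k1 := hclose _ (L1 (n * δ)) _ (L2 (n * δ)) (Lq _) (L1N _) (L2N _) _ (hys (n * δ))
      (hXl (n * δ)) w hw t' hwt
    have k2 := hplus n hn0 u hu w hw t t' ht ht' hut hwt
    have hnn : 0 ≤ (n : ℝ) * δ := by positivity
    have hr : 0 ≤ θ * (n * δ) + C := by positivity
    have k3 := H2_triangle hx₀ hu hw (by positivity) hr k0 k2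
    rw [lf_eta_comm] at k1
    have k4 := H2_triangle hx₀ hw (hys (n * δ)) (by positivity) (by positivity) k3 k1
    rw [eta_geo hx₀ hv, neg_neg] at k4
    exact lf_cosh_le hnn (by positivity) k4
  have hpos : 0 < (1 - θ) * δ := mul_pos (by linarith) hδ
  obtain ⟨n, hn'⟩ := exists_nat_gt ((4 * D + C) / ((1 - θ) * δ))
  rw [div_lt_iff₀ hpos] at hn'
  have hn0 : 0 < n := by
    rcases Nat.eq_zero_or_pos n with h | h
    · exfalso
      rw [h, Nat.cast_zero, zero_mul] at hn'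
      have : 0 ≤ 4 * D + C := by positivity
      linarith
    · exact h
  have h9 := key n hn0
  nlinarith

end A_leaf_false5

alias leaf_false5 := A_leaf_false5.leaf_false5

end Helper935.AdS
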