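import Pool.Agent.Helper935_AdS.HalfH
import Pool.Agent.Helper935_AdS.HalfC
import Pool.Agent.Helper935_AdS.Frm

namespace Helper935.AdS

namespace A_touch5

theorem q_neg_right5 (X Y : V4) : q X (-Y) = -q X Y := by
  simp only [q, Pi.neg_apply]
  ring

theorem q_neg_neg5 (X Y : V4) : q (-X) (-Y) = q X Y := by
  simp only [q, Pi.neg_apply]
  ring

theorem iso_symm5 {S S₀ : Sf} (h : Iso S S₀) : Iso S₀ S :=
  ⟨fun x hx v w hv hw => (h.metric x hx v w hv hw).symm,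
    fun x hx v w hv hw => (h.tang x hx v w hv hw).symm,
    fun x hx v w hv hw => (h.det x hx v w hv hw).symm⟩

theorem touch5 (S : Up) {N : V4} (hN : N ∈ Dual5 S) {ξ : V4} (hξ : ξ ∈ Lam5 S) (h0 : q ξ N = 0)
    {y : V3} (hy : y ∈ H2) (heq : -q (S.p.X y) N = S.sp y) {x : V3} (hx : x ∈ H2) : q (S.p.X x) N = -S.sp x := by
  obtain ⟨h1, -, s₁, hs₁, h2⟩ := heights5 S
  have hX : ∀ z ∈ H2, q (S.p0.X z) (-EE) = S.sp z := fun z hz => by
    rw [q_neg_right5, (h1 z hz).1, neg_neg]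
  have hσ : Real.sqrt (1 - s₁ ^ 2) < 1 := by
    rw [Real.sqrt_lt' one_pos]
    nlinarith
  have hsp : ∀ z ∈ H2, S.sp z ≤ Real.sqrt (1 - s₁ ^ 2) := fun z hz => by
    apply Real.le_sqrt_of_sq_le
    have h3 := (h1 z hz).2
    have h4 := (h2 z hz).2
    nlinarith
  have key := hopf3 S.gp0.core S.gp.core (iso_symm5 S.iso_p) (Z := -EE) (Z₀ := -N)
    (by rw [q_neg_neg5]; simp [q, EE]) (by rw [q_neg_neg5]; exact hN.1)
    (κ := 1 - Real.sqrt (1 - s₁ ^ 2)) (by linarith)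
    (fun z hz hlt => by
      rw [q_neg_right5, hX z hz] at hlt
      have h5 := hsp z hz
      have h6 := pos_n5 S hN hξ h0 hz (by linarith)
      rw [q_neg_right5]
      linarith)
    (fun z hz => by
      rw [hX z hz, q_neg_right5]
      exact upper5 S hN hξ h0 hz)
    hy (by rw [hX y hy, q_neg_right5, heq]) hx
  rw [hX x hx, q_neg_right5] at key
  linarith

end A_touch5

alias touch5 := A_touch5.touch5

namespace A_final5

theorem final5_ext {f g : V3 →ₗ[ℝ] V4} (h : ∀ x ∈ H2, f x = g x) : f = g := by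
  have hs : Real.sqrt 2 * Real.sqrt 2 = 2 := Real.mul_self_sqrt (by norm_num)
  have hs0 : 0 < Real.sqrt 2 := Real.sqrt_pos.2 (by norm_num)
  have e0 : f ![1, 0, 0] = g ![1, 0, 0] := h _ (by simp [H2, eta])
  have e1 : f ![Real.sqrt 2, 1, 0] = g ![Real.sqrt 2, 1, 0] := h _ (by
    refine ⟨?_, by simp⟩
    simp only [eta, Matrix.cons_val_zero, Matrix.cons_val_one, Matrix.cons_val]
    rw [hs]
    norm_num)
  have e2 : f ![Real.sqrt 2, 0, 1] = g ![Real.sqrt 2, 0, 1] := h _ (by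
    refine ⟨?_, by simp⟩
    simp only [eta, Matrix.cons_val_zero, Matrix.cons_val_one, Matrix.cons_val]
    rw [hs]
    norm_num)
  apply LinearMap.ext
  intro x
  have hx : x = (x 0 - Real.sqrt 2 * x 1 - Real.sqrt 2 * x 2) • (![1, 0, 0] : V3) +
      x 1 • (![Real.sqrt 2, 1, 0] : V3) + x 2 • (![Real.sqrt 2, 0, 1] : V3) := by
    ext i
    fin_cases i
    · simp
      ring
    · simp
    · simp
  rw [hx]
  simp only [map_add, map_smul, e0, e1, e2]

theorem final5_equiv {c t : V3 → ℝ} (hc : ∀ x ∈ H2, 0 < c x) {X : V3 → V4} {L : V3 →ₗ[ℝ] V4} {N : V4}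
    (hX : ∀ x ∈ H2, X x = c x • L x + t x • N)
    {g : (V3 ≃ₗ[ℝ] V3) × (V4 ≃ₗ[ℝ] V4)} (hH : ∀ x ∈ H2, g.1 x ∈ H2) (hN : g.2 N = N)
    (hgX : ∀ x ∈ H2, X (g.1 x) = g.2 (X x)) (hgc : ∀ x ∈ H2, c (g.1 x) = c x)
    (hgt : ∀ x ∈ H2, t (g.1 x) = t x) {x : V3} (hx : x ∈ H2) : L (g.1 x) = g.2 (L x) := by
  have h1 := hgX x hx
  rw [hX x hx, hX _ (hH x hx), hgc x hx, hgt x hx, map_add, map_smul, map_smul, hN] at h1
  have h2 := add_right_cancel h1
  exact smul_right_injective V4 (hc x hx).ne' h2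

theorem final5_fixed (S : Up) {N : V4} (hN : ∀ x ∈ H2, q (S.p.X x) N = -S.sp x)
    {g : (V3 ≃ₗ[ℝ] V3) × (V4 ≃ₗ[ℝ] V4)} (hg : g ∈ S.G) : g.2 N = N := by
  have hsub : ∀ A B C : V4, q A (B - C) = q A B - q A C := by
    intro A B C
    simp only [q, Pi.sub_apply]
    ring
  have key : g.2 N - N = 0 := by
    refine span_zero2 S.gp.core ?_
    intro y hy
    have hx : g.1.symm y ∈ H2 := S.G_H2 _ (S.G_inv g hg) y hy
    have h1 : S.p.X y = g.2 (S.p.X (g.1.symm y)) := by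
      have := S.G_Xp g hg _ hx
      rwa [LinearEquiv.apply_symm_apply] at this
    have h2 : S.sp y = S.sp (g.1.symm y) := by
      have := S.G_sp g hg _ hx
      rwa [LinearEquiv.apply_symm_apply] at this
    have h3 : q (S.p.X y) (g.2 N) = -S.sp y := by
      rw [h1, S.G_q g hg, hN _ hx, h2]
    rw [hsub, h3, hN y hy, sub_self]
  exact sub_eq_zero.1 key

/- Proof:
g.2 N = N for g in G: for y in H2, x = g.1^-1 y: q (p.X y)(g.2 N) = q (p.X x) N = -sp x = -sp y = q (p.X y) N, so span_zero2 (S.gp.core) gives g.2 N - N = 0. lin2 for (S.p, S.p0), a = cp, t = sp (q (p.X x) N = -sp x = q (p0.X x) EE by heights5): L with Xp = cp L + sp N. Equivariance for x in H2: cp (g.1 x) L (g.1 x) + sp (g.1 x) N = Xp (g.1 x) = g.2 (Xp x) = cp x g.2 (L x) + sp x N, so L (g.1 x) = g.2 (L x) (cp > 0); then for all x as H2 spans V3.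
-/
theorem final5 (S : Up) {N : V4} (hNN : q N N = -1) (hN : ∀ x ∈ H2, q (S.p.X x) N = -S.sp x) :
    ∃ L : V3 →ₗ[ℝ] V4, (∀ x y, q (L x) (L y) = eta x y) ∧ (∀ x, q (L x) N = 0) ∧
    (∀ x ∈ H2, S.p.X x = S.cp x • L x + S.sp x • N) ∧
    (∀ g ∈ S.G, g.2 N = N ∧ ∀ x, g.2 (L x) = L (g.1 x)) := by
  obtain ⟨hh, -, s₁, hs₁, hlow⟩ := heights5 S
  obtain ⟨L, h1, h1N, hX⟩ := lin2 S.gp.core S.gp0.core S.iso_p hNN
    (fun x hx => by rw [hN x hx, (hh x hx).1]) (fun x hx => (S.n0p x hx).ne') (a := S.cp)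
    (t := S.sp) S.cp_pos S.X0p
  have hfix : ∀ g ∈ S.G, g.2 N = N := fun g hg => final5_fixed S hN hg
  have e1 : ∀ g ∈ S.G, ∀ x ∈ H2, L (g.1 x) = g.2 (L x) := fun g hg x hx =>
    final5_equiv S.cp_pos hX (S.G_H2 g hg) (hfix g hg) (S.G_Xp g hg) (S.G_cp g hg)
      (S.G_sp g hg) hx
  refine ⟨L, h1, h1N, hX, fun g hg => ⟨hfix g hg, fun x => ?_⟩⟩
  have h8 : (g.2 : V4 →ₗ[ℝ] V4).comp L = L.comp (g.1 : V3 →ₗ[ℝ] V3) :=
    final5_ext fun x hx => (e1 g hg x hx).symm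
  exact congrArg (fun f => f x) h8

end A_final5

alias final5 := A_final5.final5

namespace A_plane5

theorem plane5 {Γ : Type*} [Group Γ] {A : Γ →* (V3 ≃ₗ[ℝ] V3)} (hA : IsCocompact A)
    {ρ : Γ →* (V4 ≃ₗ[ℝ] V4)} (hρ : ∀ g, IsIso (ρ g)) {X : V3 → V4} (h : IsPleated X)
    (he : ∀ g, ∀ x ∈ H2, X (A g x) = ρ g (X x)) {E : V4} (hE : ∀ g, ρ g E = E) {x : V3} (hx : x ∈ H2) :
    q (X x) E = 0 := by
  obtain ⟨F, hF, hFc, hFcov⟩ := hA.cocompact
  have hinv : ∀ g, ∀ y ∈ H2, q (X (A g y)) E = q (X y) E := by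
    intro g y hy
    rw [he g y hy]
    conv_lhs => rw [← hE g]
    exact hρ g _ _
  have hcont : ContinuousOn (fun y => q (X y) E) F := by
    have h1 : ContinuousOn X F := h.cont.mono hF
    have h2 : ∀ i : Fin 4, ContinuousOn (fun y => X y i) F := fun i =>
      (continuous_apply i).comp_continuousOn h1
    unfold q
    exact ((((h2 0).mul continuousOn_const).neg.add ((h2 1).mul continuousOn_const)).add
      ((h2 2).mul continuousOn_const)).sub ((h2 3).mul continuousOn_const)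
  have hne : F.Nonempty := by
    obtain ⟨g, hg⟩ := hFcov x hx
    exact ⟨_, hg⟩
  have hqlin : ∀ (a b : ℝ) (Y Z : V4), q (a • Y + b • Z) E = a * q Y E + b * q Z E := by
    intro a b Y Z
    simp only [q, Pi.add_apply, Pi.smul_apply, smul_eq_mul]
    ring
  -- the key inequality
  have key : ∀ (σ : ℝ) (y : V3), y ∈ H2 → (∀ z ∈ H2, σ * q (X z) E ≤ σ * q (X y) E) →
      σ * q (X y) E ≤ 0 := by
    intro σ y hy hmax
    obtain ⟨v, Z, hv, ε, hε, hb⟩ := h.bent y hy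
    have hs1 : |ε / 2| < ε := by rw [abs_of_pos (by linarith)]; linarith
    have hs2 : |-(ε / 2)| < ε := by rw [abs_neg]; exact hs1
    have h1 := hmax _ (geo_mem hy hv (ε / 2))
    have h2 := hmax _ (geo_mem hy hv (-(ε / 2)))
    rw [hb _ hs1, hqlin] at h1
    rw [hb _ hs2, hqlin, Real.cosh_neg, Real.sinh_neg] at h2
    have hc : 1 < Real.cosh (ε / 2) := Real.one_lt_cosh.mpr (by linarith)
    have h3 : (Real.cosh (ε / 2) - 1) * (σ * q (X y) E) ≤ 0 := by nlinarith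
    by_contra hpos
    push Not at hpos
    nlinarith
  have upper : q (X x) E ≤ 0 := by
    obtain ⟨y, hy, hymax⟩ := hFc.exists_isMaxOn hne hcont
    have hall : ∀ z ∈ H2, q (X z) E ≤ q (X y) E := by
      intro z hz
      obtain ⟨g, hg⟩ := hFcov z hz
      rw [← hinv g z hz]
      exact hymax hg
    have h1 := key 1 y (hF hy) (fun z hz => by rw [one_mul, one_mul]; exact hall z hz)
    rw [one_mul] at h1
    exact (hall x hx).trans h1
  have lower : 0 ≤ q (X x) E := by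
    obtain ⟨y, hy, hymin⟩ := hFc.exists_isMinOn hne hcont
    have hall : ∀ z ∈ H2, q (X y) E ≤ q (X z) E := by
      intro z hz
      obtain ⟨g, hg⟩ := hFcov z hz
      rw [← hinv g z hz]
      exact hymin hg
    have h1 := key (-1) y (hF hy) (fun z hz => by linarith [hall z hz])
    linarith [hall x hx]
  linarith

end A_plane5

alias plane5 := A_plane5.plane5

end Helper935.AdS
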