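import Pool.Agent.Helper935_AdS.HalfE
import Pool.Agent.Helper935_AdS.HalfF
import Pool.Agent.Helper935_AdS.Fuch
import Pool.Agent.Helper935_AdS.Weak

namespace Helper935.AdS

namespace A_setup5

theorem setup5_qE (y : V3) (t : ℝ) : q (emb y t) EE = -t := by
  simp [q, emb, EE]

theorem setup5_qq (x : V3) (c t : ℝ) : q (emb (c • x) t) (emb (c • x) t) =
    c ^ 2 * eta x x - t ^ 2 := by
  simp [q, emb, eta]
  ring

theorem setup5_vert {X N : V3 → V4} (h : IsConvexSurface X N) (hv : Vertical X) {x : V3}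
    (hx : x ∈ H2) : 0 < Real.sqrt (1 - (q (X x) EE) ^ 2) ∧
      X x = emb (Real.sqrt (1 - (q (X x) EE) ^ 2) • x) (-(q (X x) EE)) := by
  obtain ⟨c, t, hc, hX⟩ := hv x hx
  have h1 : q (X x) EE = -t := by rw [hX]; exact setup5_qE _ _
  have h2 : q (X x) (X x) = -1 := h.XX x hx
  rw [hX, setup5_qq, hx.1] at h2
  have h3 : (1 - (q (X x) EE) ^ 2) = c ^ 2 := by rw [h1]; linarith
  rw [h3, Real.sqrt_sq hc.le, h1, neg_neg]
  exact ⟨hc, hX⟩

theorem setup5_inv {Γ : Type*} [Group Γ] {A : Γ →* (V3 ≃ₗ[ℝ] V3)}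
    {ρ : Γ →* (V4 ≃ₗ[ℝ] V4)} (hrho : ∀ g x t, ρ g (emb x t) = emb (A g x) t) {X N : V3 → V4}
    (hv : Vertical X) (he : Equivariant A ρ X N) (g : Γ) {x : V3} (hx : x ∈ H2) :
    q (X (A g x)) EE = q (X x) EE := by
  obtain ⟨c, t, hc, hX⟩ := hv x hx
  rw [he.eX g x hx, hX, hrho, setup5_qE, setup5_qE]

theorem setup5_conv {X N : V3 → V4} (h : IsRegSurface X N) (hpos : PosII X N) :
    IsConvexSurface X N where
  smoothX := h.smoothX
  smoothN := h.smoothN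
  homX := h.homX
  homN := h.homN
  XX := h.XX
  NN := h.NN
  NX := h.NX
  NdX := h.NdX
  spacelike := h.spacelike
  strict := hpos

theorem setup5_lt {K : Set V4} (hadd : ∀ Y ∈ K, ∀ Z ∈ K, Y + Z ∈ K) (hneg : ∀ Y ∈ K, q Y Y < 0)
    {Y Z : V4} (hY : Y ∈ K) (hZ : Z ∈ K) (hYY : q Y Y = -1) (hZZ : q Z Z = -1) : q Y Z < 1 := by
  have h1 := hneg _ (hadd Y hY Z hZ)
  have h2 : q (Y + Z) (Y + Z) = q Y Y + 2 * q Y Z + q Z Z := by
    simp only [q, Pi.add_apply]; ring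
  rw [h2, hYY, hZZ] at h1
  linarith

/- Proof:
Like setup_of (hint), only for the upper surface: p = <S.Xp, S.Np, ...>, p0 = <S0.Xp, S0.Np, ...>. IsConvexSurface from IsRegSurface and PosII (same fields); PosII S.Xp S.Np by pos_of (SameMetric S.Xp S0.Xp, h0.pos_p, supports from MBounds.supp_p, mem_p). lt_one needs only K add and neg: reprove directly (q (Y+Z)(Y+Z) < 0).
-/
theorem setup5 {Γ : Type*} [Group Γ] {A : Γ →* (V3 ≃ₗ[ℝ] V3)} (hA : IsCocompact A) (S₀ S : MixedSlab A)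
    (h₀ : HalfFuchsian S₀) (hp : SameMetric S.Xp S₀.Xp) :
    ∃ T : Up, T.p.X = S.Xp ∧ T.p.N = S.Np ∧ T.p0.X = S₀.Xp ∧ T.G = {p | ∃ g : Γ, p = (A g, S.ρ g)} := by
  have hpos : PosII S.Xp S.Np := pos_of S.surf_p S₀.surf_p hp h₀.pos_p
    (fun x hx y hy => S.bd.supp_p x hx _ (S.bd.mem_p y hy))
  have hcS := setup5_conv S.surf_p hpos
  have hcS₀ := setup5_conv S₀.surf_p h₀.pos_p
  obtain ⟨c2, hc2, hl2⟩ := low_exists hA S.iso hcS S.eq_p
  obtain ⟨F, hF1, hF2, hF3⟩ := hA.cocompact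
  have hcpos : 0 < Real.sqrt c2 := Real.sqrt_pos.2 hc2
  have hcsq : Real.sqrt c2 ^ 2 = c2 := Real.sq_sqrt hc2.le
  have hlp : ∀ x ∈ H2, ∀ v, UT x v → Real.sqrt c2 ^ 2 ≤
      q (fderiv ℝ S.Xp x v) (fderiv ℝ S.Xp x v) := by
    intro x hx v hv
    rw [hcsq]
    exact hl2 x hx v hv
  have hlp0 : ∀ x ∈ H2, ∀ v, UT x v → Real.sqrt c2 ^ 2 ≤
      q (fderiv ℝ S₀.Xp x v) (fderiv ℝ S₀.Xp x v) := by
    intro x hx v hv
    rw [← hp x hx v v hv.1 hv.1]
    exact hlp x hx v hv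
  have gp := good_of hcS hcpos hlp
    (fun x hx y hy => S.bd.supp_p x hx _ (S.bd.mem_p y hy))
    (fun x hx y hy => setup5_lt S.bd.add S.bd.neg (S.bd.mem_p x hx) (S.bd.mem_p y hy)
      (S.surf_p.XX x hx) (S.surf_p.XX y hy)) (Or.inr S.bd.past_p) S.inj_p
  have gp0 := good_of hcS₀ hcpos hlp0
    (fun x hx y hy => S₀.bd.supp_p x hx _ (S₀.bd.mem_p y hy))
    (fun x hx y hy => setup5_lt S₀.bd.add S₀.bd.neg (S₀.bd.mem_p x hx) (S₀.bd.mem_p y hy)
      (S₀.surf_p.XX x hx) (S₀.surf_p.XX y hy)) (Or.inr S₀.bd.past_p) S₀.inj_p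
  have n0p : ∀ x ∈ H2, 0 < q (S₀.Np x) EE := fun x hx =>
    (vert_sign hcS₀ h₀.vert_p hx).2 (S₀.bd.past_p x hx)
  have hhp : ∀ x ∈ H2, q (S₀.Xp x) EE < 0 :=
    (vert_height hA h₀.rho hcS₀ h₀.vert_p S₀.eq_p).2 n0p
  have hinvp : ∀ (g : Γ), ∀ x ∈ H2, q (S₀.Xp (A g x)) EE = q (S₀.Xp x) EE := fun g x hx =>
    setup5_inv h₀.rho h₀.vert_p S₀.eq_p g hx
  refine ⟨{
    p := ⟨S.Xp, S.Np, fun x v => fderiv ℝ S.Xp x v, fun x v => fderiv ℝ S.Np x v,
      fun x v => fderiv ℝ (fderiv ℝ S.Xp) x v v + S.Xp x⟩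
    p0 := ⟨S₀.Xp, S₀.Np, fun x v => fderiv ℝ S₀.Xp x v, fun x v => fderiv ℝ S₀.Np x v,
      fun x v => fderiv ℝ (fderiv ℝ S₀.Xp) x v v + S₀.Xp x⟩
    c := Real.sqrt c2
    gp := gp
    gp0 := gp0
    iso_p := iso_of hcS hcS₀ hp
    sp := fun x => -(q (S₀.Xp x) EE)
    cp := fun x => Real.sqrt (1 - (q (S₀.Xp x) EE) ^ 2)
    sp_pos := fun x hx => neg_pos.2 (hhp x hx)
    cp_pos := fun x hx => (setup5_vert hcS₀ h₀.vert_p hx).1
    X0p := fun x hx => (setup5_vert hcS₀ h₀.vert_p hx).2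
    n0p := n0p
    G := {γ | ∃ g : Γ, γ = (A g, S.ρ g)}
    F := F
    G_inv := ?_
    G_eta := ?_
    G_H2 := ?_
    G_q := ?_
    G_Xp := ?_
    G_Np := ?_
    G_sp := ?_
    G_cp := ?_
    F_sub := hF1
    F_cpt := hF2
    F_cov := ?_ }, rfl, rfl, rfl, rfl⟩
  · rintro γ ⟨g, rfl⟩
    refine ⟨g⁻¹, ?_⟩
    rw [map_inv, map_inv]
    rfl
  · rintro γ ⟨g, rfl⟩ x y
    exact hA.iso g x y
  · rintro γ ⟨g, rfl⟩ x hx
    exact ⟨(hA.iso g x x).trans hx.1, hA.pos g x hx⟩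
  · rintro γ ⟨g, rfl⟩ X Y
    exact S.iso g X Y
  · rintro γ ⟨g, rfl⟩ x hx
    exact S.eq_p.eX g x hx
  · rintro γ ⟨g, rfl⟩ x hx
    exact S.eq_p.eN g x hx
  · rintro γ ⟨g, rfl⟩ x hx
    simp only [hinvp g x hx]
  · rintro γ ⟨g, rfl⟩ x hx
    simp only [hinvp g x hx]
  · intro x hx
    obtain ⟨g, hg⟩ := hF3 x hx
    exact ⟨_, ⟨g, rfl⟩, hg⟩

end A_setup5

alias setup5 := A_setup5.setup5

namespace A_half_unique

/- Proof:
setup5: T. The second alternative of dich5 is impossible by leaf_false5 with Xl = S.Xl: leaf data from S.pleated.leaf (x0, v, Z), N from S.bd.supp_l x0 (q N (Xl x0) = 0, q N Y <= 0 on K, mem_l, mem_p), hpl from supp_p and mem_l, hlt: q (Xp x)(Xl y) < 1 since Xp x + Xl y in K has negative square; hG from eq_l and T.G = {..}. So N in Dual5, xi, x with -q (Xp x) N = sp x; touch5: q (Xp x) N = -sp x on H2; final5 gives L (E = N). Build Phi: V4 ≃ V4 with Phi (emb x t) = L x + t N: the linear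 maps (x,t) -> L x + t N and (x,t) -> emb x t from V3 x R to V4 are injective (they preserve the nondegenerate form eta - t t'), hence equivalences (dimension 4); Phi is an isometry. Phi EE = N. p: S0.Xp x = T.p0.X x = emb (cp x * x) (sp x) (T.X0p) so Phi (S0.Xp x) = cp x L x + sp x N = S.Xp x. rho: on emb y s: S0.rho g (emb y s) = emb (A g y) s, S.rho g (L y + s N) = L (A g y) + s N (final5 with (A g, S.rho g) in T.G). l: plane5 with E = N.
-/
theorem half_unique {Γ : Type*} [Group Γ] {A : Γ →* (V3 ≃ₗ[ℝ] V3)} (hA : IsCocompact A) (S₀ S : MixedSlab A)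
    (h₀ : HalfFuchsian S₀) (hp : SameMetric S.Xp S₀.Xp) : ∃ Φ, MCongruent S₀ S Φ := by
  obtain ⟨T, hX, hN, hX0, hG⟩ := setup5 hA S₀ S h₀ hp
  have hG' : ∀ g ∈ T.G, ∀ x ∈ H2, S.Xl (g.1 x) = g.2 (S.Xl x) := by
    intro g hg x hx
    rw [hG] at hg
    obtain ⟨γ, rfl⟩ := hg
    exact S.eq_l γ x hx
  have hpl : ∀ x ∈ H2, ∀ y ∈ H2, q (T.p.N x) (S.Xl y) ≤ 0 := by
    intro x hx y hy
    rw [hN]
    exact S.bd.supp_p x hx _ (S.bd.mem_l y hy)
  have hlt : ∀ x ∈ H2, ∀ y ∈ H2, q (T.p.X x) (S.Xl y) < 1 := by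
    intro x hx y hy
    rw [hX]
    have h1 := S.bd.neg _ (S.bd.add _ (S.bd.mem_p x hx) _ (S.bd.mem_l y hy))
    have h2 := S.surf_p.XX x hx
    have h3 := S.pleated.norm y hy
    have h4 : q (S.Xp x + S.Xl y) (S.Xp x + S.Xl y) =
        q (S.Xp x) (S.Xp x) + 2 * q (S.Xp x) (S.Xl y) + q (S.Xl y) (S.Xl y) := by
      simp only [q, Pi.add_apply]
      ring
    linarith
  rcases dich5 T with ⟨N, hND, ξ, hξ, h0, y, hy, heq⟩ | ⟨ε, hε, hgap⟩
  · have hNN : q N N = -1 := hND.1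
    have hNs : ∀ x ∈ H2, q (T.p.X x) N = -T.sp x := fun x hx => touch5 T hND hξ h0 hy heq hx
    obtain ⟨L, hL1, hL2, hL3, hL4⟩ := final5 T hNN hNs
    let P : V4 →ₗ[ℝ] V3 :=
      { toFun := fun Y => ![Y 0, Y 1, Y 2]
        map_add' := by
          intro Y Z
          ext i
          fin_cases i <;> simp
        map_smul' := by
          intro c Y
          ext i
          fin_cases i <;> simp }
    let R : V4 →ₗ[ℝ] ℝ := LinearMap.proj 3
    let F : V4 →ₗ[ℝ] V4 := L ∘ₗ P + R.smulRight N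
    have hF : ∀ Y, F Y = L (P Y) + Y 3 • N := by
      intro Y
      rfl
    have hsym : ∀ X Y : V4, q X Y = q Y X := by
      intro X Y
      simp only [q]
      ring
    have hq1 : ∀ (a b : V4) (s t : ℝ), q (a + s • N) (b + t • N) =
        q a b + t * q a N + s * q b N + s * t * q N N := by
      intro a b s t
      simp only [q, Pi.add_apply, Pi.smul_apply, smul_eq_mul]
      ring
    have hFiso : ∀ Y Z, q (F Y) (F Z) = q Y Z := by
      intro Y Z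
      rw [hF, hF, hq1, hL1, hL2, hL2, hNN]
      simp only [eta, q, P, LinearMap.coe_mk, AddHom.coe_mk]
      simp
      ring
    have hFinj : Function.Injective F := by
      rw [← LinearMap.ker_eq_bot, LinearMap.ker_eq_bot']
      intro Y hY
      have h5 : ∀ Z, q Y Z = 0 := by
        intro Z
        rw [← hFiso, hY]
        simp [q]
      ext i
      fin_cases i
      · simpa [q] using h5 ![1, 0, 0, 0]
      · simpa [q] using h5 ![0, 1, 0, 0]
      · simpa [q] using h5 ![0, 0, 1, 0]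
      · simpa [q] using h5 ![0, 0, 0, 1]
    let Φ : V4 ≃ₗ[ℝ] V4 := LinearEquiv.ofInjectiveEndo F hFinj
    have hΦ : ∀ Y, Φ Y = F Y := fun Y => rfl
    have hemb : ∀ (x : V3) (t : ℝ), Φ (emb x t) = L x + t • N := by
      intro x t
      rw [hΦ, hF]
      have h6 : P (emb x t) = x := by
        ext i
        fin_cases i <;> simp [P, emb]
      rw [h6]
      simp [emb]
    have hEE : Φ EE = N := by
      have h7 : EE = emb 0 1 := by
        ext i
        fin_cases i <;> simp [EE, emb]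
      rw [h7, hemb]
      simp
    have hmem : ∀ g : Γ, ((A g, S.ρ g) : (V3 ≃ₗ[ℝ] V3) × (V4 ≃ₗ[ℝ] V4)) ∈ T.G := by
      intro g
      rw [hG]
      exact ⟨g, rfl⟩
    refine ⟨Φ, ⟨?_, ?_, ?_, ?_⟩⟩
    · intro Y Z
      rw [hΦ, hΦ, hFiso]
    · intro x hx
      rw [hEE]
      exact plane5 hA S.iso S.pleated S.eq_l (fun g => (hL4 _ (hmem g)).1) hx
    · intro x hx
      rw [← hX, hL3 x hx, ← hX0, T.X0p x hx, hemb]
      simp
    · intro g Y
      have h8 : Y = emb ![Y 0, Y 1, Y 2] (Y 3) := by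
        ext i
        fin_cases i <;> simp [emb]
      rw [h8, hemb, h₀.rho, hemb]
      have h9 := hL4 _ (hmem g)
      rw [map_add, map_smul]
      have h10 := h9.1
      have h11 := h9.2 ![Y 0, Y 1, Y 2]
      simp only at h10 h11
      rw [h10, h11]
  · exfalso
    obtain ⟨x₀, hx₀, v, Z, hv, hleaf⟩ := S.pleated.leaf
    obtain ⟨N, hNN, hN0, hNK, -⟩ := S.bd.supp_l x₀ hx₀
    have hsym : ∀ X Y : V4, q X Y = q Y X := by
      intro X Y
      simp only [q]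
      ring
    refine leaf_false5 T S.pleated.cont S.pleated.norm hG' hpl hlt hx₀ hv hleaf hNN
      (by rw [hsym]; exact hN0) ?_ ?_ hε hgap
    · intro y hy
      rw [hsym]
      exact hNK _ (S.bd.mem_l y hy)
    · intro y hy
      rw [hsym, hX]
      exact hNK _ (S.bd.mem_p y hy)

end A_half_unique

alias half_unique := A_half_unique.half_unique

end Helper935.AdS
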