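import Pool.Agent.Helper935_AdS.Hyp

namespace Helper935.AdS

namespace A_q_cont

/- Proof:
polynomial
-/
theorem q_cont : Continuous (fun p : V4 × V4 => q p.1 p.2) := by
  unfold q
  fun_prop

end A_q_cont

alias q_cont := A_q_cont.q_cont

namespace A_q_bound

/- Proof:
sup norm: each product is at most the product of the norms
-/
theorem q_bound (X Y : V4) : |q X Y| ≤ 4 * ‖X‖ * ‖Y‖ := by
  have h : ∀ i : Fin 4, |X i * Y i| ≤ ‖X‖ * ‖Y‖ := by
    intro i
    rw [abs_mul]
    have h1 : |X i| ≤ ‖X‖ := by simpa [Real.norm_eq_abs] using norm_le_pi_norm X i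
    have h2 : |Y i| ≤ ‖Y‖ := by simpa [Real.norm_eq_abs] using norm_le_pi_norm Y i
    exact mul_le_mul h1 h2 (abs_nonneg _) (norm_nonneg _)
  have h0 := abs_le.mp (h 0)
  have h1 := abs_le.mp (h 1)
  have h2 := abs_le.mp (h 2)
  have h3 := abs_le.mp (h 3)
  unfold q
  rw [abs_le]
  constructor <;> linarith [h0.1, h0.2, h1.1, h1.2, h2.1, h2.2, h3.1, h3.2]

end A_q_bound

alias q_bound := A_q_bound.q_bound

namespace A_q_nondeg

/- Proof:
test with the coordinate vectors
-/
theorem q_nondeg {X : V4} (h : ∀ Y, q X Y = 0) : X = 0 := by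
  have h0 := h ![1, 0, 0, 0]
  have h1 := h ![0, 1, 0, 0]
  have h2 := h ![0, 0, 1, 0]
  have h3 := h ![0, 0, 0, 1]
  simp [q] at h0 h1 h2 h3
  ext i
  fin_cases i
  · simpa using h0
  · simpa using h1
  · simpa using h2
  · simpa using h3

end A_q_nondeg

alias q_nondeg := A_q_nondeg.q_nondeg

namespace A_parseval

/- Proof:
The vectors X x, dX x e1 / a, dX x e2 / a, N x have q-Gram matrix diag(-1,1,1,-1). If M is the 4x4 matrix with these columns and J = diag(-1,1,1,-1) then M^T J M = J, hence (J M^T)(J M)=1... so also M J M^T = J, which is the claim.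
-/
theorem parseval {a : ℝ} {X N : V3 → V4} {dX dN : V3 → V3 → V4} (h : Core a X N dX dN)
    {x e₁ e₂ : V3} (hx : x ∈ H2) (he : ON x e₁ e₂) (Y Z : V4) :
    q Y Z = -(q Y (X x) * q Z (X x))
      + (q Y (dX x e₁) * q Z (dX x e₁) + q Y (dX x e₂) * q Z (dX x e₂)) / a ^ 2
      - q Y (N x) * q Z (N x) := by
  have hA : q (X x) (X x) = -1 := h.XX x hx
  have hD : q (N x) (N x) = -1 := h.NN x hx
  have hDA : q (N x) (X x) = 0 := h.NX x hx
  have hAB : q (X x) (dX x e₁) = 0 := h.XdX x hx e₁ he.1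
  have hAC : q (X x) (dX x e₂) = 0 := h.XdX x hx e₂ he.2.1
  have hDB : q (N x) (dX x e₁) = 0 := h.NdX x hx e₁ he.1
  have hDC : q (N x) (dX x e₂) = 0 := h.NdX x hx e₂ he.2.1
  have hBB : q (dX x e₁) (dX x e₁) = a ^ 2 := by
    rw [h.metric x hx e₁ e₁ he.1 he.1, he.2.2.1]; ring
  have hCC : q (dX x e₂) (dX x e₂) = a ^ 2 := by
    rw [h.metric x hx e₂ e₂ he.2.1 he.2.1, he.2.2.2.1]; ring
  have hBC : q (dX x e₁) (dX x e₂) = 0 := by
    rw [h.metric x hx e₁ e₂ he.1 he.2.1, he.2.2.2.2]; ring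
  have ha : a ≠ 0 := h.a_pos.ne'
  generalize X x = A at *
  generalize N x = D at *
  generalize dX x e₁ = B at *
  generalize dX x e₂ = C at *
  simp only [q] at *
  -- the frame matrix
  let M : Matrix (Fin 4) (Fin 4) ℝ :=
    !![A 0, B 0 / a, C 0 / a, D 0; A 1, B 1 / a, C 1 / a, D 1;
       A 2, B 2 / a, C 2 / a, D 2; A 3, B 3 / a, C 3 / a, D 3]
  let L : Matrix (Fin 4) (Fin 4) ℝ :=
    !![A 0, -A 1, -A 2, A 3; -(B 0 / a), B 1 / a, B 2 / a, -(B 3 / a);
       -(C 0 / a), C 1 / a, C 2 / a, -(C 3 / a); D 0, -D 1, -D 2, D 3]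
  have hLM : L * M = 1 := by
    ext i j
    fin_cases i <;> fin_cases j <;>
      simp [L, M, Matrix.mul_apply, Fin.sum_univ_four] <;> field_simp <;>
      linarith
  have hML : M * L = 1 := mul_eq_one_comm.mp hLM
  have key : ∀ i j, (M * L) i j = (1 : Matrix (Fin 4) (Fin 4) ℝ) i j := fun i j => by rw [hML]
  have k00 := key 0 0
  have k01 := key 0 1
  have k02 := key 0 2
  have k03 := key 0 3
  have k10 := key 1 0
  have k11 := key 1 1
  have k12 := key 1 2
  have k13 := key 1 3
  have k20 := key 2 0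
  have k21 := key 2 1
  have k22 := key 2 2
  have k23 := key 2 3
  have k30 := key 3 0
  have k31 := key 3 1
  have k32 := key 3 2
  have k33 := key 3 3
  simp [L, M, Matrix.mul_apply, Fin.sum_univ_four] at k00 k01 k02 k03 k10 k11 k12 k13 k20 k21 k22 k23 k30 k31 k32 k33
  linear_combination Y 0 * Z 0 * k00 + Y 0 * Z 1 * k01 + Y 0 * Z 2 * k02 + Y 0 * Z 3 * k03 - Y 1 * Z 0 * k10 - Y 1 * Z 1 * k11 - Y 1 * Z 2 * k12 - Y 1 * Z 3 * k13 - Y 2 * Z 0 * k20 - Y 2 * Z 1 * k21 - Y 2 * Z 2 * k22 - Y 2 * Z 3 * k23 + Y 3 * Z 0 * k30 + Y 3 * Z 1 * k31 + Y 3 * Z 2 * k32 + Y 3 * Z 3 * k33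

end A_parseval

alias parseval := A_parseval.parseval

namespace A_decomp

/- Proof:
By parseval both sides have the same q-product with every W; use q_nondeg.
-/
theorem decomp {a : ℝ} {X N : V3 → V4} {dX dN : V3 → V3 → V4} (h : Core a X N dX dN)
    {x : V3} (hx : x ∈ H2) {Z : V4} (hZ : ∀ v, UT x v → q Z (dX x v) = 0) :
    Z = (-(q (X x) Z)) • X x + (-(q (N x) Z)) • N x := by
  obtain ⟨v, hv⟩ := exists_UT hx
  obtain ⟨w, hw⟩ := exists_ON hx hv
  have hw' : UT x w := ⟨hw.2.1, hw.2.2.2.1⟩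
  have h1 := hZ v hv
  have h2 := hZ w hw'
  have key : ∀ Y, q (Z - ((-(q (X x) Z)) • X x + (-(q (N x) Z)) • N x)) Y = 0 := by
    intro Y
    have h3 := parseval h hx hw Z Y
    rw [h1, h2] at h3
    have e1 : q (Z - ((-(q (X x) Z)) • X x + (-(q (N x) Z)) • N x)) Y
        = q Z Y + q (X x) Z * q (X x) Y + q (N x) Z * q (N x) Y := by
      simp only [q, Pi.sub_apply, Pi.add_apply, Pi.smul_apply, smul_eq_mul]
      ring
    have c1 : q Z (X x) = q (X x) Z := by simp only [q]; ring
    have c2 : q Y (X x) = q (X x) Y := by simp only [q]; ring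
    have c3 : q Z (N x) = q (N x) Z := by simp only [q]; ring
    have c4 : q Y (N x) = q (N x) Y := by simp only [q]; ring
    rw [c1, c2, c3, c4] at h3
    rw [e1, h3]
    ring
  have := q_nondeg key
  exact sub_eq_zero.mp this

end A_decomp

alias decomp := A_decomp.decomp

namespace A_grad_bound

/- Proof:
parseval with Y = Z and e1 = v, drop the e2-term.
-/
theorem grad_bound {a : ℝ} {X N : V3 → V4} {dX dN : V3 → V3 → V4} (h : Core a X N dX dN)
    {x v : V3} (hx : x ∈ H2) (hv : UT x v) (Z : V4) :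
    (q Z (dX x v)) ^ 2 ≤ a ^ 2 * (q Z Z + (q (X x) Z) ^ 2 + (q (N x) Z) ^ 2) := by
  obtain ⟨w, hw⟩ := exists_ON hx hv
  have hp := parseval h hx hw Z Z
  have ha := h.a_pos
  have ha2 : (0:ℝ) < a ^ 2 := by positivity
  have s1 : q (X x) Z = q Z (X x) := by unfold q; ring
  have s2 : q (N x) Z = q Z (N x) := by unfold q; ring
  have hp2 : q Z Z + (q (X x) Z) ^ 2 + (q (N x) Z) ^ 2
      = (q Z (dX x v) * q Z (dX x v) + q Z (dX x w) * q Z (dX x w)) / a ^ 2 := by
    rw [s1, s2]; linarith [hp]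
  rw [hp2, mul_div_cancel₀ _ ha2.ne']
  nlinarith [mul_self_nonneg (q Z (dX x w))]

end A_grad_bound

alias grad_bound := A_grad_bound.grad_bound

namespace A_sep

/-- In `V4` the convex hull of a compact set is compact (Caratheodory). -/
theorem isCompact_convexHull_V4 {S : Set V4} (hS : IsCompact S) : IsCompact (convexHull ℝ S) := by
  classical
  rcases S.eq_empty_or_nonempty with h | ⟨s₀, hs₀⟩
  · subst h
    rw [convexHull_empty]
    exact isCompact_empty
  have hP : IsCompact ((stdSimplex ℝ (Fin 5)) ×ˢ (Set.univ.pi fun _ : Fin 5 => S)) :=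
    (isCompact_stdSimplex ℝ (Fin 5)).prod (isCompact_univ_pi fun _ => hS)
  have hcont : Continuous (fun p : (Fin 5 → ℝ) × (Fin 5 → V4) => ∑ i, p.1 i • p.2 i) := by
    fun_prop
  have himg := hP.image hcont
  have heq : convexHull ℝ S = (fun p : (Fin 5 → ℝ) × (Fin 5 → V4) => ∑ i, p.1 i • p.2 i) ''
      ((stdSimplex ℝ (Fin 5)) ×ˢ (Set.univ.pi fun _ : Fin 5 => S)) := by
    apply Set.Subset.antisymm
    · intro x hx
      obtain ⟨ι, hι, z, w, hz, hai, hw, hw1, hx⟩ := eq_pos_convex_span_of_mem_convexHull hx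
      have hcard : Fintype.card ι ≤ 5 := by
        have h3 : Module.finrank ℝ V4 = 4 := by simp
        have h2 := Submodule.finrank_le (vectorSpan ℝ (Set.range z))
        rw [h3] at h2
        exact hai.card_le_finrank_succ.trans (Nat.succ_le_succ h2)
      obtain ⟨e⟩ : Nonempty (ι ↪ Fin 5) := by
        apply Function.Embedding.nonempty_of_card_le
        simpa using hcard
      have key : ∀ (M : Type) [AddCommMonoid M] (h : ι → M),
          ∑ i, Function.extend e h 0 i = ∑ i, h i := by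
        intro M _ h
        have h1 : ∑ i, h i = ∑ i ∈ Finset.univ.map e, Function.extend e h 0 i := by
          rw [Finset.sum_map]
          apply Finset.sum_congr rfl
          intro i _
          rw [e.injective.extend_apply]
        rw [h1]
        symm
        apply Finset.sum_subset (Finset.subset_univ _)
        intro i _ hi
        rw [Function.extend_apply' _ _ _ (by
          rintro ⟨a, ha⟩
          exact hi (by simp only [Finset.mem_map, Finset.mem_univ, true_and]; exact ⟨a, ha⟩))]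
        rfl
      refine ⟨(Function.extend e w 0, Function.extend e z (fun _ => s₀)), ⟨⟨?_, ?_⟩, ?_⟩, ?_⟩
      · intro i
        by_cases hi : ∃ a, e a = i
        · obtain ⟨a, rfl⟩ := hi
          simp only [e.injective.extend_apply]
          exact (hw a).le
        · simp only [Function.extend_apply' _ _ _ hi]
          exact le_rfl
      · show ∑ i, Function.extend e w 0 i = 1
        rw [key ℝ w, hw1]
      · intro i _
        by_cases hi : ∃ a, e a = i
        · obtain ⟨a, rfl⟩ := hi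
          show Function.extend e z (fun _ => s₀) (e a) ∈ S
          rw [e.injective.extend_apply]
          exact hz ⟨a, rfl⟩
        · show Function.extend e z (fun _ => s₀) i ∈ S
          rw [Function.extend_apply' _ _ _ hi]
          exact hs₀
      · show ∑ i, Function.extend e w 0 i • Function.extend e z (fun _ => s₀) i = x
        rw [← hx, ← key V4 (fun i => w i • z i)]
        apply Finset.sum_congr rfl
        intro i _
        by_cases hi : ∃ a, e a = i
        · obtain ⟨a, rfl⟩ := hi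
          simp only [e.injective.extend_apply]
        · simp only [Function.extend_apply' _ _ _ hi]
          simp
    · rintro x ⟨⟨w, z⟩, ⟨⟨hw0, hw1⟩, hz⟩, rfl⟩
      exact (convex_convexHull ℝ S).sum_mem (fun i _ => hw0 i) hw1
        (fun i _ => subset_convexHull ℝ S (hz i (Set.mem_univ i)))
  rw [heq]
  exact himg

/- Proof:
The ray R = {t z : t >= 0} is closed convex and disjoint from the compact convex set convexHull S. geometric_hahn_banach_compact_closed gives a functional f with f < u on the hull and u < v < f on R; so f(0)=0 gives v<0,u<0, and t f(z) > v for all t >= 0 gives f(z) >= 0. Perturb: f + eps * g with g(z) > 0 (g = euclidean inner product with z) to get strictly positive at z and still negative on the compact set S. Every linear functional is of the form q . N.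
-/
theorem sep {S : Set V4} (hS : IsCompact S) (hne : S.Nonempty) (h0 : (0 : V4) ∉ convexHull ℝ S) {z : V4}
    (hz0 : z ≠ 0) (hz : ∀ t : ℝ, 0 ≤ t → ∀ Y ∈ convexHull ℝ S, z ≠ t • Y) :
    ∃ N, (∀ Y ∈ S, q Y N < 0) ∧ 0 < q z N := by
  classical
  -- the closed ray
  have hRc : IsClosed {w : V4 | ∃ t : ℝ, 0 ≤ t ∧ w = t • z} := by
    have hcl : IsClosedMap (fun t : ℝ => t • z) :=
      (isClosedEmbedding_smul_left hz0).isClosedMap
    have h := hcl (Set.Ici (0 : ℝ)) isClosed_Ici
    have heq : {w : V4 | ∃ t : ℝ, 0 ≤ t ∧ w = t • z} = (fun t : ℝ => t • z) '' Set.Ici (0 : ℝ) := by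
      ext w
      constructor
      · rintro ⟨t, ht, rfl⟩
        exact ⟨t, ht, rfl⟩
      · rintro ⟨t, ht, rfl⟩
        exact ⟨t, ht, rfl⟩
    rw [heq]
    exact h
  have hRv : Convex ℝ {w : V4 | ∃ t : ℝ, 0 ≤ t ∧ w = t • z} := by
    rintro x ⟨t, ht, rfl⟩ y ⟨s, hs, rfl⟩ a b ha hb _
    refine ⟨a * t + b * s, by positivity, ?_⟩
    rw [smul_smul, smul_smul, add_smul]
  have hdisj : Disjoint (convexHull ℝ S) {w : V4 | ∃ t : ℝ, 0 ≤ t ∧ w = t • z} := by
    rw [Set.disjoint_left]
    rintro Y hY ⟨t, ht, hYt⟩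
    by_cases h : t = 0
    · subst h
      rw [zero_smul] at hYt
      exact h0 (hYt ▸ hY)
    · have htp : 0 < t := lt_of_le_of_ne ht (Ne.symm h)
      apply hz t⁻¹ (by positivity) Y hY
      rw [hYt, smul_smul, inv_mul_cancel₀ h, one_smul]
  obtain ⟨f, u, v, h1, h2, h3⟩ := geometric_hahn_banach_compact_closed (convex_convexHull ℝ S)
    (isCompact_convexHull_V4 hS) hRv hRc hdisj
  have hv0 : v < 0 := by
    have := h3 0 ⟨0, le_rfl, by simp⟩
    simpa using this
  have hu0 : u < 0 := h2.trans hv0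
  have hfz : 0 ≤ f z := by
    by_contra hneg
    push Not at hneg
    have h4 := h3 ((v / f z) • z) ⟨v / f z, le_of_lt (div_pos_of_neg_of_neg hv0 hneg), rfl⟩
    rw [map_smul, smul_eq_mul, div_mul_cancel₀ _ hneg.ne] at h4
    exact lt_irrefl _ h4
  -- a functional positive at `z`
  obtain ⟨g, hg⟩ : ∃ g : V4 →L[ℝ] ℝ, 0 < g z := by
    obtain ⟨g, hg⟩ := SeparatingDual.exists_ne_zero (R := ℝ) hz0
    rcases lt_or_gt_of_ne hg with h | h
    · exact ⟨-g, by simpa using h⟩
    · exact ⟨g, h⟩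
  obtain ⟨C, hC⟩ := (hS.bddAbove_image g.continuous.continuousOn)
  have hC' : ∀ Y ∈ S, g Y ≤ |C| := fun Y hY => (hC ⟨Y, hY, rfl⟩).trans (le_abs_self C)
  set ε : ℝ := (-u) / (2 * (|C| + 1)) with hε
  have hCp : 0 < |C| + 1 := by positivity
  have hεp : 0 < ε := by
    rw [hε]
    apply div_pos (by linarith) (by linarith)
  have hεC : ε * |C| ≤ -u / 2 := by
    rw [hε, div_mul_eq_mul_div, div_le_div_iff₀ (by linarith) (by norm_num)]
    nlinarith [abs_nonneg C]
  set F : V4 →L[ℝ] ℝ := f + ε • g with hF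
  have hFz : 0 < F z := by
    have : F z = f z + ε * g z := by simp [hF]
    rw [this]
    have := mul_pos hεp hg
    linarith
  have hFS : ∀ Y ∈ S, F Y < 0 := by
    intro Y hY
    have e : F Y = f Y + ε * g Y := by simp [hF]
    rw [e]
    have a1 := h1 Y (subset_convexHull ℝ S hY)
    have a2 := mul_le_mul_of_nonneg_left (hC' Y hY) hεp.le
    linarith
  have hrep : ∀ Y : V4, F Y = Y 0 * F (Pi.single 0 1) + Y 1 * F (Pi.single 1 1)
      + Y 2 * F (Pi.single 2 1) + Y 3 * F (Pi.single 3 1) := by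
    intro Y
    have hY : Y = Y 0 • (Pi.single 0 1 : V4) + Y 1 • (Pi.single 1 1 : V4)
        + Y 2 • (Pi.single 2 1 : V4) + Y 3 • (Pi.single 3 1 : V4) := by
      ext i
      fin_cases i <;> simp
    conv_lhs => rw [hY]
    simp only [map_add, map_smul, smul_eq_mul]
  refine ⟨![-F (Pi.single 0 1), F (Pi.single 1 1), F (Pi.single 2 1), -F (Pi.single 3 1)], ?_, ?_⟩
  · intro Y hY
    have := hFS Y hY
    rw [hrep] at this
    simp only [q, Matrix.cons_val_zero, Matrix.cons_val_one, Matrix.cons_val]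
    linarith
  · have := hFz
    rw [hrep] at this
    simp only [q, Matrix.cons_val_zero, Matrix.cons_val_one, Matrix.cons_val]
    linarith

end A_sep

alias sep := A_sep.sep

namespace A_hull_repr

/- Proof:
convexHull_eq / mem_convexHull_iff..., then drop the indices with zero weight
-/
theorem hull_repr {S : Set V4} {Y : V4} (hY : Y ∈ convexHull ℝ S) :
    ∃ (n : ℕ) (w : Fin n → ℝ) (z : Fin n → V4), 0 < n ∧ (∀ i, 0 < w i) ∧ (∀ i, z i ∈ S) ∧ Y = ∑ i, w i • z i := by
  classical
  rw [convexHull_eq] at hY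
  obtain ⟨ι, t, w, z, hw0, hw1, hz, hY⟩ := hY
  obtain ⟨t', ht'⟩ : ∃ t' : Finset ι, t' = t.filter (fun i => w i ≠ 0) := ⟨_, rfl⟩
  have hsum1 : ∑ i ∈ t', w i = 1 := by
    rw [ht', Finset.sum_filter_ne_zero, hw1]
  have hsumY : ∑ i ∈ t', w i • z i = Y := by
    rw [← hY, Finset.centerMass_eq_of_sum_1 _ _ hw1, ht']
    apply Finset.sum_filter_of_ne
    intro i _ hi h0
    exact hi (by rw [h0, zero_smul])
  have hpos : ∀ i ∈ t', 0 < w i := by
    intro i hi
    rw [ht', Finset.mem_filter] at hi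
    exact lt_of_le_of_ne (hw0 i hi.1) (Ne.symm hi.2)
  have hmem : ∀ i ∈ t', z i ∈ S := by
    intro i hi
    rw [ht', Finset.mem_filter] at hi
    exact hz i hi.1
  let e := t'.equivFin
  refine ⟨t'.card, fun k => w (e.symm k), fun k => z (e.symm k), ?_, ?_, ?_, ?_⟩
  · rw [Finset.card_pos]
    by_contra h
    rw [Finset.not_nonempty_iff_eq_empty] at h
    rw [h] at hsum1
    simp at hsum1
  · intro k
    exact hpos _ (e.symm k).2
  · intro k
    exact hmem _ (e.symm k).2
  · rw [← hsumY, ← Finset.sum_coe_sort]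
    exact (Equiv.sum_comp e.symm (fun i : t' => w i • z i)).symm

end A_hull_repr

alias hull_repr := A_hull_repr.hull_repr

end Helper935.AdS
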