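import Pool.Agent.Helper935_AdS.Surf

namespace Helper935.AdS

namespace A_strong_max

theorem strong_max_hq {f : ℝ → V4} {f' : V4} {s : ℝ} (h : HasDerivAt f f' s) (Z : V4) :
    HasDerivAt (fun t => q (f t) Z) (q f' Z) s := by
  have h0 := hasDerivAt_pi.mp h
  exact (((((h0 0).mul_const (Z 0)).neg.add ((h0 1).mul_const (Z 1))).add
    ((h0 2).mul_const (Z 2))).sub ((h0 3).mul_const (Z 3)))

open Filter Topology in
theorem strong_max_test {f g : ℝ → ℝ} {c : ℝ} (hf : ∀ s, HasDerivAt f (g s) s)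
    (hg : HasDerivAt g c 0) (hmax : IsLocalMax f 0) : g 0 = 0 ∧ c ≤ 0 := by
  have h0 : g 0 = 0 := hmax.hasDerivAt_eq_zero (hf 0)
  refine ⟨h0, ?_⟩
  by_contra hc
  push Not at hc
  have hd : deriv f = g := funext fun s => (hf s).deriv
  have hmin : IsLocalMin f 0 := isLocalMin_of_deriv_deriv_pos (by rw [hd, hg.deriv]; exact hc)
    (by rw [hd]; exact h0) (hf 0).continuousAt
  have hconst : ∀ᶠ s in 𝓝 (0 : ℝ), f s = f 0 := by
    filter_upwards [hmax, hmin] with s h1 h2 using le_antisymm h1 h2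
  have hg0 : ∀ᶠ s in 𝓝 (0 : ℝ), g s = 0 := by
    filter_upwards [hconst.eventually_nhds] with s hs
    have h1 : deriv f s = 0 := by
      rw [Filter.EventuallyEq.deriv_eq (f := fun _ => f 0) hs]; simp
    rw [← hd]; exact h1
  have h2 : deriv g 0 = 0 := by
    rw [Filter.EventuallyEq.deriv_eq (f := fun _ => (0 : ℝ)) hg0]; simp
  rw [hg.deriv] at h2
  linarith

theorem strong_max_B (e k A P c0 s : ℝ) :
    HasDerivAt (fun s => e * (Real.exp (-k * (A * Real.cosh s + P * Real.sinh s)) - c0))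
      (e * (Real.exp (-k * (A * Real.cosh s + P * Real.sinh s)) *
        (-k * (A * Real.sinh s + P * Real.cosh s)))) s := by
  have h1 := ((Real.hasDerivAt_cosh s).const_mul A).add ((Real.hasDerivAt_sinh s).const_mul P)
  exact (((h1.const_mul (-k)).exp).sub_const c0).const_mul e

theorem strong_max_B2 (e k A P : ℝ) :
    HasDerivAt (fun s => e * (Real.exp (-k * (A * Real.cosh s + P * Real.sinh s)) *
        (-k * (A * Real.sinh s + P * Real.cosh s))))
      (e * Real.exp (-k * A) * (k ^ 2 * P ^ 2 - k * A)) 0 := by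
  have h1 := ((Real.hasDerivAt_cosh 0).const_mul A).add ((Real.hasDerivAt_sinh 0).const_mul P)
  have h2 := ((Real.hasDerivAt_sinh 0).const_mul A).add ((Real.hasDerivAt_cosh 0).const_mul P)
  have h3 := (((h1.const_mul (-k)).exp).mul (h2.const_mul (-k))).const_mul e
  refine HasDerivAt.congr_deriv h3 ?_
  simp only [Pi.add_apply, Real.cosh_zero, Real.sinh_zero, mul_one, mul_zero, add_zero, zero_add]
  ring

theorem strong_max_eta_geo (y z u : V3) (s : ℝ) :
    -eta y (geo z u s) = (-eta y z) * Real.cosh s + (-eta y u) * Real.sinh s := by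
  simp only [eta, geo, Pi.add_apply, Pi.smul_apply, smul_eq_mul]
  ring

open Filter Topology in
theorem strong_max_point {a : ℝ} {X Nn : V3 → V4} {dX dN : V3 → V3 → V4} (h : Core a X Nn dX dN)
    {z u : V3} (hz : z ∈ H2) (hu : UT z u) (N : V4) (y0 : V3) (e k c0 : ℝ)
    (hmax : ∀ᶠ s in 𝓝 (0 : ℝ), q (X (geo z u s)) N +
      e * (Real.exp (-k * (-eta y0 (geo z u s))) - c0) ≤
      q (X z) N + e * (Real.exp (-k * (-eta y0 z)) - c0)) :
    q (dX z u) N + e * (Real.exp (-k * (-eta y0 z)) * (-k * (-eta y0 u))) = 0 ∧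
    a ^ 2 * q (X z) N + q (dN z u) (dX z u) * q (Nn z) N +
      e * Real.exp (-k * (-eta y0 z)) * (k ^ 2 * (-eta y0 u) ^ 2 - k * (-eta y0 z)) ≤ 0 := by
  obtain ⟨hg0, hg0'⟩ := geo_zero z u
  have hf : ∀ s, HasDerivAt (fun s => q (X (geo z u s)) N +
      e * (Real.exp (-k * ((-eta y0 z) * Real.cosh s + (-eta y0 u) * Real.sinh s)) - c0))
      (q (dX (geo z u s) (geo' z u s)) N +
        e * (Real.exp (-k * ((-eta y0 z) * Real.cosh s + (-eta y0 u) * Real.sinh s)) *
        (-k * ((-eta y0 z) * Real.sinh s + (-eta y0 u) * Real.cosh s)))) s := fun s =>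
    (strong_max_hq (h.geoX z hz u hu s) N).add (strong_max_B e k _ _ c0 s)
  have hg := (strong_max_hq (h.geodX z hz u hu 0) N).add
    (strong_max_B2 e k (-eta y0 z) (-eta y0 u))
  have hm : IsLocalMax (fun s => q (X (geo z u s)) N +
      e * (Real.exp (-k * ((-eta y0 z) * Real.cosh s + (-eta y0 u) * Real.sinh s)) - c0)) 0 := by
    filter_upwards [hmax] with s hs
    rw [strong_max_eta_geo] at hs
    simp only [hg0, Real.cosh_zero, Real.sinh_zero, mul_one, mul_zero, add_zero]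
    exact hs
  obtain ⟨r1, r2⟩ := strong_max_test hf hg hm
  constructor
  · simp only [hg0, hg0', Real.cosh_zero, Real.sinh_zero, mul_one, mul_zero, add_zero,
      zero_add] at r1
    exact r1
  · simp only [hg0, hg0'] at r2
    have e1 : q (a ^ 2 • X z + q (dN z u) (dX z u) • Nn z) N =
        a ^ 2 * q (X z) N + q (dN z u) (dX z u) * q (Nn z) N := by
      simp only [q, Pi.add_apply, Pi.smul_apply, smul_eq_mul]
      ring
    rw [e1] at r2
    exact r2

theorem strong_max_psd {a1 b1 d1 : ℝ}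
    (h : ∀ c s : ℝ, c ^ 2 + s ^ 2 = 1 → 0 ≤ c ^ 2 * a1 + 2 * (c * s) * b1 + s ^ 2 * d1) :
    0 ≤ a1 ∧ 0 ≤ d1 ∧ b1 ^ 2 ≤ a1 * d1 := by
  refine ⟨?_, ?_, ?_⟩
  · have := h 1 0 (by norm_num); simpa using this
  · have := h 0 1 (by norm_num); simpa using this
  · have h1 : ∀ x : ℝ, 0 ≤ a1 * (x * x) + (2 * b1) * x + d1 := by
      intro x
      have h2 : 0 < 1 + x ^ 2 := by positivity
      have h3 : 0 < Real.sqrt (1 + x ^ 2) := Real.sqrt_pos.mpr h2
      have h4 := h (x / Real.sqrt (1 + x ^ 2)) (1 / Real.sqrt (1 + x ^ 2)) (by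
        rw [div_pow, div_pow, Real.sq_sqrt h2.le]
        field_simp
        ring)
      have h5 : (x / Real.sqrt (1 + x ^ 2)) ^ 2 * a1 + 2 * (x / Real.sqrt (1 + x ^ 2) *
          (1 / Real.sqrt (1 + x ^ 2))) * b1 + (1 / Real.sqrt (1 + x ^ 2)) ^ 2 * d1 =
          (a1 * (x * x) + (2 * b1) * x + d1) / (1 + x ^ 2) := by
        have h6 : x / Real.sqrt (1 + x ^ 2) * (1 / Real.sqrt (1 + x ^ 2)) = x / (1 + x ^ 2) := by
          rw [div_mul_div_comm, mul_one, ← sq, Real.sq_sqrt h2.le]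
        rw [h6, div_pow, div_pow, Real.sq_sqrt h2.le]
        field_simp
      rw [h5] at h4
      by_contra hc
      push Not at hc
      have := div_neg_of_neg_of_pos hc h2
      linarith
    have h2 := discrim_le_zero h1
    rw [discrim] at h2
    nlinarith

/-- the final algebraic contradiction -/
theorem strong_max_alg {a m v w e k Q S QR Sr T α1 α2 : ℝ} (ha : 0 < a)
    (hm : 0 < m) (hm2 : m ^ 2 = 1 - a ^ 2) (hvm : v ≤ m) (hvw : m - v < w)
    (hv2 : m / 2 ≤ v) (hw0 : 0 < w) (hwe : w ≤ e) (hk : 1 ≤ k) (hQ : 1 ≤ Q) (hQR : Q ≤ QR)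
    (hS : S ^ 2 = Q ^ 2 - 1) (hSr : Sr ≤ S ^ 2) (hkk : 8 ≤ k ^ 2 * Sr - 2 * k * QR)
    (hT : T = k ^ 3 * QR ^ 3 + k ^ 2 * QR ^ 2) (he : e * T ≤ a ^ 2 * m / 4)
    (h1 : α1 = a ^ 2 * v + w * (k ^ 2 * S ^ 2 - k * Q)) (h2 : α2 = a ^ 2 * v - w * k * Q)
    (hineq : α1 * α2 ≤ a ^ 2 * (1 - a ^ 2) * (1 - v ^ 2 + (k * w * S) ^ 2 / a ^ 2)) : False := by
  have ha2 : 0 < a ^ 2 := by positivity
  have e1 : a ^ 2 * (1 - a ^ 2) * (1 - v ^ 2 + (k * w * S) ^ 2 / a ^ 2) =
      a ^ 2 * m ^ 2 * (1 - v ^ 2) + m ^ 2 * (k * w * S) ^ 2 := by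
    rw [hm2]; field_simp
  rw [e1, h1, h2] at hineq
  have e2 : (a ^ 2 * v + w * (k ^ 2 * S ^ 2 - k * Q)) * (a ^ 2 * v - w * k * Q) -
      (a ^ 2 * m ^ 2 * (1 - v ^ 2) + m ^ 2 * (k * w * S) ^ 2) =
      a ^ 2 * (v ^ 2 - m ^ 2) + a ^ 2 * v * w * (k ^ 2 * S ^ 2 - 2 * k * Q) -
      w ^ 2 * (k * Q * (k ^ 2 * S ^ 2 - k * Q) + m ^ 2 * k ^ 2 * S ^ 2) := by
    have : a ^ 2 = 1 - m ^ 2 := by linarith
    have h3 : a ^ 2 * v * (a ^ 2 * v) = a ^ 2 * (1 - m ^ 2) * v ^ 2 := by rw [← this]; ring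
    linear_combination h3
  have h3 : -(2 * m * w) ≤ v ^ 2 - m ^ 2 := by
    have h4 : (m - v) * (m + v) ≤ w * (2 * m) :=
      mul_le_mul hvw.le (by linarith) (by linarith) hw0.le
    nlinarith
  have h4 : 8 ≤ k ^ 2 * S ^ 2 - 2 * k * Q := by
    have h5 : k ^ 2 * Sr ≤ k ^ 2 * S ^ 2 := mul_le_mul_of_nonneg_left hSr (by positivity)
    have h6 : 2 * k * Q ≤ 2 * k * QR := mul_le_mul_of_nonneg_left hQR (by positivity)
    linarith
  have h5 : 4 * a ^ 2 * m * w ≤ a ^ 2 * v * w * (k ^ 2 * S ^ 2 - 2 * k * Q) := by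
    have h6 : a ^ 2 * (m / 2) * w ≤ a ^ 2 * v * w := by gcongr
    have h7 : 0 ≤ a ^ 2 * v * w := by
      have : 0 ≤ v := by linarith
      positivity
    calc 4 * a ^ 2 * m * w = a ^ 2 * (m / 2) * w * 8 := by ring
      _ ≤ a ^ 2 * v * w * (k ^ 2 * S ^ 2 - 2 * k * Q) :=
        mul_le_mul h6 h4 (by norm_num) h7
  have h6 : k * Q * (k ^ 2 * S ^ 2 - k * Q) + m ^ 2 * k ^ 2 * S ^ 2 ≤ T := by
    have h7 : S ^ 2 ≤ QR ^ 2 := by nlinarith
    have hQ0 : 0 ≤ Q := by linarith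
    have hQR0 : 0 ≤ QR := by linarith
    have hk0 : 0 ≤ k := by linarith
    have h8 : k * Q * (k ^ 2 * S ^ 2) ≤ k * QR * (k ^ 2 * QR ^ 2) := by gcongr
    have h9 : m ^ 2 * k ^ 2 * S ^ 2 ≤ 1 * k ^ 2 * QR ^ 2 := by
      have : m ^ 2 ≤ 1 := by nlinarith
      gcongr
    have h10 : 0 ≤ k * Q * (k * Q) := by positivity
    rw [hT]
    nlinarith
  have h7 : w ^ 2 * (k * Q * (k ^ 2 * S ^ 2 - k * Q) + m ^ 2 * k ^ 2 * S ^ 2) ≤
      w * (a ^ 2 * m / 4) := by
    have hT0 : 0 ≤ T := by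
      rw [hT]
      have : 0 ≤ QR := by linarith
      positivity
    calc w ^ 2 * (k * Q * (k ^ 2 * S ^ 2 - k * Q) + m ^ 2 * k ^ 2 * S ^ 2) ≤ w ^ 2 * T :=
          mul_le_mul_of_nonneg_left h6 (by positivity)
      _ = w * (w * T) := by ring
      _ ≤ w * (e * T) := by gcongr
      _ ≤ w * (a ^ 2 * m / 4) := mul_le_mul_of_nonneg_left he hw0.le
  have h8 : a ^ 2 * (-(2 * m * w)) ≤ a ^ 2 * (v ^ 2 - m ^ 2) := mul_le_mul_of_nonneg_left h3 ha2.le
  have h9 : 0 < a ^ 2 * m * w := by positivity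
  nlinarith

theorem strong_max_qcomm (X Y : V4) : q X Y = q Y X := by
  simp only [q]; ring

open Filter Topology in
theorem strong_max_interior {a : ℝ} {X Nn : V3 → V4} {dX dN : V3 → V3 → V4} (h : Core a X Nn dX dN)
    {N : V4} (hNN : q N N = -1) {m : ℝ} (hm : 0 < m) (hm2 : m ^ 2 = 1 - a ^ 2)
    (hvm : ∀ x ∈ H2, q (X x) N ≤ m) {y0 : V3} (hy0 : y0 ∈ H2) {e k Qr QR T : ℝ} (he0 : 0 < e)
    (hem : e ≤ m / 2) (hk : 1 ≤ k) (hQr : 1 < Qr)
    (hkk : 8 ≤ k ^ 2 * (Qr ^ 2 - 1) - 2 * k * QR)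
    (hT : T = k ^ 3 * QR ^ 3 + k ^ 2 * QR ^ 2) (he : e * T ≤ a ^ 2 * m / 4)
    {z : V3} (hz : z ∈ H2) (hn : q (Nn z) N < 0) (hz1 : Qr < -eta y0 z) (hz2 : -eta y0 z < QR)
    (hpos : 0 < q (X z) N + e * (Real.exp (-k * (-eta y0 z)) - Real.exp (-k * QR)) - m)
    (hmax : ∀ x ∈ H2, Qr ≤ -eta y0 x → -eta y0 x ≤ QR →
      q (X x) N + e * (Real.exp (-k * (-eta y0 x)) - Real.exp (-k * QR)) ≤
      q (X z) N + e * (Real.exp (-k * (-eta y0 z)) - Real.exp (-k * QR))) : False := by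
  have ha := h.a_pos
  obtain ⟨d, w0, hd, hw0, hgeo⟩ := exists_geo hy0 hz
  have hQ : -eta y0 z = Real.cosh d := by rw [← hgeo, eta_geo hy0 hw0, neg_neg]
  have hUT1 : UT z (geo' y0 w0 d) := by rw [← hgeo]; exact geo_UT hy0 hw0 d
  obtain ⟨e2, hON⟩ := exists_ON hz hUT1
  set e1 := geo' y0 w0 d with he1
  obtain ⟨o1, o2, o3, o4, o5⟩ := hON
  set S := Real.sinh d with hS
  set v := q (X z) N with hv
  set n := q (Nn z) N with hnn
  set w := e * Real.exp (-k * (-eta y0 z)) with hw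
  have hp1 : -eta y0 e1 = S := by
    have h1 : eta y0 y0 = -1 := hy0.1
    have h2 : eta y0 w0 = 0 := hw0.1
    have h3 : eta y0 e1 = Real.sinh d * eta y0 y0 + Real.cosh d * eta y0 w0 := by
      rw [he1]
      simp only [eta, geo', Pi.add_apply, Pi.smul_apply, smul_eq_mul]
      ring
    rw [h3, h1, h2]; ring
  have hp2 : -eta y0 e2 = 0 := by
    have h1 : y0 = Real.cosh d • z - Real.sinh d • e1 := by
      rw [he1, ← hgeo]
      funext i
      simp only [geo, geo', Pi.add_apply, Pi.sub_apply, Pi.smul_apply, smul_eq_mul]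
      have := Real.cosh_sq d
      linear_combination (y0 i) * this.symm
    have h2 : eta y0 e2 = Real.cosh d * eta z e2 - Real.sinh d * eta e1 e2 := by
      conv_lhs => rw [h1]
      simp only [eta, Pi.sub_apply, Pi.smul_apply, smul_eq_mul]
      ring
    rw [h2, o2, o5]; ring
  have hS2 : S ^ 2 = (-eta y0 z) ^ 2 - 1 := by
    rw [hQ]
    have := Real.cosh_sq d
    linarith
  -- the second order condition
  have hpt : ∀ u, UT z u →
      q (dX z u) N + e * (Real.exp (-k * (-eta y0 z)) * (-k * (-eta y0 u))) = 0 ∧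
      a ^ 2 * q (X z) N + q (dN z u) (dX z u) * q (Nn z) N +
      e * Real.exp (-k * (-eta y0 z)) * (k ^ 2 * (-eta y0 u) ^ 2 - k * (-eta y0 z)) ≤ 0 := by
    intro u hu
    apply strong_max_point h hz hu N y0 e k (Real.exp (-k * QR))
    have hcont : Continuous (fun s : ℝ => (-eta y0 z) * Real.cosh s + (-eta y0 u) * Real.sinh s) := by
      fun_prop
    have h0 : (-eta y0 z) * Real.cosh 0 + (-eta y0 u) * Real.sinh 0 = -eta y0 z := by simp
    have hopen : ∀ᶠ s in 𝓝 (0 : ℝ), (-eta y0 z) * Real.cosh s + (-eta y0 u) * Real.sinh s ∈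
        Set.Ioo Qr QR := by
      apply hcont.continuousAt.eventually_mem
      rw [h0]
      exact Ioo_mem_nhds hz1 hz2
    filter_upwards [hopen] with s hs
    have hg := geo_mem hz hu s
    have e3 := strong_max_eta_geo y0 z u s
    exact hmax _ hg (by rw [e3]; exact hs.1.le) (by rw [e3]; exact hs.2.le)
  have hpsd := strong_max_psd (a1 := -n * q (dN z e1) (dX z e1) -
      (a ^ 2 * v + w * (k ^ 2 * S ^ 2 - k * (-eta y0 z))))
    (b1 := -n * q (dN z e1) (dX z e2))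
    (d1 := -n * q (dN z e2) (dX z e2) - (a ^ 2 * v - w * k * (-eta y0 z))) (by
      intro c s hcs
      have hu : UT z (c • e1 + s • e2) := by
        constructor
        · have : eta z (c • e1 + s • e2) = c * eta z e1 + s * eta z e2 := by
            simp only [eta, Pi.add_apply, Pi.smul_apply, smul_eq_mul]; ring
          rw [this, o1, o2]; ring
        · have : eta (c • e1 + s • e2) (c • e1 + s • e2) = c ^ 2 * eta e1 e1 +
              2 * (c * s) * eta e1 e2 + s ^ 2 * eta e2 e2 := by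
            simp only [eta, Pi.add_apply, Pi.smul_apply, smul_eq_mul]; ring
          rw [this, o3, o4, o5]; linarith
      have h1 := (hpt _ hu).2
      have h2 : -eta y0 (c • e1 + s • e2) = c * S := by
        have : -eta y0 (c • e1 + s • e2) = c * (-eta y0 e1) + s * (-eta y0 e2) := by
          simp only [eta, Pi.add_apply, Pi.smul_apply, smul_eq_mul]; ring
        rw [this, hp1, hp2]; ring
      have h3 : q (dN z (c • e1 + s • e2)) (dX z (c • e1 + s • e2)) =
          c ^ 2 * q (dN z e1) (dX z e1) + 2 * (c * s) * q (dN z e1) (dX z e2) +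
          s ^ 2 * q (dN z e2) (dX z e2) := by
        rw [h.dN_add z hz, h.dX_add z hz, h.dN_smul z hz, h.dN_smul z hz, h.dX_smul z hz,
          h.dX_smul z hz]
        have h4 := h.II_symm z hz e1 e2 o1 o2
        have h5 : q (c • dN z e1 + s • dN z e2) (c • dX z e1 + s • dX z e2) =
          c ^ 2 * q (dN z e1) (dX z e1) + c * s * q (dN z e1) (dX z e2) +
          c * s * q (dN z e2) (dX z e1) + s ^ 2 * q (dN z e2) (dX z e2) := by
          simp only [q, Pi.add_apply, Pi.smul_apply, smul_eq_mul]; ring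
        rw [h5, ← h4]; ring
      rw [h2, h3] at h1
      have h6 : s ^ 2 = 1 - c ^ 2 := by linarith
      have h7 : c ^ 2 * (-n * q (dN z e1) (dX z e1) -
          (a ^ 2 * v + w * (k ^ 2 * S ^ 2 - k * (-eta y0 z)))) +
          2 * (c * s) * (-n * q (dN z e1) (dX z e2)) +
          s ^ 2 * (-n * q (dN z e2) (dX z e2) - (a ^ 2 * v - w * k * (-eta y0 z))) =
          -(a ^ 2 * v + (c ^ 2 * q (dN z e1) (dX z e1) + 2 * (c * s) * q (dN z e1) (dX z e2) +
          s ^ 2 * q (dN z e2) (dX z e2)) * n + w * (k ^ 2 * (c * S) ^ 2 - k * (-eta y0 z))) := by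
        linear_combination (-(a ^ 2 * v) + w * k * (-eta y0 z)) * hcs
      rw [h7]
      linarith)
  obtain ⟨p1, p2, p3⟩ := hpsd
  have hgauss := h.gauss z hz e1 e2 ⟨o1, o2, o3, o4, o5⟩
  have hpar := parseval h hz ⟨o1, o2, o3, o4, o5⟩ N N
  have hd1 := (hpt e1 ⟨o1, o3⟩).1
  have hd2 := (hpt e2 ⟨o2, o4⟩).1
  rw [hp1] at hd1
  rw [hp2] at hd2
  have hd1' : q N (dX z e1) = k * w * S := by
    rw [strong_max_qcomm]; rw [hw]; linear_combination hd1
  have hd2' : q N (dX z e2) = 0 := by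
    rw [strong_max_qcomm]; linear_combination hd2
  rw [hNN, hd1', hd2', strong_max_qcomm N (X z), strong_max_qcomm N (Nn z)] at hpar
  have hn2 : n ^ 2 = 1 - v ^ 2 + (k * w * S) ^ 2 / a ^ 2 := by
    have : -1 = -(v * v) + (k * w * S * (k * w * S) + 0 * 0) / a ^ 2 - n * n := hpar
    have e4 : (k * w * S * (k * w * S) + 0 * 0) / a ^ 2 = (k * w * S) ^ 2 / a ^ 2 := by ring
    rw [e4] at this
    linarith
  -- numerical facts
  have hexp : 0 < Real.exp (-k * (-eta y0 z)) := Real.exp_pos _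
  have hQ1 : 1 ≤ -eta y0 z := by linarith
  have hexp1 : Real.exp (-k * (-eta y0 z)) ≤ 1 := by
    rw [Real.exp_le_one_iff]
    nlinarith
  have hw0' : 0 < w := by positivity
  have hwe : w ≤ e := by
    rw [hw]
    calc e * Real.exp (-k * (-eta y0 z)) ≤ e * 1 := mul_le_mul_of_nonneg_left hexp1 he0.le
      _ = e := mul_one e
  have hvw : m - v < w := by
    have h1 : 0 < e * Real.exp (-k * QR) := by positivity
    have h2 : e * (Real.exp (-k * (-eta y0 z)) - Real.exp (-k * QR)) =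
      w - e * Real.exp (-k * QR) := by rw [hw]; ring
    rw [h2] at hpos
    linarith
  have hv2 : m / 2 ≤ v := by linarith
  have hSr : Qr ^ 2 - 1 ≤ S ^ 2 := by
    rw [hS2]
    nlinarith
  have hQR1 : 1 ≤ QR := by linarith
  have hα2 : 0 < a ^ 2 * v - w * k * (-eta y0 z) := by
    have h1 : w * k * (-eta y0 z) ≤ e * k * QR := by gcongr
    have h2 : e * k * QR ≤ e * T := by
      have h3 : k * QR ≤ T := by
        have h4 : 1 ≤ k * QR := by nlinarith
        have h5 : 0 ≤ k ^ 3 * QR ^ 3 := by positivity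
        rw [hT]
        nlinarith
      calc e * k * QR = e * (k * QR) := by ring
        _ ≤ e * T := mul_le_mul_of_nonneg_left h3 he0.le
    have h3 : a ^ 2 * (m / 2) ≤ a ^ 2 * v := mul_le_mul_of_nonneg_left hv2 (by positivity)
    have h4 : 0 < a ^ 2 * m := by positivity
    linarith
  have hα1 : 0 < a ^ 2 * v + w * (k ^ 2 * S ^ 2 - k * (-eta y0 z)) := by
    have h1 : 0 ≤ w * (k ^ 2 * S ^ 2) := by positivity
    nlinarith
  refine strong_max_alg (Sr := Qr ^ 2 - 1) ha hm hm2 (hvm z hz) hvw hv2 hw0' hwe hk hQ1 hz2.le hS2 hSr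
    hkk hT he rfl rfl ?_
  rw [← hn2]
  have h8 : a ^ 2 * (1 - a ^ 2) * n ^ 2 = (-n * q (dN z e1) (dX z e1)) *
      (-n * q (dN z e2) (dX z e2)) - (-n * q (dN z e1) (dX z e2)) ^ 2 := by
    rw [← hgauss]; ring
  rw [h8]
  linarith [mul_nonneg p1 hα2.le, mul_nonneg hα1.le p2]

theorem strong_max_qcont {X : V3 → V4} (hX : ContinuousOn X H2) (N : V4) :
    ContinuousOn (fun z => q (X z) N) H2 := by
  have h0 := continuousOn_pi.mp hX
  have := (((((h0 0).mul continuousOn_const (g := fun _ => N 0)).neg.add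
    ((h0 1).mul continuousOn_const (g := fun _ => N 1))).add
    ((h0 2).mul continuousOn_const (g := fun _ => N 2))).sub
    ((h0 3).mul continuousOn_const (g := fun _ => N 3)))
  exact this

theorem strong_max_etacont (y : V3) : Continuous (fun z : V3 => -eta y z) := by
  unfold eta
  fun_prop

open Filter Topology in
theorem strong_max_main {a : ℝ} {X Nn : V3 → V4} {dX dN : V3 → V3 → V4} (h : Core a X Nn dX dN)
    {N : V4} (hNN : q N N = -1) {y : V3} (hy : y ∈ H2) (hpos : 0 < q (X y) N)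
    (hm : (q (X y) N) ^ 2 = 1 - a ^ 2) (hmax : ∀ y' ∈ H2, q (X y') N ≤ q (X y) N)
    (hneg : ∀ y' ∈ H2, q (Nn y') N < 0) {y0 : V3} (hy0 : y0 ∈ H2)
    (hlt : q (X y0) N < q (X y) N) : False := by
  have ha := h.a_pos
  set m := q (X y) N with hmdef
  have hXc := strong_max_qcont h.contX N
  have hQc := strong_max_etacont y0
  -- a closest point
  set K0 : Set V3 := {x | x ∈ H2 ∧ -eta y0 x ≤ -eta y0 y} with hK0
  have hK0c : IsCompact K0 := H2_ball hy0 _
  have hK0s : K0 ⊆ H2 := fun x hx => hx.1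
  have hZc : IsCompact (K0 ∩ {x | q (X x) N = m}) := by
    have h1 : IsClosed (K0 ∩ {x | q (X x) N = m}) :=
      (hXc.mono hK0s).preimage_isClosed_of_isClosed hK0c.isClosed isClosed_singleton
    exact hK0c.of_isClosed_subset h1 Set.inter_subset_left
  obtain ⟨y1, ⟨hy1K, hy1m⟩, hy1min⟩ := hZc.exists_isMinOn ⟨y, ⟨hy, le_rfl⟩, rfl⟩
    hQc.continuousOn
  have hy1 : y1 ∈ H2 := hy1K.1
  simp only [Set.mem_ofPred_eq] at hy1m
  have hclose : ∀ x ∈ H2, -eta y0 x < -eta y0 y1 → q (X x) N < m := by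
    intro x hx hxl
    refine lt_of_le_of_ne (hmax x hx) (fun he => ?_)
    have hxK : x ∈ K0 ∩ {x | q (X x) N = m} := ⟨⟨hx, hxl.le.trans hy1K.2⟩, he⟩
    have : -eta y0 y1 ≤ -eta y0 x := hy1min hxK
    linarith
  set QR := -eta y0 y1 with hQR
  obtain ⟨d, w, hd, hw, hgeo⟩ := exists_geo hy0 hy1
  have hQRc : QR = Real.cosh d := by rw [hQR, ← hgeo, eta_geo hy0 hw, neg_neg]
  have hd0 : d ≠ 0 := by
    intro h0
    rw [h0, (geo_zero y0 w).1] at hgeo
    rw [← hgeo] at hy1m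
    linarith
  have hQR1 : 1 < QR := by rw [hQRc]; exact Real.one_lt_cosh.mpr hd0
  set Qr := (1 + QR) / 2 with hQrdef
  have hQr1 : 1 < Qr := by rw [hQrdef]; linarith
  have hQrQR : Qr < QR := by rw [hQrdef]; linarith
  -- gap on the inner sphere
  obtain ⟨δ, hδ, hgap⟩ : ∃ δ : ℝ, 0 < δ ∧ ∀ x ∈ H2, -eta y0 x = Qr → q (X x) N ≤ m - δ := by
    have hSc : IsCompact {x | x ∈ H2 ∧ -eta y0 x = Qr} := by
      have h1 : {x | x ∈ H2 ∧ -eta y0 x = Qr} =
          {x | x ∈ H2 ∧ -eta y0 x ≤ Qr} ∩ {x | -eta y0 x = Qr} := by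
        ext x
        simp only [Set.mem_ofPred_eq, Set.mem_inter_iff]
        constructor
        · rintro ⟨h1, h2⟩; exact ⟨⟨h1, h2.le⟩, h2⟩
        · rintro ⟨⟨h1, _⟩, h2⟩; exact ⟨h1, h2⟩
      rw [h1]
      exact (H2_ball hy0 Qr).inter_right (isClosed_eq hQc continuous_const)
    rcases Set.eq_empty_or_nonempty {x | x ∈ H2 ∧ -eta y0 x = Qr} with hE | hE
    · refine ⟨1, one_pos, fun x hx hxQ => ?_⟩
      exfalso
      have : x ∈ {x | x ∈ H2 ∧ -eta y0 x = Qr} := ⟨hx, hxQ⟩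
      rw [hE] at this
      exact this
    · obtain ⟨xs, hxs, hxsmax⟩ := hSc.exists_isMaxOn hE (hXc.mono (fun x hx => hx.1))
      refine ⟨m - q (X xs) N, ?_, fun x hx hxQ => ?_⟩
      · have := hclose xs hxs.1 (by rw [hxs.2]; exact hQrQR)
        linarith
      · have : q (X x) N ≤ q (X xs) N := hxsmax (⟨hx, hxQ⟩ : x ∈ {x | x ∈ H2 ∧ -eta y0 x = Qr})
        linarith
  -- the parameters
  set Sr := Qr ^ 2 - 1 with hSr
  have hSr0 : 0 < Sr := by rw [hSr]; nlinarith
  set k := (2 * QR + 8) / Sr + 1 with hkdef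
  have hk1 : 1 ≤ k := by
    have : 0 ≤ (2 * QR + 8) / Sr := by positivity
    linarith
  have hkk : 8 ≤ k ^ 2 * Sr - 2 * k * QR := by
    have h1 : 2 * QR + 8 ≤ k * Sr := by
      rw [hkdef, add_mul, div_mul_cancel₀ _ hSr0.ne']
      linarith
    nlinarith
  set T := k ^ 3 * QR ^ 3 + k ^ 2 * QR ^ 2 with hT
  have hT0 : 0 < T := by positivity
  obtain ⟨e, he0, hem, heδ, heT⟩ : ∃ e : ℝ, 0 < e ∧ e ≤ m / 2 ∧ e < δ ∧ e * T ≤ a ^ 2 * m / 4 := by
    refine ⟨min (m / 2) (min (δ / 2) (a ^ 2 * m / (4 * T))), ?_, min_le_left _ _, ?_, ?_⟩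
    · apply lt_min (by linarith) (lt_min (by linarith) (by positivity))
    · have := (min_le_right (m / 2) (min (δ / 2) (a ^ 2 * m / (4 * T)))).trans (min_le_left _ _)
      linarith
    · have h1 := (min_le_right (m / 2) (min (δ / 2) (a ^ 2 * m / (4 * T)))).trans (min_le_right _ _)
      calc _ ≤ a ^ 2 * m / (4 * T) * T := mul_le_mul_of_nonneg_right h1 hT0.le
        _ = a ^ 2 * m / 4 := by field_simp
  -- the barrier inequality
  have hbar : ∀ x ∈ H2, Qr ≤ -eta y0 x → -eta y0 x ≤ QR →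
      q (X x) N + e * (Real.exp (-k * (-eta y0 x)) - Real.exp (-k * QR)) ≤ m := by
    have hAc : IsCompact ({x | x ∈ H2 ∧ -eta y0 x ≤ QR} ∩ {x | Qr ≤ -eta y0 x}) :=
      (H2_ball hy0 QR).inter_right (isClosed_le continuous_const hQc)
    have hψc : ContinuousOn (fun x => q (X x) N + e * (Real.exp (-k * (-eta y0 x)) -
        Real.exp (-k * QR))) ({x | x ∈ H2 ∧ -eta y0 x ≤ QR} ∩ {x | Qr ≤ -eta y0 x}) := by
      refine ContinuousOn.add (hXc.mono (fun x hx => hx.1.1)) ?_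
      exact (continuous_const.mul (((continuous_const.mul hQc).rexp).sub
        continuous_const)).continuousOn
    intro x hx hx1 hx2
    by_contra hcon
    push Not at hcon
    obtain ⟨z, hz, hzmax⟩ := hAc.exists_isMaxOn ⟨x, ⟨⟨hx, hx2⟩, hx1⟩⟩ hψc
    have hzx : q (X x) N + e * (Real.exp (-k * (-eta y0 x)) - Real.exp (-k * QR)) ≤
        q (X z) N + e * (Real.exp (-k * (-eta y0 z)) - Real.exp (-k * QR)) :=
      hzmax (show x ∈ {x | x ∈ H2 ∧ -eta y0 x ≤ QR} ∩ {x | Qr ≤ -eta y0 x} from ⟨⟨hx, hx2⟩, hx1⟩)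
    have hzp : 0 < q (X z) N + e * (Real.exp (-k * (-eta y0 z)) - Real.exp (-k * QR)) - m := by
      linarith
    have hz1 : Qr < -eta y0 z := by
      refine lt_of_le_of_ne hz.2 (fun he => ?_)
      have h1 := hgap z hz.1.1 he.symm
      have h2 : Real.exp (-k * (-eta y0 z)) ≤ 1 := by
        rw [Real.exp_le_one_iff, ← he]
        nlinarith
      have h3 := Real.exp_pos (-k * QR)
      have h4 : e * (Real.exp (-k * (-eta y0 z)) - Real.exp (-k * QR)) ≤ e * 1 :=
        mul_le_mul_of_nonneg_left (by linarith) he0.le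
      linarith
    have hz2 : -eta y0 z < QR := by
      refine lt_of_le_of_ne hz.1.2 (fun he => ?_)
      rw [he, sub_self, mul_zero, add_zero] at hzp
      have := hmax z hz.1.1
      linarith
    refine strong_max_interior h hNN hpos hm hmax hy0 he0 hem hk1 hQr1 hkk hT heT hz.1.1
      (hneg z hz.1.1) hz1 hz2 hzp ?_
    intro x' hx' h1 h2
    exact hzmax (show x' ∈ {x | x ∈ H2 ∧ -eta y0 x ≤ QR} ∩ {x | Qr ≤ -eta y0 x} from
      ⟨⟨hx', h2⟩, h1⟩)
  -- Hopf at y1
  obtain ⟨d', u, hd', hu, hgeo'⟩ := exists_geo hy1 hy0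
  have hsymm : ∀ p r : V3, eta p r = eta r p := by
    intro p r; simp only [eta]; ring
  have hQ' : QR = Real.cosh d' := by
    rw [hQR, hsymm, ← hgeo', eta_geo hy1 hu, neg_neg]
  have hd'0 : 0 < d' := by
    rcases hd'.lt_or_eq with h1 | h1
    · exact h1
    · exfalso
      rw [← h1, Real.cosh_zero] at hQ'
      linarith
  have hP : -eta y0 u = -Real.sinh d' := by
    have h1 : eta y1 u = 0 := hu.1
    have h2 : eta u u = 1 := hu.2
    have h3 : eta y0 u = Real.cosh d' * eta y1 u + Real.sinh d' * eta u u := by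
      rw [← hgeo']
      simp only [eta, geo, Pi.add_apply, Pi.smul_apply, smul_eq_mul]
      ring
    rw [h3, h1, h2]; ring
  have hcrit : q (dX y1 u) N = 0 := by
    have h1 := (extX h hy1 (Z := N) (fun x hx => by rw [hy1m]; exact hmax x hx) hu).1
    rw [strong_max_qcomm]; exact h1
  obtain ⟨hg0, hg0'⟩ := geo_zero y1 u
  have hder := (strong_max_hq (h.geoX y1 hy1 u hu 0) N).add
    (strong_max_B e k (-eta y0 y1) (-eta y0 u) (Real.exp (-k * QR)) 0)
  have hder' : HasDerivAt (fun s => q (X (geo y1 u s)) N +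
      e * (Real.exp (-k * ((-eta y0 y1) * Real.cosh s + (-eta y0 u) * Real.sinh s)) -
        Real.exp (-k * QR))) (e * (Real.exp (-k * QR) * (k * Real.sinh d'))) 0 := by
    refine HasDerivAt.congr_deriv hder ?_
    rw [hg0, hg0', hcrit, hP]
    simp only [Real.cosh_zero, Real.sinh_zero, mul_one, mul_zero, add_zero, zero_add]
    rw [← hQR]
    ring
  have hcpos : 0 < e * (Real.exp (-k * QR) * (k * Real.sinh d')) := by
    have h1 : 0 < Real.sinh d' := Real.sinh_pos_iff.mpr hd'0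
    have h2 := Real.exp_pos (-k * QR)
    positivity
  have hf0 : (fun s => q (X (geo y1 u s)) N +
      e * (Real.exp (-k * ((-eta y0 y1) * Real.cosh s + (-eta y0 u) * Real.sinh s)) -
        Real.exp (-k * QR))) 0 = m := by
    simp only [Real.cosh_zero, Real.sinh_zero, mul_one, mul_zero, add_zero]
    rw [hg0, hy1m, ← hQR, sub_self, mul_zero, add_zero]
  -- the derivative is positive but the function is `≤ m` to the right
  have hslope := hasDerivAt_iff_tendsto_slope.mp hder'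
  have hev : ∀ᶠ s in 𝓝[≠] (0 : ℝ), 0 < slope (fun s => q (X (geo y1 u s)) N +
      e * (Real.exp (-k * ((-eta y0 y1) * Real.cosh s + (-eta y0 u) * Real.sinh s)) -
        Real.exp (-k * QR))) 0 s := hslope.eventually (lt_mem_nhds hcpos)
  have hev2 : ∀ᶠ s in 𝓝[>] (0 : ℝ), 0 < slope (fun s => q (X (geo y1 u s)) N +
      e * (Real.exp (-k * ((-eta y0 y1) * Real.cosh s + (-eta y0 u) * Real.sinh s)) -
        Real.exp (-k * QR))) 0 s :=
    hev.filter_mono (nhdsWithin_mono 0 (fun s hs => ne_of_gt hs))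
  have hcontQ : Continuous (fun s : ℝ => (-eta y0 y1) * Real.cosh s + (-eta y0 u) * Real.sinh s) := by
    fun_prop
  have hev3 : ∀ᶠ s in 𝓝 (0 : ℝ), Qr < (-eta y0 y1) * Real.cosh s + (-eta y0 u) * Real.sinh s := by
    have h0 : (-eta y0 y1) * Real.cosh 0 + (-eta y0 u) * Real.sinh 0 = QR := by simp [hQR]
    have := hcontQ.continuousAt.tendsto (x := (0 : ℝ))
    exact this.eventually (lt_mem_nhds (by rw [h0]; exact hQrQR))
  have hev4 : ∀ᶠ s in 𝓝 (0 : ℝ), s < d' := Iio_mem_nhds hd'0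
  have hall := hev2.and ((hev3.and hev4).filter_mono nhdsWithin_le_nhds |>.and
    (self_mem_nhdsWithin : Set.Ioi (0 : ℝ) ∈ 𝓝[>] (0 : ℝ)))
  obtain ⟨s, hs1, ⟨hs3, hs4⟩, hs5⟩ := hall.exists
  have hs5' : 0 < s := hs5
  rw [slope_def_field] at hs1
  have hs6 : m < q (X (geo y1 u s)) N +
      e * (Real.exp (-k * ((-eta y0 y1) * Real.cosh s + (-eta y0 u) * Real.sinh s)) -
        Real.exp (-k * QR)) := by
    have h1 := (div_pos_iff_of_pos_right (by linarith : 0 < s - 0)).mp hs1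
    simp only at hf0
    simp only [hf0] at h1
    linarith
  have hs7 : (-eta y0 y1) * Real.cosh s + (-eta y0 u) * Real.sinh s ≤ QR := by
    have h1 : (-eta y0 y1) * Real.cosh s + (-eta y0 u) * Real.sinh s = Real.cosh (d' - s) := by
      rw [← hQR, hQ', hP, Real.cosh_sub]; ring
    rw [h1, hQ', Real.cosh_le_cosh, abs_of_nonneg (by linarith), abs_of_nonneg hd']
    linarith
  have hs8 := hbar (geo y1 u s) (geo_mem hy1 hu s) (by rw [strong_max_eta_geo]; exact hs3.le)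
    (by rw [strong_max_eta_geo]; exact hs7)
  rw [strong_max_eta_geo] at hs8
  linarith

/- Proof:
Let m = q (Xm y) N, v(z) = q (Xm z) N <= m on H2, n(z) = q (Nm z) N < 0. Along a geodesic, v'' = a^2 v + II n. Parseval: n^2 = 1 - v^2 + |grad v|^2/a^2 where |grad v|^2 = sum (q N (dXm e_i))^2. So for an orthonormal basis the symmetric 2x2 matrix M1 = (a^2 v delta_ij - Hess v_ij) := (-n) II_ij is psd with det M1 = n^2 a^2 (1-a^2) = a^2(1-a^2)(1 - v^2 + |grad v|^2/a^2).
Suppose v is not identically m. Z = {z in H2 : v z = m} is closed, nonempty, not everything. Take y0 in H2 with v(y0) < m, Q(z) = -eta y0 z (Hess Q = Q h, |grad Q|^2 = Q^2-1), let y1 in Z minimise Q over Z (H2_ball), QR = Q(y1) > 1, Qr = (1+QR)/2. Barrier beta = e (exp(-k Q) - exp(-k QR)), k large, e small. Claim v <= m - beta on the compact annulus {Qr <= Q <= QR}. Otherwise psi = v + beta - m has a positive max at z1 in the annulus; on Q = QR: beta = 0, psi <= 0; on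 Q = Qr: v <= m - delta0 (compactness, no point of Z there), psi <= e - delta0 < 0; so z1 is an interior point: grad v = -grad beta, Hess v <= -Hess beta, so M1 >= M2 := a^2 v I + Hess beta. With E = exp(-k Q): Hess beta = e E (k^2 dQ⊗dQ - k Q h). For e small M2 > 0, and det M1 >= det M2. One gets det M2 - a^2(1-a^2)(1 - v^2 + |grad beta|^2/a^2) = a^2(v^2-m^2) + a^2 v Lap beta + det Hess beta - (1-a^2)|grad beta|^2 [using m^2 = 1-a^2] >= -2 a^2 m beta + a^2 v e E (k^2 (Q^2-1) - 2 k Q) - e^2 E^2 (...) > 0 for k large then e small (v >= m/2, m - v < beta <= e E): contradiction.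
Finally at y1: v(y1) = m is a global max so the derivative of v at y1 vanishes in every direction (extX), but along the geodesic from y1 to y0 v <= m - beta(c(s)) for small s > 0 with beta(c(0)) = 0 and d/ds beta(c(s)) at 0 = e k exp(-k QR) sqrt(QR^2-1) > 0: contradiction.
-/
theorem strong_max (S : Setup) {N : V4} (hNN : q N N = -1) {y : V3} (hy : y ∈ H2) (hpos : 0 < q (S.Xm y) N)
    (hm : (q (S.Xm y) N) ^ 2 = 1 - S.a ^ 2) (hmax : ∀ y' ∈ H2, q (S.Xm y') N ≤ q (S.Xm y) N)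
    (hneg : ∀ y' ∈ H2, q (S.Nm y') N < 0) {z : V3} (hz : z ∈ H2) :
    q (S.Xm z) N = q (S.Xm y) N := by
  by_contra hne
  exact strong_max_main S.cm hNN hy hpos hm hmax hneg hz (lt_of_le_of_ne (hmax z hz) hne)

end A_strong_max

alias strong_max := A_strong_max.strong_max

end Helper935.AdS
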