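import Pool.Agent.Helper935_AdS.Defs6

namespace Helper935.Poly

namespace A_geo_mem

theorem geo_mem {x v : V3} (hx : x ∈ H2) (hv : UT x v) (s : ℝ) : geo x v s ∈ H2 := by
  obtain ⟨h1, h2⟩ := hx
  obtain ⟨h3, h4⟩ := hv
  simp only [eta] at h1 h3 h4
  have hcs := Real.cosh_sq s
  have hc := Real.cosh_pos s
  refine ⟨?_, ?_⟩
  · simp only [geo, eta, Pi.add_apply, Pi.smul_apply, smul_eq_mul]
    linear_combination (Real.cosh s)^2 * h1 + 2 * Real.cosh s * Real.sinh s * h3 + (Real.sinh s)^2 * h4 - hcs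
  · simp only [geo, Pi.add_apply, Pi.smul_apply, smul_eq_mul]
    have hv0 : v 0 ^ 2 < x 0 ^ 2 := by
      have key : x 0 ^ 2 - v 0 ^ 2 = 1 + (x 1 * v 2 - x 2 * v 1) ^ 2 := by
        have e1 : x 1 * x 1 + x 2 * x 2 = x 0 * x 0 - 1 := by linarith
        have e2 : v 1 * v 1 + v 2 * v 2 = v 0 * v 0 + 1 := by linarith
        have e3 : x 1 * v 1 + x 2 * v 2 = x 0 * v 0 := by linarith
        have e4 : (x 1 * v 2 - x 2 * v 1) ^ 2 =
            (x 1 * x 1 + x 2 * x 2) * (v 1 * v 1 + v 2 * v 2) - (x 1 * v 1 + x 2 * v 2) ^ 2 := by ring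
        rw [e4, e1, e2, e3]; ring
      nlinarith [sq_nonneg (x 1 * v 2 - x 2 * v 1)]
    have hlt : (Real.sinh s * v 0) ^ 2 < (Real.cosh s * x 0) ^ 2 := by
      have : 0 < x 0 ^ 2 := by positivity
      nlinarith [sq_nonneg (Real.sinh s), mul_nonneg (sq_nonneg (Real.sinh s)) (sub_nonneg.mpr hv0.le)]
    have hpos : 0 < Real.cosh s * x 0 := by positivity
    have := abs_lt_of_sq_lt_sq hlt hpos.le
    rw [abs_lt] at this
    linarith [this.1]

end A_geo_mem

alias geo_mem := A_geo_mem.geo_mem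

namespace A_geo_UT

theorem geo_UT {x v : V3} (hx : x ∈ H2) (hv : UT x v) (s : ℝ) : UT (geo x v s) (geo' x v s) := by
  obtain ⟨hxx, -⟩ := hx
  obtain ⟨hxv, hvv⟩ := hv
  have hc := Real.cosh_sq s
  unfold eta at hxx hxv hvv
  unfold UT eta geo geo'
  simp only [Pi.add_apply, Pi.smul_apply, smul_eq_mul]
  constructor
  · linear_combination (Real.cosh s * Real.sinh s) * hxx +
      (Real.cosh s ^ 2 + Real.sinh s ^ 2) * hxv + (Real.cosh s * Real.sinh s) * hvv
  · linear_combination (Real.sinh s ^ 2) * hxx +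
      (2 * Real.cosh s * Real.sinh s) * hxv + (Real.cosh s ^ 2) * hvv + hc

end A_geo_UT

alias geo_UT := A_geo_UT.geo_UT

namespace A_geo_zero

/- Proof:
cosh 0 = 1, sinh 0 = 0
-/
theorem geo_zero (x v : V3) : geo x v 0 = x ∧ geo' x v 0 = v := by
  constructor <;> simp [geo, geo']

end A_geo_zero

alias geo_zero := A_geo_zero.geo_zero

namespace A_geo_add

/- Proof:
addition formulas for cosh, sinh
-/
theorem geo_add (x v : V3) (s t : ℝ) :
    geo (geo x v s) (geo' x v s) t = geo x v (s + t) ∧ geo' (geo x v s) (geo' x v s) t = geo' x v (s + t) := by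
  unfold geo geo'
  rw [Real.cosh_add, Real.sinh_add]
  constructor <;> (funext i; simp only [Pi.add_apply, Pi.smul_apply, smul_eq_mul]; ring)

end A_geo_add

alias geo_add := A_geo_add.geo_add

namespace A_eta_geo

/- Proof:
direct
-/
theorem eta_geo {x v : V3} (hx : x ∈ H2) (hv : UT x v) (s : ℝ) : eta x (geo x v s) = -Real.cosh s := by
  have h1 : eta x x = -1 := hx.1
  have h2 : eta x v = 0 := hv.1
  have h3 : eta x (geo x v s) = Real.cosh s * eta x x + Real.sinh s * eta x v := by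
    simp only [eta, geo, Pi.add_apply, Pi.smul_apply, smul_eq_mul]
    ring
  rw [h3, h1, h2]
  ring

end A_eta_geo

alias eta_geo := A_eta_geo.eta_geo

namespace A_exists_geo

namespace ExG

theorem orth_nonneg {x w : V3} (hx : eta x x = -1) (hw : eta x w = 0) :
    0 ≤ eta w w ∧ (eta w w = 0 → w = 0) := by
  unfold eta at *
  have h0 : x 0 ^ 2 = 1 + x 1 ^ 2 + x 2 ^ 2 := by linarith
  have h1 : x 0 * w 0 = x 1 * w 1 + x 2 * w 2 := by linarith
  have h2 : (x 0 * w 0) ^ 2 ≤ (x 1 ^ 2 + x 2 ^ 2) * (w 1 ^ 2 + w 2 ^ 2) := by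
    rw [h1]; nlinarith [sq_nonneg (x 1 * w 2 - x 2 * w 1)]
  have h3 : w 1 ^ 2 + w 2 ^ 2 ≤ x 0 ^ 2 * (-(w 0 * w 0) + w 1 * w 1 + w 2 * w 2) := by
    have e : x 0 ^ 2 * (-(w 0 * w 0) + w 1 * w 1 + w 2 * w 2) =
        -(x 0 * w 0) ^ 2 + x 0 ^ 2 * (w 1 ^ 2 + w 2 ^ 2) := by ring
    rw [e, h0]
    nlinarith
  have hpos : 0 < x 0 ^ 2 := by rw [h0]; positivity
  constructor
  · by_contra hcon
    push Not at hcon
    nlinarith [mul_neg_of_pos_of_neg hpos hcon, sq_nonneg (w 1), sq_nonneg (w 2)]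
  · intro h
    rw [h, mul_zero] at h3
    have e1 : w 1 = 0 := by nlinarith [sq_nonneg (w 1), sq_nonneg (w 2)]
    have e2 : w 2 = 0 := by nlinarith [sq_nonneg (w 1), sq_nonneg (w 2)]
    have e0 : w 0 = 0 := by
      rw [e1, e2] at h
      nlinarith [sq_nonneg (w 0)]
    funext i
    fin_cases i
    · exact e0
    · exact e1
    · exact e2

theorem c_pos {x y : V3} (hx : x ∈ H2) (hy : y ∈ H2) : 0 < -eta x y := by
  obtain ⟨hx, hx0⟩ := hx
  obtain ⟨hy, hy0⟩ := hy
  unfold eta at *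
  by_contra hcon
  push Not at hcon
  have h1 : x 0 * y 0 ≤ x 1 * y 1 + x 2 * y 2 := by linarith
  have h2 : (x 0 * y 0) ^ 2 ≤ (x 1 * y 1 + x 2 * y 2) ^ 2 := by
    have : 0 < x 0 * y 0 := mul_pos hx0 hy0
    exact pow_le_pow_left₀ this.le h1 2
  have h3 : (x 1 * y 1 + x 2 * y 2) ^ 2 ≤ (x 1 ^ 2 + x 2 ^ 2) * (y 1 ^ 2 + y 2 ^ 2) := by
    nlinarith [sq_nonneg (x 1 * y 2 - x 2 * y 1)]
  have h4 : (x 0 * y 0) ^ 2 = (1 + x 1 ^ 2 + x 2 ^ 2) * (1 + y 1 ^ 2 + y 2 ^ 2) := by
    have e1 : x 0 ^ 2 = 1 + x 1 ^ 2 + x 2 ^ 2 := by linarith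
    have e2 : y 0 ^ 2 = 1 + y 1 ^ 2 + y 2 ^ 2 := by linarith
    rw [mul_pow, e1, e2]
  nlinarith [sq_nonneg (x 1), sq_nonneg (x 2), sq_nonneg (y 1), sq_nonneg (y 2)]

theorem exists_UT {x : V3} (hx : x ∈ H2) : ∃ v, UT x v := by
  obtain ⟨hx, hx0⟩ := hx
  unfold eta at hx
  have hk : 0 < 1 + x 2 ^ 2 := by positivity
  set k : ℝ := (Real.sqrt (1 + x 2 ^ 2))⁻¹ with hkd
  have hk2 : k ^ 2 * (1 + x 2 ^ 2) = 1 := by
    rw [hkd, inv_pow, Real.sq_sqrt hk.le]
    exact inv_mul_cancel₀ hk.ne'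
  refine ⟨![x 1 * k, x 0 * k, 0], ?_, ?_⟩
  · simp [eta]; ring
  · simp [eta]
    have e : -(x 1 * k * (x 1 * k)) + x 0 * k * (x 0 * k) = k ^ 2 * (x 0 ^ 2 - x 1 ^ 2) := by ring
    have e1 : x 0 ^ 2 - x 1 ^ 2 = 1 + x 2 ^ 2 := by linarith
    rw [e, e1, hk2]

end ExG

/- Proof:
c = -eta x y >= 1; if c = 1 then y = x (take any unit tangent vector and d = 0); otherwise d = arcosh c > 0, v = (y - c x)/sinh d.
-/
theorem exists_geo {x y : V3} (hx : x ∈ H2) (hy : y ∈ H2) :
    ∃ d v, 0 ≤ d ∧ UT x v ∧ geo x v d = y := by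
  have hc0 := ExG.c_pos hx hy
  set c : ℝ := -eta x y with hc
  set w : V3 := y - c • x with hw
  have hxx : eta x x = -1 := hx.1
  have hyy : eta y y = -1 := hy.1
  have e1 : eta x w = 0 := by
    have : eta x w = eta x y - c * eta x x := by
      rw [hw]; simp only [eta, Pi.sub_apply, Pi.smul_apply, smul_eq_mul]; ring
    rw [this, hxx, hc]; ring
  have e2 : eta w w = c ^ 2 - 1 := by
    have : eta w w = eta y y - 2 * c * eta x y + c ^ 2 * eta x x := by
      rw [hw]; simp only [eta, Pi.sub_apply, Pi.smul_apply, smul_eq_mul]; ring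
    rw [this, hxx, hyy]
    have : eta x y = -c := by rw [hc]; ring
    rw [this]; ring
  obtain ⟨h1, h2⟩ := ExG.orth_nonneg hxx e1
  rw [e2] at h1 h2
  set s : ℝ := Real.sqrt (c ^ 2 - 1) with hs
  have hs2 : s ^ 2 = c ^ 2 - 1 := Real.sq_sqrt h1
  have hs0 : 0 ≤ s := Real.sqrt_nonneg _
  rcases hs0.eq_or_lt with h | h
  · have h3 : c ^ 2 - 1 = 0 := by rw [← hs2, ← h]; ring
    have h4 := h2 h3
    have h5 : c = 1 := by nlinarith
    obtain ⟨v, hv⟩ := ExG.exists_UT hx
    refine ⟨0, v, le_refl _, hv, ?_⟩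
    have h6 : y = x := by
      have : y - c • x = 0 := h4
      rw [h5, one_smul, sub_eq_zero] at this
      exact this
    rw [h6]
    simp [geo]
  · refine ⟨Real.arsinh s, s⁻¹ • w, Real.arsinh_nonneg_iff.2 h.le, ⟨?_, ?_⟩, ?_⟩
    · have : eta x (s⁻¹ • w) = s⁻¹ * eta x w := by
        simp only [eta, Pi.smul_apply, smul_eq_mul]; ring
      rw [this, e1, mul_zero]
    · have : eta (s⁻¹ • w) (s⁻¹ • w) = (s⁻¹) ^ 2 * eta w w := by
        simp only [eta, Pi.smul_apply, smul_eq_mul]; ring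
      rw [this, e2, ← hs2]
      field_simp
    · unfold geo
      rw [Real.cosh_arsinh, Real.sinh_arsinh, smul_smul, mul_inv_cancel₀ h.ne', one_smul]
      have : Real.sqrt (1 + s ^ 2) = c := by
        rw [hs2]
        rw [show 1 + (c ^ 2 - 1) = c ^ 2 by ring, Real.sqrt_sq hc0.le]
      rw [this, hw]
      abel

end A_exists_geo

alias exists_geo := A_exists_geo.exists_geo

namespace A_exists_ON

/-- given a unit tangent vector v at x, the Lorentz cross product of x and v is a unit tangent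
vector orthogonal to v -/
theorem exists_ON {x v : V3} (hx : x ∈ H2) (hv : UT x v) : ∃ w, ON x v w := by
  obtain ⟨h1, h2⟩ := hx
  obtain ⟨h3, h4⟩ := hv
  refine ⟨![-(x 1 * v 2 - x 2 * v 1), x 2 * v 0 - x 0 * v 2, x 0 * v 1 - x 1 * v 0], h3, ?_, h4,
    ?_, ?_⟩
  · simp only [eta, Matrix.cons_val_zero, Matrix.cons_val_one, Matrix.cons_val]
    ring
  · have key : eta ![-(x 1 * v 2 - x 2 * v 1), x 2 * v 0 - x 0 * v 2, x 0 * v 1 - x 1 * v 0]
        ![-(x 1 * v 2 - x 2 * v 1), x 2 * v 0 - x 0 * v 2, x 0 * v 1 - x 1 * v 0]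
        = (eta x v) ^ 2 - eta x x * eta v v := by
      simp only [eta, Matrix.cons_val_zero, Matrix.cons_val_one, Matrix.cons_val]
      ring
    rw [key, h3, h1, h4]
    norm_num
  · simp only [eta, Matrix.cons_val_zero, Matrix.cons_val_one, Matrix.cons_val]
    ring

end A_exists_ON

alias exists_ON := A_exists_ON.exists_ON

namespace A_exists_UT

theorem exists_UT {x : V3} (hx : x ∈ H2) : ∃ v, UT x v := by
  obtain ⟨hxx, h0⟩ := hx
  unfold eta at hxx
  have h1 : (1 + x 0) ≠ 0 := by positivity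
  refine ⟨![x 1, 1 + x 1 ^ 2 / (1 + x 0), x 1 * x 2 / (1 + x 0)], ?_, ?_⟩
  · unfold eta
    simp only [Matrix.cons_val_zero, Matrix.cons_val_one, Matrix.cons_val]
    field_simp
    linear_combination (x 1) * hxx
  · unfold eta
    simp only [Matrix.cons_val_zero, Matrix.cons_val_one, Matrix.cons_val]
    field_simp
    linear_combination (x 1 ^ 2) * hxx

end A_exists_UT

alias exists_UT := A_exists_UT.exists_UT

namespace A_tangent_expand

/- Proof:
linear algebra: (x,e1,e2) is an orthonormal basis for eta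
-/
theorem tangent_expand {x e₁ e₂ v : V3} (hx : x ∈ H2) (he : ON x e₁ e₂) (hv : eta x v = 0) :
    v = eta v e₁ • e₁ + eta v e₂ • e₂ := by
  obtain ⟨h1, h2, h3, h4, h5⟩ := he
  have h0 := hx.1
  simp only [eta] at h0 h1 h2 h3 h4 h5 hv
  let A : Matrix (Fin 3) (Fin 3) ℝ :=
    !![-x 0, x 1, x 2; -e₁ 0, e₁ 1, e₁ 2; -e₂ 0, e₂ 1, e₂ 2]
  let B : Matrix (Fin 3) (Fin 3) ℝ :=
    !![-x 0, e₁ 0, e₂ 0; -x 1, e₁ 1, e₂ 1; -x 2, e₁ 2, e₂ 2]
  have hAB : A * B = 1 := by
    ext i j
    fin_cases i <;> fin_cases j <;>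
      simp [A, B, Matrix.mul_apply, Fin.sum_univ_three] <;> linarith
  have hBA : B * A = 1 := mul_eq_one_comm.mp hAB
  have e : ∀ i j, (B * A) i j = (1 : Matrix (Fin 3) (Fin 3) ℝ) i j := fun i j => by rw [hBA]
  have e00 := e 0 0
  have e01 := e 0 1
  have e02 := e 0 2
  have e10 := e 1 0
  have e11 := e 1 1
  have e12 := e 1 2
  have e20 := e 2 0
  have e21 := e 2 1
  have e22 := e 2 2
  simp [A, B, Matrix.mul_apply, Fin.sum_univ_three] at e00 e01 e02 e10 e11 e12 e20 e21 e22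
  ext i
  fin_cases i
  · simp [eta]
    linear_combination (-(v 0)) * e00 - (v 1) * e01 - (v 2) * e02 - (x 0) * hv
  · simp [eta]
    linear_combination (-(v 0)) * e10 - (v 1) * e11 - (v 2) * e12 - (x 1) * hv
  · simp [eta]
    linear_combination (-(v 0)) * e20 - (v 1) * e21 - (v 2) * e22 - (x 2) * hv

end A_tangent_expand

alias tangent_expand := A_tangent_expand.tangent_expand

namespace A_eta_le

/- Proof:
Cauchy-Schwarz
-/
theorem eta_le {x y : V3} (hx : x ∈ H2) (hy : y ∈ H2) : eta x y ≤ -1 := by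
  obtain ⟨hx1, hx0⟩ := hx
  obtain ⟨hy1, hy0⟩ := hy
  unfold eta at *
  by_contra hcon
  push Not at hcon
  have hp : 0 < x 0 * y 0 := mul_pos hx0 hy0
  have h1 : x 0 * y 0 < 1 + x 1 * y 1 + x 2 * y 2 := by linarith
  have h2 : (x 0 * y 0) ^ 2 < (1 + x 1 * y 1 + x 2 * y 2) ^ 2 := by nlinarith
  have h3 : (x 0 * y 0) ^ 2 = (1 + x 1 * x 1 + x 2 * x 2) * (1 + y 1 * y 1 + y 2 * y 2) := by
    have e1 : x 0 * x 0 = 1 + x 1 * x 1 + x 2 * x 2 := by linarith
    have e2 : y 0 * y 0 = 1 + y 1 * y 1 + y 2 * y 2 := by linarith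
    rw [← e1, ← e2]; ring
  nlinarith [sq_nonneg (x 1 - y 1), sq_nonneg (x 2 - y 2), sq_nonneg (x 1 * y 2 - x 2 * y 1)]

end A_eta_le

alias eta_le := A_eta_le.eta_le

namespace A_H2_triangle

/- Proof:
Reverse: put A=-eta x y, B=-eta y z. Decompose x = A y + x', z = B y + z' with x', z' orthogonal to y (spacelike), eta x' x' = A^2-1, so -eta x z = A B - eta x' z' <= A B + sqrt(A^2-1) sqrt(B^2-1) <= cosh(r+s).
-/
theorem H2_triangle {x y z : V3} (hx : x ∈ H2) (hy : y ∈ H2) (hz : z ∈ H2) {r s : ℝ}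
    (hr : 0 ≤ r) (hs : 0 ≤ s) (hxy : -eta x y ≤ Real.cosh r) (hyz : -eta y z ≤ Real.cosh s) :
    -eta x z ≤ Real.cosh (r + s) := by
  obtain ⟨hx1, hx0⟩ := hx
  obtain ⟨hy1, hy0⟩ := hy
  obtain ⟨hz1, hz0⟩ := hz
  have key : ∀ u w : V3, eta u u = -1 → eta w w = -1 → 0 < u 0 → 0 < w 0 → 1 ≤ -eta u w := by
    intro u w hu hw hu0 hw0
    simp only [eta] at hu hw ⊢
    by_contra hcon
    have hlt : u 0 * w 0 < 1 + (u 1 * w 1 + u 2 * w 2) := by linarith
    have hpos : 0 < u 0 * w 0 := mul_pos hu0 hw0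
    have hsq : (u 0 * w 0) ^ 2 < (1 + (u 1 * w 1 + u 2 * w 2)) ^ 2 := by
      nlinarith
    have e1 : u 0 * u 0 = 1 + u 1 * u 1 + u 2 * u 2 := by linarith
    have e2 : w 0 * w 0 = 1 + w 1 * w 1 + w 2 * w 2 := by linarith
    have e3 : (u 0 * w 0) ^ 2 = (1 + u 1 * u 1 + u 2 * u 2) * (1 + w 1 * w 1 + w 2 * w 2) := by
      rw [← e1, ← e2]; ring
    rw [e3] at hsq
    nlinarith [sq_nonneg (u 1 - w 1), sq_nonneg (u 2 - w 2), sq_nonneg (u 1 * w 2 - u 2 * w 1)]
  have hA : 1 ≤ -eta x y := key x y hx1 hy1 hx0 hy0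
  have hB : 1 ≤ -eta y z := key y z hy1 hz1 hy0 hz0
  have gram : (-eta x z - (-eta x y) * (-eta y z)) ^ 2 ≤ ((-eta x y) ^ 2 - 1) * ((-eta y z) ^ 2 - 1) := by
    have hid : 0 ≤ (x 0 * (y 1 * z 2 - y 2 * z 1) - x 1 * (y 0 * z 2 - y 2 * z 0)
        + x 2 * (y 0 * z 1 - y 1 * z 0)) ^ 2 := sq_nonneg _
    have hG : (x 0 * (y 1 * z 2 - y 2 * z 1) - x 1 * (y 0 * z 2 - y 2 * z 0)
        + x 2 * (y 0 * z 1 - y 1 * z 0)) ^ 2
        = -(eta x x * (eta y y * eta z z - eta y z ^ 2) - eta x y * (eta x y * eta z z - eta y z * eta x z)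
          + eta x z * (eta x y * eta y z - eta y y * eta x z)) := by
      simp only [eta]; ring
    rw [hG, hx1, hy1, hz1] at hid
    nlinarith
  set A := -eta x y with hAdef
  set B := -eta y z with hBdef
  set C := -eta x z with hCdef
  have hcr : 1 ≤ Real.cosh r := Real.one_le_cosh r
  have hcs : 1 ≤ Real.cosh s := Real.one_le_cosh s
  have hsr : 0 ≤ Real.sinh r := Real.sinh_nonneg_iff.2 hr
  have hss : 0 ≤ Real.sinh s := Real.sinh_nonneg_iff.2 hs
  have h1 : A ^ 2 - 1 ≤ Real.sinh r ^ 2 := by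
    have := Real.cosh_sq r
    nlinarith
  have h2 : B ^ 2 - 1 ≤ Real.sinh s ^ 2 := by
    have := Real.cosh_sq s
    nlinarith
  have h3 : (C - A * B) ^ 2 ≤ (Real.sinh r * Real.sinh s) ^ 2 := by
    calc (C - A * B) ^ 2 ≤ (A ^ 2 - 1) * (B ^ 2 - 1) := gram
      _ ≤ Real.sinh r ^ 2 * Real.sinh s ^ 2 := by
          apply mul_le_mul h1 h2 (by nlinarith) (by positivity)
      _ = (Real.sinh r * Real.sinh s) ^ 2 := by ring
  have h4 : C - A * B ≤ Real.sinh r * Real.sinh s := by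
    have := abs_le_of_sq_le_sq h3 (mul_nonneg hsr hss)
    exact le_trans (le_abs_self _) this
  have h5 : A * B ≤ Real.cosh r * Real.cosh s :=
    mul_le_mul hxy hyz (by linarith) (by linarith)
  rw [Real.cosh_add]
  linarith

end A_H2_triangle

alias H2_triangle := A_H2_triangle.H2_triangle

namespace A_H2_ball

/- Proof:
closed (continuous conditions; on the closed set eta x x = -1, 0 <= x 0 implies 0 < x 0) and bounded (|x| is controlled by -eta x0 x: e.g. -eta x0 x >= x 0 (x0 0 - |(x0 1, x0 2)|)).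
-/
theorem H2_ball {x₀ : V3} (hx : x₀ ∈ H2) (R : ℝ) : IsCompact {x | x ∈ H2 ∧ -eta x₀ x ≤ R} := by
  have hset : {x : V3 | x ∈ H2 ∧ -eta x₀ x ≤ R}
      = {x : V3 | (eta x x = -1 ∧ 0 ≤ x 0) ∧ -eta x₀ x ≤ R} := by
    ext x
    constructor
    · rintro ⟨⟨h1, h2⟩, h3⟩
      exact ⟨⟨h1, h2.le⟩, h3⟩
    · rintro ⟨⟨h1, h2⟩, h3⟩
      refine ⟨⟨h1, ?_⟩, h3⟩
      rcases h2.lt_or_eq with h | h
      · exact h
      · exfalso
        unfold eta at h1
        rw [← h] at h1
        nlinarith [mul_self_nonneg (x 1), mul_self_nonneg (x 2)]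
  obtain ⟨h0, h00⟩ := hx
  have hr0 : 0 ≤ Real.sqrt (x₀ 1 * x₀ 1 + x₀ 2 * x₀ 2) := Real.sqrt_nonneg _
  have hr2 : Real.sqrt (x₀ 1 * x₀ 1 + x₀ 2 * x₀ 2) * Real.sqrt (x₀ 1 * x₀ 1 + x₀ 2 * x₀ 2)
      = x₀ 1 * x₀ 1 + x₀ 2 * x₀ 2 :=
    Real.mul_self_sqrt (by nlinarith [mul_self_nonneg (x₀ 1), mul_self_nonneg (x₀ 2)])
  set r := Real.sqrt (x₀ 1 * x₀ 1 + x₀ 2 * x₀ 2) with hr
  have hlt : r < x₀ 0 := by
    unfold eta at h0
    by_contra hcon
    push Not at hcon
    nlinarith
  have hd : 0 < x₀ 0 - r := by linarith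
  apply Metric.isCompact_of_isClosed_isBounded
  · rw [hset]
    have hc : Continuous (fun x : V3 => eta x x) := by
      unfold eta
      fun_prop
    have hc2 : Continuous (fun x : V3 => -eta x₀ x) := by
      unfold eta
      fun_prop
    have hc3 : Continuous (fun x : V3 => x 0) := continuous_apply 0
    exact ((isClosed_eq hc continuous_const).inter (isClosed_le continuous_const hc3)).inter
      (isClosed_le hc2 continuous_const)
  · rw [isBounded_iff_forall_norm_le]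
    refine ⟨R / (x₀ 0 - r), ?_⟩
    rintro x ⟨⟨h1, h2⟩, h3⟩
    -- key
    have hkey : x 0 * (x₀ 0 - r) ≤ R := by
      refine le_trans ?_ h3
      unfold eta at h1 ⊢
      have hcs : x₀ 1 * x 1 + x₀ 2 * x 2 ≤ r * x 0 := by
        have hrx : 0 ≤ r * x 0 := mul_nonneg hr0 h2.le
        have hsq : (x₀ 1 * x 1 + x₀ 2 * x 2) ^ 2 ≤ (r * x 0) ^ 2 := by
          have e1 : (r * x 0) ^ 2 = (x₀ 1 * x₀ 1 + x₀ 2 * x₀ 2) * (x 0 * x 0) := by
            rw [← hr2]; ring
          have e2 : x 0 * x 0 = 1 + x 1 * x 1 + x 2 * x 2 := by linarith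
          rw [e1, e2]
          nlinarith [mul_self_nonneg (x₀ 1 * x 2 - x₀ 2 * x 1), mul_self_nonneg (x₀ 1),
            mul_self_nonneg (x₀ 2)]
        exact le_trans (le_abs_self _) (abs_le_of_sq_le_sq hsq hrx)
      linarith
    have hx0 : x 0 ≤ R / (x₀ 0 - r) := by
      rw [le_div_iff₀ hd]
      exact hkey
    have hR : 0 ≤ R / (x₀ 0 - r) := le_trans h2.le hx0
    unfold eta at h1
    rw [pi_norm_le_iff_of_nonneg hR]
    intro i
    rw [Real.norm_eq_abs]
    refine le_trans ?_ hx0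
    fin_cases i
    · simp only [Fin.zero_eta, Fin.isValue]
      rw [abs_of_pos h2]
    · simp only [Fin.mk_one, Fin.isValue]
      apply abs_le_of_sq_le_sq _ h2.le
      nlinarith [mul_self_nonneg (x 2)]
    · simp only [Fin.reduceFinMk, Fin.isValue]
      apply abs_le_of_sq_le_sq _ h2.le
      nlinarith [mul_self_nonneg (x 1)]

end A_H2_ball

alias H2_ball := A_H2_ball.H2_ball

namespace A_H2_closed

/- Proof:
as above
-/
theorem H2_closed : IsClosed H2 := by
  have hEq : H2 = {x : V3 | eta x x = -1} ∩ {x : V3 | 1 ≤ x 0} := by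
    ext x
    simp only [H2, Set.mem_ofPred_eq, Set.mem_inter_iff]
    constructor
    · rintro ⟨h1, h2⟩
      refine ⟨h1, ?_⟩
      unfold eta at h1
      nlinarith [mul_self_nonneg (x 1), mul_self_nonneg (x 2), h2]
    · rintro ⟨h1, h2⟩
      exact ⟨h1, by linarith⟩
  rw [hEq]
  have c0 : Continuous (fun x : V3 => x 0) := continuous_apply 0
  have c1 : Continuous (fun x : V3 => x 1) := continuous_apply 1
  have c2 : Continuous (fun x : V3 => x 2) := continuous_apply 2
  have ce : Continuous (fun x : V3 => eta x x) := by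
    unfold eta
    exact (((c0.mul c0).neg).add (c1.mul c1)).add (c2.mul c2)
  exact (isClosed_eq ce continuous_const).inter (isClosed_le continuous_const c0)

end A_H2_closed

alias H2_closed := A_H2_closed.H2_closed

namespace A_q_cont

/- Proof:
polynomial
-/
theorem q_cont : Continuous (fun p : V4 × V4 => q p.1 p.2) := by
  unfold q
  fun_prop

end A_q_cont

alias q_cont := A_q_cont.q_cont

namespace A_q_bound

/- Proof:
sup norm: each product is at most the product of the norms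
-/
theorem q_bound (X Y : V4) : |q X Y| ≤ 4 * ‖X‖ * ‖Y‖ := by
  have h : ∀ i : Fin 4, |X i * Y i| ≤ ‖X‖ * ‖Y‖ := by
    intro i
    rw [abs_mul]
    have h1 : |X i| ≤ ‖X‖ := by simpa [Real.norm_eq_abs] using norm_le_pi_norm X i
    have h2 : |Y i| ≤ ‖Y‖ := by simpa [Real.norm_eq_abs] using norm_le_pi_norm Y i
    exact mul_le_mul h1 h2 (abs_nonneg _) (norm_nonneg _)
  have h0 := abs_le.mp (h 0)
  have h1 := abs_le.mp (h 1)
  have h2 := abs_le.mp (h 2)
  have h3 := abs_le.mp (h 3)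
  unfold q
  rw [abs_le]
  constructor <;> linarith [h0.1, h0.2, h1.1, h1.2, h2.1, h2.2, h3.1, h3.2]

end A_q_bound

alias q_bound := A_q_bound.q_bound

namespace A_q_nondeg

/- Proof:
test with the coordinate vectors
-/
theorem q_nondeg {X : V4} (h : ∀ Y, q X Y = 0) : X = 0 := by
  have h0 := h ![1, 0, 0, 0]
  have h1 := h ![0, 1, 0, 0]
  have h2 := h ![0, 0, 1, 0]
  have h3 := h ![0, 0, 0, 1]
  simp [q] at h0 h1 h2 h3
  ext i
  fin_cases i
  · simpa using h0
  · simpa using h1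
  · simpa using h2
  · simpa using h3

end A_q_nondeg

alias q_nondeg := A_q_nondeg.q_nondeg

namespace A_sep

/-- In `V4` the convex hull of a compact set is compact (Caratheodory). -/
theorem isCompact_convexHull_V4 {S : Set V4} (hS : IsCompact S) : IsCompact (convexHull ℝ S) := by
  classical
  rcases S.eq_empty_or_nonempty with h | ⟨s₀, hs₀⟩
  · subst h
    rw [convexHull_empty]
    exact isCompact_empty
  have hP : IsCompact ((stdSimplex ℝ (Fin 5)) ×ˢ (Set.univ.pi fun _ : Fin 5 => S)) :=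
    (isCompact_stdSimplex ℝ (Fin 5)).prod (isCompact_univ_pi fun _ => hS)
  have hcont : Continuous (fun p : (Fin 5 → ℝ) × (Fin 5 → V4) => ∑ i, p.1 i • p.2 i) := by
    fun_prop
  have himg := hP.image hcont
  have heq : convexHull ℝ S = (fun p : (Fin 5 → ℝ) × (Fin 5 → V4) => ∑ i, p.1 i • p.2 i) ''
      ((stdSimplex ℝ (Fin 5)) ×ˢ (Set.univ.pi fun _ : Fin 5 => S)) := by
    apply Set.Subset.antisymm
    · intro x hx
      obtain ⟨ι, hι, z, w, hz, hai, hw, hw1, hx⟩ := eq_pos_convex_span_of_mem_convexHull hx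
      have hcard : Fintype.card ι ≤ 5 := by
        have h3 : Module.finrank ℝ V4 = 4 := by simp
        have h2 := Submodule.finrank_le (vectorSpan ℝ (Set.range z))
        rw [h3] at h2
        exact hai.card_le_finrank_succ.trans (Nat.succ_le_succ h2)
      obtain ⟨e⟩ : Nonempty (ι ↪ Fin 5) := by
        apply Function.Embedding.nonempty_of_card_le
        simpa using hcard
      have key : ∀ (M : Type) [AddCommMonoid M] (h : ι → M),
          ∑ i, Function.extend e h 0 i = ∑ i, h i := by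
        intro M _ h
        have h1 : ∑ i, h i = ∑ i ∈ Finset.univ.map e, Function.extend e h 0 i := by
          rw [Finset.sum_map]
          apply Finset.sum_congr rfl
          intro i _
          rw [e.injective.extend_apply]
        rw [h1]
        symm
        apply Finset.sum_subset (Finset.subset_univ _)
        intro i _ hi
        rw [Function.extend_apply' _ _ _ (by
          rintro ⟨a, ha⟩
          exact hi (by simp only [Finset.mem_map, Finset.mem_univ, true_and]; exact ⟨a, ha⟩))]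
        rfl
      refine ⟨(Function.extend e w 0, Function.extend e z (fun _ => s₀)), ⟨⟨?_, ?_⟩, ?_⟩, ?_⟩
      · intro i
        by_cases hi : ∃ a, e a = i
        · obtain ⟨a, rfl⟩ := hi
          simp only [e.injective.extend_apply]
          exact (hw a).le
        · simp only [Function.extend_apply' _ _ _ hi]
          exact le_rfl
      · show ∑ i, Function.extend e w 0 i = 1
        rw [key ℝ w, hw1]
      · intro i _
        by_cases hi : ∃ a, e a = i
        · obtain ⟨a, rfl⟩ := hi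
          show Function.extend e z (fun _ => s₀) (e a) ∈ S
          rw [e.injective.extend_apply]
          exact hz ⟨a, rfl⟩
        · show Function.extend e z (fun _ => s₀) i ∈ S
          rw [Function.extend_apply' _ _ _ hi]
          exact hs₀
      · show ∑ i, Function.extend e w 0 i • Function.extend e z (fun _ => s₀) i = x
        rw [← hx, ← key V4 (fun i => w i • z i)]
        apply Finset.sum_congr rfl
        intro i _
        by_cases hi : ∃ a, e a = i
        · obtain ⟨a, rfl⟩ := hi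
          simp only [e.injective.extend_apply]
        · simp only [Function.extend_apply' _ _ _ hi]
          simp
    · rintro x ⟨⟨w, z⟩, ⟨⟨hw0, hw1⟩, hz⟩, rfl⟩
      exact (convex_convexHull ℝ S).sum_mem (fun i _ => hw0 i) hw1
        (fun i _ => subset_convexHull ℝ S (hz i (Set.mem_univ i)))
  rw [heq]
  exact himg

/- Proof:
The ray R = {t z : t >= 0} is closed convex and disjoint from the compact convex set convexHull S. geometric_hahn_banach_compact_closed gives a functional f with f < u on the hull and u < v < f on R; so f(0)=0 gives v<0,u<0, and t f(z) > v for all t >= 0 gives f(z) >= 0. Perturb: f + eps * g with g(z) > 0 (g = euclidean inner product with z) to get strictly positive at z and still negative on the compact set S. Every linear functional is of the form q . N.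
-/
theorem sep {S : Set V4} (hS : IsCompact S) (hne : S.Nonempty) (h0 : (0 : V4) ∉ convexHull ℝ S) {z : V4}
    (hz0 : z ≠ 0) (hz : ∀ t : ℝ, 0 ≤ t → ∀ Y ∈ convexHull ℝ S, z ≠ t • Y) :
    ∃ N, (∀ Y ∈ S, q Y N < 0) ∧ 0 < q z N := by
  classical
  -- the closed ray
  have hRc : IsClosed {w : V4 | ∃ t : ℝ, 0 ≤ t ∧ w = t • z} := by
    have hcl : IsClosedMap (fun t : ℝ => t • z) :=
      (isClosedEmbedding_smul_left hz0).isClosedMap
    have h := hcl (Set.Ici (0 : ℝ)) isClosed_Ici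
    have heq : {w : V4 | ∃ t : ℝ, 0 ≤ t ∧ w = t • z} = (fun t : ℝ => t • z) '' Set.Ici (0 : ℝ) := by
      ext w
      constructor
      · rintro ⟨t, ht, rfl⟩
        exact ⟨t, ht, rfl⟩
      · rintro ⟨t, ht, rfl⟩
        exact ⟨t, ht, rfl⟩
    rw [heq]
    exact h
  have hRv : Convex ℝ {w : V4 | ∃ t : ℝ, 0 ≤ t ∧ w = t • z} := by
    rintro x ⟨t, ht, rfl⟩ y ⟨s, hs, rfl⟩ a b ha hb _
    refine ⟨a * t + b * s, by positivity, ?_⟩
    rw [smul_smul, smul_smul, add_smul]
  have hdisj : Disjoint (convexHull ℝ S) {w : V4 | ∃ t : ℝ, 0 ≤ t ∧ w = t • z} := by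
    rw [Set.disjoint_left]
    rintro Y hY ⟨t, ht, hYt⟩
    by_cases h : t = 0
    · subst h
      rw [zero_smul] at hYt
      exact h0 (hYt ▸ hY)
    · have htp : 0 < t := lt_of_le_of_ne ht (Ne.symm h)
      apply hz t⁻¹ (by positivity) Y hY
      rw [hYt, smul_smul, inv_mul_cancel₀ h, one_smul]
  obtain ⟨f, u, v, h1, h2, h3⟩ := geometric_hahn_banach_compact_closed (convex_convexHull ℝ S)
    (isCompact_convexHull_V4 hS) hRv hRc hdisj
  have hv0 : v < 0 := by
    have := h3 0 ⟨0, le_rfl, by simp⟩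
    simpa using this
  have hu0 : u < 0 := h2.trans hv0
  have hfz : 0 ≤ f z := by
    by_contra hneg
    push Not at hneg
    have h4 := h3 ((v / f z) • z) ⟨v / f z, le_of_lt (div_pos_of_neg_of_neg hv0 hneg), rfl⟩
    rw [map_smul, smul_eq_mul, div_mul_cancel₀ _ hneg.ne] at h4
    exact lt_irrefl _ h4
  -- a functional positive at `z`
  obtain ⟨g, hg⟩ : ∃ g : V4 →L[ℝ] ℝ, 0 < g z := by
    obtain ⟨g, hg⟩ := SeparatingDual.exists_ne_zero (R := ℝ) hz0
    rcases lt_or_gt_of_ne hg with h | h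
    · exact ⟨-g, by simpa using h⟩
    · exact ⟨g, h⟩
  obtain ⟨C, hC⟩ := (hS.bddAbove_image g.continuous.continuousOn)
  have hC' : ∀ Y ∈ S, g Y ≤ |C| := fun Y hY => (hC ⟨Y, hY, rfl⟩).trans (le_abs_self C)
  set ε : ℝ := (-u) / (2 * (|C| + 1)) with hε
  have hCp : 0 < |C| + 1 := by positivity
  have hεp : 0 < ε := by
    rw [hε]
    apply div_pos (by linarith) (by linarith)
  have hεC : ε * |C| ≤ -u / 2 := by
    rw [hε, div_mul_eq_mul_div, div_le_div_iff₀ (by linarith) (by norm_num)]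
    nlinarith [abs_nonneg C]
  set F : V4 →L[ℝ] ℝ := f + ε • g with hF
  have hFz : 0 < F z := by
    have : F z = f z + ε * g z := by simp [hF]
    rw [this]
    have := mul_pos hεp hg
    linarith
  have hFS : ∀ Y ∈ S, F Y < 0 := by
    intro Y hY
    have e : F Y = f Y + ε * g Y := by simp [hF]
    rw [e]
    have a1 := h1 Y (subset_convexHull ℝ S hY)
    have a2 := mul_le_mul_of_nonneg_left (hC' Y hY) hεp.le
    linarith
  have hrep : ∀ Y : V4, F Y = Y 0 * F (Pi.single 0 1) + Y 1 * F (Pi.single 1 1)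
      + Y 2 * F (Pi.single 2 1) + Y 3 * F (Pi.single 3 1) := by
    intro Y
    have hY : Y = Y 0 • (Pi.single 0 1 : V4) + Y 1 • (Pi.single 1 1 : V4)
        + Y 2 • (Pi.single 2 1 : V4) + Y 3 • (Pi.single 3 1 : V4) := by
      ext i
      fin_cases i <;> simp
    conv_lhs => rw [hY]
    simp only [map_add, map_smul, smul_eq_mul]
  refine ⟨![-F (Pi.single 0 1), F (Pi.single 1 1), F (Pi.single 2 1), -F (Pi.single 3 1)], ?_, ?_⟩
  · intro Y hY
    have := hFS Y hY
    rw [hrep] at this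
    simp only [q, Matrix.cons_val_zero, Matrix.cons_val_one, Matrix.cons_val]
    linarith
  · have := hFz
    rw [hrep] at this
    simp only [q, Matrix.cons_val_zero, Matrix.cons_val_one, Matrix.cons_val]
    linarith

end A_sep

alias sep := A_sep.sep

namespace A_hull_repr

/- Proof:
convexHull_eq / mem_convexHull_iff..., then drop the indices with zero weight
-/
theorem hull_repr {S : Set V4} {Y : V4} (hY : Y ∈ convexHull ℝ S) :
    ∃ (n : ℕ) (w : Fin n → ℝ) (z : Fin n → V4), 0 < n ∧ (∀ i, 0 < w i) ∧ (∀ i, z i ∈ S) ∧ Y = ∑ i, w i • z i := by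
  classical
  rw [convexHull_eq] at hY
  obtain ⟨ι, t, w, z, hw0, hw1, hz, hY⟩ := hY
  obtain ⟨t', ht'⟩ : ∃ t' : Finset ι, t' = t.filter (fun i => w i ≠ 0) := ⟨_, rfl⟩
  have hsum1 : ∑ i ∈ t', w i = 1 := by
    rw [ht', Finset.sum_filter_ne_zero, hw1]
  have hsumY : ∑ i ∈ t', w i • z i = Y := by
    rw [← hY, Finset.centerMass_eq_of_sum_1 _ _ hw1, ht']
    apply Finset.sum_filter_of_ne
    intro i _ hi h0
    exact hi (by rw [h0, zero_smul])
  have hpos : ∀ i ∈ t', 0 < w i := by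
    intro i hi
    rw [ht', Finset.mem_filter] at hi
    exact lt_of_le_of_ne (hw0 i hi.1) (Ne.symm hi.2)
  have hmem : ∀ i ∈ t', z i ∈ S := by
    intro i hi
    rw [ht', Finset.mem_filter] at hi
    exact hz i hi.1
  let e := t'.equivFin
  refine ⟨t'.card, fun k => w (e.symm k), fun k => z (e.symm k), ?_, ?_, ?_, ?_⟩
  · rw [Finset.card_pos]
    by_contra h
    rw [Finset.not_nonempty_iff_eq_empty] at h
    rw [h] at hsum1
    simp at hsum1
  · intro k
    exact hpos _ (e.symm k).2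
  · intro k
    exact hmem _ (e.symm k).2
  · rw [← hsumY, ← Finset.sum_coe_sort]
    exact (Equiv.sum_comp e.symm (fun i : t' => w i • z i)).symm

end A_hull_repr

alias hull_repr := A_hull_repr.hull_repr

namespace A_same_map

private theorem q_comm' (X Y : V4) : q X Y = q Y X := by unfold q; ring

private theorem q_add_left' (X Y Z : V4) : q (X + Y) Z = q X Z + q Y Z := by
  simp only [q, Pi.add_apply]; ring

private theorem q_smul_left' (c : ℝ) (X Z : V4) : q (c • X) Z = c * q X Z := by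
  simp only [q, Pi.smul_apply, smul_eq_mul]; ring

private theorem q_add_right' (X Y Z : V4) : q X (Y + Z) = q X Y + q X Z := by
  simp only [q, Pi.add_apply]; ring

private theorem q_smul_right' (c : ℝ) (X Z : V4) : q X (c • Z) = c * q X Z := by
  simp only [q, Pi.smul_apply, smul_eq_mul]; ring

/-- an `eta`-preserving linear map into `N^perp` is onto `N^perp` -/
private theorem exists_preimage {N : V4} (hNN : q N N = -1) {L : V3 →ₗ[ℝ] V4}
    (h1 : ∀ x y, q (L x) (L y) = eta x y) (h1N : ∀ x, q (L x) N = 0) (Y : V4) (hY : q Y N = 0) :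
    ∃ w, L w = Y := by
  let M : (V3 × ℝ) →ₗ[ℝ] V4 := L.coprod (LinearMap.toSpanSingleton ℝ V4 N)
  have hM : ∀ w t, M (w, t) = L w + t • N := by
    intro w t
    simp [M, LinearMap.coprod_apply, LinearMap.toSpanSingleton_apply]
  have hinj : Function.Injective M := by
    rw [← LinearMap.ker_eq_bot, LinearMap.ker_eq_bot']
    rintro ⟨w, t⟩ h
    rw [hM] at h
    have ht : t = 0 := by
      have h' : q (L w + t • N) N = 0 := by rw [h]; simp [q]
      rw [q_add_left', q_smul_left', h1N, hNN] at h'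
      linarith
    subst ht
    rw [zero_smul, add_zero] at h
    have hw : ∀ y, eta w y = 0 := by
      intro y
      rw [← h1, h]; simp [q]
    have w0 := hw ![1, 0, 0]
    have w1 := hw ![0, 1, 0]
    have w2 := hw ![0, 0, 1]
    simp [eta] at w0 w1 w2
    have : w = 0 := by
      funext i
      fin_cases i
      · simpa using w0
      · simpa using w1
      · simpa using w2
    rw [this]; rfl
  have hfr : Module.finrank ℝ (V3 × ℝ) = Module.finrank ℝ V4 := by
    simp [V3, V4]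
  have hsur : Function.Surjective M :=
    (LinearMap.injective_iff_surjective_of_finrank_eq_finrank hfr).1 hinj
  obtain ⟨⟨w, t⟩, hwt⟩ := hsur Y
  rw [hM] at hwt
  have ht : t = 0 := by
    have h' : q (L w + t • N) N = 0 := by rw [hwt, hY]
    rw [q_add_left', q_smul_left', h1N, hNN] at h'
    linarith
  subst ht
  exact ⟨w, by simpa using hwt⟩

/-- a quadratic growth argument -/
private theorem zero_of_bdd {A B D C : ℝ}
    (h : ∀ t : ℝ, 1 ≤ t → |t ^ 2 * A + B + (t ^ 2)⁻¹ * D| ≤ C) : A = 0 := by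
  by_contra hA
  have hA' : 0 < |A| := abs_pos.2 hA
  have hC : 0 ≤ C := le_trans (abs_nonneg _) (h 1 le_rfl)
  set K : ℝ := (C + |B| + |D|) / |A| + 1 with hK
  have hK1 : 1 ≤ K := by
    have : 0 ≤ (C + |B| + |D|) / |A| := by positivity
    linarith
  have h1 := h K hK1
  have hKK : K ≤ K ^ 2 := by nlinarith
  have hinv : (K ^ 2)⁻¹ ≤ 1 := inv_le_one_of_one_le₀ (by nlinarith)
  have hinv0 : 0 ≤ (K ^ 2)⁻¹ := by positivity
  have h2 : K ^ 2 * |A| ≤ C + |B| + |D| := by
    have e : K ^ 2 * |A| = |(K ^ 2 * A + B + (K ^ 2)⁻¹ * D) - B - (K ^ 2)⁻¹ * D| := by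
      rw [show (K ^ 2 * A + B + (K ^ 2)⁻¹ * D) - B - (K ^ 2)⁻¹ * D = K ^ 2 * A by ring, abs_mul,
        abs_of_nonneg (by positivity : (0:ℝ) ≤ K ^ 2)]
    rw [e]
    have a1 := abs_sub ((K ^ 2 * A + B + (K ^ 2)⁻¹ * D) - B) ((K ^ 2)⁻¹ * D)
    have a2 := abs_sub (K ^ 2 * A + B + (K ^ 2)⁻¹ * D) B
    have a3 : |(K ^ 2)⁻¹ * D| ≤ |D| := by
      rw [abs_mul, abs_of_nonneg hinv0]
      exact mul_le_of_le_one_left (abs_nonneg _) hinv
    linarith
  have h3 : K * |A| = C + |B| + |D| + |A| := by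
    rw [hK]; field_simp
  nlinarith [mul_le_mul_of_nonneg_right hKK hA'.le]

theorem same_map {G : Set ((V3 ≃ₗ[ℝ] V3) × (V4 ≃ₗ[ℝ] V4))} {F : Set V3} (hFsub : F ⊆ H2) (hF : IsCompact F)
    (hcov : ∀ x ∈ H2, ∃ g ∈ G, g.1 x ∈ F) (hGq : ∀ g ∈ G, ∀ X Y, q (g.2 X) (g.2 Y) = q X Y)
    {N : V4} (hNN : q N N = -1) {L₁ L₂ : V3 →ₗ[ℝ] V4}
    (h1 : ∀ x y, q (L₁ x) (L₁ y) = eta x y) (h2 : ∀ x y, q (L₂ x) (L₂ y) = eta x y)
    (h1N : ∀ x, q (L₁ x) N = 0) (h2N : ∀ x, q (L₂ x) N = 0)
    (e1 : ∀ g ∈ G, ∀ x ∈ H2, L₁ (g.1 x) = g.2 (L₁ x)) (e2 : ∀ g ∈ G, ∀ x ∈ H2, L₂ (g.1 x) = g.2 (L₂ x))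
    {C : ℝ} (hlt : ∀ x ∈ H2, ∀ y ∈ H2, q (L₁ x) (L₂ y) ≤ C) :
    L₁ = L₂ := by
  -- boundedness of `f x = q (L₁ x) (L₂ x)` on `H2`
  have c1 : Continuous L₁ := L₁.continuous_of_finiteDimensional
  have c2 : Continuous L₂ := L₂.continuous_of_finiteDimensional
  have hcont : Continuous (fun x : V3 => q (L₁ x) (L₂ x)) := by
    unfold q
    fun_prop
  obtain ⟨K, hK⟩ := hF.exists_bound_of_continuousOn hcont.continuousOn
  have hb : ∀ x ∈ H2, |q (L₁ x) (L₂ x)| ≤ K := by
    intro x hx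
    obtain ⟨g, hg, hgx⟩ := hcov x hx
    have := hK _ hgx
    rw [e1 g hg x hx, e2 g hg x hx, hGq g hg, Real.norm_eq_abs] at this
    exact this
  -- null vectors
  have hnull : ∀ z z' : V3, eta z z = 0 → eta z' z' = 0 → eta z z' = -2 → z 0 = 1 → z' 0 = 1 →
      q (L₁ z) (L₂ z) = 0 := by
    intro z z' hz hz' hzz' hz0 hz'0
    have hmem : ∀ t : ℝ, 1 ≤ t → ((t / 2) • z + (1 / (2 * t)) • z') ∈ H2 := by
      intro t ht
      have ht0 : 0 < t := by linarith
      constructor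
      · have : eta ((t / 2) • z + (1 / (2 * t)) • z') ((t / 2) • z + (1 / (2 * t)) • z')
            = (t / 2) ^ 2 * eta z z + (1 / (2 * t)) ^ 2 * eta z' z'
              + 2 * ((t / 2) * (1 / (2 * t))) * eta z z' := by
          simp only [eta, Pi.add_apply, Pi.smul_apply, smul_eq_mul]; ring
        rw [this, hz, hz', hzz']
        field_simp
        ring
      · simp only [Pi.add_apply, Pi.smul_apply, smul_eq_mul, hz0, hz'0]
        positivity
    have key : ∀ t : ℝ, 1 ≤ t → |t ^ 2 * (q (L₁ z) (L₂ z) / 4)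
        + (q (L₁ z) (L₂ z') + q (L₁ z') (L₂ z)) / 4 + (t ^ 2)⁻¹ * (q (L₁ z') (L₂ z') / 4)| ≤ K := by
      intro t ht
      have ht0 : t ≠ 0 := by linarith
      have := hb _ (hmem t ht)
      simp only [map_add, map_smul, q_add_left', q_add_right', q_smul_left', q_smul_right'] at this
      convert this using 2
      field_simp
      ring
    have := zero_of_bdd key
    linarith
  -- proportionality on null vectors
  have hprop : ∀ z z' : V3, eta z z = 0 → eta z' z' = 0 → eta z z' = -2 → z 0 = 1 → z' 0 = 1 →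
      (∀ w, eta w w = 0 → eta z w = 0 → w = w 0 • z) → ∃ c : ℝ, L₂ z = c • L₁ z := by
    intro z z' hz hz' hzz' hz0 hz'0 hw
    obtain ⟨w, hww⟩ := exists_preimage hNN h1 h1N (L₂ z) (h2N z)
    have a1 : eta w w = 0 := by rw [← h1, hww, h2, hz]
    have a2 : eta z w = 0 := by rw [← h1, hww]; exact hnull z z' hz hz' hzz' hz0 hz'0
    refine ⟨w 0, ?_⟩
    rw [← hww]
    conv_lhs => rw [hw w a1 a2]
    rw [map_smul]
  obtain ⟨a, ha⟩ := hprop ![1, 1, 0] ![1, -1, 0] (by simp [eta]) (by simp [eta])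
    (by simp [eta]; norm_num) (by simp) (by simp) (by
      intro w hw1 hw2
      simp [eta] at hw1 hw2
      have b1 : w 1 = w 0 := by linarith
      have b2 : w 2 = 0 := by
        have : w 2 * w 2 = 0 := by rw [b1] at hw1; linarith
        exact mul_self_eq_zero.1 this
      funext i
      fin_cases i
      · simp
      · simpa using b1
      · simpa using b2)
  obtain ⟨b, hb'⟩ := hprop ![1, -1, 0] ![1, 1, 0] (by simp [eta]) (by simp [eta])
    (by simp [eta]; norm_num) (by simp) (by simp) (by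
      intro w hw1 hw2
      simp [eta] at hw1 hw2
      have b1 : w 1 = - w 0 := by linarith
      have b2 : w 2 = 0 := by
        have : w 2 * w 2 = 0 := by rw [b1] at hw1; linarith
        exact mul_self_eq_zero.1 this
      funext i
      fin_cases i
      · simp
      · simpa using b1
      · simpa using b2)
  obtain ⟨c, hc⟩ := hprop ![1, 0, 1] ![1, 0, -1] (by simp [eta]) (by simp [eta])
    (by simp [eta]; norm_num) (by simp) (by simp) (by
      intro w hw1 hw2
      simp [eta] at hw1 hw2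
      have b1 : w 2 = w 0 := by linarith
      have b2 : w 1 = 0 := by
        have : w 1 * w 1 = 0 := by rw [b1] at hw1; linarith
        exact mul_self_eq_zero.1 this
      funext i
      fin_cases i
      · simp
      · simpa using b2
      · simpa using b1)
  have hab : a * b = 1 := by
    have := h2 ![1, 1, 0] ![1, -1, 0]
    rw [ha, hb', q_smul_left', q_smul_right', h1] at this
    simp [eta] at this
    linarith
  have hac : a * c = 1 := by
    have := h2 ![1, 1, 0] ![1, 0, 1]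
    rw [ha, hc, q_smul_left', q_smul_right', h1] at this
    simp [eta] at this
    linarith
  have hbc : b * c = 1 := by
    have := h2 ![1, -1, 0] ![1, 0, 1]
    rw [hb', hc, q_smul_left', q_smul_right', h1] at this
    simp [eta] at this
    linarith
  have ha0 : a ≠ 0 := by rintro rfl; simp at hab
  have hc0 : c ≠ 0 := by rintro rfl; simp at hac
  have hbc' : b = c := mul_left_cancel₀ ha0 (hab.trans hac.symm)
  have hab' : a = b := mul_right_cancel₀ hc0 (hac.trans hbc.symm)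
  subst hbc' 
  subst hab'
  have hlin : ∀ x : V3, L₂ x = a • L₁ x := by
    intro x
    have hx : x = ((x 0 - x 2 + x 1) / 2) • (![1, 1, 0] : V3) + ((x 0 - x 2 - x 1) / 2) • (![1, -1, 0] : V3)
        + (x 2) • (![1, 0, 1] : V3) := by
      funext i
      fin_cases i
      · simp; ring
      · simp; ring
      · simp
    conv_lhs => rw [hx]
    conv_rhs => rw [hx]
    simp only [map_add, map_smul, ha, hb', hc, smul_add]
    simp only [smul_smul, mul_comm]
  rcases mul_self_eq_one_iff.1 hab with rfl | rfl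
  · refine LinearMap.ext fun x => ?_
    rw [hlin x, one_smul]
  · exfalso
    set r : ℝ := |C| + 1 with hr
    have hr0 : 0 < r := by positivity
    have hs : Real.sqrt (1 + r ^ 2) ^ 2 = 1 + r ^ 2 := Real.sq_sqrt (by positivity)
    have hspos : 0 < Real.sqrt (1 + r ^ 2) := Real.sqrt_pos.2 (by positivity)
    have hx : (![1, 0, 0] : V3) ∈ H2 := by
      constructor
      · simp [eta]
      · simp
    have hy : (![Real.sqrt (1 + r ^ 2), r, 0] : V3) ∈ H2 := by
      constructor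
      · simp only [eta, Matrix.cons_val_zero, Matrix.cons_val_one, Matrix.cons_val]
        nlinarith
      · simpa using hspos
    have h := hlt _ hx _ hy
    rw [hlin, q_smul_right', h1] at h
    simp [eta] at h
    have hC : C < r := by
      have := le_abs_self C
      linarith
    nlinarith

end A_same_map

alias same_map := A_same_map.same_map

namespace A_to_lemma

/- Proof:
omega A U = q W U with W = ![A 3, 0, 0, -(A 0)]. Claim: if Y satisfies q A Y = 0 and omega A Y = 0 then 0 <= q Y Y: A0^2 + A3^2 > A1^2 + A2^2 (q A A < 0) so (A0,A3) is nonzero, omega A Y = 0 gives (Y0,Y3) = l (A0,A3), q A Y = 0 gives l (A0^2+A3^2) = A1 Y1 + A2 Y2, so by Cauchy-Schwarz l^2 (A0^2+A3^2)^2 <= (A1^2+A2^2)(Y1^2+Y2^2) <= (A0^2+A3^2)(Y1^2+Y2^2), i.e. q Y Y = Y1^2+Y2^2 - l^2 (A0^2+A3^2) >= 0.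
Now suppose omega A U * omega A V <= 0. If omega A V = 0 then the claim for V contradicts q V V < 0. Otherwise t = -(omega A U)/(omega A V) >= 0 and Y = U + t V has omega A Y = 0, q A Y = 0, but q Y Y = q U U + 2 t q U V + t^2 q V V < 0: contradiction with the claim.
-/
theorem to_claim_aux {A Y : V4} (hA : q A A < 0) (hY : q A Y = 0) (hw : omega A Y = 0) :
    0 ≤ q Y Y := by
  unfold q at *
  unfold omega at hw
  have hD : 0 < A 0 ^ 2 + A 3 ^ 2 := by nlinarith [sq_nonneg (A 1), sq_nonneg (A 2)]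
  have h1 : (A 0 ^ 2 + A 3 ^ 2) * (Y 0 ^ 2 + Y 3 ^ 2) = (A 1 * Y 1 + A 2 * Y 2) ^ 2 := by
    have e1 : A 1 * Y 1 + A 2 * Y 2 = A 0 * Y 0 + A 3 * Y 3 := by linarith
    rw [e1]
    have e2 : (A 0 ^ 2 + A 3 ^ 2) * (Y 0 ^ 2 + Y 3 ^ 2)
      = (A 0 * Y 0 + A 3 * Y 3) ^ 2 + (A 0 * Y 3 - A 3 * Y 0) ^ 2 := by ring
    rw [e2, hw]; ring
  have h2 : (A 1 * Y 1 + A 2 * Y 2) ^ 2 ≤ (A 1 ^ 2 + A 2 ^ 2) * (Y 1 ^ 2 + Y 2 ^ 2) := by
    nlinarith [sq_nonneg (A 1 * Y 2 - A 2 * Y 1)]
  have h3 : (A 1 ^ 2 + A 2 ^ 2) * (Y 1 ^ 2 + Y 2 ^ 2)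
      ≤ (A 0 ^ 2 + A 3 ^ 2) * (Y 1 ^ 2 + Y 2 ^ 2) := by
    apply mul_le_mul_of_nonneg_right
    · nlinarith
    · positivity
  have h4 : Y 0 ^ 2 + Y 3 ^ 2 ≤ Y 1 ^ 2 + Y 2 ^ 2 := by
    by_contra hlt
    push Not at hlt
    have := mul_lt_mul_of_pos_left hlt hD
    linarith
  nlinarith

theorem to_lemma {A U V : V4} (hA : q A A < 0) (hU : q A U = 0) (hV : q A V = 0) (hUU : q U U < 0)
    (hVV : q V V < 0) (hUV : q U V ≤ 0) : 0 < omega A U * omega A V := by
  by_contra hcon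
  push Not at hcon
  have hV0 : omega A V ≠ 0 := by
    intro h0
    have := to_claim_aux hA hV h0
    linarith
  set t : ℝ := -(omega A U) / (omega A V) with ht
  have htn : 0 ≤ t := by
    have : t = -(omega A U * omega A V) / (omega A V) ^ 2 := by
      rw [ht]; field_simp
    rw [this]
    apply div_nonneg
    · linarith
    · positivity
  have hw : omega A (U + t • V) = 0 := by
    have e : omega A (U + t • V) = omega A U + t * omega A V := by
      simp only [omega, Pi.add_apply, Pi.smul_apply, smul_eq_mul]; ring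
    rw [e, ht]
    field_simp
    ring
  have hq : q A (U + t • V) = 0 := by
    have e : q A (U + t • V) = q A U + t * q A V := by
      simp only [q, Pi.add_apply, Pi.smul_apply, smul_eq_mul]; ring
    rw [e, hU, hV]; ring
  have h := to_claim_aux hA hq hw
  have e : q (U + t • V) (U + t • V) = q U U + 2 * t * q U V + t ^ 2 * q V V := by
    simp only [q, Pi.add_apply, Pi.smul_apply, smul_eq_mul]; ring
  rw [e] at h
  have h1 : 2 * t * q U V ≤ 0 := mul_nonpos_of_nonneg_of_nonpos (by linarith) hUV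
  have h2 : t ^ 2 * q V V ≤ 0 := mul_nonpos_of_nonneg_of_nonpos (by positivity) hVV.le
  linarith

end A_to_lemma

alias to_lemma := A_to_lemma.to_lemma

namespace A_md_zero

/- Proof:
Let m = max of f over 0..M, attained at j; suppose m > 0. Let j be the smallest index with f j = m; j ≠ 0, j ≠ M. f (j-1) + f(j+1) >= 2 m with both <= m, so f (j-1) = m, contradicting minimality of j.
-/
theorem md_zero {M : ℕ} {f : ℕ → ℝ} (h0 : f 0 = 0) (hM : f M = 0) (hnn : ∀ i ≤ M, 0 ≤ f i)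
    (hc : ∀ i, i + 1 < M → 0 < f (i + 1) → 2 * f (i + 1) ≤ f i + f (i + 2)) : ∀ i ≤ M, f i = 0 := by
  classical
  by_contra hcon
  push Not at hcon
  have hex : ∃ i, i ≤ M ∧ f i ≠ 0 := hcon
  have h1 := Nat.find_spec hex
  have h2 : ∀ k, k < Nat.find hex → ¬ (k ≤ M ∧ f k ≠ 0) := fun k hk => Nat.find_min hex hk
  generalize Nat.find hex = i at h1 h2
  obtain ⟨hiM, hine⟩ := h1
  have hipos : 0 < f i := lt_of_le_of_ne (hnn i hiM) (Ne.symm hine)
  have hi0 : i ≠ 0 := by
    intro h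
    rw [h] at hine
    exact hine h0
  obtain ⟨j, rfl⟩ : ∃ j, i = j + 1 := ⟨i - 1, by omega⟩
  have hj : f j = 0 := by
    by_contra hne
    exact h2 j (by omega) ⟨by omega, hne⟩
  have key : ∀ k, j + 1 + k ≤ M → f (j + k) ≤ f (j + 1 + k) ∧ f (j + 1) ≤ f (j + 1 + k) := by
    intro k
    induction k with
    | zero =>
      intro _
      simp only [add_zero]
      exact ⟨by rw [hj]; exact hipos.le, le_rfl⟩
    | succ k ih =>
      intro hk
      obtain ⟨a1, a2⟩ := ih (by omega)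
      have e1 : j + 1 + k = j + k + 1 := by omega
      have e2 : j + 1 + (k + 1) = j + k + 2 := by omega
      have e3 : j + (k + 1) = j + k + 1 := by omega
      rw [e1] at a1 a2
      rw [e2, e3]
      have a3 : 0 < f (j + k + 1) := lt_of_lt_of_le hipos a2
      have a4 := hc (j + k) (by omega) a3
      constructor <;> linarith
  obtain ⟨_, a⟩ := key (M - (j + 1)) (by omega)
  have e : j + 1 + (M - (j + 1)) = M := by omega
  rw [e, hM] at a
  linarith

end A_md_zero

alias md_zero := A_md_zero.md_zero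

namespace A_q_triangle

theorem q_perp_nonneg {V y w : V4} (hV : q V V = -1) (hy : q y y = -1) (hyV : q y V = 0)
    (hwy : q w y = 0) (hwV : q w V = 0) : 0 ≤ q w w := by
  simp only [q] at *
  set g := y 0 * V 3 - y 3 * V 0 with hg
  set a := V 0 * w 3 - V 3 * w 0 with ha
  set b := w 0 * y 3 - w 3 * y 0 with hb
  have hgpos : 1 ≤ g ^ 2 := by
    have h1 : g ^ 2 = (y 0 ^ 2 + y 3 ^ 2) * (V 0 ^ 2 + V 3 ^ 2) - (y 0 * V 0 + y 3 * V 3) ^ 2 := by
      rw [hg]; ring
    have h2 : y 0 ^ 2 + y 3 ^ 2 = 1 + (y 1 ^ 2 + y 2 ^ 2) := by linarith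
    have h3 : V 0 ^ 2 + V 3 ^ 2 = 1 + (V 1 ^ 2 + V 2 ^ 2) := by linarith
    have h4 : y 0 * V 0 + y 3 * V 3 = y 1 * V 1 + y 2 * V 2 := by linarith
    rw [h1, h2, h3, h4]
    nlinarith [sq_nonneg (y 1 * V 2 - y 2 * V 1), sq_nonneg (y 1), sq_nonneg (y 2),
      sq_nonneg (V 1), sq_nonneg (V 2)]
  have key : g ^ 2 * (-(w 0 * w 0) + w 1 * w 1 + w 2 * w 2 - w 3 * w 3) =
      a ^ 2 + b ^ 2 + (a * y 1 + b * V 1 + g * w 1) ^ 2 + (a * y 2 + b * V 2 + g * w 2) ^ 2 := by
    have e0 : a * y 0 + b * V 0 + g * w 0 = 0 := by rw [ha, hb, hg]; ring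
    have e3 : a * y 3 + b * V 3 + g * w 3 = 0 := by rw [ha, hb, hg]; ring
    have h1 : -((a * y 0 + b * V 0 + g * w 0) ^ 2) + (a * y 1 + b * V 1 + g * w 1) ^ 2
        + (a * y 2 + b * V 2 + g * w 2) ^ 2 - (a * y 3 + b * V 3 + g * w 3) ^ 2
        = a ^ 2 * (-(y 0 * y 0) + y 1 * y 1 + y 2 * y 2 - y 3 * y 3)
        + b ^ 2 * (-(V 0 * V 0) + V 1 * V 1 + V 2 * V 2 - V 3 * V 3)
        + g ^ 2 * (-(w 0 * w 0) + w 1 * w 1 + w 2 * w 2 - w 3 * w 3)
        + 2 * a * b * (-(y 0 * V 0) + y 1 * V 1 + y 2 * V 2 - y 3 * V 3)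
        + 2 * g * a * (-(w 0 * y 0) + w 1 * y 1 + w 2 * y 2 - w 3 * y 3)
        + 2 * g * b * (-(w 0 * V 0) + w 1 * V 1 + w 2 * V 2 - w 3 * V 3) := by ring
    rw [e0, e3, hy, hV, hyV, hwy, hwV] at h1
    linarith
  have h5 : 0 ≤ g ^ 2 * (-(w 0 * w 0) + w 1 * w 1 + w 2 * w 2 - w 3 * w 3) := by
    rw [key]; positivity
  by_contra hneg
  push Not at hneg
  nlinarith

theorem q_perp_cs {V y w z : V4} (hV : q V V = -1) (hy : q y y = -1) (hyV : q y V = 0)
    (hwy : q w y = 0) (hwV : q w V = 0) (hzy : q z y = 0) (hzV : q z V = 0) :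
    (q w z) ^ 2 ≤ q w w * q z z := by
  have h : ∀ t : ℝ, 0 ≤ q z z * (t * t) + (2 * q w z) * t + q w w := by
    intro t
    have h1 : q (w + t • z) y = 0 := by
      simp only [q, Pi.add_apply, Pi.smul_apply, smul_eq_mul] at *
      linear_combination hwy + t * hzy
    have h2 : q (w + t • z) V = 0 := by
      simp only [q, Pi.add_apply, Pi.smul_apply, smul_eq_mul] at *
      linear_combination hwV + t * hzV
    have h3 := q_perp_nonneg hV hy hyV h1 h2
    have h4 : q (w + t • z) (w + t • z) = q z z * (t * t) + (2 * q w z) * t + q w w := by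
      simp only [q, Pi.add_apply, Pi.smul_apply, smul_eq_mul]
      ring
    rwa [h4] at h3
  have h5 := discrim_le_zero h
  unfold discrim at h5
  nlinarith

/- Proof:
V^perp has signature (2,1). Put A = -q x y >= 1, B = -q y z >= 1, x' = x - A y, z' = z - B y: orthogonal to y and V. The orthogonal complement of {y, V} is positive definite (q y y = q V V = -1, q y V = 0, signature (2,2)), so q x' x' = A^2 - 1 >= 0, q z' z' = B^2 - 1, |q x' z'| <= sqrt(A^2-1) sqrt(B^2-1). -q x z = A B - q x' z' lies between A B - sqrt(..)sqrt(..) >= 1 and A B + sqrt(A^2-1)sqrt(B^2-1) <= cosh(r + s) (A <= cosh r, B <= cosh s, monotone).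
-/
theorem q_triangle {V x y z : V4} (hV : q V V = -1) (hx : q x x = -1) (hy : q y y = -1) (hz : q z z = -1)
    (hxV : q x V = 0) (hyV : q y V = 0) (hzV : q z V = 0) {r s : ℝ} (hr : 0 ≤ r) (hs : 0 ≤ s)
    (hxy : q x y ≤ -1) (hyz : q y z ≤ -1) (hxr : -q x y ≤ Real.cosh r) (hys : -q y z ≤ Real.cosh s) :
    q x z ≤ -1 ∧ -q x z ≤ Real.cosh (r + s) := by
  obtain ⟨A, hA⟩ : ∃ A, A = -q x y := ⟨_, rfl⟩
  obtain ⟨B, hB⟩ : ∃ B, B = -q y z := ⟨_, rfl⟩
  have hA1 : 1 ≤ A := by linarith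
  have hB1 : 1 ≤ B := by linarith
  have hAr : A ≤ Real.cosh r := by linarith
  have hBs : B ≤ Real.cosh s := by linarith
  have hqxy : q x y = -A := by linarith
  have hqyz : q y z = -B := by linarith
  obtain ⟨x', hx'⟩ : ∃ x', x' = x + (-A) • y := ⟨_, rfl⟩
  obtain ⟨z', hz'⟩ : ∃ z', z' = z + (-B) • y := ⟨_, rfl⟩
  have h1 : q x' y = 0 := by
    rw [hx']
    simp only [q, Pi.add_apply, Pi.smul_apply, smul_eq_mul] at *
    linear_combination hqxy + (-A) * hy
  have h2 : q x' V = 0 := by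
    rw [hx']
    simp only [q, Pi.add_apply, Pi.smul_apply, smul_eq_mul] at *
    linear_combination hxV + (-A) * hyV
  have h3 : q z' y = 0 := by
    rw [hz']
    simp only [q, Pi.add_apply, Pi.smul_apply, smul_eq_mul] at *
    linear_combination hqyz + (-B) * hy
  have h4 : q z' V = 0 := by
    rw [hz']
    simp only [q, Pi.add_apply, Pi.smul_apply, smul_eq_mul] at *
    linear_combination hzV + (-B) * hyV
  have h5 : q x' x' = A ^ 2 - 1 := by
    rw [hx']
    simp only [q, Pi.add_apply, Pi.smul_apply, smul_eq_mul] at *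
    linear_combination hx + (-2 * A) * hqxy + A ^ 2 * hy
  have h6 : q z' z' = B ^ 2 - 1 := by
    rw [hz']
    simp only [q, Pi.add_apply, Pi.smul_apply, smul_eq_mul] at *
    linear_combination hz + (-2 * B) * hqyz + B ^ 2 * hy
  have h7 : q x' z' = q x z + A * B := by
    rw [hx', hz']
    simp only [q, Pi.add_apply, Pi.smul_apply, smul_eq_mul] at *
    linear_combination (-B) * hqxy + (-A) * hqyz + A * B * hy
  have h8 := q_perp_cs hV hy hyV h1 h2 h3 h4
  rw [h5, h6, h7] at h8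
  obtain ⟨P, hP⟩ : ∃ P, P = q x z + A * B := ⟨_, rfl⟩
  rw [← hP] at h8
  have hxz : q x z = P - A * B := by linarith
  rw [hxz]
  have hAB : 1 ≤ A * B := by nlinarith
  constructor
  · have h9 : P ^ 2 ≤ (A * B - 1) ^ 2 := by nlinarith [sq_nonneg (A - B)]
    have h10 : P ≤ A * B - 1 := by
      exact (abs_le_of_sq_le_sq' h9 (by linarith)).2
    linarith
  · have hsr : 0 ≤ Real.sinh r := Real.sinh_nonneg_iff.2 hr
    have hss : 0 ≤ Real.sinh s := Real.sinh_nonneg_iff.2 hs
    have h11 : A ^ 2 - 1 ≤ Real.sinh r ^ 2 := by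
      have := Real.cosh_sq r
      nlinarith
    have h12 : B ^ 2 - 1 ≤ Real.sinh s ^ 2 := by
      have := Real.cosh_sq s
      nlinarith
    have h13 : P ^ 2 ≤ (Real.sinh r * Real.sinh s) ^ 2 := by
      rw [mul_pow]
      refine h8.trans (mul_le_mul h11 h12 ?_ (sq_nonneg _))
      nlinarith
    have h14 : -P ≤ Real.sinh r * Real.sinh s := by
      have := abs_le_of_sq_le_sq' h13 (mul_nonneg hsr hss)
      linarith [this.1]
    rw [Real.cosh_add]
    have h15 : A * B ≤ Real.cosh r * Real.cosh s :=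
      mul_le_mul hAr hBs (by linarith) (by linarith)
    linarith

end A_q_triangle

alias q_triangle := A_q_triangle.q_triangle

namespace A_jensen_cosh

/- Proof:
Convexity of cosh: sum cosh(d_i) >= M cosh((sum d_i)/M) (ConvexOn.map_sum_le or inner_le_nnorm_mul..; e.g. Real.convexOn_cosh? if missing: cosh is convex by its second derivative), and cosh is increasing on [0,inf) with (sum d_i)/M >= T/M >= 0.
-/
theorem jensen_cosh {M : ℕ} (hM : 0 < M) {d : ℕ → ℝ} {T : ℝ} (hT : 0 ≤ T) (hd : ∀ i, 0 ≤ d i)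
    (hs : T ≤ ∑ i ∈ Finset.range M, d i) :
    (M : ℝ) * (Real.cosh (T / M) - 1) ≤ ∑ i ∈ Finset.range M, (Real.cosh (d i) - 1) := by
  have hMr : (0 : ℝ) < M := by exact_mod_cast hM
  have hconv : ConvexOn ℝ Set.univ Real.cosh := by
    have h1 : ConvexOn ℝ Set.univ (fun x : ℝ => Real.exp x) := convexOn_exp
    have h2 : ConvexOn ℝ Set.univ (fun x : ℝ => Real.exp (-x)) := by
      refine ⟨convex_univ, ?_⟩
      intro x _ y _ a b ha hb hab
      have h := convexOn_exp.2 (Set.mem_univ (-x)) (Set.mem_univ (-y)) ha hb hab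
      have he : -(a • x + b • y) = a • (-x) + b • (-y) := by
        simp only [smul_eq_mul]; ring
      show Real.exp (-(a • x + b • y)) ≤ a • Real.exp (-x) + b • Real.exp (-y)
      rw [he]
      exact h
    have h3 := (h1.add h2).smul (c := (1 / 2 : ℝ)) (by norm_num)
    refine h3.congr ?_
    intro x _
    simp only [Pi.add_apply, Pi.smul_apply, smul_eq_mul]
    rw [Real.cosh_eq]
    ring
  have hJ := hconv.map_sum_le (t := Finset.range M) (w := fun _ => (1 / (M : ℝ))) (p := d)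
    (fun i _ => by positivity)
    (by
      rw [Finset.sum_const, Finset.card_range, nsmul_eq_mul]
      field_simp)
    (fun i _ => Set.mem_univ _)
  simp only [smul_eq_mul] at hJ
  rw [← Finset.mul_sum, ← Finset.mul_sum] at hJ
  have hle : T / M ≤ 1 / (M : ℝ) * ∑ i ∈ Finset.range M, d i := by
    rw [div_eq_mul_one_div, mul_comm]
    exact mul_le_mul_of_nonneg_left hs (by positivity)
  have hT0 : 0 ≤ T / M := by positivity
  have hc : Real.cosh (T / M) ≤ Real.cosh (1 / (M : ℝ) * ∑ i ∈ Finset.range M, d i) := by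
    rw [Real.cosh_le_cosh, abs_of_nonneg hT0, abs_of_nonneg (hT0.trans hle)]
    exact hle
  have hfin : (M : ℝ) * Real.cosh (T / M) ≤ ∑ i ∈ Finset.range M, Real.cosh (d i) := by
    have h4 := mul_le_mul_of_nonneg_left (hc.trans hJ) hMr.le
    have h5 : (M : ℝ) * (1 / (M : ℝ) * ∑ i ∈ Finset.range M, Real.cosh (d i))
        = ∑ i ∈ Finset.range M, Real.cosh (d i) := by
      field_simp
    rw [h5] at h4
    exact h4
  rw [Finset.sum_sub_distrib, Finset.sum_const, Finset.card_range, nsmul_eq_mul]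
  linarith

end A_jensen_cosh

alias jensen_cosh := A_jensen_cosh.jensen_cosh

namespace A_q_busemann

/-- the orthogonal complement of two orthogonal timelike vectors is positive -/
theorem q_busemann_nonneg {z V w : V4} (hz : q z z = -1) (hV : q V V = -1) (hzV : q z V = 0)
    (hwz : q w z = 0) (hwV : q w V = 0) : 0 ≤ q w w := by
  unfold q at hz hV hzV hwz hwV ⊢
  have hD2 : 1 ≤ (z 0 * V 3 - z 3 * V 0) ^ 2 := by
    have e : (z 0 * V 3 - z 3 * V 0) ^ 2 =
        (z 0 * z 0 + z 3 * z 3) * (V 0 * V 0 + V 3 * V 3) - (z 0 * V 0 + z 3 * V 3) ^ 2 := by ring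
    have e1 : z 0 * z 0 + z 3 * z 3 = 1 + (z 1 ^ 2 + z 2 ^ 2) := by linarith
    have e2 : V 0 * V 0 + V 3 * V 3 = 1 + (V 1 ^ 2 + V 2 ^ 2) := by linarith
    have e3 : z 0 * V 0 + z 3 * V 3 = z 1 * V 1 + z 2 * V 2 := by linarith
    rw [e, e1, e2, e3]
    nlinarith [sq_nonneg (z 1 * V 2 - z 2 * V 1), sq_nonneg (z 1), sq_nonneg (z 2),
      sq_nonneg (V 1), sq_nonneg (V 2)]
  have hD : z 0 * V 3 - z 3 * V 0 ≠ 0 := by
    intro h
    rw [h] at hD2
    norm_num at hD2
  obtain ⟨a, b, ha, hb⟩ : ∃ a b : ℝ, a * z 0 + b * V 0 = w 0 ∧ a * z 3 + b * V 3 = w 3 := by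
    refine ⟨(w 0 * V 3 - w 3 * V 0) / (z 0 * V 3 - z 3 * V 0),
      (z 0 * w 3 - z 3 * w 0) / (z 0 * V 3 - z 3 * V 0), ?_, ?_⟩
    · rw [div_mul_eq_mul_div, div_mul_eq_mul_div, ← add_div, div_eq_iff hD]
      ring
    · rw [div_mul_eq_mul_div, div_mul_eq_mul_div, ← add_div, div_eq_iff hD]
      ring
  have key : -(w 0 * w 0) + w 1 * w 1 + w 2 * w 2 - w 3 * w 3 =
      (w 1 - a * z 1 - b * V 1) ^ 2 + (w 2 - a * z 2 - b * V 2) ^ 2 + a ^ 2 + b ^ 2 := by
    have k1 : w 0 - a * z 0 - b * V 0 = 0 := by linarith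
    have k2 : w 3 - a * z 3 - b * V 3 = 0 := by linarith
    linear_combination (-(w 0 - a * z 0 - b * V 0)) * k1 - (w 3 - a * z 3 - b * V 3) * k2
      + 2 * a * hwz + 2 * b * hwV - a ^ 2 * hz - b ^ 2 * hV - 2 * a * b * hzV
  rw [key]
  positivity

theorem q_busemann_lin (x y z w : V4) (a b : ℝ) :
    q (x - a • y) (z - b • w) = q x z - b * q x w - a * q y z + a * b * q y w := by
  unfold q
  simp only [Pi.sub_apply, Pi.smul_apply, smul_eq_mul]
  ring

theorem q_busemann_symm (x y : V4) : q x y = q y x := by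
  unfold q
  ring

theorem q_busemann_lin1 (x y z : V4) (a : ℝ) : q (x - a • y) z = q x z - a * q y z := by
  unfold q
  simp only [Pi.sub_apply, Pi.smul_apply, smul_eq_mul]
  ring

/- Proof:
V^perp has signature (2,1); let A = -q z0 z1 (>= 1 as both have negative product with the null vector xi; in any case the following works). Decompose z1 = A z0 + u with u orthogonal to z0 and V, q u u = A^2 - 1 (the complement of {z0,V} is positive definite, so A^2 >= 1), xi = a z0 + p, a = -q z0 xi > 0, p orthogonal to z0, V, q p p = a^2. -q z1 xi = A a - q u p <= |A| a + sqrt(A^2-1) a. If A >= 1: <= (A + sqrt(A^2-1)) a <= e^T a as A <= cosh T. If A <= -1: -q z1 xi = A a - q u p <= A a + sqrt(A^2-1) a < 0 contradicts h1.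
-/
theorem q_busemann {V z₀ z₁ ξ : V4} (hV : q V V = -1) (h0 : q z₀ z₀ = -1) (h1 : q z₁ z₁ = -1) (hξ : q ξ ξ = 0)
    (h0V : q z₀ V = 0) (h1V : q z₁ V = 0) (hξV : q ξ V = 0) (h0ξ : q z₀ ξ < 0) (h1ξ : q z₁ ξ < 0)
    {T : ℝ} (hT : 0 ≤ T) (hTT : -q z₀ z₁ ≤ Real.cosh T) : -q z₁ ξ ≤ Real.exp T * -q z₀ ξ := by
  set A : ℝ := -q z₀ z₁ with hA
  set a : ℝ := -q z₀ ξ with ha
  have ha0 : 0 < a := by linarith
  have hz01 : q z₀ z₁ = -A := by rw [hA]; ring
  have hz0ξ : q z₀ ξ = -a := by rw [ha]; ring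
  have hz10 : q z₁ z₀ = -A := by rw [q_busemann_symm, hz01]
  have hξ0 : q ξ z₀ = -a := by rw [q_busemann_symm, hz0ξ]
  -- the components orthogonal to z₀ and V
  have huz : q (z₁ - A • z₀) z₀ = 0 := by rw [q_busemann_lin1, hz10, h0]; ring
  have huV : q (z₁ - A • z₀) V = 0 := by rw [q_busemann_lin1, h1V, h0V]; ring
  have hpz : q (ξ - a • z₀) z₀ = 0 := by rw [q_busemann_lin1, hξ0, h0]; ring
  have hpV : q (ξ - a • z₀) V = 0 := by rw [q_busemann_lin1, hξV, h0V]; ring
  have huu : q (z₁ - A • z₀) (z₁ - A • z₀) = A ^ 2 - 1 := by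
    rw [q_busemann_lin, h1, hz10, hz01, h0]; ring
  have hpp : q (ξ - a • z₀) (ξ - a • z₀) = a ^ 2 := by
    rw [q_busemann_lin, hξ, hξ0, hz0ξ, h0]; ring
  set B : ℝ := q (z₁ - A • z₀) (ξ - a • z₀) with hB
  have hB' : q z₁ ξ = B - A * a := by
    rw [hB, q_busemann_lin, hz10, hz0ξ, h0]; ring
  -- Cauchy-Schwarz
  have hnn : ∀ t : ℝ, 0 ≤ q ((z₁ - A • z₀) - t • (ξ - a • z₀)) ((z₁ - A • z₀) - t • (ξ - a • z₀)) := by
    intro t
    refine q_busemann_nonneg h0 hV h0V ?_ ?_
    · rw [q_busemann_lin1, huz, hpz]; ring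
    · rw [q_busemann_lin1, huV, hpV]; ring
  have hquad : ∀ t : ℝ, 0 ≤ (A ^ 2 - 1) - 2 * t * B + t ^ 2 * a ^ 2 := by
    intro t
    have h := hnn t
    rw [q_busemann_lin, huu, hpp, ← hB, q_busemann_symm (ξ - a • z₀) (z₁ - A • z₀), ← hB] at h
    linarith
  have hA1 : 1 ≤ A ^ 2 := by
    have := hquad 0
    linarith
  have hCS : B ^ 2 ≤ (A ^ 2 - 1) * a ^ 2 := by
    have h := hquad (B / a ^ 2)
    have ha2 : 0 < a ^ 2 := by positivity
    have e : (A ^ 2 - 1) - 2 * (B / a ^ 2) * B + (B / a ^ 2) ^ 2 * a ^ 2 =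
        (A ^ 2 - 1) - B ^ 2 / a ^ 2 := by
      field_simp
      ring
    rw [e] at h
    have h2 : B ^ 2 / a ^ 2 ≤ A ^ 2 - 1 := by linarith
    rwa [div_le_iff₀ ha2] at h2
  have hr : 0 ≤ Real.sqrt (A ^ 2 - 1) := Real.sqrt_nonneg _
  have hr2 : Real.sqrt (A ^ 2 - 1) ^ 2 = A ^ 2 - 1 := Real.sq_sqrt (by linarith)
  have hBabs : |B| ≤ Real.sqrt (A ^ 2 - 1) * a := by
    apply abs_le_of_sq_le_sq _ (by positivity)
    rw [mul_pow, hr2]
    exact hCS
  have hB1 := (abs_le.1 hBabs).1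
  -- the case distinction
  have hApos : 1 ≤ A := by
    by_contra hcon
    push Not at hcon
    have hAn : A ≤ -1 := by nlinarith
    have h3 : Real.sqrt (A ^ 2 - 1) ≤ -A := by
      apply Real.sqrt_le_iff.2 ⟨by linarith, by nlinarith⟩
    have h4 : Real.sqrt (A ^ 2 - 1) * a ≤ -A * a := mul_le_mul_of_nonneg_right h3 ha0.le
    linarith
  have hcosh : 1 ≤ Real.cosh T := Real.one_le_cosh T
  have hs : Real.sqrt (A ^ 2 - 1) ≤ Real.sinh T := by
    apply Real.sqrt_le_iff.2 ⟨Real.sinh_nonneg_iff.2 hT, ?_⟩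
    rw [Real.sinh_sq]
    nlinarith
  have h5 : A + Real.sqrt (A ^ 2 - 1) ≤ Real.exp T := by
    have : Real.exp T = Real.cosh T + Real.sinh T := (Real.cosh_add_sinh T).symm
    rw [this]
    linarith
  have h6 : (A + Real.sqrt (A ^ 2 - 1)) * a ≤ Real.exp T * a := mul_le_mul_of_nonneg_right h5 ha0.le
  rw [hB']
  linarith

end A_q_busemann

alias q_busemann := A_q_busemann.q_busemann

namespace A_level

/- Proof:
The function t -> sinh t - s cosh t at 0 is -s <= -e; let sig = arcosh(1/c) >= 0 (some sig >= 0 with cosh sig = 1/c, then sinh sig = s/c since c^2+s^2=1): there it is 0 > -e. Intermediate value theorem: t in [0, sig] with value -e. cosh t <= cosh sig = 1/c.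
-/
theorem level {s c e : ℝ} (hs : 0 < s) (hc : 0 < c) (h : c ^ 2 + s ^ 2 = 1) (he : 0 < e) (hes : e ≤ s) :
    ∃ t : ℝ, 0 ≤ t ∧ Real.sinh t = s * Real.cosh t - e ∧ Real.cosh t ≤ 1 / c := by
  obtain ⟨σ, hσ⟩ : ∃ σ, σ = Real.arsinh (s / c) := ⟨_, rfl⟩
  have h1 : Real.sinh σ = s / c := by rw [hσ, Real.sinh_arsinh]
  have h0 : 0 ≤ σ := by
    rw [← Real.sinh_nonneg_iff, h1]
    positivity
  have h2 : Real.cosh σ = 1 / c := by
    have e1 : Real.cosh σ ^ 2 = (1 / c) ^ 2 := by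
      rw [Real.cosh_sq, h1]
      field_simp
      linarith
    have e2 : 0 ≤ Real.cosh σ := (Real.cosh_pos σ).le
    have e3 : 0 ≤ 1 / c := by positivity
    rwa [sq_eq_sq₀ e2 e3] at e1
  have hcont : ContinuousOn (fun t => Real.sinh t - s * Real.cosh t) (Set.Icc 0 σ) := by
    apply Continuous.continuousOn
    fun_prop
  have hivt := intermediate_value_Icc h0 hcont
  have hmem : -e ∈ Set.Icc (Real.sinh 0 - s * Real.cosh 0) (Real.sinh σ - s * Real.cosh σ) := by
    rw [Real.sinh_zero, Real.cosh_zero, h1, h2]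
    constructor
    · linarith
    · have : s / c - s * (1 / c) = 0 := by ring
      rw [this]
      linarith
  obtain ⟨t, ht, hte⟩ := hivt hmem
  refine ⟨t, ht.1, ?_, ?_⟩
  · simp only at hte
    linarith
  · rw [← h2, Real.cosh_le_cosh, abs_of_nonneg ht.1, abs_of_nonneg h0]
    exact ht.2

end A_level

alias level := A_level.level

namespace A_cosh_small

/- Proof:
2(cosh y - 1)/y^2 -> 1 as y -> 0; e.g. 2(cosh y - 1) = 4 sinh(y/2)^2 and sinh(u) <= u cosh u, cosh continuous at 0.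
-/
theorem cosh_small {η : ℝ} (hη : 0 < η) : ∃ δ : ℝ, 0 < δ ∧ δ ≤ 1 ∧ ∀ y : ℝ, 0 ≤ y → y ≤ δ →
    Real.sqrt (2 * (Real.cosh y - 1)) ≤ (1 + η) * y := by
  have hc : Filter.Tendsto Real.cosh (nhds 0) (nhds (Real.cosh 0)) := Real.continuous_cosh.continuousAt
  rw [Real.cosh_zero] at hc
  have he : ∀ᶠ y in nhds (0 : ℝ), Real.cosh y < 1 + η := hc.eventually_lt_const (by linarith)
  obtain ⟨ε, hε, hball⟩ := Metric.eventually_nhds_iff.1 he
  refine ⟨min (ε / 2) 1, lt_min (by linarith) one_pos, min_le_right _ _, ?_⟩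
  intro y hy0 hy1
  have hyε : y ≤ ε / 2 := hy1.trans (min_le_left _ _)
  have hcosh : Real.cosh (y / 2) < 1 + η := by
    apply hball
    rw [Real.dist_eq, sub_zero, abs_of_nonneg (by linarith)]
    linarith
  have h1 : 2 * (Real.cosh y - 1) = (2 * Real.sinh (y / 2)) ^ 2 := by
    have h := Real.cosh_two_mul (y / 2)
    have h2 := Real.cosh_sq (y / 2)
    rw [show 2 * (y / 2) = y by ring] at h
    rw [h, h2]
    ring
  have hs0 : 0 ≤ Real.sinh (y / 2) := Real.sinh_nonneg_iff.2 (by linarith)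
  rw [h1, Real.sqrt_sq (by linarith)]
  have hle : Real.sinh (y / 2) ≤ (y / 2) * Real.cosh (y / 2) := by
    have hmono : MonotoneOn (fun u : ℝ => u * Real.cosh u - Real.sinh u) (Set.Ici 0) := by
      apply monotoneOn_of_deriv_nonneg (convex_Ici 0)
      · exact ((continuous_id.mul Real.continuous_cosh).sub Real.continuous_sinh).continuousOn
      · intro u _
        exact ((differentiableAt_id.mul Real.differentiable_cosh.differentiableAt).sub
          Real.differentiable_sinh.differentiableAt).differentiableWithinAt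
      · intro u hu
        rw [interior_Ici] at hu
        have hd : HasDerivAt (fun u : ℝ => u * Real.cosh u - Real.sinh u)
            (1 * Real.cosh u + u * Real.sinh u - Real.cosh u) u :=
          ((hasDerivAt_id u).mul (Real.hasDerivAt_cosh u)).sub (Real.hasDerivAt_sinh u)
        rw [hd.deriv]
        have hu0 : 0 < u := hu
        have := Real.sinh_pos_iff.2 hu0
        nlinarith [mul_pos hu0 this]
    have h2 := hmono (Set.mem_Ici.2 le_rfl) (Set.mem_Ici.2 (by linarith : (0 : ℝ) ≤ y / 2))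
      (by linarith)
    simp only [Real.sinh_zero, Real.cosh_zero] at h2
    linarith
  calc 2 * Real.sinh (y / 2) ≤ 2 * ((y / 2) * Real.cosh (y / 2)) := by linarith
    _ = Real.cosh (y / 2) * y := by ring
    _ ≤ (1 + η) * y := mul_le_mul_of_nonneg_right hcosh.le hy0

end A_cosh_small

alias cosh_small := A_cosh_small.cosh_small

end Helper935.Poly
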