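import Pool.Agent.Helper935_AdS.PLocB

namespace Helper935.Poly

namespace A_lin_open6

/- Proof:
For z in V3 near z0 put r(z) = sqrt(-eta z z) > 0 (z0 in H2: eta z0 z0 = -1, z0 0 > 0, both conditions open); z/r(z) in H2 and z/r(z) -> z0 as z -> z0, so z/r(z) in O and f z = r(z) f (z/r(z)) = 0 for all z in a neighbourhood of z0. A linear functional vanishing on an open nonempty set is 0.
-/
theorem lin_open6 {O : Set V3} (hO : IsOpen O) {z₀ : V3} (hz : z₀ ∈ H2) (hzO : z₀ ∈ O) {f : V3 →ₗ[ℝ] ℝ}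
    (hf : ∀ z ∈ H2, z ∈ O → f z = 0) : f = 0 := by
  obtain ⟨h1, h2⟩ := hz
  have hec : Continuous (fun z : V3 => eta z z) := by
    unfold eta
    fun_prop
  have hsmul : ∀ (c : ℝ) (z : V3), eta (c • z) (c • z) = c ^ 2 * eta z z := by
    intro c z
    simp only [eta, Pi.smul_apply, smul_eq_mul]
    ring
  -- the normalisation
  set g : V3 → V3 := fun z => (Real.sqrt (-(eta z z)))⁻¹ • z with hg
  have hgz : g z₀ = z₀ := by
    rw [hg]
    simp only [h1, neg_neg, Real.sqrt_one, inv_one, one_smul]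
  have hgc : ContinuousAt g z₀ := by
    rw [hg]
    have hcs : Continuous (fun z : V3 => Real.sqrt (-(eta z z))) := Real.continuous_sqrt.comp hec.neg
    have hci : ContinuousAt (fun z : V3 => (Real.sqrt (-(eta z z)))⁻¹) z₀ := by
      refine ContinuousAt.inv₀ hcs.continuousAt ?_
      rw [h1]
      simp
    have hid : ContinuousAt (fun z : V3 => z) z₀ := continuousAt_id
    exact ContinuousAt.smul hci hid
  have hN1 : ∀ᶠ z in nhds z₀, eta z z < 0 :=
    hec.continuousAt.eventually_lt continuousAt_const (by rw [h1]; norm_num)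
  have hN2 : ∀ᶠ z : V3 in nhds z₀, 0 < z 0 := by
    have hc0 : Continuous (fun z : V3 => z 0) := continuous_apply 0
    exact continuousAt_const.eventually_lt hc0.continuousAt h2
  have hN3 : ∀ᶠ z in nhds z₀, g z ∈ O := by
    apply hgc
    rw [hgz]
    exact hO.mem_nhds hzO
  have hN : ∀ᶠ z in nhds z₀, f z = 0 := by
    filter_upwards [hN1, hN2, hN3] with z hz1 hz2 hz3
    have hpos : 0 < Real.sqrt (-(eta z z)) := Real.sqrt_pos.2 (by linarith)
    have hmem : g z ∈ H2 := by
      refine ⟨?_, ?_⟩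
      · rw [hg]
        simp only
        rw [hsmul, inv_pow, Real.sq_sqrt (by linarith)]
        have : eta z z ≠ 0 := hz1.ne
        field_simp
      · rw [hg]
        simp only [Pi.smul_apply, smul_eq_mul]
        positivity
    have h3 := hf _ hmem hz3
    rw [hg] at h3
    simp only [map_smul, smul_eq_mul] at h3
    rcases mul_eq_zero.1 h3 with h4 | h4
    · exact absurd h4 (inv_ne_zero hpos.ne')
    · exact h4
  have h0 : f z₀ = 0 := hN.self_of_nhds
  apply LinearMap.ext
  intro v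
  rw [LinearMap.zero_apply]
  have hline : Filter.Tendsto (fun t : ℝ => z₀ + t • v) (nhdsWithin 0 {0}ᶜ) (nhds z₀) := by
    have hc : Continuous (fun t : ℝ => z₀ + t • v) := by fun_prop
    have := hc.tendsto 0
    simp only [zero_smul, add_zero] at this
    exact this.mono_left nhdsWithin_le_nhds
  have h5 := hline.eventually hN
  have h6 : ∀ᶠ t : ℝ in nhdsWithin 0 {0}ᶜ, t ≠ 0 := eventually_mem_nhdsWithin
  obtain ⟨t, ht, ht0⟩ := (h5.and h6).exists
  rw [map_add, map_smul, h0, zero_add, smul_eq_mul] at ht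
  exact (mul_eq_zero.1 ht).resolve_left ht0

end A_lin_open6

alias lin_open6 := A_lin_open6.lin_open6

namespace A_side6

private theorem eta_neg_right6 (x v : V3) : eta x (-v) = -eta x v := by
  simp only [eta, Pi.neg_apply]; ring

private theorem eta_neg_neg6 (v w : V3) : eta (-v) (-w) = eta v w := by
  simp only [eta, Pi.neg_apply]; ring

private theorem exists_pos6 {x : V3} (hx : x ∈ H2) {δ : V3 →ₗ[ℝ] ℝ} (hδ : δ ≠ 0)
    (hδx : δ x = 0) : ∃ e, UT x e ∧ 0 < δ e := by
  by_contra hcon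
  push Not at hcon
  have hz : ∀ e, UT x e → δ e = 0 := by
    intro e he
    have h1 := hcon e he
    have he' : UT x (-e) := ⟨by rw [eta_neg_right6, he.1, neg_zero], by rw [eta_neg_neg6]; exact he.2⟩
    have h2 := hcon (-e) he'
    rw [map_neg] at h2
    linarith
  obtain ⟨v, hv⟩ := exists_UT hx
  obtain ⟨w, hw⟩ := exists_ON hx hv
  have hwUT : UT x w := ⟨hw.2.1, hw.2.2.2.1⟩
  apply hδ
  refine LinearMap.ext fun z => ?_
  rw [LinearMap.zero_apply]
  have hxx : eta x x = -1 := hx.1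
  have hu : eta x (z + eta x z • x) = 0 := by
    have h1 : eta x (z + eta x z • x) = eta x z + eta x z * eta x x := by
      simp only [eta, Pi.add_apply, Pi.smul_apply, smul_eq_mul]; ring
    rw [h1, hxx]; ring
  have h2 := tangent_expand hx hw hu
  have h3 : δ (z + eta x z • x) = 0 := by
    rw [h2, map_add, map_smul, map_smul, hz v hv, hz w hwUT, smul_zero, smul_zero, add_zero]
  rw [map_add, map_smul, hδx, smul_zero, add_zero] at h3
  exact h3

/- TARGET -/
theorem side6 {O : Set V3} (hO : IsOpen O) {x : V3} (hx : x ∈ H2) (hxO : x ∈ O) {δ δ₂ : V3 →ₗ[ℝ] ℝ} (hδ : δ ≠ 0)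
    (hδx : δ x = 0) (hδ₂ : δ₂ ≠ 0) : ∃ z ∈ H2, z ∈ O ∧ 0 < δ z ∧ δ₂ z ≠ 0 := by
  obtain ⟨e, he, hpos⟩ := exists_pos6 hx hδ hδx
  have hcont : Continuous fun s : ℝ => geo x e s := by
    unfold geo
    exact (Real.continuous_cosh.smul continuous_const).add
      (Real.continuous_sinh.smul continuous_const)
  have h0 : geo x e 0 = x := (geo_zero x e).1
  have hev : ∀ᶠ s in nhds (0 : ℝ), geo x e s ∈ O :=
    hcont.continuousAt.eventually (hO.mem_nhds (by show geo x e 0 ∈ O; rw [h0]; exact hxO))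
  have hev2 : ∀ᶠ s in nhdsWithin (0 : ℝ) (Set.Ioi 0), geo x e s ∈ O ∧ 0 < s :=
    (hev.filter_mono nhdsWithin_le_nhds).and self_mem_nhdsWithin
  obtain ⟨s, hsO, hs⟩ := hev2.exists
  have hz1 : geo x e s ∈ H2 := geo_mem hx he s
  have hδ1 : 0 < δ (geo x e s) := by
    unfold geo
    rw [map_add, map_smul, map_smul, hδx, smul_zero, zero_add, smul_eq_mul]
    exact mul_pos (Real.sinh_pos_iff.2 hs) hpos
  by_contra hcon
  push Not at hcon
  apply hδ₂
  refine lin_open6 (O := O ∩ {z | 0 < δ z}) (hO.inter (isOpen_lt continuous_const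
    (LinearMap.continuous_of_finiteDimensional δ))) hz1 ⟨hsO, hδ1⟩ fun z hz hzO => ?_
  exact hcon z hz hzO.1 hzO.2

end A_side6

alias side6 := A_side6.side6

namespace A_step6

/- Proof:
(The set {w : -eta y w < r2} is open, contains y and x by hxy.) Case 1 of LocStr at y: U = U' on {z in H2, -eta y z < r1}, r1 > 1. The hypothesis hx' gives that x is close to y: -eta y x < r for every... precisely use hnear: for every rr > 1 there is a point x with the properties (x in H2, -eta y x < rr, delta x = 0, and the local property P(x)): P(x) := ∃ r > 1, ∀ z ∈ H2, -eta x z < r → 0 ≤ δ z → U z = l z ∧ U' z = l' z ∧ U z - U' z = δ z. Take x for rr = r1. O = {z : -eta y z < r1} ∩ {z : -eta x z < r} is open and contains x (-eta x x = 1 < r). side6 (delta2 := delta): z in H2 cap O with delta z > 0: U z - U' z = delta z > 0 but U z = U' z: contradiction.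
Case 2 of LocStr at y: delta2, l2, l2', r2 as in the definition. Take x for rr = r2, O as before with r2. side6 gives z2 in H2 cap O, delta z2 > 0, delta2 z2 ≠ 0.
2a: delta2 z2 > 0: on the open set O' = O ∩ {delta > 0} ∩ {delta2 > 0} (contains z2) for w in H2: U w = l w = l2 w, U' w = l' w = l2' w, U w - U' w = delta w = delta2 w. lin_open6: l = l2, l' = l2', delta = delta2. So the goal holds with r = r2; U y = U' y since delta y... (delta y = 0 because delta2 y = 0).
2b: delta2 z2 < 0: on O' = O ∩ {delta > 0} ∩ {delta2 < 0}: U w - U' w = delta w > 0, so the alternative (U = U' where delta2 <= 0) is impossible at z2; so we have m, m', c > 0: U w = m w = l w, U' w = m' w = l' w, delta w = -(c * delta2 w). lin_open6: l = m, l' = m', delta = -c delta2. For z in H2, -eta y z < r2, 0 <= delta z: delta2 z <= 0, so U z = m z = l z etc. and U z - U' z = -(c delta2 z) = delta z.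
-/
theorem step6 {U U' : V3 → ℝ} {δ l l' : V3 →ₗ[ℝ] ℝ} (hδ : δ ≠ 0) {y : V3} (hy : y ∈ H2) (hloc : LocStr y U U')
    (hnear : ∀ rr : ℝ, 1 < rr → ∃ x ∈ H2, -eta y x < rr ∧ δ x = 0 ∧ ∃ r : ℝ, 1 < r ∧ ∀ z ∈ H2, -eta x z < r → 0 ≤ δ z →
      U z = l z ∧ U' z = l' z ∧ U z - U' z = δ z) :
    ∃ r : ℝ, 1 < r ∧ ∀ z ∈ H2, -eta y z < r → 0 ≤ δ z → U z = l z ∧ U' z = l' z ∧ U z - U' z = δ z := by
  have hcy : ∀ y : V3, Continuous fun z : V3 => -eta y z := by
    intro y
    unfold eta
    fun_prop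
  have hcl : ∀ f : V3 →ₗ[ℝ] ℝ, Continuous fun z : V3 => f z := fun f =>
    LinearMap.continuous_of_finiteDimensional f
  have hxx : ∀ x ∈ H2, -eta x x = 1 := by
    intro x hx
    rw [hx.1]; norm_num
  rcases hloc with ⟨r1, hr1, h1⟩ | ⟨δ₂, l₂, l₂', hδ₂, hδ₂y, r₂, hr₂, h2, h3⟩
  · exfalso
    obtain ⟨x, hx, hyx, hδx, r, hr, hP⟩ := hnear r1 hr1
    have hO : IsOpen {z : V3 | -eta y z < r1 ∧ -eta x z < r} :=
      (isOpen_lt (hcy y) continuous_const).inter (isOpen_lt (hcy x) continuous_const)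
    have hxO : x ∈ {z : V3 | -eta y z < r1 ∧ -eta x z < r} := by
      refine ⟨hyx, ?_⟩
      rw [hxx x hx]; exact hr
    obtain ⟨z, hz, hzO, hδz, -⟩ := side6 hO hx hxO hδ hδx hδ
    have e1 := h1 z hz hzO.1
    have e2 := (hP z hz hzO.2 hδz.le).2.2
    linarith
  · obtain ⟨x, hx, hyx, hδx, r, hr, hP⟩ := hnear r₂ hr₂
    have hO : IsOpen {z : V3 | -eta y z < r₂ ∧ -eta x z < r} :=
      (isOpen_lt (hcy y) continuous_const).inter (isOpen_lt (hcy x) continuous_const)
    have hxO : x ∈ {z : V3 | -eta y z < r₂ ∧ -eta x z < r} := by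
      refine ⟨hyx, ?_⟩
      rw [hxx x hx]; exact hr
    obtain ⟨z₂, hz₂, hz₂O, hδz₂, hne⟩ := side6 hO hx hxO hδ hδx hδ₂
    rcases lt_or_gt_of_ne hne with hneg | hpos
    · rcases h3 with h3 | ⟨m, m', c, hc, h3⟩
      · exfalso
        have e1 := h3 z₂ hz₂ hz₂O.1 hneg.le
        have e2 := (hP z₂ hz₂ hz₂O.2 hδz₂.le).2.2
        linarith
      · have hO' : IsOpen ({z : V3 | -eta y z < r₂ ∧ -eta x z < r} ∩ {z : V3 | 0 < δ z ∧ δ₂ z < 0}) :=
          hO.inter ((isOpen_lt continuous_const (hcl δ)).inter (isOpen_lt (hcl δ₂) continuous_const))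
        have hz₂O' : z₂ ∈ ({z : V3 | -eta y z < r₂ ∧ -eta x z < r} ∩ {z : V3 | 0 < δ z ∧ δ₂ z < 0}) :=
          ⟨hz₂O, hδz₂, hneg⟩
        have f1 : l - m = 0 := by
          apply lin_open6 hO' hz₂ hz₂O'
          intro z hz hzO
          have e1 := hP z hz hzO.1.2 hzO.2.1.le
          have e2 := h3 z hz hzO.1.1 hzO.2.2.le
          rw [LinearMap.sub_apply, ← e1.1, ← e2.1, sub_self]
        have f2 : l' - m' = 0 := by
          apply lin_open6 hO' hz₂ hz₂O'
          intro z hz hzO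
          have e1 := hP z hz hzO.1.2 hzO.2.1.le
          have e2 := h3 z hz hzO.1.1 hzO.2.2.le
          rw [LinearMap.sub_apply, ← e1.2.1, ← e2.2.1, sub_self]
        have f3 : δ + c • δ₂ = 0 := by
          apply lin_open6 hO' hz₂ hz₂O'
          intro z hz hzO
          have e1 := hP z hz hzO.1.2 hzO.2.1.le
          have e2 := h3 z hz hzO.1.1 hzO.2.2.le
          rw [LinearMap.add_apply, LinearMap.smul_apply, smul_eq_mul]
          linarith [e1.2.2, e2.2.2]
        refine ⟨r₂, hr₂, fun z hz hzr hδz => ?_⟩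
        have g1 : δ z = -(c * δ₂ z) := by
          have := congrArg (fun f : V3 →ₗ[ℝ] ℝ => f z) f3
          simp only [LinearMap.add_apply, LinearMap.smul_apply, smul_eq_mul,
            LinearMap.zero_apply] at this
          linarith
        have g2 : δ₂ z ≤ 0 := by
          by_contra hcon
          push Not at hcon
          have := mul_pos hc hcon
          linarith
        have e2 := h3 z hz hzr g2
        rw [sub_eq_zero] at f1 f2
        rw [f1, f2, g1]
        exact e2
    · have hO' : IsOpen ({z : V3 | -eta y z < r₂ ∧ -eta x z < r} ∩ {z : V3 | 0 < δ z ∧ 0 < δ₂ z}) :=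
        hO.inter ((isOpen_lt continuous_const (hcl δ)).inter (isOpen_lt continuous_const (hcl δ₂)))
      have hz₂O' : z₂ ∈ ({z : V3 | -eta y z < r₂ ∧ -eta x z < r} ∩ {z : V3 | 0 < δ z ∧ 0 < δ₂ z}) :=
        ⟨hz₂O, hδz₂, hpos⟩
      have f1 : l - l₂ = 0 := by
        apply lin_open6 hO' hz₂ hz₂O'
        intro z hz hzO
        have e1 := hP z hz hzO.1.2 hzO.2.1.le
        have e2 := h2 z hz hzO.1.1 hzO.2.2.le
        rw [LinearMap.sub_apply, ← e1.1, ← e2.1, sub_self]
      have f2 : l' - l₂' = 0 := by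
        apply lin_open6 hO' hz₂ hz₂O'
        intro z hz hzO
        have e1 := hP z hz hzO.1.2 hzO.2.1.le
        have e2 := h2 z hz hzO.1.1 hzO.2.2.le
        rw [LinearMap.sub_apply, ← e1.2.1, ← e2.2.1, sub_self]
      have f3 : δ - δ₂ = 0 := by
        apply lin_open6 hO' hz₂ hz₂O'
        intro z hz hzO
        have e1 := hP z hz hzO.1.2 hzO.2.1.le
        have e2 := h2 z hz hzO.1.1 hzO.2.2.le
        rw [LinearMap.sub_apply, ← e1.2.2, ← e2.2.2, sub_self]
      rw [sub_eq_zero] at f1 f2 f3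
      refine ⟨r₂, hr₂, fun z hz hzr hδz => ?_⟩
      rw [f3] at hδz ⊢
      rw [f1, f2]
      exact h2 z hz hzr hδz

end A_step6

alias step6 := A_step6.step6

namespace A_ray6

/- Proof:
Write g s = geo x v s, in H2 (geo_mem), delta (g s) = 0 for all s (linear: delta x = 0 = delta v). Q(s): ∃ r > 1, ∀ z ∈ H2, -eta (g s) z < r → 0 ≤ δ z → U z = l z ∧ U' z = l' z ∧ U z - U' z = δ z. If Q(s) then taking z = g s: U (g s) = U' (g s) (delta (g s) = 0) and U (g s) = l (g s). To show: Q(s) for all s >= 0. Let A = {s in [0,S] : Q s}.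
Open: if Q(s) with r, then for s' near s: choose r' > 1 and a neighbourhood of s such that -eta (g s') z < r' implies -eta (g s) z < r (by H2_triangle-type estimate or continuity/compactness: e.g. r = cosh(2 rho), r' = cosh rho, |s - s'| < rho: -eta (g s)(g s') = cosh(s - s') by geo_add/eta_geo, and -eta (g s) z <= cosh(rho' + |s-s'|) where -eta (g s') z = cosh rho' < cosh rho. You may prove and use H2_triangle: it is in the given list).
Closed: if s_k -> s in [0,S] with Q(s_k): U (g s_k) = U' (g s_k), by continuity of U, U' on H2: U (g s) = U' (g s), so LocStr at g s (hypothesis hloc), and step6 with hnear from x := g s_k (-eta (g s)(g s_k) = cosh(s - s_k) -> 1): Q(s).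
[0,S] is connected, 0 in A; so A = [0,S] (e.g. by the sup argument, or IsClosed.Icc_subset_of_forall_mem_nhdsWithin, or IsPreconnected.subset_of_closure_inter_subset).
-/
theorem ray6 {U U' : V3 → ℝ} (hU : ContinuousOn U H2) (hU' : ContinuousOn U' H2)
    (hloc : ∀ z ∈ H2, U z = U' z → LocStr z U U')
    {δ l l' : V3 →ₗ[ℝ] ℝ} (hδ : δ ≠ 0) {x v : V3} (hx : x ∈ H2) (hv : UT x v) (hδx : δ x = 0) (hδv : δ v = 0)
    (h0 : ∃ r : ℝ, 1 < r ∧ ∀ z ∈ H2, -eta x z < r → 0 ≤ δ z → U z = l z ∧ U' z = l' z ∧ U z - U' z = δ z)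
    {s : ℝ} (hs : 0 ≤ s) : U (geo x v s) = l (geo x v s) := by
  classical
  set Q : ℝ → Prop := fun t => ∃ r : ℝ, 1 < r ∧ ∀ z ∈ H2, -eta (geo x v t) z < r → 0 ≤ δ z →
    U z = l z ∧ U' z = l' z ∧ U z - U' z = δ z with hQ
  have hgm : ∀ t, geo x v t ∈ H2 := fun t => geo_mem hx hv t
  have hδg : ∀ t, δ (geo x v t) = 0 := by
    intro t
    unfold geo
    rw [map_add, map_smul, map_smul, hδx, hδv]
    simp
  have hself : ∀ t, -eta (geo x v t) (geo x v t) = 1 := by
    intro t
    have := (hgm t).1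
    linarith
  have hdist : ∀ t t', -eta (geo x v t) (geo x v t') = Real.cosh (t' - t) := by
    intro t t'
    have h1 := (geo_add x v t (t' - t)).1
    have h2 := eta_geo (hgm t) (geo_UT hx hv t) (t' - t)
    rw [h1, add_sub_cancel] at h2
    linarith
  have hval : ∀ t, Q t → U (geo x v t) = l (geo x v t) ∧ U (geo x v t) = U' (geo x v t) := by
    rintro t ⟨r, hr, h⟩
    obtain ⟨h1, _, h3⟩ := h (geo x v t) (hgm t) (by rw [hself]; exact hr) (by rw [hδg])
    rw [hδg] at h3
    exact ⟨h1, by linarith⟩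
  have hgc : Continuous (fun t => geo x v t) := by
    unfold geo
    exact (Real.continuous_cosh.smul continuous_const).add (Real.continuous_sinh.smul continuous_const)
  have hUc : Continuous (fun t => U (geo x v t)) := by
    rw [continuous_iff_continuousAt]
    intro t
    have h1 : Filter.Tendsto (fun t => geo x v t) (nhds t) (nhdsWithin (geo x v t) H2) :=
      tendsto_nhdsWithin_iff.2 ⟨hgc.tendsto t, Filter.Eventually.of_forall hgm⟩
    exact (hU _ (hgm t)).tendsto.comp h1
  have hUc' : Continuous (fun t => U' (geo x v t)) := by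
    rw [continuous_iff_continuousAt]
    intro t
    have h1 : Filter.Tendsto (fun t => geo x v t) (nhds t) (nhdsWithin (geo x v t) H2) :=
      tendsto_nhdsWithin_iff.2 ⟨hgc.tendsto t, Filter.Eventually.of_forall hgm⟩
    exact (hU' _ (hgm t)).tendsto.comp h1
  have hcosh : ∀ r : ℝ, 1 < r → ∃ ρ : ℝ, 0 < ρ ∧ Real.cosh (2 * ρ) < r := by
    intro r hr
    have hc : ContinuousAt (fun ρ : ℝ => Real.cosh (2 * ρ)) 0 := by
      exact (Real.continuous_cosh.comp (continuous_const.mul continuous_id)).continuousAt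
    have h0 : Real.cosh (2 * 0) < r := by simpa using hr
    obtain ⟨ε, hε, hball⟩ := Metric.eventually_nhds_iff.1 (hc.eventually_lt continuousAt_const h0)
    refine ⟨ε / 2, by linarith, hball ?_⟩
    rw [Real.dist_eq, sub_zero, abs_of_pos (by linarith)]
    linarith
  have hopen : IsOpen {t | Q t} := by
    rw [Metric.isOpen_iff]
    rintro t ⟨r, hr, h⟩
    obtain ⟨ρ, hρ, hρr⟩ := hcosh r hr
    refine ⟨ρ, hρ, ?_⟩
    intro t' ht'
    rw [Metric.mem_ball, Real.dist_eq] at ht'
    refine ⟨Real.cosh ρ, Real.one_lt_cosh.2 hρ.ne', ?_⟩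
    intro z hz hzr hδz
    apply h z hz _ hδz
    have h1 := H2_triangle (hgm t) (hgm t') hz (abs_nonneg (t' - t)) hρ.le
      (by rw [hdist, Real.cosh_abs]) hzr.le
    refine lt_of_le_of_lt h1 (lt_of_le_of_lt ?_ hρr)
    rw [Real.cosh_le_cosh, abs_of_nonneg (add_nonneg (abs_nonneg (t' - t)) hρ.le),
      abs_of_pos (show (0:ℝ) < 2 * ρ by linarith)]
    linarith
  have hclosed : IsClosed {t | Q t} := by
    rw [← closure_subset_iff_isClosed]
    intro t ht
    have heq : U (geo x v t) = U' (geo x v t) := by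
      have hc : IsClosed {t | U (geo x v t) = U' (geo x v t)} := isClosed_eq hUc hUc'
      have hsub : {t | Q t} ⊆ {t | U (geo x v t) = U' (geo x v t)} := fun a ha => (hval a ha).2
      exact (closure_minimal hsub hc) ht
    refine step6 hδ (hgm t) (hloc _ (hgm t) heq) ?_
    intro rr hrr
    obtain ⟨ρ, hρ, hρr⟩ := hcosh rr hrr
    obtain ⟨t', ht', hd⟩ := Metric.mem_closure_iff.1 ht ρ hρ
    refine ⟨geo x v t', hgm t', ?_, hδg t', ht'⟩
    rw [hdist]
    refine lt_of_le_of_lt ?_ hρr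
    rw [Real.dist_eq] at hd
    rw [Real.cosh_le_cosh, abs_of_pos (show (0:ℝ) < 2 * ρ by linarith), abs_sub_comm]
    linarith
  have huniv : {t | Q t} = Set.univ := by
    apply IsClopen.eq_univ ⟨hclosed, hopen⟩
    refine ⟨0, ?_⟩
    show Q 0
    rw [hQ]
    simp only [(geo_zero x v).1]
    exact h0
  have hQs : Q s := by
    have : s ∈ {t | Q t} := by rw [huniv]; trivial
    exact this
  exact (hval s hQs).1

end A_ray6

alias ray6 := A_ray6.ray6

namespace A_cont6

theorem cont6_aux_add (a b c : V3) : eta a (b + c) = eta a b + eta a c := by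
  simp only [eta, Pi.add_apply]; ring

theorem cont6_aux_sub (a b c : V3) : eta a (b - c) = eta a b - eta a c := by
  simp only [eta, Pi.sub_apply]; ring

theorem cont6_aux_smul (a b : V3) (t : ℝ) : eta a (t • b) = t * eta a b := by
  simp only [eta, Pi.smul_apply, smul_eq_mul]; ring

theorem cont6_aux_comm (a b : V3) : eta a b = eta b a := by
  simp only [eta]; ring

/-- a unit tangent vector at `x` in the kernel of `δ` -/
theorem cont6_aux_v {δ : V3 →ₗ[ℝ] ℝ} (hδ : δ ≠ 0) {x : V3} (hx : x ∈ H2) (hδx : δ x = 0) :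
    ∃ v, UT x v ∧ δ v = 0 := by
  obtain ⟨e₁, he₁⟩ := exists_UT hx
  obtain ⟨e₂, hON⟩ := exists_ON hx he₁
  obtain ⟨h1, h2, h11, h22, h12⟩ := hON
  have hne : 0 < (δ e₁) ^ 2 + (δ e₂) ^ 2 := by
    by_contra hcon
    have z1 : δ e₁ = 0 := by nlinarith [sq_nonneg (δ e₁), sq_nonneg (δ e₂)]
    have z2 : δ e₂ = 0 := by nlinarith [sq_nonneg (δ e₁), sq_nonneg (δ e₂)]
    apply hδ
    ext1 i
    have key : ∀ u : V3, δ u = 0 := by
      intro u
      have hxx : eta x x = -1 := hx.1
      have ht : eta x (u + eta x u • x) = 0 := by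
        rw [cont6_aux_add, cont6_aux_smul, hxx]; ring
      have h3 := tangent_expand hx ⟨h1, h2, h11, h22, h12⟩ ht
      have h4 : δ (u + eta x u • x) = 0 := by
        rw [h3, map_add, map_smul, map_smul, z1, z2]; simp
      rw [map_add, map_smul, hδx] at h4
      simpa using h4
    ext
    simpa using key _
  set D := Real.sqrt ((δ e₁) ^ 2 + (δ e₂) ^ 2) with hD
  have hDpos : 0 < D := Real.sqrt_pos.mpr hne
  have hDD : D * D = (δ e₁) ^ 2 + (δ e₂) ^ 2 := Real.mul_self_sqrt hne.le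
  refine ⟨D⁻¹ • (δ e₂ • e₁ - δ e₁ • e₂), ⟨?_, ?_⟩, ?_⟩
  · rw [cont6_aux_smul, cont6_aux_sub, cont6_aux_smul, cont6_aux_smul, h1, h2]; ring
  · rw [cont6_aux_smul, cont6_aux_comm, cont6_aux_smul, cont6_aux_sub, cont6_aux_smul,
      cont6_aux_smul, cont6_aux_comm (δ e₂ • e₁ - δ e₁ • e₂) e₁,
      cont6_aux_comm (δ e₂ • e₁ - δ e₁ • e₂) e₂, cont6_aux_sub, cont6_aux_sub, cont6_aux_smul,
      cont6_aux_smul, cont6_aux_smul, cont6_aux_smul, h11, h22, cont6_aux_comm e₂ e₁, h12]
    have : D⁻¹ * (D⁻¹ * (D * D)) = 1 := by field_simp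
    rw [hDD] at this
    linear_combination this
  · rw [map_smul, map_sub, map_smul, map_smul]
    simp only [smul_eq_mul]; ring

theorem cont6_aux_exp {a b c₀ C₀ : ℝ} (hc₀ : 0 < c₀)
    (h : ∀ s : ℝ, 0 ≤ s → c₀ ≤ Real.cosh s * a + Real.sinh s * b ∧
      Real.cosh s * a + Real.sinh s * b ≤ C₀) : False := by
  have hC : 0 < C₀ := by
    have := h 0 le_rfl
    linarith [this.1, this.2]
  -- large exponentials
  have hE : ∀ R : ℝ, ∃ s : ℝ, 0 ≤ s ∧ R < Real.exp s := by
    intro R
    refine ⟨|R|, abs_nonneg _, ?_⟩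
    have := Real.add_one_le_exp |R|
    have := le_abs_self R
    linarith
  have hform : ∀ s : ℝ, Real.cosh s * a + Real.sinh s * b =
      Real.exp s * (a + b) / 2 + Real.exp (-s) * (a - b) / 2 := by
    intro s
    rw [Real.cosh_eq, Real.sinh_eq]; ring
  have hinv : ∀ s : ℝ, 0 ≤ s → Real.exp (-s) ≤ 1 ∧ 0 < Real.exp (-s) := by
    intro s hs
    exact ⟨Real.exp_le_one_iff.mpr (by linarith), Real.exp_pos _⟩
  have habs : ∀ s : ℝ, 0 ≤ s → |Real.exp (-s) * (a - b) / 2| ≤ |a - b| / 2 := by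
    intro s hs
    rw [abs_div, abs_mul, abs_of_pos (hinv s hs).2, abs_of_pos (by norm_num : (0 : ℝ) < 2)]
    have := (hinv s hs).1
    have h3 := abs_nonneg (a - b)
    have : Real.exp (-s) * |a - b| ≤ 1 * |a - b| := mul_le_mul_of_nonneg_right this h3
    linarith
  rcases lt_trichotomy (a + b) 0 with hneg | hzero | hpos
  · obtain ⟨s, hs, hR⟩ := hE (|a - b| / -(a + b))
    have h1 := (h s hs).1
    rw [hform] at h1
    have h2 := le_trans (le_abs_self _) (habs s hs)
    rw [div_lt_iff₀ (by linarith)] at hR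
    linarith
  · obtain ⟨s, hs, hR⟩ := hE (|a - b| / c₀)
    have h1 := (h s hs).1
    rw [hform, hzero] at h1
    rw [div_lt_iff₀ hc₀] at hR
    have h2 : Real.exp (-s) * Real.exp s = 1 := by rw [← Real.exp_add]; simp
    have h3 := (hinv s hs).2
    have h4 : Real.exp (-s) * |a - b| < Real.exp (-s) * (Real.exp s * c₀) :=
      mul_lt_mul_of_pos_left hR h3
    rw [← mul_assoc, h2, one_mul] at h4
    have h5 : Real.exp (-s) * (a - b) ≤ Real.exp (-s) * |a - b| :=
      mul_le_mul_of_nonneg_left (le_abs_self _) h3.le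
    linarith
  · obtain ⟨s, hs, hR⟩ := hE ((2 * C₀ + |a - b|) / (a + b))
    have h1 := (h s hs).2
    rw [hform] at h1
    have h2 := neg_le_of_abs_le (habs s hs)
    rw [div_lt_iff₀ hpos] at hR
    linarith

theorem cont6_aux_loc {U U' : V3 → ℝ} (hU : ContinuousOn U H2) (hU' : ContinuousOn U' H2)
    (hloc : ∀ z ∈ H2, U z = U' z → LocStr z U U') {c₀ C₀ : ℝ} (hc₀ : 0 < c₀)
    (hb : ∀ z ∈ H2, c₀ ≤ U z ∧ U z ≤ C₀) {z : V3} (hz : z ∈ H2) (hzz : U z = U' z) :
    ∃ r : ℝ, 1 < r ∧ ∀ w ∈ H2, -eta z w < r → U w = U' w := by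
  rcases hloc z hz hzz with h | ⟨δ, l, l', hδ, hδz, r, hr, hr1, -⟩
  · exact h
  · exfalso
    obtain ⟨v, hv, hδv⟩ := cont6_aux_v hδ hz hδz
    apply cont6_aux_exp (a := l z) (b := l v) (C₀ := C₀) hc₀
    intro s hs
    have h1 := ray6 hU hU' hloc hδ hz hv hδz hδv ⟨r, hr, hr1⟩ hs
    have h2 := hb _ (geo_mem hz hv s)
    rw [h1] at h2
    have h3 : l (geo z v s) = Real.cosh s * l z + Real.sinh s * l v := by
      simp only [geo, map_add, map_smul, smul_eq_mul]
    rw [h3] at h2
    exact h2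

/- Proof:
Let Zt = {z in H2 : U z = U' z}. Claim: for every z in Zt the first alternative of LocStr holds (U = U' near z). Otherwise LocStr at x := z gives delta, l, l', delta x = 0 and h0 of ray6 (the second part of LocStr). delta ≠ 0, delta x = 0: choose a unit tangent vector v at x with delta v = 0: with e1, e2 an ON basis (exists_UT, exists_ON), delta e1, delta e2 not both 0, v = (delta e2 e1 - delta e1 e2)/sqrt((delta e1)^2 + (delta e2)^2). ray6: U (geo x v s) = l (geo x v s) = cosh s * l x + sinh s * l v for all s >= 0. By the bounds c0 <= U <= C0: as s -> infinity boundedness forces l x + l v = 0 (cosh s l x + sinh s l v = e^s (l x + l v)/2 + e^{-s} (l x - l v)/2), and then U (geo x v s) = e^{-s} l x... = e^{-s}(l x - l v)/2 -> 0, contradicting c0 > 0.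
Now take y in Zt (given) and any x in H2; geodesic from y to x (exists_geo): g s = geo y v s, 0 <= s <= d. The set {s in [0,d] : g s in Zt} is closed (continuity of U, U' on H2 along g) and open (claim; -eta (g s)(g s') = cosh (s' - s)), contains 0, so it is [0,d]. Hence U x = U' x.
-/
theorem cont6 {U U' : V3 → ℝ} (hU : ContinuousOn U H2) (hU' : ContinuousOn U' H2)
    (hloc : ∀ z ∈ H2, U z = U' z → LocStr z U U') {c₀ C₀ : ℝ} (hc₀ : 0 < c₀) (hb : ∀ z ∈ H2, c₀ ≤ U z ∧ U z ≤ C₀)
    {y : V3} (hy : y ∈ H2) (hyy : U y = U' y) {x : V3} (hx : x ∈ H2) : U x = U' x := by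
  obtain ⟨d, v, hd, hv, hgd⟩ := exists_geo hy hx
  have hgc : Continuous (geo y v) := by
    unfold geo
    exact (Real.continuous_cosh.smul continuous_const).add
      (Real.continuous_sinh.smul continuous_const)
  have hc1 : Continuous fun s => U (geo y v s) := hU.comp_continuous hgc fun s => geo_mem hy hv s
  have hc2 : Continuous fun s => U' (geo y v s) := hU'.comp_continuous hgc fun s => geo_mem hy hv s
  have hclosed : IsClosed {s : ℝ | U (geo y v s) = U' (geo y v s)} := isClosed_eq hc1 hc2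
  have hopen : IsOpen {s : ℝ | U (geo y v s) = U' (geo y v s)} := by
    rw [isOpen_iff_mem_nhds]
    intro s hs
    obtain ⟨r, hr, hr1⟩ := cont6_aux_loc hU hU' hloc hc₀ hb (geo_mem hy hv s) hs
    have h1 : ∀ᶠ s' in nhds s, Real.cosh (s' - s) < r := by
      have hcont : Continuous fun s' : ℝ => Real.cosh (s' - s) :=
        Real.continuous_cosh.comp (continuous_id.sub continuous_const)
      have h2 : Real.cosh (s - s) < r := by simpa using hr
      exact hcont.continuousAt.eventually (gt_mem_nhds h2) 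
    filter_upwards [h1] with s' hs'
    apply hr1 _ (geo_mem hy hv s')
    have h3 := (geo_add y v s (s' - s)).1
    have h4 := eta_geo (geo_mem hy hv s) (geo_UT hy hv s) (s' - s)
    rw [h3] at h4
    have h5 : s + (s' - s) = s' := by ring
    rw [h5] at h4
    rw [h4]; linarith
  have huniv := IsClopen.eq_univ ⟨hclosed, hopen⟩ ⟨0, by
    show U (geo y v 0) = U' (geo y v 0)
    rw [(geo_zero y v).1]; exact hyy⟩
  have hmem : d ∈ {s : ℝ | U (geo y v s) = U' (geo y v s)} := by rw [huniv]; trivial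
  have h6 : U (geo y v d) = U' (geo y v d) := hmem
  rwa [hgd] at h6

end A_cont6

alias cont6 := A_cont6.cont6

namespace A_linloc6

theorem j_qal (a b c : V4) : q (a + b) c = q a c + q b c := by simp [q]; ring
theorem j_qsl (r : ℝ) (a c : V4) : q (r • a) c = r * q a c := by simp [q]; ring
theorem j_qs (a b : V4) : q a b = q b a := by simp [q]; ring
theorem j_qar (a b c : V4) : q a (b + c) = q a b + q a c := by simp [q]; ring
theorem j_qsr (r : ℝ) (a c : V4) : q a (r • c) = r * q a c := by simp [q]; ring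
theorem j_eal (a b c : V3) : eta (a + b) c = eta a c + eta b c := by simp [eta]; ring
theorem j_esl (r : ℝ) (a c : V3) : eta (r • a) c = r * eta a c := by simp [eta]; ring
theorem j_es (a b : V3) : eta a b = eta b a := by simp [eta]; ring
theorem j_ear (a b c : V3) : eta a (b + c) = eta a b + eta a c := by simp [eta]; ring
theorem j_esr (r : ℝ) (a c : V3) : eta a (r • c) = r * eta a c := by simp [eta]; ring

theorem j_gram4 (P Q R M : V4) : det4 P Q R M ^ 2 = Matrix.det
    !![q P P, q P Q, q P R, q P M; q Q P, q Q Q, q Q R, q Q M;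
       q R P, q R Q, q R R, q R M; q M P, q M Q, q M R, q M M] := by
  have h1 : (Matrix.of ![P, Q, R, M] * Matrix.diagonal ![-1, 1, 1, -1] *
      (Matrix.of ![P, Q, R, M]).transpose).det = det4 P Q R M ^ 2 := by
    rw [Matrix.det_mul, Matrix.det_mul, Matrix.det_transpose, Matrix.det_diagonal]
    simp [det4, Fin.prod_univ_four]
    ring
  rw [← h1]
  congr 1
  ext i j
  rw [Matrix.mul_apply]
  simp only [Matrix.mul_diagonal, Matrix.transpose_apply, Matrix.of_apply, Fin.sum_univ_four]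
  fin_cases i <;> fin_cases j <;> simp [q] <;> ring

theorem j_gram3 (x e f : V3) : -(det3 x e f ^ 2) = Matrix.det
    !![eta x x, eta x e, eta x f; eta e x, eta e e, eta e f; eta f x, eta f e, eta f f] := by
  have h1 : (Matrix.of ![x, e, f] * Matrix.diagonal ![-1, 1, 1] *
      (Matrix.of ![x, e, f]).transpose).det = -(det3 x e f ^ 2) := by
    rw [Matrix.det_mul, Matrix.det_mul, Matrix.det_transpose, Matrix.det_diagonal]
    simp [det3, Fin.prod_univ_three]
    ring
  rw [← h1]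
  congr 1
  ext i j
  rw [Matrix.mul_apply]
  simp only [Matrix.mul_diagonal, Matrix.transpose_apply, Matrix.of_apply, Fin.sum_univ_three]
  fin_cases i <;> fin_cases j <;> simp [eta] <;> ring

theorem j_gram {P Q R M : V4} {x e f : V3} (hM : q M M = -1) (hP : q P M = 0) (hQ : q Q M = 0)
    (hR : q R M = 0) (h1 : q P P = eta x x) (h2 : q P Q = eta x e) (h3 : q P R = eta x f)
    (h4 : q Q Q = eta e e) (h5 : q Q R = eta e f) (h6 : q R R = eta f f) :
    det4 P Q R M ^ 2 = det3 x e f ^ 2 := by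
  have a := j_gram4 P Q R M
  have b := j_gram3 x e f
  rw [j_qs Q P, j_qs R P, j_qs R Q, j_qs M P, j_qs M Q, j_qs M R, hM, hP, hQ, hR, h1, h2, h3, h4,
    h5, h6] at a
  rw [j_es e x, j_es f x, j_es f e] at b
  rw [a]
  have c : det3 x e f ^ 2 = -(-(det3 x e f ^ 2)) := by ring
  rw [c, b, Matrix.det_fin_three, Matrix.det_succ_row_zero]
  simp [Fin.sum_univ_four, Matrix.det_fin_three, Matrix.submatrix, Fin.succAbove]
  ring

theorem j_sep {x e : V3} (hx : x ∈ H2) (he : e ∈ H2) (h : eta x e ^ 2 = 1) : x = e := by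
  obtain ⟨hx1, hx2⟩ := hx
  obtain ⟨he1, he2⟩ := he
  simp only [eta] at hx1 he1 h
  have h3 : -(x 0 * e 0) + x 1 * e 1 + x 2 * e 2 < 0 := by
    have h4 : (x 1 * e 1 + x 2 * e 2) ^ 2 < (x 0 * e 0) ^ 2 := by
      have : (x 0 * e 0) ^ 2 - (x 1 * e 1 + x 2 * e 2) ^ 2 =
        1 + (x 1 ^ 2 + x 2 ^ 2) + (e 1 ^ 2 + e 2 ^ 2) + (x 1 * e 2 - x 2 * e 1) ^ 2 := by
        have e1 : x 0 ^ 2 = 1 + x 1 ^ 2 + x 2 ^ 2 := by nlinarith
        have e2 : e 0 ^ 2 = 1 + e 1 ^ 2 + e 2 ^ 2 := by nlinarith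
        rw [mul_pow, e1, e2]; ring
      nlinarith [sq_nonneg (x 1 * e 2 - x 2 * e 1), sq_nonneg (x 1), sq_nonneg (x 2),
        sq_nonneg (e 1), sq_nonneg (e 2)]
    have h5 := abs_lt_of_sq_lt_sq h4 (by positivity)
    have h6 := (abs_lt.1 (abs_lt_of_sq_lt_sq h4 (by positivity))).2
    linarith
  have h7 : x 0 * e 0 = 1 + (x 1 * e 1 + x 2 * e 2) := by nlinarith
  have h8 : (x 1 - e 1) ^ 2 + (x 2 - e 2) ^ 2 + (x 1 * e 2 - x 2 * e 1) ^ 2 = 0 := by
    have e1 : x 0 ^ 2 = 1 + x 1 ^ 2 + x 2 ^ 2 := by nlinarith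
    have e2 : e 0 ^ 2 = 1 + e 1 ^ 2 + e 2 ^ 2 := by nlinarith
    have e3 : (x 0 * e 0) ^ 2 = (1 + x 1 ^ 2 + x 2 ^ 2) * (1 + e 1 ^ 2 + e 2 ^ 2) := by
      rw [mul_pow, e1, e2]
    rw [h7] at e3
    linarith
  have h9 : x 1 = e 1 := by
    nlinarith [sq_nonneg (x 1 - e 1), sq_nonneg (x 2 - e 2), sq_nonneg (x 1 * e 2 - x 2 * e 1)]
  have h10 : x 2 = e 2 := by
    nlinarith [sq_nonneg (x 1 - e 1), sq_nonneg (x 2 - e 2), sq_nonneg (x 1 * e 2 - x 2 * e 1)]
  have h11 : x 0 = e 0 := by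
    rw [h9, h10] at hx1
    nlinarith
  funext i
  fin_cases i
  · exact h11
  · exact h9
  · exact h10

theorem j_det3_add_mid (x a b c : V3) : det3 x (a + b) c = det3 x a c + det3 x b c := by
  simp [det3, Matrix.det_fin_three]; ring
theorem j_det3_smul_mid (r : ℝ) (x a c : V3) : det3 x (r • a) c = r * det3 x a c := by
  simp [det3, Matrix.det_fin_three]; ring
theorem j_det3_add_l (x a b c : V3) : det3 (a + b) x c = det3 a x c + det3 b x c := by
  simp [det3, Matrix.det_fin_three]; ring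
theorem j_det3_smul_l (r : ℝ) (x a c : V3) : det3 (r • a) x c = r * det3 a x c := by
  simp [det3, Matrix.det_fin_three]; ring
theorem j_det3_add_r (x a b c : V3) : det3 x c (a + b) = det3 x c a + det3 x c b := by
  simp [det3, Matrix.det_fin_three]; ring
theorem j_det3_smul_r (r : ℝ) (x a c : V3) : det3 x c (r • a) = r * det3 x c a := by
  simp [det3, Matrix.det_fin_three]; ring
theorem j_det3_swap (x a b : V3) : det3 x a b = -det3 x b a := by
  simp [det3, Matrix.det_fin_three]; ring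
theorem j_det4_swap (x a b M : V4) : det4 x a b M = -det4 x b a M := by
  have h := (det4_lin x (a + b) (a + b) M x (a + b) (a + b) M 1 0).2.2.2.2.2.2.2.1
  have h1 := (det4_lin x a (a + b) M x b (a + b) M 1 1).2.1
  have h2 := (det4_lin x a a M x a b M 1 1).2.2.1
  have h3 := (det4_lin x b a M x a b M 1 1).2.2.1
  have h4 := (det4_lin x a a M x a b M 1 1).2.2.2.2.2.2.2.1
  have h5 := (det4_lin x b b M x a b M 1 1).2.2.2.2.2.2.2.1
  simp only [one_smul, one_mul] at h1 h2 h3
  rw [h1, h2, h3, h4, h5] at h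
  linarith

/-- linear map with given values on a basis -/
noncomputable def jL (x e f : V3) (P Q R : V4) : V3 →ₗ[ℝ] V4 where
  toFun v := (det3 v e f / det3 x e f) • P + (det3 x v f / det3 x e f) • Q +
    (det3 x e v / det3 x e f) • R
  map_add' v w := by
    rw [j_det3_add_l, j_det3_add_mid, j_det3_add_r]
    simp only [add_div, add_smul]
    abel
  map_smul' r v := by
    rw [j_det3_smul_l, j_det3_smul_mid, j_det3_smul_r]
    simp only [mul_div_assoc, mul_smul, smul_add, RingHom.id_apply]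

theorem jL_comb {x e f : V3} (hD : det3 x e f ≠ 0) (P Q R : V4) (l a b : ℝ) :
    jL x e f P Q R (l • x + a • e + b • f) = l • P + a • Q + b • R := by
  have h := (det3_lin x e f).1 l a b
  have h1 : jL x e f P Q R (l • x + a • e + b • f) =
    (det3 (l • x + a • e + b • f) e f / det3 x e f) • P +
    (det3 x (l • x + a • e + b • f) f / det3 x e f) • Q +
    (det3 x e (l • x + a • e + b • f) / det3 x e f) • R := rfl
  rw [h1, h.1, h.2.1, h.2.2, mul_div_cancel_right₀ _ hD, mul_div_cancel_right₀ _ hD,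
    mul_div_cancel_right₀ _ hD]

theorem j_exp {x e f : V3} (hD : det3 x e f ≠ 0) (z : V3) :
    ∃ l a b : ℝ, z = l • x + a • e + b • f :=
  ⟨_, _, _, (det3_lin x e f).2 hD z⟩

theorem jL_iso {x e f : V3} (hD : det3 x e f ≠ 0) {P Q R : V4}
    (h1 : q P P = eta x x) (h2 : q P Q = eta x e) (h3 : q P R = eta x f)
    (h4 : q Q Q = eta e e) (h5 : q Q R = eta e f) (h6 : q R R = eta f f) (v w : V3) :
    q (jL x e f P Q R v) (jL x e f P Q R w) = eta v w := by
  obtain ⟨l, a, b, rfl⟩ := j_exp hD v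
  obtain ⟨l', a', b', rfl⟩ := j_exp hD w
  rw [jL_comb hD, jL_comb hD]
  simp only [j_qal, j_qar, j_qsl, j_qsr, j_eal, j_ear, j_esl, j_esr]
  rw [j_qs Q P, j_qs R P, j_qs R Q, h1, h2, h3, h4, h5, h6, j_es e x, j_es f x, j_es f e]

theorem jL_orth {x e f : V3} (hD : det3 x e f ≠ 0) {P Q R M : V4} (hP : q P M = 0)
    (hQ : q Q M = 0) (hR : q R M = 0) (v : V3) : q (jL x e f P Q R v) M = 0 := by
  obtain ⟨l, a, b, rfl⟩ := j_exp hD v
  rw [jL_comb hD]
  simp only [j_qal, j_qsl, hP, hQ, hR]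
  ring

theorem jL_1 {x e f : V3} (hD : det3 x e f ≠ 0) (P Q R : V4) : jL x e f P Q R x = P := by
  have := jL_comb hD P Q R 1 0 0
  simpa using this
theorem jL_2 {x e f : V3} (hD : det3 x e f ≠ 0) (P Q R : V4) : jL x e f P Q R e = Q := by
  have := jL_comb hD P Q R 0 1 0
  simpa using this
theorem jL_3 {x e f : V3} (hD : det3 x e f ≠ 0) (P Q R : V4) : jL x e f P Q R f = R := by
  have := jL_comb hD P Q R 0 0 1
  simpa using this

/-- value of a polyhedral map on a cone of a cell -/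
theorem j_Yadd {ι : Type*} {C : ι → Set V3} {Y : V3 → V4} {n : ι → V4} (h : PolyGood C Y n)
    {i : ι} {u v : V3} (hu : u ∈ C i) (hv : v ∈ C i) {t : ℝ} (ht : 0 ≤ t) :
    u + t • v ∈ C i ∧ Y (u + t • v) = Y u + t • Y v := by
  rcases ht.eq_or_lt with rfl | ht
  · simp only [zero_smul, add_zero]
    exact ⟨hu, trivial⟩
  · have h1 := h.sub.smul i v hv t ht
    refine ⟨h.sub.add i u hu _ h1, ?_⟩
    rw [h.poly.add i u hu _ h1, h.poly.smul i v hv t ht]

theorem j_Ycomb {ι : Type*} {C : ι → Set V3} {Y : V3 → V4} {n : ι → V4} (h : PolyGood C Y n)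
    {i : ι} {x y z : V3} (hx : x ∈ C i) (hy : y ∈ C i) (hz : z ∈ C i) {l a b : ℝ} (hl : 0 < l)
    (ha : 0 ≤ a) (hb : 0 ≤ b) :
    Y (l • x + a • y + b • z) = l • Y x + a • Y y + b • Y z := by
  have h1 := h.sub.smul i x hx l hl
  have h2 := j_Yadd h h1 hy ha
  have h3 := j_Yadd h h2.1 hz hb
  rw [h3.2, h2.2, h.poly.smul i x hx l hl]

/-- sign of the determinant with `M` -/
theorem j_sign {a b c n M : V4} {s : ℝ} (hs : 0 < s * det4 a b c n) (hnn : q n n = -1)
    (ha : q n a = 0) (hb : q n b = 0) (hc : q n c = 0) (hn : 0 < q n M) :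
    s * det4 a b c M < 0 := by
  have h0 : det4 a b c n ≠ 0 := by
    intro h; rw [h, mul_zero] at hs; exact lt_irrefl _ hs
  obtain ⟨r1, r2, r3, r4, hM⟩ := (det4_lin a b c n a b c n 1 1).2.2.2.2.2.2.2.2.2.2 h0 M
  have h4 : r4 = -q n M := by
    rw [hM]
    simp only [j_qar, j_qsr, ha, hb, hc, hnn]
    ring
  have h5 : det4 a b c M = r4 * det4 a b c n := by
    have e1 : M = (1 : ℝ) • (r1 • a + r2 • b + r3 • c) + r4 • n := by rw [one_smul]; exact hM
    have e2 : r1 • a + r2 • b + r3 • c = (1 : ℝ) • (r1 • a + r2 • b) + r3 • c := by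
      rw [one_smul]
    have L := fun (d d' : V4) (s t : ℝ) => (det4_lin a b c d a b c d' s t).2.2.2.1
    have z1 : det4 a b c a = 0 := (det4_lin a b c n a b c n 1 1).2.2.2.2.2.2.1
    have z2 : det4 a b c b = 0 := (det4_lin a b c n a b c n 1 1).2.2.2.2.2.2.2.2.1
    have z3 : det4 a b c c = 0 := (det4_lin a b c n a b c n 1 1).2.2.2.2.2.2.2.2.2.1
    rw [e1, L, e2, L, L, z1, z2, z3]
    ring
  rw [h5]
  have h6 : r4 < 0 := by rw [h4]; linarith
  nlinarith

/-- adding multiples of the last vector -/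
theorem j_det_shift (a b c M : V4) (α β γ : ℝ) :
    det4 (a + α • M) (b + β • M) (c + γ • M) M = det4 a b c M := by
  have e : ∀ (u : V4) (t : ℝ), u + t • M = (1 : ℝ) • u + t • M := fun u t => by rw [one_smul]
  rw [e a, (det4_lin a (b + β • M) (c + γ • M) M M b c M 1 α).1, e b,
    (det4_lin a b (c + γ • M) M M M c M 1 β).2.1, e c,
    (det4_lin a b c M M M M M 1 γ).2.2.1]
  have z1 : ∀ u v : V4, det4 M u v M = 0 := fun u v =>
    (det4_lin M u v M a b c M 1 1).2.2.2.2.2.2.1
  have z2 : ∀ u v : V4, det4 u M v M = 0 := fun u v =>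
    (det4_lin u M v M a b c M 1 1).2.2.2.2.2.2.2.2.1
  have z3 : ∀ u v : V4, det4 u v M M = 0 := fun u v =>
    (det4_lin u v M M a b c M 1 1).2.2.2.2.2.2.2.2.2.1
  rw [z1, z2, z3]
  ring

theorem j_d3 (P Q R M : V4) (l a b : ℝ) :
    det4 P Q (l • P + a • Q + b • R) M = b * det4 P Q R M := by
  have e1 : l • P + a • Q + b • R = (1 : ℝ) • (l • P + a • Q) + b • R := by rw [one_smul]
  have L := fun (c c' : V4) (s t : ℝ) => (det4_lin P Q c M P Q c' M s t).2.2.1
  have z1 : det4 P Q P M = 0 := (det4_lin P Q R M P Q R M 1 1).2.2.2.2.2.1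
  have z2 : det4 P Q Q M = 0 := (det4_lin P Q R M P Q R M 1 1).2.2.2.2.2.2.2.1
  rw [e1, L, L, z1, z2]
  ring

theorem j_zero {P Q R M D : V4} {η : ℝ} (hD : det4 P Q R M ≠ 0) (hPP : q P P = -1)
    (hQQ : q Q Q = -1) (hPQ : q P Q = η) (hη : η ^ 2 ≠ 1) (hM : q M M = -1) (hPM : q P M = 0)
    (hQM : q Q M = 0) (h1 : q D P = 0) (h2 : q D Q = 0) (h3 : q D M = 0)
    (h4 : det4 P Q D M = 0) : D = 0 := by
  obtain ⟨r1, r2, r3, r4, hr⟩ := (det4_lin P Q R M P Q R M 1 1).2.2.2.2.2.2.2.2.2.2 hD D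
  have e3 : r3 = 0 := by
    have e1 : D = (1 : ℝ) • (r1 • P + r2 • Q + r3 • R) + r4 • M := by rw [one_smul]; exact hr
    have L := (det4_lin P Q (r1 • P + r2 • Q + r3 • R) M P Q M M 1 r4).2.2.1
    rw [← e1, h4, j_d3, (det4_lin P Q M M P Q M M 1 1).2.2.2.2.2.2.2.2.2.1] at L
    have : r3 * det4 P Q R M = 0 := by linarith
    exact (mul_eq_zero.1 this).resolve_right hD
  rw [e3, zero_smul, add_zero] at hr
  have e4 : r4 = 0 := by
    rw [hr] at h3
    simp only [j_qal, j_qsl, hPM, hQM, hM] at h3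
    linarith
  rw [e4, zero_smul, add_zero] at hr
  rw [hr] at h1 h2
  simp only [j_qal, j_qsl] at h1 h2
  rw [j_qs Q P, hPP, hPQ] at h1
  rw [hQQ, hPQ] at h2
  have e5 : r1 * (η ^ 2 - 1) = 0 := by linear_combination h1 + η * h2
  have e6 : r1 = 0 := (mul_eq_zero.1 e5).resolve_right (sub_ne_zero.2 hη)
  have e7 : r2 = 0 := by rw [e6] at h2; linarith
  rw [hr, e6, e7]
  simp

/-- two adjacent linear pieces agree -/
theorem j_adj {x u e f : V3} {P U E F M : V4} {s : ℝ} (hxx : eta x x = -1) (hee : eta e e = -1)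
    (hη : eta x e ^ 2 ≠ 1) (hD1 : 0 < det3 x u e) (hD2 : 0 < det3 x e f)
    (hM : q M M = -1) (hPM : q P M = 0) (hUM : q U M = 0) (hEM : q E M = 0) (hFM : q F M = 0)
    (hPP : q P P = eta x x) (hPU : q P U = eta x u) (hPE : q P E = eta x e)
    (hPF : q P F = eta x f) (hUU : q U U = eta u u) (hUE : q U E = eta u e)
    (hEE : q E E = eta e e) (hEF : q E F = eta e f) (hFF : q F F = eta f f)
    (hs1 : s * det4 P U E M < 0) (hs2 : s * det4 P E F M < 0) :
    jL x u e P U E = jL x e f P E F := by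
  have n1 := hD1.ne'
  have n2 := hD2.ne'
  have g1 := j_gram hM hPM hUM hEM hPP hPU hPE hUU hUE hEE
  have g2 := j_gram hM hPM hEM hFM hPP hPE hPF hEE hEF hFF
  obtain ⟨κ, k1, k2⟩ : ∃ κ : ℝ, det4 P U E M = κ * det3 x u e ∧ det4 P E F M = κ * det3 x e f := by
    rcases sq_eq_sq_iff_eq_or_eq_neg.1 g1 with a1 | a1 <;>
    rcases sq_eq_sq_iff_eq_or_eq_neg.1 g2 with a2 | a2
    · exact ⟨1, by rw [a1]; ring, by rw [a2]; ring⟩
    · exfalso
      rw [a1] at hs1
      rw [a2] at hs2
      have b1 : s < 0 := by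
        by_contra hc
        exact absurd hs1 (not_lt.2 (mul_nonneg (not_lt.1 hc) hD1.le))
      have b2 : 0 ≤ s * -det3 x e f := mul_nonneg_of_nonpos_of_nonpos b1.le (by linarith)
      linarith
    · exfalso
      rw [a1] at hs1
      rw [a2] at hs2
      have b1 : s < 0 := by
        by_contra hc
        exact absurd hs2 (not_lt.2 (mul_nonneg (not_lt.1 hc) hD2.le))
      have b2 : 0 ≤ s * -det3 x u e := mul_nonneg_of_nonpos_of_nonpos b1.le (by linarith)
      linarith
    · exact ⟨-1, by rw [a1]; ring, by rw [a2]; ring⟩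
  have nd : det4 P E U M ≠ 0 := by
    rw [j_det4_swap, k1]
    intro h
    have : s * det4 P U E M = 0 := by rw [k1]; linear_combination (-s) * h
    linarith
  refine LinearMap.ext fun z => ?_
  rw [← sub_eq_zero]
  have i1 := jL_iso n1 hPP hPU hPE hUU hUE hEE
  have i2 := jL_iso n2 hPP hPE hPF hEE hEF hFF
  have sub_q : ∀ a b c : V4, q (a - b) c = q a c - q b c := fun a b c => by simp [q]; ring
  refine j_zero (P := P) (Q := E) (R := U) (M := M) (η := eta x e) nd (by rw [hPP, hxx])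
    (by rw [hEE, hee]) hPE hη hM hPM hEM ?_ ?_ ?_ ?_
  · rw [sub_q]
    have a1 := i1 z x
    have a2 := i2 z x
    rw [jL_1 n1] at a1
    rw [jL_1 n2] at a2
    rw [a1, a2, sub_self]
  · rw [sub_q]
    have a1 := i1 z e
    have a2 := i2 z e
    rw [jL_3 n1] at a1
    rw [jL_2 n2] at a2
    rw [a1, a2, sub_self]
  · rw [sub_q, jL_orth n1 hPM hUM hEM, jL_orth n2 hPM hEM hFM, sub_self]
  · have b1 : det4 P E (jL x u e P U E z) M = κ * det3 x e z := by
      obtain ⟨l, a, b, rfl⟩ := j_exp n1 z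
      rw [jL_comb n1]
      have c1 : l • P + a • U + b • E = l • P + b • E + a • U := by abel
      rw [c1, j_d3, j_det4_swap, k1]
      rw [j_det3_add_r, j_det3_add_r, j_det3_smul_r, j_det3_smul_r, j_det3_smul_r]
      have c2 : det3 x e x = 0 := by simp [det3, Matrix.det_fin_three]; ring
      have c3 : det3 x e e = 0 := by simp [det3, Matrix.det_fin_three]; ring
      rw [c2, c3, j_det3_swap x e u]
      ring
    have b2 : det4 P E (jL x e f P E F z) M = κ * det3 x e z := by
      obtain ⟨l, a, b, rfl⟩ := j_exp n2 z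
      rw [jL_comb n2, j_d3, k2]
      rw [j_det3_add_r, j_det3_add_r, j_det3_smul_r, j_det3_smul_r, j_det3_smul_r]
      have c2 : det3 x e x = 0 := by simp [det3, Matrix.det_fin_three]; ring
      have c3 : det3 x e e = 0 := by simp [det3, Matrix.det_fin_three]; ring
      rw [c2, c3]
      ring
    have c := (det4_lin P E (jL x u e P U E z) M P E (jL x e f P E F z) M 1 (-1)).2.2.1
    rw [b1, b2] at c
    have c5 : (1 : ℝ) • jL x u e P U E z + (-1 : ℝ) • jL x e f P E F z =
        jL x u e P U E z - jL x e f P E F z := by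
      rw [one_smul, neg_one_smul, sub_eq_add_neg]
    rw [c5] at c
    rw [c]
    ring

/- Proof:
Put K z = Y z - T z • M. For z, w in a common cell: q (K z)(K w) = q (Y z)(Y w) - T w q (Y z) M - T z q M (Y w) + T z T w q M M = q (Y z)(Y w) + T w T z + T z T w - T z T w = q (Y z)(Y w) + T z T w (hX: q (Y z) M = -T z) and q (Y z)(Y w) = q (Y0 z)(Y0 w) = eta z w - T z T w (Y0 sigma T z = emb z (sigma T z), q (emb a r)(emb b r') = eta a b - r r', sigma^2 = 1). So q (K z)(K w) = eta z w for z, w in H2 in a common cell; q (K z) M = -T z + T z = 0.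
Take a fan (k,y,j) at x (h.sub.fan). For each i let L_i : V3 -> V4 be the linear map with L_i x = K x, L_i (y i) = K (y i), L_i (y (i+1)) = K (y (i+1)) (x, y i, y (i+1) is a basis of V3 by det3 > 0, det3_lin). q (L_i v)(L_i w) = eta v w for all v, w, and q (L_i v) M = 0 (check on the basis).
Claim L_{i+1} = L_i. Both agree on x and e := y (i+1). Orientation: det4 (K x)(K (y i))(K (y (i+1))) M = det4 (Y x)(Y (y i))(Y (y (i+1))) M (multilinear, alternating: adding multiples of M does not matter). Y x, Y (y i), Y (y (i+1)), n (j i) is a basis of V4 (h.poly.ori with hf.cell, hf.ori; det4_lin), M = r1 Y x + r2 Y (y i) + r3 Y(y (i+1)) + r4 n (j i), q with n (j i): q M (n (j i)) = -r4 so r4 = -q (n (j i)) M < 0 (hn). So det4 (..) M = r4 det4(Y x)(Y (y i))(Y(y (i+1)))(n (j i)) has the sign of -s (s from h.poly.ori): s * det4 (K x)(K (y i))(K(y (i+1))) M < 0, i.e. with the linear map L_i: s * det4 (L_i a)(L_i b)(L_i c) M has the sign opposite to det3 a b c for all a,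 b, c (det4 (L_i a)(L_i b)(L_i c) M = kappa_i det3 a b c with a constant kappa_i by multilinearity; kappa_i s < 0).
Let w in V3 be the vector eta-orthogonal to x and e with eta w w = 1 (exists: normal of the plane spanned by x and e, which contains the timelike vector x; w is spacelike; (x, e, w) is a basis). L_i w and L_{i+1} w are both unit vectors orthogonal to K x, K e and M, and this orthogonal complement is a line (K x, K e, M, L_i w is a basis of V4: the Gram matrix is nondegenerate), so L_{i+1} w = ± L_i w. The sign is + because kappa_i and kappa_{i+1} have the same sign: det4 (K x)(K e)(L_i w) M = kappa_i det3 x e w, det4 (K x)(K e)(L_{i+1} w) M = kappa_{i+1} det3 x e w. So L_i = L_{i+1} =: L for all i.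
star6: for z in H2, -eta x z < r: z = l x + a y_i + b y_{i+1}, l > 0, a, b >= 0, in the cone of the cell C (j i). K is additive and positively homogeneous on each cell in the sense K z := Y z + q (Y z) M • M (which equals Y z - T z M for z in H2) and Y is additive on the cell: so K z = l K x + a K (y i) + b K (y (i+1)) = L z.
-/
theorem linloc6 {ι : Type*} {C : ι → Set V3} {Y : V3 → V4} {n : ι → V4} (h : PolyGood C Y n) {σ : ℝ} {T : V3 → ℝ}
    (hσ : σ = 1 ∨ σ = -1) (hs : SameCellMetric C Y (Y0 σ T)) {M : V4} (hM : q M M = -1)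
    (hX : ∀ x ∈ H2, q (Y x) M = -T x) {x : V3} (hx : x ∈ H2) (hn : ∀ i, x ∈ C i → 0 < q (n i) M) :
    ∃ L : V3 →ₗ[ℝ] V4, (∀ v w, q (L v) (L w) = eta v w) ∧ (∀ v, q (L v) M = 0) ∧
      ∃ r : ℝ, 1 < r ∧ ∀ z ∈ H2, -eta x z < r → Y z = L z + T z • M := by
  have hσ2 : σ ^ 2 = 1 := by rcases hσ with rfl | rfl <;> norm_num
  set K : V3 → V4 := fun z => Y z + q (Y z) M • M with hK
  have kk1 : ∀ i, ∀ z ∈ H2, ∀ w ∈ H2, z ∈ C i → w ∈ C i → q (K z) (K w) = eta z w := by
    intro i z hz w hw hzi hwi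
    have h1 := hs i z hzi w hwi
    have h2 : q (Y0 σ T z) (Y0 σ T w) = eta z w - T z * T w := by
      have : q (Y0 σ T z) (Y0 σ T w) = eta z w - σ ^ 2 * (T z * T w) := by
        simp [Y0, emb, q, eta]
        ring
      rw [this, hσ2, one_mul]
    simp only [hK, j_qal, j_qar, j_qsl, j_qsr]
    rw [j_qs M (Y w), hM, hX z hz, hX w hw, h1, h2]
    ring
  have kk2 : ∀ z, q (K z) M = 0 := by
    intro z
    simp only [hK, j_qal, j_qsl]
    rw [hM]
    ring
  obtain ⟨s, hs0⟩ := h.poly.ori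
  obtain ⟨k, y, j, hf⟩ := h.sub.fan x hx
  have hD : ∀ i, 0 < det3 x (y i) (y (i + 1)) := hf.ori
  have hsg : ∀ i, s * det4 (K x) (K (y i)) (K (y (i + 1))) M < 0 := by
    intro i
    obtain ⟨c1, c2, c3⟩ := hf.cell i
    simp only [hK]
    rw [j_det_shift]
    exact j_sign (hs0 (j i) x c1 (y i) c2 (y (i + 1)) c3 (hD i)) (h.poly.nn _)
      (h.poly.nY _ x c1) (h.poly.nY _ _ c2) (h.poly.nY _ _ c3) (hn _ c1)
  have hxx : eta x x = -1 := hx.1
  have hyy : ∀ i, eta (y i) (y i) = -1 := fun i => (hf.mem i).1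
  set L : ℕ → (V3 →ₗ[ℝ] V4) := fun i =>
    jL x (y i) (y (i + 1)) (K x) (K (y i)) (K (y (i + 1))) with hL
  have step : ∀ i, L i = L (i + 1) := by
    intro i
    obtain ⟨c1, c2, c3⟩ := hf.cell i
    obtain ⟨d1, d2, d3⟩ := hf.cell (i + 1)
    have m0 := hf.mem i
    have m1 := hf.mem (i + 1)
    have m2 := hf.mem (i + 1 + 1)
    refine j_adj (s := s) hxx (hyy (i + 1)) ?_ (hD i) (hD (i + 1)) hM (kk2 _) (kk2 _) (kk2 _)
      (kk2 _) (kk1 _ x hx x hx c1 c1) (kk1 _ x hx _ m0 c1 c2) (kk1 _ x hx _ m1 c1 c3)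
      (kk1 _ x hx _ m2 d1 d3) (kk1 _ _ m0 _ m0 c2 c2) (kk1 _ _ m0 _ m1 c2 c3)
      (kk1 _ _ m1 _ m1 c3 c3) (kk1 _ _ m1 _ m2 d2 d3) (kk1 _ _ m2 _ m2 d3 d3) (hsg i)
      (hsg (i + 1))
    intro hc
    have := j_sep hx m1 hc
    exact (fan_ne hf i).2 this
  have all : ∀ i, L i = L 0 := by
    intro i
    induction i with
    | zero => rfl
    | succ i ih => rw [← step i, ih]
  obtain ⟨c1, c2, c3⟩ := hf.cell 0
  have m0 := hf.mem 0
  have m1 := hf.mem (0 + 1)
  refine ⟨L 0, ?_, ?_, ?_⟩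
  · exact jL_iso (hD 0).ne' (kk1 _ x hx x hx c1 c1) (kk1 _ x hx _ m0 c1 c2)
      (kk1 _ x hx _ m1 c1 c3) (kk1 _ _ m0 _ m0 c2 c2) (kk1 _ _ m0 _ m1 c2 c3)
      (kk1 _ _ m1 _ m1 c3 c3)
  · exact jL_orth (hD 0).ne' (kk2 _) (kk2 _) (kk2 _)
  · obtain ⟨r, hr, hstar⟩ := star6 hx hf
    refine ⟨r, hr, fun z hz hzr => ?_⟩
    obtain ⟨i, _, l, a, b, hl, ha, hb, hz'⟩ := hstar z hz hzr
    obtain ⟨e1, e2, e3⟩ := hf.cell i
    have hY : Y z = l • Y x + a • Y (y i) + b • Y (y (i + 1)) := by
      rw [hz']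
      exact j_Ycomb h e1 e2 e3 hl ha hb
    have hKz : K z = L 0 z := by
      rw [← all i]
      have : L i z = l • K x + a • K (y i) + b • K (y (i + 1)) := by
        rw [hz']
        exact jL_comb (hD i).ne' _ _ _ l a b
      rw [this]
      simp only [hK]
      rw [hY]
      simp only [j_qal, j_qsl, add_smul, smul_add, mul_smul]
      abel
    rw [← hKz]
    simp only [hK]
    rw [hX z hz]
    simp

end A_linloc6

alias linloc6 := A_linloc6.linloc6

namespace A_lin6

/- Proof: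
By linloc6 every x in H2 has a linear isometry L_x with Y z = L_x z + T z M for z in H2 near x. Fix x0 = ![1,0,0] and L = L_{x0}. For y in H2 take the geodesic g s = geo x0 v s from x0 to y, 0 <= s <= d (exists_geo). A = {s in [0,d] : L_{g s} = L} contains 0. If s, s' are close then the neighbourhoods of g s and g s' on which L_{g s}, L_{g s'} represent Y - T M intersect in a nonempty open set: precisely for fixed s, with radius r of L_{g s}: for s' with cosh(s - s') < r the point g s' lies in {z : -eta (g s) z < r}, and the intersection O of this open set with {z : -eta (g s') z < r'} is open and contains g s'; L_{g s} z = L_{g s'} z for z in O cap H2 so L_{g s} = L_{g s'} by lin_open6 applied to each coordinate of the difference. Hence A is open and its complement is open, A = [0,d]. So L_y = L and Y y = L y + T y M.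
-/
theorem lin6 {ι : Type*} {C : ι → Set V3} {Y : V3 → V4} {n : ι → V4} (h : PolyGood C Y n) {σ : ℝ} {T : V3 → ℝ}
    (hσ : σ = 1 ∨ σ = -1) (hs : SameCellMetric C Y (Y0 σ T)) {M : V4} (hM : q M M = -1)
    (hX : ∀ x ∈ H2, q (Y x) M = -T x) (hn : ∀ x ∈ H2, ∀ i, x ∈ C i → 0 < q (n i) M) :
    ∃ L : V3 →ₗ[ℝ] V4, (∀ v w, q (L v) (L w) = eta v w) ∧ (∀ v, q (L v) M = 0) ∧
      ∀ z ∈ H2, Y z = L z + T z • M := by
  have hec : ∀ x : V3, Continuous fun z : V3 => eta x z := by
    intro x
    unfold eta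
    fun_prop
  have H : ∀ x ∈ H2, ∃ L : V3 →ₗ[ℝ] V4, ∃ r : ℝ, (∀ v w, q (L v) (L w) = eta v w) ∧
      (∀ v, q (L v) M = 0) ∧ 1 < r ∧ ∀ z ∈ H2, -eta x z < r → Y z = L z + T z • M := by
    intro x hx
    obtain ⟨L, h1, h2, r, hr, h3⟩ := linloc6 h hσ hs hM hX hx (hn x hx)
    exact ⟨L, r, h1, h2, hr, h3⟩
  choose! L r h1 h2 hr h3 using H
  have self : ∀ x ∈ H2, -eta x x = 1 := by
    intro x hx
    rw [hx.1]
    norm_num
  have key : ∀ x ∈ H2, ∀ x' ∈ H2, -eta x x' < r x → L x' = L x := by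
    intro x hx x' hx' hlt
    apply LinearMap.ext
    intro z
    funext j
    have hO : IsOpen {z : V3 | -eta x z < r x ∧ -eta x' z < r x'} :=
      (isOpen_lt (hec x).neg continuous_const).inter (isOpen_lt (hec x').neg continuous_const)
    have hmem : x' ∈ {z : V3 | -eta x z < r x ∧ -eta x' z < r x'} :=
      ⟨hlt, by rw [self x' hx']; exact hr x' hx'⟩
    have h0 : (LinearMap.proj j : V4 →ₗ[ℝ] ℝ).comp (L x' - L x) = 0 := by
      apply lin_open6 hO hx' hmem
      rintro z hz ⟨hz1, hz2⟩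
      have e1 := h3 x hx z hz hz1
      have e2 := h3 x' hx' z hz hz2
      have e3 : L x' z = L x z := add_right_cancel (e2.symm.trans e1)
      simp [e3]
    have h4 := congrArg (fun f : V3 →ₗ[ℝ] ℝ => f z) h0
    simpa [sub_eq_zero] using h4
  have hx0 : (![1, 0, 0] : V3) ∈ H2 := by
    constructor
    · simp [eta]
    · simp
  have all : ∀ y ∈ H2, L y = L ![1, 0, 0] := by
    intro y hy
    obtain ⟨d, v, -, hv, hd⟩ := exists_geo hx0 hy
    have hlc : IsLocallyConstant fun s : ℝ => L (geo ![1, 0, 0] v s) := by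
      rw [IsLocallyConstant.iff_eventually_eq]
      intro s
      have hs1 := geo_mem hx0 hv s
      have hc : Filter.Tendsto (fun s' : ℝ => Real.cosh (s' - s)) (nhds s) (nhds (Real.cosh (s - s))) :=
        (Real.continuous_cosh.comp (continuous_id.sub continuous_const)).tendsto s
      rw [sub_self, Real.cosh_zero] at hc
      filter_upwards [hc.eventually (gt_mem_nhds (hr _ hs1))] with s' hs'
      refine key _ hs1 _ (geo_mem hx0 hv s') ?_
      have e1 := (geo_add ![1, 0, 0] v s (s' - s)).1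
      have e2 := eta_geo hs1 (geo_UT hx0 hv s) (s' - s)
      rw [e1, add_sub_cancel] at e2
      rw [e2, neg_neg]
      exact hs'
    have h5 := hlc.apply_eq_of_preconnectedSpace d 0
    simp only [hd, (geo_zero _ v).1] at h5
    exact h5
  refine ⟨L ![1, 0, 0], h1 _ hx0, h2 _ hx0, fun z hz => ?_⟩
  rw [← all z hz]
  exact h3 z hz z hz (by rw [self z hz]; exact hr z hz)

end A_lin6

alias lin6 := A_lin6.lin6

end Helper935.Poly
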