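import Pool.Agent.Helper935_AdS.PSurf

namespace Helper935.Poly

namespace A_we_basic6

/- Proof:
Let C = -q (X x)(X y) >= 1 (h.chord). WE = cosh t cosh s C - sinh t sinh s - 1 = cosh t cosh s (C - 1) + (cosh (t - s) - 1), cosh (t-s) = cosh t cosh s - sinh t sinh s, and cosh t cosh s >= 1.
-/
theorem we_basic6 {S : NS} {c : ℝ} (h : NGood S c) {x y : V3} (hx : x ∈ H2) (hy : y ∈ H2) (t s : ℝ) :
    Real.cosh t * Real.cosh s * (-q (S.X x) (S.X y) - 1) ≤ WE S.X x t y s ∧
    -q (S.X x) (S.X y) - 1 ≤ WE S.X x t y s ∧ Real.cosh (t - s) - 1 ≤ WE S.X x t y s ∧ 0 ≤ WE S.X x t y s := by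
  have hC := h.chord x hx y hy
  set C := -q (S.X x) (S.X y) with hCd
  have hC1 : 0 ≤ C - 1 := by linarith
  have e : WE S.X x t y s = Real.cosh t * Real.cosh s * (C - 1) + (Real.cosh (t - s) - 1) := by
    unfold WE
    rw [Real.cosh_sub, hCd]
    ring
  have h1 : 1 ≤ Real.cosh t * Real.cosh s := by
    have := Real.one_le_cosh t
    have := Real.one_le_cosh s
    nlinarith
  have h2 : 1 ≤ Real.cosh (t - s) := Real.one_le_cosh _
  rw [e]
  have h3 : C - 1 ≤ Real.cosh t * Real.cosh s * (C - 1) := by nlinarith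
  refine ⟨?_, ?_, ?_, ?_⟩ <;> linarith

end A_we_basic6

alias we_basic6 := A_we_basic6.we_basic6

namespace A_zz_we6

theorem zz_we6_expand (a b c d : ℝ) (X Y V : V4) :
    q (a • X - b • V) (c • Y - d • V) =
      a * c * q X Y - a * d * q X V - b * c * q Y V + b * d * q V V := by
  simp only [q, Pi.sub_apply, Pi.smul_apply, smul_eq_mul]
  ring

theorem zz_we6_expand1 (a b : ℝ) (X V : V4) :
    q (a • X - b • V) V = a * q X V - b * q V V := by
  simp only [q, Pi.sub_apply, Pi.smul_apply, smul_eq_mul]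
  ring

theorem zz_we6 {S : NS} {c : ℝ} (h : NGood S c) {V : V4} (hV : q V V = -1) {x y : V3} (hx : x ∈ H2) (hy : y ∈ H2) {t s : ℝ}
    (ht : FF S.X V x t = 0) (hs : FF S.X V y s = 0) :
    WE S.X x t y s = -q (zz S.X V x t) (zz S.X V y s) - 1 ∧ q (zz S.X V x t) V = 0 ∧
    q (zz S.X V x t) (zz S.X V x t) = -1 := by
  have hXX := h.XX x hx
  have _hYY := h.XX y hy
  unfold FF at ht hs
  have hcs := Real.cosh_sq t
  refine ⟨?_, ?_, ?_⟩
  · unfold WE zz
    rw [zz_we6_expand, hV]
    linear_combination (-Real.sinh s) * ht + (-Real.sinh t) * hs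
  · unfold zz
    rw [zz_we6_expand1, hV]
    linear_combination ht
  · unfold zz
    rw [zz_we6_expand, hV, hXX]
    linear_combination (-2 * Real.sinh t) * ht - hcs

end A_zz_we6

alias zz_we6 := A_zz_we6.zz_we6

namespace A_md_exists6

/- Proof:
Work with functions w : Fin (M+1) -> V3 x R (extend by constants outside 0..M at the end). D = {w : w 0, w M prescribed, (w i).1 in H2, 0 <= FF S.X V (w i)} is closed (H2 closed, FF continuous on H2 x R by contX), nonempty (the given w), and the energy En is continuous on it. Sublevel set {En <= E}: every term satisfies 0 <= WE_i <= E (we_basic6, all terms are >= 0), hence cosh(t_i - t_{i+1}) - 1 <= E and cosh(c d_i) <= -q(X_i)(X_{i+1}) <= 1 + E where cosh d_i = -eta P_i P_{i+1} (chord6). So |t_i - t_{i+1}| and d_i are bounded by constants, and starting at the fixed w 0 all t_i are bounded and all P_i lie in a fixed ball {-eta P_0 x <= R} (H2_triangle, induction), which is compact (H2_ball). So D cap {En <= En(w)}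 is compact and En attains its minimum.
-/
theorem md_exists6_aux_bound {S : NS} {c : ℝ} (h : NGood S c) {V : V4} (M : ℕ) (E : ℝ)
    (f : ℕ → V3 × ℝ) (hf : Adm S.X V M f) (hE : En S.X M f ≤ E) :
    ∀ i ≤ M, -eta (f 0).1 (f i).1 ≤ Real.cosh ((i : ℝ) * (2 * (1 + E) / c)) ∧
      |(f i).2 - (f 0).2| ≤ (i : ℝ) * (2 * (1 + E)) := by
  have hc := h.c_pos
  have hterm0 : ∀ i ∈ Finset.range M,
      0 ≤ WE S.X (f i).1 (f i).2 (f (i + 1)).1 (f (i + 1)).2 := by
    intro i hi
    have hi' := Finset.mem_range.1 hi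
    exact (we_basic6 h (hf i (by omega)).1 (hf (i + 1) (by omega)).1 _ _).2.2.2
  have hterm : ∀ i < M, WE S.X (f i).1 (f i).2 (f (i + 1)).1 (f (i + 1)).2 ≤ E := by
    intro i hi
    exact le_trans (Finset.single_le_sum hterm0 (Finset.mem_range.2 hi)) hE
  have hE0 : 0 ≤ E := le_trans (Finset.sum_nonneg hterm0) hE
  have hD : 1 + E ≤ Real.cosh (2 * (1 + E)) := by
    rw [Real.cosh_eq]
    have h1 := Real.add_one_le_exp (2 * (1 + E))
    have h2 := Real.exp_pos (-(2 * (1 + E)))
    linarith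
  intro i
  induction i with
  | zero =>
    intro _
    have hx := (hf 0 (Nat.zero_le _)).1
    have h1 : eta (f 0).1 (f 0).1 = -1 := hx.1
    constructor
    · rw [h1]
      simp
    · simp
  | succ i ih =>
    intro hi
    obtain ⟨ih1, ih2⟩ := ih (by omega)
    have hx := (hf i (by omega)).1
    have hy := (hf (i + 1) hi).1
    have hx0 := (hf 0 (Nat.zero_le _)).1
    obtain ⟨-, b2, b3, -⟩ := we_basic6 h hx hy (f i).2 (f (i + 1)).2
    have hle := hterm i (by omega)
    have hDc : 0 ≤ 2 * (1 + E) / c := by positivity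
    constructor
    · obtain ⟨d, v, hd, hv, hg⟩ := exists_geo hx hy
      have e1 := eta_geo hx hv d
      rw [hg] at e1
      have e2 : -eta (f i).1 (f (i + 1)).1 = Real.cosh d := by rw [e1]; ring
      have e3 := chord6 h hx hy hd e2
      have e4 : Real.cosh (c * d) ≤ Real.cosh (2 * (1 + E)) := by linarith
      rw [Real.cosh_le_cosh, abs_of_nonneg (by positivity), abs_of_nonneg (by positivity)] at e4
      have e5 : d ≤ 2 * (1 + E) / c := by
        rw [le_div_iff₀ hc]
        linarith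
      have e6 : -eta (f i).1 (f (i + 1)).1 ≤ Real.cosh (2 * (1 + E) / c) := by
        rw [e2, Real.cosh_le_cosh, abs_of_nonneg hd, abs_of_nonneg hDc]
        exact e5
      have := H2_triangle hx0 hx hy (by positivity) hDc ih1 e6
      convert this using 2
      push_cast
      ring
    · have e4 : Real.cosh ((f i).2 - (f (i + 1)).2) ≤ Real.cosh (2 * (1 + E)) := by linarith
      rw [Real.cosh_le_cosh, abs_of_nonneg (by positivity : (0 : ℝ) ≤ 2 * (1 + E))] at e4
      have e5 : (f (i + 1)).2 - (f 0).2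
          = -((f i).2 - (f (i + 1)).2) + ((f i).2 - (f 0).2) := by ring
      rw [e5]
      refine le_trans (abs_add_le _ _) ?_
      rw [abs_neg]
      push_cast
      linarith

theorem md_exists6_aux_En {S : NS} (M : ℕ) (f g : ℕ → V3 × ℝ) (hfg : ∀ i ≤ M, f i = g i) :
    En S.X M f = En S.X M g := by
  unfold En
  apply Finset.sum_congr rfl
  intro i hi
  have := Finset.mem_range.1 hi
  rw [hfg i (by omega), hfg (i + 1) (by omega)]

theorem md_exists6 {S : NS} {c : ℝ} (h : NGood S c) {V : V4} (M : ℕ) (w : ℕ → V3 × ℝ) (hw : Adm S.X V M w) :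
    ∃ w' : ℕ → V3 × ℝ, w' 0 = w 0 ∧ w' M = w M ∧ Adm S.X V M w' ∧
      ∀ w'' : ℕ → V3 × ℝ, w'' 0 = w 0 → w'' M = w M → Adm S.X V M w'' → En S.X M w' ≤ En S.X M w'' := by
  classical
  have hc := h.c_pos
  have hx0 := (hw 0 (Nat.zero_le _)).1
  set E := En S.X M w with hEdef
  have hE0 : 0 ≤ E := by
    apply Finset.sum_nonneg
    intro i hi
    have hi' := Finset.mem_range.1 hi
    exact (we_basic6 h (hw i (by omega)).1 (hw (i + 1) (by omega)).1 _ _).2.2.2
  set R := Real.cosh ((M : ℝ) * (2 * (1 + E) / c)) with hR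
  set T := |(w 0).2| + (M : ℝ) * (2 * (1 + E)) with hT
  -- the compact set of admissible points
  have hFcont : ContinuousOn (fun p : V3 × ℝ => FF S.X V p.1 p.2) (H2 ×ˢ (Set.univ : Set ℝ)) := by
    have hX : ContinuousOn (fun p : V3 × ℝ => S.X p.1) (H2 ×ˢ (Set.univ : Set ℝ)) :=
      h.contX.comp continuous_fst.continuousOn (fun p hp => hp.1)
    have hXk : ∀ k : Fin 4, ContinuousOn (fun p : V3 × ℝ => S.X p.1 k)
        (H2 ×ˢ (Set.univ : Set ℝ)) := fun k => (continuousOn_pi.1 hX) k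
    have hsinh : ContinuousOn (fun p : V3 × ℝ => Real.sinh p.2) (H2 ×ˢ (Set.univ : Set ℝ)) :=
      (Real.continuous_sinh.comp continuous_snd).continuousOn
    have hcosh : ContinuousOn (fun p : V3 × ℝ => Real.cosh p.2) (H2 ×ˢ (Set.univ : Set ℝ)) :=
      (Real.continuous_cosh.comp continuous_snd).continuousOn
    unfold FF q
    exact hsinh.add (hcosh.mul (((((hXk 0).mul continuousOn_const).neg.add
      ((hXk 1).mul continuousOn_const)).add ((hXk 2).mul continuousOn_const)).sub
      ((hXk 3).mul continuousOn_const)))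
  have hAcl : IsClosed ((H2 ×ˢ (Set.univ : Set ℝ)) ∩
      (fun p : V3 × ℝ => FF S.X V p.1 p.2) ⁻¹' Set.Ici 0) :=
    hFcont.preimage_isClosed_of_isClosed (H2_closed.prod isClosed_univ) isClosed_Ici
  set C : Set (V3 × ℝ) := (({x | x ∈ H2 ∧ -eta (w 0).1 x ≤ R} : Set V3) ×ˢ Set.Icc (-T) T) ∩
    ((H2 ×ˢ (Set.univ : Set ℝ)) ∩ (fun p : V3 × ℝ => FF S.X V p.1 p.2) ⁻¹' Set.Ici 0) with hC
  have hCcpt : IsCompact C := ((H2_ball hx0 R).prod isCompact_Icc).inter_right hAcl
  set K : ℕ → Set (V3 × ℝ) := fun i => if i ≤ M then C else {w 0} with hK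
  have hKcpt : ∀ i, IsCompact (K i) := by
    intro i
    simp only [hK]
    split_ifs
    · exact hCcpt
    · exact isCompact_singleton
  set D : Set (ℕ → V3 × ℝ) := Set.pi Set.univ K ∩ ({f | f 0 = w 0} ∩ {f | f M = w M}) with hD
  have hDcpt : IsCompact D := by
    apply (isCompact_univ_pi hKcpt).inter_right
    exact (isClosed_eq (continuous_apply 0) continuous_const).inter
      (isClosed_eq (continuous_apply M) continuous_const)
  have hDH : ∀ i ≤ M, ∀ f ∈ D, (f i).1 ∈ H2 ∧ 0 ≤ FF S.X V (f i).1 (f i).2 := by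
    intro i hi f hf
    have h1 : f i ∈ K i := hf.1 i (Set.mem_univ _)
    simp only [hK, if_pos hi] at h1
    exact ⟨h1.2.1.1, h1.2.2⟩
  have hDadm : ∀ f ∈ D, Adm S.X V M f := fun f hf i hi => hDH i hi f hf
  -- membership
  have hmem : ∀ f : ℕ → V3 × ℝ, Adm S.X V M f → f 0 = w 0 → f M = w M → En S.X M f ≤ E →
      (fun i => if i ≤ M then f i else w 0) ∈ D := by
    intro f hf h0 hM hfE
    have hb := md_exists6_aux_bound h M E f hf hfE
    refine ⟨?_, ?_, ?_⟩
    · intro i _
      by_cases hi : i ≤ M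
      · simp only [hK, if_pos hi]
        obtain ⟨b1, b2⟩ := hb i hi
        rw [h0] at b1 b2
        have hiM : (i : ℝ) ≤ M := by exact_mod_cast hi
        refine ⟨⟨⟨(hf i hi).1, ?_⟩, ?_⟩, ⟨(hf i hi).1, Set.mem_univ _⟩, (hf i hi).2⟩
        · refine le_trans b1 ?_
          rw [hR, Real.cosh_le_cosh, abs_of_nonneg (by positivity), abs_of_nonneg (by positivity)]
          exact mul_le_mul_of_nonneg_right hiM (by positivity)
        · have b3 : |(f i).2| ≤ T := by
            have e : (f i).2 = ((f i).2 - (w 0).2) + (w 0).2 := by ring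
            rw [e]
            refine le_trans (abs_add_le _ _) ?_
            have : (i : ℝ) * (2 * (1 + E)) ≤ (M : ℝ) * (2 * (1 + E)) :=
              mul_le_mul_of_nonneg_right hiM (by positivity)
            rw [hT]
            linarith
          exact abs_le.1 b3
      · simp only [hK, if_neg hi, Set.mem_singleton_iff]
    · show (if 0 ≤ M then f 0 else w 0) = w 0
      rw [if_pos (Nat.zero_le _), h0]
    · show (if M ≤ M then f M else w 0) = w M
      rw [if_pos le_rfl, hM]
  have hne : D.Nonempty := ⟨_, hmem w hw rfl rfl le_rfl⟩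
  have hcont : ContinuousOn (fun f : ℕ → V3 × ℝ => En S.X M f) D := by
    unfold En
    apply continuousOn_finsetSum
    intro i hi
    have hi' := Finset.mem_range.1 hi
    have hX : ∀ j ≤ M, ContinuousOn (fun f : ℕ → V3 × ℝ => S.X (f j).1) D := by
      intro j hj
      exact h.contX.comp (continuous_fst.comp (continuous_apply j)).continuousOn
        (fun f hf => (hDH j hj f hf).1)
    have hXk : ∀ j ≤ M, ∀ k : Fin 4, ContinuousOn (fun f : ℕ → V3 × ℝ => S.X (f j).1 k) D :=
      fun j hj k => (continuousOn_pi.1 (hX j hj)) k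
    have hsinh : ∀ j, ContinuousOn (fun f : ℕ → V3 × ℝ => Real.sinh (f j).2) D :=
      fun j => (Real.continuous_sinh.comp (continuous_snd.comp (continuous_apply j))).continuousOn
    have hcosh : ∀ j, ContinuousOn (fun f : ℕ → V3 × ℝ => Real.cosh (f j).2) D :=
      fun j => (Real.continuous_cosh.comp (continuous_snd.comp (continuous_apply j))).continuousOn
    have h1 : i ≤ M := by omega
    have h2 : i + 1 ≤ M := by omega
    unfold WE q
    exact (((((hcosh i).mul (hcosh (i + 1))).mul (((((hXk i h1 0).mul (hXk (i + 1) h2 0)).neg.add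
      ((hXk i h1 1).mul (hXk (i + 1) h2 1))).add ((hXk i h1 2).mul (hXk (i + 1) h2 2))).sub
      ((hXk i h1 3).mul (hXk (i + 1) h2 3)))).neg).sub
      ((hsinh i).mul (hsinh (i + 1)))).sub continuousOn_const
  obtain ⟨f0, hf0, hmin⟩ := hDcpt.exists_isMinOn hne hcont
  refine ⟨f0, hf0.2.1, hf0.2.2, hDadm f0 hf0, ?_⟩
  intro w'' h0 hM hadm
  have hwmin : En S.X M f0 ≤ E := by
    have := hmin (hmem w hw rfl rfl le_rfl)
    have e : En S.X M (fun i => if i ≤ M then w i else w 0) = En S.X M w :=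
      md_exists6_aux_En M _ _ (fun i hi => if_pos hi)
    have h3 : En S.X M f0 ≤ En S.X M (fun i => if i ≤ M then w i else w 0) := this
    rw [e] at h3
    exact h3
  by_cases hle : En S.X M w'' ≤ E
  · have h3 : En S.X M f0 ≤ En S.X M (fun i => if i ≤ M then w'' i else w 0) :=
      hmin (hmem w'' hadm h0 hM hle)
    have e : En S.X M (fun i => if i ≤ M then w'' i else w 0) = En S.X M w'' :=
      md_exists6_aux_En M _ _ (fun i hi => if_pos hi)
    rw [e] at h3
    exact h3
  · exact le_trans hwmin (le_of_lt (not_le.1 hle))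

end A_md_exists6

alias md_exists6 := A_md_exists6.md_exists6

namespace A_md_crit6

theorem mk_q_smul (a : ℝ) (X Y : V4) : q (a • X) Y = a * q X Y := by
  simp only [q, Pi.smul_apply, smul_eq_mul]; ring

theorem mk_q_smulr (a : ℝ) (X Y : V4) : q X (a • Y) = a * q X Y := by
  simp only [q, Pi.smul_apply, smul_eq_mul]; ring

theorem mk_q_add (X Y Z : V4) : q (X + Y) Z = q X Z + q Y Z := by
  simp only [q, Pi.add_apply]; ring

theorem mk_q_addr (X Y Z : V4) : q Z (X + Y) = q Z X + q Z Y := by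
  simp only [q, Pi.add_apply]; ring

theorem mk_q_comm (X Y : V4) : q X Y = q Y X := by
  simp only [q]; ring

theorem mk_term {a b C : ℝ} (hC : C ≤ -1) :
    1 ≤ -(Real.cosh a * (Real.cosh b * C)) - Real.sinh a * Real.sinh b := by
  have h1 : 0 < Real.cosh a * Real.cosh b := mul_pos (Real.cosh_pos a) (Real.cosh_pos b)
  have h2 : 1 ≤ Real.cosh a * Real.cosh b - Real.sinh a * Real.sinh b := by
    rw [← Real.cosh_sub]; exact Real.one_le_cosh _
  nlinarith

theorem mk_swap {S : V3 → V4} {V : V4} {M : ℕ} {w : ℕ → V3 × ℝ} (hw : Adm S V M w)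
    (hmin : ∀ w' : ℕ → V3 × ℝ, w' 0 = w 0 → w' M = w M → Adm S V M w' → En S M w ≤ En S M w')
    {i : ℕ} (hi : i + 1 < M) (P : V3) (t : ℝ) (hP : P ∈ H2) (ht : 0 ≤ FF S V P t) :
    WE S (w i).1 (w i).2 (w (i + 1)).1 (w (i + 1)).2 +
      WE S (w (i + 1)).1 (w (i + 1)).2 (w (i + 2)).1 (w (i + 2)).2 ≤
    WE S (w i).1 (w i).2 P t + WE S P t (w (i + 2)).1 (w (i + 2)).2 := by
  classical
  set w' : ℕ → V3 × ℝ := Function.update w (i + 1) (P, t) with hw'
  have e1 : w' (i + 1) = (P, t) := by simp [hw']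
  have e2 : ∀ k, k ≠ i + 1 → w' k = w k := fun k hk => by simp [hw', Function.update_of_ne hk]
  have h0 : w' 0 = w 0 := e2 0 (by omega)
  have hM : w' M = w M := e2 M (by omega)
  have hA : Adm S V M w' := by
    intro k hk
    by_cases hki : k = i + 1
    · subst hki; rw [e1]; exact ⟨hP, ht⟩
    · rw [e2 k hki]; exact hw k hk
  have h := hmin w' h0 hM hA
  unfold En at h
  have key : ∀ u : ℕ → V3 × ℝ, ∑ k ∈ Finset.range M, WE S (u k).1 (u k).2 (u (k + 1)).1 (u (k + 1)).2 =
      WE S (u i).1 (u i).2 (u (i + 1)).1 (u (i + 1)).2 +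
      (WE S (u (i + 1)).1 (u (i + 1)).2 (u (i + 2)).1 (u (i + 2)).2 +
      ∑ k ∈ ((Finset.range M).erase i).erase (i + 1), WE S (u k).1 (u k).2 (u (k + 1)).1 (u (k + 1)).2) := by
    intro u
    rw [← Finset.add_sum_erase (Finset.range M) _ (Finset.mem_range.mpr (by omega : i < M)),
      ← Finset.add_sum_erase ((Finset.range M).erase i) _
        (Finset.mem_erase.mpr ⟨by omega, Finset.mem_range.mpr hi⟩)]
  rw [key w, key w'] at h
  have hs : ∑ k ∈ ((Finset.range M).erase i).erase (i + 1), WE S (w' k).1 (w' k).2 (w' (k + 1)).1 (w' (k + 1)).2 =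
      ∑ k ∈ ((Finset.range M).erase i).erase (i + 1), WE S (w k).1 (w k).2 (w (k + 1)).1 (w (k + 1)).2 := by
    apply Finset.sum_congr rfl
    intro k hk
    simp only [Finset.mem_erase] at hk
    rw [e2 k hk.1, e2 (k + 1) (by omega)]
  rw [hs, e1, e2 i (by omega), e2 (i + 2) (by omega)] at h
  simp only at h
  linarith

/- Proof:
Let (P,t) = w (i+1), A = cosh t_i X_i + cosh t_{i+2} X_{i+2} in V4 and r = sinh t_i + sinh t_{i+2} (t_j, X_j the height and position of w j). Replacing w (i+1) by (P',t') with P' in H2, 0 <= FF S.X V P' t' keeps admissibility and only changes the two terms containing w (i+1), whose sum is Phi(P',t') = -cosh t' q (X P') A - sinh t' r - 2. As FF S.X V P t > 0 and FF is continuous in (q (X P') V, t'), Phi(P',t') >= Phi(P,t) for (X P', t') close to (X P, t).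
Direction t': derivative 0: sinh t * (-q (X P) A) = cosh t * r. Put a = -q (X P) A, lam = a/cosh t: r = lam sinh t, a = lam cosh t. lam = cosh t a - sinh t r = (WE_i + 1) + (WE_{i+1} + 1) >= 2 (cosh t cosh s C - sinh t sinh s >= cosh(t-s) >= 1 by h.chord).
Direction zeta in Dr P (h.dir: X z(s) = cosh s X P + sinh s zeta, 0 <= s <= s0; FF S.X V z(s) t = sinh t + cosh t (cosh s q (X P) V + sinh s q zeta V) > 0 for small s): Phi(z(s),t) >= Phi(P,t) gives cosh s q (X P) A + sinh s q zeta A <= q (X P) A for small s >= 0; first6: q zeta A <= 0.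
Let K = A - a X P: q (X P) K = -a + a = 0 (q (X P) A = -a, q (X P)(X P) = -1), q zeta K = q zeta A <= 0 for zeta in Dr P, and q n K = q n A = cosh t_i q n X_i + cosh t_{i+2} q n X_{i+2} <= 0 for n in Nr P (h.supp, h.NX). pair6: 0 <= q K V. Finally FF_i + FF_{i+2} = r + q A V = lam sinh t + a q (X P) V + q K V = lam FF_{i+1} + q K V >= 2 FF_{i+1} since FF_{i+1} >= 0.
-/
theorem md_crit6 {S : NS} {c : ℝ} (h : NGood S c) {V : V4} (hN : ∀ x ∈ H2, ∀ n ∈ S.Nr x, 0 < q n V) {M : ℕ} {w : ℕ → V3 × ℝ} (hw : Adm S.X V M w)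
    (hmin : ∀ w' : ℕ → V3 × ℝ, w' 0 = w 0 → w' M = w M → Adm S.X V M w' → En S.X M w ≤ En S.X M w')
    {i : ℕ} (hi : i + 1 < M) (hF : 0 < FF S.X V (w (i + 1)).1 (w (i + 1)).2) :
    2 * FF S.X V (w (i + 1)).1 (w (i + 1)).2 ≤ FF S.X V (w i).1 (w i).2 + FF S.X V (w (i + 2)).1 (w (i + 2)).2 := by
  set P := (w (i + 1)).1 with hPdef
  set t := (w (i + 1)).2 with htdef
  set P1 := (w i).1 with hP1def
  set t1 := (w i).2 with ht1def
  set P2 := (w (i + 2)).1 with hP2def
  set t2 := (w (i + 2)).2 with ht2def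
  have hP : P ∈ H2 := (hw (i + 1) (by omega)).1
  have hP1 : P1 ∈ H2 := (hw i (by omega)).1
  have hP2 : P2 ∈ H2 := (hw (i + 2) (by omega)).1
  set A : V4 := Real.cosh t1 • S.X P1 + Real.cosh t2 • S.X P2 with hA
  set r : ℝ := Real.sinh t1 + Real.sinh t2 with hr
  have hPhi : ∀ Q u, WE S.X P1 t1 Q u + WE S.X Q u P2 t2 =
      -(Real.cosh u * q (S.X Q) A) - Real.sinh u * r - 2 := by
    intro Q u
    simp only [WE, hA, hr, mk_q_addr, mk_q_smulr]
    rw [mk_q_comm (S.X P1) (S.X Q)]
    ring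
  have hsw : ∀ Q u, Q ∈ H2 → 0 ≤ FF S.X V Q u →
      -(Real.cosh t * q (S.X P) A) - Real.sinh t * r - 2 ≤
      -(Real.cosh u * q (S.X Q) A) - Real.sinh u * r - 2 := by
    intro Q u hQ hu
    have := mk_swap hw hmin hi Q u hQ hu
    rw [← hPhi, ← hPhi]
    exact this
  have hC : 0 < Real.cosh t := Real.cosh_pos t
  have hCS : Real.cosh t ^ 2 - Real.sinh t ^ 2 = 1 := Real.cosh_sq_sub_sinh_sq t
  -- derivative in the height direction
  have hd1 : Real.sinh t * (-(q (S.X P) A)) = Real.cosh t * r := by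
    have hder : HasDerivAt (fun u : ℝ => -(Real.cosh u * q (S.X P) A) - Real.sinh u * r - 2)
        (-(Real.sinh t * q (S.X P) A) - Real.cosh t * r) t := by
      have h1 := ((Real.hasDerivAt_cosh t).mul_const (q (S.X P) A)).neg
      have h2 := (Real.hasDerivAt_sinh t).mul_const r
      exact (h1.sub h2).sub_const 2
    have hloc : IsLocalMin (fun u : ℝ => -(Real.cosh u * q (S.X P) A) - Real.sinh u * r - 2) t := by
      have hc : Continuous (fun u : ℝ => FF S.X V P u) := by
        unfold FF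
        exact Real.continuous_sinh.add (Real.continuous_cosh.mul continuous_const)
      have hev : ∀ᶠ u in nhds t, 0 < FF S.X V P u :=
        hc.continuousAt.eventually (lt_mem_nhds hF)
      filter_upwards [hev] with u hu
      exact hsw P u hP hu.le
    have := hloc.hasDerivAt_eq_zero hder
    linarith
  -- directions
  have hd2 : ∀ ζ ∈ S.Dr P, q ζ A ≤ 0 := by
    intro ζ hζ
    obtain ⟨-, -, -, s₀, hs₀, hz⟩ := h.dir P hP ζ hζ
    have hc : Continuous (fun s : ℝ => Real.sinh t + Real.cosh t *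
        (Real.cosh s * q (S.X P) V + Real.sinh s * q ζ V)) :=
      continuous_const.add (continuous_const.mul
        ((Real.continuous_cosh.mul continuous_const).add
          (Real.continuous_sinh.mul continuous_const)))
    have h0 : 0 < Real.sinh t + Real.cosh t *
        (Real.cosh 0 * q (S.X P) V + Real.sinh 0 * q ζ V) := by
      rw [Real.cosh_zero, Real.sinh_zero]
      have : FF S.X V P t = Real.sinh t + Real.cosh t * q (S.X P) V := rfl
      rw [this] at hF
      linarith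
    have hev : ∀ᶠ s in nhds (0 : ℝ), 0 < Real.sinh t + Real.cosh t *
        (Real.cosh s * q (S.X P) V + Real.sinh s * q ζ V) :=
      hc.continuousAt.eventually (lt_mem_nhds h0)
    obtain ⟨ε, hε, hball⟩ := Metric.eventually_nhds_iff.mp hev
    refine first6 (a := q (S.X P) A) (b := q ζ A) (s₁ := min s₀ (ε / 2))
      (lt_min hs₀ (by linarith)) ?_
    intro s hs0 hs1
    obtain ⟨z, hzH, hzX, -⟩ := hz s hs0 (hs1.trans (min_le_left _ _))
    have hse : dist s 0 < ε := by
      rw [Real.dist_eq, sub_zero, abs_of_nonneg hs0]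
      have := hs1.trans (min_le_right _ _)
      linarith
    have hpos := hball hse
    have hqV : q (S.X z) V = Real.cosh s * q (S.X P) V + Real.sinh s * q ζ V := by
      rw [hzX, mk_q_add, mk_q_smul, mk_q_smul]
    have hqA : q (S.X z) A = Real.cosh s * q (S.X P) A + Real.sinh s * q ζ A := by
      rw [hzX, mk_q_add, mk_q_smul, mk_q_smul]
    have hFz : 0 ≤ FF S.X V z t := by
      unfold FF
      rw [hqV]
      exact hpos.le
    have h3 := hsw z t hzH hFz
    rw [hqA] at h3
    have h4 : Real.cosh t * (Real.cosh s * q (S.X P) A + Real.sinh s * q ζ A) ≤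
        Real.cosh t * q (S.X P) A := by linarith
    exact le_of_mul_le_mul_left h4 hC
  set a : ℝ := -(q (S.X P) A) with ha
  set K : V4 := A + (-a) • S.X P with hK
  have hXX := h.XX P hP
  have hqXK : q (S.X P) K = 0 := by
    rw [hK, mk_q_addr, mk_q_smulr, hXX]
    rw [ha]; ring
  have hζK : ∀ ζ ∈ S.Dr P, q ζ K ≤ 0 := by
    intro ζ hζ
    have h1 := (h.dir P hP ζ hζ).2.1
    rw [hK, mk_q_addr, mk_q_smulr, mk_q_comm ζ (S.X P), h1, mul_zero, add_zero]
    exact hd2 ζ hζ
  have hnK : ∀ n ∈ S.Nr P, q n K ≤ 0 := by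
    intro n hn
    rw [hK, mk_q_addr, mk_q_smulr, h.NX P hP n hn, mul_zero, add_zero, hA, mk_q_addr,
      mk_q_smulr, mk_q_smulr]
    have h1 : Real.cosh t1 * q n (S.X P1) ≤ 0 :=
      mul_nonpos_of_nonneg_of_nonpos (Real.cosh_pos _).le (h.supp P hP n hn P1 hP1)
    have h2 : Real.cosh t2 * q n (S.X P2) ≤ 0 :=
      mul_nonpos_of_nonneg_of_nonpos (Real.cosh_pos _).le (h.supp P hP n hn P2 hP2)
    linarith
  have hKV : 0 ≤ q K V := pair6 h hP hqXK hζK hnK (fun n hn => (hN P hP n hn).le)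
  have hlam : ∃ l : ℝ, a = l * Real.cosh t ∧ r = l * Real.sinh t := by
    refine ⟨a / Real.cosh t, by field_simp, ?_⟩
    field_simp
    linarith
  obtain ⟨l, hl1, hl2⟩ := hlam
  have hl : 2 ≤ l := by
    have e1 : l = Real.cosh t * a - Real.sinh t * r := by
      rw [hl1, hl2]
      have : Real.cosh t * (l * Real.cosh t) - Real.sinh t * (l * Real.sinh t)
        = l * (Real.cosh t ^ 2 - Real.sinh t ^ 2) := by ring
      rw [this, hCS, mul_one]
    have e2 : q (S.X P) A = Real.cosh t1 * q (S.X P) (S.X P1) + Real.cosh t2 * q (S.X P) (S.X P2) := by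
      rw [hA, mk_q_addr, mk_q_smulr, mk_q_smulr]
    have h1 := mk_term (a := t) (b := t1) (h.chord P hP P1 hP1)
    have h2 := mk_term (a := t) (b := t2) (h.chord P hP P2 hP2)
    rw [e1, ha, e2, hr]
    linarith
  have hsum : FF S.X V P1 t1 + FF S.X V P2 t2 = r + q A V := by
    rw [hA, mk_q_add, mk_q_smul, mk_q_smul, hr]
    unfold FF
    ring
  have hAK : q A V = a * q (S.X P) V + q K V := by
    have e1 := mk_q_add A ((-a) • S.X P) V
    rw [mk_q_smul] at e1
    rw [hK]
    linarith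
  have hFl : r + q A V = l * FF S.X V P t + q K V := by
    have hFF : FF S.X V P t = Real.sinh t + Real.cosh t * q (S.X P) V := rfl
    rw [hAK, hFF]
    linear_combination (q (S.X P) V) * hl1 + hl2
  rw [hsum, hFl]
  nlinarith [mul_nonneg (sub_nonneg.mpr hl) hF.le]

end A_md_crit6

alias md_crit6 := A_md_crit6.md_crit6

namespace A_md_flat6

/- Proof:
Put z_i = zz S.X V (w i).1 (w i).2 for i <= M; zz_we6: q z_i z_i = -1, q z_i V = 0, WE_i = -q z_i z_{i+1} - 1 >= 0 (we_basic6), so q z_i z_{i+1} <= -1. Let d_i = arcosh(-q z_i z_{i+1}) >= 0 for i < M (any d_i >= 0 with cosh d_i = -q z_i z_{i+1}), 0 otherwise. By induction with q_triangle: q z_0 z_j <= -1 and -q z_0 z_j <= cosh(sum_{i<j} d_i) for 1 <= j <= M (start: j = 0, q z_0 z_0 = -1). So cosh T = -q z_0 z_M <= cosh(sum d_i), T <= sum d_i; jensen_cosh.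
-/
theorem md_flat_arcosh {a : ℝ} (ha : 1 ≤ a) : ∃ d : ℝ, 0 ≤ d ∧ Real.cosh d = a := by
  have h1 : Filter.Tendsto Real.cosh Filter.atTop Filter.atTop := by
    refine Filter.tendsto_atTop_mono (fun x => ?_) (Filter.tendsto_id.atTop_div_const two_pos)
    have := Real.add_one_le_exp x
    rw [Real.cosh_eq]
    have h2 := Real.exp_pos (-x)
    simp only [id]
    linarith
  obtain ⟨b, hb⟩ := (Filter.tendsto_atTop.1 h1 a).exists_forall_of_atTop
  have hb0 := hb (max b 0) (le_max_left _ _)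
  have h3 := intermediate_value_Icc (le_max_right b 0) Real.continuous_cosh.continuousOn
  obtain ⟨d, hd, hd2⟩ := h3 ⟨by rw [Real.cosh_zero]; exact ha, hb0⟩
  exact ⟨d, hd.1, hd2⟩

theorem md_flat6 {S : NS} {c : ℝ} (h : NGood S c) {V : V4} (hV : q V V = -1) {M : ℕ} (hM : 0 < M) {w : ℕ → V3 × ℝ} (hw : Adm S.X V M w)
    (h0 : ∀ i ≤ M, FF S.X V (w i).1 (w i).2 = 0) {T : ℝ} (hT : 0 ≤ T)
    (hTT : Real.cosh T = -q (zz S.X V (w 0).1 (w 0).2) (zz S.X V (w M).1 (w M).2)) :
    (M : ℝ) * (Real.cosh (T / M) - 1) ≤ En S.X M w := by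
  obtain ⟨z, hz⟩ : ∃ z : ℕ → V4, z = fun i => zz S.X V (w i).1 (w i).2 := ⟨_, rfl⟩
  have hzi : ∀ i, zz S.X V (w i).1 (w i).2 = z i := fun i => by rw [hz]
  rw [hzi, hzi] at hTT
  have hzz : ∀ i ≤ M, q (z i) V = 0 ∧ q (z i) (z i) = -1 := by
    intro i hi
    have := zz_we6 h hV (hw i hi).1 (hw i hi).1 (h0 i hi) (h0 i hi)
    rw [hzi] at this
    exact this.2
  have hWE : ∀ i < M, WE S.X (w i).1 (w i).2 (w (i + 1)).1 (w (i + 1)).2 = -q (z i) (z (i + 1)) - 1 ∧
      1 ≤ -q (z i) (z (i + 1)) := by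
    intro i hi
    have h1 := zz_we6 h hV (hw i hi.le).1 (hw (i + 1) hi).1 (h0 i hi.le) (h0 (i + 1) hi)
    have h2 := (we_basic6 h (hw i hi.le).1 (hw (i + 1) hi).1 (w i).2 (w (i + 1)).2).2.2.2
    rw [hzi, hzi] at h1
    refine ⟨h1.1, ?_⟩
    rw [h1.1] at h2
    linarith
  have hd : ∀ i, ∃ d : ℝ, 0 ≤ d ∧ (i < M → Real.cosh d = -q (z i) (z (i + 1))) := by
    intro i
    by_cases hi : i < M
    · obtain ⟨d, h1, h2⟩ := md_flat_arcosh (hWE i hi).2
      exact ⟨d, h1, fun _ => h2⟩
    · exact ⟨0, le_refl _, fun h => absurd h hi⟩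
  choose d hd0 hd1 using hd
  have hind : ∀ j ≤ M, q (z 0) (z j) ≤ -1 ∧ -q (z 0) (z j) ≤ Real.cosh (∑ i ∈ Finset.range j, d i) := by
    intro j
    induction j with
    | zero =>
      intro _
      rw [(hzz 0 (Nat.zero_le _)).2]
      simp
    | succ j ih =>
      intro hj
      obtain ⟨i1, i2⟩ := ih (by omega)
      rw [Finset.sum_range_succ]
      have hjM : j < M := by omega
      exact q_triangle hV (hzz 0 (Nat.zero_le _)).2 (hzz j hjM.le).2 (hzz (j + 1) hj).2
        (hzz 0 (Nat.zero_le _)).1 (hzz j hjM.le).1 (hzz (j + 1) hj).1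
        (Finset.sum_nonneg (fun i _ => hd0 i)) (hd0 j) i1 (by linarith [(hWE j hjM).2]) i2
        (le_of_eq (hd1 j hjM).symm)
  have hfin := (hind M le_rfl).2
  rw [← hTT] at hfin
  have hTs : T ≤ ∑ i ∈ Finset.range M, d i := by
    have h1 := Real.cosh_le_cosh.1 hfin
    rwa [abs_of_nonneg hT, abs_of_nonneg (Finset.sum_nonneg (fun i _ => hd0 i))] at h1
  refine (jensen_cosh hM hT hd0 hTs).trans ?_
  unfold En
  apply Finset.sum_le_sum
  intro i hi
  have hi' := Finset.mem_range.1 hi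
  rw [hd1 i hi', (hWE i hi').1]

end A_md_flat6

alias md_flat6 := A_md_flat6.md_flat6

namespace A_min_disc6

/- Proof:
Let w' be the minimiser of md_exists6. f i = FF S.X V (w' i).1 (w' i).2 is >= 0 for i <= M, f 0 = f M = 0, and md_crit6 (applied to w', whose minimality is among paths with the same endpoints) gives the convexity needed for md_zero: all f i = 0 (i <= M). md_flat6 for w' (same endpoints): M (cosh(T/M) - 1) <= En w' <= En w.
-/
theorem min_disc6 {S : NS} {c : ℝ} (h : NGood S c) {V : V4} (hV : q V V = -1) (hN : ∀ x ∈ H2, ∀ n ∈ S.Nr x, 0 < q n V) {M : ℕ} (hM : 0 < M)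
    {w : ℕ → V3 × ℝ} (hw : Adm S.X V M w) (h0 : FF S.X V (w 0).1 (w 0).2 = 0) (h1 : FF S.X V (w M).1 (w M).2 = 0)
    {T : ℝ} (hT : 0 ≤ T) (hTT : Real.cosh T = -q (zz S.X V (w 0).1 (w 0).2) (zz S.X V (w M).1 (w M).2)) :
    (M : ℝ) * (Real.cosh (T / M) - 1) ≤ En S.X M w := by
  obtain ⟨w', hw0, hwM, hadm, hmin⟩ := md_exists6 h (V := V) M w hw
  have hmin' : ∀ w'' : ℕ → V3 × ℝ, w'' 0 = w' 0 → w'' M = w' M → Adm S.X V M w'' →
      En S.X M w' ≤ En S.X M w'' := by
    intro w'' h2 h3 h4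
    exact hmin w'' (h2.trans hw0) (h3.trans hwM) h4
  have hz : ∀ i ≤ M, FF S.X V (w' i).1 (w' i).2 = 0 := by
    apply md_zero (f := fun i => FF S.X V (w' i).1 (w' i).2)
    · show FF S.X V (w' 0).1 (w' 0).2 = 0
      rw [hw0]; exact h0
    · show FF S.X V (w' M).1 (w' M).2 = 0
      rw [hwM]; exact h1
    · intro i hi
      exact (hadm i hi).2
    · intro i hi hF
      exact md_crit6 h hN hadm hmin' hi hF
  have hfl := md_flat6 h hV hM hadm hz hT (by rw [hw0, hwM]; exact hTT)
  exact hfl.trans (hmin w rfl rfl hw)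

end A_min_disc6

alias min_disc6 := A_min_disc6.min_disc6

end Helper935.Poly
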