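import Pool.Agent.Helper935_AdS.PLocA

namespace Helper935.Poly

namespace A_kv_props

theorem kvp_q_add_left (a b c : V4) : q (a + b) c = q a c + q b c := by
  simp [q]; ring
theorem kvp_q_add_right (a b c : V4) : q a (b + c) = q a b + q a c := by
  simp [q]; ring
theorem kvp_q_sub_left (a b c : V4) : q (a - b) c = q a c - q b c := by
  simp [q]; ring
theorem kvp_q_sub_right (a b c : V4) : q a (b - c) = q a b - q a c := by
  simp [q]; ring
theorem kvp_q_smul_left (r : ℝ) (a c : V4) : q (r • a) c = r * q a c := by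
  simp [q]; ring
theorem kvp_q_smul_right (r : ℝ) (a c : V4) : q a (r • c) = r * q a c := by
  simp [q]; ring
theorem kvp_q_neg_left (a c : V4) : q (-a) c = - q a c := by
  simp [q]; ring
theorem kvp_q_neg_right (a c : V4) : q a (-c) = - q a c := by
  simp [q]; ring
theorem kvp_q_comm (a c : V4) : q a c = q c a := by
  simp [q]; ring

theorem kvp_det4_eq (a b c d : V4) : det4 a b c d =
    a 0 * (b 1 * (c 2 * d 3 - c 3 * d 2) - b 2 * (c 1 * d 3 - c 3 * d 1) + b 3 * (c 1 * d 2 - c 2 * d 1))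
    - a 1 * (b 0 * (c 2 * d 3 - c 3 * d 2) - b 2 * (c 0 * d 3 - c 3 * d 0) + b 3 * (c 0 * d 2 - c 2 * d 0))
    + a 2 * (b 0 * (c 1 * d 3 - c 3 * d 1) - b 1 * (c 0 * d 3 - c 3 * d 0) + b 3 * (c 0 * d 1 - c 1 * d 0))
    - a 3 * (b 0 * (c 1 * d 2 - c 2 * d 1) - b 1 * (c 0 * d 2 - c 2 * d 0) + b 2 * (c 0 * d 1 - c 1 * d 0)) := by
  unfold det4
  rw [Matrix.det_succ_row_zero]
  simp [Fin.sum_univ_succ, Matrix.det_fin_three, Matrix.submatrix, Fin.succAbove]
  ring

theorem kvp_core {X e a a' nn nn' : V4} (hX : q X X = -1) (he : q e e = 1) (ha : q a a = 1)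
    (ha' : q a' a' = 1) (hn : q nn nn = -1) (Xe : q X e = 0) (Xa : q X a = 0)
    (Xa' : q X a' = 0) (Xn : q X nn = 0) (Xn' : q X nn' = 0) (ea : q e a = 0) (ea' : q e a' = 0)
    (en : q e nn = 0) (en' : q e nn' = 0) (an : q a nn = 0) (an' : q a' nn' = 0)
    (hsame : q nn nn' < 0) (s : ℝ) (h1 : 0 < s * det4 X a e nn) (h2 : 0 < s * det4 X e a' nn') :
    q a a' ≤ -1 := by
  have hD : det4 X a e nn ≠ 0 := by
    intro h
    rw [h] at h1
    simp at h1
  have span0 := (det4_lin X a e nn 0 0 0 0 0 0).2.2.2.2.2.2.2.2.2.2 hD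
  have span : ∀ Z, q X Z = 0 → q e Z = 0 → Z = (q a Z) • a + (-(q nn Z)) • nn := by
    intro Z hXZ heZ
    obtain ⟨r1, r2, r3, r4, hZ⟩ := span0 Z
    have e1 : q X Z = -r1 := by
      rw [hZ]
      simp only [kvp_q_add_right, kvp_q_smul_right, hX, Xa, Xe, Xn]
      ring
    have e2 : q a Z = r2 := by
      rw [hZ]
      simp only [kvp_q_add_right, kvp_q_smul_right, kvp_q_comm a X, kvp_q_comm a e, ha, Xa, ea, an]
      ring
    have e3 : q e Z = r3 := by
      rw [hZ]
      simp only [kvp_q_add_right, kvp_q_smul_right, kvp_q_comm e X, he, Xe, ea, en]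
      ring
    have e4 : q nn Z = -r4 := by
      rw [hZ]
      simp only [kvp_q_add_right, kvp_q_smul_right, kvp_q_comm nn X, kvp_q_comm nn a,
        kvp_q_comm nn e, hn, Xn, an, en]
      ring
    have h1 : r1 = 0 := by linarith
    have h3 : r3 = 0 := by linarith
    rw [e2, e4, neg_neg]
    rw [h1, h3] at hZ
    rw [hZ]
    simp
  obtain ⟨p, hp⟩ : ∃ p, p = q a a' := ⟨_, rfl⟩
  obtain ⟨r, hr⟩ : ∃ r, r = -(q nn a') := ⟨_, rfl⟩
  obtain ⟨t, ht⟩ : ∃ t, t = q nn nn' := ⟨_, rfl⟩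
  obtain ⟨w, hw⟩ : ∃ w, w = q a nn' := ⟨_, rfl⟩
  have sa := span a' Xa' ea'
  have sn := span nn' Xn' en'
  rw [← hp, ← hr] at sa
  rw [← hw, ← ht] at sn
  have r1 : p ^ 2 - r ^ 2 = 1 := by
    rw [← ha', sa]
    simp only [kvp_q_add_right, kvp_q_smul_right, kvp_q_add_left, kvp_q_smul_left,
      kvp_q_comm nn a, ha, hn, an]
    ring
  have r2 : p * w + r * t = 0 := by
    rw [← an', sa, sn]
    simp only [kvp_q_add_right, kvp_q_smul_right, kvp_q_add_left, kvp_q_smul_left,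
      kvp_q_comm nn a, ha, hn, an]
    ring
  have r3 : det4 X e a' nn' = (p * t + r * w) * det4 X a e nn := by
    rw [sa, sn, kvp_det4_eq, kvp_det4_eq]
    simp only [Pi.add_apply, Pi.smul_apply, smul_eq_mul]
    ring
  have r4 : 0 < p * t + r * w := by
    rw [r3] at h2
    have h3 : 0 < (p * t + r * w) * (s * det4 X a e nn) := by
      calc 0 < s * ((p * t + r * w) * det4 X a e nn) := h2
        _ = _ := by ring
    exact (pos_iff_pos_of_mul_pos h3).2 h1
  have r5 : p * (p * t + r * w) = t := by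
    have : p * (p * t + r * w) = (p ^ 2 - r ^ 2) * t + r * (p * w + r * t) := by ring
    rw [this, r1, r2]
    ring
  have ht0 : t < 0 := by rw [ht]; exact hsame
  have hp0 : p < 0 := by
    by_contra hcon
    push Not at hcon
    have := mul_nonneg hcon r4.le
    rw [r5] at this
    linarith
  rw [← hp]
  nlinarith [sq_nonneg r]

theorem kvp_det_scale (X z e n : V4) (r₀ r₁ r₂ c₁ g₁ c₂ g₂ : ℝ) :
    det4 (r₀ • X) (r₁ • (c₁ • X + g₁ • z)) (r₂ • (c₂ • X + g₂ • e)) n =
      (r₀ * r₁ * r₂ * g₁ * g₂) * det4 X z e n := by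
  rw [kvp_det4_eq, kvp_det4_eq]
  simp only [Pi.add_apply, Pi.smul_apply, smul_eq_mul]
  ring

theorem kvp_det_left (X a e n : V4) (σ c : ℝ) :
    det4 X (σ • a + c • e) e n = σ * det4 X a e n := by
  rw [kvp_det4_eq, kvp_det4_eq]
  simp only [Pi.add_apply, Pi.smul_apply, smul_eq_mul]
  ring

theorem kvp_det_right (X a e n : V4) (σ c : ℝ) :
    det4 X e (σ • a + c • e) n = σ * det4 X e a n := by
  rw [kvp_det4_eq, kvp_det4_eq]
  simp only [Pi.add_apply, Pi.smul_apply, smul_eq_mul]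
  ring

theorem kvp_pos {s c d : ℝ} (hc : 0 < c) (h : 0 < s * (c * d)) : 0 < s * d := by
  have h1 : 0 < (s * d) * c := by
    calc 0 < s * (c * d) := h
      _ = _ := by ring
  exact (pos_iff_pos_of_mul_pos h1).2 hc

/- Proof:
Notation X = nrm Y x, z_l = uv Y x (y l), e = z_{i+1}, al = ang z_i e, be = ang e z_{i+2} in (0,pi) (fan_ang; cos al = q z_i e, cos be = q e z_{i+2}), nn = n (j i), nn' = n (j (i+1)). a = (z_i - cos al e)/sin al, a' = (z_{i+2} - cos be e)/sin be: unit spacelike, orthogonal to X and e, q nn a = 0, q nn' a' = 0 (uv_props), and kv Y x y i = sin al sin be (a + a') (sin(al+be) = sin al cos be + cos al sin be).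
The plane P = {X, e}^perp has signature (1,1) and contains a, nn (orthogonal, q a a = 1, q nn nn = -1), so they form a basis of P and a' = p a + r nn with p = q a a', r = -q a' nn, p^2 - r^2 = 1. [To see that P is spanned by a, nn: X, a, e, nn is an orthogonal basis of V4.] r >= 0: q nn a' = q nn z_{i+2}/sin be <= 0 by uv_props (x in C (j i), q nn e = 0). nn' in P is unit timelike and orthogonal to a': nn' = ep (r a + p nn) with ep = ±1. h.same: q nn nn' = -ep p < 0, so ep p > 0. Orientation: with s from h.poly.ori, s det4 X z_i e nn > 0 and s det4 X e z_{i+2} nn' > 0 (positive multiples of the determinants in ori), i.e. s det4 X a e nn > 0 and s det4 X e a' nn' > 0. det4 X e a' nn' = ep det4 X e (p a + r nn)(r a + p nn) = ep (p^2 - r^2) det4 X e a nn = ep det4 X e a nn = -ep det4 X a e nn. So -ep > 0, ep = -1, p < 0, p <= -1.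
Now K = a + a' = (1+p) a + r nn: q K K = (1+p)^2 - r^2 = 2 + 2p <= 0, q nn K = -r <= 0. First claim: q nn kv <= 0, q kv kv <= 0. For W timelike orthogonal to X with 0 < q (n l) W for all cells l at x: apply revCS with A = X, its W := -W... precisely: U := nn is timelike, q nn (-W) < 0, q K nn <= 0, q K K <= 0 so (iii) gives q K (-W) <= 0, i.e. 0 <= q K W; and if q K W = 0 then K = 0 by (ii).
-/
theorem kv_props {ι : Type*} {C : ι → Set V3} {Y : V3 → V4} {n : ι → V4} (h : PolyGood C Y n) {x : V3} (hx : x ∈ H2) {k : ℕ} {y : ℕ → V3} {j : ℕ → ι} (hf : IsFan C x k y j) (i : ℕ) :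
    q (kv Y x y i) (kv Y x y i) ≤ 0 ∧ q (nrm Y x) (kv Y x y i) = 0 ∧ q (n (j i)) (kv Y x y i) ≤ 0 ∧
    ∀ W, q W W < 0 → q (nrm Y x) W = 0 → 0 < q (n (j i)) W →
      0 ≤ q (kv Y x y i) W ∧ (q (kv Y x y i) W = 0 → kv Y x y i = 0) := by
  obtain ⟨hang, -⟩ := fan_ang h hx hf
  obtain ⟨al0, alpi, hcal⟩ := hang i
  obtain ⟨be0, bepi, hcbe⟩ := hang (i + 1)
  obtain ⟨c1, c2, c3⟩ := hf.cell i
  obtain ⟨c1', c2', c3'⟩ := hf.cell (i + 1)
  have ne1 := (fan_ne hf i).1
  have ne2 := (fan_ne hf i).2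
  have ne3 := (fan_ne hf (i + 1)).2
  obtain ⟨-, zz1, Xz1, nz1, -, Yz1⟩ := uv_props h hx (hf.mem i) ne1 c1 c2
  obtain ⟨-, ee1, Xe1, ne1', -, Ye1⟩ := uv_props h hx (hf.mem (i + 1)) ne2 c1 c3
  obtain ⟨-, -, -, ne1'', -, -⟩ := uv_props h hx (hf.mem (i + 1)) ne2 c1' c2'
  obtain ⟨-, zz3, Xz3, nz3, nz3', Yz3⟩ := uv_props h hx (hf.mem (i + 1 + 1)) ne3 c1' c3'
  obtain ⟨gz1, -⟩ := uv_props h hx (hf.mem i) ne1 c1 c2
  obtain ⟨ge1, -⟩ := uv_props h hx (hf.mem (i + 1)) ne2 c1 c3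
  obtain ⟨gz3, -⟩ := uv_props h hx (hf.mem (i + 1 + 1)) ne3 c1' c3'
  obtain ⟨⟨rx, rx0, -, Yx, -⟩, XX, nX⟩ := nrm_props h.poly hx
  obtain ⟨⟨r1, r10, -, Y1, -⟩, -, -⟩ := nrm_props h.poly (hf.mem i)
  obtain ⟨⟨r2, r20, -, Y2, -⟩, -, -⟩ := nrm_props h.poly (hf.mem (i + 1))
  obtain ⟨⟨r3, r30, -, Y3, -⟩, -, -⟩ := nrm_props h.poly (hf.mem (i + 1 + 1))
  have nX1 := nX (j i) c1
  have nX2 := nX (j (i + 1)) c1'
  have nn1 := h.poly.nn (j i)
  have nn2 := h.poly.nn (j (i + 1))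
  have hsame := h.same (j i) (j (i + 1)) x hx c1 c1'
  have nz3l := nz3' (j i) c1
  obtain ⟨s, hs⟩ := h.poly.ori
  have o1 := hs (j i) x c1 (y i) c2 (y (i + 1)) c3 (hf.ori i)
  have o2 := hs (j (i + 1)) x c1' (y (i + 1)) c2' (y (i + 1 + 1)) c3' (hf.ori (i + 1))
  have hkv : kv Y x y i = Real.sin (ang (uv Y x (y (i + 1))) (uv Y x (y (i + 1 + 1)))) • uv Y x (y i)
    + Real.sin (ang (uv Y x (y i)) (uv Y x (y (i + 1)))) • uv Y x (y (i + 1 + 1))
    - Real.sin (ang (uv Y x (y i)) (uv Y x (y (i + 1)))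
        + ang (uv Y x (y (i + 1))) (uv Y x (y (i + 1 + 1)))) • uv Y x (y (i + 1)) := rfl
  -- abstract everything
  generalize hal : ang (uv Y x (y i)) (uv Y x (y (i + 1))) = al at *
  generalize hbe : ang (uv Y x (y (i + 1))) (uv Y x (y (i + 1 + 1))) = be at *
  generalize hz1 : uv Y x (y i) = z1 at *
  generalize hz2 : uv Y x (y (i + 1)) = e at *
  generalize hz3 : uv Y x (y (i + 1 + 1)) = z3 at *
  generalize hXd : nrm Y x = X at *
  generalize hnd : n (j i) = nn at *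
  generalize hnd' : n (j (i + 1)) = nn' at *
  have sal : 0 < Real.sin al := Real.sin_pos_of_pos_of_lt_pi al0 alpi
  have sbe : 0 < Real.sin be := Real.sin_pos_of_pos_of_lt_pi be0 bepi
  have sqal : Real.sin al ^ 2 = 1 - Real.cos al ^ 2 := by rw [Real.sin_sq]
  have sqbe : Real.sin be ^ 2 = 1 - Real.cos be ^ 2 := by rw [Real.sin_sq]
  obtain ⟨a, hadef⟩ : ∃ a : V4, a = (Real.sin al)⁻¹ • (z1 - Real.cos al • e) := ⟨_, rfl⟩
  obtain ⟨a', hadef'⟩ : ∃ a' : V4, a' = (Real.sin be)⁻¹ • (z3 - Real.cos be • e) := ⟨_, rfl⟩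
  have z1eq : z1 = Real.sin al • a + Real.cos al • e := by
    rw [hadef, smul_smul, mul_inv_cancel₀ sal.ne', one_smul, sub_add_cancel]
  have z3eq : z3 = Real.sin be • a' + Real.cos be • e := by
    rw [hadef', smul_smul, mul_inv_cancel₀ sbe.ne', one_smul, sub_add_cancel]
  have qz1e : q z1 e = Real.cos al := hcal.symm
  have qez3 : q e z3 = Real.cos be := hcbe.symm
  have ha : q a a = 1 := by
    rw [hadef]
    simp only [kvp_q_sub_right, kvp_q_smul_right, kvp_q_sub_left, kvp_q_smul_left, kvp_q_comm e z1,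
      qz1e, zz1, ee1]
    field_simp
    linarith
  have ha' : q a' a' = 1 := by
    rw [hadef']
    simp only [kvp_q_sub_right, kvp_q_smul_right, kvp_q_sub_left, kvp_q_smul_left, kvp_q_comm z3 e,
      qez3, zz3, ee1]
    field_simp
    linarith
  have Xa : q X a = 0 := by
    rw [hadef, kvp_q_smul_right, kvp_q_sub_right, kvp_q_smul_right, Xz1, Xe1]; ring
  have Xa' : q X a' = 0 := by
    rw [hadef', kvp_q_smul_right, kvp_q_sub_right, kvp_q_smul_right, Xz3, Xe1]; ring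
  have ea : q e a = 0 := by
    rw [hadef, kvp_q_smul_right, kvp_q_sub_right, kvp_q_smul_right, kvp_q_comm e z1, qz1e, ee1]; ring
  have ea' : q e a' = 0 := by
    rw [hadef', kvp_q_smul_right, kvp_q_sub_right, kvp_q_smul_right, qez3, ee1]; ring
  have an : q a nn = 0 := by
    rw [kvp_q_comm, hadef, kvp_q_smul_right, kvp_q_sub_right, kvp_q_smul_right, nz1, ne1']; ring
  have an' : q a' nn' = 0 := by
    rw [kvp_q_comm, hadef', kvp_q_smul_right, kvp_q_sub_right, kvp_q_smul_right, nz3, ne1'']; ring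
  have na' : q nn a' ≤ 0 := by
    rw [hadef', kvp_q_smul_right, kvp_q_sub_right, kvp_q_smul_right, ne1', mul_zero, sub_zero]
    exact mul_nonpos_of_nonneg_of_nonpos (inv_pos.2 sbe).le nz3l
  -- orientation
  have d1 : 0 < s * det4 X a e nn := by
    rw [Yx, Y1, Y2, Yz1, Ye1, z1eq] at o1
    obtain ⟨g1, hg1⟩ : ∃ g1, g1 = Real.sqrt ((q X (nrm Y (y i))) ^ 2 - 1) := ⟨_, rfl⟩
    obtain ⟨g2, hg2⟩ : ∃ g2, g2 = Real.sqrt ((q X (nrm Y (y (i + 1)))) ^ 2 - 1) := ⟨_, rfl⟩
    have g10 : 0 < g1 := by rw [hg1]; exact Real.sqrt_pos.2 (by nlinarith)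
    have g20 : 0 < g2 := by rw [hg2]; exact Real.sqrt_pos.2 (by nlinarith)
    rw [← hg1, ← hg2] at o1
    have hc : 0 < rx⁻¹ * r1⁻¹ * r2⁻¹ * g1 * g2 * Real.sin al := by positivity
    rw [kvp_det_scale, kvp_det_left, ← mul_assoc (rx⁻¹ * r1⁻¹ * r2⁻¹ * g1 * g2)] at o1
    exact kvp_pos hc o1
  have d2 : 0 < s * det4 X e a' nn' := by
    rw [Yx, Y2, Y3, Ye1, Yz3, z3eq] at o2
    obtain ⟨g1, hg1⟩ : ∃ g1, g1 = Real.sqrt ((q X (nrm Y (y (i + 1)))) ^ 2 - 1) := ⟨_, rfl⟩
    obtain ⟨g2, hg2⟩ : ∃ g2, g2 = Real.sqrt ((q X (nrm Y (y (i + 1 + 1)))) ^ 2 - 1) := ⟨_, rfl⟩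
    have g10 : 0 < g1 := by rw [hg1]; exact Real.sqrt_pos.2 (by nlinarith)
    have g20 : 0 < g2 := by rw [hg2]; exact Real.sqrt_pos.2 (by nlinarith)
    rw [← hg1, ← hg2] at o2
    have hc : 0 < rx⁻¹ * r2⁻¹ * r3⁻¹ * g1 * g2 * Real.sin be := by positivity
    rw [kvp_det_scale, kvp_det_right, ← mul_assoc (rx⁻¹ * r2⁻¹ * r3⁻¹ * g1 * g2)] at o2
    exact kvp_pos hc o2
  have Xn : q X nn = 0 := by rw [kvp_q_comm]; exact nX1
  have Xn' : q X nn' = 0 := by rw [kvp_q_comm]; exact nX2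
  have en : q e nn = 0 := by rw [kvp_q_comm]; exact ne1'
  have en' : q e nn' = 0 := by rw [kvp_q_comm]; exact ne1''
  have hp := kvp_core XX ee1 ha ha' nn1 Xe1 Xa Xa' Xn Xn' ea ea' en en' an an' hsame s d1 d2
  have hkv2 : kv Y x y i = (Real.sin al * Real.sin be) • (a + a') := by
    rw [hkv, z1eq, z3eq, Real.sin_add]
    module
  obtain ⟨m, hm⟩ : ∃ m, m = Real.sin al * Real.sin be := ⟨_, rfl⟩
  have hm0 : 0 < m := by rw [hm]; positivity
  rw [← hm] at hkv2
  obtain ⟨K, hK⟩ : ∃ K, K = a + a' := ⟨_, rfl⟩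
  rw [← hK] at hkv2
  have KK : q K K ≤ 0 := by
    rw [hK, kvp_q_add_left, kvp_q_add_right, kvp_q_add_right, ha, ha', kvp_q_comm a' a]
    linarith
  have XK : q X K = 0 := by rw [hK, kvp_q_add_right, Xa, Xa']; ring
  have nK : q nn K ≤ 0 := by
    rw [hK, kvp_q_add_right, kvp_q_comm nn a, an]
    linarith
  rw [hkv2]
  refine ⟨?_, ?_, ?_, ?_⟩
  · rw [kvp_q_smul_left, kvp_q_smul_right]
    have := mul_nonneg hm0.le (mul_nonneg hm0.le (neg_nonneg.2 KK))
    linarith
  · rw [kvp_q_smul_right, XK, mul_zero]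
  · rw [kvp_q_smul_right]
    exact mul_nonpos_of_nonneg_of_nonpos hm0.le nK
  · intro W hW XW nW
    have hXX : q X X < 0 := by rw [XX]; norm_num
    have hW' : q (-W) (-W) < 0 := by rw [kvp_q_neg_left, kvp_q_neg_right, neg_neg]; exact hW
    have XW' : q X (-W) = 0 := by rw [kvp_q_neg_right, XW, neg_zero]
    obtain ⟨-, R2, R3⟩ := revCS hXX hW' XW' XK
    have nW' : q nn (-W) < 0 := by rw [kvp_q_neg_right]; linarith
    have hU : q nn nn < 0 := by rw [nn1]; norm_num
    have h3 := R3 KK nn Xn hU nW' (by rw [kvp_q_comm]; exact nK)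
    rw [kvp_q_neg_right] at h3
    rw [kvp_q_smul_left]
    refine ⟨mul_nonneg hm0.le (by linarith), fun h0 => ?_⟩
    have h4 : q K W = 0 := by
      rcases mul_eq_zero.1 h0 with h | h
      · exact absurd h hm0.ne'
      · exact h
    rw [R2 KK (by rw [kvp_q_neg_right, h4, neg_zero]), smul_zero]

end A_kv_props

alias kv_props := A_kv_props.kv_props

namespace A_sign_all

/- Proof:
n i and n i' (cells containing x) are unit timelike, orthogonal to X = nrm Y x, with q (n i)(n i') < 0 (h.same). W timelike orthogonal to X. q (n i) W ≠ 0 (revCS (ii): a timelike vector orthogonal to X cannot be orthogonal to W timelike, Z = n i). If q (n i) W > 0, i.e. q (n i)(-W) < 0 : revCS (iii) with W := -W, U := n i, Z := n i' (q Z Z <= 0, q U (-W) < 0, q Z U <= 0): q (n i')(-W) <= 0, so q (n i') W >= 0 and it is nonzero. Similarly in the other case.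
-/
theorem sign_all {ι : Type*} {C : ι → Set V3} {Y : V3 → V4} {n : ι → V4} (h : PolyGood C Y n) {x : V3} (hx : x ∈ H2) {W : V4} (hW : q W W < 0) (hXW : q (nrm Y x) W = 0) :
    (∀ i, x ∈ C i → 0 < q (n i) W) ∨ (∀ i, x ∈ C i → q (n i) W < 0) := by
  have q_comm : ∀ A B : V4, q A B = q B A := fun A B => by unfold q; ring
  have q_neg : ∀ A B : V4, q A (-B) = -(q A B) := fun A B => by
    unfold q; simp only [Pi.neg_apply]; ring
  have q_nn : ∀ B : V4, q (-B) (-B) = q B B := fun B => by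
    unfold q; simp only [Pi.neg_apply]; ring
  obtain ⟨-, hXX, hnX⟩ := nrm_props h.poly hx
  have hA : q (nrm Y x) (nrm Y x) < 0 := by rw [hXX]; norm_num
  have hnX' : ∀ i, x ∈ C i → q (nrm Y x) (n i) = 0 := fun i hi => by rw [q_comm]; exact hnX i hi
  have hnn : ∀ i, q (n i) (n i) < 0 := fun i => by rw [h.poly.nn i]; norm_num
  have hne : ∀ i, x ∈ C i → q (n i) W ≠ 0 := by
    intro i hi h0
    have h1 := (revCS hA hW hXW (hnX' i hi)).2.1 (hnn i).le h0
    have h2 := hnn i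
    rw [h1] at h2
    unfold q at h2
    simp at h2
  by_cases hex : ∃ i, x ∈ C i
  · obtain ⟨i0, hi0⟩ := hex
    rcases lt_or_gt_of_ne (hne i0 hi0) with h0 | h0
    · right
      intro i hi
      have h1 := (revCS hA hW hXW (hnX' i hi)).2.2 (hnn i).le (n i0) (hnX' i0 hi0) (hnn i0) h0
        (h.same i i0 x hx hi hi0).le
      exact lt_of_le_of_ne h1 (hne i hi)
    · left
      intro i hi
      have hW' : q (-W) (-W) < 0 := by rw [q_nn]; exact hW
      have hXW' : q (nrm Y x) (-W) = 0 := by rw [q_neg, hXW, neg_zero]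
      have h0' : q (n i0) (-W) < 0 := by rw [q_neg]; linarith
      have h1 := (revCS hA hW' hXW' (hnX' i hi)).2.2 (hnn i).le (n i0) (hnX' i0 hi0) (hnn i0) h0'
        (h.same i i0 x hx hi hi0).le
      rw [q_neg] at h1
      exact lt_of_le_of_ne (by linarith) (hne i hi).symm
  · left
    intro i hi
    exact absurd ⟨i, hi⟩ hex

end A_sign_all

alias sign_all := A_sign_all.sign_all

namespace A_lc6

theorem q_add_l6 (X Y Z : V4) : q (X + Y) Z = q X Z + q Y Z := by
  simp only [q, Pi.add_apply]; ring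

theorem q_sub_l6 (X Y Z : V4) : q (X - Y) Z = q X Z - q Y Z := by
  simp only [q, Pi.sub_apply]; ring

theorem q_smul_l6 (a : ℝ) (X Z : V4) : q (a • X) Z = a * q X Z := by
  simp only [q, Pi.smul_apply, smul_eq_mul]; ring

theorem q_sub_r6 (X Y Z : V4) : q Z (X - Y) = q Z X - q Z Y := by
  simp only [q, Pi.sub_apply]; ring

theorem q_smul_r6 (a : ℝ) (X Z : V4) : q Z (a • X) = a * q Z X := by
  simp only [q, Pi.smul_apply, smul_eq_mul]; ring

theorem q_neg_r6 (X Z : V4) : q Z (-X) = -q Z X := by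
  simp only [q, Pi.neg_apply]; ring

theorem q_neg_l6 (X Z : V4) : q (-X) Z = -q X Z := by
  simp only [q, Pi.neg_apply]; ring

theorem q_comm6 (X Z : V4) : q X Z = q Z X := by
  simp only [q]; ring

theorem dec6 {X M : V4} (hX : q X X = -1) (hM : q M M = -1) (hu : |q X M| < 1) :
    |Real.arcsin (-(q X M))| < Real.pi / 2 ∧ Real.sin (Real.arcsin (-(q X M))) = -(q X M) ∧
    0 < Real.cos (Real.arcsin (-(q X M))) ∧
    ∃ W, q X W = 0 ∧ q W W = -1 ∧ ∀ N, q N X = 0 → q N M = Real.cos (Real.arcsin (-(q X M))) * q N W := by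
  obtain ⟨hl, hr⟩ := abs_lt.1 hu
  set th := Real.arcsin (-(q X M)) with hth
  have hsin : Real.sin th = -(q X M) := Real.sin_arcsin (by linarith) (by linarith)
  have h1 : |th| < Real.pi / 2 := by
    rw [abs_lt]
    exact ⟨Real.neg_pi_div_two_lt_arcsin.2 (by linarith), Real.arcsin_lt_pi_div_two.2 (by linarith)⟩
  obtain ⟨h1a, h1b⟩ := abs_lt.1 h1
  have hcos : 0 < Real.cos th := Real.cos_pos_of_mem_Ioo ⟨h1a, h1b⟩
  refine ⟨h1, hsin, hcos, (Real.cos th)⁻¹ • (M - Real.sin th • X), ?_, ?_, ?_⟩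
  · rw [q_smul_r6, q_sub_r6, q_smul_r6, hX, hsin]; ring
  · rw [q_smul_r6, q_smul_l6, q_sub_r6, q_smul_r6, q_sub_l6, q_smul_l6, q_sub_l6, q_smul_l6, hX, hM, q_comm6 M X]
    have h2 : q X M = - Real.sin th := by rw [hsin]; ring
    rw [h2]
    have h3 := Real.sin_sq_add_cos_sq th
    field_simp
    linarith
  · intro N hN
    rw [q_smul_r6, q_sub_r6, q_smul_r6, hN]
    field_simp
    ring

theorem lc6 {ι : Type*} {C : ι → Set V3} {Y Y' : V3 → V4} {n n' : ι → V4} (h : PolyGood C Y n) (h' : PolyGood C Y' n')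
    (hs : SameCellMetric C Y Y') {x : V3} (hx : x ∈ H2) {M M' : V4} (hM : q M M = -1) (hM' : q M' M' = -1)
    (hn : ∀ i, x ∈ C i → 0 < q (n i) M) (hu : |q (nrm Y x) M| < 1) (hu' : |q (nrm Y' x) M'| < 1)
    (hlt : Real.arcsin (-(q (nrm Y x) M)) < Real.arcsin (-(q (nrm Y' x) M')))
    (hmin : ∀ z ∈ H2, Real.arcsin (-(q (nrm Y x) M)) - Real.arcsin (-(q (nrm Y' x) M')) ≤
      Real.arcsin (-(q (nrm Y z) M)) - Real.arcsin (-(q (nrm Y' z) M'))) : False := by
  obtain ⟨k, y, j, hf⟩ := h.sub.fan x hx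
  obtain ⟨-, hX, hXn⟩ := nrm_props h.poly hx
  obtain ⟨-, hX', hXn'⟩ := nrm_props h'.poly hx
  obtain ⟨t1, t2, t3, W, hXW, hWW, hW⟩ := dec6 hX hM hu
  obtain ⟨t1', t2', t3', W', hXW', hWW', hW'⟩ := dec6 hX' hM' hu'
  set th := Real.arcsin (-(q (nrm Y x) M)) with hth
  set th' := Real.arcsin (-(q (nrm Y' x) M')) with hth'
  set al : ℕ → ℝ := fun i => ang (uv Y x (y i)) (uv Y x (y (i + 1))) with hal
  set hh : ℕ → ℝ := fun i => -(q (uv Y x (y i)) W) with hhh
  set hh' : ℕ → ℝ := fun i => -(q (uv Y' x (y i)) W') with hhh'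
  have hal' : ∀ i, ang (uv Y' x (y i)) (uv Y' x (y (i + 1))) = al i := by
    intro i
    obtain ⟨c1, c2, c3⟩ := hf.cell i
    have := (same_nrm hs c1 c2 c3).2
    simp only [hal, ang]
    rw [this]
  have hnW : ∀ i, x ∈ C i → 0 < q (n i) W := by
    intro i hi
    have h1 := hW (n i) (hXn i hi)
    have h2 := hn i hi
    rw [h1] at h2
    exact (pos_iff_pos_of_mul_pos h2).1 t3
  have hpy : ∀ i, y (i + k) = y i := hf.per_y
  have pα : ∀ i, al (i + k) = al i := by
    intro i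
    simp only [hal]
    rw [show i + k + 1 = (i + 1) + k by ring, hpy, hpy]
  have ph : ∀ i, hh (i + k) = hh i := by
    intro i; simp only [hhh]; rw [hpy]
  have ph' : ∀ i, hh' (i + k) = hh' i := by
    intro i; simp only [hhh']; rw [hpy]
  have hα : ∀ i, 0 < al i ∧ al i < Real.pi := fun i => ⟨((fan_ang h hx hf).1 i).1, ((fan_ang h hx hf).1 i).2.1⟩
  -- step 1
  have step1 : ∀ i, hh' i < hh i := by
    intro i
    by_contra hcon
    rw [not_lt] at hcon
    obtain ⟨c1, c2, c3⟩ := hf.cell i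
    have hne : x ≠ y i := (fan_ne hf i).1
    obtain ⟨s₁, hs₁, hst⟩ := theta_step t1 t1' hlt hcon
    obtain ⟨l, hl, -, hseg⟩ := seg_uv h h' hs hx (hf.mem i) hne c1 c2
    have hs0 : 0 < min s₁ l := lt_min hs₁ hl
    obtain ⟨z, hz, -, hzY, hzY'⟩ := hseg (min s₁ l) hs0.le (min_le_right _ _)
    have h1 := hst (min s₁ l) hs0 (min_le_left _ _)
    have h2 := hmin z hz
    have p1 := uv_props h hx (hf.mem i) hne c1 c2
    have p2 := uv_props h' hx (hf.mem i) hne c1 c2
    have e1 : -(q (nrm Y z) M) = Real.cosh (min s₁ l) * Real.sin th +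
        Real.sinh (min s₁ l) * (Real.cos th * hh i) := by
      rw [hzY, q_add_l6, q_smul_l6, q_smul_l6, hW (uv Y x (y i)) (by rw [q_comm6]; exact p1.2.2.1), t2]
      simp only [hhh]
      ring
    have e2 : -(q (nrm Y' z) M') = Real.cosh (min s₁ l) * Real.sin th' +
        Real.sinh (min s₁ l) * (Real.cos th' * hh' i) := by
      rw [hzY', q_add_l6, q_smul_l6, q_smul_l6, hW' (uv Y' x (y i)) (by rw [q_comm6]; exact p2.2.2.1), t2']
      simp only [hhh']
      ring
    rw [e1, e2] at h2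
    linarith
  -- step 2
  have hkk : ∀ i, kk al hh i = -(q (kv Y x y i) W) := by
    intro i
    simp only [kk, kv, hal, hhh]
    rw [q_sub_l6, q_add_l6, q_smul_l6, q_smul_l6, q_smul_l6]
    ring
  have hkk' : ∀ i, kk al hh' i = -(q (kv Y' x y i) W') := by
    intro i
    have a1 := hal' i
    have a2 := hal' (i + 1)
    have a2' : ang (uv Y' x (y (i + 1))) (uv Y' x (y (i + 2))) = al (i + 1) := a2
    simp only [kk, kv, hhh']
    rw [q_sub_l6, q_add_l6, q_smul_l6, q_smul_l6, q_smul_l6, a1, a2']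
    ring
  have hc : ∀ i, kk al hh i ≤ 0 := by
    intro i
    rw [hkk]
    have := ((kv_props h hx hf i).2.2.2 W (by rw [hWW]; norm_num) hXW (hnW _ (hf.cell i).1)).1
    linarith
  have hWneg' : q W' W' < 0 := by rw [hWW']; norm_num
  rcases sign_all h' hx hWneg' hXW' with hpos | hneg
  · have hc' : ∀ i, kk al hh' i ≤ 0 := by
      intro i
      rw [hkk']
      have := ((kv_props h' hx hf i).2.2.2 W' hWneg' hXW' (hpos _ (hf.cell i).1)).1
      linarith
    have s1 := fan_sum h hx hf hWW hXW (fun i => hnW _ (hf.cell i).1)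
    have s2 := fan_sum h' hx hf hWW' hXW' (fun i => hpos _ (hf.cell i).1)
    have s1' : ∑ i ∈ Finset.range k, bet (al i) (hh i) (hh (i + 1)) = 2 * Real.pi := s1
    have s2' : ∑ i ∈ Finset.range k, bet (al i) (hh' i) (hh' (i + 1)) = 2 * Real.pi := by
      rw [← s2]
      refine Finset.sum_congr rfl fun i _ => ?_
      rw [hal']
    have hz := (linkA hf.pos pα ph ph' hα hc hc' (fun i => (step1 i).le)).2 (by rw [s1', s2'])
    have hl := link_cmp hf.pos pα ph ph' hα (fun i => (step1 i).le) (fun i => by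
      obtain ⟨z1, z2⟩ := hz i (step1 (i + 1))
      rw [z1, z2])
    exact absurd (hl 0).1 (step1 0).ne'
  · have hc' : ∀ i, 0 ≤ kk al hh' i := by
      intro i
      rw [hkk']
      have := ((kv_props h' hx hf i).2.2.2 (-W') (by rw [q_neg_r6, q_neg_l6, hWW']; norm_num)
        (by rw [q_neg_r6, hXW']; norm_num) (by rw [q_neg_r6]; linarith [hneg _ (hf.cell i).1])).1
      rw [q_neg_r6] at this
      linarith
    have hl := link_cmp hf.pos pα ph ph' hα (fun i => (step1 i).le) (fun i => (hc i).trans (hc' i))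
    exact absurd (hl 0).1 (step1 0).ne'

end A_lc6

alias lc6 := A_lc6.lc6

namespace A_star6

theorem S6_det3 (x y z : V3) : det3 x y z = x 0 * y 1 * z 2 - x 0 * y 2 * z 1 - x 1 * y 0 * z 2 + x 1 * y 2 * z 0
    + x 2 * y 0 * z 1 - x 2 * y 1 * z 0 := by
  unfold det3
  rw [Matrix.det_fin_three]
  simp
  try ring

theorem S6_det3_lin1 (x e₁ e₂ p r : V3) (c a b : ℝ) :
    det3 (c • x + a • e₁ + b • e₂) p r = c * det3 x p r + a * det3 e₁ p r + b * det3 e₂ p r := by
  simp only [S6_det3, Pi.add_apply, Pi.smul_apply, smul_eq_mul]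
  ring

theorem S6_det3_planar (x e₁ e₂ : V3) (α a b β c f : ℝ) :
    det3 x (α • x + a • e₁ + b • e₂) (β • x + c • e₁ + f • e₂) = (a * f - b * c) * det3 x e₁ e₂ := by
  simp only [S6_det3, Pi.add_apply, Pi.smul_apply, smul_eq_mul]
  ring

theorem S6_expand {x e₁ e₂ : V3} (hx : x ∈ H2) (he : ON x e₁ e₂) (z : V3) :
    z = (-eta x z) • x + (eta z e₁) • e₁ + (eta z e₂) • e₂ := by
  obtain ⟨h1, h2, h3, h4, h5⟩ := he
  have hxx : eta x x = -1 := hx.1
  have hv : eta x (z + eta x z • x) = 0 := by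
    have : eta x (z + eta x z • x) = eta x z + eta x z * eta x x := by
      simp only [eta, Pi.add_apply, Pi.smul_apply, smul_eq_mul]; ring
    rw [this, hxx]; ring
  have h := tangent_expand hx ⟨h1, h2, h3, h4, h5⟩ hv
  have e1 : eta (z + eta x z • x) e₁ = eta z e₁ := by
    have : eta (z + eta x z • x) e₁ = eta z e₁ + eta x z * eta x e₁ := by
      simp only [eta, Pi.add_apply, Pi.smul_apply, smul_eq_mul]; ring
    rw [this, h1]; ring
  have e2 : eta (z + eta x z • x) e₂ = eta z e₂ := by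
    have : eta (z + eta x z • x) e₂ = eta z e₂ + eta x z * eta x e₂ := by
      simp only [eta, Pi.add_apply, Pi.smul_apply, smul_eq_mul]; ring
    rw [this, h2]; ring
  rw [e1, e2] at h
  rw [add_assoc, ← h]
  module

theorem S6_frame {x : V3} (hx : x ∈ H2) {p r : V3} (hpr : 0 < det3 x p r) :
    ∃ e₁ e₂, ON x e₁ e₂ ∧ 0 < det3 x e₁ e₂ := by
  obtain ⟨v, hv⟩ := exists_UT hx
  obtain ⟨w, hw⟩ := exists_ON hx hv
  have h1 := S6_expand hx hw p
  have h2 := S6_expand hx hw r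
  have h3 : det3 x v w ≠ 0 := by
    intro h0
    rw [h1, h2, S6_det3_planar, h0, mul_zero] at hpr
    exact lt_irrefl _ hpr
  rcases lt_or_gt_of_ne h3 with h | h
  · refine ⟨w, v, ⟨hw.2.1, hw.1, hw.2.2.2.1, hw.2.2.1, ?_⟩, ?_⟩
    · have : eta w v = eta v w := by simp only [eta]; ring
      rw [this]; exact hw.2.2.2.2
    · have : det3 x w v = - det3 x v w := by simp only [S6_det3]; ring
      rw [this]; linarith
  · exact ⟨v, w, hw, h⟩

theorem S6_pos {x z : V3} (hx : x ∈ H2) (hz : z ∈ H2) : 0 < -eta x z := by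
  obtain ⟨h1, h2⟩ := hx
  obtain ⟨h3, h4⟩ := hz
  simp only [eta] at h1 h3 ⊢
  by_contra hc
  have h5 : x 0 * z 0 ≤ x 1 * z 1 + x 2 * z 2 := by linarith
  have h6 : 0 < x 0 * z 0 := mul_pos h2 h4
  have h7 : (x 0 * z 0) ^ 2 ≤ (x 1 * z 1 + x 2 * z 2) ^ 2 := by
    exact pow_le_pow_left₀ h6.le h5 2
  have h8 : x 0 ^ 2 = 1 + x 1 ^ 2 + x 2 ^ 2 := by nlinarith
  have h9 : z 0 ^ 2 = 1 + z 1 ^ 2 + z 2 ^ 2 := by nlinarith
  rw [mul_pow, h8, h9] at h7
  nlinarith [sq_nonneg (x 1 * z 2 - x 2 * z 1), sq_nonneg (x 1), sq_nonneg (x 2), sq_nonneg (z 1), sq_nonneg (z 2)]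

theorem star6 {ι : Type*} {C : ι → Set V3} {x : V3} (hx : x ∈ H2) {k : ℕ} {y : ℕ → V3} {j : ℕ → ι} (hf : IsFan C x k y j) :
    ∃ r : ℝ, 1 < r ∧ ∀ z ∈ H2, -eta x z < r → ∃ i < k, ∃ l a b : ℝ, 0 < l ∧ 0 ≤ a ∧ 0 ≤ b ∧
      z = l • x + a • y i + b • y (i + 1) := by
  obtain ⟨e₁, e₂, he, hd⟩ := S6_frame hx (hf.ori 0)
  obtain ⟨hxe1, hxe2, h11, h22, h12⟩ := he
  have he : ON x e₁ e₂ := ⟨hxe1, hxe2, h11, h22, h12⟩
  have hplanar : ∀ z w : V3, det3 x z w = (eta z e₁ * eta w e₂ - eta z e₂ * eta w e₁) * det3 x e₁ e₂ := by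
    intro z w
    conv_lhs => rw [S6_expand hx he z, S6_expand hx he w]
    rw [S6_det3_planar]
  have hcov := fun {u v : ℝ} (huv : u ≠ 0 ∨ v ≠ 0) =>
    planar_cover hf.pos (a := fun i => eta (y i) e₁) (b := fun i => eta (y i) e₂)
      (fun i => by show eta (y (i + k)) e₁ = _; rw [hf.per_y])
      (fun i => by show eta (y (i + k)) e₂ = _; rw [hf.per_y])
      (fun i => by
        have h := hf.ori i
        rw [hplanar] at h
        exact (mul_pos_iff_of_pos_right hd).1 h) huv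
  -- the radius
  set M : ℕ → ℝ := fun i => |det3 e₁ (y i) (y (i + 1))| + |det3 e₂ (y i) (y (i + 1))| with hM
  have hr : ∀ᶠ r : ℝ in nhdsWithin 1 (Set.Ioi 1), ∀ i ∈ Finset.range k,
      (r ^ 2 - 1) * M i ^ 2 < det3 x (y i) (y (i + 1)) ^ 2 := by
    rw [Filter.eventually_all_finset]
    intro i _
    have hc : Filter.Tendsto (fun r : ℝ => (r ^ 2 - 1) * M i ^ 2) (nhdsWithin 1 (Set.Ioi 1))
        (nhds ((1 ^ 2 - 1) * M i ^ 2)) := by
      refine Filter.Tendsto.mono_left ?_ nhdsWithin_le_nhds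
      exact (Continuous.tendsto (by fun_prop) 1)
    have h0 : ((1 : ℝ) ^ 2 - 1) * M i ^ 2 < det3 x (y i) (y (i + 1)) ^ 2 := by
      have := hf.ori i
      have : 0 < det3 x (y i) (y (i + 1)) ^ 2 := by positivity
      linarith
    exact hc.eventually (gt_mem_nhds h0)
  obtain ⟨r, hr1, hr2⟩ := (hr.and self_mem_nhdsWithin).exists
  refine ⟨r, hr2, fun z hz hzr => ?_⟩
  set c : ℝ := -eta x z with hc
  have hcpos : 0 < c := S6_pos hx hz
  have hexp := S6_expand hx he z
  rw [← hc] at hexp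
  have hsq : eta z e₁ ^ 2 + eta z e₂ ^ 2 = c ^ 2 - 1 := by
    have h1 : eta z z = -1 := hz.1
    have h2 : eta z z = -c ^ 2 + eta z e₁ ^ 2 + eta z e₂ ^ 2 := by
      conv_lhs => rw [hexp]
      have hxx : eta x x = -1 := hx.1
      have : ∀ α a b : ℝ, eta (α • x + a • e₁ + b • e₂) (α • x + a • e₁ + b • e₂) =
          α ^ 2 * eta x x + a ^ 2 * eta e₁ e₁ + b ^ 2 * eta e₂ e₂ + 2 * α * a * eta x e₁
            + 2 * α * b * eta x e₂ + 2 * a * b * eta e₁ e₂ := by
        intro α a b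
        simp only [eta, Pi.add_apply, Pi.smul_apply, smul_eq_mul]; ring
      rw [this, hxx, h11, h22, h12, hxe1, hxe2]
      ring
    linarith
  have hc1 : 1 ≤ c := by
    have : 0 ≤ c ^ 2 - 1 := by rw [← hsq]; positivity
    nlinarith
  by_cases h0 : eta z e₁ = 0 ∧ eta z e₂ = 0
  · refine ⟨0, hf.pos, 1, 0, 0, one_pos, le_rfl, le_rfl, ?_⟩
    have hc2 : c = 1 := by
      rw [h0.1, h0.2] at hsq
      nlinarith
    rw [hexp, h0.1, h0.2, hc2]
    simp
  · have huv : eta z e₁ ≠ 0 ∨ eta z e₂ ≠ 0 := by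
      by_contra h
      push Not at h
      exact h0 h
    obtain ⟨i, hi, h1, h2⟩ := hcov huv
    have hD := hf.ori i
    have hz1 : 0 ≤ det3 x (y i) z := by
      rw [hplanar]; exact mul_nonneg h1 hd.le
    have hz2 : 0 < det3 x z (y (i + 1)) := by
      rw [hplanar]; exact mul_pos h2 hd
    refine ⟨i, hi, _, _, _, ?_, ?_, ?_, (det3_lin x (y i) (y (i + 1))).2 hD.ne' z⟩
    · refine div_pos ?_ hD
      have hri := hr1 i (Finset.mem_range.2 hi)
      rw [hexp, S6_det3_lin1]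
      set G := det3 x (y i) (y (i + 1)) with hG
      set g1 := det3 e₁ (y i) (y (i + 1)) with hg1
      set g2 := det3 e₂ (y i) (y (i + 1)) with hg2
      have hM0 : 0 ≤ M i := by positivity
      have hle : (c ^ 2 - 1) * M i ^ 2 < G ^ 2 := by
        have : c ^ 2 ≤ r ^ 2 := by nlinarith
        nlinarith [sq_nonneg (M i)]
      have hs0 : 0 ≤ c ^ 2 - 1 := by nlinarith
      have hs := Real.sqrt_nonneg (c ^ 2 - 1)
      have hs2 := Real.sq_sqrt hs0
      set t := Real.sqrt (c ^ 2 - 1) with ht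
      have hlt : t * M i < G := by
        refine lt_of_pow_lt_pow_left₀ 2 hD.le ?_
        rw [mul_pow, hs2]; exact hle
      have ha1 : |eta z e₁| ≤ t := by
        refine Real.abs_le_sqrt ?_
        rw [← hsq]; nlinarith [sq_nonneg (eta z e₂)]
      have ha2 : |eta z e₂| ≤ t := by
        refine Real.abs_le_sqrt ?_
        rw [← hsq]; nlinarith [sq_nonneg (eta z e₁)]
      have hb1 : -(t * |g1|) ≤ eta z e₁ * g1 := by
        have h3 : |eta z e₁ * g1| ≤ t * |g1| := by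
          rw [abs_mul]; exact mul_le_mul_of_nonneg_right ha1 (abs_nonneg _)
        exact (abs_le.1 h3).1
      have hb2 : -(t * |g2|) ≤ eta z e₂ * g2 := by
        have h3 : |eta z e₂ * g2| ≤ t * |g2| := by
          rw [abs_mul]; exact mul_le_mul_of_nonneg_right ha2 (abs_nonneg _)
        exact (abs_le.1 h3).1
      have hMi : M i = |g1| + |g2| := rfl
      rw [hMi] at hlt
      have hcG : G ≤ c * G := by nlinarith
      nlinarith
    · exact div_nonneg hz2.le hD.le
    · exact div_nonneg hz1 hD.le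

end A_star6

alias star6 := A_star6.star6

namespace A_star_cell

/- Proof:
hC.fan gives a fan; star6: z = l x + a y_i + b y_{i+1}, l > 0, a, b >= 0, and x, y_i, y_{i+1} in C (j i); closed under addition and positive multiples.
-/
theorem star_cell {ι : Type*} {C : ι → Set V3} (hC : IsSubdivision C) {x : V3} (hx : x ∈ H2) :
    ∃ r : ℝ, 1 < r ∧ ∀ z ∈ H2, -eta x z < r → ∃ i, x ∈ C i ∧ z ∈ C i := by
  obtain ⟨k, y, j, hf⟩ := hC.fan x hx
  obtain ⟨r, hr, h⟩ := star6 hx hf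
  refine ⟨r, hr, fun z hz hzr => ?_⟩
  obtain ⟨i, hi, l, a, b, hl, ha, hb, rfl⟩ := h z hz hzr
  obtain ⟨h1, h2, h3⟩ := hf.cell i
  refine ⟨j i, h1, ?_⟩
  have k1 : l • x ∈ C (j i) := hC.smul _ _ h1 l hl
  have k2 : l • x + a • y i ∈ C (j i) := by
    rcases ha.eq_or_lt with h0 | h0
    · rw [← h0, zero_smul, add_zero]; exact k1
    · exact hC.add _ _ k1 _ (hC.smul _ _ h2 a h0)
  rcases hb.eq_or_lt with h0 | h0
  · rw [← h0, zero_smul, add_zero]; exact k2
  · exact hC.add _ _ k2 _ (hC.smul _ _ h3 b h0)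

end A_star_cell

alias star_cell := A_star_cell.star_cell

namespace A_cover_pl

theorem cvq_smul_right (c : ℝ) (X Y : V4) : q X (c • Y) = c * q X Y := by
  unfold q; simp only [Pi.smul_apply, smul_eq_mul]; ring

theorem cvq_smul_left (c : ℝ) (X Y : V4) : q (c • X) Y = c * q X Y := by
  unfold q; simp only [Pi.smul_apply, smul_eq_mul]; ring

theorem cvq_add_right (X Y Z : V4) : q X (Y + Z) = q X Y + q X Z := by
  unfold q; simp only [Pi.add_apply]; ring

theorem cvq_comm (X Y : V4) : q X Y = q Y X := by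
  unfold q; ring

theorem cv_det3 (x y y' : V3) (p p' r : ℝ) (hr : 0 < r) (h : p • y + p' • y' = r • x) : det3 x y y' = 0 := by
  have h0 := congrFun h 0
  have h1 := congrFun h 1
  have h2 := congrFun h 2
  simp only [Pi.add_apply, Pi.smul_apply, smul_eq_mul] at h0 h1 h2
  have : r * det3 x y y' = 0 := by
    unfold det3
    rw [Matrix.det_fin_three]
    simp only [Matrix.of_apply, Matrix.cons_val_zero, Matrix.cons_val_one, Matrix.cons_val_two,
      Matrix.head_cons, Matrix.tail_cons]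
    linear_combination (-(y 1 * y' 2) + y 2 * y' 1) * h0 + (y 0 * y' 2 - y 2 * y' 0) * h1 + (-(y 0 * y' 1) + y 1 * y' 0) * h2
  rcases mul_eq_zero.1 this with h3 | h3
  · exact absurd h3 hr.ne'
  · exact h3

/-- the unit vector towards `y`, in terms of the position vectors -/
theorem cv_z {ι : Type*} {C : ι → Set V3} {Y : V3 → V4} {n : ι → V4} (h : PolyGood C Y n) {x y : V3} (hx : x ∈ H2)
    (hy : y ∈ H2) (hxy : x ≠ y) {i : ι} (hxi : x ∈ C i) (hyi : y ∈ C i) :
    q (nrm Y x) (uv Y x y) = 0 ∧ ∃ p f : ℝ, 0 < p ∧ uv Y x y = p • Y y + f • nrm Y x := by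
  obtain ⟨h1, _, h3, _, _, h6⟩ := uv_props h hx hy hxy hxi hyi
  obtain ⟨⟨r, hr, hr1, _, _⟩, _, _⟩ := nrm_props h.poly hy
  refine ⟨h3, ?_⟩
  set c := -q (nrm Y x) (nrm Y y) with hc
  have hS : 0 < Real.sqrt ((q (nrm Y x) (nrm Y y)) ^ 2 - 1) := by
    apply Real.sqrt_pos.2
    have : q (nrm Y x) (nrm Y y) = -c := by rw [hc]; ring
    rw [this]
    nlinarith
  set S := Real.sqrt ((q (nrm Y x) (nrm Y y)) ^ 2 - 1) with hSdef
  refine ⟨S⁻¹ * r, -(S⁻¹ * c), by positivity, ?_⟩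
  have e1 : S • uv Y x y = r • Y y - c • nrm Y x := by
    rw [← hr1]
    nth_rewrite 1 [h6]
    module
  have e2 : uv Y x y = S⁻¹ • (S • uv Y x y) := by
    rw [smul_smul, inv_mul_cancel₀ hS.ne', one_smul]
  rw [e2, e1]
  module

theorem cover_pos {ι : Type*} {C : ι → Set V3} {Y : V3 → V4} {n : ι → V4} (h : PolyGood C Y n) {x : V3} (hx : x ∈ H2)
    {W : V4} (hW : q W W < 0) (hXW : q (nrm Y x) W = 0) (hpos : ∀ i, x ∈ C i → 0 < q (n i) W) {Z : V4}
    (hZ : q (nrm Y x) Z = 0) :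
    ∃ a τ : ℝ, ∃ y ∈ H2, ∃ i, x ∈ C i ∧ y ∈ C i ∧ x ≠ y ∧ 0 ≤ a ∧ Z = a • uv Y x y + τ • W := by
  obtain ⟨k, y, j, hf⟩ := h.sub.fan x hx
  set s := Real.sqrt (-(q W W)) with hs
  have hs0 : 0 < s := Real.sqrt_pos.2 (by linarith)
  have hs2 : s ^ 2 = -(q W W) := Real.sq_sqrt (by linarith)
  set W1 : V4 := s⁻¹ • W with hW1def
  have hW1 : q W1 W1 = -1 := by
    rw [hW1def, cvq_smul_left, cvq_smul_right]
    have : q W W = -(s ^ 2) := by rw [hs2]; ring
    rw [this]
    field_simp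
  have hXW1 : q (nrm Y x) W1 = 0 := by rw [hW1def, cvq_smul_right, hXW, mul_zero]
  have hn1 : ∀ i, 0 < q (n (j i)) W1 := by
    intro i
    rw [hW1def, cvq_smul_right]
    exact mul_pos (inv_pos.2 hs0) (hpos _ (hf.cell i).1)
  obtain ⟨b₁, b₂, -, -, -, -, -, -, -, hdec, hor⟩ := fan_coord h hx hf hW1 hXW1 hn1
  have hZd := hdec Z
  have hZX : q Z (nrm Y x) = 0 := by rw [cvq_comm]; exact hZ
  rw [hZX, neg_zero, zero_smul, zero_add] at hZd
  by_cases huv : q Z b₁ ≠ 0 ∨ q Z b₂ ≠ 0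
  · obtain ⟨i, _, hi1, hi2⟩ := planar_cover hf.pos (a := fun i => q (uv Y x (y i)) b₁) (b := fun i => q (uv Y x (y i)) b₂)
      (fun i => by simp only [hf.per_y]) (fun i => by simp only [hf.per_y]) hor huv
    obtain ⟨hz3, p, f, hp, hz⟩ := cv_z h hx (hf.mem i) (fan_ne hf i).1 (hf.cell i).1 (hf.cell i).2.1
    obtain ⟨hz3', p', f', hp', hz'⟩ := cv_z h hx (hf.mem (i + 1)) (fan_ne hf i).2 (hf.cell i).1 (hf.cell i).2.2
    have hD := hor i
    have d1 := hdec (uv Y x (y i))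
    have d2 := hdec (uv Y x (y (i + 1)))
    rw [cvq_comm _ (nrm Y x), hz3, neg_zero, zero_smul, zero_add] at d1
    rw [cvq_comm _ (nrm Y x), hz3', neg_zero, zero_smul, zero_add] at d2
    set z := uv Y x (y i) with hzdef
    set z' := uv Y x (y (i + 1)) with hzdef'
    set a := q z b₁
    set b := q z b₂
    set a' := q z' b₁
    set b' := q z' b₂
    set u := q Z b₁
    set v := q Z b₂
    set D := a * b' - b * a' with hDdef
    set al := (u * b' - v * a') / D with hal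
    set be := (a * v - b * u) / D with hbe
    have hal0 : 0 < al := div_pos hi2 hD
    have hbe0 : 0 ≤ be := div_nonneg hi1 hD.le
    have hu : u = al * a + be * a' := by
      rw [hal, hbe]
      field_simp
      rw [hDdef]
      ring
    have hv : v = al * b + be * b' := by
      rw [hal, hbe]
      field_simp
      rw [hDdef]
      ring
    set G : V4 := al • z + be • z' with hG
    have hZG : Z = G + (-(q Z W1) + al * q z W1 + be * q z' W1) • W1 := by
      ext m
      have k0 := congrFun hZd m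
      have k1 := congrFun d1 m
      have k2 := congrFun d2 m
      simp only [hG, Pi.add_apply, Pi.smul_apply, smul_eq_mul] at k0 k1 k2 ⊢
      linear_combination k0 - al * k1 - be * k2 + b₁ m * hu + b₂ m * hv
    have hc1 : 0 < al * p := mul_pos hal0 hp
    have hc2 : 0 ≤ be * p' := mul_nonneg hbe0 hp'.le
    obtain ⟨w, hw, r, hr, hrw, hwC⟩ := seg_pt h.sub (hf.mem i) (hf.mem (i + 1)) hc1.le hc2 (by linarith)
    have hwj : w ∈ C (j i) := hwC _ (hf.cell i).2.1 (hf.cell i).2.2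
    have hYw := pcomb h.poly h.sub (hf.cell i).2.1 (hf.cell i).2.2 hwj hc1.le hc2 hr (by linarith) hrw
    have hxw : x ≠ w := by
      intro hxw
      rw [← hxw] at hrw
      have := cv_det3 x (y i) (y (i + 1)) _ _ r hr hrw
      exact absurd this (hf.ori i).ne'
    obtain ⟨g3, pw, fw, hpw, hgw⟩ := cv_z h hx hw hxw (hf.cell i).1 hwj
    -- `G` is a combination of `Y w` and the position
    have hGw : G = (r * pw⁻¹) • uv Y x w + (al * f + be * f' - r * pw⁻¹ * fw) • nrm Y x := by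
      ext m
      have k1 := congrFun hz m
      have k2 := congrFun hz' m
      have k3 := congrFun hYw m
      have k4 := congrFun hgw m
      simp only [hG, Pi.add_apply, Pi.smul_apply, smul_eq_mul] at k1 k2 k3 k4 ⊢
      have k3' : r * Y w m = al * p * Y (y i) m + be * p' * Y (y (i + 1)) m := by
        rw [k3]
        field_simp
      have k4' : pw⁻¹ * uv Y x w m = Y w m + pw⁻¹ * fw * nrm Y x m := by
        rw [k4]
        field_simp
      linear_combination al * k1 + be * k2 - k3' - r * k4'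
    have hXX := (nrm_props h.poly hx).2.1
    have hXG : q (nrm Y x) G = 0 := by
      rw [hG, cvq_add_right, cvq_smul_right, cvq_smul_right, hz3, hz3', mul_zero, mul_zero, add_zero]
    have hcoef : al * f + be * f' - r * pw⁻¹ * fw = 0 := by
      rw [hGw, cvq_add_right, cvq_smul_right, cvq_smul_right, g3, hXX] at hXG
      linarith
    rw [hcoef, zero_smul, add_zero] at hGw
    refine ⟨r * pw⁻¹, (-(q Z W1) + al * q z W1 + be * q z' W1) * s⁻¹, w, hw, j i, (hf.cell i).1, hwj, hxw, by positivity, ?_⟩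
    rw [← hGw, mul_smul]
    exact hZG
  · push Not at huv
    refine ⟨0, -(q Z W1) * s⁻¹, y 0, hf.mem 0, j 0, (hf.cell 0).1, (hf.cell 0).2.1, (fan_ne hf 0).1, le_rfl, ?_⟩
    rw [huv.1, huv.2, zero_smul, zero_smul, add_zero, add_zero] at hZd
    rw [zero_smul, zero_add, mul_smul]
    exact hZd

/- Proof:
Fan at x (h.sub.fan). sign_all for W: if all q (n i) W < 0 replace W by -W (and tau by -tau at the end); so assume all > 0. Normalise W1 = W/sqrt(-q W W). fan_coord with W1: b1, b2. Z has coordinates u = q Z b1, v = q Z b2, Z = -(q Z W1) W1 + u b1 + v b2. If u = v = 0: a = 0, tau = .., y := y 0, i := j 0 (x ≠ y 0 by fan_ne). Otherwise planar_cover (a i := q (z i) b1, b i := q (z i) b2, periodic by per_y): a sector i with (u,v) = al (a i, b i) + be (a(i+1), b(i+1)), al > 0, be >= 0 (Cramer). So Z = al z_i + be z_{i+1} + t W1. It remains to write al z_i + be z_{i+1} as a nonnegative multiple of uv Y x w for some w in H2, w in C (j i),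 w ≠ x: z_i = e_i nrm Y (y i) + f_i X with e_i > 0 and nrm Y (y i) = r_i Y (y i), r_i > 0. seg_pt for y i, y(i+1) with coefficients al e_i r_i > 0 and be e_{i+1} r_{i+1} >= 0: w in H2, r > 0, w in C (j i); pcomb: Y w = r^-1 (al e_i r_i Y (y i) + be e_{i+1} r_{i+1} Y (y (i+1))) = r^-1 (al z_i + be z_{i+1} + f X). w ≠ x: otherwise x would be a combination of y i, y(i+1), contradicting det3 x (y i)(y(i+1)) > 0. nrm Y w is a positive multiple of Y w, and uv Y x w is the positive multiple with unit norm of the component of nrm Y w orthogonal to X (uv_props: nrm Y w = c X + sqrt(c^2-1) uv), so al z_i + be z_{i+1} = a uv Y x w with a > 0 (compare components orthogonal to X).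
-/
theorem cover_pl {ι : Type*} {C : ι → Set V3} {Y : V3 → V4} {n : ι → V4} (h : PolyGood C Y n) {x : V3} (hx : x ∈ H2) {W : V4} (hW : q W W < 0) (hXW : q (nrm Y x) W = 0) {Z : V4}
    (hZ : q (nrm Y x) Z = 0) : ∃ a τ : ℝ, ∃ y ∈ H2, ∃ i, x ∈ C i ∧ y ∈ C i ∧ x ≠ y ∧ 0 ≤ a ∧ Z = a • uv Y x y + τ • W := by
  rcases sign_all h hx hW hXW with hpos | hneg
  · exact cover_pos h hx hW hXW hpos hZ
  · have e1 : q (-W) (-W) = q W W := by unfold q; simp only [Pi.neg_apply]; ring
    have e2 : ∀ X : V4, q X (-W) = -(q X W) := by intro X; unfold q; simp only [Pi.neg_apply]; ring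
    obtain ⟨a, τ, y, hy, i, h1, h2, h3, h4, h5⟩ := cover_pos h hx (W := -W) (by rw [e1]; exact hW)
      (by rw [e2, hXW, neg_zero]) (fun i hi => by rw [e2]; linarith [hneg i hi]) hZ
    exact ⟨a, -τ, y, hy, i, h1, h2, h3, h4, by rw [h5]; module⟩

end A_cover_pl

alias cover_pl := A_cover_pl.cover_pl

namespace A_cellbound

/- Proof:
Let t = T x, t' = T z, Ch = -eta x z >= 1, z = geo x v d = cosh d x + sinh d v (exists_geo), Ch = cosh d. Y0 s T x = emb x (s t), q (emb a r)(emb b r') = eta a b - r r'. So with rho = sqrt(1+t^2), rho' = sqrt(1+t'^2): cosh s' := -q (nrm x)(nrm z) = (Ch + t t')/(rho rho') (sigma^2 = 1).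
Claim t^2 + t'^2 <= 2 Ch t t'. n0 i =: emb a c (a = first three coordinates, c the last). q (n0 i)(sigma EE) = -sigma c > 0. For w in H2: q (n0 i)(Y0 w) = eta a w - c sigma T w <= 0 (h0.supp), with equality for w = x, z (h0.poly.nY). Let k0 = -sigma c > 0: eta a w + k0 T w <= 0, so T w <= l w := -(eta a w)/k0 and l w >= T w > 0 for all w in H2, l x = t, l z = t'. On the geodesic: l (geo x v r) = cosh r t + sinh r m > 0 for all real r (m = l v), so |m| <= t. t' = cosh d t + sinh d m. t^2 + t'^2 - 2 cosh d t t' = sinh^2 d (m^2 - t^2) <= 0.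
Hence (Ch + t t')^2 - (1+t^2)(1+t'^2) = Ch^2 - 1 + (2 Ch t t' - t^2 - t'^2) >= Ch^2 - 1, i.e. sinh^2 s >= sinh^2 d/(rho^2 rho'^2) >= sinh^2 d/(1+m0^2)^2 with m0 = m the bound of T (0 < T <= m0). So sinh d <= (1+m0^2) sinh s <= sinh((1+m0^2) s) (for K >= 1 and s >= 0: K sinh s <= sinh(K s), convexity). So d <= (1+m0^2) s and -eta x z = cosh d <= cosh((1+m0^2) s).
-/
theorem sinh_mul_le' {K s : ℝ} (hK : 1 ≤ K) (hs : 0 ≤ s) : K * Real.sinh s ≤ Real.sinh (K * s) := by
  have hmono : MonotoneOn (fun u : ℝ => Real.sinh (K * u) - K * Real.sinh u) (Set.Ici 0) := by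
    apply monotoneOn_of_deriv_nonneg (convex_Ici 0)
    · fun_prop
    · fun_prop
    · intro u hu
      rw [interior_Ici] at hu
      have hu' : (0 : ℝ) < u := hu
      have h1 : HasDerivAt (fun u : ℝ => Real.sinh (K * u) - K * Real.sinh u)
          (Real.cosh (K * u) * (K * 1) - K * Real.cosh u) u := by
        apply HasDerivAt.sub
        · exact (((hasDerivAt_id u).const_mul K)).sinh
        · exact (Real.hasDerivAt_sinh u).const_mul K
      rw [h1.deriv]
      have h2 : Real.cosh u ≤ Real.cosh (K * u) := by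
        rw [Real.cosh_le_cosh, abs_of_pos hu', abs_of_pos (by positivity)]
        nlinarith
      nlinarith
  have := hmono (Set.mem_Ici.2 le_rfl) (Set.mem_Ici.2 hs) hs
  simp at this
  linarith

theorem aux_slope {t m1 : ℝ} (ht : 0 < t) (h : ∀ r : ℝ, 0 < Real.cosh r * t + Real.sinh r * m1) :
    m1 ^ 2 ≤ t ^ 2 := by
  by_contra hcon
  push Not at hcon
  have hD : 0 < m1 ^ 2 - t ^ 2 := by linarith
  set D := Real.sqrt (m1 ^ 2 - t ^ 2) with hDdef
  have hDp : 0 < D := Real.sqrt_pos.2 hD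
  have hDsq : D ^ 2 = m1 ^ 2 - t ^ 2 := Real.sq_sqrt hD.le
  have hkey : ∀ ε : ℝ, ε ^ 2 = 1 → 0 < ε * m1 → False := by
    intro ε hε hem
    have h1 := h (Real.arsinh (-(ε * t / D)))
    rw [Real.sinh_arsinh, Real.cosh_arsinh] at h1
    have h2 : 1 + (-(ε * t / D)) ^ 2 = (ε * m1 / D) ^ 2 := by
      field_simp
      rw [hDsq]
      have : ε ^ 2 = 1 := hε
      nlinarith
    rw [h2, Real.sqrt_sq (by positivity)] at h1
    have h3 : ε * m1 / D * t + -(ε * t / D) * m1 = 0 := by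
      field_simp
      ring
    linarith
  rcases lt_trichotomy m1 0 with h0 | h0 | h0
  · exact hkey (-1) (by norm_num) (by linarith)
  · rw [h0] at hcon; nlinarith [sq_nonneg t]
  · exact hkey 1 (by norm_num) (by linarith)

theorem cellbound {ι : Type*} {C : ι → Set V3} {σ : ℝ} {T : V3 → ℝ} {n₀ : ι → V4} (h0 : PolyGood C (Y0 σ T) n₀)
    (hσ : σ = 1 ∨ σ = -1) (hT : ∀ w ∈ H2, 0 < T w) {m : ℝ} (hm : ∀ w ∈ H2, T w ≤ m)
    {i : ι} (hE : 0 < q (n₀ i) (σ • EE)) {x z : V3} (hx : x ∈ H2) (hz : z ∈ H2) (hxi : x ∈ C i) (hzi : z ∈ C i)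
    {s : ℝ} (hs : 0 ≤ s) (hc : q (nrm (Y0 σ T) x) (nrm (Y0 σ T) z) = -Real.cosh s) :
    -eta x z ≤ Real.cosh ((1 + m ^ 2) * s) := by
  have hσ2 : σ ^ 2 = 1 := by rcases hσ with h | h <;> rw [h] <;> norm_num
  obtain ⟨d, v, hd, hv, hgz⟩ := exists_geo hx hz
  have ht := hT x hx
  have ht' := hT z hz
  have htm := hm x hx
  have htm' := hm z hz
  -- formula for q on Y0
  have hqY : ∀ (n : V4) (w : V3), q n (Y0 σ T w) =
      (-(n 0 * w 0) + n 1 * w 1 + n 2 * w 2) - n 3 * (σ * T w) := by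
    intro n w
    simp [q, Y0, emb]
  have hqYY : ∀ a b : V3, q (Y0 σ T a) (Y0 σ T b) = eta a b - T a * T b := by
    intro a b
    simp only [q, Y0, emb, eta]
    simp
    have : σ * T a * (σ * T b) = T a * T b := by
      calc σ * T a * (σ * T b) = σ ^ 2 * (T a * T b) := by ring
        _ = T a * T b := by rw [hσ2]; ring
    linarith
  set k0 : ℝ := -(σ * n₀ i 3) with hk0
  have hk0pos : 0 < k0 := by
    have : q (n₀ i) (σ • EE) = k0 := by
      simp [q, EE, hk0]
      ring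
    rwa [this] at hE
  set a : V3 → ℝ := fun w => -(n₀ i 0 * w 0) + n₀ i 1 * w 1 + n₀ i 2 * w 2 with ha
  have hle : ∀ w ∈ H2, a w + k0 * T w ≤ 0 := by
    intro w hw
    have := h0.supp i w hw
    rw [hqY] at this
    simp only [ha, hk0]
    linarith
  have heqx : a x + k0 * T x = 0 := by
    have := h0.poly.nY i x hxi
    rw [hqY] at this
    simp only [ha, hk0]
    linarith
  have heqz : a z + k0 * T z = 0 := by
    have := h0.poly.nY i z hzi
    rw [hqY] at this
    simp only [ha, hk0]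
    linarith
  have hageo : ∀ r : ℝ, a (geo x v r) = Real.cosh r * a x + Real.sinh r * a v := by
    intro r
    simp only [ha, geo, Pi.add_apply, Pi.smul_apply, smul_eq_mul]
    ring
  have hpos : ∀ r : ℝ, 0 < Real.cosh r * T x + Real.sinh r * (-(a v) / k0) := by
    intro r
    have h1 := hle _ (geo_mem hx hv r)
    have h2 := hT _ (geo_mem hx hv r)
    rw [hageo] at h1
    have h3 : a x = -(k0 * T x) := by linarith
    rw [h3] at h1
    have h4 : 0 < k0 * T (geo x v r) := mul_pos hk0pos h2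
    have h5 : 0 < k0 * (Real.cosh r * T x + Real.sinh r * (-(a v) / k0)) := by
      have : k0 * (Real.cosh r * T x + Real.sinh r * (-(a v) / k0)) =
        k0 * (Real.cosh r * T x) - Real.sinh r * a v := by
        field_simp
        ring
      rw [this]
      nlinarith
    exact (mul_pos_iff_of_pos_left hk0pos).1 h5
  have hslope := aux_slope ht hpos
  set m1 := -(a v) / k0 with hm1
  have htz : T z = Real.cosh d * T x + Real.sinh d * m1 := by
    have h1 : a z = Real.cosh d * a x + Real.sinh d * a v := by rw [← hgz]; exact hageo d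
    have h3 : a x = -(k0 * T x) := by linarith
    have h4 : a z = -(k0 * T z) := by linarith
    rw [h3, h4] at h1
    have h5 : a v = -(k0 * m1) := by rw [hm1]; field_simp
    rw [h5] at h1
    have h6 : k0 * T z = k0 * (Real.cosh d * T x + Real.sinh d * m1) := by nlinarith
    exact mul_left_cancel₀ hk0pos.ne' h6
  have hexz : eta x z = -Real.cosh d := by
    rw [← hgz]
    have h1 : eta x (geo x v d) = Real.cosh d * eta x x + Real.sinh d * eta x v := by
      simp only [eta, geo, Pi.add_apply, Pi.smul_apply, smul_eq_mul]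
      ring
    rw [h1, hv.1, hx.1]
    ring
  have hcs := Real.cosh_sq d
  -- claim
  have hclaim : T x ^ 2 + T z ^ 2 ≤ 2 * Real.cosh d * (T x * T z) := by
    have : T x ^ 2 + T z ^ 2 - 2 * Real.cosh d * (T x * T z) = Real.sinh d ^ 2 * (m1 ^ 2 - T x ^ 2) := by
      rw [htz]
      have : Real.cosh d ^ 2 = Real.sinh d ^ 2 + 1 := hcs
      linear_combination (-(T x ^ 2)) * this
    nlinarith [sq_nonneg (Real.sinh d), mul_nonneg (sq_nonneg (Real.sinh d)) (sub_nonneg.2 hslope)]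
  -- nrm
  have hxx : q (Y0 σ T x) (Y0 σ T x) = -(1 + T x ^ 2) := by rw [hqYY, hx.1]; ring
  have hzz : q (Y0 σ T z) (Y0 σ T z) = -(1 + T z ^ 2) := by rw [hqYY, hz.1]; ring
  have hqs : ∀ (α β : ℝ) (X Y : V4), q (α • X) (β • Y) = α * β * q X Y := by
    intro α β X Y
    simp only [q, Pi.smul_apply, smul_eq_mul]
    ring
  rw [nrm, nrm, hqs, hxx, hzz, hqYY, hexz, neg_neg, neg_neg] at hc
  set ρ := Real.sqrt (1 + T x ^ 2) with hρ
  set ρ' := Real.sqrt (1 + T z ^ 2) with hρ'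
  have hρp : 0 < ρ := Real.sqrt_pos.2 (by positivity)
  have hρp' : 0 < ρ' := Real.sqrt_pos.2 (by positivity)
  have hρsq : ρ ^ 2 = 1 + T x ^ 2 := Real.sq_sqrt (by positivity)
  have hρsq' : ρ' ^ 2 = 1 + T z ^ 2 := Real.sq_sqrt (by positivity)
  have hcosh : Real.cosh s * (ρ * ρ') = Real.cosh d + T x * T z := by
    field_simp at hc
    linarith
  have hsq : Real.cosh s ^ 2 * ((1 + T x ^ 2) * (1 + T z ^ 2)) = (Real.cosh d + T x * T z) ^ 2 := by
    rw [← hcosh, ← hρsq, ← hρsq']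
    ring
  have hcs' := Real.cosh_sq s
  have hmain : Real.sinh d ^ 2 ≤ Real.sinh s ^ 2 * ((1 + T x ^ 2) * (1 + T z ^ 2)) := by
    have h1 : Real.sinh s ^ 2 * ((1 + T x ^ 2) * (1 + T z ^ 2)) =
      (Real.cosh d + T x * T z) ^ 2 - (1 + T x ^ 2) * (1 + T z ^ 2) := by
      rw [← hsq, hcs']; ring
    rw [h1]
    nlinarith
  have hmpos : 0 < m := lt_of_lt_of_le ht htm
  have hbound : (1 + T x ^ 2) * (1 + T z ^ 2) ≤ (1 + m ^ 2) ^ 2 := by
    have h1 : T x ^ 2 ≤ m ^ 2 := by nlinarith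
    have h2 : T z ^ 2 ≤ m ^ 2 := by nlinarith
    have : (1 + T x ^ 2) * (1 + T z ^ 2) ≤ (1 + m ^ 2) * (1 + m ^ 2) := by
      apply mul_le_mul (by linarith) (by linarith) (by positivity) (by positivity)
    nlinarith
  have hsd : 0 ≤ Real.sinh d := Real.sinh_nonneg_iff.2 hd
  have hss : 0 ≤ Real.sinh s := Real.sinh_nonneg_iff.2 hs
  have h2 : Real.sinh d ≤ (1 + m ^ 2) * Real.sinh s := by
    apply le_of_sq_le_sq _ (by positivity)
    calc Real.sinh d ^ 2 ≤ Real.sinh s ^ 2 * ((1 + T x ^ 2) * (1 + T z ^ 2)) := hmain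
      _ ≤ Real.sinh s ^ 2 * (1 + m ^ 2) ^ 2 := by
        apply mul_le_mul_of_nonneg_left hbound (sq_nonneg _)
      _ = ((1 + m ^ 2) * Real.sinh s) ^ 2 := by ring
  have h3 : Real.sinh d ≤ Real.sinh ((1 + m ^ 2) * s) :=
    h2.trans (sinh_mul_le' (by nlinarith [sq_nonneg m]) hs)
  have h4 : d ≤ (1 + m ^ 2) * s := Real.sinh_le_sinh.1 h3
  rw [hexz, neg_neg, Real.cosh_le_cosh, abs_of_nonneg hd, abs_of_nonneg (by positivity)]
  exact h4

end A_cellbound

alias cellbound := A_cellbound.cellbound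

namespace A_nonflat_pl

/-- orthogonality to four independent vectors -/
theorem nfp_zero {a b c d W : V4} (hdet : det4 a b c d ≠ 0) (ha : q W a = 0) (hb : q W b = 0)
    (hc : q W c = 0) (hd : q W d = 0) : W = 0 := by
  have h1 : (Matrix.of ![a, b, c, d]).mulVec ![-(W 0), W 1, W 2, -(W 3)] = 0 := by
    funext i
    fin_cases i
    · simp only [Matrix.mulVec, dotProduct, Fin.sum_univ_four, Matrix.of_apply]
      simp only [q] at ha
      simp
      linarith
    · simp only [Matrix.mulVec, dotProduct, Fin.sum_univ_four, Matrix.of_apply]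
      simp only [q] at hb
      simp
      linarith
    · simp only [Matrix.mulVec, dotProduct, Fin.sum_univ_four, Matrix.of_apply]
      simp only [q] at hc
      simp
      linarith
    · simp only [Matrix.mulVec, dotProduct, Fin.sum_univ_four, Matrix.of_apply]
      simp only [q] at hd
      simp
      linarith
  have h2 := Matrix.eq_zero_of_mulVec_eq_zero hdet h1
  have e0 := congrFun h2 0
  have e1 := congrFun h2 1
  have e2 := congrFun h2 2
  have e3 := congrFun h2 3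
  simp at e0 e1 e2 e3
  funext i
  fin_cases i
  · simpa using e0
  · simpa using e1
  · simpa using e2
  · simpa using e3

theorem nfp_comm (X Y : V4) : q X Y = q Y X := by
  unfold q; ring

theorem nfp_smul_left (t : ℝ) (X Y : V4) : q (t • X) Y = t * q X Y := by
  simp only [q, Pi.smul_apply, smul_eq_mul]; ring

theorem nfp_smul_right (t : ℝ) (X Y : V4) : q X (t • Y) = t * q X Y := by
  simp only [q, Pi.smul_apply, smul_eq_mul]; ring

theorem nfp_neg_right (X Y : V4) : q X (-Y) = -q X Y := by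
  simp only [q, Pi.neg_apply]; ring

theorem nfp_add_left (X Y Z : V4) : q (X + Y) Z = q X Z + q Y Z := by
  simp only [q, Pi.add_apply]; ring

theorem nonflat_pl {ι : Type*} {C : ι → Set V3} {Y : V3 → V4} {n : ι → V4} {σ : ℝ} {T : V3 → ℝ} {n₀ : ι → V4}
    (h : PolyGood C Y n) (h0 : PolyGood C (Y0 σ T) n₀) (hσ : σ = 1 ∨ σ = -1) (hs : SameCellMetric C Y (Y0 σ T))
    (hT : ∀ w ∈ H2, 0 < T w) {x₀ : V3} (hx₀ : x₀ ∈ H2) (hmax : ∀ w ∈ H2, T w ≤ T x₀) {N : V4} (hN : q N N = -1) :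
    ∃ y ∈ H2, q (nrm Y y) N ≠ 0 := by
  by_contra hcon
  push Not at hcon
  -- the position vectors are orthogonal to `N`
  have hY : ∀ z ∈ H2, q N (Y z) = 0 := by
    intro z hz
    obtain ⟨⟨r, hr, h1, h2, _⟩, _, _⟩ := nrm_props h.poly hz
    have h3 := hcon z hz
    rw [h1, nfp_smul_left] at h3
    rcases mul_eq_zero.1 h3 with h4 | h4
    · exact absurd h4 hr.ne'
    · rw [nfp_comm]; exact h4
  obtain ⟨k, y, j, hf⟩ := h.sub.fan x₀ hx₀
  obtain ⟨s, hsor⟩ := h.poly.ori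
  obtain ⟨hc0, hc1, hc2⟩ := hf.cell 0
  have hdet : det4 (Y x₀) (Y (y 0)) (Y (y (0 + 1))) (n (j 0)) ≠ 0 := by
    have := hsor (j 0) x₀ hc0 (y 0) hc1 (y (0 + 1)) hc2 (hf.ori 0)
    intro h0
    rw [h0, mul_zero] at this
    exact lt_irrefl _ this
  set ν := n (j 0) with hν
  have hνν : q ν ν = -1 := h.poly.nn _
  -- `N` is a multiple of `ν`
  have hW : N + (q N ν) • ν = 0 := by
    refine nfp_zero hdet ?_ ?_ ?_ ?_
    · rw [nfp_add_left, nfp_smul_left, hY _ hx₀, h.poly.nY _ _ hc0]; ring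
    · rw [nfp_add_left, nfp_smul_left, hY _ (hf.mem 0), h.poly.nY _ _ hc1]; ring
    · rw [nfp_add_left, nfp_smul_left, hY _ (hf.mem (0 + 1)), h.poly.nY _ _ hc2]; ring
    · rw [nfp_add_left, nfp_smul_left, hνν]; ring
  have hNν : N = (-(q N ν)) • ν := by
    rw [neg_smul]; exact eq_neg_of_add_eq_zero_left hW
  have ha : q N ν ≠ 0 := by
    intro h0
    rw [h0] at hNν
    simp at hNν
    rw [hNν] at hN
    simp [q] at hN
  -- all position vectors are orthogonal to `ν`
  have hzν : ∀ z ∈ H2, q (nrm Y z) (-ν) = 0 := by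
    intro z hz
    have h1 := hcon z hz
    rw [hNν, nfp_smul_right] at h1
    rw [nfp_neg_right, neg_eq_zero]
    rcases mul_eq_zero.1 h1 with h2 | h2
    · exact absurd (neg_eq_zero.1 h2) ha
    · exact h2
  have hMM : q (-ν) (-ν) = -1 := by
    rw [nfp_neg_right, nfp_comm, nfp_neg_right, hνν]; ring
  have hsign : ∀ i, x₀ ∈ C i → 0 < q (n i) (-ν) := by
    rcases sign_all h hx₀ (W := -ν) (by rw [hMM]; norm_num) (hzν _ hx₀) with h1 | h1
    · exact h1
    · exfalso
      have h2 := h1 (j 0) hc0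
      rw [nfp_neg_right, ← hν, hνν] at h2
      norm_num at h2
  -- the Fuchsian surface
  have hσ2 : σ * σ = 1 := by rcases hσ with h | h <;> rw [h] <;> norm_num
  have hEE : q (σ • EE) (σ • EE) = -1 := by
    have h1 : q EE EE = -1 := by simp [q, EE]
    rw [nfp_smul_left, nfp_smul_right, h1]
    linear_combination -hσ2
  have hemb : ∀ z ∈ H2, q (nrm (Y0 σ T) z) (σ • EE) = -(T z / Real.sqrt (1 + T z ^ 2)) := by
    intro z hz
    have h1 : -(q (Y0 σ T z) (Y0 σ T z)) = 1 + T z ^ 2 := by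
      have h2 : eta z z = -1 := hz.1
      simp only [eta] at h2
      simp only [q, Y0, emb]
      simp
      linear_combination -h2 + (T z) ^ 2 * hσ2
    unfold nrm
    rw [h1, nfp_smul_left, nfp_smul_right]
    have h3 : q (Y0 σ T z) EE = -(σ * T z) := by simp [q, Y0, emb, EE]
    rw [h3, div_eq_mul_inv]
    linear_combination -(Real.sqrt (1 + T z ^ 2))⁻¹ * T z * hσ2
  have hsq : ∀ z, 0 < Real.sqrt (1 + T z ^ 2) := fun z => Real.sqrt_pos.2 (by positivity)
  have hlt1 : T x₀ / Real.sqrt (1 + T x₀ ^ 2) < 1 := by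
    rw [div_lt_one (hsq _)]
    exact Real.lt_sqrt_of_sq_lt (by linarith)
  have hpos : 0 < T x₀ / Real.sqrt (1 + T x₀ ^ 2) := div_pos (hT _ hx₀) (hsq _)
  refine lc6 h h0 hs hx₀ (M := -ν) (M' := σ • EE) hMM hEE hsign ?_ ?_ ?_ ?_
  · rw [hzν _ hx₀]; norm_num
  · rw [hemb _ hx₀, abs_neg, abs_of_pos hpos]; exact hlt1
  · rw [hzν _ hx₀, hemb _ hx₀, neg_neg, neg_zero, Real.arcsin_zero]
    exact Real.arcsin_pos.2 hpos
  · intro z hz
    rw [hzν _ hx₀, hzν _ hz, hemb _ hx₀, hemb _ hz, neg_neg, neg_neg]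
    refine sub_le_sub_left ?_ _
    refine Real.monotone_arcsin ?_
    rw [div_le_div_iff₀ (hsq _) (hsq _)]
    have hz0 := hT z hz
    have hx0 := hT x₀ hx₀
    refine (sq_le_sq₀ (mul_nonneg hz0.le (Real.sqrt_nonneg _))
      (mul_nonneg hx0.le (Real.sqrt_nonneg _))).1 ?_
    rw [mul_pow, mul_pow, Real.sq_sqrt (by positivity), Real.sq_sqrt (by positivity)]
    have h5 : T z ^ 2 ≤ T x₀ ^ 2 := by nlinarith [hmax z hz]
    nlinarith

end A_nonflat_pl

alias nonflat_pl := A_nonflat_pl.nonflat_pl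

end Helper935.Poly
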