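import Pool.Agent.Helper935_AdS.PDiscA
import Pool.Agent.Helper935_AdS.PLocB

namespace Helper935.Poly

namespace A_refine6

/-! ### auxiliary lemmas -/

theorem r6_qcomb (a b : ℝ) (X Y Z : V4) : q (a • X + b • Y) Z = a * q X Z + b * q Y Z := by
  simp only [q, Pi.add_apply, Pi.smul_apply, smul_eq_mul]; ring

theorem r6_qcomb' (a b : ℝ) (X Y Z : V4) : q Z (a • X + b • Y) = a * q Z X + b * q Z Y := by
  simp only [q, Pi.add_apply, Pi.smul_apply, smul_eq_mul]; ring

theorem r6_qs (a : ℝ) (X Z : V4) : q (a • X) Z = a * q X Z := by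
  simp only [q, Pi.smul_apply, smul_eq_mul]; ring

theorem r6_qs' (a : ℝ) (X Z : V4) : q Z (a • X) = a * q Z X := by
  simp only [q, Pi.smul_apply, smul_eq_mul]; ring

theorem r6_qsymm (X Z : V4) : q Z X = q X Z := by
  simp only [q]; ring

theorem r6_cosh (C : ℝ) (hC : 1 ≤ C) : ∃ d : ℝ, 0 ≤ d ∧ Real.cosh d = C := by
  have h1 : C ≤ Real.cosh C := by
    have h := Real.one_le_cosh C
    have h2 : C + 1 ≤ Real.exp C := Real.add_one_le_exp C
    rw [Real.cosh_eq]
    have h3 : (0 : ℝ) < Real.exp (-C) := Real.exp_pos _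
    have h4 := Real.quadratic_le_exp_of_nonneg (show 0 ≤ C by linarith)
    nlinarith
  have h2 := intermediate_value_Icc (show (0 : ℝ) ≤ C by linarith)
    (Real.continuous_cosh.continuousOn (s := Set.Icc 0 C))
  have h3 : C ∈ Set.Icc (Real.cosh 0) (Real.cosh C) := by
    rw [Real.cosh_zero]; exact ⟨hC, h1⟩
  obtain ⟨d, hd, hd'⟩ := h2 h3
  exact ⟨d, hd.1, hd'⟩

/-- addition formulas -/
theorem r6_id (d p r : ℝ) :
    Real.sinh (d - p) * Real.sinh (d - r) + Real.sinh p * Real.sinh r +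
      (Real.sinh (d - p) * Real.sinh r + Real.sinh p * Real.sinh (d - r)) * Real.cosh d =
    Real.sinh d ^ 2 * Real.cosh (p - r) := by
  rw [Real.sinh_sub, Real.sinh_sub, Real.cosh_sub]
  have h := Real.cosh_sq d
  linear_combination (-(Real.sinh p * Real.sinh r)) * h

/- Proof:
Let d >= 0 with cosh d = 1 + WE S.X x t y s (WE >= 0, we_basic6); cosh d <= cosh l gives d <= l.
Case d = 0: WE = 0, so by we_basic6 -q (X x)(X y) = 1 and cosh(t - s) = 1: t = s, and x = y (exists_geo: y = geo x v e, cosh(c e) <= 1 by chord6 so e = 0). Take the constant path.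
Case d > 0: consider the vectors P0 = (cosh t X x, sinh t), P1 = (cosh s X y, sinh s) of V4 x R with the bilinear form b((A,a),(B,a')) = q A B + a a': b(P0,P0) = b(P1,P1) = -1, b(P0,P1) = -cosh d. For lam in [0,1] P_lam = (sinh((1-lam) d) P0 + sinh(lam d) P1)/sinh d satisfies b(P_lam,P_mu) = -cosh((lam - mu) d) (addition formulas). Write P_lam = (A, a): A = al X x + be X y with al = sinh((1-lam)d) cosh t/sinh d >= 0, be = sinh(lam d) cosh s/sinh d >= 0, al + be > 0. Seg: A = r X z, z in H2, r > 0, and -1 = q A A + a^2 = -r^2 + a^2, so r = sqrt(1+a^2) = cosh tau with tau = arsinh a, a = sinh tau. So P_lam = (cosh tau X z, sinh tau): put v i = (z,tau) for lam = i/k; WE S.X (v i)(v (i+1)) = -b(P_lam,P_mu) - 1 = cosh(d/k) - 1 <= cosh(l/k) - 1. FF S.X V z tau = sinh tau + cosh tau q (X z) V = a + q A V is a nonnegative combination of FF S.X V x t and FF S.X V y s, hence >= 0. For i = 0: A = cosh t X x, a = sinh t, so tau = t, X z = X x and z = x (h.inj); similarly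 for i = k; (alternatively define v 0 := (x,t) and v k := (y,s) directly).
-/
theorem refine6 {S : NS} {c : ℝ} (h : NGood S c) {V : V4} {x y : V3} (hx : x ∈ H2) (hy : y ∈ H2) {t s : ℝ} (hFx : 0 ≤ FF S.X V x t)
    (hFy : 0 ≤ FF S.X V y s) (hseg : Seg S.X x y) {l : ℝ} (hl : 0 ≤ l) (hW : WE S.X x t y s ≤ Real.cosh l - 1)
    {k : ℕ} (hk : 0 < k) :
    ∃ v : ℕ → V3 × ℝ, v 0 = (x, t) ∧ v k = (y, s) ∧ Adm S.X V k v ∧
      ∀ i < k, WE S.X (v i).1 (v i).2 (v (i + 1)).1 (v (i + 1)).2 ≤ Real.cosh (l / k) - 1 := by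
  obtain ⟨hw1, hw2, hw3, hw4⟩ := we_basic6 h hx hy t s
  have hkR : (0 : ℝ) < k := by exact_mod_cast hk
  obtain ⟨d, hd0, hd⟩ := r6_cosh (1 + WE S.X x t y s) (by linarith)
  have hdl : d ≤ l := by
    have : Real.cosh d ≤ Real.cosh l := by rw [hd]; linarith
    rw [Real.cosh_le_cosh, abs_of_nonneg hd0, abs_of_nonneg hl] at this
    exact this
  have hck : 1 ≤ Real.cosh (l / k) := Real.one_le_cosh _
  rcases hd0.eq_or_lt with hd00 | hdpos
  · -- degenerate case
    rw [← hd00, Real.cosh_zero] at hd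
    have hWE : WE S.X x t y s = 0 := by linarith
    have hts : t = s := by
      have h1 : Real.cosh (t - s) ≤ 1 := by linarith
      have h2 := Real.one_le_cosh (t - s)
      have h3 : Real.cosh (t - s) = 1 := le_antisymm h1 h2
      have h4 : t - s = 0 := by
        rw [← Real.cosh_zero] at h3
        have h5 := Real.cosh_abs (t - s)
        by_contra hne
        have h6 := (Real.one_lt_cosh (x := t - s)).2 hne
        rw [Real.cosh_zero] at h3
        linarith
      linarith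
    have hxy : x = y := by
      obtain ⟨e, v, he, hv, rfl⟩ := exists_geo hx hy
      have h1 := chord6 h hx hy he (by rw [eta_geo hx hv]; ring)
      have h2 : Real.cosh (c * e) ≤ 1 := by linarith
      have h3 : c * e = 0 := by
        by_contra hne
        have := (Real.one_lt_cosh (x := c * e)).2 hne
        linarith
      have h4 : e = 0 := by
        rcases mul_eq_zero.1 h3 with h4 | h4
        · exact absurd h4 h.c_pos.ne'
        · exact h4
      rw [h4]; simp [geo]
    subst hxy; subst hts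
    refine ⟨fun _ => (x, t), rfl, rfl, fun i _ => ⟨hx, hFx⟩, fun i _ => ?_⟩
    simp only
    rw [hWE]; linarith
  · have hS : 0 < Real.sinh d := Real.sinh_pos_iff.2 hdpos
    have hSne : Real.sinh d ≠ 0 := hS.ne'
    have hQx := h.XX x hx
    have hQy := h.XX y hy
    obtain ⟨Q, hQ⟩ : ∃ Q, Q = q (S.X x) (S.X y) := ⟨_, rfl⟩
    have hd' : Real.cosh d = -(Real.cosh t * Real.cosh s * Q) - Real.sinh t * Real.sinh s := by
      rw [hd, hQ]; unfold WE; ring
    obtain ⟨A, hA⟩ : ∃ A : ℝ → ℝ, ∀ u, A u = Real.sinh (d - u * d) / Real.sinh d := ⟨_, fun _ => rfl⟩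
    obtain ⟨B, hB⟩ : ∃ B : ℝ → ℝ, ∀ u, B u = Real.sinh (u * d) / Real.sinh d := ⟨_, fun _ => rfl⟩
    have hAB : ∀ u w, A u * A w + B u * B w + (A u * B w + B u * A w) * Real.cosh d =
        Real.cosh ((u - w) * d) := by
      intro u w
      have h1 := r6_id d (u * d) (w * d)
      rw [hA, hA, hB, hB]
      have e : (u - w) * d = u * d - w * d := by ring
      rw [e]
      generalize Real.sinh (d - u * d) = a₁ at h1 ⊢
      generalize Real.sinh (d - w * d) = a₂ at h1 ⊢
      generalize Real.sinh (u * d) = a₃ at h1 ⊢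
      generalize Real.sinh (w * d) = a₄ at h1 ⊢
      generalize Real.cosh (u * d - w * d) = a₅ at h1 ⊢
      field_simp
      linear_combination h1
    have hA0 : ∀ u, 0 ≤ u → u ≤ 1 → 0 ≤ A u := by
      intro u h0 h1
      rw [hA]
      exact div_nonneg (Real.sinh_nonneg_iff.2 (by nlinarith)) hS.le
    have hB0 : ∀ u, 0 ≤ u → u ≤ 1 → 0 ≤ B u := by
      intro u h0 h1
      rw [hB]
      exact div_nonneg (Real.sinh_nonneg_iff.2 (by positivity)) hS.le
    -- form of two points
    have form : ∀ u w : ℝ,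
        q ((A u * Real.cosh t) • S.X x + (B u * Real.cosh s) • S.X y)
          ((A w * Real.cosh t) • S.X x + (B w * Real.cosh s) • S.X y) +
        (A u * Real.sinh t + B u * Real.sinh s) * (A w * Real.sinh t + B w * Real.sinh s) =
        -Real.cosh ((u - w) * d) := by
      intro u w
      rw [← hAB, r6_qcomb, r6_qcomb', r6_qcomb', hQx, hQy, r6_qsymm (S.X x) (S.X y), ← hQ]
      have c1 := Real.cosh_sq t
      have c2 := Real.cosh_sq s
      linear_combination (-(A u * A w)) * c1 + (-(B u * B w)) * c2 +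
        (A u * B w + B u * A w) * hd'
    have ex : ∀ u : ℝ, 0 ≤ u → u ≤ 1 → ∃ z ∈ H2, ∃ τ : ℝ,
        Real.sinh τ = A u * Real.sinh t + B u * Real.sinh s ∧
        Real.cosh τ • S.X z = (A u * Real.cosh t) • S.X x + (B u * Real.cosh s) • S.X y := by
      intro u h0 h1
      have hct := Real.cosh_pos t
      have hcs := Real.cosh_pos s
      have hpos : 0 < A u * Real.cosh t + B u * Real.cosh s := by
        rcases h1.eq_or_lt with h1' | h1'
        · have e1 : B u = 1 := by rw [hB, h1', one_mul]; exact div_self hSne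
          have e2 := hA0 u h0 h1
          rw [e1]; nlinarith [mul_nonneg e2 hct.le]
        · have e1 : 0 < A u := by
            rw [hA]; exact div_pos (Real.sinh_pos_iff.2 (by nlinarith)) hS
          have e2 := hB0 u h0 h1
          nlinarith [mul_pos e1 hct, mul_nonneg e2 hcs.le]
      obtain ⟨z, hz, r, hr, he⟩ := hseg (A u * Real.cosh t) (B u * Real.cosh s)
        (mul_nonneg (hA0 u h0 h1) hct.le) (mul_nonneg (hB0 u h0 h1) hcs.le) hpos
      refine ⟨z, hz, Real.arsinh (A u * Real.sinh t + B u * Real.sinh s), Real.sinh_arsinh _, ?_⟩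
      have hf := form u u
      rw [he, r6_qs, r6_qs', h.XX z hz, sub_self, zero_mul, Real.cosh_zero] at hf
      have h2 := Real.cosh_sq (Real.arsinh (A u * Real.sinh t + B u * Real.sinh s))
      rw [Real.sinh_arsinh] at h2
      have h3 : Real.cosh (Real.arsinh (A u * Real.sinh t + B u * Real.sinh s)) = r := by
        have h4 := Real.cosh_pos (Real.arsinh (A u * Real.sinh t + B u * Real.sinh s))
        nlinarith
      rw [h3, he]
    have ex' : ∀ i : ℕ, ∃ p : V3 × ℝ, i ≤ k → (p.1 ∈ H2 ∧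
        Real.sinh p.2 = A ((i : ℝ) / k) * Real.sinh t + B ((i : ℝ) / k) * Real.sinh s ∧
        Real.cosh p.2 • S.X p.1 = (A ((i : ℝ) / k) * Real.cosh t) • S.X x +
          (B ((i : ℝ) / k) * Real.cosh s) • S.X y) := by
      intro i
      by_cases hi : i ≤ k
      · have hi' : (i : ℝ) ≤ k := by exact_mod_cast hi
        obtain ⟨z, hz, τ, h1, h2⟩ := ex ((i : ℝ) / k) (by positivity)
          (by rw [div_le_one hkR]; exact hi')
        exact ⟨(z, τ), fun _ => ⟨hz, h1, h2⟩⟩
      · exact ⟨(x, t), fun hi' => absurd hi' hi⟩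
    choose w hw using ex'
    have hA00 : A 0 = 1 := by rw [hA, zero_mul, sub_zero]; exact div_self hSne
    have hB00 : B 0 = 0 := by rw [hB, zero_mul, Real.sinh_zero, zero_div]
    have hA1 : A 1 = 0 := by rw [hA, one_mul, sub_self, Real.sinh_zero, zero_div]
    have hB1 : B 1 = 1 := by rw [hB, one_mul]; exact div_self hSne
    obtain ⟨v, hv⟩ : ∃ v : ℕ → V3 × ℝ, ∀ i, v i = if i = 0 then (x, t) else if i = k then (y, s)
      else w i := ⟨_, fun _ => rfl⟩
    have hvP : ∀ i ≤ k, (v i).1 ∈ H2 ∧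
        Real.sinh (v i).2 = A ((i : ℝ) / k) * Real.sinh t + B ((i : ℝ) / k) * Real.sinh s ∧
        Real.cosh (v i).2 • S.X (v i).1 = (A ((i : ℝ) / k) * Real.cosh t) • S.X x +
          (B ((i : ℝ) / k) * Real.cosh s) • S.X y := by
      intro i hi
      rw [hv]
      split_ifs with h1 h2
      · subst h1
        simp only [Nat.cast_zero, zero_div, hA00, hB00]
        refine ⟨hx, by ring, ?_⟩
        simp
      · subst h2
        have e : (i : ℝ) / i = 1 := div_self hkR.ne'
        simp only [e, hA1, hB1]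
        refine ⟨hy, by ring, ?_⟩
        simp
      · exact hw i hi
    refine ⟨v, by rw [hv]; simp, ?_, ?_, ?_⟩
    · rw [hv]; simp [hk.ne']
    · intro i hi
      obtain ⟨h1, h2, h3⟩ := hvP i hi
      refine ⟨h1, ?_⟩
      have hi' : (i : ℝ) ≤ k := by exact_mod_cast hi
      have u0 : 0 ≤ (i : ℝ) / k := by positivity
      have u1 : (i : ℝ) / k ≤ 1 := by rw [div_le_one hkR]; exact hi'
      have e : FF S.X V (v i).1 (v i).2 = A ((i : ℝ) / k) * FF S.X V x t +
          B ((i : ℝ) / k) * FF S.X V y s := by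
        unfold FF
        rw [← r6_qs, h3, h2, r6_qcomb]; ring
      rw [e]
      exact add_nonneg (mul_nonneg (hA0 _ u0 u1) hFx) (mul_nonneg (hB0 _ u0 u1) hFy)
    · intro i hi
      obtain ⟨-, h2, h3⟩ := hvP i hi.le
      obtain ⟨-, h2', h3'⟩ := hvP (i + 1) hi
      have hf := form ((i : ℝ) / k) (((i + 1 : ℕ) : ℝ) / k)
      rw [← h3, ← h3', ← h2, ← h2', r6_qs, r6_qs'] at hf
      have e : WE S.X (v i).1 (v i).2 (v (i + 1)).1 (v (i + 1)).2 =
          Real.cosh (((i : ℝ) / k - ((i + 1 : ℕ) : ℝ) / k) * d) - 1 := by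
        unfold WE
        linarith
      rw [e]
      have e2 : ((i : ℝ) / k - ((i + 1 : ℕ) : ℝ) / k) * d = -(d / k) := by
        push_cast; field_simp; ring
      rw [e2, Real.cosh_neg]
      have : Real.cosh (d / k) ≤ Real.cosh (l / k) := by
        rw [Real.cosh_le_cosh, abs_of_nonneg (by positivity), abs_of_nonneg (by positivity)]
        gcongr
      linarith

end A_refine6

alias refine6 := A_refine6.refine6

namespace A_refchain6

/- Proof:
Induction on n. n = 0: M = 0, w' = w. Step: from n to n+1: the induction hypothesis gives M, w' for the first n chords; refine6 for the chord from w n to w (n+1) with k = max 1 ⌈l n / ε⌉₊ >= 1: k <= l n/ε + 1 and l n/k <= ε, so each piece has WE <= cosh ε - 1. Concatenate: u i = if i <= M then w' i else v (i - M), with M + k steps: u (M) = w' M = w n = v 0. Adm and the estimate of each step are clear. En <= (M+k)(cosh ε - 1) because En is the sum of the steps (work with the statement that every step is <= cosh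 ε - 1).
-/
theorem refchain6 {S : NS} {c : ℝ} (h : NGood S c) {V : V4} {ε : ℝ} (hε : 0 < ε) (n : ℕ) {w : ℕ → V3 × ℝ} (hw : Adm S.X V n w)
    (hseg : ∀ i < n, Seg S.X (w i).1 (w (i + 1)).1) {l : ℕ → ℝ}
    (hl : ∀ i < n, 0 ≤ l i ∧ WE S.X (w i).1 (w i).2 (w (i + 1)).1 (w (i + 1)).2 ≤ Real.cosh (l i) - 1) :
    ∃ (M : ℕ) (w' : ℕ → V3 × ℝ), w' 0 = w 0 ∧ w' M = w n ∧ Adm S.X V M w' ∧
      (∀ i < M, WE S.X (w' i).1 (w' i).2 (w' (i + 1)).1 (w' (i + 1)).2 ≤ Real.cosh ε - 1) ∧
      (M : ℝ) ≤ (∑ i ∈ Finset.range n, l i) / ε + n := by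
  induction n with
  | zero => exact ⟨0, w, rfl, rfl, hw, fun i hi => absurd hi (Nat.not_lt_zero i), by simp⟩
  | succ n ih =>
    obtain ⟨M, w', h0, hM, hA, hS, hB⟩ := ih (fun i hi => hw i (by omega))
      (fun i hi => hseg i (by omega)) (fun i hi => hl i (by omega))
    obtain ⟨k, hk⟩ : ∃ k, k = max 1 ⌈l n / ε⌉₊ := ⟨_, rfl⟩
    have hk0 : 0 < k := by rw [hk]; exact lt_of_lt_of_le Nat.one_pos (le_max_left _ _)
    have hkr : (0 : ℝ) < k := by exact_mod_cast hk0
    have hln := (hl n (by omega)).1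
    have hx0 : 0 ≤ l n / ε := div_nonneg hln hε.le
    have hk1 : (k : ℝ) ≤ l n / ε + 1 := by
      rw [hk, Nat.cast_max]
      apply max_le
      · push_cast; linarith
      · exact (Nat.ceil_lt_add_one hx0).le
    have hk2 : l n / ε ≤ k := by
      rw [hk, Nat.cast_max]
      exact (Nat.le_ceil _).trans (le_max_right _ _)
    have hk3 : l n / k ≤ ε := by
      rw [div_le_iff₀ hkr]
      rw [div_le_iff₀ hε] at hk2
      linarith
    obtain ⟨v, v0, vk, vA, vS⟩ := refine6 h (hw n (by omega)).1 (hw (n + 1) le_rfl).1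
      (hw n (by omega)).2 (hw (n + 1) le_rfl).2 (hseg n (by omega)) hln (hl n (by omega)).2 hk0
    have v0' : v 0 = w n := v0
    have vk' : v k = w (n + 1) := vk
    have hcosh : Real.cosh (l n / k) ≤ Real.cosh ε := by
      rw [Real.cosh_le_cosh, abs_of_nonneg (div_nonneg hln hkr.le), abs_of_pos hε]
      exact hk3
    refine ⟨M + k, fun i => if i ≤ M then w' i else v (i - M), ?_, ?_, ?_, ?_, ?_⟩
    · beta_reduce
      rw [if_pos (Nat.zero_le M)]
      exact h0
    · beta_reduce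
      rw [if_neg (by omega), Nat.add_sub_cancel_left]
      exact vk'
    · intro i hi
      beta_reduce
      by_cases hiM : i ≤ M
      · rw [if_pos hiM]
        exact hA i hiM
      · rw [if_neg hiM]
        exact vA (i - M) (by omega)
    · intro i hi
      beta_reduce
      by_cases hiM : i + 1 ≤ M
      · rw [if_pos (by omega), if_pos hiM]
        exact hS i (by omega)
      · rw [if_neg hiM]
        by_cases hiM' : i = M
        · subst hiM'
          rw [if_pos le_rfl, hM, ← v0', Nat.add_sub_cancel_left]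
          exact (vS 0 hk0).trans (by linarith)
        · rw [if_neg (by omega)]
          have e1 : i + 1 - M = i - M + 1 := by omega
          rw [e1]
          exact (vS (i - M) (by omega)).trans (by linarith)
    · rw [Finset.sum_range_succ, add_div]
      push_cast
      linarith

end A_refchain6

alias refchain6 := A_refchain6.refchain6

namespace A_len_core6

/- Proof:
Let L = sum l i >= 0 (i < n). Take any ε > 0. refchain6: M, w'. If M = 0: w n = w' 0 = w 0, so cosh T = -q z z = 1 (zz_we6), T = 0 <= L. If M > 0: En S.X M w' <= M (cosh ε - 1) and min_disc6 for w' (endpoints are those of w, FF = 0): M (cosh(T/M) - 1) <= M (cosh ε - 1), so T/M <= ε, T <= M ε <= L + n ε. This for all ε > 0, so T <= L.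
-/
theorem len_core6 {S : NS} {c : ℝ} (h : NGood S c) {V : V4} (hV : q V V = -1) (hN : ∀ x ∈ H2, ∀ n ∈ S.Nr x, 0 < q n V) {n : ℕ} {w : ℕ → V3 × ℝ}
    (hw : Adm S.X V n w) (hseg : ∀ i < n, Seg S.X (w i).1 (w (i + 1)).1) {l : ℕ → ℝ}
    (hl : ∀ i < n, 0 ≤ l i ∧ WE S.X (w i).1 (w i).2 (w (i + 1)).1 (w (i + 1)).2 ≤ Real.cosh (l i) - 1)
    (h0 : FF S.X V (w 0).1 (w 0).2 = 0) (h1 : FF S.X V (w n).1 (w n).2 = 0)
    {T : ℝ} (hT : 0 ≤ T) (hTT : Real.cosh T = -q (zz S.X V (w 0).1 (w 0).2) (zz S.X V (w n).1 (w n).2)) :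
    T ≤ ∑ i ∈ Finset.range n, l i := by
  have hL : 0 ≤ ∑ i ∈ Finset.range n, l i :=
    Finset.sum_nonneg fun i hi => (hl i (Finset.mem_range.mp hi)).1
  have key : ∀ ε : ℝ, 0 < ε → T ≤ (∑ i ∈ Finset.range n, l i) + n * ε := by
    intro ε hε
    obtain ⟨M, w', e0, eM, hw', hstep, hMle⟩ := refchain6 h hε n hw hseg hl
    rcases Nat.eq_zero_or_pos M with hM | hM
    · subst hM
      have e1 : w n = w 0 := by rw [← eM, e0]
      have h2 := (zz_we6 h hV (hw 0 (Nat.zero_le n)).1 (hw 0 (Nat.zero_le n)).1 h0 h0).2.2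
      rw [e1, h2] at hTT
      have hT0 : T = 0 := by
        by_contra hne
        have := Real.one_lt_cosh.mpr hne
        linarith
      rw [hT0]
      positivity
    · have h2 := min_disc6 h hV hN hM hw' (by rw [e0]; exact h0) (by rw [eM]; exact h1) hT
        (by rw [e0, eM]; exact hTT)
      have h3 : En S.X M w' ≤ (M : ℝ) * (Real.cosh ε - 1) := by
        unfold En
        calc ∑ i ∈ Finset.range M, WE S.X (w' i).1 (w' i).2 (w' (i + 1)).1 (w' (i + 1)).2
            ≤ ∑ _i ∈ Finset.range M, (Real.cosh ε - 1) :=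
              Finset.sum_le_sum fun i hi => hstep i (Finset.mem_range.mp hi)
          _ = (M : ℝ) * (Real.cosh ε - 1) := by
              rw [Finset.sum_const, Finset.card_range, nsmul_eq_mul]
      have hM0 : (0 : ℝ) < M := by exact_mod_cast hM
      have h4 : Real.cosh (T / M) ≤ Real.cosh ε := by
        have h5 := h2.trans h3
        have h6 := le_of_mul_le_mul_left h5 hM0
        linarith
      have h7 := Real.cosh_le_cosh.mp h4
      rw [abs_of_nonneg (by positivity), abs_of_pos hε, div_le_iff₀ hM0] at h7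
      calc T ≤ ε * M := h7
        _ ≤ ε * ((∑ i ∈ Finset.range n, l i) / ε + n) := mul_le_mul_of_nonneg_left hMle hε.le
        _ = (∑ i ∈ Finset.range n, l i) + n * ε := by
            field_simp
  by_contra hlt
  push Not at hlt
  have hn : (0 : ℝ) < (n : ℝ) + 1 := by positivity
  have h2 := key ((T - ∑ i ∈ Finset.range n, l i) / (2 * ((n : ℝ) + 1))) (by
    apply div_pos
    · linarith
    · linarith)
  have h3 : (n : ℝ) * ((T - ∑ i ∈ Finset.range n, l i) / (2 * ((n : ℝ) + 1)))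
      ≤ (T - ∑ i ∈ Finset.range n, l i) / 2 := by
    rw [mul_div_assoc', div_le_div_iff₀ (by linarith) (by norm_num)]
    nlinarith
  linarith

end A_len_core6

alias len_core6 := A_len_core6.len_core6

namespace A_len6

/- Proof:
Let w' : 0 ↦ ((w 0).1, t0), i+1 ↦ w i for i <= n, n+2 ↦ ((w n).1, tn); l' : 0 ↦ |t0 - (w 0).2|, i+1 ↦ l i, n+1 ↦ |tn - (w n).2|. Adm: FF = 0 >= 0 at the new endpoints. Seg S.X x x: a X x + b X x = (a+b) X x. Vertical steps: WE S.X x t x s = cosh t cosh s - sinh t sinh s - 1 = cosh(t - s) - 1 = cosh |t - s| - 1 (q (X x)(X x) = -1). len_core6 with n + 2 steps.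
-/
theorem len6 {S : NS} {c : ℝ} (h : NGood S c) {V : V4} (hV : q V V = -1) (hN : ∀ x ∈ H2, ∀ n ∈ S.Nr x, 0 < q n V) {n : ℕ} {w : ℕ → V3 × ℝ}
    (hw : Adm S.X V n w) (hseg : ∀ i < n, Seg S.X (w i).1 (w (i + 1)).1) {l : ℕ → ℝ}
    (hl : ∀ i < n, 0 ≤ l i ∧ WE S.X (w i).1 (w i).2 (w (i + 1)).1 (w (i + 1)).2 ≤ Real.cosh (l i) - 1)
    {t₀ tn : ℝ} (h0 : FF S.X V (w 0).1 t₀ = 0) (h1 : FF S.X V (w n).1 tn = 0)
    {T : ℝ} (hT : 0 ≤ T) (hTT : Real.cosh T = -q (zz S.X V (w 0).1 t₀) (zz S.X V (w n).1 tn)) :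
    T ≤ ∑ i ∈ Finset.range n, l i + |t₀ - (w 0).2| + |tn - (w n).2| := by
  let w' : ℕ → V3 × ℝ := fun k => match k with
    | 0 => ((w 0).1, t₀)
    | (i + 1) => if i ≤ n then w i else ((w n).1, tn)
  let l' : ℕ → ℝ := fun k => match k with
    | 0 => |t₀ - (w 0).2|
    | (i + 1) => if i < n then l i else |tn - (w n).2|
  have w0 : w' 0 = ((w 0).1, t₀) := rfl
  have ws : ∀ i, i ≤ n → w' (i + 1) = w i := fun i hi => by
    show (if i ≤ n then w i else ((w n).1, tn)) = w i
    rw [if_pos hi]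
  have wn : w' (n + 2) = ((w n).1, tn) := by
    show (if n + 1 ≤ n then w (n + 1) else ((w n).1, tn)) = _
    rw [if_neg (by omega)]
  have l0 : l' 0 = |t₀ - (w 0).2| := rfl
  have ls : ∀ i, i < n → l' (i + 1) = l i := fun i hi => by
    show (if i < n then l i else |tn - (w n).2|) = l i
    rw [if_pos hi]
  have ln : l' (n + 1) = |tn - (w n).2| := by
    show (if n < n then l n else |tn - (w n).2|) = _
    rw [if_neg (by omega)]
  have hX0 : (w 0).1 ∈ H2 := (hw 0 (Nat.zero_le n)).1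
  have hXn : (w n).1 ∈ H2 := (hw n le_rfl).1
  have hvert : ∀ x ∈ H2, ∀ t s : ℝ, WE S.X x t x s = Real.cosh |t - s| - 1 := by
    intro x hx t s
    unfold WE
    rw [h.XX x hx, Real.cosh_abs, Real.cosh_sub]
    ring
  have hvert' : ∀ x ∈ H2, ∀ t s : ℝ, WE S.X x t x s = Real.cosh |s - t| - 1 := by
    intro x hx t s
    rw [hvert x hx, abs_sub_comm]
  have hsegr : ∀ x ∈ H2, Seg S.X x x := by
    intro x hx a b ha hb hab
    exact ⟨x, hx, a + b, hab, (add_smul a b (S.X x)).symm⟩
  have hadm : Adm S.X V (n + 2) w' := by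
    intro i hi
    rcases Nat.eq_zero_or_pos i with h0' | hpos
    · subst h0'
      rw [w0]
      exact ⟨hX0, h0.ge⟩
    · obtain ⟨j, rfl⟩ : ∃ j, i = j + 1 := ⟨i - 1, by omega⟩
      rcases Nat.lt_or_ge j (n + 1) with hj | hj
      · rw [ws j (by omega)]
        exact hw j (by omega)
      · have : j = n + 1 := by omega
        subst this
        rw [wn]
        exact ⟨hXn, h1.ge⟩
  have hseg' : ∀ i < n + 2, Seg S.X (w' i).1 (w' (i + 1)).1 := by
    intro i hi
    rcases Nat.eq_zero_or_pos i with h0' | hpos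
    · subst h0'
      rw [w0, ws 0 (Nat.zero_le n)]
      exact hsegr _ hX0
    · obtain ⟨j, rfl⟩ : ∃ j, i = j + 1 := ⟨i - 1, by omega⟩
      rcases Nat.lt_or_ge j n with hj | hj
      · rw [ws j (by omega), ws (j + 1) (by omega)]
        exact hseg j hj
      · have : j = n := by omega
        subst this
        rw [ws j le_rfl, wn]
        exact hsegr _ hXn
  have hl' : ∀ i < n + 2, 0 ≤ l' i ∧
      WE S.X (w' i).1 (w' i).2 (w' (i + 1)).1 (w' (i + 1)).2 ≤ Real.cosh (l' i) - 1 := by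
    intro i hi
    rcases Nat.eq_zero_or_pos i with h0' | hpos
    · subst h0'
      rw [w0, ws 0 (Nat.zero_le n), l0]
      exact ⟨abs_nonneg _, (hvert _ hX0 _ _).le⟩
    · obtain ⟨j, rfl⟩ : ∃ j, i = j + 1 := ⟨i - 1, by omega⟩
      rcases Nat.lt_or_ge j n with hj | hj
      · rw [ws j (by omega), ws (j + 1) (by omega), ls j hj]
        exact hl j hj
      · have : j = n := by omega
        subst this
        rw [ws j le_rfl, wn, ln]
        exact ⟨abs_nonneg _, (hvert' _ hXn _ _).le⟩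
  have key := len_core6 h hV hN hadm hseg' hl' (by rw [w0]; exact h0) (by rw [wn]; exact h1)
    hT (by rw [w0, wn]; exact hTT)
  have hsum : ∑ i ∈ Finset.range (n + 2), l' i =
      ∑ i ∈ Finset.range n, l i + |t₀ - (w 0).2| + |tn - (w n).2| := by
    rw [Finset.sum_range_succ, Finset.sum_range_succ', ln, l0]
    congr 2
    exact Finset.sum_congr rfl fun i hi => ls i (Finset.mem_range.mp hi)
  rw [← hsum]
  exact key

end A_len6

alias len6 := A_len6.len6

namespace A_chain_gen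

/-- chains from `0` to `t` -/
def ChainTo {ι : Type*} (C : ι → Set V3) (x : ℝ → V3) (δ t : ℝ) : Prop :=
  ∃ (n : ℕ) (s : ℕ → ℝ), s 0 = 0 ∧ s n = t ∧ (∀ i ≤ n, 0 ≤ s i ∧ s i ≤ t) ∧
      ∀ i < n, s i ≤ s (i + 1) ∧ s (i + 1) ≤ s i + δ ∧ ∃ j, x (s i) ∈ C j ∧ x (s (i + 1)) ∈ C j

theorem ChainTo.append {ι : Type*} {C : ι → Set V3} {x : ℝ → V3} {δ t t' : ℝ}
    (h : ChainTo C x δ t) (h1 : t ≤ t') (h2 : t' ≤ t + δ) (h3 : ∃ j, x t ∈ C j ∧ x t' ∈ C j) :
    ChainTo C x δ t' := by
  obtain ⟨n, s, h0, hn, hle, hst⟩ := h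
  refine ⟨n + 1, fun i => if i ≤ n then s i else t', ?_, ?_, ?_, ?_⟩
  · simp [h0]
  · simp
  · intro i hi
    by_cases hin : i ≤ n
    · simp only [hin, if_true]
      exact ⟨(hle i hin).1, (hle i hin).2.trans h1⟩
    · simp only [hin, if_false]
      have := (hle n le_rfl).1
      rw [hn] at this
      exact ⟨this.trans h1, le_rfl⟩
  · intro i hi
    rcases Nat.lt_succ_iff_lt_or_eq.1 hi with hlt | heq
    · have a1 : i ≤ n := hlt.le
      have a2 : i + 1 ≤ n := hlt
      simp only [a1, a2, if_true]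
      exact hst i hlt
    · subst heq
      have a2 : ¬ (i + 1 ≤ i) := by omega
      simp only [le_refl, if_true, a2, if_false, hn]
      exact ⟨h1, h2, h3⟩

theorem eta_continuous (a : V3) : Continuous (fun y : V3 => eta a y) := by
  unfold eta
  fun_prop

theorem local_cell {ι : Type*} {C : ι → Set V3} (hC : IsSubdivision C) {x : ℝ → V3} {S : ℝ}
    (hx : ContinuousOn x (Set.Icc 0 S)) (hxH : ∀ s, 0 ≤ s → s ≤ S → x s ∈ H2) {δ : ℝ} (hδ : 0 < δ)
    {t : ℝ} (h0 : 0 ≤ t) (h1 : t ≤ S) :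
    ∃ e : ℝ, 0 < e ∧ e ≤ δ ∧ ∀ s', 0 ≤ s' → s' ≤ S → |s' - t| < e →
      ∃ j, x t ∈ C j ∧ x s' ∈ C j := by
  obtain ⟨r, hr, hst⟩ := star_cell hC (hxH t h0 h1)
  have hc : ContinuousWithinAt (fun s' => -eta (x t) (x s')) (Set.Icc 0 S) t :=
    (((eta_continuous (x t)).continuousAt).comp_continuousWithinAt (hx t ⟨h0, h1⟩)).neg
  have h2 : -eta (x t) (x t) < r := by
    rw [(hxH t h0 h1).1]; linarith
  have h3 : ∀ᶠ s' in nhdsWithin t (Set.Icc 0 S), -eta (x t) (x s') < r :=
    hc.eventually_lt_const h2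
  rw [eventually_nhdsWithin_iff, Metric.eventually_nhds_iff] at h3
  obtain ⟨e, he, hball⟩ := h3
  refine ⟨min e δ, lt_min he hδ, min_le_right _ _, fun s' hs0 hs1 hs => ?_⟩
  have h4 : dist s' t < e := by
    rw [Real.dist_eq]
    exact hs.trans_le (min_le_left _ _)
  exact hst _ (hxH s' hs0 hs1) (hball h4 ⟨hs0, hs1⟩)

/- Proof:
For t in [0,S] let P(t) : ∃ n s, s 0 = 0, s n = t, and for all i < n: s i <= s (i+1) <= s i + delta and x (s i), x (s (i+1)) lie in a common cell. P(0) (n = 0, s = 0). For t in [0,S] star_cell at x t gives r > 1 such that every w in H2 with -eta (x t) w < r lies in a common cell with x t; by continuity of s' ↦ -eta (x t)(x s') (value 1 at s' = t) there is e in (0, delta) such that for |s' - t| < e, s' in [0,S]: x s' and x t lie in a common cell. So if P(s') for some s' in (t - e, t] then P(t), and if P(t) then P(s'') for all s'' in [t, t+e) ∩ [0,S] (append one point to the chain). Let t* = sup {t in [0,S] : P t}; then P(t*) and if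 t* < S then P(s'') for some s'' > t*, contradiction. So P(S).
-/
theorem chain_gen {ι : Type*} {C : ι → Set V3} (hC : IsSubdivision C) {x : ℝ → V3} {S : ℝ} (hS : 0 ≤ S)
    (hx : ContinuousOn x (Set.Icc 0 S)) (hxH : ∀ s, 0 ≤ s → s ≤ S → x s ∈ H2) {δ : ℝ} (hδ : 0 < δ) :
    ∃ (n : ℕ) (s : ℕ → ℝ), s 0 = 0 ∧ s n = S ∧ (∀ i ≤ n, 0 ≤ s i ∧ s i ≤ S) ∧
      ∀ i < n, s i ≤ s (i + 1) ∧ s (i + 1) ≤ s i + δ ∧ ∃ j, x (s i) ∈ C j ∧ x (s (i + 1)) ∈ C j := by
  have hP0 : ChainTo C x δ 0 := by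
    refine ⟨0, fun _ => 0, rfl, rfl, fun i _ => ⟨le_rfl, le_rfl⟩, fun i hi => absurd hi (by omega)⟩
  let A : Set ℝ := {t | 0 ≤ t ∧ t ≤ S ∧ ChainTo C x δ t}
  have hA0 : (0 : ℝ) ∈ A := ⟨le_rfl, hS, hP0⟩
  have hne : A.Nonempty := ⟨0, hA0⟩
  have hbdd : BddAbove A := ⟨S, fun t ht => ht.2.1⟩
  have h0 : 0 ≤ sSup A := le_csSup hbdd hA0
  have h1 : sSup A ≤ S := csSup_le hne fun t ht => ht.2.1
  obtain ⟨e, he, heδ, hloc⟩ := local_cell hC hx hxH hδ h0 h1
  obtain ⟨a, haA, ha⟩ := exists_lt_of_lt_csSup hne (show sSup A - e < sSup A by linarith)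
  have hale : a ≤ sSup A := le_csSup hbdd haA
  have hPt : ChainTo C x δ (sSup A) := by
    refine haA.2.2.append hale (by linarith) ?_
    obtain ⟨j, hj1, hj2⟩ := hloc a haA.1 haA.2.1 (by rw [abs_lt]; constructor <;> linarith)
    exact ⟨j, hj2, hj1⟩
  have hSS : sSup A = S := by
    by_contra hcon
    have hlt : sSup A < S := lt_of_le_of_ne h1 hcon
    have hb1 : sSup A < min (sSup A + e / 2) S := lt_min (by linarith) hlt
    have hb2 : min (sSup A + e / 2) S ≤ sSup A + e / 2 := min_le_left _ _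
    have hb3 : min (sSup A + e / 2) S ≤ S := min_le_right _ _
    have hb : ChainTo C x δ (min (sSup A + e / 2) S) :=
      hPt.append hb1.le (by linarith)
        (hloc _ (by linarith) hb3 (by rw [abs_lt]; constructor <;> linarith))
    have := le_csSup hbdd (show min (sSup A + e / 2) S ∈ A from ⟨by linarith, hb3, hb⟩)
    linarith
  rw [hSS] at hPt
  exact hPt

end A_chain_gen

alias chain_gen := A_chain_gen.chain_gen

namespace A_seg6

/- Proof:
Given a, b >= 0, a + b > 0. nrm Y x = r_x Y x with r_x > 0, nrm Y y = r_y Y y. a nrm Y x + b nrm Y y = (a r_x) Y x + (b r_y) Y y. seg_pt with coefficients a r_x, b r_y: z in H2, rho > 0, (a r_x) x + (b r_y) y = rho z, z in C i. pcomb: Y z = rho^-1 ((a r_x) Y x + (b r_y) Y y), so the sum is rho Y z = rho r_z^-1 nrm Y z.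
-/
theorem seg6 {ι : Type*} {C : ι → Set V3} {Y : V3 → V4} {n : ι → V4} (h : PolyGood C Y n) {x y : V3} (hx : x ∈ H2) (hy : y ∈ H2) {i : ι} (hxi : x ∈ C i) (hyi : y ∈ C i) : Seg (nrm Y) x y := by
  intro a b ha hb hab
  obtain ⟨⟨rx, hrx, hnx, -, -⟩, -, -⟩ := nrm_props h.poly hx
  obtain ⟨⟨ry, hry, hny, -, -⟩, -, -⟩ := nrm_props h.poly hy
  have ha' : 0 ≤ a * rx := mul_nonneg ha hrx.le
  have hb' : 0 ≤ b * ry := mul_nonneg hb hry.le
  have hab' : 0 < a * rx + b * ry := by
    rcases ha.lt_or_eq with h1 | h1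
    · have := mul_pos h1 hrx
      linarith
    · have h2 : 0 < b := by linarith
      have := mul_pos h2 hry
      linarith
  obtain ⟨z, hz, ρ, hρ, he, hj⟩ := seg_pt h.sub hx hy ha' hb' hab'
  have hzi := hj i hxi hyi
  have hY := pcomb h.poly h.sub hxi hyi hzi ha' hb' hρ hab' he
  obtain ⟨⟨rz, hrz, hnz, -, -⟩, -, -⟩ := nrm_props h.poly hz
  refine ⟨z, hz, ρ * rz⁻¹, by positivity, ?_⟩
  rw [hnx, hny, hnz, hY]
  simp only [smul_smul]
  have h3 : ρ * rz⁻¹ * (rz * ρ⁻¹) = 1 := by
    field_simp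
  rw [h3, one_smul]

end A_seg6

alias seg6 := A_seg6.seg6

end Helper935.Poly
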