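import Pool.Agent.Helper935_AdS.PLamA
import Pool.Agent.Helper935_AdS.PLocB

namespace Helper935.Poly

namespace A_snprops6

/- Proof:
A : PT ι, sigma = A.σ, sigma^2 = 1 (A.sig), T = A.T > 0 on H2 (A.T_pos). q (emb a r)(emb b r') = eta a b - r r', EE = emb 0 1. Y0 sigma T x = emb x (sigma T x), q (Y0)(Y0) = -1 - T^2 on H2, nrm (Y0 sigma T) x = (sqrt(1+T^2))^-1 • emb x (sigma T x), q (..)(sigma • EE) = -(sqrt(1+T^2))^-1 sigma T sigma = -sn T x. sn = T/sqrt(1+T^2) in (0,1), sn^2 + 1/(1+T^2) = 1. Continuity from A.T_cont, invariance from A.T_G. T is continuous positive on the compact set A.S.F ⊆ H2 and invariant with F_cov: so bounded below by a positive constant and bounded above on H2; this gives s1 (if F is empty then H2 would be empty by F_cov; take care).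
-/
theorem snprops6 {ι : Type*} (A : PT ι) : q (A.σ • EE) (A.σ • EE) = -1 ∧
    (∀ x ∈ H2, 0 < sn A.T x ∧ sn A.T x < 1 ∧ -(q (nrm (Y0 A.σ A.T) x) (A.σ • EE)) = sn A.T x ∧
      -(q (Y0 A.σ A.T x) (A.σ • EE)) = A.T x ∧
      sn A.T x = (Real.sqrt (1 + A.T x ^ 2))⁻¹ * A.T x ∧ (Real.sqrt (1 + A.T x ^ 2))⁻¹ ^ 2 + sn A.T x ^ 2 = 1) ∧
    ContinuousOn (sn A.T) H2 ∧ (∀ g ∈ A.S.G, ∀ x ∈ H2, sn A.T (g.1 x) = sn A.T x) ∧
    ∃ s₁ : ℝ, 0 < s₁ ∧ ∀ x ∈ H2, s₁ ≤ sn A.T x ∧ s₁ ≤ (Real.sqrt (1 + A.T x ^ 2))⁻¹ ∧ s₁ ≤ A.T x ∧ A.T x ≤ s₁⁻¹ := by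
  have hσ : A.σ ^ 2 = 1 := by
    rcases A.sig with h | h <;> rw [h] <;> norm_num
  have hpt : ∀ x ∈ H2, 0 < sn A.T x ∧ sn A.T x < 1 ∧
      -(q (nrm (Y0 A.σ A.T) x) (A.σ • EE)) = sn A.T x ∧
      -(q (Y0 A.σ A.T x) (A.σ • EE)) = A.T x ∧
      sn A.T x = (Real.sqrt (1 + A.T x ^ 2))⁻¹ * A.T x ∧
      (Real.sqrt (1 + A.T x ^ 2))⁻¹ ^ 2 + sn A.T x ^ 2 = 1 := by
    intro x hx
    have hT := A.T_pos x hx
    have hs0 : 0 < 1 + A.T x ^ 2 := by positivity
    have hs1 : 0 < Real.sqrt (1 + A.T x ^ 2) := Real.sqrt_pos.2 hs0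
    have hs2 : Real.sqrt (1 + A.T x ^ 2) ^ 2 = 1 + A.T x ^ 2 := Real.sq_sqrt hs0.le
    have h1 : sn A.T x = (Real.sqrt (1 + A.T x ^ 2))⁻¹ * A.T x := by
      unfold sn
      rw [div_eq_inv_mul]
    have h2 : -(q (Y0 A.σ A.T x) (A.σ • EE)) = A.T x := by
      have h3 : q (Y0 A.σ A.T x) (A.σ • EE) = -(A.σ ^ 2 * A.T x) := by
        simp [q, Y0, emb, EE]
        ring
      rw [h3, hσ]
      ring
    have h4 : q (Y0 A.σ A.T x) (Y0 A.σ A.T x) = -(1 + A.T x ^ 2) := by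
      have h5 : q (Y0 A.σ A.T x) (Y0 A.σ A.T x) = eta x x - A.σ ^ 2 * A.T x ^ 2 := by
        simp [q, Y0, emb, eta]
        ring
      rw [h5, hσ, hx.1]
      ring
    have h6 : -(q (nrm (Y0 A.σ A.T) x) (A.σ • EE)) = sn A.T x := by
      have h7 : q (nrm (Y0 A.σ A.T) x) (A.σ • EE) =
          (Real.sqrt (1 + A.T x ^ 2))⁻¹ * q (Y0 A.σ A.T x) (A.σ • EE) := by
        unfold nrm
        rw [h4, neg_neg]
        simp only [q, Pi.smul_apply, smul_eq_mul]
        ring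
      rw [h7, h1, ← h2]
      ring
    refine ⟨?_, ?_, h6, h2, h1, ?_⟩
    · rw [h1]
      positivity
    · unfold sn
      rw [div_lt_one hs1]
      exact Real.lt_sqrt_of_sq_lt (by linarith)
    · rw [h1]
      field_simp
      rw [hs2]
  refine ⟨?_, hpt, ?_, ?_, ?_⟩
  · have h3 : q (A.σ • EE) (A.σ • EE) = -(A.σ ^ 2) := by
      simp [q, EE]
      ring
    rw [h3, hσ]
  · have h1 : ContinuousOn (fun x => A.T x / Real.sqrt (1 + A.T x ^ 2)) H2 := by
      refine A.T_cont.div ?_ ?_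
      · exact (continuousOn_const.add (A.T_cont.pow 2)).sqrt
      · intro x _
        have : 0 < Real.sqrt (1 + A.T x ^ 2) := Real.sqrt_pos.2 (by positivity)
        exact this.ne'
    exact h1
  · intro g hg x hx
    unfold sn
    rw [A.T_G g hg x hx]
  · have hp : (![1, 0, 0] : V3) ∈ H2 := by
      constructor
      · simp [eta]
      · simp
    obtain ⟨g0, -, hg0⟩ := A.S.F_cov _ hp
    have hne : A.S.F.Nonempty := ⟨_, hg0⟩
    have hc : ContinuousOn A.T A.S.F := A.T_cont.mono A.S.F_sub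
    obtain ⟨p, hpF, hpm⟩ := A.S.F_cpt.exists_isMinOn hne hc
    obtain ⟨r, hrF, hrm⟩ := A.S.F_cpt.exists_isMaxOn hne hc
    have ha : 0 < A.T p := A.T_pos p (A.S.F_sub hpF)
    have hb : 0 < A.T r := A.T_pos r (A.S.F_sub hrF)
    have hbd : ∀ x ∈ H2, A.T p ≤ A.T x ∧ A.T x ≤ A.T r := by
      intro x hx
      obtain ⟨g, hg, hgF⟩ := A.S.F_cov x hx
      rw [← A.T_G g hg x hx]
      exact ⟨hpm hgF, hrm hgF⟩
    have hm : 0 < min (A.T p) 1 := lt_min ha one_pos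
    have hb1 : 0 < 1 + A.T r := by linarith
    refine ⟨min (A.T p) 1 / (1 + A.T r), by positivity, fun x hx => ?_⟩
    obtain ⟨h1, h2⟩ := hbd x hx
    have hT := A.T_pos x hx
    have hs0 : 0 < 1 + A.T x ^ 2 := by positivity
    have hs1 : 0 < Real.sqrt (1 + A.T x ^ 2) := Real.sqrt_pos.2 hs0
    have hs3 : Real.sqrt (1 + A.T x ^ 2) ≤ 1 + A.T r := by
      rw [Real.sqrt_le_left hb1.le]
      nlinarith
    refine ⟨?_, ?_, ?_, ?_⟩
    · unfold sn
      rw [div_le_div_iff₀ hb1 hs1]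
      have h3 : min (A.T p) 1 ≤ A.T x := (min_le_left _ _).trans h1
      exact mul_le_mul h3 hs3 hs1.le hT.le
    · rw [inv_eq_one_div, div_le_div_iff₀ hb1 hs1]
      exact mul_le_mul (min_le_right _ _) hs3 hs1.le zero_le_one
    · rw [div_le_iff₀ hb1]
      have h3 : min (A.T p) 1 ≤ A.T x := (min_le_left _ _).trans h1
      nlinarith
    · rw [inv_div, le_div_iff₀ hm]
      have h3 : min (A.T p) 1 ≤ 1 := min_le_right _ _
      nlinarith

end A_snprops6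

alias snprops6 := A_snprops6.snprops6

namespace A_fuchs6

/- Proof:
V = sigma • EE. FF X V x t = sinh t + cosh t q (X x) V = sinh t - cosh t sn (snprops6). If sinh t = cosh t sn T x: 1 = cosh^2 t - sinh^2 t = cosh^2 t (1 - sn^2) = cosh^2 t/(1+T^2), so cosh t = sqrt(1+T^2), sinh t = T. zz X V x t = cosh t X x - sinh t V = emb x (sigma T) - T sigma EE = emb x 0 (X x = (sqrt(1+T^2))^-1 emb x (sigma T x)).
-/
theorem fuchs6 {ι : Type*} (A : PT ι) {x : V3} (hx : x ∈ H2) :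
    (∀ t : ℝ, FF (nrm (Y0 A.σ A.T)) (A.σ • EE) x t = Real.sinh t - Real.cosh t * sn A.T x) ∧
    ∀ t : ℝ, Real.sinh t = Real.cosh t * sn A.T x →
      zz (nrm (Y0 A.σ A.T)) (A.σ • EE) x t = emb x 0 ∧ Real.cosh t = Real.sqrt (1 + A.T x ^ 2) := by
  obtain ⟨-, hsn, -⟩ := snprops6 A
  obtain ⟨h1, h2, h3, h4, h5, h6⟩ := hsn x hx
  refine ⟨fun t => ?_, fun t ht => ?_⟩
  · unfold FF
    have : q (nrm (Y0 A.σ A.T) x) (A.σ • EE) = - sn A.T x := by linarith
    rw [this]; ring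
  · have hT := A.T_pos x hx
    have hS : 0 < 1 + A.T x ^ 2 := by positivity
    set R := Real.sqrt (1 + A.T x ^ 2) with hR
    have hRpos : 0 < R := Real.sqrt_pos.mpr hS
    have hR2 : R ^ 2 = 1 + A.T x ^ 2 := Real.sq_sqrt hS.le
    have hcs := Real.cosh_sq t
    have hc := Real.cosh_pos t
    have hcosh : Real.cosh t = R := by
      have e1 : Real.cosh t ^ 2 * (R⁻¹) ^ 2 = 1 := by
        have : (R⁻¹) ^ 2 = 1 - sn A.T x ^ 2 := by linarith
        rw [this]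
        have : Real.sinh t ^ 2 = Real.cosh t ^ 2 * sn A.T x ^ 2 := by rw [ht]; ring
        nlinarith
      have e2 : Real.cosh t ^ 2 = R ^ 2 := by
        have hne : R ≠ 0 := hRpos.ne'
        field_simp at e1
        exact e1
      exact (pow_left_inj₀ hc.le hRpos.le two_ne_zero).mp e2
    have hsinh : Real.sinh t = A.T x := by
      rw [ht, hcosh, h5]
      rw [← mul_assoc, mul_inv_cancel₀ hRpos.ne', one_mul]
    refine ⟨?_, hcosh⟩
    have hxx : eta x x = -1 := hx.1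
    have hs2 : A.σ ^ 2 = 1 := by
      rcases A.sig with h | h <;> rw [h] <;> norm_num
    have hq : -(q (Y0 A.σ A.T x) (Y0 A.σ A.T x)) = 1 + A.T x ^ 2 := by
      have : q (Y0 A.σ A.T x) (Y0 A.σ A.T x) = eta x x - A.σ ^ 2 * A.T x ^ 2 := by
        simp only [q, Y0, emb, eta, Matrix.cons_val_zero, Matrix.cons_val_one, Matrix.cons_val]
        ring
      rw [this, hxx, hs2]; ring
    unfold zz
    rw [hcosh, hsinh]
    unfold nrm
    rw [hq, ← hR, smul_smul, mul_inv_cancel₀ hRpos.ne', one_smul]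
    funext i
    fin_cases i <;> simp [Y0, emb, EE] <;> ring

end A_fuchs6

alias fuchs6 := A_fuchs6.fuchs6

namespace A_embq6

/- Proof:
direct computation: q (emb x a)(emb y b) = eta x y - a b; emb is linear.
-/
theorem embq6 (x y : V3) (a b : ℝ) : q (emb x a) (emb y b) = eta x y - a * b := by
  simp [q, emb, eta]

end A_embq6

alias embq6 := A_embq6.embq6

namespace A_lamTT6

/- Proof:
m.X = t.m.S.s.X, p.X = t.p.S.s.X. If xi in Lam t.m.S and x in H2: lam_supp6 (S = t.m.S, W = p.X x, B = 1): q (m.X y)(p.X x) <= 1 by t.lt1, so q xi (p.X x) <= 0, symmetric. Hence xi in Lam t.p.S. Conversely lam_supp6 (S = t.p.S, W = m.X y, B = 1).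
-/
theorem lamTT6_q_comm (X Y : V4) : q X Y = q Y X := by
  unfold q; ring

theorem lamTT6 {κ ι : Type*} (t : TT κ ι) : Lam t.m.S = Lam t.p.S := by
  ext ξ
  constructor
  · rintro ⟨hne, h0, hs⟩
    refine ⟨hne, h0, fun x hx => ?_⟩
    have h := lam_supp6 t.m.S (ξ := ξ) ⟨hne, h0, hs⟩ (W := t.p.S.s.X x) (B := 1)
      (fun y hy => (t.lt1 y hy x hx).le)
    rwa [lamTT6_q_comm]
  · rintro ⟨hne, h0, hs⟩
    refine ⟨hne, h0, fun y hy => ?_⟩
    have h := lam_supp6 t.p.S (ξ := ξ) ⟨hne, h0, hs⟩ (W := t.m.S.s.X y) (B := 1)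
      (fun x hx => by
        rw [lamTT6_q_comm]
        exact (t.lt1 y hy x hx).le)
    rwa [lamTT6_q_comm]

end A_lamTT6

alias lamTT6 := A_lamTT6.lamTT6

namespace A_o6

/- Proof:
t.m.so, t.hm, t.p.so, t.hp.
-/
theorem o6 {κ ι : Type*} (t : TT κ ι) : t.m.S.o = 1 ∧ t.p.S.o = -1 :=
  ⟨by rw [t.m.so, t.hm, neg_neg], by rw [t.p.so, t.hp]⟩

end A_o6

alias o6 := A_o6.o6

namespace A_hull6

/- Proof:
First claim: NN of t.m.S.g and t.cm (q symmetric). Second: nset_pair6 (second part) for S = t.p.S, W = n, then the inequality passes to the convex hull (a linear functional <= 0 on a set is <= 0 on its convex hull).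
-/
theorem hull6 {κ ι : Type*} (t : TT κ ι) {y : V3} (hy : y ∈ H2) {n : V4} (hn : n ∈ t.m.S.s.Nr y) :
    n ∈ Dual t.p.S ∧ ∀ Y ∈ convexHull ℝ (nset t.p.S), q n Y ≤ 0 := by
  have qsymm : ∀ X Y : V4, q X Y = q Y X := by
    intro X Y
    simp only [q]
    ring
  have hsupp : ∀ x ∈ H2, q (t.p.S.s.X x) n ≤ 0 := by
    intro x hx
    rw [qsymm]
    exact t.cm y hy n hn x hx
  refine ⟨⟨t.m.S.g.NN y hy n hn, hsupp⟩, ?_⟩
  have h1 : ∀ Y ∈ nset t.p.S, q n Y ≤ 0 := by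
    intro Y hY
    rw [qsymm]
    exact (nset_pair6 t.p.S).2 n hsupp Y hY
  have hconv : Convex ℝ {Y : V4 | q n Y ≤ 0} := by
    intro Y hY Z hZ a b ha hb _
    simp only [Set.mem_setOf_eq] at hY hZ ⊢
    have : q n (a • Y + b • Z) = a * q n Y + b * q n Z := by
      simp only [q, Pi.add_apply, Pi.smul_apply, smul_eq_mul]
      ring
    rw [this]
    nlinarith [mul_nonneg ha (sub_nonneg.2 hY), mul_nonneg hb (sub_nonneg.2 hZ)]
  exact fun Y hY => convexHull_min h1 hconv hY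

end A_hull6

alias hull6 := A_hull6.hull6

namespace A_exmax6

/- Proof:
Dual_cpt6 with S = t.p.S, X' = t.m.S.s.X (continuous: t.m.S.g.contX; q (X' x) xi < 0 for xi in Lam t.p.S = Lam t.m.S by lamTT6, Lam_strict6 for t.m.S), C = 0: the set P = {(N,y) : N in Dual t.p.S, y in F, 0 <= q (X' y) N} is compact. Nonempty: take g with g.1 ![1,0,0] in F (F_cov), y that point, n in t.m.S.s.Nr y (ne): n in Dual t.p.S (hull6), q (X' y) n = 0. Maximise the continuous function q (X' y) N over P: (N,y). For N' in Dual, y' in H2: if q (X' y') N' < 0 clear; otherwise choose g in G with g.1 y' in F: (g.2 N', g.1 y') in P (GG6, t.m.S.G_X with t.hG, G_q) with the same value.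
-/
theorem exmax6 {κ ι : Type*} (t : TT κ ι) : ∃ N ∈ Dual t.p.S, ∃ y ∈ H2, 0 ≤ q (t.m.S.s.X y) N ∧
    ∀ N' ∈ Dual t.p.S, ∀ y' ∈ H2, q (t.m.S.s.X y') N' ≤ q (t.m.S.s.X y) N := by
  have hcpt := Dual_cpt6 t.p.S (X' := t.m.S.s.X) t.m.S.g.contX
    (fun ξ hξ x hx => Lam_strict6 t.m.S ((lamTT6 t).symm ▸ hξ) hx) 0
  set K0 : Set (V4 × V3) := {p : V4 × V3 | p.1 ∈ Dual t.p.S ∧ p.2 ∈ t.p.S.F ∧
    -0 ≤ q (t.m.S.s.X p.2) p.1} with hK0
  have htr : ∀ N' ∈ Dual t.p.S, ∀ y' ∈ H2, ∃ N1 ∈ Dual t.p.S, ∃ y1 ∈ t.p.S.F,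
      q (t.m.S.s.X y1) N1 = q (t.m.S.s.X y') N' := by
    intro N' hN' y' hy'
    obtain ⟨g, hg, hgF⟩ := t.p.S.F_cov y' hy'
    have hgm : g ∈ t.m.S.G := by
      rw [t.hG]
      exact hg
    refine ⟨g.2 N', (GG6 t.p.S hg).2 N' hN', g.1 y', hgF, ?_⟩
    rw [t.m.S.G_X g hgm y' hy', t.m.S.G_q g hgm]
  obtain ⟨N1, hN1, y1, hy1, he1⟩ : ∃ N1 ∈ Dual t.p.S, ∃ y1 ∈ t.p.S.F,
      q (t.m.S.s.X y1) N1 = 0 := by
    have h0 : (![1, 0, 0] : V3) ∈ H2 := by
      constructor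
      · simp [eta]
      · simp
    obtain ⟨n, hn⟩ := t.m.S.g.ne _ h0
    obtain ⟨N1, hN1, y1, hy1, he1⟩ := htr n (hull6 t h0 hn).1 _ h0
    refine ⟨N1, hN1, y1, hy1, ?_⟩
    have h2 := t.m.S.g.NX _ h0 n hn
    rw [he1]
    unfold q at h2 ⊢
    linear_combination h2
  have hne : K0.Nonempty := ⟨(N1, y1), hN1, hy1, by
    change -0 ≤ q (t.m.S.s.X y1) N1
    rw [he1, neg_zero]⟩
  have hX : ContinuousOn (fun p : V4 × V3 => t.m.S.s.X p.2) K0 :=
    t.m.S.g.contX.comp continuous_snd.continuousOn fun p hp => t.p.S.F_sub hp.2.1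
  have hc : ∀ i, ContinuousOn (fun p : V4 × V3 => t.m.S.s.X p.2 i) K0 := fun i =>
    (continuous_apply i).comp_continuousOn hX
  have hd : ∀ i, ContinuousOn (fun p : V4 × V3 => p.1 i) K0 := fun i =>
    ((continuous_apply i).comp continuous_fst).continuousOn
  have hcont : ContinuousOn (fun p : V4 × V3 => q (t.m.S.s.X p.2) p.1) K0 := by
    unfold q
    exact (((((hc 0).mul (hd 0)).neg).add ((hc 1).mul (hd 1))).add ((hc 2).mul (hd 2))).sub
      ((hc 3).mul (hd 3))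
  obtain ⟨p, hp, hmax⟩ := hcpt.exists_isMaxOn hne hcont
  have hmax' : ∀ r ∈ K0, q (t.m.S.s.X r.2) r.1 ≤ q (t.m.S.s.X p.2) p.1 := fun r hr => hmax hr
  have hpos' : 0 ≤ q (t.m.S.s.X p.2) p.1 := by
    have := hp.2.2
    rw [neg_zero] at this
    exact this
  refine ⟨p.1, hp.1, p.2, t.p.S.F_sub hp.2.1, hpos', ?_⟩
  intro N' hN' y' hy'
  by_cases h : 0 ≤ q (t.m.S.s.X y') N'
  · obtain ⟨N2, hN2, y2, hy2, he2⟩ := htr N' hN' y' hy'
    have := hmax' (N2, y2) ⟨hN2, hy2, by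
      change -0 ≤ q (t.m.S.s.X y2) N2
      rw [he2, neg_zero]
      exact h⟩
    change q (t.m.S.s.X y2) N2 ≤ _ at this
    rw [he2] at this
    exact this
  · push Not at h
    linarith

end A_exmax6

alias exmax6 := A_exmax6.exmax6

namespace A_maxlt6

/- Proof:
ext6 and polar6 for t.m.S.g at y: -1 + m^2 <= 0 with m = q (m.X y) N >= 0, so m <= 1. If m = 1: q N N + m^2 = 0, so N = -m m.X y = -m.X y. Take xi in Lam t.p.S (Lam_ne6). lam_supp6 (S = t.p.S, W = N, B = 0): q xi N <= 0. But q xi N = -q xi (m.X y) > 0 (lamTT6, Lam_strict6 for t.m.S). Contradiction.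
-/
theorem maxlt6 {κ ι : Type*} (t : TT κ ι) {N : V4} (hN : N ∈ Dual t.p.S) {y : V3} (hy : y ∈ H2) (hm : 0 ≤ q (t.m.S.s.X y) N)
    (hmax : ∀ y' ∈ H2, q (t.m.S.s.X y') N ≤ q (t.m.S.s.X y) N) : q (t.m.S.s.X y) N < 1 := by
  have hext : ∀ ζ ∈ t.m.S.s.Dr y, q ζ N ≤ 0 := ext6 t.m.S.g hy hmax
  obtain ⟨h1, h2⟩ := polar6 t.m.S.g hy hext
  have hNN : q N N = -1 := hN.1
  rw [hNN] at h1 h2
  by_contra hcon
  have hge : 1 ≤ q (t.m.S.s.X y) N := not_lt.1 hcon
  have hle : q (t.m.S.s.X y) N = 1 := by nlinarith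
  have hNe : N = (-(q (t.m.S.s.X y) N)) • t.m.S.s.X y := h2 (by rw [hle]; norm_num)
  rw [hle] at hNe
  obtain ⟨ξ, hξ⟩ := Lam_ne6 t.p.S
  have hq : q ξ N ≤ 0 := lam_supp6 t.p.S hξ hN.2
  have hξm : ξ ∈ Lam t.m.S := by rw [lamTT6 t]; exact hξ
  have hst : q (t.m.S.s.X y) ξ < 0 := Lam_strict6 t.m.S hξm hy
  have he : q ξ N = -(q (t.m.S.s.X y) ξ) := by
    rw [hNe]
    simp only [q, Pi.smul_apply, smul_eq_mul]
    ring
  linarith

end A_maxlt6

alias maxlt6 := A_maxlt6.maxlt6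

namespace A_dual_lt6

/- Proof:
exmax6 gives the global maximum, which is < 1 by maxlt6.
-/
theorem dual_lt6 {κ ι : Type*} (t : TT κ ι) {N : V4} (hN : N ∈ Dual t.p.S) {y : V3} (hy : y ∈ H2) : q (t.m.S.s.X y) N < 1 := by
  obtain ⟨N0, hN0, y0, hy0, h0, hmax⟩ := exmax6 t
  exact lt_of_le_of_lt (hmax N hN y hy) (maxlt6 t hN0 hy0 h0 (fun y' hy' => hmax N0 hN0 y' hy'))

end A_dual_lt6

alias dual_lt6 := A_dual_lt6.dual_lt6

namespace A_foot6

namespace Foot6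

theorem q_lin (X Y Z : V4) (c : ℝ) : q X (Y + c • Z) = q X Y + c * q X Z := by
  simp only [q, Pi.add_apply, Pi.smul_apply, smul_eq_mul]
  ring

theorem q_smul_r (X Y : V4) (c : ℝ) : q X (c • Y) = c * q X Y := by
  simp only [q, Pi.smul_apply, smul_eq_mul]
  ring

theorem q_smul_l (X Y : V4) (c : ℝ) : q (c • X) Y = c * q X Y := by
  simp only [q, Pi.smul_apply, smul_eq_mul]
  ring

theorem q_lin_l (X Y Z : V4) (c : ℝ) : q (X + c • Y) Z = q X Z + c * q Y Z := by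
  simp only [q, Pi.add_apply, Pi.smul_apply, smul_eq_mul]
  ring

theorem q_comm (X Y : V4) : q X Y = q Y X := by
  simp only [q]
  ring

theorem small_e (A B C D E m : ℝ) (hm : 0 ≤ m) (hD : 0 < D) (hA : m = 0 → 0 < A) :
    ∃ e : ℝ, 0 < e ∧ 0 < m + e * A ∧ 0 < 1 - 2 * e * B - e ^ 2 * C ∧ 0 < D + e * E := by
  have h2 : ∀ᶠ e in nhds (0 : ℝ), 0 < 1 - 2 * e * B - e ^ 2 * C := by
    have hc : Continuous fun e : ℝ => 1 - 2 * e * B - e ^ 2 * C := by fun_prop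
    exact hc.continuousAt.eventually (lt_mem_nhds (by norm_num))
  have h3 : ∀ᶠ e in nhds (0 : ℝ), 0 < D + e * E := by
    have hc : Continuous fun e : ℝ => D + e * E := by fun_prop
    exact hc.continuousAt.eventually (lt_mem_nhds (by simpa using hD))
  rcases hm.eq_or_lt with h0 | h0
  · have h4 : ∀ᶠ e in nhdsWithin (0 : ℝ) (Set.Ioi 0),
        0 < 1 - 2 * e * B - e ^ 2 * C ∧ 0 < D + e * E :=
      (h2.and h3).filter_mono nhdsWithin_le_nhds
    obtain ⟨e, he, he'⟩ := (h4.and self_mem_nhdsWithin).exists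
    have he'' : 0 < e := he'
    refine ⟨e, he', ?_, he.1, he.2⟩
    have := mul_pos he'' (hA h0.symm)
    linarith
  · have h1 : ∀ᶠ e in nhds (0 : ℝ), 0 < m + e * A := by
      have hc : Continuous fun e : ℝ => m + e * A := by fun_prop
      exact hc.continuousAt.eventually (lt_mem_nhds (by simpa using h0))
    have h4 : ∀ᶠ e in nhdsWithin (0 : ℝ) (Set.Ioi 0), 0 < m + e * A ∧
        0 < 1 - 2 * e * B - e ^ 2 * C ∧ 0 < D + e * E :=
      ((h1.and (h2.and h3))).filter_mono nhdsWithin_le_nhds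
    obtain ⟨e, he, he'⟩ := (h4.and self_mem_nhdsWithin).exists
    exact ⟨e, he', he.1, he.2.1, he.2.2⟩

end Foot6

open Foot6 in
theorem foot6 {κ ι : Type*} (t : TT κ ι) {N : V4} (hN : N ∈ Dual t.p.S) {y : V3} (hy : y ∈ H2) (hm : 0 ≤ q (t.m.S.s.X y) N)
    (hm1 : q (t.m.S.s.X y) N < 1) (hmax : ∀ N' ∈ Dual t.p.S, q (t.m.S.s.X y) N' ≤ q (t.m.S.s.X y) N) :
    ∃ r : ℝ, 0 ≤ r ∧ ∃ Y ∈ convexHull ℝ (nset t.p.S), t.m.S.s.X y + (q (t.m.S.s.X y) N) • N = r • Y := by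
  set m := q (t.m.S.s.X y) N with hmdef
  by_contra hcon
  push Not at hcon
  have hXX := t.m.S.g.XX y hy
  obtain ⟨hNN, hNX⟩ := hN
  have hz0 : t.m.S.s.X y + m • N ≠ 0 := by
    intro h
    have h1 : q (t.m.S.s.X y + m • N) (t.m.S.s.X y + m • N) = -1 + m ^ 2 := by
      rw [q_lin, q_lin_l, q_lin_l, hXX, hNN, q_comm N (t.m.S.s.X y), ← hmdef]
      ring
    rw [h] at h1
    have h2 : q (0 : V4) 0 = 0 := by simp [q]
    rw [h2] at h1
    nlinarith
  obtain ⟨W, hW1, hW2⟩ := sep (nset_cpt6 t.p.S).1 (nset_cpt6 t.p.S).2 (zero_notin6 t.p.S) hz0 hcon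
  set A := q (t.m.S.s.X y) W with hA
  set B := q N W with hB
  set C := q W W with hC
  have hD : q (t.m.S.s.X y + m • N) W = A + m * B := q_lin_l _ _ _ _
  rw [hD] at hW2
  have hXW : ∀ x ∈ H2, q (t.p.S.s.X x) W < 0 := by
    intro x hx
    have hne : t.p.S.s.X x ≠ 0 := by
      intro h
      have h1 := t.p.S.g.XX x hx
      rw [h] at h1
      have h2 : q (0 : V4) 0 = 0 := by simp [q]
      rw [h2] at h1
      norm_num at h1
    have hpos : 0 < ‖t.p.S.s.X x‖⁻¹ := inv_pos.2 (norm_pos_iff.2 hne)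
    have h1 := hW1 (‖t.p.S.s.X x‖⁻¹ • t.p.S.s.X x) (subset_closure ⟨x, hx, rfl⟩)
    rw [q_smul_l] at h1
    by_contra h2
    push Not at h2
    have := mul_nonneg hpos.le h2
    linarith
  have hAm : m = 0 → 0 < A := by
    intro h
    rw [h] at hW2
    linarith
  rcases hm.eq_or_lt with h0 | h0
  · -- m = 0
    obtain ⟨e, he0, he1, he2, -⟩ := small_e A B C 1 0 m hm one_pos hAm
    set Q := 1 - 2 * e * B - e ^ 2 * C with hQ
    have hsQ : 0 < √Q := Real.sqrt_pos.2 he2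
    have hNe : q (N + e • W) (N + e • W) = -Q := by
      rw [q_lin, q_lin_l, q_lin_l, hNN, q_comm W N, ← hB, ← hC, hQ]
      ring
    have hdual : (√Q)⁻¹ • (N + e • W) ∈ Dual t.p.S := by
      refine ⟨?_, fun x hx => ?_⟩
      · rw [q_smul_l, q_smul_r, hNe]
        field_simp
        rw [Real.sq_sqrt he2.le]
      · rw [q_smul_r, q_lin]
        have h1 := hNX x hx
        have h2 := hXW x hx
        have h3 : q (t.p.S.s.X x) N + e * q (t.p.S.s.X x) W ≤ 0 := by nlinarith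
        exact mul_nonpos_of_nonneg_of_nonpos (inv_pos.2 hsQ).le h3
    have hle := hmax _ hdual
    rw [q_smul_r, q_lin, ← hmdef, ← hA, inv_mul_le_iff₀ hsQ, ← h0] at hle
    rw [← h0] at he1
    simp only [mul_zero] at hle
    linarith
  · obtain ⟨e, he0, he1, he2, he3⟩ := small_e A B C (2 * m * (A + m * B)) (A ^ 2 + m ^ 2 * C) m hm
      (by positivity) hAm
    set Q := 1 - 2 * e * B - e ^ 2 * C with hQ
    have hsQ : 0 < √Q := Real.sqrt_pos.2 he2
    have hsq : √Q * √Q = Q := Real.mul_self_sqrt he2.le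
    have hNe : q (N + e • W) (N + e • W) = -Q := by
      rw [q_lin, q_lin_l, q_lin_l, hNN, q_comm W N, ← hB, ← hC, hQ]
      ring
    have hdual : (√Q)⁻¹ • (N + e • W) ∈ Dual t.p.S := by
      refine ⟨?_, fun x hx => ?_⟩
      · rw [q_smul_l, q_smul_r, hNe]
        field_simp
        rw [Real.sq_sqrt he2.le]
      · rw [q_smul_r, q_lin]
        have h1 := hNX x hx
        have h2 := hXW x hx
        have h3 : q (t.p.S.s.X x) N + e * q (t.p.S.s.X x) W ≤ 0 := by nlinarith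
        exact mul_nonpos_of_nonneg_of_nonpos (inv_pos.2 hsQ).le h3
    have hle := hmax _ hdual
    rw [q_smul_r, q_lin, ← hmdef, ← hA, inv_mul_le_iff₀ hsQ] at hle
    have h5 : (m + e * A) ^ 2 ≤ (√Q * m) ^ 2 := pow_le_pow_left₀ he1.le hle 2
    rw [mul_pow, sq (√Q), hsq, hQ] at h5
    have h6 : 0 < e * (2 * m * (A + m * B) + e * (A ^ 2 + m ^ 2 * C)) := mul_pos he0 he3
    nlinarith

end A_foot6

alias foot6 := A_foot6.foot6

namespace A_footsign6

/- Proof: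
foot6: z = X + m N = r Y, X = m.X y, m = q X N in (0,1). q n z = 0 + m q n N = r q n Y <= 0 (hull6), so q n N <= 0. If q n N = 0: P = N + m X: q X P = 0, q P P = -1 + m^2 < 0, q n P = 0: revCS (ii) with A = X, W = P, Z = n (q n n = -1 <= 0, q n P = 0): n = 0, contradiction with q n n = -1.
-/
theorem footsign6 {κ ι : Type*} (t : TT κ ι) {N : V4} (hN : N ∈ Dual t.p.S) {y : V3} (hy : y ∈ H2) (hm : 0 < q (t.m.S.s.X y) N)
    (hm1 : q (t.m.S.s.X y) N < 1) (hmax : ∀ N' ∈ Dual t.p.S, q (t.m.S.s.X y) N' ≤ q (t.m.S.s.X y) N)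
    {n : V4} (hn : n ∈ t.m.S.s.Nr y) : q n N < 0 := by
  have g := t.m.S.g
  have hXX : q (t.m.S.s.X y) (t.m.S.s.X y) = -1 := g.XX y hy
  have hnX : q n (t.m.S.s.X y) = 0 := g.NX y hy n hn
  have hnn : q n n = -1 := g.NN y hy n hn
  have hNN : q N N = -1 := hN.1
  obtain ⟨r, hr, Y, hY, hrY⟩ := foot6 t hN hy hm.le hm1 hmax
  set X := t.m.S.s.X y with hX
  set m := q X N with hmdef
  have hadd : ∀ A B C : V4, ∀ a : ℝ, q A (B + a • C) = q A B + a * q A C := by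
    intro A B C a
    simp only [q, Pi.add_apply, Pi.smul_apply, smul_eq_mul]
    ring
  have hsm : ∀ A C : V4, ∀ a : ℝ, q A (a • C) = a * q A C := by
    intro A C a
    simp only [q, Pi.smul_apply, smul_eq_mul]
    ring
  have hsymm : ∀ A B : V4, q A B = q B A := by
    intro A B
    simp only [q]
    ring
  have h1 : m * q n N = r * q n Y := by
    have h2 := congrArg (q n) hrY
    rw [hadd, hsm, hnX, zero_add] at h2
    exact h2
  have h3 : q n Y ≤ 0 := (hull6 t hy hn).2 Y hY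
  have h4 : m * q n N ≤ 0 := by
    rw [h1]; exact mul_nonpos_of_nonneg_of_nonpos hr h3
  have h5 : q n N ≤ 0 := by
    by_contra hcon
    rw [not_le] at hcon
    have := mul_pos hm hcon
    linarith
  rcases lt_or_eq_of_le h5 with h6 | h6
  · exact h6
  · exfalso
    have hP1 : q X (N + m • X) = 0 := by
      rw [hadd, hXX, ← hmdef]; ring
    have hP2 : q (N + m • X) (N + m • X) < 0 := by
      have e : q (N + m • X) (N + m • X) = q N N + 2 * m * q X N + m ^ 2 * q X X := by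
        simp only [q, Pi.add_apply, Pi.smul_apply, smul_eq_mul]
        ring
      rw [e, hNN, hXX, ← hmdef]
      nlinarith
    have hP3 : q n (N + m • X) = 0 := by
      rw [hadd, hnX, h6]; ring
    have h7 := (revCS (A := X) (W := N + m • X) (by rw [hXX]; norm_num) hP2 hP1 (Z := n)
      (by rw [hsymm]; exact hnX)).2.1 (by rw [hnn]; norm_num) hP3
    rw [h7] at hnn
    simp [q] at hnn

end A_footsign6

alias footsign6 := A_footsign6.footsign6

namespace A_maxpair6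

/- Proof:
exmax6: N, y, m >= 0. m < 1 by maxlt6. If m > 0: footsign6. If m = 0: replace N by n0 in t.m.S.s.Nr y (ne): n0 in Dual t.p.S (hull6), q (m.X y) n0 = 0 (NX), still maximal because the maximum value is 0, and q n n0 < 0 for all n in Nr y (t.m.S.g.same).
-/
theorem maxpair6 {κ ι : Type*} (t : TT κ ι) : ∃ N ∈ Dual t.p.S, ∃ y ∈ H2, 0 ≤ q (t.m.S.s.X y) N ∧ q (t.m.S.s.X y) N < 1 ∧
    (∀ N' ∈ Dual t.p.S, ∀ y' ∈ H2, q (t.m.S.s.X y') N' ≤ q (t.m.S.s.X y) N) ∧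
    ∀ n ∈ t.m.S.s.Nr y, q n N < 0 := by
  obtain ⟨N, hN, y, hy, hm, hmax⟩ := exmax6 t
  have hlt : q (t.m.S.s.X y) N < 1 := maxlt6 t hN hy hm (fun y' hy' => hmax N hN y' hy')
  rcases lt_or_eq_of_le hm with h0 | h0
  · exact ⟨N, hN, y, hy, hm, hlt, hmax,
      fun n hn => footsign6 t hN hy h0 hlt (fun N' hN' => hmax N' hN' y hy) hn⟩
  · obtain ⟨n0, hn0⟩ := t.m.S.g.ne y hy
    have hd := (hull6 t hy hn0).1
    have hq0 : q (t.m.S.s.X y) n0 = 0 := by
      have h1 := t.m.S.g.NX y hy n0 hn0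
      have h2 : q (t.m.S.s.X y) n0 = q n0 (t.m.S.s.X y) := by
        unfold q; ring
      rw [h2, h1]
    refine ⟨n0, hd, y, hy, ?_, ?_, ?_, ?_⟩
    · rw [hq0]
    · rw [hq0]; norm_num
    · intro N' hN' y' hy'
      rw [hq0]
      have h3 := hmax N' hN' y' hy'
      rw [← h0] at h3
      exact h3
    · intro n hn
      exact t.m.S.g.same y hy n hn n0 hn0

end A_maxpair6

alias maxpair6 := A_maxpair6.maxpair6

namespace A_leaf6

theorem leaf6_comm (X Y : V4) : q X Y = q Y X := by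
  unfold q
  ring

/-- `q X` as a linear map -/
def leaf6L (X : V4) : V4 →ₗ[ℝ] ℝ where
  toFun := q X
  map_add' := fun Y Z => by
    simp only [q, Pi.add_apply]
    ring
  map_smul' := fun c Y => by
    simp only [q, Pi.smul_apply, smul_eq_mul, RingHom.id_apply]
    ring

theorem leaf6_add_r (X Y Z : V4) : q X (Y + Z) = q X Y + q X Z := (leaf6L X).map_add Y Z

theorem leaf6_smul_r (X Y : V4) (c : ℝ) : q X (c • Y) = c * q X Y := (leaf6L X).map_smul c Y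

theorem leaf6_add_l (X Y Z : V4) : q (X + Y) Z = q X Z + q Y Z := by
  rw [leaf6_comm, leaf6_add_r, leaf6_comm Z X, leaf6_comm Z Y]

theorem leaf6_smul_l (X Y : V4) (c : ℝ) : q (c • X) Y = c * q X Y := by
  rw [leaf6_comm, leaf6_smul_r, leaf6_comm Y X]

theorem leaf6_sum_r (X : V4) {n : ℕ} (w : Fin n → ℝ) (z : Fin n → V4) :
    q X (∑ i, w i • z i) = ∑ i, w i * q X (z i) := by
  have h := map_sum (leaf6L X) (fun i => w i • z i) Finset.univ
  have h2 : (leaf6L X) (∑ i, w i • z i) = q X (∑ i, w i • z i) := rfl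
  rw [← h2, h]
  apply Finset.sum_congr rfl
  intro i _
  exact leaf6_smul_r X (z i) (w i)

theorem leaf6_sum_l (X : V4) {n : ℕ} (w : Fin n → ℝ) (z : Fin n → V4) :
    q (∑ i, w i • z i) X = ∑ i, w i * q (z i) X := by
  rw [leaf6_comm, leaf6_sum_r]
  exact Finset.sum_congr rfl fun i _ => by rw [leaf6_comm]

theorem leaf6_om_add (X Y Z : V4) : omega (X + Y) Z = omega X Z + omega Y Z := by
  simp only [omega, Pi.add_apply]
  ring

theorem leaf6_om_smul (c : ℝ) (X Z : V4) : omega (c • X) Z = c * omega X Z := by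
  simp only [omega, Pi.smul_apply, smul_eq_mul]
  ring

theorem leaf6_om_add_r (X Y Z : V4) : omega X (Y + Z) = omega X Y + omega X Z := by
  simp only [omega, Pi.add_apply]
  ring

theorem leaf6_om_smul_r (c : ℝ) (X Z : V4) : omega X (c • Z) = c * omega X Z := by
  simp only [omega, Pi.smul_apply, smul_eq_mul]
  ring

theorem leaf6_om_self (X : V4) : omega X X = 0 := by
  unfold omega
  ring

/-- two timelike vectors orthogonal to `N` on the same side -/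
theorem leaf6_path {Z P N : V4} (hZZ : q Z Z < 0) (hPP : q P P < 0) (hZP : q Z P < 0)
    (hZN : q Z N = 0) (hPN : q P N = 0) (hNN : q N N < 0) (hZ : 0 < omega Z N) :
    ¬ omega P N < 0 := by
  intro hP
  have hd : 0 < omega Z N - omega P N := by linarith
  obtain ⟨s, hs⟩ : ∃ s, s = omega Z N / (omega Z N - omega P N) := ⟨_, rfl⟩
  have hs0 : 0 < s := by rw [hs]; exact div_pos hZ hd
  have hs1 : s < 1 := by rw [hs, div_lt_one hd]; linarith
  have hY1 : q ((1 - s) • Z + s • P) ((1 - s) • Z + s • P) < 0 := by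
    have e : q ((1 - s) • Z + s • P) ((1 - s) • Z + s • P) =
        (1 - s) ^ 2 * q Z Z + 2 * ((1 - s) * s) * q Z P + s ^ 2 * q P P := by
      rw [leaf6_add_l, leaf6_add_r, leaf6_add_r, leaf6_smul_l, leaf6_smul_l, leaf6_smul_l,
        leaf6_smul_l, leaf6_smul_r, leaf6_smul_r, leaf6_smul_r, leaf6_smul_r, leaf6_comm P Z]
      ring
    rw [e]
    have h1 : (1 - s) ^ 2 * q Z Z < 0 := mul_neg_of_pos_of_neg (by nlinarith) hZZ
    have h2 : 2 * ((1 - s) * s) * q Z P < 0 := mul_neg_of_pos_of_neg (by nlinarith) hZP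
    have h3 : s ^ 2 * q P P < 0 := mul_neg_of_pos_of_neg (by positivity) hPP
    linarith
  have hY2 : q ((1 - s) • Z + s • P) N = 0 := by
    rw [leaf6_add_l, leaf6_smul_l, leaf6_smul_l, hZN, hPN]
    ring
  refine omega_ne hY1 hY2 hNN ?_
  rw [leaf6_om_add, leaf6_om_smul, leaf6_om_smul, hs]
  field_simp
  ring

/- Proof:
X = m.X y, m = q X N in [0,1), z = X + m N = r sum w_i z_i (foot6, hull_repr), w_i > 0, z_i in nset t.p.S. q z z = m^2 - 1 < 0, so z is nonzero and r > 0. q z N = m - m = 0 and each q z_i N <= 0 (nset_pair6 second part with W = N), so q z_i N = 0 for all i.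
Claim: no z_i is of the form ‖p.X x‖⁻¹ p.X x. Otherwise q (p.X x) N = 0; contact6 (t.p.S.g): q n' N < 0 for n' in t.p.S.s.Nr x (take one, ne). For s in [0,1] let Y(s) = (1-s) z + s p.X x: q Y(s) N = 0, q Y(s) Y(s) < 0 because q z z < 0, q (p.X x)(p.X x) = -1, q z (p.X x) = r sum w_j q z_j (p.X x) < 0 (nset_pos6). omega_ne: omega Y(s) N ≠ 0 for all s, so omega z N and omega (p.X x) N have the same strict sign (continuity, intermediate value). timeq (A = p.X x, U = N, V = n'): 0 < omega (p.X x) N * omega (p.X x) n'; ori of t.p.S with o = -1 (o6): omega (p.X x) n' < 0; so omega (p.X x) N < 0. On the other hand let P = N + m X: q X P = 0, q P P = -1 + m^2 < 0, for n in t.m.S.s.Nr y (ne): q n P = q n N < 0 (hsign), timeq (A = X, U = P, V = n): 0 < omega X P * omega X n, omega X n > 0 (o = 1), so omega X P > 0; omega is bilinear and alternating (omega X X = 0, omega N N = 0), so omega z N = omega X N = omega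 X P > 0. Contradiction.
So all z_i in Lam t.p.S (nset_cases6). Since q z z < 0 and q z_i z_j <= 0 (nset_pair6) some pair i,j has q z_i z_j < 0. Scale: xi1 = z_i, xi2 = z_j/(-2 q z_i z_j) (Lam_smul6).
-/
theorem leaf6 {κ ι : Type*} (t : TT κ ι) {N : V4} (hN : N ∈ Dual t.p.S) {y : V3} (hy : y ∈ H2) (hm : 0 ≤ q (t.m.S.s.X y) N)
    (hm1 : q (t.m.S.s.X y) N < 1) (hmax : ∀ N' ∈ Dual t.p.S, q (t.m.S.s.X y) N' ≤ q (t.m.S.s.X y) N)
    (hsign : ∀ n ∈ t.m.S.s.Nr y, q n N < 0) :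
    ∃ ξ₁ ∈ Lam t.p.S, ∃ ξ₂ ∈ Lam t.p.S, q ξ₁ N = 0 ∧ q ξ₂ N = 0 ∧ q ξ₁ ξ₂ = -1/2 := by
  obtain ⟨r, hr0, Y, hY, hz⟩ := foot6 t hN hy hm hm1 hmax
  obtain ⟨n, w, z, hn, hw, hzS, rfl⟩ := hull_repr hY
  have hXX := t.m.S.g.XX y hy
  have hNN := hN.1
  have hNX : q N (t.m.S.s.X y) = q (t.m.S.s.X y) N := leaf6_comm _ _
  have hqzz : q (t.m.S.s.X y + (q (t.m.S.s.X y) N) • N) (t.m.S.s.X y + (q (t.m.S.s.X y) N) • N)
      = (q (t.m.S.s.X y) N) ^ 2 - 1 := by
    rw [leaf6_add_l, leaf6_add_r, leaf6_add_r, leaf6_smul_l, leaf6_smul_r, leaf6_smul_l, leaf6_smul_r,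
      hXX, hNN, hNX]
    ring
  have hneg : q (t.m.S.s.X y + (q (t.m.S.s.X y) N) • N) (t.m.S.s.X y + (q (t.m.S.s.X y) N) • N) < 0 := by
    rw [hqzz]
    nlinarith
  have hqzN : q (t.m.S.s.X y + (q (t.m.S.s.X y) N) • N) N = 0 := by
    rw [leaf6_add_l, leaf6_smul_l, hNN]
    ring
  have hr : 0 < r := by
    rcases hr0.lt_or_eq with h | h
    · exact h
    · exfalso
      rw [hz, ← h, zero_smul] at hneg
      simp [q] at hneg
  have hzN : ∀ i, q (z i) N ≤ 0 := by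
    intro i
    exact (nset_pair6 t.p.S).2 N hN.2 (z i) (hzS i)
  have hne : (Finset.univ : Finset (Fin n)).Nonempty := ⟨⟨0, hn⟩, Finset.mem_univ _⟩
  have hzN0 : ∀ i, q (z i) N = 0 := by
    have hq := hqzN
    rw [hz, leaf6_smul_l, leaf6_sum_l] at hq
    have h1 : ∑ i, w i * q (z i) N = 0 := by
      rcases mul_eq_zero.1 hq with h | h
      · exact absurd h hr.ne'
      · exact h
    have h2 : ∀ i ∈ Finset.univ, w i * q (z i) N ≤ 0 := fun i _ =>
      mul_nonpos_of_nonneg_of_nonpos (hw i).le (hzN i)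
    have h3 := (Finset.sum_eq_zero_iff_of_nonpos h2).1 h1
    intro i
    rcases mul_eq_zero.1 (h3 i (Finset.mem_univ i)) with h | h
    · exact absurd h (hw i).ne'
    · exact h
  have homz : 0 < omega (t.m.S.s.X y + (q (t.m.S.s.X y) N) • N) N := by
    obtain ⟨n', hn'⟩ := t.m.S.g.ne y hy
    have h1 : omega (t.m.S.s.X y + (q (t.m.S.s.X y) N) • N) N = omega (t.m.S.s.X y) N := by
      rw [leaf6_om_add, leaf6_om_smul, leaf6_om_self]
      ring
    have h2 : omega (t.m.S.s.X y) (N + (q (t.m.S.s.X y) N) • t.m.S.s.X y) =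
        omega (t.m.S.s.X y) N := by
      rw [leaf6_om_add_r, leaf6_om_smul_r, leaf6_om_self]
      ring
    have h3 : q (t.m.S.s.X y) (N + (q (t.m.S.s.X y) N) • t.m.S.s.X y) = 0 := by
      rw [leaf6_add_r, leaf6_smul_r, hXX]
      ring
    have h4 : q (N + (q (t.m.S.s.X y) N) • t.m.S.s.X y)
        (N + (q (t.m.S.s.X y) N) • t.m.S.s.X y) < 0 := by
      have e : q (N + (q (t.m.S.s.X y) N) • t.m.S.s.X y)
          (N + (q (t.m.S.s.X y) N) • t.m.S.s.X y) = (q (t.m.S.s.X y) N) ^ 2 - 1 := by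
        rw [leaf6_add_l, leaf6_add_r, leaf6_add_r, leaf6_smul_l, leaf6_smul_r, leaf6_smul_l,
          leaf6_smul_r, hXX, hNN, hNX]
        ring
      rw [e]
      nlinarith
    have h5 := t.m.S.g.NX y hy n' hn'
    have h6 : q (t.m.S.s.X y) n' = 0 := by rw [leaf6_comm]; exact h5
    have h7 : q n' n' < 0 := by rw [t.m.S.g.NN y hy n' hn']; norm_num
    have h8 : q (N + (q (t.m.S.s.X y) N) • t.m.S.s.X y) n' < 0 := by
      rw [leaf6_add_l, leaf6_smul_l, h6, mul_zero, add_zero, leaf6_comm]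
      exact hsign n' hn'
    have h9 := (timeq (A := t.m.S.s.X y) (by rw [hXX]; norm_num) h3 h6 h4 h7).2 h8
    have h10 := t.m.S.ori y hy n' hn'
    rw [(o6 t).1, one_mul] at h10
    rw [h1, ← h2]
    exact (pos_iff_pos_of_mul_pos h9).2 h10
  have hLam : ∀ i, z i ∈ Lam t.p.S := by
    intro i
    rcases nset_cases6 t.p.S (hzS i) with ⟨x, hx, hzx⟩ | h
    · exfalso
      have hPP := t.p.S.g.XX x hx
      have hXp : t.p.S.s.X x ≠ 0 := by
        intro h0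
        rw [h0] at hPP
        simp [q] at hPP
      have h1 := hzN0 i
      rw [hzx, leaf6_smul_l] at h1
      have h2 : q (t.p.S.s.X x) N = 0 := by
        rcases mul_eq_zero.1 h1 with h | h
        · exact absurd h (inv_ne_zero (norm_ne_zero_iff.2 hXp))
        · exact h
      obtain ⟨n', hn'⟩ := t.p.S.g.ne x hx
      have h3 : q n' N < 0 := contact6 t.p.S.g hNN hN.2 hx h2 hn'
      have h4 : q (t.p.S.s.X x) n' = 0 := by
        rw [leaf6_comm]
        exact t.p.S.g.NX x hx n' hn'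
      have h5 : q n' n' < 0 := by rw [t.p.S.g.NN x hx n' hn']; norm_num
      have h6 := (timeq (A := t.p.S.s.X x) (by rw [hPP]; norm_num) h2 h4
        (by rw [hNN]; norm_num) h5).2 (by rw [leaf6_comm]; exact h3)
      have h7 := t.p.S.ori x hx n' hn'
      rw [(o6 t).2] at h7
      have h8 : omega (t.p.S.s.X x) n' < 0 := by linarith
      have h9 : omega (t.p.S.s.X x) N < 0 := by
        by_contra hcon
        push Not at hcon
        have := mul_nonpos_of_nonneg_of_nonpos hcon h8.le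
        linarith
      have h10 : q (t.m.S.s.X y + (q (t.m.S.s.X y) N) • N) (t.p.S.s.X x) < 0 := by
        rw [hz, leaf6_smul_l, leaf6_sum_l]
        apply mul_neg_of_pos_of_neg hr
        apply Finset.sum_neg _ hne
        intro j _
        refine mul_neg_of_pos_of_neg (hw j) ?_
        rw [leaf6_comm]
        exact nset_pos6 t.p.S (hzS j) hx
      exact leaf6_path hneg (by rw [hPP]; norm_num) h10 hqzN h2 (by rw [hNN]; norm_num) homz h9
    · exact h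
  obtain ⟨i, j, hij⟩ : ∃ i j, q (z i) (z j) < 0 := by
    by_contra hcon
    push Not at hcon
    rw [hz, leaf6_smul_l, leaf6_smul_r, leaf6_sum_l] at hneg
    have h1 : 0 ≤ ∑ i, w i * q (z i) (∑ j, w j • z j) := by
      apply Finset.sum_nonneg
      intro i _
      rw [leaf6_sum_r]
      exact mul_nonneg (hw i).le (Finset.sum_nonneg fun j _ => mul_nonneg (hw j).le (hcon i j))
    have h2 : 0 ≤ r * (r * ∑ i, w i * q (z i) (∑ j, w j • z j)) := by positivity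
    linarith
  have hc : 0 < 1 / (-2 * q (z i) (z j)) := by
    apply div_pos one_pos
    linarith
  refine ⟨z i, hLam i, (1 / (-2 * q (z i) (z j))) • z j, Lam_smul6 t.p.S (hLam j) hc, hzN0 i, ?_, ?_⟩
  · rw [leaf6_smul_l, hzN0 j, mul_zero]
  · rw [leaf6_smul_r]
    have : q (z i) (z j) ≠ 0 := hij.ne
    field_simp

end A_leaf6

alias leaf6 := A_leaf6.leaf6

namespace A_opp6

/- Proof:
X = m.X y, m = q X N, V = vv X N xi, P = N + m X: q X P = 0, q P P = -1 + m^2 < 0. vvprops: q X V = 0, q V V = -(q X xi)^2 < 0 (Lam_strict6, lamTT6). q P V = q N V = -(q X xi) q N N + q X N q N xi = q X xi < 0. Take n in t.m.S.s.Nr y with q n N < 0: q n P = q n N < 0. revCS (iii) with A = X, W = V, Z = n, U = P: q n V <= 0; and q n V ≠ 0 by revCS (ii). So q n V < 0, timeq (A = X, U = n, V): 0 < omega X n * omega X V, omega X n > 0 (ori, o6), so omega X V > 0.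
First claim: orient6 with Y0 = X, Y1 = p.X x for x in H2 (lt1: q < 1; q (p.X x) xi < 0, q X xi < 0): 0 < omega X (vv X N xi) * omega (p.X x)(vv (p.X x) N xi), so the latter is > 0, and t.p.S.o = -1.
Second claim: vv Y (-N) xi = -(vv Y N xi), omega X (vv X (-N) xi) = -omega X V < 0, t.m.S.o = 1; opp_one6 for t.m.S with N := -N (xi in Lam t.m.S by lamTT6, q xi (-N) = 0, q (-N)(-N) = -1).
-/
theorem opp6 {κ ι : Type*} (t : TT κ ι) {N : V4} (hN : q N N = -1) {y : V3} (hy : y ∈ H2) (hm : -1 < q (t.m.S.s.X y) N)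
    (hm1 : q (t.m.S.s.X y) N < 1) (hsign : ∃ n ∈ t.m.S.s.Nr y, q n N < 0) {ξ : V4} (hξ : ξ ∈ Lam t.p.S) (h0 : q ξ N = 0) :
    Opp t.p.S N ξ ∧ Opp t.m.S (-N) ξ := by
  obtain ⟨om, op⟩ := o6 t
  have hXX : q (t.m.S.s.X y) (t.m.S.s.X y) = -1 := t.m.S.g.XX y hy
  have hξm : ξ ∈ Lam t.m.S := by rw [lamTT6]; exact hξ
  have hXξ : q (t.m.S.s.X y) ξ < 0 := Lam_strict6 t.m.S hξm hy
  have hξξ : q ξ ξ = 0 := hξ.2.1
  set X := t.m.S.s.X y with hX
  obtain ⟨v1, v2⟩ := vvprops (Y := X) hξξ h0 hN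
  set V := vv X N ξ with hV
  set m := q X N with hmdef
  have hVV : q V V < 0 := by rw [v2]; nlinarith
  -- the vector P
  have hsymm : ∀ A B : V4, q A B = q B A := by intro A B; simp only [q]; ring
  have hP : ∀ Z : V4, q Z (N + m • X) = q Z N + m * q Z X := by
    intro Z; simp only [q, Pi.add_apply, Pi.smul_apply, smul_eq_mul]; ring
  have hXP : q X (N + m • X) = 0 := by rw [hP, hXX, ← hmdef]; ring
  have hPP : q (N + m • X) (N + m • X) < 0 := by
    rw [hP, hsymm _ N, hsymm _ X, hXP, hP, hN, hsymm N X, ← hmdef]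
    nlinarith
  have hPV : q (N + m • X) V < 0 := by
    rw [hsymm, hP, hsymm V X, v1, hV]
    have : q (vv X N ξ) N = -(q X ξ) * q N N + q X N * q ξ N := by
      simp only [vv, q, Pi.add_apply, Pi.smul_apply, smul_eq_mul]; ring
    rw [this, hN, h0]
    linarith
  obtain ⟨n, hn, hnN⟩ := hsign
  have hnn : q n n = -1 := t.m.S.g.NN y hy n hn
  have hnX : q n X = 0 := t.m.S.g.NX y hy n hn
  have hXn : q X n = 0 := by rw [hsymm]; exact hnX
  have hnP : q n (N + m • X) ≤ 0 := by rw [hP, hnX]; linarith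
  obtain ⟨_, r2, r3⟩ := revCS (A := X) (W := V) (by rw [hXX]; norm_num) hVV v1 hXn
  have hnV : q n V ≤ 0 := r3 (by rw [hnn]; norm_num) _ hXP hPP hPV hnP
  have hnV' : q n V < 0 := by
    refine lt_of_le_of_ne hnV ?_
    intro hc
    have := r2 (by rw [hnn]; norm_num) hc
    rw [this] at hnn
    simp [q] at hnn
  have hom := (timeq (A := X) (U := n) (V := V) (by rw [hXX]; norm_num) hXn v1
    (by rw [hnn]; norm_num) hVV).2 hnV'
  have hori := t.m.S.ori y hy n hn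
  rw [om, one_mul, ← hX] at hori
  have homV : 0 < omega X V := pos_of_mul_pos_right hom hori.le
  constructor
  · intro x hx
    have h1 := orient6 (Y₀ := X) (Y₁ := t.p.S.s.X x) hXX (t.p.S.g.XX x hx) (t.lt1 y hy x hx) hξξ h0 hN
      hXξ (Lam_strict6 t.p.S hξ hx)
    have h2 : 0 < omega (t.p.S.s.X x) (vv (t.p.S.s.X x) N ξ) := pos_of_mul_pos_right h1 homV.le
    rw [op]
    linarith
  · refine opp_one6 t.m.S (N := -N) ?_ hξm ?_ hy ?_
    · simp only [q, Pi.neg_apply] at hN ⊢; linarith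
    · simp only [q, Pi.neg_apply] at h0 ⊢; linarith
    · rw [om, one_mul, ← hX]
      have h1 : omega X (vv X (-N) ξ) = -omega X V := by
        simp only [hV, omega, vv, q, Pi.neg_apply, Pi.add_apply, Pi.smul_apply, smul_eq_mul]; ring
      rw [h1]; linarith

end A_opp6

alias opp6 := A_opp6.opp6

namespace A_nu6

/- Proof:
oppn6 for t.m.S with M = -N (q (m.X y)(-N) = -q (m.X y) N > -1): 0 < q n (-N).
-/
theorem nu6 {κ ι : Type*} (t : TT κ ι) {N : V4} (hN : q N N = -1) (hlt : ∀ y ∈ H2, q (t.m.S.s.X y) N < 1) {ξ : V4} (hξ : ξ ∈ Lam t.p.S)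
    (h0 : q ξ N = 0) (hO : Opp t.m.S (-N) ξ) : ∀ y ∈ H2, ∀ n ∈ t.m.S.s.Nr y, q n N < 0 := by
  have hneg : ∀ X : V4, q X (-N) = -(q X N) := by
    intro X
    simp only [q, Pi.neg_apply]
    ring
  have hNN : q (-N) (-N) = -1 := by
    rw [← hN]
    simp only [q, Pi.neg_apply]
    ring
  intro y hy n hn
  have hξ' : ξ ∈ Lam t.m.S := by
    rw [lamTT6 t]
    exact hξ
  have h1 := oppn6 t.m.S hNN hξ' (by rw [hneg, h0, neg_zero]) hO hy
    (by rw [hneg]; linarith [hlt y hy]) hn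
  rw [hneg] at h1
  linarith

end A_nu6

alias nu6 := A_nu6.nu6

namespace A_lower6

theorem lower6_qneg (X Y : V4) : q X (-Y) = -q X Y := by
  unfold q
  simp only [Pi.neg_apply]
  ring

theorem lower6_qcont {P : Set (V4 × V3)} {X : V3 → V4} (hX : ContinuousOn X H2)
    (hP : ∀ p ∈ P, p.2 ∈ H2) : ContinuousOn (fun p : V4 × V3 => q (X p.2) p.1) P := by
  have h1 : ContinuousOn (fun p : V4 × V3 => X p.2) P := hX.comp continuousOn_snd hP
  have h2 : ∀ i, ContinuousOn (fun p : V4 × V3 => X p.2 i) P := fun i => continuousOn_pi.1 h1 i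
  have h3 : ∀ i, ContinuousOn (fun p : V4 × V3 => p.1 i) P := fun i => by fun_prop
  unfold q
  exact ((((h2 0).mul (h3 0)).neg.add ((h2 1).mul (h3 1))).add ((h2 2).mul (h3 2))).sub
    ((h2 3).mul (h3 3))

/- Proof:
Write Xm = t.m.S.s.X = nrm t.m.Y (t.m.SX), T = t.m.T, s = sn T. Suppose q (Xm y) N > s y (> 0). Let P = {(N',y') : N' in Dual t.p.S, y' in F, 0 <= q (Xm y') N'}: compact (Dual_cpt6 with S = t.p.S, X' = Xm, C = 0; hs from lamTT6, Lam_strict6). f(N',y') = arcsin (q (Xm y') N') - arcsin (s y') is continuous on P (snprops6). P contains the translate (g.2 N, g.1 y) with g.1 y in F (F_cov, GG6, t.m.S.G_X with t.hG, G_q, s invariant), where f > 0 (arcsin strictly increasing on [-1,1], all values q (Xm y') N' < 1 by dual_lt6). Let (N1,y1) maximise f on P: f(N1,y1) > 0, so s y1 < u1 := q (Xm y1) N1 < 1. For all z in H2: arcsin (q (Xm z) N1) - arcsin (s z) <= f(N1,y1): if q (Xm z) N1 >= 0 translate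 (N1,z) into P; otherwise the left side is < 0.
Apply lc6 with the first surface (t.m.C, Y0 t.m.σ T, t.m.n0), the second surface (t.m.C, t.m.Y, t.m.n) (t.m.pg0, t.m.pg, SameCellMetric symmetric to t.m.met), M = t.m.σ • EE, M' = -N1, x = y1: q M M = -1 and -(q (nrm (Y0 ..) z) M) = s z (snprops6), -(q (Xm z)(-N1)) = q (Xm z) N1; hn: t.m.n0E; |s y1| < 1, |u1| < 1; hlt: arcsin (s y1) < arcsin u1; hmin: arcsin s(y1) - arcsin u1 <= arcsin s(z) - arcsin (q (Xm z) N1). Contradiction.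
-/
theorem lower6 {κ ι : Type*} (t : TT κ ι) {N : V4} (hN : N ∈ Dual t.p.S) {y : V3} (hy : y ∈ H2) :
    q (t.m.S.s.X y) N ≤ sn t.m.T y := by
  by_contra hcon
  push Not at hcon
  obtain ⟨hM, hsp, hsc, hsG, -⟩ := snprops6 t.m
  set P : Set (V4 × V3) := {p : V4 × V3 | p.1 ∈ Dual t.p.S ∧ p.2 ∈ t.p.S.F ∧
    -(0 : ℝ) ≤ q (t.m.S.s.X p.2) p.1} with hPdef
  have hPc : IsCompact P := Dual_cpt6 t.p.S t.m.S.g.contX (fun ξ hξ x hx => by
    rw [← lamTT6 t] at hξ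
    exact Lam_strict6 t.m.S hξ hx) 0
  have hPH : ∀ p ∈ P, p.2 ∈ H2 := fun p hp => t.p.S.F_sub hp.2.1
  set f : V4 × V3 → ℝ := fun p => Real.arcsin (q (t.m.S.s.X p.2) p.1) -
    Real.arcsin (sn t.m.T p.2) with hf
  have hfc : ContinuousOn f P := by
    refine (Real.continuous_arcsin.comp_continuousOn (lower6_qcont t.m.S.g.contX hPH)).sub ?_
    exact Real.continuous_arcsin.comp_continuousOn (hsc.comp continuousOn_snd hPH)
  have htr : ∀ N' ∈ Dual t.p.S, ∀ z ∈ H2, 0 ≤ q (t.m.S.s.X z) N' →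
      ∃ p ∈ P, f p = Real.arcsin (q (t.m.S.s.X z) N') - Real.arcsin (sn t.m.T z) := by
    intro N' hN' z hz hq
    obtain ⟨g, hg, hgF⟩ := t.p.S.F_cov z hz
    have hgm : g ∈ t.m.S.G := by rw [t.hG]; exact hg
    have e1 : q (t.m.S.s.X (g.1 z)) (g.2 N') = q (t.m.S.s.X z) N' := by
      rw [t.m.S.G_X g hgm z hz, t.m.S.G_q g hgm]
    refine ⟨(g.2 N', g.1 z), ⟨(GG6 t.p.S hg).2 N' hN', hgF, ?_⟩, ?_⟩
    · show -(0 : ℝ) ≤ q (t.m.S.s.X (g.1 z)) (g.2 N')
      rw [e1, neg_zero]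
      exact hq
    · show Real.arcsin (q (t.m.S.s.X (g.1 z)) (g.2 N')) - Real.arcsin (sn t.m.T (g.1 z)) = _
      rw [e1, hsG g hgm z hz]
  obtain ⟨hs0, hs1, -⟩ := hsp y hy
  have hpos : 0 < Real.arcsin (q (t.m.S.s.X y) N) - Real.arcsin (sn t.m.T y) := by
    rw [sub_pos]
    exact Real.arcsin_lt_arcsin (by linarith) hcon (dual_lt6 t hN hy).le
  obtain ⟨p0, hp0, hfp0⟩ := htr N hN y hy (by linarith)
  obtain ⟨p1, hp1, hmax⟩ := hPc.exists_isMaxOn ⟨p0, hp0⟩ hfc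
  obtain ⟨N1, y1⟩ := p1
  have hf1 : 0 < Real.arcsin (q (t.m.S.s.X y1) N1) - Real.arcsin (sn t.m.T y1) := by
    have h1 : f p0 ≤ f (N1, y1) := hmax hp0
    rw [hfp0] at h1
    exact lt_of_lt_of_le hpos h1
  have hN1 : N1 ∈ Dual t.p.S := hp1.1
  have hy1 : y1 ∈ H2 := hPH _ hp1
  have hu0 : 0 ≤ q (t.m.S.s.X y1) N1 := by
    have := hp1.2.2
    rwa [neg_zero] at this
  have hu1 : q (t.m.S.s.X y1) N1 < 1 := dual_lt6 t hN1 hy1
  obtain ⟨ht0, ht1, ht2, -⟩ := hsp y1 hy1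
  have hX : ∀ z, nrm t.m.Y z = t.m.S.s.X z := fun z => by rw [t.m.SX]
  refine lc6 t.m.pg0 t.m.pg (fun i x hx z hz => (t.m.met i x hx z hz).symm) hy1
    (M := t.m.σ • EE) (M' := -N1) hM ?_ (fun i hi => t.m.n0E i y1 hy1 hi) ?_ ?_ ?_ ?_
  · have h1 : q (-N1) (-N1) = q N1 N1 := by unfold q; simp
    rw [h1]
    exact hN1.1
  · rw [← abs_neg, ht2, abs_of_pos ht0]
    exact ht1
  · rw [hX, lower6_qneg, abs_neg, abs_of_nonneg hu0]
    exact hu1
  · rw [ht2, hX, lower6_qneg, neg_neg]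
    linarith
  · intro z hz
    obtain ⟨hz0, hz1, hz2, -⟩ := hsp z hz
    rw [ht2, hX, lower6_qneg, neg_neg, hz2, hX, lower6_qneg, neg_neg]
    rcases le_or_gt 0 (q (t.m.S.s.X z) N1) with h | h
    · obtain ⟨p2, hp2, hfp2⟩ := htr N1 hN1 z hz h
      have h1 : f p2 ≤ f (N1, y1) := hmax hp2
      rw [hfp2] at h1
      have h2 : f (N1, y1) = Real.arcsin (q (t.m.S.s.X y1) N1) - Real.arcsin (sn t.m.T y1) := rfl
      rw [h2] at h1
      linarith
    · have h1 : Real.arcsin (q (t.m.S.s.X z) N1) ≤ 0 := Real.arcsin_nonpos.2 h.le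
      have h2 : 0 ≤ Real.arcsin (sn t.m.T z) := Real.arcsin_nonneg.2 hz0.le
      linarith

end A_lower6

alias lower6 := A_lower6.lower6

namespace A_oppcl6

theorem q_cont_aux {α : Type*} [TopologicalSpace α] {f g : α → V4} (hf : Continuous f) (hg : Continuous g) :
    Continuous fun a => q (f a) (g a) := by
  have hf' : ∀ i, Continuous fun a => f a i := fun i => (continuous_apply i).comp hf
  have hg' : ∀ i, Continuous fun a => g a i := fun i => (continuous_apply i).comp hg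
  unfold q
  exact (((((hf' 0).mul (hg' 0)).neg.add ((hf' 1).mul (hg' 1))).add ((hf' 2).mul (hg' 2))).sub
    ((hf' 3).mul (hg' 3)))

theorem omega_cont_aux {α : Type*} [TopologicalSpace α] {f g : α → V4} (hf : Continuous f) (hg : Continuous g) :
    Continuous fun a => omega (f a) (g a) := by
  have hf' : ∀ i, Continuous fun a => f a i := fun i => (continuous_apply i).comp hf
  have hg' : ∀ i, Continuous fun a => g a i := fun i => (continuous_apply i).comp hg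
  unfold omega
  exact ((hf' 0).mul (hg' 3)).sub ((hf' 3).mul (hg' 0))

theorem oppcl6 (S : CS) : IsClosed {p : V4 × V4 | (q p.1 p.1 = -1 ∧ ∀ x ∈ H2, q (S.s.X x) p.1 ≤ 0) ∧
    (‖p.2‖ = 1 ∧ p.2 ∈ Lam S) ∧ q p.2 p.1 = 0 ∧ Opp S p.1 p.2} := by
  have hx0 : (![1, 0, 0] : V3) ∈ H2 := by
    refine ⟨?_, ?_⟩
    · simp [eta]
    · simp
  set x0 : V3 := ![1, 0, 0] with hx0def
  have hEq : {p : V4 × V4 | (q p.1 p.1 = -1 ∧ ∀ x ∈ H2, q (S.s.X x) p.1 ≤ 0) ∧
      (‖p.2‖ = 1 ∧ p.2 ∈ Lam S) ∧ q p.2 p.1 = 0 ∧ Opp S p.1 p.2} =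
      {p : V4 × V4 | q p.1 p.1 = -1} ∩ {p : V4 × V4 | ∀ x ∈ H2, q (S.s.X x) p.1 ≤ 0} ∩
      {p : V4 × V4 | ‖p.2‖ = 1} ∩ {p : V4 × V4 | q p.2 p.2 = 0} ∩
      {p : V4 × V4 | ∀ x ∈ H2, q (S.s.X x) p.2 ≤ 0} ∩ {p : V4 × V4 | q p.2 p.1 = 0} ∩
      {p : V4 × V4 | S.o * omega (S.s.X x0) (vv (S.s.X x0) p.1 p.2) ≤ 0} := by
    ext p
    constructor
    · rintro ⟨⟨h1, h2⟩, ⟨h3, h4, h5, h6⟩, h7, h8⟩
      exact ⟨⟨⟨⟨⟨⟨h1, h2⟩, h3⟩, h5⟩, h6⟩, h7⟩, (h8 x0 hx0).le⟩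
    · rintro ⟨⟨⟨⟨⟨⟨h1, h2⟩, h3⟩, h5⟩, h6⟩, h7⟩, h8⟩
      simp only [Set.mem_ofPred_eq] at h1 h2 h3 h5 h6 h7 h8
      have hne : p.2 ≠ 0 := by
        intro h
        rw [h, norm_zero] at h3
        exact zero_ne_one h3
      have hLam : p.2 ∈ Lam S := ⟨hne, h5, h6⟩
      refine ⟨⟨h1, h2⟩, ⟨h3, hLam⟩, h7, ?_⟩
      obtain ⟨hv1, hv2⟩ := vvprops (Y := S.s.X x0) h5 h7 h1
      have hs := Lam_strict6 S hLam hx0
      have hvn : q (vv (S.s.X x0) p.1 p.2) (vv (S.s.X x0) p.1 p.2) < 0 := by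
        rw [hv2]
        have : 0 < (q (S.s.X x0) p.2) ^ 2 := sq_pos_of_neg hs
        linarith
      have hXX : q (S.s.X x0) (S.s.X x0) < 0 := by
        rw [S.g.XX x0 hx0]; norm_num
      have hom := omega_ne hXX hv1 hvn
      have ho : S.o ≠ 0 := by
        rcases S.o_cases with h | h <;> rw [h] <;> norm_num
      have hlt : S.o * omega (S.s.X x0) (vv (S.s.X x0) p.1 p.2) < 0 :=
        lt_of_le_of_ne h8 (mul_ne_zero ho hom)
      exact opp_one6 S h1 hLam h7 hx0 hlt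
  rw [hEq]
  have c1 : Continuous fun p : V4 × V4 => p.1 := continuous_fst
  have c2 : Continuous fun p : V4 × V4 => p.2 := continuous_snd
  have d1 : IsClosed {p : V4 × V4 | q p.1 p.1 = -1} := isClosed_eq (q_cont_aux c1 c1) continuous_const
  have d2 : IsClosed {p : V4 × V4 | ∀ x ∈ H2, q (S.s.X x) p.1 ≤ 0} := by
    have : {p : V4 × V4 | ∀ x ∈ H2, q (S.s.X x) p.1 ≤ 0} =
        ⋂ x ∈ H2, {p : V4 × V4 | q (S.s.X x) p.1 ≤ 0} := by
      ext p; simp
    rw [this]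
    exact isClosed_biInter fun x _ => isClosed_le (q_cont_aux continuous_const c1) continuous_const
  have d3 : IsClosed {p : V4 × V4 | ‖p.2‖ = 1} := isClosed_eq c2.norm continuous_const
  have d4 : IsClosed {p : V4 × V4 | q p.2 p.2 = 0} := isClosed_eq (q_cont_aux c2 c2) continuous_const
  have d5 : IsClosed {p : V4 × V4 | ∀ x ∈ H2, q (S.s.X x) p.2 ≤ 0} := by
    have : {p : V4 × V4 | ∀ x ∈ H2, q (S.s.X x) p.2 ≤ 0} =
        ⋂ x ∈ H2, {p : V4 × V4 | q (S.s.X x) p.2 ≤ 0} := by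
      ext p; simp
    rw [this]
    exact isClosed_biInter fun x _ => isClosed_le (q_cont_aux continuous_const c2) continuous_const
  have d6 : IsClosed {p : V4 × V4 | q p.2 p.1 = 0} := isClosed_eq (q_cont_aux c2 c1) continuous_const
  have d7 : IsClosed {p : V4 × V4 | S.o * omega (S.s.X x0) (vv (S.s.X x0) p.1 p.2) ≤ 0} := by
    have cv : Continuous fun p : V4 × V4 => vv (S.s.X x0) p.1 p.2 := by
      unfold vv
      exact ((q_cont_aux continuous_const c2).neg.smul c1).add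
        ((q_cont_aux continuous_const c1).smul c2)
    exact isClosed_le (continuous_const.mul (omega_cont_aux continuous_const cv)) continuous_const
  exact (((((d1.inter d2).inter d3).inter d4).inter d5).inter d6).inter d7

end A_oppcl6

alias oppcl6 := A_oppcl6.oppcl6

namespace A_upper6

theorem upper6_q_cont : Continuous (fun p : V4 × V4 => q p.1 p.2) := by
  unfold q
  fun_prop

theorem upper6_trans (S : CS) (s : V3 → ℝ) (hsG : ∀ g ∈ S.G, ∀ x ∈ H2, s (g.1 x) = s x)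
    {N ξ : V4} (hN : N ∈ Dual S) (hξ : ξ ∈ Lam S) (h0 : q ξ N = 0) (hO : Opp S N ξ) {z : V3}
    (hz : z ∈ H2) (hle : -1 ≤ q (S.s.X z) N) :
    ∃ (N' ξ' : V4) (y : V3), (N' ∈ Dual S ∧ y ∈ S.F ∧ -1 ≤ q (S.s.X y) N') ∧
      (‖ξ'‖ = 1 ∧ ξ' ∈ Lam S) ∧ q ξ' N' = 0 ∧ Opp S N' ξ' ∧
      q (S.s.X y) N' = q (S.s.X z) N ∧ s y = s z := by
  obtain ⟨g, hg, hF⟩ := S.F_cov z hz
  have hG := GG6 S hg
  have hξ' := hG.1 ξ hξ
  have hN' := hG.2 N hN
  have hOg := (Opp_G6 S hN.1 hξ h0 hO).1 g hg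
  have h0' : q (g.2 ξ) (g.2 N) = 0 := by rw [S.G_q g hg]; exact h0
  have hpos : 0 < ‖g.2 ξ‖⁻¹ := inv_pos.2 (norm_pos_iff.2 hξ'.1)
  have hq : q (S.s.X (g.1 z)) (g.2 N) = q (S.s.X z) N := by
    rw [S.G_X g hg z hz, S.G_q g hg]
  refine ⟨g.2 N, ‖g.2 ξ‖⁻¹ • g.2 ξ, g.1 z, ⟨hN', hF, by rw [hq]; exact hle⟩, ⟨?_, Lam_smul6 S hξ' hpos⟩,
    ?_, (Opp_G6 S hN'.1 hξ' h0' hOg).2 _ hpos, hq, hsG g hg z hz⟩
  · rw [norm_smul, norm_inv, norm_norm, inv_mul_cancel₀ (norm_ne_zero_iff.2 hξ'.1)]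
  · have : ∀ (c : ℝ) (A B : V4), q (c • A) B = c * q A B := by
      intro c A B
      simp only [q, Pi.smul_apply, smul_eq_mul]
      ring
    rw [this, h0', mul_zero]

/- Proof:
Write Xp = t.p.S.s.X = nrm t.p.Y, T = t.p.T, s = sn T, u(N',y) = -q (Xp y) N' >= 0. Suppose u(N,x) < s x (< 1). Let P = {(N',xi',y) : N' in Dual t.p.S, xi' in Lam t.p.S, |xi'| = 1, q xi' N' = 0, Opp t.p.S N' xi', y in F, u(N',y) <= 1}; compact: closed by oppcl6 and continuity, bounded by the set of Dual_cpt6 (S = t.p.S, X' = Xp, C = 1; Lam_strict6) and the unit sphere. f = arcsin u(N',y) - arcsin (s y) is continuous on P. P contains the translate (g.2 N, g.2 xi/|g.2 xi|, g.1 x), g.1 x in F (GG6, Opp_G6, Lam_smul6), where f < 0. Let (N1,xi1,y1) minimise f on P: f1 < 0, so u1 := u(N1,y1) < s y1 < 1. For all z in H2: arcsin u(N1,z) - arcsin (s z) >= f1: if u(N1,z) <= 1 translate into P (s invariant); otherwise arcsin u = pi/2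 >= arcsin s, so the left side is >= 0.
Apply lc6 with the first surface (t.p.C, t.p.Y, t.p.n), the second (t.p.C, Y0 t.p.σ T, t.p.n0) (t.p.met), M = N1, M' = t.p.σ • EE, x = y1: -(q (nrm (Y0..) z) M') = s z (snprops6). hn: for i with y1 in C i: t.p.n i in Nr y1 (t.p.Sn), oppn6 (S = t.p.S, M = N1, xi1, -1 < q (Xp y1) N1 = -u1): 0 < q (n i) N1. |u1| < 1, |s y1| < 1, arcsin u1 < arcsin (s y1). Contradiction.
-/
theorem upper6 {κ ι : Type*} (t : TT κ ι) {N : V4} (hN : N ∈ Dual t.p.S) {ξ : V4} (hξ : ξ ∈ Lam t.p.S) (h0 : q ξ N = 0) (hO : Opp t.p.S N ξ)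
    {x : V3} (hx : x ∈ H2) : sn t.p.T x ≤ -q (t.p.S.s.X x) N := by
  by_contra hcon
  have hcon' := not_le.1 hcon
  obtain ⟨hEE, hsn, hsc, hsG, -⟩ := snprops6 t.p
  set S := t.p.S with hS
  have hXc : ContinuousOn S.s.X H2 := S.g.contX
  have hK1 := Dual_cpt6 S hXc (fun ξ hξ x hx => Lam_strict6 S hξ hx) 1
  have hK2 : IsCompact (Metric.sphere (0 : V4) 1) := isCompact_sphere 0 1
  have hC := oppcl6 S
  have hQ := hK1.prod hK2
  have hcont : Continuous (fun r : (V4 × V3) × V4 => (r.1.1, r.2)) := by fun_prop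
  have hP := hQ.inter_right (hC.preimage hcont)
  set P : Set ((V4 × V3) × V4) := ({p : V4 × V3 | p.1 ∈ Dual S ∧ p.2 ∈ S.F ∧ -1 ≤ q (S.s.X p.2) p.1} ×ˢ
    Metric.sphere (0 : V4) 1) ∩ ((fun r : (V4 × V3) × V4 => (r.1.1, r.2)) ⁻¹'
      {p : V4 × V4 | (q p.1 p.1 = -1 ∧ ∀ x ∈ H2, q (S.s.X x) p.1 ≤ 0) ∧
    (‖p.2‖ = 1 ∧ p.2 ∈ Lam S) ∧ q p.2 p.1 = 0 ∧ Opp S p.1 p.2}) with hPdef
  have hmemP : ∀ (N' ξ' : V4) (y : V3), (N' ∈ Dual S ∧ y ∈ S.F ∧ -1 ≤ q (S.s.X y) N') →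
      (‖ξ'‖ = 1 ∧ ξ' ∈ Lam S) → q ξ' N' = 0 → Opp S N' ξ' → ((N', y), ξ') ∈ P := by
    intro N' ξ' y h1 h2 h3 h4
    refine ⟨⟨h1, ?_⟩, h1.1, h2, h3, h4⟩
    rw [mem_sphere_zero_iff_norm]
    exact h2.1
  let f : (V4 × V3) × V4 → ℝ := fun r => Real.arcsin (-(q (S.s.X r.1.2) r.1.1)) - Real.arcsin (sn t.p.T r.1.2)
  have hfc : ContinuousOn f P := by
    have hmaps : Set.MapsTo (fun r : (V4 × V3) × V4 => r.1.2) P H2 := fun r hr => S.F_sub hr.1.1.2.1
    have hc12 : ContinuousOn (fun r : (V4 × V3) × V4 => r.1.2) P := by fun_prop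
    have hc1 : ContinuousOn (fun r : (V4 × V3) × V4 => S.s.X r.1.2) P := hXc.comp hc12 hmaps
    have hc2 : ContinuousOn (fun r : (V4 × V3) × V4 => sn t.p.T r.1.2) P := hsc.comp hc12 hmaps
    have hc3 : ContinuousOn (fun r : (V4 × V3) × V4 => q (S.s.X r.1.2) r.1.1) P :=
      upper6_q_cont.comp_continuousOn (hc1.prodMk (by fun_prop))
    exact (Real.continuous_arcsin.comp_continuousOn hc3.neg).sub (Real.continuous_arcsin.comp_continuousOn hc2)
  obtain ⟨hsx0, hsx1, -⟩ := hsn x hx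
  obtain ⟨N0, ξ0, y0, ha, hb, hc, hd, he, hf⟩ := upper6_trans S (sn t.p.T) hsG hN hξ h0 hO hx (by linarith)
  have hr0 : ((N0, y0), ξ0) ∈ P := hmemP N0 ξ0 y0 ha hb hc hd
  have hux0 : 0 ≤ -q (S.s.X x) N := by linarith [hN.2 x hx]
  have hf0 : f ((N0, y0), ξ0) < 0 := by
    simp only [f]
    rw [he, hf]
    have := Real.arcsin_lt_arcsin (x := -q (S.s.X x) N) (y := sn t.p.T x) (by linarith) hcon' (by linarith)
    linarith
  obtain ⟨r1, hr1, hmin⟩ := hP.exists_isMinOn ⟨_, hr0⟩ hfc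
  have hf1 : f r1 < 0 := lt_of_le_of_lt (hmin hr0) hf0
  obtain ⟨⟨N1, y1⟩, ξ1⟩ := r1
  obtain ⟨⟨⟨hN1, hy1F, hle1⟩, -⟩, -, ⟨hn1, hξ1⟩, h01, hO1⟩ := hr1
  simp only at hN1 hy1F hle1 hn1 hξ1 h01 hO1
  have hy1 : y1 ∈ H2 := S.F_sub hy1F
  obtain ⟨hsy0, hsy1, hsy2, -⟩ := hsn y1 hy1
  have hf1' : Real.arcsin (-(q (S.s.X y1) N1)) < Real.arcsin (sn t.p.T y1) := by
    simp only [f] at hf1
    linarith
  have hu0 : 0 ≤ -(q (S.s.X y1) N1) := by linarith [hN1.2 y1 hy1]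
  have hu1 : -(q (S.s.X y1) N1) < 1 := by
    by_contra hge
    have h1 := Real.arcsin_of_one_le (not_lt.1 hge)
    rw [h1] at hf1'
    exact absurd (Real.arcsin_le_pi_div_two (sn t.p.T y1)) (not_le.2 hf1')
  have hSX : S.s.X = nrm t.p.Y := t.p.SX
  refine lc6 t.p.pg t.p.pg0 t.p.met hy1 (M := N1) (M' := t.p.σ • EE) hN1.1 hEE ?_ ?_ ?_ ?_ ?_
  · intro i hi
    exact oppn6 S hN1.1 hξ1 h01 hO1 hy1 (by linarith) (t.p.Sn i y1 hy1 hi)
  · rw [← hSX, abs_lt]
    constructor <;> linarith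
  · rw [abs_lt]
    constructor <;> linarith
  · rw [← hSX, hsy2]
    exact hf1'
  · intro z hz
    obtain ⟨hsz0, hsz1, hsz2, -⟩ := hsn z hz
    rw [← hSX, hsy2, hsz2]
    have hfr1 : f ((N1, y1), ξ1) = Real.arcsin (-(q (S.s.X y1) N1)) - Real.arcsin (sn t.p.T y1) := rfl
    by_cases hz1 : -1 ≤ q (S.s.X z) N1
    · obtain ⟨N2, ξ2, y2, ha2, hb2, hc2, hd2, he2, hf2⟩ :=
        upper6_trans S (sn t.p.T) hsG hN1 hξ1 h01 hO1 hz hz1
      have h5 := hmin (hmemP N2 ξ2 y2 ha2 hb2 hc2 hd2)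
      have h6 : f ((N2, y2), ξ2) = Real.arcsin (-(q (S.s.X z) N1)) - Real.arcsin (sn t.p.T z) := by
        simp only [f]
        rw [he2, hf2]
      have h7 : f ((N1, y1), ξ1) ≤ f ((N2, y2), ξ2) := h5
      rw [h6, hfr1] at h7
      exact h7
    · have h5 : (1 : ℝ) ≤ -(q (S.s.X z) N1) := by linarith [not_le.1 hz1]
      rw [Real.arcsin_of_one_le h5]
      have h6 := Real.arcsin_le_pi_div_two (sn t.p.T z)
      linarith

end A_upper6

alias upper6 := A_upper6.upper6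

namespace A_dich6

/- Proof:
Xm = t.m.S.s.X, s = sn t.m.T. P = {(N,y) : N in Dual t.p.S, y in F, -1 <= q (Xm y) N} is compact (Dual_cpt6, S = t.p.S, X' = Xm, C = 1), nonempty (exmax6 translated into F), and f(N,y) = s y - q (Xm y) N >= 0 (lower6) is continuous on it (snprops6). Let e be its minimum. If e = 0 the first alternative holds. If e > 0, the second alternative holds with min e 1 : for N in Dual, y in H2 translate y into F (GG6, t.m.S.G_X with t.hG, G_q, s invariant); either the translate is in P, or q (Xm y) N < -1 and s y > 0.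
-/
theorem dich6 {κ ι : Type*} (t : TT κ ι) : (∃ N ∈ Dual t.p.S, ∃ y ∈ H2, q (t.m.S.s.X y) N = sn t.m.T y) ∨
    ∃ ε : ℝ, 0 < ε ∧ ∀ N ∈ Dual t.p.S, ∀ y ∈ H2, q (t.m.S.s.X y) N ≤ sn t.m.T y - ε := by
  have hX : ContinuousOn t.m.S.s.X H2 := t.m.S.g.contX
  have hstr : ∀ ξ ∈ Lam t.p.S, ∀ x ∈ H2, q (t.m.S.s.X x) ξ < 0 := by
    intro ξ hξ x hx
    rw [← lamTT6 t] at hξ
    exact Lam_strict6 t.m.S hξ hx
  have hK := Dual_cpt6 t.p.S hX hstr 1
  set P : Set (V4 × V3) :=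
    {p : V4 × V3 | p.1 ∈ Dual t.p.S ∧ p.2 ∈ t.p.S.F ∧ -1 ≤ q (t.m.S.s.X p.2) p.1} with hP
  obtain ⟨-, hsn, hsm, hsG, -⟩ := snprops6 t.m
  have hsnd : Set.MapsTo (fun p : V4 × V3 => p.2) P H2 := fun p hp => t.p.S.F_sub hp.2.1
  have hXP : ContinuousOn (fun p : V4 × V3 => t.m.S.s.X p.2) P :=
    hX.comp continuous_snd.continuousOn hsnd
  have hsP : ContinuousOn (fun p : V4 × V3 => sn t.m.T p.2) P :=
    hsm.comp continuous_snd.continuousOn hsnd
  have hXi : ∀ i : Fin 4, ContinuousOn (fun p : V4 × V3 => t.m.S.s.X p.2 i) P := fun i =>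
    (continuous_apply i).comp_continuousOn hXP
  have hNi : ∀ i : Fin 4, ContinuousOn (fun p : V4 × V3 => p.1 i) P := fun i =>
    ((continuous_apply i).comp continuous_fst).continuousOn
  have hf : ContinuousOn (fun p : V4 × V3 => sn t.m.T p.2 - q (t.m.S.s.X p.2) p.1) P := by
    apply hsP.sub
    unfold q
    exact ((((hXi 0).mul (hNi 0)).neg.add ((hXi 1).mul (hNi 1))).add ((hXi 2).mul (hNi 2))).sub
      ((hXi 3).mul (hNi 3))
  have htr : ∀ N ∈ Dual t.p.S, ∀ y ∈ H2, ∃ N' ∈ Dual t.p.S, ∃ y' ∈ t.p.S.F,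
      q (t.m.S.s.X y') N' = q (t.m.S.s.X y) N ∧ sn t.m.T y' = sn t.m.T y := by
    intro N hN y hy
    obtain ⟨g, hg, hgF⟩ := t.p.S.F_cov y hy
    have hg' : g ∈ t.m.S.G := by rw [t.hG]; exact hg
    exact ⟨g.2 N, (GG6 t.p.S hg).2 N hN, g.1 y, hgF,
      by rw [t.m.S.G_X g hg' y hy, t.m.S.G_q g hg'], hsG g hg' y hy⟩
  have hne : P.Nonempty := by
    obtain ⟨N, hN, y, hy, h1, -⟩ := exmax6 t
    obtain ⟨N', hN', y', hy', h2, -⟩ := htr N hN y hy
    refine ⟨(N', y'), hN', hy', ?_⟩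
    show -1 ≤ q (t.m.S.s.X y') N'
    rw [h2]
    linarith
  obtain ⟨p, hp, hmin⟩ := hK.exists_isMinOn hne hf
  have hlow : q (t.m.S.s.X p.2) p.1 ≤ sn t.m.T p.2 := lower6 t hp.1 (t.p.S.F_sub hp.2.1)
  rcases hlow.eq_or_lt with h | h
  · exact Or.inl ⟨p.1, hp.1, p.2, t.p.S.F_sub hp.2.1, h⟩
  · right
    refine ⟨min (sn t.m.T p.2 - q (t.m.S.s.X p.2) p.1) 1, lt_min (by linarith) one_pos, ?_⟩
    intro N hN y hy
    obtain ⟨N', hN', y', hy', h2, h3⟩ := htr N hN y hy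
    rcases le_or_gt (-1) (q (t.m.S.s.X y') N') with h4 | h4
    · have h5 : sn t.m.T p.2 - q (t.m.S.s.X p.2) p.1 ≤ sn t.m.T y' - q (t.m.S.s.X y') N' :=
        hmin (show (N', y') ∈ P from ⟨hN', hy', h4⟩)
      have h6 := min_le_left (sn t.m.T p.2 - q (t.m.S.s.X p.2) p.1) 1
      rw [h2, h3] at h5
      linarith
    · have h5 := (hsn y hy).1
      have h6 := min_le_right (sn t.m.T p.2 - q (t.m.S.s.X p.2) p.1) 1
      rw [h2] at h4
      linarith

end A_dich6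

alias dich6 := A_dich6.dich6

end Helper935.Poly
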