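import Pool.Agent.Helper935_AdS.PVert
import Pool.Agent.Helper935_AdS.PPairA
import Pool.Agent.Helper935_AdS.PDiscB

namespace Helper935.Poly

namespace A_unifTT6

/- Proof:
unif6 with S = t.p.S, X' = t.m.S.s.X: continuous (t.m.S.g.contX), hs: lamTT6 and Lam_strict6 for t.m.S, hG: t.m.S.G_X with t.hG.
-/
theorem unifTT6 {κ ι : Type*} (t : TT κ ι) : ∃ c C : ℝ, 0 < c ∧ 0 < C ∧ ∀ x ∈ H2, ∃ μ : V4 → ℝ,
    (∀ ξ ∈ Lam t.p.S, 0 < μ ξ ∧ (c * μ ξ ≤ -q (t.p.S.s.X x) ξ ∧ -q (t.p.S.s.X x) ξ ≤ C * μ ξ) ∧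
      (c * μ ξ ≤ -q (t.m.S.s.X x) ξ ∧ -q (t.m.S.s.X x) ξ ≤ C * μ ξ)) ∧
    ∀ ξ₁ ∈ Lam t.p.S, ∀ ξ₂ ∈ Lam t.p.S, -q ξ₁ ξ₂ ≤ C * μ ξ₁ * μ ξ₂ := by
  refine unif6 t.p.S (X' := t.m.S.s.X) t.m.S.g.contX ?_ ?_
  · intro ξ hξ x hx
    rw [← lamTT6 t] at hξ
    exact Lam_strict6 t.m.S hξ hx
  · intro g hg x hx
    rw [← t.hG] at hg
    exact t.m.S.G_X g hg x hx

end A_unifTT6

alias unifTT6 := A_unifTT6.unifTT6

namespace A_distb6

/- Proof: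
Let c, C, mu be as in unifTT6 at the point y, Z = xi1 + xi2. 1 >= -q (m.X y) Z >= c (mu xi1 + mu xi2), hence -q (p.X y) Z <= C (mu xi1 + mu xi2) <= C/c. So both x and y satisfy -q (p.X .) Z <= R := max 1 (C/c). By growth6 (S = t.p.S) with the point z: c1 cosh(c' d(z,x)) <= R and c1 cosh(c' d(z,y)) <= R (c' = t.p.S.c > 0), which bounds d(z,x), d(z,y) by a constant D1 depending only on t (e.g. cosh r >= r); H2_triangle: -eta y x <= cosh(2 D1).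
-/
theorem distb6 {κ ι : Type*} (t : TT κ ι) : ∃ D₀ : ℝ, 0 ≤ D₀ ∧ ∀ ξ₁ ∈ Lam t.p.S, ∀ ξ₂ ∈ Lam t.p.S, q ξ₁ ξ₂ = -1/2 →
    ∀ y ∈ H2, ∀ x ∈ H2, -q (t.m.S.s.X y) (ξ₁ + ξ₂) ≤ 1 → -q (t.p.S.s.X x) (ξ₁ + ξ₂) ≤ 1 →
    -eta y x ≤ Real.cosh D₀ := by
  obtain ⟨c₁, hc₁, hgrow⟩ := growth6 t.p.S
  obtain ⟨c, C, hc, hC, hu⟩ := unifTT6 t
  have hκ : 0 < t.p.S.c := t.p.S.g.c_pos
  have qadd : ∀ X Y Z : V4, q X (Y + Z) = q X Y + q X Z := by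
    intro X Y Z
    simp only [q, Pi.add_apply]
    ring
  have eta_comm : ∀ X Y : V3, eta X Y = eta Y X := by
    intro X Y
    simp only [eta]
    ring
  obtain ⟨R, hRd⟩ : ∃ R, R = max 1 (C / c) := ⟨_, rfl⟩
  have hR1 : 1 ≤ R := by rw [hRd]; exact le_max_left _ _
  have hRC : C / c ≤ R := by rw [hRd]; exact le_max_right _ _
  have hD : 0 ≤ R / (c₁ * t.p.S.c) := by positivity
  refine ⟨R / (c₁ * t.p.S.c) + R / (c₁ * t.p.S.c), by positivity, ?_⟩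
  intro ξ₁ h₁ ξ₂ h₂ h12 y hy x hx hym hxp
  obtain ⟨μ, hμ, -⟩ := hu y hy
  obtain ⟨m1, ⟨a1, a2⟩, ⟨b1, b2⟩⟩ := hμ ξ₁ h₁
  obtain ⟨n1, ⟨e1, e2⟩, ⟨f1, f2⟩⟩ := hμ ξ₂ h₂
  have hym' := hym
  rw [qadd] at hym'
  have hsum : c * (μ ξ₁ + μ ξ₂) ≤ 1 := by linarith
  have hsum1 : μ ξ₁ + μ ξ₂ ≤ 1 / c := by
    rw [le_div_iff₀ hc]
    linarith
  have hyp : -q (t.p.S.s.X y) (ξ₁ + ξ₂) ≤ R := by
    rw [qadd]
    have h3 : C * (μ ξ₁ + μ ξ₂) ≤ C * (1 / c) := mul_le_mul_of_nonneg_left hsum1 hC.le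
    have h4 : C * (1 / c) = C / c := by ring
    rw [h4] at h3
    linarith
  have hxp' : -q (t.p.S.s.X x) (ξ₁ + ξ₂) ≤ R := hxp.trans hR1
  obtain ⟨z, hz, hzg⟩ := hgrow ξ₁ h₁ ξ₂ h₂ h12
  have key : ∀ w ∈ H2, -q (t.p.S.s.X w) (ξ₁ + ξ₂) ≤ R →
      -eta z w ≤ Real.cosh (R / (c₁ * t.p.S.c)) := by
    intro w hw hwR
    obtain ⟨d, v, hd, hv, hdw⟩ := exists_geo hz hw
    have h1 := eta_geo hz hv d
    rw [hdw] at h1
    have h2 : -eta z w = Real.cosh d := by rw [h1, neg_neg]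
    have h3 := (hzg w hw d hd h2).trans hwR
    have h4 : t.p.S.c * d ≤ Real.cosh (t.p.S.c * d) :=
      (Real.self_le_sinh_iff.2 (mul_nonneg hκ.le hd)).trans (Real.sinh_lt_cosh _).le
    have h5 : d ≤ R / (c₁ * t.p.S.c) := by
      rw [le_div_iff₀ (mul_pos hc₁ hκ)]
      have h6 : c₁ * (t.p.S.c * d) ≤ c₁ * Real.cosh (t.p.S.c * d) :=
        mul_le_mul_of_nonneg_left h4 hc₁.le
      calc d * (c₁ * t.p.S.c) = c₁ * (t.p.S.c * d) := by ring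
        _ ≤ R := h6.trans h3
    rw [h2, Real.cosh_le_cosh, abs_of_nonneg hd, abs_of_nonneg hD]
    exact h5
  have hy1 : -eta y z ≤ Real.cosh (R / (c₁ * t.p.S.c)) := by
    rw [eta_comm y z]
    exact key y hy hyp
  exact H2_triangle hy hz hx hD hD hy1 (key x hx hxp')

end A_distb6

alias distb6 := A_distb6.distb6

namespace A_wlow6

/- Proof:
apply unifTT6 at y to A = e^s xi1 and B = e^-s xi2 (in Lam by Lam_smul6): 1 >= -q (m.X y)(A+B) >= c (mu A + mu B), so mu A <= 1/c; 1/2 = -q A B <= C mu A mu B gives mu B >= c/(2C); -q (m.X y) xi2 = e^s (-q (m.X y) B) >= e^s c mu B >= e^s c^2/(2C).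
-/
theorem wlow6 {κ ι : Type*} (t : TT κ ι) : ∃ c₁ : ℝ, 0 < c₁ ∧ ∀ ξ₁ ∈ Lam t.p.S, ∀ ξ₂ ∈ Lam t.p.S, q ξ₁ ξ₂ = -1/2 →
    ∀ s : ℝ, ∀ y ∈ H2, -q (t.m.S.s.X y) (Real.exp s • ξ₁ + Real.exp (-s) • ξ₂) ≤ 1 →
    c₁ * Real.exp s ≤ -q (t.m.S.s.X y) ξ₂ := by
  obtain ⟨c, C, hc, hC, hu⟩ := unifTT6 t
  refine ⟨c ^ 2 / (2 * C), by positivity, ?_⟩
  intro ξ₁ h1 ξ₂ h2 h12 s y hy hle
  obtain ⟨μ, hμ, hμ2⟩ := hu y hy
  have es : 0 < Real.exp s := Real.exp_pos s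
  have es' : 0 < Real.exp (-s) := Real.exp_pos (-s)
  have ess : Real.exp s * Real.exp (-s) = 1 := by rw [← Real.exp_add]; simp
  have hA := Lam_smul6 t.p.S h1 es
  have hB := Lam_smul6 t.p.S h2 es'
  obtain ⟨a0, -, a1, a2⟩ := hμ _ hA
  obtain ⟨b0, -, b1, b2⟩ := hμ _ hB
  have hAB := hμ2 _ hA _ hB
  have e1 : q (Real.exp s • ξ₁) (Real.exp (-s) • ξ₂) = Real.exp s * Real.exp (-s) * q ξ₁ ξ₂ := by
    unfold q; simp only [Pi.smul_apply, smul_eq_mul]; ring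
  rw [e1, ess, h12] at hAB
  have e2 : q (t.m.S.s.X y) (Real.exp s • ξ₁ + Real.exp (-s) • ξ₂)
      = q (t.m.S.s.X y) (Real.exp s • ξ₁) + q (t.m.S.s.X y) (Real.exp (-s) • ξ₂) := by
    unfold q; simp only [Pi.add_apply, Pi.smul_apply, smul_eq_mul]; ring
  rw [e2] at hle
  have e3 : q (t.m.S.s.X y) (Real.exp (-s) • ξ₂) = Real.exp (-s) * q (t.m.S.s.X y) ξ₂ := by
    unfold q; simp only [Pi.smul_apply, smul_eq_mul]; ring
  set A := Real.exp s • ξ₁ with hAd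
  set B := Real.exp (-s) • ξ₂ with hBd
  have h3 : c * μ A ≤ 1 := by nlinarith
  have h4 : c / 2 ≤ C * μ B := by
    have h5 : 1 / 2 ≤ C * μ A * μ B := by linarith
    have h6 : c * (1 / 2) ≤ c * (C * μ A * μ B) := mul_le_mul_of_nonneg_left h5 hc.le
    have h7 : c * (C * μ A * μ B) = (c * μ A) * (C * μ B) := by ring
    have h8 : (c * μ A) * (C * μ B) ≤ 1 * (C * μ B) :=
      mul_le_mul_of_nonneg_right h3 (by positivity)
    linarith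
  have h9 : c ^ 2 / (2 * C) ≤ c * μ B := by
    rw [div_le_iff₀ (by positivity)]
    nlinarith
  have h10 : c * μ B ≤ -(Real.exp (-s) * q (t.m.S.s.X y) ξ₂) := by rw [← e3]; exact b1
  have h11 : Real.exp s * (c ^ 2 / (2 * C)) ≤
      Real.exp s * (-(Real.exp (-s) * q (t.m.S.s.X y) ξ₂)) :=
    mul_le_mul_of_nonneg_left (h9.trans h10) es.le
  have h12' : Real.exp s * (-(Real.exp (-s) * q (t.m.S.s.X y) ξ₂)) = -q (t.m.S.s.X y) ξ₂ := by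
    have : Real.exp s * (-(Real.exp (-s) * q (t.m.S.s.X y) ξ₂))
      = -((Real.exp s * Real.exp (-s)) * q (t.m.S.s.X y) ξ₂) := by ring
    rw [this, ess, one_mul]
  rw [h12'] at h11
  linarith

end A_wlow6

alias wlow6 := A_wlow6.wlow6

namespace A_footm6

theorem q_comm449 (X Y : V4) : q X Y = q Y X := by
  unfold q; ring

theorem q_add449 (X Y Z : V4) : q X (Y + Z) = q X Y + q X Z := by
  simp only [q, Pi.add_apply]; ring

theorem q_sub_smul449 (X Y Z : V4) (a : ℝ) : q X (Y - a • Z) = q X Y - a * q X Z := by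
  simp only [q, Pi.sub_apply, Pi.smul_apply, smul_eq_mul]; ring

theorem q_neg449 (X Y : V4) : q X (-Y) = -q X Y := by
  simp only [q, Pi.neg_apply]; ring

/- Proof:
gam = xi1 + xi2, q gam gam = -1, q gam N = 0, S = t.m.S; xi_i in Lam t.m.S (lamTT6). f(y) = -q (m.X y) gam > 0 is continuous with compact sublevel sets (proper6 for t.m.S, H2_ball); let y minimise f over H2, X = m.X y, f = f(y). ext6 (Z = gam): q zeta gam <= 0 for zeta in Dr y; polar6: q gam gam + f^2 <= 0, so f <= 1. K = gam - f X: q X K = -f + f = 0, q zeta K = q zeta gam <= 0 (q X zeta = 0, dir), q n K = q n gam <= 0 for n in Nr y (lam_supp6 for xi1, xi2 with W = n, B = 0, t.m.S.g.supp; symmetric). pair6 with V = -N (hneg: 0 <= q n (-N)): 0 <= q K (-N). 0 = q gam N = f q X N + q K N, so f q X N = -q K N >= 0 and q X N >= 0.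
-/
theorem footm6 {κ ι : Type*} (t : TT κ ι) {N : V4} (hneg : ∀ y ∈ H2, ∀ n ∈ t.m.S.s.Nr y, q n N < 0) {ξ₁ ξ₂ : V4}
    (h₁ : ξ₁ ∈ Lam t.p.S) (h₂ : ξ₂ ∈ Lam t.p.S)
    (h : q ξ₁ ξ₂ = -1/2) (h1N : q ξ₁ N = 0) (h2N : q ξ₂ N = 0) :
    ∃ y ∈ H2, 0 ≤ q (t.m.S.s.X y) N ∧ -q (t.m.S.s.X y) (ξ₁ + ξ₂) ≤ 1 := by
  rw [← lamTT6 t] at h₁ h₂
  generalize hS : t.m.S = S at *
  have hgg : q (ξ₁ + ξ₂) (ξ₁ + ξ₂) = -1 := by
    have e1 := h₁.2.1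
    have e2 := h₂.2.1
    rw [q_add449, q_comm449 _ ξ₁, q_comm449 _ ξ₂, q_add449, q_add449, q_comm449 ξ₂ ξ₁, e1, e2, h]
    norm_num
  have hgN : q (ξ₁ + ξ₂) N = 0 := by
    rw [q_comm449, q_add449, q_comm449 N ξ₁, q_comm449 N ξ₂, h1N, h2N, add_zero]
  have hx₀ : (![1, 0, 0] : V3) ∈ H2 := by
    simp [H2, eta]
  obtain ⟨R', hR'⟩ := proper6 S h₁ h₂ h hx₀ (-q (S.s.X ![1, 0, 0]) (ξ₁ + ξ₂))
  have hmem₀ : (![1, 0, 0] : V3) ∈ {x | x ∈ H2 ∧ -eta ![1, 0, 0] x ≤ R'} := ⟨hx₀, hR' _ hx₀ le_rfl⟩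
  have hcont : ContinuousOn (fun x => -q (S.s.X x) (ξ₁ + ξ₂))
      {x | x ∈ H2 ∧ -eta ![1, 0, 0] x ≤ R'} := by
    have hX : ContinuousOn S.s.X {x | x ∈ H2 ∧ -eta ![1, 0, 0] x ≤ R'} :=
      S.g.contX.mono fun x hx => hx.1
    have hq : Continuous fun Y : V4 => -q Y (ξ₁ + ξ₂) := by
      unfold q
      fun_prop
    exact hq.comp_continuousOn hX
  obtain ⟨y, hyB, hymin⟩ := (H2_ball hx₀ R').exists_isMinOn ⟨_, hmem₀⟩ hcont
  have hy : y ∈ H2 := hyB.1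
  have hmax : ∀ z ∈ H2, q (S.s.X z) (ξ₁ + ξ₂) ≤ q (S.s.X y) (ξ₁ + ξ₂) := by
    intro z hz
    have h0 : -q (S.s.X y) (ξ₁ + ξ₂) ≤ -q (S.s.X ![1, 0, 0]) (ξ₁ + ξ₂) := hymin hmem₀
    by_cases hc : -q (S.s.X z) (ξ₁ + ξ₂) ≤ -q (S.s.X ![1, 0, 0]) (ξ₁ + ξ₂)
    · have h3 : -q (S.s.X y) (ξ₁ + ξ₂) ≤ -q (S.s.X z) (ξ₁ + ξ₂) := hymin ⟨hz, hR' z hz hc⟩
      linarith
    · push Not at hc
      linarith
  have hζ := ext6 S.g hy hmax
  have hpol := (polar6 S.g hy hζ).1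
  have hXX := S.g.XX y hy
  have hpos : 0 < -q (S.s.X y) (ξ₁ + ξ₂) := by
    have a1 := Lam_strict6 S h₁ hy
    have a2 := Lam_strict6 S h₂ hy
    rw [q_add449]
    linarith
  refine ⟨y, hy, ?_, by nlinarith⟩
  have hK0 : q (S.s.X y) ((ξ₁ + ξ₂) - (-q (S.s.X y) (ξ₁ + ξ₂)) • S.s.X y) = 0 := by
    rw [q_sub_smul449, hXX]; ring
  have hKζ : ∀ ζ ∈ S.s.Dr y, q ζ ((ξ₁ + ξ₂) - (-q (S.s.X y) (ξ₁ + ξ₂)) • S.s.X y) ≤ 0 := by
    intro ζ hz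
    rw [q_sub_smul449, q_comm449 ζ (S.s.X y), (S.g.dir y hy ζ hz).2.1, mul_zero, sub_zero]
    exact hζ ζ hz
  have hKn : ∀ n ∈ S.s.Nr y, q n ((ξ₁ + ξ₂) - (-q (S.s.X y) (ξ₁ + ξ₂)) • S.s.X y) ≤ 0 := by
    intro n hn
    have hW : ∀ x ∈ H2, q (S.s.X x) n ≤ 0 := fun x hx => by
      rw [q_comm449]; exact S.g.supp y hy n hn x hx
    have b1 := lam_supp6 S h₁ hW
    have b2 := lam_supp6 S h₂ hW
    rw [q_sub_smul449, S.g.NX y hy n hn, mul_zero, sub_zero, q_add449, q_comm449 n ξ₁,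
      q_comm449 n ξ₂]
    linarith
  have hV : ∀ n ∈ S.s.Nr y, 0 ≤ q n (-N) := by
    intro n hn
    rw [q_neg449]
    have := hneg y hy n hn
    linarith
  have hfin := pair6 S.g hy hK0 hKζ hKn hV
  rw [q_neg449, q_comm449, q_sub_smul449, q_comm449 N (ξ₁ + ξ₂), hgN, q_comm449 N (S.s.X y)] at hfin
  have h5 : 0 ≤ (-q (S.s.X y) (ξ₁ + ξ₂)) * q (S.s.X y) N := by linarith
  exact nonneg_of_mul_nonneg_right h5 hpos

end A_footm6

alias footm6 := A_footm6.footm6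

namespace A_plus6

/-! auxiliary lemmas -/

theorem plus6_q_add_left (X Y Z : V4) : q (X + Y) Z = q X Z + q Y Z := by
  simp only [q, Pi.add_apply]; ring

theorem plus6_q_add_right (X Y Z : V4) : q X (Y + Z) = q X Y + q X Z := by
  simp only [q, Pi.add_apply]; ring

theorem plus6_q_smul_left (c : ℝ) (X Z : V4) : q (c • X) Z = c * q X Z := by
  simp only [q, Pi.smul_apply, smul_eq_mul]; ring

theorem plus6_q_smul_right (c : ℝ) (X Z : V4) : q X (c • Z) = c * q X Z := by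
  simp only [q, Pi.smul_apply, smul_eq_mul]; ring

theorem plus6_q_comm (X Y : V4) : q X Y = q Y X := by
  simp only [q]; ring

theorem plus6_gg {ξ₁ ξ₂ : V4} (h11 : q ξ₁ ξ₁ = 0) (h22 : q ξ₂ ξ₂ = 0) (h : q ξ₁ ξ₂ = -1/2) (s s' : ℝ) :
    q (Real.exp s • ξ₁ + Real.exp (-s) • ξ₂) (Real.exp s' • ξ₁ + Real.exp (-s') • ξ₂) =
      -Real.cosh (s - s') := by
  have h21 : q ξ₂ ξ₁ = -1/2 := by rw [plus6_q_comm, h]
  simp only [plus6_q_add_left, plus6_q_add_right, plus6_q_smul_left, plus6_q_smul_right, h11, h22, h, h21]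
  rw [Real.cosh_eq, neg_sub, sub_eq_add_neg, sub_eq_add_neg, Real.exp_add, Real.exp_add]
  ring

theorem plus6_gN {ξ₁ ξ₂ N : V4} (h1N : q ξ₁ N = 0) (h2N : q ξ₂ N = 0) (s : ℝ) :
    q (Real.exp s • ξ₁ + Real.exp (-s) • ξ₂) N = 0 := by
  simp only [plus6_q_add_left, plus6_q_smul_left, h1N, h2N]
  ring

/-- vertical points -/
def plus6_Vert (X : V3 → V4) (N ξ₁ ξ₂ : V4) (s : ℝ) (x : V3) (t : ℝ) : Prop :=
  x ∈ H2 ∧ 0 < t ∧ Real.exp s • ξ₁ + Real.exp (-s) • ξ₂ + t • N = Real.sqrt (1 + t ^ 2) • X x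

section
variable {X : V3 → V4} {N ξ₁ ξ₂ : V4}

theorem plus6_XN (hN : q N N = -1) (h1N : q ξ₁ N = 0) (h2N : q ξ₂ N = 0) {s : ℝ} {x : V3} {t : ℝ}
    (hv : plus6_Vert X N ξ₁ ξ₂ s x t) : Real.sqrt (1 + t ^ 2) * q (X x) N = -t := by
  rw [← plus6_q_smul_left, ← hv.2.2, plus6_q_add_left, plus6_gN h1N h2N, plus6_q_smul_left, hN]
  ring

theorem plus6_Xg (h11 : q ξ₁ ξ₁ = 0) (h22 : q ξ₂ ξ₂ = 0)
    (h : q ξ₁ ξ₂ = -1/2) (h1N : q ξ₁ N = 0) (h2N : q ξ₂ N = 0) {s : ℝ} {x : V3} {t : ℝ}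
    (hv : plus6_Vert X N ξ₁ ξ₂ s x t) :
    Real.sqrt (1 + t ^ 2) * q (X x) (Real.exp s • ξ₁ + Real.exp (-s) • ξ₂) = -1 := by
  rw [← plus6_q_smul_left, ← hv.2.2, plus6_q_add_left, plus6_gg h11 h22 h, plus6_q_smul_left,
    plus6_q_comm N, plus6_gN h1N h2N]
  simp

theorem plus6_WE (hN : q N N = -1) (h11 : q ξ₁ ξ₁ = 0) (h22 : q ξ₂ ξ₂ = 0)
    (h : q ξ₁ ξ₂ = -1/2) (h1N : q ξ₁ N = 0) (h2N : q ξ₂ N = 0) {s s' : ℝ} {x x' : V3} {t t' : ℝ}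
    (hv : plus6_Vert X N ξ₁ ξ₂ s x t) (hv' : plus6_Vert X N ξ₁ ξ₂ s' x' t') :
    WE X x (Real.arsinh t) x' (Real.arsinh t') = Real.cosh (s - s') - 1 := by
  unfold WE
  rw [Real.cosh_arsinh, Real.cosh_arsinh, Real.sinh_arsinh, Real.sinh_arsinh]
  have h3 : Real.sqrt (1 + t ^ 2) * Real.sqrt (1 + t' ^ 2) * q (X x) (X x') =
      -Real.cosh (s - s') - t * t' := by
    have : Real.sqrt (1 + t ^ 2) * Real.sqrt (1 + t' ^ 2) * q (X x) (X x') =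
        q (Real.sqrt (1 + t ^ 2) • X x) (Real.sqrt (1 + t' ^ 2) • X x') := by
      rw [plus6_q_smul_left, plus6_q_smul_right]; ring
    have hgen : ∀ A A' : V4, q (A + t • N) (A' + t' • N) = q A A' + t' * q A N + t * q A' N
        + t * t' * q N N := by
      intro A A'
      simp only [q, Pi.add_apply, Pi.smul_apply, smul_eq_mul]; ring
    rw [this, ← hv.2.2, ← hv'.2.2, hgen, plus6_gg h11 h22 h, plus6_gN h1N h2N, plus6_gN h1N h2N, hN]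
    ring
  rw [h3]
  ring

end

theorem plus6_sq {T t : ℝ} (hT : 0 < T) (ht : 0 < t)
    (h : Real.sqrt (1 + t ^ 2) * (T / Real.sqrt (1 + T ^ 2)) ≤ t) : T ≤ t := by
  have e1 : (Real.sqrt (1 + t ^ 2) * (T / Real.sqrt (1 + T ^ 2))) ^ 2 ≤ t ^ 2 := by
    have : 0 ≤ Real.sqrt (1 + t ^ 2) * (T / Real.sqrt (1 + T ^ 2)) := by positivity
    gcongr
  rw [mul_pow, div_pow, Real.sq_sqrt (by positivity), Real.sq_sqrt (by positivity)] at e1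
  rw [← mul_div_assoc, div_le_iff₀ (by positivity)] at e1
  have e2 : T ^ 2 ≤ t ^ 2 := by nlinarith
  exact le_of_sq_le_sq e2 ht.le

theorem plus6_sn (T : V3 → ℝ) (x : V3) :
    Real.sinh (Real.arsinh (T x)) = Real.cosh (Real.arsinh (T x)) * sn T x := by
  rw [Real.sinh_arsinh, Real.cosh_arsinh]
  unfold sn
  have : Real.sqrt (1 + T x ^ 2) ≠ 0 := by positivity
  field_simp

/- Proof:
Notation: S = t.p.S, X = t.p.S.s.X = nrm t.p.Y (t.p.SX), X0 = nrm (Y0 t.p.σ t.p.T) = t.p.S0.X (t.p.S0X), V = t.p.σ • EE, s = sn t.p.T. vert_path6: xs, ts. c0 from flow6; B := some B >= 0 with cosh B >= 1/c0 (e.g. B = 1/c0 as cosh B >= B... or arcosh). C := 2 B.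
Given s >= 0, x, x', tau, tau'. By vert_uniq6 (gam = xi1 + xi2 resp. e^s xi1 + e^-s xi2, q gam gam = -1, q gam N = 0) x = xs 0, x' = xs s. For r in R put th(r) = arsinh (ts r) > 0: sinh th = ts r, cosh th = sqrt(1 + ts r^2). From the equation at r: (a) q (X (xs r)) N = -ts r/sqrt(1+ts r^2) (take q with N), (b) q (X (xs r)) (X (xs r')) cosh th(r) cosh th(r') = q gam_r gam_r' - ts r ts r' = -cosh(r - r') - sinh th(r) sinh th(r') [q gam_r gam_r' = (e^{r - r'} + e^{r' - r}) q xi1 xi2 = -cosh(r - r')]: WE X (xs r) (th r) (xs r') (th r') = cosh(r - r') - 1. (c) 1/sqrt(1+ts r^2) = -q (X (xs r)) gam_r >= c0 (flow6 for e^r xi1, e^-r xi2, Lam_smul6): cosh (th r) <= 1/c0.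
(d) upper6: s(xs r) <= -q (X (xs r)) N = sinh th/cosh th, so FF X0 V (xs r) (th r) = sinh th - cosh th s(xs r) >= 0 (fuchs6).
chain_gen for the curve xs on [0,s] with the cells t.p.C (t.p.pg.sub), delta = 1: s_0 = 0, ..., s_n = s, consecutive points in a common cell. w i = (xs s_i, th s_i), l i = s_{i+1} - s_i >= 0. Adm X0 V n w by (d). Consecutive points in a common cell j: q (X0 ..)(X0 ..) = q (X ..)(X ..) (same_nrm, t.p.met), so WE X0 = WE X = cosh(l i) - 1; Seg X0 (seg6 for t.p.pg0).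
End heights: sig0 >= 0 with sinh sig0 = cosh sig0 * s(x) (sig0 = arsinh (T x)): sinh sig0/cosh sig0 = s(x) <= sinh(th 0)/cosh(th 0) gives sig0 <= th 0; FF X0 V x sig0 = 0, zz X0 V x sig0 = emb x 0 (fuchs6). |sig0 - th 0| <= th 0 <= B (cosh th 0 <= 1/c0 <= cosh B). The same at s: sig1. Let D >= 0 with cosh D = -eta x x' (eta_le; e.g. exists from arcosh) = -q (emb x 0)(emb x' 0) (embq6). len6 (t.p.g0, V, hN = t.p.S0n, q V V = -1 by snprops6): D <= sum l i + 2B = s + 2B. So -eta x x' = cosh D <= cosh(s + C).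
-/
theorem plus6 {κ ι : Type*} (t : TT κ ι) {N : V4} (hN : N ∈ Dual t.p.S) {ξ₁ ξ₂ : V4} (h₁ : ξ₁ ∈ Lam t.p.S) (h₂ : ξ₂ ∈ Lam t.p.S)
    (h : q ξ₁ ξ₂ = -1/2) (h1N : q ξ₁ N = 0) (h2N : q ξ₂ N = 0) (hO : Opp t.p.S N ξ₁) :
    ∃ C : ℝ, 0 ≤ C ∧ ∀ s : ℝ, 0 ≤ s → ∀ x ∈ H2, ∀ x' ∈ H2, ∀ τ τ' : ℝ, 0 < τ → 0 < τ' →
      ξ₁ + ξ₂ + τ • N = Real.sqrt (1 + τ ^ 2) • t.p.S.s.X x →
      Real.exp s • ξ₁ + Real.exp (-s) • ξ₂ + τ' • N = Real.sqrt (1 + τ' ^ 2) • t.p.S.s.X x' →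
      -eta x x' ≤ Real.cosh (s + C) := by
  have h11 : q ξ₁ ξ₁ = 0 := h₁.2.1
  have h22 : q ξ₂ ξ₂ = 0 := h₂.2.1
  have hNN : q N N = -1 := hN.1
  obtain ⟨xs, ts, hcx, hv⟩ := vert_path6 t.p.S hN h₁ h₂ h h1N h2N hO
  have hvv : ∀ r, plus6_Vert t.p.S.s.X N ξ₁ ξ₂ r (xs r) (ts r) := fun r => hv r
  obtain ⟨c₀, hc₀, hfl⟩ := flow6 t.p.S
  obtain ⟨B, hB0, hB⟩ : ∃ B : ℝ, 0 ≤ B ∧ 1 / c₀ ≤ Real.cosh B := by
    refine ⟨2 / c₀, by positivity, ?_⟩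
    have a1 := Real.add_one_le_exp (2 / c₀)
    have a2 := Real.exp_pos (-(2 / c₀))
    rw [Real.cosh_eq]
    have a3 : 2 / c₀ = 2 * (1 / c₀) := by ring
    linarith
  refine ⟨2 * B, by positivity, ?_⟩
  intro s hs x hx x' hx' τ τ' hτ hτ' hxt hxt'
  have hx0 : τ = ts 0 ∧ x = xs 0 := by
    refine vert_uniq6 t.p.S.g (γ := Real.exp 0 • ξ₁ + Real.exp (-0) • ξ₂) (N := N) ?_ hNN ?_ hx (hv 0).1
      hτ.le (hv 0).2.1.le ?_ (hv 0).2.2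
    · rw [plus6_gg h11 h22 h]; simp
    · exact plus6_gN h1N h2N 0
    · simpa using hxt
  have hx1 : τ' = ts s ∧ x' = xs s := by
    refine vert_uniq6 t.p.S.g (γ := Real.exp s • ξ₁ + Real.exp (-s) • ξ₂) (N := N) ?_ hNN ?_ hx' (hv s).1
      hτ'.le (hv s).2.1.le hxt' (hv s).2.2
    · rw [plus6_gg h11 h22 h]; simp
    · exact plus6_gN h1N h2N s
  have hcb : ∀ r, Real.sqrt (1 + ts r ^ 2) ≤ Real.cosh B := by
    intro r
    have a1 := plus6_Xg h11 h22 h h1N h2N (hvv r)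
    have a2 := hfl _ (Lam_smul6 t.p.S h₁ (Real.exp_pos r)) _
      (Lam_smul6 t.p.S h₂ (Real.exp_pos (-r)))
      (by rw [plus6_q_smul_left, plus6_q_smul_right, h, ← mul_assoc, ← Real.exp_add]; simp)
      (xs r) (hv r).1
    refine le_trans ?_ hB
    rw [le_div_iff₀ hc₀]
    have a3 : 0 < Real.sqrt (1 + ts r ^ 2) := Real.sqrt_pos.2 (by positivity)
    have a4 := mul_le_mul_of_nonneg_left a2 a3.le
    linarith
  have hthB : ∀ r, Real.arsinh (ts r) ≤ B := by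
    intro r
    have h9 : Real.cosh (Real.arsinh (ts r)) ≤ Real.cosh B := by
      rw [Real.cosh_arsinh]; exact hcb r
    have h10 := Real.cosh_le_cosh.1 h9
    rw [abs_of_nonneg hB0] at h10
    exact (le_abs_self _).trans h10
  have hsn : ∀ r, Real.sqrt (1 + ts r ^ 2) * sn t.p.T (xs r) ≤ ts r := by
    intro r
    have a1 := upper6 t hN h₁ h1N hO (hv r).1
    have a2 := plus6_XN hNN h1N h2N (hvv r)
    have a3 : 0 < Real.sqrt (1 + ts r ^ 2) := Real.sqrt_pos.2 (by positivity)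
    have a4 := mul_le_mul_of_nonneg_left a1 a3.le
    linarith
  have hTts : ∀ r, t.p.T (xs r) ≤ ts r := by
    intro r
    exact plus6_sq (t.p.T_pos _ (hv r).1) (hv r).2.1 (hsn r)
  have hend : ∀ r, |Real.arsinh (t.p.T (xs r)) - Real.arsinh (ts r)| ≤ B := by
    intro r
    have b1 : 0 ≤ Real.arsinh (t.p.T (xs r)) := by
      rw [Real.arsinh_nonneg_iff]; exact (t.p.T_pos _ (hv r).1).le
    have b2 : Real.arsinh (t.p.T (xs r)) ≤ Real.arsinh (ts r) := Real.arsinh_le_arsinh.2 (hTts r)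
    have b3 := hthB r
    rw [abs_le]
    constructor <;> linarith
  obtain ⟨n, σs, hσ0, hσn, hσb, hσs⟩ := chain_gen t.p.pg.sub hs hcx.continuousOn
    (fun r _ _ => (hv r).1) (δ := 1) one_pos
  obtain ⟨w, hw⟩ : ∃ w : ℕ → V3 × ℝ, w = fun i => (xs (σs i), Real.arsinh (ts (σs i))) := ⟨_, rfl⟩
  have hwi : ∀ i, w i = (xs (σs i), Real.arsinh (ts (σs i))) := fun i => by rw [hw]
  have hadm : Adm t.p.S0.X (t.p.σ • EE) n w := by
    intro i _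
    rw [hwi]
    refine ⟨(hv _).1, ?_⟩
    simp only
    rw [t.p.S0X, (fuchs6 t.p (hv _).1).1, Real.sinh_arsinh, Real.cosh_arsinh]
    have := hsn (σs i)
    linarith
  have hseg : ∀ i < n, Seg t.p.S0.X (w i).1 (w (i + 1)).1 := by
    intro i hi
    obtain ⟨j, hj1, hj2⟩ := (hσs i hi).2.2
    rw [hwi, hwi, t.p.S0X]
    exact seg6 t.p.pg0 (hv _).1 (hv _).1 hj1 hj2
  have hl : ∀ i < n, 0 ≤ σs (i + 1) - σs i ∧
      WE t.p.S0.X (w i).1 (w i).2 (w (i + 1)).1 (w (i + 1)).2 ≤ Real.cosh (σs (i + 1) - σs i) - 1 := by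
    intro i hi
    obtain ⟨h1, _, j, hj1, hj2⟩ := hσs i hi
    refine ⟨by linarith, ?_⟩
    rw [hwi, hwi]
    simp only
    have a1 := plus6_WE hNN h11 h22 h h1N h2N (hvv (σs i)) (hvv (σs (i + 1)))
    have a2 := (same_nrm t.p.met hj1 hj2 hj1).1
    unfold WE at a1 ⊢
    rw [t.p.SX] at a1
    rw [t.p.S0X, ← a2, a1, ← Real.cosh_neg, neg_sub]
  have hDex : ∃ D : ℝ, 0 ≤ D ∧ Real.cosh D = -eta x x' := by
    have a1 := eta_le hx hx'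
    have a2 : ∃ b : ℝ, 0 ≤ b ∧ -eta x x' ≤ Real.cosh b := by
      refine ⟨2 * (-eta x x'), by linarith, ?_⟩
      have b1 := Real.add_one_le_exp (2 * (-eta x x'))
      have b2 := Real.exp_pos (-(2 * (-eta x x')))
      rw [Real.cosh_eq]
      linarith
    obtain ⟨b, hb1, hb2⟩ := a2
    have h3 := intermediate_value_Icc hb1 Real.continuous_cosh.continuousOn
    obtain ⟨d, hd, hd2⟩ := h3 ⟨by rw [Real.cosh_zero]; linarith, hb2⟩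
    exact ⟨d, hd.1, hd2⟩
  obtain ⟨D, hD0, hD⟩ := hDex
  have hfin := len6 t.p.g0 (snprops6 t.p).1 t.p.S0n hadm hseg hl
    (t₀ := Real.arsinh (t.p.T x)) (tn := Real.arsinh (t.p.T x'))
    (by
      rw [hwi, hσ0, t.p.S0X]
      simp only
      rw [← hx0.2, (fuchs6 t.p hx).1, plus6_sn]
      ring)
    (by
      rw [hwi, hσn, t.p.S0X]
      simp only
      rw [← hx1.2, (fuchs6 t.p hx').1, plus6_sn]
      ring)
    hD0
    (by
      rw [hwi, hwi, hσ0, hσn, t.p.S0X]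
      simp only
      rw [← hx0.2, ← hx1.2, ((fuchs6 t.p hx).2 _ (plus6_sn _ _)).1,
        ((fuchs6 t.p hx').2 _ (plus6_sn _ _)).1, embq6, hD]
      ring)
  rw [hwi, hwi, hσ0, hσn, Finset.sum_range_sub, hσ0, hσn] at hfin
  simp only at hfin
  have e0 := hend 0
  have e1 := hend s
  rw [← hx0.2] at e0
  rw [← hx1.2] at e1
  have hDle : D ≤ s + 2 * B := by linarith
  rw [← hD, Real.cosh_le_cosh, abs_of_nonneg hD0, abs_of_nonneg (hD0.trans hDle)]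
  exact hDle

end A_plus6

alias plus6 := A_plus6.plus6

end Helper935.Poly
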