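import Pool.Agent.Helper935_AdS.PPairA
import Pool.Agent.Helper935_AdS.PDiscB

namespace Helper935.Poly

namespace A_mstep6

/- Proof:
X0 = nrm (Y0 sigma T), X0 x = (sqrt(1+T^2))^-1 emb x (sigma T x), c_x = (sqrt(1+T x^2))^-1, s_x = sn T x = c_x T x, c_x^2 + s_x^2 = 1. q (X0 x)(X0 y) = c_x c_y eta x y - s_x s_y (sigma^2 = 1, embq6). k = cosh t c_x, k' = cosh s c_y. k^2 = cosh^2 t (1 - s_x^2) = cosh^2 t - (sinh t + e)^2 = 1 - 2 e sinh t - e^2. WE = cosh t cosh s (c_x c_y (-eta x y) + s_x s_y) - sinh t sinh s - 1 = k k' (-eta x y) + (sinh t + e)(sinh s + e) - sinh t sinh s - 1 = k k' (-eta x y) + e (sinh t + sinh s) + e^2 - 1 = k k' (-eta x y) - (k^2 + k'^2)/2.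
-/
theorem mstep6 {ι : Type*} (A : PT ι) {x y : V3} (hx : x ∈ H2) (hy : y ∈ H2) {t s e : ℝ}
    (ht : Real.sinh t = sn A.T x * Real.cosh t - e) (hs : Real.sinh s = sn A.T y * Real.cosh s - e) :
    WE (nrm (Y0 A.σ A.T)) x t y s
      = (Real.cosh t * (Real.sqrt (1 + A.T x ^ 2))⁻¹) * (Real.cosh s * (Real.sqrt (1 + A.T y ^ 2))⁻¹) * (-eta x y)
      - ((Real.cosh t * (Real.sqrt (1 + A.T x ^ 2))⁻¹) ^ 2 + (Real.cosh s * (Real.sqrt (1 + A.T y ^ 2))⁻¹) ^ 2) / 2 ∧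
    (Real.cosh t * (Real.sqrt (1 + A.T x ^ 2))⁻¹) ^ 2 = 1 - 2 * e * Real.sinh t - e ^ 2 := by
  have hh := (snprops6 A).2.1
  have hσ : A.σ ^ 2 = 1 := by
    rcases A.sig with h | h <;> rw [h] <;> norm_num
  obtain ⟨-, -, -, -, hx5, hx6⟩ := hh x hx
  obtain ⟨-, -, -, -, hy5, hy6⟩ := hh y hy
  have ct : Real.cosh t ^ 2 = Real.sinh t ^ 2 + 1 := Real.cosh_sq t
  have cs : Real.cosh s ^ 2 = Real.sinh s ^ 2 + 1 := Real.cosh_sq s
  have hn : ∀ z ∈ H2, nrm (Y0 A.σ A.T) z = (Real.sqrt (1 + A.T z ^ 2))⁻¹ • emb z (A.σ * A.T z) := by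
    intro z hz
    unfold nrm Y0
    rw [embq6, hz.1]
    have h1 : -(-1 - A.σ * A.T z * (A.σ * A.T z)) = 1 + A.T z ^ 2 := by
      linear_combination A.T z ^ 2 * hσ
    rw [h1]
  have hqs : ∀ (a b : ℝ) (Z W : V4), q (a • Z) (b • W) = a * b * q Z W := by
    intro a b Z W
    simp only [q, Pi.smul_apply, smul_eq_mul]
    ring
  have hq : q (nrm (Y0 A.σ A.T) x) (nrm (Y0 A.σ A.T) y) =
      (Real.sqrt (1 + A.T x ^ 2))⁻¹ * (Real.sqrt (1 + A.T y ^ 2))⁻¹ * eta x y - sn A.T x * sn A.T y := by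
    rw [hn x hx, hn y hy, hqs, embq6, hx5, hy5]
    linear_combination (-(Real.sqrt (1 + A.T x ^ 2))⁻¹ * (Real.sqrt (1 + A.T y ^ 2))⁻¹ * A.T x * A.T y) * hσ
  set cx := (Real.sqrt (1 + A.T x ^ 2))⁻¹ with hcx
  set cy := (Real.sqrt (1 + A.T y ^ 2))⁻¹ with hcy
  have kt : (Real.cosh t * cx) ^ 2 = 1 - 2 * e * Real.sinh t - e ^ 2 := by
    have h1 : (Real.cosh t * cx) ^ 2 = Real.cosh t ^ 2 * (1 - sn A.T x ^ 2) := by
      rw [← hx6]; ring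
    have h2 : sn A.T x * Real.cosh t = Real.sinh t + e := by linarith
    have h3 : Real.cosh t ^ 2 * (1 - sn A.T x ^ 2) = Real.cosh t ^ 2 - (sn A.T x * Real.cosh t) ^ 2 := by
      ring
    rw [h1, h3, h2, ct]
    ring
  have ks : (Real.cosh s * cy) ^ 2 = 1 - 2 * e * Real.sinh s - e ^ 2 := by
    have h1 : (Real.cosh s * cy) ^ 2 = Real.cosh s ^ 2 * (1 - sn A.T y ^ 2) := by
      rw [← hy6]; ring
    have h2 : sn A.T y * Real.cosh s = Real.sinh s + e := by linarith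
    have h3 : Real.cosh s ^ 2 * (1 - sn A.T y ^ 2) = Real.cosh s ^ 2 - (sn A.T y * Real.cosh s) ^ 2 := by
      ring
    rw [h1, h3, h2, cs]
    ring
  refine ⟨?_, kt⟩
  have h4 : sn A.T x * Real.cosh t = Real.sinh t + e := by linarith
  have h5 : sn A.T y * Real.cosh s = Real.sinh s + e := by linarith
  have h6 : Real.cosh t * Real.cosh s * (sn A.T x * sn A.T y) = (Real.sinh t + e) * (Real.sinh s + e) := by
    rw [← h4, ← h5]; ring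
  unfold WE
  rw [hq, kt, ks]
  linear_combination h6

end A_mstep6

alias mstep6 := A_mstep6.mstep6

namespace A_coshmul6

/- Proof:
cosh(th d) - 1 >= th^2 d^2/2. cosh d - 1 <= (d^2/2) cosh d. Choose delta with cosh delta <= (th/th0)^2 (continuity at 0, th > th0 > 0).
-/
theorem coshmul6 {θ₀ θ : ℝ} (h0 : 0 < θ₀) (h : θ₀ < θ) : ∃ δ : ℝ, 0 < δ ∧ ∀ d : ℝ, 0 ≤ d → d ≤ δ →
    θ₀ ^ 2 * (Real.cosh d - 1) ≤ Real.cosh (θ * d) - 1 := by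
  have hθ : 0 < θ := h0.trans h
  -- lower bound for cosh
  have key : ∀ x : ℝ, Real.cosh x - 1 = 2 * (Real.sinh (x / 2)) ^ 2 := by
    intro x
    have h1 := Real.cosh_two_mul (x / 2)
    have h2 := Real.cosh_sq (x / 2)
    have h3 : 2 * (x / 2) = x := by ring
    rw [h3] at h1
    nlinarith [h1, h2]
  have low : ∀ x : ℝ, 0 ≤ x → x ^ 2 / 2 ≤ Real.cosh x - 1 := by
    intro x hx
    rw [key x]
    have h1 : x / 2 ≤ Real.sinh (x / 2) := Real.self_le_sinh_iff.mpr (by positivity)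
    nlinarith [h1, hx]
  have upS : ∀ x : ℝ, 0 ≤ x → Real.sinh x ≤ x * Real.cosh x := by
    intro x hx
    have hmono : MonotoneOn (fun t : ℝ => t * Real.cosh t - Real.sinh t) (Set.Ici 0) := by
      apply monotoneOn_of_deriv_nonneg (convex_Ici 0)
      · exact (continuous_id.mul Real.continuous_cosh |>.sub Real.continuous_sinh).continuousOn
      · intro t _
        exact ((differentiableAt_id.mul Real.differentiable_cosh.differentiableAt).sub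
          Real.differentiable_sinh.differentiableAt).differentiableWithinAt
      · intro t ht
        rw [interior_Ici] at ht
        have hd : HasDerivAt (fun t : ℝ => t * Real.cosh t - Real.sinh t)
            (1 * Real.cosh t + t * Real.sinh t - Real.cosh t) t :=
          ((hasDerivAt_id t).mul (Real.hasDerivAt_cosh t)).sub (Real.hasDerivAt_sinh t)
        rw [hd.deriv]
        have : 0 ≤ Real.sinh t := Real.sinh_nonneg_iff.mpr (le_of_lt ht)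
        have ht' : (0:ℝ) < t := ht
        nlinarith [mul_nonneg ht'.le this]
    have := hmono (Set.mem_Ici.mpr le_rfl) (Set.mem_Ici.mpr hx) hx
    simp at this
    linarith
  have up : ∀ x : ℝ, 0 ≤ x → Real.cosh x - 1 ≤ x ^ 2 / 2 * Real.cosh x ^ 2 := by
    intro x hx
    rw [key x]
    have hx2 : 0 ≤ x / 2 := by positivity
    have h1 : Real.sinh (x / 2) ≤ x / 2 * Real.cosh (x / 2) := upS _ hx2
    have h2 : 0 ≤ Real.sinh (x / 2) := Real.sinh_nonneg_iff.mpr hx2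
    have h3 : Real.cosh (x / 2) ≤ Real.cosh x := by
      rw [Real.cosh_le_cosh, abs_of_nonneg hx2, abs_of_nonneg hx]; linarith
    have h4 : 0 < Real.cosh (x / 2) := Real.cosh_pos _
    have h5 : Real.sinh (x / 2) ≤ x / 2 * Real.cosh x :=
      h1.trans (mul_le_mul_of_nonneg_left h3 hx2)
    have h6 : Real.sinh (x / 2) ^ 2 ≤ (x / 2 * Real.cosh x) ^ 2 := pow_le_pow_left₀ h2 h5 2
    nlinarith [h6]
  -- continuity of cosh ^ 2 at 0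
  have hc : ∀ᶠ x in nhds (0:ℝ), Real.cosh x ^ 2 < (θ / θ₀) ^ 2 := by
    have hcont : ContinuousAt (fun x : ℝ => Real.cosh x ^ 2) 0 :=
      (Real.continuous_cosh.pow 2).continuousAt
    apply hcont.eventually_lt continuousAt_const
    simp only [Real.cosh_zero]
    have : 1 < θ / θ₀ := (one_lt_div h0).mpr h
    nlinarith
  obtain ⟨ε, hε, hball⟩ := Metric.eventually_nhds_iff.mp hc
  refine ⟨ε / 2, by positivity, ?_⟩
  intro d hd hdδ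
  have hdist : dist d 0 < ε := by
    rw [Real.dist_eq, sub_zero, abs_of_nonneg hd]; linarith
  have h1 := hball hdist
  have h2 := up d hd
  have h3 := low (θ * d) (mul_nonneg hθ.le hd)
  have h4 : θ₀ ^ 2 * Real.cosh d ^ 2 ≤ θ ^ 2 := by
    rw [div_pow, lt_div_iff₀ (by positivity)] at h1
    linarith
  have h5 : θ₀ ^ 2 * (d ^ 2 / 2 * Real.cosh d ^ 2) ≤ θ ^ 2 * (d ^ 2 / 2) := by
    have := mul_le_mul_of_nonneg_right h4 (by positivity : (0:ℝ) ≤ d ^ 2 / 2)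
    nlinarith [this]
  have h6 : θ₀ ^ 2 * (Real.cosh d - 1) ≤ θ₀ ^ 2 * (d ^ 2 / 2 * Real.cosh d ^ 2) :=
    mul_le_mul_of_nonneg_left h2 (by positivity)
  nlinarith [h3, h5, h6]

end A_coshmul6

alias coshmul6 := A_coshmul6.coshmul6

namespace A_minus6

theorem mi6_q_neg_left (X Z : V4) : q (-X) Z = - q X Z := by
  simp only [q, Pi.neg_apply]; ring

theorem mi6_q_comm (X Z : V4) : q X Z = q Z X := by
  simp only [q]; ring

theorem mi6_arcosh {r : ℝ} (hr : 1 ≤ r) : ∃ T : ℝ, 0 ≤ T ∧ Real.cosh T = r := by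
  refine ⟨Real.arsinh (Real.sqrt (r ^ 2 - 1)), ?_, ?_⟩
  · rw [Real.arsinh_nonneg_iff]; exact Real.sqrt_nonneg _
  · rw [Real.cosh_arsinh, Real.sq_sqrt (by nlinarith)]
    have : 1 + (r ^ 2 - 1) = r ^ 2 := by ring
    rw [this, Real.sqrt_sq (by linarith)]

theorem mi6_tau {v s c : ℝ} (hv : 0 ≤ v) (hvs : v < s) (hc : 0 < c) (h : c ^ 2 + s ^ 2 = 1) :
    ∃ τ : ℝ, 0 ≤ τ ∧ Real.sinh τ = Real.cosh τ * v ∧ Real.cosh τ ≤ 1 / c := by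
  have h1 : c ^ 2 ≤ 1 - v ^ 2 := by nlinarith
  have h2 : 0 < 1 - v ^ 2 := by nlinarith [pow_pos hc 2]
  set R := Real.sqrt (1 - v ^ 2) with hR
  have hR0 : 0 < R := Real.sqrt_pos.2 h2
  have hRR : R ^ 2 = 1 - v ^ 2 := Real.sq_sqrt h2.le
  have hcR : c ≤ R := Real.le_sqrt_of_sq_le h1
  have hch : Real.cosh (Real.arsinh (v / R)) = 1 / R := by
    rw [Real.cosh_arsinh]
    have : 1 + (v / R) ^ 2 = (1 / R) ^ 2 := by
      field_simp; rw [hRR]; ring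
    rw [this, Real.sqrt_sq (by positivity)]
  refine ⟨Real.arsinh (v / R), ?_, ?_, ?_⟩
  · rw [Real.arsinh_nonneg_iff]; positivity
  · rw [hch, Real.sinh_arsinh]; ring
  · rw [hch]; exact one_div_le_one_div_of_le hc hcR

theorem ma6_adm {sh ch sm qq e ε : ℝ} (h : sh = sm * ch - e) (h1 : qq ≤ sm - ε) (h2 : 1 ≤ ch)
    (hε : 0 < ε) (heε : e ≤ ε) : 0 ≤ sh - ch * qq := by
  have h3 := mul_le_mul_of_nonneg_left h1 (by linarith : 0 ≤ ch)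
  have h4 := mul_le_mul_of_nonneg_left h2 hε.le
  rw [h]
  linarith

theorem ma6_es {e s₁ : ℝ} (he : 0 < e) (hs : 0 < s₁) (hes : e ≤ s₁ / 2) (h1 : s₁ ≤ 1) :
    e * s₁ ≤ 1 / 2 := by
  have := mul_le_mul_of_nonneg_left h1 he.le
  linarith

theorem ma6_th {x : ℝ} (h0 : 0 < x) (h1 : x ≤ 1 / 2) :
    ∃ th : ℝ, 0 < th ∧ th < 1 ∧ th ^ 2 = 1 - x := by
  refine ⟨Real.sqrt (1 - x), Real.sqrt_pos.2 (by linarith), ?_, Real.sq_sqrt (by linarith)⟩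
  rw [Real.sqrt_lt' one_pos]; linarith

theorem ma6_k {sh ch sm e s₁ : ℝ} (h : sh = sm * ch - e) (hc : 1 ≤ ch) (hs : 0 < s₁) (h1 : s₁ ≤ sm)
    (he : 0 < e) (hes : e ≤ s₁ / 2) : 1 - 2 * e * sh - e ^ 2 ≤ 1 - e * s₁ := by
  have h2 := mul_le_mul_of_nonneg_left hc (by linarith : 0 ≤ sm)
  have h4 : s₁ / 2 ≤ sh := by rw [h]; linarith
  have h5 := mul_le_mul_of_nonneg_left h4 he.le
  have h6 := sq_nonneg e
  linarith

theorem ma6_we {a b t c : ℝ} (ha : a ^ 2 ≤ t) (hb : b ^ 2 ≤ t) (hc : 1 ≤ c) :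
    a * b * c - (a ^ 2 + b ^ 2) / 2 ≤ t * (c - 1) := by
  have h0 := sq_nonneg (a - b)
  have h1 : (a - b) ^ 2 = a ^ 2 + b ^ 2 - 2 * (a * b) := by ring
  rw [h1] at h0
  have h5 : a * b ≤ t := by linarith
  have h7 := mul_le_mul_of_nonneg_right h5 (by linarith : 0 ≤ c - 1)
  have h8 : a * b * (c - 1) = a * b * c - a * b := by ring
  rw [h8] at h7
  linarith

theorem ma6_B {s₁ : ℝ} (hs : 0 < s₁) : ∃ B : ℝ, 0 ≤ B ∧ (∀ τ : ℝ, 0 ≤ τ → Real.cosh τ ≤ 1 / s₁ → τ ≤ B) := by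
  refine ⟨Real.arsinh (1 / s₁), ?_, ?_⟩
  · rw [Real.arsinh_nonneg_iff]; positivity
  · intro τ hτ h
    have hB : 0 ≤ Real.arsinh (1 / s₁) := by rw [Real.arsinh_nonneg_iff]; positivity
    have hBc : 1 / s₁ ≤ Real.cosh (Real.arsinh (1 / s₁)) := by
      rw [Real.cosh_arsinh]
      apply Real.le_sqrt_of_sq_le
      linarith
    have := Real.cosh_le_cosh.1 (h.trans hBc)
    rwa [abs_of_nonneg hτ, abs_of_nonneg hB] at this

theorem ma6_fin {a₀ a₁ c₀ c₁ T E s₁ C₀ θD : ℝ} (h0 : a₀ < 0) (h1 : a₁ < 0) (hc0 : 0 < c₀)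
    (hc0s : c₀ ≤ 1 / s₁) (hc1 : 1 ≤ c₁) (hT : T ≤ θD + C₀) (hE : Real.exp θD = E)
    (h : -(c₁ * a₁) ≤ Real.exp T * -(c₀ * a₀)) :
    -a₁ ≤ Real.exp C₀ / s₁ * E * -a₀ := by
  have e1 : -a₁ ≤ -(c₁ * a₁) := by
    have := mul_le_mul_of_nonneg_right hc1 (by linarith : 0 ≤ -a₁)
    linarith
  have e3 : Real.exp T ≤ Real.exp (θD + C₀) := Real.exp_le_exp.2 hT
  have e4 : -(c₀ * a₀) ≤ (1 / s₁) * -a₀ := by
    have := mul_le_mul_of_nonneg_right hc0s (by linarith : 0 ≤ -a₀)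
    linarith
  have e5 : 0 ≤ -(c₀ * a₀) := by
    have := mul_nonneg hc0.le (by linarith : 0 ≤ -a₀)
    linarith
  have e6 : Real.exp (θD + C₀) * ((1 / s₁) * -a₀) = Real.exp C₀ / s₁ * E * -a₀ := by
    rw [Real.exp_add, hE]; ring
  have e7 := mul_le_mul e3 e4 e5 (Real.exp_pos _).le
  rw [e6] at e7
  exact e1.trans (h.trans e7)

theorem ma6_zz {X : V3 → V4} {V ξ : V4} (h : q V ξ = 0) (y : V3) (t : ℝ) :
    q (zz X V y t) ξ = Real.cosh t * q (X y) ξ := by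
  have h2 : q (zz X V y t) ξ = Real.cosh t * q (X y) ξ - Real.sinh t * q V ξ := by
    simp only [zz, q, Pi.sub_apply, Pi.smul_apply, smul_eq_mul]; ring
  rw [h2, h]; ring

/-- bounded part -/
theorem ma6_end {X : V3 → V4} {V N : V4} (hFF : ∀ x t, FF X V x t = Real.sinh t - Real.cosh t * q (X x) N)
    {s₁ B : ℝ} (hs₁ : 0 < s₁) (hleB : ∀ τ : ℝ, 0 ≤ τ → Real.cosh τ ≤ 1 / s₁ → τ ≤ B)
    {y : V3} {t c s : ℝ} (ht0 : 0 ≤ t) (htc : Real.cosh t ≤ 1 / c) (h2 : s₁ ≤ c)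
    (hcs : c ^ 2 + s ^ 2 = 1) (hv : 0 ≤ q (X y) N) (hvs : q (X y) N < s) :
    ∃ τ : ℝ, 0 ≤ τ ∧ FF X V y τ = 0 ∧ Real.cosh τ ≤ 1 / s₁ ∧ |τ - t| ≤ B := by
  obtain ⟨τ, hτ0, hτ1, hτ2⟩ := mi6_tau hv hvs (lt_of_lt_of_le hs₁ h2) hcs
  have h3 : 1 / c ≤ 1 / s₁ := one_div_le_one_div_of_le hs₁ h2
  have h4 : τ ≤ B := hleB τ hτ0 (hτ2.trans h3)
  have h5 : t ≤ B := hleB _ ht0 (htc.trans h3)
  refine ⟨τ, hτ0, ?_, hτ2.trans h3, ?_⟩
  · rw [hFF, hτ1]; ring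
  · rw [abs_le]; constructor <;> linarith

/-- the energy of a chord in a cell is the same for the two surfaces -/
theorem ma6_met {ι : Type*} (A : PT ι) {x y : V3} {j : ι} (hx : x ∈ A.C j) (hy : y ∈ A.C j) (t s : ℝ) :
    WE A.S.s.X x t y s = WE (nrm (Y0 A.σ A.T)) x t y s := by
  have h := (same_nrm A.met hx hy hx).1
  simp only [WE]
  rw [A.SX, h]

theorem minus6 {κ ι : Type*} (t : TT κ ι) {N : V4} (hNN : q N N = -1) {ε : ℝ} (hε : 0 < ε)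
    (hgap : ∀ y ∈ H2, q (t.m.S.s.X y) N ≤ sn t.m.T y - ε) (hneg : ∀ y ∈ H2, ∀ n ∈ t.m.S.s.Nr y, q n N < 0) {ξ : V4}
    (hξ : ξ ∈ Lam t.p.S) (hξN : q ξ N = 0) :
    ∃ θ C : ℝ, 0 < θ ∧ θ < 1 ∧ 0 < C ∧ ∀ y₀ ∈ H2, ∀ y₁ ∈ H2, 0 ≤ q (t.m.S.s.X y₀) N → 0 ≤ q (t.m.S.s.X y₁) N →
      ∀ D : ℝ, 0 ≤ D → -eta y₀ y₁ ≤ Real.cosh D →
      -q (t.m.S.s.X y₁) ξ ≤ C * Real.exp (θ * D) * -q (t.m.S.s.X y₀) ξ := by
  obtain ⟨-, hh, -, -, s₀, hs₀, hs₀'⟩ := snprops6 t.m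
  obtain ⟨cm, hcm⟩ : ∃ cm : V3 → ℝ, cm = fun x => (Real.sqrt (1 + t.m.T x ^ 2))⁻¹ := ⟨_, rfl⟩
  have hcm' : ∀ x, (Real.sqrt (1 + t.m.T x ^ 2))⁻¹ = cm x := fun x => by rw [hcm]
  obtain ⟨s₁, hs₁, hs₁1, hs₁'⟩ : ∃ s₁ : ℝ, 0 < s₁ ∧ s₁ ≤ 1 ∧ ∀ x ∈ H2, s₁ ≤ sn t.m.T x ∧ s₁ ≤ cm x := by
    refine ⟨min s₀ 1, lt_min hs₀ one_pos, min_le_right _ _, fun x hx => ?_⟩
    obtain ⟨h1, h3, -⟩ := hs₀' x hx
    rw [hcm'] at h3
    exact ⟨(min_le_left _ _).trans h1, (min_le_left _ _).trans h3⟩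
  have hcs : ∀ x ∈ H2, cm x ^ 2 + sn t.m.T x ^ 2 = 1 := by
    intro x hx
    have h := (hh x hx).2.2.2.2.2
    rwa [hcm'] at h
  obtain ⟨V, hVdef⟩ : ∃ V : V4, V = -N := ⟨_, rfl⟩
  have hVV : q V V = -1 := by
    rw [hVdef, mi6_q_neg_left, mi6_q_comm, mi6_q_neg_left, hNN]; ring
  have hqV : ∀ X : V4, q X V = - q X N := by
    intro X; rw [mi6_q_comm, hVdef, mi6_q_neg_left, mi6_q_comm]
  have hNV : ∀ x ∈ H2, ∀ n ∈ t.m.S.s.Nr x, 0 < q n V := by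
    intro x hx n hn; rw [hqV]; exact neg_pos.2 (hneg x hx n hn)
  have hFF : ∀ x r, FF t.m.S.s.X V x r = Real.sinh r - Real.cosh r * q (t.m.S.s.X x) N := by
    intro x r; simp only [FF]; rw [hqV]; ring
  obtain ⟨e, he, heε, hes⟩ : ∃ e : ℝ, 0 < e ∧ e ≤ ε ∧ e ≤ s₁ / 2 :=
    ⟨min ε (s₁ / 2), lt_min hε (by linarith), min_le_left _ _, min_le_right _ _⟩
  have hlev : ∀ x : V3, x ∈ H2 → ∃ r : ℝ, 0 ≤ r ∧ Real.sinh r = sn t.m.T x * Real.cosh r - e ∧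
      Real.cosh r ≤ 1 / cm x := by
    intro x hx
    obtain ⟨h1, h2⟩ := hs₁' x hx
    exact level (lt_of_lt_of_le hs₁ h1) (lt_of_lt_of_le hs₁ h2) (hcs x hx) he (by linarith)
  choose! tt htt0 htt1 htt2 using hlev
  have hadm : ∀ x ∈ H2, 0 ≤ FF t.m.S.s.X V x (tt x) := by
    intro x hx
    rw [hFF]
    exact ma6_adm (htt1 x hx) (hgap x hx) (Real.one_le_cosh _) hε heε
  obtain ⟨th, hth0, hth1, hth2⟩ := ma6_th (mul_pos he hs₁) (ma6_es he hs₁ hes hs₁1)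
  have hk : ∀ x ∈ H2, (Real.cosh (tt x) * cm x) ^ 2 ≤ th ^ 2 := by
    intro x hx
    obtain ⟨-, h1⟩ := mstep6 t.m hx hx (htt1 x hx) (htt1 x hx)
    rw [hcm'] at h1
    rw [h1, hth2]
    exact ma6_k (htt1 x hx) (Real.one_le_cosh _) hs₁ (hs₁' x hx).1 he hes
  have hWE0 : ∀ x ∈ H2, ∀ y ∈ H2, ∀ d : ℝ, -eta x y = Real.cosh d →
      WE (nrm (Y0 t.m.σ t.m.T)) x (tt x) y (tt y) ≤ th ^ 2 * (Real.cosh d - 1) := by
    intro x hx y hy d hd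
    obtain ⟨h1, -⟩ := mstep6 t.m hx hy (htt1 x hx) (htt1 y hy)
    rw [h1, hd, hcm', hcm']
    exact ma6_we (hk x hx) (hk y hy) (Real.one_le_cosh d)
  -- `θ` and the step length
  obtain ⟨θ, hθ0, hθ1⟩ := exists_between hth1
  have hθpos : 0 < θ := hth0.trans hθ0
  obtain ⟨δ, hδ, hcosh⟩ := coshmul6 hth0 hθ0
  obtain ⟨B, hB, hleB⟩ := ma6_B hs₁
  refine ⟨θ, Real.exp (2 * B) / s₁, hθpos, hθ1, div_pos (Real.exp_pos _) hs₁, ?_⟩
  intro y₀ hy₀ y₁ hy₁ hv₀ hv₁ D hD hyD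
  obtain ⟨D', u, hD', hu, hgeo⟩ := exists_geo hy₀ hy₁
  have hcD' : -eta y₀ y₁ = Real.cosh D' := by
    rw [← hgeo, eta_geo hy₀ hu]; ring
  have hDD : D' ≤ D := by
    rw [hcD'] at hyD
    have := Real.cosh_le_cosh.1 hyD
    rwa [abs_of_nonneg hD', abs_of_nonneg hD] at this
  -- the subdivision of the geodesic
  have hcont : ContinuousOn (fun r : ℝ => geo y₀ u r) (Set.Icc 0 D') := by
    apply Continuous.continuousOn
    unfold geo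
    exact (Real.continuous_cosh.smul continuous_const).add (Real.continuous_sinh.smul continuous_const)
  obtain ⟨n, s, hs0, hsn, hsI, hsstep⟩ := chain_gen t.m.pg.sub hD' hcont
    (fun r _ _ => geo_mem hy₀ hu r) hδ
  set w : ℕ → V3 × ℝ := fun i => (geo y₀ u (s i), tt (geo y₀ u (s i))) with hw
  have hw0 : (w 0).1 = y₀ := by
    show geo y₀ u (s 0) = y₀
    rw [hs0]; simp [geo]
  have hwn : (w n).1 = y₁ := by
    show geo y₀ u (s n) = y₁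
    rw [hsn, hgeo]
  have hw0' : (w 0).2 = tt y₀ := by
    show tt (w 0).1 = tt y₀
    rw [hw0]
  have hwn' : (w n).2 = tt y₁ := by
    show tt (w n).1 = tt y₁
    rw [hwn]
  have hAdm : Adm t.m.S.s.X V n w := fun i _ => ⟨geo_mem hy₀ hu _, hadm _ (geo_mem hy₀ hu _)⟩
  have hseg : ∀ i < n, Seg t.m.S.s.X (w i).1 (w (i + 1)).1 := by
    intro i hi
    obtain ⟨-, -, j, hj1, hj2⟩ := hsstep i hi
    rw [t.m.SX]
    exact seg6 t.m.pg (geo_mem hy₀ hu _) (geo_mem hy₀ hu _) hj1 hj2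
  have hl : ∀ i < n, 0 ≤ θ * (s (i + 1) - s i) ∧
      WE t.m.S.s.X (w i).1 (w i).2 (w (i + 1)).1 (w (i + 1)).2 ≤
        Real.cosh (θ * (s (i + 1) - s i)) - 1 := by
    intro i hi
    obtain ⟨h1, h2, j, hj1, hj2⟩ := hsstep i hi
    have hd0 : 0 ≤ s (i + 1) - s i := by linarith
    refine ⟨mul_nonneg hθpos.le hd0, ?_⟩
    have h3 : WE t.m.S.s.X (w i).1 (w i).2 (w (i + 1)).1 (w (i + 1)).2 =
        WE (nrm (Y0 t.m.σ t.m.T)) (w i).1 (w i).2 (w (i + 1)).1 (w (i + 1)).2 :=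
      ma6_met t.m hj1 hj2 _ _
    rw [h3]
    have h4 : -eta (geo y₀ u (s i)) (geo y₀ u (s (i + 1))) = Real.cosh (s (i + 1) - s i) := by
      have h5 := (geo_add y₀ u (s i) (s (i + 1) - s i)).1
      rw [add_sub_cancel] at h5
      rw [← h5, eta_geo (geo_mem hy₀ hu _) (geo_UT hy₀ hu _)]; ring
    exact (hWE0 _ (geo_mem hy₀ hu _) _ (geo_mem hy₀ hu _) _ h4).trans
      (hcosh _ hd0 (by linarith))
  have hsum : ∑ i ∈ Finset.range n, θ * (s (i + 1) - s i) = θ * D' := by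
    rw [← Finset.mul_sum, Finset.sum_range_sub, hs0, hsn, sub_zero]
  have hgap' : ∀ y ∈ H2, q (t.m.S.s.X y) N < sn t.m.T y := fun y hy =>
    lt_of_le_of_lt (hgap y hy) (by linarith)
  obtain ⟨τ₀, hτ₀0, hτ₀F, hτ₀c, hτ₀B⟩ := ma6_end hFF hs₁ hleB (htt0 y₀ hy₀) (htt2 y₀ hy₀)
    (hs₁' y₀ hy₀).2 (hcs y₀ hy₀) hv₀ (hgap' y₀ hy₀)
  obtain ⟨τ₁, hτ₁0, hτ₁F, hτ₁c, hτ₁B⟩ := ma6_end hFF hs₁ hleB (htt0 y₁ hy₁) (htt2 y₁ hy₁)
    (hs₁' y₁ hy₁).2 (hcs y₁ hy₁) hv₁ (hgap' y₁ hy₁)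
  obtain ⟨hz1, hz2, hz3⟩ := zz_we6 t.m.S.g hVV hy₀ hy₁ hτ₀F hτ₁F
  obtain ⟨-, hz5, hz6⟩ := zz_we6 t.m.S.g hVV hy₁ hy₀ hτ₁F hτ₀F
  obtain ⟨-, -, -, hwe0⟩ := we_basic6 t.m.S.g hy₀ hy₁ τ₀ τ₁
  have hge : 1 ≤ -q (zz t.m.S.s.X V y₀ τ₀) (zz t.m.S.s.X V y₁ τ₁) := by
    rw [hz1] at hwe0
    exact sub_nonneg.1 hwe0
  obtain ⟨T, hT0, hT⟩ := mi6_arcosh hge
  have hTle := len6 t.m.S.g hVV hNV hAdm hseg hl (t₀ := τ₀) (tn := τ₁) (by rw [hw0]; exact hτ₀F)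
    (by rw [hwn]; exact hτ₁F) hT0 (by rw [hw0, hwn]; exact hT)
  rw [hsum, hw0', hwn'] at hTle
  have hTD : T ≤ θ * D + 2 * B := by
    have h1 : θ * D' ≤ θ * D := mul_le_mul_of_nonneg_left hDD hθpos.le
    linarith
  have hVξ : q V ξ = 0 := by rw [mi6_q_comm, hqV, hξN]; ring
  have hξV : q ξ V = 0 := by rw [hqV, hξN]; ring
  have hξm : ξ ∈ Lam t.m.S := by rw [lamTT6]; exact hξ
  have hX0 := Lam_strict6 t.m.S hξm hy₀
  have hX1 := Lam_strict6 t.m.S hξm hy₁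
  have hbus := q_busemann (ξ := ξ) hVV hz3 hz6 hξ.2.1 hz2 hz5 hξV
    (by rw [ma6_zz hVξ]; exact mul_neg_of_pos_of_neg (Real.cosh_pos _) hX0)
    (by rw [ma6_zz hVξ]; exact mul_neg_of_pos_of_neg (Real.cosh_pos _) hX1) hT0 hT.ge
  rw [ma6_zz hVξ, ma6_zz hVξ] at hbus
  exact ma6_fin hX0 hX1 (Real.cosh_pos _) hτ₀c (Real.one_le_cosh _) hTD rfl hbus

end A_minus6

alias minus6 := A_minus6.minus6

end Helper935.Poly
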