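import Pool.Agent.Helper935_AdS.PLocB

namespace Helper935.Poly

namespace A_ls6

theorem ls6_det3 (x y z : V3) : det3 x y z = x 0 * (y 1 * z 2 - y 2 * z 1)
    - x 1 * (y 0 * z 2 - y 2 * z 0) + x 2 * (y 0 * z 1 - y 1 * z 0) := by
  simp [det3, Matrix.det_fin_three]
  ring

theorem ls6_det_swap (x y z : V3) : det3 x y z = -det3 x z y := by
  simp only [ls6_det3]
  ring

theorem ls6_det_comb2 (x y z : V3) (a b : ℝ) : det3 x (a • x + b • y) z = b * det3 x y z := by
  simp only [ls6_det3, Pi.add_apply, Pi.smul_apply, smul_eq_mul]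
  ring

theorem ls6_det_comb3 (x y z : V3) (a b : ℝ) : det3 x y (a • x + b • z) = b * det3 x y z := by
  simp only [ls6_det3, Pi.add_apply, Pi.smul_apply, smul_eq_mul]
  ring

theorem ls6_det_self (x y : V3) : det3 x y y = 0 := by
  simp only [ls6_det3]
  ring

/-- linear functional with prescribed values on a basis -/
theorem ls6_lin {x y y' : V3} (hd : det3 x y y' ≠ 0) (a b c : ℝ) :
    ∃ l : V3 →ₗ[ℝ] ℝ, l x = a ∧ l y = b ∧ l y' = c := by
  refine ⟨{ toFun := fun w => det3 w y y' / det3 x y y' * a + det3 x w y' / det3 x y y' * b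
              + det3 x y w / det3 x y y' * c
            map_add' := ?_
            map_smul' := ?_ }, ?_, ?_, ?_⟩
  · intro u v
    simp only [ls6_det3, Pi.add_apply]
    ring
  · intro t u
    simp only [ls6_det3, Pi.smul_apply, smul_eq_mul, RingHom.id_apply]
    ring
  · show det3 x y y' / det3 x y y' * a + det3 x x y' / det3 x y y' * b
              + det3 x y x / det3 x y y' * c = a
    have h1 : det3 x x y' = 0 := by simp only [ls6_det3]; ring
    have h2 : det3 x y x = 0 := by simp only [ls6_det3]; ring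
    rw [h1, h2, div_self hd]; ring
  · show det3 y y y' / det3 x y y' * a + det3 x y y' / det3 x y y' * b
              + det3 x y y / det3 x y y' * c = b
    have h1 : det3 y y y' = 0 := by simp only [ls6_det3]; ring
    have h2 : det3 x y y = 0 := by simp only [ls6_det3]; ring
    rw [h1, h2, div_self hd]; ring
  · show det3 y' y y' / det3 x y y' * a + det3 x y' y' / det3 x y y' * b
              + det3 x y y' / det3 x y y' * c = c
    have h1 : det3 y' y y' = 0 := by simp only [ls6_det3]; ring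
    have h2 : det3 x y' y' = 0 := by simp only [ls6_det3]; ring
    rw [h1, h2, div_self hd]; ring

/-- maximal run of positive values between two zeros -/
theorem ls6_run {D : ℕ → ℝ} (h0 : ∀ i, 0 ≤ D i) {a i1 b : ℕ} (ha : a < i1) (hb : i1 < b)
    (hDa : D a = 0) (hDb : D b = 0) (hi : 0 < D i1) :
    ∃ p p', a ≤ p ∧ p + 2 ≤ p' ∧ p' ≤ b ∧ D p = 0 ∧ D p' = 0 ∧ ∀ i, p < i → i < p' → 0 < D i := by
  classical
  set p := Nat.findGreatest (fun i => D i = 0) i1 with hp
  have hp0 : D p = 0 := Nat.findGreatest_spec (P := fun i => D i = 0) ha.le hDa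
  have hap : a ≤ p := Nat.le_findGreatest ha.le hDa
  have hpi : p ≤ i1 := Nat.findGreatest_le i1
  have hpi' : p < i1 := by
    rcases lt_or_eq_of_le hpi with h | h
    · exact h
    · rw [h] at hp0; linarith
  have hex : ∃ i, i1 < i ∧ D i = 0 := ⟨b, hb, hDb⟩
  set p' := Nat.find hex with hp'
  have hs := Nat.find_spec hex
  rw [← hp'] at hs
  refine ⟨p, p', hap, by omega, Nat.find_min' hex ⟨hb, hDb⟩, hp0, hs.2, ?_⟩
  intro i h1 h2
  refine lt_of_le_of_ne (h0 i) (Ne.symm ?_)
  intro hc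
  rcases le_or_gt i i1 with h3 | h3
  · have := Nat.le_findGreatest (P := fun i => D i = 0) h3 hc
    rw [← hp] at this
    omega
  · exact Nat.find_min hex h2 ⟨h3, hc⟩

/-- linear structure on a run -/
theorem ls6_runlin {x : V3} {y : ℕ → V3} (ori : ∀ i, 0 < det3 x (y i) (y (i + 1))) {u0 : ℝ}
    {f f' : ℕ → ℝ} {p p' : ℕ} (hpp : p + 2 ≤ p') (h1 : f p = f' p) (h2 : f p' = f' p')
    (h3 : ∀ i, p < i → i < p' → f' i < f i)
    (hrel : ∀ i, f' (i + 1) < f (i + 1) → ∃ A B C : ℝ,
      y (i + 2) = A • x + B • y (i + 1) + C • y i ∧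
      f (i + 2) = A * u0 + B * f (i + 1) + C * f i ∧
      f' (i + 2) = A * u0 + B * f' (i + 1) + C * f' i) :
    ∃ l l' : V3 →ₗ[ℝ] ℝ, l x = u0 ∧ l' x = u0 ∧
      (∀ i, p ≤ i → i ≤ p' → l (y i) = f i ∧ l' (y i) = f' i) ∧
      ∃ c0 : ℝ, 0 < c0 ∧ (∀ w, l w - l' w = c0 * det3 x (y p) w) ∧
        ∃ A B : ℝ, B < 0 ∧ y p' = A • x + B • y p := by
  have hd := ori p
  obtain ⟨l, hl1, hl2, hl3⟩ := ls6_lin hd.ne' u0 (f p) (f (p + 1))
  obtain ⟨l', hl1', hl2', hl3'⟩ := ls6_lin hd.ne' u0 (f' p) (f' (p + 1))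
  have hind : ∀ m, p + m + 1 ≤ p' → (l (y (p + m)) = f (p + m) ∧ l' (y (p + m)) = f' (p + m)) ∧
      (l (y (p + m + 1)) = f (p + m + 1) ∧ l' (y (p + m + 1)) = f' (p + m + 1)) := by
    intro m
    induction m with
    | zero =>
      intro _
      exact ⟨⟨hl2, hl2'⟩, ⟨hl3, hl3'⟩⟩
    | succ m ih =>
      intro hm
      obtain ⟨⟨a1, a2⟩, ⟨a3, a4⟩⟩ := ih (by omega)
      refine ⟨⟨a3, a4⟩, ?_⟩
      obtain ⟨A, B, C, e1, e2, e3⟩ := hrel (p + m) (h3 _ (by omega) (by omega))
      have e1' : y (p + (m + 1) + 1) = A • x + B • y (p + m + 1) + C • y (p + m) := e1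
      have e2' : f (p + (m + 1) + 1) = A * u0 + B * f (p + m + 1) + C * f (p + m) := e2
      have e3' : f' (p + (m + 1) + 1) = A * u0 + B * f' (p + m + 1) + C * f' (p + m) := e3
      rw [e1', e2', e3']
      simp only [map_add, map_smul, smul_eq_mul, a1, a2, a3, a4, hl1, hl1']
      exact ⟨trivial, trivial⟩
  have hval : ∀ i, p ≤ i → i ≤ p' → l (y i) = f i ∧ l' (y i) = f' i := by
    intro i hi hi'
    rcases lt_or_eq_of_le hi' with h | h
    · have := (hind (i - p) (by omega)).1
      rwa [show p + (i - p) = i by omega] at this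
    · have := (hind (i - p - 1) (by omega)).2
      rwa [show p + (i - p - 1) + 1 = i by omega] at this
  have hDp : 0 < f (p + 1) - f' (p + 1) := by linarith [h3 (p + 1) (by omega) (by omega)]
  have hdelta : ∀ w, l w - l' w = ((f (p + 1) - f' (p + 1)) / det3 x (y p) (y (p + 1)))
      * det3 x (y p) w := by
    intro w
    have hw := (det3_lin x (y p) (y (p + 1))).2 hd.ne' w
    have e1 : l w = det3 w (y p) (y (p + 1)) / det3 x (y p) (y (p + 1)) * u0
        + det3 x w (y (p + 1)) / det3 x (y p) (y (p + 1)) * f p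
        + det3 x (y p) w / det3 x (y p) (y (p + 1)) * f (p + 1) := by
      conv_lhs => rw [hw]
      simp only [map_add, map_smul, smul_eq_mul, hl1, hl2, hl3]
    have e2 : l' w = det3 w (y p) (y (p + 1)) / det3 x (y p) (y (p + 1)) * u0
        + det3 x w (y (p + 1)) / det3 x (y p) (y (p + 1)) * f' p
        + det3 x (y p) w / det3 x (y p) (y (p + 1)) * f' (p + 1) := by
      conv_lhs => rw [hw]
      simp only [map_add, map_smul, smul_eq_mul, hl1', hl2', hl3']
    rw [e1, e2, h1]; ring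
  have hc0 : 0 < (f (p + 1) - f' (p + 1)) / det3 x (y p) (y (p + 1)) := div_pos hDp hd
  refine ⟨l, l', hl1, hl1', hval, _, hc0, hdelta, ?_⟩
  set c0 := (f (p + 1) - f' (p + 1)) / det3 x (y p) (y (p + 1)) with hc0def
  have hz : det3 x (y p) (y p') = 0 := by
    have h := hdelta (y p')
    obtain ⟨b1, b2⟩ := hval p' (by omega) le_rfl
    rw [b1, b2, h2, sub_self] at h
    rcases mul_eq_zero.mp h.symm with h | h
    · exact absurd h hc0.ne'
    · exact h
  have hw := (det3_lin x (y p) (y (p + 1))).2 hd.ne' (y p')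
  rw [hz, zero_div, zero_smul, add_zero] at hw
  refine ⟨_, _, ?_, hw⟩
  set A := det3 (y p') (y p) (y (p + 1)) / det3 x (y p) (y (p + 1)) with hA
  set B := det3 x (y p') (y (p + 1)) / det3 x (y p) (y (p + 1)) with hB
  have ho := ori (p' - 1)
  rw [show p' - 1 + 1 = p' by omega, hw, ls6_det_comb3, ls6_det_swap] at ho
  have h5 := hdelta (y (p' - 1))
  obtain ⟨b1, b2⟩ := hval (p' - 1) (by omega) (by omega)
  rw [b1, b2] at h5
  have h6 := h3 (p' - 1) (by omega) (by omega)
  have h7 : 0 < det3 x (y p) (y (p' - 1)) := by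
    by_contra hcon
    push Not at hcon
    nlinarith
  by_contra hcon
  push Not at hcon
  nlinarith

/-- the sectors of a run cover a half plane -/
theorem ls6_cover {x : V3} {y : ℕ → V3} {p p' : ℕ} (hpp : p < p') {A B : ℝ} (hB : B < 0)
    (hy : y p' = A • x + B • y p) {w : V3} (hw : 0 < det3 x (y p) w) :
    ∃ i, p ≤ i ∧ i < p' ∧ InSector x (y i) (y (i + 1)) w := by
  classical
  -- the first index `i + 1 > p` with `det3 x (y (i+1)) w < 0`
  have hend : det3 x (y p') w < 0 := by
    rw [hy, ls6_det_comb2]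
    exact mul_neg_of_neg_of_pos hB hw
  have hex : ∃ m, det3 x (y (p + m)) w < 0 := ⟨p' - p, by rwa [show p + (p' - p) = p' by omega]⟩
  set m := Nat.find hex with hm
  have hs := Nat.find_spec hex
  rw [← hm] at hs
  have hm0 : m ≠ 0 := by
    intro h
    rw [h, add_zero] at hs
    linarith
  have hle : m ≤ p' - p := Nat.find_min' hex (by rwa [show p + (p' - p) = p' by omega])
  refine ⟨p + (m - 1), by omega, by omega, ?_, ?_⟩
  · have := Nat.find_min hex (m := m - 1) (by omega)
    push Not at this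
    exact this
  · rw [show p + (m - 1) + 1 = p + m by omega, ls6_det_swap]
    linarith

theorem ls6_once {ι : Type*} {C : ι → Set V3} {x : V3} {k : ℕ} {y : ℕ → V3} {j : ℕ → ι}
    (hf : IsFan C x k y j) {i i' : ℕ} {z : V3} (h : InSector x (y i) (y (i + 1)) z)
    (h' : InSector x (y i') (y (i' + 1)) z) : i % k = i' % k := by
  have hper : ∀ m n, y (m + n * k) = y m := by
    intro m n
    induction n with
    | zero => simp
    | succ n ih => rw [Nat.succ_mul, ← add_assoc, hf.per_y, ih]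
  have hmod : ∀ m, y (m % k) = y m := by
    intro m
    conv_rhs => rw [← Nat.mod_add_div' m k]
    rw [hper]
  have hmod1 : ∀ m, y (m % k + 1) = y (m + 1) := by
    intro m
    conv_rhs => rw [← Nat.mod_add_div' m k]
    rw [show m % k + m / k * k + 1 = (m % k + 1) + m / k * k by ring, hper]
  apply hf.once z _ (Nat.mod_lt _ hf.pos) _ (Nat.mod_lt _ hf.pos)
  · rw [hmod, hmod1]; exact h
  · rw [hmod, hmod1]; exact h'

theorem ls6_once_eq {ι : Type*} {C : ι → Set V3} {x : V3} {k : ℕ} {y : ℕ → V3} {j : ℕ → ι}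
    (hf : IsFan C x k y j) {p i i' : ℕ} (h1 : p ≤ i) (h2 : i < p + k) (h1' : p ≤ i')
    (h2' : i' < p + k) {z : V3} (h : InSector x (y i) (y (i + 1)) z)
    (h' : InSector x (y i') (y (i' + 1)) z) : i = i' := by
  have hm := ls6_once hf h h'
  by_contra hne
  rcases lt_or_gt_of_ne hne with hlt | hlt
  · have : k ∣ i' - i := (Nat.modEq_iff_dvd' hlt.le).mp hm
    have := Nat.le_of_dvd (by omega) this
    omega
  · have : k ∣ i - i' := (Nat.modEq_iff_dvd' hlt.le).mp hm.symm
    have := Nat.le_of_dvd (by omega) this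
    omega

theorem ls6_per {ι : Type*} {C : ι → Set V3} {x : V3} {k : ℕ} {y : ℕ → V3} {j : ℕ → ι}
    (hf : IsFan C x k y j) {i i' : ℕ} (h : i % k = i' % k) : y i = y i' ∧ y (i + 1) = y (i' + 1) := by
  have hper : ∀ m n, y (m + n * k) = y m := by
    intro m n
    induction n with
    | zero => simp
    | succ n ih => rw [Nat.succ_mul, ← add_assoc, hf.per_y, ih]
  have hmod : ∀ m, y (m % k) = y m := by
    intro m
    conv_rhs => rw [← Nat.mod_add_div' m k]
    rw [hper]
  have hmod1 : ∀ m, y (m % k + 1) = y (m + 1) := by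
    intro m
    conv_rhs => rw [← Nat.mod_add_div' m k]
    rw [show m % k + m / k * k + 1 = (m % k + 1) + m / k * k by ring, hper]
  exact ⟨by rw [← hmod i, h, hmod], by rw [← hmod1 i, h, hmod1]⟩

/-- the closed sectors of a run cover a closed half plane, near `x` -/
theorem ls6_near {ι : Type*} {C : ι → Set V3} {x : V3} (hx : x ∈ H2) {k : ℕ} {y : ℕ → V3}
    {j : ℕ → ι} (hf : IsFan C x k y j) : ∃ r : ℝ, 1 < r ∧ ∀ z ∈ H2, -eta x z < r →
    ∀ p p' : ℕ, p < p' → ∀ A B : ℝ, B < 0 → y p' = A • x + B • y p → 0 ≤ det3 x (y p) z →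
    ∃ i, p ≤ i ∧ i < p' ∧ ∃ l a b : ℝ, 0 < l ∧ 0 ≤ a ∧ 0 ≤ b ∧
      z = l • x + a • y i + b • y (i + 1) := by
  obtain ⟨r, hr, hst⟩ := star6 hx hf
  -- representation in a given sector
  have hrep : ∀ z ∈ H2, -eta x z < r → ∀ i, InSector x (y i) (y (i + 1)) z →
      ∃ l a b : ℝ, 0 < l ∧ 0 ≤ a ∧ 0 ≤ b ∧ z = l • x + a • y i + b • y (i + 1) := by
    intro z hz hzr i hin
    obtain ⟨i0, _, l, a, b, hl, ha, hb, he⟩ := hst z hz hzr
    have hd0 := hf.ori i0
    obtain ⟨e1, e2, e3⟩ := (det3_lin x (y i0) (y (i0 + 1))).1 l a b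
    rw [← he] at e1 e2 e3
    rcases lt_or_eq_of_le ha with ha' | ha'
    · have : InSector x (y i0) (y (i0 + 1)) z := by
        refine ⟨?_, ?_⟩
        · rw [e1]; positivity
        · rw [e2]; positivity
      obtain ⟨g1, g2⟩ := ls6_per hf (ls6_once hf hin this)
      exact ⟨l, a, b, hl, ha, hb, by rw [g1, g2]; exact he⟩
    · rcases lt_or_eq_of_le hb with hb' | hb'
      · have hd1 := hf.ori (i0 + 1)
        have he' : z = l • x + b • y (i0 + 1) := by
          rw [he, ← ha', zero_smul, add_zero]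
        have : InSector x (y (i0 + 1)) (y (i0 + 1 + 1)) z := by
          refine ⟨?_, ?_⟩
          · rw [he', ls6_det_comb3, ls6_det_self, mul_zero]
          · rw [he', ls6_det_comb2]; exact mul_pos hb' hd1
        obtain ⟨g1, g2⟩ := ls6_per hf (ls6_once hf hin this)
        exact ⟨l, b, 0, hl, hb, le_rfl, by rw [g1, zero_smul, add_zero]; exact he'⟩
      · exfalso
        have he' : z = l • x + (0 : ℝ) • y (i + 1) := by
          rw [he, ← ha', ← hb', zero_smul, zero_smul, zero_smul, add_zero]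
        have h2 := hin.2
        rw [he', ls6_det_comb2, zero_mul] at h2
        exact lt_irrefl _ h2
  refine ⟨r, hr, ?_⟩
  intro z hz hzr p p' hpp A B hB hy hdz
  rcases lt_or_eq_of_le hdz with hpos | hzero
  · obtain ⟨i, h1, h2, hin⟩ := ls6_cover hpp hB hy hpos
    exact ⟨i, h1, h2, hrep z hz hzr i hin⟩
  · have hd := hf.ori p
    have hw := (det3_lin x (y p) (y (p + 1))).2 hd.ne' z
    rw [← hzero, zero_div, zero_smul, add_zero] at hw
    set A' := det3 z (y p) (y (p + 1)) / det3 x (y p) (y (p + 1)) with hA'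
    set B' := det3 x z (y (p + 1)) / det3 x (y p) (y (p + 1)) with hB'
    rcases lt_trichotomy B' 0 with hneg | h0 | hpos
    · -- direction of y p'
      have hyp : y p = (-(A / B)) • x + (1 / B) • y p' := by
        rw [hy, smul_add, smul_smul, smul_smul, one_div, inv_mul_cancel₀ hB.ne, one_smul,
          ← add_assoc, ← add_smul]
        have : -(A / B) + B⁻¹ * A = 0 := by field_simp; ring
        rw [this, zero_smul, zero_add]
      have hz' : z = (A' + B' * (-(A / B))) • x + (B' / B) • y p' := by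
        conv_lhs => rw [hw, hyp]
        rw [smul_add, smul_smul, smul_smul, ← add_assoc, ← add_smul]
        congr 2
        ring
      have hBB : 0 < B' / B := div_pos_of_neg_of_neg hneg hB
      have hin : InSector x (y p') (y (p' + 1)) z := by
        refine ⟨?_, ?_⟩
        · rw [hz', ls6_det_comb3, ls6_det_self, mul_zero]
        · rw [hz', ls6_det_comb2]; exact mul_pos hBB (hf.ori p')
      obtain ⟨l, a, b, hl, ha, hb, he⟩ := hrep z hz hzr p' hin
      have hb0 : b = 0 := by
        have e1 := ((det3_lin x (y p') (y (p' + 1))).1 l a b).1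
        rw [← he, hz', ls6_det_comb3, ls6_det_self, mul_zero] at e1
        rcases mul_eq_zero.mp e1.symm with h | h
        · exact h
        · exact absurd h (hf.ori p').ne'
      refine ⟨p' - 1, by omega, by omega, l, 0, a, hl, le_rfl, ha, ?_⟩
      rw [show p' - 1 + 1 = p' by omega, he, hb0]
      simp
    · refine ⟨p, le_rfl, hpp, A', 0, 0, ?_, le_rfl, le_rfl, ?_⟩
      · rw [h0, zero_smul, add_zero] at hw
        have hz0 := hz.2
        rw [hw] at hz0
        have hx0 := hx.2
        have : (A' • x) 0 = A' * x 0 := rfl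
        rw [this] at hz0
        by_contra hcon
        push Not at hcon
        nlinarith
      · conv_lhs => rw [hw, h0]
        simp
    · have hin : InSector x (y p) (y (p + 1)) z := by
        refine ⟨?_, ?_⟩
        · rw [← hzero]
        · rw [hw, ls6_det_comb2]; exact mul_pos hpos hd
      exact ⟨p, le_rfl, hpp, hrep z hz hzr p hin⟩

/-- directions strictly between the two ends lie strictly on the other side -/
theorem ls6_neg {ι : Type*} {C : ι → Set V3} {x : V3} {k : ℕ} {y : ℕ → V3} {j : ℕ → ι}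
    (hf : IsFan C x k y j) {p p' : ℕ} (hpp : p < p') {A B : ℝ} (hB : B < 0)
    (hy : y p' = A • x + B • y p) {i : ℕ} (h1 : p' < i) (h2 : i < p + k) :
    det3 x (y p) (y i) < 0 := by
  have hself : InSector x (y i) (y (i + 1)) (y i) := ⟨(ls6_det_self x (y i)).ge, hf.ori i⟩
  by_contra hcon
  push Not at hcon
  rcases lt_or_eq_of_le hcon with hpos | hzero
  · obtain ⟨i2, g1, g2, hin⟩ := ls6_cover hpp hB hy hpos
    have := ls6_once_eq hf (p := p) (by omega) h2 g1 (by omega) hself hin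
    omega
  · have hd := hf.ori p
    have hw := (det3_lin x (y p) (y (p + 1))).2 hd.ne' (y i)
    rw [← hzero, zero_div, zero_smul, add_zero] at hw
    set A' := det3 (y i) (y p) (y (p + 1)) / det3 x (y p) (y (p + 1)) with hA'
    set B' := det3 x (y i) (y (p + 1)) / det3 x (y p) (y (p + 1)) with hB'
    rcases lt_trichotomy B' 0 with hneg | h0 | hpos
    · have hyp : y p = (-(A / B)) • x + (1 / B) • y p' := by
        rw [hy, smul_add, smul_smul, smul_smul, one_div, inv_mul_cancel₀ hB.ne, one_smul,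
          ← add_assoc, ← add_smul]
        have : -(A / B) + B⁻¹ * A = 0 := by field_simp; ring
        rw [this, zero_smul, zero_add]
      have hz' : y i = (A' + B' * (-(A / B))) • x + (B' / B) • y p' := by
        conv_lhs => rw [hw, hyp]
        rw [smul_add, smul_smul, smul_smul, ← add_assoc, ← add_smul]
        congr 2
        ring
      have hBB : 0 < B' / B := div_pos_of_neg_of_neg hneg hB
      have hin : InSector x (y p') (y (p' + 1)) (y i) := by
        refine ⟨?_, ?_⟩
        · rw [hz', ls6_det_comb3, ls6_det_self, mul_zero]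
        · rw [hz', ls6_det_comb2]; exact mul_pos hBB (hf.ori p')
      have := ls6_once_eq hf (p := p) (by omega) h2 (by omega) (by omega) hself hin
      omega
    · have ho := hf.ori i
      rw [hw, h0, ls6_det_comb2, zero_mul] at ho
      exact lt_irrefl _ ho
    · have hin : InSector x (y p) (y (p + 1)) (y i) := by
        refine ⟨?_, ?_⟩
        · rw [← hzero]
        · rw [hw, ls6_det_comb2]; exact mul_pos hpos hd
      have := ls6_once_eq hf (p := p) (by omega) h2 le_rfl (by omega) hself hin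
      omega

theorem ls6_lin3 {ι : Type*} {C : ι → Set V3} {Y : V3 → V4} {n : ι → V4} (h : PolyGood C Y n)
    {i : ι} {x y y' : V3} (hx : x ∈ C i) (hy : y ∈ C i) (hy' : y' ∈ C i) {l a b : ℝ} (hl : 0 < l)
    (ha : 0 ≤ a) (hb : 0 ≤ b) :
    Y (l • x + a • y + b • y') = l • Y x + a • Y y + b • Y y' := by
  have hlx : l • x ∈ C i := h.sub.smul i x hx l hl
  have h1 : l • x + a • y ∈ C i ∧ Y (l • x + a • y) = l • Y x + a • Y y := by
    rcases lt_or_eq_of_le ha with ha' | ha'
    · have hay := h.sub.smul i y hy a ha'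
      exact ⟨h.sub.add i _ hlx _ hay, by
        rw [h.poly.add i _ hlx _ hay, h.poly.smul i _ hx _ hl, h.poly.smul i _ hy _ ha']⟩
    · rw [← ha', zero_smul, add_zero, zero_smul, add_zero]
      exact ⟨hlx, h.poly.smul i _ hx _ hl⟩
  rcases lt_or_eq_of_le hb with hb' | hb'
  · have hby := h.sub.smul i y' hy' b hb'
    rw [h.poly.add i _ h1.1 _ hby, h1.2, h.poly.smul i _ hy' _ hb']
  · rw [← hb', zero_smul, add_zero, zero_smul, add_zero]
    exact h1.2

theorem ls6_q_comb (a b : ℝ) (X Z M : V4) : q (a • X + b • Z) M = a * q X M + b * q Z M := by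
  simp only [q, Pi.add_apply, Pi.smul_apply, smul_eq_mul]; ring

theorem ls6_q_comb3 (a b c : ℝ) (X Z T M : V4) :
    q (a • X + b • Z + c • T) M = a * q X M + b * q Z M + c * q T M := by
  simp only [q, Pi.add_apply, Pi.smul_apply, smul_eq_mul]; ring

theorem ls6_q_comm (X Z : V4) : q X Z = q Z X := by
  simp only [q]; ring

/-- positions of the fan vertices in terms of the unit tangent vectors -/
theorem ls6_pos {ι : Type*} {C : ι → Set V3} {Y Y' : V3 → V4} {n n' : ι → V4}
    (h : PolyGood C Y n) (h' : PolyGood C Y' n') (hs : SameCellMetric C Y Y')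
    {x z : V3} (hx : x ∈ H2) (hz : z ∈ H2) (hxz : x ≠ z) {i : ι} (hxi : x ∈ C i) (hzi : z ∈ C i) :
    ∃ a b : ℝ, 0 < b ∧ Y z = a • Y x + b • uv Y x z ∧ Y' z = a • Y' x + b • uv Y' x z := by
  obtain ⟨u1, _, _, _, _, u6⟩ := uv_props h hx hz hxz hxi hzi
  obtain ⟨_, _, _, _, _, u6'⟩ := uv_props h' hx hz hxz hxi hzi
  obtain ⟨s1, _⟩ := same_nrm hs hxi hzi hzi
  obtain ⟨⟨r, hr, r1, r2, r3⟩, _, _⟩ := nrm_props h.poly hx
  obtain ⟨⟨r', hr', r1', r2', r3'⟩, _, _⟩ := nrm_props h'.poly hx
  obtain ⟨⟨t, ht, t1, t2, t3⟩, _, _⟩ := nrm_props h.poly hz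
  obtain ⟨⟨t', ht', t1', t2', t3'⟩, _, _⟩ := nrm_props h'.poly hz
  have hrr : r' = r := by rw [r3, r3', hs i x hxi x hxi]
  have htt : t' = t := by rw [t3, t3', hs i z hzi z hzi]
  subst hrr; subst htt
  rw [← s1] at u6'
  set c := -q (nrm Y x) (nrm Y z) with hc
  set s := Real.sqrt ((q (nrm Y x) (nrm Y z)) ^ 2 - 1) with hsdef
  have hspos : 0 < s := by
    apply Real.sqrt_pos.mpr
    nlinarith
  refine ⟨t'⁻¹ * c * r', t'⁻¹ * s, by positivity, ?_, ?_⟩
  · rw [t2, u6, r1, smul_add, smul_smul, smul_smul, smul_smul]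
  · rw [t2', u6', r1', smul_add, smul_smul, smul_smul, smul_smul]

/-- the linear relation at an unbent edge -/
theorem ls6_rel {ι : Type*} {C : ι → Set V3} {Y Y' : V3 → V4} {n n' : ι → V4}
    (h : PolyGood C Y n) (h' : PolyGood C Y' n') (hs : SameCellMetric C Y Y')
    {σ : ℝ} {T : V3 → ℝ} (hfu : Y = Y0 σ T ∨ Y' = Y0 σ T)
    {x : V3} (hx : x ∈ H2) {k : ℕ} {y : ℕ → V3} {j : ℕ → ι} (hf : IsFan C x k y j) (i : ℕ)
    (hk : kv Y x y i = 0) (hk' : kv Y' x y i = 0) :
    ∃ A B D : ℝ, y (i + 2) = A • x + B • y (i + 1) + D • y i ∧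
      Y (y (i + 2)) = A • Y x + B • Y (y (i + 1)) + D • Y (y i) ∧
      Y' (y (i + 2)) = A • Y' x + B • Y' (y (i + 1)) + D • Y' (y i) := by
  obtain ⟨a0, b0, hb0, e0, e0'⟩ := ls6_pos h h' hs hx (hf.mem i) (fan_ne hf i).1 (hf.cell i).1
    (hf.cell i).2.1
  obtain ⟨a1, b1, hb1, e1, e1'⟩ := ls6_pos h h' hs hx (hf.mem (i + 1)) (fan_ne hf i).2
    (hf.cell i).1 (hf.cell i).2.2
  obtain ⟨a2, b2, hb2, e2, e2'⟩ := ls6_pos h h' hs hx (hf.mem (i + 2)) (fan_ne hf (i + 1)).2
    (hf.cell (i + 1)).1 (hf.cell (i + 1)).2.2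
  obtain ⟨α0, α0p, _⟩ := (fan_ang h hx hf).1 i
  have hang0 : ang (uv Y' x (y i)) (uv Y' x (y (i + 1))) = ang (uv Y x (y i)) (uv Y x (y (i + 1))) := by
    unfold ang
    rw [(same_nrm hs (hf.cell i).1 (hf.cell i).2.1 (hf.cell i).2.2).2]
  have hang1 : ang (uv Y' x (y (i + 1))) (uv Y' x (y (i + 2)))
      = ang (uv Y x (y (i + 1))) (uv Y x (y (i + 2))) := by
    unfold ang
    rw [(same_nrm hs (hf.cell (i + 1)).1 (hf.cell (i + 1)).2.1 (hf.cell (i + 1)).2.2).2]
  unfold kv at hk hk'
  rw [hang0, hang1] at hk'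
  set s1 := Real.sin (ang (uv Y x (y (i + 1))) (uv Y x (y (i + 2)))) with hs1
  set s0 := Real.sin (ang (uv Y x (y i)) (uv Y x (y (i + 1)))) with hs0
  set s2 := Real.sin (ang (uv Y x (y i)) (uv Y x (y (i + 1)))
        + ang (uv Y x (y (i + 1))) (uv Y x (y (i + 2)))) with hs2
  have hs0p : 0 < s0 := Real.sin_pos_of_pos_of_lt_pi α0 α0p
  have key : ∀ X z0 z1 z2 w0 w1 w2 : V4, s1 • z0 + s0 • z2 - s2 • z1 = 0 →
      w0 = a0 • X + b0 • z0 → w1 = a1 • X + b1 • z1 → w2 = a2 • X + b2 • z2 →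
      w2 = (a2 - b2 * s2 / s0 / b1 * a1 + b2 * s1 / s0 / b0 * a0) • X
        + (b2 * s2 / s0 / b1) • w1 + (-(b2 * s1 / s0 / b0)) • w0 := by
    intro X z0 z1 z2 w0 w1 w2 hz h0 h1 h2
    funext m
    have hzm := congrFun hz m
    have h0m := congrFun h0 m
    have h1m := congrFun h1 m
    have h2m := congrFun h2 m
    simp only [Pi.add_apply, Pi.smul_apply, Pi.sub_apply, smul_eq_mul, Pi.zero_apply] at *
    have hz2 : z2 m = (s2 * z1 m - s1 * z0 m) / s0 := by
      rw [eq_div_iff hs0p.ne']; linarith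
    rw [h2m, h1m, h0m, hz2]
    field_simp
    ring
  have r1 := key _ _ _ _ _ _ _ hk e0 e1 e2
  have r2 := key _ _ _ _ _ _ _ hk' e0' e1' e2'
  refine ⟨_, _, _, ?_, r1, r2⟩
  have fin : ∀ {x z0 z1 z2 : V3} {A B D : ℝ},
      Y0 σ T z2 = A • Y0 σ T x + B • Y0 σ T z1 + D • Y0 σ T z0 →
      z2 = A • x + B • z1 + D • z0 := by
    intro x z0 z1 z2 A B D hh
    funext m
    fin_cases m
    · exact congrFun hh 0
    · exact congrFun hh 1
    · exact congrFun hh 2
  rcases hfu with hfu | hfu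
  · rw [hfu] at r1
    exact fin r1
  · rw [hfu] at r2
    exact fin r2

/-- the horizontal direction -/
theorem ls6_W {X M : V4} (hX : q X X = -1) (hM : q M M = -1) (hu : |q X M| < 1) :
    ∃ W : V4, q W W = -1 ∧ q X W = 0 ∧
      ∀ Z, q Z X = 0 → q Z W = (Real.sqrt (1 - (q X M) ^ 2))⁻¹ * q Z M := by
  set v := q X M with hv
  have h1 : 0 < 1 - v ^ 2 := by
    have := abs_lt.mp hu
    nlinarith
  set ν := Real.sqrt (1 - v ^ 2) with hν
  have hν0 : 0 < ν := Real.sqrt_pos.mpr h1
  have hν2 : ν ^ 2 = 1 - v ^ 2 := Real.sq_sqrt h1.le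
  have e1 : ∀ Z, q Z (ν⁻¹ • M + (ν⁻¹ * v) • X) = ν⁻¹ * q Z M + ν⁻¹ * v * q Z X := by
    intro Z
    simp only [q, Pi.add_apply, Pi.smul_apply, smul_eq_mul]; ring
  refine ⟨ν⁻¹ • M + (ν⁻¹ * v) • X, ?_, ?_, ?_⟩
  · rw [e1, ls6_q_comm _ M, ls6_q_comm _ X, e1, e1, hM, hX, ls6_q_comm M X, ← hv]
    field_simp
    rw [hν2]
    ring
  · rw [e1, hX, ← hv]
    ring
  · intro Z hZ
    rw [e1, hZ]
    ring

theorem ls6 {ι : Type*} {C : ι → Set V3} {Y Y' : V3 → V4} {n n' : ι → V4} (h : PolyGood C Y n) (h' : PolyGood C Y' n')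
    (hs : SameCellMetric C Y Y') {σ : ℝ} {T : V3 → ℝ} (hfu : Y = Y0 σ T ∨ Y' = Y0 σ T)
    {x : V3} (hx : x ∈ H2) {M M' : V4} (hM : q M M = -1) (hM' : q M' M' = -1)
    (hn : ∀ i, x ∈ C i → 0 < q (n i) M) (hn' : ∀ i, x ∈ C i → 0 < q (n' i) M') (hu : |q (nrm Y x) M| < 1)
    (h0 : q (Y x) M = q (Y' x) M') (hD : ∀ z ∈ H2, q (Y z) M ≤ q (Y' z) M') :
    LocStr x (fun z => -(q (Y z) M)) (fun z => -(q (Y' z) M')) := by
  obtain ⟨k, y, j, hf⟩ := h.sub.fan x hx
  obtain ⟨⟨r, hr, r1, r2, r3⟩, hXX, hnX⟩ := nrm_props h.poly hx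
  obtain ⟨⟨r', hr', r1', r2', r3'⟩, hXX', hnX'⟩ := nrm_props h'.poly hx
  have hxc : x ∈ C (j 0) := (hf.cell 0).1
  have hrr : r' = r := by rw [r3, r3', hs _ x hxc x hxc]
  have hXM : q (nrm Y' x) M' = q (nrm Y x) M := by
    have e1 : q (nrm Y x) M = r * q (Y x) M := by
      rw [r1]; simp only [q, Pi.smul_apply, smul_eq_mul]; ring
    have e2 : q (nrm Y' x) M' = r' * q (Y' x) M' := by
      rw [r1']; simp only [q, Pi.smul_apply, smul_eq_mul]; ring
    rw [e1, e2, hrr, h0]
  obtain ⟨W, hWW, hXW, hWZ⟩ := ls6_W hXX hM hu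
  obtain ⟨W', hWW', hXW', hWZ'⟩ := ls6_W hXX' hM' (by rw [hXM]; exact hu)
  rw [hXM] at hWZ'
  set g := (Real.sqrt (1 - (q (nrm Y x) M) ^ 2))⁻¹ with hg
  have hg0 : 0 < g := by
    have := abs_lt.mp hu
    have : 0 < 1 - (q (nrm Y x) M) ^ 2 := by nlinarith
    positivity
  set u0 : ℝ := -(q (Y x) M) with hu0
  set f : ℕ → ℝ := fun i => -(q (Y (y i)) M) with hfdef
  set f' : ℕ → ℝ := fun i => -(q (Y' (y i)) M') with hfdef'
  set hh : ℕ → ℝ := fun i => -(q (uv Y x (y i)) W) with hhdef
  set hh' : ℕ → ℝ := fun i => -(q (uv Y' x (y i)) W') with hhdef'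
  set α : ℕ → ℝ := fun i => ang (uv Y x (y i)) (uv Y x (y (i + 1))) with hαdef
  have hα' : ∀ i, ang (uv Y' x (y i)) (uv Y' x (y (i + 1))) = α i := by
    intro i
    simp only [hαdef]
    unfold ang
    rw [(same_nrm hs (hf.cell i).1 (hf.cell i).2.1 (hf.cell i).2.2).2]
  have hfle : ∀ i, f' i ≤ f i := fun i => by
    have := hD (y i) (hf.mem i)
    simp only [hfdef, hfdef']; linarith
  -- comparison of `f` and `hh`
  have hcmp : ∀ i, ∃ b : ℝ, 0 < b ∧ f i - f' i = b * (hh i - hh' i) := by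
    intro i
    obtain ⟨a, b, hb, e, e'⟩ := ls6_pos h h' hs hx (hf.mem i) (fan_ne hf i).1 (hf.cell i).1
      (hf.cell i).2.1
    obtain ⟨_, _, u3, _, _, _⟩ := uv_props h hx (hf.mem i) (fan_ne hf i).1 (hf.cell i).1
      (hf.cell i).2.1
    obtain ⟨_, _, u3', _, _, _⟩ := uv_props h' hx (hf.mem i) (fan_ne hf i).1 (hf.cell i).1
      (hf.cell i).2.1
    have z1 := hWZ _ (by rw [ls6_q_comm]; exact u3)
    have z2 := hWZ' _ (by rw [ls6_q_comm]; exact u3')
    refine ⟨b * g⁻¹, by positivity, ?_⟩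
    simp only [hfdef, hfdef', hhdef, hhdef']
    rw [e, e', ls6_q_comb, ls6_q_comb, z1, z2, h0]
    field_simp
    ring
  have hhle : ∀ i, hh' i ≤ hh i := by
    intro i
    obtain ⟨b, hb, e⟩ := hcmp i
    have h1 : 0 ≤ b * (hh i - hh' i) := by rw [← e]; linarith [hfle i]
    have := nonneg_of_mul_nonneg_right h1 hb
    linarith
  have hhlt : ∀ i, f' i < f i → hh' i < hh i := by
    intro i hi
    obtain ⟨b, hb, e⟩ := hcmp i
    have h1 : 0 < b * (hh i - hh' i) := by rw [← e]; linarith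
    have := pos_of_mul_pos_right h1 hb.le
    linarith
  have hheq : ∀ i, hh i = hh' i → f i = f' i := by
    intro i hi
    obtain ⟨b, hb, e⟩ := hcmp i
    rw [hi, sub_self, mul_zero] at e
    linarith
  -- the link
  have hnW : ∀ i, 0 < q (n (j i)) W := by
    intro i
    rw [hWZ _ (hnX _ (hf.cell i).1)]
    exact mul_pos hg0 (hn _ (hf.cell i).1)
  have hnW' : ∀ i, 0 < q (n' (j i)) W' := by
    intro i
    rw [hWZ' _ (hnX' _ (hf.cell i).1)]
    exact mul_pos hg0 (hn' _ (hf.cell i).1)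
  have hkk : ∀ i, kk α hh i = -(q (kv Y x y i) W) := by
    intro i
    simp only [kk, kv, hhdef, hαdef, q, Pi.add_apply, Pi.sub_apply, Pi.smul_apply, smul_eq_mul]
    ring
  have hkk' : ∀ i, kk α hh' i = -(q (kv Y' x y i) W') := by
    intro i
    have a0 := hα' i
    have a1 := hα' (i + 1)
    rw [show i + 1 + 1 = i + 2 by ring] at a1
    simp only [kv]
    rw [a0, a1]
    simp only [kk, hhdef', q, Pi.add_apply, Pi.sub_apply, Pi.smul_apply, smul_eq_mul]
    ring
  have hkv : ∀ i, kk α hh i ≤ 0 ∧ (kk α hh i = 0 → kv Y x y i = 0) := by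
    intro i
    obtain ⟨_, _, _, hk⟩ := kv_props h hx hf i
    obtain ⟨k1, k2⟩ := hk W (by rw [hWW]; norm_num) hXW (hnW i)
    rw [hkk]
    exact ⟨by linarith, fun h => k2 (by linarith)⟩
  have hkv' : ∀ i, kk α hh' i ≤ 0 ∧ (kk α hh' i = 0 → kv Y' x y i = 0) := by
    intro i
    obtain ⟨_, _, _, hk⟩ := kv_props h' hx hf i
    obtain ⟨k1, k2⟩ := hk W' (by rw [hWW']; norm_num) hXW' (hnW' i)
    rw [hkk']
    exact ⟨by linarith, fun h => k2 (by linarith)⟩
  have hαper : ∀ i, α (i + k) = α i := (fan_ang h hx hf).2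
  have hαpos : ∀ i, 0 < α i ∧ α i < Real.pi := fun i =>
    ⟨((fan_ang h hx hf).1 i).1, ((fan_ang h hx hf).1 i).2.1⟩
  have hhper : ∀ i, hh (i + k) = hh i := fun i => by simp only [hhdef, hf.per_y]
  have hhper' : ∀ i, hh' (i + k) = hh' i := fun i => by simp only [hhdef', hf.per_y]
  have hsum : ∑ i ∈ Finset.range k, bet (α i) (hh i) (hh (i + 1)) = 2 * Real.pi :=
    fan_sum h hx hf hWW hXW hnW
  have hsum' : ∑ i ∈ Finset.range k, bet (α i) (hh' i) (hh' (i + 1)) = 2 * Real.pi := by
    have := fan_sum h' hx hf hWW' hXW' hnW'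
    simp only [hα'] at this
    exact this
  have hlink := (linkA hf.pos hαper hhper hhper' hαpos (fun i => (hkv i).1)
    (fun i => (hkv' i).1) hhle).2 (by rw [hsum, hsum'])
  have hrel : ∀ i, f' (i + 1) < f (i + 1) → ∃ A B D : ℝ,
      y (i + 2) = A • x + B • y (i + 1) + D • y i ∧
      f (i + 2) = A * u0 + B * f (i + 1) + D * f i ∧
      f' (i + 2) = A * u0 + B * f' (i + 1) + D * f' i := by
    intro i hi
    obtain ⟨k1, k2⟩ := hlink i (hhlt _ hi)
    obtain ⟨A, B, D, e1, e2, e3⟩ := ls6_rel h h' hs hfu hx hf i ((hkv i).2 k1) ((hkv' i).2 k2)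
    refine ⟨A, B, D, e1, ?_, ?_⟩
    · simp only [hfdef, hu0]
      rw [e2, ls6_q_comb3]; ring
    · simp only [hfdef', hu0]
      rw [e3, ls6_q_comb3, h0]; ring
  have hnotall : ¬ ∀ i, f' i < f i := by
    intro hall
    have hz : ∀ i, kk α hh i ≤ kk α hh' i := by
      intro i
      obtain ⟨k1, k2⟩ := hlink i (hhlt _ (hall _))
      rw [k1, k2]
    have := (link_cmp hf.pos hαper hhper hhper' hαpos hhle hz 0).1
    have h1 := hheq 0 this
    have h2 := hall 0
    linarith
  have hfper : ∀ i, f (i + k) = f i := fun i => by simp only [hfdef, hf.per_y]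
  have hfper' : ∀ i, f' (i + k) = f' i := fun i => by simp only [hfdef', hf.per_y]
  -- values in the sectors
  have hval : ∀ z : V3, ∀ i, ∀ l a b : ℝ, 0 < l → 0 ≤ a → 0 ≤ b →
      z = l • x + a • y i + b • y (i + 1) →
      -(q (Y z) M) = l * u0 + a * f i + b * f (i + 1) ∧
      -(q (Y' z) M') = l * u0 + a * f' i + b * f' (i + 1) := by
    intro z i l a b hl ha hb hz
    obtain ⟨c1, c2, c3⟩ := hf.cell i
    constructor
    · rw [hz, ls6_lin3 h c1 c2 c3 hl ha hb, ls6_q_comb3]
      simp only [hfdef, hu0]; ring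
    · rw [hz, ls6_lin3 h' (C := C) c1 c2 c3 hl ha hb, ls6_q_comb3]
      simp only [hfdef', hu0]; rw [h0]; ring
  by_cases hall0 : ∀ i, f i = f' i
  · left
    obtain ⟨rr, hrr1, hst⟩ := star6 hx hf
    refine ⟨rr, hrr1, ?_⟩
    intro z hz hzr
    obtain ⟨i, _, l, a, b, hl, ha, hb, he⟩ := hst z hz hzr
    obtain ⟨v1, v2⟩ := hval z i l a b hl ha hb he
    show -(q (Y z) M) = -(q (Y' z) M')
    rw [v1, v2, hall0 i, hall0 (i + 1)]
  · right
    push Not at hall0 hnotall
    obtain ⟨i1, hi1⟩ := hall0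
    obtain ⟨i0, hi0⟩ := hnotall
    have hperD : ∀ m c, f (m + c * k) - f' (m + c * k) = f m - f' m := by
      intro m c
      induction c with
      | zero => simp
      | succ c ih => rw [Nat.succ_mul, ← add_assoc, hfper, hfper', ih]
    have hD0 : ∀ i, 0 ≤ f i - f' i := fun i => by linarith [hfle i]
    have hkpos := hf.pos
    have hi1' : 0 < f i1 - f' i1 := lt_of_le_of_ne (hD0 i1) (fun hc => hi1 (by linarith))
    have hi0' : f i0 - f' i0 = 0 := by linarith [hfle i0]
    have hrun := ls6_run (D := fun i => f i - f' i) hD0 (a := i0) (i1 := i1 + (i0 + 1) * k)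
      (b := i0 + (i1 + (i0 + 1) * k + 1) * k)
      (by
        have := Nat.le_mul_of_pos_right (i0 + 1) hf.pos
        omega)
      (by
        have := Nat.le_mul_of_pos_right (i1 + (i0 + 1) * k + 1) hf.pos
        omega) hi0'
      (by show f _ - f' _ = 0; rw [hperD]; exact hi0')
      (by show 0 < f _ - f' _; rw [hperD]; exact hi1')
    obtain ⟨p, p', _, hpp, _, hp0, hp0', hpin⟩ := hrun
    have hpk : p' ≤ p + k := by
      by_contra hcon
      push Not at hcon
      have h1 := hpin (p + k) (by omega) hcon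
      rw [hfper, hfper'] at h1
      linarith
    have hpin' : ∀ i, p < i → i < p' → f' i < f i := fun i a b => by
      have := hpin i a b
      linarith
    obtain ⟨l, l', hlx, hlx', hlv, c0, hc0, hdel, A, B, hB, hyp'⟩ :=
      ls6_runlin hf.ori (u0 := u0) (f := f) (f' := f') hpp (by linarith)
        (by linarith) hpin' hrel
    have hp'lt : p' < p + k := by
      rcases lt_or_eq_of_le hpk with h1 | h1
      · exact h1
      · exfalso
        have h2 : det3 x (y p') (y (p + 1)) = B * det3 x (y p) (y (p + 1)) := by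
          rw [hyp', ls6_det_comb2]
        rw [h1, hf.per_y] at h2
        have h3 := hf.ori p
        nlinarith
    obtain ⟨rr, hrr1, hnear⟩ := ls6_near hx hf
    have hyk : y (p + k) = (-(A / B)) • x + (1 / B) • y p' := by
      rw [hf.per_y, hyp', smul_add, smul_smul, smul_smul, one_div, inv_mul_cancel₀ hB.ne, one_smul,
        ← add_assoc, ← add_smul]
      have : -(A / B) + B⁻¹ * A = 0 := by field_simp; ring
      rw [this, zero_smul, zero_add]
    have hBinv : 1 / B < 0 := by
      rw [one_div]; exact inv_lt_zero.mpr hB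
    have hlow : ∀ z ∈ H2, -eta x z < rr → l z - l' z ≤ 0 →
        ∃ i, p' ≤ i ∧ i < p + k ∧ ∃ l a b : ℝ, 0 < l ∧ 0 ≤ a ∧ 0 ≤ b ∧
          z = l • x + a • y i + b • y (i + 1) := by
      intro z hz hzr hdz
      apply hnear z hz hzr p' (p + k) hp'lt _ _ hBinv hyk
      rw [hyp', ls6_det_comb2]
      rw [hdel] at hdz
      have : det3 x (y p) z ≤ 0 := by
        by_contra hcon
        push Not at hcon
        have := mul_pos hc0 hcon
        linarith
      exact mul_nonneg_of_nonpos_of_nonpos hB.le this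
    refine ⟨l - l', l, l', ?_, ?_, rr, hrr1, ?_, ?_⟩
    · intro hc
      have h1 : (l - l') (y (p + 1)) = 0 := by rw [hc]; rfl
      obtain ⟨g1, g2⟩ := hlv (p + 1) (by omega) (by omega)
      rw [LinearMap.sub_apply, g1, g2] at h1
      have := hpin' (p + 1) (by omega) (by omega)
      linarith
    · rw [LinearMap.sub_apply, hlx, hlx', sub_self]
    · intro z hz hzr hdz
      rw [LinearMap.sub_apply] at hdz
      have hdz' : 0 ≤ det3 x (y p) z := by
        rw [hdel] at hdz
        exact nonneg_of_mul_nonneg_right hdz hc0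
      obtain ⟨i, g1, g2, t, a, b, ht, ha, hb, he⟩ := hnear z hz hzr p p' (by omega) A B hB hyp' hdz'
      obtain ⟨v1, v2⟩ := hval z i t a b ht ha hb he
      obtain ⟨w1, w2⟩ := hlv i g1 g2.le
      obtain ⟨w3, w4⟩ := hlv (i + 1) (by omega) (by omega)
      have e1 : -(q (Y z) M) = l z := by
        rw [v1]
        conv_rhs => rw [he]
        simp only [map_add, map_smul, smul_eq_mul, hlx, w1, w3]
      have e2 : -(q (Y' z) M') = l' z := by
        rw [v2]
        conv_rhs => rw [he]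
        simp only [map_add, map_smul, smul_eq_mul, hlx', w2, w4]
      refine ⟨e1, e2, ?_⟩
      show -(q (Y z) M) - -(q (Y' z) M') = (l - l') z
      rw [e1, e2, LinearMap.sub_apply]
    · by_cases hlo : ∀ i, p' < i → i < p + k → f i = f' i
      · left
        intro z hz hzr hdz
        rw [LinearMap.sub_apply] at hdz
        obtain ⟨i, g1, g2, t, a, b, ht, ha, hb, he⟩ := hlow z hz hzr hdz
        obtain ⟨v1, v2⟩ := hval z i t a b ht ha hb he
        have hall : ∀ m, p' ≤ m → m ≤ p + k → f m = f' m := by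
          intro m m1 m2
          rcases lt_or_eq_of_le m1 with m1 | m1
          · rcases lt_or_eq_of_le m2 with m2 | m2
            · exact hlo m m1 m2
            · rw [m2, hfper, hfper']
              linarith
          · rw [← m1]
            linarith
        show -(q (Y z) M) = -(q (Y' z) M')
        rw [v1, v2, hall i g1 g2.le, hall (i + 1) (by omega) (by omega)]
      · right
        push Not at hlo
        obtain ⟨i2, hi2a, hi2b, hi2⟩ := hlo
        have hi2' : 0 < f i2 - f' i2 := lt_of_le_of_ne (hD0 i2) (fun hc => hi2 (by linarith))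
        obtain ⟨s, s', hs1, hs2, hs3, hs4, hs5, hs6⟩ := ls6_run (D := fun i => f i - f' i) hD0
          hi2a hi2b hp0' (by show f _ - f' _ = 0; rw [hfper, hfper']; exact hp0) hi2'
        obtain ⟨m, m', hmx, hmx', hmv, c2, hc2, hdel2, A2, B2, hB2, hys'⟩ :=
          ls6_runlin hf.ori (u0 := u0) (f := f) (f' := f') hs2 (by linarith)
            (by linarith)
            (fun i a b => by
              have := hs6 i a b
              linarith) hrel
        have hdet : det3 x (y p) (y s') = B2 * det3 x (y p) (y s) := by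
          rw [hys', ls6_det_comb3]
        have hdetp' : det3 x (y p) (y p') = 0 := by
          rw [hyp', ls6_det_comb3, ls6_det_self, mul_zero]
        have hss : s = p' := by
          by_contra hne
          have h1 : det3 x (y p) (y s) < 0 := ls6_neg hf (by omega) hB hyp' (by omega) (by omega)
          have h2 : 0 < det3 x (y p) (y s') := by rw [hdet]; exact mul_pos_of_neg_of_neg hB2 h1
          rcases lt_or_eq_of_le hs3 with h3 | h3
          · have := ls6_neg hf (by omega) hB hyp' (i := s') (by omega) h3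
            linarith
          · rw [h3, hf.per_y, ls6_det_self] at h2
            exact lt_irrefl _ h2
        have hss' : s' = p + k := by
          by_contra hne
          have h1 : det3 x (y p) (y s') < 0 := ls6_neg hf (by omega) hB hyp' (by omega) (by omega)
          rw [hdet, hss, hdetp', mul_zero] at h1
          exact lt_irrefl _ h1
        subst hss
        refine ⟨m, m', -(c2 * B / c0), ?_, ?_⟩
        · rw [neg_pos]
          exact div_neg_of_neg_of_pos (mul_neg_of_pos_of_neg hc2 hB) hc0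
        · intro z hz hzr hdz
          rw [LinearMap.sub_apply] at hdz
          obtain ⟨i, g1, g2, t, a, b, ht, ha, hb, he⟩ := hlow z hz hzr hdz
          obtain ⟨v1, v2⟩ := hval z i t a b ht ha hb he
          obtain ⟨w1, w2⟩ := hmv i g1 (by omega)
          obtain ⟨w3, w4⟩ := hmv (i + 1) (by omega) (by omega)
          have e1 : -(q (Y z) M) = m z := by
            rw [v1]
            conv_rhs => rw [he]
            simp only [map_add, map_smul, smul_eq_mul, hmx, w1, w3]
          have e2 : -(q (Y' z) M') = m' z := by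
            rw [v2]
            conv_rhs => rw [he]
            simp only [map_add, map_smul, smul_eq_mul, hmx', w2, w4]
          refine ⟨e1, e2, ?_⟩
          show -(q (Y z) M) - -(q (Y' z) M') = -(-(c2 * B / c0) * (l - l') z)
          rw [e1, e2, LinearMap.sub_apply, hdel2, hdel, hyp', ls6_det_comb2]
          field_simp

end A_ls6

alias ls6 := A_ls6.ls6

end Helper935.Poly
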