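import Pool.Agent.Helper935_AdS.PGapA
import Pool.Agent.Helper935_AdS.PGapB
import Pool.Agent.Helper935_AdS.PCont
import Pool.Agent.Helper935_AdS.PLocC

namespace Helper935.Poly

namespace A_gap6

theorem gf6_q_add (X Y Z : V4) : q (X + Y) Z = q X Z + q Y Z := by
  simp only [q, Pi.add_apply]; ring

theorem gf6_q_smul (c : ℝ) (X Z : V4) : q (c • X) Z = c * q X Z := by
  simp only [q, Pi.smul_apply, smul_eq_mul]; ring

theorem gf6_q_comm (X Z : V4) : q X Z = q Z X := by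
  simp only [q]; ring

theorem gf6_eta_comm (x y : V3) : eta x y = eta y x := by
  simp only [eta]; ring

/- Proof:
(N,y0) from maxpair6, m = q (m.X y0) N in [0,1). leaf6: xi1, xi2 in Lam t.p.S. opp6 (hm: -1 < m; hsign from maxpair6, Nr y0 nonempty) with xi = xi1: Opp t.p.S N xi1 and Opp t.m.S (-N) xi1. nu6 (q (m.X y) N < 1 by dual_lt6): q n N < 0 for all y, n in Nr y. minus6 with xi = xi2: theta, C1. plus6: C2. D0 from distb6, c1 from wlow6.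
vert6 (S = t.p.S) for (xi1,xi2): x_0, tau_0; footm6 for (xi1, xi2): y_0' with 0 <= q (m.X y_0') N and -q (m.X y_0')(xi1+xi2) <= 1. -q (p.X x_0)(xi1+xi2) = 1/sqrt(1+tau_0^2) <= 1 (q(xi1+xi2)(xi1+xi2) = -1, q . N = 0), so -eta y_0' x_0 <= cosh D0 (distb6).
For n >= 1, s = n: the same for (e^s xi1, e^-s xi2) (Lam_smul6, Opp_G6 second part): x_n, tau_n, y_n. plus6: -eta x_0 x_n <= cosh(n + C2). H2_triangle: -eta y_0' y_n <= cosh(D0 + n + C2 + D0). minus6: -q (m.X y_n) xi2 <= C1 exp(theta(2 D0 + C2 + n)) (-q (m.X y_0') xi2). wlow6: c1 e^n <= -q (m.X y_n) xi2. So c1 e^n <= K e^{theta n} for all n >= 1 with K independent of n: false for n large since theta < 1.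
-/
theorem gap6 {κ ι : Type*} (t : TT κ ι) {ε : ℝ} (hε : 0 < ε)
    (hgap : ∀ N ∈ Dual t.p.S, ∀ y ∈ H2, q (t.m.S.s.X y) N ≤ sn t.m.T y - ε) : False := by
  obtain ⟨N, hN, y0, hy0, hm, hm1, hmax, hn0⟩ := maxpair6 t
  have hNN : q N N = -1 := hN.1
  have hmax0 : ∀ N' ∈ Dual t.p.S, q (t.m.S.s.X y0) N' ≤ q (t.m.S.s.X y0) N :=
    fun N' hN' => hmax N' hN' y0 hy0
  obtain ⟨ξ₁, h₁, ξ₂, h₂, h1N, h2N, h12⟩ := leaf6 t hN hy0 hm hm1 hmax0 hn0
  obtain ⟨nn, hnn⟩ := t.m.S.g.ne y0 hy0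
  obtain ⟨hOp, hOm⟩ := opp6 t hNN hy0 (by linarith) hm1 ⟨nn, hnn, hn0 nn hnn⟩ h₁ h1N
  have hneg := nu6 t hNN (fun y hy => dual_lt6 t hN hy) h₁ h1N hOm
  obtain ⟨θ, C₁, hθ0, hθ1, hC₁, hminus⟩ := minus6 t hNN hε (hgap N hN) hneg h₂ h2N
  obtain ⟨C₂, hC₂, hplus⟩ := plus6 t hN h₁ h₂ h12 h1N h2N hOp
  obtain ⟨D₀, hD₀, hdist⟩ := distb6 t
  obtain ⟨c₁, hc₁, hw⟩ := wlow6 t
  have L1 : ∀ s : ℝ, Real.exp s • ξ₁ ∈ Lam t.p.S := fun s => Lam_smul6 t.p.S h₁ (Real.exp_pos s)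
  have L2 : ∀ s : ℝ, Real.exp (-s) • ξ₂ ∈ Lam t.p.S := fun s => Lam_smul6 t.p.S h₂ (Real.exp_pos _)
  have LO : ∀ s : ℝ, Opp t.p.S N (Real.exp s • ξ₁) := fun s =>
    (Opp_G6 t.p.S hNN h₁ h1N hOp).2 _ (Real.exp_pos s)
  have hexp : ∀ s : ℝ, Real.exp s * Real.exp (-s) = 1 := by
    intro s; rw [← Real.exp_add]; simp
  have Lq : ∀ s : ℝ, q (Real.exp s • ξ₁) (Real.exp (-s) • ξ₂) = -1/2 := by
    intro s
    rw [gf6_q_smul, gf6_q_comm, gf6_q_smul, gf6_q_comm, h12, ← mul_assoc, hexp s, one_mul]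
  have L1N : ∀ s : ℝ, q (Real.exp s • ξ₁) N = 0 := by
    intro s; rw [gf6_q_smul, h1N, mul_zero]
  have L2N : ∀ s : ℝ, q (Real.exp (-s) • ξ₂) N = 0 := by
    intro s; rw [gf6_q_smul, h2N, mul_zero]
  have hvert : ∀ s : ℝ, ∃ x ∈ H2, ∃ τ : ℝ, 0 < τ ∧
      Real.exp s • ξ₁ + Real.exp (-s) • ξ₂ + τ • N = Real.sqrt (1 + τ ^ 2) • t.p.S.s.X x :=
    fun s => vert6 t.p.S hN (L1 s) (L2 s) (Lq s) (L1N s) (L2N s) (LO s)
  obtain ⟨x₀, hx₀, t₀, ht₀, hxt₀⟩ := vert6 t.p.S hN h₁ h₂ h12 h1N h2N hOp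
  choose x hx τ hτ hxτ using hvert
  obtain ⟨y₀, hy₀, hy₀N, hy₀q⟩ := footm6 t hneg h₁ h₂ h12 h1N h2N
  have hfoot : ∀ s : ℝ, ∃ y ∈ H2, 0 ≤ q (t.m.S.s.X y) N ∧
      -q (t.m.S.s.X y) (Real.exp s • ξ₁ + Real.exp (-s) • ξ₂) ≤ 1 :=
    fun s => footm6 t hneg (L1 s) (L2 s) (Lq s) (L1N s) (L2N s)
  choose y hy hyN hyq using hfoot
  have hq0 : ∀ ξ ∈ Lam t.p.S, q ξ ξ = 0 := fun ξ hξ => hξ.2.1
  have gen : ∀ a ∈ Lam t.p.S, ∀ b ∈ Lam t.p.S, q a b = -1/2 → q a N = 0 → q b N = 0 →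
      ∀ z : V3, ∀ σ : ℝ, a + b + σ • N = Real.sqrt (1 + σ ^ 2) • t.p.S.s.X z →
      -q (t.p.S.s.X z) (a + b) ≤ 1 := by
    intro a ha b hb hab haN hbN z σ hz
    have hsq : 1 ≤ Real.sqrt (1 + σ ^ 2) := by
      rw [Real.one_le_sqrt]; nlinarith [sq_nonneg σ]
    have e1 := congrArg (fun Z => q Z (a + b)) hz
    beta_reduce at e1
    rw [gf6_q_smul, gf6_q_add, gf6_q_add, gf6_q_smul σ] at e1
    have e2 : ∀ A : V4, q A (a + b) = q A a + q A b := by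
      intro A
      rw [gf6_q_comm, gf6_q_add, gf6_q_comm, gf6_q_comm b]
    rw [e2 a, e2 b, e2 N, hq0 a ha, hq0 b hb, hab, gf6_q_comm b, hab, gf6_q_comm N, haN,
      gf6_q_comm N, hbN] at e1
    nlinarith [e1, hsq]
  have hyx₀ : -eta y₀ x₀ ≤ Real.cosh D₀ :=
    hdist _ h₁ _ h₂ h12 y₀ hy₀ x₀ hx₀ hy₀q (gen _ h₁ _ h₂ h12 h1N h2N x₀ t₀ hxt₀)
  have hyx : ∀ s : ℝ, -eta (y s) (x s) ≤ Real.cosh D₀ := fun s =>
    hdist _ (L1 s) _ (L2 s) (Lq s) (y s) (hy s) (x s) (hx s) (hyq s)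
      (gen _ (L1 s) _ (L2 s) (Lq s) (L1N s) (L2N s) (x s) (τ s) (hxτ s))
  have hyy : ∀ n : ℕ, -eta y₀ (y (n : ℝ)) ≤
      Real.cosh (D₀ + ((n : ℝ) + C₂) + D₀) := by
    intro n
    have hn0 : 0 ≤ (n : ℝ) + C₂ := by positivity
    have h0 := hplus (n : ℝ) (Nat.cast_nonneg n) x₀ hx₀ (x (n : ℝ)) (hx _) t₀ (τ (n : ℝ)) ht₀
      (hτ _) hxt₀ (hxτ _)
    have h1 := H2_triangle hy₀ hx₀ (hx (n : ℝ)) hD₀ hn0 hyx₀ h0
    have h2 : -eta (x (n : ℝ)) (y (n : ℝ)) ≤ Real.cosh D₀ := by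
      rw [gf6_eta_comm]; exact hyx _
    exact H2_triangle hy₀ (hx (n : ℝ)) (hy (n : ℝ)) (by linarith) hD₀ h1 h2
  set Cq := -q (t.m.S.s.X y₀) ξ₂ with hCdef
  have key : ∀ n : ℕ, c₁ * Real.exp (n : ℝ) ≤
      C₁ * Real.exp (θ * (D₀ + ((n : ℝ) + C₂) + D₀)) * Cq := by
    intro n
    have hn0 : 0 ≤ (n : ℝ) + C₂ := by positivity
    have h1 := hw ξ₁ h₁ ξ₂ h₂ h12 (n : ℝ) (y (n : ℝ)) (hy _) (hyq _)
    have h2 := hminus y₀ hy₀ (y (n : ℝ)) (hy _) hy₀N (hyN _)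
      (D₀ + ((n : ℝ) + C₂) + D₀) (by linarith) (hyy n)
    exact h1.trans h2
  have hg : 0 < 1 - θ := by linarith
  set g := 1 - θ with hgdef
  set M := C₁ * Real.exp (θ * (2 * D₀ + C₂)) * Cq with hMdef
  have key2 : ∀ n : ℕ, c₁ * Real.exp ((n : ℝ) * g) ≤ M := by
    intro n
    have h1 := key n
    have h2 : θ * (D₀ + ((n : ℝ) + C₂) + D₀) =
        θ * (2 * D₀ + C₂) + (n : ℝ) * θ := by ring
    rw [h2, Real.exp_add] at h1
    have h3 : Real.exp (n : ℝ) =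
        Real.exp ((n : ℝ) * g) * Real.exp ((n : ℝ) * θ) := by
      rw [← Real.exp_add]; congr 1; rw [hgdef]; ring
    rw [h3] at h1
    have hp : 0 < Real.exp ((n : ℝ) * θ) := Real.exp_pos _
    have h4 : c₁ * Real.exp ((n : ℝ) * g) * Real.exp ((n : ℝ) * θ) ≤
        M * Real.exp ((n : ℝ) * θ) := by
      calc c₁ * Real.exp ((n : ℝ) * g) * Real.exp ((n : ℝ) * θ)
          = c₁ * (Real.exp ((n : ℝ) * g) * Real.exp ((n : ℝ) * θ)) := by ring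
        _ ≤ C₁ * (Real.exp (θ * (2 * D₀ + C₂)) * Real.exp ((n : ℝ) * θ)) * Cq := h1
        _ = M * Real.exp ((n : ℝ) * θ) := by rw [hMdef]; ring
    exact le_of_mul_le_mul_right h4 hp
  obtain ⟨n, hn⟩ := exists_nat_gt (M / c₁ / g)
  have h5 := key2 n
  have h6 : (n : ℝ) * g + 1 ≤ Real.exp ((n : ℝ) * g) := Real.add_one_le_exp _
  rw [div_lt_iff₀ hg, div_lt_iff₀ hc₁] at hn
  nlinarith

end A_gap6

alias gap6 := A_gap6.gap6

namespace A_touch6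

/- Proof:
dich6 and gap6
-/
theorem touch6 {κ ι : Type*} (t : TT κ ι) : ∃ N ∈ Dual t.p.S, ∃ y ∈ H2, q (t.m.S.s.X y) N = sn t.m.T y := by
  rcases dich6 t with h | ⟨ε, hε, h⟩
  · exact h
  · exact (gap6 t hε h).elim

end A_touch6

alias touch6 := A_touch6.touch6

namespace A_tsign6

/- Proof:
q (m.X y) N = sn T y in (0,1) (snprops6); for N' in Dual: q (m.X y) N' <= sn T y (lower6), so the hypothesis hmax of footsign6 holds.
-/
theorem tsign6 {κ ι : Type*} (t : TT κ ι) {N : V4} (hN : N ∈ Dual t.p.S) {y : V3} (hy : y ∈ H2) (h : q (t.m.S.s.X y) N = sn t.m.T y)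
    {n : V4} (hn : n ∈ t.m.S.s.Nr y) : q n N < 0 := by
  have h1 := (snprops6 t.m).2.1 y hy
  refine footsign6 t hN hy ?_ ?_ (fun N' hN' => ?_) hn
  · rw [h]; exact h1.1
  · rw [h]; exact h1.2.1
  · rw [h]; exact lower6 t hN' hy

end A_tsign6

alias tsign6 := A_tsign6.tsign6

namespace A_rigm6

/- Proof:
Let A = t.m, T = A.T, Y = A.Y, M = A.σ • EE, X = A.S.s.X = nrm Y (A.SX). For z in H2: q (Y z)(Y z) = q (Y0 ..)(Y0 ..) = -1 - T^2 (A.met in a cell containing z, which exists by A.pg.sub.fan), so X z = c_z Y z with c_z = (sqrt(1+T z^2))^-1 and sn T z = c_z T z (snprops6). U z := -(q (Y0 A.σ T z) M) = T z, U' z := -(q (Y z)(-N)) = q (Y z) N. U' z <= U z because c_z U' z = q (X z) N <= sn T z = c_z T z (lower6). U and U' are continuous on H2 (A.T_cont, A.poly.cont: A.pg.poly.cont). s1 <= U <= 1/s1 (snprops6). If U z = U' z then q (X z) N = sn T z, so q n N < 0 for n in Nr z (tsign6),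 in particular for n = A.n i with z in C i (A.Sn). ls6 at z with first surface (A.C, Y0 A.σ T, A.n0) (A.pg0), second surface (A.C, Y, A.n) (A.pg), SameCellMetric symmetric to A.met, hfu: left, M, M' = -N, hn: A.n0E, hn': 0 < q (A.n i)(-N), hu: |q (nrm (Y0..) z) M| = sn < 1, h0: q (Y0 z) M = -U z = -U' z = q (Y z)(-N), hD from U' <= U: LocStr z U U' (up to rewriting the functions: use the functions fun z => -(q (Y0 ..z) M) and fun z => -(q (Y z)(-N)) throughout). cont6: U = U' on H2, so q (X x) N = c_x U' x = c_x T x = sn T x.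
-/
theorem rigm6 {κ ι : Type*} (t : TT κ ι) {N : V4} (hN : N ∈ Dual t.p.S) {y : V3} (hy : y ∈ H2) (h : q (t.m.S.s.X y) N = sn t.m.T y)
    {x : V3} (hx : x ∈ H2) : q (t.m.S.s.X x) N = sn t.m.T x := by
  have hneg : ∀ X : V4, q X (-N) = -(q X N) := by
    intro X
    simp only [q, Pi.neg_apply]
    ring
  have hqc : ∀ (a : ℝ) (X Z : V4), q (a • X) Z = a * q X Z := by
    intro a X Z
    simp only [q, Pi.smul_apply, smul_eq_mul]
    ring
  have hNN : q (-N) (-N) = -1 := by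
    rw [← hN.1]
    simp only [q, Pi.neg_apply]
    ring
  obtain ⟨hEE, hP, -, -, s1, hs1, hb⟩ := snprops6 t.m
  have hcell : ∀ z ∈ H2, ∃ i, z ∈ t.m.C i := fun z hz => by
    obtain ⟨k, y, j, hf⟩ := t.m.pg.sub.fan z hz
    exact ⟨_, (hf.cell 0).1⟩
  have hYY : ∀ z ∈ H2, q (t.m.Y z) (t.m.Y z) = -(1 + t.m.T z ^ 2) := by
    intro z hz
    obtain ⟨i, hi⟩ := hcell z hz
    rw [t.m.met i z hi z hi]
    have h1 : eta z z = -1 := hz.1
    have h2 : t.m.σ ^ 2 = 1 := by rcases t.m.sig with h | h <;> rw [h] <;> norm_num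
    have h3 : q (Y0 t.m.σ t.m.T z) (Y0 t.m.σ t.m.T z) = eta z z - t.m.σ ^ 2 * t.m.T z ^ 2 := by
      simp [Y0, emb, q, eta]
      ring
    rw [h3, h1, h2]
    ring
  have hcp : ∀ z : V3, 0 < (Real.sqrt (1 + t.m.T z ^ 2))⁻¹ := fun z => by positivity
  have hXN : ∀ z ∈ H2, q (t.m.S.s.X z) N = (Real.sqrt (1 + t.m.T z ^ 2))⁻¹ * q (t.m.Y z) N := by
    intro z hz
    rw [t.m.SX, ← hqc]
    unfold nrm
    rw [hYY z hz, neg_neg]
  have hU : ∀ z ∈ H2, -(q (Y0 t.m.σ t.m.T z) (t.m.σ • EE)) = t.m.T z := fun z hz => (hP z hz).2.2.2.1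
  have hsn : ∀ z ∈ H2, sn t.m.T z = (Real.sqrt (1 + t.m.T z ^ 2))⁻¹ * t.m.T z :=
    fun z hz => (hP z hz).2.2.2.2.1
  have hle : ∀ z ∈ H2, q (t.m.Y z) N ≤ t.m.T z := by
    intro z hz
    have h1 := lower6 t hN hz
    rw [hXN z hz, hsn z hz] at h1
    exact le_of_mul_le_mul_left h1 (hcp z)
  have hc1 : ContinuousOn (fun z => -(q (Y0 t.m.σ t.m.T z) (t.m.σ • EE))) H2 :=
    t.m.T_cont.congr hU
  have hc2 : ContinuousOn (fun z => -(q (t.m.Y z) (-N))) H2 := by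
    have h1 := t.m.pg.poly.cont
    have h2 : ∀ i, ContinuousOn (fun z => t.m.Y z i) H2 := fun i => continuousOn_pi.1 h1 i
    simp only [q]
    exact ((((h2 0).mul continuousOn_const).neg.add ((h2 1).mul continuousOn_const)).add
      ((h2 2).mul continuousOn_const) |>.sub ((h2 3).mul continuousOn_const)).neg
  have hloc : ∀ z ∈ H2, -(q (Y0 t.m.σ t.m.T z) (t.m.σ • EE)) = -(q (t.m.Y z) (-N)) →
      LocStr z (fun z => -(q (Y0 t.m.σ t.m.T z) (t.m.σ • EE))) (fun z => -(q (t.m.Y z) (-N))) := by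
    intro z hz hz2
    have e1 : q (t.m.Y z) N = t.m.T z := by
      rw [hU z hz, hneg] at hz2
      linarith
    have e2 : q (t.m.S.s.X z) N = sn t.m.T z := by
      rw [hXN z hz, hsn z hz, e1]
    refine ls6 t.m.pg0 t.m.pg (fun i a ha b hb' => (t.m.met i a ha b hb').symm) (Or.inl rfl) hz
      hEE hNN (fun i hi => t.m.n0E i z hz hi) ?_ ?_ ?_ ?_
    · intro i hi
      have := tsign6 t hN hz e2 (t.m.Sn i z hz hi)
      rw [hneg]
      linarith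
    · obtain ⟨p1, p2, p3, -⟩ := hP z hz
      have p4 : q (nrm (Y0 t.m.σ t.m.T) z) (t.m.σ • EE) = -(sn t.m.T z) := by linarith
      rw [p4, abs_neg, abs_of_pos p1]
      exact p2
    · exact neg_injective hz2
    · intro w hw
      have := hU w hw
      have := hle w hw
      rw [hneg]
      linarith
  have hfin := cont6 hc1 hc2 hloc hs1 (C₀ := s1⁻¹) (fun z hz => by
    rw [hU z hz]
    exact ⟨(hb z hz).2.2.1, (hb z hz).2.2.2⟩) hy (by
    rw [hU y hy, hneg, neg_neg]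
    rw [hXN y hy, hsn y hy] at h
    exact (mul_left_cancel₀ (hcp y).ne' h).symm) hx
  rw [hU x hx, hneg, neg_neg] at hfin
  rw [hXN x hx, hsn x hx, hfin]

end A_rigm6

alias rigm6 := A_rigm6.rigm6

namespace A_fixed6

/- Proof:
For y in H2: q (m.X y)(g.2 N): put x = g.1^-1 y in H2 (G_inv, G_H2), m.X y = g.2 (m.X x) (G_X), so q (m.X y)(g.2 N) = q (m.X x) N = sn T x = sn T y (snprops6: invariance) = q (m.X y) N. So q (m.X y)(g.2 N - N) = 0 for all y in H2 and span6 gives g.2 N = N.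
-/
theorem fixed6 {κ ι : Type*} (t : TT κ ι) {N : V4} (hall : ∀ x ∈ H2, q (t.m.S.s.X x) N = sn t.m.T x)
    {g : (V3 ≃ₗ[ℝ] V3) × (V4 ≃ₗ[ℝ] V4)} (hg : g ∈ t.m.S.G) : g.2 N = N := by
  have hsub : ∀ A B C : V4, q A (B - C) = q A B - q A C := by
    intro A B C
    simp only [q, Pi.sub_apply]
    ring
  obtain ⟨-, -, -, hinv, -⟩ := snprops6 t.m
  have key : g.2 N - N = 0 := by
    refine span6 t.m.S.g ?_
    intro y hy
    have hx : g.1.symm y ∈ H2 := t.m.S.G_H2 _ (t.m.S.G_inv g hg) y hy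
    have h1 : t.m.S.s.X y = g.2 (t.m.S.s.X (g.1.symm y)) := by
      have := t.m.S.G_X g hg _ hx
      rwa [LinearEquiv.apply_symm_apply] at this
    have h2 : sn t.m.T y = sn t.m.T (g.1.symm y) := by
      have := hinv g hg _ hx
      rwa [LinearEquiv.apply_symm_apply] at this
    have h3 : q (t.m.S.s.X y) (g.2 N) = sn t.m.T y := by
      rw [h1, t.m.S.G_q g hg, hall _ hx, h2]
    rw [hsub, h3, hall y hy, sub_self]
  exact sub_eq_zero.1 key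

end A_fixed6

alias fixed6 := A_fixed6.fixed6

namespace A_uppereq6

/- Proof:
Xp = t.p.S.s.X = nrm t.p.Y, T = t.p.T, s = sn T. u(x) = -q (Xp x) N is >= 0 and continuous on H2 and G-invariant: u(g.1 x) = -q (g.2 Xp x)(g.2 N) = u(x) by hfix, G_X, G_q. Let x1 maximise u on the compact set F; by F_cov it is a maximum over H2. ext6 for Z = -N at x1 (q (Xp y)(-N) = u(y) <= u(x1)) and polar6: -1 + u(x1)^2 <= 0 with equality only if -N = -(q (Xp x1)(-N)) Xp x1 = -u(x1) Xp x1, i.e. N = Xp x1 (u = 1): then q xi N = q xi (Xp x1) < 0 (Lam_strict6), contradiction with h0. So u(x1) < 1 and u < 1 on H2.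
f = arcsin u - arcsin s is continuous, invariant; let x2 maximise it over F, hence over H2. Suppose f(x2) > 0: s(x2) < u(x2) < 1. lc6 with the first surface (t.p.C, Y0 t.p.σ T, t.p.n0), second (t.p.C, t.p.Y, t.p.n), M = t.p.σ • EE, M' = N, x = x2: -(q (nrm (Y0..) z) M) = s z (snprops6), hn: t.p.n0E, hlt: arcsin s(x2) < arcsin u(x2), hmin from the maximality of f. Contradiction. So u <= s on H2, and s <= u by upper6.
-/
theorem uppereq6 {κ ι : Type*} (t : TT κ ι) {N : V4} (hN : N ∈ Dual t.p.S) (hfix : ∀ g ∈ t.p.S.G, g.2 N = N) {ξ : V4}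
    (hξ : ξ ∈ Lam t.p.S) (h0 : q ξ N = 0) (hO : Opp t.p.S N ξ) {x : V3} (hx : x ∈ H2) :
    q (t.p.S.s.X x) N = -sn t.p.T x := by
  obtain ⟨hME, hsn, hsnc, hsni, -⟩ := snprops6 t.p
  have hNN : q N N = -1 := hN.1
  have hSX : t.p.S.s.X = nrm t.p.Y := t.p.SX
  obtain ⟨u, hu⟩ : ∃ u : V3 → ℝ, u = fun z => -q (t.p.S.s.X z) N := ⟨_, rfl⟩
  have hue : ∀ z, u z = -q (t.p.S.s.X z) N := fun z => by rw [hu]
  have hu0 : ∀ z ∈ H2, 0 ≤ u z := by
    intro z hz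
    rw [hue]
    have := hN.2 z hz
    linarith
  have hqc : Continuous (fun Z : V4 => q Z N) := by
    unfold q
    fun_prop
  have huc : ContinuousOn u H2 := by
    rw [hu]
    exact (hqc.comp_continuousOn t.p.S.g.contX).neg
  have hui : ∀ g ∈ t.p.S.G, ∀ z ∈ H2, u (g.1 z) = u z := by
    intro g hg z hz
    rw [hue, hue, t.p.S.G_X g hg z hz]
    conv_lhs => rw [← hfix g hg]
    rw [t.p.S.G_q g hg]
  obtain ⟨g₀, hg₀, hg₀F⟩ := t.p.S.F_cov x hx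
  have hFne : t.p.S.F.Nonempty := ⟨_, hg₀F⟩
  obtain ⟨x1, hx1F, hx1⟩ := t.p.S.F_cpt.exists_isMaxOn hFne (huc.mono t.p.S.F_sub)
  have hx1H : x1 ∈ H2 := t.p.S.F_sub hx1F
  have hmax1 : ∀ y ∈ H2, u y ≤ u x1 := by
    intro y hy
    obtain ⟨g, hg, hgF⟩ := t.p.S.F_cov y hy
    rw [← hui g hg y hy]
    exact hx1 hgF
  have hqneg : ∀ Z : V4, q Z (-N) = -q Z N := by
    intro Z
    simp only [q, Pi.neg_apply]
    ring
  have hqnn : q (-N) (-N) = q N N := by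
    simp only [q, Pi.neg_apply]
    ring
  have hext := ext6 t.p.S.g hx1H (Z := -N) (by
    intro y hy
    rw [hqneg, hqneg, ← hue, ← hue]
    exact hmax1 y hy)
  obtain ⟨hp1, hp2⟩ := polar6 t.p.S.g hx1H hext
  rw [hqnn, hNN, hqneg, ← hue] at hp1 hp2
  have hux1 : u x1 < 1 := by
    by_contra hcon
    have hge : 1 ≤ u x1 := not_lt.1 hcon
    have h1 : u x1 = 1 := by nlinarith
    have hNe : -N = (-(u x1)) • t.p.S.s.X x1 := hp2 (by rw [h1]; norm_num)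
    rw [h1] at hNe
    have hNe' : N = t.p.S.s.X x1 := by
      have := congrArg (fun Z => -Z) hNe
      simpa using this
    have hst : q (t.p.S.s.X x1) ξ < 0 := Lam_strict6 t.p.S hξ hx1H
    have : q ξ N = q (t.p.S.s.X x1) ξ := by
      rw [← hNe']
      simp only [q]
      ring
    linarith
  have hult : ∀ y ∈ H2, u y < 1 := fun y hy => lt_of_le_of_lt (hmax1 y hy) hux1
  obtain ⟨f, hf⟩ : ∃ f : V3 → ℝ, f = fun z => Real.arcsin (u z) - Real.arcsin (sn t.p.T z) := ⟨_, rfl⟩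
  have hfe : ∀ z, f z = Real.arcsin (u z) - Real.arcsin (sn t.p.T z) := fun z => by rw [hf]
  have hfc : ContinuousOn f H2 := by
    rw [hf]
    exact (Real.continuous_arcsin.comp_continuousOn huc).sub (Real.continuous_arcsin.comp_continuousOn hsnc)
  obtain ⟨x2, hx2F, hx2⟩ := t.p.S.F_cpt.exists_isMaxOn hFne (hfc.mono t.p.S.F_sub)
  have hx2H : x2 ∈ H2 := t.p.S.F_sub hx2F
  have hmax2 : ∀ y ∈ H2, f y ≤ f x2 := by
    intro y hy
    obtain ⟨g, hg, hgF⟩ := t.p.S.F_cov y hy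
    have : f (g.1 y) = f y := by
      rw [hfe, hfe, hui g hg y hy, hsni g hg y hy]
    rw [← this]
    exact hx2 hgF
  have hmain : u x ≤ sn t.p.T x := by
    by_contra hcon
    have hlt : sn t.p.T x < u x := not_le.1 hcon
    have h1 : Real.arcsin (sn t.p.T x) < Real.arcsin (u x) := by
      apply Real.strictMonoOn_arcsin _ _ hlt
      · exact ⟨by linarith [(hsn x hx).1], by linarith [(hsn x hx).2.1]⟩
      · exact ⟨by linarith [hu0 x hx], by linarith [hult x hx]⟩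
    have h2 : 0 < f x2 := lt_of_lt_of_le (by rw [hfe]; linarith) (hmax2 x hx)
    have e1 : ∀ z ∈ H2, -(q (nrm (Y0 t.p.σ t.p.T) z) (t.p.σ • EE)) = sn t.p.T z := fun z hz => (hsn z hz).2.2.1
    have e2 : ∀ z, -(q (nrm t.p.Y z) N) = u z := fun z => by rw [hue, hSX]
    refine lc6 t.p.pg0 t.p.pg (fun i a ha b hb => (t.p.met i a ha b hb).symm) hx2H hME hNN
      (fun i hi => t.p.n0E i x2 hx2H hi) ?_ ?_ ?_ ?_
    · have := e1 x2 hx2H
      rw [abs_lt]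
      constructor <;> linarith [(hsn x2 hx2H).1, (hsn x2 hx2H).2.1]
    · have := e2 x2
      rw [abs_lt]
      constructor <;> linarith [hu0 x2 hx2H, hult x2 hx2H]
    · rw [e1 x2 hx2H, e2]
      rw [hfe] at h2
      linarith
    · intro z hz
      rw [e1 x2 hx2H, e2, e1 z hz, e2]
      have := hmax2 z hz
      rw [hfe, hfe] at this
      linarith
  have hup := upper6 t hN hξ h0 hO hx
  rw [hue] at hmain
  linarith

end A_uppereq6

alias uppereq6 := A_uppereq6.uppereq6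

namespace A_final6

theorem final6_ext {f g : V3 →ₗ[ℝ] V4} (h : ∀ x ∈ H2, f x = g x) : f = g := by
  have hs : Real.sqrt 2 * Real.sqrt 2 = 2 := Real.mul_self_sqrt (by norm_num)
  have hs0 : 0 < Real.sqrt 2 := Real.sqrt_pos.2 (by norm_num)
  have e0 : f ![1, 0, 0] = g ![1, 0, 0] := h _ (by simp [H2, eta])
  have e1 : f ![Real.sqrt 2, 1, 0] = g ![Real.sqrt 2, 1, 0] := h _ (by
    refine ⟨?_, by simp⟩
    simp only [eta, Matrix.cons_val_zero, Matrix.cons_val_one, Matrix.cons_val]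
    rw [hs]
    norm_num)
  have e2 : f ![Real.sqrt 2, 0, 1] = g ![Real.sqrt 2, 0, 1] := h _ (by
    refine ⟨?_, by simp⟩
    simp only [eta, Matrix.cons_val_zero, Matrix.cons_val_one, Matrix.cons_val]
    rw [hs]
    norm_num)
  apply LinearMap.ext
  intro x
  have hx : x = (x 0 - Real.sqrt 2 * x 1 - Real.sqrt 2 * x 2) • (![1, 0, 0] : V3) +
      x 1 • (![Real.sqrt 2, 1, 0] : V3) + x 2 • (![Real.sqrt 2, 0, 1] : V3) := by
    ext i
    fin_cases i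
    · simp
      ring
    · simp
    · simp
  rw [hx]
  simp only [map_add, map_smul, e0, e1, e2]

theorem final6_q1 (a b : ℝ) (X Y Z : V4) : q (a • X + b • Y) Z = a * q X Z + b * q Y Z := by
  simp only [q, Pi.add_apply, Pi.smul_apply, smul_eq_mul]
  ring

theorem final6_q2 (a b : ℝ) (X Y Z : V4) : q Z (a • X + b • Y) = a * q Z X + b * q Z Y := by
  simp only [q, Pi.add_apply, Pi.smul_apply, smul_eq_mul]
  ring

theorem final6_qs1 (a : ℝ) (X Z : V4) : q (a • X) Z = a * q X Z := by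
  simp only [q, Pi.smul_apply, smul_eq_mul]
  ring

theorem final6_qs2 (a : ℝ) (X Z : V4) : q Z (a • X) = a * q Z X := by
  simp only [q, Pi.smul_apply, smul_eq_mul]
  ring

theorem final6_qn (X Z : V4) : q X (-Z) = -q X Z := by
  simp only [q, Pi.neg_apply]
  ring

theorem final6_symm (X Y : V4) : q X Y = q Y X := by
  simp only [q]
  ring

theorem final6_YY {ι : Type*} (A : PT ι) {x : V3} (hx : x ∈ H2) :
    q (A.Y x) (A.Y x) = -(1 + A.T x ^ 2) := by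
  obtain ⟨k, y, j, hf⟩ := A.pg.sub.fan x hx
  have h1 := A.met (j 0) x (hf.cell 0).1 x (hf.cell 0).1
  rw [h1]
  have h2 : eta x x = -1 := hx.1
  have h3 : A.σ ^ 2 = 1 := by
    rcases A.sig with h | h <;> rw [h] <;> norm_num
  have h4 : q (Y0 A.σ A.T x) (Y0 A.σ A.T x) = eta x x - A.σ ^ 2 * A.T x ^ 2 := by
    simp only [q, Y0, emb, eta, Matrix.cons_val_zero, Matrix.cons_val_one, Matrix.cons_val]
    ring
  rw [h4, h2, h3]
  ring

theorem final6_X {ι : Type*} (A : PT ι) {x : V3} (hx : x ∈ H2) :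
    A.S.s.X x = (Real.sqrt (1 + A.T x ^ 2))⁻¹ • A.Y x := by
  rw [A.SX]
  unfold nrm
  rw [final6_YY A hx, neg_neg]

theorem final6_rpos (t : ℝ) : 0 < Real.sqrt (1 + t ^ 2) := Real.sqrt_pos.2 (by positivity)

theorem final6_Y {ι : Type*} (A : PT ι) {x : V3} (hx : x ∈ H2) :
    A.Y x = Real.sqrt (1 + A.T x ^ 2) • A.S.s.X x := by
  rw [final6_X A hx, smul_smul, mul_inv_cancel₀ (final6_rpos _).ne', one_smul]

theorem final6_YN {ι : Type*} (A : PT ι) {x : V3} (hx : x ∈ H2) {N : V4} {c : ℝ}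
    (h : q (A.S.s.X x) N = c * sn A.T x) : q (A.Y x) N = c * A.T x := by
  rw [final6_Y A hx, final6_qs1, h]
  have := (final6_rpos (A.T x)).ne'
  unfold sn
  field_simp

theorem final6_eqY {ι : Type*} (A : PT ι) {g : (V3 ≃ₗ[ℝ] V3) × (V4 ≃ₗ[ℝ] V4)} (hg : g ∈ A.S.G)
    {x : V3} (hx : x ∈ H2) : A.Y (g.1 x) = g.2 (A.Y x) := by
  rw [final6_Y A (A.S.G_H2 g hg x hx), A.T_G g hg x hx, A.S.G_X g hg x hx, final6_Y A hx, map_smul]

theorem final6_eqL {ι : Type*} (A : PT ι) {g : (V3 ≃ₗ[ℝ] V3) × (V4 ≃ₗ[ℝ] V4)} (hg : g ∈ A.S.G)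
    {L : V3 →ₗ[ℝ] V4} {M : V4} (hL : ∀ z ∈ H2, A.Y z = L z + A.T z • M) (hM : g.2 M = M)
    {x : V3} (hx : x ∈ H2) : L (g.1 x) = g.2 (L x) := by
  have h1 := final6_eqY A hg hx
  rw [hL _ (A.S.G_H2 g hg x hx), hL x hx, A.T_G g hg x hx, map_add, map_smul, hM] at h1
  exact add_right_cancel h1

/- Proof:
touch6: N in Dual t.p.S, y in H2 with q (m.X y) N = sn Tm y (Tm = t.m.T, Tp = t.p.T). rigm6: q (m.X x) N = sn Tm x for all x in H2. fixed6: g.2 N = N for g in G (t.hG). tsign6: q n N < 0 for all n in t.m.S.s.Nr x, all x in H2. leaf6 at y (q (m.X y) N = sn in (0,1) by snprops6; maximality over Dual by lower6; sign by tsign6): xi1 in Lam t.p.S with q xi1 N = 0. opp6: Opp t.p.S N xi1. uppereq6: q (p.X x) N = -sn Tp x.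
For A = t.m or t.p and x in H2: q (A.Y x)(A.Y x) = -1 - T^2 (A.met in a cell containing x), so A.S.s.X x = (sqrt(1+T^2))^-1 • A.Y x and sn T x = (sqrt(1+T^2))^-1 T x (snprops6). Hence q (t.m.Y x)(-N) = -Tm x and q (t.p.Y x) N = -Tp x.
lin6 for (t.m.C, t.m.Y, t.m.n), sigma = t.m.σ, T = Tm, M = -N (hn: t.m.n i in Nr x by t.m.Sn, so 0 < q (n i)(-N)): L1 with t.m.Y z = L1 z + Tm z • (-N). lin6 for t.p with M = N (hn: oppn6, -1 < q (p.X x) N = -sn): L2 with t.p.Y z = L2 z + Tp z • N.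
Equivariance: for g in G, x in H2: A.Y (g.1 x) = sqrt(1+T^2) A.S.s.X (g.1 x) = sqrt(1+T^2) g.2 (A.S.s.X x) = g.2 (A.Y x) (T invariant: A.T_G), so L1 (g.1 x) = t.m.Y (g.1 x) + Tm x N = g.2 (t.m.Y x) + Tm x g.2 N = g.2 (L1 x); same for L2.
q (L1 x)(L2 y) = q (t.m.Y x + Tm x N)(t.p.Y y - Tp y N) = q (t.m.Y x)(t.p.Y y) - Tp y q (t.m.Y x) N + Tm x q N (t.p.Y y) + Tm x Tp y = q (t.m.Y x)(t.p.Y y) - Tm x Tp y - Tm x Tp y + Tm x Tp y <= q (t.m.Y x)(t.p.Y y) and q (t.m.Y x)(t.p.Y y) = sqrt(1+Tm^2) sqrt(1+Tp^2) q (m.X x)(p.X y) < sqrt(1+Tm^2) sqrt(1+Tp^2) (t.lt1) <= constant (T bounded by snprops6). same_map (G = t.p.S.G, F = t.p.S.F): L1 = L2 =: L, E := N. g.2 (L x) = L (g.1 x) for x in H2, hence for all x since H2 spans V3.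
-/
theorem final6 {κ ι : Type*} (t : TT κ ι) : ∃ (L : V3 →ₗ[ℝ] V4) (E : V4),
    (∀ x y, q (L x) (L y) = eta x y) ∧ (∀ x, q (L x) E = 0) ∧ q E E = -1 ∧
    (∀ x ∈ H2, t.m.Y x = L x - t.m.T x • E) ∧
    (∀ x ∈ H2, t.p.Y x = L x + t.p.T x • E) ∧
    (∀ g ∈ t.p.S.G, g.2 E = E ∧ ∀ x, g.2 (L x) = L (g.1 x)) := by
  classical
  obtain ⟨N, hN, y, hy, hyN⟩ := touch6 t
  have hNN : q N N = -1 := hN.1
  have hsm : ∀ x ∈ H2, q (t.m.S.s.X x) N = sn t.m.T x := fun x hx => rigm6 t hN hy hyN hx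
  have hfixm : ∀ g ∈ t.m.S.G, g.2 N = N := fun g hg => fixed6 t hsm hg
  have hfix : ∀ g ∈ t.p.S.G, g.2 N = N := fun g hg => hfixm g (by rw [t.hG]; exact hg)
  have hsg : ∀ x ∈ H2, ∀ n ∈ t.m.S.s.Nr x, q n N < 0 := fun x hx n hn =>
    tsign6 t hN hx (hsm x hx) hn
  obtain ⟨-, pm, -, -, s₁, hs₁, bm⟩ := snprops6 t.m
  obtain ⟨-, pp, -, -, s₂, hs₂, bp⟩ := snprops6 t.p
  have hsy : 0 < sn t.m.T y := (pm y hy).1
  have hsy1 : sn t.m.T y < 1 := (pm y hy).2.1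
  obtain ⟨ξ, hξ, -, -, hξN, -, -⟩ := leaf6 t hN hy (by rw [hyN]; exact hsy.le)
    (by rw [hyN]; exact hsy1) (fun N' hN' => by rw [hyN]; exact lower6 t hN' hy) (hsg y hy)
  obtain ⟨n₀, hn₀⟩ := t.m.S.g.ne y hy
  obtain ⟨hO, -⟩ := opp6 t hNN hy (by rw [hyN]; linarith) (by rw [hyN]; exact hsy1)
    ⟨n₀, hn₀, hsg y hy n₀ hn₀⟩ hξ hξN
  have hsp : ∀ x ∈ H2, q (t.p.S.s.X x) N = -sn t.p.T x := fun x hx =>
    uppereq6 t hN hfix hξ hξN hO hx
  have hYm : ∀ x ∈ H2, q (t.m.Y x) N = t.m.T x := fun x hx => by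
    rw [final6_YN t.m hx (c := 1) (by rw [hsm x hx, one_mul]), one_mul]
  have hYp : ∀ x ∈ H2, q (t.p.Y x) N = -t.p.T x := fun x hx => by
    rw [final6_YN t.p hx (c := -1) (by rw [hsp x hx, neg_one_mul]), neg_one_mul]
  obtain ⟨L₁, h1, h1N, hX1⟩ := lin6 t.m.pg t.m.sig t.m.met (M := -N)
    (by rw [final6_qn, final6_symm, final6_qn, hNN]; norm_num)
    (fun x hx => by rw [final6_qn, hYm x hx])
    (fun x hx i hi => by
      rw [final6_qn]
      linarith [hsg x hx _ (t.m.Sn i x hx hi)])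
  obtain ⟨L₂, h2, h2N, hX2⟩ := lin6 t.p.pg t.p.sig t.p.met (M := N) hNN hYp
    (fun x hx i hi => oppn6 t.p.S hNN hξ hξN hO hx
      (by rw [hsp x hx]; linarith [(pp x hx).2.1]) (t.p.Sn i x hx hi))
  have h1N' : ∀ x, q (L₁ x) N = 0 := fun x => by
    have := h1N x
    rw [final6_qn] at this
    linarith
  have e1 : ∀ g ∈ t.p.S.G, ∀ x ∈ H2, L₁ (g.1 x) = g.2 (L₁ x) := fun g hg x hx =>
    final6_eqL t.m (by rw [t.hG]; exact hg) hX1 (by rw [map_neg, hfix g hg]) hx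
  have e2 : ∀ g ∈ t.p.S.G, ∀ x ∈ H2, L₂ (g.1 x) = g.2 (L₂ x) := fun g hg x hx =>
    final6_eqL t.p hg hX2 (hfix g hg) hx
  have hlt : ∀ x ∈ H2, ∀ z ∈ H2, q (L₁ x) (L₂ z) ≤ s₁⁻¹ * s₂⁻¹ := by
    intro x hx z hz
    have k1 : L₁ x = (1 : ℝ) • t.m.Y x + t.m.T x • N := by
      rw [hX1 x hx, one_smul, smul_neg, add_assoc, neg_add_cancel, add_zero]
    have k2 : L₂ z = (1 : ℝ) • t.p.Y z + (-t.p.T z) • N := by
      rw [hX2 z hz, one_smul, neg_smul, add_assoc, add_neg_cancel, add_zero]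
    have k3 : q (L₁ x) (L₂ z) = q (t.m.Y x) (t.p.Y z) - t.m.T x * t.p.T z := by
      rw [k1, k2, final6_q1, final6_q2, final6_q2, hYm x hx, final6_symm N (t.p.Y z), hYp z hz, hNN]
      ring
    have k4 : q (t.m.Y x) (t.p.Y z) = Real.sqrt (1 + t.m.T x ^ 2) * Real.sqrt (1 + t.p.T z ^ 2) *
        q (t.m.S.s.X x) (t.p.S.s.X z) := by
      rw [final6_Y t.m hx, final6_Y t.p hz, final6_qs1, final6_qs2]
      ring
    have k5 := t.lt1 x hx z hz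
    have k6 : 0 < t.m.T x * t.p.T z := mul_pos (t.m.T_pos x hx) (t.p.T_pos z hz)
    have k7 : Real.sqrt (1 + t.m.T x ^ 2) ≤ s₁⁻¹ := by
      have := (bm x hx).2.1
      rw [le_inv_comm₀ (final6_rpos _) hs₁]
      exact this
    have k8 : Real.sqrt (1 + t.p.T z ^ 2) ≤ s₂⁻¹ := by
      have := (bp z hz).2.1
      rw [le_inv_comm₀ (final6_rpos _) hs₂]
      exact this
    have k9 : Real.sqrt (1 + t.m.T x ^ 2) * Real.sqrt (1 + t.p.T z ^ 2) ≤ s₁⁻¹ * s₂⁻¹ :=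
      mul_le_mul k7 k8 (Real.sqrt_nonneg _) (by positivity)
    have k10 : 0 < Real.sqrt (1 + t.m.T x ^ 2) * Real.sqrt (1 + t.p.T z ^ 2) :=
      mul_pos (final6_rpos _) (final6_rpos _)
    have k11 : Real.sqrt (1 + t.m.T x ^ 2) * Real.sqrt (1 + t.p.T z ^ 2) *
        q (t.m.S.s.X x) (t.p.S.s.X z) ≤
        Real.sqrt (1 + t.m.T x ^ 2) * Real.sqrt (1 + t.p.T z ^ 2) * 1 :=
      mul_le_mul_of_nonneg_left k5.le k10.le
    rw [k3, k4]
    linarith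
  have hLL := same_map t.p.S.F_sub t.p.S.F_cpt t.p.S.F_cov t.p.S.G_q hNN h1 h2 h1N' h2N e1 e2 hlt
  subst hLL
  refine ⟨L₁, N, h1, h1N', hNN, fun x hx => ?_, hX2, fun g hg => ⟨hfix g hg, fun x => ?_⟩⟩
  · rw [hX1 x hx, smul_neg, sub_eq_add_neg]
  · have h8 : (g.2 : V4 →ₗ[ℝ] V4).comp L₁ = L₁.comp (g.1 : V3 →ₗ[ℝ] V3) :=
      final6_ext fun x hx => (e1 g hg x hx).symm
    exact congrArg (fun f => f x) h8

end A_final6

alias final6 := A_final6.final6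

end Helper935.Poly
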