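import Pool.Agent.Helper935_AdS.PVert
import Pool.Agent.Helper935_AdS.PPairA
import Pool.Agent.Helper935_AdS.PDiscB
import Pool.Agent.Helper935_AdS.PGapB

namespace Helper935.Poly

namespace A_upperP

theorem upperP_q_cont : Continuous (fun p : V4 × V4 => q p.1 p.2) := by
  unfold q
  fun_prop

theorem upperP_trans (S : CS) (s : V3 → ℝ) (hsG : ∀ g ∈ S.G, ∀ x ∈ H2, s (g.1 x) = s x)
    {N ξ : V4} (hN : N ∈ Dual S) (hξ : ξ ∈ Lam S) (h0 : q ξ N = 0) (hO : Opp S N ξ) {z : V3}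
    (hz : z ∈ H2) (hle : -1 ≤ q (S.s.X z) N) :
    ∃ (N' ξ' : V4) (y : V3), (N' ∈ Dual S ∧ y ∈ S.F ∧ -1 ≤ q (S.s.X y) N') ∧
      (‖ξ'‖ = 1 ∧ ξ' ∈ Lam S) ∧ q ξ' N' = 0 ∧ Opp S N' ξ' ∧
      q (S.s.X y) N' = q (S.s.X z) N ∧ s y = s z := by
  obtain ⟨g, hg, hF⟩ := S.F_cov z hz
  have hG := GG6 S hg
  have hξ' := hG.1 ξ hξ
  have hN' := hG.2 N hN
  have hOg := (Opp_G6 S hN.1 hξ h0 hO).1 g hg
  have h0' : q (g.2 ξ) (g.2 N) = 0 := by rw [S.G_q g hg]; exact h0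
  have hpos : 0 < ‖g.2 ξ‖⁻¹ := inv_pos.2 (norm_pos_iff.2 hξ'.1)
  have hq : q (S.s.X (g.1 z)) (g.2 N) = q (S.s.X z) N := by
    rw [S.G_X g hg z hz, S.G_q g hg]
  refine ⟨g.2 N, ‖g.2 ξ‖⁻¹ • g.2 ξ, g.1 z, ⟨hN', hF, by rw [hq]; exact hle⟩, ⟨?_, Lam_smul6 S hξ' hpos⟩,
    ?_, (Opp_G6 S hN'.1 hξ' h0' hOg).2 _ hpos, hq, hsG g hg z hz⟩
  · rw [norm_smul, norm_inv, norm_norm, inv_mul_cancel₀ (norm_ne_zero_iff.2 hξ'.1)]
  · have : ∀ (c : ℝ) (A B : V4), q (c • A) B = c * q A B := by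
      intro c A B
      simp only [q, Pi.smul_apply, smul_eq_mul]
      ring
    rw [this, h0', mul_zero]

/- Proof:
This is upper6 (see the hint, complete proof there for t.p) for a single P : PT ι.
Write Xp = P.S.s.X = nrm P.Y, T = P.T, s = sn T, u(N',y) = -q (Xp y) N' >= 0. Suppose u(N,x) < s x (< 1). Let PP = {(N',xi',y) : N' in Dual P.S, xi' in Lam P.S, |xi'| = 1, q xi' N' = 0, Opp P.S N' xi', y in F, u(N',y) <= 1}; compact. f = arcsin u(N',y) - arcsin (s y) is continuous on it; minimise; apply lc6 as in the hint.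
-/
theorem upperP {ι : Type*} (P : PT ι) {N : V4} (hN : N ∈ Dual P.S) {ξ : V4} (hξ : ξ ∈ Lam P.S) (h0 : q ξ N = 0) (hO : Opp P.S N ξ)
    {x : V3} (hx : x ∈ H2) : sn P.T x ≤ -q (P.S.s.X x) N := by
  by_contra hcon
  have hcon' := not_le.1 hcon
  obtain ⟨hEE, hsn, hsc, hsG, -⟩ := snprops6 P
  set S := P.S with hS
  have hXc : ContinuousOn S.s.X H2 := S.g.contX
  have hK1 := Dual_cpt6 S hXc (fun ξ hξ x hx => Lam_strict6 S hξ hx) 1
  have hK2 : IsCompact (Metric.sphere (0 : V4) 1) := isCompact_sphere 0 1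
  have hC := oppcl6 S
  have hQ := hK1.prod hK2
  have hcont : Continuous (fun r : (V4 × V3) × V4 => (r.1.1, r.2)) := by fun_prop
  have hP := hQ.inter_right (hC.preimage hcont)
  set PP : Set ((V4 × V3) × V4) := ({p : V4 × V3 | p.1 ∈ Dual S ∧ p.2 ∈ S.F ∧ -1 ≤ q (S.s.X p.2) p.1} ×ˢ
    Metric.sphere (0 : V4) 1) ∩ ((fun r : (V4 × V3) × V4 => (r.1.1, r.2)) ⁻¹'
      {p : V4 × V4 | (q p.1 p.1 = -1 ∧ ∀ x ∈ H2, q (S.s.X x) p.1 ≤ 0) ∧
    (‖p.2‖ = 1 ∧ p.2 ∈ Lam S) ∧ q p.2 p.1 = 0 ∧ Opp S p.1 p.2}) with hPdef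
  have hmemP : ∀ (N' ξ' : V4) (y : V3), (N' ∈ Dual S ∧ y ∈ S.F ∧ -1 ≤ q (S.s.X y) N') →
      (‖ξ'‖ = 1 ∧ ξ' ∈ Lam S) → q ξ' N' = 0 → Opp S N' ξ' → ((N', y), ξ') ∈ PP := by
    intro N' ξ' y h1 h2 h3 h4
    refine ⟨⟨h1, ?_⟩, h1.1, h2, h3, h4⟩
    rw [mem_sphere_zero_iff_norm]
    exact h2.1
  let f : (V4 × V3) × V4 → ℝ := fun r => Real.arcsin (-(q (S.s.X r.1.2) r.1.1)) - Real.arcsin (sn P.T r.1.2)
  have hfc : ContinuousOn f PP := by
    have hmaps : Set.MapsTo (fun r : (V4 × V3) × V4 => r.1.2) PP H2 := fun r hr => S.F_sub hr.1.1.2.1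
    have hc12 : ContinuousOn (fun r : (V4 × V3) × V4 => r.1.2) PP := by fun_prop
    have hc1 : ContinuousOn (fun r : (V4 × V3) × V4 => S.s.X r.1.2) PP := hXc.comp hc12 hmaps
    have hc2 : ContinuousOn (fun r : (V4 × V3) × V4 => sn P.T r.1.2) PP := hsc.comp hc12 hmaps
    have hc3 : ContinuousOn (fun r : (V4 × V3) × V4 => q (S.s.X r.1.2) r.1.1) PP :=
      upperP_q_cont.comp_continuousOn (hc1.prodMk (by fun_prop))
    exact (Real.continuous_arcsin.comp_continuousOn hc3.neg).sub (Real.continuous_arcsin.comp_continuousOn hc2)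
  obtain ⟨hsx0, hsx1, -⟩ := hsn x hx
  obtain ⟨N0, ξ0, y0, ha, hb, hc, hd, he, hf⟩ := upperP_trans S (sn P.T) hsG hN hξ h0 hO hx (by linarith)
  have hr0 : ((N0, y0), ξ0) ∈ PP := hmemP N0 ξ0 y0 ha hb hc hd
  have hux0 : 0 ≤ -q (S.s.X x) N := by linarith [hN.2 x hx]
  have hf0 : f ((N0, y0), ξ0) < 0 := by
    simp only [f]
    rw [he, hf]
    have := Real.arcsin_lt_arcsin (x := -q (S.s.X x) N) (y := sn P.T x) (by linarith) hcon' (by linarith)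
    linarith
  obtain ⟨r1, hr1, hmin⟩ := hP.exists_isMinOn ⟨_, hr0⟩ hfc
  have hf1 : f r1 < 0 := lt_of_le_of_lt (hmin hr0) hf0
  obtain ⟨⟨N1, y1⟩, ξ1⟩ := r1
  obtain ⟨⟨⟨hN1, hy1F, hle1⟩, -⟩, -, ⟨hn1, hξ1⟩, h01, hO1⟩ := hr1
  simp only at hN1 hy1F hle1 hn1 hξ1 h01 hO1
  have hy1 : y1 ∈ H2 := S.F_sub hy1F
  obtain ⟨hsy0, hsy1, hsy2, -⟩ := hsn y1 hy1
  have hf1' : Real.arcsin (-(q (S.s.X y1) N1)) < Real.arcsin (sn P.T y1) := by
    simp only [f] at hf1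
    linarith
  have hu0 : 0 ≤ -(q (S.s.X y1) N1) := by linarith [hN1.2 y1 hy1]
  have hu1 : -(q (S.s.X y1) N1) < 1 := by
    by_contra hge
    have h1 := Real.arcsin_of_one_le (not_lt.1 hge)
    rw [h1] at hf1'
    exact absurd (Real.arcsin_le_pi_div_two (sn P.T y1)) (not_le.2 hf1')
  have hSX : S.s.X = nrm P.Y := P.SX
  refine lc6 P.pg P.pg0 P.met hy1 (M := N1) (M' := P.σ • EE) hN1.1 hEE ?_ ?_ ?_ ?_ ?_
  · intro i hi
    exact oppn6 S hN1.1 hξ1 h01 hO1 hy1 (by linarith) (P.Sn i y1 hy1 hi)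
  · rw [← hSX, abs_lt]
    constructor <;> linarith
  · rw [abs_lt]
    constructor <;> linarith
  · rw [← hSX, hsy2]
    exact hf1'
  · intro z hz
    obtain ⟨hsz0, hsz1, hsz2, -⟩ := hsn z hz
    rw [← hSX, hsy2, hsz2]
    have hfr1 : f ((N1, y1), ξ1) = Real.arcsin (-(q (S.s.X y1) N1)) - Real.arcsin (sn P.T y1) := rfl
    by_cases hz1 : -1 ≤ q (S.s.X z) N1
    · obtain ⟨N2, ξ2, y2, ha2, hb2, hc2, hd2, he2, hf2⟩ :=
        upperP_trans S (sn P.T) hsG hN1 hξ1 h01 hO1 hz hz1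
      have h5 := hmin (hmemP N2 ξ2 y2 ha2 hb2 hc2 hd2)
      have h6 : f ((N2, y2), ξ2) = Real.arcsin (-(q (S.s.X z) N1)) - Real.arcsin (sn P.T z) := by
        simp only [f]
        rw [he2, hf2]
      have h7 : f ((N1, y1), ξ1) ≤ f ((N2, y2), ξ2) := h5
      rw [h6, hfr1] at h7
      exact h7
    · have h5 : (1 : ℝ) ≤ -(q (S.s.X z) N1) := by linarith [not_le.1 hz1]
      rw [Real.arcsin_of_one_le h5]
      have h6 := Real.arcsin_le_pi_div_two (sn P.T z)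
      linarith

end A_upperP

alias upperP := A_upperP.upperP

namespace A_dichP

theorem dichP_q_cont : Continuous (fun p : V4 × V4 => q p.1 p.2) := by
  unfold q
  fun_prop

theorem dichP_trans (S : CS) (s : V3 → ℝ) (hsG : ∀ g ∈ S.G, ∀ x ∈ H2, s (g.1 x) = s x)
    {N ξ : V4} (hN : N ∈ Dual S) (hξ : ξ ∈ Lam S) (h0 : q ξ N = 0) (hO : Opp S N ξ) {z : V3}
    (hz : z ∈ H2) (hle : -2 ≤ q (S.s.X z) N) :
    ∃ (N' ξ' : V4) (y : V3), (N' ∈ Dual S ∧ y ∈ S.F ∧ -2 ≤ q (S.s.X y) N') ∧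
      (‖ξ'‖ = 1 ∧ ξ' ∈ Lam S) ∧ q ξ' N' = 0 ∧ Opp S N' ξ' ∧
      q (S.s.X y) N' = q (S.s.X z) N ∧ s y = s z := by
  obtain ⟨g, hg, hF⟩ := S.F_cov z hz
  have hG := GG6 S hg
  have hξ' := hG.1 ξ hξ
  have hN' := hG.2 N hN
  have hOg := (Opp_G6 S hN.1 hξ h0 hO).1 g hg
  have h0' : q (g.2 ξ) (g.2 N) = 0 := by rw [S.G_q g hg]; exact h0
  have hpos : 0 < ‖g.2 ξ‖⁻¹ := inv_pos.2 (norm_pos_iff.2 hξ'.1)
  have hq : q (S.s.X (g.1 z)) (g.2 N) = q (S.s.X z) N := by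
    rw [S.G_X g hg z hz, S.G_q g hg]
  refine ⟨g.2 N, ‖g.2 ξ‖⁻¹ • g.2 ξ, g.1 z, ⟨hN', hF, by rw [hq]; exact hle⟩, ⟨?_, Lam_smul6 S hξ' hpos⟩,
    ?_, (Opp_G6 S hN'.1 hξ' h0' hOg).2 _ hpos, hq, hsG g hg z hz⟩
  · rw [norm_smul, norm_inv, norm_norm, inv_mul_cancel₀ (norm_ne_zero_iff.2 hξ'.1)]
  · have : ∀ (c : ℝ) (A B : V4), q (c • A) B = c * q A B := by
      intro c A B
      simp only [q, Pi.smul_apply, smul_eq_mul]
      ring
    rw [this, h0', mul_zero]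

theorem dichP {ι : Type*} (P : PT ι) : (∃ N ∈ Dual P.S, ∃ ξ ∈ Lam P.S, q ξ N = 0 ∧ Opp P.S N ξ ∧ ∃ x ∈ H2, -q (P.S.s.X x) N = sn P.T x) ∨
    ∃ ε : ℝ, 0 < ε ∧ ∀ N ∈ Dual P.S, ∀ ξ ∈ Lam P.S, q ξ N = 0 → Opp P.S N ξ → ∀ x ∈ H2,
      sn P.T x + ε ≤ -q (P.S.s.X x) N := by
  obtain ⟨hEE, hsn, hsc, hsG, -⟩ := snprops6 P
  set S := P.S with hS
  have hXc : ContinuousOn S.s.X H2 := S.g.contX
  have hK1 := Dual_cpt6 S hXc (fun ξ hξ x hx => Lam_strict6 S hξ hx) 2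
  have hK2 : IsCompact (Metric.sphere (0 : V4) 1) := isCompact_sphere 0 1
  have hC := oppcl6 S
  have hQ := hK1.prod hK2
  have hcont : Continuous (fun r : (V4 × V3) × V4 => (r.1.1, r.2)) := by fun_prop
  have hP := hQ.inter_right (hC.preimage hcont)
  set PP : Set ((V4 × V3) × V4) := ({p : V4 × V3 | p.1 ∈ Dual S ∧ p.2 ∈ S.F ∧ -2 ≤ q (S.s.X p.2) p.1} ×ˢ
    Metric.sphere (0 : V4) 1) ∩ ((fun r : (V4 × V3) × V4 => (r.1.1, r.2)) ⁻¹'
      {p : V4 × V4 | (q p.1 p.1 = -1 ∧ ∀ x ∈ H2, q (S.s.X x) p.1 ≤ 0) ∧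
    (‖p.2‖ = 1 ∧ p.2 ∈ Lam S) ∧ q p.2 p.1 = 0 ∧ Opp S p.1 p.2}) with hPdef
  have hmemP : ∀ (N' ξ' : V4) (y : V3), (N' ∈ Dual S ∧ y ∈ S.F ∧ -2 ≤ q (S.s.X y) N') →
      (‖ξ'‖ = 1 ∧ ξ' ∈ Lam S) → q ξ' N' = 0 → Opp S N' ξ' → ((N', y), ξ') ∈ PP := by
    intro N' ξ' y h1 h2 h3 h4
    refine ⟨⟨h1, ?_⟩, h1.1, h2, h3, h4⟩
    rw [mem_sphere_zero_iff_norm]
    exact h2.1
  let f : (V4 × V3) × V4 → ℝ := fun r => -(q (S.s.X r.1.2) r.1.1) - sn P.T r.1.2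
  have hfc : ContinuousOn f PP := by
    have hmaps : Set.MapsTo (fun r : (V4 × V3) × V4 => r.1.2) PP H2 := fun r hr => S.F_sub hr.1.1.2.1
    have hc12 : ContinuousOn (fun r : (V4 × V3) × V4 => r.1.2) PP := by fun_prop
    have hc1 : ContinuousOn (fun r : (V4 × V3) × V4 => S.s.X r.1.2) PP := hXc.comp hc12 hmaps
    have hc2 : ContinuousOn (fun r : (V4 × V3) × V4 => sn P.T r.1.2) PP := hsc.comp hc12 hmaps
    have hc3 : ContinuousOn (fun r : (V4 × V3) × V4 => q (S.s.X r.1.2) r.1.1) PP :=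
      dichP_q_cont.comp_continuousOn (hc1.prodMk (by fun_prop))
    exact hc3.neg.sub hc2
  by_cases hne : PP.Nonempty
  · obtain ⟨r1, hr1, hmin⟩ := hP.exists_isMinOn hne hfc
    obtain ⟨⟨N1, y1⟩, ξ1⟩ := r1
    obtain ⟨⟨⟨hN1, hy1F, hle1⟩, -⟩, -, ⟨hn1, hξ1⟩, h01, hO1⟩ := hr1
    simp only at hN1 hy1F hle1 hn1 hξ1 h01 hO1
    have hy1 : y1 ∈ H2 := S.F_sub hy1F
    have hup : sn P.T y1 ≤ -q (S.s.X y1) N1 := upperP P hN1 hξ1 h01 hO1 hy1
    rcases hup.lt_or_eq with hlt | heq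
    · refine Or.inr ⟨min (-q (S.s.X y1) N1 - sn P.T y1) 1, lt_min (by linarith) one_pos, ?_⟩
      intro N hN ξ hξ h0 hO x hx
      by_cases hle : -2 ≤ q (S.s.X x) N
      · obtain ⟨N2, ξ2, y2, ha2, hb2, hc2, hd2, he2, hf2⟩ :=
          dichP_trans S (sn P.T) hsG hN hξ h0 hO hx hle
        have h5 := hmin (hmemP N2 ξ2 y2 ha2 hb2 hc2 hd2)
        have h7 : -(q (S.s.X y1) N1) - sn P.T y1 ≤ -(q (S.s.X y2) N2) - sn P.T y2 := h5
        rw [he2, hf2] at h7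
        have h8 := min_le_left (-q (S.s.X y1) N1 - sn P.T y1) 1
        linarith
      · obtain ⟨-, hs1, -⟩ := hsn x hx
        have h8 := min_le_right (-q (S.s.X y1) N1 - sn P.T y1) 1
        have h9 := not_le.1 hle
        linarith
    · exact Or.inl ⟨N1, hN1, ξ1, hξ1, h01, hO1, y1, hy1, heq.symm⟩
  · refine Or.inr ⟨1, one_pos, ?_⟩
    intro N hN ξ hξ h0 hO x hx
    by_cases hle : -2 ≤ q (S.s.X x) N
    · obtain ⟨N2, ξ2, y2, ha2, hb2, hc2, hd2, he2, hf2⟩ :=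
        dichP_trans S (sn P.T) hsG hN hξ h0 hO hx hle
      exact absurd ⟨_, hmemP N2 ξ2 y2 ha2 hb2 hc2 hd2⟩ hne
    · obtain ⟨-, hs1, -⟩ := hsn x hx
      have h9 := not_le.1 hle
      linarith

end A_dichP

alias dichP := A_dichP.dichP

namespace A_gap_stepP

/- Proof:
Let u = t/sqrt(1+t^2), c = 1/sqrt(1+t^2), same u', c' for t'. q g N = 0 = q g' N. coshtau X = k g + (cosh tau u) N with k = cosh tau c (multiply hX by cosh tau / sqrt(1+t^2)), and cosh tau u = sinh tau + e by htau. Similarly k', g'. So cosh tau cosh tau' q X X' = k k' q g g' - (sinh tau + e)(sinh tau' + e), k^2 = cosh^2 tau (1 - u^2) = cosh^2 tau - (sinh tau + e)^2 = 1 - 2 e sinh tau - e^2. Then -cosh tau cosh tau' q X X' - sinh tau sinh tau' - 1 = k k' (-q g g') + e (sinh tau + sinh tau') + e^2 - 1 = k k' (-q g g') - (k^2 + k'^2)/2. As k, k' in (0, th], k k' (G - 1) - (k - k')^2/2 <= th^2 (G - 1) with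 G = -q g g' >= 1.
-/
theorem gap_stepP {N g g' X X' : V4} (hN : q N N = -1) (hg : q g N = 0) (hg' : q g' N = 0)
    {t t' : ℝ} (hX : g + t • N = Real.sqrt (1 + t ^ 2) • X) (hX' : g' + t' • N = Real.sqrt (1 + t' ^ 2) • X')
    (hG : 1 ≤ -q g g') {e τ τ' θ : ℝ} (hθ : 0 < θ)
    (hτ : Real.sinh τ = t / Real.sqrt (1 + t ^ 2) * Real.cosh τ - e)
    (hτ' : Real.sinh τ' = t' / Real.sqrt (1 + t' ^ 2) * Real.cosh τ' - e)
    (h1 : 1 - 2 * e * Real.sinh τ - e ^ 2 ≤ θ ^ 2) (h2 : 1 - 2 * e * Real.sinh τ' - e ^ 2 ≤ θ ^ 2) :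
    -(Real.cosh τ * Real.cosh τ' * q X X') - Real.sinh τ * Real.sinh τ' - 1 ≤ θ ^ 2 * (-q g g' - 1) := by
  have hr2 : Real.sqrt (1 + t ^ 2) ^ 2 = 1 + t ^ 2 := Real.sq_sqrt (by positivity)
  have hr2' : Real.sqrt (1 + t' ^ 2) ^ 2 = 1 + t' ^ 2 := Real.sq_sqrt (by positivity)
  have hr : 0 < Real.sqrt (1 + t ^ 2) := Real.sqrt_pos.2 (by positivity)
  have hr' : 0 < Real.sqrt (1 + t' ^ 2) := Real.sqrt_pos.2 (by positivity)
  generalize Real.sqrt (1 + t ^ 2) = r at *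
  generalize Real.sqrt (1 + t' ^ 2) = r' at *
  have hx : ∀ i, g i + t * N i = r * X i := fun i => by simpa using congrFun hX i
  have hx' : ∀ i, g' i + t' * N i = r' * X' i := fun i => by simpa using congrFun hX' i
  have hqq : r * r' * q X X' = q g g' - t * t' := by
    have e0 : r * r' * q X X' = -((r * X 0) * (r' * X' 0)) + (r * X 1) * (r' * X' 1)
        + (r * X 2) * (r' * X' 2) - (r * X 3) * (r' * X' 3) := by
      simp only [q]; ring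
    rw [e0, ← hx 0, ← hx 1, ← hx 2, ← hx 3, ← hx' 0, ← hx' 1, ← hx' 2, ← hx' 3]
    simp only [q] at hN hg hg' ⊢
    linear_combination (t * t') * hN + t' * hg + t * hg'
  have hc : 0 < Real.cosh τ := Real.cosh_pos τ
  have hc' : 0 < Real.cosh τ' := Real.cosh_pos τ'
  have hcs : Real.cosh τ ^ 2 = Real.sinh τ ^ 2 + 1 := Real.cosh_sq τ
  have hcs' : Real.cosh τ' ^ 2 = Real.sinh τ' ^ 2 + 1 := Real.cosh_sq τ'
  generalize Real.cosh τ = c at *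
  generalize Real.cosh τ' = c' at *
  generalize Real.sinh τ = s at *
  generalize Real.sinh τ' = s' at *
  obtain ⟨k, hk⟩ : ∃ k, k = c / r := ⟨_, rfl⟩
  obtain ⟨k', hk'⟩ : ∃ k', k' = c' / r' := ⟨_, rfl⟩
  have hkp : 0 < k := hk ▸ div_pos hc hr
  have hkp' : 0 < k' := hk' ▸ div_pos hc' hr'
  have hck : c = k * r := by rw [hk]; field_simp
  have hck' : c' = k' * r' := by rw [hk']; field_simp
  have ht : t * k = s + e := by rw [hτ, hk]; ring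
  have ht' : t' * k' = s' + e := by rw [hτ', hk']; ring
  have hk2 : k ^ 2 = 1 - 2 * e * s - e ^ 2 := by
    have e1 : c ^ 2 = k ^ 2 * (1 + t ^ 2) := by rw [hck, mul_pow, hr2]
    have e2 : k ^ 2 = c ^ 2 - (t * k) ^ 2 := by rw [e1]; ring
    rw [e2, ht, hcs]; ring
  have hk2' : k' ^ 2 = 1 - 2 * e * s' - e ^ 2 := by
    have e1 : c' ^ 2 = k' ^ 2 * (1 + t' ^ 2) := by rw [hck', mul_pow, hr2']
    have e2 : k' ^ 2 = c' ^ 2 - (t' * k') ^ 2 := by rw [e1]; ring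
    rw [e2, ht', hcs']; ring
  have hcc : c * c' * q X X' = k * k' * q g g' - (s + e) * (s' + e) := by
    rw [← ht, ← ht', hck, hck']
    linear_combination (k * k') * hqq
  have hkt : k ≤ θ := abs_le_of_sq_le_sq' (by linarith) hθ.le |>.2
  have hkt' : k' ≤ θ := abs_le_of_sq_le_sq' (by linarith) hθ.le |>.2
  have hkk : k * k' ≤ θ ^ 2 := by
    rw [sq]; exact mul_le_mul hkt hkt' hkp'.le hθ.le
  rw [hcc]
  have hG0 : 0 ≤ -q g g' - 1 := by linarith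
  have h5 : k * k' * (-q g g' - 1) ≤ θ ^ 2 * (-q g g' - 1) := mul_le_mul_of_nonneg_right hkk hG0
  nlinarith [sq_nonneg (k - k')]

end A_gap_stepP

alias gap_stepP := A_gap_stepP.gap_stepP

namespace A_gapplusP

theorem gp_q_add_left (X Y Z : V4) : q (X + Y) Z = q X Z + q Y Z := by
  simp only [q, Pi.add_apply]; ring

theorem gp_q_add_right (X Y Z : V4) : q X (Y + Z) = q X Y + q X Z := by
  simp only [q, Pi.add_apply]; ring

theorem gp_q_smul_left (c : ℝ) (X Z : V4) : q (c • X) Z = c * q X Z := by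
  simp only [q, Pi.smul_apply, smul_eq_mul]; ring

theorem gp_q_smul_right (c : ℝ) (X Z : V4) : q X (c • Z) = c * q X Z := by
  simp only [q, Pi.smul_apply, smul_eq_mul]; ring

theorem gp_q_comm (X Y : V4) : q X Y = q Y X := by
  simp only [q]; ring

theorem gp_gg {ξ₁ ξ₂ : V4} (h11 : q ξ₁ ξ₁ = 0) (h22 : q ξ₂ ξ₂ = 0) (h : q ξ₁ ξ₂ = -1/2) (s s' : ℝ) :
    q (Real.exp s • ξ₁ + Real.exp (-s) • ξ₂) (Real.exp s' • ξ₁ + Real.exp (-s') • ξ₂) =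
      -Real.cosh (s - s') := by
  have h21 : q ξ₂ ξ₁ = -1/2 := by rw [gp_q_comm, h]
  simp only [gp_q_add_left, gp_q_add_right, gp_q_smul_left, gp_q_smul_right, h11, h22, h, h21]
  rw [Real.cosh_eq, neg_sub, sub_eq_add_neg, sub_eq_add_neg, Real.exp_add, Real.exp_add]
  ring

theorem gp_gN {ξ₁ ξ₂ N : V4} (h1N : q ξ₁ N = 0) (h2N : q ξ₂ N = 0) (s : ℝ) :
    q (Real.exp s • ξ₁ + Real.exp (-s) • ξ₂) N = 0 := by
  simp only [gp_q_add_left, gp_q_smul_left, h1N, h2N]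
  ring

theorem gp_XN {X : V3 → V4} {N ξ₁ ξ₂ : V4} (hN : q N N = -1) (h1N : q ξ₁ N = 0) (h2N : q ξ₂ N = 0)
    {s : ℝ} {x : V3} {t : ℝ}
    (hv : Real.exp s • ξ₁ + Real.exp (-s) • ξ₂ + t • N = Real.sqrt (1 + t ^ 2) • X x) :
    Real.sqrt (1 + t ^ 2) * q (X x) N = -t := by
  rw [← gp_q_smul_left, ← hv, gp_q_add_left, gp_gN h1N h2N, gp_q_smul_left, hN]
  ring

theorem gp_Xg {X : V3 → V4} {N ξ₁ ξ₂ : V4} (h11 : q ξ₁ ξ₁ = 0) (h22 : q ξ₂ ξ₂ = 0)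
    (h : q ξ₁ ξ₂ = -1/2) (h1N : q ξ₁ N = 0) (h2N : q ξ₂ N = 0) {s : ℝ} {x : V3} {t : ℝ}
    (hv : Real.exp s • ξ₁ + Real.exp (-s) • ξ₂ + t • N = Real.sqrt (1 + t ^ 2) • X x) :
    Real.sqrt (1 + t ^ 2) * q (X x) (Real.exp s • ξ₁ + Real.exp (-s) • ξ₂) = -1 := by
  rw [← gp_q_smul_left, ← hv, gp_q_add_left, gp_gg h11 h22 h, gp_q_smul_left,
    gp_q_comm N, gp_gN h1N h2N]
  simp

theorem gp_sn (T : V3 → ℝ) (x : V3) :
    Real.sinh (Real.arsinh (T x)) = Real.cosh (Real.arsinh (T x)) * sn T x := by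
  rw [Real.sinh_arsinh, Real.cosh_arsinh]
  unfold sn
  have : Real.sqrt (1 + T x ^ 2) ≠ 0 := by positivity
  field_simp

/- Proof:
This is a variant of plus6 (hint) where the path is taken at the level -e of the function of the competitor instead of level 0.
Notation: S = P.S, X = P.S.s.X = nrm P.Y (P.SX), X0 = nrm (Y0 P.σ P.T) = P.S0.X (P.S0X), V = P.σ • EE, sn = sn P.T. vert_path6: xs, ts. c0 from flow6, s1 from snprops6 (s1 <= sn, s1 <= (sqrt(1+T^2))^-1, so s1 < 1). hgap: sn x + eps <= u(x) := -q (X x) N for all x in H2. Put e = min eps (s1/2) > 0. For r in R: from the equation at r, u(xs r) = t/sqrt(1+t^2) with t = ts r, u >= sn + eps >= e, and (1/sqrt(1+t^2))^2 + u^2 = 1, 1/sqrt(1+t^2) = -q (X (xs r)) gam_r >= c0 (flow6). level with s := u, c := 1/sqrt(1+t^2), e: tau r >= 0, sinh tau = u cosh tau - e, cosh tau <= sqrt(1+t^2) <= 1/c0. sinh tau >= u - e >= s1 (u >=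 sn + eps >= s1 + e), so 1 - 2 e sinh tau - e^2 <= 1 - 2 e s1 =: th0^2, 0 < th0 < 1 (2 e s1 <= s1^2 < 1). FF X0 V (xs r) tau = sinh tau - cosh tau sn >= sinh tau - cosh tau (u - eps) = -e + eps cosh tau >= 0 (fuchs6).
gap_stepP with g = gam_r, g' = gam_r' (-q gam_r gam_r' = cosh(r - r') >= 1): WE X (xs r)(tau r)(xs r')(tau r') <= th0^2 (cosh(r - r') - 1). Take theta in (th0,1), delta from coshmul6: for |r - r'| <= delta this is <= cosh(theta |r - r'|) - 1.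
Given s >= 0, x = xs 0, x' = xs s (vert_uniq6). chain_gen for xs on [0,s], cells P.C, delta: s_0..s_n, consecutive points in a common cell. w i = (xs s_i, tau s_i), l i = theta (s_{i+1} - s_i). Adm X0 V, Seg X0 (seg6 for P.pg0), WE X0 = WE X in a common cell (same_nrm, P.met) <= cosh (l i) - 1. End heights sig0, sig1 as in plus6 with FF X0 V = 0 and zz = emb . 0: cosh sig = sqrt(1+T^2) <= 1/s1 (fuchs6, snprops6); B >= 0 with cosh B >= 1/s1 and cosh B >= 1/c0: |sig - tau| <= B (both in [0,B]). C := 2B. len6 (P.g0, V, P.S0n): D <= theta s + 2B where cosh D = -eta x x' (embq6).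
-/
theorem gapplusP {ι : Type*} (P : PT ι) {N : V4} (hN : N ∈ Dual P.S) {ε : ℝ} (hε : 0 < ε)
    (hgap : ∀ x ∈ H2, sn P.T x + ε ≤ -q (P.S.s.X x) N) {ξ₁ ξ₂ : V4} (h₁ : ξ₁ ∈ Lam P.S) (h₂ : ξ₂ ∈ Lam P.S)
    (h : q ξ₁ ξ₂ = -1/2) (h1N : q ξ₁ N = 0) (h2N : q ξ₂ N = 0) (hO : Opp P.S N ξ₁) :
    ∃ θ C : ℝ, 0 < θ ∧ θ < 1 ∧ 0 ≤ C ∧ ∀ s : ℝ, 0 ≤ s → ∀ x ∈ H2, ∀ x' ∈ H2, ∀ τ τ' : ℝ, 0 < τ → 0 < τ' →
      ξ₁ + ξ₂ + τ • N = Real.sqrt (1 + τ ^ 2) • P.S.s.X x →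
      Real.exp s • ξ₁ + Real.exp (-s) • ξ₂ + τ' • N = Real.sqrt (1 + τ' ^ 2) • P.S.s.X x' →
      -eta x x' ≤ Real.cosh (θ * s + C) := by
  have h11 : q ξ₁ ξ₁ = 0 := h₁.2.1
  have h22 : q ξ₂ ξ₂ = 0 := h₂.2.1
  have hNN : q N N = -1 := hN.1
  obtain ⟨xs, ts, hcx, hv⟩ := vert_path6 P.S hN h₁ h₂ h h1N h2N hO
  obtain ⟨c₀, hc₀, hfl⟩ := flow6 P.S
  obtain ⟨hVV, hsnp, _, _, s₁, hs1, hs1p⟩ := snprops6 P
  obtain ⟨B, hB0, hBc, hBs⟩ : ∃ B : ℝ, 0 ≤ B ∧ 1 / c₀ ≤ Real.cosh B ∧ 1 / s₁ ≤ Real.cosh B := by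
    have p1 : 0 < 1 / c₀ := by positivity
    have p2 : 0 < 1 / s₁ := by positivity
    refine ⟨2 * (1 / c₀ + 1 / s₁), by positivity, ?_, ?_⟩
    · have a1 := Real.add_one_le_exp (2 * (1 / c₀ + 1 / s₁))
      have a2 := Real.exp_pos (-(2 * (1 / c₀ + 1 / s₁)))
      rw [Real.cosh_eq]
      linarith
    · have a1 := Real.add_one_le_exp (2 * (1 / c₀ + 1 / s₁))
      have a2 := Real.exp_pos (-(2 * (1 / c₀ + 1 / s₁)))
      rw [Real.cosh_eq]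
      linarith
  have hs1lt : s₁ < 1 := by
    have a1 := (hs1p (xs 0) (hv 0).1).1
    have a2 := (hsnp (xs 0) (hv 0).1).2.1
    linarith
  obtain ⟨e, he⟩ : ∃ e : ℝ, e = min ε (s₁ / 2) := ⟨_, rfl⟩
  have he0 : 0 < e := by rw [he]; exact lt_min hε (by positivity)
  have heε : e ≤ ε := by rw [he]; exact min_le_left _ _
  have hes : e ≤ s₁ / 2 := by rw [he]; exact min_le_right _ _
  have hRpos : ∀ r, 0 < Real.sqrt (1 + ts r ^ 2) := fun r => Real.sqrt_pos.2 (by positivity)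
  have hu : ∀ r, -q (P.S.s.X (xs r)) N = ts r / Real.sqrt (1 + ts r ^ 2) := by
    intro r
    have a1 := gp_XN hNN h1N h2N (hv r).2.2
    rw [eq_div_iff (hRpos r).ne']
    linarith
  have hgu : ∀ r, sn P.T (xs r) + ε ≤ ts r / Real.sqrt (1 + ts r ^ 2) := by
    intro r
    rw [← hu r]
    exact hgap _ (hv r).1
  have hcb0 : ∀ r, Real.sqrt (1 + ts r ^ 2) ≤ 1 / c₀ := by
    intro r
    have a1 := gp_Xg h11 h22 h h1N h2N (hv r).2.2
    have a2 := hfl _ (Lam_smul6 P.S h₁ (Real.exp_pos r)) _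
      (Lam_smul6 P.S h₂ (Real.exp_pos (-r)))
      (by rw [gp_q_smul_left, gp_q_smul_right, h, ← mul_assoc, ← Real.exp_add]; simp)
      (xs r) (hv r).1
    rw [le_div_iff₀ hc₀]
    have a4 := mul_le_mul_of_nonneg_left a2 (hRpos r).le
    linarith
  have hlev : ∀ r, ∃ τ : ℝ, 0 ≤ τ ∧
      Real.sinh τ = ts r / Real.sqrt (1 + ts r ^ 2) * Real.cosh τ - e ∧
      Real.cosh τ ≤ Real.sqrt (1 + ts r ^ 2) := by
    intro r
    have b1 := hgu r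
    have b2 := (hsnp (xs r) (hv r).1).1
    have hup : 0 < ts r / Real.sqrt (1 + ts r ^ 2) := div_pos (hv r).2.1 (hRpos r)
    have hcc : (1 / Real.sqrt (1 + ts r ^ 2)) ^ 2 + (ts r / Real.sqrt (1 + ts r ^ 2)) ^ 2 = 1 := by
      rw [div_pow, div_pow, Real.sq_sqrt (by positivity)]
      have : (1 + ts r ^ 2) ≠ 0 := by positivity
      field_simp
    obtain ⟨t, ht0, ht1, ht2⟩ := level hup (one_div_pos.2 (hRpos r)) hcc he0 (by linarith)
    refine ⟨t, ht0, ht1, ?_⟩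
    rw [one_div_one_div] at ht2
    exact ht2
  choose tau htau0 htau1 htau2 using hlev
  have hsinh : ∀ r, s₁ ≤ Real.sinh (tau r) := by
    intro r
    have b1 := hgu r
    have b2 := (hs1p (xs r) (hv r).1).1
    have b3 := Real.one_le_cosh (tau r)
    have hup : 0 < ts r / Real.sqrt (1 + ts r ^ 2) := div_pos (hv r).2.1 (hRpos r)
    have b4 := mul_le_mul_of_nonneg_left b3 hup.le
    rw [htau1 r]
    linarith
  have hse : 2 * e * s₁ < 1 := by nlinarith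
  obtain ⟨θ₀, hθ0, hθ1, hθ2⟩ : ∃ θ₀ : ℝ, 0 < θ₀ ∧ θ₀ < 1 ∧ θ₀ ^ 2 = 1 - 2 * e * s₁ := by
    refine ⟨Real.sqrt (1 - 2 * e * s₁), Real.sqrt_pos.2 (by linarith), ?_, Real.sq_sqrt (by linarith)⟩
    rw [Real.sqrt_lt' one_pos]
    have : 0 < 2 * e * s₁ := by positivity
    linarith
  have hlevel : ∀ r, 1 - 2 * e * Real.sinh (tau r) - e ^ 2 ≤ θ₀ ^ 2 := by
    intro r
    rw [hθ2]
    have a1 := mul_le_mul_of_nonneg_left (hsinh r) (by positivity : (0:ℝ) ≤ 2 * e)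
    nlinarith [sq_nonneg e]
  have hWE : ∀ r r', WE P.S.s.X (xs r) (tau r) (xs r') (tau r') ≤ θ₀ ^ 2 * (Real.cosh (r - r') - 1) := by
    intro r r'
    have hg : q (Real.exp r • ξ₁ + Real.exp (-r) • ξ₂) (Real.exp r' • ξ₁ + Real.exp (-r') • ξ₂) =
      -Real.cosh (r - r') := gp_gg h11 h22 h r r'
    have hh := gap_stepP hNN (gp_gN h1N h2N r) (gp_gN h1N h2N r') (hv r).2.2 (hv r').2.2
      (by rw [hg, neg_neg]; exact Real.one_le_cosh _) hθ0 (htau1 r) (htau1 r') (hlevel r) (hlevel r')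
    rw [hg, neg_neg] at hh
    exact hh
  obtain ⟨θ, hθ⟩ : ∃ θ : ℝ, θ = (θ₀ + 1) / 2 := ⟨_, rfl⟩
  have hθpos : 0 < θ := by rw [hθ]; linarith
  obtain ⟨δ, hδ, hδd⟩ := coshmul6 hθ0 (by rw [hθ]; linarith : θ₀ < θ)
  refine ⟨θ, 2 * B, hθpos, by rw [hθ]; linarith, by positivity, ?_⟩
  intro s hs x hx x' hx' τ τ' hτ hτ' hxt hxt'
  have hx0 : τ = ts 0 ∧ x = xs 0 := by
    refine vert_uniq6 P.S.g (γ := Real.exp 0 • ξ₁ + Real.exp (-0) • ξ₂) (N := N) ?_ hNN ?_ hx (hv 0).1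
      hτ.le (hv 0).2.1.le ?_ (hv 0).2.2
    · rw [gp_gg h11 h22 h]; simp
    · exact gp_gN h1N h2N 0
    · simpa using hxt
  have hx1 : τ' = ts s ∧ x' = xs s := by
    refine vert_uniq6 P.S.g (γ := Real.exp s • ξ₁ + Real.exp (-s) • ξ₂) (N := N) ?_ hNN ?_ hx' (hv s).1
      hτ'.le (hv s).2.1.le hxt' (hv s).2.2
    · rw [gp_gg h11 h22 h]; simp
    · exact gp_gN h1N h2N s
  have htB : ∀ r, tau r ≤ B := by
    intro r
    have h9 : Real.cosh (tau r) ≤ Real.cosh B := (htau2 r).trans ((hcb0 r).trans hBc)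
    have h10 := Real.cosh_le_cosh.1 h9
    rw [abs_of_nonneg hB0] at h10
    exact (le_abs_self _).trans h10
  have hend : ∀ r, |Real.arsinh (P.T (xs r)) - tau r| ≤ B := by
    intro r
    have b1 : 0 ≤ Real.arsinh (P.T (xs r)) := by
      rw [Real.arsinh_nonneg_iff]; exact (P.T_pos _ (hv r).1).le
    have b2 : Real.arsinh (P.T (xs r)) ≤ B := by
      have c1 : Real.cosh (Real.arsinh (P.T (xs r))) ≤ Real.cosh B := by
        rw [Real.cosh_arsinh]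
        refine le_trans ?_ hBs
        have c2 := (hs1p (xs r) (hv r).1).2.1
        rw [le_div_iff₀ hs1]
        have c3 : 0 < Real.sqrt (1 + P.T (xs r) ^ 2) := Real.sqrt_pos.2 (by positivity)
        have c4 := mul_le_mul_of_nonneg_left c2 c3.le
        rw [mul_inv_cancel₀ c3.ne'] at c4
        exact c4
      have h10 := Real.cosh_le_cosh.1 c1
      rw [abs_of_nonneg hB0] at h10
      exact (le_abs_self _).trans h10
    have b3 := htB r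
    have b4 := htau0 r
    rw [abs_le]
    constructor <;> linarith
  obtain ⟨n, σs, hσ0, hσn, hσb, hσs⟩ := chain_gen P.pg.sub hs hcx.continuousOn
    (fun r _ _ => (hv r).1) (δ := δ) hδ
  obtain ⟨w, hw⟩ : ∃ w : ℕ → V3 × ℝ, w = fun i => (xs (σs i), tau (σs i)) := ⟨_, rfl⟩
  have hwi : ∀ i, w i = (xs (σs i), tau (σs i)) := fun i => by rw [hw]
  have hadm : Adm P.S0.X (P.σ • EE) n w := by
    intro i _
    rw [hwi]
    refine ⟨(hv _).1, ?_⟩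
    simp only
    rw [P.S0X, (fuchs6 P (hv _).1).1, htau1]
    have b1 := hgu (σs i)
    have b3 := Real.one_le_cosh (tau (σs i))
    have b4 := mul_le_mul_of_nonneg_right b1 (by linarith : 0 ≤ Real.cosh (tau (σs i)))
    have b5 := mul_le_mul_of_nonneg_left b3 hε.le
    nlinarith
  have hseg : ∀ i < n, Seg P.S0.X (w i).1 (w (i + 1)).1 := by
    intro i hi
    obtain ⟨j, hj1, hj2⟩ := (hσs i hi).2.2
    rw [hwi, hwi, P.S0X]
    exact seg6 P.pg0 (hv _).1 (hv _).1 hj1 hj2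
  have hl : ∀ i < n, 0 ≤ θ * (σs (i + 1) - σs i) ∧
      WE P.S0.X (w i).1 (w i).2 (w (i + 1)).1 (w (i + 1)).2 ≤
        Real.cosh (θ * (σs (i + 1) - σs i)) - 1 := by
    intro i hi
    obtain ⟨h1, h2', j, hj1, hj2⟩ := hσs i hi
    refine ⟨mul_nonneg hθpos.le (by linarith), ?_⟩
    rw [hwi, hwi]
    simp only
    have a1 := hWE (σs i) (σs (i + 1))
    have a2 := (same_nrm P.met hj1 hj2 hj1).1
    have a3 := hδd (σs (i + 1) - σs i) (by linarith) (by linarith)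
    rw [← Real.cosh_neg, neg_sub] at a1
    refine le_trans ?_ a3
    refine le_trans (le_of_eq ?_) a1
    unfold WE
    rw [P.S0X, P.SX, a2]
  have hDex : ∃ D : ℝ, 0 ≤ D ∧ Real.cosh D = -eta x x' := by
    have a1 := eta_le hx hx'
    have a2 : ∃ b : ℝ, 0 ≤ b ∧ -eta x x' ≤ Real.cosh b := by
      refine ⟨2 * (-eta x x'), by linarith, ?_⟩
      have b1 := Real.add_one_le_exp (2 * (-eta x x'))
      have b2 := Real.exp_pos (-(2 * (-eta x x')))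
      rw [Real.cosh_eq]
      linarith
    obtain ⟨b, hb1, hb2⟩ := a2
    have h3 := intermediate_value_Icc hb1 Real.continuous_cosh.continuousOn
    obtain ⟨d, hd, hd2⟩ := h3 ⟨by rw [Real.cosh_zero]; linarith, hb2⟩
    exact ⟨d, hd.1, hd2⟩
  obtain ⟨D, hD0, hD⟩ := hDex
  have hfin := len6 P.g0 hVV P.S0n hadm hseg hl
    (t₀ := Real.arsinh (P.T x)) (tn := Real.arsinh (P.T x'))
    (by
      rw [hwi, hσ0, P.S0X]
      simp only
      rw [← hx0.2, (fuchs6 P hx).1, gp_sn]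
      ring)
    (by
      rw [hwi, hσn, P.S0X]
      simp only
      rw [← hx1.2, (fuchs6 P hx').1, gp_sn]
      ring)
    hD0
    (by
      rw [hwi, hwi, hσ0, hσn, P.S0X]
      simp only
      rw [← hx0.2, ← hx1.2, ((fuchs6 P hx).2 _ (gp_sn _ _)).1,
        ((fuchs6 P hx').2 _ (gp_sn _ _)).1, embq6, hD]
      ring)
  rw [hwi, hwi, hσ0, hσn, ← Finset.mul_sum, Finset.sum_range_sub, hσ0, hσn] at hfin
  simp only at hfin
  have e0 := hend 0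
  have e1 := hend s
  rw [← hx0.2] at e0
  rw [← hx1.2] at e1
  have hDle : D ≤ θ * s + 2 * B := by linarith
  rw [← hD, Real.cosh_le_cosh, abs_of_nonneg hD0, abs_of_nonneg (hD0.trans hDle)]
  exact hDle

end A_gapplusP

alias gapplusP := A_gapplusP.gapplusP

namespace A_leaf_falseP

theorem lfP_q_add (X Y Z : V4) : q (X + Y) Z = q X Z + q Y Z := by
  simp only [q, Pi.add_apply]; ring

theorem lfP_q_smul (c : ℝ) (X Z : V4) : q (c • X) Z = c * q X Z := by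
  simp only [q, Pi.smul_apply, smul_eq_mul]; ring

theorem lfP_q_comm (X Z : V4) : q X Z = q Z X := by
  simp only [q]; ring

theorem lfP_q_add_r (X Y Z : V4) : q X (Y + Z) = q X Y + q X Z := by
  simp only [q, Pi.add_apply]; ring

theorem lfP_q_smul_r (c : ℝ) (X Z : V4) : q X (c • Z) = c * q X Z := by
  simp only [q, Pi.smul_apply, smul_eq_mul]; ring

theorem lfP_eta_comm (x y : V3) : eta x y = eta y x := by
  simp only [eta]; ring

theorem lfP_exp_nonpos {a b c : ℝ} (h : ∀ s : ℝ, a * Real.exp s + b * Real.exp (-s) ≤ c) :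
    a ≤ 0 := by
  by_contra ha
  push Not at ha
  have hpos : 0 < 1 + (|b| + |c| + 1) / a := by positivity
  have h1 := h (Real.log (1 + (|b| + |c| + 1) / a))
  rw [Real.exp_neg, Real.exp_log hpos] at h1
  have h2 : a * (1 + (|b| + |c| + 1) / a) = a + (|b| + |c| + 1) := by
    field_simp
  have h3 : (1 + (|b| + |c| + 1) / a)⁻¹ ≤ 1 := by
    apply inv_le_one_of_one_le₀
    have : 0 ≤ (|b| + |c| + 1) / a := by positivity
    linarith
  have h4 : 0 ≤ (1 + (|b| + |c| + 1) / a)⁻¹ := by positivity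
  have h5 : -|b| ≤ b * (1 + (|b| + |c| + 1) / a)⁻¹ := by
    have h6 : -|b| ≤ b := neg_abs_le b
    have h7 : 0 ≤ |b| := abs_nonneg b
    nlinarith
  have h8 := le_abs_self c
  linarith

theorem lfP_exp_nonpos' {a b c : ℝ} (h : ∀ s : ℝ, a * Real.exp s + b * Real.exp (-s) ≤ c) :
    b ≤ 0 := by
  apply lfP_exp_nonpos (a := b) (b := a) (c := c)
  intro s
  have := h (-s)
  rw [neg_neg] at this
  linarith

theorem lfP_bound (S : CS) {Xl : V3 → V4} (hc : ContinuousOn Xl H2)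
    (hG : ∀ g ∈ S.G, ∀ x ∈ H2, Xl (g.1 x) = g.2 (Xl x)) :
    ∃ R : ℝ, ∀ y ∈ H2, -q (S.s.X y) (Xl y) ≤ R := by
  have hcont : ContinuousOn (fun y => -q (S.s.X y) (Xl y)) S.F := by
    have h1 : ContinuousOn S.s.X S.F := S.g.contX.mono S.F_sub
    have h2 : ContinuousOn Xl S.F := hc.mono S.F_sub
    have h1' : ∀ i, ContinuousOn (fun y => S.s.X y i) S.F := fun i =>
      (continuous_apply i).comp_continuousOn h1
    have h2' : ∀ i, ContinuousOn (fun y => Xl y i) S.F := fun i =>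
      (continuous_apply i).comp_continuousOn h2
    unfold q
    exact (((((h1' 0).mul (h2' 0)).neg.add ((h1' 1).mul (h2' 1))).add
      ((h1' 2).mul (h2' 2))).sub ((h1' 3).mul (h2' 3))).neg
  obtain ⟨R, hR⟩ := (S.F_cpt.bddAbove_image hcont)
  refine ⟨R, fun y hy => ?_⟩
  obtain ⟨g, hg, hgF⟩ := S.F_cov y hy
  have h3 := hR ⟨g.1 y, hgF, rfl⟩
  simp only at h3
  rwa [S.G_X g hg y hy, hG g hg y hy, S.G_q g hg] at h3

theorem lfP_close (S : CS) {c₁ M : ℝ} (hc₁ : 0 < c₁) (hM : 0 ≤ M) {z x : V3} {W : V4}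
    (hz : z ∈ H2) (hx : x ∈ H2)
    (hgr : ∀ x ∈ H2, ∀ d : ℝ, 0 ≤ d → -eta z x = Real.cosh d →
      c₁ * Real.cosh (S.c * d) ≤ -q (S.s.X x) W) (hle : -q (S.s.X x) W ≤ M) :
    -eta z x ≤ Real.cosh (M / (c₁ * S.c)) := by
  obtain ⟨d, v, hd, hv, hgeo⟩ := exists_geo hz hx
  have hcpos := S.g.c_pos
  have he : -eta z x = Real.cosh d := by
    rw [← hgeo, eta_geo hz hv, neg_neg]
  have h1 := (hgr x hx d hd he).trans hle
  have h2 : S.c * d ≤ Real.cosh (S.c * d) := by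
    have hnn : 0 ≤ S.c * d := mul_nonneg hcpos.le hd
    have h3 : S.c * d ≤ Real.sinh (S.c * d) := Real.self_le_sinh_iff.mpr hnn
    exact h3.trans (Real.sinh_lt_cosh _).le
  have h4 : d ≤ M / (c₁ * S.c) := by
    rw [le_div_iff₀ (by positivity)]
    nlinarith
  rw [he, Real.cosh_le_cosh, abs_of_nonneg hd, abs_of_nonneg (by positivity)]
  exact h4

theorem lfP_foot {a b N : V4} {P : V4} {τ : ℝ} (ha : q a a = 0) (hb : q b b = 0)
    (hab : q a b = -1/2) (haN : q a N = 0) (hbN : q b N = 0)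
    (hz : a + b + τ • N = Real.sqrt (1 + τ ^ 2) • P) : -q P (a + b) ≤ 1 := by
  have hsq : 1 ≤ Real.sqrt (1 + τ ^ 2) := by
    rw [Real.one_le_sqrt]; nlinarith [sq_nonneg τ]
  have e1 := congrArg (fun Z => q Z (a + b)) hz
  beta_reduce at e1
  rw [lfP_q_smul, lfP_q_add, lfP_q_add, lfP_q_smul τ] at e1
  rw [lfP_q_add_r a, lfP_q_add_r b, lfP_q_add_r N, ha, hb, hab, lfP_q_comm b, hab, lfP_q_comm N, haN,
    lfP_q_comm N, hbN] at e1
  nlinarith [e1, hsq]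

theorem lfP_cosh_le {a b : ℝ} (ha : 0 ≤ a) (hb : 0 ≤ b) (h : Real.cosh a ≤ Real.cosh b) : a ≤ b := by
  rwa [Real.cosh_le_cosh, abs_of_nonneg ha, abs_of_nonneg hb] at h

/- Proof:
X = P.S.s.X. P.S.o = -P.σ = -1 (P.so, hσ). Write y_s = geo x0 v s, Xl y_s = cosh s Xl x0 + sinh s Z. From q (Xl y_s)(Xl y_s) = -1 for all s: q (Xl x0) Z = 0 and q Z Z = 1. q (Xl y_s) N = sinh s q Z N <= 0 for all real s gives q Z N = 0. Put xi1 = (1/2)(Xl x0 + Z), xi2 = (1/2)(Xl x0 - Z): null, q xi1 xi2 = -1/2, q xi_i N = 0, Xl y_s = e^s xi1 + e^-s xi2. xi_i ≠ 0. For x in H2: q (X x)(Xl y_s) < 1 for all s; multiply by e^{-s} and let s -> infinity: q (X x) xi1 <= 0; s -> -infinity gives q (X x) xi2 <= 0. So xi1, xi2 in Lam P.S. N in Dual P.S.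
Opp P.S N xi1: for x in H2 orient6 with Y0 = Xl x0, Y1 = X x (q < 1 by hlt; q (Xl x0) xi1 = -1/2 < 0; q (X x) xi1 < 0 by Lam_strict6): 0 < omega (Xl x0)(vv (Xl x0) N xi1) * omega (X x)(vv (X x) N xi1); vv (Xl x0) N xi1 = (1/2) N + 0 (q (Xl x0) N = 0), so omega (Xl x0)(..) = (1/2) omega (Xl x0) N > 0 (hor). So omega (X x)(vv ..) > 0 and P.S.o * it < 0.
hgap gives the gap for this N (with xi1). gapplusP: theta, C. vert6 for (e^s xi1, e^-s xi2) (Lam_smul6, Opp_G6), s = 0 and s = n: x_s, t_s.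
d(y_s, x_s) <= D0 with D0 independent of s: by growth6 for (e^s xi1, e^-s xi2) there is z with c1 cosh(c d(z,x)) <= -q (X x)(Xl y_s) for all x. At x = x_s: -q (X x_s)(Xl y_s) = 1/sqrt(1+t_s^2) <= 1. At x = y_s: choose g in G with g.1 y_s in F; -q (X y_s)(Xl y_s) = -q (X (g.1 y_s))(Xl (g.1 y_s)) <= R := max over the compact F of the continuous function -q (X y)(Xl y). So both distances d(z,x_s), d(z,y_s) are bounded by a constant (cosh r >= r); H2_triangle.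
Then n = d(y_0, y_n) (eta_geo: -eta y_0 y_s = cosh s) <= D0 + theta n + C + D0 by H2_triangle for every n >= 1: false for n large as theta < 1.
-/
theorem leaf_falseP {ι : Type*} (P : PT ι) (hσ : P.σ = 1) {Xl : V3 → V4} (hc : ContinuousOn Xl H2)
    (hn : ∀ x ∈ H2, q (Xl x) (Xl x) = -1) (hG : ∀ g ∈ P.S.G, ∀ x ∈ H2, Xl (g.1 x) = g.2 (Xl x))
    (hlt : ∀ x ∈ H2, ∀ y ∈ H2, q (P.S.s.X x) (Xl y) < 1)
    {x₀ v : V3} {Z : V4} (hx₀ : x₀ ∈ H2) (hv : UT x₀ v)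
    (hleaf : ∀ s : ℝ, Xl (geo x₀ v s) = Real.cosh s • Xl x₀ + Real.sinh s • Z)
    {N : V4} (hNN : q N N = -1) (hN0 : q (Xl x₀) N = 0) (hNl : ∀ y ∈ H2, q (Xl y) N ≤ 0)
    (hNp : ∀ y ∈ H2, q (P.S.s.X y) N ≤ 0) (hor : 0 < omega (Xl x₀) N) {ε : ℝ} (hε : 0 < ε)
    (hgap : ∀ N ∈ Dual P.S, ∀ ξ ∈ Lam P.S, q ξ N = 0 → Opp P.S N ξ → ∀ x ∈ H2,
      sn P.T x + ε ≤ -q (P.S.s.X x) N) : False := by
  have hN : N ∈ Dual P.S := ⟨hNN, hNp⟩
  set S := P.S with hS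
  have hSo : S.o = -1 := by rw [hS, P.so, hσ]
  set A := Xl x₀ with hA
  have hAA : q A A = -1 := hn x₀ hx₀
  have hys : ∀ s : ℝ, geo x₀ v s ∈ H2 := fun s => geo_mem hx₀ hv s
  have hexpand : ∀ s : ℝ, -(Real.cosh s) ^ 2 + 2 * Real.cosh s * Real.sinh s * q A Z +
      (Real.sinh s) ^ 2 * q Z Z = -1 := by
    intro s
    have h1 := hn _ (hys s)
    rw [hleaf s] at h1
    rw [lfP_q_add, lfP_q_smul, lfP_q_smul, lfP_q_add_r, lfP_q_add_r, lfP_q_smul_r, lfP_q_smul_r,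
      lfP_q_smul_r, lfP_q_smul_r, hAA, lfP_q_comm Z A] at h1
    linarith
  have hs1 : 0 < Real.sinh 1 := Real.sinh_pos_iff.mpr one_pos
  have hc1 : 0 < Real.cosh 1 := Real.cosh_pos 1
  have hAZ : q A Z = 0 := by
    have h1 := hexpand 1
    have h2 := hexpand (-1)
    rw [Real.cosh_neg, Real.sinh_neg] at h2
    have h3 : (Real.cosh 1 * Real.sinh 1) * q A Z = 0 := by linarith
    rcases mul_eq_zero.mp h3 with h | h
    · exact absurd h (by positivity)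
    · exact h
  have hZZ : q Z Z = 1 := by
    have h1 := hexpand 1
    rw [hAZ] at h1
    have h2 := Real.cosh_sq_sub_sinh_sq 1
    have h3 : (Real.sinh 1) ^ 2 * (q Z Z - 1) = 0 := by linarith
    rcases mul_eq_zero.mp h3 with h | h
    · exact absurd h (by positivity)
    · linarith
  have hZN : q Z N = 0 := by
    have h1 := hNl _ (hys 1)
    have h2 := hNl _ (hys (-1))
    rw [hleaf, lfP_q_add, lfP_q_smul, lfP_q_smul, hN0] at h1 h2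
    rw [Real.sinh_neg] at h2
    have h3 : Real.sinh 1 * q Z N = 0 := by linarith
    rcases mul_eq_zero.mp h3 with h | h
    · exact absurd h hs1.ne'
    · exact h
  set ξ₁ : V4 := (1/2 : ℝ) • (A + Z) with hξ₁
  set ξ₂ : V4 := (1/2 : ℝ) • (A + (-1 : ℝ) • Z) with hξ₂
  have hXl : ∀ s : ℝ, Xl (geo x₀ v s) = Real.exp s • ξ₁ + Real.exp (-s) • ξ₂ := by
    intro s
    rw [hleaf s, Real.cosh_eq, Real.sinh_eq]
    funext i
    simp only [hξ₁, hξ₂, Pi.add_apply, Pi.smul_apply, smul_eq_mul]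
    ring
  have h11 : q ξ₁ ξ₁ = 0 := by
    rw [hξ₁, lfP_q_smul, lfP_q_smul_r, lfP_q_add, lfP_q_add_r, lfP_q_add_r, hAA, hZZ, lfP_q_comm Z A, hAZ]
    norm_num
  have h22 : q ξ₂ ξ₂ = 0 := by
    rw [hξ₂, lfP_q_smul, lfP_q_smul_r, lfP_q_add, lfP_q_add_r, lfP_q_add_r, lfP_q_smul, lfP_q_smul,
      lfP_q_smul_r, lfP_q_smul_r, hAA, hZZ, lfP_q_comm Z A, hAZ]
    norm_num
  have h12 : q ξ₁ ξ₂ = -1/2 := by
    rw [hξ₁, hξ₂, lfP_q_smul, lfP_q_smul_r, lfP_q_add, lfP_q_add_r, lfP_q_add_r,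
      lfP_q_smul_r, lfP_q_smul_r, hAA, hZZ, lfP_q_comm Z A, hAZ]
    norm_num
  have h1N : q ξ₁ N = 0 := by
    rw [hξ₁, lfP_q_smul, lfP_q_add, hN0, hZN]; norm_num
  have h2N : q ξ₂ N = 0 := by
    rw [hξ₂, lfP_q_smul, lfP_q_add, lfP_q_smul, hN0, hZN]; norm_num
  have hA1 : q A ξ₁ = -1/2 := by
    rw [hξ₁, lfP_q_smul_r, lfP_q_add_r, hAA, hAZ]; norm_num
  have hne1 : ξ₁ ≠ 0 := by
    intro h0
    have : q ξ₁ ξ₂ = 0 := by rw [h0]; simp [q]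
    rw [h12] at this; norm_num at this
  have hne2 : ξ₂ ≠ 0 := by
    intro h0
    have : q ξ₁ ξ₂ = 0 := by rw [h0]; simp [q]
    rw [h12] at this; norm_num at this
  have hlX : ∀ x ∈ H2, ∀ s : ℝ, q (S.s.X x) ξ₁ * Real.exp s + q (S.s.X x) ξ₂ * Real.exp (-s) ≤ 1 := by
    intro x hx s
    have h1 := hlt x hx _ (hys s)
    rw [hXl, lfP_q_add_r, lfP_q_smul_r (Real.exp s), lfP_q_smul_r (Real.exp (-s))] at h1
    linarith
  have h₁ : ξ₁ ∈ Lam S := ⟨hne1, h11, fun x hx => lfP_exp_nonpos (hlX x hx)⟩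
  have h₂ : ξ₂ ∈ Lam S := ⟨hne2, h22, fun x hx => lfP_exp_nonpos' (hlX x hx)⟩
  have hOp : Opp S N ξ₁ := by
    intro x hx
    have hlt' : q A (S.s.X x) < 1 := by
      rw [lfP_q_comm]
      exact hlt x hx x₀ hx₀
    have h3 := orient6 (Y₀ := A) (Y₁ := S.s.X x) (N := N) (ξ := ξ₁) hAA (S.g.XX x hx) hlt' h11 h1N hNN
      (by rw [hA1]; norm_num) (Lam_strict6 S h₁ hx)
    have h4 : omega A (vv A N ξ₁) = (1/2) * omega A N := by
      unfold vv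
      rw [hA1, hN0]
      simp only [omega, Pi.add_apply, Pi.smul_apply, smul_eq_mul]
      ring
    rw [h4] at h3
    rw [hSo]
    have h5 : 0 < omega (S.s.X x) (vv (S.s.X x) N ξ₁) := by
      have h6 : 0 < (1/2 : ℝ) * omega A N := by linarith [hor]
      by_contra hcon
      have h7 := mul_nonpos_of_nonneg_of_nonpos h6.le (not_lt.1 hcon)
      linarith
    linarith
  obtain ⟨θ, C, hθ0, hθ1, hC, hplus⟩ := gapplusP P hN hε (hgap N hN ξ₁ h₁ h1N hOp) h₁ h₂ h12 h1N h2N hOp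
  obtain ⟨c₁, hc₁, hgrow⟩ := growth6 S
  obtain ⟨R, hR⟩ := lfP_bound S hc hG
  set M := max 1 R with hM
  have hM1 : 1 ≤ M := le_max_left _ _
  have hMR : R ≤ M := le_max_right _ _
  have hM0 : 0 ≤ M := by linarith
  have hcpos := S.g.c_pos
  set D := M / (c₁ * S.c) with hD
  have hD0 : 0 ≤ D := by positivity
  have hclose : ∀ a ∈ Lam S, ∀ b ∈ Lam S, q a b = -1/2 → q a N = 0 → q b N = 0 →
      ∀ y ∈ H2, Xl y = a + b → ∀ x ∈ H2, ∀ τ : ℝ,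
      a + b + τ • N = Real.sqrt (1 + τ ^ 2) • S.s.X x → -eta y x ≤ Real.cosh (D + D) := by
    intro a ha b hb hab haN hbN y hy hyab x hx τ hτ
    obtain ⟨z, hz, hzg⟩ := hgrow a ha b hb hab
    have k1 := lfP_close S hc₁ hM0 hz hx hzg
      ((lfP_foot ha.2.1 hb.2.1 hab haN hbN hτ).trans hM1)
    have k2 := lfP_close S hc₁ hM0 hz hy hzg (by
      rw [← hyab]; exact (hR y hy).trans hMR)
    rw [lfP_eta_comm] at k2
    exact H2_triangle hy hz hx hD0 hD0 k2 k1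
  have hexp : ∀ s : ℝ, Real.exp s * Real.exp (-s) = 1 := by
    intro s; rw [← Real.exp_add]; simp
  have L1 : ∀ s : ℝ, Real.exp s • ξ₁ ∈ Lam S := fun s => Lam_smul6 S h₁ (Real.exp_pos s)
  have L2 : ∀ s : ℝ, Real.exp (-s) • ξ₂ ∈ Lam S := fun s => Lam_smul6 S h₂ (Real.exp_pos _)
  have Lq : ∀ s : ℝ, q (Real.exp s • ξ₁) (Real.exp (-s) • ξ₂) = -1/2 := by
    intro s
    rw [lfP_q_smul, lfP_q_smul_r, h12, ← mul_assoc, hexp s, one_mul]
  have L1N : ∀ s : ℝ, q (Real.exp s • ξ₁) N = 0 := by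
    intro s; rw [lfP_q_smul, h1N, mul_zero]
  have L2N : ∀ s : ℝ, q (Real.exp (-s) • ξ₂) N = 0 := by
    intro s; rw [lfP_q_smul, h2N, mul_zero]
  have L1O : ∀ s : ℝ, Opp S N (Real.exp s • ξ₁) := fun s =>
    (Opp_G6 S hNN h₁ h1N hOp).2 _ (Real.exp_pos s)
  have hg0 : geo x₀ v 0 = x₀ := (geo_zero x₀ v).1
  have hXl0 : Xl x₀ = ξ₁ + ξ₂ := by
    have h0 := hXl 0
    rw [hg0] at h0
    rw [h0]; simp
  obtain ⟨u, hu, t, ht, hut⟩ := vert6 S hN h₁ h₂ h12 h1N h2N hOp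
  have k0 := hclose ξ₁ h₁ ξ₂ h₂ h12 h1N h2N x₀ hx₀ hXl0 u hu t hut
  have key : ∀ n : ℕ, (n : ℝ) ≤ (D + D) + (θ * n + C) + (D + D) := by
    intro n
    obtain ⟨w, hw, t', ht', hwt⟩ := vert6 S hN (L1 n) (L2 n) (Lq _) (L1N _) (L2N _) (L1O _)
    have k1 := hclose _ (L1 n) _ (L2 n) (Lq _) (L1N _) (L2N _) _ (hys n)
      (hXl n) w hw t' hwt
    have hnn : 0 ≤ (n : ℝ) := Nat.cast_nonneg n
    have k2 := hplus n hnn u hu w hw t t' ht ht' hut hwt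
    have hr : 0 ≤ θ * n + C := by positivity
    have k3 := H2_triangle hx₀ hu hw (by positivity) hr k0 k2
    rw [lfP_eta_comm] at k1
    have k4 := H2_triangle hx₀ hw (hys n) (by positivity) (by positivity) k3 k1
    rw [eta_geo hx₀ hv, neg_neg] at k4
    exact lfP_cosh_le hnn (by positivity) k4
  have hpos : 0 < 1 - θ := by linarith
  obtain ⟨n, hn'⟩ := exists_nat_gt ((4 * D + C) / (1 - θ))
  rw [div_lt_iff₀ hpos] at hn'
  have h9 := key n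
  nlinarith

end A_leaf_falseP

alias leaf_falseP := A_leaf_falseP.leaf_falseP

end Helper935.Poly
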