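import Pool.Agent.Helper935_AdS.PHalfA
import Pool.Agent.Helper935_AdS.PCont
import Pool.Agent.Helper935_AdS.PLocC

namespace Helper935.Poly

namespace A_ray6b

/- Proof:
Same as ray6 (hint: complete proof of U (geo x v s) = l (geo x v s)), with the conclusion for U': the property Q(s) at z = g s (delta (g s) = 0) also gives U' (g s) = l' (g s).
-/
theorem ray6b {U U' : V3 → ℝ} (hU : ContinuousOn U H2) (hU' : ContinuousOn U' H2)
    (hloc : ∀ z ∈ H2, U z = U' z → LocStr z U U')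
    {δ l l' : V3 →ₗ[ℝ] ℝ} (hδ : δ ≠ 0) {x v : V3} (hx : x ∈ H2) (hv : UT x v) (hδx : δ x = 0) (hδv : δ v = 0)
    (h0 : ∃ r : ℝ, 1 < r ∧ ∀ z ∈ H2, -eta x z < r → 0 ≤ δ z → U z = l z ∧ U' z = l' z ∧ U z - U' z = δ z)
    {s : ℝ} (hs : 0 ≤ s) : U' (geo x v s) = l' (geo x v s) := by
  classical
  set Q : ℝ → Prop := fun t => ∃ r : ℝ, 1 < r ∧ ∀ z ∈ H2, -eta (geo x v t) z < r → 0 ≤ δ z →
    U z = l z ∧ U' z = l' z ∧ U z - U' z = δ z with hQ
  have hgm : ∀ t, geo x v t ∈ H2 := fun t => geo_mem hx hv t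
  have hδg : ∀ t, δ (geo x v t) = 0 := by
    intro t
    unfold geo
    rw [map_add, map_smul, map_smul, hδx, hδv]
    simp
  have hself : ∀ t, -eta (geo x v t) (geo x v t) = 1 := by
    intro t
    have := (hgm t).1
    linarith
  have hdist : ∀ t t', -eta (geo x v t) (geo x v t') = Real.cosh (t' - t) := by
    intro t t'
    have h1 := (geo_add x v t (t' - t)).1
    have h2 := eta_geo (hgm t) (geo_UT hx hv t) (t' - t)
    rw [h1, add_sub_cancel] at h2
    linarith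
  have hval : ∀ t, Q t → U (geo x v t) = l (geo x v t) ∧ U (geo x v t) = U' (geo x v t) := by
    rintro t ⟨r, hr, h⟩
    obtain ⟨h1, _, h3⟩ := h (geo x v t) (hgm t) (by rw [hself]; exact hr) (by rw [hδg])
    rw [hδg] at h3
    exact ⟨h1, by linarith⟩
  have hgc : Continuous (fun t => geo x v t) := by
    unfold geo
    exact (Real.continuous_cosh.smul continuous_const).add (Real.continuous_sinh.smul continuous_const)
  have hUc : Continuous (fun t => U (geo x v t)) := by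
    rw [continuous_iff_continuousAt]
    intro t
    have h1 : Filter.Tendsto (fun t => geo x v t) (nhds t) (nhdsWithin (geo x v t) H2) :=
      tendsto_nhdsWithin_iff.2 ⟨hgc.tendsto t, Filter.Eventually.of_forall hgm⟩
    exact (hU _ (hgm t)).tendsto.comp h1
  have hUc' : Continuous (fun t => U' (geo x v t)) := by
    rw [continuous_iff_continuousAt]
    intro t
    have h1 : Filter.Tendsto (fun t => geo x v t) (nhds t) (nhdsWithin (geo x v t) H2) :=
      tendsto_nhdsWithin_iff.2 ⟨hgc.tendsto t, Filter.Eventually.of_forall hgm⟩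
    exact (hU' _ (hgm t)).tendsto.comp h1
  have hcosh : ∀ r : ℝ, 1 < r → ∃ ρ : ℝ, 0 < ρ ∧ Real.cosh (2 * ρ) < r := by
    intro r hr
    have hc : ContinuousAt (fun ρ : ℝ => Real.cosh (2 * ρ)) 0 := by
      exact (Real.continuous_cosh.comp (continuous_const.mul continuous_id)).continuousAt
    have h0 : Real.cosh (2 * 0) < r := by simpa using hr
    obtain ⟨ε, hε, hball⟩ := Metric.eventually_nhds_iff.1 (hc.eventually_lt continuousAt_const h0)
    refine ⟨ε / 2, by linarith, hball ?_⟩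
    rw [Real.dist_eq, sub_zero, abs_of_pos (by linarith)]
    linarith
  have hopen : IsOpen {t | Q t} := by
    rw [Metric.isOpen_iff]
    rintro t ⟨r, hr, h⟩
    obtain ⟨ρ, hρ, hρr⟩ := hcosh r hr
    refine ⟨ρ, hρ, ?_⟩
    intro t' ht'
    rw [Metric.mem_ball, Real.dist_eq] at ht'
    refine ⟨Real.cosh ρ, Real.one_lt_cosh.2 hρ.ne', ?_⟩
    intro z hz hzr hδz
    apply h z hz _ hδz
    have h1 := H2_triangle (hgm t) (hgm t') hz (abs_nonneg (t' - t)) hρ.le
      (by rw [hdist, Real.cosh_abs]) hzr.le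
    refine lt_of_le_of_lt h1 (lt_of_le_of_lt ?_ hρr)
    rw [Real.cosh_le_cosh, abs_of_nonneg (add_nonneg (abs_nonneg (t' - t)) hρ.le),
      abs_of_pos (show (0:ℝ) < 2 * ρ by linarith)]
    linarith
  have hclosed : IsClosed {t | Q t} := by
    rw [← closure_subset_iff_isClosed]
    intro t ht
    have heq : U (geo x v t) = U' (geo x v t) := by
      have hc : IsClosed {t | U (geo x v t) = U' (geo x v t)} := isClosed_eq hUc hUc'
      have hsub : {t | Q t} ⊆ {t | U (geo x v t) = U' (geo x v t)} := fun a ha => (hval a ha).2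
      exact (closure_minimal hsub hc) ht
    refine step6 hδ (hgm t) (hloc _ (hgm t) heq) ?_
    intro rr hrr
    obtain ⟨ρ, hρ, hρr⟩ := hcosh rr hrr
    obtain ⟨t', ht', hd⟩ := Metric.mem_closure_iff.1 ht ρ hρ
    refine ⟨geo x v t', hgm t', ?_, hδg t', ht'⟩
    rw [hdist]
    refine lt_of_le_of_lt ?_ hρr
    rw [Real.dist_eq] at hd
    rw [Real.cosh_le_cosh, abs_of_pos (show (0:ℝ) < 2 * ρ by linarith), abs_sub_comm]
    linarith
  have huniv : {t | Q t} = Set.univ := by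
    apply IsClopen.eq_univ ⟨hclosed, hopen⟩
    refine ⟨0, ?_⟩
    show Q 0
    rw [hQ]
    simp only [(geo_zero x v).1]
    exact h0
  have hQs : Q s := by
    have : s ∈ {t | Q t} := by rw [huniv]; trivial
    exact this
  obtain ⟨r, hr, h⟩ := hQs
  exact (h (geo x v s) (hgm s) (by rw [hself]; exact hr) (by rw [hδg])).2.1

end A_ray6b

alias ray6b := A_ray6b.ray6b

namespace A_cont6b

theorem cont6b_aux_add (a b c : V3) : eta a (b + c) = eta a b + eta a c := by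
  simp only [eta, Pi.add_apply]; ring

theorem cont6b_aux_sub (a b c : V3) : eta a (b - c) = eta a b - eta a c := by
  simp only [eta, Pi.sub_apply]; ring

theorem cont6b_aux_smul (a b : V3) (t : ℝ) : eta a (t • b) = t * eta a b := by
  simp only [eta, Pi.smul_apply, smul_eq_mul]; ring

theorem cont6b_aux_comm (a b : V3) : eta a b = eta b a := by
  simp only [eta]; ring

/-- a unit tangent vector at `x` in the kernel of `δ` -/
theorem cont6b_aux_v {δ : V3 →ₗ[ℝ] ℝ} (hδ : δ ≠ 0) {x : V3} (hx : x ∈ H2) (hδx : δ x = 0) :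
    ∃ v, UT x v ∧ δ v = 0 := by
  obtain ⟨e₁, he₁⟩ := exists_UT hx
  obtain ⟨e₂, hON⟩ := exists_ON hx he₁
  obtain ⟨h1, h2, h11, h22, h12⟩ := hON
  have hne : 0 < (δ e₁) ^ 2 + (δ e₂) ^ 2 := by
    by_contra hcon
    have z1 : δ e₁ = 0 := by nlinarith [sq_nonneg (δ e₁), sq_nonneg (δ e₂)]
    have z2 : δ e₂ = 0 := by nlinarith [sq_nonneg (δ e₁), sq_nonneg (δ e₂)]
    apply hδ
    ext1 i
    have key : ∀ u : V3, δ u = 0 := by
      intro u
      have hxx : eta x x = -1 := hx.1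
      have ht : eta x (u + eta x u • x) = 0 := by
        rw [cont6b_aux_add, cont6b_aux_smul, hxx]; ring
      have h3 := tangent_expand hx ⟨h1, h2, h11, h22, h12⟩ ht
      have h4 : δ (u + eta x u • x) = 0 := by
        rw [h3, map_add, map_smul, map_smul, z1, z2]; simp
      rw [map_add, map_smul, hδx] at h4
      simpa using h4
    ext
    simpa using key _
  set D := Real.sqrt ((δ e₁) ^ 2 + (δ e₂) ^ 2) with hD
  have hDpos : 0 < D := Real.sqrt_pos.mpr hne
  have hDD : D * D = (δ e₁) ^ 2 + (δ e₂) ^ 2 := Real.mul_self_sqrt hne.le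
  refine ⟨D⁻¹ • (δ e₂ • e₁ - δ e₁ • e₂), ⟨?_, ?_⟩, ?_⟩
  · rw [cont6b_aux_smul, cont6b_aux_sub, cont6b_aux_smul, cont6b_aux_smul, h1, h2]; ring
  · rw [cont6b_aux_smul, cont6b_aux_comm, cont6b_aux_smul, cont6b_aux_sub, cont6b_aux_smul,
      cont6b_aux_smul, cont6b_aux_comm (δ e₂ • e₁ - δ e₁ • e₂) e₁,
      cont6b_aux_comm (δ e₂ • e₁ - δ e₁ • e₂) e₂, cont6b_aux_sub, cont6b_aux_sub, cont6b_aux_smul,
      cont6b_aux_smul, cont6b_aux_smul, cont6b_aux_smul, h11, h22, cont6b_aux_comm e₂ e₁, h12]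
    have : D⁻¹ * (D⁻¹ * (D * D)) = 1 := by field_simp
    rw [hDD] at this
    linear_combination this
  · rw [map_smul, map_sub, map_smul, map_smul]
    simp only [smul_eq_mul]; ring

theorem cont6b_aux_exp {a b c₀ C₀ : ℝ} (hc₀ : 0 < c₀)
    (h : ∀ s : ℝ, 0 ≤ s → c₀ ≤ Real.cosh s * a + Real.sinh s * b ∧
      Real.cosh s * a + Real.sinh s * b ≤ C₀) : False := by
  have hC : 0 < C₀ := by
    have := h 0 le_rfl
    linarith [this.1, this.2]
  -- large exponentials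
  have hE : ∀ R : ℝ, ∃ s : ℝ, 0 ≤ s ∧ R < Real.exp s := by
    intro R
    refine ⟨|R|, abs_nonneg _, ?_⟩
    have := Real.add_one_le_exp |R|
    have := le_abs_self R
    linarith
  have hform : ∀ s : ℝ, Real.cosh s * a + Real.sinh s * b =
      Real.exp s * (a + b) / 2 + Real.exp (-s) * (a - b) / 2 := by
    intro s
    rw [Real.cosh_eq, Real.sinh_eq]; ring
  have hinv : ∀ s : ℝ, 0 ≤ s → Real.exp (-s) ≤ 1 ∧ 0 < Real.exp (-s) := by
    intro s hs
    exact ⟨Real.exp_le_one_iff.mpr (by linarith), Real.exp_pos _⟩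
  have habs : ∀ s : ℝ, 0 ≤ s → |Real.exp (-s) * (a - b) / 2| ≤ |a - b| / 2 := by
    intro s hs
    rw [abs_div, abs_mul, abs_of_pos (hinv s hs).2, abs_of_pos (by norm_num : (0 : ℝ) < 2)]
    have := (hinv s hs).1
    have h3 := abs_nonneg (a - b)
    have : Real.exp (-s) * |a - b| ≤ 1 * |a - b| := mul_le_mul_of_nonneg_right this h3
    linarith
  rcases lt_trichotomy (a + b) 0 with hneg | hzero | hpos
  · obtain ⟨s, hs, hR⟩ := hE (|a - b| / -(a + b))
    have h1 := (h s hs).1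
    rw [hform] at h1
    have h2 := le_trans (le_abs_self _) (habs s hs)
    rw [div_lt_iff₀ (by linarith)] at hR
    linarith
  · obtain ⟨s, hs, hR⟩ := hE (|a - b| / c₀)
    have h1 := (h s hs).1
    rw [hform, hzero] at h1
    rw [div_lt_iff₀ hc₀] at hR
    have h2 : Real.exp (-s) * Real.exp s = 1 := by rw [← Real.exp_add]; simp
    have h3 := (hinv s hs).2
    have h4 : Real.exp (-s) * |a - b| < Real.exp (-s) * (Real.exp s * c₀) :=
      mul_lt_mul_of_pos_left hR h3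
    rw [← mul_assoc, h2, one_mul] at h4
    have h5 : Real.exp (-s) * (a - b) ≤ Real.exp (-s) * |a - b| :=
      mul_le_mul_of_nonneg_left (le_abs_self _) h3.le
    linarith
  · obtain ⟨s, hs, hR⟩ := hE ((2 * C₀ + |a - b|) / (a + b))
    have h1 := (h s hs).2
    rw [hform] at h1
    have h2 := neg_le_of_abs_le (habs s hs)
    rw [div_lt_iff₀ hpos] at hR
    linarith

theorem cont6b_aux_loc {U U' : V3 → ℝ} (hU : ContinuousOn U H2) (hU' : ContinuousOn U' H2)
    (hloc : ∀ z ∈ H2, U z = U' z → LocStr z U U') {c₀ C₀ : ℝ} (hc₀ : 0 < c₀)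
    (hb : ∀ z ∈ H2, c₀ ≤ U' z ∧ U' z ≤ C₀) {z : V3} (hz : z ∈ H2) (hzz : U z = U' z) :
    ∃ r : ℝ, 1 < r ∧ ∀ w ∈ H2, -eta z w < r → U w = U' w := by
  rcases hloc z hz hzz with h | ⟨δ, l, l', hδ, hδz, r, hr, hr1, -⟩
  · exact h
  · exfalso
    obtain ⟨v, hv, hδv⟩ := cont6b_aux_v hδ hz hδz
    apply cont6b_aux_exp (a := l' z) (b := l' v) (C₀ := C₀) hc₀
    intro s hs
    have h1 := ray6b hU hU' hloc hδ hz hv hδz hδv ⟨r, hr, hr1⟩ hs
    have h2 := hb _ (geo_mem hz hv s)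
    rw [h1] at h2
    have h3 : l' (geo z v s) = Real.cosh s * l' z + Real.sinh s * l' v := by
      simp only [geo, map_add, map_smul, smul_eq_mul]
    rw [h3] at h2
    exact h2

theorem cont6b {U U' : V3 → ℝ} (hU : ContinuousOn U H2) (hU' : ContinuousOn U' H2)
    (hloc : ∀ z ∈ H2, U z = U' z → LocStr z U U') {c₀ C₀ : ℝ} (hc₀ : 0 < c₀) (hb : ∀ z ∈ H2, c₀ ≤ U' z ∧ U' z ≤ C₀)
    {y : V3} (hy : y ∈ H2) (hyy : U y = U' y) {x : V3} (hx : x ∈ H2) : U x = U' x := by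
  obtain ⟨d, v, hd, hv, hgd⟩ := exists_geo hy hx
  have hgc : Continuous (geo y v) := by
    unfold geo
    exact (Real.continuous_cosh.smul continuous_const).add
      (Real.continuous_sinh.smul continuous_const)
  have hc1 : Continuous fun s => U (geo y v s) := hU.comp_continuous hgc fun s => geo_mem hy hv s
  have hc2 : Continuous fun s => U' (geo y v s) := hU'.comp_continuous hgc fun s => geo_mem hy hv s
  have hclosed : IsClosed {s : ℝ | U (geo y v s) = U' (geo y v s)} := isClosed_eq hc1 hc2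
  have hopen : IsOpen {s : ℝ | U (geo y v s) = U' (geo y v s)} := by
    rw [isOpen_iff_mem_nhds]
    intro s hs
    obtain ⟨r, hr, hr1⟩ := cont6b_aux_loc hU hU' hloc hc₀ hb (geo_mem hy hv s) hs
    have h1 : ∀ᶠ s' in nhds s, Real.cosh (s' - s) < r := by
      have hcont : Continuous fun s' : ℝ => Real.cosh (s' - s) :=
        Real.continuous_cosh.comp (continuous_id.sub continuous_const)
      have h2 : Real.cosh (s - s) < r := by simpa using hr
      exact hcont.continuousAt.eventually (gt_mem_nhds h2)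
    filter_upwards [h1] with s' hs'
    apply hr1 _ (geo_mem hy hv s')
    have h3 := (geo_add y v s (s' - s)).1
    have h4 := eta_geo (geo_mem hy hv s) (geo_UT hy hv s) (s' - s)
    rw [h3] at h4
    have h5 : s + (s' - s) = s' := by ring
    rw [h5] at h4
    rw [h4]; linarith
  have huniv := IsClopen.eq_univ ⟨hclosed, hopen⟩ ⟨0, by
    show U (geo y v 0) = U' (geo y v 0)
    rw [(geo_zero y v).1]; exact hyy⟩
  have hmem : d ∈ {s : ℝ | U (geo y v s) = U' (geo y v s)} := by rw [huniv]; trivial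
  have h6 : U (geo y v d) = U' (geo y v d) := hmem
  rwa [hgd] at h6

end A_cont6b

alias cont6b := A_cont6b.cont6b

namespace A_touchP

/- Proof:
Analogous to rigm6 (hint). T = P.T, Y = P.Y, M' = P.σ • EE, X = P.S.s.X = nrm Y (P.SX). For z in H2: q (Y z)(Y z) = -1 - T^2 (P.met in a cell containing z), X z = c_z Y z with c_z = (sqrt(1+T z^2))^-1 and sn T z = c_z T z (snprops6). U z := -(q (Y z) N), U' z := -(q (Y0 P.σ T z) M') = T z. U' <= U by upperP (multiply by 1/c_z). U, U' continuous on H2. s1 <= U' <= 1/s1 (snprops6). If U z = U' z then -q (X z) N = sn T z, oppn6 (S = P.S, M = N, xi, -1 < q (X z) N = -sn): 0 < q n N for n in Nr z, in particular n = P.n i with z in C i (P.Sn). ls6 at z with first surface (P.C, Y, P.n) (P.pg), second surface (P.C, Y0 P.σ T, P.n0) (P.pg0), P.met, hfu: right, M = N, M', hn, hn': P.n0E, hu: |q (nrm Y z) N| = sn < 1, h0, hD: LocStr z U U'. cont6b: U = U' on H2, so q (X x) N = -c_x U x = -c_x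 T x = -sn T x.
-/
theorem touchP {ι : Type*} (P : PT ι) {N : V4} (hN : N ∈ Dual P.S) {ξ : V4} (hξ : ξ ∈ Lam P.S) (h0 : q ξ N = 0) (hO : Opp P.S N ξ)
    {y : V3} (hy : y ∈ H2) (heq : -q (P.S.s.X y) N = sn P.T y) {x : V3} (hx : x ∈ H2) :
    q (P.S.s.X x) N = -sn P.T x := by
  have hqc : ∀ (a : ℝ) (X Z : V4), q (a • X) Z = a * q X Z := by
    intro a X Z
    simp only [q, Pi.smul_apply, smul_eq_mul]
    ring
  obtain ⟨hEE, hP, -, -, s1, hs1, hb⟩ := snprops6 P
  have hcell : ∀ z ∈ H2, ∃ i, z ∈ P.C i := fun z hz => by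
    obtain ⟨k, y, j, hf⟩ := P.pg.sub.fan z hz
    exact ⟨_, (hf.cell 0).1⟩
  have hYY : ∀ z ∈ H2, q (P.Y z) (P.Y z) = -(1 + P.T z ^ 2) := by
    intro z hz
    obtain ⟨i, hi⟩ := hcell z hz
    rw [P.met i z hi z hi]
    have h1 : eta z z = -1 := hz.1
    have h2 : P.σ ^ 2 = 1 := by rcases P.sig with h | h <;> rw [h] <;> norm_num
    have h3 : q (Y0 P.σ P.T z) (Y0 P.σ P.T z) = eta z z - P.σ ^ 2 * P.T z ^ 2 := by
      simp [Y0, emb, q, eta]
      ring
    rw [h3, h1, h2]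
    ring
  have hcp : ∀ z : V3, 0 < (Real.sqrt (1 + P.T z ^ 2))⁻¹ := fun z => by positivity
  have hXN : ∀ z ∈ H2, q (P.S.s.X z) N = (Real.sqrt (1 + P.T z ^ 2))⁻¹ * q (P.Y z) N := by
    intro z hz
    rw [P.SX, ← hqc]
    unfold nrm
    rw [hYY z hz, neg_neg]
  have hU : ∀ z ∈ H2, -(q (Y0 P.σ P.T z) (P.σ • EE)) = P.T z := fun z hz => (hP z hz).2.2.2.1
  have hsn : ∀ z ∈ H2, sn P.T z = (Real.sqrt (1 + P.T z ^ 2))⁻¹ * P.T z :=
    fun z hz => (hP z hz).2.2.2.2.1
  have hle : ∀ z ∈ H2, P.T z ≤ -q (P.Y z) N := by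
    intro z hz
    have h1 := upperP P hN hξ h0 hO hz
    rw [hXN z hz, hsn z hz, ← mul_neg] at h1
    exact le_of_mul_le_mul_left h1 (hcp z)
  have hc1 : ContinuousOn (fun z => -(q (Y0 P.σ P.T z) (P.σ • EE))) H2 :=
    P.T_cont.congr hU
  have hc2 : ContinuousOn (fun z => -(q (P.Y z) N)) H2 := by
    have h1 := P.pg.poly.cont
    have h2 : ∀ i, ContinuousOn (fun z => P.Y z i) H2 := fun i => continuousOn_pi.1 h1 i
    simp only [q]
    exact ((((h2 0).mul continuousOn_const).neg.add ((h2 1).mul continuousOn_const)).add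
      ((h2 2).mul continuousOn_const) |>.sub ((h2 3).mul continuousOn_const)).neg
  have hloc : ∀ z ∈ H2, -(q (P.Y z) N) = -(q (Y0 P.σ P.T z) (P.σ • EE)) →
      LocStr z (fun z => -(q (P.Y z) N)) (fun z => -(q (Y0 P.σ P.T z) (P.σ • EE))) := by
    intro z hz hz2
    have e1 : q (P.Y z) N = -P.T z := by
      rw [hU z hz] at hz2
      linarith
    have e2 : q (P.S.s.X z) N = -sn P.T z := by
      rw [hXN z hz, hsn z hz, e1]
      ring
    obtain ⟨p1, p2, p3, -⟩ := hP z hz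
    refine ls6 P.pg P.pg0 P.met (Or.inr rfl) hz
      hN.1 hEE ?_ (fun i hi => P.n0E i z hz hi) ?_ ?_ ?_
    · intro i hi
      exact oppn6 P.S hN.1 hξ h0 hO hz (by rw [e2]; linarith) (P.Sn i z hz hi)
    · have p4 : q (nrm P.Y z) N = -(sn P.T z) := by
        rw [← P.SX]
        exact e2
      rw [p4, abs_neg, abs_of_pos p1]
      exact p2
    · exact neg_injective hz2
    · intro w hw
      have := hU w hw
      have := hle w hw
      linarith
  have hfin := cont6b hc2 hc1 hloc hs1 (C₀ := s1⁻¹) (fun z hz => by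
    show s1 ≤ -(q (Y0 P.σ P.T z) (P.σ • EE)) ∧ -(q (Y0 P.σ P.T z) (P.σ • EE)) ≤ s1⁻¹
    rw [hU z hz]
    exact ⟨(hb z hz).2.2.1, (hb z hz).2.2.2⟩) hy (by
    show -(q (P.Y y) N) = -(q (Y0 P.σ P.T y) (P.σ • EE))
    rw [hU y hy]
    rw [hXN y hy, hsn y hy, ← mul_neg] at heq
    exact mul_left_cancel₀ (hcp y).ne' heq) hx
  have hfin' : -(q (P.Y x) N) = P.T x := by
    rw [← hU x hx]
    exact hfin
  have e3 : q (P.Y x) N = -P.T x := by linarith
  rw [hXN x hx, hsn x hx, e3]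
  ring

end A_touchP

alias touchP := A_touchP.touchP

namespace A_finalP

theorem finalP_ext {f g : V3 →ₗ[ℝ] V4} (h : ∀ x ∈ H2, f x = g x) : f = g := by
  have hs : Real.sqrt 2 * Real.sqrt 2 = 2 := Real.mul_self_sqrt (by norm_num)
  have hs0 : 0 < Real.sqrt 2 := Real.sqrt_pos.2 (by norm_num)
  have e0 : f ![1, 0, 0] = g ![1, 0, 0] := h _ (by simp [H2, eta])
  have e1 : f ![Real.sqrt 2, 1, 0] = g ![Real.sqrt 2, 1, 0] := h _ (by
    refine ⟨?_, by simp⟩
    simp only [eta, Matrix.cons_val_zero, Matrix.cons_val_one, Matrix.cons_val]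
    rw [hs]
    norm_num)
  have e2 : f ![Real.sqrt 2, 0, 1] = g ![Real.sqrt 2, 0, 1] := h _ (by
    refine ⟨?_, by simp⟩
    simp only [eta, Matrix.cons_val_zero, Matrix.cons_val_one, Matrix.cons_val]
    rw [hs]
    norm_num)
  apply LinearMap.ext
  intro x
  have hx : x = (x 0 - Real.sqrt 2 * x 1 - Real.sqrt 2 * x 2) • (![1, 0, 0] : V3) +
      x 1 • (![Real.sqrt 2, 1, 0] : V3) + x 2 • (![Real.sqrt 2, 0, 1] : V3) := by
    ext i
    fin_cases i
    · simp
      ring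
    · simp
    · simp
  rw [hx]
  simp only [map_add, map_smul, e0, e1, e2]

theorem finalP_q1 (a b : ℝ) (X Y Z : V4) : q (a • X + b • Y) Z = a * q X Z + b * q Y Z := by
  simp only [q, Pi.add_apply, Pi.smul_apply, smul_eq_mul]
  ring

theorem finalP_q2 (a b : ℝ) (X Y Z : V4) : q Z (a • X + b • Y) = a * q Z X + b * q Z Y := by
  simp only [q, Pi.add_apply, Pi.smul_apply, smul_eq_mul]
  ring

theorem finalP_qs1 (a : ℝ) (X Z : V4) : q (a • X) Z = a * q X Z := by
  simp only [q, Pi.smul_apply, smul_eq_mul]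
  ring

theorem finalP_qs2 (a : ℝ) (X Z : V4) : q Z (a • X) = a * q Z X := by
  simp only [q, Pi.smul_apply, smul_eq_mul]
  ring

theorem finalP_qn (X Z : V4) : q X (-Z) = -q X Z := by
  simp only [q, Pi.neg_apply]
  ring

theorem finalP_symm (X Y : V4) : q X Y = q Y X := by
  simp only [q]
  ring

theorem finalP_YY {ι : Type*} (A : PT ι) {x : V3} (hx : x ∈ H2) :
    q (A.Y x) (A.Y x) = -(1 + A.T x ^ 2) := by
  obtain ⟨k, y, j, hf⟩ := A.pg.sub.fan x hx
  have h1 := A.met (j 0) x (hf.cell 0).1 x (hf.cell 0).1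
  rw [h1]
  have h2 : eta x x = -1 := hx.1
  have h3 : A.σ ^ 2 = 1 := by
    rcases A.sig with h | h <;> rw [h] <;> norm_num
  have h4 : q (Y0 A.σ A.T x) (Y0 A.σ A.T x) = eta x x - A.σ ^ 2 * A.T x ^ 2 := by
    simp only [q, Y0, emb, eta, Matrix.cons_val_zero, Matrix.cons_val_one, Matrix.cons_val]
    ring
  rw [h4, h2, h3]
  ring

theorem finalP_X {ι : Type*} (A : PT ι) {x : V3} (hx : x ∈ H2) :
    A.S.s.X x = (Real.sqrt (1 + A.T x ^ 2))⁻¹ • A.Y x := by
  rw [A.SX]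
  unfold nrm
  rw [finalP_YY A hx, neg_neg]

theorem finalP_rpos (t : ℝ) : 0 < Real.sqrt (1 + t ^ 2) := Real.sqrt_pos.2 (by positivity)

theorem finalP_Y {ι : Type*} (A : PT ι) {x : V3} (hx : x ∈ H2) :
    A.Y x = Real.sqrt (1 + A.T x ^ 2) • A.S.s.X x := by
  rw [finalP_X A hx, smul_smul, mul_inv_cancel₀ (finalP_rpos _).ne', one_smul]

theorem finalP_YN {ι : Type*} (A : PT ι) {x : V3} (hx : x ∈ H2) {N : V4} {c : ℝ}
    (h : q (A.S.s.X x) N = c * sn A.T x) : q (A.Y x) N = c * A.T x := by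
  rw [finalP_Y A hx, finalP_qs1, h]
  have := (finalP_rpos (A.T x)).ne'
  unfold sn
  field_simp

theorem finalP_eqY {ι : Type*} (A : PT ι) {g : (V3 ≃ₗ[ℝ] V3) × (V4 ≃ₗ[ℝ] V4)} (hg : g ∈ A.S.G)
    {x : V3} (hx : x ∈ H2) : A.Y (g.1 x) = g.2 (A.Y x) := by
  rw [finalP_Y A (A.S.G_H2 g hg x hx), A.T_G g hg x hx, A.S.G_X g hg x hx, finalP_Y A hx, map_smul]

theorem finalP_eqL {ι : Type*} (A : PT ι) {g : (V3 ≃ₗ[ℝ] V3) × (V4 ≃ₗ[ℝ] V4)} (hg : g ∈ A.S.G)
    {L : V3 →ₗ[ℝ] V4} {M : V4} (hL : ∀ z ∈ H2, A.Y z = L z + A.T z • M) (hM : g.2 M = M)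
    {x : V3} (hx : x ∈ H2) : L (g.1 x) = g.2 (L x) := by
  have h1 := finalP_eqY A hg hx
  rw [hL _ (A.S.G_H2 g hg x hx), hL x hx, A.T_G g hg x hx, map_add, map_smul, hM] at h1
  exact add_right_cancel h1


theorem finalP {ι : Type*} (P : PT ι) {N : V4} (hNN : q N N = -1) {ξ : V4} (hξ : ξ ∈ Lam P.S) (h0 : q ξ N = 0) (hO : Opp P.S N ξ)
    (hN : ∀ x ∈ H2, q (P.S.s.X x) N = -sn P.T x) :
    ∃ L : V3 →ₗ[ℝ] V4, (∀ x y, q (L x) (L y) = eta x y) ∧ (∀ x, q (L x) N = 0) ∧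
    (∀ x ∈ H2, P.Y x = L x + P.T x • N) ∧
    (∀ g ∈ P.S.G, g.2 N = N ∧ ∀ x, g.2 (L x) = L (g.1 x)) := by
  classical
  obtain ⟨-, pp, -, psn, -⟩ := snprops6 P
  -- `N` is fixed
  have hfix : ∀ g ∈ P.S.G, g.2 N = N := by
    intro g hg
    have key : ∀ y ∈ H2, q (P.S.s.X y) (g.2 N + (-1 : ℝ) • N) = 0 := by
      intro y hy
      have hx : g.1.symm y ∈ H2 := P.S.G_H2 _ (P.S.G_inv g hg) y hy
      have e1 : g.1 (g.1.symm y) = y := g.1.apply_symm_apply y
      have e2 : P.S.s.X y = g.2 (P.S.s.X (g.1.symm y)) := by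
        rw [← P.S.G_X g hg _ hx, e1]
      have e3 : q (P.S.s.X y) (g.2 N) = q (P.S.s.X y) N := by
        rw [e2, P.S.G_q g hg, ← e2, hN _ hx, hN y hy]
        have := psn g hg _ hx
        rw [e1] at this
        rw [this]
      have e4 : q (P.S.s.X y) (g.2 N + (-1 : ℝ) • N) = q (P.S.s.X y) (g.2 N) - q (P.S.s.X y) N := by
        simp only [q, Pi.add_apply, Pi.smul_apply, smul_eq_mul]
        ring
      rw [e4, e3, sub_self]
    have := span6 P.S.g key
    rw [neg_one_smul] at this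
    exact add_neg_eq_zero.1 this
  have hY : ∀ x ∈ H2, q (P.Y x) N = -P.T x := fun x hx => by
    rw [finalP_YN P hx (c := -1) (by rw [hN x hx, neg_one_mul]), neg_one_mul]
  obtain ⟨L, h1, h1N, hX⟩ := lin6 P.pg P.sig P.met (M := N) hNN hY
    (fun x hx i hi => oppn6 P.S hNN hξ h0 hO hx
      (by rw [hN x hx]; linarith [(pp x hx).2.1]) (P.Sn i x hx hi))
  refine ⟨L, h1, h1N, hX, fun g hg => ⟨hfix g hg, fun x => ?_⟩⟩
  have e1 : ∀ x ∈ H2, L (g.1 x) = g.2 (L x) := fun x hx => finalP_eqL P hg hX (hfix g hg) hx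
  have h8 : (g.2 : V4 →ₗ[ℝ] V4).comp L = L.comp (g.1 : V3 →ₗ[ℝ] V3) :=
    finalP_ext fun x hx => (e1 x hx).symm
  exact congrArg (fun f => f x) h8

end A_finalP

alias finalP := A_finalP.finalP

end Helper935.Poly
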