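import Pool.Agent.Helper935_AdS.PGapC

namespace Helper935.Poly

namespace A_K_lt6

/- Proof:
a = sqrt(-q Z Z) > 0, b = sqrt(-q Y Y) > 0; a Y + b Z in K, so 0 > q (aY+bZ)(aY+bZ) = a^2 q Y Y + b^2 q Z Z + 2ab q Y Z = -2a^2b^2 + 2ab q Y Z.
-/
theorem K_lt6 {K : Set V4} (hadd : ∀ Y ∈ K, ∀ Z ∈ K, Y + Z ∈ K) (hsmul : ∀ Y ∈ K, ∀ t : ℝ, 0 < t → t • Y ∈ K)
    (hneg : ∀ Y ∈ K, q Y Y < 0) {Y Z : V4} (hY : Y ∈ K) (hZ : Z ∈ K) :
    q Y Z < Real.sqrt (-(q Y Y)) * Real.sqrt (-(q Z Z)) := by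
  have hYY := hneg Y hY
  have hZZ := hneg Z hZ
  have hb : 0 < Real.sqrt (-(q Y Y)) := Real.sqrt_pos.2 (by linarith)
  have ha : 0 < Real.sqrt (-(q Z Z)) := Real.sqrt_pos.2 (by linarith)
  have hb2 : Real.sqrt (-(q Y Y)) ^ 2 = -(q Y Y) := Real.sq_sqrt (by linarith)
  have ha2 : Real.sqrt (-(q Z Z)) ^ 2 = -(q Z Z) := Real.sq_sqrt (by linarith)
  set b := Real.sqrt (-(q Y Y)) with hbd
  set a := Real.sqrt (-(q Z Z)) with had
  have h1 := hneg (a • Y + b • Z) (hadd _ (hsmul Y hY a ha) _ (hsmul Z hZ b hb))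
  have h2 : q (a • Y + b • Z) (a • Y + b • Z) =
      a ^ 2 * q Y Y + b ^ 2 * q Z Z + 2 * (a * b) * q Y Z := by
    simp only [q, Pi.add_apply, Pi.smul_apply, smul_eq_mul]
    ring
  rw [h2] at h1
  have h3 : q Y Y = -b ^ 2 := by linarith
  have h4 : q Z Z = -a ^ 2 := by linarith
  have hab : 0 < a * b := mul_pos ha hb
  have h5 : 2 * (a * b) * (q Y Z - b * a) < 0 := by
    have : a ^ 2 * q Y Y + b ^ 2 * q Z Z + 2 * (a * b) * q Y Z =
        2 * (a * b) * (q Y Z - b * a) := by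
      rw [h3, h4]
      ring
    linarith
  by_contra hcon
  push Not at hcon
  have : 0 ≤ 2 * (a * b) * (q Y Z - b * a) := mul_nonneg (by positivity) (by linarith)
  linarith

end A_K_lt6

alias K_lt6 := A_K_lt6.K_lt6

namespace A_pg_of6

theorem pg6_q_smul_left (r : ℝ) (A B : V4) : q (r • A) B = r * q A B := by
  simp only [q, Pi.smul_apply, smul_eq_mul]; ring

theorem pg6_q_smul_right (r : ℝ) (A B : V4) : q A (r • B) = r * q A B := by
  simp only [q, Pi.smul_apply, smul_eq_mul]; ring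

theorem pg6_q_add_right (A B D : V4) : q A (B + D) = q A B + q A D := by
  simp only [q, Pi.add_apply]; ring

theorem pg6_q_add_left (A B D : V4) : q (A + B) D = q A D + q B D := by
  simp only [q, Pi.add_apply]; ring

theorem pg6_q_comm (A B : V4) : q A B = q B A := by
  simp only [q]; ring

theorem pg6_omega_swap (A B : V4) : omega B A = -omega A B := by
  simp only [omega]; ring

theorem pg6_half {ι : Type*} {C : ι → Set V3} {Y : V3 → V4} {n : ι → V4} (hC : IsSubdivision C)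
    (h : IsPolyhedral C Y n)
    {K : Set V4} (hadd : ∀ Y ∈ K, ∀ Z ∈ K, Y + Z ∈ K) (hsmul : ∀ Y ∈ K, ∀ t : ℝ, 0 < t → t • Y ∈ K)
    (hneg : ∀ Y ∈ K, q Y Y < 0) (hmem : ∀ x ∈ H2, Y x ∈ K) (hsupp : ∀ i, ∀ Z ∈ K, q (n i) Z ≤ 0)
    {o : ℝ} (ho : o = 1 ∨ o = -1) (hori : ∀ i, ∀ x ∈ C i, 0 < o * omega (Y x) (n i))
    {x y : V3} (hx : x ∈ H2) (hy : y ∈ H2) (hc : -1 < q (nrm Y x) (nrm Y y)) :
    0 < o * omega (nrm Y x) (nrm Y y) := by
  obtain ⟨⟨r, hr, e1, e2, -⟩, hXX, hXn⟩ := nrm_props h hx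
  obtain ⟨⟨r', hr', e1', e2', -⟩, hXX', -⟩ := nrm_props h hy
  have hXK : nrm Y x ∈ K := by rw [e1]; exact hsmul _ (hmem x hx) r hr
  have hXK' : nrm Y y ∈ K := by rw [e1']; exact hsmul _ (hmem y hy) r' hr'
  have hlt : q (nrm Y x) (nrm Y y) < 1 := by
    have := K_lt6 hadd hsmul hneg hXK hXK'
    rw [hXX, hXX'] at this
    simpa using this
  obtain ⟨k, yy, j, hfan⟩ := hC.fan x hx
  have hxi : x ∈ C (j 0) := (hfan.cell 0).1
  set i := j 0 with hi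
  set X := nrm Y x with hXdef
  set X' := nrm Y y with hXdef'
  set c := q X X' with hcdef
  have hcomm : q X' X = c := by rw [hcdef, pg6_q_comm]
  have hP1 : q X (X' + c • X) = 0 := by
    rw [pg6_q_add_right, pg6_q_smul_right, hXX, ← hcdef]; ring
  have hPP : q (X' + c • X) (X' + c • X) < 0 := by
    rw [pg6_q_add_right, pg6_q_smul_right, pg6_q_add_left, pg6_q_add_left, pg6_q_smul_left,
      pg6_q_smul_left, hXX, hXX', hcomm, ← hcdef]
    nlinarith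
  have hNX : q (n i) X = 0 := hXn i hxi
  have hNP : q (n i) (X' + c • X) ≤ 0 := by
    rw [pg6_q_add_right, pg6_q_smul_right, hNX]
    have := hsupp i X' hXK'
    linarith
  have hXN : q X (n i) = 0 := by rw [pg6_q_comm]; exact hNX
  have key := to_lemma (A := X) (U := n i) (V := X' + c • X) (by rw [hXX]; norm_num) hXN hP1
    (by rw [h.nn i]; norm_num) hPP hNP
  have e3 : omega X (X' + c • X) = omega X X' := by
    simp only [omega, Pi.add_apply, Pi.smul_apply, smul_eq_mul]; ring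
  have e4 : omega X (n i) = r * omega (Y x) (n i) := by
    rw [e1]; simp only [omega, Pi.smul_apply, smul_eq_mul]; ring
  rw [e3, e4] at key
  have h5 := hori i x hxi
  have h6 : 0 < r * (omega (Y x) (n i) * omega X X') := by nlinarith [key]
  have h7 : 0 < omega (Y x) (n i) * omega X X' := (mul_pos_iff_of_pos_left hr).1 h6
  rcases ho with rfl | rfl
  · rw [one_mul] at h5 ⊢
    exact (mul_pos_iff_of_pos_left h5).1 h7
  · have h8 : omega (Y x) (n i) < 0 := by linarith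
    nlinarith [(mul_pos_iff.1 h7).resolve_left (by rintro ⟨h9, -⟩; linarith)]

/- Proof:
sub, poly, inj: given. supp: hmem, hsupp. same: x in C i and C j: n i, n j are unit timelike and orthogonal to Y x (h.nY), o * omega (Y x)(n i) > 0 and o * omega (Y x)(n j) > 0, so 0 < omega (Y x)(n i) * omega (Y x)(n j), timeq (A = Y x): q (n i)(n j) < 0.
chord: X = nrm Y x, X' = nrm Y y (unit, positive multiples of Y x, Y y, so in K), c = q X X' < 1 (K_lt6). Suppose c > -1. Take a cell C i containing x (hC.fan, IsFan.cell), N = n i. P = X' + c X: q X P = c - c = 0, q P P = -1 + c^2 < 0, q N P = q N X' <= 0 (q N X = 0). to_lemma (A = X, U = N, V = P): 0 < omega X N * omega X P, and omega X P = omega X X' (omega is bilinear and alternating). omega X N is a positive multiple of omega (Y x)(n i). So o * omega X X' > 0. Exchanging x and y: o * omega X' X > 0. But omega X' X = -omega X X'. Contradiction. So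 q X X' <= -1.
-/
theorem pg_of6 {ι : Type*} {C : ι → Set V3} {Y : V3 → V4} {n : ι → V4} (hC : IsSubdivision C) (h : IsPolyhedral C Y n)
    (hinj : InjRay Y) {K : Set V4} (hadd : ∀ Y ∈ K, ∀ Z ∈ K, Y + Z ∈ K) (hsmul : ∀ Y ∈ K, ∀ t : ℝ, 0 < t → t • Y ∈ K)
    (hneg : ∀ Y ∈ K, q Y Y < 0) (hmem : ∀ x ∈ H2, Y x ∈ K) (hsupp : ∀ i, ∀ Z ∈ K, q (n i) Z ≤ 0)
    {o : ℝ} (ho : o = 1 ∨ o = -1) (hori : ∀ i, ∀ x ∈ C i, 0 < o * omega (Y x) (n i)) : PolyGood C Y n := by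
  refine ⟨hC, h, fun i x hx => hsupp i _ (hmem x hx), ?_, ?_, hinj⟩
  · intro i j x hx hxi hxj
    have h1 := hori i x hxi
    have h2 := hori j x hxj
    have h3 : 0 < omega (Y x) (n i) * omega (Y x) (n j) := by
      rcases ho with rfl | rfl
      · rw [one_mul] at h1 h2
        exact mul_pos h1 h2
      · have h4 : omega (Y x) (n i) < 0 := by linarith
        have h5 : omega (Y x) (n j) < 0 := by linarith
        exact mul_pos_of_neg_of_neg h4 h5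
    refine (timeq (h.neg x hx) ?_ ?_ ?_ ?_).1 h3
    · rw [pg6_q_comm]; exact h.nY i x hxi
    · rw [pg6_q_comm]; exact h.nY j x hxj
    · rw [h.nn i]; norm_num
    · rw [h.nn j]; norm_num
  · intro x hx y hy
    by_contra hcon
    push Not at hcon
    have h1 := pg6_half hC h hadd hsmul hneg hmem hsupp ho hori hx hy hcon
    have h2 := pg6_half hC h hadd hsmul hneg hmem hsupp ho hori hy hx
      (by rw [pg6_q_comm]; exact hcon)
    rw [pg6_omega_swap (nrm Y x) (nrm Y y)] at h2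
    nlinarith

end A_pg_of6

alias pg_of6 := A_pg_of6.pg_of6

namespace A_cell_ex6

theorem cell_ex6_aux {x : V3} (hx : x ∈ Cone) : ∃ r : ℝ, 0 < r ∧ ∃ z ∈ H2, x = r • z := by
  obtain ⟨h1, h2⟩ := hx
  have hr : 0 < Real.sqrt (-(eta x x)) := Real.sqrt_pos.2 (by linarith)
  have hr2 : Real.sqrt (-(eta x x)) * Real.sqrt (-(eta x x)) = -(eta x x) :=
    Real.mul_self_sqrt (by linarith)
  refine ⟨Real.sqrt (-(eta x x)), hr, (Real.sqrt (-(eta x x)))⁻¹ • x, ⟨?_, ?_⟩, ?_⟩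
  · have he : eta ((Real.sqrt (-(eta x x)))⁻¹ • x) ((Real.sqrt (-(eta x x)))⁻¹ • x) =
        (Real.sqrt (-(eta x x)))⁻¹ * (Real.sqrt (-(eta x x)))⁻¹ * eta x x := by
      simp only [eta, Pi.smul_apply, smul_eq_mul]
      ring
    rw [he, ← mul_inv, hr2]
    have h3 : -(eta x x) ≠ 0 := by linarith
    have h4 : eta x x ≠ 0 := by linarith
    field_simp
  · simp only [Pi.smul_apply, smul_eq_mul]
    positivity
  · rw [smul_smul, mul_inv_cancel₀ hr.ne', one_smul]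

/-- every point of the cone over `H2` belongs to a cell -/
theorem cell_ex6 {ι : Type*} {C : ι → Set V3} (hC : IsSubdivision C) :
    (∀ x ∈ H2, ∃ i, x ∈ C i) ∧ (∀ x ∈ Cone, ∃ i, x ∈ C i) ∧ H2 ⊆ Cone ∧
    ∀ x ∈ Cone, ∃ r : ℝ, 0 < r ∧ ∃ z ∈ H2, x = r • z := by
  have hA : ∀ x ∈ H2, ∃ i, x ∈ C i := by
    intro x hx
    obtain ⟨k, y, j, hf⟩ := hC.fan x hx
    exact ⟨j 0, (hf.cell 0).1⟩
  refine ⟨hA, ?_, ?_, fun x hx => cell_ex6_aux hx⟩
  · intro x hx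
    obtain ⟨r, hr, z, hz, rfl⟩ := cell_ex6_aux hx
    obtain ⟨i, hi⟩ := hA z hz
    exact ⟨i, hC.smul i z hi r hr⟩
  · rintro x ⟨h1, h2⟩
    exact ⟨by rw [h1]; norm_num, h2⟩

end A_cell_ex6

alias cell_ex6 := A_cell_ex6.cell_ex6

namespace A_twin6

/- Proof:
T x := sigma * (Y x) 3. For x in Cone: x = r z, z in H2, z in C i for some i (then x in C i too), Y x = r Y z (hY.smul) = r emb z (sigma rr) = emb x (r sigma rr) for some rr > 0. So Y x = emb x ((Y x) 3) and sigma * T x = sigma^2 (Y x) 3 = (Y x) 3: Y0 sigma T x = emb x (sigma * T x) = Y x. For x in H2: T x = sigma * sigma * rr = rr > 0.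
-/
theorem twin6 {ι : Type*} {C : ι → Set V3} {Y : V3 → V4} {n : ι → V4} (hC : IsSubdivision C) (hY : IsPolyhedral C Y n)
    {σ : ℝ} (hσ : σ = 1 ∨ σ = -1) (hT : ∀ x ∈ H2, ∃ r : ℝ, 0 < r ∧ Y x = emb x (σ * r)) :
    ∃ T : V3 → ℝ, (∀ x ∈ Cone, Y0 σ T x = Y x) ∧ ∀ x ∈ H2, 0 < T x := by
  obtain ⟨h1, -, -, h4⟩ := cell_ex6 hC
  have hs : σ * σ = 1 := by
    rcases hσ with h | h <;> rw [h] <;> norm_num
  refine ⟨fun x => σ * Y x 3, ?_, ?_⟩
  · intro x hx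
    obtain ⟨r, hr, z, hz, hxz⟩ := h4 x hx
    obtain ⟨i, hi⟩ := h1 z hz
    obtain ⟨t, ht, hYz⟩ := hT z hz
    have hY1 : Y x = r • Y z := by rw [hxz]; exact hY.smul i z hi r hr
    have e : Y x = emb x (r * (σ * t)) := by
      rw [hY1, hYz, hxz]
      funext k
      fin_cases k <;> simp [emb]
    have e3 : Y x 3 = r * (σ * t) := by rw [e]; rfl
    show emb x (σ * (σ * Y x 3)) = Y x
    rw [← mul_assoc, hs, one_mul, e3]
    exact e.symm
  · intro x hx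
    obtain ⟨t, ht, hYx⟩ := hT x hx
    have e3 : Y x 3 = σ * t := by rw [hYx]; rfl
    show 0 < σ * Y x 3
    rw [e3, ← mul_assoc, hs, one_mul]
    exact ht

end A_twin6

alias twin6 := A_twin6.twin6

namespace A_pg_congr6

/- Proof:
All fields of PolyGood and IsPolyhedral only use values of Y on H2 and on the cells, which are contained in Cone (h.sub.sub), H2 ⊆ Cone; cells are closed under addition and positive multiples. nrm Y' x = nrm Y x for x in H2.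
-/
theorem pg_congr6 {ι : Type*} {C : ι → Set V3} {Y Y' : V3 → V4} {n : ι → V4} (h : PolyGood C Y n)
    (e : ∀ x ∈ Cone, Y' x = Y x) : PolyGood C Y' n := by
  obtain ⟨-, -, hHC, -⟩ := cell_ex6 h.sub
  have eH : ∀ x ∈ H2, Y' x = Y x := fun x hx => e x (hHC hx)
  have eC : ∀ i, ∀ x ∈ C i, Y' x = Y x := fun i x hx => e x (h.sub.sub i hx)
  have eN : ∀ x ∈ H2, nrm Y' x = nrm Y x := fun x hx => by
    unfold nrm
    rw [eH x hx]
  refine
    { sub := h.sub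
      poly :=
        { cont := h.poly.cont.congr fun x hx => eH x hx
          add := fun i x hx y hy => ?_
          smul := fun i x hx t ht => ?_
          neg := fun x hx => ?_
          nn := h.poly.nn
          nY := fun i x hx => ?_
          ori := ?_ }
      supp := fun i x hx => ?_
      same := h.same
      chord := fun x hx y hy => ?_
      inj := fun x hx y hy t ht hxy => ?_ }
  · rw [eC i _ (h.sub.add i x hx y hy), eC i x hx, eC i y hy]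
    exact h.poly.add i x hx y hy
  · rw [eC i _ (h.sub.smul i x hx t ht), eC i x hx]
    exact h.poly.smul i x hx t ht
  · rw [eH x hx]
    exact h.poly.neg x hx
  · rw [eC i x hx]
    exact h.poly.nY i x hx
  · obtain ⟨s, hs⟩ := h.poly.ori
    refine ⟨s, fun i x hx y hy z hz hd => ?_⟩
    rw [eC i x hx, eC i y hy, eC i z hz]
    exact hs i x hx y hy z hz hd
  · rw [eH x hx]
    exact h.supp i x hx
  · rw [eN x hx, eN y hy]
    exact h.chord x hx y hy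
  · rw [eH x hx, eH y hy] at hxy
    exact h.inj x hx y hy t ht hxy

end A_pg_congr6

alias pg_congr6 := A_pg_congr6.pg_congr6

namespace A_nE6

/- Proof:
A = Y0 sigma T x = emb x (sigma T x), q A A = -1 - T^2 < 0, P = EE - (q A EE/q A A) A: q A P = 0, q P P = q EE EE - (q A EE)^2/q A A = -1 + T^2/(1+T^2) < 0 (q A EE = -sigma T, sigma^2 = 1). omega A P = omega A EE = x 0 > 0 (omega A A = 0, EE = ![0,0,0,1]). n = n0 i: q n n = -1, q n A = 0 (h0.poly.nY). q n P = q n EE. If sigma = -1: omega A n > 0, timeq: q P n < 0, so q n (sigma • EE) = -q n EE > 0. If sigma = 1: omega A n < 0, so not 0 < omega A P * omega A n, timeq: q P n >= 0, and q P n ≠ 0 by revCS (ii). So q n EE > 0.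
-/
theorem nE6 {ι : Type*} {C : ι → Set V3} {σ : ℝ} {T : V3 → ℝ} {n₀ : ι → V4} (h0 : PolyGood C (Y0 σ T) n₀)
    (hσ : σ = 1 ∨ σ = -1) (hori : ∀ i, ∀ x ∈ C i, 0 < -σ * omega (Y0 σ T x) (n₀ i)) :
    ∀ i, ∀ x ∈ H2, x ∈ C i → 0 < q (n₀ i) (σ • EE) := by
  intro i x hx hxC
  have hσ2 : σ ^ 2 = 1 := by rcases hσ with h | h <;> rw [h] <;> norm_num
  have hxx : eta x x = -1 := hx.1
  have hx0 : 0 < x 0 := hx.2
  set A : V4 := Y0 σ T x with hAdef
  have hAemb : A = emb x (σ * T x) := rfl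
  set t : ℝ := T x with ht
  have hAA : q A A = -1 - t ^ 2 := by
    rw [hAemb, embq6, hxx]
    have : σ * t * (σ * t) = σ ^ 2 * t ^ 2 := by ring
    rw [this, hσ2]; ring
  have hAAneg : q A A < 0 := by rw [hAA]; nlinarith [sq_nonneg t]
  have hA3 : A 3 = σ * t := by rw [hAemb]; rfl
  have hA0 : A 0 = x 0 := by rw [hAemb]; rfl
  have hE0 : EE 0 = 0 := rfl
  have hE1 : EE 1 = 0 := rfl
  have hE2 : EE 2 = 0 := rfl
  have hE3 : EE 3 = 1 := rfl
  have hAE : q A EE = -(σ * t) := by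
    simp only [q, hE0, hE1, hE2, hE3, hA3]; ring
  set c : ℝ := q A EE / q A A with hc
  have hcA : c * q A A = q A EE := by rw [hc]; exact div_mul_cancel₀ _ hAAneg.ne
  set P : V4 := EE - c • A with hP
  have hqsub : ∀ Z : V4, q Z P = q Z EE - c * q Z A := by
    intro Z; simp only [q, hP, Pi.sub_apply, Pi.smul_apply, smul_eq_mul]; ring
  have hsymm : ∀ Z W : V4, q Z W = q W Z := by
    intro Z W; simp only [q]; ring
  have hAP : q A P = 0 := by rw [hqsub, hcA]; ring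
  have hPP : q P P < 0 := by
    have h1 : q P P = q EE P - c * q A P := by
      rw [hsymm P P, ← hsymm P EE, ← hsymm P A]
      simp only [q, hP, Pi.sub_apply, Pi.smul_apply, smul_eq_mul]; ring
    have h2 : q EE EE = -1 := by simp only [q, hE0, hE1, hE2, hE3]; ring
    rw [h1, hAP, hqsub, h2, hsymm EE A]
    have h3 : c * q A EE = -(t ^ 2 / (1 + t ^ 2)) := by
      rw [hc, hAE, hAA]
      have h4 : (-1 - t ^ 2 : ℝ) ≠ 0 := by nlinarith [sq_nonneg t]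
      have h5 : (1 + t ^ 2 : ℝ) ≠ 0 := by positivity
      field_simp
      ring_nf
      rw [hσ2]; ring
    have h6 : t ^ 2 / (1 + t ^ 2) < 1 := by
      rw [div_lt_one (by positivity)]; linarith
    linarith
  have hωP : 0 < omega A P := by
    have : omega A P = x 0 := by
      simp only [omega, hP, Pi.sub_apply, Pi.smul_apply, smul_eq_mul, hE0, hE3, hA0]; ring
    rw [this]; exact hx0
  have hnn : q (n₀ i) (n₀ i) = -1 := h0.poly.nn i
  have hnA : q A (n₀ i) = 0 := by rw [hsymm]; exact h0.poly.nY i x hxC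
  have hnP : q P (n₀ i) = q (n₀ i) EE := by
    rw [hsymm, hqsub, hsymm (n₀ i) A, hnA]; ring
  have hnneg : q (n₀ i) (n₀ i) < 0 := by rw [hnn]; norm_num
  have hT := timeq hAAneg hAP hnA hPP hnneg
  have ho : 0 < -σ * omega A (n₀ i) := hori i x hxC
  have hsm : q (n₀ i) (σ • EE) = σ * q (n₀ i) EE := by
    simp only [q, Pi.smul_apply, smul_eq_mul]; ring
  rw [hsm]
  rcases hσ with h | h
  · rw [h] at ho ⊢
    have h1 : ¬ 0 < omega A P * omega A (n₀ i) := by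
      have : omega A (n₀ i) < 0 := by linarith
      intro h2
      have := mul_neg_of_pos_of_neg hωP this
      linarith
    have h2 : ¬ q P (n₀ i) < 0 := fun h3 => h1 (hT.2 h3)
    have h3 : q P (n₀ i) ≠ 0 := by
      intro h4
      have h5 := ((revCS hAAneg hnneg hnA hAP).1 h4).1
      linarith
    have h4 : 0 < q P (n₀ i) := lt_of_le_of_ne (not_lt.1 h2) (Ne.symm h3)
    rw [hnP] at h4
    linarith
  · rw [h] at ho ⊢
    have h1 : 0 < omega A (n₀ i) := by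
      linarith
    have h2 := hT.1 (mul_pos hωP h1)
    rw [hnP] at h2
    linarith

end A_nE6

alias nE6 := A_nE6.nE6

namespace A_ngood6

/- Proof:
Write S for the NS. c = (1+m^2)^-1 > 0, s/c = (1+m^2) s. contX: Y is continuous on H2 (h.poly.cont), q (Y)(Y) < 0, so nrm Y = (sqrt(-q Y Y))^-1 Y is continuous. XX: nrm_props. ne: cell_ex6 and ha. NN, NX, supp: hb. same: hc. chord: h.chord. inj: nrm Y x = nrm Y y implies Y x = t Y y with t > 0 (nrm_props), h.inj. dir: zeta = uv Y x y with x, y in C i, x ≠ y: uv_props: q zeta zeta = 1, q X zeta = 0, q (n i) zeta = 0 with n i in Nr x (ha). seg_uv (h, h0, hs): l > 0 and for 0 <= s <= l a point z in H2, in C i, with nrm Y z = cosh s nrm Y x + sinh s zeta and nrm (Y0 ..) z = cosh s nrm (Y0 ..) x + sinh s uv (Y0 ..) x y; taking q with nrm (Y0..) x (uv_props for h0: q (nrm (Y0) x)(uv) = 0): q (nrm (Y0) x)(nrm (Y0) z) = -cosh s, so cellbound (h0, hσ,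 hT, hm, hE): -eta x z <= cosh((1+m^2) s). cover: cover_pl with zeta = uv Y x y. nonflat: nonflat_pl.
-/
theorem ngood6 {ι : Type*} {C : ι → Set V3} {Y : V3 → V4} {n : ι → V4} {σ : ℝ} {T : V3 → ℝ} {n₀ : ι → V4}
    (h : PolyGood C Y n) (h0 : PolyGood C (Y0 σ T) n₀) (hσ : σ = 1 ∨ σ = -1) (hs : SameCellMetric C Y (Y0 σ T))
    (hT : ∀ w ∈ H2, 0 < T w) {m : ℝ} (hm : ∀ w ∈ H2, T w ≤ m) {x₀ : V3} (hx₀ : x₀ ∈ H2) (hmax : ∀ w ∈ H2, T w ≤ T x₀)
    (hE : ∀ i, ∀ x ∈ H2, x ∈ C i → 0 < q (n₀ i) (σ • EE)) {Nr : V3 → Set V4}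
    (ha : ∀ i, ∀ x ∈ H2, x ∈ C i → n i ∈ Nr x)
    (hb : ∀ x ∈ H2, ∀ v ∈ Nr x, q v v = -1 ∧ q v (nrm Y x) = 0 ∧ ∀ y ∈ H2, q v (nrm Y y) ≤ 0)
    (hc : ∀ x ∈ H2, ∀ v ∈ Nr x, ∀ v' ∈ Nr x, q v v' < 0) :
    NGood ⟨nrm Y, Nr, fun x => {ζ | ∃ y ∈ H2, ∃ i, x ∈ C i ∧ y ∈ C i ∧ x ≠ y ∧ ζ = uv Y x y}⟩ ((1 + m ^ 2)⁻¹) := by
  have hm2 : 0 < 1 + m ^ 2 := by positivity
  have qsmul : ∀ (a b : ℝ) (U V W : V4), q U (a • V + b • W) = a * q U V + b * q U W := by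
    intro a b U V W
    simp only [q, Pi.add_apply, Pi.smul_apply, smul_eq_mul]
    ring
  refine
    { c_pos := inv_pos.mpr hm2
      contX := ?_
      XX := fun x hx => (nrm_props h.poly hx).2.1
      ne := ?_
      NN := fun x hx v hv => (hb x hx v hv).1
      NX := fun x hx v hv => (hb x hx v hv).2.1
      same := hc
      supp := fun x hx v hv => (hb x hx v hv).2.2
      chord := h.chord
      inj := ?_
      dir := ?_
      cover := ?_
      nonflat := fun N hN => nonflat_pl h h0 hσ hs hT hx₀ hmax hN }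
  · show ContinuousOn (nrm Y) H2
    have hcont : ContinuousOn Y H2 := h.poly.cont
    have hcomp : ∀ j : Fin 4, ContinuousOn (fun x => Y x j) H2 := fun j =>
      (continuous_apply j).comp_continuousOn hcont
    have hq : ContinuousOn (fun x => q (Y x) (Y x)) H2 := by
      unfold q
      exact ((((hcomp 0).mul (hcomp 0)).neg.add ((hcomp 1).mul (hcomp 1))).add
        ((hcomp 2).mul (hcomp 2))).sub ((hcomp 3).mul (hcomp 3))
    have hsq : ContinuousOn (fun x => Real.sqrt (-(q (Y x) (Y x)))) H2 :=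
      Real.continuous_sqrt.comp_continuousOn hq.neg
    have hne : ∀ x ∈ H2, Real.sqrt (-(q (Y x) (Y x))) ≠ 0 := by
      intro x hx
      have := h.poly.neg x hx
      exact (Real.sqrt_pos.mpr (by linarith)).ne'
    exact (hsq.inv₀ hne).smul hcont
  · intro x hx
    obtain ⟨i, hi⟩ := (cell_ex6 h.sub).1 x hx
    exact ⟨n i, ha i x hx hi⟩
  · intro x hx y hy hxy
    have hxy' : nrm Y x = nrm Y y := hxy
    obtain ⟨⟨r, hr, hr1, hr2, _⟩, _, _⟩ := nrm_props h.poly hx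
    obtain ⟨⟨t, ht, ht1, ht2, _⟩, _, _⟩ := nrm_props h.poly hy
    apply h.inj x hx y hy (r⁻¹ * t) (by positivity)
    rw [hr2, hxy', ht1, smul_smul]
  · intro x hx ζ hζ
    obtain ⟨y, hy, i, hxi, hyi, hxy, rfl⟩ := hζ
    obtain ⟨_, hu1, hu2, hu3, _, _⟩ := uv_props h hx hy hxy hxi hyi
    refine ⟨hu1, hu2, ⟨n i, ha i x hx hxi, hu3⟩, ?_⟩
    obtain ⟨l, hl, _, hz⟩ := seg_uv h h0 hs hx hy hxy hxi hyi
    refine ⟨l, hl, fun s hs0 hsl => ?_⟩
    obtain ⟨z, hzH, hzc, hz1, hz2⟩ := hz s hs0 hsl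
    refine ⟨z, hzH, hz1, ?_⟩
    have hzi : z ∈ C i := hzc i hxi hyi
    have h01 : q (nrm (Y0 σ T) x) (nrm (Y0 σ T) x) = -1 := (nrm_props h0.poly hx).2.1
    have h02 : q (nrm (Y0 σ T) x) (uv (Y0 σ T) x y) = 0 :=
      (uv_props h0 hx hy hxy hxi hyi).2.2.1
    have hc' : q (nrm (Y0 σ T) x) (nrm (Y0 σ T) z) = -Real.cosh s := by
      rw [hz2, qsmul, h01, h02]
      ring
    have hfin := cellbound h0 hσ hT hm (hE i x hx hxi) hx hzH hxi hzi hs0 hc'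
    have e : s / (1 + m ^ 2)⁻¹ = (1 + m ^ 2) * s := by
      rw [div_inv_eq_mul, mul_comm]
    rw [e]
    exact hfin
  · intro x hx W hW hXW Z hZ
    obtain ⟨a, τ, y, hy, i, hxi, hyi, hxy, ha0, hZe⟩ := cover_pl h hx hW hXW hZ
    exact ⟨a, τ, uv Y x y, ⟨y, hy, i, hxi, hyi, hxy, rfl⟩, ha0, hZe⟩

end A_ngood6

alias ngood6 := A_ngood6.ngood6

namespace A_pt_of6

theorem pt6_comm (X Y : V4) : q X Y = q Y X := by
  simp only [q]
  ring

theorem pt6_smr (r : ℝ) (X Y : V4) : q X (r • Y) = r * q X Y := by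
  simp only [q, Pi.smul_apply, smul_eq_mul]
  ring

theorem pt6_sml (r : ℝ) (X Y : V4) : q (r • X) Y = r * q X Y := by
  simp only [q, Pi.smul_apply, smul_eq_mul]
  ring

theorem pt6_addr (X Y Z : V4) : q X (Y + Z) = q X Y + q X Z := by
  simp only [q, Pi.add_apply]
  ring

theorem pt6_addl (X Y Z : V4) : q (X + Y) Z = q X Z + q Y Z := by
  simp only [q, Pi.add_apply]
  ring

theorem pt6_negr (X Y : V4) : q X (-Y) = -q X Y := by
  simp only [q, Pi.neg_apply]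
  ring

theorem pt6_negl (X Y : V4) : q (-X) Y = -q X Y := by
  simp only [q, Pi.neg_apply]
  ring

theorem pt6_osml (r : ℝ) (X Y : V4) : omega (r • X) Y = r * omega X Y := by
  simp only [omega, Pi.smul_apply, smul_eq_mul]
  ring

theorem pt6_onegr (X Y : V4) : omega X (-Y) = -omega X Y := by
  simp only [omega, Pi.neg_apply]
  ring

theorem pt6_nrm {f : V4 ≃ₗ[ℝ] V4} (hf : ∀ X Y, q (f X) (f Y) = q X Y) {Y : V3 → V4} {x y : V3}
    (h : Y y = f (Y x)) : nrm Y y = f (nrm Y x) := by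
  unfold nrm
  rw [h, hf, map_smul]

/-- the orientation condition is preserved by time isometries -/
theorem pt6_time {f : V4 ≃ₗ[ℝ] V4} (hf : IsTimeIso f) {σ : ℝ} (hσ : σ = 1 ∨ σ = -1) {X v : V4}
    (hX : q X X < 0) (hv : q v v < 0) (hXv : q X v = 0) (h : 0 < -σ * omega X v) :
    0 < -σ * omega (f X) (f v) := by
  rcases hσ with rfl | rfl
  · have h1 : 0 < omega X (-v) := by
      rw [pt6_onegr]
      linarith
    have h2 := hf.time X (-v) hX (by rw [pt6_negr, pt6_negl]; linarith)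
      (by rw [pt6_negr, hXv, neg_zero]) h1
    rw [map_neg, pt6_onegr] at h2
    linarith
  · have h1 : 0 < omega X v := by linarith
    have h2 := hf.time X v hX hv hXv h1
    linarith

/-- two unit timelike vectors orthogonal to the timelike `X`, both positive against `E`, where the
component of `E` orthogonal to `X` is timelike -/
theorem pt6_same {X E v v' : V4} (hX : q X X = -1) (hE : q E E = -1) (ha : q X E ^ 2 < 1)
    (hv : q v v = -1) (hv' : q v' v' = -1) (hvX : q v X = 0) (hvX' : q v' X = 0)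
    (hvE : 0 < q v E) (hvE' : 0 < q v' E) : q v v' < 0 := by
  have hXE : q X (E + q X E • X) = 0 := by
    rw [pt6_addr, pt6_smr, hX]
    ring
  have hEE : q (E + q X E • X) (E + q X E • X) < 0 := by
    rw [pt6_addl, pt6_addr, pt6_addr, pt6_sml, pt6_sml, pt6_smr, pt6_smr, hX, hE, pt6_comm E X]
    nlinarith
  have h1 : q v (E + q X E • X) = q v E := by
    rw [pt6_addr, pt6_smr, hvX]
    ring
  have h2 : q v' (E + q X E • X) = q v' E := by
    rw [pt6_addr, pt6_smr, hvX']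
    ring
  obtain ⟨-, r2, r3⟩ := revCS (A := X) (W := v) (by linarith) (by linarith)
    (by rw [pt6_comm]; exact hvX) (Z := v') (by rw [pt6_comm]; exact hvX')
  have h3 : q v' v ≤ 0 := by
    refine r3 (by linarith) (-(E + q X E • X)) ?_ ?_ ?_ ?_
    · rw [pt6_negr, hXE, neg_zero]
    · rw [pt6_negr, pt6_negl]
      linarith
    · rw [pt6_negl, pt6_comm, h1]
      linarith
    · rw [pt6_negr, h2]
      linarith
  have h4 : q v' v ≠ 0 := by
    intro h5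
    have h6 := r2 (by linarith) h5
    rw [h6] at hv'
    simp [q] at hv'
  rw [pt6_comm]
  exact lt_of_le_of_ne h3 h4

/- Proof:
T is continuous on H2: T x = sigma * (Y0 sigma T x) 3 and Y0 sigma T is continuous (h0.poly.cont). T is invariant (hTi) and positive; with F compact nonempty and hFc, T attains its maximum over H2 at some x0 in F; m := T x0.
Nr x := {v | q v v = -1 ∧ q v (nrm Y x) = 0 ∧ (∀ y ∈ H2, q v (nrm Y y) ≤ 0) ∧ (∀ y ∈ H2, q v (Y₂ y) ≤ 0) ∧ 0 < -sigma * omega (nrm Y x) v}. For x in H2, x in C i: n i in Nr x (h.poly.nn, nrm_props, h.supp, h2, hori; nrm Y x is a positive multiple of Y x). Two elements v, v' of Nr x: 0 < omega X v * omega X v' (X = nrm Y x), so q v v' < 0 by timeq. ngood6 gives the NGood with Dr x = {zeta | ...}. CS: o = -sigma, G = {p | ∃ g, p = (A g, rho g)}, F: G_inv: (A g).symm = A (g^-1) etc. (map_inv; (A g)⁻¹ = (A g).symm), G_eta: hA.iso, G_H2: hA.iso and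 hA.pos, G_q, G_time: hρ, G_X: nrm Y (A g x) = rho g (nrm Y x) from hY and q-invariance, G_N: v in Nr x implies rho g v in Nr (A g x): q (rho g v)(nrm Y y) = q v (nrm Y (A g^-1 y)), etc., Y₂ likewise (h2e), the omega condition by time (for -sigma = 1 directly; for -sigma = -1 apply it to -v), ori by definition.
S0: NS with X = nrm (Y0 sigma T), Nr x := {v | q v v = -1 ∧ q v (nrm (Y0..) x) = 0 ∧ (∀ y ∈ H2, q v (nrm (Y0 ..) y) ≤ 0) ∧ 0 < q v (sigma • EE)}: n0 i in it (h0, hE). Two elements v, v': X0 = nrm (Y0..) x, E' = sigma EE + (q X0 (sigma EE)) X0 is orthogonal to X0, q E' E' = -1 + (q X0 (sigma EE))^2 = -1 + T^2/(1+T^2) < 0, q v E' = q v (sigma EE) > 0, q v' E' > 0. revCS (iii) (A = X0, W := v, U := -E', Z := v': q (-E') v < 0, q v' (-E') <= 0): q v' v <= 0, and ≠ 0 by (ii). ngood6 applied to (Y0, Y0) (h := h0, h0 := h0, SameCellMetric reflexive) gives g0.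
-/
theorem pt_of6 {Γ : Type*} [Group Γ] {A : Γ →* (V3 ≃ₗ[ℝ] V3)} (hA : IsCocompact A) {F : Set V3} (hF : F ⊆ H2)
    (hFk : IsCompact F) (hFc : ∀ x ∈ H2, ∃ g, A g x ∈ F) {ι : Type*} {C : ι → Set V3} {Y : V3 → V4} {n : ι → V4}
    {σ : ℝ} {T : V3 → ℝ} {n₀ : ι → V4} (h : PolyGood C Y n) (h0 : PolyGood C (Y0 σ T) n₀) (hσ : σ = 1 ∨ σ = -1)
    (hs : SameCellMetric C Y (Y0 σ T)) (hT : ∀ w ∈ H2, 0 < T w) (hTi : ∀ g, ∀ x ∈ H2, T (A g x) = T x)
    (hE : ∀ i, ∀ x ∈ H2, x ∈ C i → 0 < q (n₀ i) (σ • EE)) {ρ : Γ →* (V4 ≃ₗ[ℝ] V4)} (hρ : ∀ g, IsTimeIso (ρ g))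
    (hY : ∀ g, ∀ x ∈ H2, Y (A g x) = ρ g (Y x)) (hori : ∀ i, ∀ x ∈ C i, 0 < -σ * omega (Y x) (n i))
    {Y₂ : V3 → V4} (h2 : ∀ i, ∀ y ∈ H2, q (n i) (Y₂ y) ≤ 0) (h2e : ∀ g, ∀ x ∈ H2, Y₂ (A g x) = ρ g (Y₂ x)) :
    ∃ P : PT ι, P.C = C ∧ P.Y = Y ∧ P.n = n ∧ P.T = T ∧ P.σ = σ ∧ P.S.G = {p | ∃ g, p = (A g, ρ g)} ∧ P.S.F = F ∧
      ∀ x ∈ H2, ∀ v ∈ P.S.s.Nr x, ∀ y ∈ H2, q v (Y₂ y) ≤ 0 := by
  have hσ2 : σ * σ = 1 := by
    rcases hσ with rfl | rfl <;> norm_num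
  have hTc : ContinuousOn T H2 := by
    have h1 : ContinuousOn (fun x => σ * (Y0 σ T x) 3) H2 :=
      continuousOn_const.mul ((continuous_apply 3).comp_continuousOn h0.poly.cont)
    refine h1.congr fun x _ => ?_
    have h2 : (Y0 σ T x) 3 = σ * T x := rfl
    show T x = σ * (Y0 σ T x) 3
    rw [h2, ← mul_assoc, hσ2, one_mul]
  have hp : (![1, 0, 0] : V3) ∈ H2 := by
    constructor
    · simp [eta]
    · simp
  obtain ⟨g1, hg1⟩ := hFc _ hp
  obtain ⟨x₀, hx₀F, hx₀m⟩ := hFk.exists_isMaxOn ⟨_, hg1⟩ (hTc.mono hF)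
  have hx₀ : x₀ ∈ H2 := hF hx₀F
  have hmax : ∀ w ∈ H2, T w ≤ T x₀ := by
    intro w hw
    obtain ⟨g, hg⟩ := hFc w hw
    rw [← hTi g w hw]
    exact hx₀m hg
  have hAH : ∀ g, ∀ x ∈ H2, A g x ∈ H2 := fun g x hx =>
    ⟨by rw [hA.iso]; exact hx.1, hA.pos g x hx⟩
  have hAinv : ∀ g (x : V3), A g (A g⁻¹ x) = x := by
    intro g x
    have h1 : A g * A g⁻¹ = 1 := by rw [← map_mul, mul_inv_cancel, map_one]
    exact congrArg (fun f : V3 ≃ₗ[ℝ] V3 => f x) h1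
  have hnY : ∀ g, ∀ x ∈ H2, nrm Y (A g x) = ρ g (nrm Y x) := fun g x hx =>
    pt6_nrm (hρ g).iso (hY g x hx)
  -- the sets of normals
  set Nr : V3 → Set V4 := fun x => {v | q v v = -1 ∧ q v (nrm Y x) = 0 ∧
    (∀ y ∈ H2, q v (nrm Y y) ≤ 0) ∧ (∀ y ∈ H2, q v (Y₂ y) ≤ 0) ∧
    0 < -σ * omega (nrm Y x) v} with hNr
  have ha : ∀ i, ∀ x ∈ H2, x ∈ C i → n i ∈ Nr x := by
    intro i x hx hxi
    obtain ⟨⟨r, hr, e1, -, -⟩, -, e3⟩ := nrm_props h.poly hx
    refine ⟨h.poly.nn i, e3 i hxi, fun y hy => ?_, h2 i, ?_⟩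
    · obtain ⟨⟨r', hr', e1', -, -⟩, -, -⟩ := nrm_props h.poly hy
      rw [e1', pt6_smr]
      exact mul_nonpos_of_nonneg_of_nonpos hr'.le (h.supp i y hy)
    · rw [e1, pt6_osml]
      have h3 := hori i x hxi
      have h4 : -σ * (r * omega (Y x) (n i)) = r * (-σ * omega (Y x) (n i)) := by ring
      rw [h4]
      exact mul_pos hr h3
  have hb : ∀ x ∈ H2, ∀ v ∈ Nr x, q v v = -1 ∧ q v (nrm Y x) = 0 ∧
      ∀ y ∈ H2, q v (nrm Y y) ≤ 0 := fun x _ v hv => ⟨hv.1, hv.2.1, hv.2.2.1⟩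
  have hc : ∀ x ∈ H2, ∀ v ∈ Nr x, ∀ v' ∈ Nr x, q v v' < 0 := by
    intro x hx v hv v' hv'
    obtain ⟨-, e2, -⟩ := nrm_props h.poly hx
    refine (timeq (A := nrm Y x) (by linarith) (by rw [pt6_comm]; exact hv.2.1)
      (by rw [pt6_comm]; exact hv'.2.1) (by rw [hv.1]; norm_num) (by rw [hv'.1]; norm_num)).1 ?_
    have h3 := mul_pos hv.2.2.2.2 hv'.2.2.2.2
    have h4 : -σ * omega (nrm Y x) v * (-σ * omega (nrm Y x) v') =
        (σ * σ) * (omega (nrm Y x) v * omega (nrm Y x) v') := by ring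
    rw [h4, hσ2, one_mul] at h3
    exact h3
  have hgood := ngood6 h h0 hσ hs hT (m := T x₀) hmax hx₀ hmax hE ha hb hc
  -- the Fuchsian twin
  set Nr0 : V3 → Set V4 := fun x => {v | q v v = -1 ∧ q v (nrm (Y0 σ T) x) = 0 ∧
    (∀ y ∈ H2, q v (nrm (Y0 σ T) y) ≤ 0) ∧ 0 < q v (σ • EE)} with hNr0
  have ha0 : ∀ i, ∀ x ∈ H2, x ∈ C i → n₀ i ∈ Nr0 x := by
    intro i x hx hxi
    obtain ⟨-, -, e3⟩ := nrm_props h0.poly hx
    refine ⟨h0.poly.nn i, e3 i hxi, fun y hy => ?_, hE i x hx hxi⟩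
    obtain ⟨⟨r', hr', e1', -, -⟩, -, -⟩ := nrm_props h0.poly hy
    rw [e1', pt6_smr]
    exact mul_nonpos_of_nonneg_of_nonpos hr'.le (h0.supp i y hy)
  have hb0 : ∀ x ∈ H2, ∀ v ∈ Nr0 x, q v v = -1 ∧ q v (nrm (Y0 σ T) x) = 0 ∧
      ∀ y ∈ H2, q v (nrm (Y0 σ T) y) ≤ 0 := fun x _ v hv => ⟨hv.1, hv.2.1, hv.2.2.1⟩
  have hEE : q (σ • EE) (σ • EE) = -1 := by
    have h3 : q (σ • EE) (σ • EE) = -(σ * σ) := by
      simp [q, EE]
    rw [h3, hσ2]
  have hc0 : ∀ x ∈ H2, ∀ v ∈ Nr0 x, ∀ v' ∈ Nr0 x, q v v' < 0 := by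
    intro x hx v hv v' hv'
    obtain ⟨⟨r, hr, e1, -, -⟩, e2, -⟩ := nrm_props h0.poly hx
    have h3 : q (Y0 σ T x) (σ • EE) = -T x := by
      have h4 : q (Y0 σ T x) (σ • EE) = -((σ * σ) * T x) := by
        simp [q, Y0, emb, EE]
        ring
      rw [h4, hσ2, one_mul]
    have h5 : q (Y0 σ T x) (Y0 σ T x) = -(1 + T x ^ 2) := by
      have h6 : q (Y0 σ T x) (Y0 σ T x) = eta x x - (σ * σ) * T x ^ 2 := by
        unfold Y0
        rw [embq6]
        ring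
      rw [h6, hσ2, hx.1]
      ring
    have h7 : r ^ 2 * (1 + T x ^ 2) = 1 := by
      rw [e1, pt6_smr, pt6_sml, h5] at e2
      linarith
    refine pt6_same e2 hEE ?_ hv.1 hv'.1 hv.2.1 hv'.2.1 hv.2.2.2 hv'.2.2.2
    rw [e1, pt6_sml, h3]
    nlinarith [sq_pos_of_pos hr]
  have hgood0 := ngood6 h0 h0 hσ (fun _ _ _ _ _ => rfl) hT (m := T x₀) hmax hx₀ hmax hE ha0 hb0 hc0
  refine ⟨{ C := C, Y := Y, n := n, T := T, n0 := n₀, σ := σ
            S := { s := ⟨nrm Y, Nr, fun x => {ζ | ∃ y ∈ H2, ∃ i, x ∈ C i ∧ y ∈ C i ∧ x ≠ y ∧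
                        ζ = uv Y x y}⟩
                   c := (1 + T x₀ ^ 2)⁻¹
                   g := hgood
                   o := -σ
                   o_cases := ?_
                   ori := fun x _ v hv => hv.2.2.2.2
                   G := {p | ∃ g, p = (A g, ρ g)}
                   F := F
                   G_inv := ?_
                   G_eta := ?_
                   G_H2 := ?_
                   G_q := ?_
                   G_time := ?_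
                   G_X := ?_
                   G_N := ?_
                   F_sub := hF
                   F_cpt := hFk
                   F_cov := ?_ }
            sig := hσ
            so := rfl
            pg := h
            pg0 := h0
            met := hs
            SX := rfl
            Sn := ha
            T_pos := hT
            T_G := ?_
            T_cont := hTc
            n0E := hE
            S0 := ⟨nrm (Y0 σ T), Nr0, fun x => {ζ | ∃ y ∈ H2, ∃ i, x ∈ C i ∧ y ∈ C i ∧ x ≠ y ∧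
                        ζ = uv (Y0 σ T) x y}⟩
            c0 := (1 + T x₀ ^ 2)⁻¹
            g0 := hgood0
            S0X := rfl
            S0n := fun x _ v hv => hv.2.2.2 }, rfl, rfl, rfl, rfl, rfl, rfl, rfl,
          fun x _ v hv => hv.2.2.2.1⟩
  · rcases hσ with h3 | h3
    · exact Or.inr (by rw [h3])
    · exact Or.inl (by rw [h3, neg_neg])
  · rintro _ ⟨g, rfl⟩
    refine ⟨g⁻¹, ?_⟩
    rw [map_inv, map_inv]
    rfl
  · rintro _ ⟨g, rfl⟩ x y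
    exact hA.iso g x y
  · rintro _ ⟨g, rfl⟩ x hx
    exact hAH g x hx
  · rintro _ ⟨g, rfl⟩ X Z
    exact (hρ g).iso X Z
  · rintro _ ⟨g, rfl⟩ X Z
    exact (hρ g).time X Z
  · rintro _ ⟨g, rfl⟩ x hx
    exact hnY g x hx
  · rintro _ ⟨g, rfl⟩ x hx v hv
    show ρ g v ∈ Nr (A g x)
    obtain ⟨v1, v2, v3, v4, v5⟩ := hv
    obtain ⟨-, e2, -⟩ := nrm_props h.poly hx
    refine ⟨?_, ?_, ?_, ?_, ?_⟩
    · rw [(hρ g).iso]
      exact v1
    · rw [hnY g x hx, (hρ g).iso]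
      exact v2
    · intro y hy
      have h3 := hnY g (A g⁻¹ y) (hAH g⁻¹ y hy)
      rw [hAinv] at h3
      rw [h3, (hρ g).iso]
      exact v3 _ (hAH g⁻¹ y hy)
    · intro y hy
      have h3 := h2e g (A g⁻¹ y) (hAH g⁻¹ y hy)
      rw [hAinv] at h3
      rw [h3, (hρ g).iso]
      exact v4 _ (hAH g⁻¹ y hy)
    · rw [hnY g x hx]
      exact pt6_time (hρ g) hσ (by linarith) (by linarith) (by rw [pt6_comm]; exact v2) v5
  · intro x hx
    obtain ⟨g, hg⟩ := hFc x hx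
    exact ⟨(A g, ρ g), ⟨g, rfl⟩, hg⟩
  · rintro _ ⟨g, rfl⟩ x hx
    exact hTi g x hx

end A_pt_of6

alias pt_of6 := A_pt_of6.pt_of6

namespace A_setup6

theorem setup6_qsmul (X Y : V4) (r : ℝ) : q X (r • Y) = r * q X Y := by
  simp only [q, Pi.smul_apply, smul_eq_mul]; ring

theorem setup6_qsmul' (X Y : V4) (r : ℝ) : q (r • X) Y = r * q X Y := by
  simp only [q, Pi.smul_apply, smul_eq_mul]; ring

theorem setup6_emb {x : V3} {a b : ℝ} (h : emb x a = emb x b) : a = b := by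
  have := congrFun h 3
  simpa [emb] using this

theorem setup6_AH {Γ : Type*} [Group Γ] {A : Γ →* (V3 ≃ₗ[ℝ] V3)} (hA : IsCocompact A) (g : Γ)
    {x : V3} (hx : x ∈ H2) : A g x ∈ H2 := by
  refine ⟨?_, hA.pos g x hx⟩
  rw [hA.iso]; exact hx.1

/-- one boundary component -/
theorem setup6_side {Γ : Type*} [Group Γ] {A : Γ →* (V3 ≃ₗ[ℝ] V3)} (hA : IsCocompact A) {F : Set V3}
    (hFs : F ⊆ H2) (hFk : IsCompact F) (hFc : ∀ x ∈ H2, ∃ g, A g x ∈ F) {ι : Type*}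
    {C : ι → Set V3} (hC : IsSubdivision C) {Y Y₀ : V3 → V4} {n n₀ : ι → V4}
    (h : IsPolyhedral C Y n) (h₀ : IsPolyhedral C Y₀ n₀) (hi : InjRay Y) (hi₀ : InjRay Y₀)
    {K K₀ : Set V4}
    (hadd : ∀ Y ∈ K, ∀ Z ∈ K, Y + Z ∈ K) (hsmul : ∀ Y ∈ K, ∀ t : ℝ, 0 < t → t • Y ∈ K)
    (hneg : ∀ Y ∈ K, q Y Y < 0) (hmem : ∀ x ∈ H2, Y x ∈ K) (hsupp : ∀ i, ∀ Z ∈ K, q (n i) Z ≤ 0)
    (hadd₀ : ∀ Y ∈ K₀, ∀ Z ∈ K₀, Y + Z ∈ K₀) (hsmul₀ : ∀ Y ∈ K₀, ∀ t : ℝ, 0 < t → t • Y ∈ K₀)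
    (hneg₀ : ∀ Y ∈ K₀, q Y Y < 0) (hmem₀ : ∀ x ∈ H2, Y₀ x ∈ K₀)
    (hsupp₀ : ∀ i, ∀ Z ∈ K₀, q (n₀ i) Z ≤ 0)
    {σ : ℝ} (hσ : σ = 1 ∨ σ = -1) (hori : ∀ i, ∀ x ∈ C i, 0 < -σ * omega (Y x) (n i))
    (hori₀ : ∀ i, ∀ x ∈ C i, 0 < -σ * omega (Y₀ x) (n₀ i))
    (hs : SameCellMetric C Y Y₀) {ρ ρ₀ : Γ →* (V4 ≃ₗ[ℝ] V4)} (hρ : ∀ g, IsTimeIso (ρ g))
    (hrho : ∀ g x t, ρ₀ g (emb x t) = emb (A g x) t)
    (hlev : ∀ x ∈ H2, ∃ t : ℝ, 0 < t ∧ Y₀ x = emb x (σ * t))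
    (hY : ∀ g, ∀ x ∈ H2, Y (A g x) = ρ g (Y x)) (hY₀ : ∀ g, ∀ x ∈ H2, Y₀ (A g x) = ρ₀ g (Y₀ x))
    {Y₂ : V3 → V4} (h2 : ∀ x ∈ H2, Y₂ x ∈ K) (h2e : ∀ g, ∀ x ∈ H2, Y₂ (A g x) = ρ g (Y₂ x)) :
    ∃ P : PT ι, P.Y = Y ∧ P.σ = σ ∧ P.S.G = {p | ∃ g, p = (A g, ρ g)} ∧ P.S.F = F ∧
      (∀ x ∈ H2, ∀ v ∈ P.S.s.Nr x, ∀ y ∈ H2, q v (Y₂ y) ≤ 0) ∧
      ∀ x ∈ H2, Y₀ x = emb x (σ * P.T x) := by
  have ho : -σ = 1 ∨ -σ = -1 := by
    rcases hσ with rfl | rfl
    · exact Or.inr rfl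
    · exact Or.inl (neg_neg 1)
  have hpg : PolyGood C Y n := pg_of6 hC h hi hadd hsmul hneg hmem hsupp ho hori
  have hpg₀ : PolyGood C Y₀ n₀ := pg_of6 hC h₀ hi₀ hadd₀ hsmul₀ hneg₀ hmem₀ hsupp₀ ho hori₀
  obtain ⟨T, hT, hTp⟩ := twin6 hC h₀ hσ hlev
  have hpgT : PolyGood C (Y0 σ T) n₀ := pg_congr6 hpg₀ hT
  have hH : H2 ⊆ Cone := (cell_ex6 hC).2.2.1
  have hs' : SameCellMetric C Y (Y0 σ T) := by
    intro i x hx y hy
    rw [hs i x hx y hy, hT x (hC.sub i hx), hT y (hC.sub i hy)]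
  have hσ0 : σ ≠ 0 := by rcases hσ with rfl | rfl <;> norm_num
  have hYT : ∀ x ∈ H2, Y₀ x = emb x (σ * T x) := fun x hx => (hT x (hH hx)).symm
  have hTi : ∀ g, ∀ x ∈ H2, T (A g x) = T x := by
    intro g x hx
    have h1 := hY₀ g x hx
    rw [hYT _ (setup6_AH hA g hx), hYT x hx, hrho] at h1
    exact mul_left_cancel₀ hσ0 (setup6_emb h1)
  have hE := nE6 hpgT hσ (by
    intro i x hx
    rw [hT x (hC.sub i hx)]
    exact hori₀ i x hx)
  obtain ⟨P, -, hP2, -, hP4, hP5, hP6, hP7, hP8⟩ := pt_of6 hA hFs hFk hFc hpg hpgT hσ hs' hTp hTi hE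
    hρ hY hori (Y₂ := Y₂) (fun i y hy => hsupp i _ (h2 y hy)) h2e
  refine ⟨P, hP2, hP5, hP6, hP7, hP8, fun x hx => ?_⟩
  rw [hP4]
  exact hYT x hx

theorem setup6_nrm {ι : Type*} {C : ι → Set V3} {Y : V3 → V4} {n : ι → V4}
    (h : IsPolyhedral C Y n) {x : V3} (hx : x ∈ H2) {v : V4} (hv : q v (Y x) ≤ 0) :
    q v (nrm Y x) ≤ 0 := by
  obtain ⟨⟨r, hr, h1, -, -⟩, -, -⟩ := nrm_props h hx
  rw [h1, setup6_qsmul]
  exact mul_nonpos_of_nonneg_of_nonpos hr.le hv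

/- Proof:
hA.cocompact gives F. PolyGood for S.Ym (pg_of6 with K = S.K, o = 1), S.Yp (o = -1), S₀.Ym, S₀.Yp (same with S₀.K). Past boundary: sigma = -1: hF.down: S₀.Ym x = emb x (-1 * t); twin6: Tm with Y0 (-1) Tm = S₀.Ym on Cone, pg_congr6: PolyGood Cm (Y0 (-1) Tm) S₀.nm. SameCellMetric Cm S.Ym (Y0 (-1) Tm) from hm (cells in Cone). Tm invariant: S₀.Ym (A g x) = S₀.ρ g (S₀.Ym x) = S₀.ρ g (emb x (-Tm x)) = emb (A g x) (-Tm x) (hF.rho), and = emb (A g x)(-Tm (A g x)). nE6: orientation: -sigma = 1, S₀.bd.future_m (Y0 (-1) Tm = S₀.Ym on the cells). pt_of6 with Y₂ = S.Yp (h2: S.bd.supp_m, S.bd.mem_p). Future boundary: sigma = 1, hF.up, S.bd.past_p, Y₂ = S.Ym. This gives Pm : PT κ and Pp : PT ι. TT: m = Pm, p = Pp; hm, hp; hG, hF: both equal the same sets; cm: q v (Pp.S.s.X x) with Pp.S.s.X = nrm Pp.Y = nrm S.Yp, a positive multiple of S.Yp x; cp likewise; lt1: K_lt6 for S.Ym y, S.Yp x in S.K,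 normalised.
-/
theorem setup6 {Γ : Type*} [Group Γ] {A : Γ →* (V3 ≃ₗ[ℝ] V3)} (hA : IsCocompact A) {κ ι : Type*} {Cm : κ → Set V3}
    {Cp : ι → Set V3} (hCm : IsSubdivision Cm) (hCp : IsSubdivision Cp) (S₀ S : PolySlab A Cm Cp) (hF : PolyFuchsian S₀)
    (hm : SameCellMetric Cm S.Ym S₀.Ym) (hp : SameCellMetric Cp S.Yp S₀.Yp) :
    ∃ t : TT κ ι, t.m.Y = S.Ym ∧ t.p.Y = S.Yp ∧ (∀ x ∈ H2, S₀.Ym x = emb x (-(t.m.T x))) ∧
      (∀ x ∈ H2, S₀.Yp x = emb x (t.p.T x)) ∧ ∀ g : Γ, (A g, S.ρ g) ∈ t.p.S.G := by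
  obtain ⟨F, hFs, hFk, hFc⟩ := hA.cocompact
  obtain ⟨Pm, m1, m2, m3, m4, m5, m6⟩ := setup6_side hA hFs hFk hFc hCm S.surf_m S₀.surf_m
    S.inj_m S₀.inj_m S.bd.add S.bd.smul S.bd.neg S.bd.mem_m S.bd.supp_m S₀.bd.add S₀.bd.smul
    S₀.bd.neg S₀.bd.mem_m S₀.bd.supp_m (σ := -1) (Or.inr rfl)
    (fun i x hx => by have := S.bd.future_m i x hx; linarith)
    (fun i x hx => by have := S₀.bd.future_m i x hx; linarith) hm S.iso hF.rho
    (fun x hx => by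
      obtain ⟨t, ht, he⟩ := hF.down x hx
      exact ⟨t, ht, by rw [he, neg_one_mul]⟩) S.eq_m S₀.eq_m S.bd.mem_p S.eq_p
  obtain ⟨Pp, p1, p2, p3, p4, p5, p6⟩ := setup6_side hA hFs hFk hFc hCp S.surf_p S₀.surf_p
    S.inj_p S₀.inj_p S.bd.add S.bd.smul S.bd.neg S.bd.mem_p S.bd.supp_p S₀.bd.add S₀.bd.smul
    S₀.bd.neg S₀.bd.mem_p S₀.bd.supp_p (σ := 1) (Or.inl rfl)
    (fun i x hx => by have := S.bd.past_p i x hx; linarith)
    (fun i x hx => by have := S₀.bd.past_p i x hx; linarith) hp S.iso hF.rho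
    (fun x hx => by
      obtain ⟨t, ht, he⟩ := hF.up x hx
      exact ⟨t, ht, by rw [he, one_mul]⟩) S.eq_p S₀.eq_p S.bd.mem_m S.eq_m
  have hmX : Pm.S.s.X = nrm S.Ym := by rw [Pm.SX, m1]
  have hpX : Pp.S.s.X = nrm S.Yp := by rw [Pp.SX, p1]
  refine ⟨⟨Pm, Pp, m2, p2, by rw [m3, p3], by rw [m4, p4], ?_, ?_, ?_⟩, m1, p1, ?_, ?_, ?_⟩
  · intro y hy v hv x hx
    rw [hpX]
    exact setup6_nrm S.surf_p hx (m5 y hy v hv x hx)
  · intro x hx v hv y hy
    rw [hmX]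
    exact setup6_nrm S.surf_m hy (p5 x hx v hv y hy)
  · intro y hy x hx
    rw [hmX, hpX]
    obtain ⟨⟨r, hr, h1, -, h1'⟩, -, -⟩ := nrm_props S.surf_m hy
    obtain ⟨⟨r', hr', h2, -, h2'⟩, -, -⟩ := nrm_props S.surf_p hx
    rw [h1, h2, setup6_qsmul, setup6_qsmul']
    have hlt := K_lt6 S.bd.add S.bd.smul S.bd.neg (S.bd.mem_m y hy) (S.bd.mem_p x hx)
    have e1 : Real.sqrt (-(q (S.Ym y) (S.Ym y))) = r⁻¹ := by rw [h1', inv_inv]
    have e2 : Real.sqrt (-(q (S.Yp x) (S.Yp x))) = r'⁻¹ := by rw [h2', inv_inv]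
    rw [e1, e2] at hlt
    have hpos : 0 < r' * r := mul_pos hr' hr
    calc r' * (r * q (S.Ym y) (S.Yp x)) = (r' * r) * q (S.Ym y) (S.Yp x) := by ring
      _ < (r' * r) * (r⁻¹ * r'⁻¹) := mul_lt_mul_of_pos_left hlt hpos
      _ = 1 := by field_simp
  · intro x hx
    rw [m6 x hx, neg_one_mul]
  · intro x hx
    rw [p6 x hx, one_mul]
  · intro g
    show (A g, S.ρ g) ∈ Pp.S.G
    rw [p3]
    exact ⟨g, rfl⟩

end A_setup6

alias setup6 := A_setup6.setup6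

namespace A_poly_unique

theorem pu_q_sym (X Y : V4) : q X Y = q Y X := by
  unfold q
  ring

theorem pu_q_lin (a b E : V4) (s r : ℝ) :
    q (a + s • E) (b + r • E) = q a b + r * q a E + s * q b E + s * r * q E E := by
  simp only [q, Pi.add_apply, Pi.smul_apply, smul_eq_mul]
  ring

/-- the first three coordinates -/
def puP : V4 →ₗ[ℝ] V3 where
  toFun Y := ![Y 0, Y 1, Y 2]
  map_add' Y Z := by
    ext i
    fin_cases i <;> rfl
  map_smul' c Y := by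
    ext i
    fin_cases i <;> rfl

theorem pu_emb (Y : V4) : emb (puP Y) (Y 3) = Y := by
  ext i
  fin_cases i <;> rfl

theorem pu_P_emb (x : V3) (r : ℝ) : puP (emb x r) = x := by
  ext i
  fin_cases i <;> rfl

theorem pu_q_emb (Y Z : V4) : eta (puP Y) (puP Z) - Y 3 * Z 3 = q Y Z := by
  simp only [eta, q, puP, LinearMap.coe_mk, AddHom.coe_mk]
  simp

/- Proof:
setup6 gives t, final6 gives L, E. Phi0 : V4 -> V4 linear, Phi0 Y = L ![Y 0, Y 1, Y 2] + Y 3 • E. q (Phi0 Y)(Phi0 Z) = eta + (Y 3)(Z 3) q E E = q Y Z. Phi0 is injective (q nondegenerate: if Phi0 Y = 0 then q Y Z = q (Phi0 Y)(Phi0 Z) = 0 for all Z), hence a linear equivalence Phi (LinearEquiv.ofInjectiveEndo or LinearMap.linearEquivOfInjective). Phi (emb x r) = L x + r E. For x in H2: S.Ym x = t.m.Y x = L x - t.m.T x E = Phi (emb x (-t.m.T x)) = Phi (S₀.Ym x), same for p. rho: for Y = emb x r (every Y in V4 is of this form): Phi (S₀.ρ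 g Y) = Phi (emb (A g x) r) (hF.rho) = L (A g x) + r E = S.ρ g (L x) + r S.ρ g E = S.ρ g (Phi Y) with final6 for (A g, S.ρ g) in G.
-/
theorem poly_unique {Γ : Type*} [Group Γ] {A : Γ →* (V3 ≃ₗ[ℝ] V3)} (hA : IsCocompact A) {κ ι : Type*} {Cm : κ → Set V3}
    {Cp : ι → Set V3} (hCm : IsSubdivision Cm) (hCp : IsSubdivision Cp) (S₀ S : PolySlab A Cm Cp) (hF : PolyFuchsian S₀)
    (hm : SameCellMetric Cm S.Ym S₀.Ym) (hp : SameCellMetric Cp S.Yp S₀.Yp) :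
    ∃ Φ : V4 ≃ₗ[ℝ] V4, PCongruent S₀ S Φ := by
  obtain ⟨t, h1, h2, h3, h4, h5⟩ := setup6 hA hCm hCp S₀ S hF hm hp
  obtain ⟨L, E, e1, e2, e3, e4, e5, e6⟩ := final6 t
  let Φ0 : V4 →ₗ[ℝ] V4 := L.comp puP + (LinearMap.proj (3 : Fin 4)).smulRight E
  have hΦ : ∀ Y, Φ0 Y = L (puP Y) + Y 3 • E := fun Y => rfl
  have hq : ∀ Y Z, q (Φ0 Y) (Φ0 Z) = q Y Z := by
    intro Y Z
    rw [hΦ, hΦ, pu_q_lin, e1, e2, e2, e3, ← pu_q_emb]
    ring
  have hinj : Function.Injective Φ0 := by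
    rw [injective_iff_map_eq_zero]
    intro Y hY
    have h0 : ∀ Z, q Y Z = 0 := by
      intro Z
      rw [← hq, hY]
      simp [q]
    have a0 := h0 ![1, 0, 0, 0]
    have a1 := h0 ![0, 1, 0, 0]
    have a2 := h0 ![0, 0, 1, 0]
    have a3 := h0 ![0, 0, 0, 1]
    simp [q] at a0 a1 a2 a3
    ext i
    fin_cases i
    · exact a0
    · exact a1
    · exact a2
    · exact a3
  let Φ : V4 ≃ₗ[ℝ] V4 := LinearEquiv.ofInjectiveEndo Φ0 hinj
  have hΦ' : ∀ Y, Φ Y = L (puP Y) + Y 3 • E := fun Y => rfl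
  have hemb : ∀ x r, Φ (emb x r) = L x + r • E := by
    intro x r
    rw [hΦ', pu_P_emb]
    rfl
  refine ⟨Φ, ⟨fun X Y => hq X Y, ?_, ?_, ?_⟩⟩
  · intro x hx
    rw [h3 x hx, hemb, ← h1, e4 x hx, neg_smul, sub_eq_add_neg]
  · intro x hx
    rw [h4 x hx, hemb, ← h2, e5 x hx]
  · intro g Y
    obtain ⟨f1, f2⟩ := e6 (A g, S.ρ g) (h5 g)
    simp only at f1 f2
    have hY : S₀.ρ g Y = emb (A g (puP Y)) (Y 3) := by
      conv_lhs => rw [← pu_emb Y]
      exact hF.rho g _ _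
    rw [hY, hemb, hΦ', map_add, map_smul, f1, f2]

end A_poly_unique

alias poly_unique := A_poly_unique.poly_unique

end Helper935.Poly
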