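import Pool.Agent.Helper935_AdS.PHalfB
import Pool.Agent.Helper935_AdS.PSetup
import Pool.Agent.Helper935_AdS.Defs6a

namespace Helper935.Poly

namespace A_planeP

/- Proof:
f(x) = q (X x) E is continuous on H2 and invariant under A (q (rho g Y)(rho g E) = q Y E and rho g E = E), so it attains its maximum and minimum over H2 on the compact F of IsCocompact. At a maximum point x: bent gives v, Z, ep with f(geo x v s) = cosh s f(x) + sinh s q Z E <= f(x) for |s| < ep. Adding the inequalities for s and -s: (cosh s) f(x) <= f(x) for small s ≠ 0, so f(x) <= 0. Similarly f >= 0 at a minimum point. So f = 0 on H2.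
-/
theorem planeP {Γ : Type*} [Group Γ] {A : Γ →* (V3 ≃ₗ[ℝ] V3)} (hA : IsCocompact A)
    {ρ : Γ →* (V4 ≃ₗ[ℝ] V4)} (hρ : ∀ g, IsTimeIso (ρ g)) {X : V3 → V4} (h : IsPleated X)
    (he : ∀ g, ∀ x ∈ H2, X (A g x) = ρ g (X x)) {E : V4} (hE : ∀ g, ρ g E = E) {x : V3} (hx : x ∈ H2) :
    q (X x) E = 0 := by
  obtain ⟨F, hF, hFc, hFcov⟩ := hA.cocompact
  have hinv : ∀ g, ∀ y ∈ H2, q (X (A g y)) E = q (X y) E := by
    intro g y hy
    rw [he g y hy]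
    conv_lhs => rw [← hE g]
    exact (hρ g).iso _ _
  have hcont : ContinuousOn (fun y => q (X y) E) F := by
    have h1 : ContinuousOn X F := h.cont.mono hF
    have h2 : ∀ i : Fin 4, ContinuousOn (fun y => X y i) F := fun i =>
      (continuous_apply i).comp_continuousOn h1
    unfold q
    exact ((((h2 0).mul continuousOn_const).neg.add ((h2 1).mul continuousOn_const)).add
      ((h2 2).mul continuousOn_const)).sub ((h2 3).mul continuousOn_const)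
  have hne : F.Nonempty := by
    obtain ⟨g, hg⟩ := hFcov x hx
    exact ⟨_, hg⟩
  have hqlin : ∀ (a b : ℝ) (Y Z : V4), q (a • Y + b • Z) E = a * q Y E + b * q Z E := by
    intro a b Y Z
    simp only [q, Pi.add_apply, Pi.smul_apply, smul_eq_mul]
    ring
  -- the key inequality
  have key : ∀ (σ : ℝ) (y : V3), y ∈ H2 → (∀ z ∈ H2, σ * q (X z) E ≤ σ * q (X y) E) →
      σ * q (X y) E ≤ 0 := by
    intro σ y hy hmax
    obtain ⟨v, Z, hv, ε, hε, hb⟩ := h.bent y hy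
    have hs1 : |ε / 2| < ε := by rw [abs_of_pos (by linarith)]; linarith
    have hs2 : |-(ε / 2)| < ε := by rw [abs_neg]; exact hs1
    have h1 := hmax _ (geo_mem hy hv (ε / 2))
    have h2 := hmax _ (geo_mem hy hv (-(ε / 2)))
    rw [hb _ hs1, hqlin] at h1
    rw [hb _ hs2, hqlin, Real.cosh_neg, Real.sinh_neg] at h2
    have hc : 1 < Real.cosh (ε / 2) := Real.one_lt_cosh.mpr (by linarith)
    have h3 : (Real.cosh (ε / 2) - 1) * (σ * q (X y) E) ≤ 0 := by nlinarith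
    by_contra hpos
    push Not at hpos
    nlinarith
  have upper : q (X x) E ≤ 0 := by
    obtain ⟨y, hy, hymax⟩ := hFc.exists_isMaxOn hne hcont
    have hall : ∀ z ∈ H2, q (X z) E ≤ q (X y) E := by
      intro z hz
      obtain ⟨g, hg⟩ := hFcov z hz
      rw [← hinv g z hz]
      exact hymax hg
    have h1 := key 1 y (hF hy) (fun z hz => by rw [one_mul, one_mul]; exact hall z hz)
    rw [one_mul] at h1
    exact (hall x hx).trans h1
  have lower : 0 ≤ q (X x) E := by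
    obtain ⟨y, hy, hymin⟩ := hFc.exists_isMinOn hne hcont
    have hall : ∀ z ∈ H2, q (X y) E ≤ q (X z) E := by
      intro z hz
      obtain ⟨g, hg⟩ := hFcov z hz
      rw [← hinv g z hz]
      exact hymin hg
    have h1 := key (-1) y (hF hy) (fun z hz => by linarith [hall z hz])
    linarith [hall x hx]
  linarith

end A_planeP

alias planeP := A_planeP.planeP

namespace A_setupP

theorem setupP_qsmul (X Y : V4) (r : ℝ) : q X (r • Y) = r * q X Y := by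
  simp only [q, Pi.smul_apply, smul_eq_mul]; ring

theorem setupP_qsmul' (X Y : V4) (r : ℝ) : q (r • X) Y = r * q X Y := by
  simp only [q, Pi.smul_apply, smul_eq_mul]; ring

theorem setupP_emb {x : V3} {a b : ℝ} (h : emb x a = emb x b) : a = b := by
  have := congrFun h 3
  simpa [emb] using this

theorem setupP_AH {Γ : Type*} [Group Γ] {A : Γ →* (V3 ≃ₗ[ℝ] V3)} (hA : IsCocompact A) (g : Γ)
    {x : V3} (hx : x ∈ H2) : A g x ∈ H2 := by
  refine ⟨?_, hA.pos g x hx⟩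
  rw [hA.iso]; exact hx.1

theorem setupP_side {Γ : Type*} [Group Γ] {A : Γ →* (V3 ≃ₗ[ℝ] V3)} (hA : IsCocompact A) {F : Set V3}
    (hFs : F ⊆ H2) (hFk : IsCompact F) (hFc : ∀ x ∈ H2, ∃ g, A g x ∈ F) {ι : Type*}
    {C : ι → Set V3} (hC : IsSubdivision C) {Y Y₀ : V3 → V4} {n n₀ : ι → V4}
    (h : IsPolyhedral C Y n) (h₀ : IsPolyhedral C Y₀ n₀) (hi : InjRay Y) (hi₀ : InjRay Y₀)
    {K K₀ : Set V4}
    (hadd : ∀ Y ∈ K, ∀ Z ∈ K, Y + Z ∈ K) (hsmul : ∀ Y ∈ K, ∀ t : ℝ, 0 < t → t • Y ∈ K)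
    (hneg : ∀ Y ∈ K, q Y Y < 0) (hmem : ∀ x ∈ H2, Y x ∈ K) (hsupp : ∀ i, ∀ Z ∈ K, q (n i) Z ≤ 0)
    (hadd₀ : ∀ Y ∈ K₀, ∀ Z ∈ K₀, Y + Z ∈ K₀) (hsmul₀ : ∀ Y ∈ K₀, ∀ t : ℝ, 0 < t → t • Y ∈ K₀)
    (hneg₀ : ∀ Y ∈ K₀, q Y Y < 0) (hmem₀ : ∀ x ∈ H2, Y₀ x ∈ K₀)
    (hsupp₀ : ∀ i, ∀ Z ∈ K₀, q (n₀ i) Z ≤ 0)
    {σ : ℝ} (hσ : σ = 1 ∨ σ = -1) (hori : ∀ i, ∀ x ∈ C i, 0 < -σ * omega (Y x) (n i))
    (hori₀ : ∀ i, ∀ x ∈ C i, 0 < -σ * omega (Y₀ x) (n₀ i))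
    (hs : SameCellMetric C Y Y₀) {ρ ρ₀ : Γ →* (V4 ≃ₗ[ℝ] V4)} (hρ : ∀ g, IsTimeIso (ρ g))
    (hrho : ∀ g x t, ρ₀ g (emb x t) = emb (A g x) t)
    (hlev : ∀ x ∈ H2, ∃ t : ℝ, 0 < t ∧ Y₀ x = emb x (σ * t))
    (hY : ∀ g, ∀ x ∈ H2, Y (A g x) = ρ g (Y x)) (hY₀ : ∀ g, ∀ x ∈ H2, Y₀ (A g x) = ρ₀ g (Y₀ x))
    {Y₂ : V3 → V4} (h2 : ∀ x ∈ H2, Y₂ x ∈ K) (h2e : ∀ g, ∀ x ∈ H2, Y₂ (A g x) = ρ g (Y₂ x)) :
    ∃ P : PT ι, P.Y = Y ∧ P.σ = σ ∧ P.S.G = {p | ∃ g, p = (A g, ρ g)} ∧ P.S.F = F ∧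
      (∀ x ∈ H2, ∀ v ∈ P.S.s.Nr x, ∀ y ∈ H2, q v (Y₂ y) ≤ 0) ∧
      ∀ x ∈ H2, Y₀ x = emb x (σ * P.T x) := by
  have ho : -σ = 1 ∨ -σ = -1 := by
    rcases hσ with rfl | rfl
    · exact Or.inr rfl
    · exact Or.inl (neg_neg 1)
  have hpg : PolyGood C Y n := pg_of6 hC h hi hadd hsmul hneg hmem hsupp ho hori
  have hpg₀ : PolyGood C Y₀ n₀ := pg_of6 hC h₀ hi₀ hadd₀ hsmul₀ hneg₀ hmem₀ hsupp₀ ho hori₀
  obtain ⟨T, hT, hTp⟩ := twin6 hC h₀ hσ hlev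
  have hpgT : PolyGood C (Y0 σ T) n₀ := pg_congr6 hpg₀ hT
  have hH : H2 ⊆ Cone := (cell_ex6 hC).2.2.1
  have hs' : SameCellMetric C Y (Y0 σ T) := by
    intro i x hx y hy
    rw [hs i x hx y hy, hT x (hC.sub i hx), hT y (hC.sub i hy)]
  have hσ0 : σ ≠ 0 := by rcases hσ with rfl | rfl <;> norm_num
  have hYT : ∀ x ∈ H2, Y₀ x = emb x (σ * T x) := fun x hx => (hT x (hH hx)).symm
  have hTi : ∀ g, ∀ x ∈ H2, T (A g x) = T x := by
    intro g x hx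
    have h1 := hY₀ g x hx
    rw [hYT _ (setupP_AH hA g hx), hYT x hx, hrho] at h1
    exact mul_left_cancel₀ hσ0 (setupP_emb h1)
  have hE := nE6 hpgT hσ (by
    intro i x hx
    rw [hT x (hC.sub i hx)]
    exact hori₀ i x hx)
  obtain ⟨P, -, hP2, -, hP4, hP5, hP6, hP7, hP8⟩ := pt_of6 hA hFs hFk hFc hpg hpgT hσ hs' hTp hTi hE
    hρ hY hori (Y₂ := Y₂) (fun i y hy => hsupp i _ (h2 y hy)) h2e
  refine ⟨P, hP2, hP5, hP6, hP7, hP8, fun x hx => ?_⟩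
  rw [hP4]
  exact hYT x hx

theorem setupP_nrm {ι : Type*} {C : ι → Set V3} {Y : V3 → V4} {n : ι → V4}
    (h : IsPolyhedral C Y n) {x : V3} (hx : x ∈ H2) {v : V4} (hv : q v (Y x) ≤ 0) :
    q v (nrm Y x) ≤ 0 := by
  obtain ⟨⟨r, hr, h1, -, -⟩, -, -⟩ := nrm_props h hx
  rw [h1, setupP_qsmul]
  exact mul_nonpos_of_nonneg_of_nonpos hr.le hv


/- Proof:
Like setup6 (hint), only for the future boundary. hA.cocompact gives F. PolyGood for S.Yp and S₀.Yp (pg_of6 with K = S.K resp. S₀.K, o = -1). sigma = 1: hF.up, twin6: T with Y0 1 T = S₀.Yp on Cone, pg_congr6: PolyGood Cp (Y0 1 T) S₀.np. T invariant by hF.rho. nE6: S₀.bd.past_p. pt_of6 with Y₂ = S.Xl (h2: S.bd.supp_p, S.bd.mem_l; h2e: S.eq_l). Last claim: K_lt6 for S.Yp x and S.Xl y in S.K: q (nrm S.Yp x)(S.Xl y) < 1 since q (S.Xl y)(S.Xl y) = -1 (S.pleated.norm).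
-/
theorem setupP {Γ : Type*} [Group Γ] {A : Γ →* (V3 ≃ₗ[ℝ] V3)} (hA : IsCocompact A) {ι : Type*}
    {Cp : ι → Set V3} (hCp : IsSubdivision Cp) (S₀ S : HalfPolySlab A Cp) (hF : HalfPolyFuchsian S₀)
    (hp : SameCellMetric Cp S.Yp S₀.Yp) :
    ∃ P : PT ι, P.Y = S.Yp ∧ P.σ = 1 ∧ (∀ x ∈ H2, S₀.Yp x = emb x (P.T x)) ∧ P.S.G = {p | ∃ g, p = (A g, S.ρ g)} ∧
      ∀ x ∈ H2, ∀ y ∈ H2, q (P.S.s.X x) (S.Xl y) < 1 := by
  obtain ⟨F, hFs, hFk, hFc⟩ := hA.cocompact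
  have hlK : ∀ x ∈ H2, S.Xl x ∈ S.K := S.bd.mem_l
  obtain ⟨Pp, p1, p2, p3, p4, p5, p6⟩ := setupP_side hA hFs hFk hFc hCp S.surf_p S₀.surf_p
    S.inj_p S₀.inj_p S.bd.add S.bd.smul S.bd.neg S.bd.mem_p S.bd.supp_p S₀.bd.add S₀.bd.smul
    S₀.bd.neg S₀.bd.mem_p S₀.bd.supp_p (σ := 1) (Or.inl rfl)
    (fun i x hx => by have := S.bd.past_p i x hx; linarith)
    (fun i x hx => by have := S₀.bd.past_p i x hx; linarith) hp S.iso hF.rho
    (fun x hx => by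
      obtain ⟨t, ht, he⟩ := hF.up x hx
      exact ⟨t, ht, by rw [he, one_mul]⟩) S.eq_p S₀.eq_p hlK S.eq_l
  have hpX : Pp.S.s.X = nrm S.Yp := by rw [Pp.SX, p1]
  refine ⟨Pp, p1, p2, ?_, p3, ?_⟩
  · intro x hx
    rw [p6 x hx, one_mul]
  · intro x hx y hy
    rw [hpX]
    obtain ⟨⟨r, hr, h1, -, h1'⟩, -, -⟩ := nrm_props S.surf_p hx
    rw [h1, setupP_qsmul']
    have hlt := K_lt6 S.bd.add S.bd.smul S.bd.neg (S.bd.mem_p x hx) (hlK y hy)
    have e1 : Real.sqrt (-(q (S.Yp x) (S.Yp x))) = r⁻¹ := by rw [h1', inv_inv]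
    rw [e1, S.pleated.norm y hy, neg_neg, Real.sqrt_one, mul_one] at hlt
    calc r * q (S.Yp x) (S.Xl y) < r * r⁻¹ := mul_lt_mul_of_pos_left hlt hr
      _ = 1 := mul_inv_cancel₀ hr.ne'

end A_setupP

alias setupP := A_setupP.setupP

namespace A_half_poly_unique

theorem hu_q_sym (X Y : V4) : q X Y = q Y X := by
  unfold q
  ring

theorem hu_q_lin (a b E : V4) (s r : ℝ) :
    q (a + s • E) (b + r • E) = q a b + r * q a E + s * q b E + s * r * q E E := by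
  simp only [q, Pi.add_apply, Pi.smul_apply, smul_eq_mul]
  ring

theorem hu_q_smul (r : ℝ) (X Y : V4) : q (r • X) Y = r * q X Y := by
  simp only [q, Pi.smul_apply, smul_eq_mul]
  ring

/-- the first three coordinates -/
def huP : V4 →ₗ[ℝ] V3 where
  toFun Y := ![Y 0, Y 1, Y 2]
  map_add' Y Z := by
    ext i
    fin_cases i <;> rfl
  map_smul' c Y := by
    ext i
    fin_cases i <;> rfl

theorem hu_emb (Y : V4) : emb (huP Y) (Y 3) = Y := by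
  ext i
  fin_cases i <;> rfl

theorem hu_P_emb (x : V3) (r : ℝ) : huP (emb x r) = x := by
  ext i
  fin_cases i <;> rfl

theorem hu_q_emb (Y Z : V4) : eta (huP Y) (huP Z) - Y 3 * Z 3 = q Y Z := by
  simp only [eta, q, huP, LinearMap.coe_mk, AddHom.coe_mk]
  simp

/- Proof:
setupP: P. The second alternative of dichP is impossible by leaf_falseP with Xl = S.Xl: leaf data from S.pleated.leaf (x0, v, Z), N from S.bd.supp_l x0 (q N (Xl x0) = 0, q N Y <= 0 on K, mem_l; for q (P.S.s.X y) N <= 0: P.S.s.X = nrm P.Y = nrm S.Yp (P.SX) is a positive multiple of S.Yp y in K; 0 < omega (Xl x0) N); hG from eq_l and P.S.G = {..}. So N in Dual P.S, xi, Opp, x with -q (X x) N = sn x; touchP: q (X x) N = -sn x on H2; finalP gives L (E = N). Build Phi: V4 ≃ V4 with Phi (emb x t) = L x + t N (as in the proof of poly_unique, hint): Phi is an isometry, Phi EE = N. p: S₀.Yp x = emb x (P.T x) so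 Phi (S₀.Yp x) = L x + P.T x N = S.Yp x. rho: on emb y s: S₀.rho g (emb y s) = emb (A g y) s, S.rho g (L y + s N) = L (A g y) + s N (finalP with (A g, S.rho g) in P.S.G). l: planeP with E = N.
-/
theorem half_poly_unique {Γ : Type*} [Group Γ] {A : Γ →* (V3 ≃ₗ[ℝ] V3)} (hA : IsCocompact A) {ι : Type*}
    {Cp : ι → Set V3} (hCp : IsSubdivision Cp) (S₀ S : HalfPolySlab A Cp) (hF : HalfPolyFuchsian S₀)
    (hp : SameCellMetric Cp S.Yp S₀.Yp) : ∃ Φ : V4 ≃ₗ[ℝ] V4, HCongruent S₀ S Φ := by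
  obtain ⟨P, h1, h2, h3, h4, h5⟩ := setupP hA hCp S₀ S hF hp
  have hmain : ∃ N ∈ Dual P.S, ∃ ξ ∈ Lam P.S, q ξ N = 0 ∧ Opp P.S N ξ ∧
      ∃ x ∈ H2, -q (P.S.s.X x) N = sn P.T x := by
    rcases dichP P with h | ⟨ε, hε, hgap⟩
    · exact h
    · exfalso
      obtain ⟨x0, hx0, v, Z, hv, hleaf⟩ := S.pleated.leaf
      obtain ⟨N, hNN, hN0, hNK, hor⟩ := S.bd.supp_l x0 hx0
      refine leaf_falseP P h2 S.pleated.cont S.pleated.norm ?_ h5 hx0 hv hleaf hNN ?_ ?_ ?_ hor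
        hε hgap
      · intro g hg x hx
        rw [h4] at hg
        obtain ⟨g', rfl⟩ := hg
        exact S.eq_l g' x hx
      · rw [hu_q_sym]; exact hN0
      · intro y hy
        rw [hu_q_sym]
        exact hNK _ (S.bd.mem_l y hy)
      · intro y hy
        rw [P.SX, h1]
        obtain ⟨⟨r, hr, hr', _, _⟩, _, _⟩ := nrm_props S.surf_p hy
        rw [hr', hu_q_smul, hu_q_sym]
        exact mul_nonpos_of_nonneg_of_nonpos hr.le (hNK _ (S.bd.mem_p y hy))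
  obtain ⟨N, hN, ξ, hξ, h0, hO, x1, hx1, heq⟩ := hmain
  have hNN : q N N = -1 := hN.1
  have hNx : ∀ x ∈ H2, q (P.S.s.X x) N = -sn P.T x :=
    fun x hx => touchP P hN hξ h0 hO hx1 heq hx
  obtain ⟨L, e1, e2, e5, e6⟩ := finalP P hNN hξ h0 hO hNx
  let Φ0 : V4 →ₗ[ℝ] V4 := L.comp huP + (LinearMap.proj (3 : Fin 4)).smulRight N
  have hΦ : ∀ Y, Φ0 Y = L (huP Y) + Y 3 • N := fun Y => rfl
  have hq : ∀ Y Z, q (Φ0 Y) (Φ0 Z) = q Y Z := by
    intro Y Z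
    rw [hΦ, hΦ, hu_q_lin, e1, e2, e2, hNN, ← hu_q_emb]
    ring
  have hinj : Function.Injective Φ0 := by
    rw [injective_iff_map_eq_zero]
    intro Y hY
    have h0 : ∀ Z, q Y Z = 0 := by
      intro Z
      rw [← hq, hY]
      simp [q]
    have a0 := h0 ![1, 0, 0, 0]
    have a1 := h0 ![0, 1, 0, 0]
    have a2 := h0 ![0, 0, 1, 0]
    have a3 := h0 ![0, 0, 0, 1]
    simp [q] at a0 a1 a2 a3
    ext i
    fin_cases i
    · exact a0
    · exact a1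
    · exact a2
    · exact a3
  let Φ : V4 ≃ₗ[ℝ] V4 := LinearEquiv.ofInjectiveEndo Φ0 hinj
  have hΦ' : ∀ Y, Φ Y = L (huP Y) + Y 3 • N := fun Y => rfl
  have hemb : ∀ x r, Φ (emb x r) = L x + r • N := by
    intro x r
    rw [hΦ', hu_P_emb]
    rfl
  have hg6 : ∀ g, S.ρ g N = N ∧ ∀ x, S.ρ g (L x) = L (A g x) := by
    intro g
    have hmem : (A g, S.ρ g) ∈ P.S.G := by
      rw [h4]
      exact ⟨g, rfl⟩
    exact e6 _ hmem
  have hEE : Φ EE = N := by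
    have h7 : EE = emb 0 1 := by
      ext i
      fin_cases i <;> rfl
    rw [h7, hemb, map_zero, zero_add, one_smul]
  refine ⟨Φ, ⟨fun X Y => hq X Y, ?_, ?_, ?_⟩⟩
  · intro x hx
    rw [hEE]
    exact planeP hA S.iso S.pleated S.eq_l (fun g => (hg6 g).1) hx
  · intro x hx
    rw [h3 x hx, hemb, ← h1, e5 x hx]
  · intro g Y
    obtain ⟨f1, f2⟩ := hg6 g
    have hY : S₀.ρ g Y = emb (A g (huP Y)) (Y 3) := by
      conv_lhs => rw [← hu_emb Y]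
      exact hF.rho g _ _
    rw [hY, hemb, hΦ', map_add, map_smul, f1, f2]

end A_half_poly_unique

alias half_poly_unique := A_half_poly_unique.half_poly_unique

end Helper935.Poly
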