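import Pool.Agent.Helper935_AdS.PSurf

namespace Helper935.Poly

namespace A_Lam_strict6

theorem Lam_strict6 (S : CS) {ξ : V4} (hξ : ξ ∈ Lam S) {x : V3} (hx : x ∈ H2) : q (S.s.X x) ξ < 0 :=
  strictX6 S.g hξ.1 hξ.2.1 hξ.2.2 hx

end A_Lam_strict6

alias Lam_strict6 := A_Lam_strict6.Lam_strict6

namespace A_Lam_smul6

/- Proof:
direct
-/
theorem Lam_smul6 (S : CS) {ξ : V4} (hξ : ξ ∈ Lam S) {t : ℝ} (ht : 0 < t) : t • ξ ∈ Lam S := by
  obtain ⟨h1, h2, h3⟩ := hξ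
  have hq : ∀ X Y : V4, q X (t • Y) = t * q X Y := by
    intro X Y
    unfold q
    simp only [Pi.smul_apply, smul_eq_mul]
    ring
  have hq2 : ∀ X Y : V4, q (t • X) Y = t * q X Y := by
    intro X Y
    unfold q
    simp only [Pi.smul_apply, smul_eq_mul]
    ring
  refine ⟨?_, ?_, ?_⟩
  · intro h
    rcases smul_eq_zero.1 h with h | h
    · exact ht.ne' h
    · exact h1 h
  · rw [hq, hq2, h2]; ring
  · intro x hx
    rw [hq]
    exact mul_nonpos_of_nonneg_of_nonpos ht.le (h3 x hx)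

end A_Lam_smul6

alias Lam_smul6 := A_Lam_smul6.Lam_smul6

namespace A_GG6

/- Proof:
q (X x)(g2 Z) = q (g2 (X (g1^-1 x))) (g2 Z) = q (X (g1^-1 x)) Z, with g1^-1 x in H2 by G_inv, G_H2 (S.s.X x = S.s.X (g.1 (g.1.symm x)) = g.2 (S.s.X (g.1.symm x)) by G_X).
-/
theorem GG6 (S : CS) {g : (V3 ≃ₗ[ℝ] V3) × (V4 ≃ₗ[ℝ] V4)} (hg : g ∈ S.G) :
    (∀ ξ ∈ Lam S, g.2 ξ ∈ Lam S) ∧ (∀ N ∈ Dual S, g.2 N ∈ Dual S) := by
  have hinv := S.G_inv g hg
  have key : ∀ x ∈ H2, q (S.s.X x) = q (g.2 (S.s.X (g.1.symm x))) := by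
    intro x hx
    have hy : g.1.symm x ∈ H2 := S.G_H2 _ hinv x hx
    rw [← S.G_X g hg _ hy, g.1.apply_symm_apply x]
  have hall : ∀ Z : V4, (∀ x ∈ H2, q (S.s.X x) Z ≤ 0) → ∀ x ∈ H2, q (S.s.X x) (g.2 Z) ≤ 0 := by
    intro Z hZ x hx
    have hy : g.1.symm x ∈ H2 := S.G_H2 _ hinv x hx
    rw [key x hx, S.G_q g hg]
    exact hZ _ hy
  refine ⟨?_, ?_⟩
  · rintro ξ ⟨h0, hq, h⟩
    refine ⟨?_, ?_, hall ξ h⟩
    · intro h1
      apply h0
      exact (LinearEquiv.map_eq_zero_iff g.2).mp h1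
    · rw [S.G_q g hg]; exact hq
  · rintro N ⟨hq, h⟩
    refine ⟨?_, hall N h⟩
    rw [S.G_q g hg]; exact hq

end A_GG6

alias GG6 := A_GG6.GG6

namespace A_nset_lim6

theorem nset_lim6_self_smul (c d : ℝ) (X Y : V4) : q (c • X) (d • Y) = c * d * q X Y := by
  simp only [q, Pi.smul_apply, smul_eq_mul]
  ring

theorem nset_lim6_smul_l (d : ℝ) (X Y : V4) : q (d • X) Y = d * q X Y := by
  simp only [q, Pi.smul_apply, smul_eq_mul]
  ring

theorem nset_lim6 (S : CS) {Y : V4} (hY : Y ∈ nset S) (hY0 : q Y Y = 0) {W : V4} {B : ℝ}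
    (hW : ∀ x ∈ H2, q (S.s.X x) W ≤ B) : q Y W ≤ 0 := by
  classical
  unfold nset at hY
  rw [mem_closure_iff_seq_limit] at hY
  obtain ⟨y, hy, hlim⟩ := hY
  choose x hx hyx using hy
  have hne : ∀ z ∈ H2, S.s.X z ≠ 0 := by
    intro z hz h0
    have := S.g.XX z hz
    rw [h0] at this
    simp [q] at this
  have hx₀ : (![1, 0, 0] : V3) ∈ H2 := by
    constructor
    · simp [eta]
    · simp
  have hyfun : y = fun k => ‖S.s.X (x k)‖⁻¹ • S.s.X (x k) := funext hyx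
  by_cases hR : ∃ R : ℝ, ∃ᶠ k in Filter.atTop, -eta (![1, 0, 0] : V3) (x k) ≤ R
  · exfalso
    obtain ⟨R, hR⟩ := hR
    have hcpt := H2_ball hx₀ R
    have hfr : ∃ᶠ k in Filter.atTop, x k ∈ {z | z ∈ H2 ∧ -eta (![1, 0, 0] : V3) z ≤ R} :=
      hR.mono (fun k hk => ⟨hx k, hk⟩)
    obtain ⟨z, hz, φ, hφ, hconv⟩ := hcpt.tendsto_subseq' hfr
    have h1 : Filter.Tendsto (fun k => S.s.X (x (φ k))) Filter.atTop (nhds (S.s.X z)) := by
      have hc := S.g.contX z hz.1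
      have hw : Filter.Tendsto (fun k => x (φ k)) Filter.atTop (nhdsWithin z H2) := by
        rw [tendsto_nhdsWithin_iff]
        exact ⟨hconv, Filter.Eventually.of_forall (fun k => hx (φ k))⟩
      exact hc.tendsto.comp hw
    have h2 : Filter.Tendsto (fun k => ‖S.s.X (x (φ k))‖⁻¹ • S.s.X (x (φ k))) Filter.atTop
        (nhds (‖S.s.X z‖⁻¹ • S.s.X z)) := by
      exact (h1.norm.inv₀ (norm_ne_zero_iff.mpr (hne z hz.1))).smul h1
    have h3 : Filter.Tendsto (fun k => y (φ k)) Filter.atTop (nhds Y) :=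
      hlim.comp hφ.tendsto_atTop
    rw [hyfun] at h3
    have h4 := tendsto_nhds_unique h3 h2
    rw [h4, nset_lim6_self_smul, S.g.XX z hz.1] at hY0
    have h5 : 0 < ‖S.s.X z‖⁻¹ := inv_pos.mpr (norm_pos_iff.mpr (hne z hz.1))
    nlinarith [mul_pos h5 h5]
  · push Not at hR
    have hinf : Filter.Tendsto (fun k => ‖S.s.X (x k)‖) Filter.atTop Filter.atTop := by
      rw [Filter.tendsto_atTop]
      intro M
      obtain ⟨R, hRM⟩ := norm6 S.g hx₀ M
      have h := hR R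
      filter_upwards [h] with k hk
      exact (hRM (x k) (hx k) hk).le
    have hinv : Filter.Tendsto (fun k => ‖S.s.X (x k)‖⁻¹) Filter.atTop (nhds 0) :=
      tendsto_inv_atTop_zero.comp hinf
    have hpos : ∀ k, 0 < ‖S.s.X (x k)‖⁻¹ := fun k =>
      inv_pos.mpr (norm_pos_iff.mpr (hne (x k) (hx k)))
    have hq : Filter.Tendsto (fun k => q (y k) W) Filter.atTop (nhds (q Y W)) := by
      have hc : Continuous (fun Z : V4 => q Z W) :=
        q_cont.comp (continuous_id.prodMk continuous_const)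
      exact (hc.tendsto Y).comp hlim
    have h1 : Filter.Tendsto (fun k => ‖S.s.X (x k)‖⁻¹ * B) Filter.atTop (nhds (0 * B)) :=
      hinv.mul_const B
    rw [zero_mul] at h1
    refine le_of_tendsto_of_tendsto' hq h1 ?_
    intro k
    rw [hyx k, nset_lim6_smul_l]
    exact mul_le_mul_of_nonneg_left (hW (x k) (hx k)) (hpos k).le

end A_nset_lim6

alias nset_lim6 := A_nset_lim6.nset_lim6

namespace A_nset_cases6

theorem nset_cases6_self_smul (c d : ℝ) (X Y : V4) : q (c • X) (d • Y) = c * d * q X Y := by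
  simp only [q, Pi.smul_apply, smul_eq_mul]
  ring

theorem nset_cases6_smul_r (d : ℝ) (X Y : V4) : q X (d • Y) = d * q X Y := by
  simp only [q, Pi.smul_apply, smul_eq_mul]
  ring

/- Proof:
Take Y_k -> Y, Y_k = ‖X x_k‖⁻¹ X x_k, x_k in H2. Fix x0 in H2. If -eta x0 x_k has a bounded subsequence then (H2_ball compact) x_k -> x in H2 along a subsequence and Y = ‖X x‖⁻¹ X x by continuity. Otherwise ‖X x_k‖ -> infinity (norm6 for S.g), so q Y Y = lim -1/‖X x_k‖^2 = 0, |Y| = 1 so Y ≠ 0, and q (X x) Y <= 0 in the limit from S.g.chord (q (X x)(X x_k) <= -1).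
-/
theorem nset_cases6 (S : CS) {Y : V4} (hY : Y ∈ nset S) :
    (∃ x ∈ H2, Y = ‖S.s.X x‖⁻¹ • S.s.X x) ∨ Y ∈ Lam S := by
  classical
  unfold nset at hY
  rw [mem_closure_iff_seq_limit] at hY
  obtain ⟨y, hy, hlim⟩ := hY
  choose x hx hyx using hy
  have hne : ∀ z ∈ H2, S.s.X z ≠ 0 := by
    intro z hz h0
    have := S.g.XX z hz
    rw [h0] at this
    simp [q] at this
  have hx₀ : (![1, 0, 0] : V3) ∈ H2 := by
    constructor
    · simp [eta]
    · simp
  have hyfun : y = fun k => ‖S.s.X (x k)‖⁻¹ • S.s.X (x k) := funext hyx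
  by_cases hR : ∃ R : ℝ, ∃ᶠ k in Filter.atTop, -eta (![1, 0, 0] : V3) (x k) ≤ R
  · left
    obtain ⟨R, hR⟩ := hR
    have hcpt := H2_ball hx₀ R
    have hfr : ∃ᶠ k in Filter.atTop, x k ∈ {z | z ∈ H2 ∧ -eta (![1, 0, 0] : V3) z ≤ R} :=
      hR.mono (fun k hk => ⟨hx k, hk⟩)
    obtain ⟨z, hz, φ, hφ, hconv⟩ := hcpt.tendsto_subseq' hfr
    refine ⟨z, hz.1, ?_⟩
    have h1 : Filter.Tendsto (fun k => S.s.X (x (φ k))) Filter.atTop (nhds (S.s.X z)) := by
      have hc := S.g.contX z hz.1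
      have hw : Filter.Tendsto (fun k => x (φ k)) Filter.atTop (nhdsWithin z H2) := by
        rw [tendsto_nhdsWithin_iff]
        exact ⟨hconv, Filter.Eventually.of_forall (fun k => hx (φ k))⟩
      exact hc.tendsto.comp hw
    have h2 : Filter.Tendsto (fun k => ‖S.s.X (x (φ k))‖⁻¹ • S.s.X (x (φ k))) Filter.atTop
        (nhds (‖S.s.X z‖⁻¹ • S.s.X z)) := by
      exact (h1.norm.inv₀ (norm_ne_zero_iff.mpr (hne z hz.1))).smul h1
    have h3 : Filter.Tendsto (fun k => y (φ k)) Filter.atTop (nhds Y) :=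
      hlim.comp hφ.tendsto_atTop
    rw [hyfun] at h3
    exact tendsto_nhds_unique h3 h2
  · right
    push Not at hR
    have hinf : Filter.Tendsto (fun k => ‖S.s.X (x k)‖) Filter.atTop Filter.atTop := by
      rw [Filter.tendsto_atTop]
      intro M
      obtain ⟨R, hRM⟩ := norm6 S.g hx₀ M
      have h := hR R
      filter_upwards [h] with k hk
      exact (hRM (x k) (hx k) hk).le
    have hinv : Filter.Tendsto (fun k => ‖S.s.X (x k)‖⁻¹) Filter.atTop (nhds 0) :=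
      tendsto_inv_atTop_zero.comp hinf
    have hpos : ∀ k, 0 < ‖S.s.X (x k)‖⁻¹ := fun k =>
      inv_pos.mpr (norm_pos_iff.mpr (hne (x k) (hx k)))
    have hqr : ∀ Z : V4, Filter.Tendsto (fun k => q Z (y k)) Filter.atTop (nhds (q Z Y)) := by
      intro Z
      have hc : Continuous (fun W : V4 => q Z W) :=
        q_cont.comp (continuous_const.prodMk continuous_id)
      exact (hc.tendsto Y).comp hlim
    have hle : ∀ (Z : V4) (C : ℝ), 0 ≤ C → (∀ k, q Z (S.s.X (x k)) ≤ C) → q Z Y ≤ 0 := by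
      intro Z C hC hZ
      have h1 : Filter.Tendsto (fun k => ‖S.s.X (x k)‖⁻¹ * C) Filter.atTop (nhds (0 * C)) :=
        hinv.mul_const C
      rw [zero_mul] at h1
      refine le_of_tendsto_of_tendsto' (hqr Z) h1 ?_
      intro k
      rw [hyx k, nset_cases6_smul_r]
      exact mul_le_mul_of_nonneg_left (hZ k) (hpos k).le
    refine ⟨?_, ?_, ?_⟩
    · intro h0
      have hn : Filter.Tendsto (fun k => ‖y k‖) Filter.atTop (nhds ‖Y‖) := hlim.norm
      have h1 : (fun k => ‖y k‖) = fun _ => (1 : ℝ) := by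
        funext k
        rw [hyx k, norm_smul, norm_inv, norm_norm]
        exact inv_mul_cancel₀ (norm_ne_zero_iff.mpr (hne (x k) (hx k)))
      rw [h1] at hn
      have h2 := tendsto_nhds_unique hn tendsto_const_nhds
      rw [h0, norm_zero] at h2
      exact absurd h2 (by norm_num)
    · have hq : Filter.Tendsto (fun k => q (y k) (y k)) Filter.atTop (nhds (q Y Y)) := by
        have hc : Continuous (fun W : V4 => q W W) :=
          q_cont.comp (continuous_id.prodMk continuous_id)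
        exact (hc.tendsto Y).comp hlim
      have hq' : Filter.Tendsto (fun k => q (y k) (y k)) Filter.atTop (nhds 0) := by
        have h1 : Filter.Tendsto (fun k => ‖S.s.X (x k)‖⁻¹ * ‖S.s.X (x k)‖⁻¹ * (-1)) Filter.atTop
            (nhds (0 * 0 * (-1))) := (hinv.mul hinv).mul_const (-1)
        simp only [zero_mul, mul_zero] at h1
        refine h1.congr ?_
        intro k
        rw [hyx k, nset_cases6_self_smul, S.g.XX (x k) (hx k)]
      exact tendsto_nhds_unique hq hq'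
    · intro z hz
      exact hle (S.s.X z) 0 le_rfl (fun k =>
          (S.g.chord z hz (x k) (hx k)).trans (by norm_num))

end A_nset_cases6

alias nset_cases6 := A_nset_cases6.nset_cases6

namespace A_nset_cpt6

theorem nset_cpt6 (S : CS) : IsCompact (nset S) ∧ (nset S).Nonempty := by
  constructor
  · apply Bornology.IsBounded.isCompact_closure
    apply (Metric.isBounded_closedBall (x := (0 : V4)) (r := 1)).subset
    rintro Y ⟨x, -, rfl⟩
    rw [mem_closedBall_zero_iff, norm_smul, norm_inv, norm_norm]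
    by_cases h : ‖S.s.X x‖ = 0
    · rw [h]; simp
    · rw [inv_mul_cancel₀ h]
  · refine Set.Nonempty.closure ⟨_, ![1, 0, 0], ⟨?_, ?_⟩, rfl⟩
    · simp [eta]
    · simp

end A_nset_cpt6

alias nset_cpt6 := A_nset_cpt6.nset_cpt6

namespace A_nset_pair6

/- Proof:
First claim: true on the dense set (positive multiples, S.g.chord), pass to the closure. Second claim: true for Y = ‖X x‖⁻¹ X x, closed condition.
-/
theorem nset_pair6 (S : CS) : (∀ Y ∈ nset S, ∀ Z ∈ nset S, q Y Z ≤ 0) ∧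
    ∀ W, (∀ x ∈ H2, q (S.s.X x) W ≤ 0) → ∀ Y ∈ nset S, q Y W ≤ 0 := by
  constructor
  · intro Y hY Z hZ
    have hcl : IsClosed {p : V4 × V4 | q p.1 p.2 ≤ 0} := isClosed_le q_cont continuous_const
    have hsub : {Y | ∃ x ∈ H2, Y = ‖S.s.X x‖⁻¹ • S.s.X x} ×ˢ {Y | ∃ x ∈ H2, Y = ‖S.s.X x‖⁻¹ • S.s.X x}
        ⊆ {p : V4 × V4 | q p.1 p.2 ≤ 0} := by
      rintro ⟨U, W⟩ ⟨⟨x, hx, hU⟩, ⟨y, hy, hW⟩⟩
      simp only at hU hW
      subst hU
      subst hW
      have h1 := S.g.chord x hx y hy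
      have h2 : q (‖S.s.X x‖⁻¹ • S.s.X x) (‖S.s.X y‖⁻¹ • S.s.X y) =
          (‖S.s.X x‖⁻¹ * ‖S.s.X y‖⁻¹) * q (S.s.X x) (S.s.X y) := by
        simp only [q, Pi.smul_apply, smul_eq_mul]
        ring
      show q (‖S.s.X x‖⁻¹ • S.s.X x) (‖S.s.X y‖⁻¹ • S.s.X y) ≤ 0
      rw [h2]
      exact mul_nonpos_of_nonneg_of_nonpos (by positivity) (by linarith)
    have h3 := closure_minimal hsub hcl
    rw [closure_prod_eq] at h3
    exact h3 (Set.mk_mem_prod hY hZ)
  · intro W hW Y hY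
    have hc : Continuous (fun Y : V4 => q Y W) :=
      q_cont.comp (continuous_id.prodMk continuous_const)
    have hcl : IsClosed {Y : V4 | q Y W ≤ 0} := isClosed_le hc continuous_const
    have hsub : {Y | ∃ x ∈ H2, Y = ‖S.s.X x‖⁻¹ • S.s.X x} ⊆ {Y : V4 | q Y W ≤ 0} := by
      rintro U ⟨x, hx, hU⟩
      subst hU
      have h2 : q (‖S.s.X x‖⁻¹ • S.s.X x) W = ‖S.s.X x‖⁻¹ * q (S.s.X x) W := by
        simp only [q, Pi.smul_apply, smul_eq_mul]
        ring
      show q (‖S.s.X x‖⁻¹ • S.s.X x) W ≤ 0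
      rw [h2]
      exact mul_nonpos_of_nonneg_of_nonpos (by positivity) (hW x hx)
    exact closure_minimal hsub hcl hY

end A_nset_pair6

alias nset_pair6 := A_nset_pair6.nset_pair6

namespace A_nset_pos6

/- Proof:
by nset_cases6: either Y = positive multiple of X y (S.g.chord: <= -1 < 0) or Y in Lam S (Lam_strict6)
-/
theorem nset_pos6 (S : CS) {Y : V4} (hY : Y ∈ nset S) {x : V3} (hx : x ∈ H2) : q (S.s.X x) Y < 0 := by
  rcases nset_cases6 S hY with ⟨z, hz, rfl⟩ | h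
  · have h1 : q (S.s.X x) (S.s.X z) ≤ -1 := S.g.chord x hx z hz
    have h2 : S.s.X z ≠ 0 := by
      intro h0
      have h3 := S.g.XX z hz
      rw [h0] at h3
      simp [q] at h3
    have h4 : 0 < ‖S.s.X z‖⁻¹ := inv_pos.2 (norm_pos_iff.2 h2)
    have h5 : q (S.s.X x) (‖S.s.X z‖⁻¹ • S.s.X z) = ‖S.s.X z‖⁻¹ * q (S.s.X x) (S.s.X z) := by
      simp only [q, Pi.smul_apply, smul_eq_mul]
      ring
    rw [h5]
    exact mul_neg_of_pos_of_neg h4 (by linarith)
  · exact Lam_strict6 S h hx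

end A_nset_pos6

alias nset_pos6 := A_nset_pos6.nset_pos6

namespace A_zero_notin6

/- Proof:
the linear function q (X x) . is < 0 on nset S, hence < 0 on its convex hull
-/
theorem zero_notin6 (S : CS) : (0 : V4) ∉ convexHull ℝ (nset S) := by
  obtain ⟨x, hx⟩ : ∃ x : V3, x ∈ H2 := by
    refine ⟨![1, 0, 0], ?_, ?_⟩
    · simp [eta]
    · simp
  have hconv : Convex ℝ {Y : V4 | q (S.s.X x) Y < 0} := by
    intro Y hY Z hZ s t hs ht hst
    have hY' : q (S.s.X x) Y < 0 := hY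
    have hZ' : q (S.s.X x) Z < 0 := hZ
    change q (S.s.X x) (s • Y + t • Z) < 0
    have e : q (S.s.X x) (s • Y + t • Z) = s * q (S.s.X x) Y + t * q (S.s.X x) Z := by
      simp only [q, Pi.add_apply, Pi.smul_apply, smul_eq_mul]
      ring
    rw [e]
    rcases hs.eq_or_lt with h0 | h0
    · have : t = 1 := by linarith
      rw [← h0, this]
      linarith
    · have h1 : s * q (S.s.X x) Y < 0 := mul_neg_of_pos_of_neg h0 hY'
      have h2 : t * q (S.s.X x) Z ≤ 0 := mul_nonpos_of_nonneg_of_nonpos ht hZ'.le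
      linarith
  have hsub : convexHull ℝ (nset S) ⊆ {Y : V4 | q (S.s.X x) Y < 0} :=
    convexHull_min (fun Y hY => nset_pos6 S hY hx) hconv
  intro h
  have h0 : q (S.s.X x) 0 < 0 := hsub h
  simp [q] at h0

end A_zero_notin6

alias zero_notin6 := A_zero_notin6.zero_notin6

namespace A_null_repr6

theorem q_add_right' (X Y Z : V4) : q X (Y + Z) = q X Y + q X Z := by
  unfold q; simp only [Pi.add_apply]; ring

theorem q_add_left' (X Y Z : V4) : q (X + Y) Z = q X Z + q Y Z := by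
  unfold q; simp only [Pi.add_apply]; ring

theorem q_smul_right' (X Y : V4) (c : ℝ) : q X (c • Y) = c * q X Y := by
  unfold q; simp only [Pi.smul_apply, smul_eq_mul]; ring

theorem q_smul_left' (X Y : V4) (c : ℝ) : q (c • X) Y = c * q X Y := by
  unfold q; simp only [Pi.smul_apply, smul_eq_mul]; ring

theorem q_zero_right' (X : V4) : q X 0 = 0 := by
  unfold q; simp

theorem q_zero_left' (X : V4) : q 0 X = 0 := by
  unfold q; simp

theorem q_sum_right' {n : ℕ} (s : Finset (Fin n)) (X : V4) (z : Fin n → V4) :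
    q X (∑ i ∈ s, z i) = ∑ i ∈ s, q X (z i) := by
  classical
  induction s using Finset.induction_on with
  | empty => simp [q_zero_right']
  | insert a s ha ih => rw [Finset.sum_insert ha, Finset.sum_insert ha, q_add_right', ih]

theorem q_sum_left' {n : ℕ} (s : Finset (Fin n)) (X : V4) (z : Fin n → V4) :
    q (∑ i ∈ s, z i) X = ∑ i ∈ s, q (z i) X := by
  classical
  induction s using Finset.induction_on with
  | empty => simp [q_zero_left']
  | insert a s ha ih => rw [Finset.sum_insert ha, Finset.sum_insert ha, q_add_left', ih]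

theorem norm_SX_pos' (S : CS) {x : V3} (hx : x ∈ H2) : 0 < ‖S.s.X x‖ := by
  rw [norm_pos_iff]
  intro h
  have h1 := S.g.XX x hx
  rw [h, q_zero_left'] at h1
  norm_num at h1

theorem null_repr6 (S : CS) {Z : V4} (hZ : Z ∈ Lam S) :
    ∃ (n : ℕ) (w : Fin n → ℝ) (z : Fin n → V4), 0 < n ∧ (∀ i, 0 < w i) ∧ (∀ i, z i ∈ nset S ∧ q (z i) (z i) = 0) ∧
      Z = ∑ i, w i • z i := by
  obtain ⟨hZ0, hZZ, hZx⟩ := hZ
  -- step 1
  obtain ⟨t, ht, Y, hY, hZY⟩ : ∃ t : ℝ, 0 ≤ t ∧ ∃ Y ∈ convexHull ℝ (nset S), Z = t • Y := by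
    by_contra hcon
    push Not at hcon
    obtain ⟨N, hN, hZN⟩ := sep (nset_cpt6 S).1 (nset_cpt6 S).2 (zero_notin6 S) hZ0 hcon
    have hX : ∀ x ∈ H2, q (S.s.X x) N < 0 := by
      intro x hx
      have hpos := norm_SX_pos' S hx
      have h1 := hN (‖S.s.X x‖⁻¹ • S.s.X x) (subset_closure ⟨x, hx, rfl⟩)
      rw [q_smul_left'] at h1
      by_contra h2
      push Not at h2
      have h3 := mul_nonneg (inv_pos.2 hpos).le h2
      linarith
    have key : ∀ t : ℝ, 0 < t → 2 * q Z N + t * q N N ≤ 0 := by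
      intro t ht
      have h1 := nonspacelike6 S.g (Z := Z + t • N) (fun x hx => by
        rw [q_add_right', q_smul_right']
        have h2 := hZx x hx
        have h3 := mul_neg_of_pos_of_neg ht (hX x hx)
        linarith)
      have h2 : q (Z + t • N) (Z + t • N) = q Z Z + t * (2 * q Z N + t * q N N) := by
        unfold q; simp only [Pi.add_apply, Pi.smul_apply, smul_eq_mul]; ring
      rw [h2, hZZ, zero_add] at h1
      by_contra h3
      push Not at h3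
      have := mul_pos ht h3
      linarith
    have hd : 0 < 1 + |q N N| := by positivity
    have h1 := key (q Z N / (1 + |q N N|)) (div_pos hZN hd)
    have h2 : -(q Z N) ≤ q Z N / (1 + |q N N|) * q N N := by
      have h3 : -(|q N N|) ≤ q N N := neg_abs_le _
      have h4 : 0 ≤ q Z N / (1 + |q N N|) := (div_pos hZN hd).le
      have h5 := mul_le_mul_of_nonneg_left h3 h4
      have h6 : q Z N / (1 + |q N N|) * |q N N| ≤ q Z N := by
        rw [div_mul_eq_mul_div, div_le_iff₀ hd]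
        nlinarith [abs_nonneg (q N N)]
      linarith
    linarith
  -- step 2
  have ht0 : 0 < t := by
    rcases ht.lt_or_eq with h | h
    · exact h
    · exfalso
      apply hZ0
      rw [hZY, ← h, zero_smul]
  obtain ⟨n, w, z, hn, hw, hz, hYz⟩ := hull_repr hY
  have hdbl : q Y Y = ∑ i, ∑ j, w i * w j * q (z i) (z j) := by
    rw [hYz, q_sum_left']
    refine Finset.sum_congr rfl fun i _ => ?_
    rw [q_smul_left', q_sum_right', Finset.mul_sum]
    refine Finset.sum_congr rfl fun j _ => ?_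
    rw [q_smul_right']
    ring
  have hYY : q Y Y = 0 := by
    have h1 : q Z Z = t * (t * q Y Y) := by rw [hZY, q_smul_left', q_smul_right']
    rw [hZZ] at h1
    rcases mul_eq_zero.1 h1.symm with h | h
    · exact absurd h ht0.ne'
    · rcases mul_eq_zero.1 h with h | h
      · exact absurd h ht0.ne'
      · exact h
  have hnon : ∀ i j, w i * w j * q (z i) (z j) ≤ 0 := fun i j =>
    mul_nonpos_of_nonneg_of_nonpos (mul_pos (hw i) (hw j)).le
      ((nset_pair6 S).1 _ (hz i) _ (hz j))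
  have hii : ∀ i, q (z i) (z i) = 0 := by
    intro i
    have h1 : ∀ i ∈ (Finset.univ : Finset (Fin n)),
        ∑ j, w i * w j * q (z i) (z j) ≤ 0 := fun i _ =>
      Finset.sum_nonpos fun j _ => hnon i j
    rw [hdbl] at hYY
    have h2 := (Finset.sum_eq_zero_iff_of_nonpos h1).1 hYY i (Finset.mem_univ i)
    have h3 := (Finset.sum_eq_zero_iff_of_nonpos (fun j _ => hnon i j)).1 h2 i (Finset.mem_univ i)
    rcases mul_eq_zero.1 h3 with h | h
    · exact absurd h (mul_pos (hw i) (hw i)).ne'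
    · exact h
  refine ⟨n, fun i => t * w i, z, hn, fun i => mul_pos ht0 (hw i), fun i => ⟨hz i, hii i⟩, ?_⟩
  rw [hZY, hYz, Finset.smul_sum]
  exact Finset.sum_congr rfl fun i _ => by rw [smul_smul]

end A_null_repr6

alias null_repr6 := A_null_repr6.null_repr6

namespace A_lam_supp6

/- Proof:
null_repr6 and nset_lim6 for every z i; sum with positive weights (q is linear in the first argument).
-/
theorem lam_supp6 (S : CS) {ξ : V4} (hξ : ξ ∈ Lam S) {W : V4} {B : ℝ}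
    (hW : ∀ x ∈ H2, q (S.s.X x) W ≤ B) : q ξ W ≤ 0 := by
  obtain ⟨n, w, z, hn, hw, hz, hZ⟩ := null_repr6 S hξ
  have hlin : q ξ W = ∑ i, w i * q (z i) W := by
    subst hZ
    simp only [q, Finset.sum_apply, Pi.smul_apply, smul_eq_mul, Finset.sum_mul]
    rw [← Finset.sum_neg_distrib, ← Finset.sum_add_distrib, ← Finset.sum_add_distrib,
      ← Finset.sum_sub_distrib]
    refine Finset.sum_congr rfl fun i _ => ?_
    ring
  rw [hlin]
  refine Finset.sum_nonpos fun i _ => ?_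
  exact mul_nonpos_of_nonneg_of_nonpos (hw i).le (nset_lim6 S (hz i).1 (hz i).2 hW)

end A_lam_supp6

alias lam_supp6 := A_lam_supp6.lam_supp6

namespace A_Lam_ne6

/- Proof:
x0 = ![1,0,0], v from exists_UT, x_k = geo x0 v k in H2, -eta x0 x_k = cosh k -> infinity (eta_geo), so ‖X x_k‖ -> infinity (norm6), Y_k = ‖X x_k‖⁻¹ X x_k in nset S, a compact set (nset_cpt6): a subsequence converges to Y in nset S, |Y| = 1, q Y Y = lim -1/‖X x_k‖^2 = 0, q (X x) Y = lim q (X x)(X x_k)/‖X x_k‖ <= 0 (chord). So Y in Lam S.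
-/
theorem Lam_ne6 (S : CS) : (Lam S).Nonempty := by
  have hsm : ∀ (X Y : V4) (c : ℝ), q X (c • Y) = c * q X Y := by
    intro X Y c
    simp only [q, Pi.smul_apply, smul_eq_mul]
    ring
  have hsm' : ∀ (X Y : V4) (c : ℝ), q (c • X) Y = c * q X Y := by
    intro X Y c
    simp only [q, Pi.smul_apply, smul_eq_mul]
    ring
  have hx0 : (![1, 0, 0] : V3) ∈ H2 := by
    refine ⟨?_, ?_⟩
    · simp [eta]
    · simp
  obtain ⟨v, hv⟩ := exists_UT hx0
  set x0 : V3 := ![1, 0, 0] with hx0d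
  set x : ℕ → V3 := fun k => geo x0 v k with hx
  have hxm : ∀ k, x k ∈ H2 := fun k => geo_mem hx0 hv k
  have hpos : ∀ y ∈ H2, 0 < ‖S.s.X y‖ := by
    intro y hy
    rw [norm_pos_iff]
    intro h0
    have := S.g.XX y hy
    rw [h0] at this
    simp [q] at this
  have hcosh : Filter.Tendsto (fun k : ℕ => Real.cosh (k : ℝ)) Filter.atTop Filter.atTop := by
    have h1 : Filter.Tendsto (fun k : ℕ => (k : ℝ)) Filter.atTop Filter.atTop :=
      tendsto_natCast_atTop_atTop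
    refine Filter.tendsto_atTop_mono (fun k => ?_) h1
    have h2 := Real.add_one_le_exp (k : ℝ)
    have h3 := Real.self_le_sinh_iff.2 (Nat.cast_nonneg k : (0 : ℝ) ≤ k)
    have h4 : Real.sinh (k : ℝ) < Real.cosh k := Real.sinh_lt_cosh k
    linarith
  have hnorm : Filter.Tendsto (fun k : ℕ => ‖S.s.X (x k)‖) Filter.atTop Filter.atTop := by
    rw [Filter.tendsto_atTop]
    intro M
    obtain ⟨R, hR⟩ := norm6 S.g hx0 M
    filter_upwards [hcosh.eventually_gt_atTop R] with k hk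
    refine (hR (x k) (hxm k) ?_).le
    rw [eta_geo hx0 hv]
    simpa using hk
  set Y : ℕ → V4 := fun k => ‖S.s.X (x k)‖⁻¹ • S.s.X (x k) with hY
  have hYm : ∀ k, Y k ∈ nset S := fun k => subset_closure ⟨x k, hxm k, rfl⟩
  obtain ⟨Z, hZ, φ, hφ, hlim⟩ := (nset_cpt6 S).1.tendsto_subseq hYm
  have hinv : Filter.Tendsto (fun k : ℕ => ‖S.s.X (x (φ k))‖⁻¹) Filter.atTop (nhds 0) :=
    (hnorm.comp hφ.tendsto_atTop).inv_tendsto_atTop
  refine ⟨Z, ?_, ?_, ?_⟩
  · intro h0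
    have h1 : Filter.Tendsto (fun k => ‖Y (φ k)‖) Filter.atTop (nhds ‖Z‖) := hlim.norm
    have h2 : ∀ k, ‖Y (φ k)‖ = 1 := by
      intro k
      have hp := hpos _ (hxm (φ k))
      rw [hY]
      simp only
      rw [norm_smul, norm_inv, norm_norm, inv_mul_cancel₀ hp.ne']
    simp_rw [h2] at h1
    have h3 := tendsto_nhds_unique h1 tendsto_const_nhds
    rw [h0, norm_zero] at h3
    norm_num at h3
  · have h1 : Filter.Tendsto (fun k => q (Y (φ k)) (Y (φ k))) Filter.atTop (nhds (q Z Z)) :=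
      (q_cont.tendsto (Z, Z)).comp (hlim.prodMk_nhds hlim)
    have h2 : ∀ k, q (Y (φ k)) (Y (φ k)) = -(‖S.s.X (x (φ k))‖⁻¹ * ‖S.s.X (x (φ k))‖⁻¹) := by
      intro k
      rw [hY]
      simp only
      rw [hsm, hsm', S.g.XX _ (hxm _)]
      ring
    simp_rw [h2] at h1
    have h3 := (hinv.mul hinv).neg
    rw [mul_zero, neg_zero] at h3
    exact tendsto_nhds_unique h1 h3
  · intro y hy
    have h1 : Filter.Tendsto (fun k => q (S.s.X y) (Y (φ k))) Filter.atTop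
        (nhds (q (S.s.X y) Z)) :=
      (q_cont.tendsto (S.s.X y, Z)).comp (tendsto_const_nhds.prodMk_nhds hlim)
    refine le_of_tendsto h1 (Filter.Eventually.of_forall fun k => ?_)
    rw [hY]
    simp only
    rw [hsm]
    have h2 := S.g.chord y hy _ (hxm (φ k))
    have h3 := hpos _ (hxm (φ k))
    have h4 : 0 ≤ ‖S.s.X (x (φ k))‖⁻¹ := by positivity
    nlinarith

end A_Lam_ne6

alias Lam_ne6 := A_Lam_ne6.Lam_ne6

namespace A_Dual_cpt6

/- Proof:
Closedness: polynomial/continuity conditions and F compact (F ⊆ H2, X' continuous on H2). Boundedness: suppose N_k in Dual S, y_k in F, |N_k| -> infinity. Then N' = lim N_k/|N_k| (subsequence) is nonzero, q N' N' = lim -1/|N_k|^2 = 0, q (X x) N' <= 0 for all x in H2, so N' in Lam S. q (X' y) N' = lim q (X' y_k) N_k/|N_k| >= lim -C/|N_k| = 0 for y = lim y_k in F ⊆ H2: contradiction with hs.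
-/
open Filter Topology in
theorem Dual_cpt6 (S : CS) {X' : V3 → V4} (hc : ContinuousOn X' H2) (hs : ∀ ξ ∈ Lam S, ∀ x ∈ H2, q (X' x) ξ < 0) (C : ℝ) :
    IsCompact {p : V4 × V3 | p.1 ∈ Dual S ∧ p.2 ∈ S.F ∧ -C ≤ q (X' p.2) p.1} := by
  have hXc : ContinuousOn X' S.F := hc.mono S.F_sub
  have hstrict : ∀ ξ ∈ Lam S, ∀ y ∈ S.F, q (X' y) ξ < 0 := fun ξ hξ y hy => hs ξ hξ y (S.F_sub hy)
  have hFcl : IsClosed S.F := S.F_cpt.isClosed
  have hqs : ∀ (t : ℝ) (Y Z : V4), q Y (t • Z) = t * q Y Z := by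
    intro t Y Z
    simp only [q, Pi.smul_apply, smul_eq_mul]
    ring
  have hqss : ∀ (t : ℝ) (Z : V4), q (t • Z) (t • Z) = t ^ 2 * q Z Z := by
    intro t Z
    simp only [q, Pi.smul_apply, smul_eq_mul]
    ring
  apply Metric.isCompact_of_isClosed_isBounded
  · apply IsSeqClosed.isClosed
    intro u p hu hup
    have h1 : Tendsto (fun k => (u k).1) atTop (𝓝 p.1) := (continuous_fst.tendsto p).comp hup
    have h2 : Tendsto (fun k => (u k).2) atTop (𝓝 p.2) := (continuous_snd.tendsto p).comp hup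
    have hpF : p.2 ∈ S.F := hFcl.mem_of_tendsto h2 (Eventually.of_forall (fun k => (hu k).2.1))
    have hX : Tendsto (fun k => X' (u k).2) atTop (𝓝 (X' p.2)) :=
      (hXc p.2 hpF).tendsto.comp
        (tendsto_nhdsWithin_iff.mpr ⟨h2, Eventually.of_forall (fun k => (hu k).2.1)⟩)
    refine ⟨⟨?_, ?_⟩, hpF, ?_⟩
    · have h := (q_cont.tendsto (p.1, p.1)).comp (h1.prodMk_nhds h1)
      exact tendsto_nhds_unique h (tendsto_const_nhds.congr fun k => ((hu k).1.1).symm)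
    · intro x hx
      have h := (q_cont.tendsto (S.s.X x, p.1)).comp
        ((tendsto_const_nhds (x := S.s.X x)).prodMk_nhds h1)
      exact le_of_tendsto' h (fun k => (hu k).1.2 x hx)
    · have h := (q_cont.tendsto (X' p.2, p.1)).comp (hX.prodMk_nhds h1)
      exact ge_of_tendsto' h (fun k => (hu k).2.2)
  · have hbd : ∃ R : ℝ, ∀ p ∈ {p : V4 × V3 | p.1 ∈ Dual S ∧ p.2 ∈ S.F ∧ -C ≤ q (X' p.2) p.1},
        ‖p.1‖ ≤ R := by
      by_contra hcon
      push Not at hcon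
      choose u hu hul using fun k : ℕ => hcon (k : ℝ)
      have hpos : ∀ k, 0 < ‖(u k).1‖ := fun k => lt_of_le_of_lt (Nat.cast_nonneg k) (hul k)
      have hK : IsCompact (Metric.sphere (0 : V4) 1 ×ˢ S.F) :=
        (isCompact_sphere _ _).prod S.F_cpt
      have hv : ∀ k, ((‖(u k).1‖⁻¹ • (u k).1, (u k).2) : V4 × V3) ∈
          Metric.sphere (0 : V4) 1 ×ˢ S.F := by
        intro k
        refine ⟨?_, (hu k).2.1⟩
        simp only [mem_sphere_iff_norm, sub_zero, norm_smul, norm_inv, norm_norm]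
        exact inv_mul_cancel₀ (hpos k).ne'
      obtain ⟨p, hp, φ, hφ, hlim⟩ := hK.tendsto_subseq hv
      have h1 : Tendsto (fun k => ‖(u (φ k)).1‖⁻¹ • (u (φ k)).1) atTop (𝓝 p.1) :=
        (continuous_fst.tendsto p).comp hlim
      have h2 : Tendsto (fun k => (u (φ k)).2) atTop (𝓝 p.2) := by
        have h := (continuous_snd.tendsto p).comp hlim
        exact h
      have hX : Tendsto (fun k => X' (u (φ k)).2) atTop (𝓝 (X' p.2)) :=
        (hXc p.2 hp.2).tendsto.comp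
          (tendsto_nhdsWithin_iff.mpr ⟨h2, Eventually.of_forall (fun k => (hu (φ k)).2.1)⟩)
      have hinf : Tendsto (fun k => ‖(u (φ k)).1‖) atTop atTop := by
        refine tendsto_atTop_mono (fun k => (hul (φ k)).le) ?_
        exact tendsto_natCast_atTop_atTop.comp hφ.tendsto_atTop
      have hinv : Tendsto (fun k => ‖(u (φ k)).1‖⁻¹) atTop (𝓝 0) :=
        tendsto_inv_atTop_zero.comp hinf
      have hne : p.1 ≠ 0 := by
        intro h0
        have hh := hp.1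
        rw [h0] at hh
        simp at hh
      have hqq : q p.1 p.1 = 0 := by
        have h := (q_cont.tendsto (p.1, p.1)).comp (h1.prodMk_nhds h1)
        have h' : Tendsto (fun k => (‖(u (φ k)).1‖⁻¹) ^ 2 * (-1 : ℝ)) atTop
            (𝓝 ((0 : ℝ) ^ 2 * (-1))) := (hinv.pow 2).mul_const _
        have h'' : Tendsto (fun k => (‖(u (φ k)).1‖⁻¹) ^ 2 * (-1 : ℝ)) atTop
            (𝓝 (q p.1 p.1)) := by
          refine h.congr fun k => ?_
          simp only [Function.comp]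
          rw [hqss, (hu (φ k)).1.1]
        have := tendsto_nhds_unique h'' h'
        rw [this]; ring
      have hle : ∀ x ∈ H2, q (S.s.X x) p.1 ≤ 0 := by
        intro x hx
        have h := (q_cont.tendsto (S.s.X x, p.1)).comp
          ((tendsto_const_nhds (x := S.s.X x)).prodMk_nhds h1)
        refine le_of_tendsto' h (fun k => ?_)
        simp only [Function.comp]
        rw [hqs]
        exact mul_nonpos_of_nonneg_of_nonpos (inv_nonneg.mpr (norm_nonneg _))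
          ((hu (φ k)).1.2 x hx)
      have hmem : p.1 ∈ Lam S := ⟨hne, hqq, hle⟩
      have hlt := hstrict p.1 hmem p.2 hp.2
      have hge : 0 ≤ q (X' p.2) p.1 := by
        have h := (q_cont.tendsto (X' p.2, p.1)).comp (hX.prodMk_nhds h1)
        have h' : Tendsto (fun k => (‖(u (φ k)).1‖⁻¹) * (-C)) atTop (𝓝 (0 * (-C))) :=
          hinv.mul_const _
        rw [zero_mul] at h'
        refine le_of_tendsto_of_tendsto' h' h (fun k => ?_)
        simp only [Function.comp]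
        rw [hqs]
        exact mul_le_mul_of_nonneg_left (hu (φ k)).2.2 (inv_nonneg.mpr (norm_nonneg _))
      exact absurd hlt (not_lt.mpr hge)
    obtain ⟨R, hR⟩ := hbd
    have hsub : {p : V4 × V3 | p.1 ∈ Dual S ∧ p.2 ∈ S.F ∧ -C ≤ q (X' p.2) p.1} ⊆
        Metric.closedBall (0 : V4) R ×ˢ S.F := by
      intro p hp
      refine ⟨?_, hp.2.1⟩
      simpa using hR p hp
    exact ((Metric.isBounded_closedBall).prod S.F_cpt.isBounded).subset hsub

end A_Dual_cpt6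

alias Dual_cpt6 := A_Dual_cpt6.Dual_cpt6

namespace A_unif6

theorem unif6_q_smul_right (X Y : V4) (t : ℝ) : q X (t • Y) = t * q X Y := by
  simp only [q, Pi.smul_apply, smul_eq_mul]; ring

theorem unif6_q_cont : Continuous fun p : V4 × V4 => q p.1 p.2 := by
  unfold q
  fun_prop

def unif6K (S : CS) : Set V4 := {ξ | ‖ξ‖ = 1 ∧ q ξ ξ = 0 ∧ ∀ x ∈ H2, q (S.s.X x) ξ ≤ 0}

theorem unif6K_sub (S : CS) {ξ : V4} (h : ξ ∈ unif6K S) : ξ ∈ Lam S := by
  refine ⟨?_, h.2.1, h.2.2⟩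
  rintro rfl
  have := h.1
  rw [norm_zero] at this
  exact zero_ne_one this

theorem unif6K_compact (S : CS) : IsCompact (unif6K S) := by
  have hq : ∀ Z : V4, Continuous fun ξ : V4 => q Z ξ := fun Z =>
    unif6_q_cont.comp (continuous_const.prodMk continuous_id)
  refine (isCompact_sphere (0 : V4) 1).of_isClosed_subset ?_ ?_
  · have e : unif6K S = {ξ | ‖ξ‖ = 1} ∩ ({ξ | q ξ ξ = 0} ∩ ⋂ x ∈ H2, {ξ | q (S.s.X x) ξ ≤ 0}) := by
      ext ξ
      simp only [unif6K, Set.mem_ofPred_eq, Set.mem_inter_iff, Set.mem_iInter]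
    rw [e]
    refine (isClosed_eq continuous_norm continuous_const).inter ((isClosed_eq ?_ continuous_const).inter ?_)
    · exact unif6_q_cont.comp (continuous_id.prodMk continuous_id)
    · exact isClosed_biInter fun x _ => isClosed_le (hq _) continuous_const
  · intro ξ h
    rw [mem_sphere_zero_iff_norm]; exact h.1

theorem unif6_one (S : CS) (Z : V3 → V4) (hZ : ContinuousOn Z H2)
    (hs : ∀ x ∈ H2, ∀ ξ ∈ Lam S, q (Z x) ξ < 0) :
    ∃ c C : ℝ, 0 < c ∧ 0 < C ∧ ∀ y ∈ S.F, ∀ ξ ∈ unif6K S, c ≤ -q (Z y) ξ ∧ -q (Z y) ξ ≤ C := by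
  have hcpt : IsCompact (S.F ×ˢ unif6K S) := S.F_cpt.prod (unif6K_compact S)
  have hcont : ContinuousOn (fun p : V3 × V4 => -q (Z p.1) p.2) (S.F ×ˢ unif6K S) := by
    refine ContinuousOn.neg ?_
    refine unif6_q_cont.comp_continuousOn (ContinuousOn.prodMk ?_ continuousOn_snd)
    exact (hZ.mono S.F_sub).comp continuousOn_fst fun p hp => hp.1
  rcases Set.eq_empty_or_nonempty (S.F ×ˢ unif6K S) with he | hne
  · refine ⟨1, 1, one_pos, one_pos, fun y hy ξ hξ => ?_⟩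
    exfalso
    have : (y, ξ) ∈ S.F ×ˢ unif6K S := ⟨hy, hξ⟩
    rw [he] at this
    exact this
  · obtain ⟨p, hp, hpmin⟩ := hcpt.exists_isMinOn hne hcont
    obtain ⟨p', hp', hpmax⟩ := hcpt.exists_isMaxOn hne hcont
    have pos : ∀ z ∈ S.F ×ˢ unif6K S, 0 < -q (Z z.1) z.2 := by
      intro z hz
      have := hs z.1 (S.F_sub hz.1) z.2 (unif6K_sub S hz.2)
      linarith
    refine ⟨_, _, pos p hp, pos p' hp', fun y hy ξ hξ => ?_⟩
    exact ⟨hpmin (show (y, ξ) ∈ S.F ×ˢ unif6K S from ⟨hy, hξ⟩), hpmax (show (y, ξ) ∈ S.F ×ˢ unif6K S from ⟨hy, hξ⟩)⟩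

/- Proof:
K0 = {xi in Lam S : |xi| = 1} is compact (closed and bounded; Lam S together with 0 is closed). On K0 x F the two continuous functions -q (X y) xi, -q (X' y) xi are positive (Lam_strict6, hs) so bounded below by c > 0 and above by C >= 4. For x in H2 choose g in G with g.1 x in F and put mu(xi) = |g.2 xi| (> 0 as g.2 xi in Lam S is nonzero, GG6): -q (X x) xi = -q (X (g.1 x)) (g.2 xi) = mu * (-q (X (g.1 x)) (g.2 xi/mu)), the same for X' (hG). The last inequality: -q xi1 xi2 = -q (g.2 xi1)(g.2 xi2) <= 4 mu(xi1) mu(xi2) (q_bound). If K0 is empty everything is trivial (no xi in Lam S).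
-/
theorem unif6 (S : CS) {X' : V3 → V4} (hc : ContinuousOn X' H2) (hs : ∀ ξ ∈ Lam S, ∀ x ∈ H2, q (X' x) ξ < 0)
    (hG : ∀ g ∈ S.G, ∀ x ∈ H2, X' (g.1 x) = g.2 (X' x)) : ∃ c C : ℝ, 0 < c ∧ 0 < C ∧ ∀ x ∈ H2, ∃ μ : V4 → ℝ,
    (∀ ξ ∈ Lam S, 0 < μ ξ ∧ (c * μ ξ ≤ -q (S.s.X x) ξ ∧ -q (S.s.X x) ξ ≤ C * μ ξ) ∧
      (c * μ ξ ≤ -q (X' x) ξ ∧ -q (X' x) ξ ≤ C * μ ξ)) ∧
    ∀ ξ₁ ∈ Lam S, ∀ ξ₂ ∈ Lam S, -q ξ₁ ξ₂ ≤ C * μ ξ₁ * μ ξ₂ := by
  obtain ⟨c1, C1, hc1, hC1, h1⟩ := unif6_one S S.s.X S.g.contX fun x hx ξ hξ => Lam_strict6 S hξ hx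
  obtain ⟨c2, C2, hc2, hC2, h2⟩ := unif6_one S X' hc fun x hx ξ hξ => hs ξ hξ x hx
  obtain ⟨c, hcd⟩ : ∃ c, c = min c1 c2 := ⟨_, rfl⟩
  obtain ⟨C, hCd⟩ : ∃ C, C = max (max C1 C2) 4 := ⟨_, rfl⟩
  have d1 : c ≤ c1 := hcd ▸ min_le_left _ _
  have d2 : c ≤ c2 := hcd ▸ min_le_right _ _
  have D1 : C1 ≤ C := hCd ▸ (le_max_left _ _).trans (le_max_left _ _)
  have D2 : C2 ≤ C := hCd ▸ (le_max_right _ _).trans (le_max_left _ _)
  have D5 : 4 ≤ C := hCd ▸ le_max_right _ _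
  have hc0 : 0 < c := by rw [hcd]; exact lt_min hc1 hc2
  refine ⟨c, C, hc0, by linarith, fun x hx => ?_⟩
  obtain ⟨g, hg, hgF⟩ := S.F_cov x hx
  have hLG : ∀ ξ ∈ Lam S, g.2 ξ ∈ Lam S := (GG6 S hg).1
  have hpos : ∀ ξ ∈ Lam S, 0 < ‖g.2 ξ‖ := fun ξ hξ => norm_pos_iff.mpr (hLG ξ hξ).1
  have key : ∀ (Z : V3 → V4) (_ : Z (g.1 x) = g.2 (Z x)) (ci Ci : ℝ) (_ : c ≤ ci) (_ : Ci ≤ C)
      (_ : ∀ y ∈ S.F, ∀ ξ ∈ unif6K S, ci ≤ -q (Z y) ξ ∧ -q (Z y) ξ ≤ Ci), ∀ ξ ∈ Lam S,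
      c * ‖g.2 ξ‖ ≤ -q (Z x) ξ ∧ -q (Z x) ξ ≤ C * ‖g.2 ξ‖ := by
    intro Z hZ ci Ci hci hCi hb ξ hξ
    have hp := hpos ξ hξ
    have hL := hLG ξ hξ
    have hL' := Lam_smul6 S hL (inv_pos.mpr hp)
    have hK : ‖g.2 ξ‖⁻¹ • g.2 ξ ∈ unif6K S := by
      refine ⟨?_, hL'.2.1, hL'.2.2⟩
      rw [norm_smul, norm_inv, norm_norm, inv_mul_cancel₀ hp.ne']
    have e : -q (Z x) ξ = ‖g.2 ξ‖ * (-q (Z (g.1 x)) (‖g.2 ξ‖⁻¹ • g.2 ξ)) := by
      rw [unif6_q_smul_right, hZ, S.G_q g hg]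
      field_simp
    have hb' := hb _ hgF _ hK
    rw [e]
    constructor
    · have := mul_le_mul_of_nonneg_left (hci.trans hb'.1) hp.le
      linarith
    · have := mul_le_mul_of_nonneg_left (hb'.2.trans hCi) hp.le
      linarith
  refine ⟨fun ξ => ‖g.2 ξ‖, fun ξ hξ => ⟨hpos ξ hξ, key S.s.X (S.G_X g hg x hx) c1 C1 d1 D1 h1 ξ hξ,
    key X' (hG g hg x hx) c2 C2 d2 D2 h2 ξ hξ⟩, fun ξ₁ hξ₁ ξ₂ hξ₂ => ?_⟩
  rw [← S.G_q g hg]
  have hb := q_bound (g.2 ξ₁) (g.2 ξ₂)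
  have hn : -q (g.2 ξ₁) (g.2 ξ₂) ≤ |q (g.2 ξ₁) (g.2 ξ₂)| := neg_le_abs _
  have hmul : 4 * ‖g.2 ξ₁‖ * ‖g.2 ξ₂‖ ≤ C * ‖g.2 ξ₁‖ * ‖g.2 ξ₂‖ := by
    have := mul_le_mul_of_nonneg_right D5 (mul_nonneg (norm_nonneg (g.2 ξ₁)) (norm_nonneg (g.2 ξ₂)))
    linarith
  linarith

end A_unif6

alias unif6 := A_unif6.unif6

namespace A_flow6

/- Proof:
unif6 with X' = S.s.X (S.g.contX, Lam_strict6, S.G_X): -q (X x)(xi1+xi2) >= c (mu xi1 + mu xi2) >= 2 c sqrt(mu xi1 mu xi2) >= 2 c sqrt(1/(2 C)) since 1/2 = -q xi1 xi2 <= C mu xi1 mu xi2.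
-/
theorem flow6 (S : CS) : ∃ c₀ : ℝ, 0 < c₀ ∧ ∀ ξ₁ ∈ Lam S, ∀ ξ₂ ∈ Lam S, q ξ₁ ξ₂ = -1/2 →
    ∀ x ∈ H2, c₀ ≤ -q (S.s.X x) (ξ₁ + ξ₂) := by
  obtain ⟨c, C, hc, hC, h⟩ := unif6 S (X' := S.s.X) S.g.contX (fun ξ hξ x hx => Lam_strict6 S hξ hx) S.G_X
  refine ⟨c * Real.sqrt (2 / C), by positivity, fun ξ₁ h1 ξ₂ h2 h12 x hx => ?_⟩
  obtain ⟨μ, hμ, hμ2⟩ := h x hx
  obtain ⟨a1, ⟨a2, _⟩, _⟩ := hμ ξ₁ h1
  obtain ⟨b1, ⟨b2, _⟩, _⟩ := hμ ξ₂ h2
  have h3 := hμ2 ξ₁ h1 ξ₂ h2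
  rw [h12] at h3
  have hq : q (S.s.X x) (ξ₁ + ξ₂) = q (S.s.X x) ξ₁ + q (S.s.X x) ξ₂ := by
    simp only [q, Pi.add_apply]
    ring
  have h4 : Real.sqrt (2 / C) ≤ μ ξ₁ + μ ξ₂ := by
    rw [Real.sqrt_le_left (by positivity), div_le_iff₀ hC]
    nlinarith [sq_nonneg (μ ξ₁ - μ ξ₂)]
  rw [hq]
  have h5 := mul_le_mul_of_nonneg_left h4 hc.le
  linarith

end A_flow6

alias flow6 := A_flow6.flow6

namespace A_nbd6

/- Proof:
Dual_cpt6 with X' = S.s.X, C = 0: for x in F, n in Nr x: n in Dual S (S.g.NN, S.g.supp), q (X x) n = 0, so (n,x) is in a compact set: |n| <= B1. On the compact set nset S x F the continuous function -q (X x) Y is positive (nset_pos6), so >= c2 > 0; for x in F, y in H2, Y = ‖X y‖⁻¹ X y: -q (X x)(X y) >= c2 ‖X y‖. So -q n (X y) <= 4 B1 ‖X y‖ <= (4 B1/c2)(-q (X x)(X y)). For general x in H2 take g in G with g.1 x in F: q n (X y) = q (g.2 n)(X (g.1 y)), g.2 n in Nr (g.1 x) (G_N), q (X x)(X y) = q (X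 (g.1 x))(X (g.1 y)).
-/
theorem nbd6 (S : CS) : ∃ B : ℝ, 0 < B ∧ ∀ x ∈ H2, ∀ n ∈ S.s.Nr x, ∀ y ∈ H2,
    -q n (S.s.X y) ≤ B * -q (S.s.X x) (S.s.X y) := by
  have hsm : ∀ (X Y : V4) (c : ℝ), q X (c • Y) = c * q X Y := by
    intro X Y c; simp only [q, Pi.smul_apply, smul_eq_mul]; ring
  have hsym : ∀ (X Y : V4), q X Y = q Y X := by
    intro X Y; simp only [q]; ring
  rcases S.F.eq_empty_or_nonempty with hF | hF
  · refine ⟨1, one_pos, fun x hx => ?_⟩
    obtain ⟨g, _, hg⟩ := S.F_cov x hx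
    rw [hF] at hg
    exact absurd hg (Set.notMem_empty _)
  have hK1 := Dual_cpt6 S S.g.contX (fun ξ hξ x hx => Lam_strict6 S hξ hx) 0
  obtain ⟨B0, hB0⟩ := (hK1.image continuous_fst).isBounded.exists_norm_le
  obtain ⟨hnc, hnn⟩ := nset_cpt6 S
  have hK2 : IsCompact (nset S ×ˢ S.F) := hnc.prod S.F_cpt
  have hne : (nset S ×ˢ S.F).Nonempty := hnn.prod hF
  have hcont : ContinuousOn (fun p : V4 × V3 => -q (S.s.X p.2) p.1) (nset S ×ˢ S.F) := by
    have h1 : ContinuousOn (fun p : V4 × V3 => (S.s.X p.2, p.1)) (nset S ×ˢ S.F) := by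
      refine ContinuousOn.prodMk ?_ continuousOn_fst
      exact S.g.contX.comp continuousOn_snd (fun p hp => S.F_sub hp.2)
    exact (q_cont.comp_continuousOn h1).neg
  obtain ⟨p0, hp0, hmin⟩ := hK2.exists_isMinOn hne hcont
  set c2 : ℝ := -q (S.s.X p0.2) p0.1 with hc2
  have hc2p : 0 < c2 := by
    have := nset_pos6 S hp0.1 (S.F_sub hp0.2)
    rw [hc2]; linarith
  set B1 : ℝ := |B0| + 1 with hB1
  have hB1p : 0 < B1 := by positivity
  refine ⟨4 * B1 / c2, by positivity, ?_⟩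
  have key : ∀ x ∈ S.F, ∀ n ∈ S.s.Nr x, ∀ y ∈ H2,
      -q n (S.s.X y) ≤ 4 * B1 / c2 * -q (S.s.X x) (S.s.X y) := by
    intro x hx n hn y hy
    have hxH := S.F_sub hx
    have hnK : (n, x) ∈ {p : V4 × V3 | p.1 ∈ Dual S ∧ p.2 ∈ S.F ∧ -0 ≤ q (S.s.X p.2) p.1} := by
      refine ⟨⟨S.g.NN x hxH n hn, fun z hz => ?_⟩, hx, ?_⟩
      · rw [hsym]; exact S.g.supp x hxH n hn z hz
      · show -0 ≤ q (S.s.X x) n
        rw [hsym, S.g.NX x hxH n hn, neg_zero]
    have hnb : ‖n‖ ≤ B1 := by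
      have := hB0 n ⟨(n, x), hnK, rfl⟩
      have h2 := le_abs_self B0
      rw [hB1]; linarith
    have hv : S.s.X y ≠ 0 := by
      intro h
      have := S.g.XX y hy
      rw [h] at this
      simp [q] at this
    have hvp : 0 < ‖S.s.X y‖ := norm_pos_iff.2 hv
    have hYn : ‖S.s.X y‖⁻¹ • S.s.X y ∈ nset S := subset_closure ⟨y, hy, rfl⟩
    have h1 : c2 ≤ -q (S.s.X x) (‖S.s.X y‖⁻¹ • S.s.X y) :=
      hmin (show (‖S.s.X y‖⁻¹ • S.s.X y, x) ∈ nset S ×ˢ S.F from ⟨hYn, hx⟩)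
    rw [hsm] at h1
    have h2 : c2 * ‖S.s.X y‖ ≤ -q (S.s.X x) (S.s.X y) := by
      have h3 := mul_le_mul_of_nonneg_right h1 hvp.le
      have h4 : -(‖S.s.X y‖⁻¹ * q (S.s.X x) (S.s.X y)) * ‖S.s.X y‖
          = -q (S.s.X x) (S.s.X y) := by field_simp
      rw [h4] at h3
      exact h3
    have h5 := q_bound n (S.s.X y)
    have h6 : -q n (S.s.X y) ≤ 4 * B1 * ‖S.s.X y‖ := by
      have h7 : -q n (S.s.X y) ≤ |q n (S.s.X y)| := neg_le_abs _
      have h8 : 4 * ‖n‖ * ‖S.s.X y‖ ≤ 4 * B1 * ‖S.s.X y‖ := by gcongr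
      linarith
    have h9 : 4 * B1 / c2 * (c2 * ‖S.s.X y‖) ≤ 4 * B1 / c2 * -q (S.s.X x) (S.s.X y) :=
      mul_le_mul_of_nonneg_left h2 (by positivity)
    have h10 : 4 * B1 / c2 * (c2 * ‖S.s.X y‖) = 4 * B1 * ‖S.s.X y‖ := by field_simp
    linarith
  intro x hx n hn y hy
  obtain ⟨g, hgG, hgF⟩ := S.F_cov x hx
  have h := key (g.1 x) hgF (g.2 n) (S.G_N g hgG x hx n hn) (g.1 y) (S.G_H2 g hgG y hy)
  rw [S.G_X g hgG x hx, S.G_X g hgG y hy, S.G_q g hgG, S.G_q g hgG] at h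
  exact h

end A_nbd6

alias nbd6 := A_nbd6.nbd6

namespace A_dec6

/- Proof:
B0 from nbd6. Let x, y in H2, X = X x, C = -q X (X y) >= 1 (chord), take n in Nr x (ne). P = X y - C X: q X P = -C + C = 0, q P P = C^2 - 1. cover with W = n (q n n = -1, q X n = 0): P = a zeta + tau n, a >= 0, zeta in Dr x. dir: there is n1 in Nr x with q n1 zeta = 0: q n1 P = q n1 (X y) <= 0 (supp) = tau q n1 n, and q n1 n < 0 (same), so tau >= 0. k = q n zeta <= 0 (dirn6). q n P = a k - tau so tau = a k - q n P <= -q n P = -q n (X y) <= B0 C. a^2 = q (P - tau n)(P - tau n) = q P P - 2 tau q P n - tau^2 <= C^2 + 2 B0 C * B0 C. So a <= (1 + 2 B0) C (since (1+2B0)^2 >= 1 + 2 B0^2).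
-/
theorem dec6 (S : CS) : ∃ B : ℝ, 0 < B ∧ ∀ x ∈ H2, ∀ y ∈ H2, ∃ ζ ∈ S.s.Dr x, ∃ n ∈ S.s.Nr x, ∃ a τ : ℝ, 0 ≤ a ∧ 0 ≤ τ ∧
    S.s.X y = (-q (S.s.X x) (S.s.X y)) • S.s.X x + a • ζ + τ • n ∧ a ≤ B * -q (S.s.X x) (S.s.X y) := by
  obtain ⟨B0, hB0, hb⟩ := nbd6 S
  refine ⟨1 + 2 * B0, by positivity, fun x hx y hy => ?_⟩
  have qcomm : ∀ U V : V4, q U V = q V U := fun U V => by unfold q; ring
  have qadd : ∀ U V W : V4, q U (V + W) = q U V + q U W := fun U V W => by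
    simp only [q, Pi.add_apply]; ring
  have qsmul : ∀ (U V : V4) (t : ℝ), q U (t • V) = t * q U V := fun U V t => by
    simp only [q, Pi.smul_apply, smul_eq_mul]; ring
  obtain ⟨n, hn⟩ := S.g.ne x hx
  set X := S.s.X x with hX
  set Y := S.s.X y with hY
  have hC : q X Y ≤ -1 := S.g.chord x hx y hy
  have hXX : q X X = -1 := S.g.XX x hx
  have hYY : q Y Y = -1 := S.g.XX y hy
  have hnn : q n n = -1 := S.g.NN x hx n hn
  have hnX : q n X = 0 := S.g.NX x hx n hn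
  set P : V4 := Y + (q X Y) • X with hP
  have hXP : q X P = 0 := by rw [hP, qadd, qsmul, hXX]; ring
  obtain ⟨a, τ, ζ, hζ, ha, hPa⟩ := S.g.cover x hx n (by rw [hnn]; norm_num) (by rw [← hX, qcomm, hnX]) P
    hXP
  obtain ⟨hζζ, hXζ, ⟨n1, hn1, hn1ζ⟩, -⟩ := S.g.dir x hx ζ hζ
  have hn1X : q n1 X = 0 := S.g.NX x hx n1 hn1
  have hn1P : q n1 P = q n1 Y := by rw [hP, qadd, qsmul, hn1X]; ring
  have hn1P' : q n1 P = τ * q n1 n := by rw [hPa, qadd, qsmul, qsmul, hn1ζ]; ring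
  have hs1 : q n1 Y ≤ 0 := S.g.supp x hx n1 hn1 y hy
  have hn1n : q n1 n < 0 := S.g.same x hx n1 hn1 n hn
  have hτ : 0 ≤ τ := by
    by_contra h
    push Not at h
    have := mul_pos_of_neg_of_neg h hn1n
    linarith
  have hk : q n ζ ≤ 0 := dirn6 S.g hx hn hζ
  have hnP : q n P = q n Y := by rw [hP, qadd, qsmul, hnX]; ring
  have hnP' : q n P = a * q n ζ - τ := by rw [hPa, qadd, qsmul, qsmul, hnn]; ring
  have hnb : -q n Y ≤ B0 * -q X Y := hb x hx n hn y hy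
  have hak : a * q n ζ ≤ 0 := mul_nonpos_of_nonneg_of_nonpos ha hk
  have hτ2 : τ ≤ B0 * -q X Y := by linarith
  have hPP : q P P = (q X Y) ^ 2 - 1 := by
    have e1 : q P P = q P Y + q X Y * q P X := by
      conv_lhs => rw [hP]
      rw [← hP, qadd, qsmul]
    have e2 : q P X = 0 := by rw [qcomm, hXP]
    have e3 : q P Y = q Y P := qcomm _ _
    rw [e1, e2, e3, hP, qadd, qsmul, hYY, qcomm Y X]
    ring
  have ha2 : a ^ 2 = q P P - 2 * τ * q n P - τ ^ 2 := by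
    have e1 : q P P = a * (a * q ζ ζ + τ * q n ζ) + τ * q n P := by
      have e4 : q P P = q P (a • ζ + τ • n) := by rw [← hPa]
      rw [e4, qadd, qsmul, qsmul, qcomm P n, qcomm P ζ, hPa, qadd, qsmul, qsmul, qcomm ζ n]
    rw [hζζ] at e1
    have e5 : a * q n ζ = q n P + τ := by linarith
    have e6 : q P P = a ^ 2 + τ * (a * q n ζ) + τ * q n P := by rw [e1]; ring
    rw [e5] at e6
    linarith [e6, sq τ]
  have hCn : 0 < -q X Y := by linarith
  have hb2 : a ^ 2 ≤ ((1 + 2 * B0) * -q X Y) ^ 2 := by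
    have e1 : -(2 * τ * q n P) ≤ 2 * (B0 * -q X Y) * (B0 * -q X Y) := by
      have h1 : 0 ≤ -q n P := by rw [hnP]; linarith [S.g.supp x hx n hn y hy]
      have h2 : -q n P ≤ B0 * -q X Y := by rw [hnP]; exact hnb
      have h3 : τ * -q n P ≤ (B0 * -q X Y) * (B0 * -q X Y) :=
        mul_le_mul hτ2 h2 h1 (by positivity)
      linarith
    have e2 : a ^ 2 ≤ (q X Y) ^ 2 + 2 * (B0 * -q X Y) * (B0 * -q X Y) := by
      rw [ha2, hPP]
      nlinarith [sq_nonneg τ]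
    have e3 : (q X Y) ^ 2 + 2 * (B0 * -q X Y) * (B0 * -q X Y) ≤ ((1 + 2 * B0) * -q X Y) ^ 2 := by
      have : ((1 + 2 * B0) * -q X Y) ^ 2 - ((q X Y) ^ 2 + 2 * (B0 * -q X Y) * (B0 * -q X Y)) =
          (4 * B0 + 2 * B0 ^ 2) * (q X Y) ^ 2 := by ring
      have h4 : 0 ≤ (4 * B0 + 2 * B0 ^ 2) * (q X Y) ^ 2 := by positivity
      linarith
    exact e2.trans e3
  have hfin : a ≤ (1 + 2 * B0) * -q X Y := by
    have h0 : 0 ≤ (1 + 2 * B0) * -q X Y := by positivity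
    exact abs_le_of_sq_le_sq' hb2 h0 |>.2
  refine ⟨ζ, hζ, n, hn, a, τ, ha, hτ, ?_, hfin⟩
  have h9 : Y = (-q X Y) • X + P := by
    have : P = Y + (q X Y) • X := hP
    rw [this]; module
  rw [hPa, ← add_assoc] at h9
  exact h9

end A_dec6

alias dec6 := A_dec6.dec6

namespace A_growth6

theorem growth6 (S : CS) : ∃ c₁ : ℝ, 0 < c₁ ∧ ∀ ξ₁ ∈ Lam S, ∀ ξ₂ ∈ Lam S, q ξ₁ ξ₂ = -1/2 →
    ∃ z ∈ H2, ∀ x ∈ H2, ∀ d : ℝ, 0 ≤ d → -eta z x = Real.cosh d →
      c₁ * Real.cosh (S.c * d) ≤ -q (S.s.X x) (ξ₁ + ξ₂) := by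
  have qcomm : ∀ X Y : V4, q X Y = q Y X := fun X Y => by unfold q; ring
  have qlin : ∀ (A B D Y : V4) (a b c : ℝ),
      q (a • A + b • B + c • D) Y = a * q A Y + b * q B Y + c * q D Y := by
    intro A B D Y a b c
    unfold q
    simp only [Pi.add_apply, Pi.smul_apply, smul_eq_mul]
    ring
  have qadd : ∀ A B D : V4, q A (B + D) = q A B + q A D := by
    intro A B D
    unfold q
    simp only [Pi.add_apply]
    ring
  obtain ⟨c₀, hc₀, hflow⟩ := flow6 S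
  obtain ⟨B, hB, hdec⟩ := dec6 S
  refine ⟨c₀ / 2, half_pos hc₀, fun ξ₁ h1 ξ₂ h2 h12 => ?_⟩
  have he : 0 < c₀ / (2 * B) := by positivity
  have hZ : ∀ x ∈ H2, q (S.s.X x) (ξ₁ + ξ₂) ≤ 0 := fun x hx => by
    rw [qadd]
    exact add_nonpos (h1.2.2 x hx) (h2.2.2 x hx)
  obtain ⟨z, hz, hζ, -⟩ := near6 S.g hZ he
  refine ⟨z, hz, fun x hx d hd hxd => ?_⟩
  obtain ⟨ζ, hζD, n, hn, a, τ, ha, hτ, hXx, haB⟩ := hdec z hz x hx
  have hch := chord6 S.g hz hx hd hxd
  have hfl := hflow ξ₁ h1 ξ₂ h2 h12 z hz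
  have hζγ := hζ ζ hζD
  have hW : ∀ y ∈ H2, q (S.s.X y) n ≤ 0 := fun y hy => by
    rw [qcomm]
    exact S.g.supp z hz n hn y hy
  have hn1 := lam_supp6 S h1 hW
  have hn2 := lam_supp6 S h2 hW
  have hnγ : q n (ξ₁ + ξ₂) ≤ 0 := by
    rw [qadd, qcomm n ξ₁, qcomm n ξ₂]
    exact add_nonpos hn1 hn2
  have hexp : q (S.s.X x) (ξ₁ + ξ₂) = (-q (S.s.X z) (S.s.X x)) * q (S.s.X z) (ξ₁ + ξ₂)
      + a * q ζ (ξ₁ + ξ₂) + τ * q n (ξ₁ + ξ₂) := by
    rw [← qlin, ← hXx]
  rw [hexp]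
  set C := -q (S.s.X z) (S.s.X x) with hC
  have hC0 : 0 < C := lt_of_lt_of_le (Real.cosh_pos _) hch
  have k1 : C * q (S.s.X z) (ξ₁ + ξ₂) ≤ C * (-c₀) :=
    mul_le_mul_of_nonneg_left (by linarith) hC0.le
  have k2 : a * q ζ (ξ₁ + ξ₂) ≤ a * (c₀ / (2 * B)) := mul_le_mul_of_nonneg_left hζγ ha
  have k3 : a * (c₀ / (2 * B)) ≤ (B * C) * (c₀ / (2 * B)) := mul_le_mul_of_nonneg_right haB he.le
  have k4 : (B * C) * (c₀ / (2 * B)) = C * c₀ / 2 := by
    field_simp
  have k5 : τ * q n (ξ₁ + ξ₂) ≤ 0 := mul_nonpos_of_nonneg_of_nonpos hτ hnγ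
  have k6 : c₀ / 2 * Real.cosh (S.c * d) ≤ c₀ / 2 * C :=
    mul_le_mul_of_nonneg_left hch (by positivity)
  linarith

end A_growth6

alias growth6 := A_growth6.growth6

namespace A_proper6

/- Proof:
growth6 gives z with c1 cosh(c d(z,x)) <= -q (X x)(xi1 + xi2) <= R, which bounds d(z,x) by a constant D (cosh r >= r), hence -eta x0 x <= cosh(d(x0,z) + D) (H2_triangle).
-/
theorem proper6 (S : CS) {ξ₁ ξ₂ : V4} (h₁ : ξ₁ ∈ Lam S) (h₂ : ξ₂ ∈ Lam S) (h : q ξ₁ ξ₂ = -1/2)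
    {x₀ : V3} (hx₀ : x₀ ∈ H2) (R : ℝ) :
    ∃ R' : ℝ, ∀ x ∈ H2, -q (S.s.X x) (ξ₁ + ξ₂) ≤ R → -eta x₀ x ≤ R' := by
  obtain ⟨c₁, hc₁, hgr⟩ := growth6 S
  obtain ⟨z, hz, hzx⟩ := hgr ξ₁ h₁ ξ₂ h₂ h
  have hc := S.g.c_pos
  obtain ⟨d₀, v₀, hd₀, hv₀, he₀⟩ := exists_geo hx₀ hz
  have h0 : -eta x₀ z = Real.cosh d₀ := by rw [← he₀, eta_geo hx₀ hv₀, neg_neg]
  refine ⟨Real.cosh (d₀ + max 0 (R / (c₁ * S.c))), fun x hx hR => ?_⟩
  obtain ⟨d, v, hd, hv, he⟩ := exists_geo hz hx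
  have h1 : -eta z x = Real.cosh d := by rw [← he, eta_geo hz hv, neg_neg]
  have h2 := (hzx x hx d hd h1).trans hR
  have h3 : S.c * d ≤ Real.cosh (S.c * d) :=
    (Real.self_le_sinh_iff.2 (mul_nonneg hc.le hd)).trans (Real.sinh_lt_cosh _).le
  have h4 : d ≤ R / (c₁ * S.c) := by
    rw [le_div_iff₀ (mul_pos hc₁ hc)]
    nlinarith
  have h5 : d ≤ max 0 (R / (c₁ * S.c)) := h4.trans (le_max_right _ _)
  refine H2_triangle hx₀ hz hx hd₀ (le_max_left _ _) h0.le ?_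
  rw [h1]
  exact Real.cosh_le_cosh.2 (by rwa [abs_of_nonneg hd, abs_of_nonneg (le_max_left _ _)])

end A_proper6

alias proper6 := A_proper6.proper6

namespace A_opp_one6

/- Proof:
For y in H2: orient6 with Y0 = X x, Y1 = X y (q (X x)(X y) <= -1 < 1 by chord; q (X .) xi < 0 by Lam_strict6): omega (X x)(vv ..) and omega (X y)(vv ..) have the same strict sign.
-/
theorem opp_one6 (S : CS) {N ξ : V4} (hN : q N N = -1) (hξ : ξ ∈ Lam S) (h0 : q ξ N = 0) {x : V3} (hx : x ∈ H2)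
    (h : S.o * omega (S.s.X x) (vv (S.s.X x) N ξ) < 0) : Opp S N ξ := by
  intro y hy
  have hch := S.g.chord x hx y hy
  have h1 := orient6 (N := N) (ξ := ξ) (S.g.XX x hx) (S.g.XX y hy) (by linarith) hξ.2.1 h0 hN
    (Lam_strict6 S hξ hx) (Lam_strict6 S hξ hy)
  rcases S.o_cases with ho | ho
  · rw [ho] at h ⊢
    nlinarith
  · rw [ho] at h ⊢
    nlinarith

end A_opp_one6

alias opp_one6 := A_opp_one6.opp_one6

namespace A_Opp_G6

/- Proof:
First claim: let x in H2, x' = g.1.symm x in H2 (G_inv, G_H2), X x = g.2 (X x') (G_X). vv (g.2 Y)(g.2 N)(g.2 xi) = g.2 (vv Y N xi) (G_q, linearity). V = vv (X x') N xi is orthogonal to X x' and timelike: q V V = -(q (X x') xi)^2 < 0 (vvprops, Lam_strict6). By hypothesis S.o * omega (X x') V < 0. G_time applied to (X x', V) or (X x', -V) shows that omega (g.2 (X x'))(g.2 V) has the same sign as omega (X x') V. Second claim: vv Y N (t xi) = t vv Y N xi.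
-/
theorem Opp_G6 (S : CS) {N ξ : V4} (hN : q N N = -1) (hξ : ξ ∈ Lam S) (h0 : q ξ N = 0) (h : Opp S N ξ) :
    (∀ g ∈ S.G, Opp S (g.2 N) (g.2 ξ)) ∧ ∀ t : ℝ, 0 < t → Opp S N (t • ξ) := by
  have hξξ : q ξ ξ = 0 := hξ.2.1
  have qcomm : ∀ A B : V4, q A B = q B A := fun A B => by unfold q; ring
  have qneg : ∀ A B : V4, q A (-B) = -q A B := fun A B => by unfold q; simp; ring
  have qneg' : ∀ A B : V4, q (-A) B = -q A B := fun A B => by unfold q; simp; ring
  have omneg : ∀ A B : V4, omega A (-B) = -omega A B := fun A B => by unfold omega; simp; ring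
  have qsmul : ∀ (t : ℝ) (A B : V4), q A (t • B) = t * q A B := fun t A B => by
    unfold q; simp; ring
  have omsmul : ∀ (t : ℝ) (A B : V4), omega A (t • B) = t * omega A B := fun t A B => by
    unfold omega; simp; ring
  refine ⟨?_, ?_⟩
  · intro g hg x hx
    have hg' := S.G_inv g hg
    have hx' : g.1.symm x ∈ H2 := S.G_H2 _ hg' x hx
    have hXx : S.s.X x = g.2 (S.s.X (g.1.symm x)) := by
      have := S.G_X g hg _ hx'
      rwa [LinearEquiv.apply_symm_apply] at this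
    set x' := g.1.symm x with hx'def
    have hvv : vv (S.s.X x) (g.2 N) (g.2 ξ) = g.2 (vv (S.s.X x') N ξ) := by
      unfold vv
      rw [hXx, S.G_q g hg, S.G_q g hg, map_add, map_smul, map_smul]
    have hp := vvprops (Y := S.s.X x') hξξ h0 hN
    set V := vv (S.s.X x') N ξ with hV
    have hlt : q (S.s.X x') ξ < 0 := Lam_strict6 S hξ hx'
    have hVV : q V V < 0 := by
      rw [hp.2]
      have : 0 < q (S.s.X x') ξ ^ 2 := by nlinarith
      linarith
    have hXX : q (S.s.X x') (S.s.X x') < 0 := by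
      rw [S.g.XX x' hx']; norm_num
    have hV0 := h x' hx'
    rw [← hV] at hV0
    rw [hvv, hXx]
    rcases S.o_cases with ho | ho
    · rw [ho] at hV0 ⊢
      have h1 : 0 < omega (S.s.X x') (-V) := by rw [omneg]; linarith
      have h2 := S.G_time g hg (S.s.X x') (-V) hXX (by rw [qneg, qneg']; linarith)
        (by rw [qneg, hp.1]; ring) h1
      rw [map_neg, omneg] at h2
      linarith
    · rw [ho] at hV0 ⊢
      have h1 : 0 < omega (S.s.X x') V := by linarith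
      have h2 := S.G_time g hg (S.s.X x') V hXX hVV hp.1 h1
      linarith
  · intro t ht x hx
    have h1 := h x hx
    have h2 : vv (S.s.X x) N (t • ξ) = t • vv (S.s.X x) N ξ := by
      unfold vv
      rw [qsmul, smul_add, smul_smul, smul_smul, smul_smul]
      congr 1
      · congr 1; ring
      · congr 1; ring
    rw [h2, omsmul]
    have h3 : S.o * (t * omega (S.s.X x) (vv (S.s.X x) N ξ)) =
      t * (S.o * omega (S.s.X x) (vv (S.s.X x) N ξ)) := by ring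
    rw [h3]
    exact mul_neg_of_pos_of_neg ht h1

end A_Opp_G6

alias Opp_G6 := A_Opp_G6.Opp_G6

namespace A_oppn6

/- Proof:
Let X = X x, V = vv X M xi = (-(q X xi)) M + (q X M) xi, w = -q X xi > 0 (Lam_strict6). vvprops: q X V = 0, q V V = -w^2 < 0. n in Nr x: q n n = -1, q n X = 0, 0 < S.o * omega X n (S.ori). Opp: S.o * omega X V < 0. So omega X n * omega X V < 0 (S.o = ±1), so not 0 < omega X n * omega X V; timeq (A = X, U = n, V): q n V >= 0, and q n V ≠ 0 (revCS (ii): timelike n cannot be orthogonal to timelike V: Z = n, W = V gives n = 0). So q n V > 0.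
Case q X M >= 0: q n V = w q n M + q X M * q n xi > 0 and q n xi <= 0 (lam_supp6 with W = n, B = 0, S.g.supp; symmetric), so w q n M > 0.
Case -1 < q X M < 0: P = M + (q X M) X: q X P = 0, q P P = -1 + (q X M)^2 < 0. q P V = q M V (q X V = 0) = w q M M + q X M q M xi = -w < 0. So P and V are in the same time cone: if q n P <= 0 then revCS (iii) with A = X, W := V, Z = n, U = P (q X P = 0, q P P < 0, q P V < 0, q n P <= 0, q n n <= 0) gives q n V <= 0, contradiction. So q n P > 0, and q n M = q n P (q n X = 0).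
-/
theorem oppn6 (S : CS) {M ξ : V4} (hM : q M M = -1) (hξ : ξ ∈ Lam S) (h0 : q ξ M = 0) (hO : Opp S M ξ)
    {x : V3} (hx : x ∈ H2) (hu : -1 < q (S.s.X x) M) {n : V4} (hn : n ∈ S.s.Nr x) : 0 < q n M := by
  have hsym : ∀ (A B : V4), q A B = q B A := by
    intro A B; simp only [q]; ring
  have hadd : ∀ (A B C : V4), q A (B + C) = q A B + q A C := by
    intro A B C; simp only [q, Pi.add_apply]; ring
  have hsm : ∀ (A B : V4) (c : ℝ), q A (c • B) = c * q A B := by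
    intro A B c; simp only [q, Pi.smul_apply, smul_eq_mul]; ring
  set X := S.s.X x with hX
  have hXX : q X X = -1 := S.g.XX x hx
  have hXξ : q X ξ < 0 := Lam_strict6 S hξ hx
  have hξξ : q ξ ξ = 0 := hξ.2.1
  obtain ⟨hXV, hVV⟩ := vvprops (Y := X) hξξ h0 hM
  set V := vv X M ξ with hV
  have hVV' : q V V < 0 := by rw [hVV]; nlinarith
  have hnn : q n n = -1 := S.g.NN x hx n hn
  have hnX : q n X = 0 := S.g.NX x hx n hn
  have hXn : q X n = 0 := by rw [hsym]; exact hnX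
  have hori : 0 < S.o * omega X n := S.ori x hx n hn
  have hopp : S.o * omega X V < 0 := hO x hx
  have hprod : omega X n * omega X V < 0 := by
    have h1 : (S.o * omega X n) * (S.o * omega X V) < 0 := mul_neg_of_pos_of_neg hori hopp
    rcases S.o_cases with h | h
    · rw [h] at h1; linarith
    · rw [h] at h1; linarith
  have hA : q X X < 0 := by rw [hXX]; norm_num
  have hnV0 : ¬ q n V < 0 := by
    intro h
    have := (timeq hA hXn hXV (by rw [hnn]; norm_num) hVV').2 h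
    linarith
  have hnVne : q n V ≠ 0 := by
    intro h
    have h1 := (revCS hA hVV' hXV hXn).2.1 (by rw [hnn]; norm_num) h
    rw [h1] at hnn
    simp [q] at hnn
  have hnV : 0 < q n V := lt_of_le_of_ne (not_lt.1 hnV0) (Ne.symm hnVne)
  have hVe : V = (-(q X ξ)) • M + (q X M) • ξ := rfl
  have hnVe : q n V = -(q X ξ) * q n M + q X M * q n ξ := by
    rw [hVe, hadd, hsm, hsm]
  rcases le_or_gt 0 (q X M) with hu0 | hu0
  · have h1 : q ξ n ≤ 0 := lam_supp6 S hξ (W := n) (B := 0) (fun y hy => by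
      rw [hsym]; exact S.g.supp x hx n hn y hy)
    have h2 : q n ξ ≤ 0 := by rw [hsym]; exact h1
    rw [hnVe] at hnV
    have h3 : q X M * q n ξ ≤ 0 := mul_nonpos_of_nonneg_of_nonpos hu0 h2
    have h4 : 0 < -(q X ξ) * q n M := by linarith
    have h5 : 0 < -(q X ξ) := by linarith
    by_contra hcon
    push Not at hcon
    have := mul_nonpos_of_nonneg_of_nonpos h5.le hcon
    linarith
  · set P : V4 := M + (q X M) • X with hP
    have hXP : q X P = 0 := by rw [hP, hadd, hsm, hXX]; ring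
    have hMP : q M P = -1 + (q X M) ^ 2 := by
      rw [hP, hadd, hsm, hM, hsym M X]; ring
    have hPP : q P P = -1 + (q X M) ^ 2 := by
      have : q P P = q P M + q X M * q P X := by
        conv_lhs => rw [show q P P = q P (M + (q X M) • X) from rfl, hadd, hsm]
      rw [this, hsym P M, hMP, hsym P X, hXP]; ring
    have hPP' : q P P < 0 := by rw [hPP]; nlinarith
    have hMV : q M V = q X ξ := by
      rw [hVe, hadd, hsm, hsm, hM, hsym M ξ, h0]; ring
    have hPV : q P V < 0 := by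
      have : q P V = q V M + q X M * q V X := by
        rw [hsym P V, hP, hadd, hsm]
      rw [this, hsym V M, hMV, hsym V X, hXV]; linarith
    have hnP : q n P = q n M := by
      rw [hP, hadd, hsm, hnX]; ring
    by_contra hcon
    push Not at hcon
    have h1 := (revCS hA hVV' hXV hXn).2.2 (by rw [hnn]; norm_num) P hXP hPP' hPV
      (by rw [hnP]; exact hcon)
    linarith

end A_oppn6

alias oppn6 := A_oppn6.oppn6

end Helper935.Poly
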