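import Pool.Agent.Helper935_AdS.PBase

namespace Helper935.Poly

namespace A_planar_cover

/- Proof:
Write D i = a i * v - b i * u and P i = a i * u + b i * v. Identity: P i * D (i+1) - P (i+1) * D i = -(u^2+v^2) * (a i * b (i+1) - b i * a (i+1)) < 0 (expand). Suppose the claim fails. Then for every i (by periodicity for all i, not only i < k): D i >= 0 implies D (i+1) >= 0 (because 0 < u b(i+1) - v a(i+1) means D (i+1) < 0). So either D i >= 0 for all i (if D i0 >= 0 then for all i >= i0, hence for all i by periodicity) or D i < 0 for all i.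
Case D i < 0 for all i: dividing the identity by D i D (i+1) > 0: P i / D i < P (i+1) / D (i+1) for all i, so the sequence P/D is strictly increasing, but it has period k: contradiction.
Case all D i > 0: same. Case all D i >= 0 and some D i = 0 (take i >= 1, by periodicity; i = i' + 1): the identity at i gives P i * D (i+1) < 0 so P i < 0 (D (i+1) >= 0); the identity at i-1 gives -P i * D (i-1) < 0 so P i > 0. Contradiction.
-/
theorem planar_cover {k : ℕ} (hk : 0 < k) {a b : ℕ → ℝ} (ha : ∀ i, a (i + k) = a i) (hb : ∀ i, b (i + k) = b i)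
    (hd : ∀ i, 0 < a i * b (i + 1) - b i * a (i + 1)) {u v : ℝ} (huv : u ≠ 0 ∨ v ≠ 0) :
    ∃ i < k, 0 ≤ a i * v - b i * u ∧ 0 < u * b (i + 1) - v * a (i + 1) := by
  by_contra hcon
  push Not at hcon
  have huv2 : 0 < u ^ 2 + v ^ 2 := by
    rcases huv with h | h
    · have := sq_nonneg v
      have h2 : 0 < u ^ 2 := by positivity
      linarith
    · have := sq_nonneg u
      have h2 : 0 < v ^ 2 := by positivity
      linarith
  obtain ⟨D, hD⟩ : ∃ D : ℕ → ℝ, ∀ i, D i = a i * v - b i * u := ⟨_, fun _ => rfl⟩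
  obtain ⟨P, hP⟩ : ∃ P : ℕ → ℝ, ∀ i, P i = a i * u + b i * v := ⟨_, fun _ => rfl⟩
  have hid : ∀ i, P i * D (i + 1) < P (i + 1) * D i := by
    intro i
    have h1 : P i * D (i + 1) - P (i + 1) * D i =
        -((u ^ 2 + v ^ 2) * (a i * b (i + 1) - b i * a (i + 1))) := by
      rw [hP, hP, hD, hD]; ring
    have h2 := mul_pos huv2 (hd i)
    linarith
  have hDp : ∀ i, D (i + k) = D i := fun i => by rw [hD, hD, ha, hb]
  have hPp : ∀ i, P (i + k) = P i := fun i => by rw [hP, hP, ha, hb]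
  have hDm : ∀ m i, D (i + m * k) = D i := by
    intro m
    induction m with
    | zero => intro i; simp
    | succ m ih =>
      intro i
      have : i + (m + 1) * k = (i + m * k) + k := by ring
      rw [this, hDp, ih]
  have hstep : ∀ i, 0 ≤ D i → 0 ≤ D (i + 1) := by
    intro i hi
    have h1 : i = i % k + i / k * k := (Nat.mod_add_div' i k).symm
    have h2 : D (i % k) = D i := by
      conv_rhs => rw [h1]
      rw [hDm]
    have h3 : D (i % k + 1) = D (i + 1) := by
      have h4 : i + 1 = (i % k + 1) + i / k * k := by omega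
      rw [h4, hDm]
    rw [← h2] at hi
    have h5 := hcon (i % k) (Nat.mod_lt _ hk) (by rw [hD] at hi; exact hi)
    rw [← h3, hD]
    linarith
  have hup : ∀ i n, 0 ≤ D i → 0 ≤ D (i + n) := by
    intro i n hi
    induction n with
    | zero => exact hi
    | succ n ih => exact hstep _ ih
  -- strictly monotone ratio
  have hratio : (∀ i, 0 < D i * D (i + 1)) → False := by
    intro h
    have hne : ∀ i, D i ≠ 0 := fun i h0 => by
      have := h i
      rw [h0, zero_mul] at this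
      exact lt_irrefl _ this
    have hmono : StrictMono fun i => P i / D i := by
      refine strictMono_nat_of_lt_succ fun i => ?_
      have h1 : P (i + 1) / D (i + 1) - P i / D i =
          (P (i + 1) * D i - P i * D (i + 1)) / (D i * D (i + 1)) := by
        have e1 := hne i
        have e2 := hne (i + 1)
        field_simp
      have h2 : 0 < (P (i + 1) * D i - P i * D (i + 1)) / (D i * D (i + 1)) :=
        div_pos (by linarith [hid i]) (h i)
      linarith
    have h3 := hmono hk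
    have h4 : P k / D k = P 0 / D 0 := by
      have e1 := hPp 0
      have e2 := hDp 0
      rw [zero_add] at e1 e2
      rw [e1, e2]
    simp only at h3
    rw [h4] at h3
    exact lt_irrefl _ h3
  by_cases hex : ∃ i, 0 ≤ D i
  · obtain ⟨i0, hi0⟩ := hex
    have hall : ∀ i, 0 ≤ D i := by
      intro i
      rw [← hDm i0 i]
      have : i0 ≤ i + i0 * k := by nlinarith
      obtain ⟨n, hn⟩ := Nat.exists_eq_add_of_le this
      rw [hn]
      exact hup i0 n hi0
    by_cases hz : ∃ i, D i = 0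
    · obtain ⟨i, hi⟩ := hz
      obtain ⟨j, hj⟩ : ∃ j, i + k = j + 1 := ⟨i + k - 1, by omega⟩
      have h0 : D (j + 1) = 0 := by rw [← hj, hDp, hi]
      have h1 := hid (j + 1)
      have h2 := hid j
      rw [h0, mul_zero] at h1 h2
      have h3 := hall (j + 1 + 1)
      have h4 := hall j
      have h5 : P (j + 1) < 0 := by
        by_contra hc
        push Not at hc
        have := mul_nonneg hc h3
        linarith
      have h6 : P (j + 1) * D j ≤ 0 := mul_nonpos_of_nonpos_of_nonneg h5.le h4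
      linarith
    · push Not at hz
      exact hratio fun i => mul_pos (lt_of_le_of_ne (hall i) (hz i).symm)
        (lt_of_le_of_ne (hall (i + 1)) (hz (i + 1)).symm)
  · push Not at hex
    exact hratio fun i => mul_pos_of_neg_of_neg (hex i) (hex (i + 1))

end A_planar_cover

alias planar_cover := A_planar_cover.planar_cover

namespace A_angle_sum

/-- cosine and sine of one angle -/
theorem as6_step {a b a' b' : ℝ} (h : 0 < a * b' - b * a') :
    0 < Real.sqrt (a ^ 2 + b ^ 2) ∧ 0 < Real.sqrt (a' ^ 2 + b' ^ 2) ∧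
    0 < Real.arccos ((a * a' + b * b') / (Real.sqrt (a ^ 2 + b ^ 2) * Real.sqrt (a' ^ 2 + b' ^ 2))) ∧
    Real.arccos ((a * a' + b * b') / (Real.sqrt (a ^ 2 + b ^ 2) * Real.sqrt (a' ^ 2 + b' ^ 2))) <
      Real.pi ∧
    Real.cos (Real.arccos ((a * a' + b * b') /
      (Real.sqrt (a ^ 2 + b ^ 2) * Real.sqrt (a' ^ 2 + b' ^ 2)))) =
      (a * a' + b * b') / (Real.sqrt (a ^ 2 + b ^ 2) * Real.sqrt (a' ^ 2 + b' ^ 2)) ∧
    Real.sin (Real.arccos ((a * a' + b * b') /
      (Real.sqrt (a ^ 2 + b ^ 2) * Real.sqrt (a' ^ 2 + b' ^ 2)))) =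
      (a * b' - b * a') / (Real.sqrt (a ^ 2 + b ^ 2) * Real.sqrt (a' ^ 2 + b' ^ 2)) := by
  have h1 : 0 < a ^ 2 + b ^ 2 := by
    by_contra hcon
    have ha : a = 0 := by nlinarith [sq_nonneg a, sq_nonneg b]
    have hb : b = 0 := by nlinarith [sq_nonneg a, sq_nonneg b]
    rw [ha, hb] at h
    simp at h
  have h2 : 0 < a' ^ 2 + b' ^ 2 := by
    by_contra hcon
    have ha : a' = 0 := by nlinarith [sq_nonneg a', sq_nonneg b']
    have hb : b' = 0 := by nlinarith [sq_nonneg a', sq_nonneg b']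
    rw [ha, hb] at h
    simp at h
  have r1 := Real.sqrt_pos.2 h1
  have r2 := Real.sqrt_pos.2 h2
  have q1 := Real.sq_sqrt h1.le
  have q2 := Real.sq_sqrt h2.le
  set r := Real.sqrt (a ^ 2 + b ^ 2) with hr
  set r' := Real.sqrt (a' ^ 2 + b' ^ 2) with hr'
  have hrr : 0 < r * r' := mul_pos r1 r2
  have hS : 0 < (a * b' - b * a') / (r * r') := div_pos h hrr
  have hid : ((a * a' + b * b') / (r * r')) ^ 2 + ((a * b' - b * a') / (r * r')) ^ 2 = 1 := by
    rw [div_pow, div_pow, ← add_div, mul_pow, q1, q2]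
    rw [div_eq_one_iff_eq (by positivity)]
    ring
  set C := (a * a' + b * b') / (r * r') with hC
  set S := (a * b' - b * a') / (r * r') with hSd
  have hC1 : -1 ≤ C := by nlinarith [sq_nonneg S, sq_nonneg (C - 1), sq_nonneg (C + 1)]
  have hC2 : C ≤ 1 := by nlinarith [sq_nonneg S, sq_nonneg (C - 1), sq_nonneg (C + 1)]
  have hcos : Real.cos (Real.arccos C) = C := Real.cos_arccos hC1 hC2
  have hsin : Real.sin (Real.arccos C) = S := by
    rw [Real.sin_arccos]
    have : 1 - C ^ 2 = S ^ 2 := by linarith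
    rw [this, Real.sqrt_sq hS.le]
  refine ⟨r1, r2, ?_, ?_, hcos, hsin⟩
  · rcases (Real.arccos_nonneg C).lt_or_eq with h3 | h3
    · exact h3
    · rw [← h3, Real.sin_zero] at hsin
      linarith
  · rcases (Real.arccos_le_pi C).lt_or_eq with h3 | h3
    · exact h3
    · rw [h3, Real.sin_pi] at hsin
      linarith

/-- polar form of a nonzero vector of the plane -/
theorem as6_polar {a b : ℝ} (h : 0 < Real.sqrt (a ^ 2 + b ^ 2)) :
    ∃ θ : ℝ, a = Real.sqrt (a ^ 2 + b ^ 2) * Real.cos θ ∧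
      b = Real.sqrt (a ^ 2 + b ^ 2) * Real.sin θ := by
  have hn : ‖(⟨a, b⟩ : ℂ)‖ = Real.sqrt (a ^ 2 + b ^ 2) := by
    rw [Complex.norm_def, Complex.normSq_mk]
    congr 1
    ring
  have hne : (⟨a, b⟩ : ℂ) ≠ 0 := by
    intro h0
    rw [h0, norm_zero] at hn
    linarith
  refine ⟨Complex.arg ⟨a, b⟩, ?_, ?_⟩
  · rw [Complex.cos_arg hne, hn]
    field_simp
  · rw [Complex.sin_arg, hn]
    field_simp

/- Proof:
Let p i = a i + b i * I in the complex plane (nonzero because of hd) and z i = p (i+1) / p i. Im z i = (a i b(i+1) - b i a(i+1)) / |p i|^2 > 0, so arg (z i) in (0, pi) and arg (z i) = arccos (Re z i / |z i|) = the i-th summand =: t i. prod_{i<k} z i = p k / p 0 = 1 (telescoping), hence prod exp(I t i) = 1 and sum_{i<k} t i = 2 pi m for an integer m (Complex.exp_eq_one_iff), m >= 1 since all t i > 0 and k > 0. Suppose m >= 2. Let s j = sum_{i<j} t i, so s 0 = 0, s k >= 4 pi, s (j+1) - s j in (0, pi), and p j = |p j| * exp(I (arg p 0 + s j)) (induction).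 Let j be the largest index < k with s j <= 2 pi (j >= 1 because s 1 < pi, if k = 1 impossible), then s (j+1) > 2 pi. Take (u,v) = (a 0, b 0). Sector 0: a 0 * v - b 0 * u = 0 >= 0 and u * b 1 - v * a 1 = a 0 b 1 - b 0 a 1 > 0. Sector j: a j * v - b j * u = |p j||p 0| sin(2 pi - s j) >= 0 (0 <= 2 pi - s j < pi) and u b(j+1) - v a(j+1) = |p 0||p (j+1)| sin(s (j+1) - 2 pi) > 0. By once, 0 = j: contradiction. So m = 1.
-/
theorem angle_sum {k : ℕ} (hk : 0 < k) {a b : ℕ → ℝ} (ha : ∀ i, a (i + k) = a i) (hb : ∀ i, b (i + k) = b i)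
    (hd : ∀ i, 0 < a i * b (i + 1) - b i * a (i + 1))
    (once : ∀ u v : ℝ, ∀ i < k, ∀ i' < k, (0 ≤ a i * v - b i * u ∧ 0 < u * b (i + 1) - v * a (i + 1)) →
      (0 ≤ a i' * v - b i' * u ∧ 0 < u * b (i' + 1) - v * a (i' + 1)) → i = i') :
    ∑ i ∈ Finset.range k, Real.arccos ((a i * a (i + 1) + b i * b (i + 1)) /
      (Real.sqrt (a i ^ 2 + b i ^ 2) * Real.sqrt (a (i + 1) ^ 2 + b (i + 1) ^ 2))) = 2 * Real.pi := by
  set t : ℕ → ℝ := fun i => Real.arccos ((a i * a (i + 1) + b i * b (i + 1)) /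
      (Real.sqrt (a i ^ 2 + b i ^ 2) * Real.sqrt (a (i + 1) ^ 2 + b (i + 1) ^ 2))) with ht
  set r : ℕ → ℝ := fun i => Real.sqrt (a i ^ 2 + b i ^ 2) with hr
  have hr0 : ∀ i, 0 < r i := fun i => (as6_step (hd i)).1
  have ht0 : ∀ i, 0 < t i := fun i => (as6_step (hd i)).2.2.1
  have htp : ∀ i, t i < Real.pi := fun i => (as6_step (hd i)).2.2.2.1
  have htc : ∀ i, Real.cos (t i) = (a i * a (i + 1) + b i * b (i + 1)) / (r i * r (i + 1)) :=
    fun i => (as6_step (hd i)).2.2.2.2.1
  have hts : ∀ i, Real.sin (t i) = (a i * b (i + 1) - b i * a (i + 1)) / (r i * r (i + 1)) :=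
    fun i => (as6_step (hd i)).2.2.2.2.2
  have hrsq : ∀ i, r i ^ 2 = a i ^ 2 + b i ^ 2 := fun i => Real.sq_sqrt (by positivity)
  obtain ⟨θ, hθa, hθb⟩ := as6_polar (hr0 0)
  set s : ℕ → ℝ := fun j => ∑ i ∈ Finset.range j, t i with hs
  have hs0 : s 0 = 0 := by simp [hs]
  have hss : ∀ j, s (j + 1) = s j + t j := fun j => Finset.sum_range_succ _ _
  have hpol : ∀ j, a j = r j * Real.cos (θ + s j) ∧ b j = r j * Real.sin (θ + s j) := by
    intro j
    induction j with
    | zero =>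
      rw [hs0, add_zero]
      exact ⟨hθa, hθb⟩
    | succ j ih =>
      obtain ⟨ih1, ih2⟩ := ih
      have e1 : θ + s (j + 1) = (θ + s j) + t j := by rw [hss]; ring
      have hj := hr0 j
      have hj1 := hr0 (j + 1)
      have c1 : Real.cos (θ + s j) = a j / r j := by
        rw [ih1]
        field_simp
      have c2 : Real.sin (θ + s j) = b j / r j := by
        rw [ih2]
        field_simp
      rw [e1, Real.cos_add (θ + s j) (t j), Real.sin_add (θ + s j) (t j), c1, c2, htc, hts]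
      have hq := hrsq j
      constructor
      · field_simp
        rw [hq]
        ring
      · field_simp
        rw [hq]
        ring
  have hcosk : Real.cos (s k) = 1 := by
    have h1 := hpol k
    have e0 : a (0 + k) = a 0 := ha 0
    have e1 : b (0 + k) = b 0 := hb 0
    rw [zero_add] at e0 e1
    have er : r k = r 0 := by
      simp only [hr]
      rw [e0, e1]
    have h00 := hr0 0
    have c1 : Real.cos (θ + s k) = Real.cos θ := by
      have : r 0 * Real.cos (θ + s k) = r 0 * Real.cos θ := by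
        rw [← er, ← h1.1, e0, er]
        exact hθa
      exact mul_left_cancel₀ h00.ne' this
    have c2 : Real.sin (θ + s k) = Real.sin θ := by
      have : r 0 * Real.sin (θ + s k) = r 0 * Real.sin θ := by
        rw [← er, ← h1.2, e1, er]
        exact hθb
      exact mul_left_cancel₀ h00.ne' this
    have e2 : s k = (θ + s k) - θ := by ring
    rw [e2, Real.cos_sub, c1, c2]
    have := Real.sin_sq_add_cos_sq θ
    linarith [this]
  obtain ⟨m, hm⟩ := (Real.cos_eq_one_iff (s k)).1 hcosk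
  have hpi := Real.pi_pos
  have hsk : 0 < s k := Finset.sum_pos (fun i _ => ht0 i) ⟨0, Finset.mem_range.2 hk⟩
  have hm1 : 1 ≤ m := by
    by_contra hcon
    push Not at hcon
    have h1 : (m : ℝ) ≤ 0 := by exact_mod_cast Int.lt_add_one_iff.1 hcon
    have h2 : (m : ℝ) * (2 * Real.pi) ≤ 0 := mul_nonpos_of_nonpos_of_nonneg h1 (by positivity)
    linarith
  have hm2 : m ≤ 1 := by
    by_contra hcon
    push Not at hcon
    have h1 : (2 : ℝ) ≤ m := by exact_mod_cast hcon
    have h2 : 4 * Real.pi ≤ s k := by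
      rw [← hm]
      nlinarith
    have hex : ∃ j, 2 * Real.pi < s j := ⟨k, by linarith⟩
    classical
    set j' := Nat.find hex with hj'
    have hj1 : 2 * Real.pi < s j' := Nat.find_spec hex
    have hj2 : j' ≤ k := Nat.find_min' hex (by linarith)
    have hj3 : j' ≠ 0 := by
      intro h
      rw [h, hs0] at hj1
      linarith
    obtain ⟨j, hj⟩ := Nat.exists_eq_succ_of_ne_zero hj3
    have hj4 : s j ≤ 2 * Real.pi := by
      have := Nat.find_min hex (m := j) (by omega)
      exact not_lt.1 this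
    rw [hj] at hj1
    have hj5 : s (j + 1) = s j + t j := hss j
    have hj1' : 2 * Real.pi < s (j + 1) := hj1
    have hjne : j ≠ 0 := by
      intro h
      subst h
      rw [hj5, hs0] at hj1'
      linarith [htp 0]
    have hjk : j < k := by omega
    have hpj := htp j
    have hsj : Real.pi < s j := by linarith
    have sg1 : Real.sin (s j) ≤ 0 := by
      have e : s j = (s j - 2 * Real.pi) + 2 * Real.pi := by ring
      rw [e, Real.sin_add_two_pi]
      exact Real.sin_nonpos_of_nonpos_of_neg_pi_le (by linarith) (by linarith)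
    have sg2 : 0 < Real.sin (s (j + 1)) := by
      have e : s (j + 1) = (s (j + 1) - 2 * Real.pi) + 2 * Real.pi := by ring
      rw [e, Real.sin_add_two_pi]
      exact Real.sin_pos_of_pos_of_lt_pi (by linarith) (by linarith)
    have e1 : a j * b 0 - b j * a 0 = -(r j * r 0 * Real.sin (s j)) := by
      have h3 := hpol j
      have e2 : Real.sin (s j) = Real.sin (θ + s j) * Real.cos θ - Real.cos (θ + s j) * Real.sin θ := by
        rw [← Real.sin_sub]
        congr 1
        ring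
      rw [e2]
      have hA : a 0 = r 0 * Real.cos θ := hθa
      have hB : b 0 = r 0 * Real.sin θ := hθb
      rw [hA, hB, h3.1, h3.2]
      ring
    have e2 : a 0 * b (j + 1) - b 0 * a (j + 1) = r 0 * r (j + 1) * Real.sin (s (j + 1)) := by
      have h3 := hpol (j + 1)
      have e2 : Real.sin (s (j + 1)) = Real.sin (θ + s (j + 1)) * Real.cos θ -
          Real.cos (θ + s (j + 1)) * Real.sin θ := by
        rw [← Real.sin_sub]
        congr 1
        ring
      rw [e2]
      have hA : a 0 = r 0 * Real.cos θ := hθa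
      have hB : b 0 = r 0 * Real.sin θ := hθb
      rw [hA, hB, h3.1, h3.2]
      ring
    have key := once (a 0) (b 0) 0 hk j hjk ⟨by linarith [mul_comm (a 0) (b 0)], hd 0⟩
      ⟨by
        rw [e1]
        have h5 : r j * r 0 * Real.sin (s j) ≤ 0 :=
          mul_nonpos_of_nonneg_of_nonpos (mul_pos (hr0 j) (hr0 0)).le sg1
        linarith, by
        rw [e2]
        exact mul_pos (mul_pos (hr0 0) (hr0 (j + 1))) sg2⟩
    exact hjne key.symm
  have hm3 : m = 1 := le_antisymm hm2 hm1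
  show s k = 2 * Real.pi
  rw [← hm, hm3]
  push_cast
  ring

end A_angle_sum

alias angle_sum := A_angle_sum.angle_sum

namespace A_bet_deriv

/- Proof:
Let c = cos a, s = sin a > 0. The argument of arccos is u(t) = (c + H H')/(A A'), A = sqrt(1+H^2), A' = sqrt(1+H'^2). Identity: (1+H^2)(1+H'^2) - (c + H H')^2 = s^2 + H^2 + H'^2 - 2 H H' c = s^2 (1 + H^2) + (H' - H c)^2 = s^2 (1+H'^2) + (H - H' c)^2 > 0, so |u| < 1 and arccos is differentiable there with derivative -1/sqrt(1-u^2) = -A A'/Q, Q = sqrt of that identity. du/dH = (H' - H c)/(A^3 A'), du/dH' = (H - H' c)/(A A'^3). So d(bet)/dH = -(H' - H c)/((1+H^2) Q) and Q = s sqrt(1 + H^2 + ((H' - H c)/s)^2). Similarly for H'. Chain rule.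
-/
theorem bet_deriv {a : ℝ} (ha : 0 < a ∧ a < Real.pi) {H H' : ℝ → ℝ} {p p' t : ℝ} (hH : HasDerivAt H p t)
    (hH' : HasDerivAt H' p' t) :
    HasDerivAt (fun t => bet a (H t) (H' t))
      (-(((H' t - H t * Real.cos a) / Real.sin a) /
          Real.sqrt (1 + H t ^ 2 + ((H' t - H t * Real.cos a) / Real.sin a) ^ 2)) / (1 + H t ^ 2) * p
        - (((H t - H' t * Real.cos a) / Real.sin a) /
          Real.sqrt (1 + H' t ^ 2 + ((H t - H' t * Real.cos a) / Real.sin a) ^ 2)) / (1 + H' t ^ 2) * p') t := by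
  have hs : 0 < Real.sin a := Real.sin_pos_of_pos_of_lt_pi ha.1 ha.2
  set c := Real.cos a with hc
  set s := Real.sin a with hsdef
  have hcs : s ^ 2 + c ^ 2 = 1 := by rw [hsdef, hc]; exact Real.sin_sq_add_cos_sq a
  set x := H t with hx
  set y := H' t with hy
  have hA2 : 0 < 1 + x ^ 2 := by positivity
  have hB2 : 0 < 1 + y ^ 2 := by positivity
  set A := Real.sqrt (1 + x ^ 2) with hA
  set B := Real.sqrt (1 + y ^ 2) with hB
  have hApos : 0 < A := Real.sqrt_pos.mpr hA2
  have hBpos : 0 < B := Real.sqrt_pos.mpr hB2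
  have hAsq : A ^ 2 = 1 + x ^ 2 := Real.sq_sqrt hA2.le
  have hBsq : B ^ 2 = 1 + y ^ 2 := Real.sq_sqrt hB2.le
  -- the discriminant
  set R := (1 + x ^ 2) * (1 + y ^ 2) - (c + x * y) ^ 2 with hR
  have hR1 : R = s ^ 2 * (1 + x ^ 2) + (y - x * c) ^ 2 := by
    have : s ^ 2 = 1 - c ^ 2 := by linarith
    rw [hR, this]; ring
  have hR2 : R = s ^ 2 * (1 + y ^ 2) + (x - y * c) ^ 2 := by
    have : s ^ 2 = 1 - c ^ 2 := by linarith
    rw [hR, this]; ring
  have hRpos : 0 < R := by rw [hR1]; positivity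
  set Q := Real.sqrt R with hQ
  have hQpos : 0 < Q := Real.sqrt_pos.mpr hRpos
  have hQsq : Q ^ 2 = R := Real.sq_sqrt hRpos.le
  have hQ1 : Real.sqrt (1 + x ^ 2 + ((y - x * c) / s) ^ 2) = Q / s := by
    have h : 1 + x ^ 2 + ((y - x * c) / s) ^ 2 = (Q / s) ^ 2 := by
      rw [div_pow, div_pow, hQsq, hR1]; field_simp
    rw [h]; exact Real.sqrt_sq (by positivity)
  have hQ2 : Real.sqrt (1 + y ^ 2 + ((x - y * c) / s) ^ 2) = Q / s := by
    have h : 1 + y ^ 2 + ((x - y * c) / s) ^ 2 = (Q / s) ^ 2 := by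
      rw [div_pow, div_pow, hQsq, hR2]; field_simp
    rw [h]; exact Real.sqrt_sq (by positivity)
  rw [hQ1, hQ2]
  -- the argument of arccos
  set u := (c + x * y) / (A * B) with hu
  have hu2 : 1 - u ^ 2 = (Q / (A * B)) ^ 2 := by
    rw [hu, div_pow, div_pow, mul_pow, hAsq, hBsq, hQsq, hR]
    field_simp
  have hu3 : 0 < 1 - u ^ 2 := by rw [hu2]; positivity
  have hune1 : u ≠ -1 := by intro h; rw [h] at hu3; norm_num at hu3
  have hu1 : u ≠ 1 := by intro h; rw [h] at hu3; norm_num at hu3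
  have hsq : Real.sqrt (1 - u ^ 2) = Q / (A * B) := by
    rw [hu2]; exact Real.sqrt_sq (by positivity)
  -- derivatives
  have dA : HasDerivAt (fun t => Real.sqrt (1 + H t ^ 2)) (x * p / A) t := by
    have h1 : HasDerivAt (fun t => 1 + H t ^ 2) (2 * x * p) t := by
      have := (hH.pow 2).const_add 1
      refine this.congr_deriv ?_
      rw [← hx]; push_cast; ring
    have h2 := h1.sqrt (by rw [← hx]; exact hA2.ne')
    convert h2 using 1
    rw [← hx, ← hA]; field_simp
  have dB : HasDerivAt (fun t => Real.sqrt (1 + H' t ^ 2)) (y * p' / B) t := by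
    have h1 : HasDerivAt (fun t => 1 + H' t ^ 2) (2 * y * p') t := by
      have := (hH'.pow 2).const_add 1
      refine this.congr_deriv ?_
      rw [← hy]; push_cast; ring
    have h2 := h1.sqrt (by rw [← hy]; exact hB2.ne')
    convert h2 using 1
    rw [← hy, ← hB]; field_simp
  have dN : HasDerivAt (fun t => c + H t * H' t) (p * y + x * p') t := by
    have := (hH.mul hH').const_add c
    simpa using this
  have dD := dA.mul dB
  have hAB : A * B ≠ 0 := by positivity
  have dU := dN.div dD (by simpa using hAB)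
  have dac := (Real.hasDerivAt_arccos (x := u) hune1 hu1)
  have hcomp := HasDerivAt.comp t (by
    show HasDerivAt Real.arccos _ ((fun t => c + H t * H' t) t / ((fun t => Real.sqrt (1 + H t ^ 2)) * fun t => Real.sqrt (1 + H' t ^ 2)) t)
    exact dac) dU
  have hfun : (fun t => bet a (H t) (H' t)) = Real.arccos ∘ ((fun t => c + H t * H' t) / ((fun t => Real.sqrt (1 + H t ^ 2)) * fun t => Real.sqrt (1 + H' t ^ 2))) := by
    funext r
    simp [bet, hc]
  rw [hfun]
  refine hcomp.congr_deriv ?_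
  simp only [Pi.mul_apply]
  rw [← hx, ← hy, ← hA, ← hB, hsq]
  have hA2' : (1 + x ^ 2) = A ^ 2 := hAsq.symm
  have hB2' : (1 + y ^ 2) = B ^ 2 := hBsq.symm
  have e1 : y * A ^ 2 - (c + x * y) * x = y - x * c := by rw [hAsq]; ring
  have e2 : x * B ^ 2 - (c + x * y) * y = x - y * c := by rw [hBsq]; ring
  rw [← e1, ← e2, hA2', hB2']
  field_simp
  ring

end A_bet_deriv

alias bet_deriv := A_bet_deriv.bet_deriv

namespace A_linkA

/-! auxiliary lemmas for `linkA` -/

theorem linkA_psi_pos {c x z : ℝ} (hc : 0 < c) (hx : 0 ≤ x) (hxz : x < z) :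
    x / Real.sqrt (c + x ^ 2) < z / Real.sqrt (c + z ^ 2) := by
  have hz : 0 < z := lt_of_le_of_lt hx hxz
  have h1 : 0 < c + x ^ 2 := by positivity
  have h2 : 0 < c + z ^ 2 := by positivity
  rw [div_lt_div_iff₀ (Real.sqrt_pos.mpr h1) (Real.sqrt_pos.mpr h2)]
  refine lt_of_pow_lt_pow_left₀ 2 (by positivity) ?_
  rw [mul_pow, mul_pow, Real.sq_sqrt h1.le, Real.sq_sqrt h2.le]
  have h3 : x ^ 2 < z ^ 2 := by nlinarith
  nlinarith

theorem linkA_psi_neg (c x : ℝ) : (-x) / Real.sqrt (c + (-x) ^ 2) = -(x / Real.sqrt (c + x ^ 2)) := by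
  rw [neg_sq, neg_div]

theorem linkA_psi_lt {c x z : ℝ} (hc : 0 < c) (hxz : x < z) :
    x / Real.sqrt (c + x ^ 2) < z / Real.sqrt (c + z ^ 2) := by
  rcases le_or_gt 0 x with h | h
  · exact linkA_psi_pos hc h hxz
  rcases le_or_gt z 0 with h' | h'
  · have := linkA_psi_pos hc (neg_nonneg.mpr h') (neg_lt_neg hxz)
    rw [linkA_psi_neg, linkA_psi_neg] at this
    linarith
  · have h1 : 0 < c + x ^ 2 := by positivity
    have h2 : 0 < c + z ^ 2 := by positivity
    exact lt_trans (div_neg_of_neg_of_pos h (Real.sqrt_pos.mpr h1))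
      (div_pos h' (Real.sqrt_pos.mpr h2))

theorem linkA_psi_add {c x y : ℝ} (hc : 0 < c) (h : x + y ≤ 0) :
    x / Real.sqrt (c + x ^ 2) + y / Real.sqrt (c + y ^ 2) ≤ 0 ∧
    (x / Real.sqrt (c + x ^ 2) + y / Real.sqrt (c + y ^ 2) = 0 → x + y = 0) := by
  rcases lt_or_eq_of_le h with h | h
  · have h1 : x < -y := by linarith
    have := linkA_psi_lt hc h1
    rw [linkA_psi_neg] at this
    exact ⟨by linarith, fun h' => by linarith⟩
  · have h1 : x = -y := by linarith
    refine ⟨?_, fun _ => h⟩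
    rw [h1, linkA_psi_neg]
    linarith

theorem linkA_shift {k : ℕ} (f : ℕ → ℝ) (hf : ∀ i, f (i + k) = f i) :
    ∑ i ∈ Finset.range k, f i = ∑ i ∈ Finset.range k, f (i + 1) := by
  have h1 := Finset.sum_range_succ f k
  have h2 := Finset.sum_range_succ' f k
  have h3 : f k = f 0 := by have := hf 0; rwa [zero_add] at this
  linarith

/-- `x_{i}` -/
noncomputable def linkA_x (α H : ℕ → ℝ) (i : ℕ) : ℝ :=
  (H (i + 1) - H i * Real.cos (α i)) / Real.sin (α i)

/-- `y_{i+1}` -/
noncomputable def linkA_y (α H : ℕ → ℝ) (i : ℕ) : ℝ :=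
  (H i - H (i + 1) * Real.cos (α i)) / Real.sin (α i)

theorem linkA_xy {α : ℕ → ℝ} (hα : ∀ i, 0 < α i ∧ α i < Real.pi) (H : ℕ → ℝ) (i : ℕ) :
    linkA_x α H (i + 1) + linkA_y α H i
      = kk α H i / (Real.sin (α i) * Real.sin (α (i + 1))) := by
  have h1 := (Real.sin_pos_of_pos_of_lt_pi (hα i).1 (hα i).2).ne'
  have h2 := (Real.sin_pos_of_pos_of_lt_pi (hα (i + 1)).1 (hα (i + 1)).2).ne'
  unfold linkA_x linkA_y kk
  rw [Real.sin_add]
  field_simp
  ring

/- Proof:
For t in [0,1] put H_i(t) = h' i + t (h i - h' i), with derivative p i = h i - h' i >= 0, and S(t) = sum_{i<k} bet (alpha i) (H_i t) (H_{i+1} t). By bet_deriv S has derivative S'(t) = sum_{i<k} [ -psi(x_i, H_i)/(1+H_i^2) p_i - psi(y_{i+1}, H_{i+1})/(1+H_{i+1}^2) p_{i+1} ], where psi(y,H) = y / sqrt(1+H^2+y^2), x_i = (H_{i+1} - H_i cos alpha_i)/sin alpha_i and y_{i+1} = (H_i - H_{i+1} cos alpha_i)/sin alpha_i. By periodicity (shift the first sum by one: sum over i<k of f(i) = sum over i<k of f(i+1)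 for k-periodic f) S'(t) = - sum_{i<k} p_{i+1}/(1+H_{i+1}^2) * (psi(x_{i+1},H_{i+1}) + psi(y_{i+1},H_{i+1})).
psi(.,H) is odd and strictly increasing. x_{i+1} + y_{i+1} = (sin alpha_{i+1} H_i + sin alpha_i H_{i+2} - sin(alpha_i + alpha_{i+1}) H_{i+1})/(sin alpha_i sin alpha_{i+1}) = kk alpha H i / (..) <= 0, because kk alpha is linear in the sequence: kk alpha H i = (1-t) kk alpha h' i + t kk alpha h i <= 0. So psi(x)+psi(y) <= 0 and every term of S'(t) is >= 0. S is monotone on [0,1] (monotoneOn_of_deriv_nonneg or the like), S(0) <= S(1): first claim.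
Second claim: if S(0) = S(1) then S is constant on [0,1] and S'(1/2) = 0, so each term vanishes: if h' (i+1) < h (i+1) then psi(x)+psi(y) = 0 at t = 1/2, so x + y = 0 (strict monotonicity and oddness), i.e. (kk alpha h' i + kk alpha h i)/2 = 0; both are <= 0, so both vanish. This for i < k, hence for all i by periodicity.
-/
theorem linkA {k : ℕ} (hk : 0 < k) {α h h' : ℕ → ℝ} (pα : ∀ i, α (i + k) = α i) (ph : ∀ i, h (i + k) = h i)
    (ph' : ∀ i, h' (i + k) = h' i) (hα : ∀ i, 0 < α i ∧ α i < Real.pi)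
    (hc : ∀ i, kk α h i ≤ 0) (hc' : ∀ i, kk α h' i ≤ 0) (hle : ∀ i, h' i ≤ h i) :
    ∑ i ∈ Finset.range k, bet (α i) (h' i) (h' (i + 1)) ≤ ∑ i ∈ Finset.range k, bet (α i) (h i) (h (i + 1)) ∧
    (∑ i ∈ Finset.range k, bet (α i) (h' i) (h' (i + 1)) = ∑ i ∈ Finset.range k, bet (α i) (h i) (h (i + 1)) →
      ∀ i, h' (i + 1) < h (i + 1) → kk α h i = 0 ∧ kk α h' i = 0) := by
  set H : ℝ → ℕ → ℝ := fun t i => h' i + t * (h i - h' i) with hH
  set p : ℕ → ℝ := fun i => h i - h' i with hp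
  have hp0 : ∀ i, 0 ≤ p i := fun i => sub_nonneg.mpr (hle i)
  set psi : ℝ → ℝ → ℝ := fun y c => y / Real.sqrt (1 + c ^ 2 + y ^ 2) with hpsi
  set S : ℝ → ℝ := fun t => ∑ i ∈ Finset.range k, bet (α i) (H t i) (H t (i + 1)) with hS
  -- the terms of the derivative
  set D : ℝ → ℕ → ℝ := fun t i => p (i + 1) / (1 + H t (i + 1) ^ 2) *
    (-(psi (linkA_x α (H t) (i + 1)) (H t (i + 1)) + psi (linkA_y α (H t) i) (H t (i + 1)))) with hD
  have hkk : ∀ t, 0 ≤ t → t ≤ 1 → ∀ i, kk α (H t) i ≤ 0 := by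
    intro t h0 h1 i
    have e : kk α (H t) i = (1 - t) * kk α h' i + t * kk α h i := by
      simp only [kk, hH]; ring
    rw [e]
    have a1 := mul_nonneg (sub_nonneg.mpr h1) (neg_nonneg.mpr (hc' i))
    have a2 := mul_nonneg h0 (neg_nonneg.mpr (hc i))
    linarith
  have hsin : ∀ i, 0 < Real.sin (α i) * Real.sin (α (i + 1)) := fun i =>
    mul_pos (Real.sin_pos_of_pos_of_lt_pi (hα i).1 (hα i).2)
      (Real.sin_pos_of_pos_of_lt_pi (hα (i + 1)).1 (hα (i + 1)).2)
  have hxy : ∀ t, 0 ≤ t → t ≤ 1 → ∀ i,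
      linkA_x α (H t) (i + 1) + linkA_y α (H t) i ≤ 0 := by
    intro t h0 h1 i
    rw [linkA_xy hα]
    exact div_nonpos_of_nonpos_of_nonneg (hkk t h0 h1 i) (hsin i).le
  have hD0 : ∀ t, 0 ≤ t → t ≤ 1 → ∀ i, 0 ≤ D t i := by
    intro t h0 h1 i
    refine mul_nonneg (div_nonneg (hp0 _) (by positivity)) ?_
    have := (linkA_psi_add (c := 1 + H t (i + 1) ^ 2) (by positivity) (hxy t h0 h1 i)).1
    simp only [hpsi]
    linarith
  have hder : ∀ t, HasDerivAt S (∑ i ∈ Finset.range k, D t i) t := by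
    intro t
    have hHd : ∀ i, HasDerivAt (fun t => H t i) (p i) t := by
      intro i
      have := ((hasDerivAt_id t).mul_const (h i - h' i)).const_add (h' i)
      simpa [hH, hp] using this
    have h1 : HasDerivAt S (∑ i ∈ Finset.range k,
        (-(psi (linkA_x α (H t) i) (H t i)) / (1 + H t i ^ 2) * p i
          - psi (linkA_y α (H t) i) (H t (i + 1)) / (1 + H t (i + 1) ^ 2) * p (i + 1))) t :=
      HasDerivAt.fun_sum fun i _ => bet_deriv (hα i) (hHd i) (hHd (i + 1))
    convert h1 using 1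
    have hsh := linkA_shift (k := k)
      (fun i => -(psi (linkA_x α (H t) i) (H t i)) / (1 + H t i ^ 2) * p i) (by
        intro i
        have e1 : H t (i + k) = H t i := by simp only [hH, ph, ph']
        have e2 : H t (i + k + 1) = H t (i + 1) := by
          have : i + k + 1 = i + 1 + k := by ring
          simp only [hH, this, ph, ph']
        have e3 : p (i + k) = p i := by simp only [hp, ph, ph']
        simp only [linkA_x, e1, e2, e3, pα])
    rw [Finset.sum_sub_distrib, hsh, ← Finset.sum_sub_distrib]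
    refine Finset.sum_congr rfl fun i _ => ?_
    simp only [hD]
    ring
  have hdiff : Differentiable ℝ S := fun t => (hder t).differentiableAt
  have hmono : MonotoneOn S (Set.Icc 0 1) := by
    refine monotoneOn_of_deriv_nonneg (convex_Icc 0 1) hdiff.continuous.continuousOn
      hdiff.differentiableOn ?_
    intro t ht
    rw [interior_Icc] at ht
    rw [(hder t).deriv]
    exact Finset.sum_nonneg fun i _ => hD0 t ht.1.le ht.2.le i
  have e0 : S 0 = ∑ i ∈ Finset.range k, bet (α i) (h' i) (h' (i + 1)) := by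
    simp only [hS, hH, zero_mul, add_zero]
  have e1 : S 1 = ∑ i ∈ Finset.range k, bet (α i) (h i) (h (i + 1)) := by
    simp only [hS, hH, one_mul, add_sub_cancel]
  rw [← e0, ← e1]
  refine ⟨hmono (by simp) (by simp) zero_le_one, ?_⟩
  intro heq
  -- `S` is constant
  have hconst : ∀ t ∈ Set.Icc (0 : ℝ) 1, S t = S 0 := by
    intro t ht
    have a1 := hmono (by simp) ht ht.1
    have a2 := hmono ht (by simp) ht.2
    linarith
  have hzero : ∑ i ∈ Finset.range k, D (1 / 2) i = 0 := by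
    have h1 : HasDerivAt S 0 (1 / 2) := by
      refine (hasDerivAt_const (1 / 2 : ℝ) (S 0)).congr_of_eventuallyEq ?_
      filter_upwards [Icc_mem_nhds (show (0 : ℝ) < 1 / 2 by norm_num)
        (show (1 / 2 : ℝ) < 1 by norm_num)] with t ht
      exact hconst t ht
    exact (hder (1 / 2)).unique h1
  have hterm := (Finset.sum_eq_zero_iff_of_nonneg
    (fun i _ => hD0 (1 / 2) (by norm_num) (by norm_num) i)).mp hzero
  have main : ∀ i, i < k → h' (i + 1) < h (i + 1) → kk α h i = 0 ∧ kk α h' i = 0 := by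
    intro i hi hlt
    have h1 := hterm i (Finset.mem_range.mpr hi)
    have h2 : p (i + 1) / (1 + H (1 / 2) (i + 1) ^ 2) ≠ 0 :=
      (div_pos (sub_pos.mpr hlt) (by positivity)).ne'
    have h3 := (mul_eq_zero.mp h1).resolve_left h2
    have h4 := (linkA_psi_add (c := 1 + H (1 / 2) (i + 1) ^ 2) (by positivity)
      (hxy (1 / 2) (by norm_num) (by norm_num) i)).2 (by
        simp only [hpsi] at h3
        linarith)
    rw [linkA_xy hα] at h4
    have h5 : kk α (H (1 / 2)) i = 0 := by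
      rcases div_eq_zero_iff.mp h4 with h | h
      · exact h
      · exact absurd h (hsin i).ne'
    have e : kk α (H (1 / 2)) i = (1 / 2) * kk α h' i + (1 / 2) * kk α h i := by
      simp only [kk, hH]; ring
    rw [e] at h5
    have a1 := hc i
    have a2 := hc' i
    constructor <;> linarith
  intro i hlt
  have pα' : Function.Periodic α k := pα
  have ph1 : Function.Periodic h k := ph
  have ph2 : Function.Periodic h' k := ph'
  have per : ∀ {g : ℕ → ℝ}, Function.Periodic g k → ∀ j, Function.Periodic (fun i => g (i + j)) k := by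
    intro g hg j i
    show g (i + k + j) = g (i + j)
    have : i + k + j = i + j + k := by ring
    rw [this]
    exact hg _
  have md : ∀ {g : ℕ → ℝ}, Function.Periodic g k → ∀ j, g (i % k + j) = g (i + j) := by
    intro g hg j
    exact (per hg j).map_mod_nat i
  have hm := main (i % k) (Nat.mod_lt _ hk) (by rw [md ph2, md ph1]; exact hlt)
  have ek : ∀ {g : ℕ → ℝ}, Function.Periodic g k → kk α g (i % k) = kk α g i := by
    intro g hg
    unfold kk
    have a1 := md pα' 1
    have a2 := md pα' 0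
    have a3 := md hg 0
    have a4 := md hg 1
    have a5 := md hg 2
    rw [add_zero, add_zero] at a2 a3
    rw [a1, a2, a3, a4, a5]
  rw [ek ph1, ek ph2] at hm
  exact hm

end A_linkA

alias linkA := A_linkA.linkA

namespace A_link_cmp

theorem sum_shift_period (k : ℕ) (f : ℕ → ℝ) (hf : ∀ i, f (i + k) = f i) :
    ∑ i ∈ Finset.range k, f (i + 1) = ∑ i ∈ Finset.range k, f i := by
  have h1 := Finset.sum_range_succ' f k
  have h2 := Finset.sum_range_succ f k
  have h3 : f k = f 0 := by simpa using hf 0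
  rw [h2, h3] at h1
  linarith

theorem kk_sum (k : ℕ) (α H : ℕ → ℝ) (pα : ∀ i, α (i + k) = α i) (pH : ∀ i, H (i + k) = H i)
    (hα : ∀ i, 0 < Real.sin (α i)) :
    ∑ i ∈ Finset.range k, kk α H i / (Real.sin (α i) * Real.sin (α (i + 1))) =
    ∑ i ∈ Finset.range k, H (i + 1) * ((1 - Real.cos (α i)) / Real.sin (α i) +
      (1 - Real.cos (α (i + 1))) / Real.sin (α (i + 1))) := by
  have e1 : ∀ i, kk α H i / (Real.sin (α i) * Real.sin (α (i + 1))) =
      H i / Real.sin (α i) + H (i + 1 + 1) / Real.sin (α (i + 1)) -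
        H (i + 1) * (Real.cos (α i) / Real.sin (α i) + Real.cos (α (i + 1)) / Real.sin (α (i + 1))) := by
    intro i
    have h1 := (hα i).ne'
    have h2 := (hα (i + 1)).ne'
    unfold kk
    rw [Real.sin_add]
    field_simp
    ring
  have p1 : ∀ i, (fun i => H i / Real.sin (α i)) (i + k) = (fun i => H i / Real.sin (α i)) i := by
    intro i
    simp only [pα, pH]
  have p2 : ∀ i, (fun i => H (i + 1) / Real.sin (α i)) (i + k) = (fun i => H (i + 1) / Real.sin (α i)) i := by
    intro i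
    have : H (i + k + 1) = H (i + 1) := by
      rw [show i + k + 1 = (i + 1) + k by ring]
      exact pH _
    simp only [pα, this]
  have s1 := sum_shift_period k (fun i => H i / Real.sin (α i)) p1
  have s2 := sum_shift_period k (fun i => H (i + 1) / Real.sin (α i)) p2
  beta_reduce at s1 s2
  rw [Finset.sum_congr rfl (fun i _ => e1 i), Finset.sum_sub_distrib, Finset.sum_add_distrib, s2, ← s1,
    ← Finset.sum_add_distrib, ← Finset.sum_sub_distrib]
  apply Finset.sum_congr rfl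
  intro i _
  have h1 := (hα i).ne'
  have h2 := (hα (i + 1)).ne'
  field_simp
  ring

/- Proof:
Put w i = tan(alpha i / 2) + tan(alpha (i+1) / 2) > 0. For a k-periodic sequence H: sum_{i<k} kk alpha H i/(sin alpha_i sin alpha_{i+1}) = sum_{i<k} w i * H (i+1). Indeed kk alpha H i/(sin alpha_i sin alpha_{i+1}) = H i/sin alpha_i + H (i+2)/sin alpha_{i+1} - (cot alpha_i + cot alpha_{i+1}) H (i+1) (sin(x+y) = sin x cos y + cos x sin y), and summing over a period, shifting indices: the coefficient of H (i+1) is 1/sin alpha_{i+1} + 1/sin alpha_i - cot alpha_i - cot alpha_{i+1}, and 1/sin x - cot x = tan(x/2).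
Apply this to H = h - h': 0 <= sum w i (h (i+1) - h' (i+1)) = sum (kk alpha h i - kk alpha h' i)/(sin sin) <= 0 (kk is linear in the sequence, sines are positive). So all terms vanish: h (i+1) = h' (i+1) and kk alpha h i = kk alpha h' i for i < k, hence for all i by periodicity (index i+1 with i < k covers all residues: h i = h (i + k) = h ((i + k - 1) + 1)).
-/
theorem link_cmp {k : ℕ} (hk : 0 < k) {α h h' : ℕ → ℝ} (pα : ∀ i, α (i + k) = α i) (ph : ∀ i, h (i + k) = h i)
    (ph' : ∀ i, h' (i + k) = h' i) (hα : ∀ i, 0 < α i ∧ α i < Real.pi)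
    (hle : ∀ i, h' i ≤ h i) (hkk : ∀ i, kk α h i ≤ kk α h' i) : ∀ i, h i = h' i ∧ kk α h i = kk α h' i := by
  have hs : ∀ i, 0 < Real.sin (α i) := fun i => Real.sin_pos_of_pos_of_lt_pi (hα i).1 (hα i).2
  have hc : ∀ i, 0 < 1 - Real.cos (α i) := by
    intro i
    have h1 := hs i
    have h2 := Real.sin_sq_add_cos_sq (α i)
    nlinarith [Real.cos_le_one (α i)]
  have hw : ∀ i, 0 < (1 - Real.cos (α i)) / Real.sin (α i) + (1 - Real.cos (α (i + 1))) / Real.sin (α (i + 1)) := by
    intro i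
    have := div_pos (hc i) (hs i)
    have := div_pos (hc (i + 1)) (hs (i + 1))
    linarith
  have hlin : ∀ i, kk α (fun i => h i - h' i) i = kk α h i - kk α h' i := by
    intro i
    unfold kk
    ring
  have key := kk_sum k α (fun i => h i - h' i) pα (fun i => by simp only [ph, ph']) hs
  have hL : ∀ i ∈ Finset.range k, 0 ≤ (h (i + 1) - h' (i + 1)) * ((1 - Real.cos (α i)) / Real.sin (α i) +
      (1 - Real.cos (α (i + 1))) / Real.sin (α (i + 1))) := by
    intro i _
    exact mul_nonneg (by linarith [hle (i + 1)]) (hw i).le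
  have hR : ∀ i ∈ Finset.range k, 0 ≤ -(kk α (fun i => h i - h' i) i / (Real.sin (α i) * Real.sin (α (i + 1)))) := by
    intro i _
    rw [hlin, ← neg_div]
    exact div_nonneg (by linarith [hkk i]) (mul_pos (hs i) (hs (i + 1))).le
  have sL := Finset.sum_nonneg hL
  have sR := Finset.sum_nonneg hR
  rw [Finset.sum_neg_distrib] at sR
  have zL : ∑ i ∈ Finset.range k, (h (i + 1) - h' (i + 1)) * ((1 - Real.cos (α i)) / Real.sin (α i) +
      (1 - Real.cos (α (i + 1))) / Real.sin (α (i + 1))) = 0 := by linarith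
  have zR : ∑ i ∈ Finset.range k, -(kk α (fun i => h i - h' i) i / (Real.sin (α i) * Real.sin (α (i + 1)))) = 0 := by
    rw [Finset.sum_neg_distrib]
    linarith
  have aL := (Finset.sum_eq_zero_iff_of_nonneg hL).1 zL
  have aR := (Finset.sum_eq_zero_iff_of_nonneg hR).1 zR
  have bL : ∀ i < k, h (i + 1) = h' (i + 1) := by
    intro i hi
    have h1 := aL i (Finset.mem_range.2 hi)
    rcases mul_eq_zero.1 h1 with h2 | h2
    · linarith
    · exact absurd h2 (hw i).ne'
  have bR : ∀ i < k, kk α h i = kk α h' i := by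
    intro i hi
    have h1 := aR i (Finset.mem_range.2 hi)
    rw [neg_eq_zero, hlin, div_eq_zero_iff] at h1
    rcases h1 with h2 | h2
    · linarith
    · exact absurd h2 (mul_pos (hs i) (hs (i + 1))).ne'
  have pk : ∀ (H : ℕ → ℝ), (∀ i, H (i + k) = H i) → ∀ i, H i = H (i % k) := by
    intro H pH i
    have h1 : ∀ m j, H (j + k * m) = H j := by
      intro m
      induction m with
      | zero => intro j; simp
      | succ m ih =>
        intro j
        rw [show j + k * (m + 1) = (j + k * m) + k by ring, pH, ih]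
    conv_lhs => rw [← Nat.mod_add_div i k]
    exact h1 _ _
  have pkk : ∀ (H : ℕ → ℝ), (∀ i, H (i + k) = H i) → ∀ i, kk α H (i + k) = kk α H i := by
    intro H pH i
    unfold kk
    rw [show i + k + 1 = (i + 1) + k by ring, show i + k + 2 = (i + 2) + k by ring, pα, pα, pH, pH, pH]
  intro i
  constructor
  · have e1 : ∀ (H : ℕ → ℝ), (∀ i, H (i + k) = H i) → H i = H ((i + k - 1) % k + 1) := by
      intro H pH
      have h2 := pk (fun j => H (j + 1)) (fun j => by
        rw [show j + k + 1 = (j + 1) + k by ring]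
        exact pH _) (i + k - 1)
      beta_reduce at h2
      rw [← h2, show i + k - 1 + 1 = i + k by omega, pH]
    rw [e1 h ph, e1 h' ph']
    exact bL _ (Nat.mod_lt _ hk)
  · rw [pk _ (pkk h ph) i, pk _ (pkk h' ph') i]
    exact bR _ (Nat.mod_lt _ hk)

end A_link_cmp

alias link_cmp := A_link_cmp.link_cmp

namespace A_theta_step

/- Proof:
For fixed h' and s put Th(x) = arcsin(cosh s sin x + sinh s cos x h'). Restrict x to [th, th'] (compact in (-pi/2, pi/2)), cos x >= c0 > 0 there. Let c = cosh s, s' = sinh s > 0. B = c sin x + s' h' cos x, A = c cos x - s' h' sin x; A^2 + B^2 = c^2 + s'^2 h'^2, so 1 - B^2 = A^2 - s'^2 (1 + h'^2). For s small A >= c0/2 > 0 and A^2 > s'^2 (1+h'^2), so |B| < 1 and dTh/dx = A/sqrt(A^2 - s'^2 (1+h'^2)) > 1. So Th(th') - Th(th) > th' - th (mean value theorem, strict) for all small s > 0. Moreover cosh s sin th + sinh s cos th h <= cosh s sin th + sinh s cos th h' (h <= h', cos th > 0, s > 0) and arcsin is monotone. So arcsin(..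 th, h) - arcsin(.. th', h') <= Th(th) - Th(th') < th - th'.
-/
theorem theta_step {th th' h h' : ℝ} (h1 : |th| < Real.pi / 2) (h2 : |th'| < Real.pi / 2) (hlt : th < th') (hh : h ≤ h') :
    ∃ s₁ : ℝ, 0 < s₁ ∧ ∀ s : ℝ, 0 < s → s ≤ s₁ →
      Real.arcsin (Real.cosh s * Real.sin th + Real.sinh s * (Real.cos th * h))
        - Real.arcsin (Real.cosh s * Real.sin th' + Real.sinh s * (Real.cos th' * h')) < th - th' := by
  have hpi := Real.pi_pos
  have hm : max |th| |th'| < Real.pi / 2 := max_lt h1 h2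
  set m := max |th| |th'| with hmdef
  have hm0 : 0 ≤ m := (abs_nonneg _).trans (le_max_left _ _)
  set c0 := Real.cos m with hc0def
  have hc0 : 0 < c0 := Real.cos_pos_of_mem_Ioo ⟨by linarith, hm⟩
  have hcos : ∀ x ∈ Set.Icc th th', c0 ≤ Real.cos x := by
    intro x hx
    rw [← Real.cos_abs x]
    exact Real.cos_le_cos_of_nonneg_of_le_pi (abs_nonneg x) (by linarith)
      (abs_le_max_abs_abs hx.1 hx.2)
  set S := Real.sqrt (1 + h' ^ 2) with hS
  have hSS : S ^ 2 = 1 + h' ^ 2 := Real.sq_sqrt (by positivity)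
  have hS0 : 0 < S := Real.sqrt_pos.2 (by positivity)
  set D := |h'| + S with hD
  have hD0 : 0 < D := by
    have := abs_nonneg h'
    linarith
  refine ⟨Real.arsinh (c0 / (D + 1)), Real.arsinh_pos_iff.2 (by positivity), ?_⟩
  intro s hs hs1
  have hσ0 : 0 < Real.sinh s := Real.sinh_pos_iff.2 hs
  have hσ1 : Real.sinh s ≤ c0 / (D + 1) := by
    have := Real.sinh_le_sinh.2 hs1
    rwa [Real.sinh_arsinh] at this
  have hσD : Real.sinh s * D < c0 := by
    rw [le_div_iff₀ (by linarith)] at hσ1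
    nlinarith
  have hch : 1 ≤ Real.cosh s := Real.one_le_cosh s
  have hchs : Real.cosh s ^ 2 = Real.sinh s ^ 2 + 1 := Real.cosh_sq s
  have hA : ∀ x ∈ Set.Icc th th', Real.sinh s * S <
      Real.cosh s * Real.cos x - Real.sinh s * (Real.sin x * h') := by
    intro x hx
    have e1 := hcos x hx
    have e2 : Real.cos x ≤ Real.cosh s * Real.cos x := by nlinarith
    have e3 : Real.sin x * h' ≤ |h'| := by
      have e4 : |Real.sin x * h'| ≤ 1 * |h'| := by
        rw [abs_mul]
        exact mul_le_mul_of_nonneg_right (Real.abs_sin_le_one x) (abs_nonneg _)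
      linarith [le_abs_self (Real.sin x * h')]
    have e5 : Real.sinh s * (Real.sin x * h') ≤ Real.sinh s * |h'| :=
      mul_le_mul_of_nonneg_left e3 hσ0.le
    have e6 : Real.sinh s * D = Real.sinh s * |h'| + Real.sinh s * S := by rw [hD]; ring
    linarith
  have hAB : ∀ x, 1 - (Real.cosh s * Real.sin x + Real.sinh s * (Real.cos x * h')) ^ 2 =
      (Real.cosh s * Real.cos x - Real.sinh s * (Real.sin x * h')) ^ 2 - (Real.sinh s * S) ^ 2 := by
    intro x
    have e1 := Real.sin_sq_add_cos_sq x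
    rw [mul_pow, hSS]
    have e2 : (Real.cosh s * Real.sin x + Real.sinh s * (Real.cos x * h')) ^ 2 +
        (Real.cosh s * Real.cos x - Real.sinh s * (Real.sin x * h')) ^ 2 =
        (Real.cosh s ^ 2 + Real.sinh s ^ 2 * h' ^ 2) * (Real.sin x ^ 2 + Real.cos x ^ 2) := by
      ring
    rw [e1, hchs] at e2
    linarith
  have hBpos : ∀ x ∈ Set.Icc th th',
      0 < 1 - (Real.cosh s * Real.sin x + Real.sinh s * (Real.cos x * h')) ^ 2 := by
    intro x hx
    rw [hAB]
    have := hA x hx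
    have h0 : 0 < Real.sinh s * S := mul_pos hσ0 hS0
    nlinarith
  have hder : ∀ x ∈ Set.Icc th th', HasDerivAt (fun x => Real.arcsin
      (Real.cosh s * Real.sin x + Real.sinh s * (Real.cos x * h')) - x)
      (1 / Real.sqrt (1 - (Real.cosh s * Real.sin x + Real.sinh s * (Real.cos x * h')) ^ 2) *
        (Real.cosh s * Real.cos x - Real.sinh s * (Real.sin x * h')) - 1) x := by
    intro x hx
    have hp := hBpos x hx
    have hne1 : Real.cosh s * Real.sin x + Real.sinh s * (Real.cos x * h') ≠ -1 := by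
      intro h
      rw [h] at hp
      norm_num at hp
    have hne2 : Real.cosh s * Real.sin x + Real.sinh s * (Real.cos x * h') ≠ 1 := by
      intro h
      rw [h] at hp
      norm_num at hp
    have hin : HasDerivAt (fun x => Real.cosh s * Real.sin x + Real.sinh s * (Real.cos x * h'))
        (Real.cosh s * Real.cos x - Real.sinh s * (Real.sin x * h')) x := by
      have e : HasDerivAt (fun x => Real.cosh s * Real.sin x + Real.sinh s * (Real.cos x * h'))
          (Real.cosh s * Real.cos x + Real.sinh s * (-Real.sin x * h')) x :=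
        ((Real.hasDerivAt_sin x).const_mul (Real.cosh s)).add
          (((Real.hasDerivAt_cos x).mul_const h').const_mul (Real.sinh s))
      have e' : Real.cosh s * Real.cos x - Real.sinh s * (Real.sin x * h') =
          Real.cosh s * Real.cos x + Real.sinh s * (-Real.sin x * h') := by ring
      rw [e']
      exact e
    have hc := (Real.hasDerivAt_arcsin hne1 hne2).comp x hin
    exact hc.sub (hasDerivAt_id x)
  have hmono : StrictMonoOn (fun x => Real.arcsin
      (Real.cosh s * Real.sin x + Real.sinh s * (Real.cos x * h')) - x) (Set.Icc th th') := by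
    refine strictMonoOn_of_deriv_pos (convex_Icc th th') ?_ ?_
    · exact fun x hx => (hder x hx).continuousAt.continuousWithinAt
    · intro x hx
      have hx' : x ∈ Set.Icc th th' := interior_subset hx
      rw [(hder x hx').deriv, sub_pos]
      have hp := hBpos x hx'
      have hA' := hA x hx'
      have h0 : 0 < Real.sinh s * S := mul_pos hσ0 hS0
      have hApos : 0 < Real.cosh s * Real.cos x - Real.sinh s * (Real.sin x * h') := by linarith
      have hlt' : Real.sqrt (1 - (Real.cosh s * Real.sin x + Real.sinh s *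
          (Real.cos x * h')) ^ 2) < Real.cosh s * Real.cos x - Real.sinh s * (Real.sin x * h') := by
        rw [Real.sqrt_lt' hApos, hAB]
        nlinarith
      rw [one_div, inv_mul_eq_div, one_lt_div (Real.sqrt_pos.2 hp)]
      exact hlt'
  have hfin := hmono (Set.left_mem_Icc.2 hlt.le) (Set.right_mem_Icc.2 hlt.le) hlt
  simp only at hfin
  have hcth : 0 < Real.cos th := Real.cos_pos_of_mem_Ioo (abs_lt.1 h1 |>.imp (fun h => by linarith) id)
  have hle : Real.arcsin (Real.cosh s * Real.sin th + Real.sinh s * (Real.cos th * h)) ≤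
      Real.arcsin (Real.cosh s * Real.sin th + Real.sinh s * (Real.cos th * h')) := by
    apply Real.monotone_arcsin
    have := mul_le_mul_of_nonneg_left (mul_le_mul_of_nonneg_left hh hcth.le) hσ0.le
    linarith
  linarith

end A_theta_step

alias theta_step := A_theta_step.theta_step

namespace A_timeq

/- Proof:
If q U V < 0 then 0 < omega A U * omega A V by to_lemma. Conversely suppose 0 < omega A U * omega A V and q U V >= 0: apply to_lemma to U and -V (q U (-V) <= 0, q (-V)(-V) = q V V < 0): 0 < omega A U * omega A (-V) = -(omega A U * omega A V), contradiction.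
-/
theorem timeq {A U V : V4} (hA : q A A < 0) (hU : q A U = 0) (hV : q A V = 0) (hUU : q U U < 0)
    (hVV : q V V < 0) : 0 < omega A U * omega A V ↔ q U V < 0 := by
  constructor
  · intro h
    by_contra hge
    push Not at hge
    have e1 : q A (-V) = 0 := by
      have : q A (-V) = -(q A V) := by simp only [q, Pi.neg_apply]; ring
      rw [this, hV, neg_zero]
    have e2 : q (-V) (-V) < 0 := by
      have : q (-V) (-V) = q V V := by simp only [q, Pi.neg_apply]; ring
      rw [this]; exact hVV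
    have e3 : q U (-V) ≤ 0 := by
      have : q U (-V) = -(q U V) := by simp only [q, Pi.neg_apply]; ring
      rw [this]; linarith
    have e4 := to_lemma hA hU e1 hUU e2 e3
    have e5 : omega A (-V) = -(omega A V) := by simp only [omega, Pi.neg_apply]; ring
    rw [e5] at e4
    linarith [mul_neg (omega A U) (omega A V)]
  · intro h
    exact to_lemma hA hU hV hUU hVV h.le

end A_timeq

alias timeq := A_timeq.timeq

namespace A_omega_ne

/- Proof:
to_lemma with V = U: 0 < omega A U * omega A U (q U U <= 0).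
-/
theorem omega_ne {A U : V4} (hA : q A A < 0) (hU : q A U = 0) (hUU : q U U < 0) : omega A U ≠ 0 := by
  have h := to_lemma hA hU hU hUU hUU hUU.le
  intro h0
  rw [h0] at h
  simp at h

end A_omega_ne

alias omega_ne := A_omega_ne.omega_ne

namespace A_frameW

theorem det4_expand (a b c d : V4) : det4 a b c d =
    a 0 * (b 1 * (c 2 * d 3 - c 3 * d 2) - b 2 * (c 1 * d 3 - c 3 * d 1) + b 3 * (c 1 * d 2 - c 2 * d 1))
    - a 1 * (b 0 * (c 2 * d 3 - c 3 * d 2) - b 2 * (c 0 * d 3 - c 3 * d 0) + b 3 * (c 0 * d 2 - c 2 * d 0))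
    + a 2 * (b 0 * (c 1 * d 3 - c 3 * d 1) - b 1 * (c 0 * d 3 - c 3 * d 0) + b 3 * (c 0 * d 1 - c 1 * d 0))
    - a 3 * (b 0 * (c 1 * d 2 - c 2 * d 1) - b 1 * (c 0 * d 2 - c 2 * d 0) + b 2 * (c 0 * d 1 - c 1 * d 0)) := by
  unfold det4
  rw [Matrix.det_succ_row_zero]
  simp [Fin.sum_univ_succ, Matrix.det_fin_three, Matrix.submatrix, Fin.succAbove]
  ring

/-- cross product -/
def crossW (A B W : V4) : V4 := fun i => match i with
  | 0 => -(A 1 * B 2 * W 3 - A 1 * B 3 * W 2 - A 2 * B 1 * W 3 + A 2 * B 3 * W 1 + A 3 * B 1 * W 2 - A 3 * B 2 * W 1)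
  | 1 => (-(A 0 * B 2 * W 3) + A 0 * B 3 * W 2 + A 2 * B 0 * W 3 - A 2 * B 3 * W 0 - A 3 * B 0 * W 2 + A 3 * B 2 * W 0)
  | 2 => (A 0 * B 1 * W 3 - A 0 * B 3 * W 1 - A 1 * B 0 * W 3 + A 1 * B 3 * W 0 + A 3 * B 0 * W 1 - A 3 * B 1 * W 0)
  | 3 => (A 0 * B 1 * W 2 - A 0 * B 2 * W 1 - A 1 * B 0 * W 2 + A 1 * B 2 * W 0 + A 2 * B 0 * W 1 - A 2 * B 1 * W 0)

theorem q_crossW (A B W Z : V4) : q (crossW A B W) Z = det4 A B Z W := by
  rw [det4_expand]
  simp only [q, crossW]
  ring


theorem crossW_gram (A B W : V4) : q (crossW A B W) (crossW A B W) =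
    q A A * (q B B * q W W - q B W * q B W) - q A B * (q A B * q W W - q B W * q A W)
      + q A W * (q A B * q B W - q B B * q A W) := by
  simp only [q, crossW]
  ring

theorem cramerW (A B C W Z : V4) : det4 A B C W • Z =
    det4 Z B C W • A + det4 A Z C W • B + det4 A B Z W • C + det4 A B C Z • W := by
  funext i
  fin_cases i <;>
  · simp only [det4_expand, Pi.add_apply, Pi.smul_apply, smul_eq_mul, Fin.zero_eta, Fin.mk_one,
      Fin.reduceFinMk]
    ring

theorem q_add_right (X Y Z : V4) : q X (Y + Z) = q X Y + q X Z := by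
  simp only [q, Pi.add_apply]; ring

theorem q_smul_right (X Y : V4) (t : ℝ) : q X (t • Y) = t * q X Y := by
  simp only [q, Pi.smul_apply, smul_eq_mul]; ring

theorem q_comm' (X Y : V4) : q X Y = q Y X := by
  simp only [q]; ring

/-- Binet-Cauchy -/
theorem bcW (A B C W Z₁ Z₂ : V4) : det4 A Z₁ Z₂ W * det4 A B C W =
    Matrix.det (Matrix.of ![![q A A, q A B, q A C, q A W], ![q Z₁ A, q Z₁ B, q Z₁ C, q Z₁ W],
      ![q Z₂ A, q Z₂ B, q Z₂ C, q Z₂ W], ![q W A, q W B, q W C, q W W]]) := by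
  have h1 : Matrix.of ![![q A A, q A B, q A C, q A W], ![q Z₁ A, q Z₁ B, q Z₁ C, q Z₁ W],
      ![q Z₂ A, q Z₂ B, q Z₂ C, q Z₂ W], ![q W A, q W B, q W C, q W W]]
      = Matrix.of ![A, Z₁, Z₂, W] * Matrix.diagonal ![-1, 1, 1, -1]
        * (Matrix.of ![A, B, C, W]).transpose := by
    ext i j
    rw [Matrix.mul_apply]
    simp only [Matrix.mul_diagonal]
    fin_cases i <;> fin_cases j <;>
      simp [Fin.sum_univ_succ, q] <;> ring
  rw [h1, Matrix.det_mul, Matrix.det_mul, Matrix.det_transpose]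
  unfold det4
  have : Matrix.det (Matrix.diagonal ![-1, 1, 1, -1] : Matrix (Fin 4) (Fin 4) ℝ) = 1 := by
    simp [Matrix.det_diagonal, Fin.prod_univ_succ]
  rw [this]
  ring


theorem det_bc (p r s t : ℝ) (a1 a2 a3 a4 : ℝ) :
    Matrix.det (Matrix.of ![![-1, 0, 0, 0], ![a1, p, r, a2], ![a3, s, t, a4], ![0, 0, 0, -1]])
      = p * t - r * s := by
  rw [Matrix.det_succ_row_zero]
  simp [Fin.sum_univ_succ, Matrix.det_fin_three, Matrix.submatrix, Fin.succAbove]
  ring

theorem frameW {A W : V4} (hA : q A A = -1) (hW : q W W = -1) (hAW : q A W = 0) :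
    ∃ b₁ b₂ : V4, q b₁ b₁ = 1 ∧ q b₂ b₂ = 1 ∧ q b₁ b₂ = 0 ∧ q A b₁ = 0 ∧ q A b₂ = 0 ∧ q W b₁ = 0 ∧ q W b₂ = 0 ∧
      (∀ Z : V4, Z = (-(q Z A)) • A + (-(q Z W)) • W + (q Z b₁) • b₁ + (q Z b₂) • b₂) ∧
      ∃ d : ℝ, 0 < d ∧ ∀ Z₁ Z₂ : V4, det4 A Z₁ Z₂ W = d * (q Z₁ b₁ * q Z₂ b₂ - q Z₁ b₂ * q Z₂ b₁) := by
  have hWA : q W A = 0 := by rw [q_comm']; exact hAW
  obtain ⟨B, hB, hAB, hWB⟩ : ∃ B : V4, q B B = 1 ∧ q A B = 0 ∧ q W B = 0 := by
    set e : V4 := ![0, 1, 0, 0] with he
    set P : V4 := e + (A 1) • A + (W 1) • W with hP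
    have hqe : ∀ X : V4, q X e = X 1 := by
      intro X
      simp [q, he]
    have hAP : q A P = 0 := by
      rw [hP, q_add_right, q_add_right, q_smul_right, q_smul_right, hqe, hA, hAW]
      ring
    have hWP : q W P = 0 := by
      rw [hP, q_add_right, q_add_right, q_smul_right, q_smul_right, hqe, hW, hWA]
      ring
    have hPP : q P P = 1 + (A 1) ^ 2 + (W 1) ^ 2 := by
      have h1 : q P P = q P e := by
        conv_lhs => rw [hP]
        rw [← hP, q_add_right, q_add_right, q_smul_right, q_smul_right, q_comm' P A, q_comm' P W, hAP, hWP]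
        ring
      have he1 : e 1 = 1 := by simp [he]
      rw [h1, hqe, hP]
      simp only [Pi.add_apply, Pi.smul_apply, smul_eq_mul, he1]
      ring
    have hpos : 0 < q P P := by rw [hPP]; positivity
    refine ⟨(Real.sqrt (q P P))⁻¹ • P, ?_, ?_, ?_⟩
    · rw [q_smul_right, q_comm' ((Real.sqrt (q P P))⁻¹ • P) P, q_smul_right]
      have hs : Real.sqrt (q P P) * Real.sqrt (q P P) = q P P := Real.mul_self_sqrt hpos.le
      have hs0 : Real.sqrt (q P P) ≠ 0 := (Real.sqrt_pos.mpr hpos).ne'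
      rw [← mul_assoc, ← mul_inv, hs]
      exact inv_mul_cancel₀ hpos.ne'
    · rw [q_smul_right, hAP, mul_zero]
    · rw [q_smul_right, hWP, mul_zero]
  set C := crossW A B W with hC
  have hBA : q B A = 0 := by rw [q_comm']; exact hAB
  have hBW : q B W = 0 := by rw [q_comm']; exact hWB
  have hCC : q C C = 1 := by
    rw [hC, crossW_gram, hA, hB, hW, hBW, hAB, hAW]; norm_num
  have hdet : det4 A B C W = 1 := by
    rw [← q_crossW, ← hC, hCC]
  have hCA : q C A = 0 := by
    rw [hC, q_crossW, det4_expand]; ring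
  have hCB : q C B = 0 := by
    rw [hC, q_crossW, det4_expand]; ring
  have hCW : q C W = 0 := by
    rw [hC, q_crossW, det4_expand]; ring
  have hAC : q A C = 0 := by rw [q_comm']; exact hCA
  have hBC : q B C = 0 := by rw [q_comm']; exact hCB
  have hWC : q W C = 0 := by rw [q_comm']; exact hCW
  refine ⟨B, C, hB, hCC, hBC, hAB, hAC, hWB, hWC, ?_, 1, one_pos, ?_⟩
  · intro Z
    obtain ⟨a, b, c, d, hZ⟩ : ∃ a b c d : ℝ, Z = a • A + b • B + c • C + d • W := by
      refine ⟨det4 Z B C W, det4 A Z C W, det4 A B Z W, det4 A B C Z, ?_⟩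
      have := cramerW A B C W Z
      rw [hdet, one_smul] at this
      exact this
    have h1 : q Z A = -a := by
      rw [q_comm', hZ, q_add_right, q_add_right, q_add_right, q_smul_right, q_smul_right,
        q_smul_right, q_smul_right, hA, hAB, hAC, hAW]; ring
    have h2 : q Z B = b := by
      rw [q_comm', hZ, q_add_right, q_add_right, q_add_right, q_smul_right, q_smul_right,
        q_smul_right, q_smul_right, hBA, hB, hBC, hBW]; ring
    have h3 : q Z C = c := by
      rw [q_comm', hZ, q_add_right, q_add_right, q_add_right, q_smul_right, q_smul_right,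
        q_smul_right, q_smul_right, hCA, hCB, hCC, hCW]; ring
    have h4 : q Z W = -d := by
      rw [q_comm', hZ, q_add_right, q_add_right, q_add_right, q_smul_right, q_smul_right,
        q_smul_right, q_smul_right, hWA, hWB, hWC, hW]; ring
    rw [h1, h2, h3, h4, neg_neg, neg_neg]
    rw [hZ]
    abel
  · intro Z₁ Z₂
    have h := bcW A B C W Z₁ Z₂
    rw [hdet, mul_one, hA, hAB, hAC, hAW, hWA, hWB, hWC, hW, det_bc] at h
    rw [h, one_mul]

end A_frameW

alias frameW := A_frameW.frameW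

namespace A_revCS

theorem j521_comm (X Y : V4) : q X Y = q Y X := by
  simp only [q]; ring

theorem j521_add (X Y Z : V4) : q (X + Y) Z = q X Z + q Y Z := by
  simp only [q, Pi.add_apply]; ring

theorem j521_smul (t : ℝ) (X Z : V4) : q (t • X) Z = t * q X Z := by
  simp only [q, Pi.smul_apply, smul_eq_mul]; ring

theorem j521_smul' (t : ℝ) (X Z : V4) : q X (t • Z) = t * q X Z := by
  simp only [q, Pi.smul_apply, smul_eq_mul]; ring

theorem j521_dec {A W : V4} (hA : q A A < 0) (hW : q W W < 0) (hAW : q A W = 0) :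
    ∃ w : ℝ, 0 < w ∧ ∃ b₁ b₂ : V4, ∀ Z : V4, q A Z = 0 →
      (Z = (-(w ^ 2 * q Z W)) • W + (q Z b₁) • b₁ + (q Z b₂) • b₂) ∧
      ∀ U : V4, q Z U = -((w * q Z W) * (w * q U W)) + q Z b₁ * q U b₁ + q Z b₂ * q U b₂ := by
  have ha : 0 < Real.sqrt (-q A A) := Real.sqrt_pos.2 (by linarith)
  have hw : 0 < Real.sqrt (-q W W) := Real.sqrt_pos.2 (by linarith)
  have ha2 : Real.sqrt (-q A A) ^ 2 = -q A A := Real.sq_sqrt (by linarith)
  have hw2 : Real.sqrt (-q W W) ^ 2 = -q W W := Real.sq_sqrt (by linarith)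
  obtain ⟨b₁, b₂, _, _, _, _, _, _, _, hZ, _⟩ := frameW (A := (Real.sqrt (-q A A))⁻¹ • A)
    (W := (Real.sqrt (-q W W))⁻¹ • W) (by
      rw [j521_smul, j521_smul']
      field_simp
      linarith) (by
      rw [j521_smul, j521_smul']
      field_simp
      linarith) (by rw [j521_smul, j521_smul', hAW]; ring)
  refine ⟨(Real.sqrt (-q W W))⁻¹, inv_pos.2 hw, b₁, b₂, ?_⟩
  intro Z hAZ
  have h1 := hZ Z
  have h2 : q Z ((Real.sqrt (-q A A))⁻¹ • A) = 0 := by
    rw [j521_smul', j521_comm Z A, hAZ, mul_zero]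
  rw [h2, j521_smul', neg_zero, zero_smul, zero_add, smul_smul] at h1
  have h3 : Z = (-((Real.sqrt (-q W W))⁻¹ ^ 2 * q Z W)) • W + (q Z b₁) • b₁ + (q Z b₂) • b₂ := by
    convert h1 using 4
    ring
  refine ⟨h3, fun U => ?_⟩
  have h4 : q Z U = q ((-((Real.sqrt (-q W W))⁻¹ ^ 2 * q Z W)) • W + (q Z b₁) • b₁
      + (q Z b₂) • b₂) U := congrArg (fun T => q T U) h3
  rw [h4, j521_add, j521_add, j521_smul, j521_smul, j521_smul, j521_comm W U, j521_comm b₁ U,
    j521_comm b₂ U]
  ring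

/- Proof:
Normalise: A' = A/sqrt(-q A A), W' = W/sqrt(-q W W). frameW: Z = -(q Z W') W' + x b1 + y b2 (q A Z = 0), q Z Z = -(q Z W')^2 + x^2 + y^2. U = -(q U W') W' + x' b1 + y' b2, q U U = -(q U W')^2 + x'^2+y'^2.
(i) take U = W: q Z W = 0 gives q Z Z = x^2+y^2 >= 0, with equality only if Z = 0. 
(ii) if q Z Z <= 0 then x^2+y^2 <= (q Z W')^2, so if q Z W' = 0 then Z = 0.
(iii) U timelike with q U W < 0, Z with q Z Z <= 0 and q Z U <= 0: q Z U = -(q Z W')(q U W') + x x' + y y'. |x x' + y y'| <= |q Z W'| |q U W'| (strictly unless Z = 0). If q Z W' > 0 (i.e. q Z W > 0) then -(q Z W')(q U W') = (q Z W') |q U W'| > |x x'+y y'| so q Z U > 0, contradiction. So q Z W <= 0.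
-/
theorem revCS {A W : V4} (hA : q A A < 0) (hW : q W W < 0) (hAW : q A W = 0) {Z : V4} (hZ : q A Z = 0) :
    (q Z W = 0 → 0 ≤ q Z Z ∧ (q Z Z = 0 → Z = 0)) ∧
    (q Z Z ≤ 0 → q Z W = 0 → Z = 0) ∧
    (q Z Z ≤ 0 → ∀ U, q A U = 0 → q U U < 0 → q U W < 0 → q Z U ≤ 0 → q Z W ≤ 0) := by
  obtain ⟨w, hw, b₁, b₂, hd⟩ := j521_dec hA hW hAW
  obtain ⟨h1, h2⟩ := hd Z hZ
  have key : q Z W = 0 → 0 ≤ q Z Z ∧ (q Z Z = 0 → Z = 0) := by
    intro h0
    have h3 := h2 Z
    rw [h0, mul_zero, zero_mul, neg_zero, zero_add] at h3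
    refine ⟨by rw [h3]; nlinarith [mul_self_nonneg (q Z b₁), mul_self_nonneg (q Z b₂)], ?_⟩
    intro h4
    have h5 : q Z b₁ = 0 := by
      nlinarith [mul_self_nonneg (q Z b₁), mul_self_nonneg (q Z b₂)]
    have h6 : q Z b₂ = 0 := by
      nlinarith [mul_self_nonneg (q Z b₁), mul_self_nonneg (q Z b₂)]
    rw [h0, h5, h6, mul_zero, neg_zero, zero_smul, zero_smul, zero_smul, add_zero, add_zero] at h1
    exact h1
  refine ⟨key, ?_, ?_⟩
  · intro h3 h4
    exact (key h4).2 (le_antisymm h3 (key h4).1)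
  · intro h3 U hU hUU hUW hZU
    by_contra hc
    push Not at hc
    have hU2 := (hd U hU).2 U
    have hZ2 := h2 Z
    have hZU2 := h2 U
    obtain ⟨s, hs⟩ : ∃ s : ℝ, s = w * q Z W := ⟨_, rfl⟩
    obtain ⟨u, hu⟩ : ∃ u : ℝ, u = w * q U W := ⟨_, rfl⟩
    have hs0 : 0 < s := by rw [hs]; positivity
    have hu0 : u < 0 := by rw [hu]; exact mul_neg_of_pos_of_neg hw hUW
    rw [← hu] at hU2 hZU2
    rw [← hs] at hZ2 hZU2
    obtain ⟨x, hx⟩ : ∃ x : ℝ, x = q Z b₁ := ⟨_, rfl⟩
    obtain ⟨y, hy⟩ : ∃ y : ℝ, y = q Z b₂ := ⟨_, rfl⟩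
    obtain ⟨x', hx'⟩ : ∃ x' : ℝ, x' = q U b₁ := ⟨_, rfl⟩
    obtain ⟨y', hy'⟩ : ∃ y' : ℝ, y' = q U b₂ := ⟨_, rfl⟩
    rw [← hx, ← hy] at hZ2 hZU2
    rw [← hx', ← hy'] at hU2 hZU2
    have e1 : x ^ 2 + y ^ 2 ≤ s ^ 2 := by nlinarith
    have e2 : x' ^ 2 + y' ^ 2 < u ^ 2 := by nlinarith
    have e3 : (x * x' + y * y') ^ 2 ≤ (x ^ 2 + y ^ 2) * (x' ^ 2 + y' ^ 2) := by
      nlinarith [sq_nonneg (x * y' - y * x')]
    have e4 : (x ^ 2 + y ^ 2) * (x' ^ 2 + y' ^ 2) ≤ s ^ 2 * (x' ^ 2 + y' ^ 2) :=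
      mul_le_mul_of_nonneg_right e1 (by positivity)
    have e5 : s ^ 2 * (x' ^ 2 + y' ^ 2) < s ^ 2 * u ^ 2 :=
      mul_lt_mul_of_pos_left e2 (by positivity)
    have e6 : (x * x' + y * y') ^ 2 < (s * (-u)) ^ 2 := by
      calc (x * x' + y * y') ^ 2 < s ^ 2 * u ^ 2 := by linarith
        _ = (s * (-u)) ^ 2 := by ring
    have e7 : 0 < s * (-u) := mul_pos hs0 (by linarith)
    have e8 := (abs_lt_of_sq_lt_sq e6 e7.le)
    have e9 := (abs_lt.1 e8).1
    linarith

end A_revCS

alias revCS := A_revCS.revCS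

namespace A_unitCS

/- Proof:
frameW with A and W = U: V = -(q V U) U + x b1 + y b2 (q A V = 0), -1 = q V V = -(q V U)^2 + x^2 + y^2, so (q V U)^2 = 1 + x^2 + y^2 >= 1 and q U V < 0 gives q U V <= -1. For Z with q A Z = 0, q Z U = 0: Z = x' b1 + y' b2, q Z Z = x'^2+y'^2, (q Z V)^2 = (x x' + y y')^2 <= (x^2+y^2)(x'^2+y'^2) = ((q U V)^2 - 1) q Z Z.
-/
theorem unitCS {A U V : V4} (hA : q A A = -1) (hU : q U U = -1) (hV : q V V = -1) (hAU : q A U = 0) (hAV : q A V = 0)
    (hUV : q U V < 0) : q U V ≤ -1 ∧ ∀ Z, q A Z = 0 → q Z U = 0 → (q Z V) ^ 2 ≤ ((q U V) ^ 2 - 1) * q Z Z := by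
  obtain ⟨b₁, b₂, -, -, -, -, -, -, -, hexp, -⟩ := frameW hA hU hAU
  have hlin : ∀ (Z B₁ B₂ B₃ B₄ : V4) (a b c d : ℝ),
      q Z (a • B₁ + b • B₂ + c • B₃ + d • B₄) = a * q Z B₁ + b * q Z B₂ + c * q Z B₃ + d * q Z B₄ := by
    intro Z B₁ B₂ B₃ B₄ a b c d
    simp only [q, Pi.add_apply, Pi.smul_apply, smul_eq_mul]
    ring
  have hsymm : ∀ X Y : V4, q X Y = q Y X := by
    intro X Y
    simp only [q]
    ring
  have key : ∀ Z W : V4, q Z W = -(q W A) * q Z A + -(q W U) * q Z U + q W b₁ * q Z b₁ + q W b₂ * q Z b₂ := by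
    intro Z W
    conv_lhs => rw [hexp W]
    exact hlin _ _ _ _ _ _ _ _ _
  have hVA : q V A = 0 := by rw [hsymm]; exact hAV
  have h1 := key V V
  rw [hV, hVA] at h1
  have h2 : q V U = q U V := hsymm _ _
  rw [h2] at h1
  refine ⟨by nlinarith [sq_nonneg (q V b₁), sq_nonneg (q V b₂)], fun Z hAZ hZU => ?_⟩
  have hZA : q Z A = 0 := by rw [hsymm]; exact hAZ
  have h3 := key Z Z
  have h4 := key Z V
  rw [hZA, hZU] at h3 h4
  have h5 : (q U V) ^ 2 - 1 = q V b₁ ^ 2 + q V b₂ ^ 2 := by linarith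
  rw [h5, h3, h4]
  nlinarith [sq_nonneg (q V b₁ * q Z b₂ - q V b₂ * q Z b₁)]

end A_unitCS

alias unitCS := A_unitCS.unitCS

namespace A_exists_W

theorem exists_W {A Z : V4} (hA : q A A < 0) (hZ : q A Z = 0) (hZZ : 0 < q Z Z) :
    ∃ W, q W W = -1 ∧ q A W = 0 ∧ q Z W = 0 := by
  obtain ⟨W0, hW0⟩ : ∃ W0 : V4, W0 = ![A 3, 0, 0, -(A 0)] := ⟨_, rfl⟩
  have hA' : q A A < 0 := hA
  have h00 : W0 0 = A 3 := by rw [hW0]; rfl
  have h01 : W0 1 = 0 := by rw [hW0]; rfl
  have h02 : W0 2 = 0 := by rw [hW0]; rfl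
  have h03 : W0 3 = -(A 0) := by rw [hW0]; rfl
  have h1 : q W0 W0 < 0 := by
    unfold q at hA ⊢
    rw [h00, h01, h02, h03]
    nlinarith [mul_self_nonneg (A 1), mul_self_nonneg (A 2)]
  have h2 : q A W0 = 0 := by
    unfold q
    rw [h00, h01, h02, h03]
    ring
  obtain ⟨c, hc⟩ : ∃ c, c = q Z W0 := ⟨_, rfl⟩
  obtain ⟨d, hd⟩ : ∃ d, d = q Z Z := ⟨_, rfl⟩
  obtain ⟨W1, hW1⟩ : ∃ W1 : V4, W1 = d • W0 - c • Z := ⟨_, rfl⟩
  have key : ∀ X : V4, q X W1 = d * q X W0 - c * q X Z := by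
    intro X
    rw [hW1]
    simp only [q, Pi.sub_apply, Pi.smul_apply, smul_eq_mul]
    ring
  have sym : ∀ X Y : V4, q X Y = q Y X := by
    intro X Y
    simp only [q]
    ring
  have h3 : q W1 W1 = d * (d * q W0 W0 - c ^ 2) := by
    rw [key W1, sym W1 W0, sym W1 Z, key W0, key Z, sym W0 Z, ← hc, ← hd]
    ring
  have h4 : q W1 W1 < 0 := by
    rw [h3]
    have hd0 : 0 < d := by rw [hd]; exact hZZ
    have : d * q W0 W0 - c ^ 2 < 0 := by nlinarith [sq_nonneg c]
    exact mul_neg_of_pos_of_neg hd0 this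
  have h5 : q A W1 = 0 := by rw [key, h2, hZ]; ring
  have h6 : q Z W1 = 0 := by rw [key, ← hc, ← hd]; ring
  have hs : 0 < Real.sqrt (-(q W1 W1)) := Real.sqrt_pos.2 (by linarith)
  have hss : Real.sqrt (-(q W1 W1)) * Real.sqrt (-(q W1 W1)) = -(q W1 W1) :=
    Real.mul_self_sqrt (by linarith)
  obtain ⟨r, hr⟩ : ∃ r, r = Real.sqrt (-(q W1 W1)) := ⟨_, rfl⟩
  rw [← hr] at hs hss
  have sm : ∀ X Y : V4, ∀ t : ℝ, q X (t • Y) = t * q X Y := by
    intro X Y t
    simp only [q, Pi.smul_apply, smul_eq_mul]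
    ring
  refine ⟨r⁻¹ • W1, ?_, ?_, ?_⟩
  · rw [sm, sym, sm]
    have : q W1 W1 = -(r * r) := by linarith
    rw [this]
    field_simp
  · rw [sm, h5, mul_zero]
  · rw [sm, h6, mul_zero]

end A_exists_W

alias exists_W := A_exists_W.exists_W

namespace A_orient6

/- Proof:
For s in [0,1] let Y(s) = (1-s) Y0 + s Y1. q Y(s) Y(s) = -(1-s)^2 - s^2 + 2 s (1-s) q Y0 Y1 < 0 (if q Y0 Y1 < 1: it is < -(1-s)^2 - s^2 + 2s(1-s) = -(1-2s)^2 <= 0 for 0<s<1; at the ends it is -1). q Y(s) xi < 0. V(s) = vv (Y s) N xi satisfies q (Y s)(V s) = -(q Y xi)(q Y N) + (q Y N)(q Y xi) = 0 and q (V s)(V s) = (q Y xi)^2 q N N + 0 + 0 = -(q (Y s) xi)^2 < 0 (q xi xi = 0, q xi N = 0). By omega_ne omega (Y s)(V s) ≠ 0 for all s in [0,1]; it is continuous in s, so it has constant sign (intermediate value theorem).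
-/
theorem orient6 {Y₀ Y₁ N ξ : V4} (h0 : q Y₀ Y₀ = -1) (h1 : q Y₁ Y₁ = -1) (hlt : q Y₀ Y₁ < 1) (hξ : q ξ ξ = 0)
    (hξN : q ξ N = 0) (hN : q N N = -1) (h0ξ : q Y₀ ξ < 0) (h1ξ : q Y₁ ξ < 0) :
    0 < omega Y₀ (vv Y₀ N ξ) * omega Y₁ (vv Y₁ N ξ) := by
  set Y : ℝ → V4 := fun s => (1 - s) • Y₀ + s • Y₁ with hY
  set φ : ℝ → ℝ := fun s => omega (Y s) (vv (Y s) N ξ) with hφ
  have hcont : Continuous φ := by
    simp only [hφ, hY, omega, vv, q, Pi.add_apply, Pi.smul_apply, smul_eq_mul]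
    fun_prop
  have hne : ∀ s : ℝ, 0 ≤ s → s ≤ 1 → φ s ≠ 0 := by
    intro s hs0 hs1
    have hYY : q (Y s) (Y s) < 0 := by
      have e : q (Y s) (Y s) = (1 - s) ^ 2 * q Y₀ Y₀ + 2 * (s * (1 - s)) * q Y₀ Y₁ + s ^ 2 * q Y₁ Y₁ := by
        simp only [hY, q, Pi.add_apply, Pi.smul_apply, smul_eq_mul]
        ring
      rw [e, h0, h1]
      have h2 : 0 ≤ s * (1 - s) := mul_nonneg hs0 (by linarith)
      rcases h2.lt_or_eq with h3 | h3
      · have h4 : s * (1 - s) * q Y₀ Y₁ < s * (1 - s) * 1 := mul_lt_mul_of_pos_left hlt h3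
        nlinarith [sq_nonneg (1 - 2 * s)]
      · rw [← h3]
        nlinarith
    have hYξ : q (Y s) ξ < 0 := by
      have e : q (Y s) ξ = (1 - s) * q Y₀ ξ + s * q Y₁ ξ := by
        simp only [hY, q, Pi.add_apply, Pi.smul_apply, smul_eq_mul]
        ring
      rw [e]
      rcases hs0.lt_or_eq with h2 | h2
      · have h3 : s * q Y₁ ξ < 0 := mul_neg_of_pos_of_neg h2 h1ξ
        have h4 : (1 - s) * q Y₀ ξ ≤ 0 := mul_nonpos_of_nonneg_of_nonpos (by linarith) h0ξ.le
        linarith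
      · rw [← h2]
        linarith
    refine omega_ne hYY ?_ ?_
    · have e : q (Y s) (vv (Y s) N ξ) = -(q (Y s) ξ) * q (Y s) N + q (Y s) N * q (Y s) ξ := by
        simp only [vv, q, Pi.add_apply, Pi.smul_apply, smul_eq_mul]
        ring
      rw [e]
      ring
    · have e : q (vv (Y s) N ξ) (vv (Y s) N ξ) = (q (Y s) ξ) ^ 2 * q N N
          - 2 * q (Y s) ξ * q (Y s) N * q ξ N + (q (Y s) N) ^ 2 * q ξ ξ := by
        simp only [vv, q, Pi.add_apply, Pi.smul_apply, smul_eq_mul]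
        ring
      rw [e, hN, hξN, hξ]
      have h2 : 0 < (q (Y s) ξ) ^ 2 := sq_pos_of_neg hYξ
      linarith
  have hY0 : Y 0 = Y₀ := by
    simp [hY]
  have hY1 : Y 1 = Y₁ := by
    simp [hY]
  have hφ0 : φ 0 = omega Y₀ (vv Y₀ N ξ) := by
    simp only [hφ, hY0]
  have hφ1 : φ 1 = omega Y₁ (vv Y₁ N ξ) := by
    simp only [hφ, hY1]
  rw [← hφ0, ← hφ1]
  have hn0 := hne 0 le_rfl zero_le_one
  have hn1 := hne 1 zero_le_one le_rfl
  rcases lt_or_gt_of_ne hn0 with h2 | h2
  · rcases lt_or_gt_of_ne hn1 with h3 | h3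
    · exact mul_pos_of_neg_of_neg h2 h3
    · obtain ⟨s, hs, hs'⟩ := intermediate_value_Icc zero_le_one hcont.continuousOn
        (⟨h2.le, h3.le⟩ : (0 : ℝ) ∈ Set.Icc (φ 0) (φ 1))
      exact absurd hs' (hne s hs.1 hs.2)
  · rcases lt_or_gt_of_ne hn1 with h3 | h3
    · obtain ⟨s, hs, hs'⟩ := intermediate_value_Icc' zero_le_one hcont.continuousOn
        (⟨h3.le, h2.le⟩ : (0 : ℝ) ∈ Set.Icc (φ 1) (φ 0))
      exact absurd hs' (hne s hs.1 hs.2)
    · exact mul_pos h2 h3

end A_orient6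

alias orient6 := A_orient6.orient6

namespace A_vvprops

/- Proof:
direct computation (q bilinear symmetric): q Y (vv Y N xi) = -(q Y xi)(q Y N) + (q Y N)(q Y xi) = 0; q (vv)(vv) = (q Y xi)^2 q N N + (q Y N)^2 q xi xi - 2 (q Y xi)(q Y N) q N xi = -(q Y xi)^2.
-/
theorem vvprops {Y N ξ : V4} (hξ : q ξ ξ = 0) (hξN : q ξ N = 0) (hN : q N N = -1) :
    q Y (vv Y N ξ) = 0 ∧ q (vv Y N ξ) (vv Y N ξ) = -(q Y ξ) ^ 2 := by
  have h1 : q Y (vv Y N ξ) = -(q Y ξ) * q Y N + q Y N * q Y ξ := by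
    simp only [q, vv, Pi.add_apply, Pi.smul_apply, smul_eq_mul]; ring
  have h2 : q (vv Y N ξ) (vv Y N ξ) = (q Y ξ) ^ 2 * q N N + (q Y N) ^ 2 * q ξ ξ
      - 2 * (q Y ξ) * (q Y N) * q ξ N := by
    simp only [q, vv, Pi.add_apply, Pi.smul_apply, smul_eq_mul]; ring
  constructor
  · rw [h1]; ring
  · rw [h2, hξ, hξN, hN]; ring

end A_vvprops

alias vvprops := A_vvprops.vvprops

end Helper935.Poly
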