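import Pool.Agent.Helper935_AdS.PLink

namespace Helper935.Poly

namespace A_det3_lin

/- Proof:
det3 x y z is the determinant (Matrix.det_fin_three), multilinear and alternating: expand everything in coordinates. Last claim: if det3 x y y' ≠ 0 then x, y, y' are a basis of V3 and z = l x + a y + b y' with det3 x y z = b det3 x y y', det3 x z y' = a det3 x y y' (Cramer: l = det3 z y y' / det3 x y y').
-/
theorem det3_lin_expand (x y z : V3) : det3 x y z =
    x 0 * y 1 * z 2 - x 0 * y 2 * z 1 - x 1 * y 0 * z 2 + x 1 * y 2 * z 0 + x 2 * y 0 * z 1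
      - x 2 * y 1 * z 0 := by
  unfold det3
  rw [Matrix.det_fin_three]
  simp [Matrix.of_apply]

theorem det3_lin (x y y' : V3) :
    (∀ l a b : ℝ, det3 x y (l • x + a • y + b • y') = b * det3 x y y' ∧
      det3 x (l • x + a • y + b • y') y' = a * det3 x y y' ∧ det3 (l • x + a • y + b • y') y y' = l * det3 x y y') ∧
    (det3 x y y' ≠ 0 → ∀ z : V3, z = (det3 z y y' / det3 x y y') • x + (det3 x z y' / det3 x y y') • y
      + (det3 x y z / det3 x y y') • y') := by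
  refine ⟨fun l a b => ?_, fun h z => ?_⟩
  · simp only [det3_lin_expand, Pi.add_apply, Pi.smul_apply, smul_eq_mul]
    refine ⟨by ring, by ring, by ring⟩
  · have key : ∀ i : Fin 3, det3 x y y' * z i =
        det3 z y y' * x i + det3 x z y' * y i + det3 x y z * y' i := by
      intro i
      simp only [det3_lin_expand]
      fin_cases i
      · show _ * z 0 = _ * x 0 + _ * y 0 + _ * y' 0
        ring
      · show _ * z 1 = _ * x 1 + _ * y 1 + _ * y' 1
        ring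
      · show _ * z 2 = _ * x 2 + _ * y 2 + _ * y' 2
        ring
    funext i
    simp only [Pi.add_apply, Pi.smul_apply, smul_eq_mul]
    have hk := key i
    field_simp
    linarith

end A_det3_lin

alias det3_lin := A_det3_lin.det3_lin

namespace A_det4_lin

/- Proof:
det4 is the 4x4 determinant: multilinear and alternating (Matrix.det_succ_row_zero / Matrix.det_updateRow_add etc., or expand in coordinates with Fin.sum_univ_succ). Last claim: if the four vectors were linearly dependent the determinant would vanish; conversely a nonzero determinant gives a basis.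
-/
theorem det4_lin (a b c d a' b' c' d' : V4) (s t : ℝ) :
    det4 (s • a + t • a') b c d = s * det4 a b c d + t * det4 a' b c d ∧
    det4 a (s • b + t • b') c d = s * det4 a b c d + t * det4 a b' c d ∧
    det4 a b (s • c + t • c') d = s * det4 a b c d + t * det4 a b c' d ∧
    det4 a b c (s • d + t • d') = s * det4 a b c d + t * det4 a b c d' ∧
    det4 a a c d = 0 ∧ det4 a b a d = 0 ∧ det4 a b c a = 0 ∧ det4 a b b d = 0 ∧ det4 a b c b = 0 ∧ det4 a b c c = 0 ∧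
    (det4 a b c d ≠ 0 → ∀ Z : V4, ∃ r₁ r₂ r₃ r₄ : ℝ, Z = r₁ • a + r₂ • b + r₃ • c + r₄ • d) := by
  refine ⟨?_, ?_, ?_, ?_, ?_, ?_, ?_, ?_, ?_, ?_, ?_⟩
  · simp [det4, Matrix.det_succ_row_zero, Fin.sum_univ_succ, Fin.succAbove, Matrix.submatrix]; ring
  · simp [det4, Matrix.det_succ_row_zero, Fin.sum_univ_succ, Fin.succAbove, Matrix.submatrix]; ring
  · simp [det4, Matrix.det_succ_row_zero, Fin.sum_univ_succ, Fin.succAbove, Matrix.submatrix]; ring
  · simp [det4, Matrix.det_succ_row_zero, Fin.sum_univ_succ, Fin.succAbove, Matrix.submatrix]; ring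
  · exact Matrix.det_zero_of_row_eq (i := 0) (j := 1) (by decide) rfl
  · exact Matrix.det_zero_of_row_eq (i := 0) (j := 2) (by decide) rfl
  · exact Matrix.det_zero_of_row_eq (i := 0) (j := 3) (by decide) rfl
  · exact Matrix.det_zero_of_row_eq (i := 1) (j := 2) (by decide) rfl
  · exact Matrix.det_zero_of_row_eq (i := 1) (j := 3) (by decide) rfl
  · exact Matrix.det_zero_of_row_eq (i := 2) (j := 3) (by decide) rfl
  · intro h Z
    have hM : IsUnit (Matrix.of ![a, b, c, d]).det := isUnit_iff_ne_zero.mpr h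
    refine ⟨(Matrix.vecMul Z (Matrix.of ![a, b, c, d])⁻¹) 0, (Matrix.vecMul Z (Matrix.of ![a, b, c, d])⁻¹) 1,
      (Matrix.vecMul Z (Matrix.of ![a, b, c, d])⁻¹) 2, (Matrix.vecMul Z (Matrix.of ![a, b, c, d])⁻¹) 3, ?_⟩
    have h1 : Matrix.vecMul (Matrix.vecMul Z (Matrix.of ![a, b, c, d])⁻¹) (Matrix.of ![a, b, c, d]) = Z := by
      rw [Matrix.vecMul_vecMul, Matrix.nonsing_inv_mul _ hM, Matrix.vecMul_one]
    have h2 : ∀ w : V4, Matrix.vecMul w (Matrix.of ![a, b, c, d]) =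
        w 0 • a + w 1 • b + w 2 • c + w 3 • d := by
      intro w
      ext j
      simp [Matrix.vecMul, dotProduct, Fin.sum_univ_succ]
      ring
    rw [← h2]
    exact h1.symm

end A_det4_lin

alias det4_lin := A_det4_lin.det4_lin

namespace A_nrm_props

/- Proof:
nrm Y x = r • Y x with r = (sqrt(-q (Y x)(Y x)))^-1 > 0 (h.neg); q (nrm)(nrm) = r^2 q (Y x)(Y x) = -1; Y x = r^-1 nrm Y x. q (n i)(nrm Y x) = r q (n i)(Y x) = 0.
-/
theorem nrm_props {ι : Type*} {C : ι → Set V3} {Y : V3 → V4} {n : ι → V4} (h : IsPolyhedral C Y n) {x : V3} (hx : x ∈ H2) :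
    (∃ r : ℝ, 0 < r ∧ nrm Y x = r • Y x ∧ Y x = r⁻¹ • nrm Y x ∧ r = (Real.sqrt (-(q (Y x) (Y x))))⁻¹) ∧
    q (nrm Y x) (nrm Y x) = -1 ∧ ∀ i, x ∈ C i → q (n i) (nrm Y x) = 0 := by
  have hneg : 0 < -(q (Y x) (Y x)) := by linarith [h.neg x hx]
  have hs : 0 < Real.sqrt (-(q (Y x) (Y x))) := Real.sqrt_pos.mpr hneg
  have hsq : Real.sqrt (-(q (Y x) (Y x))) * Real.sqrt (-(q (Y x) (Y x))) = -(q (Y x) (Y x)) :=
    Real.mul_self_sqrt hneg.le
  have hr : nrm Y x = (Real.sqrt (-(q (Y x) (Y x))))⁻¹ • Y x := rfl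
  refine ⟨⟨(Real.sqrt (-(q (Y x) (Y x))))⁻¹, inv_pos.mpr hs, hr, ?_, rfl⟩, ?_, ?_⟩
  · rw [hr, smul_smul, inv_inv, mul_inv_cancel₀ hs.ne', one_smul]
  · have key : ∀ r : ℝ, q (r • Y x) (r • Y x) = r * r * q (Y x) (Y x) := by
      intro r
      simp only [q, Pi.smul_apply, smul_eq_mul]
      ring
    rw [hr, key, ← mul_inv, hsq]
    have h0 : q (Y x) (Y x) ≠ 0 := (h.neg x hx).ne
    rw [inv_neg, neg_mul, inv_mul_cancel₀ h0]
  · intro i hi
    have key : ∀ r : ℝ, q (n i) (r • Y x) = r * q (n i) (Y x) := by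
      intro r
      simp only [q, Pi.smul_apply, smul_eq_mul]
      ring
    rw [hr, key, h.nY i x hi, mul_zero]

end A_nrm_props

alias nrm_props := A_nrm_props.nrm_props

namespace A_seg_pt

/- Proof:
w = a x + b y is nonzero; if a = 0 take z = y, r = b; if b = 0 take z = x, r = a. Otherwise w is in Cone: x, y in H2 have eta x y <= -1, so eta w w = -a^2 - b^2 + 2 a b eta x y < 0 and w 0 > 0. r = sqrt(-eta w w), z = r^-1 w in H2. If x, y in C j then w in C j (add, smul) and z = r^-1 w in C j (smul).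
-/
theorem seg_pt {ι : Type*} {C : ι → Set V3} (hC : IsSubdivision C) {x y : V3} (hx : x ∈ H2) (hy : y ∈ H2)
    {a b : ℝ} (ha : 0 ≤ a) (hb : 0 ≤ b) (hab : 0 < a + b) :
    ∃ z ∈ H2, ∃ r : ℝ, 0 < r ∧ a • x + b • y = r • z ∧ ∀ j, x ∈ C j → y ∈ C j → z ∈ C j := by
  obtain ⟨hx1, hx0⟩ := hx
  obtain ⟨hy1, hy0⟩ := hy
  have hxy : eta x y ≤ -1 := by
    unfold eta at hx1 hy1 ⊢
    have h1 : x 0 * x 0 = 1 + x 1 * x 1 + x 2 * x 2 := by linarith
    have h2 : y 0 * y 0 = 1 + y 1 * y 1 + y 2 * y 2 := by linarith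
    have h3 : (1 + x 1 * y 1 + x 2 * y 2) ^ 2 ≤ (x 0 * y 0) ^ 2 := by
      have h4 : (x 0 * y 0) ^ 2 = (1 + x 1 * x 1 + x 2 * x 2) * (1 + y 1 * y 1 + y 2 * y 2) := by
        rw [← h1, ← h2]; ring
      rw [h4]
      nlinarith [sq_nonneg (x 1 - y 1), sq_nonneg (x 2 - y 2), sq_nonneg (x 1 * y 2 - x 2 * y 1)]
    have h5 : 1 + x 1 * y 1 + x 2 * y 2 ≤ x 0 * y 0 := by
      have h6 : 0 < x 0 * y 0 := mul_pos hx0 hy0
      exact (abs_le_of_sq_le_sq' h3 h6.le).2
    linarith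
  set w : V3 := a • x + b • y with hw
  have hww : eta w w = -(a ^ 2) - b ^ 2 + 2 * a * b * eta x y := by
    have e : eta w w = a ^ 2 * eta x x + b ^ 2 * eta y y + 2 * a * b * eta x y := by
      simp only [hw, eta, Pi.add_apply, Pi.smul_apply, smul_eq_mul]
      ring
    rw [e, hx1, hy1]; ring
  have hneg : eta w w < 0 := by
    rw [hww]
    have hab2 : 0 ≤ a * b := mul_nonneg ha hb
    nlinarith [mul_nonneg hab2 (by linarith : (0:ℝ) ≤ -1 - eta x y), mul_pos hab hab]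
  have hw0 : 0 < w 0 := by
    have e : w 0 = a * x 0 + b * y 0 := by
      simp [hw]
    rw [e]
    rcases ha.eq_or_lt with h | h
    · have hb' : 0 < b := by linarith
      have h1 : 0 < b * y 0 := mul_pos hb' hy0
      rw [← h]; linarith
    · have h1 : 0 < a * x 0 := mul_pos h hx0
      have h2 : 0 ≤ b * y 0 := mul_nonneg hb hy0.le
      linarith
  set r : ℝ := Real.sqrt (-(eta w w)) with hr
  have hrpos : 0 < r := Real.sqrt_pos.mpr (by linarith)
  have hr2 : r ^ 2 = -(eta w w) := Real.sq_sqrt (by linarith)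
  have hzz : eta (r⁻¹ • w) (r⁻¹ • w) = -1 := by
    have e : eta (r⁻¹ • w) (r⁻¹ • w) = r⁻¹ ^ 2 * eta w w := by
      simp only [eta, Pi.smul_apply, smul_eq_mul]
      ring
    have e2 : eta w w = -(r ^ 2) := by linarith
    rw [e, e2]
    field_simp
  refine ⟨r⁻¹ • w, ⟨hzz, ?_⟩, r, hrpos, ?_, ?_⟩
  · have e : (r⁻¹ • w) 0 = r⁻¹ * w 0 := by simp
    rw [e]
    exact mul_pos (inv_pos.mpr hrpos) hw0
  · rw [smul_smul, mul_inv_cancel₀ hrpos.ne', one_smul]
  · intro j hxj hyj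
    have hwj : w ∈ C j := by
      rcases ha.eq_or_lt with h | h
      · have hb' : 0 < b := by linarith
        have e : w = b • y := by
          rw [hw, ← h, zero_smul, zero_add]
        rw [e]
        exact hC.smul j y hyj b hb'
      · rcases hb.eq_or_lt with h' | h'
        · have e : w = a • x := by
            rw [hw, ← h', zero_smul, add_zero]
          rw [e]
          exact hC.smul j x hxj a h
        · exact hC.add j _ (hC.smul j x hxj a h) _ (hC.smul j y hyj b h')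
    exact hC.smul j w hwj _ (inv_pos.mpr hrpos)

end A_seg_pt

alias seg_pt := A_seg_pt.seg_pt

namespace A_pcomb

/- Proof:
Cases a = 0 or b = 0 or both positive: Y (a x + b y) = a Y x + b Y y by h.add and h.smul (a x, b y in C i since C i is closed under positive multiples). Y (r z) = r Y z by h.smul (z in C i).
-/
theorem pcomb {ι : Type*} {C : ι → Set V3} {Y : V3 → V4} {n : ι → V4} (h : IsPolyhedral C Y n) (hC : IsSubdivision C) {i : ι} {x y z : V3} (hx : x ∈ C i) (hy : y ∈ C i) (hz : z ∈ C i) {a b r : ℝ} (ha : 0 ≤ a) (hb : 0 ≤ b)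
    (hr : 0 < r) (hab : 0 < a + b) (hz' : a • x + b • y = r • z) : Y z = r⁻¹ • (a • Y x + b • Y y) := by
  have key : Y (r • z) = a • Y x + b • Y y := by
    rw [← hz']
    rcases ha.eq_or_lt with ha0 | ha0
    · rcases hb.eq_or_lt with hb0 | hb0
      · rw [← ha0, ← hb0] at hab
        simp at hab
      · rw [← ha0]
        simp only [zero_smul, zero_add]
        exact h.smul i y hy b hb0
    · rcases hb.eq_or_lt with hb0 | hb0
      · rw [← hb0]
        simp only [zero_smul, add_zero]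
        exact h.smul i x hx a ha0
      · rw [h.add i _ (hC.smul i x hx a ha0) _ (hC.smul i y hy b hb0),
          h.smul i x hx a ha0, h.smul i y hy b hb0]
  rw [← key, h.smul i z hz r hr, smul_smul, inv_mul_cancel₀ hr.ne', one_smul]

end A_pcomb

alias pcomb := A_pcomb.pcomb

namespace A_same_nrm

/- Proof:
In the cell C i: q (Y x)(Y y) = q (Y' x)(Y' y), q (Y x)(Y x) = q (Y' x)(Y' x), and nrm Y x = (sqrt(-q (Y x)(Y x)))^-1 Y x: so q (nrm Y x)(nrm Y y) = q (nrm Y' x)(nrm Y' y) for x, y in C i; uv is a combination of nrm's with coefficients given by such products (uv Y x y = c • (nrm Y y + p • nrm Y x)), expand.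
-/
theorem same_nrm {ι : Type*} {C : ι → Set V3} {Y Y' : V3 → V4} (hs : SameCellMetric C Y Y') {i : ι} {x y z : V3}
    (hx : x ∈ C i) (hy : y ∈ C i) (hz : z ∈ C i) :
    q (nrm Y x) (nrm Y y) = q (nrm Y' x) (nrm Y' y) ∧ q (uv Y x y) (uv Y x z) = q (uv Y' x y) (uv Y' x z) := by
  have key : ∀ a b, a ∈ C i → b ∈ C i → q (nrm Y a) (nrm Y b) = q (nrm Y' a) (nrm Y' b) := by
    intro a b ha hb
    have h1 := hs i a ha b hb
    have h2 := hs i a ha a ha
    have h3 := hs i b hb b hb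
    unfold nrm
    rw [h2, h3]
    have e : ∀ (s t : ℝ) (U V : V4), q (s • U) (t • V) = s * t * q U V := by
      intro s t U V
      simp only [q, Pi.smul_apply, smul_eq_mul]
      ring
    rw [e, e, h1]
  refine ⟨key x y hx hy, ?_⟩
  have e2 : ∀ (c d p r : ℝ) (A B D : V4), q (c • (A + p • B)) (d • (D + r • B)) =
      c * d * (q A D + r * q A B + p * q B D + p * r * q B B) := by
    intro c d p r A B D
    simp only [q, Pi.smul_apply, Pi.add_apply, smul_eq_mul]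
    ring
  unfold uv
  rw [e2, e2, key x y hx hy, key x z hx hz, key y z hy hz, key y x hy hx, key x x hx hx]

end A_same_nrm

alias same_nrm := A_same_nrm.same_nrm

namespace A_uv_props

private theorem uvp_add (A B D : V4) : q A (B + D) = q A B + q A D := by
  simp only [q, Pi.add_apply]; ring

private theorem uvp_smul (A B : V4) (t : ℝ) : q A (t • B) = t * q A B := by
  simp only [q, Pi.smul_apply, smul_eq_mul]; ring

private theorem uvp_symm (A B : V4) : q A B = q B A := by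
  simp only [q]; ring

/- Proof:
Let X = nrm Y x, X' = nrm Y y, c = -q X X' >= 1 (h.chord). c > 1: suppose c = 1. D = X' - X satisfies q D D = -1 - 1 + 2 = 0, q X D = -1... compute q X D = q X X' + 1 = 0. n i is timelike, orthogonal to X and to D (q (n i) X = 0 = q (n i) X', nrm_props). revCS (A = X, W = n i, Z = D): q D (n i) = 0 gives D = 0 (q D D = 0). So X = X', Y x = r^-1 X, Y y = r'^-1 X, Y x = t Y y with t > 0, hence x = y (h.inj): contradiction.
uv Y x y = (sqrt(c^2-1))^-1 (X' - c X). q (X' - c X)(X' - c X) = -1 + 2c^2... = -1 -2c q X X' ... compute: q X' X' - 2c q X X' + c^2 q X X = -1 + 2c^2 - c^2 = c^2 - 1 > 0. q X (X' - cX) = -c + c = 0. q (n l)(uv) = (sqrt)^-1 q (n l) X' for x in C l (q (n l) X = 0), which is <= 0 by h.supp and = 0 if also y in C l. Last: X' = c X + sqrt(c^2-1) uv.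
-/
theorem uv_props {ι : Type*} {C : ι → Set V3} {Y : V3 → V4} {n : ι → V4} (h : PolyGood C Y n) {x y : V3} (hx : x ∈ H2) (hy : y ∈ H2) (hxy : x ≠ y) {i : ι} (hxi : x ∈ C i) (hyi : y ∈ C i) :
    1 < -q (nrm Y x) (nrm Y y) ∧ q (uv Y x y) (uv Y x y) = 1 ∧ q (nrm Y x) (uv Y x y) = 0 ∧ q (n i) (uv Y x y) = 0 ∧
    (∀ l, x ∈ C l → q (n l) (uv Y x y) ≤ 0) ∧
    nrm Y y = (-q (nrm Y x) (nrm Y y)) • nrm Y x + Real.sqrt ((q (nrm Y x) (nrm Y y)) ^ 2 - 1) • uv Y x y := by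
  obtain ⟨⟨r, hr, hX, hYx, -⟩, hXX, hnX⟩ := nrm_props h.poly hx
  obtain ⟨⟨r', hr', hX', hYy, -⟩, hXX', hnX'⟩ := nrm_props h.poly hy
  have hch := h.chord x hx y hy
  have huv : uv Y x y = (Real.sqrt ((q (nrm Y x) (nrm Y y)) ^ 2 - 1))⁻¹ •
      (nrm Y y + q (nrm Y x) (nrm Y y) • nrm Y x) := rfl
  obtain ⟨X, eX⟩ : ∃ X, X = nrm Y x := ⟨_, rfl⟩
  obtain ⟨X', eX'⟩ : ∃ X', X' = nrm Y y := ⟨_, rfl⟩
  obtain ⟨p, ep⟩ : ∃ p, p = q (nrm Y x) (nrm Y y) := ⟨_, rfl⟩
  have ep' : q X X' = p := by rw [eX, eX', ep]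
  rw [huv]
  rw [← ep, ← eX, ← eX']
  rw [← ep] at hch
  rw [← eX] at hX hYx hXX
  rw [← eX'] at hX' hYy hXX'
  simp only [← eX] at hnX
  simp only [← eX'] at hnX'
  have ep2 : q X' X = p := by rw [uvp_symm, ep']
  have hlt : p < -1 := by
    rcases lt_or_eq_of_le hch with h1 | h1
    · exact h1
    exfalso
    obtain ⟨D, eD⟩ : ∃ D, D = X' + (-1 : ℝ) • X := ⟨_, rfl⟩
    have hDA : ∀ A, q A D = q A X' + (-1) * q A X := by
      intro A; rw [eD, uvp_add, uvp_smul]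
    have h2 : q X D = 0 := by rw [hDA, ep', hXX, h1]; ring
    have h3 : q X' D = 0 := by rw [hDA, ep2, hXX', h1]; ring
    have h4 : q D D = 0 := by
      rw [hDA, uvp_symm D X', uvp_symm D X, h2, h3]; ring
    have h5 : q D (n i) = 0 := by
      rw [uvp_symm, hDA, hnX' i hyi, hnX i hxi]; ring
    have h6 := (revCS (A := X) (W := n i) (by rw [hXX]; norm_num)
      (by rw [h.poly.nn]; norm_num) (by rw [uvp_symm]; exact hnX i hxi) (Z := D) h2).1 h5
    have h7 := h6.2 h4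
    have h8 : X' = X := by
      have : X' + (-1 : ℝ) • X = 0 := by rw [← eD]; exact h7
      have h9 : X' = X' + (-1 : ℝ) • X + X := by
        rw [neg_one_smul]; abel
      rw [h9, this, zero_add]
    have h9 : Y x = (r⁻¹ * r') • Y y := by
      rw [hYx, ← h8, hX', smul_smul]
    exact hxy (h.inj x hx y hy (r⁻¹ * r') (mul_pos (inv_pos.2 hr) hr') h9)
  have hpos : 0 < p ^ 2 - 1 := by nlinarith
  obtain ⟨s, es⟩ : ∃ s, s = Real.sqrt (p ^ 2 - 1) := ⟨_, rfl⟩
  have hs : 0 < s := by rw [es]; exact Real.sqrt_pos.2 hpos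
  have hss : s ^ 2 = p ^ 2 - 1 := by rw [es]; exact Real.sq_sqrt hpos.le
  rw [← es]
  have hu : ∀ A, q A (s⁻¹ • (X' + p • X)) = s⁻¹ * (q A X' + p * q A X) := by
    intro A; rw [uvp_smul, uvp_add, uvp_smul]
  have hXu : q X (s⁻¹ • (X' + p • X)) = 0 := by rw [hu, ep', hXX]; ring
  have hnu : ∀ l, x ∈ C l → q (n l) (s⁻¹ • (X' + p • X)) ≤ 0 := by
    intro l hl
    rw [hu, hnX l hl, mul_zero, add_zero]
    have h1 := h.supp l y hy
    have h2 : q (n l) X' ≤ 0 := by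
      rw [hX', uvp_smul]
      exact mul_nonpos_of_nonneg_of_nonpos hr'.le h1
    exact mul_nonpos_of_nonneg_of_nonpos (inv_pos.2 hs).le h2
  refine ⟨by linarith, ?_, hXu, ?_, hnu, ?_⟩
  · rw [hu, uvp_symm _ X, hXu, mul_zero, add_zero, uvp_symm _ X', hu, hXX', ep2]
    have : s⁻¹ * (s⁻¹ * (-1 + p * p)) = s⁻¹ * s⁻¹ * s ^ 2 := by rw [hss]; ring
    rw [this]
    field_simp
  · rw [hu, hnX' i hyi, hnX i hxi]; ring
  · rw [smul_smul, mul_inv_cancel₀ hs.ne', one_smul]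
    rw [neg_smul]; abel

end A_uv_props

alias uv_props := A_uv_props.uv_props

namespace A_seg_uv

theorem segaux_qadd (A B C : V4) : q (A + B) C = q A C + q B C := by
  simp only [q, Pi.add_apply]; ring

theorem segaux_qadd' (A B C : V4) : q A (B + C) = q A B + q A C := by
  simp only [q, Pi.add_apply]; ring

theorem segaux_qsmul (t : ℝ) (A B : V4) : q (t • A) B = t * q A B := by
  simp only [q, Pi.smul_apply, smul_eq_mul]; ring

theorem segaux_qsmul' (t : ℝ) (A B : V4) : q A (t • B) = t * q A B := by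
  simp only [q, Pi.smul_apply, smul_eq_mul]; ring

theorem segaux_qcomm (A B : V4) : q A B = q B A := by
  simp only [q]; ring

theorem segaux_key {ι : Type*} {C : ι → Set V3} {Y : V3 → V4} {n : ι → V4} (h : PolyGood C Y n)
    {x y z : V3} (hx : x ∈ H2) (hy : y ∈ H2) (hxy : x ≠ y) {i : ι} (hxi : x ∈ C i) (hyi : y ∈ C i)
    (hzi : z ∈ C i) {l s a b r : ℝ} (hl : 0 < l)
    (hc : -q (nrm Y x) (nrm Y y) = Real.cosh l)
    (hr : 0 < r) (ha0 : 0 ≤ a) (hb0 : 0 ≤ b) (hab0 : 0 < a + b)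
    (hz : a • x + b • y = r • z)
    (ha : a = Real.sinh (l - s) / Real.sinh l * (Real.sqrt (-(q (Y x) (Y x))))⁻¹)
    (hb : b = Real.sinh s / Real.sinh l * (Real.sqrt (-(q (Y y) (Y y))))⁻¹) :
    nrm Y z = Real.cosh s • nrm Y x + Real.sinh s • uv Y x y := by
  obtain ⟨h1, h2, h3, h4, h5, h6⟩ := uv_props h hx hy hxy hxi hyi
  have hXX := (nrm_props h.poly hx).2.1
  have hsl : 0 < Real.sinh l := Real.sinh_pos_iff.2 hl
  have hsq : Real.sqrt ((q (nrm Y x) (nrm Y y)) ^ 2 - 1) = Real.sinh l := by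
    have : (q (nrm Y x) (nrm Y y)) ^ 2 - 1 = Real.sinh l ^ 2 := by
      have e := Real.cosh_sq l
      rw [← hc] at e
      nlinarith
    rw [this, Real.sqrt_sq hsl.le]
  rw [hsq, hc] at h6
  have hW : a • Y x + b • Y y = Real.cosh s • nrm Y x + Real.sinh s • uv Y x y := by
    have e1 : a • Y x = (Real.sinh (l - s) / Real.sinh l) • nrm Y x := by
      rw [ha, nrm, smul_smul]
    have e2 : b • Y y = (Real.sinh s / Real.sinh l) • nrm Y y := by
      rw [hb, nrm, smul_smul]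
    rw [e1, e2, h6, Real.sinh_sub]
    ext k
    simp only [Pi.add_apply, Pi.smul_apply, smul_eq_mul]
    field_simp
    ring
  have hq : q (a • Y x + b • Y y) (a • Y x + b • Y y) = -1 := by
    rw [hW]
    simp only [segaux_qadd, segaux_qadd', segaux_qsmul, segaux_qsmul']
    rw [segaux_qcomm (uv Y x y) (nrm Y x), hXX, h2, h3]
    have := Real.cosh_sq s
    nlinarith
  have hYz := pcomb h.poly h.sub hxi hyi hzi ha0 hb0 hr hab0 hz
  have hqz : q (Y z) (Y z) = -(r⁻¹ ^ 2) := by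
    rw [hYz, segaux_qsmul, segaux_qsmul', hq]; ring
  have hri : 0 < r⁻¹ := inv_pos.2 hr
  rw [nrm, hqz, neg_neg, Real.sqrt_sq hri.le, hYz, smul_smul, inv_inv, mul_inv_cancel₀ hr.ne',
    one_smul, hW]

/- Proof:
Let c = -q (nrm Y x)(nrm Y y) > 1 (uv_props), the same number for Y' (same_nrm), c = cosh l, l > 0, sinh l = sqrt(c^2 - 1). For 0 <= s <= l the vector cosh s X + sinh s uv with X = nrm Y x, X' = nrm Y y, uv = (X' - c X)/sinh l equals (sinh(l - s) X + sinh s X')/sinh l = al Y x + be Y y with al = sinh(l-s)/(sinh l) r_x, be = sinh s/(sinh l) r_y, where r_x = (sqrt(-q (Y x)(Y x)))^-1, the same numbers for Y' (SameCellMetric). al, be >= 0, al + be > 0. seg_pt gives z in H2 and r > 0 with al x + be y = r z, z in all cells containing x and y. By pcomb Y z = r^-1 (al Y x + be Y y) and Y' z = r^-1 (al Y' x + be Y' y). The vector al Y x + be Y y = cosh s X + sinh s uv has q-square -cosh^2 s + sinh^2 s = -1 (uv_props), so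 nrm Y z = al Y x + be Y y (normalisation of a positive multiple: nrm Y z = (sqrt(-q (Y z)(Y z)))^-1 Y z and sqrt(-q (Yz)(Yz)) = r^-1). The same for Y'.
-/
theorem seg_uv {ι : Type*} {C : ι → Set V3} {Y Y' : V3 → V4} {n n' : ι → V4} (h : PolyGood C Y n) (h' : PolyGood C Y' n')
    (hs : SameCellMetric C Y Y') {x y : V3} (hx : x ∈ H2) (hy : y ∈ H2) (hxy : x ≠ y) {i : ι} (hxi : x ∈ C i) (hyi : y ∈ C i) :
    ∃ l : ℝ, 0 < l ∧ -q (nrm Y x) (nrm Y y) = Real.cosh l ∧ ∀ s : ℝ, 0 ≤ s → s ≤ l → ∃ z ∈ H2,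
      (∀ m, x ∈ C m → y ∈ C m → z ∈ C m) ∧
      nrm Y z = Real.cosh s • nrm Y x + Real.sinh s • uv Y x y ∧
      nrm Y' z = Real.cosh s • nrm Y' x + Real.sinh s • uv Y' x y := by
  obtain ⟨h1, -, -, -, -, -⟩ := uv_props h hx hy hxy hxi hyi
  set c := -q (nrm Y x) (nrm Y y) with hcdef
  have hc2 : 0 < c ^ 2 - 1 := by nlinarith
  have hsinh : Real.sinh (Real.arsinh (Real.sqrt (c ^ 2 - 1))) = Real.sqrt (c ^ 2 - 1) :=
    Real.sinh_arsinh _
  have hl : 0 < Real.arsinh (Real.sqrt (c ^ 2 - 1)) := by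
    rw [← Real.sinh_pos_iff, hsinh]
    exact Real.sqrt_pos.2 hc2
  have hcosh : c = Real.cosh (Real.arsinh (Real.sqrt (c ^ 2 - 1))) := by
    rw [Real.cosh_arsinh, Real.sq_sqrt hc2.le]
    rw [show (1 : ℝ) + (c ^ 2 - 1) = c ^ 2 by ring, Real.sqrt_sq (by linarith)]
  generalize Real.arsinh (Real.sqrt (c ^ 2 - 1)) = l at hsinh hl hcosh
  refine ⟨l, hl, hcosh, ?_⟩
  intro s hs0 hs1
  have hsl : 0 < Real.sinh l := Real.sinh_pos_iff.2 hl
  have hrx : 0 < (Real.sqrt (-(q (Y x) (Y x))))⁻¹ :=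
    inv_pos.2 (Real.sqrt_pos.2 (by have := h.poly.neg x hx; linarith))
  have hry : 0 < (Real.sqrt (-(q (Y y) (Y y))))⁻¹ :=
    inv_pos.2 (Real.sqrt_pos.2 (by have := h.poly.neg y hy; linarith))
  have ha : 0 ≤ Real.sinh (l - s) / Real.sinh l * (Real.sqrt (-(q (Y x) (Y x))))⁻¹ :=
    mul_nonneg (div_nonneg (Real.sinh_nonneg_iff.2 (by linarith)) hsl.le) hrx.le
  have hb : 0 ≤ Real.sinh s / Real.sinh l * (Real.sqrt (-(q (Y y) (Y y))))⁻¹ :=
    mul_nonneg (div_nonneg (Real.sinh_nonneg_iff.2 hs0) hsl.le) hry.le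
  have hab : 0 < Real.sinh (l - s) / Real.sinh l * (Real.sqrt (-(q (Y x) (Y x))))⁻¹ +
      Real.sinh s / Real.sinh l * (Real.sqrt (-(q (Y y) (Y y))))⁻¹ := by
    rcases eq_or_lt_of_le hs0 with h0 | h0
    · subst h0
      rw [sub_zero, div_self hsl.ne', one_mul]
      linarith
    · have : 0 < Real.sinh s / Real.sinh l * (Real.sqrt (-(q (Y y) (Y y))))⁻¹ :=
        mul_pos (div_pos (Real.sinh_pos_iff.2 h0) hsl) hry
      linarith
  obtain ⟨z, hz, r, hr, hzr, hzc⟩ := seg_pt h.sub hx hy ha hb hab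
  refine ⟨z, hz, hzc, ?_, ?_⟩
  · exact segaux_key h hx hy hxy hxi hyi (hzc i hxi hyi) hl hcosh hr ha hb hab hzr rfl rfl
  · have e := (same_nrm hs hxi hyi hyi).1
    refine segaux_key h' hx hy hxy hxi hyi (hzc i hxi hyi) hl (by rw [← e]; exact hcosh) hr ha hb
      hab hzr ?_ ?_
    · rw [hs i x hxi x hxi]
    · rw [hs i y hyi y hyi]

end A_seg_uv

alias seg_uv := A_seg_uv.seg_uv

namespace A_fan_ne

/- Proof:
If x = y i then det3 x (y i) (y (i+1)) = 0; if x = y (i+1) the same (determinant with two equal arguments). x in H2 and x in C (j i).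
-/
theorem fan_ne {ι : Type*} {C : ι → Set V3} {x : V3} {k : ℕ} {y : ℕ → V3} {j : ℕ → ι} (hf : IsFan C x k y j) (i : ℕ) :
    x ≠ y i ∧ x ≠ y (i + 1) := by
  have h1 : ∀ a b : V3, det3 a a b = 0 := by
    intro a b
    simp [det3, Matrix.det_fin_three]
    ring
  have h2 : ∀ a b : V3, det3 a b a = 0 := by
    intro a b
    simp [det3, Matrix.det_fin_three]
    ring
  have h := hf.ori i
  constructor
  · intro he
    rw [← he, h1] at h
    exact lt_irrefl _ h
  · intro he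
    rw [← he, h2] at h
    exact lt_irrefl _ h

end A_fan_ne

alias fan_ne := A_fan_ne.fan_ne

namespace A_fan_coord

/- Proof:
Put X = nrm Y x, z i = uv Y x (y i). frameW (A = X, W): b1, b2, expansion, det4 X Z1 Z2 W = d (q Z1 b1 q Z2 b2 - q Z1 b2 q Z2 b1), d > 0. So it is enough that det4 X (z i) (z (i+1)) W has the same strict sign for all i (if it is negative exchange b1 and b2; the expansion formula is symmetric).
z i, z (i+1) are combinations z i = e_i (Y (y i)) + f_i X with e_i > 0 (uv is (sqrt)^-1 (nrm Y (y i) + .. X), nrm Y (y i) a positive multiple of Y (y i)), X a positive multiple of Y x. So det4 X (z i) (z (i+1)) (n (j i)) is a positive multiple of det4 (Y x)(Y (y i))(Y (y (i+1)))(n (j i)), whose product with s is positive (h.poly.ori, hf.cell, hf.ori). In particular X, z i, z (i+1), n (j i) are linearly independent, hence a basis (det4_lin), W = r1 X + r2 z i + r3 z (i+1) + r4 n (j i). Take q with n (j i):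 it is orthogonal to X, z i, z (i+1) (uv_props), so q W (n (j i)) = -r4, r4 = -q (n (j i)) W < 0. det4 X (z i)(z (i+1)) W = r4 det4 X (z i)(z (i+1))(n (j i)) (alternating). So s * det4 X (z i)(z(i+1)) W < 0 for all i: constant strict sign.
-/
theorem fc_q_lin (N a b c d : V4) (r₁ r₂ r₃ r₄ : ℝ) :
    q N (r₁ • a + r₂ • b + r₃ • c + r₄ • d) = r₁ * q N a + r₂ * q N b + r₃ * q N c + r₄ * q N d := by
  simp only [q, Pi.add_apply, Pi.smul_apply, smul_eq_mul]
  ring

theorem fc_q_comm (a b : V4) : q a b = q b a := by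
  simp only [q]; ring

theorem fc_uv {ι : Type*} {C : ι → Set V3} {Y : V3 → V4} {n : ι → V4} (h : PolyGood C Y n)
    {x y : V3} (hx : x ∈ H2) (hy : y ∈ H2) (hxy : x ≠ y) {i : ι} (hxi : x ∈ C i) (hyi : y ∈ C i) :
    ∃ e f : ℝ, 0 < e ∧ uv Y x y = e • Y y + f • nrm Y x := by
  obtain ⟨⟨r, hr, h1, -, -⟩, -, -⟩ := nrm_props h.poly hy
  obtain ⟨h2, -⟩ := uv_props h hx hy hxy hxi hyi
  have h3 : 0 < (q (nrm Y x) (nrm Y y)) ^ 2 - 1 := by nlinarith
  have h4 : 0 < (Real.sqrt ((q (nrm Y x) (nrm Y y)) ^ 2 - 1))⁻¹ :=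
    inv_pos.mpr (Real.sqrt_pos.mpr h3)
  refine ⟨(Real.sqrt ((q (nrm Y x) (nrm Y y)) ^ 2 - 1))⁻¹ * r,
    (Real.sqrt ((q (nrm Y x) (nrm Y y)) ^ 2 - 1))⁻¹ * q (nrm Y x) (nrm Y y), mul_pos h4 hr, ?_⟩
  unfold uv
  rw [smul_add, mul_smul, mul_smul, ← h1]

theorem fc_sign {ι : Type*} {C : ι → Set V3} {Y : V3 → V4} {n : ι → V4} (h : PolyGood C Y n)
    {x : V3} (hx : x ∈ H2) {k : ℕ} {y : ℕ → V3} {j : ℕ → ι} (hf : IsFan C x k y j) {W : V4}
    (hn : ∀ i, 0 < q (n (j i)) W) {s : ℝ}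
    (hs : ∀ i, ∀ x ∈ C i, ∀ y ∈ C i, ∀ z ∈ C i, 0 < det3 x y z →
      0 < s * det4 (Y x) (Y y) (Y z) (n i)) (i : ℕ) :
    s * det4 (nrm Y x) (uv Y x (y i)) (uv Y x (y (i + 1))) W < 0 := by
  obtain ⟨hc1, hc2, hc3⟩ := hf.cell i
  obtain ⟨hne1, hne2⟩ := fan_ne hf i
  obtain ⟨e, f, he, h1⟩ := fc_uv h hx (hf.mem i) hne1 hc1 hc2
  obtain ⟨e', f', he', h2⟩ := fc_uv h hx (hf.mem (i + 1)) hne2 hc1 hc3
  obtain ⟨⟨r, hr, h3, -, -⟩, hXX, hnX⟩ := nrm_props h.poly hx
  obtain ⟨-, -, -, hz1, -⟩ := uv_props h hx (hf.mem i) hne1 hc1 hc2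
  obtain ⟨-, -, -, hz2, -⟩ := uv_props h hx (hf.mem (i + 1)) hne2 hc1 hc3
  set X := nrm Y x with hX
  set z := uv Y x (y i) with hz
  set z' := uv Y x (y (i + 1)) with hz'
  set N := n (j i) with hN
  have key : ∀ M : V4, det4 X z z' M = e * e' * r * det4 (Y x) (Y (y i)) (Y (y (i + 1))) M := by
    intro M
    have a1 : det4 X z z' M = e * det4 X (Y (y i)) z' M := by
      rw [h1, (det4_lin X (Y (y i)) z' M 0 X 0 0 e f).2.1, (det4_lin X 0 z' M 0 0 0 0 0 0).2.2.2.2.1]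
      ring
    have a2 : det4 X (Y (y i)) z' M = e' * det4 X (Y (y i)) (Y (y (i + 1))) M := by
      rw [h2, (det4_lin X (Y (y i)) (Y (y (i + 1))) M 0 0 X 0 e' f').2.2.1,
        (det4_lin X (Y (y i)) 0 M 0 0 0 0 0 0).2.2.2.2.2.1]
      ring
    have a3 : det4 X (Y (y i)) (Y (y (i + 1))) M
        = r * det4 (Y x) (Y (y i)) (Y (y (i + 1))) M := by
      have := (det4_lin (Y x) (Y (y i)) (Y (y (i + 1))) M (Y x) 0 0 0 r 0).1
      rw [h3]
      rw [zero_smul, add_zero] at this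
      rw [this]; ring
    rw [a1, a2, a3]; ring
  have hD : 0 < s * det4 X z z' N := by
    rw [key N]
    have := hs (j i) x hc1 (y i) hc2 (y (i + 1)) hc3 (hf.ori i)
    have h5 : 0 < e * e' * r := by positivity
    nlinarith [mul_pos h5 this]
  have hD0 : det4 X z z' N ≠ 0 := by
    intro h0
    rw [h0, mul_zero] at hD
    exact lt_irrefl _ hD
  obtain ⟨r₁, r₂, r₃, r₄, hW4⟩ := (det4_lin X z z' N 0 0 0 0 0 0).2.2.2.2.2.2.2.2.2.2 hD0 W
  have hr4 : r₄ < 0 := by
    have h6 := hn i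
    rw [← hN, hW4, fc_q_lin, hnX (j i) hc1, hz1, hz2, h.poly.nn (j i)] at h6
    linarith
  have hdet : det4 X z z' W = r₄ * det4 X z z' N := by
    have b1 : det4 X z z' (1 • (r₁ • X + r₂ • z) + 1 • (r₃ • z' + r₄ • N))
        = 1 * det4 X z z' (r₁ • X + r₂ • z) + 1 * det4 X z z' (r₃ • z' + r₄ • N) := by
      have := (det4_lin X z z' (r₁ • X + r₂ • z) 0 0 0 (r₃ • z' + r₄ • N) 1 1).2.2.2.1
      simpa using this
    have b2 : det4 X z z' (r₁ • X + r₂ • z) = r₁ * det4 X z z' X + r₂ * det4 X z z' z :=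
      (det4_lin X z z' X 0 0 0 z r₁ r₂).2.2.2.1
    have b3 : det4 X z z' (r₃ • z' + r₄ • N) = r₃ * det4 X z z' z' + r₄ * det4 X z z' N :=
      (det4_lin X z z' z' 0 0 0 N r₃ r₄).2.2.2.1
    have c := (det4_lin X z z' N 0 0 0 0 0 0).2.2.2.2.2.2
    have hWW : W = 1 • (r₁ • X + r₂ • z) + 1 • (r₃ • z' + r₄ • N) := by
      rw [one_smul, one_smul, ← add_assoc]; exact hW4
    rw [hWW, b1, b2, b3, c.1, c.2.2.1, c.2.2.2.1]
    ring
  rw [hdet]
  nlinarith

theorem fan_coord {ι : Type*} {C : ι → Set V3} {Y : V3 → V4} {n : ι → V4} (h : PolyGood C Y n) {x : V3} (hx : x ∈ H2) {k : ℕ} {y : ℕ → V3} {j : ℕ → ι} (hf : IsFan C x k y j) {W : V4} (hW : q W W = -1) (hXW : q (nrm Y x) W = 0) (hn : ∀ i, 0 < q (n (j i)) W) :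
    ∃ b₁ b₂ : V4, q b₁ b₁ = 1 ∧ q b₂ b₂ = 1 ∧ q b₁ b₂ = 0 ∧ q (nrm Y x) b₁ = 0 ∧ q (nrm Y x) b₂ = 0 ∧ q W b₁ = 0 ∧ q W b₂ = 0 ∧
      (∀ Z : V4, Z = (-(q Z (nrm Y x))) • nrm Y x + (-(q Z W)) • W + (q Z b₁) • b₁ + (q Z b₂) • b₂) ∧
      ∀ i, 0 < q (uv Y x (y i)) b₁ * q (uv Y x (y (i + 1))) b₂ - q (uv Y x (y i)) b₂ * q (uv Y x (y (i + 1))) b₁ := by
  obtain ⟨-, hXX, -⟩ := nrm_props h.poly hx
  obtain ⟨b₁, b₂, h1, h2, h3, h4, h5, h6, h7, h8, d, hd, h9⟩ := frameW hXX hW hXW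
  obtain ⟨s, hs⟩ := h.poly.ori
  have hsg := fc_sign h hx hf hn hs
  rcases lt_trichotomy s 0 with hs0 | hs0 | hs0
  · refine ⟨b₁, b₂, h1, h2, h3, h4, h5, h6, h7, h8, fun i => ?_⟩
    have h11 : 0 < det4 (nrm Y x) (uv Y x (y i)) (uv Y x (y (i + 1))) W := by
      have := hsg i
      by_contra hle
      nlinarith [mul_nonneg_of_nonpos_of_nonpos hs0.le (not_lt.mp hle)]
    rw [h9] at h11
    exact (mul_pos_iff_of_pos_left hd).mp h11
  · have := hsg 0
    rw [hs0, zero_mul] at this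
    exact absurd this (lt_irrefl _)
  · refine ⟨b₂, b₁, h2, h1, by rw [fc_q_comm]; exact h3, h5, h4, h7, h6, fun Z => ?_, fun i => ?_⟩
    · have h12 := h8 Z
      rw [add_right_comm] at h12
      exact h12
    · have h11 : det4 (nrm Y x) (uv Y x (y i)) (uv Y x (y (i + 1))) W < 0 := by
        have := hsg i
        by_contra hle
        nlinarith [mul_nonneg hs0.le (not_lt.mp hle)]
      rw [h9] at h11
      have h13 := neg_of_mul_neg_right h11 hd.le
      linarith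

end A_fan_coord

alias fan_coord := A_fan_coord.fan_coord

namespace A_fan_once

/- Proof:
Notation X = nrm Y x, z i = uv Y x (y i), a i = q (z i) b1, b i = q (z i) b2, Delta i = a i b(i+1) - b i a(i+1) > 0. Given (u,v), i, i' with both sector conditions. Put al = (u b(i+1) - v a(i+1))/Delta i > 0, be = (a i v - b i u)/Delta i >= 0: then (u,v) = al (a i, b i) + be (a(i+1), b(i+1)) (Cramer). Similarly al' > 0, be' >= 0 for i'. So Z := al z i + be z(i+1) and Z' := al' z i' + be' z(i'+1) have the same products with b1, b2 and X (0), so by hexp Z - Z' = -(q (Z - Z') W) W =: t W. q (n (j i)) Z = 0 and q (n (j i)) Z' <= 0 (uv_props, x in C (j i)), so t q (n (j i)) W >= 0, t >= 0. Exchanging roles t <= 0. So Z = Z'.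
uv Y x w = e_w Y w + f_w Y x with e_w > 0 for w = y i, etc. (nrm_props). So Z = Z' reads p1 Y (y i) + p2 Y (y (i+1)) + p0 Y x = p1' Y (y i') + p2' Y (y (i'+1)) + p0' Y x with p1, p1' > 0, p2, p2' >= 0. Add a large multiple of Y x to both sides: may assume p0, p0' > 0. In the cell C (j i): w = p0 x + p1 y i + p2 y(i+1) in C (j i) and Y w = the left side (add, smul; case p2 = 0 separately); w' = p0' x + p1' y i' + p2' y(i'+1), Y w' = the right side. w = r u0, w' = r' u0' with u0, u0' in H2, r, r' > 0 (w, w' in Cone, as cells are in Cone; H2 point = w / sqrt(-eta w w)); Y w = r Y u0, Y w' = r' Y u0', so Y u0 = (r'/r) Y u0', u0 = u0' by h.inj. Hence w' is a positive multiple of w. InSector x (y i) (y (i+1)) w: det3 x (y i) w = p2 det3 x (y i)(y(i+1)) >= 0, det3 x w (y(i+1)) = p1 det3 > 0 (det3_lin). Likewise w' in the sector of i', hence w too (positive multiple). hf.once: i = i'.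
-/
theorem fan_once {ι : Type*} {C : ι → Set V3} {Y : V3 → V4} {n : ι → V4} (h : PolyGood C Y n) {x : V3} (hx : x ∈ H2) {k : ℕ} {y : ℕ → V3} {j : ℕ → ι} (hf : IsFan C x k y j) {W : V4} (hn : ∀ i, 0 < q (n (j i)) W) {b₁ b₂ : V4}
    (hexp : ∀ Z : V4, Z = (-(q Z (nrm Y x))) • nrm Y x + (-(q Z W)) • W + (q Z b₁) • b₁ + (q Z b₂) • b₂)
    (hd : ∀ i, 0 < q (uv Y x (y i)) b₁ * q (uv Y x (y (i + 1))) b₂ - q (uv Y x (y i)) b₂ * q (uv Y x (y (i + 1))) b₁) :
    ∀ u v : ℝ, ∀ i < k, ∀ i' < k,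
      (0 ≤ q (uv Y x (y i)) b₁ * v - q (uv Y x (y i)) b₂ * u ∧
        0 < u * q (uv Y x (y (i + 1))) b₂ - v * q (uv Y x (y (i + 1))) b₁) →
      (0 ≤ q (uv Y x (y i')) b₁ * v - q (uv Y x (y i')) b₂ * u ∧
        0 < u * q (uv Y x (y (i' + 1))) b₂ - v * q (uv Y x (y (i' + 1))) b₁) → i = i' := by
  have q_add : ∀ A B D : V4, q A (B + D) = q A B + q A D := by
    intro A B D
    unfold q
    simp only [Pi.add_apply]
    ring
  have q_smul : ∀ (s : ℝ) (A B : V4), q A (s • B) = s * q A B := by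
    intro s A B
    unfold q
    simp only [Pi.smul_apply, smul_eq_mul]
    ring
  have q_comm : ∀ A B : V4, q A B = q B A := by
    intro A B
    unfold q
    ring
  -- facts on the unit vectors
  have hc1 : ∀ i, q (nrm Y x) (uv Y x (y i)) = 0 ∧ q (n (j i)) (uv Y x (y i)) = 0 ∧
      (∀ l, x ∈ C l → q (n l) (uv Y x (y i)) ≤ 0) := by
    intro i
    obtain ⟨_, _, h3, h4, h5, _⟩ := uv_props h hx (hf.mem i) (fan_ne hf i).1 (hf.cell i).1
      (hf.cell i).2.1
    exact ⟨h3, h4, h5⟩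
  have hc2 : ∀ i, q (n (j i)) (uv Y x (y (i + 1))) = 0 := by
    intro i
    obtain ⟨_, _, _, h4, _, _⟩ := uv_props h hx (hf.mem (i + 1)) (fan_ne hf i).2 (hf.cell i).1
      (hf.cell i).2.2
    exact h4
  -- unit vectors in terms of the position vectors
  have huv : ∀ i, ∃ e f : ℝ, 0 < e ∧ uv Y x (y i) = e • Y (y i) + f • Y x := by
    intro i
    obtain ⟨h1, _, _, _, _, _⟩ := uv_props h hx (hf.mem i) (fan_ne hf i).1 (hf.cell i).1
      (hf.cell i).2.1
    obtain ⟨⟨r, hr, hr1, _, _⟩, _, _⟩ := nrm_props h.poly hx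
    obtain ⟨⟨r', hr', hr1', _, _⟩, _, _⟩ := nrm_props h.poly (hf.mem i)
    have hs : 0 < Real.sqrt ((q (nrm Y x) (nrm Y (y i))) ^ 2 - 1) := by
      apply Real.sqrt_pos.2
      nlinarith
    refine ⟨(Real.sqrt ((q (nrm Y x) (nrm Y (y i))) ^ 2 - 1))⁻¹ * r',
      (Real.sqrt ((q (nrm Y x) (nrm Y (y i))) ^ 2 - 1))⁻¹ * q (nrm Y x) (nrm Y (y i)) * r,
      by positivity, ?_⟩
    have e1 : uv Y x (y i) = (Real.sqrt ((q (nrm Y x) (nrm Y (y i))) ^ 2 - 1))⁻¹ •
      (nrm Y (y i) + q (nrm Y x) (nrm Y (y i)) • nrm Y x) := rfl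
    rw [e1]
    generalize (Real.sqrt ((q (nrm Y x) (nrm Y (y i))) ^ 2 - 1))⁻¹ = S
    generalize q (nrm Y x) (nrm Y (y i)) = c
    rw [hr1, hr1']
    module
  -- the cells
  have hcell : ∀ (c : ι) (y₁ y₂ : V3) (p₀ p₁ p₂ : ℝ), x ∈ C c → y₁ ∈ C c → y₂ ∈ C c → 0 < p₀ →
      0 < p₁ → 0 ≤ p₂ → p₀ • x + p₁ • y₁ + p₂ • y₂ ∈ C c ∧
        Y (p₀ • x + p₁ • y₁ + p₂ • y₂) = p₀ • Y x + p₁ • Y y₁ + p₂ • Y y₂ := by
    intro c y₁ y₂ p₀ p₁ p₂ hxc h1 h2 hp0 hp1 hp2
    have a0 := h.sub.smul c x hxc p₀ hp0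
    have a1 := h.sub.smul c y₁ h1 p₁ hp1
    have b0 := h.poly.smul c x hxc p₀ hp0
    have b1 := h.poly.smul c y₁ h1 p₁ hp1
    have a01 := h.sub.add c _ a0 _ a1
    have b01 := h.poly.add c _ a0 _ a1
    rcases hp2.lt_or_eq with hp | hp
    · have a2 := h.sub.smul c y₂ h2 p₂ hp
      have b2 := h.poly.smul c y₂ h2 p₂ hp
      refine ⟨h.sub.add c _ a01 _ a2, ?_⟩
      rw [h.poly.add c _ a01 _ a2, b01, b0, b1, b2]
    · rw [← hp, zero_smul, zero_smul, add_zero, add_zero]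
      refine ⟨a01, ?_⟩
      rw [b01, b0, b1]
  -- points of the cells over the hyperbolic plane
  have hpt : ∀ (c : ι) (w : V3), w ∈ C c → ∃ u₀ ∈ H2, ∃ r : ℝ, 0 < r ∧ w = r • u₀ ∧
      Y w = r • Y u₀ := by
    intro c w hw
    obtain ⟨hw1, hw2⟩ := h.sub.sub c hw
    have hs : 0 < Real.sqrt (-(eta w w)) := Real.sqrt_pos.2 (by linarith)
    have hss : Real.sqrt (-(eta w w)) * Real.sqrt (-(eta w w)) = -(eta w w) :=
      Real.mul_self_sqrt (by linarith)
    have e1 : w = Real.sqrt (-(eta w w)) • ((Real.sqrt (-(eta w w)))⁻¹ • w) := by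
      rw [smul_smul, mul_inv_cancel₀ hs.ne', one_smul]
    have hm : (Real.sqrt (-(eta w w)))⁻¹ • w ∈ C c := h.sub.smul c w hw _ (by positivity)
    refine ⟨(Real.sqrt (-(eta w w)))⁻¹ • w, ⟨?_, ?_⟩, Real.sqrt (-(eta w w)), hs, e1, ?_⟩
    · have e2 : eta ((Real.sqrt (-(eta w w)))⁻¹ • w) ((Real.sqrt (-(eta w w)))⁻¹ • w) =
          (Real.sqrt (-(eta w w)))⁻¹ * (Real.sqrt (-(eta w w)))⁻¹ * eta w w := by
        generalize (Real.sqrt (-(eta w w)))⁻¹ = s
        unfold eta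
        simp only [Pi.smul_apply, smul_eq_mul]
        ring
      rw [e2]
      have e3 : eta w w = -(Real.sqrt (-(eta w w)) * Real.sqrt (-(eta w w))) := by linarith
      generalize Real.sqrt (-(eta w w)) = s at *
      rw [e3]
      field_simp
    · rw [Pi.smul_apply, smul_eq_mul]
      positivity
    · conv_lhs => rw [e1]
      exact h.poly.smul c _ hm _ hs
  intro u v i hi i' hi' hA hB
  -- Cramer
  have hcr : ∀ i, (0 ≤ q (uv Y x (y i)) b₁ * v - q (uv Y x (y i)) b₂ * u ∧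
        0 < u * q (uv Y x (y (i + 1))) b₂ - v * q (uv Y x (y (i + 1))) b₁) →
      ∃ al be : ℝ, 0 < al ∧ 0 ≤ be ∧
        q (al • uv Y x (y i) + be • uv Y x (y (i + 1))) b₁ = u ∧
        q (al • uv Y x (y i) + be • uv Y x (y (i + 1))) b₂ = v := by
    intro i hs
    have hD := hd i
    have q_lin : ∀ (al be : ℝ) (D : V4), q (al • uv Y x (y i) + be • uv Y x (y (i + 1))) D =
        al * q (uv Y x (y i)) D + be * q (uv Y x (y (i + 1))) D := by
      intro al be D
      rw [q_comm, q_add, q_smul, q_smul, q_comm D (uv Y x (y i)), q_comm D (uv Y x (y (i + 1)))]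
    obtain ⟨hs1, hs2⟩ := hs
    simp only [q_lin]
    generalize q (uv Y x (y i)) b₁ = a at *
    generalize q (uv Y x (y i)) b₂ = b at *
    generalize q (uv Y x (y (i + 1))) b₁ = a' at *
    generalize q (uv Y x (y (i + 1))) b₂ = b' at *
    obtain ⟨D, hDD⟩ : ∃ D, D = a * b' - b * a' := ⟨_, rfl⟩
    rw [← hDD] at hD
    refine ⟨(u * b' - v * a') / D, (a * v - b * u) / D,
      div_pos hs2 hD, div_nonneg hs1 hD.le, ?_, ?_⟩
    · have e : (u * b' - v * a') / D * a + (a * v - b * u) / D * a' = u * (a * b' - b * a') / D := by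
        ring
      rw [e, ← hDD, mul_div_cancel_right₀ _ hD.ne']
    · have e : (u * b' - v * a') / D * b + (a * v - b * u) / D * b' = v * (a * b' - b * a') / D := by
        ring
      rw [e, ← hDD, mul_div_cancel_right₀ _ hD.ne']
  obtain ⟨al, be, hal, hbe, hZ1, hZ2⟩ := hcr i hA
  obtain ⟨al', be', hal', hbe', hZ1', hZ2'⟩ := hcr i' hB
  have hZX : ∀ (i : ℕ) (al be : ℝ),
      q (al • uv Y x (y i) + be • uv Y x (y (i + 1))) (nrm Y x) = 0 := by
    intro i al be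
    rw [q_comm, q_add, q_smul, q_smul, (hc1 i).1, (hc1 (i + 1)).1]
    ring
  have hn0 : ∀ (i : ℕ) (al be : ℝ),
      q (n (j i)) (al • uv Y x (y i) + be • uv Y x (y (i + 1))) = 0 := by
    intro i al be
    rw [q_add, q_smul, q_smul, (hc1 i).2.1, hc2 i]
    ring
  have hnl : ∀ (i l : ℕ) (al be : ℝ), 0 ≤ al → 0 ≤ be →
      q (n (j l)) (al • uv Y x (y i) + be • uv Y x (y (i + 1))) ≤ 0 := by
    intro i l al be h1 h2
    rw [q_add, q_smul, q_smul]
    have e1 := (hc1 i).2.2 (j l) (hf.cell l).1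
    have e2 := (hc1 (i + 1)).2.2 (j l) (hf.cell l).1
    nlinarith [mul_nonneg h1 (neg_nonneg.2 e1), mul_nonneg h2 (neg_nonneg.2 e2)]
  have hEq : al • uv Y x (y i) + be • uv Y x (y (i + 1)) =
      al' • uv Y x (y i') + be' • uv Y x (y (i' + 1)) := by
    have k1 := hnl i i' al be hal.le hbe
    have k2 := hnl i' i al' be' hal'.le hbe'
    have k3 := hn0 i al be
    have k4 := hn0 i' al' be'
    have x1 := hZX i al be
    have x2 := hZX i' al' be'
    generalize al • uv Y x (y i) + be • uv Y x (y (i + 1)) = Z at *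
    generalize al' • uv Y x (y i') + be' • uv Y x (y (i' + 1)) = Z' at *
    have e1 := hexp Z
    have e2 := hexp Z'
    rw [x1, hZ1, hZ2] at e1
    rw [x2, hZ1', hZ2'] at e2
    have e3 : Z = Z' + (q Z' W - q Z W) • W := by
      generalize q Z W = s at *
      generalize q Z' W = s' at *
      rw [e1, e2]
      module
    have f1 : q (n (j i)) Z = q (n (j i)) Z' + (q Z' W - q Z W) * q (n (j i)) W := by
      conv_lhs => rw [e3]
      rw [q_add, q_smul]
    have f2 : q (n (j i')) Z = q (n (j i')) Z' + (q Z' W - q Z W) * q (n (j i')) W := by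
      conv_lhs => rw [e3]
      rw [q_add, q_smul]
    have g1 := hn i
    have g2 := hn i'
    have t0 : q Z' W - q Z W = 0 := by
      apply le_antisymm
      · by_contra hcon
        push Not at hcon
        have := mul_pos hcon g2
        linarith
      · by_contra hcon
        push Not at hcon
        have := mul_neg_of_neg_of_pos hcon g1
        linarith
    rw [t0, zero_smul, add_zero] at e3
    exact e3
  -- position vectors
  obtain ⟨e1, f1, he1, hu1⟩ := huv i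
  obtain ⟨e2, f2, he2, hu2⟩ := huv (i + 1)
  obtain ⟨e1', f1', he1', hu1'⟩ := huv i'
  obtain ⟨e2', f2', he2', hu2'⟩ := huv (i' + 1)
  rw [hu1, hu2, hu1', hu2'] at hEq
  obtain ⟨L, hL, hL'⟩ : ∃ L : ℝ, 0 < al * f1 + be * f2 + L ∧ 0 < al' * f1' + be' * f2' + L :=
    ⟨|al * f1 + be * f2| + |al' * f1' + be' * f2'| + 1,
      by linarith [neg_abs_le (al * f1 + be * f2), abs_nonneg (al' * f1' + be' * f2')],
      by linarith [neg_abs_le (al' * f1' + be' * f2'), abs_nonneg (al * f1 + be * f2)]⟩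
  obtain ⟨p0, hp0⟩ : ∃ p, p = al * f1 + be * f2 + L := ⟨_, rfl⟩
  obtain ⟨p0', hp0'⟩ : ∃ p, p = al' * f1' + be' * f2' + L := ⟨_, rfl⟩
  rw [← hp0] at hL
  rw [← hp0'] at hL'
  have hEq2 : p0 • Y x + (al * e1) • Y (y i) + (be * e2) • Y (y (i + 1)) =
      p0' • Y x + (al' * e1') • Y (y i') + (be' * e2') • Y (y (i' + 1)) := by
    have s1 : p0 • Y x + (al * e1) • Y (y i) + (be * e2) • Y (y (i + 1)) =
        (al • (e1 • Y (y i) + f1 • Y x) + be • (e2 • Y (y (i + 1)) + f2 • Y x)) + L • Y x := by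
      rw [hp0]
      module
    have s2 : p0' • Y x + (al' * e1') • Y (y i') + (be' * e2') • Y (y (i' + 1)) =
        (al' • (e1' • Y (y i') + f1' • Y x) + be' • (e2' • Y (y (i' + 1)) + f2' • Y x)) +
          L • Y x := by
      rw [hp0']
      module
    rw [s1, s2, hEq]
  obtain ⟨hw1, hw2⟩ := hcell (j i) (y i) (y (i + 1)) p0 (al * e1) (be * e2) (hf.cell i).1
    (hf.cell i).2.1 (hf.cell i).2.2 hL (by positivity) (by positivity)
  obtain ⟨hw1', hw2'⟩ := hcell (j i') (y i') (y (i' + 1)) p0' (al' * e1') (be' * e2')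
    (hf.cell i').1 (hf.cell i').2.1 (hf.cell i').2.2 hL' (by positivity) (by positivity)
  obtain ⟨u0, hu0, r, hr, hwr, hYr⟩ := hpt _ _ hw1
  obtain ⟨u0', hu0', r', hr', hwr', hYr'⟩ := hpt _ _ hw1'
  have hYY : Y u0 = (r⁻¹ * r') • Y u0' := by
    rw [hw2] at hYr
    rw [hw2'] at hYr'
    have h1 : r • Y u0 = r' • Y u0' := by rw [← hYr, ← hYr', hEq2]
    rw [← smul_smul, ← h1, smul_smul, inv_mul_cancel₀ hr.ne', one_smul]
  have huu : u0 = u0' := h.inj u0 hu0 u0' hu0' _ (by positivity) hYY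
  have hww : p0 • x + (al * e1) • y i + (be * e2) • y (i + 1) =
      (r * r'⁻¹ * p0') • x + (r * r'⁻¹ * (al' * e1')) • y i' +
        (r * r'⁻¹ * (be' * e2')) • y (i' + 1) := by
    have h1 : (r * r'⁻¹ * p0') • x + (r * r'⁻¹ * (al' * e1')) • y i' +
        (r * r'⁻¹ * (be' * e2')) • y (i' + 1) =
        (r * r'⁻¹) • (p0' • x + (al' * e1') • y i' + (be' * e2') • y (i' + 1)) := by
      module
    rw [h1, hwr', hwr, huu, smul_smul]
    congr 1
    field_simp
  refine hf.once (p0 • x + (al * e1) • y i + (be * e2) • y (i + 1)) i hi i' hi' ⟨?_, ?_⟩ ⟨?_, ?_⟩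
  · rw [((det3_lin x (y i) (y (i + 1))).1 p0 (al * e1) (be * e2)).1]
    exact mul_nonneg (by positivity) (hf.ori i).le
  · rw [((det3_lin x (y i) (y (i + 1))).1 p0 (al * e1) (be * e2)).2.1]
    exact mul_pos (by positivity) (hf.ori i)
  · rw [hww, ((det3_lin x (y i') (y (i' + 1))).1 _ _ _).1]
    exact mul_nonneg (by positivity) (hf.ori i').le
  · rw [hww, ((det3_lin x (y i') (y (i' + 1))).1 _ _ _).2.1]
    exact mul_pos (by positivity) (hf.ori i')

end A_fan_once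

alias fan_once := A_fan_once.fan_once

namespace A_fan_ang

theorem fan_ang_q_add (X Y Z : V4) : q X (Y + Z) = q X Y + q X Z := by
  simp only [q, Pi.add_apply]; ring

theorem fan_ang_q_smul (X Y : V4) (a : ℝ) : q X (a • Y) = a * q X Y := by
  simp only [q, Pi.smul_apply, smul_eq_mul]; ring

theorem fan_ang_q_neg (X Y : V4) : q X (-Y) = -q X Y := by
  simp only [q, Pi.neg_apply]; ring

theorem fan_ang_q_comm (X Y : V4) : q X Y = q Y X := by
  simp only [q]; ring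

theorem fan_ang_lt {ι : Type*} {C : ι → Set V3} {Y : V3 → V4} {n : ι → V4} (h : PolyGood C Y n)
    {x : V3} (hx : x ∈ H2) {k : ℕ} {y : ℕ → V3} {j : ℕ → ι} (hf : IsFan C x k y j) (i : ℕ) :
    -1 < q (uv Y x (y i)) (uv Y x (y (i + 1))) ∧ q (uv Y x (y i)) (uv Y x (y (i + 1))) < 1 := by
  obtain ⟨hxc, hyc, hyc'⟩ := hf.cell i
  obtain ⟨hne, hne'⟩ := fan_ne hf i
  obtain ⟨-, p1, p2, p3, -, -⟩ := uv_props h hx (hf.mem i) hne hxc hyc
  obtain ⟨-, r1, r2, r3, -, -⟩ := uv_props h hx (hf.mem (i + 1)) hne' hxc hyc'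
  have hWW : q (-(n (j i))) (-(n (j i))) = -1 := by
    rw [fan_ang_q_neg, fan_ang_q_comm, fan_ang_q_neg, neg_neg]
    exact h.poly.nn (j i)
  have hXW : q (nrm Y x) (-(n (j i))) = 0 := by
    rw [fan_ang_q_neg, fan_ang_q_comm]
    unfold nrm
    rw [fan_ang_q_smul, h.poly.nY (j i) x hxc, mul_zero, neg_zero]
  have hn : ∀ l, 0 < q (n (j l)) (-(n (j i))) := by
    intro l
    rw [fan_ang_q_neg]
    have := h.same (j l) (j i) x hx (hf.cell l).1 hxc
    linarith
  obtain ⟨b₁, b₂, -, -, -, -, -, -, -, hdec, hdet⟩ := fan_coord h hx hf hWW hXW hn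
  have hD := hdet i
  set z := uv Y x (y i) with hz
  set w := uv Y x (y (i + 1)) with hw
  have e1 : q z z = q z b₁ * q z b₁ + q z b₂ * q z b₂ := by
    have h1 : q z z = q z ((-(q z (nrm Y x))) • nrm Y x + (-(q z (-(n (j i))))) • (-(n (j i)))
        + (q z b₁) • b₁ + (q z b₂) • b₂) := congrArg (q z) (hdec z)
    rw [fan_ang_q_comm z (nrm Y x), p2, fan_ang_q_neg, fan_ang_q_comm z (n (j i)), p3] at h1
    rw [h1]
    simp only [fan_ang_q_add, fan_ang_q_smul]
    ring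
  have e2 : q w w = q w b₁ * q w b₁ + q w b₂ * q w b₂ := by
    have h1 : q w w = q w ((-(q w (nrm Y x))) • nrm Y x + (-(q w (-(n (j i))))) • (-(n (j i)))
        + (q w b₁) • b₁ + (q w b₂) • b₂) := congrArg (q w) (hdec w)
    rw [fan_ang_q_comm w (nrm Y x), r2, fan_ang_q_neg, fan_ang_q_comm w (n (j i)), r3] at h1
    rw [h1]
    simp only [fan_ang_q_add, fan_ang_q_smul]
    ring
  have e3 : q z w = q w b₁ * q z b₁ + q w b₂ * q z b₂ := by
    have h1 : q z w = q z ((-(q w (nrm Y x))) • nrm Y x + (-(q w (-(n (j i))))) • (-(n (j i)))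
        + (q w b₁) • b₁ + (q w b₂) • b₂) := congrArg (q z) (hdec w)
    rw [fan_ang_q_comm w (nrm Y x), r2, fan_ang_q_neg, fan_ang_q_comm w (n (j i)), r3] at h1
    rw [h1]
    simp only [fan_ang_q_add, fan_ang_q_smul]
    ring
  rw [p1] at e1
  rw [r1] at e2
  rw [e3]
  generalize q z b₁ = a1 at *
  generalize q z b₂ = a2 at *
  generalize q w b₁ = c1 at *
  generalize q w b₂ = c2 at *
  have key : (c1 * a1 + c2 * a2) ^ 2 + (a1 * c2 - a2 * c1) ^ 2 = 1 := by
    have : (c1 * a1 + c2 * a2) ^ 2 + (a1 * c2 - a2 * c1) ^ 2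
        = (a1 * a1 + a2 * a2) * (c1 * c1 + c2 * c2) := by ring
    rw [this, ← e1, ← e2, one_mul]
  have hD2 : 0 < (a1 * c2 - a2 * c1) ^ 2 := by positivity
  have hlt : (c1 * a1 + c2 * a2) ^ 2 < 1 ^ 2 := by linarith
  exact abs_lt.1 (by simpa using sq_lt_sq.1 hlt)

/- Proof:
Let X = nrm Y x and take W0 = -(n (j i)) as axis... simpler: z i, z(i+1) are unit vectors in the plane orthogonal to X and n (j i), which is positive definite, so |q (z i)(z (i+1))| <= 1, and equality would force z(i+1) = ± z i, so X, z i, z(i+1) linearly dependent, hence det4 (Y x)(Y (y i))(Y (y(i+1)))(n (j i)) = 0, contradicting h.poly.ori. So -1 < q (z i)(z (i+1)) < 1: ang in (0, pi) and cos (ang) = q. Period from hf.per_y.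
-/
theorem fan_ang {ι : Type*} {C : ι → Set V3} {Y : V3 → V4} {n : ι → V4} (h : PolyGood C Y n) {x : V3} (hx : x ∈ H2) {k : ℕ} {y : ℕ → V3} {j : ℕ → ι} (hf : IsFan C x k y j) :
    (∀ i, 0 < ang (uv Y x (y i)) (uv Y x (y (i + 1))) ∧ ang (uv Y x (y i)) (uv Y x (y (i + 1))) < Real.pi ∧
      Real.cos (ang (uv Y x (y i)) (uv Y x (y (i + 1)))) = q (uv Y x (y i)) (uv Y x (y (i + 1)))) ∧
    (∀ i, ang (uv Y x (y (i + k))) (uv Y x (y (i + k + 1))) = ang (uv Y x (y i)) (uv Y x (y (i + 1)))) := by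
  refine ⟨fun i => ?_, fun i => ?_⟩
  · obtain ⟨h1, h2⟩ := fan_ang_lt h hx hf i
    unfold ang
    refine ⟨Real.arccos_pos.2 h2, ?_, Real.cos_arccos h1.le h2.le⟩
    refine lt_of_le_of_ne (Real.arccos_le_pi _) fun he => ?_
    rw [Real.arccos_eq_pi] at he
    linarith
  · rw [hf.per_y i, show i + k + 1 = i + 1 + k by omega, hf.per_y (i + 1)]

end A_fan_ang

alias fan_ang := A_fan_ang.fan_ang

namespace A_fan_sum

theorem fan_sum_q_comm (X Y : V4) : q X Y = q Y X := by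
  unfold q; ring

theorem fan_sum_q_exp (Z X W b₁ b₂ : V4) (p r s t : ℝ) :
    q Z (p • X + r • W + s • b₁ + t • b₂) = p * q Z X + r * q Z W + s * q Z b₁ + t * q Z b₂ := by
  unfold q
  simp only [Pi.add_apply, Pi.smul_apply, smul_eq_mul]
  ring

/- Proof:
fan_coord gives b1, b2; a i = q (z i) b1, b i = q (z i) b2, z i = uv Y x (y i), h i = -q (z i) W. Expansion of z i and z (i+1): q (z i)(z (i+1)) = -(q (z i) W)(q (z(i+1)) W) + a i a(i+1) + b i b(i+1) (q (z i) X = 0, W W = -1), so a i a(i+1) + b i b(i+1) = cos(ang) + h i h(i+1) (fan_ang) and a i^2 + b i^2 = 1 + h i^2 (q (z i)(z i) = 1). So bet (ang ..)(h i)(h (i+1)) is the summand of angle_sum; periods from hf.per_y; once by fan_once.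
-/
theorem fan_sum {ι : Type*} {C : ι → Set V3} {Y : V3 → V4} {n : ι → V4} (h : PolyGood C Y n) {x : V3} (hx : x ∈ H2) {k : ℕ} {y : ℕ → V3} {j : ℕ → ι} (hf : IsFan C x k y j) {W : V4} (hW : q W W = -1) (hXW : q (nrm Y x) W = 0) (hn : ∀ i, 0 < q (n (j i)) W) :
    ∑ i ∈ Finset.range k, bet (ang (uv Y x (y i)) (uv Y x (y (i + 1)))) (-(q (uv Y x (y i)) W))
      (-(q (uv Y x (y (i + 1))) W)) = 2 * Real.pi := by
  obtain ⟨b₁, b₂, h11, h22, h12, hX1, hX2, hW1, hW2, hexp, hd⟩ := fan_coord h hx hf hW hXW hn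
  have hz : ∀ i, q (uv Y x (y i)) (uv Y x (y i)) = 1 ∧ q (nrm Y x) (uv Y x (y i)) = 0 := by
    intro i
    obtain ⟨-, h1, h2, -⟩ := uv_props h hx (hf.mem i) (fan_ne hf i).1 (hf.cell i).1 (hf.cell i).2.1
    exact ⟨h1, h2⟩
  have hprod : ∀ i l, q (uv Y x (y i)) (uv Y x (y l)) =
      -(q (uv Y x (y i)) W * q (uv Y x (y l)) W) + q (uv Y x (y i)) b₁ * q (uv Y x (y l)) b₁
        + q (uv Y x (y i)) b₂ * q (uv Y x (y l)) b₂ := by
    intro i l
    have h1 : q (uv Y x (y i)) (uv Y x (y l)) = q (uv Y x (y i))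
        ((-(q (uv Y x (y l)) (nrm Y x))) • nrm Y x + (-(q (uv Y x (y l)) W)) • W
          + (q (uv Y x (y l)) b₁) • b₁ + (q (uv Y x (y l)) b₂) • b₂) := by
      rw [← hexp]
    rw [h1, fan_sum_q_exp, fan_sum_q_comm (uv Y x (y i)) (nrm Y x), (hz i).2]
    ring
  have hang := fan_ang h hx hf
  have key : ∀ i, bet (ang (uv Y x (y i)) (uv Y x (y (i + 1)))) (-(q (uv Y x (y i)) W))
      (-(q (uv Y x (y (i + 1))) W)) = Real.arccos
        ((q (uv Y x (y i)) b₁ * q (uv Y x (y (i + 1))) b₁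
          + q (uv Y x (y i)) b₂ * q (uv Y x (y (i + 1))) b₂) /
        (Real.sqrt (q (uv Y x (y i)) b₁ ^ 2 + q (uv Y x (y i)) b₂ ^ 2) *
          Real.sqrt (q (uv Y x (y (i + 1))) b₁ ^ 2 + q (uv Y x (y (i + 1))) b₂ ^ 2))) := by
    intro i
    have hsq : ∀ l, 1 + (-(q (uv Y x (y l)) W)) ^ 2
        = q (uv Y x (y l)) b₁ ^ 2 + q (uv Y x (y l)) b₂ ^ 2 := by
      intro l
      have h1 := hprod l l
      rw [(hz l).1] at h1
      linear_combination h1
    unfold bet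
    rw [(hang.1 i).2.2, hsq i, hsq (i + 1)]
    have h2 := hprod i (i + 1)
    rw [show q (uv Y x (y i)) (uv Y x (y (i + 1))) + -(q (uv Y x (y i)) W) * -(q (uv Y x (y (i + 1))) W)
      = q (uv Y x (y i)) b₁ * q (uv Y x (y (i + 1))) b₁
          + q (uv Y x (y i)) b₂ * q (uv Y x (y (i + 1))) b₂ by rw [h2]; ring]
  rw [Finset.sum_congr rfl (fun i _ => key i)]
  exact angle_sum hf.pos (a := fun i => q (uv Y x (y i)) b₁) (b := fun i => q (uv Y x (y i)) b₂)
    (fun i => by simp only [hf.per_y]) (fun i => by simp only [hf.per_y]) hd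
    (fan_once h hx hf hn hexp hd)

end A_fan_sum

alias fan_sum := A_fan_sum.fan_sum

end Helper935.Poly
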