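import Pool.Agent.Helper935_AdS.PLink

namespace Helper935.Poly

namespace A_first6

/- Proof:
Suppose b > 0. For 0 < s <= s1: sinh s * b <= a (1 - cosh s) <= |a| (cosh s - 1), so b <= |a| (cosh s - 1)/sinh s = |a| tanh(s/2) <= |a| s/2... letting s -> 0+ gives b <= 0 (e.g. (cosh s - 1)/sinh s = sinh s/(cosh s + 1) <= sinh s -> 0).
-/
theorem first6 {a b s₁ : ℝ} (hs₁ : 0 < s₁)
    (h : ∀ s : ℝ, 0 ≤ s → s ≤ s₁ → Real.cosh s * a + Real.sinh s * b ≤ a) : b ≤ 0 := by
  by_contra hb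
  push Not at hb
  have hA : 0 ≤ |a| := abs_nonneg a
  have hk : 0 < b / (2 * (|a| + 1)) := by positivity
  have hs0 : 0 < Real.arsinh (b / (2 * (|a| + 1))) := Real.arsinh_pos_iff.mpr hk
  obtain ⟨s, hs, hs1, hs2⟩ : ∃ s : ℝ, 0 < s ∧ s ≤ s₁ ∧ Real.sinh s ≤ b / (2 * (|a| + 1)) := by
    refine ⟨min s₁ (Real.arsinh (b / (2 * (|a| + 1)))), lt_min hs₁ hs0, min_le_left _ _, ?_⟩
    calc Real.sinh (min s₁ (Real.arsinh (b / (2 * (|a| + 1)))))
        ≤ Real.sinh (Real.arsinh (b / (2 * (|a| + 1)))) :=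
          Real.sinh_le_sinh.mpr (min_le_right _ _)
      _ = _ := Real.sinh_arsinh _
  have hsh : 0 < Real.sinh s := Real.sinh_pos_iff.mpr hs
  have hch : 1 ≤ Real.cosh s := Real.one_le_cosh s
  have hsq : Real.cosh s ^ 2 = Real.sinh s ^ 2 + 1 := Real.cosh_sq s
  have h1 := h s hs.le hs1
  have h2 : Real.cosh s - 1 ≤ Real.sinh s ^ 2 := by nlinarith
  have h3 : Real.sinh s * b ≤ |a| * Real.sinh s ^ 2 := by
    have h4 : -a ≤ |a| := neg_le_abs a
    have h5 : Real.sinh s * b ≤ (-a) * (Real.cosh s - 1) := by linarith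
    have h6 : (-a) * (Real.cosh s - 1) ≤ |a| * (Real.cosh s - 1) :=
      mul_le_mul_of_nonneg_right h4 (by linarith)
    have h7 : |a| * (Real.cosh s - 1) ≤ |a| * Real.sinh s ^ 2 :=
      mul_le_mul_of_nonneg_left h2 hA
    linarith
  have h8 : b ≤ |a| * Real.sinh s := by
    have : Real.sinh s * b ≤ Real.sinh s * (|a| * Real.sinh s) := by
      calc Real.sinh s * b ≤ |a| * Real.sinh s ^ 2 := h3
        _ = Real.sinh s * (|a| * Real.sinh s) := by ring
    exact le_of_mul_le_mul_left this hsh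
  have h9 : |a| * Real.sinh s ≤ |a| * (b / (2 * (|a| + 1))) :=
    mul_le_mul_of_nonneg_left hs2 hA
  have h10 : |a| * (b / (2 * (|a| + 1))) < b := by
    rw [mul_div_assoc', div_lt_iff₀ (by positivity)]
    nlinarith
  linarith

end A_first6

alias first6 := A_first6.first6

namespace A_ext6

/- Proof:
h.dir gives s0 and points z(s) in H2 with X z(s) = cosh s X x + sinh s zeta; q (X z(s)) Z = cosh s a + sinh s b with a = q (X x) Z, b = q zeta Z; hmax gives <= a for 0 <= s <= s0. first6.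
-/
theorem ext6 {S : NS} {c : ℝ} (h : NGood S c) {x : V3} (hx : x ∈ H2) {Z : V4} (hmax : ∀ y ∈ H2, q (S.X y) Z ≤ q (S.X x) Z) :
    ∀ ζ ∈ S.Dr x, q ζ Z ≤ 0 := by
  intro ζ hζ
  obtain ⟨_, _, _, s₀, hs₀, hz⟩ := h.dir x hx ζ hζ
  refine first6 (a := q (S.X x) Z) hs₀ ?_
  intro s h0 h1
  obtain ⟨z, hzH, hzX, _⟩ := hz s h0 h1
  have h2 := hmax z hzH
  rw [hzX] at h2
  have h3 : q (Real.cosh s • S.X x + Real.sinh s • ζ) Z
      = Real.cosh s * q (S.X x) Z + Real.sinh s * q ζ Z := by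
    simp only [q, Pi.add_apply, Pi.smul_apply, smul_eq_mul]
    ring
  rw [h3] at h2
  exact h2

end A_ext6

alias ext6 := A_ext6.ext6

namespace A_dirn6

/- Proof:
h.dir: X z = cosh s0 X x + sinh s0 zeta with s0 > 0, z in H2; h.supp: q n (X z) <= 0; q n (X x) = 0 (h.NX). So sinh s0 * q n zeta <= 0.
-/
theorem dirn6 {S : NS} {c : ℝ} (h : NGood S c) {x : V3} (hx : x ∈ H2) {n ζ : V4} (hn : n ∈ S.Nr x) (hζ : ζ ∈ S.Dr x) : q n ζ ≤ 0 := by
  obtain ⟨-, -, -, s₀, hs, hd⟩ := h.dir x hx ζ hζ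
  obtain ⟨z, hz, hX, -⟩ := hd s₀ hs.le le_rfl
  have h1 := h.supp x hx n hn z hz
  have h2 := h.NX x hx n hn
  rw [hX] at h1
  have h3 : q n (Real.cosh s₀ • S.X x + Real.sinh s₀ • ζ) = Real.cosh s₀ * q n (S.X x) + Real.sinh s₀ * q n ζ := by
    simp only [q, Pi.add_apply, Pi.smul_apply, smul_eq_mul]; ring
  rw [h3, h2, mul_zero, zero_add] at h1
  have h4 : 0 < Real.sinh s₀ := Real.sinh_pos_iff.mpr hs
  by_contra hc
  push Not at hc
  have := mul_pos h4 hc
  linarith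

end A_dirn6

alias dirn6 := A_dirn6.dirn6

namespace A_slope6

/- Proof:
Let P = Z + (q (X x) Z) • X x with X = S.X x: q X P = 0 and q P P = q Z Z + (q X Z)^2 = D^2 > 0 (q X X = -1). exists_W (A = X x, Z = P): W unit timelike, orthogonal to X and P. h.cover (with W, Z := P): P = a zeta + tau W, a >= 0, zeta in Dr x. h.dir: q zeta zeta = 1, q X zeta = 0. Let k = q zeta W. 0 = q P W = a k - tau, so tau = a k. D^2 = q P P = a^2 + 2 a tau k - tau^2 = a^2 (1 + k^2), so a > 0, a <= D. q P P = q P (a zeta + tau W) = a q P zeta, so q zeta P = D^2/a >= D. q zeta Z = q zeta P (q X zeta = 0).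
-/
theorem slope6 {S : NS} {c : ℝ} (h : NGood S c) {x : V3} (hx : x ∈ H2) {Z : V4} {D : ℝ} (hD : 0 < D)
    (hDD : D ^ 2 = q Z Z + (q (S.X x) Z) ^ 2) : ∃ ζ ∈ S.Dr x, D ≤ q ζ Z := by
  have hXX := h.XX x hx
  set X := S.X x with hX
  set m : ℝ := q X Z with hm
  set P : V4 := Z + m • X with hP
  have qadd : ∀ A B C : V4, q A (B + C) = q A B + q A C := by
    intro A B C; simp only [q, Pi.add_apply]; ring
  have qsm : ∀ (r : ℝ) (A B : V4), q A (r • B) = r * q A B := by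
    intro r A B; simp only [q, Pi.smul_apply, smul_eq_mul]; ring
  have qcomm : ∀ A B : V4, q A B = q B A := by
    intro A B; simp only [q]; ring
  have hXP : q X P = 0 := by
    rw [hP, qadd, qsm, hXX]; rw [← hm]; ring
  have hPP : q P P = D ^ 2 := by
    rw [hP, qadd, qsm, qcomm (Z + m • X) Z, qcomm (Z + m • X) X, qadd, qsm, qadd, qsm, hXX,
      qcomm Z X, hDD]
    rw [← hm]; ring
  obtain ⟨W, hWW, hXW, hPW⟩ := exists_W (A := X) (Z := P) (by rw [hXX]; norm_num) hXP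
    (by rw [hPP]; positivity)
  obtain ⟨a, τ, ζ, hζ, ha, hPa⟩ := h.cover x hx W (by rw [hWW]; norm_num) hXW P hXP
  obtain ⟨hζζ, hXζ, -, -⟩ := h.dir x hx ζ hζ
  have e1 : 0 = a * q ζ W - τ := by
    have h1 : q W P = 0 := by rw [qcomm]; exact hPW
    rw [hPa, qadd, qsm, qsm, hWW, qcomm W ζ] at h1
    linarith
  have e2 : q ζ P = a + τ * q ζ W := by
    rw [hPa, qadd, qsm, qsm, hζζ]; ring
  have e3 : D ^ 2 = a * q ζ P := by
    have h1 : q P P = a * q P ζ + τ * q P W := by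
      conv_lhs => rw [hPa]
      rw [← hPa, hPa, qadd, qsm, qsm]
    rw [← hPP, h1, hPW, qcomm P ζ]; ring
  have e4 : q ζ P = q ζ Z := by
    rw [hP, qadd, qsm, qcomm ζ X, hXζ]; ring
  set k : ℝ := q ζ W with hk
  have e5 : τ = a * k := by linarith
  rw [e5] at e2
  have e6 : D ^ 2 = a ^ 2 * (1 + k ^ 2) := by rw [e3, e2]; ring
  have e7 : a ≤ D := by nlinarith [mul_nonneg (sq_nonneg a) (sq_nonneg k)]
  refine ⟨ζ, hζ, ?_⟩
  rw [← e4]
  have e8 : 0 < a := by
    rcases ha.eq_or_lt with h0 | h0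
    · rw [← h0] at e6; nlinarith
    · exact h0
  by_contra hcon
  push Not at hcon
  nlinarith [mul_lt_mul_of_pos_left hcon e8]

end A_slope6

alias slope6 := A_slope6.slope6

namespace A_polar6

/- Proof:
Let X = S.X x, P = Z + (q X Z) • X, q X P = 0, q P P = q Z Z + (q X Z)^2, q zeta P = q zeta Z for zeta in Dr x (q X zeta = 0 by h.dir).
First claim: if q P P > 0 then slope6 with D = sqrt(q P P) gives zeta in Dr x with q zeta Z >= D > 0: contradiction.
Second claim: q P P = 0; suppose P ≠ 0. Take n in Nr x (h.ne), q n n = -1, q n X = 0. Let al = -q n P, e = P - al n: q n e = q n P + al = 0, q X e = 0, q e e = q P P - 2 al q n P + al^2 q n n = 2 al^2 - al^2 = al^2. al ≠ 0, otherwise P is orthogonal to X and n with q P P = 0, so P = 0 (revCS with A = X, W = n, part (i)). h.cover with W = n, Z = e: e = a zeta + tau n, a >= 0, zeta in Dr x. a ≠ 0 since e is not a multiple of n (q n e = 0, q e e ≠ 0: if e = tau n then q e n = -tau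 = 0). a q zeta P = q e P - tau q n P = q e P + tau al, and q e P = q e e + al q e n = al^2. a^2 = q (e - tau n)(e - tau n) = al^2 - tau^2 (q e n = 0), so tau^2 < al^2 (a > 0), |tau| < |al|, a q zeta P = al^2 + tau al > 0. So q zeta Z = q zeta P > 0: contradiction.
-/
theorem q6_comm (X Y : V4) : q X Y = q Y X := by unfold q; ring

theorem q6_add_r (X Y Z : V4) : q X (Y + Z) = q X Y + q X Z := by
  unfold q; simp only [Pi.add_apply]; ring

theorem q6_smul_r (a : ℝ) (X Y : V4) : q X (a • Y) = a * q X Y := by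
  unfold q; simp only [Pi.smul_apply, smul_eq_mul]; ring

theorem q6_add_l (X Y Z : V4) : q (X + Y) Z = q X Z + q Y Z := by
  unfold q; simp only [Pi.add_apply]; ring

theorem q6_smul_l (a : ℝ) (X Y : V4) : q (a • X) Y = a * q X Y := by
  unfold q; simp only [Pi.smul_apply, smul_eq_mul]; ring

theorem q6_sub_l (X Y Z : V4) : q (X - Y) Z = q X Z - q Y Z := by
  unfold q; simp only [Pi.sub_apply]; ring

theorem q6_sub_r (X Y Z : V4) : q X (Y - Z) = q X Y - q X Z := by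
  unfold q; simp only [Pi.sub_apply]; ring

theorem polar6 {S : NS} {c : ℝ} (h : NGood S c) {x : V3} (hx : x ∈ H2) {Z : V4} (hZ : ∀ ζ ∈ S.Dr x, q ζ Z ≤ 0) :
    q Z Z + (q (S.X x) Z) ^ 2 ≤ 0 ∧ (q Z Z + (q (S.X x) Z) ^ 2 = 0 → Z = (-(q (S.X x) Z)) • S.X x) := by
  constructor
  · by_contra hcon
    rw [not_le] at hcon
    have hs : 0 < Real.sqrt (q Z Z + (q (S.X x) Z) ^ 2) := Real.sqrt_pos.2 hcon
    obtain ⟨ζ, hζ, h1⟩ := slope6 h hx hs (Real.sq_sqrt hcon.le)
    have := hZ ζ hζ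
    linarith
  · intro h0
    set X := S.X x with hX
    have hXX : q X X = -1 := h.XX x hx
    obtain ⟨P, hP⟩ : ∃ P, P = Z + (q X Z) • X := ⟨_, rfl⟩
    have hXP : q X P = 0 := by
      rw [hP, q6_add_r, q6_smul_r, hXX]; ring
    have hPP : q P P = 0 := by
      have : q P P = q Z Z + (q X Z) ^ 2 := by
        rw [hP, q6_add_r, q6_smul_r, q6_add_l, q6_add_l, q6_smul_l, q6_smul_l, hXX, q6_comm Z X]; ring
      rw [this, h0]
    have hζP : ∀ ζ ∈ S.Dr x, q ζ P ≤ 0 := by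
      intro ζ hζ
      have h1 := (h.dir x hx ζ hζ).2.1
      rw [← hX] at h1
      have : q ζ P = q ζ Z := by
        rw [hP, q6_add_r, q6_smul_r, q6_comm ζ X, h1]; ring
      rw [this]
      exact hZ ζ hζ
    have hP0 : P = 0 := by
      obtain ⟨n, hn⟩ := h.ne x hx
      have hnn : q n n = -1 := h.NN x hx n hn
      have hnX : q n X = 0 := h.NX x hx n hn
      have hXn : q X n = 0 := by rw [q6_comm]; exact hnX
      by_contra hPne
      obtain ⟨al, hal⟩ : ∃ al, al = -(q n P) := ⟨_, rfl⟩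
      have hPn : q P n = -al := by rw [q6_comm, hal]; ring
      have hal0 : al ≠ 0 := by
        intro h1
        apply hPne
        have := (revCS (A := X) (W := n) (by rw [hXX]; norm_num) (by rw [hnn]; norm_num) hXn (Z := P) hXP).1
          (by rw [hPn, h1]; ring)
        exact this.2 hPP
      obtain ⟨e, he⟩ : ∃ e, e = P - al • n := ⟨_, rfl⟩
      have hne : q n e = 0 := by
        rw [he, q6_sub_r, q6_smul_r, hnn, hal]; ring
      have hen : q e n = 0 := by rw [q6_comm]; exact hne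
      have hXe : q X e = 0 := by
        rw [he, q6_sub_r, q6_smul_r, hXP, hXn]; ring
      have hee : q e e = al ^ 2 := by
        have h1 : q e e = q e P - al * q e n := by
          conv_lhs => rw [he]
          rw [q6_sub_r, q6_smul_r, ← he]
        have h2 : q e P = q P P - al * q n P := by
          rw [he, q6_sub_l, q6_smul_l]
        rw [h1, hen, h2, hPP, hal]; ring
      have heP : q e P = al ^ 2 := by
        have h2 : q e P = q P P - al * q n P := by
          rw [he, q6_sub_l, q6_smul_l]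
        rw [h2, hPP, hal]; ring
      obtain ⟨a, τ, ζ, hζ, ha, hdec⟩ := h.cover x hx n (by rw [hnn]; norm_num) hXn e hXe
      have hpos : 0 < al ^ 2 := by positivity
      have hζζ := (h.dir x hx ζ hζ).1
      have haζ : a • ζ = e - τ • n := by rw [hdec]; abel
      have hsq : a ^ 2 = al ^ 2 - τ ^ 2 := by
        have h1 : q (a • ζ) (a • ζ) = a ^ 2 := by
          rw [q6_smul_l, q6_smul_r, hζζ]; ring
        rw [← h1, haζ, q6_sub_l, q6_sub_r, q6_sub_r, q6_smul_l, q6_smul_l, q6_smul_r, q6_smul_r, hee, hen, hne,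
          hnn]; ring
      have hane : a ≠ 0 := by
        intro h1
        have h2 : e = τ • n := by rw [hdec, h1, zero_smul, zero_add]
        have h3 : q e n = -τ := by rw [h2, q6_smul_l, hnn]; ring
        rw [hen] at h3
        have h4 : τ = 0 := by linarith
        rw [h1, h4] at hsq
        nlinarith
      have hapos : 0 < a := lt_of_le_of_ne ha (Ne.symm hane)
      have hmain : a * q ζ P = al ^ 2 + τ * al := by
        rw [← q6_smul_l, haζ, q6_sub_l, q6_smul_l, heP, hal]; ring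
      have hle := hζP ζ hζ
      have h5 : al ^ 2 + τ * al ≤ 0 := by
        rw [← hmain]
        exact mul_nonpos_of_nonneg_of_nonpos ha hle
      have h6 : 0 < a ^ 2 := by positivity
      nlinarith [sq_nonneg (al + τ), sq_nonneg (al - τ)]
    have : Z + (q X Z) • X = 0 := by rw [← hP, hP0]
    rw [neg_smul]
    exact eq_neg_of_add_eq_zero_left this

end A_polar6

alias polar6 := A_polar6.polar6

namespace A_pair6

/- Proof:
polar6 for Z = K: q K K <= 0 and K = 0 if q K K = 0. If K = 0 trivial. So q K K < 0. Let X = S.X x, P = V + (q X V) • X: q X P = 0, q K P = q K V, q n P = q n V for n in Nr x. h.cover with W = K, Z = -P: -P = a zeta + tau K with a >= 0, zeta in Dr x. By h.dir there is n in Nr x with q n zeta = 0. -q n P = tau q n K. q n P = q n V >= 0, so tau q n K <= 0. q n K <= 0 and q n K ≠ 0 (revCS (ii) with A = X, W = n, Z = K: q K K <= 0, q K n = 0 would give K = 0), so q n K < 0 and tau >= 0. -q K P = a q zeta K +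 tau q K K <= 0 (q zeta K <= 0, q K K < 0). So q K V = q K P >= 0.
-/
theorem pair6 {S : NS} {c : ℝ} (h : NGood S c) {x : V3} (hx : x ∈ H2) {K V : V4} (hXK : q (S.X x) K = 0) (hK : ∀ ζ ∈ S.Dr x, q ζ K ≤ 0)
    (hnK : ∀ n ∈ S.Nr x, q n K ≤ 0) (hV : ∀ n ∈ S.Nr x, 0 ≤ q n V) : 0 ≤ q K V := by
  have sym : ∀ A B : V4, q A B = q B A := by intro A B; simp only [q]; ring
  have add : ∀ A B C : V4, q A (B + C) = q A B + q A C := by
    intro A B C; simp only [q, Pi.add_apply]; ring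
  have smu : ∀ (r : ℝ) (A B : V4), q A (r • B) = r * q A B := by
    intro r A B; simp only [q, Pi.smul_apply, smul_eq_mul]; ring
  have neg : ∀ A B : V4, q A (-B) = -q A B := by
    intro A B; simp only [q, Pi.neg_apply]; ring
  obtain ⟨h1, h2⟩ := polar6 h hx hK
  rw [hXK] at h1 h2
  by_cases hK0 : K = 0
  · subst hK0
    have : q (0 : V4) V = 0 := by simp [q]
    rw [this]
  have hKK : q K K < 0 := by
    rcases lt_or_eq_of_le h1 with h3 | h3
    · linarith [h3]
    · exfalso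
      apply hK0
      have := h2 h3
      simpa using this
  have hXX := h.XX x hx
  have hP : q (S.X x) (-(V + (q (S.X x) V) • S.X x)) = 0 := by
    rw [neg, add, smu, hXX]; ring
  obtain ⟨a, τ, ζ, hζ, ha, hZ⟩ := h.cover x hx K hKK hXK _ hP
  obtain ⟨_, _, ⟨n, hn, hnζ⟩, _⟩ := h.dir x hx ζ hζ
  have hnX := h.NX x hx n hn
  have hnn := h.NN x hx n hn
  have e1 : -q n V = τ * q n K := by
    have := congrArg (q n) hZ
    rw [neg, add, smu, hnX, add, smu, smu, hnζ] at this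
    linarith
  have e2 : -q K V = a * q K ζ + τ * q K K := by
    have := congrArg (q K) hZ
    rw [neg, add, smu, sym K (S.X x), hXK, add, smu, smu] at this
    linarith
  have hnK1 : q n K < 0 := by
    rcases lt_or_eq_of_le (hnK n hn) with h3 | h3
    · exact h3
    · exfalso
      apply hK0
      exact (revCS (A := S.X x) (W := n) (by rw [hXX]; norm_num) (by rw [hnn]; norm_num)
        (by rw [sym]; exact hnX) (Z := K) hXK).2.1 hKK.le (by rw [sym]; exact h3)
  have hτ : 0 ≤ τ := by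
    by_contra hc
    have hc' : τ < 0 := not_le.mp hc
    have := mul_pos_of_neg_of_neg hc' hnK1
    linarith [hV n hn]
  have hz := hK ζ hζ
  rw [sym ζ K] at hz
  have h5 : a * q K ζ ≤ 0 := mul_nonpos_of_nonneg_of_nonpos ha hz
  have h6 : τ * q K K ≤ 0 := mul_nonpos_of_nonneg_of_nonpos hτ hKK.le
  linarith

end A_pair6

alias pair6 := A_pair6.pair6

namespace A_ekel6

theorem ekel6_deriv {G : ℝ → ℝ} {G' : ℝ} (hG : HasDerivAt G G' 0) {s₀ : ℝ} (hs : 0 < s₀)
    (hmin : ∀ s : ℝ, 0 ≤ s → s ≤ s₀ → G 0 ≤ G s) : 0 ≤ G' := by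
  have h1 := (hasDerivAt_iff_tendsto_slope.1 hG).mono_left
    (nhdsWithin_mono (0:ℝ) (show Set.Ioi (0:ℝ) ⊆ {0}ᶜ from fun x hx => ne_of_gt hx))
  refine ge_of_tendsto h1 ?_
  have h2 : Set.Ioc (0:ℝ) s₀ ∈ nhdsWithin (0:ℝ) (Set.Ioi 0) := Ioc_mem_nhdsGT hs
  filter_upwards [h2] with s hs'
  rw [slope_def_field]
  exact div_nonneg (by have := hmin s hs'.1.le hs'.2; linarith) (by have := hs'.1; linarith)

theorem ekel6 {S : NS} {c : ℝ} (h : NGood S c) {Z : V4} (hZ : ∀ x ∈ H2, q (S.X x) Z ≤ 0) {ε : ℝ} (hε : 0 < ε) :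
    ∃ x ∈ H2, ∀ ζ ∈ S.Dr x, q ζ Z ≤ ε := by
  have hc : 0 < c := h.c_pos
  obtain ⟨e, he, hee⟩ : ∃ e : ℝ, 0 < e ∧ e = ε * c := ⟨ε * c, mul_pos hε hc, rfl⟩
  have hne : H2.Nonempty := by
    refine ⟨![1, 0, 0], ?_, ?_⟩
    · simp [eta]
    · simp
  set SS : Set ℝ := (fun x => -q (S.X x) Z) '' H2 with hSS
  have hSne : SS.Nonempty := hne.image _
  have hSb : BddBelow SS := by
    refine ⟨0, ?_⟩
    rintro _ ⟨x, hx, rfl⟩
    have := hZ x hx
    simp only
    linarith
  obtain ⟨_, ⟨x₀, hx₀, rfl⟩, hlt⟩ := exists_lt_of_csInf_lt hSne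
    (show sInf SS < sInf SS + e / 2 by linarith)
  simp only at hlt
  have hinf : ∀ x ∈ H2, sInf SS ≤ -q (S.X x) Z := fun x hx => csInf_le hSb ⟨x, hx, rfl⟩
  have h00 : eta x₀ x₀ = -1 := hx₀.1
  have hw0 : 0 ≤ -q (S.X x₀) Z := by
    have := hZ x₀ hx₀
    linarith
  -- the penalised function
  let g : V3 → ℝ := fun x => -q (S.X x) Z + e / 2 * (-eta x₀ x)
  have hg0 : g x₀ = -q (S.X x₀) Z + e / 2 := by
    show -q (S.X x₀) Z + e / 2 * (-eta x₀ x₀) = _
    rw [h00]
    ring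
  have hcont : ContinuousOn g H2 := by
    have h1 := h.contX
    have h2 : ∀ i, ContinuousOn (fun x => S.X x i) H2 := fun i =>
      (continuous_apply i).comp_continuousOn h1
    have h3 : ContinuousOn (fun x => q (S.X x) Z) H2 := by
      unfold q
      exact ((((h2 0).mul continuousOn_const).neg.add ((h2 1).mul continuousOn_const)).add
        ((h2 2).mul continuousOn_const)).sub ((h2 3).mul continuousOn_const)
    have h4 : Continuous (fun x : V3 => eta x₀ x) := by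
      unfold eta
      fun_prop
    exact h3.neg.add (continuousOn_const.mul h4.continuousOn.neg)
  set R : ℝ := 2 * g x₀ / e with hR
  have hRε : e / 2 * R = g x₀ := by
    rw [hR]
    field_simp
  have hR1 : 1 ≤ R := by
    rw [hR, le_div_iff₀ he, hg0]
    linarith
  set K : Set V3 := {x | x ∈ H2 ∧ -eta x₀ x ≤ R} with hK
  have hKc : IsCompact K := H2_ball hx₀ R
  have hx0K : x₀ ∈ K := ⟨hx₀, by rw [h00]; linarith⟩
  obtain ⟨x₁, hx1K, hmin⟩ := hKc.exists_isMinOn ⟨x₀, hx0K⟩ (hcont.mono fun x hx => hx.1)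
  have hx1 : x₁ ∈ H2 := hx1K.1
  have hminK : ∀ x ∈ K, g x₁ ≤ g x := fun x hx => hmin hx
  have hminH : ∀ x ∈ H2, g x₁ ≤ g x := by
    intro x hx
    by_cases hxK : -eta x₀ x ≤ R
    · exact hminK x ⟨hx, hxK⟩
    · refine (hminK x₀ hx0K).trans ?_
      have h5 := hZ x hx
      have h6 : e / 2 * R ≤ e / 2 * (-eta x₀ x) :=
        mul_le_mul_of_nonneg_left (not_le.1 hxK).le (by positivity)
      show g x₀ ≤ -q (S.X x) Z + e / 2 * (-eta x₀ x)
      linarith
  have hb : e / 2 * (-eta x₀ x₁) ≤ e := by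
    have h7 := hminK x₀ hx0K
    have h8 := hinf x₁ hx1
    rw [hg0] at h7
    have h9 : g x₁ = -q (S.X x₁) Z + e / 2 * (-eta x₀ x₁) := rfl
    linarith
  obtain ⟨d, v, hd0, hv, hgeo⟩ := exists_geo hx₀ hx1
  have hcd : -eta x₀ x₁ = Real.cosh d := by
    rw [← hgeo, eta_geo hx₀ hv]
    ring
  refine ⟨x₁, hx1, fun ζ hζ => ?_⟩
  obtain ⟨-, -, -, s₀, hs₀, hs⟩ := h.dir x₁ hx1 ζ hζ
  let G : ℝ → ℝ := fun s => Real.cosh s * (-q (S.X x₁) Z) - Real.sinh s * q ζ Z
    + e / 2 * Real.cosh (d + s / c)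
  have hG0 : G 0 = g x₁ := by
    show Real.cosh 0 * (-q (S.X x₁) Z) - Real.sinh 0 * q ζ Z + e / 2 * Real.cosh (d + 0 / c) =
      -q (S.X x₁) Z + e / 2 * (-eta x₀ x₁)
    rw [Real.cosh_zero, Real.sinh_zero, zero_div, add_zero, hcd]
    ring
  have hGd : HasDerivAt G (-q ζ Z + e / 2 * (Real.sinh d / c)) 0 := by
    have h1 := (Real.hasDerivAt_cosh 0).mul_const (-q (S.X x₁) Z)
    have h2 := (Real.hasDerivAt_sinh 0).mul_const (q ζ Z)
    have h3 : HasDerivAt (fun s : ℝ => d + s / c) (1 / c) 0 :=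
      ((hasDerivAt_id (0:ℝ)).div_const c).const_add d
    have h4 : HasDerivAt (fun s : ℝ => Real.cosh (d + s / c)) (Real.sinh (d + 0 / c) * (1 / c)) 0 :=
      h3.cosh
    have h5 := (h1.sub h2).add (h4.const_mul (e / 2))
    have h6 : Real.sinh 0 * -q (S.X x₁) Z - Real.cosh 0 * q ζ Z
        + e / 2 * (Real.sinh (d + 0 / c) * (1 / c)) = -q ζ Z + e / 2 * (Real.sinh d / c) := by
      rw [Real.sinh_zero, Real.cosh_zero, zero_div, add_zero]
      ring
    rw [h6] at h5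
    exact h5
  have hGmin : ∀ s : ℝ, 0 ≤ s → s ≤ s₀ → G 0 ≤ G s := by
    intro s h0s hss
    obtain ⟨z, hz, hXz, hle⟩ := hs s h0s hss
    have h1 := hminH z hz
    have h2 : -eta x₀ z ≤ Real.cosh (d + s / c) :=
      H2_triangle hx₀ hx1 hz hd0 (div_nonneg h0s hc.le) hcd.le hle
    have h3 : q (S.X z) Z = Real.cosh s * q (S.X x₁) Z + Real.sinh s * q ζ Z := by
      rw [hXz]
      simp only [q, Pi.add_apply, Pi.smul_apply, smul_eq_mul]
      ring
    have h4 : g z = -q (S.X z) Z + e / 2 * (-eta x₀ z) := rfl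
    have h5 : e / 2 * (-eta x₀ z) ≤ e / 2 * Real.cosh (d + s / c) :=
      mul_le_mul_of_nonneg_left h2 (by positivity)
    rw [hG0]
    show g x₁ ≤ Real.cosh s * (-q (S.X x₁) Z) - Real.sinh s * q ζ Z
      + e / 2 * Real.cosh (d + s / c)
    rw [h4, h3] at h1
    nlinarith
  have h6 := ekel6_deriv hGd hs₀ hGmin
  have h7 : Real.sinh d ≤ 2 := by
    have h8 : Real.sinh d < Real.cosh d := Real.sinh_lt_cosh d
    have h9 : e / 2 * Real.cosh d ≤ e := by rw [← hcd]; exact hb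
    have h10 : Real.cosh d ≤ 2 := by
      by_contra hcon
      have := not_le.1 hcon
      nlinarith
    linarith
  have h8 : e / 2 * (Real.sinh d / c) ≤ ε := by
    rw [hee]
    have : ε * c / 2 * (Real.sinh d / c) = ε * Real.sinh d / 2 := by
      field_simp
    rw [this]
    nlinarith
  linarith

end A_ekel6

alias ekel6 := A_ekel6.ekel6

namespace A_near6

/- Proof:
ekel6 gives x. If q Z Z + (q (X x) Z)^2 > ε^2, put D = sqrt of the left side > ε; slope6 gives zeta in Dr x with D <= q zeta Z <= ε: contradiction.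
-/
theorem near6 {S : NS} {c : ℝ} (h : NGood S c) {Z : V4} (hZ : ∀ x ∈ H2, q (S.X x) Z ≤ 0) {ε : ℝ} (hε : 0 < ε) :
    ∃ x ∈ H2, (∀ ζ ∈ S.Dr x, q ζ Z ≤ ε) ∧ q Z Z + (q (S.X x) Z) ^ 2 ≤ ε ^ 2 := by
  obtain ⟨x, hx, hd⟩ := ekel6 h hZ hε
  refine ⟨x, hx, hd, ?_⟩
  by_contra hlt
  rw [not_le] at hlt
  have hpos : 0 ≤ q Z Z + (q (S.X x) Z) ^ 2 := le_trans (by positivity) hlt.le
  have hD : ε < Real.sqrt (q Z Z + (q (S.X x) Z) ^ 2) := Real.lt_sqrt_of_sq_lt hlt
  obtain ⟨ζ, hζ, hDζ⟩ := slope6 h hx (hε.trans hD) (Real.sq_sqrt hpos)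
  exact absurd (hDζ.trans (hd ζ hζ)) (not_le.2 hD)

end A_near6

alias near6 := A_near6.near6

namespace A_nonspacelike6

/- Proof:
near6: q Z Z <= ε^2 for every ε > 0.
-/
theorem nonspacelike6 {S : NS} {c : ℝ} (h : NGood S c) {Z : V4} (hZ : ∀ x ∈ H2, q (S.X x) Z ≤ 0) : q Z Z ≤ 0 := by
  by_contra hcon
  have hpos : 0 < q Z Z := lt_of_not_ge hcon
  obtain ⟨x, _, _, h2⟩ := near6 h hZ (ε := Real.sqrt (q Z Z / 2)) (Real.sqrt_pos.mpr (by linarith))
  rw [Real.sq_sqrt (by linarith)] at h2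
  nlinarith [sq_nonneg (q (S.X x) Z)]

end A_nonspacelike6

alias nonspacelike6 := A_nonspacelike6.nonspacelike6

namespace A_strictX6

/- Proof:
If q (X x) Z = 0 then x maximises q (X .) Z over H2; ext6 and polar6: q Z Z + 0 = 0 so Z = -(0) X x = 0: contradiction.
-/
theorem strictX6 {S : NS} {c : ℝ} (h : NGood S c) {Z : V4} (hZ0 : Z ≠ 0) (hZZ : q Z Z = 0)
    (hZ : ∀ x ∈ H2, q (S.X x) Z ≤ 0) {x : V3} (hx : x ∈ H2) : q (S.X x) Z < 0 := by
  rcases lt_or_eq_of_le (hZ x hx) with h1 | h1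
  · exact h1
  · exfalso
    have hmax : ∀ y ∈ H2, q (S.X y) Z ≤ q (S.X x) Z := fun y hy => by rw [h1]; exact hZ y hy
    have h2 := (polar6 h hx (ext6 h hx hmax)).2 (by rw [hZZ, h1]; ring)
    rw [h1] at h2
    exact hZ0 (by rw [h2]; simp)

end A_strictX6

alias strictX6 := A_strictX6.strictX6

namespace A_contact6

theorem aux6_q_comm (X Y : V4) : q X Y = q Y X := by
  unfold q
  ring

theorem aux6_q_neg (X Y : V4) : q X (-Y) = -q X Y := by
  simp only [q, Pi.neg_apply]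
  ring

theorem aux6_q_add (X Y Z : V4) : q X (Y + Z) = q X Y + q X Z := by
  simp only [q, Pi.add_apply]
  ring

/- Proof:
ext6 (x is a maximum of q (X .) N, value 0): q zeta N <= 0 for zeta in Dr x. Suppose q n N >= 0. q n N ≠ 0 by revCS (ii) (A = X x, W = n, Z = N: q N N = -1 <= 0, q N n = 0 would give N = 0, contradiction with q N N = -1). So q n (-N) < 0; unitCS (A = X x, U = n, V = -N): q n (-N) <= -1, q n N >= 1. polar6 for Z = n + N: q zeta (n + N) <= 0 (dirn6), q (X x)(n + N) = 0: q Z Z = -2 + 2 q n N <= 0, so q n N = 1 and q Z Z = 0, so Z = 0: N = -n. Then for all y in H2: q (X y) N <= 0 and q n (X y) <= 0 (h.supp) give q (X y) N = 0: contradiction with h.nonflat N.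
-/
theorem contact6 {S : NS} {c : ℝ} (h : NGood S c) {N : V4} (hNN : q N N = -1) (hN : ∀ x ∈ H2, q (S.X x) N ≤ 0) {x : V3}
    (hx : x ∈ H2) (h0 : q (S.X x) N = 0) {n : V4} (hn : n ∈ S.Nr x) : q n N < 0 := by
  have hXX := h.XX x hx
  have hnn := h.NN x hx n hn
  have hnX := h.NX x hx n hn
  have hXn : q (S.X x) n = 0 := by
    rw [aux6_q_comm]
    exact hnX
  have h1 : ∀ ζ ∈ S.Dr x, q ζ N ≤ 0 := ext6 h hx (Z := N) (fun y hy => by
    rw [h0]
    exact hN y hy)
  by_contra hcon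
  have hcon' : 0 ≤ q n N := not_lt.1 hcon
  have hne : q n N ≠ 0 := by
    intro h2
    have h3 := (revCS (A := S.X x) (W := n) (by rw [hXX]; norm_num) (by rw [hnn]; norm_num)
      hXn (Z := N) h0).2.1 (by rw [hNN]; norm_num) (by rw [aux6_q_comm]; exact h2)
    rw [h3] at hNN
    unfold q at hNN
    simp at hNN
  have hpos : 0 < q n N := lt_of_le_of_ne hcon' (Ne.symm hne)
  have h3 := (unitCS (A := S.X x) (U := n) (V := -N) hXX hnn
    (by rw [aux6_q_neg, aux6_q_comm, aux6_q_neg, neg_neg]; exact hNN) hXn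
    (by rw [aux6_q_neg, h0, neg_zero]) (by rw [aux6_q_neg]; linarith)).1
  rw [aux6_q_neg] at h3
  have h4 := polar6 h hx (Z := n + N) (fun ζ hζ => by
    have e1 := dirn6 h hx hn hζ
    have e2 := h1 ζ hζ
    rw [aux6_q_comm] at e1
    rw [aux6_q_add]
    linarith)
  have e0 : q (S.X x) (n + N) = 0 := by
    rw [aux6_q_add, hXn, h0, add_zero]
  have e1 : q (n + N) (n + N) = -2 + 2 * q n N := by
    rw [aux6_q_add, aux6_q_comm (n + N) n, aux6_q_comm (n + N) N, aux6_q_add, aux6_q_add, hnn, hNN,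
      aux6_q_comm N n]
    ring
  rw [e0, e1] at h4
  have h5 : q n N = 1 := by
    have := h4.1
    linarith
  have h6 := h4.2 (by rw [h5]; norm_num)
  rw [neg_zero, zero_smul] at h6
  have h7 : N = -n := eq_neg_of_add_eq_zero_right h6
  obtain ⟨y, hy, hy'⟩ := h.nonflat N hNN
  have h8 := hN y hy
  have h9 := h.supp x hx n hn y hy
  rw [aux6_q_comm] at h9
  have h10 : q (S.X y) N = -q (S.X y) n := by
    conv_lhs => rw [h7, aux6_q_neg]
  refine hy' (le_antisymm h8 ?_)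
  rw [h10]
  linarith

end A_contact6

alias contact6 := A_contact6.contact6

namespace A_span6

/- Proof:
nonspacelike6: q Z Z <= 0. If q Z Z = 0 and Z ≠ 0: strictX6 gives q (X x) Z < 0 at x = ![1,0,0] in H2, contradiction. If q Z Z < 0: N = (sqrt(-q Z Z))^-1 • Z has q N N = -1 and q (X y) N = 0 for all y: contradiction with h.nonflat.
-/
theorem span6 {S : NS} {c : ℝ} (h : NGood S c) {Z : V4} (hZ : ∀ y ∈ H2, q (S.X y) Z = 0) : Z = 0 := by
  by_contra hZ0
  have hle : ∀ x ∈ H2, q (S.X x) Z ≤ 0 := fun x hx => (hZ x hx).le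
  have hx0 : (![1, 0, 0] : V3) ∈ H2 := by
    constructor
    · simp [eta]
    · simp
  rcases (nonspacelike6 h hle).lt_or_eq with hlt | heq
  · have hr : 0 < Real.sqrt (-(q Z Z)) := Real.sqrt_pos.2 (by linarith)
    have hsq : Real.sqrt (-(q Z Z)) ^ 2 = -(q Z Z) := Real.sq_sqrt (by linarith)
    obtain ⟨y, hy, hne⟩ := h.nonflat ((Real.sqrt (-(q Z Z)))⁻¹ • Z) (by
      have e : q ((Real.sqrt (-(q Z Z)))⁻¹ • Z) ((Real.sqrt (-(q Z Z)))⁻¹ • Z)
          = (Real.sqrt (-(q Z Z)) ^ 2)⁻¹ * q Z Z := by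
        simp only [q, Pi.smul_apply, smul_eq_mul]
        ring
      rw [e, hsq]
      have hne : q Z Z ≠ 0 := hlt.ne
      field_simp)
    apply hne
    have e : q (S.X y) ((Real.sqrt (-(q Z Z)))⁻¹ • Z) = (Real.sqrt (-(q Z Z)))⁻¹ * q (S.X y) Z := by
      simp only [q, Pi.smul_apply, smul_eq_mul]
      ring
    rw [e, hZ y hy, mul_zero]
  · exact absurd (hZ _ hx0) (strictX6 h hZ0 heq hle hx0).ne

end A_span6

alias span6 := A_span6.span6

namespace A_chord6

/- Proof: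
Let C(z) = -q (X x)(X z) >= 1 for z in H2 (h.chord), rho(z) >= 0 with cosh rho(z) = C(z) (rho = arcosh C = log(C + sqrt(C^2-1)), continuous), dist(z,w) >= 0 with cosh dist = -eta z w. Suppose the claim fails: rho(y) < c d with d = dist(x,y). Choose c' with 0 < c' < c, rho(y) < c' d. Minimise J(z) = rho(z) + c' dist(y,z) over H2 (continuous, J >= c' dist(y,z) so sublevel sets are compact, H2_ball): minimiser z1, J(z1) <= J(y) = rho(y) < c' d = J(x) (rho(x) = 0 as q (X x)(X x) = -1), so z1 ≠ x.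
C(z1) > 1: if C(z1) = 1 then z1 maximises q (X .)(X x) (value -1, all values <= -1 by h.chord); ext6 + polar6 (q (X x)(X x) + (q (X z1)(X x))^2 = -1 + 1 = 0): X x = -(q (X z1)(X x)) X z1 = X z1, so x = z1 by h.inj, contradiction.
Let C = C(z1) = cosh r, r = rho(z1) > 0, P = X x - C X z1: q (X z1) P = -C + C = 0, q P P = -1 + 2C^2 - C^2... = C^2 - 1 = sinh^2 r > 0. exists_W: W unit timelike orthogonal to X z1 and P. h.cover (x := z1, W, Z := P): P = a zeta + tau W, a >= 0. With k = q zeta W: 0 = q P W = a k - tau, q P P = a^2 (1 + k^2) so 0 < a <= sinh r, and q P P = a q zeta P so q zeta P = sinh^2 r/a >= sinh r. q zeta (X x) = q zeta P >= sinh r (q (X z1) zeta = 0).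
h.dir at z1: X z(s) = cosh s X z1 + sinh s zeta for 0 <= s <= s0, -eta z1 z(s) <= cosh(s/c). C(z(s)) = cosh s cosh r - sinh s q zeta (X x) <= cosh s cosh r - sinh s sinh r = cosh(r - s), so rho(z(s)) <= r - s for 0 <= s <= min(s0, r). dist(y,z(s)) <= dist(y,z1) + s/c (H2_triangle). So J(z(s)) <= J(z1) - s (1 - c'/c) < J(z1) for small s > 0: contradiction.
-/
theorem chord6 {S : NS} {c : ℝ} (h : NGood S c) {x y : V3} (hx : x ∈ H2) (hy : y ∈ H2) {d : ℝ} (hd : 0 ≤ d)
    (hxy : -eta x y = Real.cosh d) : Real.cosh (c * d) ≤ -q (S.X x) (S.X y) := by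
  by_contra hcon
  rw [not_le] at hcon
  have hc := h.c_pos
  set Z : V4 := S.X x with hZ
  let C : V3 → ℝ := fun z => -q Z (S.X z)
  have hC1 : ∀ z ∈ H2, 1 ≤ C z := by
    intro z hz
    have := h.chord x hx z hz
    show 1 ≤ -q Z (S.X z)
    linarith
  have hE1 : ∀ z ∈ H2, 1 ≤ -eta y z := by
    intro z hz
    have := eta_le hy hz
    linarith
  let ρ : V3 → ℝ := fun z => Real.arcosh (C z)
  let δ : V3 → ℝ := fun z => Real.arcosh (-eta y z)
  have hρ0 : ∀ z ∈ H2, 0 ≤ ρ z := fun z hz => Real.arcosh_nonneg (hC1 z hz)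
  have hδ0 : ∀ z ∈ H2, 0 ≤ δ z := fun z hz => Real.arcosh_nonneg (hE1 z hz)
  have hcd : 0 ≤ c * d := by positivity
  have hρy : ρ y < c * d := by
    have h1 : Real.arcosh (C y) < Real.arcosh (Real.cosh (c * d)) :=
      (Real.arcosh_lt_arcosh (by linarith [hC1 y hy]) (Real.cosh_pos _)).2 hcon
    rwa [Real.arcosh_cosh hcd] at h1
  have hdpos : 0 < d := by
    rcases hd.lt_or_eq with hd' | hd'
    · exact hd'
    · exfalso
      rw [← hd', mul_zero] at hρy
      exact absurd (hρ0 y hy) (not_le.2 hρy)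
  -- the slope c'
  obtain ⟨c', hc'1, hc'2⟩ : ∃ c', ρ y / d < c' ∧ c' < c := by
    apply exists_between
    rwa [div_lt_iff₀ hdpos]
  have hc'0 : 0 < c' := lt_of_le_of_lt (div_nonneg (hρ0 y hy) hd) hc'1
  have hρyd : ρ y < c' * d := by rwa [div_lt_iff₀ hdpos] at hc'1
  let J : V3 → ℝ := fun z => ρ z + c' * δ z
  have hcontC : ContinuousOn C H2 := by
    have h1 := h.contX
    have h2 : ∀ i, ContinuousOn (fun z => S.X z i) H2 := fun i =>
      (continuous_apply i).comp_continuousOn h1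
    show ContinuousOn (fun z => -q Z (S.X z)) H2
    unfold q
    exact ((((continuousOn_const.mul (h2 0)).neg.add (continuousOn_const.mul (h2 1))).add
      (continuousOn_const.mul (h2 2))).sub (continuousOn_const.mul (h2 3))).neg
  have hcontE : ContinuousOn (fun z => -eta y z) H2 := by
    have : Continuous (fun z : V3 => -eta y z) := by
      unfold eta
      fun_prop
    exact this.continuousOn
  have hcontJ : ContinuousOn J H2 := by
    have h1 : ContinuousOn ρ H2 :=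
      Real.continuousOn_arcosh.comp hcontC (fun z hz => hC1 z hz)
    have h2 : ContinuousOn δ H2 :=
      Real.continuousOn_arcosh.comp hcontE (fun z hz => hE1 z hz)
    exact h1.add (continuousOn_const.mul h2)
  have hyy : -eta y y = 1 := by rw [hy.1]; norm_num
  have hJy : J y = ρ y := by
    show ρ y + c' * Real.arcosh (-eta y y) = ρ y
    rw [hyy, Real.arcosh_zero, mul_zero, add_zero]
  set R : ℝ := Real.cosh (ρ y / c') with hR
  set K : Set V3 := {z | z ∈ H2 ∧ -eta y z ≤ R} with hK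
  have hKc : IsCompact K := H2_ball hy R
  have hyK : y ∈ K := ⟨hy, by rw [hyy]; exact Real.one_le_cosh _⟩
  obtain ⟨z₁, hz₁K, hmin⟩ := hKc.exists_isMinOn ⟨y, hyK⟩ (hcontJ.mono fun z hz => hz.1)
  have hz₁ : z₁ ∈ H2 := hz₁K.1
  have hminH : ∀ z ∈ H2, J z₁ ≤ J z := by
    intro z hz
    by_cases hzK : -eta y z ≤ R
    · exact hmin (show z ∈ K from ⟨hz, hzK⟩)
    · refine (hmin hyK).trans ?_
      show J y ≤ J z
      rw [hJy]
      rw [not_le] at hzK
      have h1 : ρ y / c' < δ z := by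
        have h2 : Real.arcosh (Real.cosh (ρ y / c')) < Real.arcosh (-eta y z) :=
          (Real.arcosh_lt_arcosh (Real.cosh_pos _) (by linarith [hE1 z hz])).2 hzK
        rwa [Real.arcosh_cosh (div_nonneg (hρ0 y hy) hc'0.le)] at h2
      have h3 : ρ y < c' * δ z := by
        rw [div_lt_iff₀ hc'0] at h1
        linarith
      have h4 := hρ0 z hz
      show ρ y ≤ ρ z + c' * δ z
      linarith
  have hZZ : q Z Z = -1 := h.XX x hx
  have hsymm : ∀ X Y : V4, q X Y = q Y X := by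
    intro X Y
    unfold q
    ring
  have hesymm : ∀ x y : V3, eta x y = eta y x := by
    intro x y
    unfold eta
    ring
  have hJx : J x = c' * d := by
    show Real.arcosh (-q Z (S.X x)) + c' * Real.arcosh (-eta y x) = c' * d
    rw [← hZ, hZZ, neg_neg, Real.arcosh_zero, hesymm y x, hxy, Real.arcosh_cosh hd, zero_add]
  have hz₁x : z₁ ≠ x := by
    intro e
    have h1 := hminH y hy
    rw [e, hJx, hJy] at h1
    linarith
  have hCz : 1 < C z₁ := by
    rcases (hC1 z₁ hz₁).lt_or_eq with h1 | h1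
    · exact h1
    exfalso
    have hq1 : q (S.X z₁) Z = -1 := by
      rw [hsymm]
      have : C z₁ = -q Z (S.X z₁) := rfl
      linarith
    have hext := ext6 h hz₁ (Z := Z) (by
      intro w hw
      rw [hq1, hsymm]
      exact h.chord x hx w hw)
    have hdec := (polar6 h hz₁ hext).2 (by rw [hZZ, hq1]; norm_num)
    rw [hq1, neg_neg, one_smul] at hdec
    exact hz₁x (h.inj hz₁ hx hdec.symm)
  set ρ₁ : ℝ := Real.arcosh (C z₁) with hρ₁
  set δ₁ : ℝ := Real.arcosh (-eta y z₁) with hδ₁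
  have hρ₁pos : 0 < ρ₁ := Real.arcosh_pos hCz
  have hcoshρ : Real.cosh ρ₁ = C z₁ := Real.cosh_arcosh hCz.le
  have hsh : 0 < Real.sinh ρ₁ := Real.sinh_pos_iff.2 hρ₁pos
  have hsh2 : Real.sinh ρ₁ ^ 2 = C z₁ ^ 2 - 1 := by rw [Real.sinh_sq, hcoshρ]
  have hX1 : q (S.X z₁) (S.X z₁) = -1 := h.XX z₁ hz₁
  have hCdef : C z₁ = -q Z (S.X z₁) := rfl
  -- the component of `Z` orthogonal to `X z₁`
  obtain ⟨P, hP⟩ : ∃ P : V4, P = Z - (C z₁) • S.X z₁ := ⟨_, rfl⟩
  have hXP : q (S.X z₁) P = 0 := by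
    have : q (S.X z₁) (Z - (C z₁) • S.X z₁) = q Z (S.X z₁) - C z₁ * q (S.X z₁) (S.X z₁) := by
      simp only [q, Pi.sub_apply, Pi.smul_apply, smul_eq_mul]
      ring
    rw [hP, this, hX1, hCdef]
    ring
  have hPP : q P P = Real.sinh ρ₁ ^ 2 := by
    have : q (Z - (C z₁) • S.X z₁) (Z - (C z₁) • S.X z₁) =
        q Z Z - 2 * C z₁ * q Z (S.X z₁) + C z₁ ^ 2 * q (S.X z₁) (S.X z₁) := by
      simp only [q, Pi.sub_apply, Pi.smul_apply, smul_eq_mul]
      ring
    have h2 : q Z (S.X z₁) = -C z₁ := by rw [hCdef, neg_neg]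
    rw [hP, this, hZZ, hX1, h2, hsh2]
    ring
  obtain ⟨W, hWW, hXW, hPW⟩ := exists_W (A := S.X z₁) (Z := P) (by rw [hX1]; norm_num) hXP
    (by rw [hPP]; positivity)
  obtain ⟨a, τ, ζ, hζ, ha, hPζ⟩ := h.cover z₁ hz₁ W (by rw [hWW]; norm_num) hXW P hXP
  obtain ⟨hζζ, hXζ, -, s₀, hs₀, hpath⟩ := h.dir z₁ hz₁ ζ hζ
  obtain ⟨k, hk⟩ : ∃ k : ℝ, k = q ζ W := ⟨_, rfl⟩
  have hτ : τ = a * k := by
    have : q (a • ζ + τ • W) W = a * q ζ W + τ * q W W := by
      simp only [q, Pi.add_apply, Pi.smul_apply, smul_eq_mul]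
      ring
    rw [hPζ, this, hWW, ← hk] at hPW
    linarith
  have hPP2 : Real.sinh ρ₁ ^ 2 = a ^ 2 * (1 + k ^ 2) := by
    have : q (a • ζ + τ • W) (a • ζ + τ • W) =
        a ^ 2 * q ζ ζ + 2 * a * τ * q ζ W + τ ^ 2 * q W W := by
      simp only [q, Pi.add_apply, Pi.smul_apply, smul_eq_mul]
      ring
    rw [← hPP, hPζ, this, hζζ, hWW, ← hk, hτ]
    ring
  have hζP : q ζ P = a * (1 + k ^ 2) := by
    have : q ζ (a • ζ + τ • W) = a * q ζ ζ + τ * q ζ W := by
      simp only [q, Pi.add_apply, Pi.smul_apply, smul_eq_mul]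
      ring
    rw [hPζ, this, hζζ, ← hk, hτ]
    ring
  have hslope : Real.sinh ρ₁ ≤ q ζ P := by
    have h1 : 0 ≤ a * (1 + k ^ 2) := by positivity
    rw [hζP]
    apply le_of_sq_le_sq _ h1
    rw [hPP2]
    have h2 : 0 ≤ a ^ 2 * (1 + k ^ 2) * k ^ 2 := by positivity
    have h3 : (a * (1 + k ^ 2)) ^ 2 = a ^ 2 * (1 + k ^ 2) + a ^ 2 * (1 + k ^ 2) * k ^ 2 := by ring
    rw [h3]
    exact le_add_of_nonneg_right h2
  have hζZ : q ζ Z = q ζ P := by
    have : q ζ (Z - (C z₁) • S.X z₁) = q ζ Z - C z₁ * q (S.X z₁) ζ := by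
      simp only [q, Pi.sub_apply, Pi.smul_apply, smul_eq_mul]
      ring
    rw [hP, this, hXζ]
    ring
  obtain ⟨s, hs⟩ : ∃ s : ℝ, s = min s₀ ρ₁ := ⟨_, rfl⟩
  have hs0 : 0 < s := by rw [hs]; exact lt_min hs₀ hρ₁pos
  have hs1 : s ≤ s₀ := by rw [hs]; exact min_le_left _ _
  have hs2 : s ≤ ρ₁ := by rw [hs]; exact min_le_right _ _
  obtain ⟨z, hz, hXz, hez⟩ := hpath s hs0.le hs1
  have hA : ρ z ≤ ρ₁ - s := by
    have h1 : C z ≤ Real.cosh (ρ₁ - s) := by
      show -q Z (S.X z) ≤ _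
      have : q Z (Real.cosh s • S.X z₁ + Real.sinh s • ζ) =
          Real.cosh s * q Z (S.X z₁) + Real.sinh s * q ζ Z := by
        simp only [q, Pi.add_apply, Pi.smul_apply, smul_eq_mul]
        ring
      have h2 : q Z (S.X z₁) = -C z₁ := by rw [hCdef, neg_neg]
      rw [hXz, this, h2, ← hcoshρ, hζZ, Real.cosh_sub]
      have h3 : 0 < Real.sinh s := Real.sinh_pos_iff.2 hs0
      have h4 : Real.sinh s * Real.sinh ρ₁ ≤ Real.sinh s * q ζ P :=
        mul_le_mul_of_nonneg_left hslope h3.le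
      have h5 : -(Real.cosh s * -Real.cosh ρ₁ + Real.sinh s * q ζ P) =
          Real.cosh ρ₁ * Real.cosh s - Real.sinh s * q ζ P := by ring
      have h6 : Real.sinh ρ₁ * Real.sinh s = Real.sinh s * Real.sinh ρ₁ := mul_comm _ _
      rw [h5, h6]
      exact sub_le_sub_left h4 _
    have h2 : Real.arcosh (C z) ≤ Real.arcosh (Real.cosh (ρ₁ - s)) :=
      (Real.arcosh_le_arcosh (by linarith [hC1 _ hz]) (Real.cosh_pos _)).2 h1
    rwa [Real.arcosh_cosh (by linarith)] at h2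
  have hδ₁0 : 0 ≤ δ₁ := hδ0 z₁ hz₁
  have hsc : 0 ≤ s / c := div_nonneg hs0.le hc.le
  have hB : δ z ≤ δ₁ + s / c := by
    have h1 : -eta y z ≤ Real.cosh (δ₁ + s / c) :=
      H2_triangle hy hz₁ hz hδ₁0 hsc
        (by rw [hδ₁, Real.cosh_arcosh (hE1 z₁ hz₁)]) hez
    have h2 : Real.arcosh (-eta y z) ≤ Real.arcosh (Real.cosh (δ₁ + s / c)) :=
      (Real.arcosh_le_arcosh (by linarith [hE1 _ hz]) (Real.cosh_pos _)).2 h1
    rwa [Real.arcosh_cosh (by linarith)] at h2
  have hfin := hminH _ hz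
  have h5 : J z₁ = ρ₁ + c' * δ₁ := rfl
  have h6 : J z = ρ z + c' * δ z := rfl
  rw [h5, h6] at hfin
  have h7 : c' * δ z ≤ c' * (δ₁ + s / c) := mul_le_mul_of_nonneg_left hB hc'0.le
  have h8 : c' * (s / c) < s := by
    have : c' * (s / c) = s * (c' / c) := by ring
    rw [this]
    have h9 : c' / c < 1 := (div_lt_one hc).2 hc'2
    exact mul_lt_of_lt_one_right hs0 h9
  have h10 : c' * (δ₁ + s / c) = c' * δ₁ + c' * (s / c) := mul_add _ _ _
  linarith

end A_chord6

alias chord6 := A_chord6.chord6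

namespace A_norm6

/- Proof:
chord6: cosh(c d) <= -q (X x0)(X x) <= 4 |X x0| |X x| and d -> infinity as -eta x0 x = cosh d -> infinity.
-/
theorem norm6 {S : NS} {c : ℝ} (h : NGood S c) {x₀ : V3} (hx₀ : x₀ ∈ H2) (M : ℝ) :
    ∃ R : ℝ, ∀ x ∈ H2, R < -eta x₀ x → M < ‖S.X x‖ := by
  have ha := h.c_pos
  set B : ℝ := 4 * ‖S.X x₀‖ * |M| with hB
  have hB0 : 0 ≤ B := by positivity
  refine ⟨Real.cosh ((B + 1) / c), fun x hx hR => ?_⟩
  obtain ⟨d, v, hd, hv, rfl⟩ := exists_geo hx₀ hx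
  rw [eta_geo hx₀ hv d, neg_neg] at hR
  have h1 : (B + 1) / c < d := by
    rw [Real.cosh_lt_cosh, abs_of_nonneg (by positivity), abs_of_nonneg hd] at hR
    exact hR
  have h2 : B + 1 < c * d := by
    rw [div_lt_iff₀ ha] at h1
    linarith
  have h3 := chord6 h hx₀ hx hd (by rw [eta_geo hx₀ hv d, neg_neg])
  have h4 : c * d ≤ Real.cosh (c * d) := by
    have h5 : c * d ≤ Real.sinh (c * d) := Real.self_le_sinh_iff.mpr (by positivity)
    have h6 := Real.sinh_lt_cosh (c * d)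
    linarith
  have h7 := q_bound (S.X x₀) (S.X (geo x₀ v d))
  have h8 := neg_abs_le (q (S.X x₀) (S.X (geo x₀ v d)))
  by_contra hM
  push Not at hM
  have h9 : 4 * ‖S.X x₀‖ * ‖S.X (geo x₀ v d)‖ ≤ B := by
    rw [hB]
    exact mul_le_mul_of_nonneg_left (hM.trans (le_abs_self M)) (by positivity)
  linarith

end A_norm6

alias norm6 := A_norm6.norm6

end Helper935.Poly
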