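import Pool.Agent.Helper935_AdS.PLamA

namespace Helper935.Poly

namespace A_vert_low6

theorem vert_low6 (S : CS) {N : V4} (hN : N ∈ Dual S) {ξ₁ ξ₂ : V4} (h₁ : ξ₁ ∈ Lam S) (h₂ : ξ₂ ∈ Lam S)
    (h : q ξ₁ ξ₂ = -1/2) (h1N : q ξ₁ N = 0) (h2N : q ξ₂ N = 0) : ∃ x ∈ H2, -q (S.s.X x) N < 1 := by
  by_contra hcon
  push Not at hcon
  obtain ⟨c₀, hc₀, hflow⟩ := flow6 S
  have hf : ∀ x ∈ H2, c₀ ≤ -q (S.s.X x) (ξ₁ + ξ₂) := hflow ξ₁ h₁ ξ₂ h₂ h
  set s : ℝ := 1 / c₀ + 1 with hs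
  have hs0 : 0 < s := by positivity
  have hcs : c₀ * s = 1 + c₀ := by
    rw [hs]; field_simp
  set Z : V4 := (ξ₁ + ξ₂) + s • N with hZ
  have hqZ : ∀ W : V4, q W Z = q W (ξ₁ + ξ₂) + s * q W N := by
    intro W
    simp only [hZ, q, Pi.add_apply, Pi.smul_apply, smul_eq_mul]
    ring
  have hq11 : q ξ₁ ξ₁ = 0 := h₁.2.1
  have hq22 : q ξ₂ ξ₂ = 0 := h₂.2.1
  have hNN : q N N = -1 := hN.1
  have hZZ : q Z Z = -1 - s ^ 2 := by
    have e : q Z Z = q ξ₁ ξ₁ + 2 * q ξ₁ ξ₂ + q ξ₂ ξ₂ + 2 * s * (q ξ₁ N + q ξ₂ N) + s ^ 2 * q N N := by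
      simp only [hZ, q, Pi.add_apply, Pi.smul_apply, smul_eq_mul]
      ring
    rw [e, hq11, hq22, h, h1N, h2N, hNN]
    ring
  have hcont : ContinuousOn (fun x => -q (S.s.X x) Z) H2 := by
    have hX := S.g.contX
    have hqc : Continuous (fun W : V4 => -q W Z) := by
      unfold q
      fun_prop
    exact hqc.comp_continuousOn hX
  let x₀ : V3 := ![1, 0, 0]
  have hx₀ : x₀ ∈ H2 := by
    refine ⟨?_, ?_⟩
    · simp [eta, x₀]
    · simp [x₀]
  obtain ⟨R', hR'⟩ := proper6 S h₁ h₂ h hx₀ (-q (S.s.X x₀) Z)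
  have hle : ∀ x ∈ H2, -q (S.s.X x) (ξ₁ + ξ₂) ≤ -q (S.s.X x) Z := by
    intro x hx
    rw [hqZ]
    have := hcon x hx
    nlinarith
  have hKc := H2_ball hx₀ R'
  have hx₀K : x₀ ∈ {x | x ∈ H2 ∧ -eta x₀ x ≤ R'} := ⟨hx₀, hR' x₀ hx₀ (hle x₀ hx₀)⟩
  obtain ⟨x, hxK, hxmin⟩ := hKc.exists_isMinOn ⟨x₀, hx₀K⟩
    (hcont.mono (fun y hy => hy.1))
  have hxH : x ∈ H2 := hxK.1
  have hmin : ∀ y ∈ H2, -q (S.s.X x) Z ≤ -q (S.s.X y) Z := by
    intro y hy
    by_cases hyK : -eta x₀ y ≤ R'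
    · exact hxmin ⟨hy, hyK⟩
    · have h1 : -q (S.s.X x) Z ≤ -q (S.s.X x₀) Z := hxmin hx₀K
      have h2 : -q (S.s.X x₀) Z < -q (S.s.X y) (ξ₁ + ξ₂) := by
        by_contra h3
        exact hyK (hR' y hy (not_lt.mp h3))
      have h4 := hle y hy
      linarith
  have hext := ext6 S.g hxH (Z := Z) (fun y hy => by
    have := hmin y hy
    linarith)
  have hpol := (polar6 S.g hxH hext).1
  rw [hZZ, hqZ] at hpol
  have hfx := hf x hxH
  have hux := hcon x hxH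
  set f : ℝ := -q (S.s.X x) (ξ₁ + ξ₂) with hfdef
  set u : ℝ := -q (S.s.X x) N with hudef
  have e1 : q (S.s.X x) (ξ₁ + ξ₂) = -f := by rw [hfdef]; ring
  have e2 : q (S.s.X x) N = -u := by rw [hudef]; ring
  rw [e1, e2] at hpol
  have h5 : (c₀ + s) ≤ f + s * u := by nlinarith
  have h6 : (c₀ + s) ^ 2 ≤ (f + s * u) ^ 2 := by
    apply pow_le_pow_left₀ (by positivity) h5
  nlinarith

end A_vert_low6

alias vert_low6 := A_vert_low6.vert_low6

namespace A_vert6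

theorem v6_add_l (a b c : V4) : q (a + b) c = q a c + q b c := by
  simp only [q, Pi.add_apply]; ring
theorem v6_add_r (a b c : V4) : q a (b + c) = q a b + q a c := by
  simp only [q, Pi.add_apply]; ring
theorem v6_sub_l (a b c : V4) : q (a - b) c = q a c - q b c := by
  simp only [q, Pi.sub_apply]; ring
theorem v6_sub_r (a b c : V4) : q a (b - c) = q a b - q a c := by
  simp only [q, Pi.sub_apply]; ring
theorem v6_smul_l (t : ℝ) (a b : V4) : q (t • a) b = t * q a b := by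
  simp only [q, Pi.smul_apply, smul_eq_mul]; ring
theorem v6_smul_r (t : ℝ) (a b : V4) : q a (t • b) = t * q a b := by
  simp only [q, Pi.smul_apply, smul_eq_mul]; ring
theorem v6_comm (a b : V4) : q a b = q b a := by
  simp only [q]; ring

theorem v6_cont {X : V3 → V4} {s : Set V3} (h : ContinuousOn X s) (W : V4) :
    ContinuousOn (fun x => q (X x) W) s := by
  have hc : Continuous (fun Y : V4 => q Y W) := by
    unfold q
    fun_prop
  exact hc.comp_continuousOn h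

theorem v6_min (S : CS) {N : V4} (hN : N ∈ Dual S) {ξ₁ ξ₂ : V4} (h₁ : ξ₁ ∈ Lam S) (h₂ : ξ₂ ∈ Lam S)
    (h : q ξ₁ ξ₂ = -1/2) (h1N : q ξ₁ N = 0) (h2N : q ξ₂ N = 0) :
    ∃ x ∈ H2, -q (S.s.X x) N < 1 ∧ 0 < -q (S.s.X x) (ξ₁ + ξ₂) ∧
      ∀ y ∈ H2, -q (S.s.X y) N < 1 →
        (-q (S.s.X x) (ξ₁ + ξ₂)) ^ 2 * (1 - (-q (S.s.X y) N) ^ 2) ≤
          (-q (S.s.X y) (ξ₁ + ξ₂)) ^ 2 * (1 - (-q (S.s.X x) N) ^ 2) := by
  obtain ⟨c₀, hc₀, hflow⟩ := flow6 S
  have hf := hflow ξ₁ h₁ ξ₂ h₂ h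
  obtain ⟨xb, hxb, hub⟩ := vert_low6 S hN h₁ h₂ h h1N h2N
  set gam : V4 := ξ₁ + ξ₂ with hgam
  have hu0 : ∀ x ∈ H2, 0 ≤ -q (S.s.X x) N := fun x hx => by
    have := hN.2 x hx
    linarith
  set R : ℝ := (-q (S.s.X xb) gam) ^ 2 / (1 - (-q (S.s.X xb) N) ^ 2) with hR
  have hub0 := hu0 xb hxb
  have hgb : 0 < 1 - (-q (S.s.X xb) N) ^ 2 := by nlinarith
  have hfb : c₀ ≤ -q (S.s.X xb) gam := hf xb hxb
  have hRpos : 0 < R := div_pos (pow_pos (by linarith) 2) hgb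
  have hRb : R * (1 - (-q (S.s.X xb) N) ^ 2) = (-q (S.s.X xb) gam) ^ 2 := by
    rw [hR]; exact div_mul_cancel₀ _ hgb.ne'
  obtain ⟨R', hR'⟩ := proper6 S h₁ h₂ h hxb (Real.sqrt R)
  have hB := H2_ball hxb R'
  set B : Set V3 := {x | x ∈ H2 ∧ -eta xb x ≤ R'} with hBdef
  have hBH : B ⊆ H2 := fun x hx => hx.1
  have hcf : ContinuousOn (fun x => q (S.s.X x) gam) H2 := v6_cont S.g.contX gam
  have hcu : ContinuousOn (fun x => q (S.s.X x) N) H2 := v6_cont S.g.contX N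
  have hch : ContinuousOn (fun x => R * (1 - (-q (S.s.X x) N) ^ 2) - (-q (S.s.X x) gam) ^ 2) B := by
    have h1 := hcu.mono hBH
    have h2 := hcf.mono hBH
    exact (continuousOn_const.mul (continuousOn_const.sub (h1.neg.pow 2))).sub (h2.neg.pow 2)
  have hK0c : IsClosed (B ∩ (fun x => R * (1 - (-q (S.s.X x) N) ^ 2) - (-q (S.s.X x) gam) ^ 2) ⁻¹' Set.Ici 0) :=
    hch.preimage_isClosed_of_isClosed hB.isClosed isClosed_Ici
  set K0 : Set V3 := B ∩ (fun x => R * (1 - (-q (S.s.X x) N) ^ 2) - (-q (S.s.X x) gam) ^ 2) ⁻¹' Set.Ici 0 with hK0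
  have hK0cpt : IsCompact K0 := hB.of_isClosed_subset hK0c Set.inter_subset_left
  have hmem : ∀ x ∈ H2, (-q (S.s.X x) gam) ^ 2 ≤ R * (1 - (-q (S.s.X x) N) ^ 2) → x ∈ K0 := by
    intro x hx hle
    have h1 : (-q (S.s.X x) gam) ^ 2 ≤ R := by
      have h2 : R * (1 - (-q (S.s.X x) N) ^ 2) ≤ R := by
        have := mul_nonneg hRpos.le (sq_nonneg (-q (S.s.X x) N))
        nlinarith
      linarith
    have h3 : -q (S.s.X x) gam ≤ Real.sqrt R := Real.le_sqrt_of_sq_le h1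
    refine ⟨⟨hx, hR' x hx h3⟩, ?_⟩
    simp only [Set.mem_preimage, Set.mem_Ici]
    linarith
  have hmem' : ∀ x ∈ K0, x ∈ H2 ∧ (-q (S.s.X x) gam) ^ 2 ≤ R * (1 - (-q (S.s.X x) N) ^ 2) := by
    intro x hx
    refine ⟨hx.1.1, ?_⟩
    have h1 := hx.2
    simp only [Set.mem_preimage, Set.mem_Ici] at h1
    linarith
  have hpos : ∀ x ∈ K0, 0 < 1 - (-q (S.s.X x) N) ^ 2 := by
    intro x hx
    obtain ⟨hx1, hx2⟩ := hmem' x hx
    have h1 : 0 < (-q (S.s.X x) gam) ^ 2 := pow_pos (lt_of_lt_of_le hc₀ (hf x hx1)) 2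
    have h2 : 0 < R * (1 - (-q (S.s.X x) N) ^ 2) := lt_of_lt_of_le h1 hx2
    exact (mul_pos_iff_of_pos_left hRpos).mp h2
  have hxbK : xb ∈ K0 := hmem xb hxb hRb.ge
  have hcont : ContinuousOn (fun x => (-q (S.s.X x) gam) ^ 2 / (1 - (-q (S.s.X x) N) ^ 2)) K0 := by
    have hKH : K0 ⊆ H2 := fun x hx => hx.1.1
    have h1 := hcu.mono hKH
    have h2 := hcf.mono hKH
    exact (h2.neg.pow 2).div (continuousOn_const.sub (h1.neg.pow 2)) fun x hx => (hpos x hx).ne'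
  obtain ⟨x, hxK, hmin⟩ := hK0cpt.exists_isMinOn ⟨xb, hxbK⟩ hcont
  obtain ⟨hxH, hxR⟩ := hmem' x hxK
  have hgx := hpos x hxK
  have hux := hu0 x hxH
  refine ⟨x, hxH, ?_, lt_of_lt_of_le hc₀ (hf x hxH), ?_⟩
  · nlinarith
  · intro y hy huy
    have huy0 := hu0 y hy
    have hgy : 0 < 1 - (-q (S.s.X y) N) ^ 2 := by nlinarith
    have hΦ : (-q (S.s.X x) gam) ^ 2 / (1 - (-q (S.s.X x) N) ^ 2) ≤
        (-q (S.s.X y) gam) ^ 2 / (1 - (-q (S.s.X y) N) ^ 2) := by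
      by_cases hyK : y ∈ K0
      · exact hmin hyK
      · have h1 : ¬ ((-q (S.s.X y) gam) ^ 2 ≤ R * (1 - (-q (S.s.X y) N) ^ 2)) := fun h' => hyK (hmem y hy h')
        push Not at h1
        have h2 : (-q (S.s.X x) gam) ^ 2 / (1 - (-q (S.s.X x) N) ^ 2) ≤ R := by
          rw [div_le_iff₀ hgx]; exact hxR
        have h3 : R ≤ (-q (S.s.X y) gam) ^ 2 / (1 - (-q (S.s.X y) N) ^ 2) := by
          rw [le_div_iff₀ hgy]; exact h1.le
        exact h2.trans h3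
    rw [div_le_div_iff₀ hgx hgy] at hΦ
    exact hΦ

/-- elementary inequality for the first variation -/
theorem v6_var {f u α β s₀ : ℝ} (hf : 0 < f) (hu1 : u < 1) (hs₀ : 0 < s₀)
    (hΨ : ∀ s : ℝ, 0 ≤ s → s ≤ s₀ → Real.cosh s * u - Real.sinh s * β < 1 →
      f ^ 2 * (1 - (Real.cosh s * u - Real.sinh s * β) ^ 2) ≤
        (Real.cosh s * f - Real.sinh s * α) ^ 2 * (1 - u ^ 2)) :
    (1 - u ^ 2) * α + f * u * β ≤ 0 := by
  by_contra hQ
  push Not at hQ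
  set Q : ℝ := (1 - u ^ 2) * α + f * u * β with hQd
  set W : ℝ := f ^ 2 + (1 - u ^ 2) * α ^ 2 + f ^ 2 * β ^ 2 with hW
  have hc1 : Filter.Tendsto (fun s : ℝ => Real.sinh s * W) (nhdsWithin 0 (Set.Ioi 0)) (nhds 0) := by
    have : Filter.Tendsto (fun s : ℝ => Real.sinh s * W) (nhds 0) (nhds (Real.sinh 0 * W)) :=
      (Real.continuous_sinh.mul continuous_const).tendsto 0
    rw [Real.sinh_zero, zero_mul] at this
    exact this.mono_left nhdsWithin_le_nhds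
  have hc2 : Filter.Tendsto (fun s : ℝ => Real.cosh s * u - Real.sinh s * β) (nhdsWithin 0 (Set.Ioi 0)) (nhds u) := by
    have : Filter.Tendsto (fun s : ℝ => Real.cosh s * u - Real.sinh s * β) (nhds 0)
        (nhds (Real.cosh 0 * u - Real.sinh 0 * β)) :=
      ((Real.continuous_cosh.mul continuous_const).sub (Real.continuous_sinh.mul continuous_const)).tendsto 0
    rw [Real.sinh_zero, Real.cosh_zero, zero_mul, one_mul, sub_zero] at this
    exact this.mono_left nhdsWithin_le_nhds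
  have e1 := hc1.eventually (gt_mem_nhds (show (0 : ℝ) < 2 * f * Q by positivity))
  have e2 := hc2.eventually (gt_mem_nhds hu1)
  have e3 : ∀ᶠ s in nhdsWithin (0 : ℝ) (Set.Ioi 0), s ≤ s₀ := by
    have : ∀ᶠ s in nhds (0 : ℝ), s ≤ s₀ := (Iic_mem_nhds hs₀)
    exact this.filter_mono nhdsWithin_le_nhds
  have e4 : ∀ᶠ s in nhdsWithin (0 : ℝ) (Set.Ioi 0), 0 < s := self_mem_nhdsWithin
  obtain ⟨s, h1, h2, h3, h4⟩ := (e1.and (e2.and (e3.and e4))).exists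
  have h5 := hΨ s h4.le h3 h2
  have hcs := Real.cosh_sq s
  have hsp : 0 < Real.sinh s := Real.sinh_pos_iff.mpr h4
  have hc1' : 1 ≤ Real.cosh s := Real.one_le_cosh s
  have hexp : (Real.cosh s * f - Real.sinh s * α) ^ 2 * (1 - u ^ 2) -
      f ^ 2 * (1 - (Real.cosh s * u - Real.sinh s * β) ^ 2) =
      Real.sinh s * (Real.sinh s * W - 2 * Real.cosh s * f * Q) := by
    rw [hW, hQd]
    linear_combination (f ^ 2) * hcs
  have h6 : 0 ≤ Real.sinh s * (Real.sinh s * W - 2 * Real.cosh s * f * Q) := by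
    rw [← hexp]; linarith
  have h7 : 0 ≤ Real.sinh s * W - 2 * Real.cosh s * f * Q := by
    by_contra hc
    push Not at hc
    have := mul_neg_of_pos_of_neg hsp hc
    linarith
  have h8 : 2 * f * Q ≤ 2 * Real.cosh s * f * Q := by
    have : 0 < f * Q := mul_pos hf hQ
    nlinarith
  linarith

theorem vert6 (S : CS) {N : V4} (hN : N ∈ Dual S) {ξ₁ ξ₂ : V4} (h₁ : ξ₁ ∈ Lam S) (h₂ : ξ₂ ∈ Lam S)
    (h : q ξ₁ ξ₂ = -1/2) (h1N : q ξ₁ N = 0) (h2N : q ξ₂ N = 0) (hO : Opp S N ξ₁) :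
    ∃ x ∈ H2, ∃ t : ℝ, 0 < t ∧ ξ₁ + ξ₂ + t • N = Real.sqrt (1 + t ^ 2) • S.s.X x := by
  obtain ⟨x, hx, hu1, hfpos, hP⟩ := v6_min S hN h₁ h₂ h h1N h2N
  have hNN : q N N = -1 := hN.1
  have hgg : q (ξ₁ + ξ₂) (ξ₁ + ξ₂) = -1 := by
    rw [v6_add_l, v6_add_r, v6_add_r, h₁.2.1, h₂.2.1, v6_comm ξ₂ ξ₁, h]
    norm_num
  have hgN : q (ξ₁ + ξ₂) N = 0 := by rw [v6_add_l, h1N, h2N, add_zero]
  set gam : V4 := ξ₁ + ξ₂ with hgam
  set X : V4 := S.s.X x with hX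
  have hXX : q X X = -1 := S.g.XX x hx
  set f : ℝ := -q X gam with hf
  set u : ℝ := -q X N with hu
  have hu0 : 0 ≤ u := by
    have := hN.2 x hx
    rw [hu]; linarith
  have hXg : q X gam = -f := by rw [hf]; ring
  have hXN : q X N = -u := by rw [hu]; ring
  have hg0 : 0 < 1 - u ^ 2 := by nlinarith
  set g : ℝ := 1 - u ^ 2 with hg
  have hZ : ∀ ζ ∈ S.s.Dr x, q ζ (g • gam + (f * u) • N) ≤ 0 := by
    intro ζ hζ
    obtain ⟨-, -, -, s₀, hs₀, hdir⟩ := S.g.dir x hx ζ hζ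
    rw [v6_add_r, v6_smul_r, v6_smul_r]
    apply v6_var (f := f) (u := u) (α := q ζ gam) (β := q ζ N) hfpos hu1 hs₀
    intro s hs0 hs1 hlt
    obtain ⟨z, hz, hXz, -⟩ := hdir s hs0 hs1
    have hfz : -q (S.s.X z) gam = Real.cosh s * f - Real.sinh s * q ζ gam := by
      rw [hXz, v6_add_l, v6_smul_l, v6_smul_l, ← hX, hXg]; ring
    have huz : -q (S.s.X z) N = Real.cosh s * u - Real.sinh s * q ζ N := by
      rw [hXz, v6_add_l, v6_smul_l, v6_smul_l, ← hX, hXN]; ring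
    have := hP z hz (by rw [huz]; exact hlt)
    rw [hfz, huz] at this
    exact this
  have hpol := (polar6 S.g hx hZ).1
  rw [← hX] at hpol
  have hZZ : q (g • gam + (f * u) • N) (g • gam + (f * u) • N) = -g ^ 2 - f ^ 2 * u ^ 2 := by
    rw [v6_add_l, v6_add_r, v6_add_r, v6_smul_l, v6_smul_l, v6_smul_l, v6_smul_l, v6_smul_r, v6_smul_r,
      v6_smul_r, v6_smul_r, hgg, hNN, hgN, v6_comm N gam, hgN]
    ring
  have hXZ : q X (g • gam + (f * u) • N) = -f := by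
    rw [v6_add_r, v6_smul_r, v6_smul_r, hXg, hXN, hg]; ring
  rw [hZZ, hXZ] at hpol
  have hfg : f ^ 2 ≤ g := by
    have h1 : g * f ^ 2 ≤ g * g := by
      have : g * f ^ 2 = f ^ 2 - f ^ 2 * u ^ 2 := by rw [hg]; ring
      rw [this]; nlinarith
    exact le_of_mul_le_mul_left h1 hg0
  set D : V4 := X - u • N - f • gam with hD
  have hgD : q gam D = 0 := by
    rw [hD, v6_sub_r, v6_sub_r, v6_smul_r, v6_smul_r, v6_comm gam X, hXg, hgN, hgg]; ring
  have hDN : q D N = 0 := by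
    rw [hD, v6_sub_l, v6_sub_l, v6_smul_l, v6_smul_l, hXN, hNN, hgN]; ring
  have hDD : q D D = f ^ 2 - g := by
    have h1 : q D D = q D X - u * q D N - f * q D gam := by
      conv_lhs => rw [hD]
      rw [v6_sub_r, v6_sub_r, v6_smul_r, v6_smul_r]
    rw [h1, hDN, v6_comm D gam, hgD, hD, v6_sub_l, v6_sub_l, v6_smul_l, v6_smul_l, hXX, v6_comm N X, hXN,
      v6_comm gam X, hXg, hg]
    ring
  obtain ⟨hD1, hD2⟩ := (revCS (A := gam) (W := N) (by rw [hgg]; norm_num) (by rw [hNN]; norm_num) hgN hgD).1 hDN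
  have hfg' : f ^ 2 = g := by rw [hDD] at hD1; linarith
  have hD0 : D = 0 := hD2 (by rw [hDD, hfg']; ring)
  have hXeq : X = f • gam + u • N := by
    have : X - (f • gam + u • N) = 0 := by
      rw [← hD0, hD]; abel
    exact sub_eq_zero.mp this
  have hupos : 0 < u := by
    rcases hu0.lt_or_eq with h' | h'
    · exact h'
    · exfalso
      have hXN0 : q (S.s.X x) N = 0 := by rw [← hX, hXN, ← h']; ring
      obtain ⟨n, hn⟩ := S.g.ne x hx
      have hc1 := contact6 S.g hNN hN.2 hx hXN0 hn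
      have hc2 := oppn6 S hNN h₁ h1N hO hx (by rw [hXN0]; norm_num) hn
      linarith
  refine ⟨x, hx, u / f, div_pos hupos hfpos, ?_⟩
  have hsq : 1 + (u / f) ^ 2 = (1 / f) ^ 2 := by
    have hf2 : f ^ 2 ≠ 0 := (pow_pos hfpos 2).ne'
    rw [div_pow, div_pow, one_pow]
    field_simp
    rw [hfg', hg]; ring
  rw [hsq, Real.sqrt_sq (by positivity), ← hX, hXeq, smul_add, smul_smul, smul_smul]
  have h1 : 1 / f * f = 1 := by field_simp
  have h2 : 1 / f * u = u / f := by field_simp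
  rw [h1, h2, one_smul]

end A_vert6

alias vert6 := A_vert6.vert6

namespace A_vert_uniq6

/- Proof:
q (gam + t N)(gam + t' N) = -1 - t t' for gam = any vector with q gam gam = -1, q gam N = 0. So q (X x)(X x') = -(1 + t t')/(sqrt(1+t^2) sqrt(1+t'^2)). chord: <= -1, so (1 + t t')^2 >= (1+t^2)(1+t'^2) (1 + t t' > 0), i.e. (t - t')^2 <= 0: t = t'. Then X x = X x' and S.g.inj gives x = x'.
-/
theorem vert_uniq6 {S : NS} {c : ℝ} (h : NGood S c) {γ N : V4} (hγ : q γ γ = -1) (hN : q N N = -1) (h0 : q γ N = 0)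
    {x x' : V3} (hx : x ∈ H2) (hx' : x' ∈ H2) {t t' : ℝ} (ht : 0 ≤ t) (ht' : 0 ≤ t')
    (e : γ + t • N = Real.sqrt (1 + t ^ 2) • S.X x) (e' : γ + t' • N = Real.sqrt (1 + t' ^ 2) • S.X x') :
    t = t' ∧ x = x' := by
  have hr : 0 < Real.sqrt (1 + t ^ 2) := Real.sqrt_pos.mpr (by positivity)
  have hr' : 0 < Real.sqrt (1 + t' ^ 2) := Real.sqrt_pos.mpr (by positivity)
  have hr2 : Real.sqrt (1 + t ^ 2) ^ 2 = 1 + t ^ 2 := Real.sq_sqrt (by positivity)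
  have hr2' : Real.sqrt (1 + t' ^ 2) ^ 2 = 1 + t' ^ 2 := Real.sq_sqrt (by positivity)
  set r := Real.sqrt (1 + t ^ 2) with hrd
  set r' := Real.sqrt (1 + t' ^ 2) with hrd'
  have h1 : q (γ + t • N) (γ + t' • N) = -1 - t * t' := by
    have e1 : q (γ + t • N) (γ + t' • N) = q γ γ + (t + t') * q γ N + t * t' * q N N := by
      simp only [q, Pi.add_apply, Pi.smul_apply, smul_eq_mul]
      ring
    rw [e1, hγ, h0, hN]
    ring
  have h2 : q (r • S.X x) (r' • S.X x') = r * r' * q (S.X x) (S.X x') := by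
    simp only [q, Pi.smul_apply, smul_eq_mul]
    ring
  have h3 : r * r' * q (S.X x) (S.X x') = -1 - t * t' := by
    rw [← h2, ← e, ← e', h1]
  have h4 := h.chord x hx x' hx'
  have h5 : r * r' ≤ 1 + t * t' := by
    have h6 : r * r' * q (S.X x) (S.X x') ≤ r * r' * (-1) :=
      mul_le_mul_of_nonneg_left h4 (by positivity)
    linarith
  have h7 : (r * r') ^ 2 ≤ (1 + t * t') ^ 2 := by
    have h8 : 0 ≤ r * r' := by positivity
    nlinarith
  have h9 : (t - t') ^ 2 ≤ 0 := by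
    have h10 : (r * r') ^ 2 = (1 + t ^ 2) * (1 + t' ^ 2) := by
      rw [mul_pow, hr2, hr2']
    nlinarith
  have htt : t = t' := by
    have h11 : (t - t') ^ 2 = 0 := le_antisymm h9 (sq_nonneg _)
    have h12 := pow_eq_zero_iff (two_ne_zero) |>.mp h11
    linarith
  refine ⟨htt, ?_⟩
  subst htt
  have h13 : r' = r := by rw [hrd', hrd]
  have h14 : r • S.X x = r • S.X x' := by
    rw [← e, e', h13]
  have h15 : S.X x = S.X x' := smul_right_injective _ hr.ne' h14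
  exact h.inj hx hx' h15

end A_vert_uniq6

alias vert_uniq6 := A_vert_uniq6.vert_uniq6

namespace A_vert_path6

/-- `q` is linear in the first variable -/
theorem vp6_lin_left (a b : ℝ) (X Y Z : V4) : q (a • X + b • Y) Z = a * q X Z + b * q Y Z := by
  simp only [q, Pi.add_apply, Pi.smul_apply, smul_eq_mul]
  ring

/-- `q` is linear in the second variable -/
theorem vp6_lin_right (a b : ℝ) (X Y Z : V4) : q Z (a • X + b • Y) = a * q Z X + b * q Z Y := by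
  simp only [q, Pi.add_apply, Pi.smul_apply, smul_eq_mul]
  ring

/-- `q` is symmetric -/
theorem vp6_symm (X Y : V4) : q X Y = q Y X := by
  simp only [q]
  ring

/-- `q` is homogeneous in the second variable -/
theorem vp6_smul_right (a : ℝ) (X Y : V4) : q X (a • Y) = a * q X Y := by
  simp only [q, Pi.smul_apply, smul_eq_mul]
  ring

/-- `q` is homogeneous in the first variable -/
theorem vp6_smul_left (a : ℝ) (X Y : V4) : q (a • X) Y = a * q X Y := by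
  simp only [q, Pi.smul_apply, smul_eq_mul]
  ring

theorem vert_path6 (S : CS) {N : V4} (hN : N ∈ Dual S) {ξ₁ ξ₂ : V4} (h₁ : ξ₁ ∈ Lam S) (h₂ : ξ₂ ∈ Lam S)
    (h : q ξ₁ ξ₂ = -1/2) (h1N : q ξ₁ N = 0) (h2N : q ξ₂ N = 0) (hO : Opp S N ξ₁) :
    ∃ (xs : ℝ → V3) (ts : ℝ → ℝ), Continuous xs ∧ ∀ s : ℝ, xs s ∈ H2 ∧ 0 < ts s ∧
      Real.exp s • ξ₁ + Real.exp (-s) • ξ₂ + ts s • N = Real.sqrt (1 + ts s ^ 2) • S.s.X (xs s) := by
  have hL1 : ∀ s : ℝ, Real.exp s • ξ₁ ∈ Lam S := fun s => Lam_smul6 S h₁ (Real.exp_pos s)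
  have hL2 : ∀ s : ℝ, Real.exp (-s) • ξ₂ ∈ Lam S := fun s => Lam_smul6 S h₂ (Real.exp_pos _)
  have hee : ∀ s : ℝ, Real.exp s * Real.exp (-s) = 1 := fun s => by
    rw [← Real.exp_add, add_neg_cancel, Real.exp_zero]
  have hq12 : ∀ s : ℝ, q (Real.exp s • ξ₁) (Real.exp (-s) • ξ₂) = -1/2 := by
    intro s
    rw [vp6_smul_left, vp6_smul_right, h, ← mul_assoc, hee, one_mul]
  have hex : ∀ s : ℝ, ∃ x ∈ H2, ∃ t : ℝ, 0 < t ∧
      Real.exp s • ξ₁ + Real.exp (-s) • ξ₂ + t • N = Real.sqrt (1 + t ^ 2) • S.s.X x := by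
    intro s
    refine vert6 S hN (hL1 s) (hL2 s) (hq12 s) ?_ ?_ ?_
    · rw [vp6_smul_left, h1N, mul_zero]
    · rw [vp6_smul_left, h2N, mul_zero]
    · exact (Opp_G6 S hN.1 h₁ h1N hO).2 _ (Real.exp_pos s)
  choose xs hxs ts hts heq using hex
  refine ⟨xs, ts, ?_, fun s => ⟨hxs s, hts s, heq s⟩⟩
  obtain ⟨c₀, hc₀, hflow⟩ := flow6 S
  set γ : ℝ → V4 := fun s => Real.exp s • ξ₁ + Real.exp (-s) • ξ₂ with hγ
  have hγγ : ∀ s, q (γ s) (γ s) = -1 := by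
    intro s
    show q (Real.exp s • ξ₁ + Real.exp (-s) • ξ₂) (Real.exp s • ξ₁ + Real.exp (-s) • ξ₂) = -1
    rw [vp6_lin_left, vp6_lin_right, vp6_lin_right, h₁.2.1, h₂.2.1, vp6_symm ξ₂ ξ₁, h]
    linear_combination (-1) * hee s
  have hγN : ∀ s, q (γ s) N = 0 := by
    intro s
    show q (Real.exp s • ξ₁ + Real.exp (-s) • ξ₂) N = 0
    rw [vp6_lin_left, h1N, h2N]
    ring
  have heq' : ∀ s, γ s + ts s • N = Real.sqrt (1 + ts s ^ 2) • S.s.X (xs s) := heq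
  -- the product of the point with `γ`
  have hprod : ∀ s, Real.sqrt (1 + ts s ^ 2) * (-q (S.s.X (xs s)) (γ s)) = 1 := by
    intro s
    have h1 : q (γ s + ts s • N) (γ s) = q (Real.sqrt (1 + ts s ^ 2) • S.s.X (xs s)) (γ s) := by
      rw [heq' s]
    rw [vp6_smul_left] at h1
    have h2 : q (γ s + ts s • N) (γ s) = q (γ s) (γ s) + ts s * q (γ s) N := by
      rw [vp6_symm (γ s) N]
      simp only [q, Pi.add_apply, Pi.smul_apply, smul_eq_mul]
      ring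
    rw [h2, hγγ, hγN] at h1
    linarith
  have hsq1 : ∀ s, 1 ≤ Real.sqrt (1 + ts s ^ 2) := by
    intro s
    rw [Real.one_le_sqrt]
    nlinarith [sq_nonneg (ts s)]
  have hle1 : ∀ s, -q (S.s.X (xs s)) (γ s) ≤ 1 := by
    intro s
    have h1 := hprod s
    have h2 := hsq1 s
    by_contra hcon
    push Not at hcon
    nlinarith
  have hge : ∀ s, c₀ ≤ -q (S.s.X (xs s)) (γ s) := fun s =>
    hflow _ (hL1 s) _ (hL2 s) (hq12 s) _ (hxs s)
  have hts1 : ∀ s, ts s ≤ 1 / c₀ := by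
    intro s
    have h1 : Real.sqrt (1 + ts s ^ 2) * c₀ ≤ 1 := by
      exact (mul_le_mul_of_nonneg_left (hge s) (Real.sqrt_nonneg _)).trans (hprod s).le
    have h2 : ts s ≤ Real.sqrt (1 + ts s ^ 2) := by
      refine Real.le_sqrt_of_sq_le ?_
      linarith
    rw [le_div_iff₀ hc₀]
    exact (mul_le_mul_of_nonneg_right h2 hc₀.le).trans h1
  rw [continuous_iff_continuousAt]
  intro s
  have hbd : ∀ s' : ℝ, |s' - s| ≤ 1 → -q (S.s.X (xs s')) (γ s) ≤ 3 := by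
    intro s' hs'
    obtain ⟨hs1, hs2⟩ := abs_le.1 hs'
    have h1 : q (S.s.X (xs s')) (Real.exp s' • ξ₁) ≤ 0 := (hL1 s').2.2 _ (hxs s')
    have h2 : q (S.s.X (xs s')) (Real.exp (-s') • ξ₂) ≤ 0 := (hL2 s').2.2 _ (hxs s')
    have h3 : γ s = Real.exp (s - s') • (Real.exp s' • ξ₁) +
        Real.exp (s' - s) • (Real.exp (-s') • ξ₂) := by
      rw [smul_smul, smul_smul, ← Real.exp_add, ← Real.exp_add]
      have e1 : s - s' + s' = s := by ring
      have e2 : s' - s + -s' = -s := by ring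
      rw [e1, e2]
    have h4 : -q (S.s.X (xs s')) (γ s') ≤ 1 := hle1 s'
    have h5 : q (S.s.X (xs s')) (γ s') = q (S.s.X (xs s')) (Real.exp s' • ξ₁) +
        q (S.s.X (xs s')) (Real.exp (-s') • ξ₂) := by
      show q (S.s.X (xs s')) (Real.exp s' • ξ₁ + Real.exp (-s') • ξ₂) = _
      rw [vp6_lin_right, vp6_smul_right, vp6_smul_right]
    rw [h5] at h4
    have h6 : Real.exp 1 ≤ 3 := Real.exp_one_lt_d9.le.trans (by norm_num)
    have h7 : Real.exp (s - s') ≤ 3 := (Real.exp_le_exp.2 (by linarith)).trans h6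
    have h8 : Real.exp (s' - s) ≤ 3 := (Real.exp_le_exp.2 (by linarith)).trans h6
    rw [h3, vp6_lin_right]
    have h9 := Real.exp_pos (s - s')
    have h10 := Real.exp_pos (s' - s)
    nlinarith [mul_nonneg (sub_nonneg.2 h7) (neg_nonneg.2 h1),
      mul_nonneg (sub_nonneg.2 h8) (neg_nonneg.2 h2)]
  obtain ⟨R', hR'⟩ := proper6 S (hL1 s) (hL2 s) (hq12 s) (hxs s) 3
  have hK := (H2_ball (hxs s) R').prod (isCompact_Icc (a := (0 : ℝ)) (b := 1 / c₀))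
  refine Filter.tendsto_of_subseq_tendsto fun ns hns => ?_
  have hev : ∀ᶠ k in Filter.atTop, |ns k - s| ≤ 1 := by
    have h1 := (Metric.tendsto_atTop.1 hns) 1 one_pos
    obtain ⟨k₀, hk₀⟩ := h1
    filter_upwards [Filter.eventually_ge_atTop k₀] with k hk
    have := hk₀ k hk
    rw [Real.dist_eq] at this
    exact this.le
  obtain ⟨k₀, hk₀⟩ := Filter.eventually_atTop.1 hev
  obtain ⟨⟨x', t'⟩, hmem, φ, hφ, hlim⟩ := hK.tendsto_subseq
    (x := fun k => (xs (ns (k + k₀)), ts (ns (k + k₀)))) (by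
      intro k
      refine ⟨⟨hxs _, hR' _ (hxs _) (hbd _ (hk₀ _ (Nat.le_add_left _ _)))⟩, ?_⟩
      exact ⟨(hts _).le, hts1 _⟩)
  refine ⟨fun k => φ k + k₀, ?_⟩
  have hl1 : Filter.Tendsto (fun k => xs (ns (φ k + k₀))) Filter.atTop (nhds x') :=
    (continuous_fst.tendsto (x', t')).comp hlim
  have hl2 : Filter.Tendsto (fun k => ts (ns (φ k + k₀))) Filter.atTop (nhds t') :=
    (continuous_snd.tendsto (x', t')).comp hlim
  have hx'H : x' ∈ H2 := hmem.1.1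
  have ht'0 : 0 ≤ t' := hmem.2.1
  have hns2 : Filter.Tendsto (fun k => ns (φ k + k₀)) Filter.atTop (nhds s) :=
    hns.comp (Filter.tendsto_atTop_mono (fun k => Nat.le_add_right _ _) hφ.tendsto_atTop)
  have hγc : Continuous γ := by
    show Continuous (fun s : ℝ => Real.exp s • ξ₁ + Real.exp (-s) • ξ₂)
    fun_prop
  have hX : Filter.Tendsto (fun k => S.s.X (xs (ns (φ k + k₀)))) Filter.atTop
      (nhds (S.s.X x')) := by
    have h1 := S.g.contX x' hx'H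
    refine h1.tendsto.comp ?_
    exact tendsto_nhdsWithin_iff.2 ⟨hl1, Filter.Eventually.of_forall fun k => hxs _⟩
  have hlhs : Filter.Tendsto (fun k => γ (ns (φ k + k₀)) + ts (ns (φ k + k₀)) • N) Filter.atTop
      (nhds (γ s + t' • N)) :=
    ((hγc.tendsto s).comp hns2).add (hl2.smul_const N)
  have hrhs : Filter.Tendsto (fun k => Real.sqrt (1 + ts (ns (φ k + k₀)) ^ 2) •
      S.s.X (xs (ns (φ k + k₀)))) Filter.atTop (nhds (Real.sqrt (1 + t' ^ 2) • S.s.X x')) := by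
    refine Filter.Tendsto.smul ?_ hX
    exact (Real.continuous_sqrt.tendsto _).comp ((hl2.pow 2).const_add 1)
  have hEq : γ s + t' • N = Real.sqrt (1 + t' ^ 2) • S.s.X x' := by
    refine tendsto_nhds_unique hlhs (hrhs.congr fun k => ?_)
    exact (heq' _).symm
  have hu := vert_uniq6 S.g (hγγ s) hN.1 (hγN s) (hxs s) hx'H (hts s).le ht'0 (heq' s) hEq
  rw [hu.2]
  exact hl1

end A_vert_path6

alias vert_path6 := A_vert_path6.vert_path6

end Helper935.Poly
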