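import Pool.Agent.Helper935_AdS.PairA

namespace Helper935.AdS

namespace A_max_props

/-- there is a unit tangent vector -/
theorem max_props_exists_UT {y : V3} (hy : y ∈ H2) : ∃ v, UT y v := by
  obtain ⟨h1, h2⟩ := hy
  have h3 : (1 + y 0) ≠ 0 := by linarith
  have h4 : y 1 ^ 2 + y 2 ^ 2 = (y 0 - 1) * (1 + y 0) := by
    simp only [eta] at h1; nlinarith
  refine ⟨![y 1, 1 + y 1 ^ 2 / (1 + y 0), y 1 * y 2 / (1 + y 0)], ?_, ?_⟩
  · simp only [eta, Matrix.cons_val_zero, Matrix.cons_val_one, Matrix.cons_val]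
    have : -(y 0 * y 1) + y 1 * (1 + y 1 ^ 2 / (1 + y 0)) + y 2 * (y 1 * y 2 / (1 + y 0))
        = y 1 * (1 - y 0 + (y 1 ^ 2 + y 2 ^ 2) / (1 + y 0)) := by
      field_simp; ring
    rw [this, h4]; field_simp; ring
  · simp only [eta, Matrix.cons_val_zero, Matrix.cons_val_one, Matrix.cons_val]
    have : -(y 1 * y 1) + (1 + y 1 ^ 2 / (1 + y 0)) * (1 + y 1 ^ 2 / (1 + y 0))
        + y 1 * y 2 / (1 + y 0) * (y 1 * y 2 / (1 + y 0))
        = 1 - y 1 ^ 2 + 2 * y 1 ^ 2 / (1 + y 0) + y 1 ^ 2 * (y 1 ^ 2 + y 2 ^ 2) / (1 + y 0) ^ 2 := by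
      field_simp; ring
    rw [this, h4]; field_simp; ring

/- Proof:
Let m = q (Xm y) N > 0. y maximises q (Xm .) N over H2, so extX and decomp: N = -m Xm y - n Nm y with n = q (Nm y) N, -1 = -m^2 - n^2, and a^2 m + II(v,v) n <= 0 for unit v. As II(v,v) >= 0 (II_nonneg with S.mm) and a^2 m > 0, n < 0, so m < 1, n = -sqrt(1-m^2) and II(v,v) >= a^2 m/(-n) =: l. det_ge: l^2 <= a^2(1-a^2), i.e. a^2 m^2 <= (1-a^2)(1-m^2), i.e. m^2 <= 1 - a^2.
-/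
theorem max_props (S : Setup) {N : V4} (hN : N ∈ Dual S) {y : V3} (hy : y ∈ H2) (hm : 0 < q (S.Xm y) N)
    (hmax : ∀ y' ∈ H2, q (S.Xm y') N ≤ q (S.Xm y) N) :
    (q (S.Xm y) N) ^ 2 ≤ 1 - S.a ^ 2 ∧ q (S.Nm y) N < 0 ∧ (q (S.Nm y) N) ^ 2 = 1 - (q (S.Xm y) N) ^ 2 ∧
      N = (-(q (S.Xm y) N)) • S.Xm y + (-(q (S.Nm y) N)) • S.Nm y := by
  set m := q (S.Xm y) N with hmdef
  set n := q (S.Nm y) N with hndef
  obtain ⟨v₀, hv₀⟩ := max_props_exists_UT hy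
  have hext : ∀ v, UT y v → q N (S.dXm y v) = 0 ∧
      S.a ^ 2 * m + q (S.dNm y v) (S.dXm y v) * n ≤ 0 := fun v hv => extX S.cm hy hmax hv
  have hdec : N = (-m) • S.Xm y + (-n) • S.Nm y := decomp S.cm hy fun v hv => (hext v hv).1
  have hII : ∀ v, UT y v → 0 ≤ q (S.dNm y v) (S.dXm y v) := fun v hv => II_nonneg S.cm S.mm hy hv
  have ha := S.cm.a_pos
  have ha2 : 0 < S.a ^ 2 := by positivity
  have hn : n < 0 := by
    by_contra hcon
    push Not at hcon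
    have h1 := (hext v₀ hv₀).2
    have h2 := mul_nonneg (hII v₀ hv₀) hcon
    have h3 := mul_pos ha2 hm
    linarith
  have hsq : m ^ 2 + n ^ 2 = 1 := by
    have h1 : q N N = -1 := hN.1
    have h2 : q N N = -m ^ 2 - n ^ 2 := by
      have e : ∀ (c d : ℝ) (X Y : V4), q (c • X + d • Y) (c • X + d • Y)
          = c ^ 2 * q X X + 2 * c * d * q Y X + d ^ 2 * q Y Y := by
        intro c d X Y
        simp only [q, Pi.add_apply, Pi.smul_apply, smul_eq_mul]; ring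
      conv_lhs => rw [hdec]
      rw [e, S.cm.XX y hy, S.cm.NN y hy, S.cm.NX y hy]; ring
    linarith
  refine ⟨?_, hn, by linarith, hdec⟩
  have hn' : 0 < -n := by linarith
  have hl := det_ge S.cm hy (l := S.a ^ 2 * m / (-n)) (by positivity) fun v hv => by
    rw [div_le_iff₀ hn']
    have := (hext v hv).2
    linarith
  rw [div_pow, div_le_iff₀ (by positivity)] at hl
  have h5 : S.a ^ 2 * (S.a ^ 2 * m ^ 2) ≤ S.a ^ 2 * ((1 - S.a ^ 2) * n ^ 2) := by nlinarith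
  have h6 : S.a ^ 2 * m ^ 2 ≤ (1 - S.a ^ 2) * n ^ 2 := le_of_mul_le_mul_left h5 ha2
  have h7 : n ^ 2 = 1 - m ^ 2 := by linarith
  rw [h7] at h6
  nlinarith

end A_max_props

alias max_props := A_max_props.max_props

namespace A_foot_hull

theorem q_lin (X Y Z : V4) (c : ℝ) : q X (Y + c • Z) = q X Y + c * q X Z := by
  simp only [q, Pi.add_apply, Pi.smul_apply, smul_eq_mul]
  ring

theorem q_smul_r (X Y : V4) (c : ℝ) : q X (c • Y) = c * q X Y := by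
  simp only [q, Pi.smul_apply, smul_eq_mul]
  ring

theorem q_smul_l (X Y : V4) (c : ℝ) : q (c • X) Y = c * q X Y := by
  simp only [q, Pi.smul_apply, smul_eq_mul]
  ring

theorem q_lin_l (X Y Z : V4) (c : ℝ) : q (X + c • Y) Z = q X Z + c * q Y Z := by
  simp only [q, Pi.add_apply, Pi.smul_apply, smul_eq_mul]
  ring

theorem q_comm (X Y : V4) : q X Y = q Y X := by
  simp only [q]
  ring

theorem small_e (m A B C D E : ℝ) (hm : 0 < m) (hD : 0 < D) :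
    ∃ e : ℝ, 0 < e ∧ 0 < m + e * A ∧ 0 < 1 - 2 * e * B - e ^ 2 * C ∧ 0 < D + e * E := by
  have h1 : ∀ᶠ e in nhds (0 : ℝ), 0 < m + e * A := by
    have hc : Continuous fun e : ℝ => m + e * A := by fun_prop
    exact hc.continuousAt.eventually (lt_mem_nhds (by simpa using hm))
  have h2 : ∀ᶠ e in nhds (0 : ℝ), 0 < 1 - 2 * e * B - e ^ 2 * C := by
    have hc : Continuous fun e : ℝ => 1 - 2 * e * B - e ^ 2 * C := by fun_prop
    exact hc.continuousAt.eventually (lt_mem_nhds (by norm_num))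
  have h3 : ∀ᶠ e in nhds (0 : ℝ), 0 < D + e * E := by
    have hc : Continuous fun e : ℝ => D + e * E := by fun_prop
    exact hc.continuousAt.eventually (lt_mem_nhds (by simpa using hD))
  have h4 : ∀ᶠ e in nhdsWithin (0 : ℝ) (Set.Ioi 0), 0 < m + e * A ∧
      0 < 1 - 2 * e * B - e ^ 2 * C ∧ 0 < D + e * E :=
    ((h1.and (h2.and h3))).filter_mono nhdsWithin_le_nhds
  obtain ⟨e, he, he'⟩ := (h4.and self_mem_nhdsWithin).exists
  exact ⟨e, he', he.1, he.2.1, he.2.2⟩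

/- Proof:
Let m = q (Xm y) N, z = Xm y + m N; q z z = -1 + m^2 < 0 so z is nonzero. If z is not of the form t Y, sep gives N'' with q Y N'' < 0 on nset S and 0 < q z N''. For e > 0 small let N_e = N + e N''. q (Xp x) N_e <= 0 on H2 and q N_e N_e < 0, so N_e / sqrt(-q N_e N_e) is in Dual S, and maximality gives (m + e A) <= m sqrt(1 - 2 e B - e^2 C) with A = q (Xm y) N'', B = q N N'', C = q N'' N'', i.e. for small e: (m + eA)^2 <= m^2 (1 - 2eB - e^2 C), i.e. 2 m (A + m B) e + O(e^2) <= 0; but A + m B = q z N'' > 0 and m > 0. Contradiction.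
-/
theorem foot_hull (S : Setup) {N : V4} (hN : N ∈ Dual S) {y : V3} (hy : y ∈ H2) (hm : 0 < q (S.Xm y) N)
    (hmax : ∀ N' ∈ Dual S, ∀ y' ∈ H2, q (S.Xm y') N' ≤ q (S.Xm y) N) :
    ∃ t : ℝ, 0 ≤ t ∧ ∃ Y ∈ convexHull ℝ (nset S), S.Xm y + (q (S.Xm y) N) • N = t • Y := by
  obtain ⟨hm1, -, -, -⟩ := max_props S hN hy hm fun y' hy' => hmax N hN y' hy'
  set m := q (S.Xm y) N with hmdef
  by_contra hcon
  push Not at hcon
  have ha := S.cm.a_pos
  have hXX := S.cm.XX y hy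
  obtain ⟨hNN, hNX⟩ := hN
  have hz0 : S.Xm y + m • N ≠ 0 := by
    intro h
    have h1 : q (S.Xm y + m • N) (S.Xm y + m • N) = -1 + m ^ 2 := by
      rw [q_lin, q_lin_l, q_lin_l, hXX, hNN, q_comm N (S.Xm y), ← hmdef]
      ring
    rw [h] at h1
    have h2 : q (0 : V4) 0 = 0 := by simp [q]
    rw [h2] at h1
    nlinarith
  obtain ⟨W, hW1, hW2⟩ := sep (nset_cpt S).1 (nset_cpt S).2 (zero_notin S) hz0 hcon
  set A := q (S.Xm y) W with hA
  set B := q N W with hB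
  set C := q W W with hC
  have hD : q (S.Xm y + m • N) W = A + m * B := q_lin_l _ _ _ _
  rw [hD] at hW2
  obtain ⟨e, he0, he1, he2, he3⟩ := small_e m A B C (2 * m * (A + m * B)) (A ^ 2 + m ^ 2 * C) hm
    (by positivity)
  -- negativity on the upper surface
  have hXW : ∀ x ∈ H2, q (S.Xp x) W < 0 := by
    intro x hx
    have hne : S.Xp x ≠ 0 := by
      intro h
      have h1 := S.cp.XX x hx
      rw [h] at h1
      have h2 : q (0 : V4) 0 = 0 := by simp [q]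
      rw [h2] at h1
      norm_num at h1
    have hpos : 0 < ‖S.Xp x‖⁻¹ := inv_pos.2 (norm_pos_iff.2 hne)
    have h1 := hW1 (‖S.Xp x‖⁻¹ • S.Xp x) (subset_closure ⟨x, hx, rfl⟩)
    rw [q_smul_l] at h1
    by_contra h2
    push Not at h2
    have := mul_nonneg hpos.le h2
    linarith
  set Q := 1 - 2 * e * B - e ^ 2 * C with hQ
  have hsQ : 0 < √Q := Real.sqrt_pos.2 he2
  have hsq : √Q * √Q = Q := Real.mul_self_sqrt he2.le
  have hNe : q (N + e • W) (N + e • W) = -Q := by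
    rw [q_lin, q_lin_l, q_lin_l, hNN, q_comm W N, ← hB, ← hC, hQ]
    ring
  have hdual : (√Q)⁻¹ • (N + e • W) ∈ Dual S := by
    refine ⟨?_, fun x hx => ?_⟩
    · rw [q_smul_l, q_smul_r, hNe]
      field_simp
      rw [Real.sq_sqrt he2.le]
    · rw [q_smul_r, q_lin]
      have h1 := hNX x hx
      have h2 := hXW x hx
      have h3 : q (S.Xp x) N + e * q (S.Xp x) W ≤ 0 := by nlinarith
      exact mul_nonpos_of_nonneg_of_nonpos (inv_pos.2 hsQ).le h3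
  have hle := hmax _ hdual y hy
  rw [q_smul_r, q_lin, ← hmdef, ← hA, inv_mul_le_iff₀ hsQ] at hle
  have h5 : (m + e * A) ^ 2 ≤ (√Q * m) ^ 2 := pow_le_pow_left₀ he1.le hle 2
  rw [mul_pow, sq (√Q), hsq, hQ] at h5
  have h6 : 0 < e * (2 * m * (A + m * B) + e * (A ^ 2 + m ^ 2 * C)) := mul_pos he0 he3
  nlinarith

end A_foot_hull

alias foot_hull := A_foot_hull.foot_hull

namespace A_leaf

theorem leaf_comm (X Y : V4) : q X Y = q Y X := by
  unfold q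
  ring

/-- `q X` as a linear map -/
def leafL (X : V4) : V4 →ₗ[ℝ] ℝ where
  toFun := q X
  map_add' := fun Y Z => by
    simp only [q, Pi.add_apply]
    ring
  map_smul' := fun c Y => by
    simp only [q, Pi.smul_apply, smul_eq_mul, RingHom.id_apply]
    ring

theorem leaf_add_r (X Y Z : V4) : q X (Y + Z) = q X Y + q X Z := (leafL X).map_add Y Z

theorem leaf_smul_r (X Y : V4) (c : ℝ) : q X (c • Y) = c * q X Y := (leafL X).map_smul c Y

theorem leaf_add_l (X Y Z : V4) : q (X + Y) Z = q X Z + q Y Z := by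
  rw [leaf_comm, leaf_add_r, leaf_comm Z X, leaf_comm Z Y]

theorem leaf_smul_l (X Y : V4) (c : ℝ) : q (c • X) Y = c * q X Y := by
  rw [leaf_comm, leaf_smul_r, leaf_comm Y X]

theorem leaf_sum_r (X : V4) {n : ℕ} (w : Fin n → ℝ) (z : Fin n → V4) :
    q X (∑ i, w i • z i) = ∑ i, w i * q X (z i) := by
  have h := map_sum (leafL X) (fun i => w i • z i) Finset.univ
  have h2 : (leafL X) (∑ i, w i • z i) = q X (∑ i, w i • z i) := rfl
  rw [← h2, h]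
  apply Finset.sum_congr rfl
  intro i _
  exact leaf_smul_r X (z i) (w i)

theorem leaf_sum_l (X : V4) {n : ℕ} (w : Fin n → ℝ) (z : Fin n → V4) :
    q (∑ i, w i • z i) X = ∑ i, w i * q (z i) X := by
  rw [leaf_comm, leaf_sum_r]
  exact Finset.sum_congr rfl fun i _ => by rw [leaf_comm]

theorem leaf_cont (N : V4) : Continuous (fun Y : V4 => q Y N) := by
  unfold q
  fun_prop

/- Proof:
Put m = q (Xm y) N, z = Xm y + m N = t sum w_i z_i (foot_hull, hull_repr). q z z = m^2 - 1 < 0 (max_props), so z is nonzero and t > 0. q z N = m - m = 0 and each q z_i N <= 0 (closure of q (Xp x) N <= 0), so q z_i N = 0 for all i. If z_i = |Xp x|^{-1} Xp x then q (Xp x) N = 0 and contactX (upper surface, supp S.pp, Z = N) gives N = Np x, so m = q (Xm y)(Np x) <= 0 by S.pm, contradiction. So all z_i in Lam S (nset_cases). Since q z z < 0 and q z_i z_j <= 0 some pair i,j has q z_i z_j < 0 (i ≠ j as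 z_i null). Scale: xi1 = z_i, xi2 = z_j/(-2 q z_i z_j). Also z is a positive combination of Lam elements, so q (Xm x) z < 0 and q (Nm x) z < 0 for all x in H2 (Lam_strict).
-/
theorem leaf (S : Setup) {N : V4} (hN : N ∈ Dual S) {y : V3} (hy : y ∈ H2) (hm : 0 < q (S.Xm y) N)
    (hmax : ∀ N' ∈ Dual S, ∀ y' ∈ H2, q (S.Xm y') N' ≤ q (S.Xm y) N) :
    (∃ ξ₁ ∈ Lam S, ∃ ξ₂ ∈ Lam S, q ξ₁ N = 0 ∧ q ξ₂ N = 0 ∧ q ξ₁ ξ₂ = -1/2) ∧
    ∀ x ∈ H2, q (S.Xm x) (S.Xm y + (q (S.Xm y) N) • N) < 0 ∧ q (S.Nm x) (S.Xm y + (q (S.Xm y) N) • N) < 0 := by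
  obtain ⟨hm2, -, -, -⟩ := max_props S hN hy hm (fun y' hy' => hmax N hN y' hy')
  obtain ⟨t, ht0, Y, hY, hz⟩ := foot_hull S hN hy hm hmax
  obtain ⟨n, w, z, hn, hw, hzS, rfl⟩ := hull_repr hY
  have ha := S.cm.a_pos
  have hXX := S.cm.XX y hy
  have hNN := hN.1
  have hNX : q N (S.Xm y) = q (S.Xm y) N := leaf_comm _ _
  have hqzz : q (S.Xm y + (q (S.Xm y) N) • N) (S.Xm y + (q (S.Xm y) N) • N)
      = (q (S.Xm y) N) ^ 2 - 1 := by
    rw [leaf_add_l, leaf_add_r, leaf_add_r, leaf_smul_l, leaf_smul_r, leaf_smul_l, leaf_smul_r,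
      hXX, hNN, hNX]
    ring
  have hneg : q (S.Xm y + (q (S.Xm y) N) • N) (S.Xm y + (q (S.Xm y) N) • N) < 0 := by
    rw [hqzz]
    nlinarith
  have hqzN : q (S.Xm y + (q (S.Xm y) N) • N) N = 0 := by
    rw [leaf_add_l, leaf_smul_l, hNN]
    ring
  have ht : 0 < t := by
    rcases ht0.lt_or_eq with h | h
    · exact h
    · exfalso
      rw [hz, ← h, zero_smul] at hneg
      simp [q] at hneg
  have hzN : ∀ i, q (z i) N ≤ 0 := by
    intro i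
    have hcl : IsClosed {Y : V4 | q Y N ≤ 0} := isClosed_le (leaf_cont N) continuous_const
    have hsub : closure {Y | ∃ x ∈ H2, Y = ‖S.Xp x‖⁻¹ • S.Xp x} ⊆ {Y : V4 | q Y N ≤ 0} := by
      apply closure_minimal _ hcl
      rintro Y ⟨x, hx, rfl⟩
      rw [Set.mem_ofPred_eq, leaf_smul_l]
      exact mul_nonpos_of_nonneg_of_nonpos (by positivity) (hN.2 x hx)
    exact hsub (hzS i)
  have hzN0 : ∀ i, q (z i) N = 0 := by
    rw [hz, leaf_smul_l, leaf_sum_l] at hqzN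
    have h1 : ∑ i, w i * q (z i) N = 0 := by
      rcases mul_eq_zero.1 hqzN with h | h
      · exact absurd h ht.ne'
      · exact h
    have h2 : ∀ i ∈ Finset.univ, w i * q (z i) N ≤ 0 := fun i _ =>
      mul_nonpos_of_nonneg_of_nonpos (hw i).le (hzN i)
    have h3 := (Finset.sum_eq_zero_iff_of_nonpos h2).1 h1
    intro i
    rcases mul_eq_zero.1 (h3 i (Finset.mem_univ i)) with h | h
    · exact absurd h (hw i).ne'
    · exact h
  have hLam : ∀ i, z i ∈ Lam S := by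
    intro i
    rcases nset_cases S (hzS i) with ⟨x, hx, hzx⟩ | h
    · exfalso
      have hXp : S.Xp x ≠ 0 := by
        intro h0
        have := S.cp.XX x hx
        rw [h0] at this
        simp [q] at this
      have h1 := hzN0 i
      rw [hzx, leaf_smul_l] at h1
      have h2 : q (S.Xp x) N = 0 := by
        rcases mul_eq_zero.1 h1 with h | h
        · exact absurd h (inv_ne_zero (norm_ne_zero_iff.2 hXp))
        · exact h
      have h3 := contactX S.cp S.pp hN.1 hN.2 hx h2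
      have h4 := S.pm x hx y hy
      rw [← h3, leaf_comm] at h4
      linarith
    · exact h
  refine ⟨?_, ?_⟩
  · obtain ⟨i, j, hij⟩ : ∃ i j, q (z i) (z j) < 0 := by
      by_contra hcon
      push Not at hcon
      rw [hz, leaf_smul_l, leaf_smul_r, leaf_sum_l] at hneg
      have h1 : 0 ≤ ∑ i, w i * q (z i) (∑ j, w j • z j) := by
        apply Finset.sum_nonneg
        intro i _
        rw [leaf_sum_r]
        exact mul_nonneg (hw i).le (Finset.sum_nonneg fun j _ => mul_nonneg (hw j).le (hcon i j))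
      have h2 : 0 ≤ t * (t * ∑ i, w i * q (z i) (∑ j, w j • z j)) := by positivity
      linarith
    have hc : 0 < 1 / (-2 * q (z i) (z j)) := by
      apply div_pos one_pos
      linarith
    refine ⟨z i, hLam i, (1 / (-2 * q (z i) (z j))) • z j, Lam_smul S (hLam j) hc, hzN0 i, ?_, ?_⟩
    · rw [leaf_smul_l, hzN0 j, mul_zero]
    · rw [leaf_smul_r]
      have : q (z i) (z j) ≠ 0 := hij.ne
      field_simp
  · intro x hx
    have hne : (Finset.univ : Finset (Fin n)).Nonempty := ⟨⟨0, hn⟩, Finset.mem_univ _⟩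
    rw [hz, leaf_smul_r, leaf_smul_r, leaf_sum_r, leaf_sum_r]
    constructor
    · apply mul_neg_of_pos_of_neg ht
      apply Finset.sum_neg _ hne
      intro i _
      exact mul_neg_of_pos_of_neg (hw i) (Lam_strict S (hLam i) hx).1
    · apply mul_neg_of_pos_of_neg ht
      apply Finset.sum_neg _ hne
      intro i _
      exact mul_neg_of_pos_of_neg (hw i) (Lam_strict S (hLam i) hx).2.1

end A_leaf

alias leaf := A_leaf.leaf

namespace A_nu_neg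

/- Proof:
Let m = q (Xm y0) N, Z = Xm y0 + m N (so q Z Z = m^2-1 < 0, q Z N = 0), v(y) = q (Xm y) N <= m < 1, n(y) = q (Nm y) N, D(y) = q Z (Xm y) * n(y) - q Z (Nm y) * v(y).
(1) D(y) is nonzero for all y in H2: if D(y) = 0 put V = v(y) Z - q Z (Xm y) N; then q V (Xm y) = 0, q V (Nm y) = -D(y) = 0, so parseval at y gives q V V >= 0, but q V V = v^2 q Z Z - (q Z (Xm y))^2 < 0 because q Z (Xm y) < 0 (leaf).
(2) D(y0) = -n(y0) > 0 (max_props: n(y0) < 0, q Z (Xm y0) = -(1-m^2), q Z (Nm y0) = m n(y0)).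
(3) n(y) is nonzero for all y: if n(y) = 0 then parseval with Y=Z=N gives -1 = -v^2 + (nonneg), so v^2 >= 1, and D(y) > 0 gives - q Z (Nm y) v(y) > 0 so v(y) > 0 [q Z (Nm y) < 0], so v(y) >= 1 > m, contradiction.
(4) For y in H2 take the geodesic from y0 to y (exists_geo); s -> D(geo ..) and s -> n(geo ..) are continuous (Xm, Nm continuous on H2), nowhere zero [use (1) first to see D > 0 along it, then (3)], hence keep their sign.
-/
theorem nu_q_symm (X Y : V4) : q X Y = q Y X := by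
  unfold q; ring

theorem nu_sign {f : ℝ → ℝ} (hf : Continuous f) (h0 : ∀ s, f s ≠ 0) (hp : 0 < f 0) (s : ℝ) :
    0 < f s := by
  by_contra hs
  have hs' : f s ≤ 0 := not_lt.mp hs
  have := mem_range_of_exists_le_of_exists_ge hf ⟨s, hs'⟩ ⟨0, hp.le⟩
  obtain ⟨t, ht⟩ := this
  exact h0 t ht

theorem nu_neg (S : Setup) {N : V4} (hN : N ∈ Dual S) {y₀ : V3} (hy₀ : y₀ ∈ H2) (hm : 0 < q (S.Xm y₀) N)
    (hmax : ∀ N' ∈ Dual S, ∀ y' ∈ H2, q (S.Xm y') N' ≤ q (S.Xm y₀) N) {y : V3} (hy : y ∈ H2) :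
    q (S.Nm y) N < 0 := by
  obtain ⟨-, hleaf⟩ := leaf S hN hy₀ hm hmax
  obtain ⟨hm2, hn0, -, -⟩ := max_props S hN hy₀ hm (fun y' hy' => hmax N hN y' hy')
  have ha := S.cm.a_pos
  have ha1 := S.cm.a_lt
  have hNN : q N N = -1 := hN.1
  set m : ℝ := q (S.Xm y₀) N with hmdef
  set Z : V4 := S.Xm y₀ + m • N with hZ
  have hm1 : m ^ 2 < 1 := by nlinarith
  have hm1' : m < 1 := by nlinarith
  -- bilinear expansions
  have hZq : ∀ Y : V4, q Z Y = q (S.Xm y₀) Y + m * q N Y := by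
    intro Y
    simp only [hZ, q, Pi.add_apply, Pi.smul_apply, smul_eq_mul]; ring
  have hXX0 := S.cm.XX y₀ hy₀
  have hNX0 := S.cm.NX y₀ hy₀
  have hZN : q Z N = 0 := by
    rw [hZq, hNN]; rw [← hmdef]; ring
  have hZZ : q Z Z = m ^ 2 - 1 := by
    rw [hZq, nu_q_symm (S.Xm y₀) Z, nu_q_symm N Z, hZq, hXX0, hZN, nu_q_symm N (S.Xm y₀), ← hmdef]
    ring
  -- continuity of q along Nm, Xm
  have hnn : ∀ y ∈ H2, (q Z (S.Xm y) * q (S.Nm y) N - q Z (S.Nm y) * q (S.Xm y) N) ≠ 0 := by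
    intro y hy hD
    obtain ⟨v, hv⟩ := exists_UT hy
    obtain ⟨w, hw⟩ := exists_ON hy hv
    have hl := (hleaf y hy).1
    rw [nu_q_symm] at hl
    set V : V4 := (q (S.Xm y) N) • Z - (q Z (S.Xm y)) • N with hV
    have hVq : ∀ Y : V4, q V Y = q (S.Xm y) N * q Z Y - q Z (S.Xm y) * q N Y := by
      intro Y
      simp only [hV, q, Pi.sub_apply, Pi.smul_apply, smul_eq_mul]; ring
    have h1 : q V (S.Xm y) = 0 := by
      rw [hVq, nu_q_symm N (S.Xm y)]; ring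
    have h2 : q V (S.Nm y) = 0 := by
      rw [hVq, nu_q_symm N (S.Nm y)]; linarith
    have h3 := parseval S.cm hy hw V V
    rw [h1, h2] at h3
    have h4 : q V V = (q (S.Xm y) N) ^ 2 * (m ^ 2 - 1) - (q Z (S.Xm y)) ^ 2 := by
      rw [hVq, nu_q_symm Z V, nu_q_symm N V, hVq, hVq, hZZ, hZN, hNN, nu_q_symm N Z, hZN]; ring
    have h5 : 0 ≤ (q V (S.dXm y v) * q V (S.dXm y v) + q V (S.dXm y w) * q V (S.dXm y w)) / S.a ^ 2 := by
      apply div_nonneg _ (sq_nonneg _)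
      nlinarith [mul_self_nonneg (q V (S.dXm y v)), mul_self_nonneg (q V (S.dXm y w))]
    have h6 : 0 < (q Z (S.Xm y)) ^ 2 := by nlinarith
    nlinarith [mul_nonneg (sq_nonneg (q (S.Xm y) N)) (by linarith : (0:ℝ) ≤ 1 - m ^ 2)]
  have hD0 : 0 < q Z (S.Xm y₀) * q (S.Nm y₀) N - q Z (S.Nm y₀) * q (S.Xm y₀) N := by
    have e1 : q Z (S.Xm y₀) = m ^ 2 - 1 := by
      rw [hZq, hXX0, nu_q_symm N (S.Xm y₀), ← hmdef]; ring
    have e2 : q Z (S.Nm y₀) = m * q (S.Nm y₀) N := by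
      rw [hZq, nu_q_symm (S.Xm y₀) (S.Nm y₀), hNX0, nu_q_symm N (S.Nm y₀)]; ring
    rw [e1, e2, ← hmdef]
    nlinarith
  have hn : ∀ y ∈ H2, 0 < (q Z (S.Xm y) * q (S.Nm y) N - q Z (S.Nm y) * q (S.Xm y) N) →
      q (S.Nm y) N ≠ 0 := by
    intro y hy hD h0
    obtain ⟨v, hv⟩ := exists_UT hy
    obtain ⟨w, hw⟩ := exists_ON hy hv
    have hl := (hleaf y hy).2
    rw [nu_q_symm] at hl
    have h3 := parseval S.cm hy hw N N
    rw [hNN, nu_q_symm N (S.Nm y), h0, nu_q_symm N (S.Xm y)] at h3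
    have h5 : 0 ≤ (q N (S.dXm y v) * q N (S.dXm y v) + q N (S.dXm y w) * q N (S.dXm y w)) / S.a ^ 2 := by
      apply div_nonneg _ (sq_nonneg _)
      nlinarith [mul_self_nonneg (q N (S.dXm y v)), mul_self_nonneg (q N (S.dXm y w))]
    rw [h0] at hD
    have hvle : q (S.Xm y) N ≤ m := hmax N hN y hy
    have hvpos : 0 < q (S.Xm y) N := by
      by_contra hneg
      have hneg' : q (S.Xm y) N ≤ 0 := not_lt.mp hneg
      nlinarith [mul_nonneg_of_nonpos_of_nonpos hl.le hneg']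
    nlinarith
  -- path
  obtain ⟨d, v, hd, hv, hgy⟩ := exists_geo hy₀ hy
  have hmem : ∀ s, geo y₀ v s ∈ H2 := fun s => geo_mem hy₀ hv s
  have hgc : Continuous (fun s : ℝ => geo y₀ v s) := by
    unfold geo
    exact (Real.continuous_cosh.smul continuous_const).add (Real.continuous_sinh.smul continuous_const)
  have hXc : Continuous (fun s : ℝ => S.Xm (geo y₀ v s)) :=
    S.cm.contX.comp_continuous hgc hmem
  have hNc : Continuous (fun s : ℝ => S.Nm (geo y₀ v s)) :=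
    S.cm.contN.comp_continuous hgc hmem
  have hqc : ∀ {f g : ℝ → V4}, Continuous f → Continuous g → Continuous (fun s => q (f s) (g s)) := by
    intro f g hf hg
    unfold q
    fun_prop
  have hDc : Continuous (fun s : ℝ => q Z (S.Xm (geo y₀ v s)) * q (S.Nm (geo y₀ v s)) N
      - q Z (S.Nm (geo y₀ v s)) * q (S.Xm (geo y₀ v s)) N) :=
    ((hqc continuous_const hXc).mul (hqc hNc continuous_const)).sub
      ((hqc continuous_const hNc).mul (hqc hXc continuous_const))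
  have hDpos := nu_sign hDc (fun s => hnn _ (hmem s)) (by
    simp only [(geo_zero y₀ v).1]; exact hD0)
  have hnc : Continuous (fun s : ℝ => - q (S.Nm (geo y₀ v s)) N) := (hqc hNc continuous_const).neg
  have hnpos := nu_sign hnc (fun s => neg_ne_zero.mpr (hn _ (hmem s) (hDpos s))) (by
    simp only [(geo_zero y₀ v).1]; linarith) d
  simp only [hgy] at hnpos
  linarith

end A_nu_neg

alias nu_neg := A_nu_neg.nu_neg

namespace A_upper

/- Proof: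
Consider P = {(N',xi) : N' in Dual S, xi in Lam S, |xi| = 1, q xi N' = 0}, invariant under g: (g2 N', g2 xi/|g2 xi|). Minimise u = -q (Xp x) N' over N', xi in P and x in F: the set {(N',x) in Dual x F : u <= C} is compact (Dual_cpt) and {xi in Lam, |xi| = 1} is compact (closed conditions), nonempty. Let (N1, xi, x1) be a minimiser; by invariance u1 := -q (Xp x1) N1 <= -q (Xp x) N' for all (N',.) in P and all x in H2. So x1 maximises q (Xp .) N1 over H2: extX, decomp: N1 = u1 Xp x1 - n Np x1, n = q (Np x1) N1, u1^2 + n^2 = 1, u1 >= 0 and -b^2 u1 + II(v,v) n <= 0 for unit v. 0 = q xi N1 = u1 q (Xp x1) xi - n q (Np x1) xi with both q's < 0 (Lam_strict): so n >= 0, and n = 0 iff u1 = 0, thus n > 0. Hence II(v,v) <= b^2 u1/n; det_le (II >= 0 by II_nonneg): b^2(1-b^2) <= b^4 u1^2/(1-u1^2), i.e. 1 - b^2 <= u1^2.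
-/
theorem upper (S : Setup) {N : V4} (hN : N ∈ Dual S) {ξ : V4} (hξ : ξ ∈ Lam S) (h0 : q ξ N = 0)
    {x : V3} (hx : x ∈ H2) : Real.sqrt (1 - S.b ^ 2) ≤ -q (S.Xp x) N := by
  have hqsmul : ∀ (t : ℝ) (A B : V4), q (t • A) B = t * q A B := by
    intro t A B
    simp only [q, Pi.smul_apply, smul_eq_mul]
    ring
  have hqsmul2 : ∀ (t : ℝ) (A B : V4), q A (t • B) = t * q A B := by
    intro t A B
    simp only [q, Pi.smul_apply, smul_eq_mul]
    ring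
  have hqadd : ∀ (A B D : V4), q A (B + D) = q A B + q A D := by
    intro A B D
    simp only [q, Pi.add_apply]
    ring
  have hqadd1 : ∀ (A B D : V4), q (A + B) D = q A D + q B D := by
    intro A B D
    simp only [q, Pi.add_apply]
    ring
  have hqc : Continuous fun p : V4 × V4 => q p.1 p.2 := by
    unfold q
    fun_prop
  have hqcomm : ∀ A B : V4, q A B = q B A := by
    intro A B
    simp only [q]
    ring
  -- translation
  have htr : ∀ N' ∈ Dual S, ∀ ζ ∈ Lam S, q ζ N' = 0 → ∀ y' ∈ H2, ∃ N1 ∈ Dual S, ∃ ζ1 ∈ Lam S,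
      ‖ζ1‖ = 1 ∧ q ζ1 N1 = 0 ∧ ∃ y1 ∈ S.F, q (S.Xp y1) N1 = q (S.Xp y') N' := by
    intro N' hN' ζ hζ h0' y' hy'
    obtain ⟨g, hg, hgF⟩ := S.F_cov y' hy'
    have hz := Lam_G S hζ hg
    have hnz : 0 < ‖g.2 ζ‖ := norm_pos_iff.2 hz.1
    refine ⟨g.2 N', Dual_G S hN' hg, ‖g.2 ζ‖⁻¹ • g.2 ζ, Lam_smul S hz (inv_pos.2 hnz), ?_, ?_,
      g.1 y', hgF, ?_⟩
    · rw [norm_smul, norm_inv, norm_norm, inv_mul_cancel₀ hnz.ne']
    · rw [hqsmul, S.G_q g hg, h0', mul_zero]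
    · rw [S.G_Xp g hg y' hy', S.G_q g hg]
  set Cc : ℝ := -q (S.Xp x) N with hCc
  set A : Set (V4 × V3) := {p : V4 × V3 | p.1 ∈ Dual S ∧ p.2 ∈ S.F ∧ -Cc ≤ q (S.Xp p.2) p.1}
    with hA
  have hAc : IsCompact A := (Dual_cpt S Cc).2
  set B : Set V4 := {ζ | ζ ∈ Lam S ∧ ‖ζ‖ = 1} with hB
  have hBc : IsCompact B := by
    have hBeq : B = Metric.sphere (0 : V4) 1 ∩ ({ζ | q ζ ζ = 0} ∩ ⋂ x ∈ H2,
        ({ζ | q (S.Xm x) ζ ≤ 0} ∩ {ζ | q (S.Nm x) ζ ≤ 0} ∩ {ζ | q (S.Xp x) ζ ≤ 0} ∩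
          {ζ | q (S.Np x) ζ ≤ 0})) := by
      ext ζ
      simp only [hB, Lam, Set.mem_setOf_eq, Set.mem_inter_iff, Set.mem_iInter, mem_sphere_zero_iff_norm]
      constructor
      · rintro ⟨⟨h1, h2, h3⟩, h4⟩
        exact ⟨h4, h2, fun y hy => ⟨⟨⟨(h3 y hy).1, (h3 y hy).2.1⟩, (h3 y hy).2.2.1⟩, (h3 y hy).2.2.2⟩⟩
      · rintro ⟨h4, h2, h3⟩
        refine ⟨⟨?_, h2, fun y hy => ⟨(h3 y hy).1.1.1, (h3 y hy).1.1.2, (h3 y hy).1.2, (h3 y hy).2⟩⟩, h4⟩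
        rintro rfl
        rw [norm_zero] at h4
        exact zero_ne_one h4
    rw [hBeq]
    refine (isCompact_sphere (0 : V4) 1).inter_right ?_
    have hc1 : ∀ W : V4, Continuous fun ζ : V4 => q W ζ := fun W =>
      hqc.comp (continuous_const.prodMk continuous_id)
    refine IsClosed.inter (isClosed_eq (hqc.comp (continuous_id.prodMk continuous_id))
      continuous_const) ?_
    refine isClosed_biInter fun y _ => ?_
    exact ((((isClosed_le (hc1 _) continuous_const).inter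
      (isClosed_le (hc1 _) continuous_const)).inter
      (isClosed_le (hc1 _) continuous_const)).inter (isClosed_le (hc1 _) continuous_const))
  set K0 : Set ((V4 × V3) × V4) := (A ×ˢ B) ∩ {p | q p.2 p.1.1 = 0} with hK0
  have hKc : IsCompact K0 := by
    refine (hAc.prod hBc).inter_right ?_
    exact isClosed_eq (hqc.comp (continuous_snd.prodMk (continuous_fst.comp continuous_fst)))
      continuous_const
  -- membership
  have hmem : ∀ N' ∈ Dual S, ∀ ζ ∈ Lam S, q ζ N' = 0 → ∀ y' ∈ H2, -Cc ≤ q (S.Xp y') N' →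
      ∃ r ∈ K0, q (S.Xp r.1.2) r.1.1 = q (S.Xp y') N' := by
    intro N' hN' ζ hζ h0' y' hy' hC
    obtain ⟨N1, hN1, ζ1, hζ1, hn1, h01, y1, hy1, he⟩ := htr N' hN' ζ hζ h0' y' hy'
    refine ⟨((N1, y1), ζ1), ⟨⟨⟨hN1, hy1, ?_⟩, hζ1, hn1⟩, h01⟩, he⟩
    change -Cc ≤ q (S.Xp y1) N1
    rw [he]
    exact hC
  have hne : K0.Nonempty := by
    obtain ⟨r, hr, -⟩ := hmem N hN ξ hξ h0 x hx (by rw [hCc, neg_neg])
    exact ⟨r, hr⟩
  have hXc : ContinuousOn (fun p : (V4 × V3) × V4 => S.Xp p.1.2) K0 :=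
    S.cp.contX.comp (continuous_snd.comp continuous_fst).continuousOn
      fun p hp => S.F_sub hp.1.1.2.1
  have hcont : ContinuousOn (fun p : (V4 × V3) × V4 => q (S.Xp p.1.2) p.1.1) K0 :=
    hqc.comp_continuousOn (hXc.prodMk (continuous_fst.comp continuous_fst).continuousOn)
  obtain ⟨p, hp, hmax⟩ := hKc.exists_isMaxOn hne hcont
  have hmax' : ∀ r ∈ K0, q (S.Xp r.1.2) r.1.1 ≤ q (S.Xp p.1.2) p.1.1 := fun r hr => hmax hr
  obtain ⟨⟨⟨hpD, hpF, hpC⟩, hpL, hpn⟩, hp0⟩ := hp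
  set N1 : V4 := p.1.1 with hN1
  set x1 : V3 := p.1.2 with hx1
  set ζ1 : V4 := p.2 with hζ1
  have hx1H : x1 ∈ H2 := S.F_sub hpF
  have hglob : ∀ N' ∈ Dual S, ∀ ζ ∈ Lam S, q ζ N' = 0 → ∀ y' ∈ H2,
      q (S.Xp y') N' ≤ q (S.Xp x1) N1 := by
    intro N' hN' ζ hζ h0' y' hy'
    by_cases hC : -Cc ≤ q (S.Xp y') N'
    · obtain ⟨r, hr, he⟩ := hmem N' hN' ζ hζ h0' y' hy' hC
      rw [← he]
      exact hmax' r hr
    · push Not at hC
      exact hC.le.trans hpC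
  set u1 : ℝ := -q (S.Xp x1) N1 with hu1
  set n : ℝ := q (S.Np x1) N1 with hn
  have hp0' : q ζ1 N1 = 0 := hp0
  have hext := fun (v : V3) (hv : UT x1 v) => extX S.cp hx1H (Z := N1)
    (fun y hy => hglob N1 hpD ζ1 hpL hp0' y hy) hv
  have hdec := decomp S.cp hx1H (Z := N1) fun v hv => (hext v hv).1
  have hu0 : 0 ≤ u1 := by
    have := hpD.2 x1 hx1H
    rw [hu1]
    linarith
  have hdec' : N1 = u1 • S.Xp x1 + (-n) • S.Np x1 := hdec
  have hXX := S.cp.XX x1 hx1H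
  have hNN := S.cp.NN x1 hx1H
  have hNX := S.cp.NX x1 hx1H
  have hXN : q (S.Xp x1) (S.Np x1) = 0 := by rw [hqcomm]; exact hNX
  have hun : u1 ^ 2 + n ^ 2 = 1 := by
    have h1 : q N1 N1 = -1 := hpD.1
    have h2 : q N1 N1 = u1 ^ 2 * q (S.Xp x1) (S.Xp x1) + 2 * (u1 * (-n)) * q (S.Xp x1) (S.Np x1)
        + n ^ 2 * q (S.Np x1) (S.Np x1) := by
      conv_lhs => rw [hdec']
      rw [hqadd, hqadd1, hqadd1, hqsmul, hqsmul, hqsmul2, hqsmul2, hqsmul2, hqsmul, hqsmul2, hqsmul,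
        hqcomm (S.Np x1) (S.Xp x1)]
      ring
    rw [h2, hXX, hXN, hNN] at h1
    linarith
  obtain ⟨-, -, hs1, hs2⟩ := Lam_strict S hpL hx1H
  have h0e : u1 * q (S.Xp x1) ζ1 - n * q (S.Np x1) ζ1 = 0 := by
    have h1 : q ζ1 N1 = u1 * q (S.Xp x1) ζ1 - n * q (S.Np x1) ζ1 := by
      conv_lhs => rw [hdec']
      rw [hqadd, hqsmul2, hqsmul2, hqcomm ζ1, hqcomm ζ1]
      ring
    rw [← h1]
    exact hp0'
  have hnpos : 0 < n := by
    by_contra hcon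
    push Not at hcon
    have h1 : u1 * q (S.Xp x1) ζ1 ≤ 0 := mul_nonpos_of_nonneg_of_nonpos hu0 hs1.le
    have h2 : 0 ≤ n * q (S.Np x1) ζ1 := mul_nonneg_of_nonpos_of_nonpos hcon hs2.le
    have h3 : u1 * q (S.Xp x1) ζ1 = 0 := by linarith
    have h4 : n * q (S.Np x1) ζ1 = 0 := by linarith
    have h5 : u1 = 0 := by
      rcases mul_eq_zero.1 h3 with h | h
      · exact h
      · exact absurd h hs1.ne
    have h6 : n = 0 := by
      rcases mul_eq_zero.1 h4 with h | h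
      · exact h
      · exact absurd h hs2.ne
    rw [h5, h6] at hun
    norm_num at hun
  have hb := S.cp.a_pos
  have hb1 := S.cp.a_lt
  have hl : ∀ v, UT x1 v → q (S.dNp x1 v) (S.dXp x1 v) ≤ S.b ^ 2 * u1 / n := by
    intro v hv
    have h1 := (hext v hv).2
    rw [le_div_iff₀ hnpos]
    have h2 : S.b ^ 2 * q (S.Xp x1) N1 = -(S.b ^ 2 * u1) := by rw [hu1]; ring
    rw [h2] at h1
    linarith
  have hdet := det_le S.cp hx1H (fun v hv => II_nonneg S.cp S.pp hx1H hv) hl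
  have h3 : S.b ^ 2 * (1 - S.b ^ 2) * n ^ 2 ≤ (S.b ^ 2 * u1) ^ 2 := by
    rw [div_pow, le_div_iff₀ (pow_pos hnpos 2)] at hdet
    exact hdet
  have hb2 : 0 < S.b ^ 2 := pow_pos hb 2
  have h4 : (1 - S.b ^ 2) * n ^ 2 ≤ S.b ^ 2 * u1 ^ 2 := by
    have h5 : S.b ^ 2 * ((1 - S.b ^ 2) * n ^ 2) ≤ S.b ^ 2 * (S.b ^ 2 * u1 ^ 2) := by
      calc S.b ^ 2 * ((1 - S.b ^ 2) * n ^ 2) = S.b ^ 2 * (1 - S.b ^ 2) * n ^ 2 := by ring
        _ ≤ (S.b ^ 2 * u1) ^ 2 := h3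
        _ = S.b ^ 2 * (S.b ^ 2 * u1 ^ 2) := by ring
    exact le_of_mul_le_mul_left h5 hb2
  have h6 : 1 - S.b ^ 2 ≤ u1 ^ 2 := by
    have h7 : n ^ 2 = 1 - u1 ^ 2 := by linarith
    rw [h7] at h4
    linarith
  have h8 : Real.sqrt (1 - S.b ^ 2) ≤ u1 := by
    rw [show u1 = Real.sqrt (u1 ^ 2) from (Real.sqrt_sq hu0).symm]
    exact Real.sqrt_le_sqrt h6
  have h9 := hglob N hN ξ hξ h0 x hx
  rw [hCc]
  rw [hu1] at h8
  linarith

end A_upper

alias upper := A_upper.upper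

namespace A_unif

theorem unif_q_smul_right (X Y : V4) (t : ℝ) : q X (t • Y) = t * q X Y := by
  simp only [q, Pi.smul_apply, smul_eq_mul]; ring

theorem unif_q_cont : Continuous fun p : V4 × V4 => q p.1 p.2 := by
  unfold q
  fun_prop

/-- the normalised part -/
def unifK (S : Setup) : Set V4 := {ξ | ‖ξ‖ = 1 ∧ q ξ ξ = 0 ∧ ∀ x ∈ H2,
    q (S.Xm x) ξ ≤ 0 ∧ q (S.Nm x) ξ ≤ 0 ∧ q (S.Xp x) ξ ≤ 0 ∧ q (S.Np x) ξ ≤ 0}

theorem unifK_sub (S : Setup) {ξ : V4} (h : ξ ∈ unifK S) : ξ ∈ Lam S := by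
  refine ⟨?_, h.2.1, h.2.2⟩
  rintro rfl
  have := h.1
  rw [norm_zero] at this
  exact zero_ne_one this

theorem unifK_compact (S : Setup) : IsCompact (unifK S) := by
  have hq : ∀ Z : V4, Continuous fun ξ : V4 => q Z ξ := fun Z =>
    unif_q_cont.comp (continuous_const.prodMk continuous_id)
  refine (isCompact_sphere (0 : V4) 1).of_isClosed_subset ?_ ?_
  · have e : unifK S = {ξ | ‖ξ‖ = 1} ∩ ({ξ | q ξ ξ = 0} ∩ ⋂ x ∈ H2, ({ξ | q (S.Xm x) ξ ≤ 0} ∩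
        ({ξ | q (S.Nm x) ξ ≤ 0} ∩ ({ξ | q (S.Xp x) ξ ≤ 0} ∩ {ξ | q (S.Np x) ξ ≤ 0})))) := by
      ext ξ
      simp only [unifK, Set.mem_setOf_eq, Set.mem_inter_iff, Set.mem_iInter]
    rw [e]
    refine (isClosed_eq continuous_norm continuous_const).inter ((isClosed_eq ?_ continuous_const).inter ?_)
    · exact unif_q_cont.comp (continuous_id.prodMk continuous_id)
    · refine isClosed_biInter fun x _ => ?_
      exact (isClosed_le (hq _) continuous_const).inter ((isClosed_le (hq _) continuous_const).inter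
        ((isClosed_le (hq _) continuous_const).inter (isClosed_le (hq _) continuous_const)))
  · intro ξ h
    rw [mem_sphere_zero_iff_norm]; exact h.1

theorem unif_one (S : Setup) (Z : V3 → V4) (hZ : ContinuousOn Z H2)
    (hs : ∀ x ∈ H2, ∀ ξ ∈ Lam S, q (Z x) ξ < 0) :
    ∃ c C : ℝ, 0 < c ∧ 0 < C ∧ ∀ y ∈ S.F, ∀ ξ ∈ unifK S, c ≤ -q (Z y) ξ ∧ -q (Z y) ξ ≤ C := by
  have hcpt : IsCompact (S.F ×ˢ unifK S) := S.F_cpt.prod (unifK_compact S)
  have hcont : ContinuousOn (fun p : V3 × V4 => -q (Z p.1) p.2) (S.F ×ˢ unifK S) := by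
    refine ContinuousOn.neg ?_
    refine unif_q_cont.comp_continuousOn (ContinuousOn.prodMk ?_ continuousOn_snd)
    exact (hZ.mono S.F_sub).comp continuousOn_fst fun p hp => hp.1
  rcases Set.eq_empty_or_nonempty (S.F ×ˢ unifK S) with he | hne
  · refine ⟨1, 1, one_pos, one_pos, fun y hy ξ hξ => ?_⟩
    exfalso
    have : (y, ξ) ∈ S.F ×ˢ unifK S := ⟨hy, hξ⟩
    rw [he] at this
    exact this
  · obtain ⟨p, hp, hpmin⟩ := hcpt.exists_isMinOn hne hcont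
    obtain ⟨p', hp', hpmax⟩ := hcpt.exists_isMaxOn hne hcont
    have pos : ∀ z ∈ S.F ×ˢ unifK S, 0 < -q (Z z.1) z.2 := by
      intro z hz
      have := hs z.1 (S.F_sub hz.1) z.2 (unifK_sub S hz.2)
      linarith
    refine ⟨_, _, pos p hp, pos p' hp', fun y hy ξ hξ => ?_⟩
    exact ⟨hpmin (show (y, ξ) ∈ S.F ×ˢ unifK S from ⟨hy, hξ⟩), hpmax (show (y, ξ) ∈ S.F ×ˢ unifK S from ⟨hy, hξ⟩)⟩

/- Proof:
K0 = {xi in Lam S : |xi| = 1} is compact (closed and bounded; Lam S together with 0 is closed). On K0 x F the four continuous functions -q (X y) xi are positive (Lam_strict) so bounded below by c > 0 and above by C. For x in H2 choose g in G with g.1 x in F and put mu(xi) = |g.2 xi|: -q (X x) xi = -q (X (g.1 x)) (g.2 xi) = mu * (-q (X (g.1 x)) (g.2 xi/mu)). The last inequality: -q xi1 xi2 = -q (g.2 xi1)(g.2 xi2) <= 4 mu(xi1) mu(xi2).  If K0 is empty everything is trivial (no xi in Lam S).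
-/
theorem unif (S : Setup) : ∃ c C : ℝ, 0 < c ∧ 0 < C ∧ ∀ x ∈ H2, ∃ μ : V4 → ℝ,
    (∀ ξ ∈ Lam S, 0 < μ ξ ∧
      (c * μ ξ ≤ -q (S.Xm x) ξ ∧ -q (S.Xm x) ξ ≤ C * μ ξ) ∧
      (c * μ ξ ≤ -q (S.Nm x) ξ ∧ -q (S.Nm x) ξ ≤ C * μ ξ) ∧
      (c * μ ξ ≤ -q (S.Xp x) ξ ∧ -q (S.Xp x) ξ ≤ C * μ ξ) ∧
      (c * μ ξ ≤ -q (S.Np x) ξ ∧ -q (S.Np x) ξ ≤ C * μ ξ)) ∧
    ∀ ξ₁ ∈ Lam S, ∀ ξ₂ ∈ Lam S, -q ξ₁ ξ₂ ≤ C * μ ξ₁ * μ ξ₂ := by
  obtain ⟨c1, C1, hc1, hC1, h1⟩ := unif_one S S.Xm S.cm.contX fun x hx ξ hξ => (Lam_strict S hξ hx).1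
  obtain ⟨c2, C2, hc2, hC2, h2⟩ := unif_one S S.Nm S.cm.contN fun x hx ξ hξ => (Lam_strict S hξ hx).2.1
  obtain ⟨c3, C3, hc3, hC3, h3⟩ := unif_one S S.Xp S.cp.contX fun x hx ξ hξ => (Lam_strict S hξ hx).2.2.1
  obtain ⟨c4, C4, hc4, hC4, h4⟩ := unif_one S S.Np S.cp.contN fun x hx ξ hξ => (Lam_strict S hξ hx).2.2.2
  set c := min (min c1 c2) (min c3 c4) with hc
  set C := max (max (max C1 C2) (max C3 C4)) 4 with hC
  have d1 : c ≤ c1 := (min_le_left _ _).trans (min_le_left _ _)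
  have d2 : c ≤ c2 := (min_le_left _ _).trans (min_le_right _ _)
  have d3 : c ≤ c3 := (min_le_right _ _).trans (min_le_left _ _)
  have d4 : c ≤ c4 := (min_le_right _ _).trans (min_le_right _ _)
  have D1 : C1 ≤ C := ((le_max_left _ _).trans (le_max_left _ _)).trans (le_max_left _ _)
  have D2 : C2 ≤ C := ((le_max_right _ _).trans (le_max_left _ _)).trans (le_max_left _ _)
  have D3 : C3 ≤ C := ((le_max_left _ _).trans (le_max_right _ _)).trans (le_max_left _ _)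
  have D4 : C4 ≤ C := ((le_max_right _ _).trans (le_max_right _ _)).trans (le_max_left _ _)
  have D5 : 4 ≤ C := le_max_right _ _
  refine ⟨c, C, by simp only [hc, lt_min_iff]; tauto, by linarith, fun x hx => ?_⟩
  obtain ⟨g, hg, hgF⟩ := S.F_cov x hx
  have hpos : ∀ ξ ∈ Lam S, 0 < ‖g.2 ξ‖ := fun ξ hξ => norm_pos_iff.mpr (Lam_G S hξ hg).1
  have key : ∀ (Z : V3 → V4) (_ : Z (g.1 x) = g.2 (Z x)) (ci Ci : ℝ) (_ : c ≤ ci) (_ : Ci ≤ C)
      (_ : ∀ y ∈ S.F, ∀ ξ ∈ unifK S, ci ≤ -q (Z y) ξ ∧ -q (Z y) ξ ≤ Ci), ∀ ξ ∈ Lam S,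
      c * ‖g.2 ξ‖ ≤ -q (Z x) ξ ∧ -q (Z x) ξ ≤ C * ‖g.2 ξ‖ := by
    intro Z hZ ci Ci hci hCi hb ξ hξ
    have hp := hpos ξ hξ
    have hL := Lam_G S hξ hg
    have hL' := Lam_smul S hL (inv_pos.mpr hp)
    have hK : ‖g.2 ξ‖⁻¹ • g.2 ξ ∈ unifK S := by
      refine ⟨?_, hL'.2.1, hL'.2.2⟩
      rw [norm_smul, norm_inv, norm_norm, inv_mul_cancel₀ hp.ne']
    have e : -q (Z x) ξ = ‖g.2 ξ‖ * (-q (Z (g.1 x)) (‖g.2 ξ‖⁻¹ • g.2 ξ)) := by
      rw [unif_q_smul_right, hZ, S.G_q g hg]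
      field_simp
    have hb' := hb _ hgF _ hK
    rw [e]
    constructor
    · have := mul_le_mul_of_nonneg_left (hci.trans hb'.1) hp.le
      linarith
    · have := mul_le_mul_of_nonneg_left (hb'.2.trans hCi) hp.le
      linarith
  refine ⟨fun ξ => ‖g.2 ξ‖, fun ξ hξ => ⟨hpos ξ hξ, key S.Xm (S.G_Xm g hg x hx) c1 C1 d1 D1 h1 ξ hξ,
    key S.Nm (S.G_Nm g hg x hx) c2 C2 d2 D2 h2 ξ hξ, key S.Xp (S.G_Xp g hg x hx) c3 C3 d3 D3 h3 ξ hξ,
    key S.Np (S.G_Np g hg x hx) c4 C4 d4 D4 h4 ξ hξ⟩, fun ξ₁ hξ₁ ξ₂ hξ₂ => ?_⟩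
  rw [← S.G_q g hg]
  have hb := q_bound (g.2 ξ₁) (g.2 ξ₂)
  have hn : -q (g.2 ξ₁) (g.2 ξ₂) ≤ |q (g.2 ξ₁) (g.2 ξ₂)| := neg_le_abs _
  have hmul : 4 * ‖g.2 ξ₁‖ * ‖g.2 ξ₂‖ ≤ C * ‖g.2 ξ₁‖ * ‖g.2 ξ₂‖ := by
    have := mul_le_mul_of_nonneg_right D5 (mul_nonneg (norm_nonneg (g.2 ξ₁)) (norm_nonneg (g.2 ξ₂)))
    linarith
  linarith

end A_unif

alias unif := A_unif.unif

namespace A_np_pos

theorem np_pos_q_comm (X Y : V4) : q X Y = q Y X := by
  unfold q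
  ring

/- Proof:
u(x) = -q (Xp x) N >= sqrt(1-b^2) =: u0 > 0 on H2 (upper, b < 1). Let w = -q (Xp x) xi > 0, k = -q (Np x) xi > 0, k <= (C/c) w by unif. ekeland with Z = N gives x with |q (dXp x v) N| <= eps for all unit tangent v. parseval at x for q xi N = 0: 0 = -w u + (1/b^2) sum_i q xi (dXp e_i) q N (dXp e_i) + n k where n = q (Np x) N; parseval for q xi xi = 0: (1/b^2) sum_i (q xi (dXp e_i))^2 = w^2 + k^2 <= (1 + (C/c)^2) w^2. So n k >= w u0 - (eps * const) w > 0 for eps small; hence n > 0.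
-/
theorem np_pos (S : Setup) {N : V4} (hN : N ∈ Dual S) {ξ : V4} (hξ : ξ ∈ Lam S) (h0 : q ξ N = 0) :
    ∃ x ∈ H2, 0 < q (S.Np x) N := by
  have hb := S.cp.a_pos
  have hb1 := S.cp.a_lt
  set b : ℝ := S.b with hbdef
  set u0 : ℝ := Real.sqrt (1 - b ^ 2) with hu0
  have hu0p : 0 < u0 := by
    rw [hu0]
    apply Real.sqrt_pos.2
    nlinarith
  obtain ⟨c, C, hc, hC, hunif⟩ := unif S
  set R : ℝ := C / c with hR
  have hRp : 0 < R := div_pos hC hc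
  set ε : ℝ := b * u0 / (4 * (1 + R)) with hε
  have hεp : 0 < ε := by
    rw [hε]
    positivity
  obtain ⟨x, hx, hxv⟩ := ekeland S.cp (Z := N) hN.2 hεp
  refine ⟨x, hx, ?_⟩
  obtain ⟨e₁, he₁⟩ := exists_UT hx
  obtain ⟨e₂, he⟩ := exists_ON hx he₁
  have he₂ : UT x e₂ := ⟨he.2.1, he.2.2.2.1⟩
  have hn1 := hxv e₁ he₁
  have hn2 := hxv e₂ he₂
  have hP1 := parseval S.cp hx he ξ ξ
  have hP2 := parseval S.cp hx he ξ N
  rw [hξ.2.1] at hP1
  rw [h0] at hP2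
  have hu := upper S hN hξ h0 hx
  obtain ⟨μ, hμ, _⟩ := hunif x hx
  obtain ⟨hμ0, _, _, ⟨hw1, _⟩, ⟨hk1, hk2⟩⟩ := hμ ξ hξ
  rw [np_pos_q_comm (S.Xp x) ξ] at hw1
  rw [np_pos_q_comm (S.Np x) ξ] at hk1 hk2
  rw [np_pos_q_comm (S.dXp x e₁) N] at hn1
  rw [np_pos_q_comm (S.dXp x e₂) N] at hn2
  rw [np_pos_q_comm (S.Xp x) N] at hu
  rw [np_pos_q_comm (S.Np x) N]
  set w : ℝ := -q ξ (S.Xp x) with hw
  set k : ℝ := -q ξ (S.Np x) with hk
  set u : ℝ := -q N (S.Xp x) with hudef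
  set n : ℝ := q N (S.Np x) with hn
  set p1 : ℝ := q ξ (S.dXp x e₁) with hp1
  set p2 : ℝ := q ξ (S.dXp x e₂) with hp2
  set n1 : ℝ := q N (S.dXp x e₁) with hn1'
  set n2 : ℝ := q N (S.dXp x e₂) with hn2'
  have ew : q ξ (S.Xp x) = -w := by rw [hw]; ring
  have ek : q ξ (S.Np x) = -k := by rw [hk]; ring
  have eu : q N (S.Xp x) = -u := by rw [hudef]; ring
  rw [ew, ek] at hP1
  rw [ew, ek, eu] at hP2
  have hwp : 0 < w := lt_of_lt_of_le (mul_pos hc hμ0) hw1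
  have hkp : 0 < k := lt_of_lt_of_le (mul_pos hc hμ0) hk1
  have hkR : k ≤ R * w := by
    have h1 : μ ξ ≤ w / c := by
      rw [le_div_iff₀ hc]
      linarith
    calc k ≤ C * μ ξ := hk2
      _ ≤ C * (w / c) := mul_le_mul_of_nonneg_left h1 hC.le
      _ = R * w := by rw [hR]; ring
  have hb2 : 0 < b ^ 2 := by positivity
  have hsum : p1 * p1 + p2 * p2 = b ^ 2 * (w ^ 2 + k ^ 2) := by
    have h1 : (p1 * p1 + p2 * p2) / b ^ 2 = w ^ 2 + k ^ 2 := by linarith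
    rw [div_eq_iff hb2.ne'] at h1
    linarith
  have hbound : b ^ 2 * (w ^ 2 + k ^ 2) ≤ (b * ((1 + R) * w)) ^ 2 := by
    have h1 : w ^ 2 + k ^ 2 ≤ ((1 + R) * w) ^ 2 := by
      have h2 : k ^ 2 ≤ (R * w) ^ 2 := pow_le_pow_left₀ hkp.le hkR 2
      have h3 : 0 ≤ R * w * w := by positivity
      nlinarith
    calc b ^ 2 * (w ^ 2 + k ^ 2) ≤ b ^ 2 * ((1 + R) * w) ^ 2 :=
          mul_le_mul_of_nonneg_left h1 hb2.le
      _ = (b * ((1 + R) * w)) ^ 2 := by ring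
  have hBnn : 0 ≤ b * ((1 + R) * w) := by positivity
  have hp1b : |p1| ≤ b * ((1 + R) * w) := by
    refine abs_le_of_sq_le_sq ?_ hBnn
    refine le_trans ?_ hbound
    rw [← hsum, sq]
    exact le_add_of_nonneg_right (mul_self_nonneg p2)
  have hp2b : |p2| ≤ b * ((1 + R) * w) := by
    refine abs_le_of_sq_le_sq ?_ hBnn
    refine le_trans ?_ hbound
    rw [← hsum, sq]
    exact le_add_of_nonneg_left (mul_self_nonneg p1)
  have hm1 : p1 * n1 ≤ b * ((1 + R) * w) * ε := by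
    calc p1 * n1 ≤ |p1 * n1| := le_abs_self _
      _ = |p1| * |n1| := abs_mul _ _
      _ ≤ b * ((1 + R) * w) * ε := mul_le_mul hp1b hn1 (abs_nonneg _) hBnn
  have hm2 : p2 * n2 ≤ b * ((1 + R) * w) * ε := by
    calc p2 * n2 ≤ |p2 * n2| := le_abs_self _
      _ = |p2| * |n2| := abs_mul _ _
      _ ≤ b * ((1 + R) * w) * ε := mul_le_mul hp2b hn2 (abs_nonneg _) hBnn
  have hBε : b * ((1 + R) * w) * ε = b ^ 2 * (w * u0 / 4) := by
    rw [hε]
    field_simp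
  have hdiv : (p1 * n1 + p2 * n2) / b ^ 2 ≤ w * u0 / 2 := by
    rw [div_le_iff₀ hb2]
    linarith
  have hwu : w * u0 ≤ w * u := mul_le_mul_of_nonneg_left hu hwp.le
  have hwu0 : 0 < w * u0 := mul_pos hwp hu0p
  have hkn : 0 < k * n := by
    have hP3 : k * n = w * u - (p1 * n1 + p2 * n2) / b ^ 2 := by
      have e1 : (0:ℝ) = -(-w * -u) + (p1 * n1 + p2 * n2) / b ^ 2 - -k * n := hP2
      have e2 : -(-w * -u) = -(w * u) := by ring
      have e3 : -k * n = -(k * n) := by ring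
      rw [e2, e3] at e1
      linarith
    linarith
  exact (pos_iff_pos_of_mul_pos hkn).1 hkp

end A_np_pos

alias np_pos := A_np_pos.np_pos

namespace A_f_lower

/- Proof:
Let gamma = e^s xi1 + e^-s xi2 (A = e^s xi1, B = e^-s xi2 in Lam by scaling; mu as in unif need not be homogeneous, so apply unif to A and B directly, Lam_smul). -q (X x) gamma >= c (mu A + mu B) >= 2 c sqrt(mu A mu B) >= 2 c sqrt(1/(2 C)) since 1/2 = -q A B <= C mu A mu B. Same for Xm.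
-/
theorem f_lower (S : Setup) : ∃ c₀ : ℝ, 0 < c₀ ∧ ∀ ξ₁ ∈ Lam S, ∀ ξ₂ ∈ Lam S, q ξ₁ ξ₂ = -1/2 →
    ∀ x ∈ H2, c₀ ≤ -q (S.Xm x) (ξ₁ + ξ₂) ∧ c₀ ≤ -q (S.Xp x) (ξ₁ + ξ₂) := by
  obtain ⟨c, C, hc, hC, hu⟩ := unif S
  refine ⟨c * Real.sqrt (2 / C), mul_pos hc (Real.sqrt_pos.mpr (div_pos two_pos hC)), ?_⟩
  intro ξ₁ h1 ξ₂ h2 h12 x hx
  obtain ⟨μ, hμ, hμ2⟩ := hu x hx
  obtain ⟨p1, ⟨m1, -⟩, -, ⟨q1, -⟩, -⟩ := hμ ξ₁ h1
  obtain ⟨p2, ⟨m2, -⟩, -, ⟨q2, -⟩, -⟩ := hμ ξ₂ h2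
  have h3 := hμ2 ξ₁ h1 ξ₂ h2
  rw [h12] at h3
  have hadd : ∀ Y : V4, q Y (ξ₁ + ξ₂) = q Y ξ₁ + q Y ξ₂ := by
    intro Y
    simp only [q, Pi.add_apply]
    ring
  have hs : Real.sqrt (2 / C) ≤ μ ξ₁ + μ ξ₂ := by
    rw [Real.sqrt_le_left (by linarith), div_le_iff₀ hC]
    nlinarith [mul_nonneg hC.le (sq_nonneg (μ ξ₁ - μ ξ₂))]
  have hm := mul_le_mul_of_nonneg_left hs hc.le
  rw [hadd, hadd]
  constructor <;> linarith

end A_f_lower

alias f_lower := A_f_lower.f_lower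

namespace A_f_proper

theorem q_comm' (X Y : V4) : q X Y = q Y X := by
  simp only [q]
  ring

theorem q_add' (X Y Z : V4) : q X (Y + Z) = q X Y + q X Z := by
  simp only [q, Pi.add_apply]
  ring

theorem f_proper_aux {a : ℝ} {X N : V3 → V4} {dX dN : V3 → V3 → V4} (h : Core a X N dX dN)
    (hs : ∀ x ∈ H2, ∀ y ∈ H2, q (N x) (X y) ≤ 0) {Z : V4} (hZ : ∀ x ∈ H2, q (N x) Z ≤ 0) {c : ℝ}
    (hc0 : 0 < c) (hc : ∀ x ∈ H2, c ≤ -q (X x) Z) {x₀ : V3} (hx₀ : x₀ ∈ H2) (R : ℝ) :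
    ∃ R', ∀ x ∈ H2, -q (X x) Z ≤ R → -eta x₀ x ≤ R' := by
  set G2 : ℝ := a ^ 2 * (q Z Z + (q (X x₀) Z) ^ 2 + (q (N x₀) Z) ^ 2) with hG2
  set k : ℝ := a ^ 2 * c / 2 with hk
  have ha := h.a_pos
  have hkpos : 0 < k := by positivity
  refine ⟨Real.cosh ((1 + |G2| + |R|) / k + 1), fun x hx hR => ?_⟩
  obtain ⟨d, v, hd, hv, hgeo⟩ := exists_geo hx₀ hx
  have h1 := grow2 h hs hZ hc hx₀ hv hd
  rw [hgeo] at h1
  have h2 := grad_bound h hx₀ hv Z
  rw [q_comm' Z (dX x₀ v)] at h2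
  rw [← hG2] at h2
  have h3 : |q (dX x₀ v) Z| ≤ 1 + |G2| := by
    have e1 : |q (dX x₀ v) Z| ^ 2 ≤ |G2| := by
      rw [sq_abs]
      exact h2.trans (le_abs_self _)
    nlinarith [abs_nonneg (q (dX x₀ v) Z), sq_nonneg (|q (dX x₀ v) Z| - 1)]
  have h4 : q (dX x₀ v) Z ≤ 1 + |G2| := (le_abs_self _).trans h3
  have h5 : c ≤ -q (X x₀) Z := hc x₀ hx₀
  have h6 : k * d ^ 2 ≤ R + (1 + |G2|) * d := by
    have e1 : q (dX x₀ v) Z * d ≤ (1 + |G2|) * d := mul_le_mul_of_nonneg_right h4 hd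
    have e2 : k * d ^ 2 = a ^ 2 * c * d ^ 2 / 2 := by rw [hk]; ring
    rw [e2]
    linarith
  have h7 : d ≤ (1 + |G2| + |R|) / k + 1 := by
    by_contra hcon
    push Not at hcon
    have e0 : 0 ≤ (1 + |G2| + |R|) / k := by positivity
    have e1 : 1 < d := by linarith
    have e2 : (1 + |G2| + |R|) / k < d - 1 := by linarith
    rw [div_lt_iff₀ hkpos] at e2
    have e3 : R ≤ |R| := le_abs_self R
    have e4 : 0 ≤ |R| := abs_nonneg R
    have e5 : (1 + |G2| + |R|) * d < ((d - 1) * k) * d := mul_lt_mul_of_pos_right e2 (by linarith)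
    nlinarith [mul_pos hkpos (by linarith : (0:ℝ) < d)]
  rw [← hgeo, eta_geo hx₀ hv d, neg_neg]
  apply Real.cosh_le_cosh.mpr
  rw [abs_of_nonneg hd, abs_of_nonneg]
  · exact h7
  · positivity

/- Proof:
With Z = xi1 + xi2 and f(x) = -q (X x) Z: f >= c0 > 0 on H2 and q (N x) Z <= 0, so grow2 along the geodesic from x0 to x (length d, cosh d = -eta x0 x): f(x) >= f(x0) - |f'(0)| d + a^2 c0 d^2/2, where f'(0) is bounded independently of the direction by grad_bound. So f(x) <= R bounds d, hence -eta x0 x = cosh d. For the third alternative use unif: -q (Np x) Z >= c (mu xi1 + mu xi2) >= (c/C) (-q (Xp x) Z).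
-/
theorem f_proper (S : Setup) {ξ₁ ξ₂ : V4} (h₁ : ξ₁ ∈ Lam S) (h₂ : ξ₂ ∈ Lam S) (h : q ξ₁ ξ₂ = -1/2)
    {x₀ : V3} (hx₀ : x₀ ∈ H2) (R : ℝ) :
    ∃ R', ∀ x ∈ H2, (-q (S.Xp x) (ξ₁ + ξ₂) ≤ R ∨ -q (S.Xm x) (ξ₁ + ξ₂) ≤ R ∨ -q (S.Np x) (ξ₁ + ξ₂) ≤ R) →
      -eta x₀ x ≤ R' := by
  obtain ⟨c₀, hc₀, hlow⟩ := f_lower S
  have hl := hlow ξ₁ h₁ ξ₂ h₂ h
  obtain ⟨c, C, hc, hC, hu⟩ := unif S
  have hNp : ∀ x ∈ H2, q (S.Np x) (ξ₁ + ξ₂) ≤ 0 := by
    intro x hx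
    rw [q_add']
    have a1 := (h₁.2.2 x hx).2.2.2
    have a2 := (h₂.2.2 x hx).2.2.2
    linarith
  have hNm : ∀ x ∈ H2, q (S.Nm x) (ξ₁ + ξ₂) ≤ 0 := by
    intro x hx
    rw [q_add']
    have a1 := (h₁.2.2 x hx).2.1
    have a2 := (h₂.2.2 x hx).2.1
    linarith
  obtain ⟨R1, hR1⟩ := f_proper_aux S.cp S.pp hNp hc₀ (fun x hx => (hl x hx).2) hx₀ R
  obtain ⟨R2, hR2⟩ := f_proper_aux S.cm S.mm hNm hc₀ (fun x hx => (hl x hx).1) hx₀ R
  obtain ⟨R3, hR3⟩ := f_proper_aux S.cp S.pp hNp hc₀ (fun x hx => (hl x hx).2) hx₀ (C * (R / c))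
  refine ⟨max R1 (max R2 R3), fun x hx hor => ?_⟩
  rcases hor with h' | h' | h'
  · exact (hR1 x hx h').trans (le_max_left _ _)
  · exact (hR2 x hx h').trans ((le_max_left _ _).trans (le_max_right _ _))
  · refine (hR3 x hx ?_).trans ((le_max_right _ _).trans (le_max_right _ _))
    obtain ⟨μ, hμ, -⟩ := hu x hx
    obtain ⟨-, -, -, ⟨p1, p2⟩, ⟨p3, p4⟩⟩ := hμ ξ₁ h₁
    obtain ⟨-, -, -, ⟨r1, r2⟩, ⟨r3, r4⟩⟩ := hμ ξ₂ h₂
    rw [q_add'] at h' ⊢
    have e1 : c * (μ ξ₁ + μ ξ₂) ≤ R := by linarith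
    have e2 : μ ξ₁ + μ ξ₂ ≤ R / c := by
      rw [le_div_iff₀ hc]
      linarith
    have e3 : C * (μ ξ₁ + μ ξ₂) ≤ C * (R / c) := mul_le_mul_of_nonneg_left e2 hC.le
    linarith

end A_f_proper

alias f_proper := A_f_proper.f_proper

namespace A_vertical

theorem vertical_qadd (X Y Z : V4) : q X (Y + Z) = q X Y + q X Z := by
  simp only [q, Pi.add_apply]; ring

theorem vertical_qsmul (X Y : V4) (t : ℝ) : q X (t • Y) = t * q X Y := by
  simp only [q, Pi.smul_apply, smul_eq_mul]; ring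

theorem vertical_qsymm (X Y : V4) : q X Y = q Y X := by
  simp only [q]; ring

theorem vertical_cont {N : V3 → V4} (hN : ContinuousOn N H2) (Z : V4) :
    ContinuousOn (fun x => q (N x) Z) H2 := by
  have h : ∀ i : Fin 4, ContinuousOn (fun x => N x i) H2 := fun i =>
    (continuous_apply i).comp_continuousOn hN
  unfold q
  exact (((h 0).mul_const _).neg.add ((h 1).mul_const _)).add ((h 2).mul_const _) |>.sub
    ((h 3).mul_const _)

/- Proof: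
(gamma = xi1+xi2.) Let k(x) = -q (Np x) gamma > 0, n(x) = q (Np x) N. (a) n(x) <= 1: the vector N + Np x satisfies q (Xp x') (N + Np x) <= 0 for x' in H2 (Dual, S.pp), so nonspacelike gives -1 + 2 n - 1 <= 0. (b) by np_pos some xb has n(xb) > 0; R0 = k(xb)/n(xb). (c) K0 = {x in H2 : k(x) <= R0 n(x)} is nonempty, closed, and k <= R0 on it, so bounded by f_proper, so compact; on K0 n > 0 because k > 0. Let x minimise k/n on K0, t = k(x)/n(x) > 0. For every x' in H2: k(x') - t n(x') >= 0 (if n(x') <= 0 clear; if x' in K0 by minimality; else k(x') > R0 n(x') >= t n(x')). So q (Np .)(gamma + t N) <= 0 on H2 with equality at x; contactN: gamma + t N = lam Xp x with lam = -q (Xp x)(gamma + t N) > 0 and lam^2 = -q(gamma+tN)(gamma+tN) = 1 + t^2.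
-/
theorem vertical (S : Setup) {N : V4} (hN : N ∈ Dual S) {ξ₁ ξ₂ : V4} (h₁ : ξ₁ ∈ Lam S) (h₂ : ξ₂ ∈ Lam S)
    (h : q ξ₁ ξ₂ = -1/2) (h1N : q ξ₁ N = 0) (h2N : q ξ₂ N = 0) :
    ∃ x ∈ H2, ∃ t : ℝ, 0 < t ∧ ξ₁ + ξ₂ + t • N = Real.sqrt (1 + t ^ 2) • S.Xp x := by
  obtain ⟨hNN, hNX⟩ := hN
  set γ : V4 := ξ₁ + ξ₂ with hγ
  have hk : ∀ x ∈ H2, 0 < -q (S.Np x) γ := by
    intro x hx
    have e1 := (Lam_strict S h₁ hx).2.2.2
    have e2 := (Lam_strict S h₂ hx).2.2.2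
    rw [hγ, vertical_qadd]
    linarith
  have hkX : ∀ x ∈ H2, q (S.Xp x) γ < 0 := by
    intro x hx
    have e1 := (Lam_strict S h₁ hx).2.2.1
    have e2 := (Lam_strict S h₂ hx).2.2.1
    rw [hγ, vertical_qadd]
    linarith
  have hn1 : ∀ x ∈ H2, q (S.Np x) N ≤ 1 := by
    intro x hx
    have e := nonspacelike S.cp (Z := N + S.Np x) (fun x' hx' => by
      rw [vertical_qadd]
      have e1 := hNX x' hx'
      have e2 := S.pp x hx x' hx'
      rw [vertical_qsymm] at e2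
      linarith)
    have e3 : q (N + S.Np x) (N + S.Np x) = q N N + 2 * q (S.Np x) N + q (S.Np x) (S.Np x) := by
      simp only [q, Pi.add_apply]; ring
    rw [e3, hNN, S.cp.NN x hx] at e
    linarith
  obtain ⟨xb, hxb, hnb⟩ := np_pos S ⟨hNN, hNX⟩ h₁ h1N
  set R0 : ℝ := -q (S.Np xb) γ / q (S.Np xb) N with hR0
  have hR0p : 0 < R0 := div_pos (hk xb hxb) hnb
  have hx0 : (![1, 0, 0] : V3) ∈ H2 := by
    refine ⟨?_, ?_⟩
    · simp [eta]
    · simp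
  obtain ⟨R', hR'⟩ := f_proper S h₁ h₂ h hx0 R0
  set T : Set V3 := {x | x ∈ H2 ∧ -eta (![1, 0, 0] : V3) x ≤ R'} with hT
  have hTc : IsCompact T := H2_ball hx0 R'
  have hTs : T ⊆ H2 := fun x hx => hx.1
  have hcn : ContinuousOn (fun x => q (S.Np x) N) H2 := vertical_cont S.cp.contN N
  have hck : ContinuousOn (fun x => -q (S.Np x) γ) H2 := (vertical_cont S.cp.contN γ).neg
  set K0 : Set V3 := T ∩ (fun x => -q (S.Np x) γ - R0 * q (S.Np x) N) ⁻¹' Set.Iic 0 with hK0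
  have hK0c : IsCompact K0 := by
    refine hTc.of_isClosed_subset ?_ Set.inter_subset_left
    exact ((hck.sub (hcn.const_mul R0)).mono hTs).preimage_isClosed_of_isClosed hTc.isClosed
      isClosed_Iic
  have hK0mem : ∀ x ∈ H2, -q (S.Np x) γ ≤ R0 * q (S.Np x) N → x ∈ K0 := by
    intro x hx hle
    refine ⟨⟨hx, hR' x hx (Or.inr (Or.inr ?_))⟩, ?_⟩
    · have : R0 * q (S.Np x) N ≤ R0 := by
        have := mul_le_mul_of_nonneg_left (hn1 x hx) hR0p.le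
        linarith
      linarith
    · show -q (S.Np x) γ - R0 * q (S.Np x) N ≤ 0
      linarith
  have hxbK : xb ∈ K0 := by
    refine hK0mem xb hxb ?_
    rw [hR0, div_mul_cancel₀ _ hnb.ne']
  have hnpos : ∀ x ∈ K0, 0 < q (S.Np x) N := by
    rintro x ⟨hxT, hx0⟩
    have hx0' : -q (S.Np x) γ - R0 * q (S.Np x) N ≤ 0 := hx0
    have := hk x (hTs hxT)
    by_contra hcon
    have h3 : R0 * q (S.Np x) N ≤ 0 := mul_nonpos_of_nonneg_of_nonpos hR0p.le (not_lt.1 hcon)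
    linarith
  have hK0s : K0 ⊆ H2 := fun x hx => hTs hx.1
  obtain ⟨x, hxK, hmin⟩ := hK0c.exists_isMinOn ⟨xb, hxbK⟩
    ((hck.mono hK0s).div (hcn.mono hK0s) (fun x hx => (hnpos x hx).ne'))
  have hxH : x ∈ H2 := hK0s hxK
  have hnx := hnpos x hxK
  set t : ℝ := -q (S.Np x) γ / q (S.Np x) N with ht
  have htp : 0 < t := div_pos (hk x hxH) hnx
  have htR : t ≤ R0 := by
    have hx0' : -q (S.Np x) γ - R0 * q (S.Np x) N ≤ 0 := hxK.2
    rw [ht, div_le_iff₀ hnx]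
    linarith
  have hall : ∀ x' ∈ H2, q (S.Np x') (γ + t • N) ≤ 0 := by
    intro x' hx'
    rw [vertical_qadd, vertical_qsmul]
    have hk' := hk x' hx'
    rcases le_or_gt (q (S.Np x') N) 0 with hle | hgt
    · have := mul_nonpos_of_nonneg_of_nonpos htp.le hle
      linarith
    · by_cases hxK' : x' ∈ K0
      · have h5 : t ≤ -q (S.Np x') γ / q (S.Np x') N := hmin hxK'
        rw [le_div_iff₀ hgt] at h5
        linarith
      · have h6 : R0 * q (S.Np x') N < -q (S.Np x') γ := by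
          by_contra hcon
          exact hxK' (hK0mem x' hx' (not_lt.1 hcon))
        have h7 := mul_le_mul_of_nonneg_right htR hgt.le
        linarith
  have heq : q (S.Np x) (γ + t • N) = 0 := by
    rw [vertical_qadd, vertical_qsmul, ht, div_mul_cancel₀ _ hnx.ne']
    ring
  have hZ := contactN S.cp hall hxH heq
  set lam : ℝ := -(q (S.Xp x) (γ + t • N)) with hlam
  have hlamp : 0 < lam := by
    rw [hlam, vertical_qadd, vertical_qsmul]
    have e1 := hkX x hxH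
    have e2 := mul_nonpos_of_nonneg_of_nonpos htp.le (hNX x hxH)
    linarith
  have hq1 : q (γ + t • N) (γ + t • N) = -(1 + t ^ 2) := by
    have e1 : q (γ + t • N) (γ + t • N) = q ξ₁ ξ₁ + q ξ₂ ξ₂ + 2 * q ξ₁ ξ₂ +
        2 * t * (q ξ₁ N + q ξ₂ N) + t ^ 2 * q N N := by
      rw [hγ]
      simp only [q, Pi.add_apply, Pi.smul_apply, smul_eq_mul]; ring
    rw [e1, h₁.2.1, h₂.2.1, h, h1N, h2N, hNN]
    ring
  have hq2 : q (lam • S.Xp x) (lam • S.Xp x) = -lam ^ 2 := by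
    have e1 : q (lam • S.Xp x) (lam • S.Xp x) = lam ^ 2 * q (S.Xp x) (S.Xp x) := by
      simp only [q, Pi.smul_apply, smul_eq_mul]; ring
    rw [e1, S.cp.XX x hxH]
    ring
  have hsq : lam ^ 2 = 1 + t ^ 2 := by
    rw [← hZ, hq1] at hq2
    linarith
  have hsqrt : Real.sqrt (1 + t ^ 2) = lam := by
    rw [← hsq, Real.sqrt_sq hlamp.le]
  refine ⟨x, hxH, t, htp, ?_⟩
  rw [hsqrt]
  exact hZ

end A_vertical

alias vertical := A_vertical.vertical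

namespace A_chord_step

theorem cs_q_add_left (X Y Z : V4) : q (X + Y) Z = q X Z + q Y Z := by
  simp only [q, Pi.add_apply]; ring

theorem cs_q_add_right (X Y Z : V4) : q X (Y + Z) = q X Y + q X Z := by
  simp only [q, Pi.add_apply]; ring

theorem cs_q_smul_left (c : ℝ) (X Z : V4) : q (c • X) Z = c * q X Z := by
  simp only [q, Pi.smul_apply, smul_eq_mul]; ring

theorem cs_q_smul_right (c : ℝ) (X Z : V4) : q X (c • Z) = c * q X Z := by
  simp only [q, Pi.smul_apply, smul_eq_mul]; ring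

theorem cs_q_comm (X Z : V4) : q X Z = q Z X := by
  simp only [q]; ring

theorem cs_cosh_lb {y : ℝ} (hy : 0 ≤ y) : 1 + y ^ 2 / 2 ≤ Real.cosh y := by
  have h1 : y / 2 ≤ Real.sinh (y / 2) := Real.self_le_sinh_iff.mpr (by linarith)
  have h2 : Real.cosh y = 1 + 2 * Real.sinh (y / 2) ^ 2 := by
    have h3 : Real.cosh (2 * (y / 2)) = Real.cosh (y / 2) ^ 2 + Real.sinh (y / 2) ^ 2 :=
      Real.cosh_two_mul _
    rw [Real.cosh_sq, mul_div_cancel₀ y (two_ne_zero)] at h3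
    linarith
  rw [h2]
  nlinarith

/-- the lower bound for the height -/
theorem cs_height (S : Setup) {N : V4} (hN : N ∈ Dual S) {ξ₁ ξ₂ : V4} (h₁ : ξ₁ ∈ Lam S)
    (h1N : q ξ₁ N = 0) (h2N : q ξ₂ N = 0) {s t : ℝ} {x : V3}
    (hx : x ∈ H2) (ht : 0 < t)
    (hX : Real.exp s • ξ₁ + Real.exp (-s) • ξ₂ + t • N = Real.sqrt (1 + t ^ 2) • S.Xp x) :
    1 ≤ S.b * Real.sqrt (1 + t ^ 2) := by
  have hb0 := S.cp.a_pos
  have hb1 := S.cp.a_lt
  have hr : 0 < Real.sqrt (1 + t ^ 2) := Real.sqrt_pos.mpr (by positivity)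
  have hr2 : Real.sqrt (1 + t ^ 2) ^ 2 = 1 + t ^ 2 := Real.sq_sqrt (by positivity)
  have h1 := congrArg (fun Y => q Y N) hX
  simp only [cs_q_add_left, cs_q_smul_left, h1N, h2N, hN.1] at h1
  have h2 := upper S hN h₁ h1N hx
  have h3 : Real.sqrt (1 - S.b ^ 2) * Real.sqrt (1 + t ^ 2) ≤ t := by
    nlinarith [mul_le_mul_of_nonneg_right h2 hr.le]
  have h4 : Real.sqrt (1 - S.b ^ 2) ^ 2 = 1 - S.b ^ 2 :=
    Real.sq_sqrt (by nlinarith)
  have h5 : (Real.sqrt (1 - S.b ^ 2) * Real.sqrt (1 + t ^ 2)) ^ 2 ≤ t ^ 2 :=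
    pow_le_pow_left₀ (mul_nonneg (Real.sqrt_nonneg _) hr.le) h3 2
  rw [mul_pow, h4, hr2] at h5
  have h6 : 1 ≤ (S.b * Real.sqrt (1 + t ^ 2)) ^ 2 := by
    rw [mul_pow, hr2]
    nlinarith
  have h7 : 0 ≤ S.b * Real.sqrt (1 + t ^ 2) := mul_nonneg hb0.le hr.le
  by_contra hcon
  push Not at hcon
  nlinarith

/- Proof:
Points x, x' in H2, with gamma + t N = sqrt(1+t^2) Xp x, gamma' + t' N = sqrt(1+t'^2) Xp x', gamma = e^s xi1 + e^-s xi2, gamma' = e^s' xi1 + e^-s' xi2. -q(Xp x) N = t/sqrt(1+t^2) >= sqrt(1-b^2) gives 1/sqrt(1+t^2) <= b, same for t'. -q gamma gamma' = cosh(s-s'). So -q (Xp x)(Xp x') = (cosh(s-s') + t t')/sqrt((1+t^2)(1+t'^2)) <= 1 + (cosh(s-s')-1) b^2 [1 + t t' <= sqrt((1+t^2)(1+t'^2))]. By chordX with -eta x x' = cosh d: cosh(b d) <= 1 + b^2 (cosh(s-s')-1) and cosh(b d) >= 1 + b^2 d^2/2, so d^2 <= 2 (cosh(s-s')-1).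
-/
theorem chord_step (S : Setup) {N : V4} (hN : N ∈ Dual S) {ξ₁ ξ₂ : V4} (h₁ : ξ₁ ∈ Lam S) (h₂ : ξ₂ ∈ Lam S)
    (h : q ξ₁ ξ₂ = -1/2) (h1N : q ξ₁ N = 0) (h2N : q ξ₂ N = 0) {s s' t t' : ℝ} {x x' : V3}
    (hx : x ∈ H2) (hx' : x' ∈ H2) (ht : 0 < t) (ht' : 0 < t')
    (hX : Real.exp s • ξ₁ + Real.exp (-s) • ξ₂ + t • N = Real.sqrt (1 + t ^ 2) • S.Xp x)
    (hX' : Real.exp s' • ξ₁ + Real.exp (-s') • ξ₂ + t' • N = Real.sqrt (1 + t' ^ 2) • S.Xp x') :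
    -eta x x' ≤ Real.cosh (Real.sqrt (2 * (Real.cosh (s - s') - 1))) := by
  have hb0 := S.cp.a_pos
  obtain ⟨d, v, hd, hv, hgeo⟩ := exists_geo hx hx'
  have hdc : -eta x x' = Real.cosh d := by
    have := eta_geo hx hv d
    rw [hgeo] at this
    rw [this, neg_neg]
  have hch := chordX S.cp S.pp hx hx' hd hdc
  have hH := cs_height S hN h₁ h1N h2N hx ht hX
  have hH' := cs_height S hN h₁ h1N h2N hx' ht' hX'
  have hr : 0 < Real.sqrt (1 + t ^ 2) := Real.sqrt_pos.mpr (by positivity)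
  have hr' : 0 < Real.sqrt (1 + t' ^ 2) := Real.sqrt_pos.mpr (by positivity)
  have hr2 : Real.sqrt (1 + t ^ 2) ^ 2 = 1 + t ^ 2 := Real.sq_sqrt (by positivity)
  have hr2' : Real.sqrt (1 + t' ^ 2) ^ 2 = 1 + t' ^ 2 := Real.sq_sqrt (by positivity)
  set r := Real.sqrt (1 + t ^ 2) with hrdef
  set r' := Real.sqrt (1 + t' ^ 2) with hrdef'
  have hc1 : 1 ≤ Real.cosh (s - s') := Real.one_le_cosh _
  have hq : r * r' * -q (S.Xp x) (S.Xp x') = Real.cosh (s - s') + t * t' := by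
    have e1 : q (r • S.Xp x) (r' • S.Xp x') = r * r' * q (S.Xp x) (S.Xp x') := by
      rw [cs_q_smul_left, cs_q_smul_right]; ring
    have hNx1 : q N ξ₁ = 0 := by rw [cs_q_comm]; exact h1N
    have hNx2 : q N ξ₂ = 0 := by rw [cs_q_comm]; exact h2N
    have h21 : q ξ₂ ξ₁ = -1/2 := by rw [cs_q_comm]; exact h
    rw [← hX, ← hX'] at e1
    simp only [cs_q_add_left, cs_q_smul_left, cs_q_add_right, cs_q_smul_right, h1N, h2N, hN.1,
      hNx1, hNx2, h, h21, h₁.2.1, h₂.2.1] at e1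
    have e2 : Real.cosh (s - s') = (Real.exp s * Real.exp (-s') + Real.exp (-s) * Real.exp s') / 2 := by
      rw [Real.cosh_eq, ← Real.exp_add, ← Real.exp_add]
      congr 2
      ring_nf
    rw [e2]
    linarith
  have hrr : 0 < r * r' := mul_pos hr hr'
  have hcs : 1 + t * t' ≤ r * r' := by
    have h1 : (1 + t * t') ^ 2 ≤ (r * r') ^ 2 := by
      rw [mul_pow, hr2, hr2']
      nlinarith [sq_nonneg (t - t')]
    exact le_of_sq_le_sq h1 hrr.le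
  have hbb : 1 ≤ S.b ^ 2 * (r * r') := by
    have := one_le_mul_of_one_le_of_one_le hH hH'
    nlinarith
  have hup : r * r' * -q (S.Xp x) (S.Xp x') ≤ r * r' * (1 + S.b ^ 2 * (Real.cosh (s - s') - 1)) := by
    rw [hq]
    nlinarith [mul_le_mul_of_nonneg_left hbb (sub_nonneg.mpr hc1)]
  have hup2 : -q (S.Xp x) (S.Xp x') ≤ 1 + S.b ^ 2 * (Real.cosh (s - s') - 1) :=
    le_of_mul_le_mul_left hup hrr
  have hlb := cs_cosh_lb (mul_nonneg hb0.le hd)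
  have hfin : S.b ^ 2 * (d ^ 2) ≤ S.b ^ 2 * (2 * (Real.cosh (s - s') - 1)) := by
    nlinarith
  have hfin2 : d ^ 2 ≤ 2 * (Real.cosh (s - s') - 1) :=
    le_of_mul_le_mul_left hfin (by positivity)
  rw [hdc, Real.cosh_le_cosh, abs_of_nonneg hd, abs_of_nonneg (Real.sqrt_nonneg _)]
  exact Real.le_sqrt_of_sq_le hfin2

end A_chord_step

alias chord_step := A_chord_step.chord_step

namespace A_foot_m

/- Proof:
gamma = xi1 + xi2, f(y) = -q (Xm y) gamma is continuous with compact sublevel sets (f_proper, H2_ball), let y minimise f over H2. extX (Z = gamma) and decomp: gamma = f Xm y + k Nm y, with f = -q (Xm y) gamma > 0, k = -q (Nm y) gamma > 0 and f^2 + k^2 = 1 so f <= 1. 0 = q gamma N = f q (Xm y) N + k q (Nm y) N; as q (Nm y) N < 0 (hypothesis) q (Xm y) N >= 0.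
-/
theorem foot_m (S : Setup) {N : V4} (hneg : ∀ y ∈ H2, q (S.Nm y) N < 0) {ξ₁ ξ₂ : V4}
    (h₁ : ξ₁ ∈ Lam S) (h₂ : ξ₂ ∈ Lam S)
    (h : q ξ₁ ξ₂ = -1/2) (h1N : q ξ₁ N = 0) (h2N : q ξ₂ N = 0) :
    ∃ y ∈ H2, 0 ≤ q (S.Xm y) N ∧ -q (S.Xm y) (ξ₁ + ξ₂) ≤ 1 := by
  have qaddr : ∀ A B C : V4, q A (B + C) = q A B + q A C := by
    intro A B C; simp only [q, Pi.add_apply]; ring
  have qcont : ∀ Z : V4, Continuous (fun A : V4 => q A Z) := by
    intro Z; unfold q; fun_prop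
  set x₀ : V3 := ![1, 0, 0] with hx0def
  have hx₀ : x₀ ∈ H2 := by
    simp [H2, eta, hx0def]
  obtain ⟨R', hR'⟩ := f_proper S h₁ h₂ h hx₀ (-q (S.Xm x₀) (ξ₁ + ξ₂))
  have hK := H2_ball hx₀ R'
  have hx₀K : x₀ ∈ {x | x ∈ H2 ∧ -eta x₀ x ≤ R'} := ⟨hx₀, hR' x₀ hx₀ (Or.inr (Or.inl le_rfl))⟩
  have hcont : ContinuousOn (fun x => -q (S.Xm x) (ξ₁ + ξ₂)) {x | x ∈ H2 ∧ -eta x₀ x ≤ R'} := by
    have h1 : ContinuousOn (fun x => q (S.Xm x) (ξ₁ + ξ₂)) H2 :=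
      (qcont (ξ₁ + ξ₂)).comp_continuousOn S.cm.contX
    exact (h1.neg).mono (fun x hx => hx.1)
  obtain ⟨y, hyK, hymin⟩ := hK.exists_isMinOn ⟨x₀, hx₀K⟩ hcont
  have hy : y ∈ H2 := hyK.1
  have hmax : ∀ x ∈ H2, q (S.Xm x) (ξ₁ + ξ₂) ≤ q (S.Xm y) (ξ₁ + ξ₂) := by
    intro x hx
    by_cases hxK : -eta x₀ x ≤ R'
    · have h1 := isMinOn_iff.mp hymin x ⟨hx, hxK⟩
      linarith
    · have h1 : ¬ (-q (S.Xm x) (ξ₁ + ξ₂) ≤ -q (S.Xm x₀) (ξ₁ + ξ₂)) := fun h2 =>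
        hxK (hR' x hx (Or.inr (Or.inl h2)))
      have h2 := isMinOn_iff.mp hymin x₀ hx₀K
      push Not at h1
      linarith
  have hdec := decomp S.cm hy (Z := ξ₁ + ξ₂) (fun v hv => (extX S.cm hy hmax hv).1)
  obtain ⟨l1, l2, -, -⟩ := Lam_strict S h₁ hy
  obtain ⟨m1, m2, -, -⟩ := Lam_strict S h₂ hy
  have hXX := S.cm.XX y hy
  have hNN := S.cm.NN y hy
  have hNX := S.cm.NX y hy
  set f : ℝ := -(q (S.Xm y) (ξ₁ + ξ₂)) with hf
  set k : ℝ := -(q (S.Nm y) (ξ₁ + ξ₂)) with hk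
  have hf0 : 0 < f := by rw [hf, qaddr]; linarith
  have hk0 : 0 < k := by rw [hk, qaddr]; linarith
  have e1 : q (ξ₁ + ξ₂) (ξ₁ + ξ₂) = -1 := by
    have a1 := h₁.2.1
    have a2 := h₂.2.1
    have a3 : q (ξ₁ + ξ₂) (ξ₁ + ξ₂) = q ξ₁ ξ₁ + 2 * q ξ₁ ξ₂ + q ξ₂ ξ₂ := by
      simp only [q, Pi.add_apply]; ring
    rw [a3, a1, a2, h]; norm_num
  have e2 : q (f • S.Xm y + k • S.Nm y) (f • S.Xm y + k • S.Nm y) =
      f ^ 2 * q (S.Xm y) (S.Xm y) + 2 * f * k * q (S.Nm y) (S.Xm y) +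
        k ^ 2 * q (S.Nm y) (S.Nm y) := by
    simp only [q, Pi.add_apply, Pi.smul_apply, smul_eq_mul]; ring
  have e3 : f ^ 2 + k ^ 2 = 1 := by
    rw [← hdec, e1, hXX, hNN, hNX] at e2
    linarith
  have e4 : q (ξ₁ + ξ₂) N = 0 := by
    have a3 : q (ξ₁ + ξ₂) N = q ξ₁ N + q ξ₂ N := by
      simp only [q, Pi.add_apply]; ring
    rw [a3, h1N, h2N]; norm_num
  have e5 : q (f • S.Xm y + k • S.Nm y) N = f * q (S.Xm y) N + k * q (S.Nm y) N := by
    simp only [q, Pi.add_apply, Pi.smul_apply, smul_eq_mul]; ring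
  rw [← hdec, e4] at e5
  refine ⟨y, hy, ?_, ?_⟩
  · have h6 := hneg y hy
    have h7 : 0 < f * q (S.Xm y) N := by nlinarith
    exact (pos_of_mul_pos_right h7 hf0.le).le
  · nlinarith

end A_foot_m

alias foot_m := A_foot_m.foot_m

namespace A_dist_bound

/- Proof:
Let c, C, mu be as in unif at the point y, Z = xi1 + xi2. 1 >= -q (Xm y) Z >= c (mu xi1 + mu xi2), so mu xi1, mu xi2 <= 1/c. Hence |q (Xp y) Z|, |q (Np y) Z| <= C (mu xi1 + mu xi2) <= 2C/c; and q Z Z = -1; grad_bound: |q Z (dXp y v)| <= C' for unit v. grow2 for the upper surface from y to x (length d): 1 >= -q (Xp x) Z >= -C' d + b^2 c0 d^2/2 (c0 from f_lower; f(y) >= 0). So d <= D0 with D0 depending only on S.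
-/
theorem dist_bound (S : Setup) : ∃ D₀ : ℝ, 0 ≤ D₀ ∧ ∀ ξ₁ ∈ Lam S, ∀ ξ₂ ∈ Lam S, q ξ₁ ξ₂ = -1/2 →
    ∀ y ∈ H2, ∀ x ∈ H2, -q (S.Xm y) (ξ₁ + ξ₂) ≤ 1 → -q (S.Xp x) (ξ₁ + ξ₂) ≤ 1 →
    -eta y x ≤ Real.cosh D₀ := by
  obtain ⟨c₀, hc₀, hlow⟩ := f_lower S
  obtain ⟨c, C, hc, hC, hu⟩ := unif S
  have hb := S.cp.a_pos
  have hb1 := S.cp.a_lt
  have qadd : ∀ X Y Z : V4, q X (Y + Z) = q X Y + q X Z := by
    intro X Y Z
    simp only [q, Pi.add_apply]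
    ring
  have qcomm : ∀ X Y : V4, q X Y = q Y X := by
    intro X Y
    simp only [q]
    ring
  have hM : 0 < C * (2 / c) := by positivity
  obtain ⟨M, hMd⟩ : ∃ M, M = C * (2 / c) := ⟨_, rfl⟩
  rw [← hMd] at hM
  have hD : 0 < 2 * (2 * M + 1) / (S.b ^ 2 * c₀) := by positivity
  refine ⟨max 1 (2 * (2 * M + 1) / (S.b ^ 2 * c₀)), le_trans zero_le_one (le_max_left _ _), ?_⟩
  intro ξ₁ h₁ ξ₂ h₂ h12 y hy x hx hym hxp
  obtain ⟨μ, hμ, -⟩ := hu y hy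
  obtain ⟨m1, ⟨a1, a2⟩, ⟨b1, b2⟩, ⟨c1, c2⟩, ⟨d1, d2⟩⟩ := hμ ξ₁ h₁
  obtain ⟨n1, ⟨e1, e2⟩, ⟨f1, f2⟩, ⟨g1, g2⟩, ⟨k1, k2⟩⟩ := hμ ξ₂ h₂
  rw [qadd] at hym hxp
  have hsum : c * (μ ξ₁ + μ ξ₂) ≤ 1 := by linarith
  have hsum1 : μ ξ₁ + μ ξ₂ ≤ 1 / c := by
    rw [le_div_iff₀ hc]
    linarith
  have hCs : C * (μ ξ₁ + μ ξ₂) ≤ M := by
    rw [hMd]
    apply mul_le_mul_of_nonneg_left _ hC.le
    refine hsum1.trans ?_
    rw [div_le_div_iff_of_pos_right hc]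
    norm_num
  have hpos1 : 0 < c * μ ξ₁ := by positivity
  have hpos2 : 0 < c * μ ξ₂ := by positivity
  have hXb : (q (S.Xp y) (ξ₁ + ξ₂)) ^ 2 ≤ M ^ 2 := by
    rw [qadd]
    apply sq_le_sq'
    · linarith
    · linarith
  have hNb : (q (S.Np y) (ξ₁ + ξ₂)) ^ 2 ≤ M ^ 2 := by
    rw [qadd]
    apply sq_le_sq'
    · linarith
    · linarith
  have hZZ : q (ξ₁ + ξ₂) (ξ₁ + ξ₂) = -1 := by
    rw [qadd, qcomm (ξ₁ + ξ₂) ξ₁, qcomm (ξ₁ + ξ₂) ξ₂, qadd, qadd, h₁.2.1, h₂.2.1, qcomm ξ₂ ξ₁, h12]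
    norm_num
  obtain ⟨d, v, hd, hv, hdx⟩ := exists_geo hy hx
  have hg := grad_bound S.cp hy hv (ξ₁ + ξ₂)
  have hg2 : (q (ξ₁ + ξ₂) (S.dXp y v)) ^ 2 ≤ (2 * M) ^ 2 := by
    refine hg.trans ?_
    have hbb : S.b ^ 2 ≤ 1 := by nlinarith
    have hb0 : 0 ≤ S.b ^ 2 := sq_nonneg _
    have ht : q (ξ₁ + ξ₂) (ξ₁ + ξ₂) + q (S.Xp y) (ξ₁ + ξ₂) ^ 2 + q (S.Np y) (ξ₁ + ξ₂) ^ 2
        ≤ 2 * M ^ 2 := by
      rw [hZZ]
      linarith
    calc S.b ^ 2 * (q (ξ₁ + ξ₂) (ξ₁ + ξ₂) + q (S.Xp y) (ξ₁ + ξ₂) ^ 2 + q (S.Np y) (ξ₁ + ξ₂) ^ 2)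
        ≤ S.b ^ 2 * (2 * M ^ 2) := mul_le_mul_of_nonneg_left ht hb0
      _ ≤ 1 * (2 * M ^ 2) := mul_le_mul_of_nonneg_right hbb (by positivity)
      _ ≤ (2 * M) ^ 2 := by nlinarith [sq_nonneg M]
  have hg3 : |q (ξ₁ + ξ₂) (S.dXp y v)| ≤ 2 * M := abs_le_of_sq_le_sq hg2 (by positivity)
  have hg4 := (abs_le.1 hg3).2
  have hgr := grow2 S.cp S.pp (Z := ξ₁ + ξ₂)
    (fun z hz => by
      rw [qadd]
      have := (h₁.2.2 z hz).2.2.2
      have := (h₂.2.2 z hz).2.2.2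
      linarith) (c := c₀) (fun z hz => (hlow ξ₁ h₁ ξ₂ h₂ h12 z hz).2) hy hv hd
  have hlow2 := (hlow ξ₁ h₁ ξ₂ h₂ h12 y hy).2
  rw [hdx] at hgr
  rw [qcomm (S.dXp y v)] at hgr
  rw [qadd (S.Xp x)] at hgr
  have hineq : -(2 * M) * d + S.b ^ 2 * c₀ * d ^ 2 / 2 ≤ 1 := by
    have : -(2 * M) * d ≤ -q (ξ₁ + ξ₂) (S.dXp y v) * d :=
      mul_le_mul_of_nonneg_right (by linarith) hd
    linarith
  have hdle : d ≤ max 1 (2 * (2 * M + 1) / (S.b ^ 2 * c₀)) := by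
    rcases le_total d 1 with h1 | h1
    · exact h1.trans (le_max_left _ _)
    · refine le_trans ?_ (le_max_right _ _)
      have hbc : 0 < S.b ^ 2 * c₀ := by positivity
      rw [le_div_iff₀ hbc]
      by_contra hcon
      push Not at hcon
      have h2 : 2 * (2 * M + 1) * d < d * (S.b ^ 2 * c₀) * d :=
        mul_lt_mul_of_pos_right hcon (lt_of_lt_of_le zero_lt_one h1)
      have h3 : S.b ^ 2 * c₀ * d ^ 2 = d * (S.b ^ 2 * c₀) * d := by ring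
      have h4 : 2 * (2 * M + 1) * d = 4 * (M * d) + 2 * d := by ring
      have h5 : -(2 * M) * d = -2 * (M * d) := by ring
      rw [h3, h5] at hineq
      rw [h4] at h2
      clear hgr hg4 hg3 hg2 hg hZZ hNb hXb hCs hsum1 hsum hym hxp a1 a2 b1 b2 c1 c2 d1 d2 e1 e2 f1 f2 g1 g2 k1 k2
      linarith
  have hη := eta_geo hy hv d
  rw [hdx] at hη
  rw [hη, neg_neg, Real.cosh_le_cosh, abs_of_nonneg hd,
    abs_of_nonneg (le_trans zero_le_one (le_max_left _ _))]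
  exact hdle

end A_dist_bound

alias dist_bound := A_dist_bound.dist_bound

namespace A_w_lower

/- Proof:
apply unif at y to A = e^s xi1 and B = e^-s xi2 (in Lam by Lam_smul): 1 >= -q (Xm y)(A+B) >= c (mu A + mu B), so mu A <= 1/c; 1/2 = -q A B <= C mu A mu B gives mu B >= c/(2C); -q (Xm y) xi2 = e^s (-q (Xm y) B) >= e^s c mu B >= e^s c^2/(2C).
-/
theorem w_lower (S : Setup) : ∃ c₁ : ℝ, 0 < c₁ ∧ ∀ ξ₁ ∈ Lam S, ∀ ξ₂ ∈ Lam S, q ξ₁ ξ₂ = -1/2 →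
    ∀ s : ℝ, ∀ y ∈ H2, -q (S.Xm y) (Real.exp s • ξ₁ + Real.exp (-s) • ξ₂) ≤ 1 →
    c₁ * Real.exp s ≤ -q (S.Xm y) ξ₂ := by
  obtain ⟨c, C, hc, hC, hu⟩ := unif S
  refine ⟨c ^ 2 / (2 * C), by positivity, ?_⟩
  intro ξ₁ h1 ξ₂ h2 h12 s y hy hle
  obtain ⟨μ, hμ, hμ2⟩ := hu y hy
  have es : 0 < Real.exp s := Real.exp_pos s
  have es' : 0 < Real.exp (-s) := Real.exp_pos (-s)
  have ess : Real.exp s * Real.exp (-s) = 1 := by rw [← Real.exp_add]; simp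
  have hA := Lam_smul S h1 es
  have hB := Lam_smul S h2 es'
  obtain ⟨a0, ⟨a1, a2⟩, -, -, -⟩ := hμ _ hA
  obtain ⟨b0, ⟨b1, b2⟩, -, -, -⟩ := hμ _ hB
  have hAB := hμ2 _ hA _ hB
  have e1 : q (Real.exp s • ξ₁) (Real.exp (-s) • ξ₂) = Real.exp s * Real.exp (-s) * q ξ₁ ξ₂ := by
    unfold q; simp only [Pi.smul_apply, smul_eq_mul]; ring
  rw [e1, ess, h12] at hAB
  have e2 : q (S.Xm y) (Real.exp s • ξ₁ + Real.exp (-s) • ξ₂)
      = q (S.Xm y) (Real.exp s • ξ₁) + q (S.Xm y) (Real.exp (-s) • ξ₂) := by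
    unfold q; simp only [Pi.add_apply, Pi.smul_apply, smul_eq_mul]; ring
  rw [e2] at hle
  have e3 : q (S.Xm y) (Real.exp (-s) • ξ₂) = Real.exp (-s) * q (S.Xm y) ξ₂ := by
    unfold q; simp only [Pi.smul_apply, smul_eq_mul]; ring
  set A := Real.exp s • ξ₁ with hAd
  set B := Real.exp (-s) • ξ₂ with hBd
  -- c μA ≤ 1
  have h3 : c * μ A ≤ 1 := by nlinarith
  -- 1/2 ≤ C μA μB
  have h4 : c / 2 ≤ C * μ B := by
    have h5 : 1 / 2 ≤ C * μ A * μ B := by linarith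
    have h6 : c * (1 / 2) ≤ c * (C * μ A * μ B) := mul_le_mul_of_nonneg_left h5 hc.le
    have h7 : c * (C * μ A * μ B) = (c * μ A) * (C * μ B) := by ring
    have h8 : (c * μ A) * (C * μ B) ≤ 1 * (C * μ B) :=
      mul_le_mul_of_nonneg_right h3 (by positivity)
    linarith
  have h9 : c ^ 2 / (2 * C) ≤ c * μ B := by
    rw [div_le_iff₀ (by positivity)]
    nlinarith
  have h10 : c * μ B ≤ -(Real.exp (-s) * q (S.Xm y) ξ₂) := by rw [← e3]; exact b1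
  have h11 : Real.exp s * (c ^ 2 / (2 * C)) ≤ Real.exp s * (-(Real.exp (-s) * q (S.Xm y) ξ₂)) :=
    mul_le_mul_of_nonneg_left (h9.trans h10) es.le
  have h12' : Real.exp s * (-(Real.exp (-s) * q (S.Xm y) ξ₂)) = -q (S.Xm y) ξ₂ := by
    have : Real.exp s * (-(Real.exp (-s) * q (S.Xm y) ξ₂))
      = -((Real.exp s * Real.exp (-s)) * q (S.Xm y) ξ₂) := by ring
    rw [this, ess, one_mul]
  rw [h12'] at h11
  linarith

end A_w_lower

alias w_lower := A_w_lower.w_lower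

namespace A_w_deriv

theorem q_add_left (X Y Z : V4) : q (X + Y) Z = q X Z + q Y Z := by
  simp only [q, Pi.add_apply]; ring

theorem q_add_right (X Y Z : V4) : q X (Y + Z) = q X Y + q X Z := by
  simp only [q, Pi.add_apply]; ring

theorem q_smul_left (c : ℝ) (X Y : V4) : q (c • X) Y = c * q X Y := by
  simp only [q, Pi.smul_apply, smul_eq_mul]; ring

theorem q_smul_right (c : ℝ) (X Y : V4) : q X (c • Y) = c * q X Y := by
  simp only [q, Pi.smul_apply, smul_eq_mul]; ring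

theorem q_comm' (X Y : V4) : q X Y = q Y X := by
  simp only [q]; ring

/-- the orthogonal complement of a negative definite plane is positive semidefinite -/
theorem q_psd {P N U : V4} (hNN : q N N < 0) (hPP : q P P < 0) (hPN : q P N = 0)
    (hUP : q U P = 0) (hUN : q U N = 0) : 0 ≤ q U U := by
  have hd : 0 < (P 0 * N 3 - P 3 * N 0) ^ 2 := by
    have h1 : (P 0 * N 3 - P 3 * N 0) ^ 2 =
        (P 0 ^ 2 + P 3 ^ 2) * (N 0 ^ 2 + N 3 ^ 2) - (P 1 * N 1 + P 2 * N 2) ^ 2 := by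
      have h2 : P 1 * N 1 + P 2 * N 2 = P 0 * N 0 + P 3 * N 3 := by
        simp only [q] at hPN
        linarith
      rw [h2]
      ring
    have h3 : (P 1 * N 1 + P 2 * N 2) ^ 2 ≤ (P 1 ^ 2 + P 2 ^ 2) * (N 1 ^ 2 + N 2 ^ 2) := by
      nlinarith [sq_nonneg (P 1 * N 2 - P 2 * N 1)]
    have h4 : P 1 ^ 2 + P 2 ^ 2 < P 0 ^ 2 + P 3 ^ 2 := by
      simp only [q] at hPP
      nlinarith
    have h5 : N 1 ^ 2 + N 2 ^ 2 < N 0 ^ 2 + N 3 ^ 2 := by
      simp only [q] at hNN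
      nlinarith
    have h6 : (P 1 ^ 2 + P 2 ^ 2) * (N 1 ^ 2 + N 2 ^ 2) <
        (P 0 ^ 2 + P 3 ^ 2) * (N 0 ^ 2 + N 3 ^ 2) := by
      apply mul_lt_mul'' h4 h5 <;> positivity
    rw [h1]
    linarith
  set d := P 0 * N 3 - P 3 * N 0 with hdd
  set α := U 0 * N 3 - U 3 * N 0 with hα
  set β := P 0 * U 3 - P 3 * U 0 with hβ
  have h1 : 0 ≤ q (d • U + (-α) • P + (-β) • N) (d • U + (-α) • P + (-β) • N) := by
    have e0 : (d • U + (-α) • P + (-β) • N) 0 = 0 := by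
      simp only [Pi.add_apply, Pi.smul_apply, smul_eq_mul, hdd, hα, hβ]
      ring
    have e3 : (d • U + (-α) • P + (-β) • N) 3 = 0 := by
      simp only [Pi.add_apply, Pi.smul_apply, smul_eq_mul, hdd, hα, hβ]
      ring
    rw [q, e0, e3]
    have := mul_self_nonneg ((d • U + (-α) • P + (-β) • N) 1)
    have := mul_self_nonneg ((d • U + (-α) • P + (-β) • N) 2)
    linarith
  have hPU : q P U = 0 := by rw [q_comm']; exact hUP
  have hNU : q N U = 0 := by rw [q_comm']; exact hUN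
  have hNP : q N P = 0 := by rw [q_comm']; exact hPN
  have h2 : q (d • U + (-α) • P + (-β) • N) (d • U + (-α) • P + (-β) • N) =
      d ^ 2 * q U U + α ^ 2 * q P P + β ^ 2 * q N N := by
    simp only [q_add_left, q_add_right, q_smul_left, q_smul_right, hPN, hUP, hUN, hPU, hNU, hNP]
    ring
  rw [h2] at h1
  have h3 : α ^ 2 * q P P ≤ 0 := mul_nonpos_of_nonneg_of_nonpos (sq_nonneg _) hPP.le
  have h4 : β ^ 2 * q N N ≤ 0 := mul_nonpos_of_nonneg_of_nonpos (sq_nonneg _) hNN.le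
  have h5 : 0 ≤ d ^ 2 * q U U := by linarith
  exact nonneg_of_mul_nonneg_right h5 hd

/-- Cauchy-Schwarz on the orthogonal complement of a negative definite plane -/
theorem q_cs {P N U W : V4} (hNN : q N N < 0) (hPP : q P P < 0) (hPN : q P N = 0)
    (hUP : q U P = 0) (hUN : q U N = 0) (hWP : q W P = 0) (hWN : q W N = 0) (hW : 0 < q W W) :
    (q U W) ^ 2 ≤ q U U * q W W := by
  have h1 := q_psd (U := U + (-(q U W / q W W)) • W) hNN hPP hPN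
    (by rw [q_add_left, q_smul_left, hUP, hWP]; ring)
    (by rw [q_add_left, q_smul_left, hUN, hWN]; ring)
  have h2 : q (U + (-(q U W / q W W)) • W) (U + (-(q U W / q W W)) • W) =
      q U U - (q U W) ^ 2 / q W W := by
    simp only [q_add_left, q_add_right, q_smul_left, q_smul_right, q_comm' W U]
    field_simp
    ring
  rw [h2, sub_nonneg, div_le_iff₀ hW] at h1
  exact h1

/- TARGET -/
theorem w_deriv {a V V1 w w1 : ℝ} {Y Y1 N ξ : V4} (hNN : q N N = -1)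
    (hYY : q Y Y = -1) (hYY1 : q Y Y1 = 0) (hY1 : q Y1 Y1 = a ^ 2)
    (hξ : q ξ ξ = 0) (hξN : q ξ N = 0) (hV : V = q Y N) (hV1 : V1 = q Y1 N) (hw : w = -q Y ξ)
    (hw1 : w1 = -q Y1 ξ) (hwpos : 0 < w) (hVlt : V ^ 2 < 1) :
    w1 ≤ w * ((-(V * V1) + Real.sqrt (a ^ 2 * (1 - V ^ 2) + V1 ^ 2)) / (1 - V ^ 2)) := by
  have hD : 0 < 1 - V ^ 2 := by linarith
  have hD' : (1 - V ^ 2) ≠ 0 := hD.ne'
  have hYN : q Y N = V := hV.symm
  have hNY : q N Y = V := by rw [q_comm']; exact hYN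
  have hY1N : q Y1 N = V1 := hV1.symm
  have hNY1 : q N Y1 = V1 := by rw [q_comm']; exact hY1N
  have hYξ : q Y ξ = -w := by rw [hw]; ring
  have hξY : q ξ Y = -w := by rw [q_comm']; exact hYξ
  have hY1ξ : q Y1 ξ = -w1 := by rw [hw1]; ring
  have hξY1 : q ξ Y1 = -w1 := by rw [q_comm']; exact hY1ξ
  have hNξ : q N ξ = 0 := by rw [q_comm']; exact hξN
  have hY1Y : q Y1 Y = 0 := by rw [q_comm']; exact hYY1
  -- the vectors
  set P : V4 := Y + V • N with hP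
  set P1 : V4 := Y1 + V1 • N with hP1
  set τ : V4 := P1 + (V * V1 / (1 - V ^ 2)) • P with hτ
  set σ : V4 := ξ + (-(w / (1 - V ^ 2))) • P with hσ
  have hPP : q P P = -(1 - V ^ 2) := by
    simp only [hP, q_add_left, q_add_right, q_smul_left, q_smul_right, hYY, hYN, hNY, hNN]
    ring
  have hPN : q P N = 0 := by
    simp only [hP, q_add_left, q_smul_left, hYN, hNN]
    ring
  have hτP : q τ P = 0 := by
    rw [hτ, q_add_left, q_smul_left, hPP]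
    simp only [hP, hP1, q_add_left, q_add_right, q_smul_left, q_smul_right, hYY, hYN, hNY, hNN,
      hY1Y, hY1N]
    field_simp
    ring
  have hτN : q τ N = 0 := by
    rw [hτ, q_add_left, q_smul_left, hPN]
    simp only [hP1, q_add_left, q_smul_left, hY1N, hNN]
    ring
  have hξP : q ξ P = -w := by
    simp only [hP, q_add_right, q_smul_right, hξY, hξN]
    ring
  have hPξ : q P ξ = -w := by rw [q_comm']; exact hξP
  have hσP : q σ P = 0 := by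
    rw [hσ, q_add_left, q_smul_left, hPP, hξP]
    field_simp
    ring
  have hσN : q σ N = 0 := by
    rw [hσ, q_add_left, q_smul_left, hPN, hξN]
    ring
  have hσσ : q σ σ = w ^ 2 / (1 - V ^ 2) := by
    rw [hσ, q_add_left, q_smul_left, ← hσ, q_comm' P σ, hσP, hσ, q_add_right, q_smul_right, hξP, hξ]
    field_simp
    ring
  have hPτ : q P τ = 0 := by rw [q_comm']; exact hτP
  have hττ : q τ τ = (a ^ 2 * (1 - V ^ 2) + V1 ^ 2) / (1 - V ^ 2) := by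
    rw [hτ, q_add_left, q_smul_left, ← hτ, hPτ, hτ, q_add_right, q_smul_right]
    simp only [hP, hP1, q_add_left, q_add_right, q_smul_left, q_smul_right, hYY, hYN, hNY, hNN,
      hY1Y, hY1N, hNY1, hYY1, hY1]
    field_simp
    ring
  have hτσ : q τ σ = -w1 - (V * V1 / (1 - V ^ 2)) * w := by
    rw [hσ, q_add_right, q_smul_right, hτP, hτ, q_add_left, q_smul_left, hPξ]
    simp only [hP1, q_add_left, q_smul_left, hY1ξ, hNξ]
    ring
  have hσpos : 0 < q σ σ := by rw [hσσ]; positivity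
  have hcs := q_cs (by rw [hNN]; norm_num) (by rw [hPP]; linarith) hPN hτP hτN hσP hσN hσpos
  rw [hττ, hσσ] at hcs
  set R := Real.sqrt (a ^ 2 * (1 - V ^ 2) + V1 ^ 2) with hR
  have hnn : 0 ≤ a ^ 2 * (1 - V ^ 2) + V1 ^ 2 := by positivity
  have hR2 : R ^ 2 = a ^ 2 * (1 - V ^ 2) + V1 ^ 2 := Real.sq_sqrt hnn
  have hR0 : 0 ≤ R := Real.sqrt_nonneg _
  have h1 : (q τ σ) ^ 2 ≤ (w * R / (1 - V ^ 2)) ^ 2 := by
    refine hcs.trans (le_of_eq ?_)
    rw [← hR2]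
    field_simp
  have h2 : |q τ σ| ≤ w * R / (1 - V ^ 2) :=
    abs_le_of_sq_le_sq h1 (by positivity)
  have h3 := neg_le_of_abs_le h2
  rw [hτσ] at h3
  have h4 : w * ((-(V * V1) + R) / (1 - V ^ 2)) =
      -(V * V1 / (1 - V ^ 2)) * w + w * R / (1 - V ^ 2) := by
    ring
  rw [h4]
  linarith

end A_w_deriv

alias w_deriv := A_w_deriv.w_deriv

namespace A_lower_ineq

/- Proof:
Take the geodesic c = geo y0 e, c(D) = y1, cosh D = -eta y0 y1 (exists_geo, eta_geo), v(s) = q (Xm (c s)) N, w(s) = -q (Xm (c s)) xi. v'' = a^2 v + II n with n = q (Nm (c s)) N < 0 and II >= 0 (II_nonneg with S.mm), so v'' <= a^2 v. v >= 0 on [0,D]: v(0), v(D) >= 0; at an interior negative minimum s of v on [0,D], v''(s) >= 0 but v''(s) <= a^2 v(s) < 0. v <= m by hypothesis; w > 0; w_deriv gives the hypothesis of lyapunov on w1 (with v^2 <= m^2 < 1). Conclude with lyapunov; D is determined by cosh D = -eta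 y0 y1 <= cosh D', so D <= D' and the right-hand side is monotone in D.
-/
theorem li_q_add_left (X Y Z : V4) : q (X + Y) Z = q X Z + q Y Z := by
  simp only [q, Pi.add_apply]; ring

theorem li_q_smul_left (c : ℝ) (X Z : V4) : q (c • X) Z = c * q X Z := by
  simp only [q, Pi.smul_apply, smul_eq_mul]; ring

theorem li_q_hasDeriv {f : ℝ → V4} {f' : V4} {s : ℝ} (h : HasDerivAt f f' s) (N : V4) :
    HasDerivAt (fun s => q (f s) N) (q f' N) s := by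
  have h0 := (hasDerivAt_pi.1 h) 0
  have h1 := (hasDerivAt_pi.1 h) 1
  have h2 := (hasDerivAt_pi.1 h) 2
  have h3 := (hasDerivAt_pi.1 h) 3
  have := (((h0.mul_const (N 0)).neg.add (h1.mul_const (N 1))).add (h2.mul_const (N 2))).sub
    (h3.mul_const (N 3))
  exact this

/-- minimum principle -/
theorem li_min_principle {v v1 v2 : ℝ → ℝ} (hv : ∀ s, HasDerivAt v (v1 s) s) (hv1 : ∀ s, HasDerivAt v1 (v2 s) s)
    {a D : ℝ} (ha : 0 < a) (hD : 0 ≤ D) (h2 : ∀ s, v2 s ≤ a ^ 2 * v s) (h0 : 0 ≤ v 0) (hDD : 0 ≤ v D) :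
    ∀ s ∈ Set.Icc 0 D, 0 ≤ v s := by
  by_contra hcon
  push Not at hcon
  obtain ⟨s₀, hs₀, hneg⟩ := hcon
  have hcont : Continuous v := continuous_iff_continuousAt.2 fun s => (hv s).continuousAt
  obtain ⟨t, ht, hmin⟩ := isCompact_Icc.exists_isMinOn (Set.nonempty_Icc.2 hD) hcont.continuousOn
  have ht0 : v t < 0 := lt_of_le_of_lt (hmin hs₀) hneg
  have ht1 : 0 < t := by
    rcases eq_or_lt_of_le ht.1 with h | h
    · rw [← h] at ht0; linarith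
    · exact h
  have ht2 : t < D := by
    rcases eq_or_lt_of_le ht.2 with h | h
    · rw [h] at ht0; linarith
    · exact h
  have hloc : IsLocalMin v t := hmin.isLocalMin (Icc_mem_nhds ht1 ht2)
  have hd : deriv v = v1 := funext fun s => (hv s).deriv
  have hd1 : deriv v1 = v2 := funext fun s => (hv1 s).deriv
  have hz : deriv v t = 0 := hloc.deriv_eq_zero
  have hneg2 : v2 t < 0 := lt_of_le_of_lt (h2 t) (mul_neg_of_pos_of_neg (by positivity) ht0)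
  have hmax : IsLocalMax v t := by
    apply isLocalMax_of_deriv_deriv_neg
    · rw [hd, hd1]; exact hneg2
    · exact hz
    · exact hcont.continuousAt
  have hev : v =ᶠ[nhds t] fun _ => v t := by
    filter_upwards [hloc, hmax] with s h3 h4
    exact le_antisymm h4 h3
  have h5 : deriv v =ᶠ[nhds t] deriv fun _ => v t := hev.deriv
  have h6 := h5.deriv_eq
  rw [hd, hd1] at h6
  simp at h6
  linarith

theorem lower_ineq (S : Setup) {N : V4} (hNN : q N N = -1) (hneg : ∀ y ∈ H2, q (S.Nm y) N < 0) {m : ℝ}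
    (hm0 : 0 < m) (hm1 : m < 1) (hm : ∀ y ∈ H2, q (S.Xm y) N ≤ m) {ξ : V4} (hξ : ξ ∈ Lam S) (hξN : q ξ N = 0)
    {y₀ y₁ : V3} (h₀ : y₀ ∈ H2) (h₁ : y₁ ∈ H2) (hv₀ : 0 ≤ q (S.Xm y₀) N) (hv₁ : 0 ≤ q (S.Xm y₁) N)
    {D : ℝ} (hD : 0 ≤ D) (hyy : -eta y₀ y₁ ≤ Real.cosh D) :
    -q (S.Xm y₁) ξ ≤ ((1 + m) / (1 - m) / Real.sqrt (1 - m ^ 2))
      * Real.exp (S.a * D / Real.sqrt (1 - m ^ 2)) * -q (S.Xm y₀) ξ := by
  obtain ⟨d, e, hd0, he, hde⟩ := exists_geo h₀ h₁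
  have hcosh : Real.cosh d ≤ Real.cosh D := by
    have := eta_geo h₀ he d
    rw [hde] at this
    rw [this] at hyy
    linarith
  have hdD : d ≤ D := by
    have := Real.cosh_le_cosh.1 hcosh
    rwa [abs_of_nonneg hd0, abs_of_nonneg hD] at this
  have hmem : ∀ s, geo y₀ e s ∈ H2 := fun s => geo_mem h₀ he s
  have hut : ∀ s, UT (geo y₀ e s) (geo' y₀ e s) := fun s => geo_UT h₀ he s
  have hw : ∀ s, 0 < -q (S.Xm (geo y₀ e s)) ξ := fun s => by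
    have := (Lam_strict S hξ (hmem s)).1
    linarith
  have hXd : ∀ s, HasDerivAt (fun s => q (S.Xm (geo y₀ e s)) N)
      (q (S.dXm (geo y₀ e s) (geo' y₀ e s)) N) s := fun s => li_q_hasDeriv (S.cm.geoX y₀ h₀ e he s) N
  have hXd2 : ∀ s, HasDerivAt (fun s => q (S.dXm (geo y₀ e s) (geo' y₀ e s)) N)
      (q (S.a ^ 2 • S.Xm (geo y₀ e s)
        + q (S.dNm (geo y₀ e s) (geo' y₀ e s)) (S.dXm (geo y₀ e s) (geo' y₀ e s)) • S.Nm (geo y₀ e s)) N) s :=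
    fun s => li_q_hasDeriv (S.cm.geodX y₀ h₀ e he s) N
  have hwd : ∀ s, HasDerivAt (fun s => -q (S.Xm (geo y₀ e s)) ξ)
      (-q (S.dXm (geo y₀ e s) (geo' y₀ e s)) ξ) s := fun s => (li_q_hasDeriv (S.cm.geoX y₀ h₀ e he s) ξ).neg
  have h2 : ∀ s, q (S.a ^ 2 • S.Xm (geo y₀ e s)
        + q (S.dNm (geo y₀ e s) (geo' y₀ e s)) (S.dXm (geo y₀ e s) (geo' y₀ e s)) • S.Nm (geo y₀ e s)) N
        ≤ S.a ^ 2 * q (S.Xm (geo y₀ e s)) N := by
    intro s
    rw [li_q_add_left, li_q_smul_left, li_q_smul_left]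
    have h3 := II_nonneg S.cm S.mm (hmem s) (hut s)
    have h4 := hneg _ (hmem s)
    nlinarith
  have hv0 := li_min_principle hXd hXd2 S.cm.a_pos hd0 h2 (by rw [(geo_zero y₀ e).1]; exact hv₀)
    (by rw [hde]; exact hv₁)
  have hm2 : 0 < 1 - m ^ 2 := by nlinarith
  have key := lyapunov S.cm.a_pos hm0 hm1 hd0 hXd hXd2 hwd (fun s _ => h2 s) hv0
    (fun s _ => hm _ (hmem s)) (fun s _ => hw s) (by
      intro s hs
      have hv2 : (q (S.Xm (geo y₀ e s)) N) ^ 2 < 1 := by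
        have h5 := hv0 s hs
        have h6 := hm _ (hmem s)
        nlinarith
      refine w_deriv (Y := S.Xm (geo y₀ e s)) (Y1 := S.dXm (geo y₀ e s) (geo' y₀ e s)) (N := N) (ξ := ξ) hNN
        (S.cm.XX _ (hmem s)) (S.cm.XdX _ (hmem s) _ (hut s).1) ?_ hξ.2.1 hξN rfl rfl rfl rfl (hw s) hv2
      rw [S.cm.metric _ (hmem s) _ _ (hut s).1 (hut s).1, (hut s).2, mul_one])
  simp only [hde, (geo_zero y₀ e).1] at key
  refine key.trans ?_
  have hw0 : 0 < -q (S.Xm y₀) ξ := by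
    have := hw 0
    rwa [(geo_zero y₀ e).1] at this
  have hsq : 0 < Real.sqrt (1 - m ^ 2) := Real.sqrt_pos.2 hm2
  have hC : 0 ≤ (1 + m) / (1 - m) / Real.sqrt (1 - m ^ 2) := by
    have : 0 < 1 - m := by linarith
    positivity
  apply mul_le_mul_of_nonneg_right _ hw0.le
  apply mul_le_mul_of_nonneg_left _ hC
  apply Real.exp_le_exp.2
  apply div_le_div_of_nonneg_right _ hsq.le
  exact mul_le_mul_of_nonneg_left hdD S.cm.a_pos.le

end A_lower_ineq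

alias lower_ineq := A_lower_ineq.lower_ineq

namespace A_m_eq

theorem m_eq_q_add (X Y Z : V4) : q (X + Y) Z = q X Z + q Y Z := by
  simp only [q, Pi.add_apply]; ring

theorem m_eq_q_smul (c : ℝ) (X Z : V4) : q (c • X) Z = c * q X Z := by
  simp only [q, Pi.smul_apply, smul_eq_mul]; ring

theorem m_eq_q_comm (X Z : V4) : q X Z = q Z X := by
  simp only [q]; ring

theorem m_eq_eta_comm (x y : V3) : eta x y = eta y x := by
  simp only [eta]; ring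

/- Proof:
Take (N,y0) from exists_max, m = q (Xm y0) N, xi1, xi2 from leaf. max_props: m^2 <= 1-a^2. Suppose m^2 < 1 - a^2, i.e. l := a/sqrt(1-m^2) < 1. Choose d > 0 with l sqrt(2(cosh d -1)) < d (sinh_small), e := sqrt(2(cosh d - 1)). For s real apply vertical to (e^s xi1, e^-s xi2) (Lam_smul): x_s in H2; by chord_step -eta x_{kd} x_{(k+1)d} <= cosh e, so by H2_triangle -eta x_0 x_{nd} <= cosh(n e). For s = 0 and s = nd let y_s be from foot_m (nu_neg gives hneg); -q (Xp x_s)(e^s xi1 + e^-s xi2) = 1/sqrt(1+t^2) <= 1 [q (e^s xi1+e^-s xi2) (itself) = -1, q . N = 0], so dist_bound: -eta y_s x_s <= cosh D0. Hence -eta y_0 y_{nd} <= cosh(n e + 2 D0). lower_ineq with xi = xi2 and w_lower: c1 e^{nd} <= -q (Xm y_{nd}) xi2 <= K exp(l (n e + 2 D0)) (-q (Xm y_0) xi2). As l e < d this is false for n large (y_0 does not depend on n).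
-/
theorem m_eq (S : Setup) : ∃ N ∈ Dual S, ∃ y ∈ H2, 0 < q (S.Xm y) N ∧ (q (S.Xm y) N) ^ 2 = 1 - S.a ^ 2 ∧
    (∀ y' ∈ H2, q (S.Xm y') N ≤ q (S.Xm y) N) ∧ (∀ y' ∈ H2, q (S.Nm y') N < 0) ∧
    ∃ ξ ∈ Lam S, q ξ N = 0 := by
  obtain ⟨N, hN, y0, hy0, hm, hmax⟩ := exists_max S
  obtain ⟨⟨ξ₁, h₁, ξ₂, h₂, h1N, h2N, h12⟩, -⟩ := leaf S hN hy0 hm hmax
  have hmaxy : ∀ y' ∈ H2, q (S.Xm y') N ≤ q (S.Xm y0) N := fun y' hy' => hmax N hN y' hy'
  obtain ⟨hm2, -, -, -⟩ := max_props S hN hy0 hm hmaxy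
  have hneg : ∀ y ∈ H2, q (S.Nm y) N < 0 := fun y hy => nu_neg S hN hy0 hm hmax hy
  refine ⟨N, hN, y0, hy0, hm, ?_, hmaxy, hneg, ξ₁, h₁, h1N⟩
  by_contra hne
  set m := q (S.Xm y0) N with hmdef
  have hlt : m ^ 2 < 1 - S.a ^ 2 := lt_of_le_of_ne hm2 hne
  have ha : 0 < S.a := S.cm.a_pos
  have hNN : q N N = -1 := hN.1
  have hR2 : 0 < 1 - m ^ 2 := by nlinarith
  have hm1 : m < 1 := by nlinarith
  set R := Real.sqrt (1 - m ^ 2) with hRdef
  have hR : 0 < R := Real.sqrt_pos.2 hR2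
  have haR : S.a < R := by
    rw [hRdef]
    apply Real.lt_sqrt_of_sq_lt
    linarith
  have hl0 : 0 < S.a / R := div_pos ha hR
  have hl1 : S.a / R < 1 := (div_lt_one hR).2 haR
  obtain ⟨d, hd, hd2⟩ := sinh_small hl0 hl1
  set l := S.a / R with hldef
  set e := Real.sqrt (2 * (Real.cosh d - 1)) with hedef
  have he : 0 ≤ e := Real.sqrt_nonneg _
  have L1 : ∀ s : ℝ, Real.exp s • ξ₁ ∈ Lam S := fun s => Lam_smul S h₁ (Real.exp_pos s)
  have L2 : ∀ s : ℝ, Real.exp (-s) • ξ₂ ∈ Lam S := fun s => Lam_smul S h₂ (Real.exp_pos _)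
  have hexp : ∀ s : ℝ, Real.exp s * Real.exp (-s) = 1 := by
    intro s; rw [← Real.exp_add]; simp
  have Lq : ∀ s : ℝ, q (Real.exp s • ξ₁) (Real.exp (-s) • ξ₂) = -1/2 := by
    intro s
    rw [m_eq_q_smul, m_eq_q_comm, m_eq_q_smul, m_eq_q_comm, h12, ← mul_assoc, hexp s, one_mul]
  have L1N : ∀ s : ℝ, q (Real.exp s • ξ₁) N = 0 := by
    intro s; rw [m_eq_q_smul, h1N, mul_zero]
  have L2N : ∀ s : ℝ, q (Real.exp (-s) • ξ₂) N = 0 := by
    intro s; rw [m_eq_q_smul, h2N, mul_zero]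
  have hvert : ∀ s : ℝ, ∃ x ∈ H2, ∃ t : ℝ, 0 < t ∧
      Real.exp s • ξ₁ + Real.exp (-s) • ξ₂ + t • N = Real.sqrt (1 + t ^ 2) • S.Xp x :=
    fun s => vertical S hN (L1 s) (L2 s) (Lq s) (L1N s) (L2N s)
  choose x hx t ht hxt using hvert
  have hfoot : ∀ s : ℝ, ∃ y ∈ H2, 0 ≤ q (S.Xm y) N ∧
      -q (S.Xm y) (Real.exp s • ξ₁ + Real.exp (-s) • ξ₂) ≤ 1 :=
    fun s => foot_m S hneg (L1 s) (L2 s) (Lq s) (L1N s) (L2N s)
  choose y hy hyN hyq using hfoot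
  have hchord : ∀ s s' : ℝ, -eta (x s) (x s') ≤
      Real.cosh (Real.sqrt (2 * (Real.cosh (s - s') - 1))) := fun s s' =>
    chord_step S hN h₁ h₂ h12 h1N h2N (hx s) (hx s') (ht s) (ht s') (hxt s) (hxt s')
  have hself : ∀ z ∈ H2, -eta z z = 1 := by
    intro z hz
    rw [hz.1]; norm_num
  have hchain : ∀ n : ℕ, -eta (x 0) (x ((n : ℝ) * d)) ≤ Real.cosh ((n : ℝ) * e) := by
    intro n
    induction n with
    | zero =>
      simp only [Nat.cast_zero, zero_mul, Real.cosh_zero]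
      rw [hself _ (hx 0)]
    | succ n ih =>
      have h1 := hchord ((n : ℝ) * d) (((n + 1 : ℕ) : ℝ) * d)
      have h2 : (n : ℝ) * d - ((n + 1 : ℕ) : ℝ) * d = -d := by push_cast; ring
      rw [h2, Real.cosh_neg, ← hedef] at h1
      have h3 := H2_triangle (hx 0) (hx ((n : ℝ) * d)) (hx (((n + 1 : ℕ) : ℝ) * d))
        (mul_nonneg (Nat.cast_nonneg n) he) he ih h1
      have h4 : (n : ℝ) * e + e = ((n + 1 : ℕ) : ℝ) * e := by push_cast; ring
      rwa [h4] at h3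
  have hq0 : ∀ ξ ∈ Lam S, q ξ ξ = 0 := fun ξ hξ => hξ.2.1
  have hXp : ∀ s : ℝ, -q (S.Xp (x s)) (Real.exp s • ξ₁ + Real.exp (-s) • ξ₂) ≤ 1 := by
    intro s
    have hsq : 1 ≤ Real.sqrt (1 + t s ^ 2) := by
      rw [Real.one_le_sqrt]; nlinarith [sq_nonneg (t s)]
    have e1 := congrArg (fun Z => q Z (Real.exp s • ξ₁ + Real.exp (-s) • ξ₂)) (hxt s)
    rw [m_eq_q_smul, m_eq_q_add, m_eq_q_add, m_eq_q_smul (t s)] at e1
    have e2 : ∀ A : V4, q A (Real.exp s • ξ₁ + Real.exp (-s) • ξ₂) =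
        q A (Real.exp s • ξ₁) + q A (Real.exp (-s) • ξ₂) := by
      intro A
      rw [m_eq_q_comm, m_eq_q_add, m_eq_q_comm, m_eq_q_comm (Real.exp (-s) • ξ₂)]
    have e3 : q (Real.exp s • ξ₁) (Real.exp s • ξ₁) = 0 := hq0 _ (L1 s)
    have e4 : q (Real.exp (-s) • ξ₂) (Real.exp (-s) • ξ₂) = 0 := hq0 _ (L2 s)
    rw [e2 (Real.exp s • ξ₁), e2 (Real.exp (-s) • ξ₂), e2 N, e3, e4, Lq s,
      m_eq_q_comm (Real.exp (-s) • ξ₂) (Real.exp s • ξ₁), Lq s, m_eq_q_comm N, L1N s,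
      m_eq_q_comm N, L2N s] at e1
    nlinarith [e1, hsq]
  obtain ⟨D₀, hD₀, hdist⟩ := dist_bound S
  have hyx : ∀ s : ℝ, -eta (y s) (x s) ≤ Real.cosh D₀ := fun s =>
    hdist _ (L1 s) _ (L2 s) (Lq s) (y s) (hy s) (x s) (hx s) (hyq s) (hXp s)
  have hyy : ∀ n : ℕ, -eta (y 0) (y ((n : ℝ) * d)) ≤ Real.cosh (D₀ + (n : ℝ) * e + D₀) := by
    intro n
    have hne0 : 0 ≤ (n : ℝ) * e := mul_nonneg (Nat.cast_nonneg n) he
    have h1 := H2_triangle (hy 0) (hx 0) (hx ((n : ℝ) * d)) hD₀ hne0 (hyx 0) (hchain n)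
    have h2 : -eta (x ((n : ℝ) * d)) (y ((n : ℝ) * d)) ≤ Real.cosh D₀ := by
      rw [m_eq_eta_comm]; exact hyx _
    exact H2_triangle (hy 0) (hx ((n : ℝ) * d)) (hy ((n : ℝ) * d)) (by linarith) hD₀ h1 h2
  obtain ⟨c₁, hc₁, hw⟩ := w_lower S
  set C := -q (S.Xm (y 0)) ξ₂ with hCdef
  set K := (1 + m) / (1 - m) / R with hKdef
  have key : ∀ n : ℕ, c₁ * Real.exp ((n : ℝ) * d) ≤
      K * Real.exp (S.a * (D₀ + (n : ℝ) * e + D₀) / R) * C := by
    intro n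
    have hne0 : 0 ≤ (n : ℝ) * e := mul_nonneg (Nat.cast_nonneg n) he
    have h1 := hw ξ₁ h₁ ξ₂ h₂ h12 ((n : ℝ) * d) (y ((n : ℝ) * d)) (hy _) (hyq _)
    have h2 := lower_ineq S hNN hneg hm hm1 hmaxy h₂ h2N (hy 0) (hy ((n : ℝ) * d)) (hyN 0)
      (hyN _) (D := D₀ + (n : ℝ) * e + D₀) (by linarith) (hyy n)
    exact h1.trans h2
  have hgap : 0 < d - l * e := by linarith
  -- bounded growth
  set M := K * Real.exp (l * (2 * D₀)) * C with hMdef
  have key2 : ∀ n : ℕ, c₁ * Real.exp ((n : ℝ) * (d - l * e)) ≤ M := by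
    intro n
    have h1 := key n
    have h2 : S.a * (D₀ + (n : ℝ) * e + D₀) / R = l * (2 * D₀) + (n : ℝ) * (l * e) := by
      rw [hldef]; field_simp; ring
    rw [h2, Real.exp_add] at h1
    have h3 : Real.exp ((n : ℝ) * d) =
        Real.exp ((n : ℝ) * (d - l * e)) * Real.exp ((n : ℝ) * (l * e)) := by
      rw [← Real.exp_add]; congr 1; ring
    rw [h3] at h1
    have hp : 0 < Real.exp ((n : ℝ) * (l * e)) := Real.exp_pos _
    have h4 : c₁ * Real.exp ((n : ℝ) * (d - l * e)) * Real.exp ((n : ℝ) * (l * e)) ≤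
        M * Real.exp ((n : ℝ) * (l * e)) := by
      calc c₁ * Real.exp ((n : ℝ) * (d - l * e)) * Real.exp ((n : ℝ) * (l * e))
          = c₁ * (Real.exp ((n : ℝ) * (d - l * e)) * Real.exp ((n : ℝ) * (l * e))) := by ring
        _ ≤ K * (Real.exp (l * (2 * D₀)) * Real.exp ((n : ℝ) * (l * e))) * C := h1
        _ = M * Real.exp ((n : ℝ) * (l * e)) := by rw [hMdef]; ring
    exact le_of_mul_le_mul_right h4 hp
  obtain ⟨n, hn⟩ := exists_nat_gt (M / c₁ / (d - l * e))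
  have h5 := key2 n
  have h6 : (n : ℝ) * (d - l * e) + 1 ≤ Real.exp ((n : ℝ) * (d - l * e)) :=
    Real.add_one_le_exp _
  rw [div_lt_iff₀ hgap, div_lt_iff₀ hc₁] at hn
  nlinarith

end A_m_eq

alias m_eq := A_m_eq.m_eq

end Helper935.AdS
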