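import Pool.Agent.Helper935_AdS.Comp
import Pool.Agent.Helper935_AdS.LamC

namespace Helper935.AdS

namespace A_plus2

theorem plus2_q_add_left (X Y Z : V4) : q (X + Y) Z = q X Z + q Y Z := by
  simp only [q, Pi.add_apply]; ring

theorem plus2_q_add_right (X Y Z : V4) : q X (Y + Z) = q X Y + q X Z := by
  simp only [q, Pi.add_apply]; ring

theorem plus2_q_smul_left (c : ℝ) (X Z : V4) : q (c • X) Z = c * q X Z := by
  simp only [q, Pi.smul_apply, smul_eq_mul]; ring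

theorem plus2_q_smul_right (c : ℝ) (X Z : V4) : q X (c • Z) = c * q X Z := by
  simp only [q, Pi.smul_apply, smul_eq_mul]; ring

theorem plus2_q_comm (X Y : V4) : q X Y = q Y X := by
  simp only [q]; ring

theorem plus2_eta_le {x y : V3} (hx : x ∈ H2) (hy : y ∈ H2) : eta x y ≤ -1 := by
  obtain ⟨h1, h2⟩ := hx
  obtain ⟨h3, h4⟩ := hy
  unfold eta at *
  have h5 : (x 1 * y 1 + x 2 * y 2 + 1) ^ 2 ≤ (x 0 * y 0) ^ 2 := by
    have e1 : x 0 ^ 2 = 1 + (x 1 ^ 2 + x 2 ^ 2) := by nlinarith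
    have e2 : y 0 ^ 2 = 1 + (y 1 ^ 2 + y 2 ^ 2) := by nlinarith
    rw [mul_pow, e1, e2]
    nlinarith [sq_nonneg (x 1 * y 2 - x 2 * y 1), sq_nonneg (x 1 - y 1), sq_nonneg (x 2 - y 2)]
  have h6 := abs_le_of_sq_le_sq h5 (by positivity)
  have h7 := le_abs_self (x 1 * y 1 + x 2 * y 2 + 1)
  linarith

/-- vertical points -/
def plus2_Vert (S : Setup2) (N ξ₁ ξ₂ : V4) (s : ℝ) (x : V3) (t : ℝ) : Prop :=
  x ∈ H2 ∧ 0 < t ∧ Real.exp s • ξ₁ + Real.exp (-s) • ξ₂ + t • N = Real.sqrt (1 + t ^ 2) • S.p.X x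

section
variable {S : Setup2} {N ξ₁ ξ₂ : V4}

theorem plus2_gg (h11 : q ξ₁ ξ₁ = 0) (h22 : q ξ₂ ξ₂ = 0) (h : q ξ₁ ξ₂ = -1/2) (s s' : ℝ) :
    q (Real.exp s • ξ₁ + Real.exp (-s) • ξ₂) (Real.exp s' • ξ₁ + Real.exp (-s') • ξ₂) =
      -Real.cosh (s - s') := by
  have h21 : q ξ₂ ξ₁ = -1/2 := by rw [plus2_q_comm, h]
  simp only [plus2_q_add_left, plus2_q_add_right, plus2_q_smul_left, plus2_q_smul_right, h11, h22, h, h21]
  rw [Real.cosh_eq, neg_sub, sub_eq_add_neg, sub_eq_add_neg, Real.exp_add, Real.exp_add]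
  ring

theorem plus2_gN (h1N : q ξ₁ N = 0) (h2N : q ξ₂ N = 0) (s : ℝ) :
    q (Real.exp s • ξ₁ + Real.exp (-s) • ξ₂) N = 0 := by
  simp only [plus2_q_add_left, plus2_q_smul_left, h1N, h2N]
  ring

theorem plus2_exists (hN : N ∈ Dual2 S) (h₁ : ξ₁ ∈ Lam2 S) (h₂ : ξ₂ ∈ Lam2 S)
    (h : q ξ₁ ξ₂ = -1/2) (h1N : q ξ₁ N = 0) (h2N : q ξ₂ N = 0) (s : ℝ) :
    ∃ x t, plus2_Vert S N ξ₁ ξ₂ s x t := by
  obtain ⟨x, hx, t, ht, he⟩ := vertical2 S hN (Lam_smul2 S h₁ (Real.exp_pos s))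
    (Lam_smul2 S h₂ (Real.exp_pos (-s)))
    (by rw [plus2_q_smul_left, plus2_q_smul_right, h, ← mul_assoc, ← Real.exp_add]; simp)
    (by rw [plus2_q_smul_left, h1N, mul_zero]) (by rw [plus2_q_smul_left, h2N, mul_zero])
  exact ⟨x, t, hx, ht, he⟩

theorem plus2_XN (hN : N ∈ Dual2 S) (h1N : q ξ₁ N = 0) (h2N : q ξ₂ N = 0) {s : ℝ} {x : V3} {t : ℝ}
    (hv : plus2_Vert S N ξ₁ ξ₂ s x t) : Real.sqrt (1 + t ^ 2) * q (S.p.X x) N = -t := by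
  rw [← plus2_q_smul_left, ← hv.2.2, plus2_q_add_left, plus2_gN h1N h2N, plus2_q_smul_left, hN.1]
  ring

theorem plus2_Xg (hN : N ∈ Dual2 S) (h11 : q ξ₁ ξ₁ = 0) (h22 : q ξ₂ ξ₂ = 0)
    (h : q ξ₁ ξ₂ = -1/2) (h1N : q ξ₁ N = 0) (h2N : q ξ₂ N = 0) {s : ℝ} {x : V3} {t : ℝ}
    (hv : plus2_Vert S N ξ₁ ξ₂ s x t) :
    Real.sqrt (1 + t ^ 2) * q (S.p.X x) (Real.exp s • ξ₁ + Real.exp (-s) • ξ₂) = -1 := by
  rw [← plus2_q_smul_left, ← hv.2.2, plus2_q_add_left, plus2_gg h11 h22 h, plus2_q_smul_left,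
    plus2_q_comm N, plus2_gN h1N h2N]
  simp

theorem plus2_WE (hN : N ∈ Dual2 S) (h11 : q ξ₁ ξ₁ = 0) (h22 : q ξ₂ ξ₂ = 0)
    (h : q ξ₁ ξ₂ = -1/2) (h1N : q ξ₁ N = 0) (h2N : q ξ₂ N = 0) {s s' : ℝ} {x x' : V3} {t t' : ℝ}
    (hv : plus2_Vert S N ξ₁ ξ₂ s x t) (hv' : plus2_Vert S N ξ₁ ξ₂ s' x' t') :
    WE S.p x (Real.arsinh t) x' (Real.arsinh t') = Real.cosh (s - s') - 1 := by
  unfold WE
  rw [Real.cosh_arsinh, Real.cosh_arsinh, Real.sinh_arsinh, Real.sinh_arsinh]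
  have h3 : Real.sqrt (1 + t ^ 2) * Real.sqrt (1 + t' ^ 2) * q (S.p.X x) (S.p.X x') =
      -Real.cosh (s - s') - t * t' := by
    have : Real.sqrt (1 + t ^ 2) * Real.sqrt (1 + t' ^ 2) * q (S.p.X x) (S.p.X x') =
        q (Real.sqrt (1 + t ^ 2) • S.p.X x) (Real.sqrt (1 + t' ^ 2) • S.p.X x') := by
      rw [plus2_q_smul_left, plus2_q_smul_right]; ring
    have hgen : ∀ A A' : V4, q (A + t • N) (A' + t' • N) = q A A' + t' * q A N + t * q A' N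
        + t * t' * q N N := by
      intro A A'
      simp only [q, Pi.add_apply, Pi.smul_apply, smul_eq_mul]; ring
    rw [this, ← hv.2.2, ← hv'.2.2, hgen, plus2_gg h11 h22 h, plus2_gN h1N h2N, plus2_gN h1N h2N, hN.1]
    ring
  rw [h3]
  ring

theorem plus2_sp (hN : N ∈ Dual2 S) (h₁ : ξ₁ ∈ Lam2 S) (h1N : q ξ₁ N = 0) (h2N : q ξ₂ N = 0)
    {s : ℝ} {x : V3} {t : ℝ} (hv : plus2_Vert S N ξ₁ ξ₂ s x t) :
    Real.sqrt (1 + t ^ 2) * S.sp x ≤ t := by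
  have h1 := upper2 S hN h₁ h1N hv.1
  have h2 := plus2_XN hN h1N h2N hv
  have h3 : 0 < Real.sqrt (1 + t ^ 2) := Real.sqrt_pos.2 (by positivity)
  have h4 := mul_le_mul_of_nonneg_left h1 h3.le
  linarith

theorem plus2_FF (hN : N ∈ Dual2 S) (h₁ : ξ₁ ∈ Lam2 S) (h1N : q ξ₁ N = 0) (h2N : q ξ₂ N = 0)
    {s : ℝ} {x : V3} {t : ℝ} (hv : plus2_Vert S N ξ₁ ξ₂ s x t) :
    0 ≤ FF S.p0 EE x (Real.arsinh t) := by
  unfold FF
  rw [Real.cosh_arsinh, Real.sinh_arsinh, ((heights S).1 x hv.1).2.1]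
  have := plus2_sp hN h₁ h1N h2N hv
  linarith

/-- the base point parameter -/
noncomputable def plus2_sig (S : Setup2) (x : V3) : ℝ := Real.arsinh (S.sp x / S.cp x)

theorem plus2_cosh_sig (S : Setup2) {x : V3} (hx : x ∈ H2) :
    Real.cosh (plus2_sig S x) = (S.cp x)⁻¹ := by
  unfold plus2_sig
  rw [Real.cosh_arsinh]
  have h1 := ((heights S).1 x hx).2.2.2
  have h2 := S.cp_pos x hx
  rw [show 1 + (S.sp x / S.cp x) ^ 2 = ((S.cp x)⁻¹) ^ 2 from by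
    field_simp; linarith]
  exact Real.sqrt_sq (by positivity)

theorem plus2_FF0 (S : Setup2) {x : V3} (hx : x ∈ H2) : FF S.p0 EE x (plus2_sig S x) = 0 := by
  unfold FF
  rw [plus2_cosh_sig S hx, ((heights S).1 x hx).2.1]
  unfold plus2_sig
  rw [Real.sinh_arsinh]
  field_simp
  ring

theorem plus2_zz (S : Setup2) {x : V3} (hx : x ∈ H2) : zz S.p0 EE x (plus2_sig S x) = emb x 0 := by
  unfold zz
  rw [plus2_cosh_sig S hx, S.X0p x hx]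
  unfold plus2_sig
  rw [Real.sinh_arsinh]
  have h2 := (S.cp_pos x hx).ne'
  ext i
  fin_cases i <;> simp [emb, EE] <;> field_simp
  ring

theorem plus2_sig_bd (hN : N ∈ Dual2 S) (h₁ : ξ₁ ∈ Lam2 S) (h1N : q ξ₁ N = 0) (h2N : q ξ₂ N = 0)
    {s : ℝ} {x : V3} {t : ℝ} (hv : plus2_Vert S N ξ₁ ξ₂ s x t) {B : ℝ}
    (hB0 : 0 ≤ B) (hB : Real.sqrt (1 + t ^ 2) ≤ Real.cosh B) :
    |plus2_sig S x - Real.arsinh t| ≤ B := by
  have h1 := plus2_sp hN h₁ h1N h2N hv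
  have h2 := S.cp_pos x hv.1
  have h3 := S.sp_pos x hv.1
  have h4 := ((heights S).1 x hv.1).2.2.2
  have ht := hv.2.1
  have h5 : S.sp x / S.cp x ≤ t := by
    rw [div_le_iff₀ h2]
    have e1 : (Real.sqrt (1 + t ^ 2) * S.sp x) ^ 2 ≤ t ^ 2 := by
      have : 0 ≤ Real.sqrt (1 + t ^ 2) * S.sp x := by positivity
      gcongr
    rw [mul_pow, Real.sq_sqrt (by positivity)] at e1
    have e2 : S.sp x ^ 2 ≤ (t * S.cp x) ^ 2 := by
      rw [mul_pow]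
      nlinarith
    exact le_of_sq_le_sq e2 (by positivity)
  have h6 : 0 ≤ plus2_sig S x := by
    unfold plus2_sig
    rw [Real.arsinh_nonneg_iff]
    positivity
  have h7 : plus2_sig S x ≤ Real.arsinh t := by
    unfold plus2_sig
    exact Real.arsinh_le_arsinh.2 h5
  have h8 : Real.arsinh t ≤ B := by
    have h9 : Real.cosh (Real.arsinh t) ≤ Real.cosh B := by
      rw [Real.cosh_arsinh]; exact hB
    have h10 := Real.cosh_le_cosh.1 h9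
    rw [abs_of_nonneg hB0] at h10
    exact (le_abs_self _).trans h10
  rw [abs_le]
  constructor <;> linarith

end

theorem plus2 (S : Setup2) {N : V4} (hN : N ∈ Dual2 S) {ξ₁ ξ₂ : V4} (h₁ : ξ₁ ∈ Lam2 S) (h₂ : ξ₂ ∈ Lam2 S)
    (h : q ξ₁ ξ₂ = -1/2) (h1N : q ξ₁ N = 0) (h2N : q ξ₂ N = 0) {η : ℝ} (hη : 0 < η) :
    ∃ δ C : ℝ, 0 < δ ∧ 0 ≤ C ∧ ∀ n : ℕ, 0 < n → ∀ x ∈ H2, ∀ x' ∈ H2, ∀ t t' : ℝ, 0 < t → 0 < t' →
      ξ₁ + ξ₂ + t • N = Real.sqrt (1 + t ^ 2) • S.p.X x →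
      Real.exp (n * δ) • ξ₁ + Real.exp (-(n * δ)) • ξ₂ + t' • N = Real.sqrt (1 + t' ^ 2) • S.p.X x' →
      -eta x x' ≤ Real.cosh ((1 + η) * (n * δ) + C) := by
  have h11 : q ξ₁ ξ₁ = 0 := h₁.2.1
  have h22 : q ξ₂ ξ₂ = 0 := h₂.2.1
  obtain ⟨e, he0, he1, he3⟩ : ∃ e : ℝ, 0 < e ∧ e ≤ 1 ∧ (1 + e) ^ 3 ≤ 1 + η := by
    refine ⟨min 1 (η / 7), by positivity, min_le_left _ _, ?_⟩
    have a1 : min 1 (η / 7) ≤ 1 := min_le_left _ _
    have a2 : min 1 (η / 7) ≤ η / 7 := min_le_right _ _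
    have a3 : 0 < min 1 (η / 7) := by positivity
    generalize min 1 (η / 7) = e at a1 a2 a3
    have b1 : e ^ 2 ≤ e := by nlinarith
    have b2 : e ^ 3 ≤ e := by
      have : e ^ 3 = e * e ^ 2 := by ring
      nlinarith
    nlinarith
  obtain ⟨δ1, hδ1, hcomp⟩ := we_comp S he0
  obtain ⟨δ2, hδ2, hδ2', hsm⟩ := cosh_small he0
  obtain ⟨c₀, hc₀, hfl⟩ := f_lower2 S
  obtain ⟨δ, hδ0, hδa, hδb, hδc⟩ : ∃ δ : ℝ, 0 < δ ∧ δ ≤ δ2 ∧ 2 * δ ≤ δ1 ∧ 2 * δ ≤ 1 / 4 := by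
    refine ⟨min δ2 (min (δ1 / 2) (1 / 8)), by positivity, min_le_left _ _, ?_, ?_⟩
    · have : min δ2 (min (δ1 / 2) (1 / 8)) ≤ δ1 / 2 := (min_le_right _ _).trans (min_le_left _ _)
      linarith
    · have : min δ2 (min (δ1 / 2) (1 / 8)) ≤ 1 / 8 := (min_le_right _ _).trans (min_le_right _ _)
      linarith
  have hsq : 2 * (Real.cosh δ - 1) ≤ ((1 + e) * δ) ^ 2 := by
    have a1 := hsm δ hδ0.le hδa
    have a2 : 0 ≤ 2 * (Real.cosh δ - 1) := by linarith [Real.one_le_cosh δ]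
    exact (Real.sqrt_le_left (by positivity)).1 a1
  have hcd : Real.cosh δ - 1 ≤ 2 * δ := by
    have a1 : ((1 + e) * δ) ^ 2 ≤ (2 * δ) ^ 2 := by gcongr; linarith
    nlinarith
  have hcd0 : 0 ≤ Real.cosh δ - 1 := by linarith [Real.one_le_cosh δ]
  obtain ⟨B, hB0, hB⟩ : ∃ B : ℝ, 0 ≤ B ∧ 1 / c₀ ≤ Real.cosh B := by
    refine ⟨2 / c₀, by positivity, ?_⟩
    have a1 := Real.add_one_le_exp (2 / c₀)
    have a2 := Real.exp_pos (-(2 / c₀))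
    rw [Real.cosh_eq]
    have a3 : 2 / c₀ = 2 * (1 / c₀) := by ring
    linarith
  have hEE : q EE EE = -1 := by simp [q, EE]
  obtain ⟨C, hC0, hC⟩ := md_len S.gp0 hEE S.n0p he0 hB0
  refine ⟨δ, C, hδ0, hC0, ?_⟩
  intro n hn x hx x' hx' t t' ht ht' hxt hxt'
  choose X T hXT using fun i : ℕ => plus2_exists hN h₁ h₂ h h1N h2N ((i : ℝ) * δ)
  obtain ⟨a, ha⟩ : ∃ a : ℕ → V3, a = fun i => if i = 0 then x else if i = n then x' else X i := ⟨_, rfl⟩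
  obtain ⟨b, hb⟩ : ∃ b : ℕ → ℝ, b = fun i => if i = 0 then t else if i = n then t' else T i := ⟨_, rfl⟩
  have ha0 : a 0 = x := by rw [ha]; simp
  have hb0 : b 0 = t := by rw [hb]; simp
  have han : a n = x' := by rw [ha]; simp [hn.ne']
  have hbn : b n = t' := by rw [hb]; simp [hn.ne']
  have hab : ∀ i : ℕ, plus2_Vert S N ξ₁ ξ₂ ((i : ℝ) * δ) (a i) (b i) := by
    intro i
    by_cases hi0 : i = 0
    · subst hi0
      rw [ha0, hb0]
      refine ⟨hx, ht, ?_⟩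
      simpa using hxt
    · by_cases hin : i = n
      · subst hin
        rw [han, hbn]
        exact ⟨hx', ht', hxt'⟩
      · have e1 : a i = X i := by rw [ha]; simp [hi0, hin]
        have e2 : b i = T i := by rw [hb]; simp [hi0, hin]
        rw [e1, e2]
        exact hXT i
  have hcb : ∀ i, Real.sqrt (1 + b i ^ 2) ≤ Real.cosh B := by
    intro i
    have a1 := plus2_Xg hN h11 h22 h h1N h2N (hab i)
    have a2 := (hfl _ (Lam_smul2 S h₁ (Real.exp_pos ((i : ℝ) * δ))) _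
      (Lam_smul2 S h₂ (Real.exp_pos (-((i : ℝ) * δ))))
      (by rw [plus2_q_smul_left, plus2_q_smul_right, h, ← mul_assoc, ← Real.exp_add]; simp)
      (a i) (hab i).1).2.2.1
    refine le_trans ?_ hB
    rw [le_div_iff₀ hc₀]
    have a3 : 0 < Real.sqrt (1 + b i ^ 2) := Real.sqrt_pos.2 (by positivity)
    have a4 := mul_le_mul_of_nonneg_left a2 a3.le
    linarith
  obtain ⟨w, hw⟩ : ∃ w : ℕ → V3 × ℝ, w = fun i => (a i, Real.arsinh (b i)) := ⟨_, rfl⟩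
  have hwi : ∀ i, w i = (a i, Real.arsinh (b i)) := fun i => by rw [hw]
  have hadm : Adm S.p0 EE n w := by
    intro i _
    rw [hwi]
    exact ⟨(hab i).1, plus2_FF hN h₁ h1N h2N (hab i)⟩
  have hterm : ∀ i : ℕ, WE S.p0 (w i).1 (w i).2 (w (i + 1)).1 (w (i + 1)).2 ≤ (1 + e) * (Real.cosh δ - 1) := by
    intro i
    rw [hwi, hwi]
    simp only
    have a1 := plus2_WE hN h11 h22 h h1N h2N (hab i) (hab (i + 1))
    have a2 : (i : ℝ) * δ - ((i + 1 : ℕ) : ℝ) * δ = -δ := by push_cast; ring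
    rw [a2, Real.cosh_neg] at a1
    have a3 := (hcomp (a i) (hab i).1 (a (i + 1)) (hab (i + 1)).1 (Real.arsinh (b i))
      (Real.arsinh (b (i + 1)))).2 (by rw [a1]; linarith)
    rwa [a1] at a3
  have hEn : En S.p0 n w ≤ n * ((1 + e) * (Real.cosh δ - 1)) := by
    unfold En
    have := Finset.sum_le_sum (fun i (_ : i ∈ Finset.range n) => hterm i)
    rwa [Finset.sum_const, Finset.card_range, nsmul_eq_mul] at this
  obtain ⟨U, hU0, hU⟩ : ∃ U : ℝ, 0 ≤ U ∧ Real.cosh U = -eta x x' := by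
    have a1 := plus2_eta_le hx hx'
    have a2 : ∃ b : ℝ, 0 ≤ b ∧ -eta x x' ≤ Real.cosh b := by
      refine ⟨2 * (-eta x x'), by linarith, ?_⟩
      have b1 := Real.add_one_le_exp (2 * (-eta x x'))
      have b2 := Real.exp_pos (-(2 * (-eta x x')))
      rw [Real.cosh_eq]
      linarith
    obtain ⟨b, hb1, hb2⟩ := a2
    have h3 := intermediate_value_Icc hb1 Real.continuous_cosh.continuousOn
    obtain ⟨d, hd, hd2⟩ := h3 ⟨by rw [Real.cosh_zero]; linarith, hb2⟩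
    exact ⟨d, hd.1, hd2⟩
  have hfinal := hC n hn ((1 + e) * (Real.cosh δ - 1)) (by positivity) (by nlinarith) w hadm hEn
    (plus2_sig S (a 0)) (plus2_sig S (a n))
    (by rw [hwi]; exact plus2_FF0 S (hab 0).1) (by rw [hwi]; exact plus2_FF0 S (hab n).1)
    (by rw [hwi]; exact plus2_sig_bd hN h₁ h1N h2N (hab 0) hB0 (hcb 0))
    (by rw [hwi]; exact plus2_sig_bd hN h₁ h1N h2N (hab n) hB0 (hcb n)) U hU0
    (by
      rw [hwi, hwi]
      simp only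
      rw [plus2_zz S (hab 0).1, plus2_zz S (hab n).1, ha0, han, hU]
      simp [q, eta, emb])
  rw [← hU]
  have hs2 : Real.sqrt (2 * ((1 + e) * (Real.cosh δ - 1))) ≤ (1 + e) ^ 2 * δ := by
    rw [Real.sqrt_le_left (by positivity)]
    calc 2 * ((1 + e) * (Real.cosh δ - 1)) = (1 + e) * (2 * (Real.cosh δ - 1)) := by ring
      _ ≤ (1 + e) * ((1 + e) * δ) ^ 2 := by gcongr
      _ = (1 + e) ^ 3 * δ ^ 2 := by ring
      _ ≤ (1 + e) ^ 4 * δ ^ 2 := by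
        gcongr
        · linarith
        · norm_num
      _ = _ := by ring
  have hU2 : U ≤ (1 + η) * (n * δ) + C := by
    calc U ≤ (1 + e) * (n * Real.sqrt (2 * ((1 + e) * (Real.cosh δ - 1)))) + C := hfinal
      _ ≤ (1 + e) * (n * ((1 + e) ^ 2 * δ)) + C := by gcongr
      _ = (1 + e) ^ 3 * (n * δ) + C := by ring
      _ ≤ (1 + η) * (n * δ) + C := by gcongr
  rw [Real.cosh_le_cosh, abs_of_nonneg hU0, abs_of_nonneg (hU0.trans hU2)]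
  exact hU2

end A_plus2

alias plus2 := A_plus2.plus2

end Helper935.AdS
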