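import Pool.Agent.Helper935_AdS.Defs2
import Pool.Agent.Helper935_AdS.Hyp
import Pool.Agent.Helper935_AdS.Lin
import Pool.Agent.Helper935_AdS.Ana

namespace Helper935.AdS

namespace A_to_lemma

/- Proof:
omega A U = q W U with W = ![A 3, 0, 0, -(A 0)]. Claim: if Y satisfies q A Y = 0 and omega A Y = 0 then 0 <= q Y Y: A0^2 + A3^2 > A1^2 + A2^2 (q A A < 0) so (A0,A3) is nonzero, omega A Y = 0 gives (Y0,Y3) = l (A0,A3), q A Y = 0 gives l (A0^2+A3^2) = A1 Y1 + A2 Y2, so by Cauchy-Schwarz l^2 (A0^2+A3^2)^2 <= (A1^2+A2^2)(Y1^2+Y2^2) <= (A0^2+A3^2)(Y1^2+Y2^2), i.e. q Y Y = Y1^2+Y2^2 - l^2 (A0^2+A3^2) >= 0.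
Now suppose omega A U * omega A V <= 0. If omega A V = 0 then the claim for V contradicts q V V < 0. Otherwise t = -(omega A U)/(omega A V) >= 0 and Y = U + t V has omega A Y = 0, q A Y = 0, but q Y Y = q U U + 2 t q U V + t^2 q V V < 0: contradiction with the claim.
-/
theorem to_claim_aux {A Y : V4} (hA : q A A < 0) (hY : q A Y = 0) (hw : omega A Y = 0) :
    0 ≤ q Y Y := by
  unfold q at *
  unfold omega at hw
  have hD : 0 < A 0 ^ 2 + A 3 ^ 2 := by nlinarith [sq_nonneg (A 1), sq_nonneg (A 2)]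
  have h1 : (A 0 ^ 2 + A 3 ^ 2) * (Y 0 ^ 2 + Y 3 ^ 2) = (A 1 * Y 1 + A 2 * Y 2) ^ 2 := by
    have e1 : A 1 * Y 1 + A 2 * Y 2 = A 0 * Y 0 + A 3 * Y 3 := by linarith
    rw [e1]
    have e2 : (A 0 ^ 2 + A 3 ^ 2) * (Y 0 ^ 2 + Y 3 ^ 2)
      = (A 0 * Y 0 + A 3 * Y 3) ^ 2 + (A 0 * Y 3 - A 3 * Y 0) ^ 2 := by ring
    rw [e2, hw]; ring
  have h2 : (A 1 * Y 1 + A 2 * Y 2) ^ 2 ≤ (A 1 ^ 2 + A 2 ^ 2) * (Y 1 ^ 2 + Y 2 ^ 2) := by
    nlinarith [sq_nonneg (A 1 * Y 2 - A 2 * Y 1)]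
  have h3 : (A 1 ^ 2 + A 2 ^ 2) * (Y 1 ^ 2 + Y 2 ^ 2)
      ≤ (A 0 ^ 2 + A 3 ^ 2) * (Y 1 ^ 2 + Y 2 ^ 2) := by
    apply mul_le_mul_of_nonneg_right
    · nlinarith
    · positivity
  have h4 : Y 0 ^ 2 + Y 3 ^ 2 ≤ Y 1 ^ 2 + Y 2 ^ 2 := by
    by_contra hlt
    push Not at hlt
    have := mul_lt_mul_of_pos_left hlt hD
    linarith
  nlinarith

theorem to_lemma {A U V : V4} (hA : q A A < 0) (hU : q A U = 0) (hV : q A V = 0) (hUU : q U U < 0)
    (hVV : q V V < 0) (hUV : q U V ≤ 0) : 0 < omega A U * omega A V := by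
  by_contra hcon
  push Not at hcon
  have hV0 : omega A V ≠ 0 := by
    intro h0
    have := to_claim_aux hA hV h0
    linarith
  set t : ℝ := -(omega A U) / (omega A V) with ht
  have htn : 0 ≤ t := by
    have : t = -(omega A U * omega A V) / (omega A V) ^ 2 := by
      rw [ht]; field_simp
    rw [this]
    apply div_nonneg
    · linarith
    · positivity
  have hw : omega A (U + t • V) = 0 := by
    have e : omega A (U + t • V) = omega A U + t * omega A V := by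
      simp only [omega, Pi.add_apply, Pi.smul_apply, smul_eq_mul]; ring
    rw [e, ht]
    field_simp
    ring
  have hq : q A (U + t • V) = 0 := by
    have e : q A (U + t • V) = q A U + t * q A V := by
      simp only [q, Pi.add_apply, Pi.smul_apply, smul_eq_mul]; ring
    rw [e, hU, hV]; ring
  have h := to_claim_aux hA hq hw
  have e : q (U + t • V) (U + t • V) = q U U + 2 * t * q U V + t ^ 2 * q V V := by
    simp only [q, Pi.add_apply, Pi.smul_apply, smul_eq_mul]; ring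
  rw [e] at h
  have h1 : 2 * t * q U V ≤ 0 := mul_nonpos_of_nonneg_of_nonpos (by linarith) hUV
  have h2 : t ^ 2 * q V V ≤ 0 := mul_nonpos_of_nonneg_of_nonpos (by positivity) hVV.le
  linarith

end A_to_lemma

alias to_lemma := A_to_lemma.to_lemma

namespace A_gon_exists

theorem gon3_q_add_left (X Y Z : V4) : q (X + Y) Z = q X Z + q Y Z := by
  simp only [q, Pi.add_apply]; ring
theorem gon3_q_add_right (X Y Z : V4) : q X (Y + Z) = q X Y + q X Z := by
  simp only [q, Pi.add_apply]; ring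
theorem gon3_q_smul_left (c : ℝ) (X Y : V4) : q (c • X) Y = c * q X Y := by
  simp only [q, Pi.smul_apply, smul_eq_mul]; ring
theorem gon3_q_smul_right (c : ℝ) (X Y : V4) : q X (c • Y) = c * q X Y := by
  simp only [q, Pi.smul_apply, smul_eq_mul]; ring
theorem gon3_q_comm (X Y : V4) : q X Y = q Y X := by
  simp only [q]; ring
theorem gon3_eta_add_right (x y z : V3) : eta x (y + z) = eta x y + eta x z := by
  simp only [eta, Pi.add_apply]; ring
theorem gon3_eta_smul_right (c : ℝ) (x y : V3) : eta x (c • y) = c * eta x y := by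
  simp only [eta, Pi.smul_apply, smul_eq_mul]; ring
theorem gon3_eta_comm (x y : V3) : eta x y = eta y x := by
  simp only [eta]; ring

/- Proof:
Take v1, v2 from exists_UT, exists_ON (an eta-orthonormal basis of the tangent plane), and apply Gram-Schmidt for the positive definite form g(v,w) = q (dX x v)(dX x w) on tangent vectors (bilinear by dX_add, dX_smul; positive on nonzero tangent vectors by pos): e1 = v1/sqrt(g(v1,v1)), w = v2 - g(v2,e1) e1 (nonzero as v1,v2 are independent), e2 = w/sqrt(g(w,w)).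
-/
theorem gon_exists {S : Sf} (h : Core2 S) {x : V3} (hx : x ∈ H2) : ∃ e₁ e₂, GON S x e₁ e₂ := by
  obtain ⟨v, hv⟩ := exists_UT hx
  obtain ⟨w, hw1, hw2, hw3, hw4, hw5⟩ := exists_ON hx hv
  have hv0 : v ≠ 0 := by
    rintro rfl
    simp [eta] at hw3
  have g1 := h.pos x hx v hw1 hv0
  generalize hA : q (S.dX x v) (S.dX x v) = A at g1
  generalize hB : q (S.dX x v) (S.dX x w) = B
  let u : V3 := w + (-(B / A)) • v
  have hu1 : eta x u = 0 := by
    show eta x (w + (-(B / A)) • v) = 0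
    rw [gon3_eta_add_right, gon3_eta_smul_right, hw1, hw2]; ring
  have hu0 : u ≠ 0 := by
    intro h0
    have h1 : eta w u = 1 := by
      show eta w (w + (-(B / A)) • v) = 1
      rw [gon3_eta_add_right, gon3_eta_smul_right, hw4, gon3_eta_comm w v, hw5]; ring
    rw [h0] at h1
    simp [eta] at h1
  have g2 := h.pos x hx u hu1 hu0
  have hdu : S.dX x u = S.dX x w + (-(B / A)) • S.dX x v := by
    show S.dX x (w + (-(B / A)) • v) = _
    rw [h.dX_add x hx, h.dX_smul x hx]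
  have g3 : q (S.dX x v) (S.dX x u) = 0 := by
    rw [hdu, gon3_q_add_right, gon3_q_smul_right, hA, hB]
    field_simp
    ring
  generalize hC : q (S.dX x u) (S.dX x u) = C at g2
  have s1 : Real.sqrt A * Real.sqrt A = A := Real.mul_self_sqrt g1.le
  have s2 : Real.sqrt C * Real.sqrt C = C := Real.mul_self_sqrt g2.le
  have p1 : Real.sqrt A ≠ 0 := (Real.sqrt_pos.2 g1).ne'
  have p2 : Real.sqrt C ≠ 0 := (Real.sqrt_pos.2 g2).ne'
  refine ⟨(Real.sqrt A)⁻¹ • v, (Real.sqrt C)⁻¹ • u, ?_, ?_, ?_, ?_, ?_⟩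
  · rw [gon3_eta_smul_right, hw1, mul_zero]
  · rw [gon3_eta_smul_right, hu1, mul_zero]
  · rw [h.dX_smul x hx, gon3_q_smul_left, gon3_q_smul_right, hA]
    field_simp
    nlinarith [s1]
  · rw [h.dX_smul x hx, gon3_q_smul_left, gon3_q_smul_right, hC]
    field_simp
    nlinarith [s2]
  · rw [h.dX_smul x hx, h.dX_smul x hx, gon3_q_smul_left, gon3_q_smul_right, g3]
    ring

end A_gon_exists

alias gon_exists := A_gon_exists.gon_exists

namespace A_gon_expand

theorem gon_q_add (A B C : V4) : q (A + B) C = q A C + q B C := by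
  simp only [q, Pi.add_apply]; ring

theorem gon_q_smul (a : ℝ) (A C : V4) : q (a • A) C = a * q A C := by
  simp only [q, Pi.smul_apply, smul_eq_mul]; ring

theorem gon_q_comm (A B : V4) : q A B = q B A := by
  simp only [q]; ring

theorem gon_lin {S : Sf} (h : Core2 S) {x : V3} (hx : x ∈ H2) (a b : ℝ) (u w : V3) (C : V4) :
    q (S.dX x (a • u + b • w)) C = a * q (S.dX x u) C + b * q (S.dX x w) C := by
  rw [h.dX_add x hx, h.dX_smul x hx, h.dX_smul x hx, gon_q_add, gon_q_smul, gon_q_smul]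

/- Proof:
e1, e2 are linearly independent tangent vectors (if a e1 + b e2 = 0 then a = g(0,e1) = 0, b = 0) in the tangent plane at x, which has dimension 2 (spanned by an ON basis, tangent_expand). So v = a e1 + b e2 and a = g(v,e1), b = g(v,e2), g(v,w) = q (dX x v)(dX x w) bilinear.
-/
theorem gon_expand {S : Sf} (h : Core2 S) {x e₁ e₂ v : V3} (hx : x ∈ H2) (he : GON S x e₁ e₂) (hv : eta x v = 0) :
    v = q (S.dX x v) (S.dX x e₁) • e₁ + q (S.dX x v) (S.dX x e₂) • e₂ := by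
  obtain ⟨he1, he2, g11, g22, g12⟩ := he
  have g21 : q (S.dX x e₂) (S.dX x e₁) = 0 := by rw [gon_q_comm]; exact g12
  obtain ⟨f1, hf1⟩ := exists_UT hx
  obtain ⟨f2, hf2⟩ := exists_ON hx hf1
  obtain ⟨a1, b1, h1⟩ : ∃ a b : ℝ, e₁ = a • f1 + b • f2 := ⟨_, _, tangent_expand hx hf2 he1⟩
  obtain ⟨a2, b2, h2⟩ : ∃ a b : ℝ, e₂ = a • f1 + b • f2 := ⟨_, _, tangent_expand hx hf2 he2⟩
  obtain ⟨c, d, h3⟩ : ∃ a b : ℝ, v = a • f1 + b • f2 := ⟨_, _, tangent_expand hx hf2 hv⟩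
  -- the determinant is not zero
  have hz : ∀ w : V4, q (S.dX x 0) w = 0 := by
    intro w
    have := gon_lin h hx 0 0 e₁ e₂ w
    simpa using this
  have hD : a1 * b2 - a2 * b1 ≠ 0 := by
    intro hD
    have e1 : b2 • e₁ + (-b1) • e₂ = 0 := by
      rw [h1, h2]
      ext i
      simp only [Pi.add_apply, Pi.smul_apply, smul_eq_mul, Pi.zero_apply]
      linear_combination (f1 i) * hD
    have e2 : a2 • e₁ + (-a1) • e₂ = 0 := by
      rw [h1, h2]
      ext i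
      simp only [Pi.add_apply, Pi.smul_apply, smul_eq_mul, Pi.zero_apply]
      linear_combination (-(f2 i)) * hD
    have c1 := gon_lin h hx b2 (-b1) e₁ e₂ (S.dX x e₂)
    have c2 := gon_lin h hx a2 (-a1) e₁ e₂ (S.dX x e₂)
    rw [e1, hz, g12, g22] at c1
    rw [e2, hz, g12, g22] at c2
    have hb1 : b1 = 0 := by linarith
    have ha1 : a1 = 0 := by linarith
    rw [ha1, hb1, zero_smul, zero_smul, add_zero] at h1
    rw [h1, hz] at g11
    norm_num at g11
  have hDv : (a1 * b2 - a2 * b1) • v = (c * b2 - d * a2) • e₁ + (d * a1 - c * b1) • e₂ := by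
    rw [h1, h2, h3]
    ext i
    simp only [Pi.add_apply, Pi.smul_apply, smul_eq_mul]
    ring
  have k1 : (a1 * b2 - a2 * b1) * q (S.dX x v) (S.dX x e₁) = c * b2 - d * a2 := by
    have t1 := gon_lin h hx (a1 * b2 - a2 * b1) 0 v v (S.dX x e₁)
    rw [zero_smul, add_zero, hDv, gon_lin h hx, g11, g21] at t1
    linarith
  have k2 : (a1 * b2 - a2 * b1) * q (S.dX x v) (S.dX x e₂) = d * a1 - c * b1 := by
    have t1 := gon_lin h hx (a1 * b2 - a2 * b1) 0 v v (S.dX x e₂)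
    rw [zero_smul, add_zero, hDv, gon_lin h hx, g12, g22] at t1
    linarith
  rw [← k1, ← k2] at hDv
  ext i
  have t2 := congrFun hDv i
  simp only [Pi.add_apply, Pi.smul_apply, smul_eq_mul] at t2 ⊢
  apply mul_left_cancel₀ hD
  linarith

end A_gon_expand

alias gon_expand := A_gon_expand.gon_expand

namespace A_parseval2

/- Proof:
The vectors X x, dX x e1, dX x e2, N x have q-Gram matrix diag(-1,1,1,-1) (XX, XdX, NX, NdX, NN, GON). If M is the 4x4 matrix with these columns and J = diag(-1,1,1,-1) then M^T J M = J, hence also M J M^T = J, which is the claim.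
-/
theorem parseval2 {S : Sf} (h : Core2 S) {x e₁ e₂ : V3} (hx : x ∈ H2) (he : GON S x e₁ e₂) (Y Z : V4) :
    q Y Z = -(q Y (S.X x) * q Z (S.X x))
      + (q Y (S.dX x e₁) * q Z (S.dX x e₁) + q Y (S.dX x e₂) * q Z (S.dX x e₂))
      - q Y (S.N x) * q Z (S.N x) := by
  have hA : q (S.X x) (S.X x) = -1 := h.XX x hx
  have hD : q (S.N x) (S.N x) = -1 := h.NN x hx
  have hDA : q (S.N x) (S.X x) = 0 := h.NX x hx
  have hAB : q (S.X x) (S.dX x e₁) = 0 := h.XdX x hx e₁ he.1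
  have hAC : q (S.X x) (S.dX x e₂) = 0 := h.XdX x hx e₂ he.2.1
  have hDB : q (S.N x) (S.dX x e₁) = 0 := h.NdX x hx e₁ he.1
  have hDC : q (S.N x) (S.dX x e₂) = 0 := h.NdX x hx e₂ he.2.1
  have hBB : q (S.dX x e₁) (S.dX x e₁) = 1 := he.2.2.1
  have hCC : q (S.dX x e₂) (S.dX x e₂) = 1 := he.2.2.2.1
  have hBC : q (S.dX x e₁) (S.dX x e₂) = 0 := he.2.2.2.2
  clear he
  generalize S.X x = A at *
  generalize S.N x = D at *
  generalize S.dX x e₁ = B at *
  generalize S.dX x e₂ = C at *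
  simp only [q] at *
  let M : Matrix (Fin 4) (Fin 4) ℝ :=
    !![A 0, B 0, C 0, D 0; A 1, B 1, C 1, D 1;
       A 2, B 2, C 2, D 2; A 3, B 3, C 3, D 3]
  let L : Matrix (Fin 4) (Fin 4) ℝ :=
    !![A 0, -A 1, -A 2, A 3; -(B 0), B 1, B 2, -(B 3);
       -(C 0), C 1, C 2, -(C 3); D 0, -D 1, -D 2, D 3]
  have hLM : L * M = 1 := by
    ext i j
    fin_cases i <;> fin_cases j <;>
      simp [L, M, Matrix.mul_apply, Fin.sum_univ_four] <;>
      linarith
  have hML : M * L = 1 := mul_eq_one_comm.mp hLM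
  have key : ∀ i j, (M * L) i j = (1 : Matrix (Fin 4) (Fin 4) ℝ) i j := fun i j => by rw [hML]
  have k00 := key 0 0
  have k01 := key 0 1
  have k02 := key 0 2
  have k03 := key 0 3
  have k10 := key 1 0
  have k11 := key 1 1
  have k12 := key 1 2
  have k13 := key 1 3
  have k20 := key 2 0
  have k21 := key 2 1
  have k22 := key 2 2
  have k23 := key 2 3
  have k30 := key 3 0
  have k31 := key 3 1
  have k32 := key 3 2
  have k33 := key 3 3
  simp [L, M, Matrix.mul_apply, Fin.sum_univ_four] at k00 k01 k02 k03 k10 k11 k12 k13 k20 k21 k22 k23 k30 k31 k32 k33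
  linear_combination Y 0 * Z 0 * k00 + Y 0 * Z 1 * k01 + Y 0 * Z 2 * k02 + Y 0 * Z 3 * k03 - Y 1 * Z 0 * k10 - Y 1 * Z 1 * k11 - Y 1 * Z 2 * k12 - Y 1 * Z 3 * k13 - Y 2 * Z 0 * k20 - Y 2 * Z 1 * k21 - Y 2 * Z 2 * k22 - Y 2 * Z 3 * k23 + Y 3 * Z 0 * k30 + Y 3 * Z 1 * k31 + Y 3 * Z 2 * k32 + Y 3 * Z 3 * k33

end A_parseval2

alias parseval2 := A_parseval2.parseval2

namespace A_decomp2

theorem decomp2 {S : Sf} (h : Core2 S) {x : V3} (hx : x ∈ H2) {Z : V4} (hZ : ∀ v, eta x v = 0 → q (S.dX x v) Z = 0) :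
    Z = (-(q (S.X x) Z)) • S.X x + (-(q (S.N x) Z)) • S.N x := by
  obtain ⟨e₁, e₂, he⟩ := gon_exists h hx
  have h1 := hZ e₁ he.1
  have h2 := hZ e₂ he.2.1
  have key : ∀ Y, q (Z - ((-(q (S.X x) Z)) • S.X x + (-(q (S.N x) Z)) • S.N x)) Y = 0 := by
    intro Y
    have h3 := parseval2 h hx he Z Y
    have d1 : q Z (S.dX x e₁) = q (S.dX x e₁) Z := by simp only [q]; ring
    have d2 : q Z (S.dX x e₂) = q (S.dX x e₂) Z := by simp only [q]; ring
    rw [d1, d2, h1, h2] at h3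
    have e1 : q (Z - ((-(q (S.X x) Z)) • S.X x + (-(q (S.N x) Z)) • S.N x)) Y
        = q Z Y + q (S.X x) Z * q (S.X x) Y + q (S.N x) Z * q (S.N x) Y := by
      simp only [q, Pi.sub_apply, Pi.add_apply, Pi.smul_apply, smul_eq_mul]
      ring
    have c1 : q Z (S.X x) = q (S.X x) Z := by simp only [q]; ring
    have c2 : q Y (S.X x) = q (S.X x) Y := by simp only [q]; ring
    have c3 : q Z (S.N x) = q (S.N x) Z := by simp only [q]; ring
    have c4 : q Y (S.N x) = q (S.N x) Y := by simp only [q]; ring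
    rw [c1, c2, c3, c4] at h3
    rw [e1, h3]
    ring
  have := q_nondeg key
  exact sub_eq_zero.mp this

end A_decomp2

alias decomp2 := A_decomp2.decomp2

namespace A_compl2

theorem compl2 {S : Sf} (h : Core2 S) {x : V3} (hx : x ∈ H2) {V : V4} (h1 : q V (S.X x) = 0) (h2 : q V (S.N x) = 0) :
    0 ≤ q V V := by
  obtain ⟨e₁, e₂, he⟩ := gon_exists h hx
  rw [parseval2 h hx he V V, h1, h2]
  nlinarith [sq_nonneg (q V (S.dX x e₁)), sq_nonneg (q V (S.dX x e₂))]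

end A_compl2

alias compl2 := A_compl2.compl2

namespace A_grad2

/- Proof:
GON basis e1, e2, alpha_i = q Z (dX e_i); parseval2: alpha1^2 + alpha2^2 = q Z Z + (q X Z)^2 + (q N Z)^2 (in particular this is >= 0). v = a e1 + b e2 (gon_expand), q (dX v)(dX v) = a^2 + b^2, q Z (dX v) = a alpha1 + b alpha2. Cauchy-Schwarz.
-/
theorem grad2 {S : Sf} (h : Core2 S) {x v : V3} (hx : x ∈ H2) (hv : eta x v = 0) (Z : V4) :
    (q Z (S.dX x v)) ^ 2 ≤ q (S.dX x v) (S.dX x v) *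
      (q Z Z + (q (S.X x) Z) ^ 2 + (q (S.N x) Z) ^ 2) ∧
    0 ≤ q Z Z + (q (S.X x) Z) ^ 2 + (q (S.N x) Z) ^ 2 := by
  obtain ⟨e₁, e₂, he⟩ := gon_exists h hx
  have hp := parseval2 h hx he Z Z
  have hexp := gon_expand h hx he hv
  set a : ℝ := q (S.dX x v) (S.dX x e₁) with ha
  set b : ℝ := q (S.dX x v) (S.dX x e₂) with hb
  obtain ⟨-, -, g11, g22, g12⟩ := he
  have s1 : q (S.X x) Z = q Z (S.X x) := by unfold q; ring
  have s2 : q (S.N x) Z = q Z (S.N x) := by unfold q; ring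
  have hsum : q Z Z + (q (S.X x) Z) ^ 2 + (q (S.N x) Z) ^ 2
      = q Z (S.dX x e₁) ^ 2 + q Z (S.dX x e₂) ^ 2 := by
    rw [s1, s2]; linarith [hp]
  have hdv : S.dX x v = a • S.dX x e₁ + b • S.dX x e₂ := by
    conv_lhs => rw [hexp]
    rw [h.dX_add x hx, h.dX_smul x hx, h.dX_smul x hx]
  have hlin : q Z (S.dX x v) = a * q Z (S.dX x e₁) + b * q Z (S.dX x e₂) := by
    rw [hdv]
    simp only [q, Pi.add_apply, Pi.smul_apply, smul_eq_mul]
    ring
  have hnorm : q (S.dX x v) (S.dX x v) = a ^ 2 + b ^ 2 := by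
    have e : q (S.dX x v) (S.dX x v) = a ^ 2 * q (S.dX x e₁) (S.dX x e₁) +
        2 * (a * b) * q (S.dX x e₁) (S.dX x e₂) + b ^ 2 * q (S.dX x e₂) (S.dX x e₂) := by
      rw [hdv]
      simp only [q, Pi.add_apply, Pi.smul_apply, smul_eq_mul]
      ring
    rw [e, g11, g22, g12]
    ring
  refine ⟨?_, ?_⟩
  · rw [hsum, hlin, hnorm]
    nlinarith [sq_nonneg (a * q Z (S.dX x e₂) - b * q Z (S.dX x e₁))]
  · rw [hsum]
    positivity

end A_grad2

alias grad2 := A_grad2.grad2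

namespace A_slope2

theorem slope2_q_comm (X Y : V4) : q X Y = q Y X := by
  unfold q; ring

theorem slope2_q_add (X Y Z : V4) : q X (Y + Z) = q X Y + q X Z := by
  unfold q; simp only [Pi.add_apply]; ring

theorem slope2_q_smul (X Y : V4) (c : ℝ) : q X (c • Y) = c * q X Y := by
  unfold q; simp only [Pi.smul_apply, smul_eq_mul]; ring

theorem slope2_eta_add (X Y Z : V3) : eta X (Y + Z) = eta X Y + eta X Z := by
  unfold eta; simp only [Pi.add_apply]; ring

theorem slope2_eta_smul (X Y : V3) (c : ℝ) : eta X (c • Y) = c * eta X Y := by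
  unfold eta; simp only [Pi.smul_apply, smul_eq_mul]; ring

theorem slope2_eta_smul2 (Y : V3) (c : ℝ) : eta (c • Y) (c • Y) = c ^ 2 * eta Y Y := by
  unfold eta; simp only [Pi.smul_apply, smul_eq_mul]; ring

theorem slope2_eta_pos {x w : V3} (hx : x ∈ H2) (hw : eta x w = 0) (h0 : w ≠ 0) :
    0 < eta w w := by
  obtain ⟨h1, h2⟩ := hx
  unfold eta at *
  have h3 : x 0 * w 0 = x 1 * w 1 + x 2 * w 2 := by linarith
  have h4 : x 0 ^ 2 = 1 + x 1 ^ 2 + x 2 ^ 2 := by nlinarith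
  have h5 : x 0 ^ 2 * (-(w 0 * w 0) + w 1 * w 1 + w 2 * w 2) =
      w 1 ^ 2 + w 2 ^ 2 + (x 1 * w 2 - x 2 * w 1) ^ 2 := by
    have e : x 0 ^ 2 * (-(w 0 * w 0) + w 1 * w 1 + w 2 * w 2) =
        x 0 ^ 2 * (w 1 ^ 2 + w 2 ^ 2) - (x 0 * w 0) ^ 2 := by ring
    rw [e, h3, h4]
    ring
  have h6 : 0 < w 1 ^ 2 + w 2 ^ 2 := by
    by_contra hneg
    rw [not_lt] at hneg
    have h7 : w 1 = 0 := by
      have := sq_nonneg (w 2)
      have h8 : w 1 ^ 2 = 0 := le_antisymm (by linarith) (sq_nonneg _)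
      exact pow_eq_zero_iff (two_ne_zero) |>.1 h8
    have h8 : w 2 = 0 := by
      have := sq_nonneg (w 1)
      have h8 : w 2 ^ 2 = 0 := le_antisymm (by linarith) (sq_nonneg _)
      exact pow_eq_zero_iff (two_ne_zero) |>.1 h8
    have h9 : w 0 = 0 := by
      rw [h7, h8] at h3
      have : x 0 * w 0 = 0 := by linarith
      exact (mul_eq_zero.1 this).resolve_left h2.ne'
    apply h0
    funext i
    fin_cases i
    · exact h9
    · exact h7
    · exact h8
  have h7 : 0 < x 0 ^ 2 := by positivity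
  have h8 : 0 < x 0 ^ 2 * (-(w 0 * w 0) + w 1 * w 1 + w 2 * w 2) := by
    rw [h5]
    have := sq_nonneg (x 1 * w 2 - x 2 * w 1)
    linarith
  exact (mul_pos_iff_of_pos_left h7).1 h8

/- Proof:
GON basis e1, e2, alpha_i = q Z (dX e_i), alpha1^2 + alpha2^2 = D^2 by parseval2. Let w = alpha1 e1 + alpha2 e2: q Z (dX w) = D^2, q (dX w)(dX w) = D^2 > 0. w is a nonzero tangent vector so r := sqrt(eta w w) > 0 (eta is positive definite on the tangent plane at a point of H2), v = w / r is UT, and h.low: c^2 <= q (dX v)(dX v) = D^2/r^2, so r <= D/c. q Z (dX v) = D^2/r >= c D.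
-/
theorem slope2 {S : Sf} {c : ℝ} (h : Good S c) {x : V3} (hx : x ∈ H2) {Z : V4} {D : ℝ} (hD : 0 < D)
    (hDD : D ^ 2 = q Z Z + (q (S.X x) Z) ^ 2 + (q (S.N x) Z) ^ 2) :
    ∃ v, UT x v ∧ c * D ≤ q Z (S.dX x v) := by
  obtain ⟨e₁, e₂, hg⟩ := gon_exists h.core hx
  have hp := parseval2 h.core hx hg Z Z
  obtain ⟨g1, g2, g3, g4, g5⟩ := hg
  set a : ℝ := q Z (S.dX x e₁) with ha
  set b : ℝ := q Z (S.dX x e₂) with hb
  have hD2 : D ^ 2 = a ^ 2 + b ^ 2 := by
    rw [hDD, hp, slope2_q_comm Z (S.X x), slope2_q_comm Z (S.N x)]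
    ring
  have hdw : S.dX x (a • e₁ + b • e₂) = a • S.dX x e₁ + b • S.dX x e₂ := by
    rw [h.core.dX_add x hx, h.core.dX_smul x hx, h.core.dX_smul x hx]
  have hqw : q Z (S.dX x (a • e₁ + b • e₂)) = D ^ 2 := by
    rw [hdw, slope2_q_add, slope2_q_smul, slope2_q_smul, ← ha, ← hb, hD2]
    ring
  have hqww : q (S.dX x (a • e₁ + b • e₂)) (S.dX x (a • e₁ + b • e₂)) = D ^ 2 := by
    rw [hdw, slope2_q_add, slope2_q_smul, slope2_q_smul,
      slope2_q_comm _ (S.dX x e₁), slope2_q_comm _ (S.dX x e₂), slope2_q_add, slope2_q_add,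
      slope2_q_smul, slope2_q_smul, slope2_q_smul, slope2_q_smul,
      slope2_q_comm (S.dX x e₂) (S.dX x e₁), g3, g4, g5, hD2]
    ring
  have hDpos : 0 < D ^ 2 := by positivity
  have hxw : eta x (a • e₁ + b • e₂) = 0 := by
    rw [slope2_eta_add, slope2_eta_smul, slope2_eta_smul, g1, g2]
    ring
  generalize a • e₁ + b • e₂ = w at hqw hqww hxw
  have hw0 : w ≠ 0 := by
    rintro rfl
    have h1 : S.dX x 0 = 0 := by
      have := h.core.dX_smul x hx 0 0
      rwa [zero_smul, zero_smul] at this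
    rw [h1] at hqww
    have h2 : q (0 : V4) 0 = 0 := by simp [q]
    rw [h2] at hqww
    linarith
  have hpos := slope2_eta_pos hx hxw hw0
  set r : ℝ := Real.sqrt (eta w w) with hr
  have hrpos : 0 < r := Real.sqrt_pos.2 hpos
  have hr2 : r ^ 2 = eta w w := Real.sq_sqrt hpos.le
  have hUT : UT x (r⁻¹ • w) := by
    refine ⟨?_, ?_⟩
    · rw [slope2_eta_smul, hxw, mul_zero]
    · rw [slope2_eta_smul2, ← hr2, inv_pow, inv_mul_cancel₀ (by positivity)]
  have hlow := h.low x hx _ hUT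
  rw [h.core.dX_smul x hx] at hlow
  have e1 : q (r⁻¹ • S.dX x w) (r⁻¹ • S.dX x w) = (D / r) ^ 2 := by
    rw [slope2_q_smul, slope2_q_comm, slope2_q_smul, hqww]
    field_simp
  rw [e1] at hlow
  have hc : c ≤ D / r := by
    apply (pow_le_pow_iff_left₀ h.c_pos.le (by positivity) two_ne_zero).1
    exact hlow
  refine ⟨r⁻¹ • w, hUT, ?_⟩
  rw [h.core.dX_smul x hx, slope2_q_smul, hqw]
  calc c * D ≤ (D / r) * D := mul_le_mul_of_nonneg_right hc hD.le
    _ = r⁻¹ * D ^ 2 := by field_simp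

end A_slope2

alias slope2 := A_slope2.slope2

namespace A_dq

/- Proof:
q . Z is a continuous linear functional (a polynomial in the coordinates); compose with geoX, geodX, geoN of Core2.
-/
theorem dq {S : Sf} (h : Core2 S) {x v : V3} (hx : x ∈ H2) (hv : UT x v) (Z : V4) (s : ℝ) :
    HasDerivAt (fun s => q (S.X (geo x v s)) Z) (q (S.dX (geo x v s) (geo' x v s)) Z) s ∧
    HasDerivAt (fun s => q (S.dX (geo x v s) (geo' x v s)) Z) (q (S.ddX (geo x v s) (geo' x v s)) Z) s ∧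
    HasDerivAt (fun s => q (S.N (geo x v s)) Z) (q (S.dN (geo x v s) (geo' x v s)) Z) s := by
  have key : ∀ (f : ℝ → V4) (f' : V4) (s : ℝ), HasDerivAt f f' s →
      HasDerivAt (fun s => q (f s) Z) (q f' Z) s := by
    intro f f' s hf
    have hc := hasDerivAt_pi.mp hf
    have h0 := (hc 0).mul_const (Z 0)
    have h1 := (hc 1).mul_const (Z 1)
    have h2 := (hc 2).mul_const (Z 2)
    have h3 := (hc 3).mul_const (Z 3)
    exact ((h0.fun_neg.fun_add h1).fun_add h2).fun_sub h3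
  exact ⟨key _ _ s (h.geoX x hx v hv s), key _ _ s (h.geodX x hx v hv s),
    key _ _ s (h.geoN x hx v hv s)⟩

end A_dq

alias dq := A_dq.dq

namespace A_hess2

/- auxiliary: symmetry of q -/
theorem hess2_aux_comm (X Y : V4) : q X Y = q Y X := by
  unfold q
  ring

/- Proof:
parseval2 with Y = ddX x v, and ddX_X, ddX_N (q symmetric).
-/
theorem hess2 {S : Sf} (h : Core2 S) {x v e₁ e₂ : V3} (hx : x ∈ H2) (hv : UT x v) (he : GON S x e₁ e₂) (Z : V4) :
    q (S.ddX x v) Z = q (S.dX x v) (S.dX x v) * q (S.X x) Z + q (S.dN x v) (S.dX x v) * q (S.N x) Z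
      + q (S.ddX x v) (S.dX x e₁) * q (S.dX x e₁) Z + q (S.ddX x v) (S.dX x e₂) * q (S.dX x e₂) Z := by
  rw [parseval2 h hx he (S.ddX x v) Z, hess2_aux_comm (S.ddX x v) (S.X x), h.ddX_X x hx v hv,
    hess2_aux_comm (S.ddX x v) (S.N x), h.ddX_N x hx v hv, hess2_aux_comm Z (S.X x),
    hess2_aux_comm Z (S.N x), hess2_aux_comm Z (S.dX x e₁), hess2_aux_comm Z (S.dX x e₂)]
  ring

end A_hess2

alias hess2 := A_hess2.hess2

namespace A_extD2

theorem h877_q_smul (c : ℝ) (X Z : V4) : q (c • X) Z = c * q X Z := by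
  unfold q
  simp only [Pi.smul_apply, smul_eq_mul]
  ring

theorem h877_eta_pos {x v : V3} (hx : x ∈ H2) (hv : eta x v = 0) (h0 : v ≠ 0) :
    0 < eta v v := by
  obtain ⟨h1, h2⟩ := hx
  unfold eta at h1 hv ⊢
  have hx0 : 0 < x 0 * x 0 := mul_pos h2 h2
  have key : (x 0 * x 0) * (-(v 0 * v 0) + v 1 * v 1 + v 2 * v 2) =
      (v 1 * v 1 + v 2 * v 2) + (x 1 * v 2 - x 2 * v 1) ^ 2 := by
    have e1 : x 0 * v 0 = x 1 * v 1 + x 2 * v 2 := by linarith
    have e2 : x 0 * x 0 = 1 + x 1 * x 1 + x 2 * x 2 := by linarith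
    have e3 : (x 0 * x 0) * (-(v 0 * v 0) + v 1 * v 1 + v 2 * v 2) =
        -(x 0 * v 0) ^ 2 + (x 0 * x 0) * (v 1 * v 1 + v 2 * v 2) := by ring
    rw [e3, e1, e2]
    ring
  have hpos : 0 < v 1 * v 1 + v 2 * v 2 := by
    by_contra hcon
    push Not at hcon
    have a1 : v 1 = 0 := by nlinarith [mul_self_nonneg (v 1), mul_self_nonneg (v 2)]
    have a2 : v 2 = 0 := by nlinarith [mul_self_nonneg (v 1), mul_self_nonneg (v 2)]
    have a0 : v 0 = 0 := by
      rw [a1, a2] at hv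
      have : x 0 * v 0 = 0 := by linarith
      rcases mul_eq_zero.mp this with h | h
      · exact absurd h h2.ne'
      · exact h
    apply h0
    ext i
    fin_cases i
    · exact a0
    · exact a1
    · exact a2
  have : 0 < (x 0 * x 0) * (-(v 0 * v 0) + v 1 * v 1 + v 2 * v 2) := by
    rw [key]
    positivity
  exact (pos_iff_pos_of_mul_pos this).mp hx0

theorem h877_unit {S S₀ : Sf} (h : Core2 S) (h₀ : Core2 S₀) {x : V3} (hx : x ∈ H2) {Z Z₀ : V4}
    (hmax : ∀ y ∈ H2, q (S.X y) Z - q (S₀.X y) Z₀ ≤ q (S.X x) Z - q (S₀.X x) Z₀) {v : V3}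
    (hv : UT x v) :
    q (S.dX x v) Z - q (S₀.dX x v) Z₀ = 0 ∧ q (S.ddX x v) Z - q (S₀.ddX x v) Z₀ ≤ 0 := by
  have hf : ∀ s, HasDerivAt (fun s => q (S.X (geo x v s)) Z - q (S₀.X (geo x v s)) Z₀)
      (q (S.dX (geo x v s) (geo' x v s)) Z - q (S₀.dX (geo x v s) (geo' x v s)) Z₀) s :=
    fun s => (dq h hx hv Z s).1.sub (dq h₀ hx hv Z₀ s).1
  have hf1 : HasDerivAt
      (fun s => q (S.dX (geo x v s) (geo' x v s)) Z - q (S₀.dX (geo x v s) (geo' x v s)) Z₀)
      (q (S.ddX (geo x v 0) (geo' x v 0)) Z - q (S₀.ddX (geo x v 0) (geo' x v 0)) Z₀) 0 :=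
    (dq h hx hv Z 0).2.1.sub (dq h₀ hx hv Z₀ 0).2.1
  have hle : ∀ s, (fun s => q (S.X (geo x v s)) Z - q (S₀.X (geo x v s)) Z₀) s ≤
      (fun s => q (S.X (geo x v s)) Z - q (S₀.X (geo x v s)) Z₀) 0 := by
    intro s
    have := hmax (geo x v s) (geo_mem hx hv s)
    beta_reduce
    rw [(geo_zero x v).1]
    exact this
  have := second_test hf hf1 hle
  rw [(geo_zero x v).1, (geo_zero x v).2] at this
  exact this

theorem h877_first {S S₀ : Sf} (h : Core2 S) (h₀ : Core2 S₀) {x : V3} (hx : x ∈ H2) {Z Z₀ : V4}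
    (hmax : ∀ y ∈ H2, q (S.X y) Z - q (S₀.X y) Z₀ ≤ q (S.X x) Z - q (S₀.X x) Z₀) (v : V3)
    (hv : eta x v = 0) : q (S.dX x v) Z = q (S₀.dX x v) Z₀ := by
  by_cases h0 : v = 0
  · subst h0
    have e1 : S.dX x 0 = 0 := by
      have := h.dX_smul x hx 0 0
      rwa [zero_smul, zero_smul] at this
    have e2 : S₀.dX x 0 = 0 := by
      have := h₀.dX_smul x hx 0 0
      rwa [zero_smul, zero_smul] at this
    rw [e1, e2]
    simp [q]
  · have hpos := h877_eta_pos hx hv h0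
    set r : ℝ := Real.sqrt (eta v v) with hr
    have hr0 : 0 < r := Real.sqrt_pos.mpr hpos
    have hrr : r * r = eta v v := Real.mul_self_sqrt hpos.le
    have hu : UT x (r⁻¹ • v) := by
      constructor
      · have : eta x (r⁻¹ • v) = r⁻¹ * eta x v := by
          unfold eta
          simp only [Pi.smul_apply, smul_eq_mul]
          ring
        rw [this, hv, mul_zero]
      · have : eta (r⁻¹ • v) (r⁻¹ • v) = r⁻¹ * r⁻¹ * eta v v := by
          unfold eta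
          simp only [Pi.smul_apply, smul_eq_mul]
          ring
        rw [this, ← hrr]
        field_simp
    have h1 := (h877_unit h h₀ hx hmax hu).1
    rw [h.dX_smul x hx, h₀.dX_smul x hx, h877_q_smul, h877_q_smul, ← mul_sub] at h1
    rcases mul_eq_zero.mp h1 with h2 | h2
    · exact absurd h2 (inv_pos.mpr hr0).ne'
    · linarith

theorem extD2 {S S₀ : Sf} (h : Core2 S) (h₀ : Core2 S₀) (hi : Iso S S₀) {x : V3} (hx : x ∈ H2) {Z Z₀ : V4}
    (hmax : ∀ y ∈ H2, q (S.X y) Z - q (S₀.X y) Z₀ ≤ q (S.X x) Z - q (S₀.X x) Z₀) :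
    (∀ v, eta x v = 0 → q (S.dX x v) Z = q (S₀.dX x v) Z₀) ∧
    (∀ v, UT x v → q (S.dX x v) (S.dX x v) * q (S.X x) Z + q (S.dN x v) (S.dX x v) * q (S.N x) Z
      ≤ q (S.dX x v) (S.dX x v) * q (S₀.X x) Z₀ + q (S₀.dN x v) (S₀.dX x v) * q (S₀.N x) Z₀) := by
  refine ⟨h877_first h h₀ hx hmax, ?_⟩
  intro v hv
  obtain ⟨e₁, e₂, he⟩ := gon_exists h hx
  obtain ⟨he1, he2, he3, he4, he5⟩ := he
  have he' : GON S₀ x e₁ e₂ := by
    refine ⟨he1, he2, ?_, ?_, ?_⟩
    · rw [← hi.metric x hx e₁ e₁ he1 he1]; exact he3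
    · rw [← hi.metric x hx e₂ e₂ he2 he2]; exact he4
    · rw [← hi.metric x hx e₁ e₂ he1 he2]; exact he5
  have hs := (h877_unit h h₀ hx hmax hv).2
  rw [hess2 h hx hv ⟨he1, he2, he3, he4, he5⟩ Z, hess2 h₀ hx hv he' Z₀,
    ← hi.metric x hx v v hv.1 hv.1, ← hi.tang x hx v e₁ hv he1, ← hi.tang x hx v e₂ hv he2,
    h877_first h h₀ hx hmax e₁ he1, h877_first h h₀ hx hmax e₂ he2] at hs
  linarith

end A_extD2

alias extD2 := A_extD2.extD2

namespace A_normD2

/- Proof: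
GON basis e1,e2 for S, also GON for S0 (Iso.metric). parseval2 for q Z Z in S and for q Z0 Z0 in S0; the middle terms agree by hgrad; subtract.
-/
theorem normD2 {S S₀ : Sf} (h : Core2 S) (h₀ : Core2 S₀) (hi : Iso S S₀) {x : V3} (hx : x ∈ H2) {Z Z₀ : V4} (hZ : q Z Z = q Z₀ Z₀)
    (hgrad : ∀ v, eta x v = 0 → q (S.dX x v) Z = q (S₀.dX x v) Z₀) :
    (q (S.N x) Z) ^ 2 - (q (S₀.N x) Z₀) ^ 2 = (q (S₀.X x) Z₀) ^ 2 - (q (S.X x) Z) ^ 2 := by
  obtain ⟨e₁, e₂, he⟩ := gon_exists h hx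
  obtain ⟨h1, h2, h3, h4, h5⟩ := id he
  have he0 : GON S₀ x e₁ e₂ := by
    refine ⟨h1, h2, ?_, ?_, ?_⟩
    · rw [← hi.metric x hx e₁ e₁ h1 h1]; exact h3
    · rw [← hi.metric x hx e₂ e₂ h2 h2]; exact h4
    · rw [← hi.metric x hx e₁ e₂ h1 h2]; exact h5
  have qc : ∀ Y W : V4, q Y W = q W Y := by
    intro Y W
    unfold q
    ring
  have p1 := parseval2 h hx he Z Z
  have p2 := parseval2 h₀ hx he0 Z₀ Z₀
  have g1 := hgrad e₁ h1
  have g2 := hgrad e₂ h2
  rw [qc Z (S.dX x e₁), qc Z (S.dX x e₂), qc Z (S.X x), qc Z (S.N x), g1, g2] at p1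
  rw [qc Z₀ (S₀.dX x e₁), qc Z₀ (S₀.dX x e₂), qc Z₀ (S₀.X x), qc Z₀ (S₀.N x)] at p2
  rw [hZ] at p1
  nlinarith [p1, p2]

end A_normD2

alias normD2 := A_normD2.normD2

namespace A_detD2

theorem detD2_q_add_left (X Y Z : V4) : q (X + Y) Z = q X Z + q Y Z := by
  simp only [q, Pi.add_apply]; ring

theorem detD2_q_smul_left (c : ℝ) (X Z : V4) : q (c • X) Z = c * q X Z := by
  simp only [q, Pi.smul_apply, smul_eq_mul]; ring

theorem detD2_q_comm (X Y : V4) : q X Y = q Y X := by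
  simp only [q]; ring

theorem detD2_eta_pos {x v : V3} (hx : x ∈ H2) (hv : eta x v = 0) (h0 : v ≠ 0) : 0 < eta v v := by
  obtain ⟨h1, h2⟩ := hx
  unfold eta at *
  have h3 : 0 < v 1 ^ 2 + v 2 ^ 2 := by
    by_contra h
    have h4 : v 1 ^ 2 + v 2 ^ 2 = 0 := le_antisymm (not_lt.1 h) (by positivity)
    have h5 : v 1 = 0 := by nlinarith [sq_nonneg (v 1), sq_nonneg (v 2)]
    have h6 : v 2 = 0 := by nlinarith [sq_nonneg (v 1), sq_nonneg (v 2)]
    rw [h5, h6] at hv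
    have h7 : x 0 * v 0 = 0 := by linarith
    have h8 : v 0 = 0 := by
      rcases mul_eq_zero.1 h7 with h | h
      · exact absurd h h2.ne'
      · exact h
    apply h0
    ext i
    fin_cases i <;> simp [h5, h6, h8]
  have h9 : (x 0 * v 0) ^ 2 ≤ (v 1 ^ 2 + v 2 ^ 2) * (x 0 ^ 2 - 1) := by
    have e1 : x 0 * v 0 = x 1 * v 1 + x 2 * v 2 := by linarith
    have e2 : x 0 ^ 2 - 1 = x 1 ^ 2 + x 2 ^ 2 := by nlinarith
    rw [e1, e2]
    nlinarith [sq_nonneg (x 1 * v 2 - x 2 * v 1)]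
  have h10 : 0 < (-(v 0 * v 0) + v 1 * v 1 + v 2 * v 2) * x 0 ^ 2 := by nlinarith
  exact (pos_iff_pos_of_mul_pos h10).2 (by positivity)

theorem detD2_real {A11 A12 A22 B11 B12 B22 α β l : ℝ} (hβ : 0 < β) (hl : 0 < l)
    (hR : ∀ s t : ℝ, l * (s ^ 2 + t ^ 2) + β * (s ^ 2 * B11 + 2 * s * t * B12 + t ^ 2 * B22)
      ≤ α * (s ^ 2 * A11 + 2 * s * t * A12 + t ^ 2 * A22))
    (hB : ∀ s t : ℝ, 0 < s ^ 2 + t ^ 2 → 0 < s ^ 2 * B11 + 2 * s * t * B12 + t ^ 2 * B22)
    (hdet : A11 * A22 - A12 ^ 2 = B11 * B22 - B12 ^ 2) : β ^ 2 < α ^ 2 := by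
  have hB11 : 0 < B11 := by
    have := hB 1 0 (by norm_num)
    linarith
  have hB22 : 0 < B22 := by
    have := hB 0 1 (by norm_num)
    linarith
  have hD : 0 < B11 * B22 - B12 ^ 2 := by
    have h1 := hB B12 (-B11) (by have := pow_pos hB11 2; nlinarith [sq_nonneg B12])
    have h2 : 0 < B11 * (B11 * B22 - B12 ^ 2) := by nlinarith
    exact (pos_iff_pos_of_mul_pos h2).1 hB11
  obtain ⟨R11, hR11⟩ : ∃ R11, R11 = α * A11 - β * B11 - l := ⟨_, rfl⟩
  obtain ⟨R12, hR12⟩ : ∃ R12, R12 = α * A12 - β * B12 := ⟨_, rfl⟩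
  obtain ⟨R22, hR22⟩ : ∃ R22, R22 = α * A22 - β * B22 - l := ⟨_, rfl⟩
  have hRR : ∀ s t : ℝ, 0 ≤ s ^ 2 * R11 + 2 * s * t * R12 + t ^ 2 * R22 := by
    intro s t
    have := hR s t
    rw [hR11, hR12, hR22]
    nlinarith
  have h11 : 0 ≤ R11 := by
    have := hRR 1 0
    linarith
  have h22 : 0 ≤ R22 := by
    have := hRR 0 1
    linarith
  have hdR : R12 ^ 2 ≤ R11 * R22 := by
    have h1 : ∀ s : ℝ, 0 ≤ R11 * (s * s) + (2 * R12) * s + R22 := by
      intro s
      have := hRR s 1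
      nlinarith
    have := discrim_le_zero h1
    unfold discrim at this
    nlinarith
  obtain ⟨Q11, hQ11⟩ : ∃ Q11, Q11 = β * B11 + l := ⟨_, rfl⟩
  obtain ⟨Q12, hQ12⟩ : ∃ Q12, Q12 = β * B12 := ⟨_, rfl⟩
  obtain ⟨Q22, hQ22⟩ : ∃ Q22, Q22 = β * B22 + l := ⟨_, rfl⟩
  have hq11 : 0 < Q11 := by rw [hQ11]; positivity
  have hq22 : 0 < Q22 := by rw [hQ22]; positivity
  have hdQ : β ^ 2 * (B11 * B22 - B12 ^ 2) < Q11 * Q22 - Q12 ^ 2 := by
    rw [hQ11, hQ22, hQ12]
    have : 0 < l * β * (B11 + B22) + l ^ 2 := by positivity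
    nlinarith
  have hdQ' : Q12 ^ 2 ≤ Q11 * Q22 := by
    have : 0 < β ^ 2 * (B11 * B22 - B12 ^ 2) := by positivity
    linarith
  have hcross : 2 * (Q12 * R12) ≤ Q11 * R22 + Q22 * R11 := by
    have h1 : (Q12 * R12) ^ 2 ≤ (Q11 * R22) * (Q22 * R11) := by
      calc (Q12 * R12) ^ 2 = Q12 ^ 2 * R12 ^ 2 := by ring
        _ ≤ (Q11 * Q22) * (R11 * R22) := by
          apply mul_le_mul hdQ' hdR (sq_nonneg _) (by positivity)
        _ = _ := by ring
    have h2 : 0 ≤ Q11 * R22 + Q22 * R11 := by positivity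
    have h3 : (2 * (Q12 * R12)) ^ 2 ≤ (Q11 * R22 + Q22 * R11) ^ 2 := by
      nlinarith [sq_nonneg (Q11 * R22 - Q22 * R11)]
    exact le_trans (le_abs_self _) (abs_le_of_sq_le_sq h3 h2)
  have hP : α ^ 2 * (A11 * A22 - A12 ^ 2) = (Q11 * Q22 - Q12 ^ 2)
      + (Q11 * R22 + Q22 * R11 - 2 * (Q12 * R12)) + (R11 * R22 - R12 ^ 2) := by
    have e1 : Q11 + R11 = α * A11 := by rw [hQ11, hR11]; ring
    have e2 : Q22 + R22 = α * A22 := by rw [hQ22, hR22]; ring
    have e3 : Q12 + R12 = α * A12 := by rw [hQ12, hR12]; ring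
    calc α ^ 2 * (A11 * A22 - A12 ^ 2) = (α * A11) * (α * A22) - (α * A12) ^ 2 := by ring
      _ = (Q11 + R11) * (Q22 + R22) - (Q12 + R12) ^ 2 := by rw [e1, e2, e3]
      _ = _ := by ring
  have h1 : β ^ 2 * (B11 * B22 - B12 ^ 2) < α ^ 2 * (B11 * B22 - B12 ^ 2) := by
    rw [← hdet, hP, hdet]
    linarith
  exact lt_of_mul_lt_mul_right h1 hD.le

theorem detD2 {S S₀ : Sf} (h : Core2 S) (h₀ : Core2 S₀) (hi : Iso S S₀) {x : V3} (hx : x ∈ H2) {α β l : ℝ} (hβ : 0 < β) (hl : 0 < l)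
    (hle : ∀ v, UT x v → l * q (S.dX x v) (S.dX x v) + β * q (S₀.dN x v) (S₀.dX x v)
      ≤ α * q (S.dN x v) (S.dX x v)) : β ^ 2 < α ^ 2 := by
  have zX : ∀ T : Sf, Core2 T → T.dX x 0 = 0 := by
    intro T hT
    have := hT.dX_smul x hx 0 0
    simpa using this
  have zN : ∀ T : Sf, Core2 T → T.dN x 0 = 0 := by
    intro T hT
    have := hT.dN_smul x hx 0 0
    simpa using this
  have q0 : ∀ Z, q 0 Z = 0 := by intro Z; simp [q]
  have hle' : ∀ v, eta x v = 0 → l * q (S.dX x v) (S.dX x v) + β * q (S₀.dN x v) (S₀.dX x v)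
      ≤ α * q (S.dN x v) (S.dX x v) := by
    intro v hv
    by_cases hv0 : v = 0
    · subst hv0
      rw [zX S h, zN S₀ h₀, zN S h, q0, q0]
      simp
    · have hp := detD2_eta_pos hx hv hv0
      obtain ⟨r, hr⟩ : ∃ r, r = √(eta v v) := ⟨_, rfl⟩
      have hr0 : 0 < r := by rw [hr]; exact Real.sqrt_pos.2 hp
      have hr2 : r ^ 2 = eta v v := by rw [hr]; exact Real.sq_sqrt hp.le
      have hu : UT x (r⁻¹ • v) := by
        constructor
        · have : eta x (r⁻¹ • v) = r⁻¹ * eta x v := by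
            simp only [eta, Pi.smul_apply, smul_eq_mul]; ring
          rw [this, hv, mul_zero]
        · have : eta (r⁻¹ • v) (r⁻¹ • v) = r⁻¹ ^ 2 * eta v v := by
            simp only [eta, Pi.smul_apply, smul_eq_mul]; ring
          rw [this, ← hr2]
          field_simp
      have h1 := hle _ hu
      rw [h.dX_smul x hx, h₀.dN_smul x hx, h₀.dX_smul x hx, h.dN_smul x hx] at h1
      rw [detD2_q_smul_left, detD2_q_comm _ (r⁻¹ • S.dX x v), detD2_q_smul_left,
        detD2_q_smul_left, detD2_q_comm _ (r⁻¹ • S₀.dX x v), detD2_q_smul_left,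
        detD2_q_smul_left, detD2_q_comm _ (r⁻¹ • S.dX x v), detD2_q_smul_left] at h1
      rw [detD2_q_comm (S₀.dN x v), detD2_q_comm (S.dN x v)]
      have h2 : 0 < r⁻¹ ^ 2 := by positivity
      have h3 : r⁻¹ ^ 2 * (l * q (S.dX x v) (S.dX x v) + β * q (S₀.dX x v) (S₀.dN x v))
          ≤ r⁻¹ ^ 2 * (α * q (S.dX x v) (S.dN x v)) := by
        nlinarith
      exact le_of_mul_le_mul_left h3 h2
  obtain ⟨e₁, e₂, t1, t2, g1, g2, g12⟩ := gon_exists h hx
  have tan : ∀ s t : ℝ, eta x (s • e₁ + t • e₂) = 0 := by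
    intro s t
    have : eta x (s • e₁ + t • e₂) = s * eta x e₁ + t * eta x e₂ := by
      simp only [eta, Pi.smul_apply, Pi.add_apply, smul_eq_mul]; ring
    rw [this, t1, t2]; ring
  have expX : ∀ T : Sf, Core2 T → ∀ s t : ℝ, T.dX x (s • e₁ + t • e₂) = s • T.dX x e₁ + t • T.dX x e₂ := by
    intro T hT s t
    rw [hT.dX_add x hx, hT.dX_smul x hx, hT.dX_smul x hx]
  have expN : ∀ T : Sf, Core2 T → ∀ s t : ℝ, T.dN x (s • e₁ + t • e₂) = s • T.dN x e₁ + t • T.dN x e₂ := by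
    intro T hT s t
    rw [hT.dN_add x hx, hT.dN_smul x hx, hT.dN_smul x hx]
  have hq : ∀ (s t : ℝ) (A B C D : V4), q (s • A + t • B) (s • C + t • D) =
      s ^ 2 * q A C + s * t * (q A D + q B C) + t ^ 2 * q B D := by
    intro s t A B C D
    simp only [q, Pi.smul_apply, Pi.add_apply, smul_eq_mul]
    ring
  have hg : ∀ s t : ℝ, q (S.dX x (s • e₁ + t • e₂)) (S.dX x (s • e₁ + t • e₂)) = s ^ 2 + t ^ 2 := by
    intro s t
    rw [expX S h, hq, g1, g2, g12, detD2_q_comm, g12]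
    ring
  have hII : ∀ T : Sf, Core2 T → ∀ s t : ℝ,
      q (T.dN x (s • e₁ + t • e₂)) (T.dX x (s • e₁ + t • e₂)) =
      s ^ 2 * q (T.dN x e₁) (T.dX x e₁) + 2 * s * t * q (T.dN x e₁) (T.dX x e₂)
        + t ^ 2 * q (T.dN x e₂) (T.dX x e₂) := by
    intro T hT s t
    rw [expX T hT, expN T hT, hq, hT.II_symm x hx e₂ e₁ t2 t1]
    ring
  refine detD2_real (A11 := q (S.dN x e₁) (S.dX x e₁)) (A12 := q (S.dN x e₁) (S.dX x e₂))
    (A22 := q (S.dN x e₂) (S.dX x e₂)) (B11 := q (S₀.dN x e₁) (S₀.dX x e₁))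
    (B12 := q (S₀.dN x e₁) (S₀.dX x e₂)) (B22 := q (S₀.dN x e₂) (S₀.dX x e₂)) (l := l) hβ hl ?_ ?_ ?_
  · intro s t
    have := hle' _ (tan s t)
    rwa [hg, hII S h, hII S₀ h₀] at this
  · intro s t hst
    rw [← hII S₀ h₀]
    apply h₀.strict x hx _ (tan s t)
    intro h0
    have := hg s t
    rw [h0, zX S h, q0] at this
    linarith
  · exact hi.det x hx e₁ e₂ t1 t2

end A_detD2

alias detD2 := A_detD2.detD2

namespace A_extX2

private theorem extX2_q_smul (c : ℝ) (X Z : V4) : q (c • X) Z = c * q X Z := by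
  unfold q
  simp only [Pi.smul_apply, smul_eq_mul]
  ring

private theorem extX2_spacelike {x v : V3} (hx : x ∈ H2) (hv : eta x v = 0) (hne : v ≠ 0) :
    0 < eta v v := by
  obtain ⟨h1, h2⟩ := hx
  unfold eta at *
  have hpos : 0 < v 1 ^ 2 + v 2 ^ 2 := by
    by_contra hcon
    have a1 : v 1 = 0 := by nlinarith [sq_nonneg (v 1), sq_nonneg (v 2)]
    have a2 : v 2 = 0 := by nlinarith [sq_nonneg (v 1), sq_nonneg (v 2)]
    have a0 : v 0 = 0 := by
      rw [a1, a2] at hv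
      have : x 0 * v 0 = 0 := by linarith
      rcases mul_eq_zero.mp this with h | h
      · exact absurd h h2.ne'
      · exact h
    apply hne
    funext i
    fin_cases i
    · exact a0
    · exact a1
    · exact a2
  have hx0 : 0 < x 0 ^ 2 := by positivity
  have key : x 0 ^ 2 * (-(v 0 * v 0) + v 1 * v 1 + v 2 * v 2) =
      (v 1 ^ 2 + v 2 ^ 2) + (x 1 * v 2 - x 2 * v 1) ^ 2 := by
    have e : x 0 * v 0 = x 1 * v 1 + x 2 * v 2 := by linarith
    have e2 : x 0 ^ 2 = 1 + x 1 ^ 2 + x 2 ^ 2 := by nlinarith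
    have e3 : x 0 ^ 2 * (v 0 * v 0) = (x 1 * v 1 + x 2 * v 2) ^ 2 := by rw [← e]; ring
    calc x 0 ^ 2 * (-(v 0 * v 0) + v 1 * v 1 + v 2 * v 2)
        = -(x 0 ^ 2 * (v 0 * v 0)) + x 0 ^ 2 * (v 1 ^ 2 + v 2 ^ 2) := by ring
      _ = -((x 1 * v 1 + x 2 * v 2) ^ 2) + (1 + x 1 ^ 2 + x 2 ^ 2) * (v 1 ^ 2 + v 2 ^ 2) := by
          rw [e3, e2]
      _ = _ := by ring
  have hR : 0 < x 0 ^ 2 * (-(v 0 * v 0) + v 1 * v 1 + v 2 * v 2) := by
    rw [key]
    positivity
  exact (mul_pos_iff_of_pos_left hx0).mp hR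

private theorem extX2_unit {S : Sf} (h : Core2 S) {x : V3} (hx : x ∈ H2) {Z : V4}
    (hmax : ∀ y ∈ H2, q (S.X y) Z ≤ q (S.X x) Z) {v : V3} (hv : UT x v) :
    q (S.dX x v) Z = 0 ∧ q (S.ddX x v) Z ≤ 0 := by
  have hf : ∀ s : ℝ, HasDerivAt (fun s => q (S.X (geo x v s)) Z)
      (q (S.dX (geo x v s) (geo' x v s)) Z) s := fun s => (dq h hx hv Z s).1
  have hf1 := (dq h hx hv Z 0).2.1
  have g0 := geo_zero x v
  have hm : ∀ s : ℝ, q (S.X (geo x v s)) Z ≤ q (S.X (geo x v 0)) Z := by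
    intro s
    rw [g0.1]
    exact hmax _ (geo_mem hx hv s)
  have key := second_test hf hf1 hm
  rw [g0.1, g0.2] at key
  exact key

/- Proof:
For unit tangent v let f(s) = q (X (geo x v s)) Z; by dq and second_test (f s <= f 0): q (dX x v) Z = 0 and q (ddX x v) Z <= 0. First claim for general tangent vectors by scaling (dX_smul). Second: hess2 with a GON basis; the last two terms vanish by the first claim.
-/
theorem extX2 {S : Sf} (h : Core2 S) {x : V3} (hx : x ∈ H2) {Z : V4} (hmax : ∀ y ∈ H2, q (S.X y) Z ≤ q (S.X x) Z) :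
    (∀ v, eta x v = 0 → q (S.dX x v) Z = 0) ∧
    (∀ v, UT x v → q (S.dX x v) (S.dX x v) * q (S.X x) Z + q (S.dN x v) (S.dX x v) * q (S.N x) Z ≤ 0) := by
  have hA : ∀ v, eta x v = 0 → q (S.dX x v) Z = 0 := by
    intro v hv
    by_cases hne : v = 0
    · subst hne
      have := h.dX_smul x hx 0 (0 : V3)
      rw [zero_smul, zero_smul] at this
      rw [this]
      unfold q
      simp
    · have hpos := extX2_spacelike hx hv hne
      set n := Real.sqrt (eta v v) with hn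
      have hn0 : 0 < n := Real.sqrt_pos.mpr hpos
      have hn2 : n ^ 2 = eta v v := Real.sq_sqrt hpos.le
      have hUT : UT x (n⁻¹ • v) := by
        constructor
        · have : eta x (n⁻¹ • v) = n⁻¹ * eta x v := by
            unfold eta
            simp only [Pi.smul_apply, smul_eq_mul]
            ring
          rw [this, hv, mul_zero]
        · have : eta (n⁻¹ • v) (n⁻¹ • v) = (n ^ 2)⁻¹ * eta v v := by
            unfold eta
            simp only [Pi.smul_apply, smul_eq_mul]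
            ring
          rw [this, hn2, inv_mul_cancel₀ hpos.ne']
      have h1 := (extX2_unit h hx hmax hUT).1
      have h2 : v = n • (n⁻¹ • v) := by rw [smul_smul, mul_inv_cancel₀ hn0.ne', one_smul]
      rw [h2, h.dX_smul x hx, extX2_q_smul, h1, mul_zero]
  refine ⟨hA, fun v hv => ?_⟩
  obtain ⟨e₁, e₂, he⟩ := gon_exists h hx
  have h1 := (extX2_unit h hx hmax hv).2
  rw [hess2 h hx hv he Z, hA e₁ he.1, hA e₂ he.2.1, mul_zero, mul_zero, add_zero, add_zero] at h1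
  exact h1

end A_extX2

alias extX2 := A_extX2.extX2

namespace A_extN2

theorem extN2_q_add (X Y Z : V4) : q (X + Y) Z = q X Z + q Y Z := by
  simp only [q, Pi.add_apply]
  ring

theorem extN2_q_smul (c : ℝ) (X Z : V4) : q (c • X) Z = c * q X Z := by
  simp only [q, Pi.smul_apply, smul_eq_mul]
  ring

theorem extN2_q_add' (X Y Z : V4) : q Z (X + Y) = q Z X + q Z Y := by
  simp only [q, Pi.add_apply]
  ring

theorem extN2_q_smul' (c : ℝ) (X Z : V4) : q Z (c • X) = c * q Z X := by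
  simp only [q, Pi.smul_apply, smul_eq_mul]
  ring

theorem extN2_q_symm (X Z : V4) : q X Z = q Z X := by
  simp only [q]
  ring

theorem extN2_spacelike {x v : V3} (hx : x ∈ H2) (hv : eta x v = 0) (hv0 : v ≠ 0) : 0 < eta v v := by
  obtain ⟨h1, h2⟩ := hx
  unfold eta at *
  have h3 : x 0 * v 0 = x 1 * v 1 + x 2 * v 2 := by linarith
  have h4 : (x 0) ^ 2 = 1 + x 1 ^ 2 + x 2 ^ 2 := by nlinarith
  have h5 : 0 < v 1 ^ 2 + v 2 ^ 2 := by
    by_contra hcon
    have h6 : v 1 = 0 := by nlinarith [sq_nonneg (v 1), sq_nonneg (v 2)]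
    have h7 : v 2 = 0 := by nlinarith [sq_nonneg (v 1), sq_nonneg (v 2)]
    rw [h6, h7, mul_zero, mul_zero, add_zero] at h3
    have h8 : v 0 = 0 := (mul_eq_zero.1 h3).resolve_left h2.ne'
    apply hv0
    funext i
    fin_cases i
    · exact h8
    · exact h6
    · exact h7
  have h6 : (x 0 * v 0) ^ 2 ≤ (x 1 ^ 2 + x 2 ^ 2) * (v 1 ^ 2 + v 2 ^ 2) := by
    rw [h3]
    nlinarith [sq_nonneg (x 1 * v 2 - x 2 * v 1)]
  have h7 : (x 0) ^ 2 * (-(v 0 * v 0) + v 1 * v 1 + v 2 * v 2) ≥ v 1 ^ 2 + v 2 ^ 2 := by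
    nlinarith
  by_contra hcon
  push Not at hcon
  have h8 : 0 ≤ (x 0) ^ 2 := sq_nonneg _
  nlinarith [mul_nonneg h8 (neg_nonneg.2 hcon)]

/- Proof:
f(s) = q (N (geo x v s)) Z has a max at 0, so q (dN x v) Z = 0 for unit tangent v, hence for all tangent v. GON basis e1,e2. dN x e_j is orthogonal to X x and N x (XdN, NdN), so by parseval2 0 = q (dN e_j) Z = sum_i q (dN e_j)(dX e_i) q (dX e_i) Z. The matrix q (dN e_j)(dX e_i) is symmetric (II_symm) and positive definite (strict), hence invertible, so q (dX e_i) Z = 0, and gon_expand gives the claim for all tangent v.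
-/
theorem extN2 {S : Sf} (h : Core2 S) {x : V3} (hx : x ∈ H2) {Z : V4} (hmax : ∀ y ∈ H2, q (S.N y) Z ≤ q (S.N x) Z) :
    ∀ v, eta x v = 0 → q (S.dX x v) Z = 0 := by
  -- derivatives of the maximum
  have key1 : ∀ w : V3, UT x w → q (S.dN x w) Z = 0 := by
    intro w hw
    have h1 := (dq h hx hw Z 0).2.2
    rw [(geo_zero x w).1, (geo_zero x w).2] at h1
    have h3 : IsLocalMax (fun s => q (S.N (geo x w s)) Z) 0 := by
      refine Filter.Eventually.of_forall fun s => ?_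
      simp only [(geo_zero x w).1]
      exact hmax _ (geo_mem hx hw s)
    exact h3.hasDerivAt_eq_zero h1
  have key : ∀ w : V3, eta x w = 0 → w ≠ 0 → q (S.dN x w) Z = 0 := by
    intro w hw hw0
    have hpos := extN2_spacelike hx hw hw0
    set r : ℝ := √(eta w w) with hr
    have hr0 : 0 < r := Real.sqrt_pos.2 hpos
    have hr2 : r ^ 2 = eta w w := Real.sq_sqrt hpos.le
    have hUT : UT x (r⁻¹ • w) := by
      refine ⟨?_, ?_⟩
      · have : eta x (r⁻¹ • w) = r⁻¹ * eta x w := by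
          simp only [eta, Pi.smul_apply, smul_eq_mul]
          ring
        rw [this, hw, mul_zero]
      · have : eta (r⁻¹ • w) (r⁻¹ • w) = r⁻¹ ^ 2 * eta w w := by
          simp only [eta, Pi.smul_apply, smul_eq_mul]
          ring
        rw [this, ← hr2, ← mul_pow, inv_mul_cancel₀ hr0.ne', one_pow]
    have h1 := key1 _ hUT
    rw [h.dN_smul x hx, extN2_q_smul] at h1
    exact (mul_eq_zero.1 h1).resolve_left (inv_ne_zero hr0.ne')
  obtain ⟨e₁, e₂, he⟩ := gon_exists h hx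
  obtain ⟨t1, t2, n1, n2, n12⟩ := id he
  have hdX0 : S.dX x 0 = 0 := by
    have := h.dX_smul x hx 0 0
    simpa using this
  have hq0 : ∀ Y : V4, q 0 Y = 0 := fun Y => by simp [q]
  have he1 : e₁ ≠ 0 := by
    rintro rfl
    rw [hdX0, hq0] at n1
    exact zero_ne_one n1
  have he2 : e₂ ≠ 0 := by
    rintro rfl
    rw [hdX0, hq0] at n2
    exact zero_ne_one n2
  have E1 := parseval2 h hx he (S.dN x e₁) Z
  have E2 := parseval2 h hx he (S.dN x e₂) Z
  rw [key e₁ t1 he1, extN2_q_symm (S.dN x e₁) (S.X x), h.XdN x hx e₁ t1, extN2_q_symm (S.dN x e₁) (S.N x),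
    h.NdN x hx e₁ t1] at E1
  rw [key e₂ t2 he2, extN2_q_symm (S.dN x e₂) (S.X x), h.XdN x hx e₂ t2, extN2_q_symm (S.dN x e₂) (S.N x),
    h.NdN x hx e₂ t2] at E2
  set y1 : ℝ := q (S.dX x e₁) Z with hy1
  set y2 : ℝ := q (S.dX x e₂) Z with hy2
  rw [extN2_q_symm Z (S.dX x e₁), extN2_q_symm Z (S.dX x e₂)] at E1 E2
  have hv0 : eta x (y1 • e₁ + y2 • e₂) = 0 := by
    have : eta x (y1 • e₁ + y2 • e₂) = y1 * eta x e₁ + y2 * eta x e₂ := by
      simp only [eta, Pi.add_apply, Pi.smul_apply, smul_eq_mul]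
      ring
    rw [this, t1, t2]
    ring
  have hdX : ∀ a b : ℝ, S.dX x (a • e₁ + b • e₂) = a • S.dX x e₁ + b • S.dX x e₂ := fun a b => by
    rw [h.dX_add x hx, h.dX_smul x hx, h.dX_smul x hx]
  have hdN : ∀ a b : ℝ, S.dN x (a • e₁ + b • e₂) = a • S.dN x e₁ + b • S.dN x e₂ := fun a b => by
    rw [h.dN_add x hx, h.dN_smul x hx, h.dN_smul x hx]
  have hsym := h.II_symm x hx e₂ e₁ t2 t1
  have hquad : q (S.dN x (y1 • e₁ + y2 • e₂)) (S.dX x (y1 • e₁ + y2 • e₂)) = 0 := by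
    rw [hdX, hdN]
    simp only [extN2_q_add, extN2_q_smul, extN2_q_add', extN2_q_smul']
    rw [hsym]
    rw [hsym] at E2
    linear_combination (-y1) * E1 - y2 * E2
  have hz : y1 • e₁ + y2 • e₂ = 0 := by
    by_contra hne
    have := h.strict x hx _ hv0 hne
    rw [hquad] at this
    exact lt_irrefl _ this
  have hz2 : y1 • S.dX x e₁ + y2 • S.dX x e₂ = 0 := by
    rw [← hdX, hz, hdX0]
  have hy1z : y1 = 0 := by
    have := congrArg (fun Y => q Y (S.dX x e₁)) hz2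
    simp only [extN2_q_add, extN2_q_smul, hq0] at this
    rw [n1, extN2_q_symm (S.dX x e₂), n12] at this
    linarith
  have hy2z : y2 = 0 := by
    have := congrArg (fun Y => q Y (S.dX x e₂)) hz2
    simp only [extN2_q_add, extN2_q_smul, hq0] at this
    rw [n2, n12] at this
    linarith
  intro v hv
  have hexp := gon_expand h hx he hv
  rw [hexp, hdX, extN2_q_add, extN2_q_smul, extN2_q_smul, ← hy1, ← hy2, hy1z, hy2z]
  ring

end A_extN2

alias extN2 := A_extN2.extN2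

end Helper935.AdS
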