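import Pool.Agent.Helper935_AdS.PairB
import Pool.Agent.Helper935_AdS.Max
import Pool.Agent.Helper935_AdS.Same

namespace Helper935.AdS

namespace A_upper_const

/- Proof:
N is fixed by all g.2 (hypothesis). u(x) = -q (Xp x) N is G-invariant, continuous, so has a max over H2 at some x2 in F. At x2, Z = -N: extX with Z = -N: b^2 u + II * (-(q (Np) N)) <= 0 with u >= sqrt(1-b^2) > 0 (upper), so n = q (Np x2) N > 0 and II(v,v) >= b^2 u/n for unit v; decomp: u^2 + n^2 = 1; det_ge: b^4 u^2/(1-u^2) <= b^2(1-b^2), so u^2 <= 1-b^2. Together with upper: u is constant = sqrt(1-b^2).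
-/
theorem upper_const (S : Setup) {N : V4} (hN : N ∈ Dual S) (hfix : ∀ g ∈ S.G, g.2 N = N)
    {ξ : V4} (hξ : ξ ∈ Lam S) (h0 : q ξ N = 0) {x : V3} (hx : x ∈ H2) :
    q (S.Xp x) N = -Real.sqrt (1 - S.b ^ 2) := by
  have hbp := S.cp.a_pos
  have hbl := S.cp.a_lt
  have hb2 : 0 < 1 - S.b ^ 2 := by nlinarith
  have hs0 : 0 < Real.sqrt (1 - S.b ^ 2) := Real.sqrt_pos.2 hb2
  have hssq : Real.sqrt (1 - S.b ^ 2) ^ 2 = 1 - S.b ^ 2 := Real.sq_sqrt hb2.le
  -- invariance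
  have hinv : ∀ g ∈ S.G, ∀ y ∈ H2, q (S.Xp (g.1 y)) N = q (S.Xp y) N := by
    intro g hg y hy
    rw [S.G_Xp g hg y hy]
    conv_lhs => rw [← hfix g hg]
    exact S.G_q g hg _ _
  -- maximum
  have hcont : ContinuousOn (fun y => -q (S.Xp y) N) S.F := by
    have hX : ContinuousOn S.Xp S.F := S.cp.contX.mono S.F_sub
    have hXi : ∀ i, ContinuousOn (fun y => S.Xp y i) S.F := fun i =>
      (continuous_apply i).comp_continuousOn hX
    unfold q
    exact (((((hXi 0).mul continuousOn_const).neg.add ((hXi 1).mul continuousOn_const)).add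
      ((hXi 2).mul continuousOn_const)).sub ((hXi 3).mul continuousOn_const)).neg
  obtain ⟨g0, hg0, hg0F⟩ := S.F_cov x hx
  obtain ⟨x2, hx2F, hx2max⟩ := S.F_cpt.exists_isMaxOn ⟨_, hg0F⟩ hcont
  have hx2 : x2 ∈ H2 := S.F_sub hx2F
  have hmax : ∀ y ∈ H2, -q (S.Xp y) N ≤ -q (S.Xp x2) N := by
    intro y hy
    obtain ⟨g, hg, hgF⟩ := S.F_cov y hy
    have := hx2max hgF
    simp only [Set.mem_setOf_eq] at this
    rw [← hinv g hg y hy]
    exact this
  have hqneg : ∀ A B : V4, q A (-B) = -q A B := by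
    intro A B; simp only [q, Pi.neg_apply]; ring
  have hmax' : ∀ y ∈ H2, q (S.Xp y) (-N) ≤ q (S.Xp x2) (-N) := by
    intro y hy; rw [hqneg, hqneg]; exact hmax y hy
  have hup := upper S hN hξ h0 hx2
  set u : ℝ := -q (S.Xp x2) N with hu
  set m : ℝ := q (S.Np x2) N with hm
  have hE : ∀ v, UT x2 v → q (-N) (S.dXp x2 v) = 0 ∧
      S.b ^ 2 * u + q (S.dNp x2 v) (S.dXp x2 v) * (-m) ≤ 0 := by
    intro v hv
    have := extX S.cp hx2 hmax' hv
    rw [hqneg, hqneg] at this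
    exact this
  have hII : ∀ v, UT x2 v → 0 ≤ q (S.dNp x2 v) (S.dXp x2 v) := fun v hv =>
    II_nonneg S.cp S.pp hx2 hv
  have hu0 : 0 < u := lt_of_lt_of_le hs0 hup
  -- a unit tangent vector
  obtain ⟨v0, hv0⟩ : ∃ v, UT x2 v := by
    have h1 : eta x2 x2 = -1 := hx2.1
    have hpos : 0 < x2 0 ^ 2 - x2 1 ^ 2 := by
      simp only [eta] at h1
      nlinarith [sq_nonneg (x2 2)]
    have hsp : 0 < Real.sqrt (x2 0 ^ 2 - x2 1 ^ 2) := Real.sqrt_pos.2 hpos
    have hsq : Real.sqrt (x2 0 ^ 2 - x2 1 ^ 2) ^ 2 = x2 0 ^ 2 - x2 1 ^ 2 := Real.sq_sqrt hpos.le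
    refine ⟨![x2 1 / Real.sqrt (x2 0 ^ 2 - x2 1 ^ 2), x2 0 / Real.sqrt (x2 0 ^ 2 - x2 1 ^ 2), 0],
      ?_, ?_⟩
    · simp only [eta, Matrix.cons_val_zero, Matrix.cons_val_one, Matrix.cons_val]
      ring
    · simp only [eta, Matrix.cons_val_zero, Matrix.cons_val_one, Matrix.cons_val]
      have : -(x2 1 / Real.sqrt (x2 0 ^ 2 - x2 1 ^ 2) * (x2 1 / Real.sqrt (x2 0 ^ 2 - x2 1 ^ 2)))
          + x2 0 / Real.sqrt (x2 0 ^ 2 - x2 1 ^ 2) * (x2 0 / Real.sqrt (x2 0 ^ 2 - x2 1 ^ 2))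
          + 0 * 0 = (x2 0 ^ 2 - x2 1 ^ 2) / Real.sqrt (x2 0 ^ 2 - x2 1 ^ 2) ^ 2 := by
        ring
      rw [this, hsq, div_self hpos.ne']
  have hb2p : 0 < S.b ^ 2 := by positivity
  have hbu : 0 < S.b ^ 2 * u := mul_pos hb2p hu0
  have hm0 : 0 < m := by
    by_contra hcon
    push Not at hcon
    have h1 := (hE v0 hv0).2
    have h2 := hII v0 hv0
    nlinarith [mul_nonneg h2 (neg_nonneg.2 hcon)]
  have hl : ∀ v, UT x2 v → S.b ^ 2 * u / m ≤ q (S.dNp x2 v) (S.dXp x2 v) := by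
    intro v hv
    rw [div_le_iff₀ hm0]
    linarith [(hE v hv).2]
  have hdet := det_ge S.cp hx2 (div_nonneg hbu.le hm0.le) hl
  have hdec := decomp S.cp hx2 (Z := -N) (fun v hv => (hE v hv).1)
  rw [hqneg, hqneg] at hdec
  have hum : u ^ 2 + m ^ 2 = 1 := by
    have hNN : q N N = -1 := hN.1
    have hXX := S.cp.XX x2 hx2
    have hNpNp := S.cp.NN x2 hx2
    have hNX := S.cp.NX x2 hx2
    have h1 : q (-N) (-N) = -1 := by
      rw [hqneg]
      have : q (-N) N = - q N N := by simp only [q, Pi.neg_apply]; ring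
      rw [this, hNN]; norm_num
    have h2 : ∀ (s t : ℝ) (A B : V4), q (s • A + t • B) (s • A + t • B)
        = s ^ 2 * q A A + t ^ 2 * q B B + 2 * s * t * q B A := by
      intro s t A B
      simp only [q, Pi.add_apply, Pi.smul_apply, smul_eq_mul]; ring
    rw [hdec, h2, hXX, hNpNp, hNX] at h1
    rw [hu]
    have h3 : (- -q (S.Xp x2) N) ^ 2 = (-q (S.Xp x2) N) ^ 2 := by ring
    have h4 : (- -q (S.Np x2) N) ^ 2 = m ^ 2 := by rw [hm]; ring
    rw [h3, h4] at h1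
    linarith
  have hkey : u ^ 2 ≤ 1 - S.b ^ 2 := by
    rw [div_pow, div_le_iff₀ (by positivity)] at hdet
    have h1 : S.b ^ 2 * (S.b ^ 2 * u ^ 2) ≤ S.b ^ 2 * ((1 - S.b ^ 2) * m ^ 2) := by
      nlinarith [hdet]
    have h2 := le_of_mul_le_mul_left h1 hb2p
    nlinarith [h2, hum]
  have hule : u ≤ Real.sqrt (1 - S.b ^ 2) := by
    apply Real.le_sqrt_of_sq_le hkey
  have h5 := upper S hN hξ h0 hx
  have h6 := hmax x hx
  linarith

end A_upper_const

alias upper_const := A_upper_const.upper_const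

namespace A_rigidity

lemma q_add_left (X Y Z : V4) : q (X + Y) Z = q X Z + q Y Z := by simp [q]; ring
lemma q_smul_left (c : ℝ) (X Z : V4) : q (c • X) Z = c * q X Z := by simp [q]; ring
lemma q_sub_left (X Y Z : V4) : q (X - Y) Z = q X Z - q Y Z := by simp [q]; ring
lemma q_symm (X Y : V4) : q X Y = q Y X := by simp [q]; ring
lemma q_add_right (X Y Z : V4) : q Z (X + Y) = q Z X + q Z Y := by simp [q]; ring
lemma q_smul_right (c : ℝ) (X Z : V4) : q Z (c • X) = c * q Z X := by simp [q]; ring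
lemma q_sub_right (X Y Z : V4) : q Z (X - Y) = q Z X - q Z Y := by simp [q]; ring

lemma ext_H2 {f g : V3 →ₗ[ℝ] V4} (h : ∀ x ∈ H2, f x = g x) : f = g := by
  have h0 : (![1, 0, 0] : V3) ∈ H2 := by
    refine ⟨?_, ?_⟩
    · simp [eta]
    · simp
  have h2 : Real.sqrt 2 * Real.sqrt 2 = 2 := Real.mul_self_sqrt (by norm_num)
  have h1 : (![Real.sqrt 2, 1, 0] : V3) ∈ H2 := by
    refine ⟨?_, ?_⟩
    · simp only [eta, Matrix.cons_val_zero, Matrix.cons_val_one, Matrix.cons_val]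
      rw [h2]; norm_num
    · simp
  have h3 : (![Real.sqrt 2, 0, 1] : V3) ∈ H2 := by
    refine ⟨?_, ?_⟩
    · simp only [eta, Matrix.cons_val_zero, Matrix.cons_val_one, Matrix.cons_val]
      rw [h2]; norm_num
    · simp
  have key : ∀ x : V3, x = (x 0 - Real.sqrt 2 * x 1 - Real.sqrt 2 * x 2) • (![1, 0, 0] : V3) +
      x 1 • (![Real.sqrt 2, 1, 0] : V3) + x 2 • (![Real.sqrt 2, 0, 1] : V3) := by
    intro x
    funext i
    fin_cases i <;> simp <;> ring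
  refine LinearMap.ext fun x => ?_
  rw [key x]
  simp only [map_add, map_smul]
  rw [h _ h0, h _ h1, h _ h3]

/- Proof:
N, y, xi from m_eq, m = sqrt(1-a^2) (positive root). strong_max: q (Xm z) N = m on H2. N is G-fixed: by linearise-type argument: N = -m Xm z - n Nm z with n = q (Nm z) N < 0, n^2 = 1 - m^2 = a^2 so n = -a: N = -m Xm z + a Nm z for every z in H2 (decomp with extX applied to N and -N: q (Xm .) N is constant). Apply g.2: g.2 N = -m Xm (g.1 z) + a Nm (g.1 z) = N. linearise for the lower surface with E = N, c = m: Xm = a L1 - m N. upper_const: q (Xp x) N = -n', n' = sqrt(1-b^2); linearise for the upper surface with E = N, c = -n': Xp = b L2 + n' N. Equivariance of L1, L2 on H2 from that of Xm, Xp and g.2 N = N. same_map: q (L1 x)(L2 y): q (Xm x)(Xp y) = a b q(L1 x)(L2 y) + m n' < 1 gives an upper bound. So L1 = L2. g.2 (L x) = L (g.1 x) first for x in H2, then for all x as H2 spans V3.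
-/
theorem rigidity (S : Setup) : ∃ (L : V3 →ₗ[ℝ] V4) (E : V4),
    (∀ x y, q (L x) (L y) = eta x y) ∧ (∀ x, q (L x) E = 0) ∧ q E E = -1 ∧
    (∀ x ∈ H2, S.Xm x = S.a • L x - Real.sqrt (1 - S.a ^ 2) • E) ∧
    (∀ x ∈ H2, S.Xp x = S.b • L x + Real.sqrt (1 - S.b ^ 2) • E) ∧
    (∀ g ∈ S.G, g.2 E = E ∧ ∀ x, g.2 (L x) = L (g.1 x)) := by
  obtain ⟨N, hN, y, hy, hpos, hm, hmax, hneg, ξ, hξ, h0⟩ := m_eq S
  have hNN : q N N = -1 := hN.1
  have hconst : ∀ z ∈ H2, q (S.Xm z) N = q (S.Xm y) N := fun z hz =>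
    strong_max S hNN hy hpos hm hmax hneg hz
  have ha := S.cm.a_pos
  have ha1 := S.cm.a_lt
  have hb := S.cp.a_pos
  have hb1 := S.cp.a_lt
  have hmr : q (S.Xm y) N = Real.sqrt (1 - S.a ^ 2) := by
    rw [← hm, Real.sqrt_sq hpos.le]
  have hNexp : ∀ z ∈ H2, N = (-Real.sqrt (1 - S.a ^ 2)) • S.Xm z + S.a • S.Nm z := by
    intro z hz
    have h1 := decomp S.cm hz (Z := N) (fun v hv =>
      (extX S.cm hz (Z := N) (fun x hx => by rw [hconst x hx, hconst z hz]) hv).1)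
    rw [hconst z hz] at h1
    set n := q (S.Nm z) N with hn
    have hn0 : n < 0 := hneg z hz
    have h2 : q N N = -(q (S.Xm y) N) ^ 2 - n ^ 2 := by
      have h3 : q N N = q ((-(q (S.Xm y) N)) • S.Xm z + (-n) • S.Nm z) ((-(q (S.Xm y) N)) • S.Xm z + (-n) • S.Nm z) := by
        rw [← h1]
      rw [h3]
      simp only [q_add_left, q_add_right, q_smul_left, q_smul_right]
      rw [S.cm.XX z hz, S.cm.NN z hz, q_symm (S.Xm z) (S.Nm z), S.cm.NX z hz]
      ring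
    have h4 : n ^ 2 = S.a ^ 2 := by rw [hNN, hm] at h2; linarith
    have h5 : n = -S.a := by
      have h6 : (n - S.a) * (n + S.a) = 0 := by linear_combination h4
      rcases mul_eq_zero.1 h6 with h7 | h7
      · linarith
      · linarith
    rw [h5, hmr, neg_neg] at h1
    exact h1
  have hfix : ∀ g ∈ S.G, g.2 N = N := by
    intro g hg
    conv_lhs => rw [hNexp y hy]
    rw [map_add, map_smul, map_smul, ← S.G_Xm g hg y hy, ← S.G_Nm g hg y hy]
    exact (hNexp _ (S.G_H2 g hg y hy)).symm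
  obtain ⟨L₁, hL₁, hL₁N, hL₁X, _⟩ := linearise S.cm hNN (c := Real.sqrt (1 - S.a ^ 2))
    (Real.sq_sqrt (by nlinarith)) (fun x hx => by rw [hconst x hx, hmr])
  obtain ⟨L₂, hL₂, hL₂N, hL₂X, _⟩ := linearise S.cp hNN (c := -Real.sqrt (1 - S.b ^ 2))
    (by rw [neg_sq, Real.sq_sqrt (by nlinarith)]) (fun x hx => upper_const S hN hfix hξ h0 hx)
  have e1 : ∀ g ∈ S.G, ∀ x ∈ H2, L₁ (g.1 x) = g.2 (L₁ x) := by
    intro g hg x hx
    have h1 := hL₁X _ (S.G_H2 g hg x hx)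
    rw [S.G_Xm g hg x hx, hL₁X x hx, map_sub, map_smul, map_smul, hfix g hg] at h1
    have h2 : S.a • g.2 (L₁ x) = S.a • L₁ (g.1 x) := sub_left_inj.1 h1
    exact (smul_right_injective _ ha.ne' h2).symm
  have e2 : ∀ g ∈ S.G, ∀ x ∈ H2, L₂ (g.1 x) = g.2 (L₂ x) := by
    intro g hg x hx
    have h1 := hL₂X _ (S.G_H2 g hg x hx)
    rw [S.G_Xp g hg x hx, hL₂X x hx, map_sub, map_smul, map_smul, hfix g hg] at h1
    have h2 : S.b • g.2 (L₂ x) = S.b • L₂ (g.1 x) := sub_left_inj.1 h1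
    exact (smul_right_injective _ hb.ne' h2).symm
  have hlt : ∀ x ∈ H2, ∀ z ∈ H2, q (L₁ x) (L₂ z) ≤
      (1 - Real.sqrt (1 - S.a ^ 2) * Real.sqrt (1 - S.b ^ 2)) / (S.a * S.b) := by
    intro x hx z hz
    have h1 := S.lt1 x hx z hz
    rw [hL₁X x hx, hL₂X z hz] at h1
    simp only [q_sub_left, q_sub_right, q_smul_left, q_smul_right] at h1
    rw [hL₁N x, q_symm N (L₂ z), hL₂N z, hNN] at h1
    rw [le_div_iff₀ (mul_pos ha hb)]
    nlinarith
  have hLL : L₁ = L₂ := same_map S.F_sub S.F_cpt S.F_cov S.G_q hNN hL₁ hL₂ hL₁N hL₂N e1 e2 hlt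
  refine ⟨L₁, N, hL₁, hL₁N, hNN, hL₁X, fun x hx => ?_, fun g hg => ⟨hfix g hg, fun x => ?_⟩⟩
  · rw [hL₂X x hx, hLL, neg_smul, sub_neg_eq_add]
  · have h1 : (g.2 : V4 →ₗ[ℝ] V4) ∘ₗ L₁ = L₁ ∘ₗ (g.1 : V3 →ₗ[ℝ] V3) :=
      ext_H2 fun x hx => (e1 g hg x hx).symm
    exact LinearMap.congr_fun h1 x

end A_rigidity

alias rigidity := A_rigidity.rigidity

end Helper935.AdS
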