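import Pool.Agent.Helper935_AdS.Defs

namespace Helper935.AdS

/-- A pair of surfaces together with all the facts used in the proof. -/
structure Setup where
  a : ℝ
  b : ℝ
  Xm : V3 → V4
  Nm : V3 → V4
  Xp : V3 → V4
  Np : V3 → V4
  dXm : V3 → V3 → V4
  dNm : V3 → V3 → V4
  dXp : V3 → V3 → V4
  dNp : V3 → V3 → V4
  G : Set ((V3 ≃ₗ[ℝ] V3) × (V4 ≃ₗ[ℝ] V4))
  F : Set V3
  cm : Core a Xm Nm dXm dNm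
  cp : Core b Xp Np dXp dNp
  mm : ∀ x ∈ H2, ∀ y ∈ H2, q (Nm x) (Xm y) ≤ 0
  mp : ∀ x ∈ H2, ∀ y ∈ H2, q (Nm x) (Xp y) ≤ 0
  pm : ∀ x ∈ H2, ∀ y ∈ H2, q (Np x) (Xm y) ≤ 0
  pp : ∀ x ∈ H2, ∀ y ∈ H2, q (Np x) (Xp y) ≤ 0
  lt1 : ∀ x ∈ H2, ∀ y ∈ H2, q (Xm x) (Xp y) < 1
  ne : ∀ x ∈ H2, ∀ y ∈ H2, Xp x = Xm y → Np x ≠ Nm y
  G_inv : ∀ g ∈ G, (g.1.symm, g.2.symm) ∈ G
  G_eta : ∀ g ∈ G, ∀ x y, eta (g.1 x) (g.1 y) = eta x y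
  G_H2 : ∀ g ∈ G, ∀ x ∈ H2, g.1 x ∈ H2
  G_q : ∀ g ∈ G, ∀ X Y, q (g.2 X) (g.2 Y) = q X Y
  G_Xm : ∀ g ∈ G, ∀ x ∈ H2, Xm (g.1 x) = g.2 (Xm x)
  G_Nm : ∀ g ∈ G, ∀ x ∈ H2, Nm (g.1 x) = g.2 (Nm x)
  G_Xp : ∀ g ∈ G, ∀ x ∈ H2, Xp (g.1 x) = g.2 (Xp x)
  G_Np : ∀ g ∈ G, ∀ x ∈ H2, Np (g.1 x) = g.2 (Np x)
  F_sub : F ⊆ H2
  F_cpt : IsCompact F
  F_cov : ∀ x ∈ H2, ∃ g ∈ G, g.1 x ∈ F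

/-- null vectors in the closure of the slab -/
def Lam (S : Setup) : Set V4 :=
  {ξ | ξ ≠ 0 ∧ q ξ ξ = 0 ∧ ∀ x ∈ H2,
    q (S.Xm x) ξ ≤ 0 ∧ q (S.Nm x) ξ ≤ 0 ∧ q (S.Xp x) ξ ≤ 0 ∧ q (S.Np x) ξ ≤ 0}

/-- closure of the set of normalised position vectors of the upper surface -/
def nset (S : Setup) : Set V4 := closure {Y | ∃ x ∈ H2, Y = ‖S.Xp x‖⁻¹ • S.Xp x}

/-- unit timelike vectors whose orthogonal plane lies below the upper surface -/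
def Dual (S : Setup) : Set V4 := {N | q N N = -1 ∧ ∀ x ∈ H2, q (S.Xp x) N ≤ 0}

end Helper935.AdS
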