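import Pool.Agent.Helper935_AdS.Hyp
import Pool.Agent.Helper935_AdS.Lin
import Pool.Agent.Helper935_AdS.Ana

namespace Helper935.AdS

namespace A_extX

theorem hasDeriv_q {γ : ℝ → V4} {γ' : V4} {s : ℝ} (h : HasDerivAt γ γ' s) (Z : V4) :
    HasDerivAt (fun s => q (γ s) Z) (q γ' Z) s := by
  have h' := hasDerivAt_pi.1 h
  unfold q
  exact (((((h' 0).mul_const (Z 0)).neg.add ((h' 1).mul_const (Z 1))).add
    ((h' 2).mul_const (Z 2))).sub ((h' 3).mul_const (Z 3)))

/- Proof: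
Along s -> geo x0 v s the function f(s) = q (X (geo x0 v s)) Z has derivative q (dX..) Z and second derivative a^2 q X Z + II q N Z (geoX, geodX and linearity of q); apply second_test.
-/
theorem extX {a : ℝ} {X N : V3 → V4} {dX dN : V3 → V3 → V4} (h : Core a X N dX dN) {x₀ : V3} (hx₀ : x₀ ∈ H2) {Z : V4}
    (hmax : ∀ x ∈ H2, q (X x) Z ≤ q (X x₀) Z) {v : V3} (hv : UT x₀ v) :
    q Z (dX x₀ v) = 0 ∧
      a ^ 2 * q (X x₀) Z + q (dN x₀ v) (dX x₀ v) * q (N x₀) Z ≤ 0 := by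
  have hf : ∀ s : ℝ, HasDerivAt (fun s => q (X (geo x₀ v s)) Z)
      (q (dX (geo x₀ v s) (geo' x₀ v s)) Z) s := fun s =>
    hasDeriv_q (h.geoX x₀ hx₀ v hv s) Z
  have hf1 := hasDeriv_q (h.geodX x₀ hx₀ v hv 0) Z
  have g0 := geo_zero x₀ v
  have hm : ∀ s : ℝ, q (X (geo x₀ v s)) Z ≤ q (X (geo x₀ v 0)) Z := by
    intro s
    rw [g0.1]
    exact hmax _ (geo_mem hx₀ hv s)
  have key := second_test hf hf1 hm
  rw [g0.1, g0.2] at key
  constructor
  · have := key.1
    rw [← this]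
    unfold q
    ring
  · have h2 := key.2
    refine le_trans (le_of_eq ?_) h2
    generalize q (dN x₀ v) (dX x₀ v) = c
    unfold q
    simp only [Pi.add_apply, Pi.smul_apply, smul_eq_mul]
    ring

end A_extX

alias extX := A_extX.extX

namespace A_extN

/- Proof:
Along s -> geo x0 v s: f(s) = q (N (geo x0 v s)) Z has a max at 0, so q (dN x0 v) Z = 0 for every unit tangent v (first derivative of a function with a global max), hence for e1,e2 of an orthonormal basis (e1 = v, e2 from exists_ON). Now dN x0 e_j is tangential: it is orthogonal to X x0 and N x0 (XdN, NdN), so dN x0 e_j = sum_i II(e_j,e_i)/a^2 dX x0 e_i (same products with X, N, dX e1, dX e2; or use Parseval: q (dN e_j) Z = sum_i II(e_j,e_i) q Z (dX e_i) / a^2). The 2x2 matrix II has determinant a^2(1-a^2) > 0 (gauss), hence q Z (dX x0 e_i) = 0.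
-/
theorem extN {a : ℝ} {X N : V3 → V4} {dX dN : V3 → V3 → V4} (h : Core a X N dX dN) {x₀ : V3} (hx₀ : x₀ ∈ H2) {Z : V4}
    (hmax : ∀ x ∈ H2, q (N x) Z ≤ q (N x₀) Z) {v : V3} (hv : UT x₀ v) :
    q Z (dX x₀ v) = 0 := by
  -- the derivative vanishes in all unit directions
  have key : ∀ w : V3, UT x₀ w → q (dN x₀ w) Z = 0 := by
    intro w hw
    have h1 := h.geoN x₀ hx₀ w hw 0
    rw [(geo_zero x₀ w).1, (geo_zero x₀ w).2] at h1
    rw [hasDerivAt_pi] at h1
    have h2 : HasDerivAt (fun s => q (N (geo x₀ w s)) Z) (q (dN x₀ w) Z) 0 := by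
      unfold q
      exact (((((h1 0).mul_const (Z 0)).neg).add ((h1 1).mul_const (Z 1))).add
        ((h1 2).mul_const (Z 2))).sub ((h1 3).mul_const (Z 3))
    have h3 : IsLocalMax (fun s => q (N (geo x₀ w s)) Z) 0 := by
      refine Filter.Eventually.of_forall fun s => ?_
      simp only [(geo_zero x₀ w).1]
      exact hmax _ (geo_mem hx₀ hw s)
    exact h3.hasDerivAt_eq_zero h2
  obtain ⟨w, hON⟩ := exists_ON hx₀ hv
  have hw : UT x₀ w := ⟨hON.2.1, hON.2.2.2.1⟩
  have hsymm : ∀ Y Y' : V4, q Y Y' = q Y' Y := by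
    intro Y Y'
    unfold q
    ring
  have e1 := parseval h hx₀ hON (dN x₀ v) Z
  have e2 := parseval h hx₀ hON (dN x₀ w) Z
  rw [key v hv, hsymm (dN x₀ v) (X x₀), h.XdN x₀ hx₀ v hv.1, hsymm (dN x₀ v) (N x₀),
    h.NdN x₀ hx₀ v hv.1] at e1
  rw [key w hw, hsymm (dN x₀ w) (X x₀), h.XdN x₀ hx₀ w hw.1, hsymm (dN x₀ w) (N x₀),
    h.NdN x₀ hx₀ w hw.1] at e2
  have ha2 : (0 : ℝ) < a ^ 2 := pow_pos h.a_pos 2
  have g := h.gauss x₀ hx₀ v w hON
  have hs := h.II_symm x₀ hx₀ w v hw.1 hv.1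
  rw [hs] at e2
  have f1 : q (dN x₀ v) (dX x₀ v) * q Z (dX x₀ v) + q (dN x₀ v) (dX x₀ w) * q Z (dX x₀ w) = 0 := by
    have : (q (dN x₀ v) (dX x₀ v) * q Z (dX x₀ v) + q (dN x₀ v) (dX x₀ w) * q Z (dX x₀ w)) / a ^ 2
        = 0 := by linarith
    rcases div_eq_zero_iff.1 this with h' | h'
    · exact h'
    · exact absurd h' ha2.ne'
  have f2 : q (dN x₀ v) (dX x₀ w) * q Z (dX x₀ v) + q (dN x₀ w) (dX x₀ w) * q Z (dX x₀ w) = 0 := by
    have : (q (dN x₀ v) (dX x₀ w) * q Z (dX x₀ v) + q (dN x₀ w) (dX x₀ w) * q Z (dX x₀ w)) / a ^ 2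
        = 0 := by linarith
    rcases div_eq_zero_iff.1 this with h' | h'
    · exact h'
    · exact absurd h' ha2.ne'
  have hdet : 0 < a ^ 2 * (1 - a ^ 2) := by
    have h1 := h.a_pos
    have h2 := h.a_lt
    have : a ^ 2 < 1 := by nlinarith
    exact mul_pos ha2 (by linarith)
  have f3 : a ^ 2 * (1 - a ^ 2) * q Z (dX x₀ v) = 0 := by
    rw [← g]
    linear_combination q (dN x₀ w) (dX x₀ w) * f1 - q (dN x₀ v) (dX x₀ w) * f2
  rcases mul_eq_zero.1 f3 with h' | h'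
  · exact absurd h' hdet.ne'
  · exact h'

end A_extN

alias extN := A_extN.extN

namespace A_II_nonneg

/- Proof:
extX with Z = N x0: the function x -> q (X x)(N x0) is <= 0 = value at x0, so a^2*0 + II(v,v) * (-1) <= 0.
-/
theorem II_nonneg {a : ℝ} {X N : V3 → V4} {dX dN : V3 → V3 → V4} (h : Core a X N dX dN) (hs : ∀ x ∈ H2, ∀ y ∈ H2, q (N x) (X y) ≤ 0) {x v : V3} (hx : x ∈ H2) (hv : UT x v) : 0 ≤ q (dN x v) (dX x v) := by
  have hsymm : ∀ Y Z : V4, q Y Z = q Z Y := by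
    intro Y Z
    unfold q
    ring
  have hmax : ∀ y ∈ H2, q (X y) (N x) ≤ q (X x) (N x) := by
    intro y hy
    rw [hsymm (X y), hsymm (X x), h.NX x hx]
    exact hs x hx y hy
  have h1 := (extX h hx hmax hv).2
  rw [hsymm (X x), h.NX x hx, h.NN x hx] at h1
  linarith

end A_II_nonneg

alias II_nonneg := A_II_nonneg.II_nonneg

namespace A_det_le

/- Proof:
For an orthonormal basis, a^2(1-a^2) = II11 II22 - II12^2 <= II11 II22 <= l^2 since 0 <= IIii <= l.
-/
theorem det_le {a : ℝ} {X N : V3 → V4} {dX dN : V3 → V3 → V4} (h : Core a X N dX dN) {x : V3} (hx : x ∈ H2) {l : ℝ}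
    (h0 : ∀ v, UT x v → 0 ≤ q (dN x v) (dX x v)) (hl : ∀ v, UT x v → q (dN x v) (dX x v) ≤ l) :
    a ^ 2 * (1 - a ^ 2) ≤ l ^ 2 := by
  have hx1 : eta x x = -1 := hx.1
  have hp : 0 < 1 + x 2 ^ 2 := by positivity
  have hs : 0 < Real.sqrt (1 + x 2 ^ 2) := Real.sqrt_pos.mpr hp
  have hsq : Real.sqrt (1 + x 2 ^ 2) ^ 2 = 1 + x 2 ^ 2 := Real.sq_sqrt hp.le
  obtain ⟨v, hv⟩ : ∃ v, UT x v := by
    refine ⟨![x 1 / Real.sqrt (1 + x 2 ^ 2), x 0 / Real.sqrt (1 + x 2 ^ 2), 0], ?_, ?_⟩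
    · simp only [eta, Matrix.cons_val_zero, Matrix.cons_val_one, Matrix.cons_val]
      ring
    · simp only [eta, Matrix.cons_val_zero, Matrix.cons_val_one, Matrix.cons_val]
      have h1 : -(x 0 * x 0) + x 1 * x 1 + x 2 * x 2 = -1 := hx1
      field_simp
      nlinarith [hsq, h1]
  obtain ⟨w, hw⟩ := exists_ON hx hv
  obtain ⟨-, w0, v1, w1, vw⟩ := hw
  have hwU : UT x w := ⟨w0, w1⟩
  have g := h.gauss x hx v w ⟨hv.1, w0, v1, w1, vw⟩
  have a1 := h0 v hv
  have a2 := h0 w hwU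
  have b1 := hl v hv
  have b2 := hl w hwU
  nlinarith [sq_nonneg (q (dN x v) (dX x w)), mul_le_mul b1 b2 a2 (a1.trans b1)]

end A_det_le

alias det_le := A_det_le.det_le

namespace A_det_ge

/- Proof:
For an orthonormal basis e1,e2 and v = cos t e1 + sin t e2: II(v,v) = cos^2 II11 + 2 sin cos II12 + sin^2 II22 >= l for all t; so the form II - l is positive semidefinite: (II11-l)(II22-l) >= II12^2 and II11,II22 >= l, thus a^2(1-a^2) = II11 II22 - II12^2 >= l(II11+II22) - l^2 >= l^2.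
-/
theorem det_ge {a : ℝ} {X N : V3 → V4} {dX dN : V3 → V3 → V4} (h : Core a X N dX dN) {x : V3} (hx : x ∈ H2) {l : ℝ} (hl0 : 0 ≤ l)
    (hl : ∀ v, UT x v → l ≤ q (dN x v) (dX x v)) :
    l ^ 2 ≤ a ^ 2 * (1 - a ^ 2) := by
  obtain ⟨e₁, e₂, hON⟩ : ∃ e₁ e₂, ON x e₁ e₂ := by
    obtain ⟨h1, h0⟩ := hx
    have h1' : (x 1) ^ 2 + (x 2) ^ 2 = (x 0) ^ 2 - 1 := by
      simp only [eta] at h1
      linarith
    have hp : (1 + x 0) ≠ 0 := by positivity
    refine ⟨![x 1, 1 + (x 1) ^ 2 / (1 + x 0), x 1 * x 2 / (1 + x 0)],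
      ![x 2, x 1 * x 2 / (1 + x 0), 1 + (x 2) ^ 2 / (1 + x 0)], ?_, ?_, ?_, ?_, ?_⟩
    · simp only [eta, Matrix.cons_val_zero, Matrix.cons_val_one, Matrix.cons_val]
      field_simp
      linear_combination (x 1) * h1'
    · simp only [eta, Matrix.cons_val_zero, Matrix.cons_val_one, Matrix.cons_val]
      field_simp
      linear_combination (x 2) * h1'
    · simp only [eta, Matrix.cons_val_zero, Matrix.cons_val_one, Matrix.cons_val]
      field_simp
      linear_combination (x 1) ^ 2 * h1'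
    · simp only [eta, Matrix.cons_val_zero, Matrix.cons_val_one, Matrix.cons_val]
      field_simp
      linear_combination (x 2) ^ 2 * h1'
    · simp only [eta, Matrix.cons_val_zero, Matrix.cons_val_one, Matrix.cons_val]
      field_simp
      linear_combination (x 1) * (x 2) * h1'
  have hg := h.gauss x hx e₁ e₂ hON
  obtain ⟨t1, t2, n1, n2, n12⟩ := hON
  have hs := h.II_symm x hx e₁ e₂ t1 t2
  set A := q (dN x e₁) (dX x e₁) with hA
  set B := q (dN x e₁) (dX x e₂) with hB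
  set D := q (dN x e₂) (dX x e₂) with hD
  have key : ∀ c s : ℝ, c ^ 2 + s ^ 2 = 1 → l ≤ c ^ 2 * A + 2 * c * s * B + s ^ 2 * D := by
    intro c s hcs
    have hv : UT x (c • e₁ + s • e₂) := by
      constructor
      · have : eta x (c • e₁ + s • e₂) = c * eta x e₁ + s * eta x e₂ := by
          simp only [eta, Pi.add_apply, Pi.smul_apply, smul_eq_mul]; ring
        rw [this, t1, t2]; ring
      · have : eta (c • e₁ + s • e₂) (c • e₁ + s • e₂)
            = c ^ 2 * eta e₁ e₁ + 2 * c * s * eta e₁ e₂ + s ^ 2 * eta e₂ e₂ := by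
          simp only [eta, Pi.add_apply, Pi.smul_apply, smul_eq_mul]; ring
        rw [this, n1, n2, n12]; linarith
    have h2 := hl _ hv
    rw [h.dN_add x hx, h.dX_add x hx, h.dN_smul x hx, h.dN_smul x hx, h.dX_smul x hx,
      h.dX_smul x hx] at h2
    have h3 : q (c • dN x e₁ + s • dN x e₂) (c • dX x e₁ + s • dX x e₂)
        = c ^ 2 * q (dN x e₁) (dX x e₁) + c * s * q (dN x e₁) (dX x e₂)
          + c * s * q (dN x e₂) (dX x e₁) + s ^ 2 * q (dN x e₂) (dX x e₂) := by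
      simp only [q, Pi.add_apply, Pi.smul_apply, smul_eq_mul]; ring
    rw [h3, ← hs] at h2
    linarith
  have hA1 : l ≤ A := by have := key 1 0 (by norm_num); linarith
  have hD1 : l ≤ D := by have := key 0 1 (by norm_num); linarith
  have key2 : ∀ p r : ℝ, 0 ≤ (A - l) * p ^ 2 + 2 * B * p * r + (D - l) * r ^ 2 := by
    intro p r
    by_cases h0 : p ^ 2 + r ^ 2 = 0
    · have hp : p = 0 := by nlinarith [sq_nonneg p, sq_nonneg r]
      have hr : r = 0 := by nlinarith [sq_nonneg p, sq_nonneg r]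
      simp [hp, hr]
    · have hpos : 0 < p ^ 2 + r ^ 2 := lt_of_le_of_ne (by positivity) (Ne.symm h0)
      set w := Real.sqrt (p ^ 2 + r ^ 2) with hw
      have hw2 : w ^ 2 = p ^ 2 + r ^ 2 := Real.sq_sqrt hpos.le
      have hw0 : 0 < w := Real.sqrt_pos.mpr hpos
      have hk := key (p / w) (r / w) (by
        rw [div_pow, div_pow, ← add_div, ← hw2, div_self (by positivity)])
      have h5 : (p / w) ^ 2 * A + 2 * (p / w) * (r / w) * B + (r / w) ^ 2 * D
          = (p ^ 2 * A + 2 * p * r * B + r ^ 2 * D) / w ^ 2 := by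
        field_simp
      rw [h5, le_div_iff₀ (by positivity), hw2] at hk
      linarith
  have hdisc : B ^ 2 ≤ (A - l) * (D - l) := by
    rcases eq_or_lt_of_le hA1 with h6 | h6
    · -- A = l : B = 0
      have hB0 : B = 0 := by
        by_contra hB0
        have h7 := key2 (-(D - l + 1) / (2 * B)) 1
        rw [← h6] at h7
        have h8 : 2 * B * (-(D - l + 1) / (2 * B)) = -(D - l + 1) := by
          field_simp
        nlinarith
      rw [hB0, ← h6]; simp
    · have h7 := key2 (-B) (A - l)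
      have h8 : 0 < A - l := by linarith
      have h9 : 0 ≤ (A - l) * ((A - l) * (D - l) - B ^ 2) := by nlinarith
      have h10 := nonneg_of_mul_nonneg_right h9 h8
      linarith
  nlinarith [mul_nonneg hl0 (sub_nonneg.mpr hA1), mul_nonneg hl0 (sub_nonneg.mpr hD1)]

end A_det_ge

alias det_ge := A_det_ge.det_ge

namespace A_grow

theorem grow_q_left {F : ℝ → V4} {F' : V4} {s : ℝ} (h : HasDerivAt F F' s) (Z : V4) :
    HasDerivAt (fun s => q (F s) Z) (q F' Z) s := by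
  have h' := hasDerivAt_pi.mp h
  unfold q
  exact (((((h' 0).mul_const (Z 0)).fun_neg).fun_add ((h' 1).mul_const (Z 1))).fun_add
    ((h' 2).mul_const (Z 2))).fun_sub ((h' 3).mul_const (Z 3))

theorem grow_q_comb (X N Z : V4) (c d : ℝ) : q (c • X + d • N) Z = c * q X Z + d * q N Z := by
  simp only [q, Pi.add_apply, Pi.smul_apply, smul_eq_mul]
  ring

/- Proof:
f(s) = -q (X (geo x v s)) Z has f'' = a^2 f - II * q N Z >= a^2 f because II >= 0 and q N Z <= 0; apply comparison.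
-/
theorem grow {a : ℝ} {X N : V3 → V4} {dX dN : V3 → V3 → V4} (h : Core a X N dX dN) (hs : ∀ x ∈ H2, ∀ y ∈ H2, q (N x) (X y) ≤ 0) {Z : V4} (hZ : ∀ x ∈ H2, q (N x) Z ≤ 0) {x v : V3} (hx : x ∈ H2) (hv : UT x v)
    {s : ℝ} (hs0 : 0 ≤ s) :
    -q (X x) Z * Real.cosh (a * s) + -q (dX x v) Z * (Real.sinh (a * s) / a) ≤ -q (X (geo x v s)) Z := by
  have hg0 := geo_zero x v
  have h1 : ∀ s, HasDerivAt (fun s => -q (X (geo x v s)) Z)
      (-q (dX (geo x v s) (geo' x v s)) Z) s := fun s =>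
    (grow_q_left (h.geoX x hx v hv s) Z).fun_neg
  have h2 : ∀ s, HasDerivAt (fun s => -q (dX (geo x v s) (geo' x v s)) Z)
      (-q (a ^ 2 • X (geo x v s)
        + q (dN (geo x v s) (geo' x v s)) (dX (geo x v s) (geo' x v s)) • N (geo x v s)) Z) s :=
    fun s => (grow_q_left (h.geodX x hx v hv s) Z).fun_neg
  have key := comparison h.a_pos h1 h2 (fun s _ => by
    rw [grow_q_comb]
    have hII := II_nonneg h hs (geo_mem hx hv s) (geo_UT hx hv s)
    have hN := hZ (geo x v s) (geo_mem hx hv s)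
    nlinarith [mul_nonneg hII (neg_nonneg.mpr hN)]) hs0
  rw [hg0.1, hg0.2] at key
  exact key

end A_grow

alias grow := A_grow.grow

namespace A_grow2

/-- derivative of `q` in its first argument along a curve -/
theorem hasDerivAt_q_left {Y : ℝ → V4} {Y' : V4} {s : ℝ} (h : HasDerivAt Y Y' s) (Z : V4) :
    HasDerivAt (fun s => -q (Y s) Z) (-q Y' Z) s := by
  have hc : ∀ i, HasDerivAt (fun s => Y s i) (Y' i) s := fun i => (hasDerivAt_pi.mp h) i
  unfold q
  have h0 := (hc 0).mul_const (Z 0)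
  have h1 := (hc 1).mul_const (Z 1)
  have h2 := (hc 2).mul_const (Z 2)
  have h3 := (hc 3).mul_const (Z 3)
  exact (((h0.fun_neg.fun_add h1).fun_add h2).fun_sub h3).fun_neg

/- Proof:
f(s) = -q (X (geo x v s)) Z has f'' = a^2 f - II * q N Z >= a^2 f >= a^2 c; apply quadratic.
-/
theorem grow2 {a : ℝ} {X N : V3 → V4} {dX dN : V3 → V3 → V4} (h : Core a X N dX dN) (hs : ∀ x ∈ H2, ∀ y ∈ H2, q (N x) (X y) ≤ 0) {Z : V4} (hZ : ∀ x ∈ H2, q (N x) Z ≤ 0) {c : ℝ}
    (hc : ∀ x ∈ H2, c ≤ -q (X x) Z) {x v : V3} (hx : x ∈ H2) (hv : UT x v)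
    {s : ℝ} (hs0 : 0 ≤ s) :
    -q (X x) Z + -q (dX x v) Z * s + a ^ 2 * c * s ^ 2 / 2 ≤ -q (X (geo x v s)) Z := by
  have h1 := quadratic (f := fun s => -q (X (geo x v s)) Z)
    (f1 := fun s => -q (dX (geo x v s) (geo' x v s)) Z)
    (f2 := fun s => -q (a ^ 2 • X (geo x v s)
        + q (dN (geo x v s) (geo' x v s)) (dX (geo x v s) (geo' x v s)) • N (geo x v s)) Z)
    (c := a ^ 2 * c)
    (fun s => hasDerivAt_q_left (h.geoX x hx v hv s) Z)
    (fun s => hasDerivAt_q_left (h.geodX x hx v hv s) Z)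
    (by
      intro t _
      have hm := geo_mem hx hv t
      have hII := II_nonneg h hs hm (geo_UT hx hv t)
      have hN := hZ _ hm
      have hX := hc _ hm
      set P := q (dN (geo x v t) (geo' x v t)) (dX (geo x v t) (geo' x v t)) with hP
      have hlin : q (a ^ 2 • X (geo x v t) + P • N (geo x v t)) Z =
          a ^ 2 * q (X (geo x v t)) Z + P * q (N (geo x v t)) Z := by
        simp only [q, Pi.add_apply, Pi.smul_apply, smul_eq_mul]
        ring
      show a ^ 2 * c ≤ -q (a ^ 2 • X (geo x v t) + P • N (geo x v t)) Z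
      rw [hlin]
      have h2 : a ^ 2 * c ≤ a ^ 2 * (-q (X (geo x v t)) Z) :=
        mul_le_mul_of_nonneg_left hX (sq_nonneg a)
      have h3 : P * q (N (geo x v t)) Z ≤ 0 := mul_nonpos_of_nonneg_of_nonpos hII hN
      linarith) hs0
  have h0 := geo_zero x v
  simp only [h0.1, h0.2] at h1
  exact h1

end A_grow2

alias grow2 := A_grow2.grow2

namespace A_chordX

/- Proof:
grow with Z = X x: f(0) = 1, f'(0) = 0.
-/
theorem chordX {a : ℝ} {X N : V3 → V4} {dX dN : V3 → V3 → V4} (h : Core a X N dX dN) (hs : ∀ x ∈ H2, ∀ y ∈ H2, q (N x) (X y) ≤ 0) {x y : V3} (hx : x ∈ H2) (hy : y ∈ H2) {d : ℝ} (hd : 0 ≤ d)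
    (hxy : -eta x y = Real.cosh d) : Real.cosh (a * d) ≤ -q (X x) (X y) := by
  have hsymm : ∀ Y Z : V4, q Y Z = q Z Y := by
    intro Y Z
    unfold q
    ring
  obtain ⟨d', v, hd', hv, hgeo⟩ := exists_geo hx hy
  have h1 := eta_geo hx hv d'
  rw [hgeo] at h1
  have h2 : Real.cosh d' = Real.cosh d := by linarith
  have h3 : d' = d := Real.cosh_injOn hd' hd h2
  subst h3
  have h5 := grow h hs (Z := X x) (fun z hz => hs z hz x hx) hx hv hd'
  rw [hgeo, h.XX x hx, hsymm (dX x v) (X x), h.XdX x hx v hv.1] at h5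
  rw [hsymm (X x) (X y)]
  simpa using h5

end A_chordX

alias chordX := A_chordX.chordX

namespace A_chordX1

/- Proof:
chordX and cosh >= 1
-/
theorem chordX1 {a : ℝ} {X N : V3 → V4} {dX dN : V3 → V3 → V4} (h : Core a X N dX dN) (hs : ∀ x ∈ H2, ∀ y ∈ H2, q (N x) (X y) ≤ 0) {x y : V3} (hx : x ∈ H2) (hy : y ∈ H2) : q (X x) (X y) ≤ -1 := by
  obtain ⟨d, v, hd, hv, rfl⟩ := exists_geo hx hy
  have h1 := chordX h hs hx hy hd (by rw [eta_geo hx hv]; ring)
  have h2 := Real.one_le_cosh (a * d)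
  linarith

end A_chordX1

alias chordX1 := A_chordX1.chordX1

namespace A_normX

/- Proof:
chordX: cosh(a d) <= -q (X x0)(X x) <= 4 |X x0| |X x| and d -> infinity as -eta x0 x = cosh d -> infinity.
-/
theorem normX {a : ℝ} {X N : V3 → V4} {dX dN : V3 → V3 → V4} (h : Core a X N dX dN) (hs : ∀ x ∈ H2, ∀ y ∈ H2, q (N x) (X y) ≤ 0) {x₀ : V3} (hx₀ : x₀ ∈ H2) (M : ℝ) :
    ∃ R : ℝ, ∀ x ∈ H2, R < -eta x₀ x → M < ‖X x‖ := by
  have ha := h.a_pos
  set B : ℝ := 4 * ‖X x₀‖ * |M| with hB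
  have hB0 : 0 ≤ B := by positivity
  refine ⟨Real.cosh ((B + 1) / a), fun x hx hR => ?_⟩
  obtain ⟨d, v, hd, hv, rfl⟩ := exists_geo hx₀ hx
  rw [eta_geo hx₀ hv d, neg_neg] at hR
  have h1 : (B + 1) / a < d := by
    rw [Real.cosh_lt_cosh, abs_of_nonneg (by positivity), abs_of_nonneg hd] at hR
    exact hR
  have h2 : B + 1 < a * d := by
    rw [div_lt_iff₀ ha] at h1
    linarith
  have h3 := chordX h hs hx₀ hx hd (by rw [eta_geo hx₀ hv d, neg_neg])
  have h4 : a * d ≤ Real.cosh (a * d) := by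
    have h5 : a * d ≤ Real.sinh (a * d) := Real.self_le_sinh_iff.mpr (by linarith)
    have h6 := Real.sinh_lt_cosh (a * d)
    linarith
  have h7 := q_bound (X x₀) (X (geo x₀ v d))
  have h8 := neg_abs_le (q (X x₀) (X (geo x₀ v d)))
  by_contra hM
  push Not at hM
  have h9 : 4 * ‖X x₀‖ * ‖X (geo x₀ v d)‖ ≤ B := by
    rw [hB]
    exact mul_le_mul_of_nonneg_left (hM.trans (le_abs_self M)) (by positivity)
  linarith

end A_normX

alias normX := A_normX.normX

namespace A_ekeland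

theorem ek_q_deriv {f : ℝ → V4} {f' : V4} {s : ℝ} (hf : HasDerivAt f f' s) (Z : V4) :
    HasDerivAt (fun s => q (f s) Z) (q f' Z) s := by
  have h := hasDerivAt_pi.1 hf
  unfold q
  exact (((((h 0).mul_const (Z 0)).neg.add ((h 1).mul_const (Z 1))).add
    ((h 2).mul_const (Z 2))).sub ((h 3).mul_const (Z 3)))

theorem ek_eta_geo (x₀ x v : V3) (s : ℝ) :
    eta x₀ (geo x v s) = Real.cosh s * eta x₀ x + Real.sinh s * eta x₀ v := by
  simp only [eta, geo, Pi.add_apply, Pi.smul_apply, smul_eq_mul]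
  ring

theorem ek_eta_deriv (x₀ x v : V3) :
    HasDerivAt (fun s => eta x₀ (geo x v s)) (eta x₀ v) 0 := by
  have h1 : (fun s => eta x₀ (geo x v s)) =
      fun s => Real.cosh s * eta x₀ x + Real.sinh s * eta x₀ v := by
    funext s
    exact ek_eta_geo x₀ x v s
  rw [h1]
  have h2 := ((Real.hasDerivAt_cosh 0).mul_const (eta x₀ x)).add
    ((Real.hasDerivAt_sinh 0).mul_const (eta x₀ v))
  rw [Real.sinh_zero, Real.cosh_zero, zero_mul, one_mul, zero_add] at h2
  exact h2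

theorem ek_bound {x₀ x v : V3} (hx₀ : x₀ ∈ H2) (hx : x ∈ H2) (hv : UT x v) :
    |eta x₀ v| ≤ -eta x₀ x := by
  obtain ⟨w, hw⟩ := exists_ON hx hv
  have hxx : eta x x = -1 := hx.1
  have h00 : eta x₀ x₀ = -1 := hx₀.1
  obtain ⟨o1, o2, o3, o4, o5⟩ := hw
  have ht : eta x (x₀ + eta x₀ x • x) = 0 := by
    have : eta x (x₀ + eta x₀ x • x) = eta x₀ x + eta x₀ x * eta x x := by
      simp only [eta, Pi.add_apply, Pi.smul_apply, smul_eq_mul]
      ring
    rw [this, hxx]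
    ring
  have e1 : eta (x₀ + eta x₀ x • x) (x₀ + eta x₀ x • x) = eta x₀ x ^ 2 - 1 := by
    have : eta (x₀ + eta x₀ x • x) (x₀ + eta x₀ x • x) =
        eta x₀ x₀ + 2 * eta x₀ x ^ 2 + eta x₀ x ^ 2 * eta x x := by
      simp only [eta, Pi.add_apply, Pi.smul_apply, smul_eq_mul]
      ring
    rw [this, hxx, h00]
    ring
  have e2 : eta (x₀ + eta x₀ x • x) v = eta x₀ v := by
    have : eta (x₀ + eta x₀ x • x) v = eta x₀ v + eta x₀ x * eta x v := by
      simp only [eta, Pi.add_apply, Pi.smul_apply, smul_eq_mul]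
      ring
    rw [this, o1]
    ring
  have e3 := tangent_expand hx ⟨o1, o2, o3, o4, o5⟩ ht
  have e4 : eta (x₀ + eta x₀ x • x) (x₀ + eta x₀ x • x) =
      eta (x₀ + eta x₀ x • x) v ^ 2 + eta (x₀ + eta x₀ x • x) w ^ 2 := by
    generalize x₀ + eta x₀ x • x = t at e3
    have : eta t (eta t v • v + eta t w • w) = eta t v ^ 2 + eta t w ^ 2 := by
      have h1 : ∀ (a b : ℝ), eta t (a • v + b • w) = a * eta t v + b * eta t w := by
        intro a b
        simp only [eta, Pi.add_apply, Pi.smul_apply, smul_eq_mul]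
        ring
      rw [h1]
      ring
    rw [← e3] at this
    exact this
  have e5 : eta x₀ v ^ 2 ≤ (-eta x₀ x) ^ 2 := by
    rw [e1, e2] at e4
    nlinarith [sq_nonneg (eta (x₀ + eta x₀ x • x) w)]
  have e6 : 0 ≤ -eta x₀ x := by
    have := eta_le hx₀ hx
    linarith
  exact abs_le_of_sq_le_sq e5 e6

/- Proof:
Let w(x) = -q (X x) Z >= 0 on H2, i = inf w, take x0 in H2 with w(x0) <= i + eps/2, and consider g(x) = w(x) + (eps/2) * (-eta x0 x) on H2. g is continuous, its sublevel sets are compact (H2_ball; use w >= 0), so g has a minimum x1 on H2. g(x1) <= g(x0) = w(x0) + eps/2, hence (eps/2)(-eta x0 x1) <= w(x0) - w(x1) + eps/2 <= eps.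
At x1 the derivative of g along each geodesic vanishes: q (dX x1 v) Z = -(eps/2) eta x0 v, and |eta x0 v| <= sqrt((eta x0 x1)^2 - 1) <= -eta x0 x1 (Cauchy-Schwarz in the tangent plane at x1, or note both one-sided inequality for v and -v), so |q (dX x1 v) Z| <= (eps/2) (-eta x0 x1) <= eps.
-/
theorem ekeland {a : ℝ} {X N : V3 → V4} {dX dN : V3 → V3 → V4} (h : Core a X N dX dN) {Z : V4} (hZ : ∀ x ∈ H2, q (X x) Z ≤ 0) {ε : ℝ} (hε : 0 < ε) :
    ∃ x ∈ H2, ∀ v, UT x v → |q (dX x v) Z| ≤ ε := by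
  have hne : H2.Nonempty := by
    refine ⟨![1, 0, 0], ?_, ?_⟩
    · simp [eta]
    · simp
  set S : Set ℝ := (fun x => -q (X x) Z) '' H2 with hS
  have hSne : S.Nonempty := hne.image _
  have hSb : BddBelow S := by
    refine ⟨0, ?_⟩
    rintro _ ⟨x, hx, rfl⟩
    have := hZ x hx
    simp only
    linarith
  obtain ⟨_, ⟨x₀, hx₀, rfl⟩, hlt⟩ := exists_lt_of_csInf_lt hSne
    (show sInf S < sInf S + ε / 2 by linarith)
  simp only at hlt
  have hinf : ∀ x ∈ H2, sInf S ≤ -q (X x) Z := fun x hx => csInf_le hSb ⟨x, hx, rfl⟩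
  have h00 : eta x₀ x₀ = -1 := hx₀.1
  have hw0 : 0 ≤ -q (X x₀) Z := by
    have := hZ x₀ hx₀
    linarith
  -- the penalised function
  let g : V3 → ℝ := fun x => -q (X x) Z + ε / 2 * (-eta x₀ x)
  have hg0 : g x₀ = -q (X x₀) Z + ε / 2 := by
    show -q (X x₀) Z + ε / 2 * (-eta x₀ x₀) = _
    rw [h00]
    ring
  have hcont : ContinuousOn g H2 := by
    have h1 := h.contX
    have h2 : ∀ i, ContinuousOn (fun x => X x i) H2 := fun i =>
      (continuous_apply i).comp_continuousOn h1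
    have h3 : ContinuousOn (fun x => q (X x) Z) H2 := by
      unfold q
      exact ((((h2 0).mul continuousOn_const).neg.add ((h2 1).mul continuousOn_const)).add
        ((h2 2).mul continuousOn_const)).sub ((h2 3).mul continuousOn_const)
    have h4 : Continuous (fun x : V3 => eta x₀ x) := by
      unfold eta
      fun_prop
    exact h3.neg.add (continuousOn_const.mul h4.continuousOn.neg)
  set R : ℝ := 2 * g x₀ / ε with hR
  have hRε : ε / 2 * R = g x₀ := by
    rw [hR]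
    field_simp
  have hR1 : 1 ≤ R := by
    rw [hR, le_div_iff₀ hε, hg0]
    linarith
  set K : Set V3 := {x | x ∈ H2 ∧ -eta x₀ x ≤ R} with hK
  have hKc : IsCompact K := H2_ball hx₀ R
  have hx0K : x₀ ∈ K := ⟨hx₀, by rw [h00]; linarith⟩
  obtain ⟨x₁, hx1K, hmin⟩ := hKc.exists_isMinOn ⟨x₀, hx0K⟩ (hcont.mono fun x hx => hx.1)
  have hx1 : x₁ ∈ H2 := hx1K.1
  have hminK : ∀ x ∈ K, g x₁ ≤ g x := fun x hx => hmin hx
  have hminH : ∀ x ∈ H2, g x₁ ≤ g x := by
    intro x hx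
    by_cases hxK : -eta x₀ x ≤ R
    · exact hminK x ⟨hx, hxK⟩
    · refine (hminK x₀ hx0K).trans ?_
      have h5 := hZ x hx
      have h6 : ε / 2 * R ≤ ε / 2 * (-eta x₀ x) :=
        mul_le_mul_of_nonneg_left (not_le.1 hxK).le (by positivity)
      show g x₀ ≤ -q (X x) Z + ε / 2 * (-eta x₀ x)
      linarith
  have hb : ε / 2 * (-eta x₀ x₁) ≤ ε := by
    have h7 := hminK x₀ hx0K
    have h8 := hinf x₁ hx1
    rw [hg0] at h7
    have h9 : g x₁ = -q (X x₁) Z + ε / 2 * (-eta x₀ x₁) := rfl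
    linarith
  refine ⟨x₁, hx1, fun v hv => ?_⟩
  have hd : HasDerivAt (fun s => g (geo x₁ v s)) (-q (dX x₁ v) Z + ε / 2 * (-eta x₀ v)) 0 := by
    have h10 := h.geoX x₁ hx1 v hv 0
    rw [(geo_zero x₁ v).1, (geo_zero x₁ v).2] at h10
    exact (ek_q_deriv h10 Z).neg.add ((ek_eta_deriv x₀ x₁ v).neg.const_mul (ε / 2))
  have hloc : IsLocalMin (fun s => g (geo x₁ v s)) 0 := by
    refine Filter.Eventually.of_forall fun s => ?_
    simp only [(geo_zero x₁ v).1]
    exact hminH _ (geo_mem hx1 hv s)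
  have h11 := hloc.hasDerivAt_eq_zero hd
  have h12 : q (dX x₁ v) Z = -(ε / 2) * eta x₀ v := by linarith
  rw [h12, abs_mul, abs_neg, abs_of_pos (by positivity : 0 < ε / 2)]
  exact (mul_le_mul_of_nonneg_left (ek_bound hx₀ hx1 hv) (by positivity)).trans hb

end A_ekeland

alias ekeland := A_ekeland.ekeland

namespace A_nonspacelike

/- Proof:
Suppose s = q Z Z > 0. By ekeland there is x with |q (dX x v) Z| <= eps for unit tangent v; parseval gives s = -(q Z X)^2 + (..^2+..^2)/a^2 - (q Z N)^2 <= 2 eps^2 / a^2; contradiction for small eps.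
-/
theorem nonspacelike {a : ℝ} {X N : V3 → V4} {dX dN : V3 → V3 → V4} (h : Core a X N dX dN) {Z : V4} (hZ : ∀ x ∈ H2, q (X x) Z ≤ 0) : q Z Z ≤ 0 := by
  by_contra hs
  push Not at hs
  have ha := h.a_pos
  have hsq : 0 < Real.sqrt (q Z Z) := Real.sqrt_pos.mpr hs
  have hε : 0 < a * Real.sqrt (q Z Z) / 2 := by positivity
  obtain ⟨x, hx, hxe⟩ := ekeland h hZ hε
  obtain ⟨e₁, he₁⟩ := exists_UT hx
  obtain ⟨e₂, he₂⟩ := exists_ON hx he₁
  have hp := parseval h hx he₂ Z Z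
  have hu₂ : UT x e₂ := ⟨he₂.2.1, he₂.2.2.2.1⟩
  have symm : ∀ A B : V4, q A B = q B A := fun A B => by unfold q; ring
  have b1 := hxe e₁ he₁
  have b2 := hxe e₂ hu₂
  rw [symm] at b1 b2
  have hs2 : Real.sqrt (q Z Z) ^ 2 = q Z Z := Real.sq_sqrt hs.le
  have c1 : q Z (dX x e₁) * q Z (dX x e₁) ≤ a ^ 2 * q Z Z / 4 := by
    have := abs_le.mp b1
    have h1 : q Z (dX x e₁) ^ 2 ≤ (a * Real.sqrt (q Z Z) / 2) ^ 2 := sq_le_sq' this.1 this.2
    have h2 : (a * Real.sqrt (q Z Z) / 2) ^ 2 = a ^ 2 * Real.sqrt (q Z Z) ^ 2 / 4 := by ring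
    rw [h2, hs2] at h1
    nlinarith
  have c2 : q Z (dX x e₂) * q Z (dX x e₂) ≤ a ^ 2 * q Z Z / 4 := by
    have := abs_le.mp b2
    have h1 : q Z (dX x e₂) ^ 2 ≤ (a * Real.sqrt (q Z Z) / 2) ^ 2 := sq_le_sq' this.1 this.2
    have h2 : (a * Real.sqrt (q Z Z) / 2) ^ 2 = a ^ 2 * Real.sqrt (q Z Z) ^ 2 / 4 := by ring
    rw [h2, hs2] at h1
    nlinarith
  have c3 : (q Z (dX x e₁) * q Z (dX x e₁) + q Z (dX x e₂) * q Z (dX x e₂)) / a ^ 2 ≤ q Z Z / 2 := by
    rw [div_le_iff₀ (by positivity)]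
    nlinarith
  nlinarith [mul_self_nonneg (q Z (X x)), mul_self_nonneg (q Z (N x))]

end A_nonspacelike

alias nonspacelike := A_nonspacelike.nonspacelike

namespace A_strictX

/- Proof:
If q (X x) Z = 0 then x is a global max of q (X .) Z, so extX gives q Z (dX x v) = 0 for all unit tangent v and decomp gives Z = c N x; q Z Z = -c^2 = 0, so Z = 0.
-/
theorem strictX {a : ℝ} {X N : V3 → V4} {dX dN : V3 → V3 → V4} (h : Core a X N dX dN) {Z : V4} (hZ0 : Z ≠ 0) (hZZ : q Z Z = 0)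
    (hZ : ∀ x ∈ H2, q (X x) Z ≤ 0) {x : V3} (hx : x ∈ H2) : q (X x) Z < 0 := by
  refine lt_of_le_of_ne (hZ x hx) fun h0 => hZ0 ?_
  have hmax : ∀ y ∈ H2, q (X y) Z ≤ q (X x) Z := fun y hy => by
    rw [h0]
    exact hZ y hy
  have hd := decomp h hx (Z := Z) (fun v hv => (extX h hx hmax hv).1)
  rw [h0, neg_zero, zero_smul, zero_add] at hd
  set c : ℝ := -(q (N x) Z) with hc
  have hNN := h.NN x hx
  have h1 : q Z Z = c ^ 2 * q (N x) (N x) := by
    rw [hd]
    simp only [q, Pi.smul_apply, smul_eq_mul]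
    ring
  rw [hZZ, hNN] at h1
  have hc0 : c = 0 := by
    have : c ^ 2 = 0 := by linarith
    exact pow_eq_zero_iff (two_ne_zero) |>.1 this
  rw [hd, hc0, zero_smul]

end A_strictX

alias strictX := A_strictX.strictX

namespace A_strictN

/- Proof:
If q (N x) Z = 0 then x is a global max of q (N .) Z, so extN and decomp give Z = c X x; q Z Z = -c^2 = 0, so Z = 0.
-/
theorem strictN {a : ℝ} {X N : V3 → V4} {dX dN : V3 → V3 → V4} (h : Core a X N dX dN) {Z : V4} (hZ0 : Z ≠ 0) (hZZ : q Z Z = 0)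
    (hZ : ∀ x ∈ H2, q (N x) Z ≤ 0) {x : V3} (hx : x ∈ H2) : q (N x) Z < 0 := by
  refine lt_of_le_of_ne (hZ x hx) fun h0 => hZ0 ?_
  have hmax : ∀ y ∈ H2, q (N y) Z ≤ q (N x) Z := fun y hy => by rw [h0]; exact hZ y hy
  have hdec := decomp h hx (Z := Z) fun v hv => extN h hx hmax hv
  rw [h0, neg_zero, zero_smul, add_zero] at hdec
  have hsm : ∀ (c : ℝ) (Y : V4), q (c • Y) (c • Y) = c ^ 2 * q Y Y := by
    intro c Y; simp only [q, Pi.smul_apply, smul_eq_mul]; ring
  have h1 : q Z Z = -(q (X x) Z) ^ 2 := by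
    conv_lhs => rw [hdec]
    rw [hsm, h.XX x hx]; ring
  have h2 : q (X x) Z = 0 := by
    rw [hZZ] at h1
    have : (q (X x) Z) ^ 2 = 0 := by linarith
    exact pow_eq_zero_iff (two_ne_zero) |>.mp this
  rw [hdec, h2, neg_zero, zero_smul]

end A_strictN

alias strictN := A_strictN.strictN

namespace A_contactX

/- Proof:
extX + decomp: Z = c N x with c = -q (N x) Z, c^2 = 1. If c = -1, then q (X y)(N x) >= 0 and <= 0 for all y in H2, hence = 0 for all y; so extX applies to both N x and -N x at x: II(v,v) = 0 for all unit tangent v; with v = e1, e2 and polarisation ((e1+e2)/sqrt 2) all entries vanish (or just II11 II22 - II12^2 = -II12^2 <= 0 with II11 = II22 = 0), contradicting gauss a^2(1-a^2) > 0.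
-/
theorem contactX {a : ℝ} {X N : V3 → V4} {dX dN : V3 → V3 → V4} (h : Core a X N dX dN) (hs : ∀ x ∈ H2, ∀ y ∈ H2, q (N x) (X y) ≤ 0) {Z : V4} (hZZ : q Z Z = -1) (hZ : ∀ x ∈ H2, q (X x) Z ≤ 0) {x : V3}
    (hx : x ∈ H2) (h0 : q (X x) Z = 0) : Z = N x := by
  have hsymm : ∀ Y Z : V4, q Y Z = q Z Y := by
    intro Y Z
    unfold q
    ring
  have hsmul : ∀ (c : ℝ) (Y W : V4), q (c • Y) W = c * q Y W := by
    intro c Y W
    simp only [q, Pi.smul_apply, smul_eq_mul]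
    ring
  have hmax : ∀ y ∈ H2, q (X y) Z ≤ q (X x) Z := by
    intro y hy
    rw [h0]; exact hZ y hy
  have hext := fun (v : V3) (hv : UT x v) => extX h hx hmax hv
  have hdec := decomp h hx (Z := Z) (fun v hv => (hext v hv).1)
  rw [h0, neg_zero, zero_smul, zero_add] at hdec
  obtain ⟨c, hc⟩ : ∃ c, c = -(q (N x) Z) := ⟨_, rfl⟩
  rw [← hc] at hdec
  have hc2 : c ^ 2 = 1 := by
    have h1 : q Z Z = -(c ^ 2) := by
      calc q Z Z = q (c • N x) (c • N x) := by rw [← hdec]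
        _ = c * (c * q (N x) (N x)) := by rw [hsmul, hsymm (N x) (c • N x), hsmul]
        _ = -(c ^ 2) := by rw [h.NN x hx]; ring
    linarith
  have hc3 : c = 1 ∨ c = -1 := by
    have h2 : (c - 1) * (c + 1) = 0 := by linarith [hc2, sq c]
    rcases mul_eq_zero.1 h2 with h3 | h3
    · left; linarith
    · right; linarith
  rcases hc3 with hc1 | hc1
  · rw [hdec, hc1, one_smul]
  · exfalso
    have hNZ : N x = (-1 : ℝ) • Z := by
      rw [hdec, hc1, smul_smul]
      norm_num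
    have hzero : ∀ y ∈ H2, q (X y) (N x) = 0 := by
      intro y hy
      have h1 : q (X y) (N x) = -q (X y) Z := by
        rw [hNZ, hsymm (X y), hsmul, hsymm Z]; ring
      have h2 := hZ y hy
      have h3 := hs x hx y hy
      rw [hsymm] at h3
      linarith
    have hII : ∀ v, UT x v → q (dN x v) (dX x v) = 0 := by
      intro v hv
      have h1 := (extX h hx (Z := N x) (fun y hy => by rw [hzero y hy, hzero x hx]) hv).2
      rw [hzero x hx, h.NN x hx] at h1
      have h2 := (hext v hv).2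
      have h3 : q (N x) Z = 1 := by linarith
      rw [h0, h3] at h2
      linarith
    obtain ⟨v, hv⟩ := exists_UT hx
    obtain ⟨w, hw⟩ := exists_ON hx hv
    have h1 := h.gauss x hx v w hw
    rw [hII v hv, hII w ⟨hw.2.1, hw.2.2.2.1⟩] at h1
    have h2 : 0 < a ^ 2 * (1 - a ^ 2) := by
      have := h.a_pos
      have := h.a_lt
      apply mul_pos
      · positivity
      · nlinarith
    nlinarith [sq_nonneg (q (dN x v) (dX x w))]

end A_contactX

alias contactX := A_contactX.contactX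

namespace A_contactN

/- Proof:
extN + decomp
-/
theorem contactN {a : ℝ} {X N : V3 → V4} {dX dN : V3 → V3 → V4} (h : Core a X N dX dN) {Z : V4} (hZ : ∀ x ∈ H2, q (N x) Z ≤ 0) {x : V3}
    (hx : x ∈ H2) (h0 : q (N x) Z = 0) : Z = (-(q (X x) Z)) • X x := by
  have h1 := decomp h hx (Z := Z) fun v hv => extN h hx
    (fun y hy => by rw [h0]; exact hZ y hy) hv
  rw [h0] at h1
  rw [neg_zero, zero_smul, add_zero] at h1
  exact h1

end A_contactN

alias contactN := A_contactN.contactN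

end Helper935.AdS
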