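import Pool.Agent.Helper935_AdS.Defs3
import Pool.Agent.Helper935_AdS.Frame
import Pool.Agent.Helper935_AdS.Weak
import Pool.Agent.Helper935_AdS.Fuch
import Pool.Agent.Helper935_AdS.Conc

namespace Helper935.AdS

/-- add positivity -/
theorem IsRegSurface.convex {X N : V3 → V4} (h : IsRegSurface X N) (hp : PosII X N) :
    IsConvexSurface X N :=
  ⟨h.smoothX, h.smoothN, h.homX, h.homN, h.XX, h.NN, h.NX, h.NdX, h.spacelike, hp⟩

/-- the strictly convex slab structure used in the proofs -/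
def ConvexSlab.toC {Γ : Type*} [Group Γ] {A : Γ →* (V3 ≃ₗ[ℝ] V3)} (S : ConvexSlab A)
    (hm : PosII S.Xm S.Nm) (hp : PosII S.Xp S.Np) : CSlab A where
  ρ := S.ρ
  iso := S.iso
  Xm := S.Xm
  Nm := S.Nm
  Xp := S.Xp
  Np := S.Np
  surf_m := S.surf_m.convex hm
  surf_p := S.surf_p.convex hp
  inj_m := S.inj_m
  inj_p := S.inj_p
  eq_m := S.eq_m
  eq_p := S.eq_p
  K := S.K
  bd := S.bd

theorem strict_unique {Γ : Type*} [Group Γ] {A : Γ →* (V3 ≃ₗ[ℝ] V3)} (hA : IsCocompact A)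
    (S₀ S : CSlab A) (h₀ : IsFuchsian S₀) (hm : SameMetric S.Xm S₀.Xm)
    (hp : SameMetric S.Xp S₀.Xp) : ∃ Φ, Carries2 S₀ S Φ := by
  obtain ⟨T, hTm, hTp, hT0m, hT0p, hG⟩ := setup_of hA S₀ S h₀ hm hp
  obtain ⟨L, E, h1, h2, h3, h4, h5, h6⟩ := final2 T
  refine carries_of S₀ S h₀ h1 h2 h3 (cm := T.cm) (sm := T.sm) (cp := T.cp) (sp := T.sp)
    ?_ ?_ ?_ ?_ ?_
  · intro x hx; rw [← hT0m]; exact T.X0m x hx
  · intro x hx; rw [← hT0p]; exact T.X0p x hx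
  · intro x hx; rw [← hTm]; exact h4 x hx
  · intro x hx; rw [← hTp]; exact h5 x hx
  · intro g; exact h6 _ (hG g)

theorem fuchsian_unique {Γ : Type*} [Group Γ] {A : Γ →* (V3 ≃ₗ[ℝ] V3)} (hA : IsCocompact A)
    (S₀ S : ConvexSlab A) (h₀ : StrictFuchsian S₀) (hm : SameMetric S.Xm S₀.Xm)
    (hp : SameMetric S.Xp S₀.Xp) : ∃ Φ, Congruent S₀ S Φ := by
  have pm : PosII S.Xm S.Nm := pos_of S.surf_m S₀.surf_m hm h₀.pos_m
    (fun x hx y hy => S.bd.supp_m x hx _ (S.bd.mem_m y hy))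
  have pp : PosII S.Xp S.Np := pos_of S.surf_p S₀.surf_p hp h₀.pos_p
    (fun x hx y hy => S.bd.supp_p x hx _ (S.bd.mem_p y hy))
  obtain ⟨Φ, hΦ⟩ := strict_unique hA (S₀.toC h₀.pos_m h₀.pos_p) (S.toC pm pp)
    ⟨h₀.rho, h₀.vert_m, h₀.vert_p⟩ hm hp
  exact ⟨Φ, hΦ.iso, hΦ.m, hΦ.p, hΦ.rho⟩

end Helper935.AdS
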